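import Mathlib

section
/-!
# Corotational Jeffreys model: shared vocabulary

`Eu n = ℝⁿ`, `Mt n = ` real `n × n` matrices with the Frobenius norm (indexed by `(row, column)`),
`ST n = ℝ × ℝⁿ` space-time (time first).  All fields are functions on the whole space-time which
vanish outside the time interval `(0, T)`.
-/

open MeasureTheory Set Filter Topology
open scoped ENNReal ContDiff

namespace Pool.Agent.Helper42.Jef

abbrev Eu (n : ℕ) := EuclideanSpace ℝ (Fin n)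
abbrev Mt (n : ℕ) := EuclideanSpace ℝ (Fin n × Fin n)
abbrev ST (n : ℕ) := ℝ × Eu n

variable {n : ℕ}

/-- coordinate vector -/
noncomputable def bv (j : Fin n) : Eu n := EuclideanSpace.single j (1 : ℝ)

/-- gradient matrix: `(grad φ x) (i, j) = ∂_j φ_i (x)` -/
noncomputable def grad (φ : Eu n → Eu n) (x : Eu n) : Mt n :=
  WithLp.toLp 2 fun p => (fderiv ℝ φ x (bv p.2)) p.1

/-- divergence -/
noncomputable def dvg (φ : Eu n → Eu n) (x : Eu n) : ℝ := ∑ i, (fderiv ℝ φ x (bv i)) i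

/-- transpose -/
noncomputable def tr (A : Mt n) : Mt n := WithLp.toLp 2 fun p => A p.swap

/-- symmetric part -/
noncomputable def sy (A : Mt n) : Mt n := (1 / 2 : ℝ) • (A + tr A)

/-- antisymmetric part (the spin, when `A = grad v`) -/
noncomputable def sp (A : Mt n) : Mt n := (1 / 2 : ℝ) • (A - tr A)

/-- commutator `A W - W A` -/
noncomputable def br (A W : Mt n) : Mt n :=
  WithLp.toLp 2 fun p => ∑ l, (A (p.1, l) * W (l, p.2) - W (p.1, l) * A (l, p.2))

/-- divergence free velocity test fields, compactly supported in `Ω` -/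
structure IsVT (Ω : Set (Eu n)) (φ : Eu n → Eu n) : Prop where
  smooth : ContDiff ℝ ∞ φ
  cpt : HasCompactSupport φ
  supp : tsupport φ ⊆ Ω
  div0 : ∀ x, dvg φ x = 0

/-- scalar test functions `C_c^∞(ℝⁿ)` -/
structure IsTest (ψ : Eu n → ℝ) : Prop where
  smooth : ContDiff ℝ ∞ ψ
  cpt : HasCompactSupport ψ

/-- time test functions: `C_c^∞`, supported in the open interval `(a, b)` -/
structure IsTime (a b : ℝ) (η : ℝ → ℝ) : Prop where
  smooth : ContDiff ℝ ∞ η
  cpt : HasCompactSupport η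
  supp : tsupport η ⊆ Ioo a b

/-- elementary velocity fields `∑ c_j(t) φ_j(x)` with gradient -/
def IsElem (Ω : Set (Eu n)) (T : ℝ) (v : ST n → Eu n) (G : ST n → Mt n) : Prop :=
  ∃ (N : ℕ) (c : Fin N → ℝ → ℝ) (φ : Fin N → Eu n → Eu n),
    (∀ j, Measurable (c j)) ∧ (∀ j, ∃ C : ℝ, ∀ t, |c j t| ≤ C) ∧
    (∀ j, ∀ t, t ∉ Ioo 0 T → c j t = 0) ∧ (∀ j, IsVT Ω (φ j)) ∧
    (∀ z, v z = ∑ j, c j z.1 • φ j z.2) ∧ (∀ z, G z = ∑ j, c j z.1 • grad (φ j) z.2)

/-- `v ∈ L²(0,T;V)` with gradient `G`: closure of the elementary fields -/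
structure IsVel (Ω : Set (Eu n)) (T : ℝ) (v : ST n → Eu n) (G : ST n → Mt n) : Prop where
  memv : MemLp v 2 volume
  memG : MemLp G 2 volume
  approx : ∀ ε : ℝ, 0 < ε → ∃ (v' : ST n → Eu n) (G' : ST n → Mt n), IsElem Ω T v' G' ∧
    eLpNorm (v - v') 2 volume ≤ ENNReal.ofReal ε ∧ eLpNorm (G - G') 2 volume ≤ ENNReal.ofReal ε

/-- `∂_t u + div (v u) = F` in the sense of distributions on `(-1,T) × ℝⁿ`
(product test functions) -/
def TE {E : Type*} [NormedAddCommGroup E] [NormedSpace ℝ E] (T : ℝ) (v : ST n → Eu n)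
    (u F : ST n → E) : Prop :=
  ∀ (η : ℝ → ℝ) (ψ : Eu n → ℝ), IsTime (-1) T η → IsTest ψ →
    ∫ z : ST n, ((deriv η z.1 * ψ z.2 + η z.1 * fderiv ℝ ψ z.2 (v z)) • u z +
      (η z.1 * ψ z.2) • F z) = 0

/-- weak convergence in `L²(μ; E)`, function level -/
structure WC {α : Type*} [MeasurableSpace α] {E : Type*} [NormedAddCommGroup E]
    [InnerProductSpace ℝ E] (μ : Measure α) (u : ℕ → α → E) (U : α → E) : Prop where
  mem : ∀ m, MemLp (u m) 2 μ
  bdd : ∃ C : ℝ, ∀ m, eLpNorm (u m) 2 μ ≤ ENNReal.ofReal C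
  memU : MemLp U 2 μ
  conv : ∀ g : α → E, MemLp g 2 μ →
    Tendsto (fun m => ∫ x, inner ℝ (u m x) (g x) ∂μ) atTop (𝓝 (∫ x, inner ℝ (U x) (g x) ∂μ))

/-- the truncation `x / √(1 + |x|²/k²)` -/
noncomputable def bk {E : Type*} [NormedAddCommGroup E] [InnerProductSpace ℝ E] (k : ℝ) (x : E) :
    E := (Real.sqrt (1 + ‖x‖ ^ 2 / k ^ 2))⁻¹ • x

/-- the standard bump of radius one, with integral one -/
noncomputable def rho (n : ℕ) : Eu n → ℝ :=
  (⟨1 / 2, 1, by norm_num, by norm_num⟩ : ContDiffBump (0 : Eu n)).normed volume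

/-- spatial mollifier of radius `ε` -/
noncomputable def ro (ε : ℝ) (x : Eu n) : ℝ := (ε ^ n)⁻¹ * rho n (ε⁻¹ • x)

/-- spatial mollification of a space-time function -/
noncomputable def mo {E : Type*} [NormedAddCommGroup E] [NormedSpace ℝ E] (ε : ℝ) (u : ST n → E)
    (z : ST n) : E := ∫ y : Eu n, ro ε (z.2 - y) • u (z.1, y)

/-- the mollified spin `1_Ω (ρ_δ * sp G)` -/
noncomputable def mspin (Ω : Set (Eu n)) (δ : ℝ) (G : ST n → Mt n) (z : ST n) : Mt n :=
  Ω.indicator (fun _ => mo δ (fun y => sp (G y)) z) z.2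

/-- convolution on space-time -/
noncomputable def cv (k u : ST n → ℝ) (z : ST n) : ℝ := ∫ y, k (z - y) * u y

/-- forces: `f t` is a linear functional on velocity test fields, bounded by `g t` times the
`H¹` norm, with `g ∈ L²_loc`, measurable in time -/
structure IsForce (Ω : Set (Eu n)) (f : ℝ → (Eu n → Eu n) → ℝ) (g : ℝ → ℝ) : Prop where
  add : ∀ t φ ψ, IsVT Ω φ → IsVT Ω ψ → f t (φ + ψ) = f t φ + f t ψ
  smul : ∀ t (c : ℝ) φ, IsVT Ω φ → f t (c • φ) = c * f t φ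
  bound : ∀ t φ, IsVT Ω φ → |f t φ| ≤ g t * Real.sqrt ((∫ x, ‖φ x‖ ^ 2) + ∫ x, ‖grad φ x‖ ^ 2)
  meas : ∀ φ, IsVT Ω φ → AEStronglyMeasurable (fun t => f t φ) volume
  gmeas : AEStronglyMeasurable g volume
  gnn : ∀ t, 0 ≤ g t
  gint : ∀ T : ℝ, IntegrableOn (fun t => g t ^ 2) (Ioo 0 T)

/-- weak solutions on `(0,T)` of the (rescaled) system with spin field `S`
(`μ` viscosity, `a` damping, `c` coupling); product test functions -/
structure IsSol (Ω : Set (Eu n)) (T μ a c : ℝ) (f : ℝ → (Eu n → Eu n) → ℝ)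
    (v0 : Eu n → Eu n) (τ0 : Eu n → Mt n) (S : ST n → Mt n)
    (v : ST n → Eu n) (G τ : ST n → Mt n) : Prop where
  vel : IsVel Ω T v G
  memτ : MemLp τ 2 volume
  supτ : ∀ z : ST n, z.1 ∉ Ioo 0 T → τ z = 0
  memS : MemLp S 2 volume
  mom : ∀ (η : ℝ → ℝ) (φ : Eu n → Eu n), IsTime (-1) T η → IsVT Ω φ →
    (∫ z : ST n, (deriv η z.1 * inner ℝ (v z) (φ z.2) +
      η z.1 * (inner ℝ (v z) (fderiv ℝ φ z.2 (v z)) - μ * inner ℝ (G z) (grad φ z.2) -
        c * inner ℝ (τ z) (sy (grad φ z.2))))) + (∫ t in Ioo 0 T, η t * f t φ) +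
      η 0 * ∫ x, inner ℝ (v0 x) (φ x) = 0
  str : ∀ (η : ℝ → ℝ) (ψ : Eu n → ℝ), IsTime (-1) T η → IsTest ψ →
    (∫ z : ST n, ((deriv η z.1 * ψ z.2 + η z.1 * fderiv ℝ ψ z.2 (v z)) • τ z +
      (η z.1 * ψ z.2) • (c • sy (G z) - a • τ z - br (τ z) (S z)))) +
      η 0 • ∫ x, ψ x • τ0 x = 0

end Pool.Agent.Helper42.Jef
end

section
/-! # Matrix algebra: symmetric part, spin, commutator -/

open MeasureTheory Set Filter Topology
open scoped ENNReal NNReal ContDiff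

namespace Pool.Agent.Helper42.Jef

set_option maxHeartbeats 400000

variable {n : ℕ}

@[simp] theorem tr_apply (A : Mt n) (p : Fin n × Fin n) : tr A p = A p.swap := rfl

theorem tr_add (A B : Mt n) : tr (A + B) = tr A + tr B := by ext p; simp

theorem tr_sub (A B : Mt n) : tr (A - B) = tr A - tr B := by ext p; simp

theorem tr_smul (c : ℝ) (A : Mt n) : tr (c • A) = c • tr A := by ext p; simp

@[simp] theorem tr_tr (A : Mt n) : tr (tr A) = A := by ext p; simp

theorem norm_tr (A : Mt n) : ‖tr A‖ = ‖A‖ := by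
  rw [EuclideanSpace.norm_eq, EuclideanSpace.norm_eq]
  congr 1
  exact (Equiv.prodComm (Fin n) (Fin n)).sum_comp (fun p => ‖A p‖ ^ 2)

theorem inner_tr (A B : Mt n) : inner ℝ (tr A) (tr B) = inner ℝ A B := by
  simp only [PiLp.inner_apply, tr_apply]
  exact (Equiv.prodComm (Fin n) (Fin n)).sum_comp (fun p => inner ℝ (A p) (B p))

/-- transpose as a linear map -/
noncomputable def trL (n : ℕ) : Mt n →L[ℝ] Mt n :=
  LinearMap.toContinuousLinearMap
    { toFun := tr, map_add' := tr_add, map_smul' := fun c A => tr_smul c A }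

@[simp] theorem trL_apply (A : Mt n) : trL n A = tr A := rfl

noncomputable def syL (n : ℕ) : Mt n →L[ℝ] Mt n := (1 / 2 : ℝ) • (ContinuousLinearMap.id ℝ _ + trL n)
noncomputable def spL (n : ℕ) : Mt n →L[ℝ] Mt n := (1 / 2 : ℝ) • (ContinuousLinearMap.id ℝ _ - trL n)

@[simp] theorem syL_apply (A : Mt n) : syL n A = sy A := rfl
@[simp] theorem spL_apply (A : Mt n) : spL n A = sp A := rfl

theorem sy_apply (A : Mt n) (p : Fin n × Fin n) : sy A p = (1 / 2) * (A p + A p.swap) := rfl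
theorem sp_apply (A : Mt n) (p : Fin n × Fin n) : sp A p = (1 / 2) * (A p - A p.swap) := rfl

theorem norm_sy_le (A : Mt n) : ‖sy A‖ ≤ ‖A‖ := by
  unfold sy
  rw [norm_smul]
  have := norm_add_le A (tr A)
  rw [norm_tr] at this
  simp only [Real.norm_eq_abs]
  rw [abs_of_pos (by norm_num)]
  linarith

theorem norm_sp_le (A : Mt n) : ‖sp A‖ ≤ ‖A‖ := by
  unfold sp
  rw [norm_smul]
  have := norm_sub_le A (tr A)
  rw [norm_tr] at this
  simp only [Real.norm_eq_abs]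
  rw [abs_of_pos (by norm_num)]
  linarith

theorem tr_sp (A : Mt n) : tr (sp A) = - sp A := by
  ext p; simp [sp_apply]; ring

theorem tr_sy (A : Mt n) : tr (sy A) = sy A := by
  ext p; simp [sy_apply]; ring

theorem sp_of_antisym {W : Mt n} (hW : tr W = -W) : sp W = W := by
  ext p
  have h : W p.swap = - W p := by
    have := congrArg (fun A : Mt n => A p) hW
    simpa using this
  rw [sp_apply, h]; ring

theorem inner_sy_left (A B : Mt n) : inner ℝ (sy A) B = inner ℝ A (sy B) := by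
  unfold sy
  rw [inner_smul_left, inner_smul_right, inner_add_left, inner_add_right]
  have : inner ℝ (tr A) B = inner ℝ A (tr B) := by
    rw [← inner_tr (tr A) B, tr_tr]
  rw [this]; rfl

theorem inner_sp_left (A B : Mt n) : inner ℝ (sp A) B = inner ℝ A (sp B) := by
  unfold sp
  rw [inner_smul_left, inner_smul_right, inner_sub_left, inner_sub_right]
  have : inner ℝ (tr A) B = inner ℝ A (tr B) := by
    rw [← inner_tr (tr A) B, tr_tr]
  rw [this]; rfl

theorem sy_sy (A : Mt n) : sy (sy A) = sy A := by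
  ext p; simp [sy_apply]; ring

/-! ## the commutator -/

theorem br_apply (A W : Mt n) (i j : Fin n) :
    br A W (i, j) = ∑ l, (A (i, l) * W (l, j) - W (i, l) * A (l, j)) := rfl

theorem br_add_left (A B W : Mt n) : br (A + B) W = br A W + br B W := by
  ext ⟨i, j⟩
  simp only [br_apply, PiLp.add_apply]
  rw [← Finset.sum_add_distrib]
  exact Finset.sum_congr rfl fun l _ => by ring

theorem br_add_right (A W V : Mt n) : br A (W + V) = br A W + br A V := by
  ext ⟨i, j⟩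
  simp only [br_apply, PiLp.add_apply]
  rw [← Finset.sum_add_distrib]
  exact Finset.sum_congr rfl fun l _ => by ring

theorem br_smul_left (c : ℝ) (A W : Mt n) : br (c • A) W = c • br A W := by
  ext ⟨i, j⟩
  simp only [br_apply, PiLp.smul_apply, smul_eq_mul, Finset.mul_sum]
  exact Finset.sum_congr rfl fun l _ => by ring

theorem br_smul_right (c : ℝ) (A W : Mt n) : br A (c • W) = c • br A W := by
  ext ⟨i, j⟩
  simp only [br_apply, PiLp.smul_apply, smul_eq_mul, Finset.mul_sum]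
  exact Finset.sum_congr rfl fun l _ => by ring

theorem inner_br (A W : Mt n) (hW : tr W = -W) : inner ℝ (br A W) A = 0 := by
  have hs : ∀ i j, W (i, j) = - W (j, i) := by
    intro i j
    have := congrArg (fun A : Mt n => A (j, i)) hW
    simpa using this
  simp only [PiLp.inner_apply, Fintype.sum_prod_type, br_apply]
  have key : ∀ i j, inner ℝ (∑ l, (A (i, l) * W (l, j) - W (i, l) * A (l, j))) (A (i, j)) =
      ∑ l, (A (i, l) * W (l, j) * A (i, j)) - ∑ l, (W (i, l) * A (l, j) * A (i, j)) := by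
    intro i j
    simp only [RCLike.inner_apply, conj_trivial]
    rw [← Finset.sum_sub_distrib, Finset.mul_sum]
    exact Finset.sum_congr rfl fun l _ => by ring
  have key2 : ∑ i, ∑ j, inner ℝ (∑ l, (A (i, l) * W (l, j) - W (i, l) * A (l, j))) (A (i, j)) =
      ∑ i, ∑ j, ∑ l, (A (i, l) * W (l, j) * A (i, j)) -
        ∑ i, ∑ j, ∑ l, (W (i, l) * A (l, j) * A (i, j)) := by
    rw [← Finset.sum_sub_distrib]
    refine Finset.sum_congr rfl fun i _ => ?_
    rw [← Finset.sum_sub_distrib]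
    exact Finset.sum_congr rfl fun j _ => key i j
  rw [key2]
  have h1 : ∑ i, ∑ j, ∑ l, (A (i, l) * W (l, j) * A (i, j)) = 0 := by
    refine Finset.sum_eq_zero fun i _ => ?_
    have h2 : ∑ j, ∑ l, (A (i, l) * W (l, j) * A (i, j)) =
        - ∑ j, ∑ l, (A (i, l) * W (l, j) * A (i, j)) := by
      conv_lhs => rw [Finset.sum_comm]
      rw [← Finset.sum_neg_distrib]
      refine Finset.sum_congr rfl fun j _ => ?_
      rw [← Finset.sum_neg_distrib]
      refine Finset.sum_congr rfl fun l _ => ?_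
      rw [hs j l]; ring
    linarith
  have h3 : ∑ i, ∑ j, ∑ l, (W (i, l) * A (l, j) * A (i, j)) = 0 := by
    rw [Finset.sum_comm]
    refine Finset.sum_eq_zero fun j _ => ?_
    have h2 : ∑ i, ∑ l, (W (i, l) * A (l, j) * A (i, j)) =
        - ∑ i, ∑ l, (W (i, l) * A (l, j) * A (i, j)) := by
      conv_lhs => rw [Finset.sum_comm]
      rw [← Finset.sum_neg_distrib]
      refine Finset.sum_congr rfl fun i _ => ?_
      rw [← Finset.sum_neg_distrib]
      refine Finset.sum_congr rfl fun l _ => ?_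
      rw [hs l i]; ring
    linarith
  rw [h1, h3, sub_zero]

theorem tr_br (A W : Mt n) (hW : tr W = -W) : tr (br A W) = br (tr A) W := by
  have hs : ∀ i j, W (i, j) = - W (j, i) := by
    intro i j
    have := congrArg (fun A : Mt n => A (j, i)) hW
    simpa using this
  ext ⟨i, j⟩
  simp only [tr_apply, Prod.swap_prod_mk, br_apply]
  refine Finset.sum_congr rfl fun l _ => ?_
  rw [hs l i, hs j l]
  ring

/-- product part bound -/
theorem sum_mul_sq_le (A W : Mt n) :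
    ∑ i, ∑ j, (∑ l, A (i, l) * W (l, j)) ^ 2 ≤ ‖A‖ ^ 2 * ‖W‖ ^ 2 := by
  rw [EuclideanSpace.norm_sq_eq, EuclideanSpace.norm_sq_eq]
  simp only [Fintype.sum_prod_type, Real.norm_eq_abs, sq_abs]
  calc ∑ i, ∑ j, (∑ l, A (i, l) * W (l, j)) ^ 2
      ≤ ∑ i, ∑ j, (∑ l, A (i, l) ^ 2) * (∑ l, W (l, j) ^ 2) :=
        Finset.sum_le_sum fun i _ => Finset.sum_le_sum fun j _ =>
          Finset.sum_mul_sq_le_sq_mul_sq _ _ _
    _ = (∑ i, ∑ l, A (i, l) ^ 2) * (∑ j, ∑ l, W (l, j) ^ 2) := by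
        rw [Finset.sum_mul_sum]
    _ = _ := by
        congr 1
        rw [Finset.sum_comm]

theorem norm_br_le (A W : Mt n) : ‖br A W‖ ≤ 2 * (‖A‖ * ‖W‖) := by
  have h1 : ∀ (A W : Mt n), ‖(WithLp.toLp 2 fun p : Fin n × Fin n => ∑ l, A (p.1, l) * W (l, p.2) : Mt n)‖ ≤
      ‖A‖ * ‖W‖ := by
    intro A W
    have h2 := sum_mul_sq_le A W
    rw [EuclideanSpace.norm_eq]
    have h3 : ∑ p : Fin n × Fin n, ‖(WithLp.toLp 2
        fun p : Fin n × Fin n => ∑ l, A (p.1, l) * W (l, p.2) : Mt n) p‖ ^ 2 =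
        ∑ i, ∑ j, (∑ l, A (i, l) * W (l, j)) ^ 2 := by
      rw [Fintype.sum_prod_type]
      refine Finset.sum_congr rfl fun i _ => Finset.sum_congr rfl fun j _ => ?_
      simp
    rw [h3]
    calc Real.sqrt _ ≤ Real.sqrt (‖A‖ ^ 2 * ‖W‖ ^ 2) := Real.sqrt_le_sqrt h2
      _ = ‖A‖ * ‖W‖ := by
        rw [← mul_pow, Real.sqrt_sq (by positivity)]
  have h4 : br A W = (WithLp.toLp 2 fun p : Fin n × Fin n => ∑ l, A (p.1, l) * W (l, p.2) : Mt n) -
      (WithLp.toLp 2 fun p : Fin n × Fin n => ∑ l, W (p.1, l) * A (l, p.2) : Mt n) := by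
    ext p
    simp [br, Finset.sum_sub_distrib]
  rw [h4]
  calc _ ≤ _ := norm_sub_le _ _
    _ ≤ ‖A‖ * ‖W‖ + ‖W‖ * ‖A‖ := add_le_add (h1 A W) (h1 W A)
    _ = _ := by ring

/-- the commutator as a continuous bilinear map -/
noncomputable def brL (n : ℕ) : Mt n →L[ℝ] Mt n →L[ℝ] Mt n :=
  LinearMap.mkContinuous₂
    (LinearMap.mk₂ ℝ br br_add_left (fun c A W => br_smul_left c A W) br_add_right
      (fun c A W => br_smul_right c A W)) 2
    (fun A W => by
      have := norm_br_le A W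
      simpa [mul_assoc] using this)

@[simp] theorem brL_apply (A W : Mt n) : brL n A W = br A W := rfl

theorem br_sub_left (A B W : Mt n) : br (A - B) W = br A W - br B W := by
  exact (brL n).map_sub₂ A B W

theorem br_sub_right (A W V : Mt n) : br A (W - V) = br A W - br A V := by
  exact (brL n A).map_sub W V

@[simp] theorem br_zero_right (A : Mt n) : br A 0 = 0 := by
  exact (brL n A).map_zero

@[simp] theorem br_zero_left (A : Mt n) : br 0 A = 0 := by
  exact (brL n).map_zero₂ A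

end Pool.Agent.Helper42.Jef
end

section
/-! # Further shared definitions: truncated weak limits, heat kernels, convolution matrices -/

open MeasureTheory Set Filter Topology
open scoped ENNReal ContDiff

namespace Pool.Agent.Helper42.Jef

variable {n : ℕ}

/-- `u_m ⇀ U`, `bk_{k+1}(u_m) ⇀ uk k`, `|bk_{k+1}(u_m)|² ⇀ ak k` weakly in `L²` -/
structure TV {α : Type*} [MeasurableSpace α] {E : Type*} [NormedAddCommGroup E]
    [InnerProductSpace ℝ E] (μ : Measure α) (u : ℕ → α → E) (U : α → E) (uk : ℕ → α → E)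
    (ak : ℕ → α → ℝ) : Prop where
  w : WC μ u U
  wk : ∀ k : ℕ, WC μ (fun m x => bk ((k : ℝ) + 1) (u m x)) (uk k)
  wa : ∀ k : ℕ, WC μ (fun m x => ‖bk ((k : ℝ) + 1) (u m x)‖ ^ 2) (ak k)

/-- directional derivative in a coordinate direction -/
noncomputable def pd (i : Fin n) (f : Eu n → ℝ) (x : Eu n) : ℝ := fderiv ℝ f x (bv i)

/-- iterated directional derivatives -/
noncomputable def pds : List (Fin n) → (Eu n → ℝ) → Eu n → ℝ
  | [], f => f
  | i :: l, f => pd i (pds l f)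

/-- heat kernel for `∂_s = Δ` -/
noncomputable def Gs (s : ℝ) (x : Eu n) : ℝ :=
  (4 * Real.pi * s) ^ (-(n : ℝ) / 2) * Real.exp (-‖x‖ ^ 2 / (4 * s))

/-- `Θ_ε(r) ∂^α G_{μ r + s}(x)`; vanishes for `r ≤ 0` -/
noncomputable def Kr (μ ε s : ℝ) (l : List (Fin n)) (z : ST n) : ℝ :=
  Real.smoothTransition (z.1 / ε) * pds l (Gs (μ * z.1 + s)) z.2

/-- `Θ_ε'(r) ∂^α G_{μ r + s}(x)` -/
noncomputable def Kp (μ ε s : ℝ) (l : List (Fin n)) (z : ST n) : ℝ :=
  deriv (fun r => Real.smoothTransition (r / ε)) z.1 * pds l (Gs (μ * z.1 + s)) z.2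

/-- matrix of convolution operators -/
noncomputable def KK (κ : (Fin n × Fin n) → (Fin n × Fin n) → ST n → ℝ) (u : ST n → Mt n)
    (z : ST n) : Mt n :=
  WithLp.toLp 2 fun p => ∑ q, cv (κ p q) (fun y => u y q) z

/-- time and space derivatives of scalar functions on space-time -/
noncomputable def dt (ψ : ST n → ℝ) (z : ST n) : ℝ := fderiv ℝ ψ z (1, 0)
noncomputable def dx (i : Fin n) (ψ : ST n → ℝ) (z : ST n) : ℝ := fderiv ℝ ψ z (0, bv i)

/-- scalar test functions on `(0,T) × Ω` -/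
structure IsTestST (Ω : Set (Eu n)) (T : ℝ) (ψ : ST n → ℝ) : Prop where
  smooth : ContDiff ℝ ∞ ψ
  cpt : HasCompactSupport ψ
  supp : tsupport ψ ⊆ Ioo 0 T ×ˢ Ω

end Pool.Agent.Helper42.Jef
end

section
/-! # Further shared definitions -/

open MeasureTheory Set Filter Topology
open scoped ENNReal ContDiff

namespace Pool.Agent.Helper42.Jef

variable {n : ℕ}

/-- `(v · ∇) v` as a vector field, from `v` and its gradient -/
noncomputable def hvec (v : ST n → Eu n) (G : ST n → Mt n) (z : ST n) : Eu n :=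
  WithLp.toLp 2 fun i => ∑ l, v z l * G z (i, l)

/-- extension by the initial value on the time interval `(-1, 0)` -/
noncomputable def ext0 {E : Type*} (u0 : Eu n → E) (u : ST n → E) (z : ST n) : E :=
  open Classical in if z.1 ∈ Ioo (-1 : ℝ) 0 then u0 z.2 else u z

/-- decomposition property of the approximate spins (see `spin_var`) -/
def SpinProp (S : ℕ → ST n → Mt n) (G : ST n → Mt n) (gk : ℕ → ST n → Mt n)
    (ga : ℕ → ST n → ℝ) (M : ℝ) : Prop :=
  ∀ j : ℕ, ∃ S1 S2 : ℕ → ST n → Mt n,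
    (∀ m, S m =ᵐ[volume] fun z => S1 m z + S2 m z) ∧
    (∀ m, MemLp (S1 m) 2 volume) ∧ (∃ C : ℝ, ∀ m, eLpNorm (S1 m) 2 volume ≤ ENNReal.ofReal C) ∧
    (∀ m, Integrable (S2 m) volume) ∧ (∀ m, ∫ z, ‖S2 m z‖ ≤ M / ((j : ℝ) + 1)) ∧
    ∀ (ζ : ST n → ℝ) (L : ℝ), Measurable ζ → (∀ z, 0 ≤ ζ z ∧ ζ z ≤ L) → MemLp ζ 2 volume →
      ∀ ε : ℝ, 0 < ε → ∀ᶠ m in atTop,
        ∫ z, ζ z * ‖S1 m z - sp (G z)‖ ^ 2 ≤
          (∫ z, ζ z * (ga j z - 2 * inner ℝ (gk j z) (G z) + ‖G z‖ ^ 2)) + ε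

end Pool.Agent.Helper42.Jef
end

section
/-! # Further shared definitions -/

open MeasureTheory Set Filter Topology
open scoped ENNReal ContDiff

namespace Pool.Agent.Helper42.Jef

variable {n : ℕ}

/-- restriction of a space-time field to the time interval `(0,T)` -/
noncomputable def rs {E : Type*} [Zero E] (T : ℝ) (u : ST n → E) (z : ST n) : E :=
  (Ioo 0 T).indicator (fun t => u (t, z.2)) z.1

end Pool.Agent.Helper42.Jef
end

section
/-! # Basic `L²` inequalities used in the strong compactness of the velocities -/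

open MeasureTheory Set Filter Topology
open scoped ENNReal NNReal ContDiff

namespace Pool.Agent.Helper41.Jef

section Gen

variable {α : Type*} [MeasurableSpace α] {μ : Measure α}

theorem lintegral_mul_sq_le {f g : α → ℝ≥0∞} (hf : AEMeasurable f μ) (hg : AEMeasurable g μ) :
    (∫⁻ a, f a * g a ∂μ) ^ 2 ≤ (∫⁻ a, f a ^ 2 ∂μ) * ∫⁻ a, g a ^ 2 ∂μ := by
  have h := ENNReal.lintegral_mul_le_Lp_mul_Lq μ Real.HolderConjugate.two_two hf hg
  have h2 : (∫⁻ a, f a * g a ∂μ) ≤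
      (∫⁻ a, f a ^ 2 ∂μ) ^ (1 / 2 : ℝ) * (∫⁻ a, g a ^ 2 ∂μ) ^ (1 / 2 : ℝ) := by
    simpa using h
  have h3 : ∀ x : ℝ≥0∞, (x ^ (1 / 2 : ℝ)) ^ 2 = x := by
    intro x
    rw [← ENNReal.rpow_natCast, ← ENNReal.rpow_mul]
    norm_num
  calc (∫⁻ a, f a * g a ∂μ) ^ 2
      ≤ ((∫⁻ a, f a ^ 2 ∂μ) ^ (1 / 2 : ℝ) * (∫⁻ a, g a ^ 2 ∂μ) ^ (1 / 2 : ℝ)) ^ 2 :=
        pow_le_pow_left₀ zero_le h2 2
    _ = _ := by rw [mul_pow, h3, h3]

theorem eLpNorm_two_sq {E : Type*} [NormedAddCommGroup E] (f : α → E) :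
    eLpNorm f 2 μ ^ 2 = ∫⁻ a, ‖f a‖ₑ ^ 2 ∂μ := by
  have h := eLpNorm_nnreal_eq_lintegral (μ := μ) (f := f) (p := 2) (by norm_num)
  have h2 : eLpNorm f 2 μ = (∫⁻ a, ‖f a‖ₑ ^ 2 ∂μ) ^ (1 / 2 : ℝ) := by
    simpa using h
  rw [h2, ← ENNReal.rpow_natCast, ← ENNReal.rpow_mul]
  norm_num

theorem eLpNorm_le_of_sq {E : Type*} [NormedAddCommGroup E] {f : α → E} {C : ℝ≥0∞}
    (h : ∫⁻ a, ‖f a‖ₑ ^ 2 ∂μ ≤ C ^ 2) : eLpNorm f 2 μ ≤ C := by
  rw [← eLpNorm_two_sq] at h
  rw [← ENNReal.rpow_natCast, ← ENNReal.rpow_natCast] at h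
  exact (ENNReal.rpow_le_rpow_iff (by norm_num)).1 h

/-- Cauchy–Schwarz on a set of finite measure -/
theorem enorm_integral_sq_le {E : Type*} [NormedAddCommGroup E] [NormedSpace ℝ E] {f : α → E}
    (hf : AEStronglyMeasurable f μ) :
    ‖∫ a, f a ∂μ‖ₑ ^ 2 ≤ μ univ * ∫⁻ a, ‖f a‖ₑ ^ 2 ∂μ := by
  have h1 : ‖∫ a, f a ∂μ‖ₑ ≤ ∫⁻ a, 1 * ‖f a‖ₑ ∂μ := by
    simpa using enorm_integral_le_lintegral_enorm f
  calc ‖∫ a, f a ∂μ‖ₑ ^ 2 ≤ (∫⁻ a, 1 * ‖f a‖ₑ ∂μ) ^ 2 := pow_le_pow_left₀ zero_le h1 2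
    _ ≤ (∫⁻ _, 1 ^ 2 ∂μ) * ∫⁻ a, ‖f a‖ₑ ^ 2 ∂μ :=
      lintegral_mul_sq_le aemeasurable_const hf.enorm
    _ = _ := by simp

end Gen

end Pool.Agent.Helper41.Jef
end
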