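import Pool.Agent.Helper42.JefB.B0

section
/-! # Convolution on space-time: measurability, Young inequalities, linearity -/

open MeasureTheory Set Filter Topology
open scoped ENNReal ContDiff

namespace Pool.Agent.Helper37.Jef
open Pool.Agent.Helper42.Jef
variable {n : ℕ}

instance haarST (n : ℕ) : (volume : Measure (ST n)).IsAddHaarMeasure :=
  Measure.prod.instIsAddHaarMeasure (volume : Measure ℝ) (volume : Measure (Eu n))

theorem cvi_aesm {k u : ST n → ℝ} (hk : AEStronglyMeasurable k volume)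
    (hu : AEStronglyMeasurable u volume) :
    AEStronglyMeasurable (fun p : ST n × ST n => k (p.1 - p.2) * u p.2)
      ((volume : Measure (ST n)).prod volume) := by
  have h := AEStronglyMeasurable.convolution_integrand (ContinuousLinearMap.mul ℝ ℝ)
    (μ := volume) (ν := volume) hu hk
  refine h.congr (Eventually.of_forall fun p => ?_)
  simp [mul_comm]

theorem cv_aesm {k u : ST n → ℝ} (hk : AEStronglyMeasurable k volume)
    (hu : AEStronglyMeasurable u volume) : AEStronglyMeasurable (cv k u) volume :=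
  (cvi_aesm hk hu).integral_prod_right'

theorem cvs_aesm {k u : ST n → ℝ} (hk : AEStronglyMeasurable k volume)
    (hu : AEStronglyMeasurable u volume) (z : ST n) :
    AEStronglyMeasurable (fun y => k (z - y) * u y) volume := by
  have h := AEStronglyMeasurable.convolution_integrand_swap_snd (ContinuousLinearMap.mul ℝ ℝ)
    (μ := volume) hk hu z
  exact h

theorem cv_enorm_le (k u : ST n → ℝ) (z : ST n) :
    ‖cv k u z‖ₑ ≤ ∫⁻ y, ‖k (z - y)‖ₑ * ‖u y‖ₑ := by
  unfold cv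
  refine (enorm_integral_le_lintegral_enorm _).trans (le_of_eq ?_)
  refine lintegral_congr fun y => ?_
  rw [enorm_mul]

theorem aemeas_cvi {k u : ST n → ℝ} (hk : AEStronglyMeasurable k volume)
    (hu : AEStronglyMeasurable u volume) :
    AEMeasurable (fun p : ST n × ST n => ‖k (p.1 - p.2)‖ₑ * ‖u p.2‖ₑ)
      ((volume : Measure (ST n)).prod volume) := by
  refine (cvi_aesm hk hu).enorm.congr (Eventually.of_forall fun p => ?_)
  simp

theorem aemeas_k {k : ST n → ℝ} (hk : AEStronglyMeasurable k volume) :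
    AEMeasurable (fun p : ST n × ST n => ‖k (p.1 - p.2)‖ₑ)
      ((volume : Measure (ST n)).prod volume) := by
  have := aemeas_cvi (u := fun _ => (1 : ℝ)) hk aestronglyMeasurable_const
  simpa using this

theorem aemeas_ks {k : ST n → ℝ} (hk : AEStronglyMeasurable k volume) (z : ST n) :
    AEMeasurable (fun y : ST n => ‖k (z - y)‖ₑ) volume := by
  have := (cvs_aesm (u := fun _ => (1 : ℝ)) hk aestronglyMeasurable_const z).enorm
  simpa using this

/-- Young inequality in `L¹` -/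
theorem lint_cv {k u : ST n → ℝ} (hk : AEStronglyMeasurable k volume)
    (hu : AEStronglyMeasurable u volume) :
    ∫⁻ z, ‖cv k u z‖ₑ ≤ (∫⁻ z, ‖k z‖ₑ) * ∫⁻ z, ‖u z‖ₑ := by
  calc ∫⁻ z, ‖cv k u z‖ₑ ≤ ∫⁻ z, ∫⁻ y, ‖k (z - y)‖ₑ * ‖u y‖ₑ :=
        lintegral_mono fun z => cv_enorm_le k u z
    _ = ∫⁻ y, ∫⁻ z, ‖k (z - y)‖ₑ * ‖u y‖ₑ := by
        rw [lintegral_lintegral_swap]
        exact aemeas_cvi hk hu
    _ = ∫⁻ y, (∫⁻ z, ‖k z‖ₑ) * ‖u y‖ₑ := by
        refine lintegral_congr fun y => ?_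
        rw [lintegral_mul_const'' _ ?_]
        · rw [lintegral_sub_right_eq_self (fun z => ‖k z‖ₑ) y]
        · exact (hk.comp_quasiMeasurePreserving
            (measurePreserving_sub_right volume y).quasiMeasurePreserving).enorm
    _ = _ := by
        rw [lintegral_const_mul'' _ hu.enorm]

theorem cs_lint {α : Type*} [MeasurableSpace α] {μ : Measure α} {a b : α → ℝ≥0∞}
    (ha : AEMeasurable a μ) (hb : AEMeasurable b μ) :
    (∫⁻ x, a x * b x ∂μ) ^ (2 : ℝ) ≤ (∫⁻ x, a x ∂μ) * ∫⁻ x, a x * b x ^ (2 : ℝ) ∂μ := by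
  have h := ENNReal.lintegral_mul_le_Lp_mul_Lq μ (p := 2) (q := 2)
    (by constructor <;> norm_num) (f := fun x => a x ^ (1 / 2 : ℝ))
    (g := fun x => a x ^ (1 / 2 : ℝ) * b x) (ha.pow_const _) ((ha.pow_const _).mul hb)
  have e1 : ∀ x, a x ^ (1 / 2 : ℝ) * (a x ^ (1 / 2 : ℝ) * b x) = a x * b x := by
    intro x
    rw [← mul_assoc, ← ENNReal.rpow_add_of_nonneg _ _ (by norm_num) (by norm_num)]
    norm_num
  have e2 : ∀ x, (a x ^ (1 / 2 : ℝ)) ^ (2 : ℝ) = a x := by
    intro x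
    rw [← ENNReal.rpow_mul]; norm_num
  have e3 : ∀ x, (a x ^ (1 / 2 : ℝ) * b x) ^ (2 : ℝ) = a x * b x ^ (2 : ℝ) := by
    intro x
    rw [ENNReal.mul_rpow_of_nonneg _ _ (by norm_num), e2]
  simp only [Pi.mul_apply, e1, e2, e3] at h
  calc (∫⁻ x, a x * b x ∂μ) ^ (2 : ℝ)
      ≤ ((∫⁻ x, a x ∂μ) ^ (1 / 2 : ℝ) * (∫⁻ x, a x * b x ^ (2 : ℝ) ∂μ) ^ (1 / 2 : ℝ)) ^ (2 : ℝ) :=
        ENNReal.rpow_le_rpow h (by norm_num)
    _ = _ := by
        rw [ENNReal.mul_rpow_of_nonneg _ _ (by norm_num), ← ENNReal.rpow_mul, ← ENNReal.rpow_mul]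
        norm_num

theorem eL2_sq (f : ST n → ℝ) : eLpNorm f 2 volume ^ (2 : ℝ) = ∫⁻ z, ‖f z‖ₑ ^ (2 : ℝ) := by
  rw [eLpNorm_eq_lintegral_rpow_enorm_toReal (by norm_num) (by norm_num)]
  rw [← ENNReal.rpow_mul]
  norm_num

/-- Young inequality in `L²` -/
theorem eL2_cv {k u : ST n → ℝ} (hk : AEStronglyMeasurable k volume)
    (hu : AEStronglyMeasurable u volume) :
    eLpNorm (cv k u) 2 volume ≤ (∫⁻ z, ‖k z‖ₑ) * eLpNorm u 2 volume := by
  have h2 : (0 : ℝ) < 2 := by norm_num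
  rw [← ENNReal.rpow_le_rpow_iff h2, ENNReal.mul_rpow_of_nonneg _ _ h2.le, eL2_sq, eL2_sq]
  calc ∫⁻ z, ‖cv k u z‖ₑ ^ (2 : ℝ)
      ≤ ∫⁻ z, (∫⁻ y, ‖k (z - y)‖ₑ * ‖u y‖ₑ) ^ (2 : ℝ) :=
        lintegral_mono fun z => ENNReal.rpow_le_rpow (cv_enorm_le k u z) h2.le
    _ ≤ ∫⁻ z, (∫⁻ y, ‖k y‖ₑ) * ∫⁻ y, ‖k (z - y)‖ₑ * ‖u y‖ₑ ^ (2 : ℝ) := by
        refine lintegral_mono fun z => ?_
        refine (cs_lint (aemeas_ks hk z) hu.enorm).trans (le_of_eq ?_)
        rw [lintegral_sub_left_eq_self (fun y => ‖k y‖ₑ) z]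
    _ = (∫⁻ y, ‖k y‖ₑ) * ∫⁻ z, ∫⁻ y, ‖k (z - y)‖ₑ * ‖u y‖ₑ ^ (2 : ℝ) := by
        rw [lintegral_const_mul'']
        refine AEMeasurable.lintegral_prod_right' (f := fun p : ST n × ST n =>
          ‖k (p.1 - p.2)‖ₑ * ‖u p.2‖ₑ ^ (2 : ℝ)) ?_
        exact (aemeas_k hk).mul ((hu.enorm.pow_const _).comp_snd)
    _ = (∫⁻ y, ‖k y‖ₑ) * ∫⁻ y, ∫⁻ z, ‖k (z - y)‖ₑ * ‖u y‖ₑ ^ (2 : ℝ) := by
        rw [lintegral_lintegral_swap]
        exact (aemeas_k hk).mul ((hu.enorm.pow_const _).comp_snd)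
    _ = (∫⁻ y, ‖k y‖ₑ) * ∫⁻ y, (∫⁻ z, ‖k z‖ₑ) * ‖u y‖ₑ ^ (2 : ℝ) := by
        congr 1
        refine lintegral_congr fun y => ?_
        rw [lintegral_mul_const'' _ ?_]
        · rw [lintegral_sub_right_eq_self (fun z => ‖k z‖ₑ) y]
        · exact (hk.comp_quasiMeasurePreserving
            (measurePreserving_sub_right volume y).quasiMeasurePreserving).enorm
    _ = _ := by
        rw [lintegral_const_mul'' _ (hu.enorm.pow_const _)]
        rw [← mul_assoc]
        congr 1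
        rw [ENNReal.rpow_two, sq]

/-- convolution integrand: a.e. existence -/
theorem ae_ce {k u : ST n → ℝ} (hk : Integrable k) (hu : Integrable u) :
    ∀ᵐ z, Integrable (fun y => k (z - y) * u y) := by
  have h := Integrable.ae_convolution_exists (ContinuousLinearMap.mul ℝ ℝ)
    (μ := (volume : Measure (ST n))) (ν := volume) hu hk
  filter_upwards [h] with z hz
  refine hz.congr (Eventually.of_forall fun y => ?_)
  simp [mul_comm]

/-- convolution integrand of a continuous kernel and an integrable function which vanishes outside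
a compact set -/
theorem ce_cont {k u : ST n → ℝ} (hk : Continuous k) (hu : Integrable u) {S : Set (ST n)}
    (hS : IsCompact S) (h0 : ∀ y, y ∉ S → u y = 0) (z : ST n) :
    Integrable (fun y => k (z - y) * u y) := by
  have hc : Continuous fun y => k (z - y) := hk.comp (continuous_const.sub continuous_id)
  obtain ⟨C, hC⟩ := hS.exists_bound_of_continuousOn hc.continuousOn
  refine Integrable.mono' (hu.norm.const_mul C)
    (hc.aestronglyMeasurable.mul hu.aestronglyMeasurable) (Eventually.of_forall fun y => ?_)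
  rw [norm_mul]
  by_cases hy : y ∈ S
  · exact mul_le_mul_of_nonneg_right (hC y hy) (norm_nonneg _)
  · rw [h0 y hy]; simp

theorem cv_add_right {k u v : ST n → ℝ} {z : ST n} (h1 : Integrable (fun y => k (z - y) * u y))
    (h2 : Integrable (fun y => k (z - y) * v y)) :
    cv k (fun y => u y + v y) z = cv k u z + cv k v z := by
  unfold cv
  rw [← integral_add h1 h2]
  exact integral_congr_ae (Eventually.of_forall fun y => by ring)

theorem cv_sub_right {k u v : ST n → ℝ} {z : ST n} (h1 : Integrable (fun y => k (z - y) * u y))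
    (h2 : Integrable (fun y => k (z - y) * v y)) :
    cv k (fun y => u y - v y) z = cv k u z - cv k v z := by
  unfold cv
  rw [← integral_sub h1 h2]
  exact integral_congr_ae (Eventually.of_forall fun y => by ring)

theorem cv_const_right (k u : ST n → ℝ) (c : ℝ) (z : ST n) :
    cv k (fun y => c * u y) z = c * cv k u z := by
  unfold cv
  rw [← integral_const_mul]
  exact integral_congr_ae (Eventually.of_forall fun y => by ring)

theorem cv_const_left (k u : ST n → ℝ) (c : ℝ) (z : ST n) :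
    cv (fun y => c * k y) u z = c * cv k u z := by
  unfold cv
  rw [← integral_const_mul]
  exact integral_congr_ae (Eventually.of_forall fun y => by ring)

theorem cv_sum_left {ι : Type*} (s : Finset ι) {k : ι → ST n → ℝ} {u : ST n → ℝ} {z : ST n}
    (h : ∀ i ∈ s, Integrable (fun y => k i (z - y) * u y)) :
    cv (fun y => ∑ i ∈ s, k i y) u z = ∑ i ∈ s, cv (k i) u z := by
  unfold cv
  rw [← integral_finsetSum s h]
  exact integral_congr_ae (Eventually.of_forall fun y => by simp [Finset.sum_mul])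

theorem cv_sum_right {ι : Type*} (s : Finset ι) {k : ST n → ℝ} {u : ι → ST n → ℝ} {z : ST n}
    (h : ∀ i ∈ s, Integrable (fun y => k (z - y) * u i y)) :
    cv k (fun y => ∑ i ∈ s, u i y) z = ∑ i ∈ s, cv k (u i) z := by
  unfold cv
  rw [← integral_finsetSum s h]
  exact integral_congr_ae (Eventually.of_forall fun y => by simp [Finset.mul_sum])

theorem cv_sub_left {k l u : ST n → ℝ} {z : ST n} (h1 : Integrable (fun y => k (z - y) * u y))
    (h2 : Integrable (fun y => l (z - y) * u y)) :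
    cv (fun y => k y - l y) u z = cv k u z - cv l u z := by
  unfold cv
  rw [← integral_sub h1 h2]
  exact integral_congr_ae (Eventually.of_forall fun y => by ring)

end Pool.Agent.Helper37.Jef
end

section
/-! # Pointwise calculus of the cut off heat kernels -/

open MeasureTheory Set Filter Topology
open scoped ENNReal ContDiff

namespace Pool.Agent.Helper37.Jef
open Pool.Agent.Helper42.Jef
variable {n : ℕ}

/-- space-time derivative of the heat kernel -/
noncomputable def gk (l : List (Fin n)) (p : ST n) : ℝ := pds l (Gs p.1) p.2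

/-- open half space of positive times -/
def HS (n : ℕ) : Set (ST n) := {p | 0 < p.1}

theorem two_le_inf : (2 : WithTop ℕ∞) ≤ ((⊤ : ℕ∞) : WithTop ℕ∞) := by
  have h : ((2 : ℕ∞) : WithTop ℕ∞) ≤ ((⊤ : ℕ∞) : WithTop ℕ∞) := WithTop.coe_le_coe.2 le_top
  exact h

theorem isOpen_HS : IsOpen (HS n) := isOpen_lt continuous_const continuous_fst

theorem HS_nhds {p : ST n} (hp : p ∈ HS n) : HS n ∈ 𝓝 p := isOpen_HS.mem_nhds hp

theorem gk_nil_smooth : ContDiffOn ℝ ∞ (gk (n := n) []) (HS n) := by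
  have e : gk (n := n) [] = fun p : ST n =>
      (4 * Real.pi * p.1) ^ (-(n : ℝ) / 2) * Real.exp (-‖p.2‖ ^ 2 / (4 * p.1)) := rfl
  rw [e]
  have h1 : ContDiffOn ℝ ∞ (fun p : ST n => 4 * Real.pi * p.1) (HS n) :=
    (contDiff_const.mul contDiff_fst).contDiffOn
  have h1' : ContDiffOn ℝ ∞ (fun p : ST n => 4 * p.1) (HS n) :=
    (contDiff_const.mul contDiff_fst).contDiffOn
  have h2 : ContDiffOn ℝ ∞ (fun p : ST n => (4 * Real.pi * p.1) ^ (-(n : ℝ) / 2)) (HS n) := by
    refine h1.rpow_const_of_ne fun p hp => ?_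
    have : 0 < p.1 := hp
    positivity
  have h3 : ContDiff ℝ ∞ (fun p : ST n => ‖p.2‖ ^ 2) := contDiff_snd.norm_sq ℝ
  have h4 : ContDiffOn ℝ ∞ (fun p : ST n => -‖p.2‖ ^ 2 / (4 * p.1)) (HS n) := by
    refine (h3.neg.contDiffOn).div h1' fun p hp => ?_
    have : 0 < p.1 := hp
    positivity
  exact h2.mul h4.exp

theorem gk_smooth_cons {l : List (Fin n)} (h : ContDiffOn ℝ ∞ (gk l) (HS n)) {p : ST n}
    (hp : p ∈ HS n) (i : Fin n) : gk (i :: l) p = fderiv ℝ (gk l) p (0, bv i) := by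
  have hd : DifferentiableAt ℝ (gk l) p :=
    (h.contDiffAt (HS_nhds hp)).differentiableAt (by simp)
  have h1 : HasFDerivAt (fun x : Eu n => gk l (p.1, x))
      ((fderiv ℝ (gk l) p).comp (ContinuousLinearMap.inr ℝ ℝ (Eu n))) p.2 :=
    HasFDerivAt.comp (g := gk l) (f := fun x : Eu n => (p.1, x)) p.2 hd.hasFDerivAt
      (hasFDerivAt_prodMk_right p.1 p.2)
  have h2 : gk (i :: l) p = fderiv ℝ (fun x : Eu n => gk l (p.1, x)) p.2 (bv i) := rfl
  rw [h2, h1.fderiv]
  simp

theorem gk_smooth (l : List (Fin n)) : ContDiffOn ℝ ∞ (gk l) (HS n) := by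
  induction l with
  | nil => exact gk_nil_smooth
  | cons i l ih =>
    have h1 : ContDiffOn ℝ ∞ (fderiv ℝ (gk l)) (HS n) := ih.fderiv_of_isOpen isOpen_HS (by simp)
    exact (h1.clm_apply contDiffOn_const).congr fun p hp => gk_smooth_cons ih hp i

theorem gk_cons {l : List (Fin n)} {p : ST n} (hp : p ∈ HS n) (i : Fin n) :
    gk (i :: l) p = fderiv ℝ (gk l) p (0, bv i) := gk_smooth_cons (gk_smooth l) hp i

theorem gk_at (l : List (Fin n)) {p : ST n} (hp : p ∈ HS n) : ContDiffAt ℝ ∞ (gk l) p :=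
  (gk_smooth l).contDiffAt (HS_nhds hp)

theorem gk_diff (l : List (Fin n)) {p : ST n} (hp : p ∈ HS n) : DifferentiableAt ℝ (gk l) p :=
  (gk_at l hp).differentiableAt (by simp)

theorem gk_fd_diff (l : List (Fin n)) {p : ST n} (hp : p ∈ HS n) :
    DifferentiableAt ℝ (fderiv ℝ (gk l)) p :=
  ((gk_at l hp).fderiv_right (m := 1)
    (by rw [one_add_one_eq_two]; exact two_le_inf)).differentiableAt (by simp)

theorem gk_symm (l : List (Fin n)) {p : ST n} (hp : p ∈ HS n) (v w : ST n) :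
    fderiv ℝ (fderiv ℝ (gk l)) p v w = fderiv ℝ (fderiv ℝ (gk l)) p w v :=
  ((gk_at l hp).isSymmSndFDerivAt (by
    rw [minSmoothness_of_isRCLikeNormedField]; exact two_le_inf)).eq v w

/-- derivative of a directional derivative -/
theorem gk_dd (l : List (Fin n)) {p : ST n} (hp : p ∈ HS n) (v w : ST n) :
    fderiv ℝ (fun q => fderiv ℝ (gk l) q w) p v = fderiv ℝ (fderiv ℝ (gk l)) p v w := by
  rw [fderiv_clm_apply (gk_fd_diff l hp) (differentiableAt_const w)]
  simp

theorem gk_cons_fd {l : List (Fin n)} {p : ST n} (hp : p ∈ HS n) (i : Fin n) (v : ST n) :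
    fderiv ℝ (gk (i :: l)) p v = fderiv ℝ (fderiv ℝ (gk l)) p v (0, bv i) := by
  have h : gk (i :: l) =ᶠ[𝓝 p] fun q => fderiv ℝ (gk l) q (0, bv i) := by
    filter_upwards [HS_nhds hp] with q hq
    exact gk_cons hq i
  rw [h.fderiv_eq, gk_dd l hp]

theorem gk_swap {l : List (Fin n)} {p : ST n} (hp : p ∈ HS n) (i j : Fin n) :
    gk (i :: j :: l) p = gk (j :: i :: l) p := by
  rw [gk_cons hp, gk_cons hp, gk_cons_fd hp, gk_cons_fd hp, gk_symm l hp]

theorem pds_perm {s : ℝ} (hs : 0 < s) {l l' : List (Fin n)} (h : l.Perm l') :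
    pds l (Gs s) = pds l' (Gs s) := by
  induction h with
  | nil => rfl
  | cons x _ ih => simp only [pds, ih]
  | swap x y l =>
    funext z
    exact gk_swap (p := (s, z)) hs y x
  | trans _ _ ih1 ih2 => exact ih1.trans ih2

theorem gk_perm {l l' : List (Fin n)} (h : l.Perm l') {p : ST n} (hp : p ∈ HS n) :
    gk l p = gk l' p := congrFun (pds_perm hp h) p.2

/-! ## the heat equation -/

theorem Gs_hasDerivAt_s {s : ℝ} (hs : 0 < s) (x : Eu n) :
    HasDerivAt (fun s => Gs s x) ((-(n : ℝ) / (2 * s) + ‖x‖ ^ 2 / (4 * s ^ 2)) * Gs s x) s := by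
  unfold Gs
  have h1 : HasDerivAt (fun s : ℝ => 4 * Real.pi * s) (4 * Real.pi) s := by
    simpa using (hasDerivAt_id s).const_mul (4 * Real.pi)
  have hne : 4 * Real.pi * s ≠ 0 := by positivity
  have h2 := h1.rpow_const (p := -(n : ℝ) / 2) (Or.inl hne)
  have h3 : HasDerivAt (fun s : ℝ => -‖x‖ ^ 2 / (4 * s)) (‖x‖ ^ 2 / (4 * s ^ 2)) s := by
    have h5 : HasDerivAt (fun s : ℝ => 4 * s) 4 s := by
      simpa using (hasDerivAt_id s).const_mul (4 : ℝ)
    have h4 := (hasDerivAt_const s (-‖x‖ ^ 2)).div h5 (by positivity)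
    refine h4.congr_deriv ?_
    field_simp
    ring
  have h4 := h2.mul h3.exp
  refine h4.congr_deriv ?_
  rw [Real.rpow_sub_one hne]
  field_simp

theorem gk_nil_t {p : ST n} (hp : p ∈ HS n) :
    fderiv ℝ (gk (n := n) []) p (1, 0) =
      (-(n : ℝ) / (2 * p.1) + ‖p.2‖ ^ 2 / (4 * p.1 ^ 2)) * Gs p.1 p.2 := by
  have h1 : HasFDerivAt (fun s : ℝ => gk (n := n) [] (s, p.2))
      ((fderiv ℝ (gk []) p).comp (ContinuousLinearMap.inl ℝ ℝ (Eu n))) p.1 :=
    HasFDerivAt.comp (g := gk []) (f := fun s : ℝ => (s, p.2)) p.1 (gk_diff [] hp).hasFDerivAt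
      (hasFDerivAt_prodMk_left p.1 p.2)
  have h2 := h1.hasDerivAt.unique (Gs_hasDerivAt_s hp p.2)
  rw [← h2]
  simp

theorem Gs_pd {s : ℝ} (x : Eu n) (i : Fin n) :
    pd i (Gs s) x = -(x i / (2 * s)) * Gs s x := by
  unfold pd
  have h1 : HasFDerivAt (fun x : Eu n => ‖x‖ ^ 2) (2 • innerSL ℝ x) x :=
    (hasStrictFDerivAt_norm_sq x).hasFDerivAt
  have h2 : HasFDerivAt (fun x : Eu n => -‖x‖ ^ 2 / (4 * s)) ((-(4 * s)⁻¹) • (2 • innerSL ℝ x)) x := by
    have := h1.const_mul (-(4 * s)⁻¹)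
    refine this.congr_of_eventuallyEq (Eventually.of_forall fun y => ?_)
    simp only []
    ring
  have h3 := h2.exp.const_mul ((4 * Real.pi * s) ^ (-(n : ℝ) / 2))
  have h4 : fderiv ℝ (Gs s) x = _ := h3.fderiv
  rw [h4]
  simp only [_root_.smul_apply, innerSL_apply_apply, smul_eq_mul, Gs, bv,
    EuclideanSpace.inner_single_right, nsmul_eq_mul]
  simp
  ring

theorem Gs_pd2 {s : ℝ} (x : Eu n) (i : Fin n) :
    pd i (pd i (Gs s)) x = (-(1 / (2 * s)) + x i ^ 2 / (4 * s ^ 2)) * Gs s x := by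
  have e : pd i (Gs (n := n) s) = fun x => -(x i / (2 * s)) * Gs s x :=
    funext fun x => Gs_pd x i
  rw [e]
  unfold pd
  have h1 : HasFDerivAt (fun x : Eu n => x i) (EuclideanSpace.proj i : Eu n →L[ℝ] ℝ) x :=
    (EuclideanSpace.proj i : Eu n →L[ℝ] ℝ).hasFDerivAt
  have h2 : HasFDerivAt (fun x : Eu n => -(x i / (2 * s)))
      ((-(2 * s)⁻¹) • (EuclideanSpace.proj i : Eu n →L[ℝ] ℝ)) x := by
    refine (h1.const_mul (-(2 * s)⁻¹)).congr_of_eventuallyEq (Eventually.of_forall fun y => ?_)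
    simp only []
    ring
  have hG : ContDiff ℝ ∞ (Gs (n := n) s) := by
    have e : Gs (n := n) s = fun x : Eu n =>
      (4 * Real.pi * s) ^ (-(n : ℝ) / 2) * Real.exp (-‖x‖ ^ 2 / (4 * s)) := rfl
    rw [e]
    exact contDiff_const.mul (((contDiff_id.norm_sq ℝ).neg.div_const _).exp)
  have h3 : HasFDerivAt (Gs (n := n) s) (fderiv ℝ (Gs s) x) x :=
    ((hG.differentiable (by simp)) x).hasFDerivAt
  have h4 : fderiv ℝ (fun x : Eu n => -(x i / (2 * s)) * Gs s x) x = _ := (h2.mul h3).fderiv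
  rw [h4]
  have e2 : fderiv ℝ (Gs (n := n) s) x (bv i) = -(x i / (2 * s)) * Gs s x := Gs_pd x i
  simp only [_root_.add_apply, _root_.smul_apply, smul_eq_mul, e2]
  simp [bv]
  ring

theorem gk_nil_heat {p : ST n} (hp : p ∈ HS n) :
    fderiv ℝ (gk (n := n) []) p (1, 0) = ∑ i, gk (i :: i :: []) p := by
  rw [gk_nil_t hp]
  have : ∀ i : Fin n, gk (i :: i :: []) p =
      (-(1 / (2 * p.1)) + p.2 i ^ 2 / (4 * p.1 ^ 2)) * Gs p.1 p.2 := fun i => Gs_pd2 p.2 i
  simp only [this]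
  rw [← Finset.sum_mul, Finset.sum_add_distrib, ← Finset.sum_div,
    ← EuclideanSpace.real_norm_sq_eq]
  congr 2
  simp
  ring

theorem gk_heat (l : List (Fin n)) {p : ST n} (hp : p ∈ HS n) :
    fderiv ℝ (gk l) p (1, 0) = ∑ i, gk (i :: i :: l) p := by
  induction l generalizing p with
  | nil => exact gk_nil_heat hp
  | cons j l ih =>
    rw [gk_cons_fd hp, gk_symm l hp, ← gk_dd l hp]
    have h : (fun q => fderiv ℝ (gk l) q (1, 0)) =ᶠ[𝓝 p] fun q => ∑ i, gk (i :: i :: l) q := by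
      filter_upwards [HS_nhds hp] with q hq
      exact ih hq
    rw [h.fderiv_eq, fderiv_fun_sum fun i _ => gk_diff _ hp]
    simp only [_root_.sum_apply]
    refine Finset.sum_congr rfl fun i _ => ?_
    rw [← gk_cons hp]
    refine gk_perm ?_ hp
    exact ((List.Perm.swap i j (i :: l)).trans ((List.Perm.swap i j l).cons i))

/-! ## cut off kernels -/

/-- the kernel `θ(r) ∂^α G_{μ r + s}(x)` -/
noncomputable def TK (θ : ℝ → ℝ) (μ s : ℝ) (l : List (Fin n)) (z : ST n) : ℝ :=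
  θ z.1 * pds l (Gs (μ * z.1 + s)) z.2

theorem TK_eq (θ : ℝ → ℝ) (μ s : ℝ) (l : List (Fin n)) (z : ST n) :
    TK θ μ s l z = θ z.1 * gk l (μ * z.1 + s, z.2) := rfl

section TK
variable {θ : ℝ → ℝ} {μ s : ℝ}

/-- joint smoothness in `(s, z)` -/
theorem TK_joint (hθ : ContDiff ℝ ∞ θ) (h0 : ∀ r, r ≤ 0 → θ r = 0) (l : List (Fin n))
    (hμ : 0 < μ) : ContDiffOn ℝ ∞ (fun q : ℝ × ST n => TK θ μ q.1 l q.2) {q | 0 < q.1} := by
  intro q hq
  have hq' : 0 < q.1 := hq
  refine ContDiffAt.contDiffWithinAt ?_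
  rcases lt_or_ge q.2.1 0 with hneg | hpos
  · have h1 : (fun q : ℝ × ST n => TK θ μ q.1 l q.2) =ᶠ[𝓝 q] fun _ => (0 : ℝ) := by
      have : {q : ℝ × ST n | q.2.1 < 0} ∈ 𝓝 q :=
        (isOpen_lt (continuous_fst.comp continuous_snd) continuous_const).mem_nhds hneg
      filter_upwards [this] with p hp
      simp [TK, h0 p.2.1 (le_of_lt hp)]
    exact contDiffAt_const.congr_of_eventuallyEq h1
  · have hin : ((μ * q.2.1 + q.1, q.2.2) : ST n) ∈ HS n := by
      change 0 < μ * q.2.1 + q.1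
      positivity
    have h1 : ContDiff ℝ ∞ (fun q : ℝ × ST n => θ q.2.1) :=
      hθ.comp (contDiff_fst.comp contDiff_snd)
    have h2 : ContDiff ℝ ∞ (fun q : ℝ × ST n => ((μ * q.2.1 + q.1, q.2.2) : ST n)) :=
      ((contDiff_const.mul (contDiff_fst.comp contDiff_snd)).add contDiff_fst).prodMk
        (contDiff_snd.comp contDiff_snd)
    exact h1.contDiffAt.mul (ContDiffAt.comp q (gk_at l hin) h2.contDiffAt)

theorem TK_smooth (hθ : ContDiff ℝ ∞ θ) (h0 : ∀ r, r ≤ 0 → θ r = 0) (l : List (Fin n))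
    (hμ : 0 < μ) (hs : 0 < s) : ContDiff ℝ ∞ (TK θ μ s l) := by
  have h := TK_joint hθ h0 l hμ
  have h2 : ContDiff ℝ ∞ (fun z : ST n => ((s, z) : ℝ × ST n)) := contDiff_const.prodMk contDiff_id
  have h3 := h.comp (s := univ) h2.contDiffOn (fun z _ => hs)
  exact contDiffOn_univ.1 h3

theorem TK_diff (hθ : ContDiff ℝ ∞ θ) (h0 : ∀ r, r ≤ 0 → θ r = 0) (l : List (Fin n))
    (hμ : 0 < μ) (hs : 0 < s) (z : ST n) : DifferentiableAt ℝ (TK θ μ s l) z :=
  ((TK_smooth hθ h0 l hμ hs).differentiable (by simp)) z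

theorem TK_dx (hθ : ContDiff ℝ ∞ θ) (h0 : ∀ r, r ≤ 0 → θ r = 0) (l : List (Fin n))
    (hμ : 0 < μ) (hs : 0 < s) (i : Fin n) (z : ST n) :
    fderiv ℝ (TK θ μ s l) z (0, bv i) = TK θ μ s (i :: l) z := by
  rw [← (TK_diff hθ h0 l hμ hs z).lineDeriv_eq_fderiv]
  rcases le_or_gt z.1 0 with hz | hz
  · have e : (fun t : ℝ => TK θ μ s l (z + t • ((0, bv i) : ST n))) = fun _ => (0 : ℝ) := by
      funext t
      simp [TK, h0 z.1 hz]
    unfold lineDeriv
    rw [e]
    simp [TK, h0 z.1 hz]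
  · have hin : ((μ * z.1 + s, z.2) : ST n) ∈ HS n := by
      change 0 < μ * z.1 + s
      positivity
    have e : (fun t : ℝ => TK θ μ s l (z + t • ((0, bv i) : ST n))) =
        fun t => θ z.1 * gk l ((μ * z.1 + s, z.2) + t • ((0, bv i) : ST n)) := by
      funext t
      simp [TK, gk]
    unfold lineDeriv
    rw [e, deriv_const_mul_field, TK_eq, gk_cons hin]
    congr 1
    exact (gk_diff l hin).lineDeriv_eq_fderiv

theorem TK_ds (h0 : ∀ r, r ≤ 0 → θ r = 0) (l : List (Fin n))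
    (hμ : 0 < μ) (hs : 0 < s) (z : ST n) :
    HasDerivAt (fun s => TK θ μ s l z) (∑ i, TK θ μ s (i :: i :: l) z) s := by
  rcases le_or_gt z.1 0 with hz | hz
  · have e : (fun s : ℝ => TK θ μ s l z) = fun _ => (0 : ℝ) := by
      funext t
      simp [TK, h0 z.1 hz]
    rw [e]
    simp only [TK, h0 z.1 hz, zero_mul, Finset.sum_const_zero]
    exact hasDerivAt_const _ _
  · have hin : ((μ * z.1 + s, z.2) : ST n) ∈ HS n := by
      change 0 < μ * z.1 + s
      positivity
    have h1 : HasDerivAt (fun s : ℝ => ((μ * z.1 + s, z.2) : ST n)) ((1, 0) : ST n) s :=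
      ((hasDerivAt_id s).const_add (μ * z.1)).prodMk (hasDerivAt_const s z.2)
    have h2 := (gk_diff l hin).hasFDerivAt.comp_hasDerivAt s h1
    have h3 := h2.const_mul (θ z.1)
    refine h3.congr_deriv ?_
    rw [gk_heat l hin, Finset.mul_sum]
    rfl

theorem TK_dt (hθ : ContDiff ℝ ∞ θ) (h0 : ∀ r, r ≤ 0 → θ r = 0) (l : List (Fin n))
    (hμ : 0 < μ) (hs : 0 < s) (z : ST n) :
    fderiv ℝ (TK θ μ s l) z (1, 0) = TK (deriv θ) μ s l z + μ * ∑ i, TK θ μ s (i :: i :: l) z := by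
  rw [← (TK_diff hθ h0 l hμ hs z).lineDeriv_eq_fderiv]
  unfold lineDeriv
  rcases lt_or_ge z.1 0 with hz | hz
  · have e : (fun t : ℝ => TK θ μ s l (z + t • ((1, 0) : ST n))) =ᶠ[𝓝 0] fun _ => (0 : ℝ) := by
      have : Iio (-z.1) ∈ 𝓝 (0 : ℝ) := Iio_mem_nhds (by linarith)
      filter_upwards [this] with t ht
      have h1 : z.1 + t ≤ 0 := by
        have : t < -z.1 := ht
        linarith
      simp [TK, h0 _ h1]
    have e2 : deriv θ z.1 = 0 := by
      have : θ =ᶠ[𝓝 z.1] fun _ => (0 : ℝ) := by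
        filter_upwards [Iio_mem_nhds hz] with r hr
        exact h0 r (le_of_lt hr)
      rw [this.deriv_eq]
      simp
    rw [e.deriv_eq]
    simp [TK, h0 z.1 hz.le, e2]
  · have hin : ((μ * z.1 + s, z.2) : ST n) ∈ HS n := by
      change 0 < μ * z.1 + s
      positivity
    have e : (fun t : ℝ => TK θ μ s l (z + t • ((1, 0) : ST n))) =
        fun t => θ (z.1 + t) * gk l (μ * (z.1 + t) + s, z.2) := by
      funext t
      simp [TK, gk]
    rw [e]
    have h1 : HasDerivAt (fun t : ℝ => z.1 + t) 1 0 := (hasDerivAt_id 0).const_add z.1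
    have h1' : HasDerivAt θ (deriv θ (z.1 + 0)) (z.1 + 0) :=
      ((hθ.differentiable (by simp)) _).hasDerivAt
    have h2 : HasDerivAt (fun t : ℝ => θ (z.1 + t)) (deriv θ (z.1 + 0) * 1) 0 := h1'.comp 0 h1
    have h3 : HasDerivAt (fun t : ℝ => ((μ * (z.1 + t) + s, z.2) : ST n)) ((μ * 1, 0) : ST n) 0 :=
      ((h1.const_mul μ).add_const s).prodMk (hasDerivAt_const (0 : ℝ) z.2)
    have hin' : ((μ * (z.1 + 0) + s, z.2) : ST n) ∈ HS n := by simpa using hin
    have h4 := (gk_diff l hin').hasFDerivAt.comp_hasDerivAt (0 : ℝ) h3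
    have h5 := h2.mul h4
    have h6 : deriv (fun t => θ (z.1 + t) * gk l (μ * (z.1 + t) + s, z.2)) 0 = _ := h5.deriv
    rw [h6]
    have e3 : ((μ, 0) : ST n) = μ • ((1, 0) : ST n) := by simp
    simp only [add_zero, Function.comp, mul_one]
    rw [e3, map_smul, gk_heat l hin]
    simp only [TK_eq, smul_eq_mul]
    rw [Finset.mul_sum, Finset.mul_sum, Finset.mul_sum]
    congr 1
    refine Finset.sum_congr rfl fun i _ => ?_
    ring

theorem TK_perm (h0 : ∀ r, r ≤ 0 → θ r = 0)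
    (hμ : 0 < μ) (hs : 0 < s) {l l' : List (Fin n)} (h : l.Perm l') (z : ST n) :
    TK θ μ s l z = TK θ μ s l' z := by
  rcases le_or_gt z.1 0 with hz | hz
  · simp [TK, h0 z.1 hz]
  · unfold TK
    rw [pds_perm (by positivity) h]

end TK

/-! ## the two kernels -/

/-- cut off -/
noncomputable def th (ε : ℝ) (r : ℝ) : ℝ := Real.smoothTransition (r / ε)

theorem th_smooth (ε : ℝ) : ContDiff ℝ ∞ (th ε) :=
  Real.smoothTransition.contDiff.comp (contDiff_id.div_const ε)

theorem th_zero {ε : ℝ} (hε : 0 < ε) (r : ℝ) (hr : r ≤ 0) : th ε r = 0 :=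
  Real.smoothTransition.zero_of_nonpos (div_nonpos_of_nonpos_of_nonneg hr hε.le)

theorem dth_smooth (ε : ℝ) : ContDiff ℝ ∞ (deriv (th ε)) :=
  (contDiff_infty_iff_deriv.1 (th_smooth ε)).2

theorem dth_zero {ε : ℝ} (hε : 0 < ε) (r : ℝ) (hr : r ≤ 0) : deriv (th ε) r = 0 := by
  have h : IsLocalMin (th ε) r := by
    refine Eventually.of_forall fun x => ?_
    rw [th_zero hε r hr]
    exact Real.smoothTransition.nonneg _
  exact h.deriv_eq_zero

theorem Kr_eq (μ ε s : ℝ) (l : List (Fin n)) : Kr μ ε s l = TK (th ε) μ s l := rfl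
theorem Kp_eq (μ ε s : ℝ) (l : List (Fin n)) : Kp μ ε s l = TK (deriv (th ε)) μ s l := rfl

theorem Kr_joint {μ ε : ℝ} (hμ : 0 < μ) (hε : 0 < ε) (l : List (Fin n)) :
    ContDiffOn ℝ ∞ (fun q : ℝ × ST n => Kr μ ε q.1 l q.2) {q | 0 < q.1} :=
  TK_joint (th_smooth ε) (th_zero hε) l hμ

theorem Kp_joint {μ ε : ℝ} (hμ : 0 < μ) (hε : 0 < ε) (l : List (Fin n)) :
    ContDiffOn ℝ ∞ (fun q : ℝ × ST n => Kp μ ε q.1 l q.2) {q | 0 < q.1} :=
  TK_joint (dth_smooth ε) (dth_zero hε) l hμ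

theorem Kr_smooth {μ ε s : ℝ} (hμ : 0 < μ) (hε : 0 < ε) (hs : 0 < s) (l : List (Fin n)) :
    ContDiff ℝ ∞ (Kr μ ε s l) := TK_smooth (th_smooth ε) (th_zero hε) l hμ hs

theorem Kp_smooth {μ ε s : ℝ} (hμ : 0 < μ) (hε : 0 < ε) (hs : 0 < s) (l : List (Fin n)) :
    ContDiff ℝ ∞ (Kp μ ε s l) := TK_smooth (dth_smooth ε) (dth_zero hε) l hμ hs

/-- space derivatives of the kernels -/
theorem Kr_deriv_x {μ ε s : ℝ} (hμ : 0 < μ) (hε : 0 < ε) (hs : 0 < s) (l : List (Fin n))
    (i : Fin n) (z : ST n) :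
    fderiv ℝ (Kr μ ε s l) z (0, bv i) = Kr μ ε s (i :: l) z :=
  TK_dx (th_smooth ε) (th_zero hε) l hμ hs i z

theorem Kp_deriv_x {μ ε s : ℝ} (hμ : 0 < μ) (hε : 0 < ε) (hs : 0 < s) (l : List (Fin n))
    (i : Fin n) (z : ST n) :
    fderiv ℝ (Kp μ ε s l) z (0, bv i) = Kp μ ε s (i :: l) z :=
  TK_dx (dth_smooth ε) (dth_zero hε) l hμ hs i z

/-- heat equation `∂_r Kr = Kp + μ Δ Kr` -/
theorem Kr_deriv_t {μ ε s : ℝ} (hμ : 0 < μ) (hε : 0 < ε) (hs : 0 < s) (l : List (Fin n))
    (z : ST n) :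
    fderiv ℝ (Kr μ ε s l) z (1, 0) = Kp μ ε s l z + μ * ∑ i, Kr μ ε s (i :: i :: l) z :=
  TK_dt (th_smooth ε) (th_zero hε) l hμ hs z

/-- `∂_s Kp = Δ Kp` -/
theorem Kp_deriv_s {μ ε s : ℝ} (hμ : 0 < μ) (hε : 0 < ε) (hs : 0 < s) (l : List (Fin n))
    (z : ST n) :
    HasDerivAt (fun s => Kp μ ε s l z) (∑ i, Kp μ ε s (i :: i :: l) z) s :=
  TK_ds (dth_zero hε) l hμ hs z

/-- the derivatives commute -/
theorem Kr_perm {μ ε s : ℝ} (hμ : 0 < μ) (hε : 0 < ε) (hs : 0 < s) {l l' : List (Fin n)}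
    (h : l.Perm l') (z : ST n) : Kr μ ε s l z = Kr μ ε s l' z :=
  TK_perm (th_zero hε) hμ hs h z

theorem Kp_perm {μ ε s : ℝ} (hμ : 0 < μ) (hε : 0 < ε) (hs : 0 < s) {l l' : List (Fin n)}
    (h : l.Perm l') (z : ST n) : Kp μ ε s l z = Kp μ ε s l' z :=
  TK_perm (dth_zero hε) hμ hs h z

end Pool.Agent.Helper37.Jef
end

section
/-! # `L¹` bounds of the kernels `Kp`, approximate identity -/

open MeasureTheory Set Filter Topology
open scoped ENNReal ContDiff

namespace Pool.Agent.Helper37.Jef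
open Pool.Agent.Helper42.Jef
variable {n : ℕ}

theorem Gs_nonneg {s : ℝ} (hs : 0 < s) (x : Eu n) : 0 ≤ Gs s x := by
  unfold Gs
  positivity

theorem Gs_integral {s : ℝ} (hs : 0 < s) : ∫ x : Eu n, Gs s x = 1 := by
  unfold Gs
  rw [integral_const_mul]
  have e : ∀ x : Eu n, Real.exp (-‖x‖ ^ 2 / (4 * s)) = Real.exp (-(1 / (4 * s)) * ‖x‖ ^ 2) := by
    intro x
    congr 1
    ring
  simp only [e]
  rw [GaussianFourier.integral_rexp_neg_mul_sq_norm (by positivity)]
  have e2 : Real.pi / (1 / (4 * s)) = 4 * Real.pi * s := by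
    field_simp
  rw [e2, finrank_euclideanSpace_fin, ← Real.rpow_add (by positivity)]
  have : -(n : ℝ) / 2 + (n : ℝ) / 2 = 0 := by ring
  rw [this, Real.rpow_zero]

theorem Gs_integrable {s : ℝ} (hs : 0 < s) : Integrable (Gs (n := n) s) := by
  by_contra h
  have := integral_undef h
  rw [Gs_integral hs] at this
  norm_num at this

theorem Gs_lint {s : ℝ} (hs : 0 < s) : ∫⁻ x : Eu n, ‖Gs s x‖ₑ = 1 := by
  have h := ofReal_integral_norm_eq_lintegral_enorm (Gs_integrable (n := n) hs)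
  rw [← h]
  have e : ∀ x : Eu n, ‖Gs s x‖ = Gs s x := fun x => Real.norm_of_nonneg (Gs_nonneg hs x)
  simp only [e]
  rw [Gs_integral hs]
  simp

theorem th_one {ε : ℝ} (hε : 0 < ε) (r : ℝ) (hr : ε ≤ r) : th ε r = 1 :=
  Real.smoothTransition.one_of_one_le ((one_le_div hε).2 hr)

theorem dth_zero' {ε : ℝ} (hε : 0 < ε) (r : ℝ) (hr : ε ≤ r) : deriv (th ε) r = 0 := by
  have h : IsLocalMax (th ε) r := by
    refine Eventually.of_forall fun x => ?_
    rw [th_one hε r hr]
    exact Real.smoothTransition.le_one _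
  exact h.deriv_eq_zero

theorem dth_nonneg {ε : ℝ} (hε : 0 < ε) (r : ℝ) : 0 ≤ deriv (th ε) r := by
  have h : Monotone (th ε) := fun a b hab =>
    Real.smoothTransition.monotone (div_le_div_of_nonneg_right hab hε.le)
  exact h.deriv_nonneg

theorem dth_integrable {ε : ℝ} (hε : 0 < ε) : Integrable (deriv (th ε)) := by
  refine (dth_smooth ε).continuous.integrable_of_hasCompactSupport ?_
  refine HasCompactSupport.intro (isCompact_Icc (a := 0) (b := ε)) fun r hr => ?_
  by_cases h : r ≤ 0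
  · exact dth_zero hε r h
  · refine dth_zero' hε r ?_
    by_contra h2
    exact hr ⟨(not_le.1 h).le, (not_le.1 h2).le⟩

theorem dth_integral {ε : ℝ} (hε : 0 < ε) : ∫ r, deriv (th ε) r = 1 := by
  have h := integral_of_hasDerivAt_of_tendsto (f := th ε) (f' := deriv (th ε)) (m := 0) (n := 1)
    (fun x => (((th_smooth ε).differentiable (by simp)) x).hasDerivAt) (dth_integrable hε) ?_ ?_
  · rw [h]; norm_num
  · refine tendsto_const_nhds.congr' ?_
    filter_upwards [eventually_le_atBot 0] with r hr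
    exact (th_zero hε r hr).symm
  · refine tendsto_const_nhds.congr' ?_
    filter_upwards [eventually_ge_atTop ε] with r hr
    exact (th_one hε r hr).symm

theorem dth_lint {ε : ℝ} (hε : 0 < ε) : ∫⁻ r, ‖deriv (th ε) r‖ₑ = 1 := by
  rw [← ofReal_integral_norm_eq_lintegral_enorm (dth_integrable hε)]
  have e : ∀ r, ‖deriv (th ε) r‖ = deriv (th ε) r := fun r =>
    Real.norm_of_nonneg (dth_nonneg hε r)
  simp only [e]
  rw [dth_integral hε]
  simp

theorem lint_prod_th {ε : ℝ} (hε : 0 < ε) {H : ℝ → Eu n → ℝ≥0∞}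
    (hm : AEMeasurable (fun z : ST n => ‖deriv (th ε) z.1‖ₑ * H z.1 z.2) volume) {C : ℝ≥0∞}
    (hH : ∀ r, 0 < r → r < ε → ∫⁻ x, H r x ≤ C) :
    ∫⁻ z : ST n, ‖deriv (th ε) z.1‖ₑ * H z.1 z.2 ≤ C := by
  rw [Measure.volume_eq_prod] at hm ⊢
  rw [lintegral_prod _ hm]
  calc ∫⁻ r, ∫⁻ x, ‖deriv (th ε) r‖ₑ * H r x ≤ ∫⁻ r, ‖deriv (th ε) r‖ₑ * C := by
        refine lintegral_mono fun r => ?_
        simp only []
        rw [lintegral_const_mul' _ _ enorm_ne_top]
        by_cases h0 : r ≤ 0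
        · rw [dth_zero hε r h0]; simp
        by_cases h1 : ε ≤ r
        · rw [dth_zero' hε r h1]; simp
        exact mul_le_mul_right (hH r (not_le.1 h0) (not_le.1 h1)) _
    _ = C := by
        rw [lintegral_mul_const'' _ (dth_integrable hε).aestronglyMeasurable.enorm, dth_lint hε,
          one_mul]

theorem Kp_enorm (μ ε s : ℝ) (l : List (Fin n)) (z : ST n) :
    ‖Kp μ ε s l z‖ₑ = ‖deriv (th ε) z.1‖ₑ * ‖pds l (Gs (μ * z.1 + s)) z.2‖ₑ := by
  rw [Kp_eq, TK, enorm_mul]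

theorem Kp_bound {μ ε s : ℝ} (hμ : 0 < μ) (hε : 0 < ε) (hs : 0 < s) (l : List (Fin n))
    {C : ℝ≥0∞} (hC : ∀ r, 0 < r → r < ε → ∫⁻ x : Eu n, ‖pds l (Gs (μ * r + s)) x‖ₑ ≤ C) :
    ∫⁻ z : ST n, ‖Kp μ ε s l z‖ₑ ≤ C := by
  simp only [Kp_enorm]
  refine lint_prod_th hε (H := fun r x => ‖pds l (Gs (μ * r + s)) x‖ₑ) ?_ hC
  have h := (Kp_smooth hμ hε hs l).continuous.enorm.measurable.aemeasurable (μ := volume)
  refine h.congr (Eventually.of_forall fun z => ?_)
  simp only [Kp_enorm]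

theorem Kp0_lint {μ ε s : ℝ} (hμ : 0 < μ) (hε : 0 < ε) (hs : 0 < s) :
    ∫⁻ z : ST n, ‖Kp μ ε s [] z‖ₑ ≤ 1 := by
  refine Kp_bound hμ hε hs [] fun r hr _ => ?_
  exact (Gs_lint (n := n) (s := μ * r + s) (by positivity)).le

theorem Kp0_integrable {μ ε s : ℝ} (hμ : 0 < μ) (hε : 0 < ε) (hs : 0 < s) :
    Integrable (Kp (n := n) μ ε s []) :=
  ⟨(Kp_smooth hμ hε hs []).continuous.aestronglyMeasurable,
    (Kp0_lint hμ hε hs).trans_lt ENNReal.one_lt_top⟩

theorem Kp0_integral {μ ε s : ℝ} (hμ : 0 < μ) (hε : 0 < ε) (hs : 0 < s) :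
    ∫ z : ST n, Kp μ ε s [] z = 1 := by
  have h := Kp0_integrable (n := n) hμ hε hs
  rw [Measure.volume_eq_prod] at h ⊢
  rw [integral_prod _ h]
  rw [← dth_integral hε]
  refine integral_congr_ae (Eventually.of_forall fun r => ?_)
  simp only [Kp_eq, TK, pds]
  rw [integral_const_mul]
  by_cases h0 : r ≤ 0
  · rw [dth_zero hε r h0]; simp
  · have : 0 < μ * r + s := by
      have := not_le.1 h0
      positivity
    rw [Gs_integral this, mul_one]

/-- Gaussian with doubled time dominates -/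
theorem Gs_double {s : ℝ} (hs : 0 < s) (x : Eu n) :
    Gs s x = (2 : ℝ) ^ ((n : ℝ) / 2) * Real.exp (-‖x‖ ^ 2 / (8 * s)) * Gs (2 * s) x := by
  unfold Gs
  have e1 : (4 * Real.pi * (2 * s)) = 2 * (4 * Real.pi * s) := by ring
  have e2 : -‖x‖ ^ 2 / (4 * s) = -‖x‖ ^ 2 / (8 * s) + -‖x‖ ^ 2 / (4 * (2 * s)) := by
    field_simp
    ring
  have e4 : (2 * (4 * Real.pi * s)) ^ (-(n : ℝ) / 2) =
      (2 : ℝ) ^ (-(n : ℝ) / 2) * (4 * Real.pi * s) ^ (-(n : ℝ) / 2) :=
    Real.mul_rpow (by norm_num) (by positivity)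
  rw [e1, e4, e2, Real.exp_add]
  have e3 : (2 : ℝ) ^ ((n : ℝ) / 2) * (2 : ℝ) ^ (-(n : ℝ) / 2) = 1 := by
    rw [← Real.rpow_add (by norm_num)]
    have : (n : ℝ) / 2 + -(n : ℝ) / 2 = 0 := by ring
    rw [this, Real.rpow_zero]
  linear_combination (-((4 * Real.pi * s) ^ (-(n : ℝ) / 2) * Real.exp (-‖x‖ ^ 2 / (8 * s)) *
    Real.exp (-‖x‖ ^ 2 / (4 * (2 * s))))) * e3

theorem exp_neg_le_inv {u : ℝ} (hu : 0 < u) : Real.exp (-u) ≤ 1 / u := by
  rw [Real.exp_neg, ← one_div]
  refine one_div_le_one_div_of_le hu ?_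
  have := Real.add_one_le_exp u
  linarith

theorem Gs_x_bound {s : ℝ} (hs : 1 ≤ s) (k : Fin n) (x : Eu n) :
    ‖pds [k] (Gs s) x‖ ≤ (2 : ℝ) ^ ((n : ℝ) / 2) * Gs (2 * s) x := by
  have hs0 : 0 < s := by linarith
  have e : pds [k] (Gs s) x = -(x k / (2 * s)) * Gs s x := Gs_pd x k
  rw [e, Gs_double hs0, norm_mul, Real.norm_of_nonneg (r := 2 ^ _ * _ * _)
    (mul_nonneg (by positivity) (Gs_nonneg (by linarith) x))]
  have hk : |x k| ≤ ‖x‖ := by
    have := PiLp.norm_apply_le x k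
    simpa using this
  have h1 : ‖-(x k / (2 * s))‖ * Real.exp (-‖x‖ ^ 2 / (8 * s)) ≤ 1 := by
    rw [norm_neg, Real.norm_eq_abs, abs_div, abs_of_pos (by positivity : 0 < 2 * s)]
    set t := ‖x‖ with ht
    have ht0 : 0 ≤ t := norm_nonneg x
    have h2 : Real.exp (-t ^ 2 / (8 * s)) ≤ 1 / (1 + t ^ 2 / (8 * s)) := by
      have e3 : -t ^ 2 / (8 * s) = -(t ^ 2 / (8 * s)) := by ring
      rw [e3, Real.exp_neg, ← one_div]
      refine one_div_le_one_div_of_le (by positivity) ?_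
      have := Real.add_one_le_exp (t ^ 2 / (8 * s))
      linarith
    calc |x k| / (2 * s) * Real.exp (-t ^ 2 / (8 * s))
        ≤ t / (2 * s) * (1 / (1 + t ^ 2 / (8 * s))) := by
          refine mul_le_mul ?_ h2 (Real.exp_pos _).le (by positivity)
          exact div_le_div_of_nonneg_right hk (by positivity)
      _ = t / (2 * s + t ^ 2 / 4) := by
          field_simp
          ring
      _ ≤ 1 := by
          rw [div_le_one (by positivity)]
          nlinarith [sq_nonneg (t / 2 - 1)]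
  calc ‖-(x k / (2 * s))‖ * (2 ^ ((n : ℝ) / 2) * Real.exp (-‖x‖ ^ 2 / (8 * s)) * Gs (2 * s) x)
      = (‖-(x k / (2 * s))‖ * Real.exp (-‖x‖ ^ 2 / (8 * s))) *
        (2 ^ ((n : ℝ) / 2) * Gs (2 * s) x) := by ring
    _ ≤ 1 * (2 ^ ((n : ℝ) / 2) * Gs (2 * s) x) := by
        refine mul_le_mul_of_nonneg_right h1 ?_
        exact mul_nonneg (by positivity) (Gs_nonneg (by linarith) x)
    _ = _ := one_mul _

theorem Kp1_lint {μ ε : ℝ} (hμ : 0 < μ) (hε : 0 < ε) (k : Fin n) :
    ∫⁻ z : ST n, ‖Kp μ ε 1 [k] z‖ₑ ≤ ENNReal.ofReal ((2 : ℝ) ^ ((n : ℝ) / 2)) := by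
  refine Kp_bound hμ hε one_pos [k] fun r hr _ => ?_
  have hs : 1 ≤ μ * r + 1 := by
    have := mul_pos hμ hr
    linarith
  calc ∫⁻ x : Eu n, ‖pds [k] (Gs (μ * r + 1)) x‖ₑ
      ≤ ∫⁻ x : Eu n, ENNReal.ofReal ((2 : ℝ) ^ ((n : ℝ) / 2)) * ‖Gs (2 * (μ * r + 1)) x‖ₑ := by
        refine lintegral_mono fun x => ?_
        rw [← ofReal_norm, ← ofReal_norm, ← ENNReal.ofReal_mul (by positivity)]
        refine ENNReal.ofReal_le_ofReal ?_
        rw [Real.norm_of_nonneg (Gs_nonneg (by linarith : 0 < 2 * (μ * r + 1)) x)]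
        exact Gs_x_bound hs k x
    _ = _ := by
        rw [lintegral_const_mul' _ _ ENNReal.ofReal_ne_top, Gs_lint (by linarith), mul_one]

theorem Kp_far {μ ε r0 : ℝ} (hμ : 0 < μ) (hε : 0 < ε) (h0 : ε < r0) :
    ∫⁻ z in {z : ST n | r0 ≤ ‖z‖}, ‖Kp μ ε ε [] z‖ₑ ≤
      ENNReal.ofReal ((2 : ℝ) ^ ((n : ℝ) / 2) * (8 * (μ + 1) / r0 ^ 2) * ε) := by
  have hr0 : 0 < r0 := hε.trans h0
  have hms : MeasurableSet {z : ST n | r0 ≤ ‖z‖} :=
    (isClosed_le continuous_const continuous_norm).measurableSet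
  have hms2 : MeasurableSet {z : ST n | r0 ≤ ‖z.2‖} :=
    (isClosed_le continuous_const (continuous_norm.comp continuous_snd)).measurableSet
  set H : ℝ → Eu n → ℝ≥0∞ := fun r x =>
    Set.indicator {x : Eu n | r0 ≤ ‖x‖} (fun x => ‖Gs (μ * r + ε) x‖ₑ) x with hH
  have hle : ∀ z : ST n, Set.indicator {z : ST n | r0 ≤ ‖z‖} (fun z => ‖Kp μ ε ε [] z‖ₑ) z ≤
      ‖deriv (th ε) z.1‖ₑ * H z.1 z.2 := by
    intro z
    by_cases hz : z ∈ {z : ST n | r0 ≤ ‖z‖}
    · rw [indicator_of_mem hz, Kp_enorm]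
      by_cases h1 : z.1 ≤ 0
      · rw [dth_zero hε _ h1]; simp
      by_cases h2 : ε ≤ z.1
      · rw [dth_zero' hε _ h2]; simp
      have h3 : r0 ≤ ‖z.2‖ := by
        have h4 : r0 ≤ max ‖z.1‖ ‖z.2‖ := hz
        rcases le_max_iff.1 h4 with h5 | h5
        · exfalso
          rw [Real.norm_eq_abs, abs_of_pos (not_le.1 h1)] at h5
          linarith [not_le.1 h2]
        · exact h5
      have h6 : H z.1 z.2 = ‖Gs (μ * z.1 + ε) z.2‖ₑ := indicator_of_mem (s := {x : Eu n | r0 ≤ ‖x‖})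
        h3 _
      rw [h6]
      exact le_rfl
    · rw [indicator_of_notMem hz]
      exact zero_le
  rw [← lintegral_indicator hms]
  refine (lintegral_mono hle).trans ?_
  refine lint_prod_th hε ?_ ?_
  · have hc : AEMeasurable (fun z : ST n => ‖Kp μ ε ε [] z‖ₑ) volume :=
      (Kp_smooth hμ hε hε []).continuous.enorm.measurable.aemeasurable
    refine (hc.indicator hms2).congr (Eventually.of_forall fun z => ?_)
    by_cases h3 : r0 ≤ ‖z.2‖
    · have h6 : H z.1 z.2 = ‖Gs (μ * z.1 + ε) z.2‖ₑ := indicator_of_mem (s := {x : Eu n | r0 ≤ ‖x‖})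
        h3 _
      simp only []
      rw [h6, indicator_of_mem (s := {z : ST n | r0 ≤ ‖z.2‖}) h3, Kp_enorm]
      rfl
    · have h6 : H z.1 z.2 = 0 := indicator_of_notMem (s := {x : Eu n | r0 ≤ ‖x‖}) h3 _
      simp only []
      rw [h6, indicator_of_notMem (s := {z : ST n | r0 ≤ ‖z.2‖}) h3]
      simp
  · intro r hr hrε
    have hs : 0 < μ * r + ε := by positivity
    have hs1 : μ * r + ε ≤ (μ + 1) * ε := by nlinarith
    calc ∫⁻ x, H r x ≤ ∫⁻ x : Eu n, ENNReal.ofReal ((2 : ℝ) ^ ((n : ℝ) / 2) *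
          (8 * (μ + 1) / r0 ^ 2) * ε) * ‖Gs (2 * (μ * r + ε)) x‖ₑ := by
          refine lintegral_mono fun x => ?_
          by_cases hx : r0 ≤ ‖x‖
          · have h6 : H r x = ‖Gs (μ * r + ε) x‖ₑ := indicator_of_mem (s := {x : Eu n | r0 ≤ ‖x‖})
              hx _
            simp only []
            rw [h6, ← ofReal_norm, ← ofReal_norm,
              ← ENNReal.ofReal_mul (by positivity)]
            refine ENNReal.ofReal_le_ofReal ?_
            have hG := Gs_nonneg (by linarith : 0 < 2 * (μ * r + ε)) x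
            rw [Real.norm_of_nonneg hG, Real.norm_of_nonneg (Gs_nonneg hs x), Gs_double hs]
            refine mul_le_mul_of_nonneg_right ?_ hG
            rw [mul_assoc]
            refine mul_le_mul_of_nonneg_left ?_ (by positivity)
            have hx0 : 0 < ‖x‖ := hr0.trans_le hx
            have e3 : -‖x‖ ^ 2 / (8 * (μ * r + ε)) = -(‖x‖ ^ 2 / (8 * (μ * r + ε))) := by ring
            rw [e3]
            refine (exp_neg_le_inv (by positivity)).trans ?_
            rw [one_div_div]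
            calc 8 * (μ * r + ε) / ‖x‖ ^ 2 ≤ 8 * ((μ + 1) * ε) / r0 ^ 2 := by gcongr
              _ = _ := by ring
          · have h6 : H r x = 0 := indicator_of_notMem (s := {x : Eu n | r0 ≤ ‖x‖}) hx _
            simp only []
            rw [h6]
            exact zero_le
      _ = _ := by
          rw [lintegral_const_mul' _ _ ENNReal.ofReal_ne_top, Gs_lint (by linarith), mul_one]

/-! ## approximate identity -/

theorem tau_tendsto {X : ST n → ℝ} (hX : MemLp X 2 volume) :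
    Tendsto (fun y : ST n => eLpNorm (fun z => X (z - y) - X z) 2 volume) (𝓝 0) (𝓝 0) := by
  have hm : ∀ y : ST n, MeasurePreserving (fun z : ST n => z - y) volume volume := fun y =>
    measurePreserving_sub_right volume y
  let g : ST n → C(ST n, ST n) := fun y => ⟨fun z => z - y, by fun_prop⟩
  have hg : Continuous g := by
    have : Continuous (Function.uncurry fun (y z : ST n) => z - y) := by
      exact continuous_snd.sub continuous_fst
    exact (ContinuousMap.curry ⟨_, this⟩).continuous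
  have hgm : ∀ y, MeasurePreserving (g y) volume volume := hm
  have h2 : (2 : ℝ≥0∞) ≠ ⊤ := by norm_num
  have hF : Continuous (fun y => Lp.compMeasurePreserving (g y) (hgm y) (hX.toLp X)) :=
    continuous_const.compMeasurePreservingLp hg hgm h2
  have h3 := (hF.tendsto 0)
  rw [tendsto_iff_edist_tendsto_0] at h3
  refine h3.congr fun y => ?_
  simp only [Lp.toLp_compMeasurePreserving, Lp.edist_toLp_toLp]
  refine eLpNorm_congr_ae (Eventually.of_forall fun z => ?_)
  simp [g]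

theorem app_id {X : ST n → ℝ} (hX : MemLp X 2 volume) (hX1 : Integrable X) {μ : ℝ} (hμ : 0 < μ)
    {δ : ℝ} (hδ : 0 < δ) : ∃ ε0 : ℝ, 0 < ε0 ∧ ∀ ε, 0 < ε → ε < ε0 →
      eLpNorm (fun z => X z - cv (Kp μ ε ε []) X z) 2 volume ≤ ENNReal.ofReal δ := by
  -- the radius
  set η : ℝ := δ ^ 2 / 2 with hη
  have hη0 : 0 < η := by positivity
  have h1 : ∀ᶠ y in 𝓝 (0 : ST n), eLpNorm (fun z => X (z - y) - X z) 2 volume ^ (2 : ℝ)
      < ENNReal.ofReal η := by
    have h := ((ENNReal.continuous_rpow_const (y := 2)).tendsto 0).comp (tau_tendsto hX)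
    simp only [ENNReal.zero_rpow_of_pos (by norm_num : (0 : ℝ) < 2)] at h
    exact h.eventually_lt_const (by simpa using hη0)
  obtain ⟨r0, hr0, hball⟩ := Metric.eventually_nhds_iff.1 h1
  set B : ℝ≥0∞ := (2 * eLpNorm X 2 volume) ^ (2 : ℝ) with hB
  have hBtop : B ≠ ⊤ := by
    refine ENNReal.rpow_ne_top_of_nonneg (by norm_num) ?_
    exact ENNReal.mul_ne_top (by norm_num) hX.eLpNorm_ne_top
  set c1 : ℝ := (2 : ℝ) ^ ((n : ℝ) / 2) * (8 * (μ + 1) / r0 ^ 2) with hc1
  have hc10 : 0 < c1 := by positivity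
  refine ⟨min r0 (η / ((B.toReal + 1) * c1)), lt_min hr0 (by positivity), fun ε hε hlt => ?_⟩
  have hε1 : ε < r0 := hlt.trans_le (min_le_left _ _)
  have hε2 : ε < η / ((B.toReal + 1) * c1) := hlt.trans_le (min_le_right _ _)
  set ρ : ST n → ℝ := Kp μ ε ε [] with hρ
  have hρi : Integrable ρ := Kp0_integrable hμ hε hε
  have hρc : Continuous ρ := (Kp_smooth hμ hε hε []).continuous
  have hX2 : AEStronglyMeasurable X volume := hX.aestronglyMeasurable
  -- the difference
  set D : ST n × ST n → ℝ≥0∞ := fun p => ‖X p.1 - X (p.1 - p.2)‖ₑ with hD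
  have hDm : AEMeasurable D ((volume : Measure (ST n)).prod volume) := by
    have e1 : AEStronglyMeasurable (fun p : ST n × ST n => X p.1)
      ((volume : Measure (ST n)).prod volume) := hX2.comp_fst
    have e2 : AEStronglyMeasurable (fun p : ST n × ST n => X (p.1 - p.2))
      ((volume : Measure (ST n)).prod volume) :=
      hX2.comp_quasiMeasurePreserving
        (quasiMeasurePreserving_sub_of_right_invariant volume volume)
    exact (e1.sub e2).enorm
  have hint : ∀ᵐ z, ‖X z - cv ρ X z‖ₑ ≤ ∫⁻ y, ‖ρ y‖ₑ * D (z, y) := by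
    filter_upwards [ae_ce hρi hX1] with z hz
    have hz' : Integrable (fun y => ρ y * X (z - y)) := by
      have := hz.comp_sub_left z
      simpa using this
    have e1 : cv ρ X z = ∫ y, ρ y * X (z - y) := by
      unfold cv
      rw [← integral_sub_left_eq_self (fun y => ρ (z - y) * X y) volume z]
      simp
    have e2 : X z - cv ρ X z = ∫ y, ρ y * (X z - X (z - y)) := by
      have e3 : ∀ y, ρ y * (X z - X (z - y)) = ρ y * X z - ρ y * X (z - y) := fun y => by ring
      simp only [e3]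
      rw [integral_sub (hρi.mul_const _) hz', integral_mul_const, Kp0_integral hμ hε hε, e1]
      ring
    rw [e2]
    refine (enorm_integral_le_lintegral_enorm _).trans (le_of_eq ?_)
    refine lintegral_congr fun y => ?_
    rw [enorm_mul]
  have hρ1 : ∫⁻ y, ‖ρ y‖ₑ ≤ 1 := Kp0_lint hμ hε hε
  -- the main estimate
  have hmain : eLpNorm (fun z => X z - cv ρ X z) 2 volume ^ (2 : ℝ) ≤
      ∫⁻ y, ‖ρ y‖ₑ * eLpNorm (fun z => X (z - y) - X z) 2 volume ^ (2 : ℝ) := by
    rw [eL2_sq]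
    have hρm : AEMeasurable (fun p : ST n × ST n => ‖ρ p.2‖ₑ)
      ((volume : Measure (ST n)).prod volume) :=
      (hρc.enorm.measurable.comp measurable_snd).aemeasurable
    calc ∫⁻ z, ‖X z - cv ρ X z‖ₑ ^ (2 : ℝ)
        ≤ ∫⁻ z, (∫⁻ y, ‖ρ y‖ₑ * D (z, y)) ^ (2 : ℝ) := by
          refine lintegral_mono_ae ?_
          filter_upwards [hint] with z hz
          exact ENNReal.rpow_le_rpow hz (by norm_num)
      _ ≤ ∫⁻ z, ∫⁻ y, ‖ρ y‖ₑ * D (z, y) ^ (2 : ℝ) := by
          refine lintegral_mono fun z => ?_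
          have hz0 : AEStronglyMeasurable (fun y => X (z - y)) volume :=
            hX2.comp_measurePreserving (Measure.measurePreserving_sub_left volume z)
          have hz1 : AEStronglyMeasurable (fun y => X z - X (z - y)) volume :=
            (aestronglyMeasurable_const (b := X z)).sub hz0
          have hz : AEMeasurable (fun y => D (z, y)) volume := hz1.enorm
          refine (cs_lint hρc.enorm.measurable.aemeasurable hz).trans ?_
          calc (∫⁻ y, ‖ρ y‖ₑ) * ∫⁻ y, ‖ρ y‖ₑ * D (z, y) ^ (2 : ℝ)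
              ≤ 1 * ∫⁻ y, ‖ρ y‖ₑ * D (z, y) ^ (2 : ℝ) := mul_le_mul_left hρ1 _
            _ = _ := one_mul _
      _ = ∫⁻ y, ∫⁻ z, ‖ρ y‖ₑ * D (z, y) ^ (2 : ℝ) := by
          rw [lintegral_lintegral_swap]
          exact hρm.mul (hDm.pow_const _)
      _ = _ := by
          refine lintegral_congr fun y => ?_
          rw [lintegral_const_mul' _ _ enorm_ne_top, eL2_sq]
          congr 1
          refine lintegral_congr fun z => ?_
          simp only [hD]
          rw [← enorm_neg, neg_sub]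
  have hτB : ∀ y : ST n, eLpNorm (fun z => X (z - y) - X z) 2 volume ^ (2 : ℝ) ≤ B := by
    intro y
    refine ENNReal.rpow_le_rpow ?_ (by norm_num)
    have hm := measurePreserving_sub_right (volume : Measure (ST n)) y
    have e1 : eLpNorm (fun z => X (z - y)) 2 volume = eLpNorm X 2 volume :=
      eLpNorm_comp_measurePreserving hX2 hm
    calc eLpNorm (fun z => X (z - y) - X z) 2 volume
        ≤ eLpNorm (fun z => X (z - y)) 2 volume + eLpNorm X 2 volume :=
          eLpNorm_sub_le (hX2.comp_measurePreserving hm) hX2 (by norm_num)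
      _ = _ := by rw [e1, two_mul]
  have hms : MeasurableSet {z : ST n | r0 ≤ ‖z‖} :=
    (isClosed_le continuous_const continuous_norm).measurableSet
  have hfin : ∫⁻ y, ‖ρ y‖ₑ * eLpNorm (fun z => X (z - y) - X z) 2 volume ^ (2 : ℝ) ≤
      ENNReal.ofReal (δ ^ 2) := by
    rw [← lintegral_add_compl _ hms]
    have p1 : ∫⁻ y in {z : ST n | r0 ≤ ‖z‖},
        ‖ρ y‖ₑ * eLpNorm (fun z => X (z - y) - X z) 2 volume ^ (2 : ℝ) ≤ ENNReal.ofReal η := by
      calc _ ≤ ∫⁻ y in {z : ST n | r0 ≤ ‖z‖}, ‖ρ y‖ₑ * B :=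
            lintegral_mono fun y => mul_le_mul_right (hτB y) _
        _ = (∫⁻ y in {z : ST n | r0 ≤ ‖z‖}, ‖ρ y‖ₑ) * B := by
            rw [lintegral_mul_const' _ _ hBtop]
        _ ≤ ENNReal.ofReal (c1 * ε) * B := mul_le_mul_left (Kp_far hμ hε hε1) _
        _ ≤ ENNReal.ofReal η := by
            rw [← ENNReal.ofReal_toReal hBtop, ← ENNReal.ofReal_mul (by positivity)]
            refine ENNReal.ofReal_le_ofReal ?_
            rw [lt_div_iff₀ (by positivity)] at hε2
            have : 0 ≤ B.toReal := ENNReal.toReal_nonneg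
            nlinarith [mul_pos hc10 hε]
    have p2 : ∫⁻ y in {z : ST n | r0 ≤ ‖z‖}ᶜ,
        ‖ρ y‖ₑ * eLpNorm (fun z => X (z - y) - X z) 2 volume ^ (2 : ℝ) ≤ ENNReal.ofReal η := by
      calc _ ≤ ∫⁻ y in {z : ST n | r0 ≤ ‖z‖}ᶜ, ‖ρ y‖ₑ * ENNReal.ofReal η := by
            refine setLIntegral_mono' hms.compl fun y hy => ?_
            have hy' : dist y 0 < r0 := by
              rw [dist_zero_right]
              exact not_le.1 hy
            exact mul_le_mul_right (hball hy').le _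
        _ = (∫⁻ y in {z : ST n | r0 ≤ ‖z‖}ᶜ, ‖ρ y‖ₑ) * ENNReal.ofReal η := by
            rw [lintegral_mul_const' _ _ ENNReal.ofReal_ne_top]
        _ ≤ 1 * ENNReal.ofReal η := mul_le_mul_left ((setLIntegral_le_lintegral _ _).trans hρ1) _
        _ = _ := one_mul _
    calc _ ≤ ENNReal.ofReal η + ENNReal.ofReal η := add_le_add p1 p2
      _ = ENNReal.ofReal (δ ^ 2) := by
          rw [← ENNReal.ofReal_add hη0.le hη0.le, hη, add_halves]
  have h2 : (0 : ℝ) < 2 := by norm_num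
  rw [← ENNReal.rpow_le_rpow_iff h2]
  refine (hmain.trans hfin).trans (le_of_eq ?_)
  rw [ENNReal.ofReal_rpow_of_pos hδ]
  norm_num

end Pool.Agent.Helper37.Jef
end

section
/-! # integration of the kernels in the parameter `s` -/

open MeasureTheory Set Filter Topology
open scoped ENNReal ContDiff

namespace Pool.Agent.Helper37.Jef
open Pool.Agent.Helper42.Jef
variable {n : ℕ}

/-- jointly continuous family on positive parameters -/
def JC (k : ℝ → ST n → ℝ) : Prop := ContinuousOn (fun q : ℝ × ST n => k q.1 q.2) {q | 0 < q.1}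

theorem JC_ext {k : ℝ → ST n → ℝ} (hk : JC k) {ε : ℝ} (hε : 0 < ε) :
    Continuous (fun q : ℝ × ST n => k (max q.1 ε) q.2) := by
  refine ContinuousOn.comp_continuous (g := fun q : ℝ × ST n => k q.1 q.2)
    (f := fun q : ℝ × ST n => (max q.1 ε, q.2)) hk ?_ ?_
  · exact (continuous_fst.max continuous_const).prodMk continuous_snd
  · intro q
    exact lt_max_of_lt_right hε

theorem JC_int_eq {k : ℝ → ST n → ℝ} {ε : ℝ} (h1 : ε ≤ 1) (z : ST n) :
    ∫ s in ε..1, k s z = ∫ s in ε..1, k (max s ε) z := by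
  refine intervalIntegral.integral_congr fun s hs => ?_
  rw [uIcc_of_le h1] at hs
  rw [max_eq_left hs.1]

theorem JC_cont {k : ℝ → ST n → ℝ} (hk : JC k) {ε : ℝ} (hε : 0 < ε) (h1 : ε ≤ 1) :
    Continuous (fun z => ∫ s in ε..1, k s z) := by
  have e : (fun z => ∫ s in ε..1, k s z) = fun z => ∫ s in ε..1, k (max s ε) z :=
    funext fun z => JC_int_eq h1 z
  rw [e]
  refine intervalIntegral.continuous_parametric_intervalIntegral_of_continuous'
    (f := fun (z : ST n) (s : ℝ) => k (max s ε) z) ?_ ε 1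
  have h := (JC_ext hk hε).comp (continuous_snd.prodMk continuous_fst :
    Continuous (fun p : ST n × ℝ => (p.2, p.1)))
  exact h

theorem JC_fix {k : ℝ → ST n → ℝ} (hk : JC k) {s : ℝ} (hs : 0 < s) : Continuous (k s) := by
  have h := (JC_ext hk hs).comp (continuous_const.prodMk continuous_id :
    Continuous (fun z : ST n => (s, z)))
  have e : ((fun q : ℝ × ST n => k (max q.1 s) q.2) ∘ fun z : ST n => (s, z)) = k s := by
    funext z
    simp
  rwa [e] at h

/-- Fubini for the parameter -/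
theorem JC_fub {k : ℝ → ST n → ℝ} (hk : JC k) {ε : ℝ} (hε : 0 < ε) (h1 : ε ≤ 1)
    {u : ST n → ℝ} (hu : Integrable u) {S : Set (ST n)} (hS : IsCompact S)
    (h0 : ∀ y, y ∉ S → u y = 0) (z : ST n) :
    IntervalIntegrable (fun s => cv (k s) u z) volume ε 1 ∧
    ∫ s in ε..1, cv (k s) u z = cv (fun z => ∫ s in ε..1, k s z) u z := by
  have hc := JC_ext hk hε
  have hc2 : Continuous (fun q : ℝ × ST n => k (max q.1 ε) (z - q.2)) := by
    have h := hc.comp (continuous_fst.prodMk (continuous_const.sub continuous_snd) :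
      Continuous (fun q : ℝ × ST n => (q.1, z - q.2)))
    exact h
  obtain ⟨C, hC⟩ := (isCompact_Icc (a := ε) (b := 1)).prod hS |>.exists_bound_of_continuousOn
    hc2.continuousOn
  have hI : Integrable (fun q : ℝ × ST n => k (max q.1 ε) (z - q.2) * u q.2)
      ((volume.restrict (Ioc ε 1)).prod volume) := by
    have hdom : Integrable (fun q : ℝ × ST n => C * ‖u q.2‖)
        ((volume.restrict (Ioc ε 1)).prod volume) := (hu.norm.comp_snd _).const_mul C
    refine hdom.mono' ?_ ?_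
    · exact hc2.aestronglyMeasurable.mul hu.aestronglyMeasurable.comp_snd
    · have hae : ∀ᵐ q : ℝ × ST n ∂((volume.restrict (Ioc ε 1)).prod volume), q.1 ∈ Ioc ε 1 := by
        have := Measure.quasiMeasurePreserving_fst (μ := volume.restrict (Ioc ε 1))
          (ν := (volume : Measure (ST n)))
        exact this.ae (ae_restrict_mem measurableSet_Ioc)
      filter_upwards [hae] with q hq
      rw [norm_mul]
      by_cases hy : q.2 ∈ S
      · exact mul_le_mul_of_nonneg_right (hC q ⟨⟨hq.1.le, hq.2⟩, hy⟩) (norm_nonneg _)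
      · rw [h0 _ hy]; simp
  have e1 : ∀ s ∈ Ioc ε 1, cv (k s) u z = ∫ y, k (max s ε) (z - y) * u y := by
    intro s hs
    rw [max_eq_left hs.1.le]
    rfl
  constructor
  · rw [intervalIntegrable_iff_integrableOn_Ioc_of_le h1]
    refine IntegrableOn.congr_fun (f := fun s => ∫ y, k (max s ε) (z - y) * u y) ?_
      (fun s hs => (e1 s hs).symm) measurableSet_Ioc
    exact hI.integral_prod_left
  · rw [intervalIntegral.integral_of_le h1, setIntegral_congr_fun measurableSet_Ioc e1]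
    rw [integral_integral_swap hI]
    unfold cv
    refine integral_congr_ae (Eventually.of_forall fun y => ?_)
    simp only []
    rw [integral_mul_const, intervalIntegral.integral_of_le h1]
    congr 1
    refine setIntegral_congr_fun measurableSet_Ioc fun s hs => ?_
    rw [max_eq_left hs.1.le]

theorem JC_Kr {μ ε : ℝ} (hμ : 0 < μ) (hε : 0 < ε) (l : List (Fin n)) :
    JC (fun s => Kr μ ε s l) := (Kr_joint hμ hε l).continuousOn

theorem JC_Kp {μ ε : ℝ} (hμ : 0 < μ) (hε : 0 < ε) (l : List (Fin n)) :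
    JC (fun s => Kp μ ε s l) := (Kp_joint hμ hε l).continuousOn

/-- fundamental theorem of calculus in `s` -/
theorem Kp_ftc {μ ε : ℝ} (hμ : 0 < μ) (hε : 0 < ε) (h1 : ε ≤ 1) (z : ST n) :
    ∫ s in ε..1, ∑ i, Kp μ ε s [i, i] z = Kp μ ε 1 [] z - Kp μ ε ε [] z := by
  refine intervalIntegral.integral_eq_sub_of_hasDerivAt (f := fun s => Kp μ ε s [] z)
    (fun s hs => ?_) ?_
  · rw [uIcc_of_le h1] at hs
    exact Kp_deriv_s hμ hε (hε.trans_le hs.1) [] z
  · refine ContinuousOn.intervalIntegrable ?_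
    rw [uIcc_of_le h1]
    refine continuousOn_finsetSum _ fun i _ => ?_
    have h := JC_Kp hμ hε [i, i]
    refine ContinuousOn.comp (g := fun q : ℝ × ST n => Kp μ ε q.1 [i, i] q.2)
      (f := fun s : ℝ => (s, z)) h (continuous_id.prodMk continuous_const).continuousOn ?_
    intro s hs
    exact hε.trans_le hs.1

end Pool.Agent.Helper37.Jef
end

section
/-! # weak gradient and trace of velocity fields -/

open MeasureTheory Set Filter Topology
open scoped ENNReal ContDiff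

namespace Pool.Agent.Helper37.Jef
open Pool.Agent.Helper42.Jef
variable {n : ℕ}

theorem dx_slice {ψ : ST n → ℝ} (hψ : ContDiff ℝ ∞ ψ) (t : ℝ) (x : Eu n) (v : Eu n) :
    fderiv ℝ (fun x => ψ (t, x)) x v = fderiv ℝ ψ (t, x) (0, v) := by
  have hd : DifferentiableAt ℝ ψ (t, x) := (hψ.differentiable (by simp)) _
  have h1 : HasFDerivAt (fun x : Eu n => ψ (t, x))
      ((fderiv ℝ ψ (t, x)).comp (ContinuousLinearMap.inr ℝ ℝ (Eu n))) x :=
    HasFDerivAt.comp (g := ψ) (f := fun x : Eu n => (t, x)) x hd.hasFDerivAt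
      (hasFDerivAt_prodMk_right t x)
  rw [h1.fderiv]
  simp

theorem ibp_slice {φ : Eu n → ℝ} (hφ : ContDiff ℝ ∞ φ) (hφc : HasCompactSupport φ)
    {ψ : ST n → ℝ} (hψ : ContDiff ℝ ∞ ψ) (t : ℝ) (j : Fin n) :
    ∫ x, fderiv ℝ φ x (bv j) * ψ (t, x) = -∫ x, φ x * dx j ψ (t, x) := by
  have hψ2 : ContDiff ℝ ∞ (fun x : Eu n => ψ (t, x)) :=
    hψ.comp (contDiff_const.prodMk contDiff_id)
  have c1 : Continuous φ := hφ.continuous
  have c2 : Continuous (fun x : Eu n => ψ (t, x)) := hψ2.continuous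
  have c3 : Continuous (fun x => fderiv ℝ φ x (bv j)) :=
    (hφ.continuous_fderiv (by simp)).clm_apply continuous_const
  have c4 : Continuous (fun x => fderiv ℝ (fun x : Eu n => ψ (t, x)) x (bv j)) :=
    (hψ2.continuous_fderiv (by simp)).clm_apply continuous_const
  have s3 : HasCompactSupport (fun x => fderiv ℝ φ x (bv j)) := hφc.fderiv_apply ℝ (bv j)
  have h := integral_mul_fderiv_eq_neg_fderiv_mul_of_integrable (μ := (volume : Measure (Eu n)))
    (f := φ) (g := fun x : Eu n => ψ (t, x)) (v := bv j)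
    ((c3.mul c2).integrable_of_hasCompactSupport s3.mul_right)
    ((c1.mul c4).integrable_of_hasCompactSupport hφc.mul_right)
    ((c1.mul c2).integrable_of_hasCompactSupport hφc.mul_right)
    (fun x _ => (hφ.differentiable (by simp)) x) (fun x _ => (hψ2.differentiable (by simp)) x)
  have e : ∀ x, fderiv ℝ (fun x : Eu n => ψ (t, x)) x (bv j) = dx j ψ (t, x) := fun x =>
    dx_slice hψ t x (bv j)
  simp only [e] at h
  rw [h, neg_neg]

theorem intg_term {c : ℝ → ℝ} (hc : Measurable c) (hb : ∃ C : ℝ, ∀ t, |c t| ≤ C)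
    {g : ST n → ℝ} (hg : Continuous g) (hgc : HasCompactSupport g) :
    Integrable (fun z => c z.1 * g z) := by
  obtain ⟨C, hC⟩ := hb
  refine (hg.integrable_of_hasCompactSupport hgc).bdd_mul
    (hc.comp measurable_fst).aestronglyMeasurable (c := C) ?_
  exact Eventually.of_forall fun z => hC z.1

theorem comp_smooth {φ : Eu n → Eu n} (hφ : ContDiff ℝ ∞ φ) (i : Fin n) :
    ContDiff ℝ ∞ (fun x => φ x i) := by
  have h : ContDiff ℝ ∞ (fun v : Eu n => v i) := (EuclideanSpace.proj i : Eu n →L[ℝ] ℝ).contDiff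
  exact h.comp hφ

theorem comp_fderiv {φ : Eu n → Eu n} (hφ : ContDiff ℝ ∞ φ) (i : Fin n) (x v : Eu n) :
    fderiv ℝ (fun x => φ x i) x v = (fderiv ℝ φ x v) i := by
  have h : HasFDerivAt φ (fderiv ℝ φ x) x := ((hφ.differentiable (by simp)) x).hasFDerivAt
  have h2 := (EuclideanSpace.proj i : Eu n →L[ℝ] ℝ).hasFDerivAt.comp x h
  have e : fderiv ℝ (fun x => φ x i) x = _ := h2.fderiv
  rw [e]
  simp

theorem elem_term {c : ℝ → ℝ} (hc : Measurable c) (hb : ∃ C : ℝ, ∀ t, |c t| ≤ C)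
    {Ω : Set (Eu n)} {φ : Eu n → Eu n} (hφ : IsVT Ω φ) {ψ : ST n → ℝ} (hψ : ContDiff ℝ ∞ ψ)
    (hψc : HasCompactSupport ψ) (i j : Fin n) :
    Integrable (fun z : ST n => c z.1 * (grad φ z.2 (i, j) * ψ z)) ∧
    Integrable (fun z : ST n => c z.1 * (φ z.2 i * dx j ψ z)) ∧
    ∫ z : ST n, c z.1 * (grad φ z.2 (i, j) * ψ z) =
      -∫ z : ST n, c z.1 * (φ z.2 i * dx j ψ z) := by
  have hφi := comp_smooth hφ.smooth i
  have hφc : HasCompactSupport (fun x => φ x i) :=
    hφ.cpt.comp_left (g := fun v : Eu n => v i) rfl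
  have e1 : ∀ x, grad φ x (i, j) = fderiv ℝ (fun x => φ x i) x (bv j) := fun x => by
    rw [comp_fderiv hφ.smooth]
    rfl
  have c1 : Continuous (fun z : ST n => grad φ z.2 (i, j)) := by
    simp only [e1]
    have : Continuous (fun x => fderiv ℝ (fun x => φ x i) x (bv j)) :=
      (hφi.continuous_fderiv (by simp)).clm_apply continuous_const
    exact this.comp continuous_snd
  have c2 : Continuous (fun z : ST n => φ z.2 i) := hφi.continuous.comp continuous_snd
  have c3 : Continuous (dx j ψ) := (hψ.continuous_fderiv (by simp)).clm_apply continuous_const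
  have s3 : HasCompactSupport (dx j ψ) := hψc.fderiv_apply ℝ (0, bv j)
  have I1 := intg_term hc hb (c1.mul hψ.continuous) hψc.mul_left
  have I2 := intg_term hc hb (c2.mul c3) s3.mul_left
  refine ⟨I1, I2, ?_⟩
  have J1 := I1
  have J2 := I2
  rw [Measure.volume_eq_prod] at J1 J2 ⊢
  have E1 := integral_prod _ J1
  have E2 := integral_prod _ J2
  simp only [Pi.mul_apply] at E1 E2
  rw [E1, E2, ← integral_neg]
  refine integral_congr_ae (Eventually.of_forall fun t => ?_)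
  simp only []
  rw [integral_const_mul, integral_const_mul]
  have h := ibp_slice hφi hφc hψ t j
  simp only [← e1] at h
  rw [h]
  ring

theorem elem_weak {Ω : Set (Eu n)} {T : ℝ} {v : ST n → Eu n} {G : ST n → Mt n}
    (h : IsElem Ω T v G) {ψ : ST n → ℝ} (hψ : ContDiff ℝ ∞ ψ)
    (hψc : HasCompactSupport ψ) (i j : Fin n) :
    ∫ z, G z (i, j) * ψ z = -∫ z, v z i * dx j ψ z := by
  obtain ⟨N, c, φ, hm, hb, -, hφ, hv, hG⟩ := h
  have e1 : ∀ z, G z (i, j) * ψ z = ∑ a, c a z.1 * (grad (φ a) z.2 (i, j) * ψ z) := by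
    intro z
    rw [hG z]
    simp only [WithLp.ofLp_sum, Finset.sum_apply, smul_eq_mul,
      WithLp.ofLp_smul, Pi.smul_apply]
    rw [Finset.sum_mul]
    exact Finset.sum_congr rfl fun a _ => by ring
  have e2 : ∀ z, v z i * dx j ψ z = ∑ a, c a z.1 * (φ a z.2 i * dx j ψ z) := by
    intro z
    rw [hv z]
    simp only [WithLp.ofLp_sum, Finset.sum_apply, smul_eq_mul,
      WithLp.ofLp_smul, Pi.smul_apply]
    rw [Finset.sum_mul]
    exact Finset.sum_congr rfl fun a _ => by ring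
  simp only [e1, e2]
  rw [integral_finsetSum _ fun a _ => (elem_term (hm a) (hb a) (hφ a) hψ hψc i j).1,
    integral_finsetSum _ fun a _ => (elem_term (hm a) (hb a) (hφ a) hψ hψc i j).2.1,
    ← Finset.sum_neg_distrib]
  exact Finset.sum_congr rfl fun a _ => (elem_term (hm a) (hb a) (hφ a) hψ hψc i j).2.2

theorem elem_trace {Ω : Set (Eu n)} {T : ℝ} {v : ST n → Eu n} {G : ST n → Mt n}
    (h : IsElem Ω T v G) (z : ST n) : ∑ i, G z (i, i) = 0 := by
  obtain ⟨N, c, φ, hm, hb, -, hφ, hv, hG⟩ := h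
  rw [hG z]
  simp only [WithLp.ofLp_sum, Finset.sum_apply, smul_eq_mul,
      WithLp.ofLp_smul, Pi.smul_apply]
  rw [Finset.sum_comm]
  refine Finset.sum_eq_zero fun a _ => ?_
  rw [← Finset.mul_sum]
  have := (hφ a).div0 z.2
  unfold dvg at this
  have e : ∀ i, grad (φ a) z.2 (i, i) = (fderiv ℝ (φ a) z.2 (bv i)) i := fun i => rfl
  simp only [e, this, mul_zero]

theorem grad_cont {φ : Eu n → Eu n} (hφ : ContDiff ℝ ∞ φ) : Continuous (grad φ) := by
  unfold grad
  refine (PiLp.continuous_toLp 2 _).comp (continuous_pi fun p => ?_)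
  have h : Continuous (fun x => fderiv ℝ φ x (bv p.2)) :=
    (hφ.continuous_fderiv (by simp)).clm_apply continuous_const
  exact (EuclideanSpace.proj p.1 : Eu n →L[ℝ] ℝ).continuous.comp h

theorem elem_meas {Ω : Set (Eu n)} {T : ℝ} {v : ST n → Eu n} {G : ST n → Mt n}
    (h : IsElem Ω T v G) : Measurable v ∧ Measurable G := by
  obtain ⟨N, c, φ, hm, hb, -, hφ, hv, hG⟩ := h
  constructor
  · rw [funext hv]
    refine Finset.measurable_fun_sum _ fun a _ => ?_
    exact ((hm a).comp measurable_fst).smul ((hφ a).smooth.continuous.measurable.comp measurable_snd)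
  · rw [funext hG]
    refine Finset.measurable_fun_sum _ fun a _ => ?_
    exact ((hm a).comp measurable_fst).smul
      ((grad_cont (hφ a).smooth).measurable.comp measurable_snd)

theorem holder2 {f g : ST n → ℝ} (hf : AEStronglyMeasurable f volume)
    (hg : AEStronglyMeasurable g volume) :
    ‖∫ z, f z * g z‖ₑ ≤ eLpNorm f 2 volume * eLpNorm g 2 volume := by
  refine (enorm_integral_le_lintegral_enorm _).trans ?_
  simp only [enorm_mul]
  have h := ENNReal.lintegral_mul_le_Lp_mul_Lq volume (p := 2) (q := 2)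
    (by constructor <;> norm_num) hf.enorm hg.enorm
  rw [eLpNorm_eq_lintegral_rpow_enorm_toReal (by norm_num) (by norm_num),
    eLpNorm_eq_lintegral_rpow_enorm_toReal (by norm_num) (by norm_num)]
  simpa using h

theorem int_mul2 {f g : ST n → ℝ} (hf : MemLp f 2 volume) (hg : MemLp g 2 volume) :
    Integrable (fun z => f z * g z) := hf.integrable_mul hg

theorem memLp_comp {ι : Type*} [Fintype ι] {u : ST n → EuclideanSpace ℝ ι} {q : ℝ≥0∞}
    (hu : MemLp u q volume) (i : ι) : MemLp (fun z => u z i) q volume :=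
  (EuclideanSpace.proj i : EuclideanSpace ℝ ι →L[ℝ] ℝ).comp_memLp' hu

theorem aesm_comp {ι : Type*} [Fintype ι] {u : ST n → EuclideanSpace ℝ ι}
    (hu : AEStronglyMeasurable u volume) (i : ι) :
    AEStronglyMeasurable (fun z => u z i) volume :=
  (EuclideanSpace.proj i : EuclideanSpace ℝ ι →L[ℝ] ℝ).continuous.comp_aestronglyMeasurable hu

theorem abs_comp_le {ι : Type*} [Fintype ι] (v : EuclideanSpace ℝ ι) (i : ι) : |v i| ≤ ‖v‖ := by
  have := PiLp.norm_apply_le v i
  simpa using this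

theorem eL_comp_le {ι : Type*} [Fintype ι] (u : ST n → EuclideanSpace ℝ ι) (q : ℝ≥0∞) (i : ι) :
    eLpNorm (fun z => u z i) q volume ≤ eLpNorm u q volume := by
  refine eLpNorm_mono fun z => ?_
  exact abs_comp_le (u z) i

theorem vel_weak {Ω : Set (Eu n)} {T : ℝ} {v : ST n → Eu n} {G : ST n → Mt n}
    (h : IsVel Ω T v G) {ψ : ST n → ℝ} (hψ : ContDiff ℝ ∞ ψ)
    (hψc : HasCompactSupport ψ) (i j : Fin n) :
    ∫ z, G z (i, j) * ψ z = -∫ z, v z i * dx j ψ z := by
  have c3 : Continuous (dx j ψ) := (hψ.continuous_fderiv (by simp)).clm_apply continuous_const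
  have s3 : HasCompactSupport (dx j ψ) := hψc.fderiv_apply ℝ (0, bv j)
  have m1 : MemLp ψ 2 volume := hψ.continuous.memLp_of_hasCompactSupport hψc
  have m2 : MemLp (dx j ψ) 2 volume := c3.memLp_of_hasCompactSupport s3
  set K : ℝ≥0∞ := eLpNorm ψ 2 volume + eLpNorm (dx j ψ) 2 volume with hK
  have hKt : K ≠ ⊤ := ENNReal.add_ne_top.2 ⟨m1.eLpNorm_ne_top, m2.eLpNorm_ne_top⟩
  have key : ∀ ε : ℝ, 0 < ε → |(∫ z, G z (i, j) * ψ z) + ∫ z, v z i * dx j ψ z| ≤ ε * K.toReal := by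
    intro ε hε
    obtain ⟨v', G', he, h1, h2⟩ := h.approx ε hε
    obtain ⟨mv, mG⟩ := elem_meas he
    have hE := elem_weak he hψ hψc i j
    obtain ⟨N, c, φ, hm, hb, -, hφ, hv, hG⟩ := id he
    have Dv : AEStronglyMeasurable (v - v') volume :=
      h.memv.aestronglyMeasurable.sub mv.aestronglyMeasurable
    have DG : AEStronglyMeasurable (G - G') volume :=
      h.memG.aestronglyMeasurable.sub mG.aestronglyMeasurable
    have Mv : MemLp (v - v') 2 volume := ⟨Dv, h1.trans_lt ENNReal.ofReal_lt_top⟩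
    have MG : MemLp (G - G') 2 volume := ⟨DG, h2.trans_lt ENNReal.ofReal_lt_top⟩
    have Mv' : MemLp v' 2 volume := by
      have := h.memv.sub Mv
      rwa [sub_sub_cancel] at this
    have MG' : MemLp G' 2 volume := by
      have := h.memG.sub MG
      rwa [sub_sub_cancel] at this
    have a1 : ∫ z, (G - G') z (i, j) * ψ z = (∫ z, G z (i, j) * ψ z) - ∫ z, G' z (i, j) * ψ z := by
      rw [← integral_sub (int_mul2 (memLp_comp h.memG (i, j)) m1)
        (int_mul2 (memLp_comp MG' (i, j)) m1)]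
      refine integral_congr_ae (Eventually.of_forall fun z => ?_)
      simp only [Pi.sub_apply, PiLp.sub_apply]
      ring
    have a2 : ∫ z, (v - v') z i * dx j ψ z = (∫ z, v z i * dx j ψ z) - ∫ z, v' z i * dx j ψ z := by
      rw [← integral_sub (int_mul2 (memLp_comp h.memv i) m2)
        (int_mul2 (memLp_comp Mv' i) m2)]
      refine integral_congr_ae (Eventually.of_forall fun z => ?_)
      simp only [Pi.sub_apply, PiLp.sub_apply]
      ring
    have a3 : (∫ z, G z (i, j) * ψ z) + ∫ z, v z i * dx j ψ z =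
        (∫ z, (G - G') z (i, j) * ψ z) + ∫ z, (v - v') z i * dx j ψ z := by
      rw [a1, a2, hE]
      ring
    have b1 : ‖∫ z, (G - G') z (i, j) * ψ z‖ₑ ≤ ENNReal.ofReal ε * eLpNorm ψ 2 volume :=
      (holder2 (aesm_comp DG (i, j)) m1.aestronglyMeasurable).trans
        (mul_le_mul_left ((eL_comp_le _ _ _).trans h2) _)
    have b2 : ‖∫ z, (v - v') z i * dx j ψ z‖ₑ ≤ ENNReal.ofReal ε * eLpNorm (dx j ψ) 2 volume :=
      (holder2 (aesm_comp Dv i) m2.aestronglyMeasurable).trans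
        (mul_le_mul_left ((eL_comp_le _ _ _).trans h1) _)
    have b3 : ‖(∫ z, G z (i, j) * ψ z) + ∫ z, v z i * dx j ψ z‖ₑ ≤ ENNReal.ofReal ε * K := by
      rw [a3, hK, mul_add]
      exact (enorm_add_le _ _).trans (add_le_add b1 b2)
    have b4 := ENNReal.toReal_mono (ENNReal.mul_ne_top ENNReal.ofReal_ne_top hKt) b3
    rw [ENNReal.toReal_mul, ENNReal.toReal_ofReal hε.le] at b4
    simpa using b4
  have h0 : |(∫ z, G z (i, j) * ψ z) + ∫ z, v z i * dx j ψ z| ≤ 0 := by
    refine le_of_forall_pos_le_add fun δ hδ => ?_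
    have hK0 : 0 ≤ K.toReal := ENNReal.toReal_nonneg
    have := key (δ / (K.toReal + 1)) (by positivity)
    refine this.trans ?_
    rw [zero_add, div_mul_eq_mul_div, div_le_iff₀ (by positivity)]
    nlinarith
  have h1 := abs_nonpos_iff.1 h0
  linarith

theorem vel_trace {Ω : Set (Eu n)} {T : ℝ} {v : ST n → Eu n} {G : ST n → Mt n}
    (h : IsVel Ω T v G) : ∀ᵐ z, ∑ i, G z (i, i) = 0 := by
  have hm : AEStronglyMeasurable (fun z => ∑ i, G z (i, i)) volume := by
    have := Finset.aestronglyMeasurable_fun_sum (μ := volume) (Finset.univ : Finset (Fin n))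
      (f := fun i z => G z (i, i)) fun i _ => aesm_comp h.memG.aestronglyMeasurable (i, i)
    exact this
  have key : ∀ ε : ℝ, 0 < ε → eLpNorm (fun z => ∑ i, G z (i, i)) 2 volume ≤
      n * ENNReal.ofReal ε := by
    intro ε hε
    obtain ⟨v', G', he, h1, h2⟩ := h.approx ε hε
    obtain ⟨mv, mG⟩ := elem_meas he
    have DG : AEStronglyMeasurable (G - G') volume :=
      h.memG.aestronglyMeasurable.sub mG.aestronglyMeasurable
    have e : (fun z => ∑ i, G z (i, i)) = ∑ i : Fin n, fun z => (G - G') z (i, i) := by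
      funext z
      have := elem_trace he z
      simp only [Finset.sum_apply, Pi.sub_apply, PiLp.sub_apply, Finset.sum_sub_distrib, this,
        sub_zero]
    rw [e]
    refine (eLpNorm_sum_le (fun i _ => aesm_comp DG (i, i)) (by norm_num)).trans ?_
    refine (Finset.sum_le_card_nsmul _ _ (ENNReal.ofReal ε)
      fun i _ => (eL_comp_le _ _ _).trans h2).trans ?_
    simp
  have h0 : eLpNorm (fun z => ∑ i, G z (i, i)) 2 volume = 0 := by
    refine le_antisymm (ENNReal.le_of_forall_pos_le_add fun δ hδ _ => ?_) (zero_le)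
    have h1 := key (δ / (n + 1)) (by positivity)
    refine h1.trans ?_
    rw [zero_add]
    have e : (n : ℝ≥0∞) = ENNReal.ofReal n := by simp
    rw [e, ← ENNReal.ofReal_mul (by positivity), ← ENNReal.ofReal_coe_nnreal]
    refine ENNReal.ofReal_le_ofReal ?_
    rw [mul_div_assoc', div_le_iff₀ (by positivity)]
    have : (0 : ℝ) < δ := hδ
    nlinarith
  rw [eLpNorm_eq_zero_iff hm (by norm_num)] at h0
  exact h0

end Pool.Agent.Helper37.Jef
end
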