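import Mathlib
import Pool.Agent.Helper42.JefB.B0

section
/-! # The Galerkin ODE has a global solution -/

open MeasureTheory Set Filter Topology
open scoped ENNReal NNReal ContDiff

namespace Pool.Agent.Helper42.Jef

set_option maxHeartbeats 400000

variable {S : Type*} [NormedAddCommGroup S] [InnerProductSpace ℝ S] [FiniteDimensional ℝ S]

/-- Riesz representative of `b x x · + l x ·` -/
noncomputable def gf (b : S →ₗ[ℝ] S →ₗ[ℝ] S →ₗ[ℝ] ℝ) (l : S →ₗ[ℝ] S →ₗ[ℝ] ℝ) (x : S) : S :=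
  ∑ i, (b x x (stdOrthonormalBasis ℝ S i) + l x (stdOrthonormalBasis ℝ S i)) •
    stdOrthonormalBasis ℝ S i

theorem gf_inner (b : S →ₗ[ℝ] S →ₗ[ℝ] S →ₗ[ℝ] ℝ) (l : S →ₗ[ℝ] S →ₗ[ℝ] ℝ) (x V : S) :
    inner ℝ (gf b l x) V = b x x V + l x V := by
  set e := stdOrthonormalBasis ℝ S
  have hV : V = ∑ i, inner ℝ (e i) V • e i := (e.sum_repr' V).symm
  have h1 : inner ℝ (gf b l x) V = ∑ i, (b x x (e i) + l x (e i)) * inner ℝ (e i) V := by
    simp only [gf, sum_inner, inner_smul_left]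
    rfl
  rw [h1]
  conv_rhs => rw [hV]
  simp only [map_sum, map_smul, smul_eq_mul]
  rw [← Finset.sum_add_distrib]
  refine Finset.sum_congr rfl fun i _ => ?_
  ring

theorem gf_contDiff (b : S →ₗ[ℝ] S →ₗ[ℝ] S →ₗ[ℝ] ℝ) (l : S →ₗ[ℝ] S →ₗ[ℝ] ℝ) :
    ContDiff ℝ ∞ (gf b l) := by
  set e := stdOrthonormalBasis ℝ S
  have hx : ∀ x : S, x = ∑ i, inner ℝ (e i) x • e i := fun x => (e.sum_repr' x).symm
  have hb : ∀ w : S, ContDiff ℝ ∞ (fun x : S => b x x w) := by
    intro w
    have h : (fun x : S => b x x w) =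
        fun x => ∑ i, ∑ j, inner ℝ (e i) x * (inner ℝ (e j) x * b (e i) (e j) w) := by
      funext x
      conv_lhs => rw [hx x]
      simp only [map_sum, map_smul, smul_eq_mul, LinearMap.sum_apply, LinearMap.smul_apply,
        Finset.mul_sum]
      rw [Finset.sum_comm]
      refine Finset.sum_congr rfl fun i _ => Finset.sum_congr rfl fun j _ => ?_
      ring
    rw [h]
    refine ContDiff.sum fun i _ => ContDiff.sum fun j _ => ?_
    exact (contDiff_const.inner ℝ contDiff_id).mul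
      ((contDiff_const.inner ℝ contDiff_id).mul contDiff_const)
  have hl : ∀ w : S, ContDiff ℝ ∞ (fun x : S => l x w) := by
    intro w
    have h : (fun x : S => l x w) = fun x => ∑ i, inner ℝ (e i) x * l (e i) w := by
      funext x
      conv_lhs => rw [hx x]
      simp only [map_sum, map_smul, smul_eq_mul, LinearMap.sum_apply, LinearMap.smul_apply]
    rw [h]
    exact ContDiff.sum fun i _ => (contDiff_const.inner ℝ contDiff_id).mul contDiff_const
  unfold gf
  exact ContDiff.sum fun i _ => ((hb _).add (hl _)).smul contDiff_const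

theorem ode_global' (b : S →ₗ[ℝ] S →ₗ[ℝ] S →ₗ[ℝ] ℝ) (l : S →ₗ[ℝ] S →ₗ[ℝ] ℝ)
    (F : ℝ → S) (hF : Continuous F) (hb : ∀ x, b x x x = 0) (hl : ∀ x, l x x ≤ 0)
    {T : ℝ} (hT : 0 < T) (U0 : S) :
    ∃ U : ℝ → S, U 0 = U0 ∧ ContinuousOn U (Icc 0 T) ∧ ∀ t ∈ Icc 0 T,
      HasDerivWithinAt U (gf b l (U t) + F t) (Icc 0 T) t := by
  -- bound for `F`
  obtain ⟨CF, hCF⟩ := (isCompact_Icc (a := (0:ℝ)) (b := T)).exists_bound_of_continuousOn
    hF.continuousOn
  have hCF0 : 0 ≤ CF := (norm_nonneg _).trans (hCF 0 ⟨le_rfl, hT.le⟩)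
  set X : ℝ := Real.exp T * (‖U0‖ ^ 2 + CF ^ 2) with hX
  have hX0 : 0 ≤ X := by positivity
  set R : ℝ := Real.sqrt X + 1 with hR
  have hR0 : 0 < R := by positivity
  let bu : ContDiffBump (0 : S) := ⟨R, R + 1, hR0, by linarith⟩
  let P : S → S := fun x => bu x • gf b l x
  have hP : ContDiff ℝ ∞ P := bu.contDiff.smul (gf_contDiff b l)
  have hPs : HasCompactSupport P := bu.hasCompactSupport.smul_right
  have hP1 : ContDiff ℝ 1 P := hP.of_le (by exact_mod_cast le_top)
  obtain ⟨K, hK⟩ := hP1.lipschitzWith_of_hasCompactSupport hPs one_ne_zero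
  obtain ⟨CP, hCP⟩ := hP.continuous.bounded_above_of_compact_support hPs
  have hCP0 : 0 ≤ CP := (norm_nonneg _).trans (hCP 0)
  let f : ℝ → S → S := fun t x => P x + F t
  have hPL : IsPicardLindelof f (tmin := 0) (tmax := T) ⟨0, ⟨le_rfl, hT.le⟩⟩ U0
      (⟨(CP + CF) * T, by positivity⟩ : ℝ≥0) 0 (⟨CP + CF, by positivity⟩ : ℝ≥0) K := by
    refine ⟨?_, ?_, ?_, ?_⟩
    · intro t _
      have : LipschitzWith K (f t) := by
        refine LipschitzWith.of_dist_le_mul fun x y => ?_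
        have := hK.dist_le_mul x y
        simpa [f, dist_add_right] using this
      exact this.lipschitzOnWith
    · intro x _
      exact (continuous_const.add hF).continuousOn
    · intro t ht x _
      calc ‖f t x‖ ≤ ‖P x‖ + ‖F t‖ := norm_add_le _ _
        _ ≤ CP + CF := add_le_add (hCP x) (hCF t ht)
    · have h0 : max (T - 0) ((0:ℝ) - 0) = T := by rw [sub_zero, sub_zero, max_eq_left hT.le]
      show (CP + CF) * max (T - 0) ((0:ℝ) - 0) ≤ (CP + CF) * T - ((0 : ℝ≥0) : ℝ)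
      rw [h0]; simp
  obtain ⟨U, hU0, hU⟩ := hPL.exists_eq_forall_mem_Icc_hasDerivWithinAt₀
  have hU0' : U 0 = U0 := hU0
  have hUc : ContinuousOn U (Icc 0 T) := fun t ht => (hU t ht).continuousWithinAt
  -- a priori bound
  have hbd : ∀ t ∈ Icc 0 T, ‖U t‖ ^ 2 ≤ X := by
    let h : ℝ → ℝ := fun t => Real.exp (-t) * (‖U t‖ ^ 2 + CF ^ 2)
    have hder : ∀ t ∈ Ioo 0 T, HasDerivAt h
        (-Real.exp (-t) * (‖U t‖ ^ 2 + CF ^ 2) +
          Real.exp (-t) * (2 * inner ℝ (U t) (f t (U t)))) t := by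
      intro t ht
      have h1 : HasDerivAt U (f t (U t)) t :=
        (hU t (Ioo_subset_Icc_self ht)).hasDerivAt (Icc_mem_nhds ht.1 ht.2)
      have h2 : HasDerivAt (fun t => ‖U t‖ ^ 2) (2 * inner ℝ (U t) (f t (U t))) t := by
        have := h1.norm_sq
        exact this
      have h3 : HasDerivAt (fun t : ℝ => Real.exp (-t)) (-Real.exp (-t)) t := by
        have := (hasDerivAt_neg t).exp
        simpa using this
      exact h3.mul (h2.add_const _)
    have hanti : AntitoneOn h (Icc 0 T) := by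
      refine antitoneOn_of_deriv_nonpos (convex_Icc 0 T) ?_ ?_ ?_
      · exact (Real.continuous_exp.comp continuous_neg).continuousOn.mul
          ((hUc.norm.pow 2).add continuousOn_const)
      · rw [interior_Icc]
        exact fun t ht => (hder t ht).differentiableAt.differentiableWithinAt
      · rw [interior_Icc]
        intro t ht
        rw [(hder t ht).deriv]
        have hin : inner ℝ (U t) (f t (U t)) ≤ ‖U t‖ * CF := by
          have h1 : inner ℝ (U t) (P (U t)) ≤ 0 := by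
            have h2 : inner ℝ (gf b l (U t)) (U t) ≤ 0 := by
              rw [gf_inner, hb, zero_add]; exact hl _
            simp only [P]
            rw [inner_smul_right, real_inner_comm]
            exact mul_nonpos_of_nonneg_of_nonpos bu.nonneg h2
          have h3 : inner ℝ (U t) (F t) ≤ ‖U t‖ * CF :=
            (real_inner_le_norm _ _).trans
              (mul_le_mul_of_nonneg_left (hCF t (Ioo_subset_Icc_self ht)) (norm_nonneg _))
          simp only [f]
          rw [inner_add_right]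
          linarith
        have h4 : 2 * inner ℝ (U t) (f t (U t)) ≤ ‖U t‖ ^ 2 + CF ^ 2 := by
          nlinarith [sq_nonneg (‖U t‖ - CF)]
        have h5 : 0 < Real.exp (-t) := Real.exp_pos _
        nlinarith
    intro t ht
    have h1 := hanti (left_mem_Icc.2 hT.le) ht ht.1
    simp only [h, neg_zero, Real.exp_zero, one_mul, hU0'] at h1
    have h2 : ‖U t‖ ^ 2 + CF ^ 2 = Real.exp t * (Real.exp (-t) * (‖U t‖ ^ 2 + CF ^ 2)) := by
      rw [← mul_assoc, ← Real.exp_add]; simp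
    have h3 : Real.exp t ≤ Real.exp T := Real.exp_le_exp.2 ht.2
    calc ‖U t‖ ^ 2 ≤ ‖U t‖ ^ 2 + CF ^ 2 := by nlinarith [sq_nonneg CF]
      _ = Real.exp t * (Real.exp (-t) * (‖U t‖ ^ 2 + CF ^ 2)) := h2
      _ ≤ Real.exp t * (‖U0‖ ^ 2 + CF ^ 2) :=
        mul_le_mul_of_nonneg_left h1 (Real.exp_pos _).le
      _ ≤ X := mul_le_mul_of_nonneg_right h3 (by positivity)
  refine ⟨U, hU0', hUc, fun t ht => ?_⟩
  have h1 : ‖U t‖ ≤ R := by
    have := Real.le_sqrt_of_sq_le (hbd t ht)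
    linarith
  have h2 : bu (U t) = 1 := bu.one_of_mem_closedBall (by simpa [bu] using h1)
  have h3 := hU t ht
  simp only [f, P, h2, one_smul] at h3
  exact h3

theorem ode_global (b : S →ₗ[ℝ] S →ₗ[ℝ] S →ₗ[ℝ] ℝ) (l : S →ₗ[ℝ] S →ₗ[ℝ] ℝ)
    (F : ℝ → S) (hF : Continuous F) (hb : ∀ x, b x x x = 0) (hl : ∀ x, l x x ≤ 0)
    {T : ℝ} (hT : 0 < T) (U0 : S) :
    ∃ U : ℝ → S, U 0 = U0 ∧ ContinuousOn U (Icc 0 T) ∧ ∀ t ∈ Icc 0 T, ∃ U' : S,
      HasDerivWithinAt U U' (Icc 0 T) t ∧
      ∀ V, inner ℝ U' V = b (U t) (U t) V + l (U t) V + inner ℝ (F t) V := by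
  obtain ⟨U, h0, hc, hd⟩ := ode_global' b l F hF hb hl hT U0
  refine ⟨U, h0, hc, fun t ht => ⟨_, hd t ht, fun V => ?_⟩⟩
  rw [inner_add_left, gf_inner]

end Pool.Agent.Helper42.Jef
end

section
/-! # Smooth interpolation in one variable reproducing linear functions -/

open MeasureTheory Set Filter Topology
open scoped ENNReal NNReal ContDiff

namespace Pool.Agent.Helper94.Jef

/-- `rR s = s` for `s ≥ 1/2` and `0` for `s ≤ -1/2` -/
noncomputable def rR (s : ℝ) : ℝ := s * Real.smoothTransition (s + 1 / 2)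

theorem rR_smooth : ContDiff ℝ ∞ rR :=
  contDiff_id.mul (Real.smoothTransition.contDiff.comp (contDiff_id.add contDiff_const))

theorem rR_neg {s : ℝ} (h : s ≤ -1 / 2) : rR s = 0 := by
  unfold rR
  rw [Real.smoothTransition.zero_of_nonpos (by linarith), mul_zero]

theorem rR_pos {s : ℝ} (h : 1 / 2 ≤ s) : rR s = s := by
  unfold rR
  rw [Real.smoothTransition.one_of_one_le (by linarith), mul_one]

theorem drR_neg {s : ℝ} (h : s < -1 / 2) : deriv rR s = 0 := by
  have h1 : rR =ᶠ[𝓝 s] fun _ => 0 := by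
    filter_upwards [Iio_mem_nhds h] with x hx
    exact rR_neg (le_of_lt hx)
  rw [h1.deriv_eq, deriv_const]

theorem drR_pos {s : ℝ} (h : 1 / 2 < s) : deriv rR s = 1 := by
  have h1 : rR =ᶠ[𝓝 s] fun x => x := by
    filter_upwards [Ioi_mem_nhds h] with x hx
    exact rR_pos (le_of_lt hx)
  rw [h1.deriv_eq, deriv_id'']

/-- second difference -/
noncomputable def sd (f : ℝ → ℝ) (s : ℝ) : ℝ := f (s + 1) - 2 * f s + f (s - 1)

theorem sum_sd (f : ℝ → ℝ) (s : ℝ) (N : ℕ) : ∑ i ∈ Finset.range (N + 1), sd f (s - i) =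
    (f (s + 1) - f s) - (f (s - N) - f (s - N - 1)) := by
  induction N with
  | zero => simp [sd]; ring
  | succ N ih =>
    rw [Finset.sum_range_succ, ih]
    unfold sd
    push_cast
    rw [show s - ((N : ℝ) + 1) + 1 = s - N by ring, show s - ((N : ℝ) + 1) = s - N - 1 by ring]
    ring

theorem sum_sd_mul (f : ℝ → ℝ) (s : ℝ) (N : ℕ) :
    ∑ i ∈ Finset.range (N + 1), (i : ℝ) * sd f (s - i) =
    f s - f (s - N) - N * (f (s - N) - f (s - N - 1)) := by
  induction N with
  | zero => simp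
  | succ N ih =>
    rw [Finset.sum_range_succ, ih]
    unfold sd
    push_cast
    rw [show s - ((N : ℝ) + 1) + 1 = s - N by ring, show s - ((N : ℝ) + 1) = s - N - 1 by ring]
    ring

/-- the interpolation bump -/
noncomputable def hH : ℝ → ℝ := sd rR

/-- its derivative -/
noncomputable def dH : ℝ → ℝ := sd (deriv rR)

theorem hH_smooth : ContDiff ℝ ∞ hH := by
  unfold hH sd
  exact ((rR_smooth.comp (contDiff_id.add contDiff_const)).sub
    (contDiff_const.mul rR_smooth)).add (rR_smooth.comp (contDiff_id.sub contDiff_const))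

theorem hH_deriv (s : ℝ) : HasDerivAt hH (dH s) s := by
  have h : ∀ x, HasDerivAt rR (deriv rR x) x := fun x =>
    (rR_smooth.differentiable (by simp)).differentiableAt.hasDerivAt
  have h1 : HasDerivAt (fun x => rR (x + 1)) (deriv rR (s + 1)) s := (h (s + 1)).comp_add_const s 1
  have h2 : HasDerivAt (fun x => rR (x - 1)) (deriv rR (s - 1)) s := (h (s - 1)).comp_sub_const s 1
  exact (h1.sub ((h s).const_mul 2)).add h2

theorem dH_eq : dH = deriv hH := funext fun s => (hH_deriv s).deriv.symm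

theorem hH_zero {s : ℝ} (h : 3 / 2 ≤ |s|) : hH s = 0 := by
  unfold hH sd
  rcases le_abs.1 h with h | h
  · rw [rR_pos (by linarith), rR_pos (by linarith), rR_pos (by linarith)]; ring
  · rw [rR_neg (by linarith), rR_neg (by linarith), rR_neg (by linarith)]; ring

theorem dH_zero {s : ℝ} (h : 3 / 2 < |s|) : dH s = 0 := by
  unfold dH sd
  rcases lt_abs.1 h with h | h
  · rw [drR_pos (by linarith), drR_pos (by linarith), drR_pos (by linarith)]; ring
  · rw [drR_neg (by linarith), drR_neg (by linarith), drR_neg (by linarith)]; ring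

theorem hH_cpt : HasCompactSupport hH := by
  refine HasCompactSupport.of_support_subset_isCompact (isCompact_Icc (a := -3 / 2) (b := 3 / 2)) ?_
  intro s hs
  by_contra hc
  apply hs
  apply hH_zero
  rw [mem_Icc, not_and_or, not_le, not_le] at hc
  rcases hc with hc | hc
  · exact le_abs.2 (Or.inr (by linarith))
  · exact le_abs.2 (Or.inl (by linarith))

theorem exists_K : ∃ K : ℝ, 0 ≤ K ∧ (∀ s, |hH s| ≤ K) ∧ ∀ s, |dH s| ≤ K := by
  obtain ⟨K1, h1⟩ := hH_smooth.continuous.bounded_above_of_compact_support hH_cpt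
  have hc : Continuous (deriv hH) := hH_smooth.continuous_deriv (by simp)
  obtain ⟨K2, h2⟩ := hc.bounded_above_of_compact_support hH_cpt.deriv
  refine ⟨max K1 K2, (norm_nonneg _).trans ((h1 0).trans (le_max_left _ _)), fun s =>
    (h1 s).trans (le_max_left _ _), fun s => ?_⟩
  rw [dH_eq]
  exact (h2 s).trans (le_max_right _ _)

/-- weighted sums with few terms -/
theorem few_sum {V : Type*} [NormedAddCommGroup V] [NormedSpace ℝ V] {s : ℝ} (hs : 0 ≤ s)
    (N : ℕ) {w : ℕ → ℝ} {r : ℕ → V} {W ρ : ℝ} (hW : 0 ≤ W) (hw : ∀ i, |w i| ≤ W)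
    (hw0 : ∀ i : ℕ, 3 / 2 < |s - i| → w i = 0) (hr : ∀ i : ℕ, |s - i| ≤ 3 / 2 → ‖r i‖ ≤ ρ) :
    ‖∑ i ∈ Finset.range (N + 1), w i • r i‖ ≤ 4 * (W * ρ) := by
  classical
  set S := (Finset.range (N + 1)).filter (fun i : ℕ => |s - i| ≤ 3 / 2) with hS
  have h1 : ∑ i ∈ Finset.range (N + 1), w i • r i = ∑ i ∈ S, w i • r i := by
    rw [hS, Finset.sum_filter_of_ne]
    intro i _ hne
    by_contra hc
    exact hne (by rw [hw0 i (not_le.1 hc), zero_smul])
  have hcard : S.card ≤ 4 := by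
    have h2 : S ⊆ Finset.Icc (⌊s⌋₊ - 1) (⌊s⌋₊ + 2) := by
      intro i hi
      have hi' := (Finset.mem_filter.1 hi).2
      rw [abs_le] at hi'
      have h3 := Nat.floor_le hs
      have h4 := Nat.lt_floor_add_one s
      rw [Finset.mem_Icc]
      constructor
      · have h5 : (⌊s⌋₊ : ℝ) < i + 2 := by linarith
        have h6 : ⌊s⌋₊ < i + 2 := by exact_mod_cast h5
        omega
      · have h5 : (i : ℝ) < ⌊s⌋₊ + 3 := by linarith
        have h6 : i < ⌊s⌋₊ + 3 := by exact_mod_cast h5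
        omega
    refine (Finset.card_le_card h2).trans ?_
    rw [Nat.card_Icc]
    omega
  rw [h1]
  rcases S.eq_empty_or_nonempty with he | ⟨i0, hi0⟩
  · rw [he, Finset.sum_empty, norm_zero]
    by_cases hρ : 0 ≤ ρ
    · positivity
    · -- no index in range; but ρ could be negative only if no index at all satisfies the bound
      exfalso
      have h3 := Nat.floor_le hs
      have h4 := Nat.lt_floor_add_one s
      have := hr ⌊s⌋₊ (by rw [abs_le]; constructor <;> linarith)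
      exact hρ ((norm_nonneg _).trans this)
  · have hρ : 0 ≤ ρ := (norm_nonneg _).trans (hr i0 (Finset.mem_filter.1 hi0).2)
    calc ‖∑ i ∈ S, w i • r i‖ ≤ ∑ i ∈ S, ‖w i • r i‖ := norm_sum_le _ _
      _ ≤ ∑ _i ∈ S, W * ρ := by
          refine Finset.sum_le_sum fun i hi => ?_
          rw [norm_smul]
          exact mul_le_mul (hw i) (hr i (Finset.mem_filter.1 hi).2) (norm_nonneg _) hW
      _ = S.card * (W * ρ) := by rw [Finset.sum_const, nsmul_eq_mul]
      _ ≤ 4 * (W * ρ) := by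
          refine mul_le_mul_of_nonneg_right ?_ (by positivity)
          exact_mod_cast hcard

section
variable {V : Type*} [NormedAddCommGroup V] [NormedSpace ℝ V]

theorem lip_of_deriv {F F' : ℝ → V} {M : ℝ} (hF : ∀ s, HasDerivAt F (F' s) s)
    (hM : ∀ s, ‖F' s‖ ≤ M) (s t : ℝ) : ‖F s - F t‖ ≤ M * |s - t| := by
  have h := Convex.norm_image_sub_le_of_norm_hasDerivWithin_le (𝕜 := ℝ) (f := F) (f' := F')
    (s := univ) (C := M) (fun x _ => (hF x).hasDerivWithinAt) (fun x _ => hM x) convex_univ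
    (mem_univ t) (mem_univ s)
  simpa using h

theorem taylor_two {F F' F'' : ℝ → V} {M : ℝ} (hF : ∀ s, HasDerivAt F (F' s) s)
    (hF' : ∀ s, HasDerivAt F' (F'' s) s) (hM : ∀ s, ‖F'' s‖ ≤ M) (s t : ℝ) :
    ‖F s - F t - (s - t) • F' t‖ ≤ M * |s - t| * |s - t| := by
  have hM0 : 0 ≤ M := (norm_nonneg _).trans (hM 0)
  have hd : ∀ x, HasDerivAt (fun x => F x - F t - (x - t) • F' t) (F' x - F' t) x := by
    intro x
    have h1 : HasDerivAt (fun x : ℝ => (x - t) • F' t) ((1 : ℝ) • F' t) x :=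
      ((hasDerivAt_id x).sub_const t).smul_const (F' t)
    rw [one_smul] at h1
    exact ((hF x).sub_const (F t)).sub h1
  have h := Convex.norm_image_sub_le_of_norm_hasDerivWithin_le (𝕜 := ℝ)
    (f := fun x => F x - F t - (x - t) • F' t) (f' := fun x => F' x - F' t)
    (s := uIcc t s) (C := M * |s - t|) (fun x _ => (hd x).hasDerivWithinAt) (fun x hx => ?_)
    (convex_uIcc t s) left_mem_uIcc right_mem_uIcc
  · simpa using h
  · refine (lip_of_deriv hF' hM x t).trans (mul_le_mul_of_nonneg_left ?_ hM0)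
    exact abs_sub_left_of_mem_uIcc hx

/-- interpolation estimates -/
theorem interp {K : ℝ} (hK0 : 0 ≤ K) (hK1 : ∀ s, |hH s| ≤ K) (hK2 : ∀ s, |dH s| ≤ K)
    {F F' F'' : ℝ → V} {M : ℝ}
    (hF : ∀ s, HasDerivAt F (F' s) s) (hF' : ∀ s, HasDerivAt F' (F'' s) s)
    (hM1 : ∀ s, ‖F' s‖ ≤ M) (hM2 : ∀ s, ‖F'' s‖ ≤ M) {h : ℝ} (hh : 0 < h) {t : ℝ} (ht : 0 ≤ t)
    {N : ℕ} (hN : t / h + 5 / 2 < N) :
    ‖∑ i ∈ Finset.range (N + 1), hH (t / h + 2 - i) • F (((i : ℝ) - 2) * h) - F t‖ ≤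
      9 * K * M * h ∧
    ‖∑ i ∈ Finset.range (N + 1), (h⁻¹ * dH (t / h + 2 - i)) • F (((i : ℝ) - 2) * h) - F' t‖ ≤
      9 * K * M * h := by
  have hM0 : 0 ≤ M := (norm_nonneg _).trans (hM1 0)
  set s := t / h + 2 with hs
  have hts : t = (s - 2) * h := by rw [hs]; field_simp; ring
  have hs2 : 2 ≤ s := by
    have : 0 ≤ t / h := by positivity
    linarith
  have hsN : s - N < -1 / 2 := by linarith
  have hnode : ∀ i : ℕ, ((i : ℝ) - 2) * h - t = (i - s) * h := fun i => by rw [hts]; ring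
  have habs : ∀ i : ℕ, |s - i| ≤ 3 / 2 → |((i : ℝ) - 2) * h - t| ≤ 3 / 2 * h := by
    intro i hi
    rw [hnode, abs_mul, abs_of_pos hh, abs_sub_comm]
    exact mul_le_mul_of_nonneg_right hi hh.le
  have e1 : ∑ i ∈ Finset.range (N + 1), hH (s - i) = 1 := by
    unfold hH
    rw [sum_sd, rR_pos (by linarith), rR_pos (by linarith), rR_neg (by linarith),
      rR_neg (by linarith)]
    ring
  have e2 : ∑ i ∈ Finset.range (N + 1), dH (s - i) = 0 := by
    unfold dH
    rw [sum_sd, drR_pos (by linarith), drR_pos (by linarith), drR_neg (by linarith),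
      drR_neg (by linarith)]
    ring
  have e3 : ∑ i ∈ Finset.range (N + 1), (i : ℝ) * dH (s - i) = 1 := by
    unfold dH
    rw [sum_sd_mul, drR_pos (by linarith), drR_neg (by linarith), drR_neg (by linarith)]
    ring
  constructor
  · have h1 : ∑ i ∈ Finset.range (N + 1), hH (s - i) • F (((i : ℝ) - 2) * h) - F t =
        ∑ i ∈ Finset.range (N + 1), hH (s - i) • (F (((i : ℝ) - 2) * h) - F t) := by
      simp only [smul_sub, Finset.sum_sub_distrib]
      rw [← Finset.sum_smul, e1, one_smul]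
    rw [h1]
    refine (few_sum (s := s) (by linarith) N (W := K) (ρ := M * (3 / 2 * h)) hK0
      (fun i => hK1 _) (fun i hi => hH_zero hi.le) (fun i hi => ?_)).trans ?_
    · exact (lip_of_deriv hF hM1 _ _).trans (mul_le_mul_of_nonneg_left (habs i hi) hM0)
    · have : 0 ≤ K * M * h := by positivity
      nlinarith
  · have h1 : ∑ i ∈ Finset.range (N + 1), (h⁻¹ * dH (s - i)) • F (((i : ℝ) - 2) * h) - F' t =
        ∑ i ∈ Finset.range (N + 1), (h⁻¹ * dH (s - i)) •
          (F (((i : ℝ) - 2) * h) - F t - (((i : ℝ) - 2) * h - t) • F' t) := by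
      simp only [smul_sub, Finset.sum_sub_distrib, smul_smul]
      rw [← Finset.sum_smul, ← Finset.sum_smul, ← Finset.mul_sum, e2, mul_zero, zero_smul, sub_zero]
      have h2 : ∑ i ∈ Finset.range (N + 1), h⁻¹ * dH (s - i) * (((i : ℝ) - 2) * h - t) = 1 := by
        have h3 : ∀ i : ℕ, h⁻¹ * dH (s - i) * (((i : ℝ) - 2) * h - t) =
            (i : ℝ) * dH (s - i) - s * dH (s - i) := by
          intro i
          rw [hnode]
          field_simp
        simp only [h3, Finset.sum_sub_distrib]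
        rw [e3, ← Finset.mul_sum, e2]
        ring
      rw [h2, one_smul]
    rw [h1]
    refine (few_sum (s := s) (by linarith) N (W := h⁻¹ * K)
      (ρ := M * (3 / 2 * h) * (3 / 2 * h)) (by positivity)
      (fun i => ?_) (fun i hi => by rw [dH_zero hi, mul_zero]) (fun i hi => ?_)).trans
      (le_of_eq ?_)
    · rw [abs_mul, abs_of_pos (by positivity : 0 < h⁻¹)]
      exact mul_le_mul_of_nonneg_left (hK2 _) (by positivity)
    · refine (taylor_two hF hF' hM2 _ _).trans ?_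
      have h4 := habs i hi
      exact mul_le_mul (mul_le_mul_of_nonneg_left h4 hM0) h4 (abs_nonneg _) (by positivity)
    · field_simp
      ring

end

end Pool.Agent.Helper94.Jef
end

section
/-!
# Parabolic weak type (1,1) at height one

Calderon-Zygmund theory for convolution operators on space-time R x R^n with parabolic cells.
Single stopped partition, no sums over cells.
-/

open MeasureTheory Set Filter Topology
open scoped ENNReal NNReal

namespace Pool.Agent.Helper38.Jef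

section Abs
variable {X : Type*} [MeasurableSpace X] (μ : Measure X) {Y : Type*} (ρ : X → Y)

/-- the fibre of the partition map through a point -/
def fib (x : X) : Set X := {y | ρ y = ρ x}

omit [MeasurableSpace X] in
theorem mem_fib {ρ : X → Y} {x y : X} : y ∈ fib ρ x ↔ ρ y = ρ x := Iff.rfl

omit [MeasurableSpace X] in
theorem fib_congr {ρ : X → Y} {x y : X} (h : ρ x = ρ y) : fib ρ x = fib ρ y := by
  unfold fib; rw [h]

/-- the average over the fibre, extended nonnegative -/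
noncomputable def av (f : X → ℝ≥0∞) (x : X) : ℝ≥0∞ :=
  (μ (fib ρ x))⁻¹ * ∫⁻ y in fib ρ x, f y ∂μ

/-- the average over the fibre, real -/
noncomputable def avr (f : X → ℝ) (x : X) : ℝ :=
  ((μ (fib ρ x))⁻¹).toReal * ∫ y in fib ρ x, f y ∂μ

variable {μ ρ}

theorem av_congr {f : X → ℝ≥0∞} {x y : X} (h : ρ x = ρ y) : av μ ρ f x = av μ ρ f y := by
  unfold av; rw [fib_congr h]

theorem avr_congr {f : X → ℝ} {x y : X} (h : ρ x = ρ y) : avr μ ρ f x = avr μ ρ f y := by
  unfold avr; rw [fib_congr h]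

/-- the measurability hypothesis on the partition -/
def MR (ρ : X → Y) : Prop := MeasurableSet {p : X × X | ρ p.2 = ρ p.1}

theorem MR.fib (h : MR ρ) (x : X) : MeasurableSet (fib ρ x) := by
  exact measurable_prodMk_left (x := x) h

theorem lint_fib (h : MR ρ) (f : X → ℝ≥0∞) (x : X) :
    ∫⁻ y in fib ρ x, f y ∂μ
      = ∫⁻ y, Set.indicator {p : X × X | ρ p.2 = ρ p.1} (fun p => f p.2) (x, y) ∂μ := by
  rw [← lintegral_indicator (h.fib x)]
  rfl

theorem int_fib (h : MR ρ) (f : X → ℝ) (x : X) :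
    ∫ y in fib ρ x, f y ∂μ
      = ∫ y, Set.indicator {p : X × X | ρ p.2 = ρ p.1} (fun p => f p.2) (x, y) ∂μ := by
  rw [← integral_indicator (h.fib x)]
  rfl

theorem meas_w [SFinite μ] (h : MR ρ) : Measurable fun x => μ (fib ρ x) :=
  measurable_measure_prodMk_left h

theorem meas_av [SFinite μ] (h : MR ρ) {f : X → ℝ≥0∞} (hf : Measurable f) :
    Measurable (av μ ρ f) := by
  unfold av
  refine (meas_w h).inv.mul ?_
  simp_rw [lint_fib h]
  exact Measurable.lintegral_prod_right' ((hf.comp measurable_snd).indicator h)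

theorem meas_avr [SFinite μ] (h : MR ρ) {f : X → ℝ} (hf : Measurable f) :
    Measurable (avr μ ρ f) := by
  unfold avr
  refine ((meas_w h).inv.ennreal_toReal).mul ?_
  simp_rw [int_fib h]
  have h1 : StronglyMeasurable
      (Set.indicator {p : X × X | ρ p.2 = ρ p.1} (fun p => f p.2)) :=
    ((hf.comp measurable_snd).indicator h).stronglyMeasurable
  exact (StronglyMeasurable.integral_prod_right' (ν := μ) h1).measurable

/-- averaging is symmetric -/
theorem av_mul [SFinite μ] (h : MR ρ) (h0 : ∀ x, μ (fib ρ x) ≠ 0) (h1 : ∀ x, μ (fib ρ x) ≠ ∞)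
    {f g : X → ℝ≥0∞} (hf : Measurable f) (hg : Measurable g)
    (hc : ∀ x y, ρ x = ρ y → g x = g y) :
    ∫⁻ x, g x * av μ ρ f x ∂μ = ∫⁻ x, g x * f x ∂μ := by
  set R : Set (X × X) := {p : X × X | ρ p.2 = ρ p.1} with hR
  let F : X × X → ℝ≥0∞ := R.indicator (fun p => g p.1 * (μ (fib ρ p.1))⁻¹ * f p.2)
  have hF : Measurable F := by
    refine Measurable.indicator ?_ h
    exact ((hg.comp measurable_fst).mul ((meas_w h).inv.comp measurable_fst)).mul
      (hf.comp measurable_snd)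
  have e1 : ∀ x, g x * av μ ρ f x = ∫⁻ y, F (x, y) ∂μ := by
    intro x
    unfold av
    rw [← mul_assoc, ← lintegral_const_mul _ hf, ← lintegral_indicator (h.fib x)]
    rfl
  have e2 : ∀ y, ∫⁻ x, F (x, y) ∂μ = g y * f y := by
    intro y
    have : ∀ x, F (x, y) = (fib ρ y).indicator (fun _ => g y * (μ (fib ρ y))⁻¹ * f y) x := by
      intro x
      by_cases hxy : ρ y = ρ x
      · have a1 : (x, y) ∈ R := hxy
        have a2 : x ∈ fib ρ y := hxy.symm
        simp only [F]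
        rw [Set.indicator_of_mem a1, Set.indicator_of_mem a2]
        simp only
        rw [hc y x hxy, fib_congr hxy]
      · have a1 : (x, y) ∉ R := hxy
        have a2 : x ∉ fib ρ y := fun h => hxy h.symm
        simp only [F]
        rw [Set.indicator_of_notMem a1, Set.indicator_of_notMem a2]
    simp_rw [this]
    rw [lintegral_indicator_const (h.fib y)]
    have : (μ (fib ρ y))⁻¹ * μ (fib ρ y) = 1 := ENNReal.inv_mul_cancel (h0 y) (h1 y)
    calc g y * (μ (fib ρ y))⁻¹ * f y * μ (fib ρ y)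
        = g y * f y * ((μ (fib ρ y))⁻¹ * μ (fib ρ y)) := by ring
      _ = g y * f y := by rw [this, mul_one]
  simp_rw [e1]
  rw [lintegral_lintegral_swap (f := fun x y => F (x, y)) hF.aemeasurable]
  simp_rw [e2]

theorem av_int [SFinite μ] (h : MR ρ) (h0 : ∀ x, μ (fib ρ x) ≠ 0) (h1 : ∀ x, μ (fib ρ x) ≠ ∞)
    {f : X → ℝ≥0∞} (hf : Measurable f) :
    ∫⁻ x, av μ ρ f x ∂μ = ∫⁻ x, f x ∂μ := by
  have := av_mul h h0 h1 hf (g := fun _ => 1) measurable_const (fun _ _ _ => rfl)
  simpa using this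

theorem avr_le (f : X → ℝ) (x : X) (h0 : μ (fib ρ x) ≠ 0) :
    ‖avr μ ρ f x‖ₑ ≤ av μ ρ (fun y => ‖f y‖ₑ) x := by
  unfold avr av
  rw [enorm_mul]
  gcongr
  · rw [Real.enorm_eq_ofReal ENNReal.toReal_nonneg, ENNReal.ofReal_toReal]
    exact ENNReal.inv_ne_top.2 h0
  · exact enorm_integral_le_lintegral_enorm _

/-- real form of the symmetry -/
theorem avr_mul [SFinite μ] (h : MR ρ) (h0 : ∀ x, μ (fib ρ x) ≠ 0)
    (h1 : ∀ x, μ (fib ρ x) ≠ ∞)
    {f g : X → ℝ} (hf : Measurable f) (hg : Measurable g)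
    (hc : ∀ x y, ρ x = ρ y → g x = g y) (hi : Integrable (fun x => g x * f x) μ) :
    Integrable (fun x => g x * avr μ ρ f x) μ ∧
      ∫ x, g x * avr μ ρ f x ∂μ = ∫ x, g x * f x ∂μ := by
  set R : Set (X × X) := {p : X × X | ρ p.2 = ρ p.1} with hR
  let F : X × X → ℝ := R.indicator (fun p => g p.1 * ((μ (fib ρ p.1))⁻¹).toReal * f p.2)
  have hF : Measurable F := by
    refine Measurable.indicator ?_ h
    exact ((hg.comp measurable_fst).mul
      ((meas_w h).inv.ennreal_toReal.comp measurable_fst)).mul (hf.comp measurable_snd)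
  have e1 : ∀ x, g x * avr μ ρ f x = ∫ y, F (x, y) ∂μ := by
    intro x
    unfold avr
    rw [← mul_assoc, ← integral_const_mul, ← integral_indicator (h.fib x)]
    rfl
  have e2 : ∀ y, ∫ x, F (x, y) ∂μ = g y * f y := by
    intro y
    have : ∀ x, F (x, y) =
        (fib ρ y).indicator (fun _ => g y * ((μ (fib ρ y))⁻¹).toReal * f y) x := by
      intro x
      by_cases hxy : ρ y = ρ x
      · have a1 : (x, y) ∈ R := hxy
        have a2 : x ∈ fib ρ y := hxy.symm
        simp only [F]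
        rw [Set.indicator_of_mem a1, Set.indicator_of_mem a2]
        simp only
        rw [hc y x hxy, fib_congr hxy]
      · have a1 : (x, y) ∉ R := hxy
        have a2 : x ∉ fib ρ y := fun h => hxy h.symm
        simp only [F]
        rw [Set.indicator_of_notMem a1, Set.indicator_of_notMem a2]
    simp_rw [this]
    rw [integral_indicator_const _ (h.fib y)]
    have : ((μ (fib ρ y))⁻¹).toReal * μ.real (fib ρ y) = 1 := by
      unfold Measure.real
      rw [← ENNReal.toReal_mul, ENNReal.inv_mul_cancel (h0 y) (h1 y), ENNReal.toReal_one]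
    rw [smul_eq_mul]
    calc μ.real (fib ρ y) * (g y * ((μ (fib ρ y))⁻¹).toReal * f y)
        = g y * f y * (((μ (fib ρ y))⁻¹).toReal * μ.real (fib ρ y)) := by ring
      _ = g y * f y := by rw [this, mul_one]
  have hFi : Integrable F (μ.prod μ) := by
    refine ⟨hF.aestronglyMeasurable, ?_⟩
    rw [hasFiniteIntegral_iff_enorm, lintegral_prod _ hF.enorm.aemeasurable]
    have e3 : ∀ x, ∫⁻ y, ‖F (x, y)‖ₑ ∂μ = ‖g x‖ₑ * av μ ρ (fun y => ‖f y‖ₑ) x := by
      intro x
      unfold av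
      rw [← mul_assoc, ← lintegral_const_mul _ hf.enorm, ← lintegral_indicator (h.fib x)]
      refine lintegral_congr fun y => ?_
      by_cases hxy : ρ y = ρ x
      · have a1 : (x, y) ∈ R := hxy
        have a2 : y ∈ fib ρ x := hxy
        simp only [F]
        rw [Set.indicator_of_mem a1, Set.indicator_of_mem a2]
        rw [enorm_mul, enorm_mul, Real.enorm_eq_ofReal ENNReal.toReal_nonneg,
          ENNReal.ofReal_toReal (ENNReal.inv_ne_top.2 (h0 _))]
      · have a1 : (x, y) ∉ R := hxy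
        have a2 : y ∉ fib ρ x := hxy
        simp only [F]
        rw [Set.indicator_of_notMem a1, Set.indicator_of_notMem a2, enorm_zero]
    simp_rw [e3]
    rw [av_mul h h0 h1 hf.enorm hg.enorm (fun x y hxy => by rw [hc x y hxy])]
    have := hi.2
    rw [hasFiniteIntegral_iff_enorm] at this
    simpa only [enorm_mul] using this
  constructor
  · simp_rw [e1]
    exact hFi.integral_prod_left
  · simp_rw [e1]
    rw [integral_integral_swap (f := fun x y => F (x, y)) hFi]
    simp_rw [e2]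

end Abs



theorem cs_set {X : Type*} [MeasurableSpace X] (μ : Measure X) (C : Set X)
    {f : X → ℝ≥0∞} (hf : Measurable f) :
    (∫⁻ y in C, f y ∂μ) ^ 2 ≤ μ C * ∫⁻ y in C, f y ^ 2 ∂μ := by
  have h := ENNReal.lintegral_mul_le_Lp_mul_Lq (μ.restrict C)
    (p := 2) (q := 2) (Real.HolderConjugate.two_two)
    (f := fun _ => 1) (g := f) aemeasurable_const hf.aemeasurable
  have e1 : ∫⁻ y in C, ((fun _ : X => (1:ℝ≥0∞)) * f) y ∂μ = ∫⁻ y in C, f y ∂μ := by
    refine lintegral_congr fun y => ?_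
    simp
  rw [e1] at h
  have e2 : ∫⁻ y in C, (1:ℝ≥0∞) ^ (2:ℝ) ∂μ = μ C := by simp
  rw [e2] at h
  have h2 := pow_le_pow_left₀ zero_le h 2
  refine h2.trans (le_of_eq ?_)
  rw [mul_pow, ← ENNReal.rpow_natCast, ← ENNReal.rpow_natCast, ← ENNReal.rpow_mul,
    ← ENNReal.rpow_mul]
  norm_num

theorem eL2 {X : Type*} [MeasurableSpace X] {μ : Measure X} (f : X → ℝ) :
    eLpNorm f 2 μ ^ 2 = ∫⁻ x, ‖f x‖ₑ ^ 2 ∂μ := by
  rw [eLpNorm_eq_lintegral_rpow_enorm_toReal two_ne_zero ENNReal.ofNat_ne_top,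
    ← ENNReal.rpow_natCast, ← ENNReal.rpow_mul]
  norm_num



abbrev Eu (n : ℕ) := EuclideanSpace ℝ (Fin n)
abbrev XX (n : ℕ) := ℝ × Eu n

instance haarX (n : ℕ) : (volume : Measure (XX n)).IsAddHaarMeasure :=
  Measure.prod.instIsAddHaarMeasure (volume : Measure ℝ) (volume : Measure (Eu n))

/-- the grid point of level j -/
noncomputable def gp {n : ℕ} (j : ℕ) (x : XX n) : XX n :=
  ((⌊(4:ℝ) ^ j * x.1⌋ : ℝ) / 4 ^ j,
    WithLp.toLp 2 (fun i => (⌊(2:ℝ) ^ j * x.2 i⌋ : ℝ) / 2 ^ j))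

variable {n : ℕ}

theorem gp_meas (j : ℕ) : Measurable (gp (n := n) j) := by
  unfold gp
  have hc : Measurable (fun z : ℤ => (z : ℝ)) := measurable_from_top
  refine Measurable.prodMk ?_ ?_
  · exact (hc.comp (Int.measurable_floor.comp (measurable_fst.const_mul _))).div_const _
  · refine (WithLp.measurable_toLp 2 _).comp ?_
    refine measurable_pi_lambda _ fun i => ?_
    have h1 : Measurable (fun x : XX n => x.2 i) := by fun_prop
    exact (hc.comp (Int.measurable_floor.comp (h1.const_mul _))).div_const _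

theorem gp_eq {x y : XX n} {j : ℕ} : gp j x = gp j y ↔
    ⌊(4:ℝ) ^ j * x.1⌋ = ⌊(4:ℝ) ^ j * y.1⌋ ∧
      ∀ i, ⌊(2:ℝ) ^ j * x.2 i⌋ = ⌊(2:ℝ) ^ j * y.2 i⌋ := by
  unfold gp
  rw [Prod.mk.injEq]
  refine and_congr ?_ ?_
  · rw [div_left_inj' (by positivity)]
    exact Int.cast_inj
  · rw [(WithLp.toLp_injective 2).eq_iff, funext_iff]
    refine forall_congr' fun i => ?_
    rw [div_left_inj' (by positivity)]
    exact Int.cast_inj

theorem fl_aux {a b : ℝ} (k : ℕ) (h : ⌊(k:ℝ) * a⌋ = ⌊(k:ℝ) * b⌋) (hk : k ≠ 0) : ⌊a⌋ = ⌊b⌋ := by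
  have e : ∀ c : ℝ, ⌊c⌋ = ⌊(k:ℝ) * c⌋ / (k : ℤ) := by
    intro c
    rw [← Int.floor_div_natCast, mul_div_cancel_left₀]
    exact_mod_cast hk
  rw [e a, e b, h]

theorem gp_succ {x y : XX n} {j : ℕ} (h : gp (j + 1) x = gp (j + 1) y) : gp j x = gp j y := by
  rw [gp_eq] at h ⊢
  refine ⟨?_, fun i => ?_⟩
  · refine fl_aux 4 ?_ (by norm_num)
    have := h.1
    rw [pow_succ'] at this
    push_cast
    rw [← mul_assoc, ← mul_assoc]
    exact this
  · refine fl_aux 2 ?_ (by norm_num)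
    have := h.2 i
    rw [pow_succ'] at this
    push_cast
    rw [← mul_assoc, ← mul_assoc]
    exact this

theorem gp_mono {x y : XX n} {i j : ℕ} (hij : i ≤ j) (h : gp j x = gp j y) : gp i x = gp i y := by
  induction hij with
  | refl => exact h
  | step _ ih => exact ih (gp_succ h)

theorem box_vol (n : ℕ) (a a' : ℝ) (b b' : Fin n → ℝ) :
    volume {z : XX n | z.1 ∈ Set.Ico a a' ∧ ∀ i, z.2 i ∈ Set.Ico (b i) (b' i)}
      = ENNReal.ofReal (a' - a) * ∏ i, ENNReal.ofReal (b' i - b i) := by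
  have h : {z : XX n | z.1 ∈ Set.Ico a a' ∧ ∀ i, z.2 i ∈ Set.Ico (b i) (b' i)}
      = (Set.Ico a a') ×ˢ
        ((WithLp.ofLp : Eu n → (Fin n → ℝ)) ⁻¹' (Set.pi Set.univ fun i => Set.Ico (b i) (b' i))) := by
    ext z
    simp [Set.mem_pi]
  rw [h, Measure.volume_eq_prod, Measure.prod_prod, Real.volume_Ico,
    (PiLp.volume_preserving_ofLp (Fin n)).measure_preimage, Real.volume_pi_Ico]
  exact (MeasurableSet.univ_pi fun i => measurableSet_Ico).nullMeasurableSet

/-- the volume of the cells of level j -/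
noncomputable def vv (n j : ℕ) : ℝ≥0∞ :=
  ENNReal.ofReal (1 / 4 ^ j) * ENNReal.ofReal (1 / 2 ^ j) ^ n

theorem fl_mem {c : ℝ} (hc : 0 < c) (a b : ℝ) :
    ⌊c * b⌋ = ⌊c * a⌋ ↔ b ∈ Set.Ico ((⌊c * a⌋ : ℝ) / c) ((⌊c * a⌋ : ℝ) / c + 1 / c) := by
  rw [Int.floor_eq_iff, Set.mem_Ico, div_le_iff₀ hc, ← add_div, lt_div_iff₀ hc, mul_comm b c]

theorem vol_fib (j : ℕ) (x : XX n) : volume (fib (gp j) x) = vv n j := by
  have h : fib (gp j) x = {z : XX n | z.1 ∈ Set.Ico ((⌊(4:ℝ) ^ j * x.1⌋ : ℝ) / 4 ^ j)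
        ((⌊(4:ℝ) ^ j * x.1⌋ : ℝ) / 4 ^ j + 1 / 4 ^ j) ∧
      ∀ i, z.2 i ∈ Set.Ico ((⌊(2:ℝ) ^ j * x.2 i⌋ : ℝ) / 2 ^ j)
        ((⌊(2:ℝ) ^ j * x.2 i⌋ : ℝ) / 2 ^ j + 1 / 2 ^ j)} := by
    ext z
    rw [mem_fib, gp_eq]
    refine and_congr (fl_mem (by positivity) _ _) (forall_congr' fun i => ?_)
    exact fl_mem (by positivity) _ _
  rw [h, box_vol]
  simp [vv]

theorem vv_ne_zero (n j : ℕ) : vv n j ≠ 0 := by
  unfold vv
  have h1 : ENNReal.ofReal (1 / 4 ^ j) ≠ 0 := by
    rw [Ne, ENNReal.ofReal_eq_zero, not_le]; positivity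
  have h2 : ENNReal.ofReal (1 / 2 ^ j) ≠ 0 := by
    rw [Ne, ENNReal.ofReal_eq_zero, not_le]; positivity
  exact mul_ne_zero h1 (pow_ne_zero _ h2)

theorem vv_ne_top (n j : ℕ) : vv n j ≠ ∞ := by
  unfold vv
  exact ENNReal.mul_ne_top ENNReal.ofReal_ne_top (ENNReal.pow_ne_top ENNReal.ofReal_ne_top)

theorem vv_zero (n : ℕ) : vv n 0 = 1 := by simp [vv]

theorem vv_succ (n j : ℕ) : vv n j = (4 * 2 ^ n) * vv n (j + 1) := by
  unfold vv
  have e1 : ENNReal.ofReal (1 / 4 ^ j) = 4 * ENNReal.ofReal (1 / 4 ^ (j + 1)) := by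
    have : (4 : ℝ≥0∞) = ENNReal.ofReal 4 := by simp
    rw [this, ← ENNReal.ofReal_mul (by norm_num)]
    congr 1
    rw [pow_succ]; field_simp
  have e2 : ENNReal.ofReal (1 / 2 ^ j) = 2 * ENNReal.ofReal (1 / 2 ^ (j + 1)) := by
    have : (2 : ℝ≥0∞) = ENNReal.ofReal 2 := by simp
    rw [this, ← ENNReal.ofReal_mul (by norm_num)]
    congr 1
    rw [pow_succ]; field_simp
  rw [e1, e2, mul_pow]
  ring



theorem MR_gp (j : ℕ) : MR (gp (n := n) j) :=
  measurableSet_eq_fun ((gp_meas j).comp measurable_snd) ((gp_meas j).comp measurable_fst)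

theorem fl_dist {c : ℝ} (hc : 0 < c) (a : ℝ) : |a - (⌊c * a⌋ : ℝ) / c| ≤ 1 / c := by
  have h := (fl_mem hc a a).1 rfl
  rw [abs_le]
  constructor
  · have : 0 < 1 / c := by positivity
    linarith [h.1]
  · linarith [h.2]

theorem gp_dist1 (j : ℕ) (y : XX n) : |(y - gp j y).1| ≤ 1 / 4 ^ j :=
  fl_dist (by positivity) y.1

theorem gp_dist2 (j : ℕ) (y : XX n) (i : Fin n) : |(y - gp j y).2 i| ≤ 1 / 2 ^ j :=
  fl_dist (by positivity) (y.2 i)

theorem norm_le_coord {v : Eu n} {c : ℝ} (hc : 0 ≤ c) (h : ∀ i, |v i| ≤ c) :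
    ‖v‖ ≤ (n + 1) * c := by
  rw [EuclideanSpace.norm_eq]
  refine Real.sqrt_le_iff.2 ⟨by positivity, ?_⟩
  calc ∑ i, ‖v i‖ ^ 2 ≤ ∑ _i : Fin n, c ^ 2 := by
        refine Finset.sum_le_sum fun i _ => ?_
        rw [Real.norm_eq_abs]
        exact pow_le_pow_left₀ (abs_nonneg _) (h i) 2
    _ = n * c ^ 2 := by simp
    _ ≤ ((n + 1) * c) ^ 2 := by
        rw [mul_pow]
        refine mul_le_mul_of_nonneg_right ?_ (by positivity)
        have : (0:ℝ) ≤ n := Nat.cast_nonneg n
        nlinarith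

/-- the radius attached to level j -/
noncomputable def rr (n j : ℕ) : ℝ := (n + 1) / 2 ^ j

theorem rr_pos (n j : ℕ) : 0 < rr n j := by unfold rr; positivity

theorem rr_sq (n j : ℕ) : rr n j ^ 2 = (n + 1) ^ 2 / 4 ^ j := by
  unfold rr
  rw [div_pow, ← pow_mul, mul_comm j 2, pow_mul]
  norm_num

theorem gp_near1 (j : ℕ) (y : XX n) : |(y - gp j y).1| ≤ rr n j ^ 2 := by
  refine (gp_dist1 j y).trans ?_
  rw [rr_sq]
  gcongr
  have : (0:ℝ) ≤ n := Nat.cast_nonneg n
  nlinarith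

theorem gp_near2 (j : ℕ) (y : XX n) : ‖(y - gp j y).2‖ ≤ rr n j := by
  have := norm_le_coord (c := 1 / 2 ^ j) (by positivity) (gp_dist2 j y)
  refine this.trans (le_of_eq ?_)
  unfold rr; ring

/-- the dilation constant -/
noncomputable def DD (n : ℕ) : ℝ≥0∞ :=
  ENNReal.ofReal (8 * (n + 1) ^ 2) * ENNReal.ofReal (4 * (n + 1)) ^ n

theorem DD_ne_top (n : ℕ) : DD n ≠ ∞ :=
  ENNReal.mul_ne_top ENNReal.ofReal_ne_top (ENNReal.pow_ne_top ENNReal.ofReal_ne_top)

/-- the dilated cell of level j, centred at the origin -/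
def star (n j : ℕ) : Set (XX n) := {z | |z.1| < 4 * rr n j ^ 2 ∧ ‖z.2‖ < 2 * rr n j}

theorem star_meas (n j : ℕ) : MeasurableSet (star n j) := by
  unfold star
  refine MeasurableSet.inter ?_ ?_
  · exact measurableSet_lt (measurable_norm.comp measurable_fst) measurable_const
  · exact measurableSet_lt (measurable_norm.comp measurable_snd) measurable_const

theorem star_vol (n j : ℕ) : volume (star n j) ≤ DD n * vv n j := by
  have hs : star n j ⊆ {z : XX n | z.1 ∈ Set.Ico (-(4 * rr n j ^ 2)) (4 * rr n j ^ 2) ∧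
      ∀ i, z.2 i ∈ Set.Ico (-(2 * rr n j)) (2 * rr n j)} := by
    rintro z ⟨h1, h2⟩
    refine ⟨⟨(abs_lt.1 h1).1.le, (abs_lt.1 h1).2⟩, fun i => ?_⟩
    have h3 : |z.2 i| ≤ ‖z.2‖ := PiLp.norm_apply_le z.2 i
    have h4 := abs_lt.1 (h3.trans_lt h2)
    exact ⟨h4.1.le, h4.2⟩
  refine (measure_mono hs).trans (le_of_eq ?_)
  rw [box_vol n _ _ (fun _ => -(2 * rr n j)) (fun _ => 2 * rr n j)]
  unfold DD vv
  rw [Finset.prod_const, Finset.card_univ, Fintype.card_fin]
  have e1 : ENNReal.ofReal (4 * rr n j ^ 2 - -(4 * rr n j ^ 2))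
      = ENNReal.ofReal (8 * (n + 1) ^ 2) * ENNReal.ofReal (1 / 4 ^ j) := by
    rw [← ENNReal.ofReal_mul (by positivity), rr_sq]
    congr 1
    ring
  have e2 : ENNReal.ofReal (2 * rr n j - -(2 * rr n j))
      = ENNReal.ofReal (4 * (n + 1)) * ENNReal.ofReal (1 / 2 ^ j) := by
    rw [← ENNReal.ofReal_mul (by positivity)]
    unfold rr
    congr 1
    ring
  rw [e1, e2, mul_pow]
  ring

theorem av_succ_le (f : XX n → ℝ≥0∞) (j : ℕ) (x : XX n) :
    av volume (gp (j + 1)) f x ≤ (4 * 2 ^ n) * av volume (gp j) f x := by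
  unfold av
  rw [vol_fib, vol_fib]
  have h1 : ∫⁻ y in fib (gp (j + 1)) x, f y ≤ ∫⁻ y in fib (gp j) x, f y :=
    lintegral_mono_set fun y hy => gp_succ hy
  have h2 : (vv n (j + 1))⁻¹ = (4 * 2 ^ n) * (vv n j)⁻¹ := by
    rw [vv_succ n j, ENNReal.mul_inv (Or.inr (vv_ne_top _ _)) (Or.inr (vv_ne_zero _ _)),
      ← mul_assoc, ENNReal.mul_inv_cancel (by simp) (by finiteness), one_mul]
  rw [h2, mul_assoc]
  gcongr



theorem av_sq {X : Type*} [MeasurableSpace X] {μ : Measure X} {Y : Type*} {ρ : X → Y}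
    {f : X → ℝ≥0∞} (hf : Measurable f) (x : X) (h0 : μ (fib ρ x) ≠ 0)
    (h1 : μ (fib ρ x) ≠ ∞) :
    av μ ρ f x ^ 2 ≤ av μ ρ (fun y => f y ^ 2) x := by
  unfold av
  rw [mul_pow]
  refine (mul_le_mul_right (cs_set μ (fib ρ x) hf) _).trans (le_of_eq ?_)
  rw [← mul_assoc, pow_two, mul_assoc (μ (fib ρ x))⁻¹, ENNReal.inv_mul_cancel h0 h1, mul_one]

theorem av_le_of_le {X : Type*} [MeasurableSpace X] {μ : Measure X} {Y : Type*} {ρ : X → Y}
    {f : X → ℝ≥0∞} {c : ℝ≥0∞} (x : X) (h0 : μ (fib ρ x) ≠ 0)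
    (h1 : μ (fib ρ x) ≠ ∞) (hm : MeasurableSet (fib ρ x)) (h : ∀ y ∈ fib ρ x, f y ≤ c) :
    av μ ρ f x ≤ c := by
  unfold av
  calc (μ (fib ρ x))⁻¹ * ∫⁻ y in fib ρ x, f y ∂μ
      ≤ (μ (fib ρ x))⁻¹ * ∫⁻ _ in fib ρ x, c ∂μ := by
        exact mul_le_mul_right (setLIntegral_mono' hm h) _
    _ = c := by
        rw [setLIntegral_const, mul_comm c, ← mul_assoc, ENNReal.inv_mul_cancel h0 h1, one_mul]

theorem avr_sub {X : Type*} [MeasurableSpace X] {μ : Measure X} {Y : Type*} {ρ : X → Y}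
    {f g : X → ℝ} (x : X) (hf : IntegrableOn f (fib ρ x) μ) (hg : IntegrableOn g (fib ρ x) μ) :
    avr μ ρ (fun y => f y - g y) x = avr μ ρ f x - avr μ ρ g x := by
  unfold avr
  rw [integral_sub hf hg, mul_sub]

theorem avr_const {X : Type*} [MeasurableSpace X] {μ : Measure X} {Y : Type*} {ρ : X → Y}
    (c : ℝ) (x : X) (h0 : μ (fib ρ x) ≠ 0) (h1 : μ (fib ρ x) ≠ ∞) :
    avr μ ρ (fun _ => c) x = c := by
  unfold avr
  rw [setIntegral_const, smul_eq_mul, ← mul_assoc]
  unfold Measure.real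
  rw [← ENNReal.toReal_mul, ENNReal.inv_mul_cancel h0 h1, ENNReal.toReal_one, one_mul]

theorem contr {X : Type*} [MeasurableSpace X] {μ : Measure X} [SFinite μ] {Y : Type*} {ρ : X → Y}
    (h : MR ρ) (h0 : ∀ x, μ (fib ρ x) ≠ 0) (h1 : ∀ x, μ (fib ρ x) ≠ ∞)
    {f : X → ℝ} (hf : Measurable f) :
    eLpNorm (avr μ ρ f) 2 μ ≤ eLpNorm f 2 μ := by
  have key : eLpNorm (avr μ ρ f) 2 μ ^ 2 ≤ eLpNorm f 2 μ ^ 2 := by
    rw [eL2, eL2]
    calc ∫⁻ x, ‖avr μ ρ f x‖ₑ ^ 2 ∂μ
        ≤ ∫⁻ x, av μ ρ (fun y => ‖f y‖ₑ ^ 2) x ∂μ := by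
          refine lintegral_mono fun x => ?_
          exact (pow_le_pow_left₀ zero_le (avr_le f x (h0 x)) 2).trans
            (av_sq hf.enorm x (h0 x) (h1 x))
      _ = ∫⁻ x, ‖f x‖ₑ ^ 2 ∂μ := av_int h h0 h1 (hf.enorm.pow_const 2)
  exact (ENNReal.pow_le_pow_left_iff two_ne_zero).1 key

theorem gp0 (j : ℕ) (x : XX n) : volume (fib (gp j) x) ≠ 0 := by
  rw [vol_fib]; exact vv_ne_zero n j

theorem gp1 (j : ℕ) (x : XX n) : volume (fib (gp j) x) ≠ ∞ := by
  rw [vol_fib]; exact vv_ne_top n j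

theorem fib_dist {j : ℕ} {x y : XX n} (h : gp j y = gp j x) :
    dist y x ≤ 2 * (n + 1) / 2 ^ j := by
  have e : y - x = (y - gp j y) - (x - gp j x) := by rw [h]; abel
  have hn : (0:ℝ) ≤ n := Nat.cast_nonneg n
  have h1 : ∀ z : XX n, ‖z - gp j z‖ ≤ (n + 1) / 2 ^ j := by
    intro z
    rw [Prod.norm_def]
    refine max_le ?_ (gp_near2 j z)
    rw [Real.norm_eq_abs]
    refine (gp_dist1 j z).trans ?_
    have h4 : (2:ℝ) ^ j ≤ 4 ^ j := pow_le_pow_left₀ (by norm_num) (by norm_num) j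
    calc (1:ℝ) / 4 ^ j ≤ 1 / 2 ^ j := by gcongr
      _ ≤ (n + 1) / 2 ^ j := by gcongr; linarith
  rw [dist_eq_norm, e]
  calc ‖(y - gp j y) - (x - gp j x)‖ ≤ ‖y - gp j y‖ + ‖x - gp j x‖ := norm_sub_le _ _
    _ ≤ (n + 1) / 2 ^ j + (n + 1) / 2 ^ j := add_le_add (h1 y) (h1 x)
    _ = 2 * (n + 1) / 2 ^ j := by ring

theorem conv_cc {g : XX n → ℝ} (hg : Continuous g) (hs : HasCompactSupport g)
    {ε : ℝ≥0∞} (hε : ε ≠ 0) :
    ∃ J : ℕ, eLpNorm (fun x => g x - avr volume (gp J) g x) 2 volume ≤ ε := by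
  set K := Metric.cthickening 1 (tsupport g) with hK
  have hKc : IsCompact K := hs.isCompact.cthickening
  have hKm : volume K ≠ ∞ := hKc.measure_lt_top.ne
  have hm : volume K ^ (1 / (2:ℝ≥0∞).toReal) ≠ ∞ :=
    ENNReal.rpow_ne_top_of_nonneg (by positivity) hKm
  obtain ⟨η, hη, hη2⟩ := ENNReal.exists_nnreal_pos_mul_lt hm hε
  have huc : UniformContinuous g := hs.uniformContinuous_of_continuous hg
  obtain ⟨δ, hδ, hδ2⟩ := Metric.uniformContinuous_iff.1 huc η (by exact_mod_cast hη)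
  obtain ⟨J, hJ⟩ : ∃ J : ℕ, (2 * ((n:ℝ) + 1)) / 2 ^ J < min δ 1 := by
    have hpos : (0:ℝ) < min δ 1 := lt_min hδ one_pos
    have hA : (0:ℝ) < 2 * ((n:ℝ) + 1) := by positivity
    obtain ⟨J, hJ⟩ := exists_pow_lt_of_lt_one (show (0:ℝ) < min δ 1 / (2 * ((n:ℝ) + 1)) by positivity)
      (show (1:ℝ) / 2 < 1 by norm_num)
    refine ⟨J, ?_⟩
    rw [lt_div_iff₀ hA] at hJ
    calc (2 * ((n:ℝ) + 1)) / 2 ^ J = (1 / 2) ^ J * (2 * ((n:ℝ) + 1)) := by
          rw [one_div, inv_pow]; ring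
      _ < min δ 1 := hJ
  refine ⟨J, ?_⟩
  have hgi : Integrable g volume := hg.integrable_of_hasCompactSupport hs
  have hb : ∀ x, ‖g x - avr volume (gp J) g x‖ ≤ ‖K.indicator (fun _ => (η:ℝ)) x‖ := by
    intro x
    have hd : ∀ y ∈ fib (gp J) x, dist y x < min δ 1 := fun y hy =>
      (fib_dist (mem_fib.1 hy)).trans_lt hJ
    by_cases hx : x ∈ K
    · rw [Set.indicator_of_mem hx]
      have e1 : avr volume (gp J) (fun y => g y - g x) x = avr volume (gp J) g x - g x := by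
        rw [avr_sub x hgi.integrableOn, avr_const (g x) x (gp0 J x) (gp1 J x)]
        exact integrableOn_const (gp1 J x)
      have e2 : ‖avr volume (gp J) (fun y => g y - g x) x‖ₑ ≤ (η : ℝ≥0∞) := by
        refine (avr_le _ x (gp0 J x)).trans ?_
        refine av_le_of_le x (gp0 J x) (gp1 J x) ((MR_gp J).fib x) fun y hy => ?_
        have := hδ2 (lt_of_lt_of_le (hd y hy) (min_le_left _ _))
        rw [dist_eq_norm] at this
        rw [← ofReal_norm]
        calc ENNReal.ofReal ‖g y - g x‖ ≤ ENNReal.ofReal (η : ℝ) :=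
              ENNReal.ofReal_le_ofReal this.le
          _ = (η : ℝ≥0∞) := ENNReal.ofReal_coe_nnreal
      rw [e1] at e2
      have e3 : ‖g x - avr volume (gp J) g x‖ ≤ (η:ℝ) := by
        rw [norm_sub_rev]
        rw [← ofReal_norm, ← ENNReal.ofReal_coe_nnreal] at e2
        exact (ENNReal.ofReal_le_ofReal_iff η.coe_nonneg).1 e2
      refine e3.trans ?_
      rw [Real.norm_eq_abs]; exact le_abs_self _
    · have hz : ∀ y, dist y x ≤ 1 → g y = 0 := by
        intro y hy
        by_contra hne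
        refine hx ?_
        have hy2 : y ∈ tsupport g := subset_tsupport g hne
        exact Metric.mem_cthickening_of_dist_le x y 1 _ hy2 (by rw [dist_comm]; exact hy)
      have e1 : g x = 0 := hz x (by simp)
      have e2 : avr volume (gp J) g x = 0 := by
        unfold avr
        rw [setIntegral_eq_zero_of_forall_eq_zero (fun y hy =>
          hz y ((hd y hy).le.trans (min_le_right _ _))), mul_zero]
      rw [e1, e2]
      simp
  calc eLpNorm (fun x => g x - avr volume (gp J) g x) 2 volume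
      ≤ eLpNorm (K.indicator (fun _ => (η:ℝ))) 2 volume := eLpNorm_mono hb
    _ ≤ ‖(η:ℝ)‖ₑ * volume K ^ (1 / (2:ℝ≥0∞).toReal) := eLpNorm_indicator_const_le _ _
    _ ≤ ε := by
        refine le_trans (le_of_eq ?_) hη2.le
        congr 1
        exact Real.enorm_of_nonneg η.2 ▸ ENNReal.ofReal_coe_nnreal

theorem conv_L2 {u : XX n → ℝ} (hum : Measurable u) (hui : Integrable u) (hu2 : MemLp u 2)
    {ε : ℝ≥0∞} (hε : ε ≠ 0) :
    ∃ J : ℕ, eLpNorm (fun x => u x - avr volume (gp J) u x) 2 volume ≤ ε := by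
  have hε3 : ε / 3 ≠ 0 := (ENNReal.div_pos hε (by norm_num)).ne'
  obtain ⟨g, hgs, hg1, hgc, hg2⟩ := hu2.exists_hasCompactSupport_eLpNorm_sub_le
    ENNReal.ofNat_ne_top hε3
  obtain ⟨J, hJ⟩ := conv_cc hgc hgs hε3
  refine ⟨J, ?_⟩
  have hgi : Integrable g volume := hgc.integrable_of_hasCompactSupport hgs
  have hgm : Measurable g := hgc.measurable
  have e : (fun x => u x - avr volume (gp J) u x)
      = (u - g) + ((fun x => g x - avr volume (gp J) g x)
        + - (avr volume (gp J) (fun y => u y - g y))) := by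
    funext x
    simp only [Pi.add_apply, Pi.sub_apply, Pi.neg_apply]
    rw [avr_sub x hui.integrableOn hgi.integrableOn]
    ring
  have m1 : Measurable (u - g) := hum.sub hgm
  have m2 : Measurable (fun x => g x - avr volume (gp J) g x) :=
    hgm.sub (meas_avr (MR_gp J) hgm)
  have m3 : Measurable (avr volume (gp J) (fun y => u y - g y)) :=
    meas_avr (MR_gp J) (hum.sub hgm)
  rw [e]
  calc eLpNorm ((u - g) + ((fun x => g x - avr volume (gp J) g x)
        + - (avr volume (gp J) (fun y => u y - g y)))) 2 volume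
      ≤ eLpNorm (u - g) 2 volume + eLpNorm ((fun x => g x - avr volume (gp J) g x)
        + - (avr volume (gp J) (fun y => u y - g y))) 2 volume :=
        eLpNorm_add_le m1.aestronglyMeasurable (m2.add m3.neg).aestronglyMeasurable (by norm_num)
    _ ≤ ε / 3 + (eLpNorm (fun x => g x - avr volume (gp J) g x) 2 volume
        + eLpNorm (- (avr volume (gp J) (fun y => u y - g y))) 2 volume) := by
        gcongr
        exact eLpNorm_add_le m2.aestronglyMeasurable m3.neg.aestronglyMeasurable (by norm_num)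
    _ ≤ ε / 3 + (ε / 3 + ε / 3) := by
        gcongr
        rw [eLpNorm_neg]
        exact (contr (MR_gp J) (gp0 J) (gp1 J) (hum.sub hgm)).trans hg1
    _ = ε := by rw [← add_assoc]; exact ENNReal.add_thirds ε



/-- dyadic averages of the absolute value -/
noncomputable def MM (u : XX n → ℝ) (j : ℕ) (x : XX n) : ℝ≥0∞ :=
  av volume (gp j) (fun y => ‖u y‖ₑ) x

theorem MM_meas {u : XX n → ℝ} (hu : Measurable u) (j : ℕ) : Measurable (MM u j) :=
  meas_av (MR_gp j) hu.enorm

theorem MM_congr {u : XX n → ℝ} {i j : ℕ} (hij : i ≤ j) {x y : XX n} (h : gp j x = gp j y) :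
    MM u i x = MM u i y := av_congr (gp_mono hij h)

theorem tau_ex (u : XX n → ℝ) (J : ℕ) (x : XX n) : ∃ j, j = J + 1 ∨ 1 < MM u j x :=
  ⟨J + 1, Or.inl rfl⟩

open Classical in
/-- the stopping index -/
noncomputable def tau (u : XX n → ℝ) (J : ℕ) (x : XX n) : ℕ := Nat.find (tau_ex u J x)

/-- the stopping level -/
noncomputable def lev (u : XX n → ℝ) (J : ℕ) (x : XX n) : ℕ := min (tau u J x) J

theorem tau_le (u : XX n → ℝ) (J : ℕ) (x : XX n) : tau u J x ≤ J + 1 := by
  classical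
  exact Nat.find_min' _ (Or.inl rfl)

theorem tau_lt {u : XX n → ℝ} {J : ℕ} {x : XX n} {i : ℕ} (h : i < tau u J x) :
    MM u i x ≤ 1 := by
  classical
  have := Nat.find_min (tau_ex u J x) h
  push Not at this
  exact this.2

theorem tau_spec {u : XX n → ℝ} {J : ℕ} {x : XX n} (h : tau u J x ≤ J) :
    1 < MM u (tau u J x) x := by
  classical
  have h2 : tau u J x = J + 1 ∨ 1 < MM u (tau u J x) x := Nat.find_spec (tau_ex u J x)
  rcases h2 with h2 | h2
  · omega
  · exact h2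

theorem tau_meas {u : XX n → ℝ} (hu : Measurable u) (J : ℕ) : Measurable (tau u J) := by
  classical
  unfold tau
  refine measurable_find (p := fun x j => j = J + 1 ∨ 1 < MM u j x) (fun x => tau_ex u J x) ?_
  intro k
  by_cases hk : k = J + 1
  · simp [hk]
  · simp only [hk, false_or]
    exact measurableSet_lt measurable_const (MM_meas hu k)

theorem lev_meas {u : XX n → ℝ} (hu : Measurable u) (J : ℕ) : Measurable (lev u J) :=
  (tau_meas hu J).min measurable_const

theorem lev_of_le {u : XX n → ℝ} {J : ℕ} {x : XX n} (h : tau u J x ≤ J) :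
    lev u J x = tau u J x := min_eq_left h

theorem lev_of_gt {u : XX n → ℝ} {J : ℕ} {x : XX n} (h : ¬ tau u J x ≤ J) :
    lev u J x = J := min_eq_right (by omega)

theorem tau_eq {u : XX n → ℝ} {J : ℕ} {x y : XX n}
    (h : gp (lev u J x) y = gp (lev u J x) x) : tau u J y = tau u J x := by
  have hM : ∀ i ≤ lev u J x, MM u i y = MM u i x := fun i hi => MM_congr hi h
  have h0 := tau_le u J x
  have h1 := tau_le u J y
  by_cases hx : tau u J x ≤ J
  · have hl := lev_of_le hx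
    rw [hl] at hM
    have h2 := tau_spec hx
    rw [← hM _ le_rfl] at h2
    rcases lt_trichotomy (tau u J y) (tau u J x) with h3 | h3 | h3
    · exfalso
      have h4 := tau_spec (u := u) (J := J) (x := y) (by omega)
      rw [hM _ h3.le] at h4
      exact absurd (tau_lt h3) (not_le.2 h4)
    · exact h3
    · exact absurd (tau_lt h3) (not_le.2 h2)
  · have hl := lev_of_gt hx
    rw [hl] at hM
    by_contra hne
    have h3 : tau u J y ≤ J := by omega
    have h4 := tau_spec h3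
    rw [hM _ h3] at h4
    exact absurd (tau_lt (show tau u J y < tau u J x by omega)) (not_le.2 h4)

/-- the stopped partition -/
noncomputable def ro (u : XX n → ℝ) (J : ℕ) (x : XX n) : ℕ × XX n :=
  (tau u J x, gp (lev u J x) x)

theorem lev_congr {u : XX n → ℝ} {J : ℕ} {x y : XX n} (h : tau u J x = tau u J y) :
    lev u J x = lev u J y := by unfold lev; rw [h]

theorem ro_iff {u : XX n → ℝ} {J : ℕ} {x y : XX n} :
    ro u J y = ro u J x ↔ gp (lev u J x) y = gp (lev u J x) x := by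
  unfold ro
  rw [Prod.mk.injEq]
  constructor
  · rintro ⟨h1, h2⟩
    rw [lev_congr h1] at h2
    exact h2
  · intro h
    have h1 := tau_eq h
    exact ⟨h1, by rw [lev_congr h1]; exact h⟩

theorem ro_fib (u : XX n → ℝ) (J : ℕ) (x : XX n) :
    fib (ro u J) x = fib (gp (lev u J x)) x := by
  ext y
  exact ro_iff

theorem ro_vol (u : XX n → ℝ) (J : ℕ) (x : XX n) :
    volume (fib (ro u J) x) = vv n (lev u J x) := by
  rw [ro_fib, vol_fib]

theorem ro0 (u : XX n → ℝ) (J : ℕ) (x : XX n) : volume (fib (ro u J) x) ≠ 0 := by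
  rw [ro_vol]; exact vv_ne_zero _ _

theorem ro1 (u : XX n → ℝ) (J : ℕ) (x : XX n) : volume (fib (ro u J) x) ≠ ∞ := by
  rw [ro_vol]; exact vv_ne_top _ _

theorem ro_av (u : XX n → ℝ) (J : ℕ) (f : XX n → ℝ≥0∞) (x : XX n) :
    av volume (ro u J) f x = av volume (gp (lev u J x)) f x := by
  unfold av; rw [ro_fib]

theorem ro_avr (u : XX n → ℝ) (J : ℕ) (f : XX n → ℝ) (x : XX n) :
    avr volume (ro u J) f x = avr volume (gp (lev u J x)) f x := by
  unfold avr; rw [ro_fib]

/-- the centre of the stopped cell -/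
noncomputable def ce (u : XX n → ℝ) (J : ℕ) (x : XX n) : XX n := gp (lev u J x) x

theorem ce_meas {u : XX n → ℝ} (hu : Measurable u) (J : ℕ) : Measurable (ce u J) := by
  have h : Measurable (fun p : ℕ × XX n => gp p.1 p.2) := by
    refine measurable_from_prod_countable_right (f := fun p : ℕ × XX n => gp p.1 p.2) ?_
    intro j
    exact gp_meas j
  have h2 : Measurable (fun x : XX n => (lev u J x, x)) := (lev_meas hu J).prodMk measurable_id
  have h3 := Measurable.comp (g := fun p : ℕ × XX n => gp p.1 p.2) h h2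
  have h4 : ce u J = (fun p : ℕ × XX n => gp p.1 p.2) ∘ (fun x : XX n => (lev u J x, x)) := by
    funext x
    rfl
  rw [h4]
  exact h3

theorem ro_meas {u : XX n → ℝ} (hu : Measurable u) (J : ℕ) : Measurable (ro u J) :=
  (tau_meas hu J).prodMk (ce_meas hu J)

theorem MR_ro {u : XX n → ℝ} (hu : Measurable u) (J : ℕ) : MR (ro u J) :=
  measurableSet_eq_fun ((ro_meas hu J).comp measurable_snd) ((ro_meas hu J).comp measurable_fst)

/-- the stopped set -/
def Om (u : XX n → ℝ) (J : ℕ) : Set (XX n) := {x | tau u J x ≤ J}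

theorem Om_meas {u : XX n → ℝ} (hu : Measurable u) (J : ℕ) : MeasurableSet (Om u J) :=
  measurableSet_le (tau_meas hu J) measurable_const

theorem ro_tau {u : XX n → ℝ} {J : ℕ} {x y : XX n} (h : ro u J x = ro u J y) :
    tau u J x = tau u J y := congrArg Prod.fst h

theorem ro_Om {u : XX n → ℝ} {J : ℕ} {x y : XX n} (h : ro u J x = ro u J y) :
    x ∈ Om u J ↔ y ∈ Om u J := by
  unfold Om
  simp only [Set.mem_ofPred_eq]
  rw [ro_tau h]

theorem ro_ce {u : XX n → ℝ} {J : ℕ} {x y : XX n} (h : ro u J x = ro u J y) :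
    ce u J x = ce u J y := congrArg Prod.snd h

theorem ro_lev {u : XX n → ℝ} {J : ℕ} {x y : XX n} (h : ro u J x = ro u J y) :
    lev u J x = lev u J y := lev_congr (ro_tau h)

/-- measure of the stopped set -/
theorem Om_vol {u : XX n → ℝ} (hu : Measurable u) (J : ℕ) :
    volume (Om u J) ≤ ∫⁻ x, ‖u x‖ₑ := by
  have h1 : ∀ x, (Om u J).indicator (fun _ => (1:ℝ≥0∞)) x
      ≤ (Om u J).indicator (fun _ => (1:ℝ≥0∞)) x * av volume (ro u J) (fun y => ‖u y‖ₑ) x := by
    intro x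
    by_cases hx : x ∈ Om u J
    · rw [Set.indicator_of_mem hx, one_mul, ro_av]
      have h2 := tau_spec (show tau u J x ≤ J from hx)
      rw [lev_of_le (show tau u J x ≤ J from hx)]
      exact h2.le
    · rw [Set.indicator_of_notMem hx, zero_mul]
  calc volume (Om u J) = ∫⁻ x, (Om u J).indicator (fun _ => (1:ℝ≥0∞)) x := by
        rw [lintegral_indicator_const (Om_meas hu J), one_mul]
    _ ≤ ∫⁻ x, (Om u J).indicator (fun _ => (1:ℝ≥0∞)) x
          * av volume (ro u J) (fun y => ‖u y‖ₑ) x := lintegral_mono h1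
    _ = ∫⁻ x, (Om u J).indicator (fun _ => (1:ℝ≥0∞)) x * ‖u x‖ₑ := by
        refine av_mul (MR_ro hu J) (ro0 u J) (ro1 u J) hu.enorm
          (measurable_const.indicator (Om_meas hu J)) ?_
        intro x y hxy
        by_cases hx : x ∈ Om u J
        · rw [Set.indicator_of_mem hx, Set.indicator_of_mem ((ro_Om hxy).1 hx)]
        · rw [Set.indicator_of_notMem hx,
            Set.indicator_of_notMem (fun hy => hx ((ro_Om hxy).2 hy))]
    _ ≤ ∫⁻ x, ‖u x‖ₑ := by
        refine lintegral_mono fun x => ?_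
        by_cases hx : x ∈ Om u J
        · rw [Set.indicator_of_mem hx, one_mul]
        · rw [Set.indicator_of_notMem hx, zero_mul]; exact zero_le

/-- the size of the stopped averages -/
theorem ro_bd {u : XX n → ℝ} (J : ℕ) (h1 : ∫⁻ x, ‖u x‖ₑ ≤ 1) (x : XX n) :
    av volume (ro u J) (fun y => ‖u y‖ₑ) x ≤ 4 * 2 ^ n := by
  have hN : (1:ℝ≥0∞) ≤ 4 * 2 ^ n := by
    have : (1:ℝ≥0∞) ≤ 2 ^ n := one_le_pow₀ (by norm_num)
    calc (1:ℝ≥0∞) ≤ 4 * 1 := by norm_num
      _ ≤ 4 * 2 ^ n := by gcongr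
  rw [ro_av]
  change MM u (lev u J x) x ≤ _
  by_cases hx : tau u J x ≤ J
  · rw [lev_of_le hx]
    rcases Nat.eq_zero_or_pos (tau u J x) with h0 | h0
    · rw [h0]
      refine le_trans ?_ hN
      unfold MM av
      rw [vol_fib, vv_zero, inv_one, one_mul]
      exact (setLIntegral_le_lintegral _ _).trans h1
    · obtain ⟨i, hi⟩ : ∃ i, tau u J x = i + 1 := ⟨tau u J x - 1, by omega⟩
      rw [hi]
      refine (av_succ_le _ i x).trans ?_
      have h2 : MM u i x ≤ 1 := tau_lt (show i < tau u J x by omega)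
      calc (4 * 2 ^ n) * av volume (gp i) (fun y => ‖u y‖ₑ) x ≤ (4 * 2 ^ n) * 1 := by
            gcongr
            exact h2
        _ = 4 * 2 ^ n := mul_one _
  · rw [lev_of_gt hx]
    exact (tau_lt (show J < tau u J x by omega)).trans hN

/-- the L2 norm of the good part -/
theorem good_L2 {u : XX n → ℝ} (hu : Measurable u) (J : ℕ) (h1 : ∫⁻ x, ‖u x‖ₑ ≤ 1) :
    eLpNorm (avr volume (ro u J) u) 2 volume ^ 2 ≤ (4 * 2 ^ n) * ∫⁻ x, ‖u x‖ₑ := by
  rw [eL2]
  calc ∫⁻ x, ‖avr volume (ro u J) u x‖ₑ ^ 2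
      ≤ ∫⁻ x, (4 * 2 ^ n) * av volume (ro u J) (fun y => ‖u y‖ₑ) x := by
        refine lintegral_mono fun x => ?_
        have h2 := avr_le u x (ro0 u J x)
        rw [pow_two]
        exact mul_le_mul' (h2.trans (ro_bd J h1 x)) h2
    _ = (4 * 2 ^ n) * ∫⁻ x, ‖u x‖ₑ := by
        rw [lintegral_const_mul _ (meas_av (MR_ro hu J) hu.enorm),
          av_int (MR_ro hu J) (ro0 u J) (ro1 u J) hu.enorm]



/-- the dilated region over the stopped set -/
def TT (u : XX n → ℝ) (J : ℕ) : Set (XX n × XX n) :=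
  {p | p.2 ∈ Om u J ∧ p.1 - ce u J p.2 ∈ star n (lev u J p.2)}

theorem TT_meas {u : XX n → ℝ} (hu : Measurable u) (J : ℕ) : MeasurableSet (TT u J) := by
  have hr : Measurable (fun p : XX n × XX n => rr n (lev u J p.2)) :=
    (measurable_from_top (f := fun j : ℕ => rr n j)).comp ((lev_meas hu J).comp measurable_snd)
  have hd : Measurable (fun p : XX n × XX n => p.1 - ce u J p.2) :=
    measurable_fst.sub ((ce_meas hu J).comp measurable_snd)
  refine MeasurableSet.inter (measurable_snd (Om_meas hu J)) (MeasurableSet.inter ?_ ?_)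
  · exact measurableSet_lt (measurable_norm.comp (measurable_fst.comp hd))
      ((hr.pow_const 2).const_mul 4)
  · exact measurableSet_lt (measurable_norm.comp (measurable_snd.comp hd)) (hr.const_mul 2)

/-- the overlap function -/
noncomputable def Ph (u : XX n → ℝ) (J : ℕ) (z : XX n) : ℝ≥0∞ :=
  ∫⁻ y, (TT u J).indicator (fun p => (vv n (lev u J p.2))⁻¹) (z, y)

theorem Phi_meas {u : XX n → ℝ} (hu : Measurable u) (J : ℕ) :
    Measurable ((TT u J).indicator (fun p => (vv n (lev u J p.2))⁻¹)) := by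
  refine Measurable.indicator ?_ (TT_meas hu J)
  exact (measurable_from_top (f := fun j : ℕ => (vv n j)⁻¹)).comp
    ((lev_meas hu J).comp measurable_snd)

theorem Ph_meas {u : XX n → ℝ} (hu : Measurable u) (J : ℕ) : Measurable (Ph u J) :=
  Measurable.lintegral_prod_right' (Phi_meas hu J)

theorem star_shift (j : ℕ) (c : XX n) :
    volume {z : XX n | z - c ∈ star n j} = volume (star n j) :=
  (measurePreserving_sub_right (volume : Measure (XX n)) c).measure_preimage
    (star_meas n j).nullMeasurableSet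

theorem Ph_int {u : XX n → ℝ} (hu : Measurable u) (J : ℕ) :
    ∫⁻ z, Ph u J z ≤ DD n * volume (Om u J) := by
  unfold Ph
  rw [lintegral_lintegral_swap
    (f := fun z y => (TT u J).indicator (fun p => (vv n (lev u J p.2))⁻¹) (z, y))
    (Phi_meas hu J).aemeasurable]
  calc ∫⁻ y, ∫⁻ z, (TT u J).indicator (fun p => (vv n (lev u J p.2))⁻¹) (z, y)
      ≤ ∫⁻ y, (Om u J).indicator (fun _ => DD n) y := by
        refine lintegral_mono fun y => ?_
        by_cases hy : y ∈ Om u J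
        · rw [Set.indicator_of_mem hy]
          have e : ∀ z, (TT u J).indicator (fun p => (vv n (lev u J p.2))⁻¹) (z, y)
              = ({z : XX n | z - ce u J y ∈ star n (lev u J y)}).indicator
                (fun _ => (vv n (lev u J y))⁻¹) z := by
            intro z
            by_cases hz : z - ce u J y ∈ star n (lev u J y)
            · rw [Set.indicator_of_mem (show (z, y) ∈ TT u J from ⟨hy, hz⟩),
                Set.indicator_of_mem (show z ∈ {z : XX n | z - ce u J y ∈ star n (lev u J y)}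
                  from hz)]
            · rw [Set.indicator_of_notMem (fun h : (z, y) ∈ TT u J => hz h.2),
                Set.indicator_of_notMem
                  (show z ∉ {z : XX n | z - ce u J y ∈ star n (lev u J y)} from hz)]
          simp_rw [e]
          have hm : MeasurableSet {z : XX n | z - ce u J y ∈ star n (lev u J y)} :=
            (measurable_id.sub_const _) (star_meas n _)
          rw [lintegral_indicator_const hm, star_shift]
          calc (vv n (lev u J y))⁻¹ * volume (star n (lev u J y))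
              ≤ (vv n (lev u J y))⁻¹ * (DD n * vv n (lev u J y)) := by
                gcongr
                exact star_vol n _
            _ = DD n := by
                rw [mul_comm (DD n), ← mul_assoc,
                  ENNReal.inv_mul_cancel (vv_ne_zero _ _) (vv_ne_top _ _), one_mul]
        · rw [Set.indicator_of_notMem hy]
          have e : ∀ z, (TT u J).indicator (fun p => (vv n (lev u J p.2))⁻¹) (z, y) = 0 := by
            intro z
            exact Set.indicator_of_notMem (fun h : (z, y) ∈ TT u J => hy h.1) _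
          simp_rw [e]
          simp
    _ = DD n * volume (Om u J) := lintegral_indicator_const (Om_meas hu J) _

/-- the dilated stopped set -/
def St (u : XX n → ℝ) (J : ℕ) : Set (XX n) := {z | 1 ≤ Ph u J z}

theorem St_meas {u : XX n → ℝ} (hu : Measurable u) (J : ℕ) : MeasurableSet (St u J) :=
  measurableSet_le measurable_const (Ph_meas hu J)

theorem St_vol {u : XX n → ℝ} (hu : Measurable u) (J : ℕ) :
    volume (St u J) ≤ DD n * ∫⁻ x, ‖u x‖ₑ := by
  have h1 := mul_meas_ge_le_lintegral (μ := volume) (Ph_meas hu J) 1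
  rw [one_mul] at h1
  refine (h1.trans (Ph_int hu J)).trans ?_
  gcongr
  exact Om_vol hu J

theorem St_out {u : XX n → ℝ} {J : ℕ} {z y : XX n} (hu : Measurable u) (hz : z ∉ St u J)
    (hy : y ∈ Om u J) : z - ce u J y ∉ star n (lev u J y) := by
  intro hs
  refine hz ?_
  change 1 ≤ Ph u J z
  unfold Ph
  have h2 : ∀ x ∈ fib (ro u J) y, (vv n (lev u J y))⁻¹ ≤
      (TT u J).indicator (fun p => (vv n (lev u J p.2))⁻¹) (z, x) := by
    intro x hx
    have hx' : ro u J x = ro u J y := mem_fib.1 hx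
    have h3 : (z, x) ∈ TT u J := by
      refine ⟨(ro_Om hx').2 hy, ?_⟩
      change z - ce u J x ∈ star n (lev u J x)
      rw [ro_ce hx', ro_lev hx']
      exact hs
    rw [Set.indicator_of_mem h3]
    simp only
    rw [ro_lev hx']
  calc (1:ℝ≥0∞) = (vv n (lev u J y))⁻¹ * volume (fib (ro u J) y) := by
        rw [ro_vol, ENNReal.inv_mul_cancel (vv_ne_zero _ _) (vv_ne_top _ _)]
    _ = ∫⁻ _ in fib (ro u J) y, (vv n (lev u J y))⁻¹ := by rw [setLIntegral_const]
    _ ≤ ∫⁻ x in fib (ro u J) y, (TT u J).indicator (fun p => (vv n (lev u J p.2))⁻¹) (z, x) :=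
        setLIntegral_mono' ((MR_ro hu J).fib y) h2
    _ ≤ ∫⁻ x, (TT u J).indicator (fun p => (vv n (lev u J p.2))⁻¹) (z, x) :=
        setLIntegral_le_lintegral _ _

/-- integrability of shifted products -/
theorem shift_int {k b : XX n → ℝ} (hk : Measurable k) (hki : Integrable k) (hb : Measurable b)
    (hbi : Integrable b) {φ : XX n → XX n} (hφ : Measurable φ) :
    Integrable (fun p : XX n × XX n => k (p.1 - φ p.2) * b p.2) (volume.prod volume) := by
  have hm : Measurable (fun p : XX n × XX n => k (p.1 - φ p.2) * b p.2) :=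
    (hk.comp (measurable_fst.sub (hφ.comp measurable_snd))).mul (hb.comp measurable_snd)
  refine ⟨hm.aestronglyMeasurable, ?_⟩
  rw [hasFiniteIntegral_iff_enorm, lintegral_prod_symm _ hm.enorm.aemeasurable]
  have e : ∀ y, ∫⁻ z, ‖k (z - φ y) * b y‖ₑ = (∫⁻ z, ‖k z‖ₑ) * ‖b y‖ₑ := by
    intro y
    simp_rw [enorm_mul]
    have hk' : Measurable (fun z => k (z - φ y)) := hk.comp (measurable_id.sub_const _)
    rw [lintegral_mul_const _ hk'.enorm,
      lintegral_sub_right_eq_self (fun z => ‖k z‖ₑ) (φ y)]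
  simp_rw [e]
  rw [lintegral_const_mul _ hb.enorm]
  exact ENNReal.mul_lt_top (hasFiniteIntegral_iff_enorm.1 hki.2) (hasFiniteIntegral_iff_enorm.1 hbi.2)

/-- convolution -/
noncomputable def cv (k u : ℝ × Eu n → ℝ) (z : ℝ × Eu n) : ℝ := ∫ y, k (z - y) * u y

/-- the kernel hypothesis -/
def KB (k : XX n → ℝ) (B : ℝ) : Prop :=
  ∀ r > 0, ∀ (h : ℝ) (y : Eu n), |h| ≤ r ^ 2 → ‖y‖ ≤ r →
      ∫⁻ z in {z : ℝ × Eu n | 4 * r ^ 2 ≤ |z.1| ∨ 2 * r ≤ ‖z.2‖},
        ‖k (z.1 - h, z.2 - y) - k z‖ₑ ≤ ENNReal.ofReal B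

/-- the stopped averages are integrable -/
theorem avr_int {u : XX n → ℝ} (hu : Measurable u) (hui : Integrable u) (J : ℕ) :
    Integrable (avr volume (ro u J) u) := by
  have := (avr_mul (MR_ro hu J) (ro0 u J) (ro1 u J) hu (g := fun _ => 1) measurable_const
    (fun _ _ _ => rfl) (by simpa using hui)).1
  simpa using this

/-- the bad part -/
noncomputable def bb (u : XX n → ℝ) (J : ℕ) : XX n → ℝ :=
  (Om u J).indicator (fun x => u x - avr volume (ro u J) u x)

theorem bb_meas {u : XX n → ℝ} (hu : Measurable u) (J : ℕ) : Measurable (bb u J) :=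
  (hu.sub (meas_avr (MR_ro hu J) hu)).indicator (Om_meas hu J)

theorem bb_int {u : XX n → ℝ} (hu : Measurable u) (hui : Integrable u) (J : ℕ) :
    Integrable (bb u J) :=
  (hui.sub (avr_int hu hui J)).indicator (Om_meas hu J)

theorem bb_L1 {u : XX n → ℝ} (hu : Measurable u) (J : ℕ) :
    ∫⁻ x, ‖bb u J x‖ₑ ≤ 2 * ∫⁻ x, ‖u x‖ₑ := by
  calc ∫⁻ x, ‖bb u J x‖ₑ ≤ ∫⁻ x, (‖u x‖ₑ + av volume (ro u J) (fun y => ‖u y‖ₑ) x) := by
        refine lintegral_mono fun x => ?_
        unfold bb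
        by_cases hx : x ∈ Om u J
        · rw [Set.indicator_of_mem hx]
          exact (enorm_sub_le).trans (add_le_add le_rfl (avr_le u x (ro0 u J x)))
        · rw [Set.indicator_of_notMem hx, enorm_zero]; exact zero_le
    _ = 2 * ∫⁻ x, ‖u x‖ₑ := by
        rw [lintegral_add_left hu.enorm, av_int (MR_ro hu J) (ro0 u J) (ro1 u J) hu.enorm,
          two_mul]

/-- the cancellation -/
theorem bb_cancel {k u : XX n → ℝ} (hk : Measurable k) (hki : Integrable k) (hu : Measurable u)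
    (hui : Integrable u) (J : ℕ) :
    ∀ᵐ z : XX n, Integrable (fun y => k (z - ce u J y) * bb u J y) ∧
      ∫ y, k (z - ce u J y) * bb u J y = 0 := by
  have h1 := (shift_int hk hki hu hui (ce_meas hu J)).prod_right_ae
  filter_upwards [h1] with z hz
  let h : XX n → ℝ := (Om u J).indicator (fun y => k (z - ce u J y))
  have hm : Measurable h :=
    (hk.comp (measurable_const.sub (ce_meas hu J))).indicator (Om_meas hu J)
  have hc : ∀ x y, ro u J x = ro u J y → h x = h y := by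
    intro x y hxy
    by_cases hx : x ∈ Om u J
    · simp only [h]
      rw [Set.indicator_of_mem hx, Set.indicator_of_mem ((ro_Om hxy).1 hx), ro_ce hxy]
    · simp only [h]
      rw [Set.indicator_of_notMem hx,
        Set.indicator_of_notMem (fun hy => hx ((ro_Om hxy).2 hy))]
  have hi : Integrable (fun x => h x * u x) := by
    have e : (fun x => h x * u x) = (Om u J).indicator (fun y => k (z - ce u J y) * u y) := by
      funext x
      simp only [h]
      rw [Set.indicator_mul_left]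
    rw [e]
    exact hz.indicator (Om_meas hu J)
  obtain ⟨hi2, he⟩ := avr_mul (MR_ro hu J) (ro0 u J) (ro1 u J) hu hm hc hi
  have e : (fun y => k (z - ce u J y) * bb u J y)
      = fun y => h y * u y - h y * avr volume (ro u J) u y := by
    funext y
    simp only [h, bb]
    by_cases hy : y ∈ Om u J
    · rw [Set.indicator_of_mem hy, Set.indicator_of_mem hy]; ring
    · rw [Set.indicator_of_notMem hy, Set.indicator_of_notMem hy]; ring
  rw [e]
  refine ⟨hi.sub hi2, ?_⟩
  rw [integral_sub hi hi2, he, sub_self]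

theorem bad_est {k u : XX n → ℝ} {B : ℝ} (hk : Measurable k) (hki : Integrable k)
    (hB : KB k B) (hu : Measurable u) (hui : Integrable u) (J : ℕ) :
    ∫⁻ z in (St u J)ᶜ, ‖cv k (bb u J) z‖ₑ ≤ ENNReal.ofReal B * (2 * ∫⁻ x, ‖u x‖ₑ) := by
  have hbm := bb_meas hu J
  have hbi := bb_int hu hui J
  have hcm := ce_meas hu J
  have h1 := (shift_int hk hki hbm hbi measurable_id).prod_right_ae
  have h2 := bb_cancel hk hki hu hui J
  let F : XX n × XX n → ℝ≥0∞ :=
    fun p => ‖k (p.1 - p.2) - k (p.1 - ce u J p.2)‖ₑ * ‖bb u J p.2‖ₑ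
  have hF : Measurable F := by
    refine Measurable.mul ?_ (hbm.comp measurable_snd).enorm
    exact ((hk.comp (measurable_fst.sub measurable_snd)).sub
      (hk.comp (measurable_fst.sub (hcm.comp measurable_snd)))).enorm
  have h3 : ∀ᵐ z : XX n, ‖cv k (bb u J) z‖ₑ ≤ ∫⁻ y, F (z, y) := by
    filter_upwards [h1, h2] with z hz1 hz2
    obtain ⟨hz2, hz3⟩ := hz2
    have hz1' : Integrable (fun y => k (z - y) * bb u J y) := hz1
    have e : cv k (bb u J) z
        = ∫ y, (k (z - y) - k (z - ce u J y)) * bb u J y := by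
      unfold cv
      rw [← sub_zero (∫ y, k (z - y) * bb u J y), ← hz3, ← integral_sub hz1' hz2]
      refine integral_congr_ae (Filter.Eventually.of_forall fun y => ?_)
      ring
    rw [e]
    refine (enorm_integral_le_lintegral_enorm _).trans (le_of_eq ?_)
    refine lintegral_congr fun y => ?_
    rw [enorm_mul]
  calc ∫⁻ z in (St u J)ᶜ, ‖cv k (bb u J) z‖ₑ
      ≤ ∫⁻ z in (St u J)ᶜ, ∫⁻ y, F (z, y) := by
        refine lintegral_mono_ae ?_
        exact ae_restrict_of_ae h3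
    _ = ∫⁻ y, ∫⁻ z in (St u J)ᶜ, F (z, y) := by
        rw [lintegral_lintegral_swap (f := fun z y => F (z, y)) hF.aemeasurable]
    _ ≤ ∫⁻ y, ENNReal.ofReal B * ‖bb u J y‖ₑ := by
        refine lintegral_mono fun y => ?_
        by_cases hy : y ∈ Om u J
        · have e1 : ∫⁻ z in (St u J)ᶜ, F (z, y)
              = (∫⁻ z in (St u J)ᶜ, ‖k (z - y) - k (z - ce u J y)‖ₑ) * ‖bb u J y‖ₑ := by
            simp only [F]
            rw [lintegral_mul_const]
            exact ((hk.comp (measurable_id.sub_const _)).sub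
              (hk.comp (measurable_id.sub_const _))).enorm
          rw [e1]
          gcongr
          set c := ce u J y with hc
          set j := lev u J y with hj
          have hsub : (St u J)ᶜ ⊆ {z | z - c ∉ star n j} := fun z hz => St_out hu hz hy
          calc ∫⁻ z in (St u J)ᶜ, ‖k (z - y) - k (z - c)‖ₑ
              ≤ ∫⁻ z in {z | z - c ∉ star n j}, ‖k (z - y) - k (z - c)‖ₑ :=
                lintegral_mono_set hsub
            _ = ∫⁻ z, ({z | z - c ∉ star n j} : Set (XX n)).indicator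
                  (fun z => ‖k (z - y) - k (z - c)‖ₑ) z := by
                rw [lintegral_indicator]
                exact (measurable_id.sub_const _) (star_meas n j).compl
            _ = ∫⁻ z, (star n j)ᶜ.indicator (fun z => ‖k (z - (y - c)) - k z‖ₑ) (z - c) := by
                refine lintegral_congr fun z => ?_
                by_cases hz : z - c ∈ star n j
                · rw [Set.indicator_of_notMem (show z ∉ {z | z - c ∉ star n j} from
                      fun h => h hz),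
                    Set.indicator_of_notMem (show z - c ∉ (star n j)ᶜ from fun h => h hz)]
                · rw [Set.indicator_of_mem (show z ∈ {z | z - c ∉ star n j} from hz),
                    Set.indicator_of_mem (show z - c ∈ (star n j)ᶜ from hz)]
                  rw [show z - c - (y - c) = z - y by abel]
            _ = ∫⁻ z, (star n j)ᶜ.indicator (fun z => ‖k (z - (y - c)) - k z‖ₑ) z :=
                lintegral_sub_right_eq_self
                  (fun z => (star n j)ᶜ.indicator (fun z => ‖k (z - (y - c)) - k z‖ₑ) z) c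
            _ = ∫⁻ z in (star n j)ᶜ, ‖k (z - (y - c)) - k z‖ₑ :=
                lintegral_indicator (star_meas n j).compl _
            _ ≤ ENNReal.ofReal B := by
                have h5 := hB (rr n j) (rr_pos n j) (y - c).1 (y - c).2
                  (gp_near1 j y) (gp_near2 j y)
                have e2 : (star n j)ᶜ
                    = {z : ℝ × Eu n | 4 * rr n j ^ 2 ≤ |z.1| ∨ 2 * rr n j ≤ ‖z.2‖} := by
                  ext z
                  unfold star
                  simp only [Set.mem_compl_iff, Set.mem_ofPred_eq, not_and_or, not_lt]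
                rw [e2]
                exact h5
        · have e1 : bb u J y = 0 := Set.indicator_of_notMem hy _
          simp only [F]
          rw [e1]
          simp
    _ = ENNReal.ofReal B * ∫⁻ y, ‖bb u J y‖ₑ := lintegral_const_mul _ hbm.enorm
    _ ≤ ENNReal.ofReal B * (2 * ∫⁻ x, ‖u x‖ₑ) := by
        gcongr
        exact bb_L1 hu J



theorem cv_meas {k u : XX n → ℝ} (hk : Measurable k) (hu : Measurable u) :
    Measurable (cv k u) := by
  unfold cv
  have h1 : StronglyMeasurable (fun p : XX n × XX n => k (p.1 - p.2) * u p.2) :=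
    ((hk.comp (measurable_fst.sub measurable_snd)).mul (hu.comp measurable_snd)).stronglyMeasurable
  exact (StronglyMeasurable.integral_prod_right' (ν := volume) h1).measurable

theorem cheb2 {f : XX n → ℝ} (hf : Measurable f) {t : ℝ} (ht : 0 < t) :
    volume {z | t < |f z|} ≤ (ENNReal.ofReal (t ^ 2))⁻¹ * eLpNorm f 2 volume ^ 2 := by
  have h0 : ENNReal.ofReal (t ^ 2) ≠ 0 := by
    rw [Ne, ENNReal.ofReal_eq_zero, not_le]; positivity
  have h1 := mul_meas_ge_le_lintegral (μ := volume) (hf.enorm.pow_const 2) (ENNReal.ofReal (t ^ 2))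
  rw [← eL2] at h1
  have h2 : {z | t < |f z|} ⊆ {z | ENNReal.ofReal (t ^ 2) ≤ ‖f z‖ₑ ^ 2} := by
    intro z hz
    change ENNReal.ofReal (t ^ 2) ≤ ‖f z‖ₑ ^ 2
    rw [Real.enorm_eq_ofReal_abs, ← ENNReal.ofReal_pow (abs_nonneg _)]
    refine ENNReal.ofReal_le_ofReal ?_
    exact pow_le_pow_left₀ ht.le (le_of_lt hz) 2
  calc volume {z | t < |f z|}
      ≤ volume {z | ENNReal.ofReal (t ^ 2) ≤ ‖f z‖ₑ ^ 2} := measure_mono h2
    _ = (ENNReal.ofReal (t ^ 2))⁻¹ *
          (ENNReal.ofReal (t ^ 2) * volume {z | ENNReal.ofReal (t ^ 2) ≤ ‖f z‖ₑ ^ 2}) := by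
        rw [← mul_assoc, ENNReal.inv_mul_cancel h0 ENNReal.ofReal_ne_top, one_mul]
    _ ≤ (ENNReal.ofReal (t ^ 2))⁻¹ * eLpNorm f 2 volume ^ 2 := by
        gcongr

theorem cheb1 {f : XX n → ℝ} (hf : Measurable f) {S : Set (XX n)} (_hS : MeasurableSet S)
    {t : ℝ} (ht : 0 < t) :
    volume {z | t < |f z|} ≤ volume S + (ENNReal.ofReal t)⁻¹ * ∫⁻ z in Sᶜ, ‖f z‖ₑ := by
  have h0 : ENNReal.ofReal t ≠ 0 := by
    rw [Ne, ENNReal.ofReal_eq_zero, not_le]; exact ht
  have h1 := mul_meas_ge_le_lintegral (μ := volume.restrict Sᶜ) hf.enorm (ENNReal.ofReal t)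
  rw [Measure.restrict_apply (measurableSet_le measurable_const hf.enorm)] at h1
  have h2 : {z | t < |f z|} ⊆ S ∪ ({z | ENNReal.ofReal t ≤ ‖f z‖ₑ} ∩ Sᶜ) := by
    intro z hz
    by_cases hzS : z ∈ S
    · exact Or.inl hzS
    · refine Or.inr ⟨?_, hzS⟩
      change ENNReal.ofReal t ≤ ‖f z‖ₑ
      rw [Real.enorm_eq_ofReal_abs]
      exact ENNReal.ofReal_le_ofReal (le_of_lt hz)
  calc volume {z | t < |f z|}
      ≤ volume S + volume ({z | ENNReal.ofReal t ≤ ‖f z‖ₑ} ∩ Sᶜ) :=
        (measure_mono h2).trans (measure_union_le _ _)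
    _ = volume S + (ENNReal.ofReal t)⁻¹ *
          (ENNReal.ofReal t * volume ({z | ENNReal.ofReal t ≤ ‖f z‖ₑ} ∩ Sᶜ)) := by
        rw [← mul_assoc (ENNReal.ofReal t)⁻¹, ENNReal.inv_mul_cancel h0 ENNReal.ofReal_ne_top,
          one_mul]
    _ ≤ volume S + (ENNReal.ofReal t)⁻¹ * ∫⁻ z in Sᶜ, ‖f z‖ₑ := by
        gcongr

/-- the error part -/
noncomputable def ee (u : XX n → ℝ) (J : ℕ) (x : XX n) : ℝ :=
  u x - avr volume (ro u J) u x - bb u J x

theorem ee_le {u : XX n → ℝ} (J : ℕ) :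
    eLpNorm (ee u J) 2 volume ≤ eLpNorm (fun x => u x - avr volume (gp J) u x) 2 volume := by
  refine eLpNorm_mono fun x => ?_
  unfold ee bb
  by_cases hx : x ∈ Om u J
  · rw [Set.indicator_of_mem hx, sub_self, norm_zero]
    exact norm_nonneg _
  · rw [Set.indicator_of_notMem hx, sub_zero, ro_avr, lev_of_gt (show ¬ tau u J x ≤ J from hx)]

/-- the constant, extended -/
noncomputable def QQ (n : ℕ) (A B s : ℝ) : ℝ≥0∞ :=
  (ENNReal.ofReal ((s / 3) ^ 2))⁻¹ * (ENNReal.ofReal A) ^ 2 * (4 * 2 ^ n) + DD n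
    + (ENNReal.ofReal (s / 3))⁻¹ * ENNReal.ofReal B * 2

theorem main_step {A B : ℝ} {k : XX n → ℝ} (hk : Measurable k) (hki : Integrable k)
    (hA : ∀ u : XX n → ℝ, Integrable u → MemLp u 2 →
      eLpNorm (cv k u) 2 volume ≤ ENNReal.ofReal A * eLpNorm u 2 volume)
    (hB : KB k B) {u : XX n → ℝ} (hu : Measurable u) (hui : Integrable u) (hu2 : MemLp u 2)
    (h1 : ∫⁻ x, ‖u x‖ₑ ≤ 1) {s : ℝ} (hs : 0 < s) {δ : ℝ≥0∞} (hδ : δ ≠ 0) (hδ1 : δ ≠ ∞) :
    volume {z | s < |cv k u z|} ≤ QQ n A B s * (∫⁻ x, ‖u x‖ₑ)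
      + (ENNReal.ofReal ((s / 3) ^ 2))⁻¹ * (ENNReal.ofReal A) ^ 2 * δ ^ 2 := by
  obtain ⟨J, hJ⟩ := conv_L2 hu hui hu2 hδ
  have hs3 : 0 < s / 3 := by positivity
  set g := avr volume (ro u J) u with hg
  have hgm : Measurable g := meas_avr (MR_ro hu J) hu
  have hgi : Integrable g := avr_int hu hui J
  have hg2 := good_L2 hu J h1
  have hI : ∫⁻ x, ‖u x‖ₑ ≠ ∞ := ne_top_of_le_ne_top ENNReal.one_ne_top h1
  have hgM : MemLp g 2 := by
    refine ⟨hgm.aestronglyMeasurable, ?_⟩
    have h3 : eLpNorm g 2 volume ^ 2 < ∞ :=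
      lt_of_le_of_lt hg2 (ENNReal.mul_lt_top (by finiteness) (lt_top_iff_ne_top.2 hI))
    by_contra hne
    rw [not_lt, top_le_iff] at hne
    rw [hne] at h3
    simp at h3
  have hbm := bb_meas hu J
  have hbi := bb_int hu hui J
  have hem : Measurable (ee u J) := (hu.sub hgm).sub hbm
  have hei : Integrable (ee u J) := (hui.sub hgi).sub hbi
  have heL : eLpNorm (ee u J) 2 volume ≤ δ := (ee_le J).trans hJ
  have heM : MemLp (ee u J) 2 :=
    ⟨hem.aestronglyMeasurable, lt_of_le_of_lt heL (lt_top_iff_ne_top.2 hδ1)⟩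
  have hg3 : eLpNorm (cv k g) 2 volume ^ 2
      ≤ (ENNReal.ofReal A) ^ 2 * ((4 * 2 ^ n) * ∫⁻ x, ‖u x‖ₑ) := by
    calc eLpNorm (cv k g) 2 volume ^ 2 ≤ (ENNReal.ofReal A * eLpNorm g 2 volume) ^ 2 :=
          pow_le_pow_left₀ zero_le (hA g hgi hgM) 2
      _ = (ENNReal.ofReal A) ^ 2 * eLpNorm g 2 volume ^ 2 := mul_pow _ _ _
      _ ≤ (ENNReal.ofReal A) ^ 2 * ((4 * 2 ^ n) * ∫⁻ x, ‖u x‖ₑ) := by gcongr
  have he3 : eLpNorm (cv k (ee u J)) 2 volume ^ 2 ≤ (ENNReal.ofReal A) ^ 2 * δ ^ 2 := by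
    calc eLpNorm (cv k (ee u J)) 2 volume ^ 2
          ≤ (ENNReal.ofReal A * eLpNorm (ee u J) 2 volume) ^ 2 :=
          pow_le_pow_left₀ zero_le (hA _ hei heM) 2
      _ = (ENNReal.ofReal A) ^ 2 * eLpNorm (ee u J) 2 volume ^ 2 := mul_pow _ _ _
      _ ≤ (ENNReal.ofReal A) ^ 2 * δ ^ 2 := by gcongr
  have hdec : ∀ᵐ z : XX n, cv k u z = cv k g z + cv k (bb u J) z + cv k (ee u J) z := by
    have a1 := (shift_int hk hki hgm hgi measurable_id).prod_right_ae
    have a2 := (shift_int hk hki hbm hbi measurable_id).prod_right_ae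
    have a3 := (shift_int hk hki hem hei measurable_id).prod_right_ae
    filter_upwards [a1, a2, a3] with z b1 b2 b3
    have c1 : Integrable (fun y => k (z - y) * g y) := b1
    have c2 : Integrable (fun y => k (z - y) * bb u J y) := b2
    have c3 : Integrable (fun y => k (z - y) * ee u J y) := b3
    have c12 : Integrable (fun y => k (z - y) * g y + k (z - y) * bb u J y) := c1.add c2
    unfold cv
    rw [← integral_add c1 c2, ← integral_add c12 c3]
    refine integral_congr_ae (Filter.Eventually.of_forall fun y => ?_)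
    simp only [ee, hg]
    ring
  have hsub : ∀ᵐ z : XX n, z ∈ {z | s < |cv k u z|} → z ∈ {z | s / 3 < |cv k g z|} ∪
      ({z | s / 3 < |cv k (bb u J) z|} ∪ {z | s / 3 < |cv k (ee u J) z|}) := by
    filter_upwards [hdec] with z hz hz2
    by_contra hne
    simp only [Set.mem_union, Set.mem_ofPred_eq, not_or, not_lt] at hne hz2
    obtain ⟨d1, d2, d3⟩ := hne
    rw [hz] at hz2
    have := abs_add_three (cv k g z) (cv k (bb u J) z) (cv k (ee u J) z)
    linarith
  have hm1 : volume {z | s < |cv k u z|} ≤ volume {z | s / 3 < |cv k g z|} +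
      (volume {z | s / 3 < |cv k (bb u J) z|} + volume {z | s / 3 < |cv k (ee u J) z|}) := by
    refine (measure_mono_ae hsub).trans ((measure_union_le _ _).trans ?_)
    gcongr
    exact measure_union_le _ _
  have hG := (cheb2 (cv_meas hk hgm) hs3).trans (mul_le_mul_right hg3 _)
  have hE := (cheb2 (cv_meas hk hem) hs3).trans (mul_le_mul_right he3 _)
  have hBd := (cheb1 (cv_meas hk hbm) (St_meas hu J) hs3).trans
    (add_le_add (St_vol hu J) (mul_le_mul_right (bad_est hk hki hB hu hui J) _))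
  refine (hm1.trans (add_le_add hG (add_le_add hBd hE))).trans (le_of_eq ?_)
  unfold QQ
  ring

theorem cv_congr {k k' u u' : XX n → ℝ} (hk : k =ᵐ[volume] k') (hu : u =ᵐ[volume] u') :
    cv k u = cv k' u' := by
  funext z
  unfold cv
  have h1 : ∀ᵐ y : XX n, k (z - y) = k' (z - y) :=
    (quasiMeasurePreserving_sub_left (volume : Measure (XX n)) z).ae hk
  refine integral_congr_ae ?_
  filter_upwards [h1, hu] with y h2 h3
  rw [h2, h3]

theorem KB_congr {k k' : XX n → ℝ} {B : ℝ} (hk : k =ᵐ[volume] k') (h : KB k B) : KB k' B := by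
  intro r hr a y ha hy
  refine le_trans (le_of_eq ?_) (h r hr a y ha hy)
  have h1 : ∀ᵐ z : XX n, k (z - (a, y)) = k' (z - (a, y)) :=
    ((measurePreserving_sub_right (volume : Measure (XX n)) (a, y)).quasiMeasurePreserving).ae hk
  refine lintegral_congr_ae (ae_restrict_of_ae ?_)
  filter_upwards [h1, hk] with z h2 h3
  have h4 : k (z.1 - a, z.2 - y) = k' (z.1 - a, z.2 - y) := h2
  rw [h3, h4]

theorem weak_ennreal {A B : ℝ} {k : XX n → ℝ} (hki : Integrable k)
    (hA : ∀ u : XX n → ℝ, Integrable u → MemLp u 2 →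
      eLpNorm (cv k u) 2 volume ≤ ENNReal.ofReal A * eLpNorm u 2 volume)
    (hB : KB k B) {u : XX n → ℝ} (hui : Integrable u) (hu2 : MemLp u 2)
    (h1 : ∫⁻ x, ‖u x‖ₑ ≤ 1) {s : ℝ} (hs : 0 < s) :
    volume {z | s < |cv k u z|} ≤ QQ n A B s * (∫⁻ x, ‖u x‖ₑ) := by
  obtain ⟨k', hk'm, hkk⟩ := hki.1
  obtain ⟨u', hu'm, huu⟩ := hui.1
  have e1 : cv k u = cv k' u' := cv_congr hkk huu
  have e2 : ∫⁻ x, ‖u x‖ₑ = ∫⁻ x, ‖u' x‖ₑ := by
    refine lintegral_congr_ae ?_
    filter_upwards [huu] with x hx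
    rw [hx]
  rw [e1, e2]
  rw [e2] at h1
  refine ENNReal.le_of_forall_pos_le_add fun ε hε _ => ?_
  have h0 : ENNReal.ofReal ((s / 3) ^ 2) ≠ 0 := by
    rw [Ne, ENNReal.ofReal_eq_zero, not_le]; positivity
  have hc : (ENNReal.ofReal ((s / 3) ^ 2))⁻¹ * (ENNReal.ofReal A) ^ 2 ≠ ∞ :=
    ENNReal.mul_ne_top (ENNReal.inv_ne_top.2 h0) (by finiteness)
  have hε' : (ε : ℝ≥0∞) ≠ 0 := by exact_mod_cast hε.ne'
  obtain ⟨m, hm, hm2⟩ := ENNReal.exists_nnreal_pos_mul_lt hc hε'
  have hm0 : (m : ℝ≥0∞) ≠ 0 := by exact_mod_cast hm.ne'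
  have hδ : min (m : ℝ≥0∞) 1 ≠ 0 := by
    rcases min_choice (m : ℝ≥0∞) 1 with h | h <;> rw [h]
    · exact hm0
    · exact one_ne_zero
  have hδ1 : min (m : ℝ≥0∞) 1 ≠ ∞ :=
    ne_top_of_le_ne_top ENNReal.one_ne_top (min_le_right _ _)
  have key := main_step (A := A) (B := B) hk'm.measurable (hki.congr hkk)
    (fun v hv hv2 => by
      rw [← cv_congr hkk (Filter.EventuallyEq.refl _ v)]
      exact hA v hv hv2)
    (KB_congr hkk hB) hu'm.measurable (hui.congr huu) (hu2.ae_eq huu) h1 hs hδ hδ1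
  refine key.trans ?_
  gcongr
  calc (ENNReal.ofReal ((s / 3) ^ 2))⁻¹ * (ENNReal.ofReal A) ^ 2 * (min (m : ℝ≥0∞) 1) ^ 2
      ≤ (ENNReal.ofReal ((s / 3) ^ 2))⁻¹ * (ENNReal.ofReal A) ^ 2 * m := by
        refine mul_le_mul_right ?_ _
        rw [pow_two]
        calc min (m : ℝ≥0∞) 1 * min (m : ℝ≥0∞) 1 ≤ m * 1 :=
              mul_le_mul' (min_le_left _ _) (min_le_right _ _)
          _ = m := mul_one _
    _ = m * ((ENNReal.ofReal ((s / 3) ^ 2))⁻¹ * (ENNReal.ofReal A) ^ 2) := mul_comm _ _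
    _ ≤ ε := hm2.le

theorem QQ_ne_top (n : ℕ) (A B : ℝ) {s : ℝ} (hs : 0 < s) : QQ n A B s ≠ ∞ := by
  unfold QQ
  have h0 : ENNReal.ofReal ((s / 3) ^ 2) ≠ 0 := by
    rw [Ne, ENNReal.ofReal_eq_zero, not_le]; positivity
  have h1 : ENNReal.ofReal (s / 3) ≠ 0 := by
    rw [Ne, ENNReal.ofReal_eq_zero, not_le]; positivity
  refine ENNReal.add_ne_top.2 ⟨ENNReal.add_ne_top.2 ⟨?_, DD_ne_top n⟩, ?_⟩
  · exact ENNReal.mul_ne_top (ENNReal.mul_ne_top (ENNReal.inv_ne_top.2 h0) (by finiteness))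
      (by finiteness)
  · exact ENNReal.mul_ne_top (ENNReal.mul_ne_top (ENNReal.inv_ne_top.2 h1) (by finiteness))
      (by finiteness)

/-- parabolic weak type theorem at height one -/
theorem weak_type (n : ℕ) (A B : ℝ) : ∃ C : ℝ → ℝ, ∀ k : ℝ × Eu n → ℝ, Integrable k →
    (∀ u : ℝ × Eu n → ℝ, Integrable u → MemLp u 2 →
      eLpNorm (cv k u) 2 volume ≤ ENNReal.ofReal A * eLpNorm u 2 volume) →
    (∀ r > 0, ∀ (h : ℝ) (y : Eu n), |h| ≤ r ^ 2 → ‖y‖ ≤ r →
      ∫⁻ z in {z : ℝ × Eu n | 4 * r ^ 2 ≤ |z.1| ∨ 2 * r ≤ ‖z.2‖},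
        ‖k (z.1 - h, z.2 - y) - k z‖ₑ ≤ ENNReal.ofReal B) →
    ∀ u : ℝ × Eu n → ℝ, Integrable u → MemLp u 2 → ∫ z, |u z| ≤ 1 → ∀ s > 0,
      volume {z | s < |cv k u z|} ≤ ENNReal.ofReal (C s * ∫ z, |u z|) := by
  refine ⟨fun s => (QQ n A B s).toReal, ?_⟩
  intro k hki hA hB u hui hu2 h1 s hs
  have e : ∫⁻ x, ‖u x‖ₑ = ENNReal.ofReal (∫ z, |u z|) :=
    (ofReal_integral_norm_eq_lintegral_enorm hui).symm
  rw [ENNReal.ofReal_mul ENNReal.toReal_nonneg, ENNReal.ofReal_toReal (QQ_ne_top n A B hs), ← e]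
  refine weak_ennreal hki hA hB hui hu2 ?_ hs
  rw [e, ← ENNReal.ofReal_one]
  exact ENNReal.ofReal_le_ofReal h1

end Pool.Agent.Helper38.Jef
end
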