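import Pool.Agent.Helper42.JefB.B0

section
/-! # Weak convergence in `L²`, function level -/

open MeasureTheory Set Filter Topology
open scoped ENNReal NNReal ContDiff

namespace Pool.Agent.Helper42.Jef

set_option maxHeartbeats 400000

section Hilbert

variable {H : Type*} [NormedAddCommGroup H] [InnerProductSpace ℝ H]

/-- the subspace of vectors against which a bounded sequence has a Cauchy sequence of inner
products -/
def cauchySub (x : ℕ → H) : Submodule ℝ H where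
  carrier := {y | CauchySeq fun m => inner ℝ (x m) y}
  add_mem' := by
    intro a b ha hb
    have : (fun m => inner ℝ (x m) (a + b)) = fun m => inner ℝ (x m) a + inner ℝ (x m) b := by
      funext m; rw [inner_add_right]
    show CauchySeq _
    rw [this]
    exact ha.add hb
  zero_mem' := by
    show CauchySeq _
    simp only [inner_zero_right]
    exact cauchySeq_const _
  smul_mem' := by
    intro c a ha
    have : (fun m => inner ℝ (x m) (c • a)) = fun m => c * inner ℝ (x m) a := by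
      funext m; rw [inner_smul_right]
    show CauchySeq _
    rw [this]
    exact ((uniformContinuous_const_smul c).comp_cauchySeq ha)

theorem cauchySub_closed (x : ℕ → H) {C : ℝ} (hC : ∀ m, ‖x m‖ ≤ C) :
    IsClosed (cauchySub x : Set H) := by
  have hC0 : 0 ≤ C := (norm_nonneg _).trans (hC 0)
  refine isClosed_of_closure_subset fun y hy => ?_
  show CauchySeq _
  rw [Metric.cauchySeq_iff]
  intro ε hε
  obtain ⟨y', hy', hd⟩ := Metric.mem_closure_iff.1 hy (ε / (3 * (C + 1))) (by positivity)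
  have hy'' : CauchySeq fun m => inner ℝ (x m) y' := hy'
  obtain ⟨N, hN⟩ := Metric.cauchySeq_iff.1 hy'' (ε / 3) (by positivity)
  refine ⟨N, fun m hm k hk => ?_⟩
  have h1 : ∀ m, |inner ℝ (x m) y - inner ℝ (x m) y'| ≤ ε / 3 := by
    intro m
    rw [← inner_sub_right]
    have h2 : ‖y - y'‖ ≤ ε / (3 * (C + 1)) := by rw [← dist_eq_norm]; exact hd.le
    calc |inner ℝ (x m) (y - y')| ≤ ‖x m‖ * ‖y - y'‖ := abs_real_inner_le_norm _ _
      _ ≤ (C + 1) * (ε / (3 * (C + 1))) :=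
        mul_le_mul ((hC m).trans (by linarith)) h2 (norm_nonneg _) (by positivity)
      _ = ε / 3 := by field_simp
  have h2 := hN m hm k hk
  rw [Real.dist_eq] at h2 ⊢
  have h3 := h1 m
  have h4 := h1 k
  rw [abs_le] at h3 h4
  rw [abs_lt] at h2 ⊢
  constructor <;> linarith [h3.1, h3.2, h4.1, h4.2, h2.1, h2.2]

theorem hilbert_wc [CompleteSpace H] {ι : Type*} [Countable ι] (x : ι → ℕ → H)
    (hb : ∀ i, ∃ C : ℝ, ∀ m, ‖x i m‖ ≤ C) :
    ∃ φ : ℕ → ℕ, StrictMono φ ∧ ∀ i, ∃ U : H, ∀ y,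
      Tendsto (fun m => inner ℝ (x i (φ m)) y) atTop (𝓝 (inner ℝ U y)) := by
  choose C hC using hb
  have hC0 : ∀ i, 0 ≤ C i := fun i => (norm_nonneg _).trans (hC i 0)
  -- the sequence of all inner products lives in a compact set
  let κ := ι × (ι × ℕ)
  let s : ∀ _ : κ, Set ℝ := fun p => Icc (-(C p.1 * C p.2.1)) (C p.1 * C p.2.1)
  have hcpt : IsCompact (Set.pi univ s) := isCompact_univ_pi fun p => isCompact_Icc
  let z : ℕ → κ → ℝ := fun m p => inner ℝ (x p.1 m) (x p.2.1 p.2.2)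
  have hz : ∀ m, z m ∈ Set.pi univ s := by
    intro m p _
    have : |z m p| ≤ C p.1 * C p.2.1 :=
      (abs_real_inner_le_norm _ _).trans (mul_le_mul (hC _ _) (hC _ _) (norm_nonneg _) (hC0 _))
    exact abs_le.1 this
  obtain ⟨a, -, φ, hφ, ha⟩ := hcpt.tendsto_subseq hz
  refine ⟨φ, hφ, fun i => ?_⟩
  set xi : ℕ → H := fun m => x i (φ m) with hxi
  have hCi : ∀ m, ‖xi m‖ ≤ C i := fun m => hC i _
  set Y : Submodule ℝ H := (Submodule.span ℝ (range fun p : ι × ℕ => x p.1 p.2)).topologicalClosure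
    with hY
  have hYc : Y ≤ cauchySub xi := by
    refine Submodule.topologicalClosure_minimal _ ?_ (cauchySub_closed xi hCi)
    refine Submodule.span_le.2 ?_
    rintro _ ⟨p, rfl⟩
    have h1 : Tendsto (fun m => z (φ m) (i, p)) atTop (𝓝 (a (i, p))) :=
      (tendsto_pi_nhds.1 ha) (i, p)
    exact h1.cauchySeq
  have hYo : Yᗮ ≤ cauchySub xi := by
    intro y hy
    show CauchySeq _
    have : (fun m => inner ℝ (xi m) y) = fun _ => (0 : ℝ) := by
      funext m
      refine (Submodule.mem_orthogonal _ _).1 hy _ ?_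
      exact Submodule.le_topologicalClosure _ (Submodule.subset_span ⟨(i, φ m), rfl⟩)
    rw [this]
    exact cauchySeq_const _
  have hYcl : IsClosed (Y : Set H) := Submodule.isClosed_topologicalClosure _
  haveI : CompleteSpace Y := hYcl.completeSpace_coe
  have hall : ∀ y, CauchySeq fun m => inner ℝ (xi m) y := by
    intro y
    have h1 : y ∈ cauchySub xi := by
      have h2 : (⊤ : Submodule ℝ H) ≤ cauchySub xi := by
        rw [← Submodule.sup_orthogonal_of_hasOrthogonalProjection (K := Y)]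
        exact sup_le hYc hYo
      exact h2 trivial
    exact h1
  have hlim : ∀ y, ∃ L : ℝ, Tendsto (fun m => inner ℝ (xi m) y) atTop (𝓝 L) := fun y =>
    cauchySeq_tendsto_of_complete (hall y)
  choose L hL using hlim
  let Λ : H →ₗ[ℝ] ℝ :=
    { toFun := L
      map_add' := by
        intro y y'
        refine tendsto_nhds_unique (hL (y + y')) ?_
        have := (hL y).add (hL y')
        simpa only [inner_add_right] using this
      map_smul' := by
        intro c y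
        refine tendsto_nhds_unique (hL (c • y)) ?_
        have := (hL y).const_mul c
        simpa only [inner_smul_right, RingHom.id_apply, smul_eq_mul] using this }
  have hΛ : ∀ y, ‖Λ y‖ ≤ C i * ‖y‖ := by
    intro y
    have h1 : Tendsto (fun m => ‖inner ℝ (xi m) y‖) atTop (𝓝 ‖L y‖) := (hL y).norm
    refine le_of_tendsto' h1 fun m => ?_
    exact (norm_inner_le_norm _ _).trans (mul_le_mul_of_nonneg_right (hCi m) (norm_nonneg _))
  let Λc : H →L[ℝ] ℝ := Λ.mkContinuous (C i) hΛ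
  refine ⟨(InnerProductSpace.toDual ℝ H).symm Λc, fun y => ?_⟩
  have h1 : inner ℝ ((InnerProductSpace.toDual ℝ H).symm Λc) y = Λc y := by
    rw [InnerProductSpace.toDual_symm_apply]
  rw [h1]
  exact hL y

end Hilbert

section Fn

variable {α : Type*} [MeasurableSpace α] {μ : Measure α}
variable {E : Type*} [NormedAddCommGroup E] [InnerProductSpace ℝ E]

theorem inner_toLp {f g : α → E} (hf : MemLp f 2 μ) (hg : MemLp g 2 μ) :
    inner ℝ (hf.toLp f) (hg.toLp g) = ∫ x, inner ℝ (f x) (g x) ∂μ := by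
  rw [L2.inner_def]
  refine integral_congr_ae ?_
  filter_upwards [hf.coeFn_toLp, hg.coeFn_toLp] with x h1 h2
  rw [h1, h2]

theorem inner_toLp_left {g : α → E} (f : Lp E 2 μ) (hg : MemLp g 2 μ) :
    inner ℝ f (hg.toLp g) = ∫ x, inner ℝ (f x) (g x) ∂μ := by
  rw [L2.inner_def]
  refine integral_congr_ae ?_
  filter_upwards [hg.coeFn_toLp] with x h2
  rw [h2]

theorem memLp_inner_integrable {f g : α → E} (hf : MemLp f 2 μ) (hg : MemLp g 2 μ) :
    Integrable (fun x => inner ℝ (f x) (g x)) μ := by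
  have := L2.integrable_inner (𝕜 := ℝ) (hf.toLp f) (hg.toLp g)
  refine this.congr ?_
  filter_upwards [hf.coeFn_toLp, hg.coeFn_toLp] with x h1 h2
  rw [h1, h2]

/-- Cauchy–Schwarz -/
theorem integral_inner_le {f g : α → E} (hf : MemLp f 2 μ) (hg : MemLp g 2 μ) :
    |∫ x, inner ℝ (f x) (g x) ∂μ| ≤ (eLpNorm f 2 μ).toReal * (eLpNorm g 2 μ).toReal := by
  rw [← inner_toLp hf hg, ← Lp.norm_toLp f hf, ← Lp.norm_toLp g hg]
  exact abs_real_inner_le_norm _ _

theorem wc_compact [CompleteSpace E] {ι : Type*} [Countable ι] (u : ι → ℕ → α → E)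
    (hu : ∀ i m, MemLp (u i m) 2 μ)
    (hb : ∀ i, ∃ C : ℝ, ∀ m, eLpNorm (u i m) 2 μ ≤ ENNReal.ofReal C) :
    ∃ φ : ℕ → ℕ, StrictMono φ ∧ ∀ i, ∃ U : α → E, WC μ (fun m => u i (φ m)) U := by
  obtain ⟨φ, hφ, h⟩ := hilbert_wc (fun i m => (hu i m).toLp (u i m)) (by
    intro i
    obtain ⟨C, hC⟩ := hb i
    refine ⟨max C 0, fun m => ?_⟩
    rw [Lp.norm_toLp]
    refine ENNReal.toReal_le_of_le_ofReal (le_max_right _ _) ((hC m).trans ?_)
    exact ENNReal.ofReal_le_ofReal (le_max_left _ _))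
  refine ⟨φ, hφ, fun i => ?_⟩
  obtain ⟨U, hU⟩ := h i
  obtain ⟨C, hC⟩ := hb i
  refine ⟨U, fun m => hu i _, ⟨C, fun m => hC _⟩, Lp.memLp U, fun g hg => ?_⟩
  have h1 := hU (hg.toLp g)
  rw [inner_toLp_left] at h1
  refine h1.congr fun m => ?_
  rw [inner_toLp]

theorem wc_unique {u : ℕ → α → E} {U V : α → E} (h : WC μ u U) (h' : WC μ u V) : U =ᵐ[μ] V := by
  have hUV : MemLp (U - V) 2 μ := h.memU.sub h'.memU
  have h1 := tendsto_nhds_unique (h.conv _ hUV) (h'.conv _ hUV)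
  have h2 : ∫ x, inner ℝ ((U - V) x) ((U - V) x) ∂μ = 0 := by
    have h3 : ∫ x, inner ℝ ((U - V) x) ((U - V) x) ∂μ =
        ∫ x, inner ℝ (U x) ((U - V) x) ∂μ - ∫ x, inner ℝ (V x) ((U - V) x) ∂μ := by
      rw [← integral_sub (memLp_inner_integrable h.memU hUV) (memLp_inner_integrable h'.memU hUV)]
      refine integral_congr_ae (Eventually.of_forall fun x => ?_)
      simp only [Pi.sub_apply, inner_sub_left]
    rw [h3, h1, sub_self]
  rw [← inner_toLp hUV hUV, inner_self_eq_zero] at h2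
  have h3 : eLpNorm (U - V) 2 μ = 0 := by
    have := congrArg norm h2
    rw [Lp.norm_toLp, norm_zero, ENNReal.toReal_eq_zero_iff] at this
    exact this.resolve_right hUV.2.ne
  rw [eLpNorm_eq_zero_iff hUV.1 (by norm_num)] at h3
  filter_upwards [h3] with x hx
  have : U x - V x = 0 := hx
  exact sub_eq_zero.1 this

theorem WC.congr {u : ℕ → α → E} {U V : α → E} (h : WC μ u U) (hUV : U =ᵐ[μ] V) : WC μ u V := by
  refine ⟨h.mem, h.bdd, h.memU.ae_eq hUV, fun g hg => ?_⟩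
  have h1 := h.conv g hg
  have h2 : ∫ x, inner ℝ (U x) (g x) ∂μ = ∫ x, inner ℝ (V x) (g x) ∂μ :=
    integral_congr_ae (by filter_upwards [hUV] with x hx; rw [hx])
  rwa [h2] at h1

theorem WC.congr_seq {u u' : ℕ → α → E} {U : α → E} (h : WC μ u U)
    (huu : ∀ m, u m =ᵐ[μ] u' m) : WC μ u' U := by
  refine ⟨fun m => (h.mem m).ae_eq (huu m), ?_, h.memU, fun g hg => ?_⟩
  · obtain ⟨C, hC⟩ := h.bdd
    exact ⟨C, fun m => by rw [← eLpNorm_congr_ae (huu m)]; exact hC m⟩
  · refine (h.conv g hg).congr fun m => ?_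
    exact integral_congr_ae (by filter_upwards [huu m] with x hx; rw [hx])

theorem WC.subseq {u : ℕ → α → E} {U : α → E} (h : WC μ u U) {φ : ℕ → ℕ} (hφ : StrictMono φ) :
    WC μ (fun m => u (φ m)) U := by
  obtain ⟨C, hC⟩ := h.bdd
  exact ⟨fun m => h.mem _, ⟨C, fun m => hC _⟩, h.memU, fun g hg =>
    (h.conv g hg).comp hφ.tendsto_atTop⟩

/-- strong convergence implies weak convergence -/
theorem wc_of_strong {u : ℕ → α → E} {U : α → E} (hu : ∀ m, MemLp (u m) 2 μ) (hU : MemLp U 2 μ)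
    (hs : Tendsto (fun m => eLpNorm (fun x => u m x - U x) 2 μ) atTop (𝓝 0))
    (hb : ∃ C : ℝ, ∀ m, eLpNorm (u m) 2 μ ≤ ENNReal.ofReal C) : WC μ u U := by
  refine ⟨hu, hb, hU, fun g hg => ?_⟩
  have h1 : Tendsto (fun m => (eLpNorm (fun x => u m x - U x) 2 μ).toReal *
      (eLpNorm g 2 μ).toReal) atTop (𝓝 0) := by
    have := (ENNReal.tendsto_toReal (by simp : (0:ℝ≥0∞) ≠ ⊤)).comp hs
    simpa using this.mul_const _
  rw [tendsto_iff_norm_sub_tendsto_zero]
  refine squeeze_zero (fun m => norm_nonneg _) (fun m => ?_) h1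
  have hd : MemLp (fun x => u m x - U x) 2 μ := (hu m).sub hU
  rw [← integral_sub (memLp_inner_integrable (hu m) hg) (memLp_inner_integrable hU hg)]
  have h2 : ∫ x, (inner ℝ (u m x) (g x) - inner ℝ (U x) (g x)) ∂μ =
      ∫ x, inner ℝ (u m x - U x) (g x) ∂μ :=
    integral_congr_ae (Eventually.of_forall fun x => by simp only [inner_sub_left])
  rw [h2]
  exact integral_inner_le hd hg

theorem WC.add {u w : ℕ → α → E} {U W : α → E} (h : WC μ u U) (h' : WC μ w W) :
    WC μ (fun m x => u m x + w m x) (fun x => U x + W x) := by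
  obtain ⟨C, hC⟩ := h.bdd
  obtain ⟨C', hC'⟩ := h'.bdd
  refine ⟨fun m => (h.mem m).add (h'.mem m), ⟨max C 0 + max C' 0, fun m => ?_⟩,
    h.memU.add h'.memU, fun g hg => ?_⟩
  · refine (eLpNorm_add_le (h.mem m).1 (h'.mem m).1 (by norm_num)).trans ?_
    rw [ENNReal.ofReal_add (le_max_right _ _) (le_max_right _ _)]
    exact add_le_add ((hC m).trans (ENNReal.ofReal_le_ofReal (le_max_left _ _)))
      ((hC' m).trans (ENNReal.ofReal_le_ofReal (le_max_left _ _)))
  · have h1 := (h.conv g hg).add (h'.conv g hg)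
    have e1 : ∀ {a b : α → E}, MemLp a 2 μ → MemLp b 2 μ →
        ∫ x, inner ℝ (a x) (g x) ∂μ + ∫ x, inner ℝ (b x) (g x) ∂μ =
          ∫ x, inner ℝ (a x + b x) (g x) ∂μ := by
      intro a b ha hb
      rw [← integral_add (memLp_inner_integrable ha hg) (memLp_inner_integrable hb hg)]
      exact integral_congr_ae (Eventually.of_forall fun x => by simp only [inner_add_left])
    rw [e1 h.memU h'.memU] at h1
    exact h1.congr fun m => e1 (h.mem m) (h'.mem m)

theorem WC.const_smul {u : ℕ → α → E} {U : α → E} (h : WC μ u U) (c : ℝ) :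
    WC μ (fun m x => c • u m x) (fun x => c • U x) := by
  obtain ⟨C, hC⟩ := h.bdd
  refine ⟨fun m => (h.mem m).const_smul c, ⟨‖c‖ * max C 0, fun m => ?_⟩,
    h.memU.const_smul c, fun g hg => ?_⟩
  · have h1 : eLpNorm (fun x => c • u m x) 2 μ = ‖c‖ₑ * eLpNorm (u m) 2 μ :=
      eLpNorm_const_smul c (u m) 2 μ
    rw [h1, ENNReal.ofReal_mul (norm_nonneg _)]
    refine mul_le_mul' ?_ ((hC m).trans (ENNReal.ofReal_le_ofReal (le_max_left _ _)))
    rw [ofReal_norm_eq_enorm]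
  · have h1 := (h.conv g hg).const_mul c
    have e1 : ∀ {a : α → E}, c * ∫ x, inner ℝ (a x) (g x) ∂μ = ∫ x, inner ℝ (c • a x) (g x) ∂μ := by
      intro a
      rw [← integral_const_mul]
      exact integral_congr_ae (Eventually.of_forall fun x => by
        simp only [inner_smul_left]; rfl)
    rw [e1] at h1
    exact h1.congr fun m => e1

theorem WC.sub {u w : ℕ → α → E} {U W : α → E} (h : WC μ u U) (h' : WC μ w W) :
    WC μ (fun m x => u m x - w m x) (fun x => U x - W x) := by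
  have := h.add (h'.const_smul (-1))
  simpa only [neg_one_smul, ← sub_eq_add_neg] using this

theorem wc_const {U : α → E} (h : MemLp U 2 μ) : WC μ (fun _ => U) U := by
  refine ⟨fun _ => h, ⟨(eLpNorm U 2 μ).toReal, fun _ => ?_⟩, h, fun g _ => tendsto_const_nhds⟩
  rw [ENNReal.ofReal_toReal h.2.ne]

section findim

variable [FiniteDimensional ℝ E]
variable {E' : Type*} [NormedAddCommGroup E'] [InnerProductSpace ℝ E'] [FiniteDimensional ℝ E']

/-- continuous linear images -/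
theorem wc_clm {u : ℕ → α → E} {U : α → E} (h : WC μ u U) (L : E →L[ℝ] E') :
    WC μ (fun m x => L (u m x)) (fun x => L (U x)) := by
  haveI : CompleteSpace E := FiniteDimensional.complete ℝ E
  haveI : CompleteSpace E' := FiniteDimensional.complete ℝ E'
  obtain ⟨C, hC⟩ := h.bdd
  refine ⟨fun m => L.comp_memLp' (h.mem m), ⟨‖L‖ * max C 0, fun m => ?_⟩,
    L.comp_memLp' h.memU, fun g hg => ?_⟩
  · have h1 : eLpNorm (fun x => L (u m x)) 2 μ ≤ ENNReal.ofReal ‖L‖ * eLpNorm (u m) 2 μ := by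
      refine eLpNorm_le_mul_eLpNorm_of_ae_le_mul (Eventually.of_forall fun x => L.le_opNorm _) 2
    rw [ENNReal.ofReal_mul (norm_nonneg _)]
    exact h1.trans (mul_le_mul' le_rfl ((hC m).trans (ENNReal.ofReal_le_ofReal (le_max_left _ _))))
  · have hg' : MemLp (fun x => (ContinuousLinearMap.adjoint L) (g x)) 2 μ :=
      (ContinuousLinearMap.adjoint L).comp_memLp' hg
    have h1 := h.conv _ hg'
    simpa only [ContinuousLinearMap.adjoint_inner_right] using h1

/-- bounded weights against weakly convergent sequences -/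
theorem wc_weight {u : ℕ → α → E} {U : α → E} (h : WC μ u U) {ζ : α → ℝ}
    (hζ : AEStronglyMeasurable ζ μ) {C : ℝ} (hC : ∀ x, |ζ x| ≤ C) :
    WC μ (fun m x => ζ x • u m x) (fun x => ζ x • U x) := by
  have hmem : ∀ {a : α → E}, MemLp a 2 μ → MemLp (fun x => ζ x • a x) 2 μ := by
    intro a ha
    refine ha.of_le_mul (c := C) (hζ.smul ha.1) (Eventually.of_forall fun x => ?_)
    rw [norm_smul]
    exact mul_le_mul_of_nonneg_right (hC x) (norm_nonneg _)
  obtain ⟨D, hD⟩ := h.bdd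
  refine ⟨fun m => hmem (h.mem m), ⟨C * max D 0, fun m => ?_⟩, hmem h.memU, fun g hg => ?_⟩
  · rcases isEmpty_or_nonempty α with hα | ⟨⟨x0⟩⟩
    · have : (fun x => ζ x • u m x) = 0 := by funext x; exact (hα.false x).elim
      rw [this]; simp
    have hC0 : 0 ≤ C := (abs_nonneg _).trans (hC x0)
    have h1 : eLpNorm (fun x => ζ x • u m x) 2 μ ≤ ENNReal.ofReal C * eLpNorm (u m) 2 μ := by
      refine eLpNorm_le_mul_eLpNorm_of_ae_le_mul (Eventually.of_forall fun x => ?_) 2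
      rw [norm_smul]
      exact mul_le_mul_of_nonneg_right (hC x) (norm_nonneg _)
    rw [ENNReal.ofReal_mul hC0]
    exact h1.trans (mul_le_mul' le_rfl ((hD m).trans (ENNReal.ofReal_le_ofReal (le_max_left _ _))))
  · have h1 := h.conv _ (hmem hg)
    have e1 : ∀ {a : α → E}, ∫ x, inner ℝ (a x) (ζ x • g x) ∂μ =
        ∫ x, inner ℝ (ζ x • a x) (g x) ∂μ := by
      intro a
      exact integral_congr_ae (Eventually.of_forall fun x => by
        simp only [inner_smul_left, inner_smul_right]; rfl)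
    rw [e1] at h1
    exact h1.congr fun m => e1

/-- a bounded sequence of integrals against a bilinear map with a fixed function -/
theorem wc_bilin_fixed {F : Type*} [NormedAddCommGroup F] [InnerProductSpace ℝ F]
    [FiniteDimensional ℝ F]
    {u : ℕ → α → E} {U : α → E} (h : WC μ u U) {W : α → E'} (hW : MemLp W 2 μ)
    (B : E →L[ℝ] E' →L[ℝ] F) :
    Tendsto (fun m => ∫ x, B (u m x) (W x) ∂μ) atTop (𝓝 (∫ x, B (U x) (W x) ∂μ)) := by
  haveI : CompleteSpace E := FiniteDimensional.complete ℝ E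
  haveI : CompleteSpace E' := FiniteDimensional.complete ℝ E'
  haveI : CompleteSpace F := FiniteDimensional.complete ℝ F
  set f := stdOrthonormalBasis ℝ F
  have hint : ∀ {a : α → E}, MemLp a 2 μ → Integrable (fun x => B (a x) (W x)) μ := by
    intro a ha
    have h1 : Integrable (fun x => ‖a x‖ * ‖W x‖) μ := ha.norm.integrable_mul hW.norm
    refine (h1.const_mul ‖B‖).mono' ?_ (Eventually.of_forall fun x => ?_)
    · exact B.aestronglyMeasurable_comp₂ ha.1 hW.1
    · calc ‖B (a x) (W x)‖ ≤ ‖B‖ * ‖a x‖ * ‖W x‖ := B.le_opNorm₂ _ _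
        _ = _ := by ring
  have hrep : ∀ {a : α → E}, MemLp a 2 μ → ∫ x, B (a x) (W x) ∂μ =
      ∑ k, (∫ x, inner ℝ (a x) (ContinuousLinearMap.adjoint (B.flip (W x)) (f k)) ∂μ) • f k := by
    intro a ha
    conv_lhs => rw [← f.sum_repr' (∫ x, B (a x) (W x) ∂μ)]
    refine Finset.sum_congr rfl fun k _ => ?_
    congr 1
    rw [← integral_inner (hint ha) (f k)]
    refine integral_congr_ae (Eventually.of_forall fun x => ?_)
    simp only [ContinuousLinearMap.adjoint_inner_right, ContinuousLinearMap.flip_apply]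
    exact real_inner_comm _ _
  rw [hrep h.memU]
  have h2 : (fun m => ∫ x, B (u m x) (W x) ∂μ) = fun m =>
      ∑ k, (∫ x, inner ℝ (u m x) (ContinuousLinearMap.adjoint (B.flip (W x)) (f k)) ∂μ) • f k := by
    funext m; exact hrep (h.mem m)
  rw [h2]
  refine tendsto_finset_sum _ fun k _ => Tendsto.smul ?_ tendsto_const_nhds
  refine h.conv _ ?_
  refine hW.of_le_mul (c := ‖B‖ * ‖f k‖) ?_ (Eventually.of_forall fun x => ?_)
  · have hc : Continuous fun w : E' => ContinuousLinearMap.adjoint (B.flip w) (f k) := by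
      have h1 : Continuous fun w : E' => ContinuousLinearMap.adjoint (B.flip w) :=
        (LinearIsometryEquiv.continuous _).comp B.flip.continuous
      exact h1.clm_apply continuous_const
    exact hc.comp_aestronglyMeasurable hW.1
  · calc ‖ContinuousLinearMap.adjoint (B.flip (W x)) (f k)‖
        ≤ ‖ContinuousLinearMap.adjoint (B.flip (W x))‖ * ‖f k‖ := ContinuousLinearMap.le_opNorm _ _
      _ = ‖B.flip (W x)‖ * ‖f k‖ := by rw [LinearIsometryEquiv.norm_map]
      _ ≤ (‖B.flip‖ * ‖W x‖) * ‖f k‖ :=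
        mul_le_mul_of_nonneg_right (B.flip.le_opNorm _) (norm_nonneg _)
      _ = ‖B‖ * ‖f k‖ * ‖W x‖ := by rw [ContinuousLinearMap.opNorm_flip]; ring

/-- weak times strong, bounded bilinear map -/
theorem wc_bilin_strong {F : Type*} [NormedAddCommGroup F] [InnerProductSpace ℝ F]
    [FiniteDimensional ℝ F]
    {u : ℕ → α → E} {U : α → E} (h : WC μ u U) {w : ℕ → α → E'} {W : α → E'}
    (hw : ∀ m, MemLp (w m) 2 μ) (hW : MemLp W 2 μ)
    (hs : Tendsto (fun m => eLpNorm (fun x => w m x - W x) 2 μ) atTop (𝓝 0))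
    (B : E →L[ℝ] E' →L[ℝ] F) :
    Tendsto (fun m => ∫ x, B (u m x) (w m x) ∂μ) atTop (𝓝 (∫ x, B (U x) (W x) ∂μ)) := by
  haveI : CompleteSpace F := FiniteDimensional.complete ℝ F
  have hint : ∀ {a : α → E} {b : α → E'}, MemLp a 2 μ → MemLp b 2 μ →
      Integrable (fun x => B (a x) (b x)) μ := by
    intro a b ha hb
    have h1 : Integrable (fun x => ‖a x‖ * ‖b x‖) μ := ha.norm.integrable_mul hb.norm
    refine (h1.const_mul ‖B‖).mono' ?_ (Eventually.of_forall fun x => ?_)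
    · exact B.aestronglyMeasurable_comp₂ ha.1 hb.1
    · calc ‖B (a x) (b x)‖ ≤ ‖B‖ * ‖a x‖ * ‖b x‖ := B.le_opNorm₂ _ _
        _ = _ := by ring
  obtain ⟨C, hC⟩ := h.bdd
  have h0 : Tendsto (fun m => ∫ x, B (u m x) (w m x - W x) ∂μ) atTop (𝓝 0) := by
    have h1 : Tendsto (fun m => ‖B‖ * (max C 0 * (eLpNorm (fun x => w m x - W x) 2 μ).toReal))
        atTop (𝓝 0) := by
      have := (ENNReal.tendsto_toReal (by simp : (0:ℝ≥0∞) ≠ ⊤)).comp hs
      have h2 := (this.const_mul (max C 0)).const_mul ‖B‖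
      simpa using h2
    refine squeeze_zero_norm (fun m => ?_) h1
    have hd : MemLp (fun x => w m x - W x) 2 μ := (hw m).sub hW
    calc ‖∫ x, B (u m x) (w m x - W x) ∂μ‖ ≤ ∫ x, ‖B (u m x) (w m x - W x)‖ ∂μ :=
          norm_integral_le_integral_norm _
      _ ≤ ∫ x, ‖B‖ * (‖u m x‖ * ‖w m x - W x‖) ∂μ := by
          refine integral_mono (hint (h.mem m) hd).norm
            (((h.mem m).norm.integrable_mul hd.norm).const_mul _) fun x => ?_
          calc ‖B (u m x) (w m x - W x)‖ ≤ ‖B‖ * ‖u m x‖ * ‖w m x - W x‖ := B.le_opNorm₂ _ _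
            _ = _ := by ring
      _ = ‖B‖ * ∫ x, ‖u m x‖ * ‖w m x - W x‖ ∂μ := integral_const_mul _ _
      _ ≤ ‖B‖ * (max C 0 * (eLpNorm (fun x => w m x - W x) 2 μ).toReal) := by
          refine mul_le_mul_of_nonneg_left ?_ (ContinuousLinearMap.opNorm_nonneg B)
          have h3 := integral_inner_le (E := ℝ) (h.mem m).norm hd.norm
          have h4 : ∫ x, inner ℝ (‖u m x‖ : ℝ) (‖w m x - W x‖ : ℝ) ∂μ =
              ∫ x, ‖u m x‖ * ‖w m x - W x‖ ∂μ :=
            integral_congr_ae (Eventually.of_forall fun x => by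
              simp only [RCLike.inner_apply, conj_trivial]; ring)
          rw [h4, eLpNorm_norm, eLpNorm_norm] at h3
          refine (le_abs_self _).trans (h3.trans ?_)
          refine mul_le_mul_of_nonneg_right ?_ ENNReal.toReal_nonneg
          refine ENNReal.toReal_le_of_le_ofReal (le_max_right _ _) ((hC m).trans ?_)
          exact ENNReal.ofReal_le_ofReal (le_max_left _ _)
  have h1 := h0.add (wc_bilin_fixed h hW B)
  rw [zero_add] at h1
  refine h1.congr fun m => ?_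
  have hd : MemLp (fun x => w m x - W x) 2 μ := (hw m).sub hW
  rw [← integral_add (hint (h.mem m) hd) (hint (h.mem m) hW)]
  refine integral_congr_ae (Eventually.of_forall fun x => ?_)
  simp only [map_sub]
  abel

/-- weak times strong, bounded bilinear map, bounded weight -/
theorem wc_mul_strong {F : Type*} [NormedAddCommGroup F] [InnerProductSpace ℝ F]
    [FiniteDimensional ℝ F]
    {u : ℕ → α → E} {U : α → E} (h : WC μ u U) {w : ℕ → α → E'} {W : α → E'}
    (hw : ∀ m, MemLp (w m) 2 μ) (hW : MemLp W 2 μ)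
    (hs : Tendsto (fun m => eLpNorm (fun x => w m x - W x) 2 μ) atTop (𝓝 0))
    (B : E →L[ℝ] E' →L[ℝ] F) (ζ : α → ℝ) (hζ : AEStronglyMeasurable ζ μ) (C : ℝ)
    (hC : ∀ x, |ζ x| ≤ C) :
    Tendsto (fun m => ∫ x, ζ x • B (u m x) (w m x) ∂μ) atTop (𝓝 (∫ x, ζ x • B (U x) (W x) ∂μ)) := by
  have h1 := wc_bilin_strong (wc_weight h hζ hC) hw hW hs B
  simpa only [map_smul, ContinuousLinearMap.smul_apply] using h1

end findim

/-- weak lower semicontinuity with a weight -/
theorem wc_lsc {u : ℕ → α → E} {U : α → E} (h : WC μ u U) (ζ : α → ℝ)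
    (hζ : AEStronglyMeasurable ζ μ) (C : ℝ) (hC : ∀ x, 0 ≤ ζ x ∧ ζ x ≤ C) (X : ℝ)
    (hX : ∀ᶠ m in atTop, ∫ x, ζ x * ‖u m x‖ ^ 2 ∂μ ≤ X) :
    ∫ x, ζ x * ‖U x‖ ^ 2 ∂μ ≤ X := by
  have hmem : ∀ {a : α → E}, MemLp a 2 μ → MemLp (fun x => ζ x • a x) 2 μ := by
    intro a ha
    refine ha.of_le_mul (c := C) (hζ.smul ha.1) (Eventually.of_forall fun x => ?_)
    rw [norm_smul, Real.norm_eq_abs, abs_of_nonneg (hC x).1]
    exact mul_le_mul_of_nonneg_right (hC x).2 (norm_nonneg _)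
  have hint : ∀ {a : α → E}, MemLp a 2 μ → Integrable (fun x => ζ x * ‖a x‖ ^ 2) μ := by
    intro a ha
    have h1 := memLp_inner_integrable ha (hmem ha)
    refine h1.congr (Eventually.of_forall fun x => ?_)
    simp only [inner_smul_right, real_inner_self_eq_norm_sq]
  set Y := ∫ x, ζ x * ‖U x‖ ^ 2 ∂μ with hY
  have h1 := h.conv _ (hmem h.memU)
  have h2 : ∫ x, inner ℝ (U x) (ζ x • U x) ∂μ = Y :=
    integral_congr_ae (Eventually.of_forall fun x => by
      simp only [inner_smul_right, real_inner_self_eq_norm_sq])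
  rw [h2] at h1
  have h3 : Y ≤ (1 / 2) * X + (1 / 2) * Y := by
    refine le_of_tendsto h1 ?_
    filter_upwards [hX] with m hm
    calc ∫ x, inner ℝ (u m x) (ζ x • U x) ∂μ
        ≤ ∫ x, ((1 / 2) * (ζ x * ‖u m x‖ ^ 2) + (1 / 2) * (ζ x * ‖U x‖ ^ 2)) ∂μ := by
          refine integral_mono (memLp_inner_integrable (h.mem m) (hmem h.memU))
            (((hint (h.mem m)).const_mul _).add ((hint h.memU).const_mul _)) fun x => ?_
          simp only [inner_smul_right]
          have h4 : inner ℝ (u m x) (U x) ≤ (1 / 2) * ‖u m x‖ ^ 2 + (1 / 2) * ‖U x‖ ^ 2 := by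
            have := real_inner_le_norm (u m x) (U x)
            nlinarith [sq_nonneg (‖u m x‖ - ‖U x‖)]
          have := mul_le_mul_of_nonneg_left h4 (hC x).1
          linarith
      _ = (1 / 2) * ∫ x, ζ x * ‖u m x‖ ^ 2 ∂μ + (1 / 2) * Y := by
          rw [integral_add ((hint (h.mem m)).const_mul _) ((hint h.memU).const_mul _),
            integral_const_mul, integral_const_mul]
      _ ≤ _ := by linarith
  linarith

/-- weak lower semicontinuity of the `L¹` norm with a weight in `L²` -/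
theorem wc_lsc_one {u : ℕ → α → E} {U : α → E} (h : WC μ u U) (ζ : α → ℝ)
    (hζ : MemLp ζ 2 μ) (hC : ∀ x, 0 ≤ ζ x) (X : ℝ)
    (hX : ∀ᶠ m in atTop, ∫ x, ζ x * ‖u m x‖ ∂μ ≤ X) :
    ∫ x, ζ x * ‖U x‖ ∂μ ≤ X := by
  have hg : MemLp (fun x => ζ x • (‖U x‖⁻¹ • U x)) 2 μ := by
    refine hζ.of_le (hζ.1.smul ?_) (Eventually.of_forall fun x => ?_)
    · exact (h.memU.1.norm.aemeasurable.inv.aestronglyMeasurable).smul h.memU.1
    · rw [norm_smul, norm_smul, norm_inv, norm_norm]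
      have : ‖U x‖⁻¹ * ‖U x‖ ≤ 1 := inv_mul_le_one
      calc ‖ζ x‖ * (‖U x‖⁻¹ * ‖U x‖) ≤ ‖ζ x‖ * 1 :=
          mul_le_mul_of_nonneg_left this (norm_nonneg _)
        _ = _ := mul_one _
  have h1 := h.conv _ hg
  have h2 : ∫ x, inner ℝ (U x) (ζ x • (‖U x‖⁻¹ • U x)) ∂μ = ∫ x, ζ x * ‖U x‖ ∂μ := by
    refine integral_congr_ae (Eventually.of_forall fun x => ?_)
    simp only [inner_smul_right, real_inner_self_eq_norm_sq]
    rcases eq_or_ne (‖U x‖) 0 with h0 | h0
    · rw [h0]; simp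
    · field_simp
  rw [h2] at h1
  refine le_of_tendsto h1 ?_
  filter_upwards [hX] with m hm
  refine le_trans ?_ hm
  have hint : Integrable (fun x => ζ x * ‖u m x‖) μ := hζ.integrable_mul (h.mem m).norm
  refine integral_mono (memLp_inner_integrable (h.mem m) hg) hint fun x => ?_
  simp only [inner_smul_right]
  refine mul_le_mul_of_nonneg_left ?_ (hC x)
  have h3 := real_inner_le_norm (u m x) (U x)
  calc ‖U x‖⁻¹ * inner ℝ (u m x) (U x) ≤ ‖U x‖⁻¹ * (‖u m x‖ * ‖U x‖) :=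
        mul_le_mul_of_nonneg_left h3 (by positivity)
    _ = ‖u m x‖ * (‖U x‖⁻¹ * ‖U x‖) := by ring
    _ ≤ ‖u m x‖ * 1 := mul_le_mul_of_nonneg_left inv_mul_le_one (norm_nonneg _)
    _ = _ := mul_one _

end Fn

end Pool.Agent.Helper42.Jef
end

section
/-! # The inner product space of pairs of test fields -/

open MeasureTheory Set Filter Topology
open scoped ENNReal NNReal ContDiff

namespace Pool.Agent.Helper42.Jef

set_option maxHeartbeats 400000

variable {n : ℕ} {Ω : Set (Eu n)}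

/-! ## gradient and divergence are linear -/

theorem grad_apply (φ : Eu n → Eu n) (x : Eu n) (i j : Fin n) :
    grad φ x (i, j) = (fderiv ℝ φ x (bv j)) i := rfl

/-- the gradient as a linear function of the derivative -/
noncomputable def gradL (n : ℕ) : (Eu n →L[ℝ] Eu n) →ₗ[ℝ] Mt n where
  toFun D := WithLp.toLp 2 fun p => (D (bv p.2)) p.1
  map_add' D D' := by ext p; simp
  map_smul' c D := by ext p; simp

theorem grad_eq (φ : Eu n → Eu n) (x : Eu n) : grad φ x = gradL n (fderiv ℝ φ x) := rfl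

theorem gradL_cont (n : ℕ) : Continuous (gradL n) := (gradL n).continuous_of_finiteDimensional

noncomputable def dvgL (n : ℕ) : (Eu n →L[ℝ] Eu n) →ₗ[ℝ] ℝ where
  toFun D := ∑ i, (D (bv i)) i
  map_add' D D' := by simp [Finset.sum_add_distrib]
  map_smul' c D := by simp [Finset.mul_sum]

theorem dvg_eq (φ : Eu n → Eu n) (x : Eu n) : dvg φ x = dvgL n (fderiv ℝ φ x) := rfl

theorem dvg_eq_grad (φ : Eu n → Eu n) (x : Eu n) : dvg φ x = ∑ i, grad φ x (i, i) := rfl

theorem grad_add {φ ψ : Eu n → Eu n} (hφ : Differentiable ℝ φ) (hψ : Differentiable ℝ ψ)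
    (x : Eu n) : grad (φ + ψ) x = grad φ x + grad ψ x := by
  rw [grad_eq, grad_eq, grad_eq, fderiv_add (hφ x) (hψ x), map_add]

theorem grad_smul {φ : Eu n → Eu n} (hφ : Differentiable ℝ φ) (c : ℝ) (x : Eu n) :
    grad (c • φ) x = c • grad φ x := by
  rw [grad_eq, grad_eq, fderiv_const_smul (hφ x), map_smul]

theorem dvg_add {φ ψ : Eu n → Eu n} (hφ : Differentiable ℝ φ) (hψ : Differentiable ℝ ψ)
    (x : Eu n) : dvg (φ + ψ) x = dvg φ x + dvg ψ x := by
  rw [dvg_eq, dvg_eq, dvg_eq, fderiv_add (hφ x) (hψ x), map_add]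

theorem dvg_smul {φ : Eu n → Eu n} (hφ : Differentiable ℝ φ) (c : ℝ) (x : Eu n) :
    dvg (c • φ) x = c • dvg φ x := by
  rw [dvg_eq, dvg_eq, fderiv_const_smul (hφ x), map_smul]

namespace IsVT

theorem diff {φ : Eu n → Eu n} (h : IsVT Ω φ) : Differentiable ℝ φ :=
  h.smooth.differentiable (by simp)

protected theorem zero : IsVT Ω (0 : Eu n → Eu n) where
  smooth := contDiff_const
  cpt := HasCompactSupport.zero
  supp := by rw [tsupport_zero]; exact empty_subset _
  div0 x := by simp [dvg]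

protected theorem add {φ ψ : Eu n → Eu n} (h : IsVT Ω φ) (h' : IsVT Ω ψ) : IsVT Ω (φ + ψ) where
  smooth := h.smooth.add h'.smooth
  cpt := h.cpt.add h'.cpt
  supp := (tsupport_add φ ψ).trans (union_subset h.supp h'.supp)
  div0 x := by rw [dvg_add h.diff h'.diff, h.div0, h'.div0, add_zero]

protected theorem smul {φ : Eu n → Eu n} (h : IsVT Ω φ) (c : ℝ) : IsVT Ω (c • φ) where
  smooth := h.smooth.const_smul c
  cpt := h.cpt.smul_left (f := fun _ => c)
  supp := (closure_mono (Function.support_const_smul_subset c φ)).trans h.supp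
  div0 x := by rw [dvg_smul h.diff, h.div0, smul_zero]

end IsVT

/-- pairs of test fields (velocity, stress), as a submodule -/
def DDs (Ω : Set (Eu n)) : Submodule ℝ ((Eu n → Eu n) × (Eu n → Mt n)) where
  carrier := {p | IsVT Ω p.1 ∧ ContDiff ℝ ∞ p.2 ∧ HasCompactSupport p.2}
  add_mem' := fun h h' => ⟨h.1.add h'.1, h.2.1.add h'.2.1, h.2.2.add h'.2.2⟩
  zero_mem' := ⟨IsVT.zero, contDiff_const, HasCompactSupport.zero⟩
  smul_mem' := fun c _ h => ⟨h.1.smul c, h.2.1.const_smul c, h.2.2.smul_left (f := fun _ => c)⟩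

/-- pairs of test fields, as a type without the inherited product topology -/
def DD (Ω : Set (Eu n)) : Type := DDs Ω

instance (Ω : Set (Eu n)) : AddCommGroup (DD Ω) := inferInstanceAs (AddCommGroup (DDs Ω))
instance (Ω : Set (Eu n)) : Module ℝ (DD Ω) := inferInstanceAs (Module ℝ (DDs Ω))

/-- the underlying element of the submodule -/
def DD.val (p : DD Ω) : DDs Ω := p

/-- a pair of test fields from its components -/
def DD.mk (φ : Eu n → Eu n) (ψ : Eu n → Mt n) (h1 : IsVT Ω φ) (h2 : ContDiff ℝ ∞ ψ)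
    (h3 : HasCompactSupport ψ) : DD Ω := (⟨(φ, ψ), h1, h2, h3⟩ : DDs Ω)

/-- velocity and stress components -/
def vf (p : DD Ω) : Eu n → Eu n := p.val.1.1
def tf (p : DD Ω) : Eu n → Mt n := p.val.1.2

@[simp] theorem vf_mk (φ : Eu n → Eu n) (ψ : Eu n → Mt n) (h1 : IsVT Ω φ) (h2 : ContDiff ℝ ∞ ψ)
    (h3 : HasCompactSupport ψ) : vf (DD.mk φ ψ h1 h2 h3) = φ := rfl
@[simp] theorem tf_mk (φ : Eu n → Eu n) (ψ : Eu n → Mt n) (h1 : IsVT Ω φ) (h2 : ContDiff ℝ ∞ ψ)
    (h3 : HasCompactSupport ψ) : tf (DD.mk φ ψ h1 h2 h3) = ψ := rfl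

theorem vf_vt (p : DD Ω) : IsVT Ω (vf p) := p.val.2.1
theorem vf_smooth (p : DD Ω) : ContDiff ℝ ∞ (vf p) := p.val.2.1.smooth
theorem tf_smooth (p : DD Ω) : ContDiff ℝ ∞ (tf p) := p.val.2.2.1
theorem vf_cpt (p : DD Ω) : HasCompactSupport (vf p) := p.val.2.1.cpt
theorem tf_cpt (p : DD Ω) : HasCompactSupport (tf p) := p.val.2.2.2
theorem vf_diff (p : DD Ω) : Differentiable ℝ (vf p) := (vf_smooth p).differentiable (by simp)
theorem tf_diff (p : DD Ω) : Differentiable ℝ (tf p) := (tf_smooth p).differentiable (by simp)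

@[simp] theorem vf_add (p q : DD Ω) : vf (p + q) = vf p + vf q := rfl
@[simp] theorem tf_add (p q : DD Ω) : tf (p + q) = tf p + tf q := rfl
@[simp] theorem vf_smul (c : ℝ) (p : DD Ω) : vf (c • p) = c • vf p := rfl
@[simp] theorem tf_smul (c : ℝ) (p : DD Ω) : tf (c • p) = c • tf p := rfl
@[simp] theorem vf_zero : vf (0 : DD Ω) = 0 := rfl
@[simp] theorem tf_zero : tf (0 : DD Ω) = 0 := rfl

theorem vf_sum {ι : Type*} (s : Finset ι) (f : ι → DD Ω) : vf (∑ i ∈ s, f i) = ∑ i ∈ s, vf (f i) := by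
  classical
  induction s using Finset.induction_on with
  | empty => simp
  | insert a s ha ih => rw [Finset.sum_insert ha, Finset.sum_insert ha, vf_add, ih]

theorem tf_sum {ι : Type*} (s : Finset ι) (f : ι → DD Ω) : tf (∑ i ∈ s, f i) = ∑ i ∈ s, tf (f i) := by
  classical
  induction s using Finset.induction_on with
  | empty => simp
  | insert a s ha ih => rw [Finset.sum_insert ha, Finset.sum_insert ha, tf_add, ih]

theorem int_vv (p q : DD Ω) : Integrable (fun x => inner ℝ (vf p x) (vf q x)) := by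
  refine Continuous.integrable_of_hasCompactSupport
    ((vf_smooth p).continuous.inner (vf_smooth q).continuous) ?_
  exact (vf_cpt p).mono' (by
    intro x hx
    refine subset_closure ?_
    intro h0
    have h0' : vf p x = 0 := h0
    exact hx (by simp [h0']))

theorem int_tt (p q : DD Ω) : Integrable (fun x => inner ℝ (tf p x) (tf q x)) := by
  refine Continuous.integrable_of_hasCompactSupport
    ((tf_smooth p).continuous.inner (tf_smooth q).continuous) ?_
  exact (tf_cpt p).mono' (by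
    intro x hx
    refine subset_closure ?_
    intro h0
    have h0' : tf p x = 0 := h0
    exact hx (by simp [h0']))

/-- the `L²` inner product on pairs of test fields -/
noncomputable def ddCore (Ω : Set (Eu n)) : InnerProductSpace.Core ℝ (DD Ω) where
  inner p q := (∫ x, inner ℝ (vf p x) (vf q x)) + ∫ x, inner ℝ (tf p x) (tf q x)
  conj_inner_symm p q := by
    simp only [conj_trivial]
    congr 1
    · exact integral_congr_ae (Eventually.of_forall fun x => real_inner_comm _ _)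
    · exact integral_congr_ae (Eventually.of_forall fun x => real_inner_comm _ _)
  re_inner_nonneg p := by
    simp only [RCLike.re_to_real]
    exact add_nonneg (integral_nonneg fun x => real_inner_self_nonneg)
      (integral_nonneg fun x => real_inner_self_nonneg)
  add_left p q r := by
    simp only [vf_add, tf_add, Pi.add_apply, inner_add_left]
    rw [integral_add (int_vv p r) (int_vv q r), integral_add (int_tt p r) (int_tt q r)]
    ring
  smul_left p q c := by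
    simp only [vf_smul, tf_smul, Pi.smul_apply, inner_smul_left, conj_trivial]
    rw [integral_const_mul, integral_const_mul]
    ring
  definite p hp := by
    have h1 : 0 ≤ ∫ x, inner ℝ (vf p x) (vf p x) := integral_nonneg fun x => real_inner_self_nonneg
    have h2 : 0 ≤ ∫ x, inner ℝ (tf p x) (tf p x) := integral_nonneg fun x => real_inner_self_nonneg
    have hp' : (∫ x, inner ℝ (vf p x) (vf p x)) + ∫ x, inner ℝ (tf p x) (tf p x) = 0 := hp
    have h3 : ∫ x, inner ℝ (vf p x) (vf p x) = 0 := by linarith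
    have h4 : ∫ x, inner ℝ (tf p x) (tf p x) = 0 := by linarith
    have h5 : (fun x => inner ℝ (vf p x) (vf p x)) = 0 := by
      have := (integral_eq_zero_iff_of_nonneg (fun x => real_inner_self_nonneg) (int_vv p p)).1 h3
      exact (((vf_smooth p).continuous.inner (vf_smooth p).continuous).ae_eq_iff_eq volume
        continuous_zero).1 this
    have h6 : (fun x => inner ℝ (tf p x) (tf p x)) = 0 := by
      have := (integral_eq_zero_iff_of_nonneg (fun x => real_inner_self_nonneg) (int_tt p p)).1 h4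
      exact (((tf_smooth p).continuous.inner (tf_smooth p).continuous).ae_eq_iff_eq volume
        continuous_zero).1 this
    show p.val = 0
    refine Subtype.ext (Prod.ext ?_ ?_)
    · funext x
      have := congrFun h5 x
      exact inner_self_eq_zero.1 this
    · funext x
      have := congrFun h6 x
      exact inner_self_eq_zero.1 this

noncomputable instance instNACGDD (Ω : Set (Eu n)) : NormedAddCommGroup (DD Ω) :=
  @InnerProductSpace.Core.toNormedAddCommGroup ℝ (DD Ω) _ _ _ (ddCore Ω)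

noncomputable instance instIPSDD (Ω : Set (Eu n)) : InnerProductSpace ℝ (DD Ω) :=
  InnerProductSpace.ofCore (ddCore Ω).toCore

theorem dd_inner (p q : DD Ω) : inner ℝ p q =
    (∫ x, inner ℝ (vf p x) (vf q x)) + ∫ x, inner ℝ (tf p x) (tf q x) := rfl

theorem dd_norm_sq (p : DD Ω) : ‖p‖ ^ 2 = (∫ x, ‖vf p x‖ ^ 2) + ∫ x, ‖tf p x‖ ^ 2 := by
  rw [← real_inner_self_eq_norm_sq, dd_inner]
  simp only [real_inner_self_eq_norm_sq]

end Pool.Agent.Helper42.Jef
end

section
/-! # Spatial convolution with an `L¹` kernel on space-time functions -/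

open MeasureTheory Set Filter Topology
open scoped ENNReal NNReal ContDiff

namespace Pool.Agent.Helper42.Jef

set_option maxHeartbeats 400000

variable {n : ℕ}
variable {E : Type*} [NormedAddCommGroup E] [NormedSpace ℝ E]

/-- spatial convolution -/
noncomputable def spc (k : Eu n → ℝ) (u : ST n → E) (z : ST n) : E :=
  ∫ y : Eu n, k (z.2 - y) • u (z.1, y)

theorem mo_eq_spc (ε : ℝ) (u : ST n → E) : mo ε u = spc (ro ε) u := rfl

/-- the map `((t,x),y) ↦ x - y` is quasi measure preserving -/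
theorem qmp_sub : Measure.QuasiMeasurePreserving (fun p : ST n × Eu n => p.1.2 - p.2)
    (volume.prod volume) volume := by
  have h1 : Measure.QuasiMeasurePreserving (fun p : Eu n × Eu n => p.1 - p.2)
      (volume.prod volume) volume := quasiMeasurePreserving_sub_of_right_invariant _ _
  have h2 : Measure.QuasiMeasurePreserving (fun p : ST n × Eu n => (p.1.2, p.2))
      ((volume : Measure (ST n)).prod volume) ((volume : Measure (Eu n)).prod volume) := by
    have h3 : Measure.QuasiMeasurePreserving (fun z : ST n => z.2) (volume : Measure (ST n))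
        (volume : Measure (Eu n)) := Measure.quasiMeasurePreserving_snd
    exact MeasureTheory.QuasiMeasurePreserving.prodMap h3 (Measure.QuasiMeasurePreserving.id _)
  exact h1.comp h2

/-- the map `((t,x),y) ↦ (t,y)` is quasi measure preserving -/
theorem qmp_fst : Measure.QuasiMeasurePreserving (fun p : ST n × Eu n => ((p.1.1, p.2) : ST n))
    (volume.prod volume) volume := by
  have h3 : Measure.QuasiMeasurePreserving (fun z : ST n => z.1) (volume : Measure (ST n))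
        (volume : Measure ℝ) := Measure.quasiMeasurePreserving_fst
  exact MeasureTheory.QuasiMeasurePreserving.prodMap h3 (Measure.QuasiMeasurePreserving.id _)

theorem spc_integrand_aesm {k : Eu n → ℝ} {u : ST n → E} (hk : AEStronglyMeasurable k volume)
    (hu : AEStronglyMeasurable u volume) :
    AEStronglyMeasurable (fun p : ST n × Eu n => k (p.1.2 - p.2) • u (p.1.1, p.2))
      (volume.prod volume) :=
  (hk.comp_quasiMeasurePreserving qmp_sub).smul (hu.comp_quasiMeasurePreserving qmp_fst)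

theorem spc_aesm {k : Eu n → ℝ} {u : ST n → E} (hk : AEStronglyMeasurable k volume)
    (hu : AEStronglyMeasurable u volume) : AEStronglyMeasurable (spc k u) volume :=
  (spc_integrand_aesm hk hu).integral_prod_right'

/-- Tonelli part of Young's inequality -/
theorem young_tonelli {k : Eu n → ℝ} {f : ST n → ℝ≥0∞} (hk : AEStronglyMeasurable k volume)
    (hf : AEMeasurable f volume) :
    ∫⁻ z : ST n, ∫⁻ y : Eu n, ‖k (z.2 - y)‖ₑ * f (z.1, y) =
      (∫⁻ x, ‖k x‖ₑ) * ∫⁻ z : ST n, f z := by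
  have hm : AEMeasurable (fun p : ST n × Eu n => ‖k (p.1.2 - p.2)‖ₑ * f (p.1.1, p.2))
      (volume.prod volume) :=
    (hk.comp_quasiMeasurePreserving qmp_sub).enorm.mul
      (hf.comp_quasiMeasurePreserving qmp_fst)
  have hvol : (volume : Measure (ST n)) = (volume : Measure ℝ).prod (volume : Measure (Eu n)) := rfl
  -- rewrite as an iterated integral over t, x, y
  have h1 : ∫⁻ z : ST n, ∫⁻ y : Eu n, ‖k (z.2 - y)‖ₑ * f (z.1, y) =
      ∫⁻ t : ℝ, ∫⁻ x : Eu n, ∫⁻ y : Eu n, ‖k (x - y)‖ₑ * f (t, y) := by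
    rw [hvol, lintegral_prod _ hm.lintegral_prod_right']
  have h2 : ∫⁻ z : ST n, f z = ∫⁻ t : ℝ, ∫⁻ y : Eu n, f (t, y) := by
    rw [hvol, lintegral_prod _ hf]
  rw [h1, h2, ← lintegral_const_mul'' _ hf.lintegral_prod_right']
  have hsl : ∀ᵐ t : ℝ, AEMeasurable (fun y => f (t, y)) (volume : Measure (Eu n)) := by
    have := hf.aestronglyMeasurable
    exact (AEStronglyMeasurable.prodMk_left (μ := volume) (ν := volume) this).mono
      fun t ht => ht.aemeasurable
  refine lintegral_congr_ae ?_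
  filter_upwards [hsl] with t ht
  have hm2 : AEMeasurable (fun p : Eu n × Eu n => ‖k (p.1 - p.2)‖ₑ * f (t, p.2))
      (volume.prod volume) :=
    (hk.comp_quasiMeasurePreserving
      (quasiMeasurePreserving_sub_of_right_invariant _ _)).enorm.mul
      (ht.comp_quasiMeasurePreserving Measure.quasiMeasurePreserving_snd)
  rw [lintegral_lintegral_swap hm2, ← lintegral_const_mul'' _ ht]
  refine lintegral_congr fun y => ?_
  have hk' : AEMeasurable (fun x => ‖k (x - y)‖ₑ) volume :=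
    (hk.comp_quasiMeasurePreserving
      (measurePreserving_sub_right volume y).quasiMeasurePreserving).enorm
  rw [lintegral_mul_const'' _ hk']
  congr 1
  exact lintegral_sub_right_eq_self (fun x => ‖k x‖ₑ) y

/-- pointwise Cauchy–Schwarz -/
theorem young_cs {k : Eu n → ℝ} {f : Eu n → ℝ≥0∞} (hk : AEStronglyMeasurable k volume)
    (hf : AEMeasurable f volume) (x : Eu n) :
    (∫⁻ y : Eu n, ‖k (x - y)‖ₑ * f y) ^ 2 ≤
      (∫⁻ x, ‖k x‖ₑ) * ∫⁻ y : Eu n, ‖k (x - y)‖ₑ * f y ^ 2 := by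
  have hk' : AEMeasurable (fun y => ‖k (x - y)‖ₑ) volume :=
    (hk.comp_quasiMeasurePreserving
      (Measure.measurePreserving_sub_left volume x).quasiMeasurePreserving).enorm
  have h1 := ENNReal.lintegral_mul_le_Lp_mul_Lq (volume : Measure (Eu n)) Real.HolderConjugate.two_two
    (f := fun y => ‖k (x - y)‖ₑ ^ (1 / 2 : ℝ)) (g := fun y => ‖k (x - y)‖ₑ ^ (1 / 2 : ℝ) * f y)
    (hk'.pow_const _) ((hk'.pow_const _).mul hf)
  have h2 : ∫⁻ y : Eu n, ‖k (x - y)‖ₑ * f y = ∫⁻ y, ((fun y => ‖k (x - y)‖ₑ ^ (1 / 2 : ℝ)) *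
      fun y => ‖k (x - y)‖ₑ ^ (1 / 2 : ℝ) * f y) y := by
    refine lintegral_congr fun y => ?_
    simp only [Pi.mul_apply]
    rw [← mul_assoc, ← ENNReal.rpow_add_of_nonneg _ _ (by norm_num) (by norm_num)]
    norm_num
  rw [← h2] at h1
  have h3 : ∫⁻ y, (‖k (x - y)‖ₑ ^ (1 / 2 : ℝ)) ^ (2 : ℝ) = ∫⁻ x, ‖k x‖ₑ := by
    have : ∀ y, (‖k (x - y)‖ₑ ^ (1 / 2 : ℝ)) ^ (2 : ℝ) = ‖k (x - y)‖ₑ := by
      intro y
      rw [← ENNReal.rpow_mul]; norm_num
    simp only [this]
    exact lintegral_sub_left_eq_self (fun x => ‖k x‖ₑ) x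
  have h4 : ∫⁻ y, (‖k (x - y)‖ₑ ^ (1 / 2 : ℝ) * f y) ^ (2 : ℝ) =
      ∫⁻ y, ‖k (x - y)‖ₑ * f y ^ 2 := by
    refine lintegral_congr fun y => ?_
    rw [ENNReal.mul_rpow_of_nonneg _ _ (by norm_num), ← ENNReal.rpow_mul]
    norm_num
  rw [h3, h4] at h1
  calc (∫⁻ y : Eu n, ‖k (x - y)‖ₑ * f y) ^ 2
      ≤ ((∫⁻ x, ‖k x‖ₑ) ^ (1 / 2 : ℝ) * (∫⁻ y, ‖k (x - y)‖ₑ * f y ^ 2) ^ (1 / 2 : ℝ)) ^ 2 :=
        pow_le_pow_left' h1 2
    _ = (∫⁻ x, ‖k x‖ₑ) * ∫⁻ y : Eu n, ‖k (x - y)‖ₑ * f y ^ 2 := by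
        rw [mul_pow, ← ENNReal.rpow_natCast, ← ENNReal.rpow_natCast, ← ENNReal.rpow_mul,
          ← ENNReal.rpow_mul]
        norm_num

theorem spc_lint_le {k : Eu n → ℝ} {u : ST n → E} (hk : AEStronglyMeasurable k volume)
    (hu : AEStronglyMeasurable u volume) :
    ∫⁻ z : ST n, (∫⁻ y : Eu n, ‖k (z.2 - y)‖ₑ * ‖u (z.1, y)‖ₑ) ^ 2 ≤
      (∫⁻ x, ‖k x‖ₑ) ^ 2 * ∫⁻ z : ST n, ‖u z‖ₑ ^ 2 := by
  have hsl : ∀ᵐ z : ST n, AEMeasurable (fun y => ‖u (z.1, y)‖ₑ) (volume : Measure (Eu n)) := by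
    have h1 : ∀ᵐ t : ℝ, AEStronglyMeasurable (fun y => u (t, y)) (volume : Measure (Eu n)) :=
      AEStronglyMeasurable.prodMk_left (μ := volume) (ν := volume) hu
    have h2 : ∀ᵐ z : ST n, AEStronglyMeasurable (fun y => u (z.1, y)) (volume : Measure (Eu n)) :=
      Measure.quasiMeasurePreserving_fst.ae h1
    exact h2.mono fun z hz => hz.enorm
  calc ∫⁻ z : ST n, (∫⁻ y : Eu n, ‖k (z.2 - y)‖ₑ * ‖u (z.1, y)‖ₑ) ^ 2
      ≤ ∫⁻ z : ST n, (∫⁻ x, ‖k x‖ₑ) * ∫⁻ y : Eu n, ‖k (z.2 - y)‖ₑ * ‖u (z.1, y)‖ₑ ^ 2 := by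
        refine lintegral_mono_ae ?_
        filter_upwards [hsl] with z hz
        exact young_cs hk hz z.2
    _ = (∫⁻ x, ‖k x‖ₑ) * ∫⁻ z : ST n, ∫⁻ y : Eu n, ‖k (z.2 - y)‖ₑ * ‖u (z.1, y)‖ₑ ^ 2 := by
        refine lintegral_const_mul'' _ ?_
        have hm : AEMeasurable (fun p : ST n × Eu n => ‖k (p.1.2 - p.2)‖ₑ * ‖u (p.1.1, p.2)‖ₑ ^ 2)
            (volume.prod volume) :=
          (hk.comp_quasiMeasurePreserving qmp_sub).enorm.mul
            ((hu.comp_quasiMeasurePreserving qmp_fst).enorm.pow_const 2)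
        exact hm.lintegral_prod_right'
    _ = _ := by
        rw [young_tonelli (f := fun z => ‖u z‖ₑ ^ 2) hk (hu.enorm.pow_const 2)]
        ring

theorem spc_ae_integrable {k : Eu n → ℝ} {u : ST n → E} (hk : Integrable k) (hu : MemLp u 2) :
    ∀ᵐ z : ST n, Integrable (fun y => k (z.2 - y) • u (z.1, y)) := by
  have h1 : ∫⁻ z : ST n, (∫⁻ y : Eu n, ‖k (z.2 - y)‖ₑ * ‖u (z.1, y)‖ₑ) ^ 2 < ⊤ := by
    refine (spc_lint_le hk.1 hu.1).trans_lt ?_
    refine ENNReal.mul_lt_top (ENNReal.pow_lt_top hk.2) ?_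
    have := lintegral_rpow_enorm_lt_top_of_eLpNorm_lt_top (p := 2) (by norm_num) (by norm_num) hu.2
    simpa using this
  have hm : AEMeasurable (fun z : ST n => (∫⁻ y : Eu n, ‖k (z.2 - y)‖ₑ * ‖u (z.1, y)‖ₑ) ^ 2) := by
    have hm : AEMeasurable (fun p : ST n × Eu n => ‖k (p.1.2 - p.2)‖ₑ * ‖u (p.1.1, p.2)‖ₑ)
        (volume.prod volume) :=
      (hk.1.comp_quasiMeasurePreserving qmp_sub).enorm.mul
        (hu.1.comp_quasiMeasurePreserving qmp_fst).enorm
    exact hm.lintegral_prod_right'.pow_const 2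
  have h2 := ae_lt_top' hm h1.ne
  have h3 : ∀ᵐ z : ST n, AEStronglyMeasurable (fun y => k (z.2 - y) • u (z.1, y)) volume :=
    AEStronglyMeasurable.prodMk_left (spc_integrand_aesm hk.1 hu.1)
  filter_upwards [h2, h3] with z hz hz3
  refine ⟨hz3, ?_⟩
  rw [hasFiniteIntegral_iff_enorm]
  have h4 : ∫⁻ y : Eu n, ‖k (z.2 - y) • u (z.1, y)‖ₑ =
      ∫⁻ y : Eu n, ‖k (z.2 - y)‖ₑ * ‖u (z.1, y)‖ₑ :=
    lintegral_congr fun y => enorm_smul _ _
  rw [h4]
  by_contra h5
  rw [not_lt, top_le_iff] at h5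
  rw [h5] at hz
  simp at hz

theorem eLpNorm_two_eq {α : Type*} [MeasurableSpace α] {μ : Measure α} {F : Type*}
    [NormedAddCommGroup F] (u : α → F) :
    eLpNorm u 2 μ = (∫⁻ x, ‖u x‖ₑ ^ 2 ∂μ) ^ (1 / 2 : ℝ) := by
  rw [eLpNorm_eq_lintegral_rpow_enorm_toReal (by norm_num) (by norm_num)]
  simp

theorem lint_sq_eq {α : Type*} [MeasurableSpace α] {μ : Measure α} {F : Type*}
    [NormedAddCommGroup F] (u : α → F) :
    ∫⁻ x, ‖u x‖ₑ ^ 2 ∂μ = eLpNorm u 2 μ ^ 2 := by
  rw [eLpNorm_two_eq, ← ENNReal.rpow_natCast, ← ENNReal.rpow_mul]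
  norm_num

/-- Young's inequality -/
theorem spc_eLpNorm_le {k : Eu n → ℝ} {u : ST n → E} (hk : AEStronglyMeasurable k volume)
    (hu : AEStronglyMeasurable u volume) :
    eLpNorm (spc k u) 2 volume ≤ (∫⁻ x, ‖k x‖ₑ) * eLpNorm u 2 volume := by
  have h1 : ∫⁻ z, ‖spc k u z‖ₑ ^ 2 ≤ (∫⁻ x, ‖k x‖ₑ) ^ 2 * ∫⁻ z : ST n, ‖u z‖ₑ ^ 2 := by
    refine le_trans (lintegral_mono fun z => ?_) (spc_lint_le hk hu)
    refine pow_le_pow_left' ?_ 2
    refine (enorm_integral_le_lintegral_enorm _).trans (le_of_eq ?_)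
    exact lintegral_congr fun y => enorm_smul _ _
  rw [lint_sq_eq, lint_sq_eq, ← mul_pow] at h1
  exact (ENNReal.pow_le_pow_left_iff two_ne_zero).1 h1

theorem spc_memLp {k : Eu n → ℝ} {u : ST n → E} (hk : Integrable k) (hu : MemLp u 2) :
    MemLp (spc k u) 2 :=
  ⟨spc_aesm hk.1 hu.1, (spc_eLpNorm_le hk.1 hu.1).trans_lt (ENNReal.mul_lt_top hk.2 hu.2)⟩

theorem spc_sub {k : Eu n → ℝ} {u w : ST n → E} (hk : Integrable k) (hu : MemLp u 2)
    (hw : MemLp w 2) : spc k (fun z => u z - w z) =ᵐ[volume] fun z => spc k u z - spc k w z := by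
  filter_upwards [spc_ae_integrable hk hu, spc_ae_integrable hk hw] with z h1 h2
  simp only [spc]
  rw [← integral_sub h1 h2]
  exact integral_congr_ae (Eventually.of_forall fun y => by simp only [smul_sub])

theorem spc_sub_le {k : Eu n → ℝ} {u w : ST n → E} (hk : Integrable k) (hu : MemLp u 2)
    (hw : MemLp w 2) : eLpNorm (fun z => spc k u z - spc k w z) 2 volume ≤
      (∫⁻ x, ‖k x‖ₑ) * eLpNorm (fun z => u z - w z) 2 volume := by
  rw [← eLpNorm_congr_ae (spc_sub hk hu hw)]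
  exact spc_eLpNorm_le hk.1 (hu.1.sub hw.1)

end Pool.Agent.Helper42.Jef
end

section
/-! # Truncations `bk k x = x / √(1 + |x|²/k²)` -/

open MeasureTheory Set Filter Topology
open scoped ENNReal ContDiff

open Pool.Agent.Helper42.Jef

namespace Pool.Agent.Helper22.Jef

variable {E : Type*} [NormedAddCommGroup E] [InnerProductSpace ℝ E]

/-- the scalar factor -/
noncomputable def gk (k : ℝ) (x : E) : ℝ := (Real.sqrt (1 + ‖x‖ ^ 2 / k ^ 2))⁻¹

theorem bk_eq (k : ℝ) (x : E) : bk k x = gk k x • x := rfl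

omit [InnerProductSpace ℝ E] in
theorem gk_arg_pos (k : ℝ) (x : E) : 0 < 1 + ‖x‖ ^ 2 / k ^ 2 := by positivity

omit [InnerProductSpace ℝ E] in
theorem gk_pos (k : ℝ) (x : E) : 0 < gk k x := by
  unfold gk; positivity

theorem gk_sq (k : ℝ) (x : E) : gk k x ^ 2 = (1 + ‖x‖ ^ 2 / k ^ 2)⁻¹ := by
  unfold gk
  rw [inv_pow, Real.sq_sqrt (gk_arg_pos k x).le]

theorem gk_sq_mul (k : ℝ) (x : E) : gk k x ^ 2 * (1 + ‖x‖ ^ 2 / k ^ 2) = 1 := by
  rw [gk_sq, inv_mul_cancel₀ (gk_arg_pos k x).ne']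

theorem gk_le_one (k : ℝ) (x : E) : gk k x ≤ 1 := by
  have h1 := gk_sq_mul k x
  have h2 : 0 ≤ ‖x‖ ^ 2 / k ^ 2 := by positivity
  have h3 : gk k x ^ 2 ≤ 1 := by nlinarith [sq_nonneg (gk k x)]
  nlinarith [gk_pos k x]

theorem gk_mul_le (k : ℝ) (x : E) : gk k x ^ 2 * (‖x‖ ^ 2 / k ^ 2) ≤ 1 := by
  have h1 := gk_sq_mul k x
  nlinarith [sq_nonneg (gk k x)]

theorem gk_mul_norm_le (k : ℝ) (x : E) (hk : 0 < k) : gk k x * (‖x‖ / k) ≤ 1 := by
  have h1 := gk_mul_le k x
  have h2 : 0 ≤ gk k x * (‖x‖ / k) := by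
    have := (gk_pos k x).le
    positivity
  have h3 : (gk k x * (‖x‖ / k)) ^ 2 ≤ 1 := by
    rw [mul_pow, div_pow]; exact h1
  nlinarith

theorem norm_bk (k : ℝ) (x : E) : ‖bk k x‖ = gk k x * ‖x‖ := by
  rw [bk_eq, norm_smul, Real.norm_of_nonneg (gk_pos k x).le]

theorem norm_bk_sq (k : ℝ) (x : E) : ‖bk k x‖ ^ 2 = ‖x‖ ^ 2 / (1 + ‖x‖ ^ 2 / k ^ 2) := by
  rw [norm_bk, mul_pow, gk_sq]
  field_simp

theorem bk_norm_le (k : ℝ) (x : E) : ‖bk k x‖ ≤ ‖x‖ := by
  rw [norm_bk]
  exact mul_le_of_le_one_left (norm_nonneg _) (gk_le_one k x)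

theorem bk_norm_le_k {k : ℝ} (hk : 0 < k) (x : E) : ‖bk k x‖ ≤ k := by
  rw [norm_bk]
  have h1 := gk_mul_norm_le k x hk
  rw [← mul_div_assoc, div_le_one hk] at h1
  exact h1

theorem gk_hasFDerivAt {k : ℝ} (x : E) :
    HasFDerivAt (gk k : E → ℝ) ((-(gk k x ^ 3 / k ^ 2)) • innerSL ℝ x) x := by
  have h1 : HasFDerivAt (fun y : E => 1 + ‖y‖ ^ 2 / k ^ 2) ((2 / k ^ 2) • innerSL ℝ x) x := by
    have h2 : HasFDerivAt (fun y : E => ‖y‖ ^ 2) (2 • innerSL ℝ x) x :=
      (hasStrictFDerivAt_norm_sq x).hasFDerivAt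
    have h3 := (h2.const_mul ((k ^ 2)⁻¹)).const_add 1
    have h4 : (fun y : E => 1 + ‖y‖ ^ 2 / k ^ 2) = fun y : E => 1 + (k ^ 2)⁻¹ * ‖y‖ ^ 2 := by
      funext y; rw [div_eq_inv_mul]
    rw [h4]
    refine h3.congr_fderiv ?_
    ext y
    simp
    ring
  have hpos := gk_arg_pos k x
  have h5 : HasDerivAt (fun s : ℝ => (Real.sqrt s)⁻¹)
      (-(1 / (2 * Real.sqrt (1 + ‖x‖ ^ 2 / k ^ 2))) / Real.sqrt (1 + ‖x‖ ^ 2 / k ^ 2) ^ 2)
      (1 + ‖x‖ ^ 2 / k ^ 2) :=
    (Real.hasDerivAt_sqrt hpos.ne').inv (Real.sqrt_ne_zero'.mpr hpos)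
  have h6 := h5.comp_hasFDerivAt x h1
  refine h6.congr_fderiv ?_
  rw [smul_smul]
  congr 1
  unfold gk
  have hs : Real.sqrt (1 + ‖x‖ ^ 2 / k ^ 2) ≠ 0 := Real.sqrt_ne_zero'.mpr hpos
  generalize Real.sqrt (1 + ‖x‖ ^ 2 / k ^ 2) = s at hs
  by_cases hk : k = 0
  · subst hk; simp
  · field_simp

theorem gk_contDiff (k : ℝ) : ContDiff ℝ ∞ (gk k : E → ℝ) := by
  unfold gk
  refine ContDiff.inv ?_ (fun x => Real.sqrt_ne_zero'.mpr (gk_arg_pos k x))
  refine ContDiff.sqrt ?_ (fun x => (gk_arg_pos k x).ne')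
  exact contDiff_const.add ((contDiff_norm_sq ℝ).div_const _)

theorem bk_contDiff (k : ℝ) : ContDiff ℝ ∞ (bk k : E → E) :=
  (gk_contDiff k).smul contDiff_id

theorem bk_hasFDerivAt (k : ℝ) (x : E) :
    HasFDerivAt (bk k : E → E)
      (gk k x • ContinuousLinearMap.id ℝ E +
        ((-(gk k x ^ 3 / k ^ 2)) • innerSL ℝ x).smulRight x) x :=
  (gk_hasFDerivAt x).smul (hasFDerivAt_id x)

theorem bk_fderiv (k : ℝ) (x h : E) :
    fderiv ℝ (bk k) x h = gk k x • h - (gk k x ^ 3 / k ^ 2 * inner ℝ x h) • x := by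
  rw [(bk_hasFDerivAt k x).fderiv]
  simp [sub_eq_add_neg]

theorem bk_fderiv_apply_norm (k : ℝ) (x h : E) : ‖fderiv ℝ (bk k) x h‖ ≤ ‖h‖ := by
  have hg := gk_pos k x
  have hg1 := gk_le_one k x
  have h1 : ‖fderiv ℝ (bk k) x h‖ ^ 2 ≤ ‖h‖ ^ 2 := by
    rw [bk_fderiv, norm_sub_sq_real, norm_smul, norm_smul, real_inner_smul_left,
      real_inner_smul_right, mul_pow, mul_pow, Real.norm_eq_abs, Real.norm_eq_abs, sq_abs, sq_abs,
      real_inner_comm x h]
    set g := gk k x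
    set p := inner ℝ x h
    have h2 := gk_mul_le k x
    have h3 : g ^ 2 * ‖h‖ ^ 2 - 2 * (g * (g ^ 3 / k ^ 2 * p * p)) +
        (g ^ 3 / k ^ 2 * p) ^ 2 * ‖x‖ ^ 2 =
        g ^ 2 * (‖h‖ ^ 2 - (g ^ 2 * p ^ 2 / k ^ 2) * (2 - g ^ 2 * (‖x‖ ^ 2 / k ^ 2))) := by
      by_cases hk : k = 0
      · subst hk; simp
      · field_simp
        ring
    have h4 : 0 ≤ (g ^ 2 * p ^ 2 / k ^ 2) * (2 - g ^ 2 * (‖x‖ ^ 2 / k ^ 2)) := by
      apply mul_nonneg (by positivity)
      have : g ^ 2 * (‖x‖ ^ 2 / k ^ 2) ≤ 1 := h2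
      linarith
    rw [h3]
    have h5 : g ^ 2 ≤ 1 := by nlinarith
    calc g ^ 2 * (‖h‖ ^ 2 - (g ^ 2 * p ^ 2 / k ^ 2) * (2 - g ^ 2 * (‖x‖ ^ 2 / k ^ 2)))
        ≤ g ^ 2 * ‖h‖ ^ 2 := by
          apply mul_le_mul_of_nonneg_left _ (by positivity)
          linarith
      _ ≤ 1 * ‖h‖ ^ 2 := by
          apply mul_le_mul_of_nonneg_right h5 (by positivity)
      _ = ‖h‖ ^ 2 := one_mul _
  exact (sq_le_sq₀ (norm_nonneg _) (norm_nonneg _)).mp h1

theorem bk_fderiv_norm (k : ℝ) (x : E) : ‖fderiv ℝ (bk k) x‖ ≤ 1 :=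
  ContinuousLinearMap.opNorm_le_bound _ zero_le_one
    (fun h => by rw [one_mul]; exact bk_fderiv_apply_norm k x h)

theorem bk_lip (k : ℝ) (x y : E) : ‖bk k x - bk k y‖ ≤ ‖x - y‖ := by
  have h := Convex.norm_image_sub_le_of_norm_fderiv_le (𝕜 := ℝ) (f := (bk k : E → E)) (s := univ)
    (C := 1) (fun z _ => (bk_hasFDerivAt k z).differentiableAt) (fun z _ => bk_fderiv_norm k z)
    convex_univ (mem_univ y) (mem_univ x)
  rwa [one_mul] at h

theorem gk_anti {k l : ℝ} (hk : 0 < k) (hkl : k ≤ l) (x : E) : gk k x ≤ gk l x := by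
  unfold gk
  apply inv_anti₀ (Real.sqrt_pos.mpr (gk_arg_pos l x))
  apply Real.sqrt_le_sqrt
  have : ‖x‖ ^ 2 / l ^ 2 ≤ ‖x‖ ^ 2 / k ^ 2 := by
    apply div_le_div_of_nonneg_left (by positivity) (by positivity)
    exact pow_le_pow_left₀ hk.le hkl 2
  linarith

theorem bk_mono {k l : ℝ} (hk : 0 < k) (hkl : k ≤ l) (x : E) : ‖bk k x‖ ≤ ‖bk l x‖ := by
  rw [norm_bk, norm_bk]
  exact mul_le_mul_of_nonneg_right (gk_anti hk hkl x) (norm_nonneg _)

theorem bk_diff_sq {k l : ℝ} (hk : 0 < k) (hkl : k ≤ l) (x : E) :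
    ‖bk l x - bk k x‖ ^ 2 ≤ ‖bk l x‖ ^ 2 - ‖bk k x‖ ^ 2 := by
  have h1 := gk_anti hk hkl x
  have h2 := gk_pos k x
  have h3 : bk l x - bk k x = (gk l x - gk k x) • x := by
    rw [bk_eq, bk_eq, sub_smul]
  rw [h3, norm_smul, norm_bk, norm_bk, Real.norm_of_nonneg (by linarith)]
  have h4 : 0 ≤ ‖x‖ ^ 2 * (gk k x * (gk l x - gk k x)) := by
    apply mul_nonneg (by positivity)
    exact mul_nonneg h2.le (by linarith)
  nlinarith

theorem gk_one_sub_le {k : ℝ} (hk : 0 < k) (x : E) : 1 - gk k x ≤ ‖x‖ / k := by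
  have hρ : 0 ≤ ‖x‖ / k := by positivity
  have h1 := gk_sq_mul k x
  have h2 := gk_pos k x
  rw [← div_pow] at h1
  set ρ := ‖x‖ / k
  set g := gk k x
  -- `g (1 + ρ) ≥ 1`
  have h3 : 1 ≤ (g * (1 + ρ)) ^ 2 := by
    have : (g * (1 + ρ)) ^ 2 = g ^ 2 * (1 + ρ ^ 2) + 2 * (g ^ 2 * ρ) := by ring
    rw [this, h1]
    have : 0 ≤ g ^ 2 * ρ := by positivity
    linarith
  have h4 : 0 ≤ g * (1 + ρ) := by positivity
  have h5 : 1 ≤ g * (1 + ρ) := by nlinarith
  have h6 := gk_le_one k x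
  have h7 : g * ρ ≤ ρ := by
    have : g ≤ 1 := h6
    nlinarith
  linarith

theorem bk_sub_le {k : ℝ} (hk : 0 < k) (x : E) : ‖x - bk k x‖ ≤ ‖x‖ ^ 2 / k := by
  have h1 := gk_one_sub_le hk x
  have h2 := gk_le_one k x
  have h3 : x - bk k x = (1 - gk k x) • x := by rw [bk_eq, sub_smul, one_smul]
  rw [h3, norm_smul, Real.norm_of_nonneg (by linarith)]
  calc (1 - gk k x) * ‖x‖ ≤ (‖x‖ / k) * ‖x‖ := mul_le_mul_of_nonneg_right h1 (norm_nonneg _)
    _ = ‖x‖ ^ 2 / k := by ring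

theorem bk_fderiv_sub_le {k : ℝ} (hk : 0 < k) (x h : E) :
    ‖fderiv ℝ (bk k) x h - h‖ ≤ 2 * (‖x‖ / k) * ‖h‖ := by
  have hg := gk_pos k x
  have hg1 := gk_le_one k x
  have h1 := gk_one_sub_le hk x
  have h2 := gk_mul_norm_le k x hk
  have hρ : 0 ≤ ‖x‖ / k := by positivity
  have e : fderiv ℝ (bk k) x h - h =
      -((1 - gk k x) • h + (gk k x ^ 3 / k ^ 2 * inner ℝ x h) • x) := by
    rw [bk_fderiv, sub_smul, one_smul]; abel
  rw [e, norm_neg]
  refine (norm_add_le _ _).trans ?_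
  rw [norm_smul, norm_smul, Real.norm_of_nonneg (by linarith : (0 : ℝ) ≤ 1 - gk k x)]
  have h3 : ‖gk k x ^ 3 / k ^ 2 * inner ℝ x h‖ * ‖x‖ ≤ (‖x‖ / k) * ‖h‖ := by
    rw [norm_mul, Real.norm_of_nonneg (by positivity : (0 : ℝ) ≤ gk k x ^ 3 / k ^ 2)]
    have h4 : ‖inner ℝ x h‖ ≤ ‖x‖ * ‖h‖ := by
      rw [Real.norm_eq_abs]; exact abs_real_inner_le_norm x h
    calc gk k x ^ 3 / k ^ 2 * ‖inner ℝ x h‖ * ‖x‖
        ≤ gk k x ^ 3 / k ^ 2 * (‖x‖ * ‖h‖) * ‖x‖ := by gcongr
      _ = (gk k x * (gk k x * (‖x‖ / k))) * (gk k x * (‖x‖ / k) * ‖h‖) := by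
          field_simp
      _ ≤ (1 * 1) * (1 * (‖x‖ / k) * ‖h‖) := by
          gcongr
      _ = (‖x‖ / k) * ‖h‖ := by ring
  have h5 : (1 - gk k x) * ‖h‖ ≤ (‖x‖ / k) * ‖h‖ :=
    mul_le_mul_of_nonneg_right h1 (norm_nonneg _)
  linarith

theorem bk_fderiv_sub_le_two (k : ℝ) (x h : E) :
    ‖fderiv ℝ (bk k) x h - h‖ ≤ 2 * ‖h‖ := by
  have := norm_sub_le (fderiv ℝ (bk k) x h) h
  have h2 := bk_fderiv_apply_norm k x h
  linarith

theorem bk_big {l j : ℝ} (hl : 0 < l) {x : E} (hx : 2 * l ≤ ‖x‖) (hj : 2 * l ≤ j) :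
    ‖bk j x‖ ^ 2 ≤ 2 * (‖bk j x‖ ^ 2 - ‖bk l x‖ ^ 2) := by
  have hj0 : 0 < j := by linarith
  have hmain : 2 * ‖bk l x‖ ^ 2 ≤ ‖bk j x‖ ^ 2 := by
    rw [norm_bk_sq, norm_bk_sq]
    set r := ‖x‖
    have hr : 0 < r := by linarith
    have h1 : 2 * (1 + r ^ 2 / j ^ 2) ≤ 1 + r ^ 2 / l ^ 2 := by
      have h2 : 4 ≤ r ^ 2 / l ^ 2 := by
        rw [le_div_iff₀ (by positivity)]
        nlinarith
      have h3 : r ^ 2 / j ^ 2 ≤ r ^ 2 / l ^ 2 / 4 := by
        rw [div_div]
        apply div_le_div_of_nonneg_left (by positivity) (by positivity)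
        nlinarith
      linarith
    rw [mul_div_assoc', div_le_div_iff₀ (by positivity) (by positivity)]
    nlinarith [sq_nonneg r]
  linarith

theorem bk_sq_hasFDerivAt (k : ℝ) (x : E) :
    HasFDerivAt (fun x : E => ‖bk k x‖ ^ 2)
      (2 • (innerSL ℝ (bk k x)).comp (fderiv ℝ (bk k) x)) x := by
  have h1 : HasFDerivAt (bk k : E → E) (fderiv ℝ (bk k) x) x :=
    (bk_hasFDerivAt k x).differentiableAt.hasFDerivAt
  exact h1.norm_sq

theorem bk_sq_fderiv (k : ℝ) (x h : E) :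
    fderiv ℝ (fun x : E => ‖bk k x‖ ^ 2) x h = 2 * inner ℝ (bk k x) (fderiv ℝ (bk k) x h) := by
  rw [(bk_sq_hasFDerivAt k x).fderiv]
  simp

theorem bk_sq_contDiff (k : ℝ) : ContDiff ℝ ∞ (fun x : E => ‖bk k x‖ ^ 2) :=
  (bk_contDiff k).norm_sq ℝ

theorem bk_sq_fderiv_le {k : ℝ} (hk : 0 < k) (x h : E) :
    |fderiv ℝ (fun x : E => ‖bk k x‖ ^ 2) x h| ≤ 2 * k * ‖h‖ := by
  rw [bk_sq_fderiv, abs_mul, abs_two]
  have h1 := abs_real_inner_le_norm (bk k x) (fderiv ℝ (bk k) x h)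
  have h2 := bk_norm_le_k hk x
  have h3 := bk_fderiv_apply_norm k x h
  have h4 : ‖bk k x‖ * ‖fderiv ℝ (bk k) x h‖ ≤ k * ‖h‖ :=
    mul_le_mul h2 h3 (norm_nonneg _) hk.le
  nlinarith

theorem bk_sq_fderiv_norm {k : ℝ} (hk : 0 < k) (x : E) :
    ‖fderiv ℝ (fun x : E => ‖bk k x‖ ^ 2) x‖ ≤ 2 * k :=
  ContinuousLinearMap.opNorm_le_bound _ (by positivity)
    (fun h => by rw [Real.norm_eq_abs]; exact bk_sq_fderiv_le hk x h)

end Pool.Agent.Helper22.Jef
end

section
/-! # Truncated weak limits -/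

open MeasureTheory Set Filter Topology
open scoped ENNReal

open Pool.Agent.Helper42.Jef

namespace Pool.Agent.Helper22.Jef

section basic

variable {α : Type*} [MeasurableSpace α] {μ : Measure α}
variable {E : Type*} [NormedAddCommGroup E] [InnerProductSpace ℝ E]

theorem l2_inner {f g : α → E} (hf : MemLp f 2 μ) (hg : MemLp g 2 μ) :
    Integrable (fun x => inner ℝ (f x) (g x)) μ := by
  have h := hf.norm.integrable_mul hg.norm
  exact h.mono' (hf.1.inner hg.1) (Eventually.of_forall fun x => norm_inner_le_norm _ _)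

omit [InnerProductSpace ℝ E] in
theorem l2_sq {f : α → E} (hf : MemLp f 2 μ) : Integrable (fun x => ‖f x‖ ^ 2) μ :=
  (memLp_two_iff_integrable_sq_norm hf.1).mp hf

omit [InnerProductSpace ℝ E] in
theorem lint_sq (f : α → E) : ∫⁻ x, ‖f x‖ₑ ^ 2 ∂μ = eLpNorm f 2 μ ^ 2 := by
  have := eLpNorm_nnreal_pow_eq_lintegral (f := f) (μ := μ) (p := 2) two_ne_zero
  have h2 : ((2 : NNReal) : ℝ≥0∞) = 2 := rfl
  rw [h2] at this
  simp only [NNReal.coe_ofNat, ENNReal.rpow_ofNat] at this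
  exact this.symm

omit [InnerProductSpace ℝ E] in
theorem int_sq_le {f : α → E} (hf : MemLp f 2 μ) {C : ℝ} (hC : 0 ≤ C)
    (h : eLpNorm f 2 μ ≤ ENNReal.ofReal C) : ∫ x, ‖f x‖ ^ 2 ∂μ ≤ C ^ 2 := by
  have h1 : ENNReal.ofReal (∫ x, ‖f x‖ ^ 2 ∂μ) = ∫⁻ x, ‖f x‖ₑ ^ 2 ∂μ := by
    rw [ofReal_integral_eq_lintegral_ofReal (l2_sq hf)
      (Eventually.of_forall fun x => by positivity)]
    refine lintegral_congr (fun x => ?_)
    rw [ENNReal.ofReal_pow (norm_nonneg _), ofReal_norm]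
  rw [lint_sq] at h1
  have h2 : ENNReal.ofReal (∫ x, ‖f x‖ ^ 2 ∂μ) ≤ ENNReal.ofReal (C ^ 2) := by
    rw [h1, ENNReal.ofReal_pow hC]
    gcongr
  exact (ENNReal.ofReal_le_ofReal_iff (by positivity)).mp h2

omit [InnerProductSpace ℝ E] in
theorem l2_integrableOn {f : α → E} (hf : MemLp f 2 μ) {B : Set α} (hB : μ B < ⊤) :
    IntegrableOn f B μ := by
  have : IsFiniteMeasure (μ.restrict B) := ⟨by simpa using hB⟩
  exact (hf.restrict B).integrable (by norm_num)

theorem wc_set_inner {f : ℕ → α → E} {F : α → E} (h : WC μ f F) {G : α → E} (hG : MemLp G 2 μ)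
    {B : Set α} (hB : MeasurableSet B) :
    Tendsto (fun m => ∫ x in B, inner ℝ (f m x) (G x) ∂μ) atTop
      (𝓝 (∫ x in B, inner ℝ (F x) (G x) ∂μ)) := by
  have h1 := h.conv (B.indicator G) (hG.indicator hB)
  have h2 : ∀ H : α → E, ∫ x, inner ℝ (H x) (B.indicator G x) ∂μ =
      ∫ x in B, inner ℝ (H x) (G x) ∂μ := by
    intro H
    rw [← integral_indicator hB]
    congr 1
    funext x
    by_cases hx : x ∈ B <;> simp [hx]
  simp only [h2] at h1
  exact h1

theorem wc_set_inner_const {f : ℕ → α → E} {F : α → E} (h : WC μ f F) (e : E)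
    {B : Set α} (hB : MeasurableSet B) (hB' : μ B < ⊤) :
    Tendsto (fun m => ∫ x in B, inner ℝ (f m x) e ∂μ) atTop
      (𝓝 (∫ x in B, inner ℝ (F x) e ∂μ)) := by
  have h1 := wc_set_inner h (memLp_indicator_const 2 hB e (Or.inr hB'.ne)) hB
  have h2 : ∀ H : α → E, ∫ x in B, inner ℝ (H x) (B.indicator (fun _ => e) x) ∂μ =
      ∫ x in B, inner ℝ (H x) e ∂μ := by
    intro H
    refine setIntegral_congr_fun hB (fun x hx => ?_)
    simp [hx]
  simp only [h2] at h1
  exact h1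

theorem wc_set_real {f : ℕ → α → ℝ} {F : α → ℝ} (h : WC μ f F)
    {B : Set α} (hB : MeasurableSet B) (hB' : μ B < ⊤) :
    Tendsto (fun m => ∫ x in B, f m x ∂μ) atTop (𝓝 (∫ x in B, F x ∂μ)) := by
  have h1 := wc_set_inner_const h 1 hB hB'
  simpa using h1

theorem wc_sub {f g : ℕ → α → E} {F G : α → E} (hf : WC μ f F) (hg : WC μ g G) :
    WC μ (fun m x => f m x - g m x) (fun x => F x - G x) where
  mem m := (hf.mem m).sub (hg.mem m)
  bdd := by
    obtain ⟨C, hC⟩ := hf.bdd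
    obtain ⟨D, hD⟩ := hg.bdd
    refine ⟨max C 0 + max D 0, fun m => ?_⟩
    refine (eLpNorm_sub_le (hf.mem m).1 (hg.mem m).1 (by norm_num)).trans ?_
    rw [ENNReal.ofReal_add (le_max_right _ _) (le_max_right _ _)]
    exact add_le_add ((hC m).trans (ENNReal.ofReal_le_ofReal (le_max_left _ _)))
      ((hD m).trans (ENNReal.ofReal_le_ofReal (le_max_left _ _)))
  memU := hf.memU.sub hg.memU
  conv g' hg' := by
    have h1 := (hf.conv g' hg').sub (hg.conv g' hg')
    have h2 : ∀ H K : α → E, MemLp H 2 μ → MemLp K 2 μ →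
        ∫ x, inner ℝ (H x - K x) (g' x) ∂μ =
          ∫ x, inner ℝ (H x) (g' x) ∂μ - ∫ x, inner ℝ (K x) (g' x) ∂μ := by
      intro H K hH hK
      rw [← integral_sub (l2_inner hH hg') (l2_inner hK hg')]
      congr 1
      funext x
      rw [inner_sub_left]
    rw [h2 F G hf.memU hg.memU]
    refine h1.congr (fun m => ?_)
    rw [h2 _ _ (hf.mem m) (hg.mem m)]

theorem cmp_sq [SigmaFinite μ] {f : ℕ → α → E} {F : α → E} {s : ℕ → α → ℝ} {S : α → ℝ}
    (hf : WC μ f F) (hs : WC μ s S) (h : ∀ m x, ‖f m x‖ ^ 2 ≤ s m x) :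
    ∀ᵐ x ∂μ, ‖F x‖ ^ 2 ≤ S x := by
  have h0 : 0 ≤ᵐ[μ] fun x => S x - ‖F x‖ ^ 2 := by
    apply ae_nonneg_of_forall_setIntegral_nonneg_of_sigmaFinite
    · intro B hB hB'
      exact (l2_integrableOn hs.memU hB').sub (l2_sq hf.memU).integrableOn
    · intro B hB hB'
      have hSi := l2_integrableOn hs.memU hB'
      have hFi : IntegrableOn (fun x => ‖F x‖ ^ 2) B μ := (l2_sq hf.memU).integrableOn
      rw [integral_sub hSi hFi]
      have h1 := wc_set_real hs hB hB'
      have h2 := wc_set_inner hf hf.memU hB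
      have h3 : Tendsto (fun m => ∫ x in B, s m x ∂μ - 2 * ∫ x in B, inner ℝ (f m x) (F x) ∂μ +
          ∫ x in B, ‖F x‖ ^ 2 ∂μ) atTop (𝓝 (∫ x in B, S x ∂μ -
          2 * ∫ x in B, inner ℝ (F x) (F x) ∂μ + ∫ x in B, ‖F x‖ ^ 2 ∂μ)) :=
        (h1.sub (h2.const_mul 2)).add_const _
      have h4 : ∫ x in B, S x ∂μ - 2 * ∫ x in B, inner ℝ (F x) (F x) ∂μ +
          ∫ x in B, ‖F x‖ ^ 2 ∂μ = ∫ x in B, S x ∂μ - ∫ x in B, ‖F x‖ ^ 2 ∂μ := by
        simp only [real_inner_self_eq_norm_sq]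
        ring
      rw [h4] at h3
      refine ge_of_tendsto' h3 (fun m => ?_)
      have i1 : IntegrableOn (fun x => s m x) B μ := l2_integrableOn (hs.mem m) hB'
      have i2 : IntegrableOn (fun x => inner ℝ (f m x) (F x)) B μ :=
        (l2_inner (hf.mem m) hf.memU).integrableOn
      have i3 : IntegrableOn (fun x => s m x - 2 * inner ℝ (f m x) (F x)) B μ :=
        i1.sub (i2.const_mul 2)
      rw [← integral_const_mul, ← integral_sub i1 (i2.const_mul 2), ← integral_add i3 hFi]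
      refine integral_nonneg (fun x => ?_)
      have h5 : ‖f m x - F x‖ ^ 2 = ‖f m x‖ ^ 2 - 2 * inner ℝ (f m x) (F x) + ‖F x‖ ^ 2 :=
        norm_sub_sq_real _ _
      have h6 := h m x
      have h7 : 0 ≤ ‖f m x - F x‖ ^ 2 := by positivity
      simp only [Pi.zero_apply]
      linarith
  filter_upwards [h0] with x hx
  simp only [Pi.zero_apply] at hx
  linarith

theorem cmp_le [SigmaFinite μ] {f g : ℕ → α → ℝ} {F G : α → ℝ}
    (hf : WC μ f F) (hg : WC μ g G) (h : ∀ m x, f m x ≤ g m x) : ∀ᵐ x ∂μ, F x ≤ G x := by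
  have h0 : 0 ≤ᵐ[μ] fun x => G x - F x := by
    apply ae_nonneg_of_forall_setIntegral_nonneg_of_sigmaFinite
    · intro B hB hB'
      exact (l2_integrableOn hg.memU hB').sub (l2_integrableOn hf.memU hB')
    · intro B hB hB'
      refine ge_of_tendsto' (wc_set_real (wc_sub hg hf) hB hB') (fun m => ?_)
      exact integral_nonneg (fun x => sub_nonneg.mpr (h m x))
  filter_upwards [h0] with x hx
  simp only [Pi.zero_apply] at hx
  linarith

theorem cmp_const [SigmaFinite μ] {f : ℕ → α → ℝ} {F : α → ℝ}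
    (hf : WC μ f F) {c : ℝ} (h : ∀ m x, f m x ≤ c) : ∀ᵐ x ∂μ, F x ≤ c := by
  have h0 : 0 ≤ᵐ[μ] fun x => c - F x := by
    apply ae_nonneg_of_forall_setIntegral_nonneg_of_sigmaFinite
    · intro B hB hB'
      exact (integrableOn_const hB'.ne).sub (l2_integrableOn hf.memU hB')
    · intro B hB hB'
      have h1 := (wc_set_real hf hB hB').const_sub (∫ _ in B, c ∂μ)
      have hc : IntegrableOn (fun _ => c) B μ := integrableOn_const hB'.ne
      rw [integral_sub hc (l2_integrableOn hf.memU hB')]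
      refine ge_of_tendsto' h1 (fun m => ?_)
      rw [← integral_sub hc (l2_integrableOn (hf.mem m) hB')]
      exact integral_nonneg (fun x => sub_nonneg.mpr (h m x))
  filter_upwards [h0] with x hx
  simp only [Pi.zero_apply] at hx
  linarith

end basic

section main

variable {α : Type*} [MeasurableSpace α] {μ : Measure α}
variable {E : Type*} [NormedAddCommGroup E] [InnerProductSpace ℝ E] [FiniteDimensional ℝ E]
  [MeasurableSpace E] [BorelSpace E]

theorem tv_main [SigmaFinite μ] {u : ℕ → α → E} {U : α → E} {uk : ℕ → α → E} {ak : ℕ → α → ℝ}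
    (h : TV μ u U uk ak) :
    ∃ A : α → ℝ, Integrable A μ ∧
      (∀ᵐ x ∂μ, ∀ k, ‖uk k x‖ ^ 2 ≤ ak k x ∧ ak k x ≤ ak (k + 1) x ∧ ak k x ≤ A x ∧
        ‖uk k x‖ ≤ k + 1 ∧ ak k x ≤ ((k : ℝ) + 1) ^ 2) ∧
      (∀ᵐ x ∂μ, Tendsto (fun k => ak k x) atTop (𝓝 (A x))) ∧
      (∀ᵐ x ∂μ, Tendsto (fun k => uk k x) atTop (𝓝 (U x))) ∧
      (∀ᵐ x ∂μ, ‖U x‖ ^ 2 ≤ A x) ∧
      (∀ k, Integrable (ak k) μ) ∧
      Tendsto (fun k => ∫ x, |A x - ak k x| ∂μ) atTop (𝓝 0) ∧
      Tendsto (fun k => eLpNorm (fun x => uk k x - U x) 2 μ) atTop (𝓝 0) := by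
  classical
  have hCompl : CompleteSpace E := FiniteDimensional.complete ℝ E
  have hkpos : ∀ k : ℕ, (0 : ℝ) < (k : ℝ) + 1 := fun k => by positivity
  -- the pointwise inequalities
  have hsq : ∀ᵐ x ∂μ, ∀ k, ‖uk k x‖ ^ 2 ≤ ak k x := by
    rw [ae_all_iff]
    intro k
    exact cmp_sq (h.wk k) (h.wa k) (fun m x => le_rfl)
  have hmono : ∀ᵐ x ∂μ, ∀ k, ak k x ≤ ak (k + 1) x := by
    rw [ae_all_iff]
    intro k
    refine cmp_le (h.wa k) (h.wa (k + 1)) (fun m x => ?_)
    apply pow_le_pow_left₀ (norm_nonneg _)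
    apply bk_mono (hkpos k)
    push_cast
    linarith
  have hconst : ∀ᵐ x ∂μ, ∀ k : ℕ, ak k x ≤ ((k : ℝ) + 1) ^ 2 := by
    rw [ae_all_iff]
    intro k
    refine cmp_const (h.wa k) (fun m x => ?_)
    exact pow_le_pow_left₀ (norm_nonneg _) (bk_norm_le_k (hkpos k) _) 2
  have hdiff : ∀ᵐ x ∂μ, ∀ k l : ℕ, k ≤ l → ‖uk l x - uk k x‖ ^ 2 ≤ ak l x - ak k x := by
    rw [ae_all_iff]
    intro k
    rw [ae_all_iff]
    intro l
    by_cases hkl : k ≤ l
    · have h1 := cmp_sq (wc_sub (h.wk l) (h.wk k)) (wc_sub (h.wa l) (h.wa k)) (fun m x => by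
        apply bk_diff_sq (hkpos k)
        have : (k : ℝ) ≤ l := by exact_mod_cast hkl
        linarith)
      filter_upwards [h1] with x hx _
      exact hx
    · exact Eventually.of_forall (fun x hkl' => absurd hkl' hkl)
  -- the uniform bound
  obtain ⟨C', hC'⟩ := h.w.bdd
  set C : ℝ := max C' 0 with hCdef
  have hC0 : 0 ≤ C := le_max_right _ _
  have hC : ∀ m, eLpNorm (u m) 2 μ ≤ ENNReal.ofReal C :=
    fun m => (hC' m).trans (ENNReal.ofReal_le_ofReal (le_max_left _ _))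
  have hCsq : ∀ m, ∫ x, ‖u m x‖ ^ 2 ∂μ ≤ C ^ 2 := fun m => int_sq_le (h.w.mem m) hC0 (hC m)
  have hlint : ∀ k, ∫⁻ x, ENNReal.ofReal (ak k x) ∂μ ≤ ENNReal.ofReal (C ^ 2) := by
    intro k
    have hB : ∀ B, MeasurableSet B → μ B < ⊤ →
        ∫⁻ x in B, ENNReal.ofReal (ak k x) ∂μ ≤ ENNReal.ofReal (C ^ 2) := by
      intro B hB hB'
      have hint := l2_integrableOn (h.wa k).memU hB'
      rw [← ofReal_integral_eq_lintegral_ofReal hint]
      · apply ENNReal.ofReal_le_ofReal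
        refine le_of_tendsto' (wc_set_real (h.wa k) hB hB') (fun m => ?_)
        have i1 : Integrable (fun x => ‖u m x‖ ^ 2) μ := l2_sq (h.w.mem m)
        calc ∫ x in B, ‖bk ((k : ℝ) + 1) (u m x)‖ ^ 2 ∂μ
            ≤ ∫ x in B, ‖u m x‖ ^ 2 ∂μ := by
              refine integral_mono (l2_integrableOn ((h.wa k).mem m) hB') i1.integrableOn
                (fun x => ?_)
              exact pow_le_pow_left₀ (norm_nonneg _) (bk_norm_le _ _) 2
          _ ≤ ∫ x, ‖u m x‖ ^ 2 ∂μ :=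
              setIntegral_le_integral i1 (Eventually.of_forall fun x => by positivity)
          _ ≤ C ^ 2 := hCsq m
      · refine ae_restrict_of_ae ?_
        filter_upwards [hsq] with x hx
        exact (by positivity : (0 : ℝ) ≤ ‖uk k x‖ ^ 2).trans (hx k)
    have huniv : ∫⁻ x, ENNReal.ofReal (ak k x) ∂μ =
        ⨆ i, ∫⁻ x in spanningSets μ i, ENNReal.ofReal (ak k x) ∂μ := by
      rw [← setLIntegral_univ, ← iUnion_spanningSets μ]
      exact setLIntegral_iUnion_of_directed _ (monotone_spanningSets μ).directed_le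
    rw [huniv]
    exact iSup_le (fun i => hB _ (measurableSet_spanningSets μ i) (measure_spanningSets_lt_top μ i))
  -- the limit
  let A' : α → ℝ≥0∞ := fun x => ⨆ k, ENNReal.ofReal (ak k x)
  have hakm : ∀ k, AEMeasurable (fun x => ENNReal.ofReal (ak k x)) μ :=
    fun k => (h.wa k).memU.1.aemeasurable.ennreal_ofReal
  have hA'm : AEMeasurable A' μ := AEMeasurable.iSup hakm
  have hA'lint : ∫⁻ x, A' x ∂μ ≤ ENNReal.ofReal (C ^ 2) := by
    have h1 : ∫⁻ x, A' x ∂μ = ⨆ k, ∫⁻ x, ENNReal.ofReal (ak k x) ∂μ := by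
      refine lintegral_iSup' hakm ?_
      filter_upwards [hmono] with x hx
      exact monotone_nat_of_le_succ (fun k => ENNReal.ofReal_le_ofReal (hx k))
    rw [h1]
    exact iSup_le hlint
  have hA'fin : ∫⁻ x, A' x ∂μ ≠ ⊤ := ne_top_of_le_ne_top ENNReal.ofReal_ne_top hA'lint
  let A : α → ℝ := fun x => (A' x).toReal
  have hAint : Integrable A μ := integrable_toReal_of_lintegral_ne_top hA'm hA'fin
  have hA'lt : ∀ᵐ x ∂μ, A' x < ⊤ := ae_lt_top' hA'm hA'fin
  have hnn : ∀ᵐ x ∂μ, ∀ k, 0 ≤ ak k x := by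
    filter_upwards [hsq] with x hx k
    exact (by positivity : (0 : ℝ) ≤ ‖uk k x‖ ^ 2).trans (hx k)
  have hleA : ∀ᵐ x ∂μ, ∀ k, ak k x ≤ A x := by
    filter_upwards [hA'lt, hnn] with x hx hx0 k
    have h1 : ENNReal.ofReal (ak k x) ≤ A' x := le_iSup (fun k => ENNReal.ofReal (ak k x)) k
    have h2 := ENNReal.toReal_mono hx.ne h1
    rwa [ENNReal.toReal_ofReal (hx0 k)] at h2
  have htend : ∀ᵐ x ∂μ, Tendsto (fun k => ak k x) atTop (𝓝 (A x)) := by
    filter_upwards [hA'lt, hnn, hmono] with x hx hx0 hxm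
    have h1 : Tendsto (fun k => ENNReal.ofReal (ak k x)) atTop (𝓝 (A' x)) :=
      tendsto_atTop_iSup (monotone_nat_of_le_succ (fun k => ENNReal.ofReal_le_ofReal (hxm k)))
    have h2 := (ENNReal.tendsto_toReal hx.ne).comp h1
    refine h2.congr (fun k => ?_)
    simp only [Function.comp_apply]
    exact ENNReal.toReal_ofReal (hx0 k)
  have hakint : ∀ k, Integrable (ak k) μ := by
    intro k
    refine hAint.mono' (h.wa k).memU.1 ?_
    filter_upwards [hleA, hnn] with x hx hx0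
    rw [Real.norm_of_nonneg (hx0 k)]
    exact hx k
  have hL1 : Tendsto (fun k => ∫ x, |A x - ak k x| ∂μ) atTop (𝓝 0) := by
    have h1 : Tendsto (fun k => ∫ x, |A x - ak k x| ∂μ) atTop (𝓝 (∫ _, (0 : ℝ) ∂μ)) := by
      refine tendsto_integral_of_dominated_convergence A ?_ hAint ?_ ?_
      · intro k
        exact (hAint.sub (hakint k)).abs.1
      · intro k
        filter_upwards [hleA, hnn] with x hx hx0
        rw [Real.norm_eq_abs, abs_abs, abs_of_nonneg (by linarith [hx k])]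
        linarith [hx0 k]
      · filter_upwards [htend] with x hx
        have h2 := (hx.const_sub (A x)).abs
        simpa using h2
    simpa using h1
  -- Cauchy property
  have hcau : ∀ᵐ x ∂μ, ∃ V : E, Tendsto (fun k => uk k x) atTop (𝓝 V) := by
    filter_upwards [hdiff, hleA, htend] with x hx hxA hxt
    have hb : Tendsto (fun k => 2 * Real.sqrt (A x - ak k x)) atTop (𝓝 0) := by
      have h1 : Tendsto (fun k => A x - ak k x) atTop (𝓝 0) := by
        have := hxt.const_sub (A x)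
        simpa using this
      have h2 := (h1.sqrt).const_mul 2
      simpa using h2
    have hd : ∀ N n, N ≤ n → dist (uk n x) (uk N x) ≤ Real.sqrt (A x - ak N x) := by
      intro N n hN
      rw [dist_eq_norm]
      apply Real.le_sqrt_of_sq_le
      have h1 := hx N n hN
      have h2 := hxA n
      linarith
    have hc : CauchySeq (fun k => uk k x) := by
      refine cauchySeq_of_le_tendsto_0 (fun k => 2 * Real.sqrt (A x - ak k x)) ?_ hb
      intro n m N hn hm
      calc dist (uk n x) (uk m x) ≤ dist (uk n x) (uk N x) + dist (uk m x) (uk N x) :=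
            dist_triangle_right _ _ _
        _ ≤ Real.sqrt (A x - ak N x) + Real.sqrt (A x - ak N x) :=
            add_le_add (hd N n hn) (hd N m hm)
        _ = 2 * Real.sqrt (A x - ak N x) := by ring
    exact cauchySeq_tendsto_of_complete hc
  let V : α → E := fun x => if hx : ∃ V : E, Tendsto (fun k => uk k x) atTop (𝓝 V) then
    hx.choose else 0
  have hV : ∀ᵐ x ∂μ, Tendsto (fun k => uk k x) atTop (𝓝 (V x)) := by
    filter_upwards [hcau] with x hx
    simp only [V, dif_pos hx]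
    exact hx.choose_spec
  have hVm : AEStronglyMeasurable V μ :=
    aestronglyMeasurable_of_tendsto_ae atTop (fun k => (h.wk k).memU.1) hV
  have hVA : ∀ᵐ x ∂μ, ‖V x‖ ^ 2 ≤ A x := by
    filter_upwards [hV, hsq, hleA] with x hx h1 h2
    refine le_of_tendsto' (hx.norm.pow 2) (fun k => (h1 k).trans (h2 k))
  have hVd : ∀ᵐ x ∂μ, ∀ k, ‖uk k x - V x‖ ^ 2 ≤ A x - ak k x := by
    filter_upwards [hV, hdiff, hleA] with x hx h1 h2 k
    have h3 : Tendsto (fun l => ‖uk k x - uk l x‖ ^ 2) atTop (𝓝 (‖uk k x - V x‖ ^ 2)) :=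
      ((hx.const_sub (uk k x)).norm).pow 2
    refine le_of_tendsto h3 ?_
    filter_upwards [eventually_ge_atTop k] with l hl
    rw [norm_sub_rev]
    have := h1 k l hl
    have := h2 l
    linarith
  -- strong convergence
  have hstrong : Tendsto (fun k => eLpNorm (fun x => uk k x - V x) 2 μ) atTop (𝓝 0) := by
    have h1 : ∀ k, eLpNorm (fun x => uk k x - V x) 2 μ ^ 2 ≤
        ENNReal.ofReal (∫ x, |A x - ak k x| ∂μ) := by
      intro k
      have i0 : Integrable (fun x => |A x - ak k x|) μ := (hAint.sub (hakint k)).abs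
      rw [← lint_sq, ofReal_integral_eq_lintegral_ofReal i0
        (Eventually.of_forall fun x => abs_nonneg _)]
      refine lintegral_mono_ae ?_
      filter_upwards [hVd] with x hx
      rw [← ofReal_norm, ← ENNReal.ofReal_pow (norm_nonneg _)]
      exact ENNReal.ofReal_le_ofReal ((hx k).trans (le_abs_self _))
    have h2 : Tendsto (fun k => eLpNorm (fun x => uk k x - V x) 2 μ ^ 2) atTop (𝓝 0) := by
      refine tendsto_of_tendsto_of_tendsto_of_le_of_le tendsto_const_nhds ?_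
        (fun k => zero_le) h1
      have h3 := ENNReal.tendsto_ofReal hL1
      simpa using h3
    have h4 : Tendsto (fun k => (eLpNorm (fun x => uk k x - V x) 2 μ ^ 2) ^ (1 / 2 : ℝ)) atTop
        (𝓝 (0 ^ (1 / 2 : ℝ))) := (ENNReal.continuous_rpow_const.tendsto _).comp h2
    have h5 : (0 : ℝ≥0∞) ^ (1 / 2 : ℝ) = 0 := ENNReal.zero_rpow_of_pos (by norm_num)
    rw [h5] at h4
    refine h4.congr (fun k => ?_)
    rw [← ENNReal.rpow_natCast, ← ENNReal.rpow_mul]
    norm_num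
  -- identification of the limit
  have hid : V =ᵐ[μ] U := by
    have hUint : ∀ B, μ B < ⊤ → IntegrableOn U B μ := fun B hB => l2_integrableOn h.w.memU hB
    have hukint : ∀ k B, μ B < ⊤ → IntegrableOn (uk k) B μ :=
      fun k B hB => l2_integrableOn (h.wk k).memU hB
    have hbound1 : ∀ᵐ x ∂μ, ‖V x‖ ≤ 1 + A x := by
      filter_upwards [hVA] with x hx
      nlinarith [sq_nonneg (‖V x‖ - 1), norm_nonneg (V x), sq_nonneg (‖V x‖)]
    have hdom : ∀ B, μ B < ⊤ → IntegrableOn (fun x => 1 + A x) B μ := fun B hB =>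
      (integrableOn_const hB.ne).add hAint.integrableOn
    have hVint : ∀ B, μ B < ⊤ → IntegrableOn V B μ := fun B hB =>
      (hdom B hB).mono' hVm.restrict (ae_restrict_of_ae hbound1)
    have hkey : ∀ B, MeasurableSet B → μ B < ⊤ → ∀ k : ℕ,
        ‖∫ x in B, (U x - uk k x) ∂μ‖ ≤ C ^ 2 / ((k : ℝ) + 1) := by
      intro B hB hB' k
      set w : E := ∫ x in B, (U x - uk k x) ∂μ with hw
      have i0 : IntegrableOn (fun x => U x - uk k x) B μ := (hUint B hB').sub (hukint k B hB')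
      have h1 : Tendsto (fun m => ∫ x in B, inner ℝ (u m x - bk ((k : ℝ) + 1) (u m x)) w ∂μ) atTop
          (𝓝 (∫ x in B, inner ℝ (U x - uk k x) w ∂μ)) :=
        wc_set_inner_const (wc_sub h.w (h.wk k)) w hB hB'
      have h2 : ∫ x in B, inner ℝ (U x - uk k x) w ∂μ = ‖w‖ ^ 2 := by
        have h3 : ∫ x in B, inner ℝ w (U x - uk k x) ∂μ = inner ℝ w w := integral_inner i0 w
        rw [← real_inner_self_eq_norm_sq, ← h3]
        congr 1
        funext x
        rw [real_inner_comm]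
      rw [h2] at h1
      have h4 : ‖w‖ ^ 2 ≤ (C ^ 2 / ((k : ℝ) + 1)) * ‖w‖ := by
        refine le_of_tendsto' h1 (fun m => ?_)
        have i1 : Integrable (fun x => ‖u m x‖ ^ 2) μ := l2_sq (h.w.mem m)
        have i2 : IntegrableOn (fun x => inner ℝ (u m x - bk ((k : ℝ) + 1) (u m x)) w) B μ := by
          have : IntegrableOn (fun x => u m x - bk ((k : ℝ) + 1) (u m x)) B μ :=
            (l2_integrableOn (h.w.mem m) hB').sub (l2_integrableOn ((h.wk k).mem m) hB')
          exact this.inner_const w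
        calc ∫ x in B, inner ℝ (u m x - bk ((k : ℝ) + 1) (u m x)) w ∂μ
            ≤ ∫ x in B, ‖w‖ / ((k : ℝ) + 1) * ‖u m x‖ ^ 2 ∂μ := by
              refine integral_mono i2 (i1.integrableOn.const_mul _) (fun x => ?_)
              have h5 := real_inner_le_norm (u m x - bk ((k : ℝ) + 1) (u m x)) w
              have h6 := bk_sub_le (hkpos k) (u m x)
              calc inner ℝ (u m x - bk ((k : ℝ) + 1) (u m x)) w
                  ≤ ‖u m x - bk ((k : ℝ) + 1) (u m x)‖ * ‖w‖ := h5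
                _ ≤ (‖u m x‖ ^ 2 / ((k : ℝ) + 1)) * ‖w‖ :=
                    mul_le_mul_of_nonneg_right h6 (norm_nonneg _)
                _ = ‖w‖ / ((k : ℝ) + 1) * ‖u m x‖ ^ 2 := by ring
          _ = ‖w‖ / ((k : ℝ) + 1) * ∫ x in B, ‖u m x‖ ^ 2 ∂μ := integral_const_mul _ _
          _ ≤ ‖w‖ / ((k : ℝ) + 1) * C ^ 2 := by
              apply mul_le_mul_of_nonneg_left _ (by have := hkpos k; positivity)
              exact (setIntegral_le_integral i1
                (Eventually.of_forall fun x => by positivity)).trans (hCsq m)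
          _ = (C ^ 2 / ((k : ℝ) + 1)) * ‖w‖ := by ring
      by_cases hw0 : ‖w‖ = 0
      · rw [hw0]
        have := hkpos k
        positivity
      · have hwpos : 0 < ‖w‖ := lt_of_le_of_ne (norm_nonneg _) (Ne.symm hw0)
        rw [pow_two] at h4
        exact le_of_mul_le_mul_right h4 hwpos
    have hzero : (fun x => U x - V x) =ᵐ[μ] 0 := by
      apply ae_eq_zero_of_forall_setIntegral_eq_of_sigmaFinite
      · intro B hB hB'
        exact (hUint B hB').sub (hVint B hB')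
      · intro B hB hB'
        have h1 : Tendsto (fun k => ∫ x in B, uk k x ∂μ) atTop (𝓝 (∫ x in B, V x ∂μ)) := by
          refine tendsto_integral_of_dominated_convergence (fun x => 1 + A x)
            (fun k => (hukint k B hB').1) (hdom B hB') ?_ (ae_restrict_of_ae hV)
          intro k
          refine ae_restrict_of_ae ?_
          filter_upwards [hsq, hleA] with x h2 h3
          nlinarith [sq_nonneg (‖uk k x‖ - 1), norm_nonneg (uk k x), h2 k, h3 k,
            sq_nonneg (‖uk k x‖)]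
        have h2 : Tendsto (fun k => ∫ x in B, (U x - uk k x) ∂μ) atTop
            (𝓝 (∫ x in B, U x ∂μ - ∫ x in B, V x ∂μ)) := by
          refine (h1.const_sub (∫ x in B, U x ∂μ)).congr (fun k => ?_)
          rw [integral_sub (hUint B hB') (hukint k B hB')]
        have h3 : Tendsto (fun k : ℕ => ∫ x in B, (U x - uk k x) ∂μ) atTop (𝓝 0) := by
          rw [tendsto_zero_iff_norm_tendsto_zero]
          refine tendsto_of_tendsto_of_tendsto_of_le_of_le tendsto_const_nhds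
            ?_ (fun k => norm_nonneg _) (hkey B hB hB')
          have h4 : Tendsto (fun k : ℕ => C ^ 2 * (1 / ((k : ℝ) + 1))) atTop (𝓝 (C ^ 2 * 0)) :=
            tendsto_one_div_add_atTop_nhds_zero_nat.const_mul _
          rw [mul_zero] at h4
          refine h4.congr (fun k => ?_)
          ring
        have h5 := tendsto_nhds_unique h2 h3
        rw [integral_sub (hUint B hB') (hVint B hB')]
        exact h5
    filter_upwards [hzero] with x hx
    simp only [Pi.zero_apply] at hx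
    exact (sub_eq_zero.mp hx).symm
  refine ⟨A, hAint, ?_, htend, ?_, ?_, hakint, hL1, ?_⟩
  · filter_upwards [hsq, hmono, hleA, hconst] with x h1 h2 h3 h4 k
    refine ⟨h1 k, h2 k, h3 k, ?_, h4 k⟩
    have h5 : ‖uk k x‖ ^ 2 ≤ ((k : ℝ) + 1) ^ 2 := (h1 k).trans (h4 k)
    exact (sq_le_sq₀ (norm_nonneg _) (hkpos k).le).mp h5
  · filter_upwards [hV, hid] with x h1 h2
    rwa [h2] at h1
  · filter_upwards [hVA, hid] with x h1 h2
    rwa [h2] at h1
  · refine hstrong.congr (fun k => ?_)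
    apply eLpNorm_congr_ae
    filter_upwards [hid] with x hx
    rw [hx]

end main

end Pool.Agent.Helper22.Jef
end

section
/-! # P3: renormalised equations of the stress -/

open MeasureTheory Set Filter Topology
open scoped ENNReal NNReal ContDiff

namespace Pool.Agent.Helper81.Jef

open Pool.Agent.Helper42.Jef Pool.Agent.Helper22.Jef

variable {n : ℕ}

/-- `renorm_loc` as a property of `(T, v)` (any pair of finite dimensional spaces) -/
def RenLoc (n : ℕ) (T : ℝ) (v : ST n → Eu n) (E E' : Type) [NormedAddCommGroup E]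
    [NormedSpace ℝ E] [NormedAddCommGroup E'] [NormedSpace ℝ E'] : Prop :=
  ∀ (u F : ST n → E), MemLp u 2 volume →
    (∀ R : ℝ, IntegrableOn F {z : ST n | ‖z.2‖ ≤ R} volume) → TE T v u F →
    ∀ (β : E → E'), ContDiff ℝ 1 β → ∀ L : ℝ, (∀ x, ‖fderiv ℝ β x‖ ≤ L) →
    TE T v (fun z => β (u z)) (fun z => fderiv ℝ β (u z) (F z))

theorem ext0_of_mem {E : Type*} {u0 : Eu n → E} {u : ST n → E} {z : ST n}
    (hz : z.1 ∈ Ioo (-1 : ℝ) 0) : ext0 u0 u z = u0 z.2 := by
  simp only [ext0, if_pos hz]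

theorem ext0_of_notMem {E : Type*} {u0 : Eu n → E} {u : ST n → E} {z : ST n}
    (hz : z.1 ∉ Ioo (-1 : ℝ) 0) : ext0 u0 u z = u z := by
  simp only [ext0, if_neg hz]

theorem ext0_comp {E E' : Type*} {u0 : Eu n → E} {u : ST n → E} (β : E → E') :
    (fun z => β (ext0 u0 u z)) = ext0 (fun x => β (u0 x)) (fun z => β (u z)) := by
  funext z
  by_cases hz : z.1 ∈ Ioo (-1 : ℝ) 0
  · rw [ext0_of_mem hz, ext0_of_mem hz]
  · rw [ext0_of_notMem hz, ext0_of_notMem hz]

theorem memLp_ext0 {E : Type*} [NormedAddCommGroup E] {u0 : Eu n → E}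
    (h0 : MemLp u0 2 volume) {u : ST n → E} (hu : MemLp u 2 volume) :
    MemLp (ext0 u0 u) 2 volume := by
  have hA : MeasurableSet (Ioo (-1 : ℝ) 0 ×ˢ (univ : Set (Eu n))) :=
    measurableSet_Ioo.prod MeasurableSet.univ
  have h1 : MemLp (fun z : ST n => u0 z.2) 2
      (volume.restrict (Ioo (-1 : ℝ) 0 ×ˢ (univ : Set (Eu n)))) := by
    have := h0.comp_snd (volume.restrict (Ioo (-1 : ℝ) 0))
    rw [Measure.volume_eq_prod, ← Measure.prod_restrict, Measure.restrict_univ]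
    exact this
  have h2 := (memLp_indicator_iff_restrict hA).2 h1
  have h3 := hu.indicator hA.compl
  refine (h2.add h3).ae_eq (Eventually.of_forall fun z => ?_)
  by_cases hz : z.1 ∈ Ioo (-1 : ℝ) 0
  · have hz' : z ∈ Ioo (-1 : ℝ) 0 ×ˢ (univ : Set (Eu n)) := ⟨hz, trivial⟩
    have hz'' : z ∉ (Ioo (-1 : ℝ) 0 ×ˢ (univ : Set (Eu n)))ᶜ := fun h => h hz'
    rw [Pi.add_apply, indicator_of_mem hz', indicator_of_notMem hz'', ext0_of_mem hz, add_zero]
  · have hz' : z ∉ Ioo (-1 : ℝ) 0 ×ˢ (univ : Set (Eu n)) := fun h => hz h.1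
    have hz'' : z ∈ (Ioo (-1 : ℝ) 0 ×ˢ (univ : Set (Eu n)))ᶜ := hz'
    rw [Pi.add_apply, indicator_of_notMem hz', indicator_of_mem hz'', ext0_of_notMem hz, zero_add]

theorem integrableOn_slab {E : Type*} [NormedAddCommGroup E] {T : ℝ} {F : ST n → E}
    (hF : MemLp F 2 volume) (h0 : ∀ᵐ z : ST n, z.1 ∉ Ioo 0 T → F z = 0) (R : ℝ) :
    IntegrableOn F {z : ST n | ‖z.2‖ ≤ R} volume := by
  have hB : MeasurableSet (Ioo (0 : ℝ) T ×ˢ Metric.closedBall (0 : Eu n) R) :=
    measurableSet_Ioo.prod Metric.isClosed_closedBall.measurableSet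
  have hfin : volume (Ioo (0 : ℝ) T ×ˢ Metric.closedBall (0 : Eu n) R) ≠ ⊤ := by
    rw [Measure.volume_eq_prod, Measure.prod_prod]
    exact ENNReal.mul_ne_top (by simp) (measure_closedBall_lt_top).ne
  have h1 : IntegrableOn F (Ioo (0 : ℝ) T ×ˢ Metric.closedBall (0 : Eu n) R) volume := by
    have : IsFiniteMeasure (volume.restrict (Ioo (0 : ℝ) T ×ˢ Metric.closedBall (0 : Eu n) R)) :=
      ⟨by rw [Measure.restrict_apply_univ]; exact lt_top_iff_ne_top.2 hfin⟩
    exact (hF.restrict _).integrable (by norm_num)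
  have hS : MeasurableSet {z : ST n | ‖z.2‖ ≤ R} :=
    measurableSet_le (measurable_snd.norm) measurable_const
  have h2 : Integrable ((Ioo (0 : ℝ) T ×ˢ Metric.closedBall (0 : Eu n) R).indicator F) volume :=
    h1.integrable_indicator hB
  rw [← integrable_indicator_iff hS]
  refine h2.congr ?_
  filter_upwards [h0] with z hz
  by_cases hz1 : z.1 ∈ Ioo 0 T
  · by_cases hz2 : ‖z.2‖ ≤ R
    · rw [indicator_of_mem (show z ∈ Ioo (0 : ℝ) T ×ˢ Metric.closedBall (0 : Eu n) R from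
          ⟨hz1, by simpa using hz2⟩),
        indicator_of_mem (show z ∈ {z : ST n | ‖z.2‖ ≤ R} from hz2)]
    · rw [indicator_of_notMem (show z ∉ Ioo (0 : ℝ) T ×ˢ Metric.closedBall (0 : Eu n) R from
          fun h => hz2 (by simpa using h.2)),
        indicator_of_notMem (show z ∉ {z : ST n | ‖z.2‖ ≤ R} from hz2)]
  · rw [indicator_of_notMem (show z ∉ Ioo (0 : ℝ) T ×ˢ Metric.closedBall (0 : Eu n) R from
      fun h => hz1 h.1)]
    by_cases hz2 : ‖z.2‖ ≤ R
    · rw [indicator_of_mem (show z ∈ {z : ST n | ‖z.2‖ ≤ R} from hz2), hz hz1]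
    · rw [indicator_of_notMem (show z ∉ {z : ST n | ‖z.2‖ ≤ R} from hz2)]

/-- congruence of the right hand side of the transport equation -/
theorem te_congr {E : Type*} [NormedAddCommGroup E] [NormedSpace ℝ E] {T : ℝ} {v : ST n → Eu n}
    {u u' F F' : ST n → E} (hu : u = u') (hF : ∀ᵐ z, F z = F' z) (h : TE T v u F) :
    TE T v u' F' := by
  subst hu
  intro η ψ hη hψ
  rw [← h η ψ hη hψ]
  refine integral_congr_ae ?_
  filter_upwards [hF] with z hz
  rw [hz]

theorem bk_fderiv_br {k : ℝ} {A W : Mt n} (hW : tr W = -W) :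
    fderiv ℝ (bk k) A (br A W) = br (bk k A) W := by
  rw [bk_fderiv, real_inner_comm, inner_br A W hW, bk_eq, br_smul_left]
  simp

theorem te_bk {Ω : Set (Eu n)} {T : ℝ} (hT : 0 < T) {v : ST n → Eu n}
    (hR1 : RenLoc n T v (Mt n) (Mt n)) (hR2 : RenLoc n T v (Mt n) ℝ)
    {G τ S : ST n → Mt n} {a c : ℝ} (hG : MemLp G 2 volume) (hτ : MemLp τ 2 volume)
    (hS : MemLp S 2 volume) (hSa : ∀ᵐ z, tr (S z) = - S z)
    (hsup : ∀ z : ST n, z.1 ∉ Ioo 0 T → τ z = 0)
    (hG0 : ∀ᵐ z : ST n, (z.1 ∉ Ioo 0 T ∨ z.2 ∉ Ω) → G z = 0) {τ0 : Eu n → Mt n}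
    (hτ0 : MemLp τ0 2 volume)
    (h : TE T v (ext0 τ0 τ) (fun z => c • sy (G z) - a • τ z - br (τ z) (S z)))
    {k : ℝ} (hk : 0 < k) :
    TE T v (ext0 (fun x => bk k (τ0 x)) (fun z => bk k (τ z)))
      (fun z => fderiv ℝ (bk k) (τ z) (c • sy (G z) - a • τ z) - br (bk k (τ z)) (S z)) ∧
    TE T v (ext0 (fun x => ‖bk k (τ0 x)‖ ^ 2) (fun z => ‖bk k (τ z)‖ ^ 2))
      (fun z => 2 * inner ℝ (bk k (τ z))
        (fderiv ℝ (bk k) (τ z) (c • sy (G z) - a • τ z))) := by
  have hu : MemLp (ext0 τ0 τ) 2 volume := memLp_ext0 hτ0 hτ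
  have hF1 : MemLp (fun z => c • sy (G z) - a • τ z) 2 volume := by
    have h1 : MemLp (fun z => c • sy (G z)) 2 volume := by
      have := ((syL n).comp_memLp' hG).const_smul c
      exact this
    exact h1.sub (hτ.const_smul a)
  have hF0 : ∀ᵐ z : ST n, z.1 ∉ Ioo 0 T → c • sy (G z) - a • τ z - br (τ z) (S z) = 0 := by
    filter_upwards [hG0] with z hz hz1
    rw [hz (Or.inl hz1), hsup z hz1]
    have : sy (0 : Mt n) = 0 := (syL n).map_zero
    simp [this]
  have hF : ∀ R : ℝ, IntegrableOn (fun z => c • sy (G z) - a • τ z - br (τ z) (S z))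
      {z : ST n | ‖z.2‖ ≤ R} volume := by
    intro R
    have h1 : IntegrableOn (fun z => c • sy (G z) - a • τ z) {z : ST n | ‖z.2‖ ≤ R} volume := by
      refine integrableOn_slab (T := T) hF1 ?_ R
      filter_upwards [hG0] with z hz hz1
      rw [hz (Or.inl hz1), hsup z hz1]
      have : sy (0 : Mt n) = 0 := (syL n).map_zero
      simp [this]
    have h2 : Integrable (fun z => br (τ z) (S z)) volume := by
      have hms : AEStronglyMeasurable (fun z => br (τ z) (S z)) volume := by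
        have := (brL n).aestronglyMeasurable_comp₂ hτ.1 hS.1
        exact this
      have hi : Integrable (fun z => 2 * (‖τ z‖ * ‖S z‖)) volume :=
        (hτ.norm.integrable_mul hS.norm).const_mul 2
      refine hi.mono' hms (Eventually.of_forall fun z => ?_)
      exact norm_br_le _ _
    exact h1.sub h2.integrableOn
  have key : ∀ {E' : Type} [NormedAddCommGroup E'] [NormedSpace ℝ E'] (β : Mt n → E'),
      ∀ᵐ z : ST n, fderiv ℝ β (ext0 τ0 τ z) (c • sy (G z) - a • τ z - br (τ z) (S z)) =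
        fderiv ℝ β (τ z) (c • sy (G z) - a • τ z - br (τ z) (S z)) := by
    intro E' _ _ β
    filter_upwards [hF0] with z hz
    by_cases hz1 : z.1 ∈ Ioo (-1 : ℝ) 0
    · have hz2 : z.1 ∉ Ioo 0 T := fun hc => absurd hc.1 (not_lt.2 hz1.2.le)
      rw [hz hz2, map_zero, map_zero]
    · rw [ext0_of_notMem hz1]
  constructor
  · have h1 := hR1 _ _ hu hF h (bk k) ((bk_contDiff k).of_le (by simp)) 1 (bk_fderiv_norm k)
    refine te_congr (ext0_comp (bk k)) ?_ h1
    filter_upwards [key (bk k), hSa] with z hz hz1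
    rw [hz, map_sub, bk_fderiv_br hz1]
  · have h1 := hR2 _ _ hu hF h (fun x => ‖bk k x‖ ^ 2) ((bk_sq_contDiff k).of_le (by simp)) (2 * k)
      (bk_sq_fderiv_norm hk)
    refine te_congr (ext0_comp (fun x : Mt n => ‖bk k x‖ ^ 2)) ?_ h1
    filter_upwards [key (fun x : Mt n => ‖bk k x‖ ^ 2), hSa] with z hz hz1
    rw [hz, bk_sq_fderiv, map_sub, bk_fderiv_br hz1, inner_sub_right, real_inner_comm (br _ _),
      inner_br _ _ hz1, sub_zero]

end Pool.Agent.Helper81.Jef
end
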