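import Pool.Agent.Helper42.JefB.B0

section
/-!
# Hörmander condition for the main heat kernel (generic in the kernel family)

One dimensional facts: translation of monotone functions, power integrals, the time factor.
-/

open MeasureTheory Set Filter Topology
open scoped ENNReal ContDiff

namespace Pool.Agent.Helper79.Horm

/-- `L¹` modulus of continuity of a monotone function with values in `[0,1]`, positive shift. -/
theorem mono_shift_pos {M : ℝ → ℝ} (hM : Monotone M) (h0 : ∀ r, 0 ≤ M r) (h1 : ∀ r, M r ≤ 1)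
    {h : ℝ} (hh : 0 ≤ h) : ∫⁻ r, ENNReal.ofReal (M r - M (r - h)) ≤ ENNReal.ofReal h := by
  have hmeas : Measurable M := hM.measurable
  have hS : MeasurableSet {p : ℝ × ℝ | M (p.1 - h) ≤ p.2 ∧ p.2 < M p.1} :=
    (measurableSet_le (hmeas.comp (measurable_fst.sub_const h)) measurable_snd).inter
      (measurableSet_lt measurable_snd (hmeas.comp measurable_fst))
  have e1 : ∀ r, ENNReal.ofReal (M r - M (r - h)) =
      ∫⁻ t, ({p : ℝ × ℝ | M (p.1 - h) ≤ p.2 ∧ p.2 < M p.1}.indicator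
        (fun _ => (1 : ℝ≥0∞))) (r, t) := by
    intro r
    have : (fun t => ({p : ℝ × ℝ | M (p.1 - h) ≤ p.2 ∧ p.2 < M p.1}.indicator
        (fun _ => (1 : ℝ≥0∞))) (r, t)) = (Ico (M (r - h)) (M r)).indicator 1 := by
      funext t
      simp only [indicator, mem_setOf_eq, mem_Ico, Pi.one_apply]
    rw [this, lintegral_indicator_one measurableSet_Ico, Real.volume_Ico]
  simp_rw [e1]
  rw [lintegral_lintegral_swap (μ := volume) (ν := volume)
    (f := fun r t => ({p : ℝ × ℝ | M (p.1 - h) ≤ p.2 ∧ p.2 < M p.1}.indicator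
        (fun _ => (1 : ℝ≥0∞))) (r, t))
    ((Measurable.indicator measurable_const hS).aemeasurable)]
  have e2 : ∀ t, ∫⁻ r, ({p : ℝ × ℝ | M (p.1 - h) ≤ p.2 ∧ p.2 < M p.1}.indicator
        (fun _ => (1 : ℝ≥0∞))) (r, t) ≤ (Icc (0 : ℝ) 1).indicator
          (fun _ => ENNReal.ofReal h) t := by
    intro t
    have hm : MeasurableSet {r : ℝ | M (r - h) ≤ t ∧ t < M r} :=
      (measurableSet_le (hmeas.comp (measurable_id.sub_const h)) measurable_const).inter
      (measurableSet_lt measurable_const hmeas)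
    have : (fun r => ({p : ℝ × ℝ | M (p.1 - h) ≤ p.2 ∧ p.2 < M p.1}.indicator
        (fun _ => (1 : ℝ≥0∞))) (r, t)) = {r : ℝ | M (r - h) ≤ t ∧ t < M r}.indicator 1 := by
      funext r
      simp only [indicator, mem_setOf_eq, Pi.one_apply]
    rw [this, lintegral_indicator_one hm]
    by_cases ht : t ∈ Icc (0 : ℝ) 1
    · rw [indicator_of_mem ht]
      refine (Real.volume_le_diam _).trans ?_
      refine Metric.ediam_le fun x hx y hy => ?_
      rw [edist_dist, Real.dist_eq]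
      refine ENNReal.ofReal_le_ofReal ?_
      rw [abs_le]
      constructor
      · by_contra hc
        push Not at hc
        have : M x ≤ M (y - h) := hM (by linarith)
        have h1 := hx.2
        have h2 := hy.1
        linarith
      · by_contra hc
        push Not at hc
        have : M y ≤ M (x - h) := hM (by linarith)
        have h1 := hy.2
        have h2 := hx.1
        linarith
    · rw [indicator_of_notMem ht]
      have : {r : ℝ | M (r - h) ≤ t ∧ t < M r} = ∅ := by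
        ext r
        simp only [mem_setOf_eq, mem_empty_iff_false, iff_false]
        rintro ⟨a, b⟩
        exact ht ⟨(h0 _).trans a, (b.le.trans (h1 _))⟩
      rw [this]; simp
  refine (lintegral_mono e2).trans ?_
  rw [lintegral_indicator measurableSet_Icc, setLIntegral_const, Real.volume_Icc]
  simp

/-- `L¹` modulus of continuity of a monotone function with values in `[0,1]`. -/
theorem mono_shift {M : ℝ → ℝ} (hM : Monotone M) (h0 : ∀ r, 0 ≤ M r) (h1 : ∀ r, M r ≤ 1)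
    (h : ℝ) : ∫⁻ r, ‖M (r - h) - M r‖ₑ ≤ ENNReal.ofReal |h| := by
  rcases le_total 0 h with hh | hh
  · rw [abs_of_nonneg hh]
    refine le_trans (le_of_eq ?_) (mono_shift_pos hM h0 h1 hh)
    refine lintegral_congr fun r => ?_
    have : M (r - h) ≤ M r := hM (by linarith)
    rw [← ofReal_norm, Real.norm_eq_abs, abs_of_nonpos (by linarith)]
    congr 1; ring
  · rw [abs_of_nonpos hh]
    refine le_trans (le_of_eq ?_) (mono_shift_pos hM h0 h1 (neg_nonneg.2 hh))
    rw [← lintegral_sub_right_eq_self (fun r => ENNReal.ofReal (M r - M (r - -h))) h]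
    refine lintegral_congr fun r => ?_
    have : M r ≤ M (r - h) := hM (by linarith)
    rw [← ofReal_norm, Real.norm_eq_abs, abs_of_nonneg (by linarith)]
    congr 2; ring_nf

/-- antitone version -/
theorem anti_shift {M : ℝ → ℝ} (hM : Antitone M) (h0 : ∀ r, 0 ≤ M r) (h1 : ∀ r, M r ≤ 1)
    (h : ℝ) : ∫⁻ r, ‖M (r - h) - M r‖ₑ ≤ ENNReal.ofReal |h| := by
  have := mono_shift (M := fun r => 1 - M r) (fun a b hab => by have := hM hab; simp only; linarith)
    (fun r => by have := h1 r; linarith) (fun r => by have := h0 r; linarith) h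
  refine le_trans (le_of_eq ?_) this
  refine lintegral_congr fun r => ?_
  rw [← ofReal_norm, ← ofReal_norm, Real.norm_eq_abs, Real.norm_eq_abs,
    abs_sub_comm]
  congr 2; ring

/-- power integrals -/
theorem lint_rpow {a c : ℝ} (ha : a < -1) (hc : 0 < c) :
    ∫⁻ s in Ioi c, ENNReal.ofReal (s ^ a) = ENNReal.ofReal (-c ^ (a + 1) / (a + 1)) := by
  rw [← integral_Ioi_rpow_of_lt ha hc]
  rw [ofReal_integral_eq_lintegral_ofReal (integrableOn_Ioi_rpow_of_lt ha hc)]
  filter_upwards [ae_restrict_mem measurableSet_Ioi] with s hs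
  exact Real.rpow_nonneg (hc.le.trans (le_of_lt hs)) _

/-- the time factor -/
noncomputable def aa (μ ε s r : ℝ) : ℝ :=
  Real.smoothTransition (r / ε) * ((if μ * r + ε < s then 1 else 0) *
    (if s < μ * r + 1 then 1 else 0))

theorem aa_nonneg (μ ε s r : ℝ) : 0 ≤ aa μ ε s r := by
  unfold aa
  have := Real.smoothTransition.nonneg (r / ε)
  split_ifs <;> simp [this]

theorem aa_le_one (μ ε s r : ℝ) : aa μ ε s r ≤ 1 := by
  unfold aa
  have := Real.smoothTransition.le_one (r / ε)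
  split_ifs <;> simp [this]

theorem aa_zero_r {μ ε s r : ℝ} (hε : 0 < ε) (hr : r ≤ 0) : aa μ ε s r = 0 := by
  unfold aa
  rw [Real.smoothTransition.zero_of_nonpos (div_nonpos_of_nonpos_of_nonneg hr hε.le)]
  simp

/-- support of the time factor -/
theorem aa_supp {μ ε s r : ℝ} (hε : 0 < ε) (h : aa μ ε s r ≠ 0) :
    0 < r ∧ μ * r + ε < s ∧ s < μ * r + 1 := by
  have hr : 0 < r := by
    by_contra hr
    exact h (aa_zero_r hε (not_lt.1 hr))
  refine ⟨hr, ?_, ?_⟩
  · by_contra hc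
    apply h; unfold aa; rw [if_neg hc]; simp
  · by_contra hc
    apply h; unfold aa; rw [if_neg hc]; simp

theorem aa_meas (μ ε : ℝ) : Measurable (fun p : ℝ × ℝ => aa μ ε p.1 p.2) := by
  unfold aa
  refine Measurable.mul ?_ (Measurable.mul ?_ ?_)
  · exact Real.smoothTransition.continuous.measurable.comp (measurable_snd.div_const ε)
  · refine Measurable.ite ?_ measurable_const measurable_const
    exact measurableSet_lt (by fun_prop) (by fun_prop)
  · refine Measurable.ite ?_ measurable_const measurable_const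
    exact measurableSet_lt (by fun_prop) (by fun_prop)

/-- integral of the time factor, first bound -/
theorem aa_int_le {μ ε s : ℝ} (hμ : 0 < μ) (hε : 0 < ε) :
    ∫⁻ r, ‖aa μ ε s r‖ₑ ≤ ENNReal.ofReal (s / μ) := by
  calc ∫⁻ r, ‖aa μ ε s r‖ₑ ≤ ∫⁻ r, (Ioo 0 (s / μ)).indicator (fun _ => (1 : ℝ≥0∞)) r := by
        refine lintegral_mono fun r => ?_
        by_cases h : aa μ ε s r = 0
        · rw [h]; simp
        · obtain ⟨h1, h2, h3⟩ := aa_supp hε h
          rw [indicator_of_mem]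
          · rw [← ofReal_norm, Real.norm_eq_abs, abs_of_nonneg (aa_nonneg _ _ _ _)]
            exact ENNReal.ofReal_le_one.2 (aa_le_one _ _ _ _)
          · refine ⟨h1, ?_⟩
            rw [lt_div_iff₀ hμ]; nlinarith
    _ = ENNReal.ofReal (s / μ) := by
        rw [lintegral_indicator measurableSet_Ioo, setLIntegral_const, Real.volume_Ioo]
        simp

/-- integral of the time factor, second bound -/
theorem aa_int_le' {μ ε s : ℝ} (hμ : 0 < μ) (hε : 0 < ε) :
    ∫⁻ r, ‖aa μ ε s r‖ₑ ≤ (Ioi ε).indicator (fun _ => ENNReal.ofReal (1 / μ)) s := by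
  by_cases hs : s ∈ Ioi ε
  · rw [indicator_of_mem hs]
    calc ∫⁻ r, ‖aa μ ε s r‖ₑ ≤
        ∫⁻ r, (Ioo ((s - 1) / μ) (s / μ)).indicator (fun _ => (1 : ℝ≥0∞)) r := by
          refine lintegral_mono fun r => ?_
          by_cases h : aa μ ε s r = 0
          · rw [h]; simp
          · obtain ⟨h1, h2, h3⟩ := aa_supp hε h
            rw [indicator_of_mem]
            · rw [← ofReal_norm, Real.norm_eq_abs, abs_of_nonneg (aa_nonneg _ _ _ _)]
              exact ENNReal.ofReal_le_one.2 (aa_le_one _ _ _ _)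
            · refine ⟨?_, ?_⟩
              · rw [div_lt_iff₀ hμ]; nlinarith
              · rw [lt_div_iff₀ hμ]; nlinarith
      _ = ENNReal.ofReal (1 / μ) := by
          rw [lintegral_indicator measurableSet_Ioo, setLIntegral_const, Real.volume_Ioo]
          rw [one_mul]; congr 1; ring
  · rw [indicator_of_notMem hs]
    rw [nonpos_iff_eq_zero, lintegral_eq_zero_iff' ?_]
    · refine Eventually.of_forall fun r => ?_
      simp only [Pi.zero_apply, enorm_eq_zero]
      by_contra h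
      obtain ⟨h1, h2, h3⟩ := aa_supp hε h
      exact hs (by simp only [mem_Ioi]; nlinarith)
    · exact ((aa_meas μ ε).comp (measurable_const.prodMk measurable_id)).enorm.aemeasurable

/-- translation of the time factor -/
theorem aa_shift {μ ε s : ℝ} (hμ : 0 < μ) (hε : 0 < ε) (h : ℝ) :
    ∫⁻ r, ‖aa μ ε s (r - h) - aa μ ε s r‖ₑ ≤ ENNReal.ofReal (3 * |h|) := by
  set A : ℝ → ℝ := fun r => Real.smoothTransition (r / ε) with hA
  set B : ℝ → ℝ := fun r => if μ * r + ε < s then 1 else 0 with hB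
  set D : ℝ → ℝ := fun r => if s < μ * r + 1 then 1 else 0 with hD
  have hA0 : ∀ r, 0 ≤ A r := fun r => Real.smoothTransition.nonneg _
  have hA1 : ∀ r, A r ≤ 1 := fun r => Real.smoothTransition.le_one _
  have hB0 : ∀ r, 0 ≤ B r := fun r => by simp only [hB]; split_ifs <;> norm_num
  have hB1 : ∀ r, B r ≤ 1 := fun r => by simp only [hB]; split_ifs <;> norm_num
  have hD0 : ∀ r, 0 ≤ D r := fun r => by simp only [hD]; split_ifs <;> norm_num
  have hD1 : ∀ r, D r ≤ 1 := fun r => by simp only [hD]; split_ifs <;> norm_num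
  have hAm : Monotone A := fun a b hab =>
    Real.smoothTransition.monotone (div_le_div_of_nonneg_right hab hε.le)
  have hBm : Antitone B := fun a b hab => by
    simp only [hB]
    have : μ * a ≤ μ * b := mul_le_mul_of_nonneg_left hab hμ.le
    split_ifs <;> first | (exfalso; linarith) | norm_num
  have hDm : Monotone D := fun a b hab => by
    simp only [hD]
    have : μ * a ≤ μ * b := mul_le_mul_of_nonneg_left hab hμ.le
    split_ifs <;> first | (exfalso; linarith) | norm_num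
  have key : ∀ r, ‖aa μ ε s (r - h) - aa μ ε s r‖ₑ ≤
      ‖A (r - h) - A r‖ₑ + (‖B (r - h) - B r‖ₑ + ‖D (r - h) - D r‖ₑ) := by
    intro r
    have e : aa μ ε s (r - h) - aa μ ε s r = (A (r - h) - A r) * (B (r - h) * D (r - h)) +
        (A r * ((B (r - h) - B r) * D (r - h)) + A r * (B r * (D (r - h) - D r))) := by
      simp only [aa, hA, hB, hD]; ring
    rw [e]
    refine (enorm_add_le _ _).trans (add_le_add ?_ ((enorm_add_le _ _).trans (add_le_add ?_ ?_)))
    · rw [← ofReal_norm, ← ofReal_norm]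
      refine ENNReal.ofReal_le_ofReal ?_
      rw [norm_mul]
      refine mul_le_of_le_one_right (norm_nonneg _) ?_
      rw [Real.norm_eq_abs, abs_of_nonneg (mul_nonneg (hB0 _) (hD0 _))]
      exact mul_le_one₀ (hB1 _) (hD0 _) (hD1 _)
    · rw [← ofReal_norm, ← ofReal_norm]
      refine ENNReal.ofReal_le_ofReal ?_
      rw [norm_mul, norm_mul, Real.norm_eq_abs (A r), abs_of_nonneg (hA0 _),
        Real.norm_eq_abs (D _), abs_of_nonneg (hD0 _)]
      have := norm_nonneg (B (r - h) - B r)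
      have h3 : ‖B (r - h) - B r‖ * D (r - h) ≤ ‖B (r - h) - B r‖ :=
        mul_le_of_le_one_right this (hD1 _)
      calc A r * (‖B (r - h) - B r‖ * D (r - h)) ≤ 1 * (‖B (r - h) - B r‖ * D (r - h)) :=
            mul_le_mul_of_nonneg_right (hA1 r) (mul_nonneg this (hD0 _))
        _ ≤ _ := by rw [one_mul]; exact h3
    · rw [← ofReal_norm, ← ofReal_norm]
      refine ENNReal.ofReal_le_ofReal ?_
      rw [norm_mul, norm_mul, Real.norm_eq_abs (A r), abs_of_nonneg (hA0 _),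
        Real.norm_eq_abs (B _), abs_of_nonneg (hB0 _)]
      have := norm_nonneg (D (r - h) - D r)
      have h3 : B r * ‖D (r - h) - D r‖ ≤ ‖D (r - h) - D r‖ :=
        mul_le_of_le_one_left this (hB1 _)
      calc A r * (B r * ‖D (r - h) - D r‖) ≤ 1 * (B r * ‖D (r - h) - D r‖) :=
            mul_le_mul_of_nonneg_right (hA1 r) (mul_nonneg (hB0 _) this)
        _ ≤ _ := by rw [one_mul]; exact h3
  refine (lintegral_mono key).trans ?_
  have mA : Measurable fun r => ‖A (r - h) - A r‖ₑ :=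
    ((hAm.measurable.comp (measurable_id.sub_const h)).sub hAm.measurable).enorm
  have mB : Measurable fun r => ‖B (r - h) - B r‖ₑ :=
    ((hBm.measurable.comp (measurable_id.sub_const h)).sub hBm.measurable).enorm
  rw [lintegral_add_left mA, lintegral_add_left mB]
  have h1 := mono_shift hAm hA0 hA1 h
  have h2 := anti_shift hBm hB0 hB1 h
  have h3 := mono_shift hDm hD0 hD1 h
  calc _ ≤ ENNReal.ofReal |h| + (ENNReal.ofReal |h| + ENNReal.ofReal |h|) :=
        add_le_add h1 (add_le_add h2 h3)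
    _ = ENNReal.ofReal (3 * |h|) := by
        rw [← ENNReal.ofReal_add (abs_nonneg _) (abs_nonneg _),
          ← ENNReal.ofReal_add (abs_nonneg _) (by positivity)]
        congr 1; ring

end Pool.Agent.Helper79.Horm
end

section
/-!
# Hörmander condition for the main heat kernel (generic in the kernel family)
-/

open MeasureTheory Set Filter Topology
open scoped ENNReal ContDiff

namespace Pool.Agent.Helper79.Horm

open Pool.Agent.Helper42.Jef

variable {n : ℕ}

/-- extension by zero to nonpositive times -/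
noncomputable def PP (P : ℝ → Eu n → ℝ) (w : ℝ × Eu n) : ℝ :=
  (Ioi (0 : ℝ) ×ˢ (univ : Set (Eu n))).indicator (fun w => P w.1 w.2) w

theorem PP_pos {P : ℝ → Eu n → ℝ} {s : ℝ} (hs : 0 < s) (x : Eu n) : PP P (s, x) = P s x := by
  unfold PP; rw [indicator_of_mem]; exact ⟨hs, mem_univ _⟩

theorem PP_neg {P : ℝ → Eu n → ℝ} {s : ℝ} (hs : s ≤ 0) (x : Eu n) : PP P (s, x) = 0 := by
  unfold PP; rw [indicator_of_notMem]; intro h; exact absurd h.1 (not_lt.2 hs)

theorem PP_meas {P : ℝ → Eu n → ℝ}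
    (hP : ContinuousOn (fun z : ℝ × Eu n => P z.1 z.2) (Ioi 0 ×ˢ univ)) :
    Measurable (PP P) := by
  classical
  have h := ContinuousOn.measurable_piecewise (g := (0 : ℝ × Eu n → ℝ)) hP continuousOn_const
    (measurableSet_Ioi.prod MeasurableSet.univ)
  rw [piecewise_eq_indicator] at h
  exact h

/-- the kernel -/
noncomputable def kap (μ ε : ℝ) (P : ℝ → Eu n → ℝ) (z : ST n) : ℝ :=
  ∫ s in ε..1, Real.smoothTransition (z.1 / ε) * P (μ * z.1 + s) z.2

/-- the layers of the kernel -/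
noncomputable def FF (μ ε : ℝ) (P : ℝ → Eu n → ℝ) (s : ℝ) (z : ST n) : ℝ :=
  aa μ ε s z.1 * PP P (s, z.2)

theorem FF_eq {μ ε : ℝ} {P : ℝ → Eu n → ℝ} (hμ : 0 < μ) (hε : 0 < ε) {z : ST n} (hz : 0 < z.1)
    (s : ℝ) : FF μ ε P s z = Real.smoothTransition (z.1 / ε) *
      (Ioo (μ * z.1 + ε) (μ * z.1 + 1)).indicator (fun s => P s z.2) s := by
  unfold FF aa
  by_cases h : s ∈ Ioo (μ * z.1 + ε) (μ * z.1 + 1)
  · rw [indicator_of_mem h, if_pos h.1, if_pos h.2, PP_pos]
    · ring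
    · have := h.1
      nlinarith [mul_pos hμ hz]
  · rw [indicator_of_notMem h]
    by_cases h1 : μ * z.1 + ε < s
    · have h2 : ¬ s < μ * z.1 + 1 := fun h2 => h ⟨h1, h2⟩
      rw [if_neg h2]; ring
    · rw [if_neg h1]; ring

theorem FF_zero {μ ε : ℝ} {P : ℝ → Eu n → ℝ} (hε : 0 < ε) {z : ST n} (hz : z.1 ≤ 0)
    (s : ℝ) : FF μ ε P s z = 0 := by
  unfold FF; rw [aa_zero_r hε hz]; ring

theorem kap_eq {μ ε : ℝ} {P : ℝ → Eu n → ℝ} (hμ : 0 < μ) (hε : 0 < ε) (hε1 : ε < 1) (z : ST n) :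
    kap μ ε P z = ∫ s, FF μ ε P s z := by
  rcases le_or_gt z.1 0 with hz | hz
  · unfold kap
    rw [Real.smoothTransition.zero_of_nonpos (div_nonpos_of_nonpos_of_nonneg hz hε.le)]
    simp [FF_zero hε hz]
  · unfold kap
    simp_rw [FF_eq hμ hε hz]
    rw [intervalIntegral.integral_const_mul, integral_const_mul,
      integral_indicator measurableSet_Ioo,
      intervalIntegral.integral_comp_add_left (fun s => P s z.2) (μ * z.1),
      intervalIntegral.integral_of_le (by linarith), integral_Ioc_eq_integral_Ioo]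

theorem FF_int {μ ε : ℝ} {P : ℝ → Eu n → ℝ}
    (hP : ContinuousOn (fun z : ℝ × Eu n => P z.1 z.2) (Ioi 0 ×ˢ univ))
    (hμ : 0 < μ) (hε : 0 < ε) (z : ST n) :
    Integrable (fun s => FF μ ε P s z) := by
  rcases le_or_gt z.1 0 with hz | hz
  · simp [FF_zero hε hz]
  · simp_rw [FF_eq hμ hε hz]
    refine Integrable.const_mul ?_ _
    rw [integrable_indicator_iff measurableSet_Ioo]
    refine IntegrableOn.mono_set ?_ Ioo_subset_Icc_self
    refine ContinuousOn.integrableOn_Icc ?_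
    have : (fun s => P s z.2) = (fun z : ℝ × Eu n => P z.1 z.2) ∘ (fun s => (s, z.2)) := rfl
    rw [this]
    refine hP.comp (by fun_prop) ?_
    intro s hs
    refine ⟨?_, mem_univ _⟩
    have := hs.1
    simp only [mem_Ioi]
    nlinarith [mul_pos hμ hz]

theorem FF_meas {μ ε : ℝ} {P : ℝ → Eu n → ℝ}
    (hP : ContinuousOn (fun z : ℝ × Eu n => P z.1 z.2) (Ioi 0 ×ˢ univ)) :
    Measurable (fun p : ℝ × ST n => FF μ ε P p.1 p.2) := by
  unfold FF
  exact ((aa_meas μ ε).comp (measurable_fst.prodMk (measurable_fst.comp measurable_snd))).mul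
    ((PP_meas hP).comp (measurable_fst.prodMk (measurable_snd.comp measurable_snd)))

theorem kap_meas {μ ε : ℝ} {P : ℝ → Eu n → ℝ}
    (hP : ContinuousOn (fun z : ℝ × Eu n => P z.1 z.2) (Ioi 0 ×ˢ univ))
    (hμ : 0 < μ) (hε : 0 < ε) (hε1 : ε < 1) : StronglyMeasurable (kap μ ε P) := by
  have : kap μ ε P = fun z => ∫ s, FF μ ε P s z := funext (kap_eq hμ hε hε1)
  rw [this]
  refine StronglyMeasurable.integral_prod_right (f := fun z s => FF μ ε P s z) ?_
  exact ((FF_meas hP).comp measurable_swap).stronglyMeasurable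

theorem kap_enorm {μ ε : ℝ} {P : ℝ → Eu n → ℝ} (hμ : 0 < μ) (hε : 0 < ε) (hε1 : ε < 1)
    (z : ST n) : ‖kap μ ε P z‖ₑ ≤ ∫⁻ s, ‖FF μ ε P s z‖ₑ := by
  rw [kap_eq hμ hε hε1]
  exact enorm_integral_le_lintegral_enorm _

theorem kap_diff {μ ε : ℝ} {P : ℝ → Eu n → ℝ}
    (hP : ContinuousOn (fun z : ℝ × Eu n => P z.1 z.2) (Ioi 0 ×ˢ univ))
    (hμ : 0 < μ) (hε : 0 < ε) (hε1 : ε < 1) (z w : ST n) :
    ‖kap μ ε P z - kap μ ε P w‖ₑ ≤ ∫⁻ s, ‖FF μ ε P s z - FF μ ε P s w‖ₑ := by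
  rw [kap_eq hμ hε hε1, kap_eq hμ hε hε1, ← integral_sub (FF_int hP hμ hε z) (FF_int hP hμ hε w)]
  exact enorm_integral_le_lintegral_enorm _

/-- the hypotheses on the family (four derivatives of the Gaussian) -/
structure Fam (P : ℝ → Eu n → ℝ) (C : ℝ) : Prop where
  cont : ContinuousOn (fun z : ℝ × Eu n => P z.1 z.2) (Ioi 0 ×ˢ univ)
  g1 : ∀ s > 0, ∫⁻ x, ‖P s x‖ₑ ≤ ENNReal.ofReal (C / s ^ 2)
  g2 : ∀ s > 0, ∫⁻ x, ENNReal.ofReal (‖x‖ ^ 4) * ‖P s x‖ₑ ≤ ENNReal.ofReal C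
  g3 : ∀ s > 0, ∀ y, ∫⁻ x, ‖P s (x - y) - P s x‖ₑ ≤
    ENNReal.ofReal (C * ‖y‖ * s ^ (-(5 / 2) : ℝ))

/-- far layers -/
theorem phi_far {μ ε C : ℝ} {P : ℝ → Eu n → ℝ} (hP : Fam P C) (hμ : 0 < μ) (hε : 0 < ε)
    {s : ℝ} (hs : 0 < s) (h : ℝ) (y : Eu n) :
    ∫⁻ z : ST n, ‖FF μ ε P s (z.1 - h, z.2 - y) - FF μ ε P s z‖ₑ ≤
      ENNReal.ofReal (3 * |h|) * ENNReal.ofReal (C / s ^ 2) +
        ENNReal.ofReal (s / μ) * ENNReal.ofReal (C * ‖y‖ * s ^ (-(5 / 2) : ℝ)) := by
  have mP : Measurable fun x : Eu n => P s x := by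
    have : (fun x : Eu n => P s x) = fun x => PP P (s, x) := by
      funext x; rw [PP_pos hs]
    rw [this]
    exact (PP_meas hP.cont).comp (measurable_const.prodMk measurable_id)
  have ma : Measurable fun r => aa μ ε s r :=
    (aa_meas μ ε).comp (measurable_const.prodMk measurable_id)
  have key : ∀ z : ST n, ‖FF μ ε P s (z.1 - h, z.2 - y) - FF μ ε P s z‖ₑ ≤
      ‖aa μ ε s (z.1 - h) - aa μ ε s z.1‖ₑ * ‖P s (z.2 - y)‖ₑ +
        ‖aa μ ε s z.1‖ₑ * ‖P s (z.2 - y) - P s z.2‖ₑ := by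
    intro z
    have e : FF μ ε P s (z.1 - h, z.2 - y) - FF μ ε P s z =
        (aa μ ε s (z.1 - h) - aa μ ε s z.1) * P s (z.2 - y) +
          aa μ ε s z.1 * (P s (z.2 - y) - P s z.2) := by
      unfold FF; rw [PP_pos hs, PP_pos hs]; ring
    rw [e]
    refine (enorm_add_le _ _).trans ?_
    rw [enorm_mul, enorm_mul]
  refine (lintegral_mono key).trans ?_
  have m1 : Measurable fun r => ‖aa μ ε s (r - h) - aa μ ε s r‖ₑ :=
    ((ma.comp (measurable_id.sub_const h)).sub ma).enorm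
  have m2 : Measurable fun x : Eu n => ‖P s (x - y)‖ₑ :=
    (mP.comp (measurable_id.sub_const y)).enorm
  have m3 : Measurable fun x : Eu n => ‖P s (x - y) - P s x‖ₑ :=
    ((mP.comp (measurable_id.sub_const y)).sub mP).enorm
  have m12 : Measurable fun z : ST n =>
      ‖aa μ ε s (z.1 - h) - aa μ ε s z.1‖ₑ * ‖P s (z.2 - y)‖ₑ :=
    (m1.comp measurable_fst).mul (m2.comp measurable_snd)
  rw [lintegral_add_left m12, Measure.volume_eq_prod,
    lintegral_prod_mul (f := fun r => ‖aa μ ε s (r - h) - aa μ ε s r‖ₑ)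
      (g := fun x : Eu n => ‖P s (x - y)‖ₑ) m1.aemeasurable m2.aemeasurable,
    lintegral_prod_mul (f := fun r => ‖aa μ ε s r‖ₑ)
      (g := fun x : Eu n => ‖P s (x - y) - P s x‖ₑ) ma.enorm.aemeasurable m3.aemeasurable]
  refine add_le_add (mul_le_mul' (aa_shift hμ hε h) ?_) (mul_le_mul' (aa_int_le hμ hε) ?_)
  · rw [lintegral_sub_right_eq_self (fun x => ‖P s x‖ₑ) y]
    exact hP.g1 s hs
  · exact hP.g3 s hs y

/-- near layers -/
theorem phi_near {μ ε C : ℝ} {P : ℝ → Eu n → ℝ} (hP : Fam P C) (hμ : 0 < μ) (hε : 0 < ε)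
    {s : ℝ} (hs : 0 < s) {r₀ : ℝ} (hr : 0 < r₀) (hs' : s < 3 * μ * r₀ ^ 2) {h : ℝ} {y : Eu n}
    (hh : |h| ≤ r₀ ^ 2) (hy : ‖y‖ ≤ r₀) :
    ∫⁻ z in {z : ST n | 4 * r₀ ^ 2 ≤ |z.1| ∨ 2 * r₀ ≤ ‖z.2‖},
      ‖FF μ ε P s (z.1 - h, z.2 - y) - FF μ ε P s z‖ₑ ≤
      ENNReal.ofReal 2 * (ENNReal.ofReal (s / μ) *
        (ENNReal.ofReal ((r₀ ^ 4)⁻¹) * ENNReal.ofReal C)) := by
  have mP : Measurable fun x : Eu n => P s x := by
    have : (fun x : Eu n => P s x) = fun x => PP P (s, x) := by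
      funext x; rw [PP_pos hs]
    rw [this]
    exact (PP_meas hP.cont).comp (measurable_const.prodMk measurable_id)
  have ma : Measurable fun r => aa μ ε s r :=
    (aa_meas μ ε).comp (measurable_const.prodMk measurable_id)
  set Q : Eu n → ℝ≥0∞ := fun x => ENNReal.ofReal (‖x‖ ^ 4) * ‖P s x‖ₑ with hQ
  have mQ : Measurable Q := by
    refine Measurable.mul ?_ mP.enorm
    exact ENNReal.measurable_ofReal.comp (measurable_norm.pow_const 4)
  set c : ℝ≥0∞ := ENNReal.ofReal ((r₀ ^ 4)⁻¹) with hc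
  -- comparison of one term
  have one : ∀ x : Eu n, r₀ ≤ ‖x‖ → ‖P s x‖ₑ ≤ c * Q x := by
    intro x hx
    rw [hQ]
    simp only
    rw [← mul_assoc, hc, ← ENNReal.ofReal_mul (by positivity)]
    refine le_mul_of_one_le_left' ?_
    rw [ENNReal.one_le_ofReal, inv_mul_eq_div, one_le_div (by positivity)]
    exact pow_le_pow_left₀ hr.le hx 4
  have small : ∀ r, aa μ ε s r ≠ 0 → 0 < r ∧ r < 3 * r₀ ^ 2 := by
    intro r hr'
    obtain ⟨h1, h2, h3⟩ := aa_supp hε hr'
    refine ⟨h1, ?_⟩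
    by_contra hcon
    push Not at hcon
    have : μ * (3 * r₀ ^ 2) ≤ μ * r := mul_le_mul_of_nonneg_left hcon hμ.le
    nlinarith
  have key : ∀ z : ST n, z ∈ {z : ST n | 4 * r₀ ^ 2 ≤ |z.1| ∨ 2 * r₀ ≤ ‖z.2‖} →
      ‖FF μ ε P s (z.1 - h, z.2 - y) - FF μ ε P s z‖ₑ ≤
      ‖aa μ ε s (z.1 - h)‖ₑ * (c * Q (z.2 - y)) + ‖aa μ ε s z.1‖ₑ * (c * Q z.2) := by
    intro z hz
    obtain ⟨hh1, hh2⟩ := abs_le.1 hh
    refine (enorm_sub_le).trans (add_le_add ?_ ?_)
    · unfold FF
      rw [PP_pos hs, enorm_mul]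
      by_cases ha : aa μ ε s (z.1 - h) = 0
      · simp [ha]
      · refine mul_le_mul_right (one _ ?_) _
        obtain ⟨h1, h2⟩ := small _ ha
        have hz1 : |z.1| < 4 * r₀ ^ 2 := by
          rw [abs_lt]; constructor <;> nlinarith [sq_nonneg r₀, sq_pos_of_pos hr]
        have hz2 : 2 * r₀ ≤ ‖z.2‖ := hz.resolve_left (not_le.2 hz1)
        have := norm_sub_norm_le z.2 y
        linarith
    · unfold FF
      rw [PP_pos hs, enorm_mul]
      by_cases ha : aa μ ε s z.1 = 0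
      · simp [ha]
      · refine mul_le_mul_right (one _ ?_) _
        obtain ⟨h1, h2⟩ := small _ ha
        have hz1 : |z.1| < 4 * r₀ ^ 2 := by
          rw [abs_lt]; constructor <;> nlinarith [sq_nonneg r₀, sq_pos_of_pos hr]
        have hz2 : 2 * r₀ ≤ ‖z.2‖ := hz.resolve_left (not_le.2 hz1)
        linarith
  have hD : MeasurableSet {z : ST n | 4 * r₀ ^ 2 ≤ |z.1| ∨ 2 * r₀ ≤ ‖z.2‖} := by
    refine MeasurableSet.union ?_ ?_
    · exact measurableSet_le measurable_const (measurable_norm.comp measurable_fst)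
    · exact measurableSet_le measurable_const (measurable_norm.comp measurable_snd)
  refine (setLIntegral_mono' hD key).trans ?_
  refine (setLIntegral_le_lintegral _ _).trans ?_
  have m1 : Measurable fun r => ‖aa μ ε s (r - h)‖ₑ := (ma.comp (measurable_id.sub_const h)).enorm
  have m2 : Measurable fun x : Eu n => c * Q (x - y) :=
    (mQ.comp (measurable_id.sub_const y)).const_mul c
  have m12 : Measurable fun z : ST n => ‖aa μ ε s (z.1 - h)‖ₑ * (c * Q (z.2 - y)) :=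
    (m1.comp measurable_fst).mul (m2.comp measurable_snd)
  rw [lintegral_add_left m12, Measure.volume_eq_prod,
    lintegral_prod_mul (f := fun r => ‖aa μ ε s (r - h)‖ₑ)
      (g := fun x : Eu n => c * Q (x - y)) m1.aemeasurable m2.aemeasurable,
    lintegral_prod_mul (f := fun r => ‖aa μ ε s r‖ₑ)
      (g := fun x : Eu n => c * Q x) ma.enorm.aemeasurable (mQ.const_mul c).aemeasurable,
    lintegral_sub_right_eq_self (fun r => ‖aa μ ε s r‖ₑ) h,
    lintegral_sub_right_eq_self (fun x => c * Q x) y, ← two_mul]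
  have h2 : ENNReal.ofReal 2 = (2 : ℝ≥0∞) := by simp
  rw [h2]
  refine mul_le_mul_right (mul_le_mul' (aa_int_le hμ hε) ?_) _
  rw [lintegral_const_mul _ mQ]
  exact mul_le_mul_right (hP.g2 s hs) _

theorem phi_neg {μ ε : ℝ} {P : ℝ → Eu n → ℝ} {s : ℝ} (hs : s ≤ 0) (z : ST n) :
    FF μ ε P s z = 0 := by
  unfold FF; rw [PP_neg hs]; ring

/-- **Hörmander condition** -/
theorem horm {μ ε C : ℝ} {P : ℝ → Eu n → ℝ} (hP : Fam P C) (hμ : 0 < μ) (hε : 0 < ε)
    (hε1 : ε < 1) (hC : 0 ≤ C) {r₀ : ℝ} (hr : 0 < r₀) {h : ℝ} {y : Eu n}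
    (hh : |h| ≤ r₀ ^ 2) (hy : ‖y‖ ≤ r₀) :
    ∫⁻ z in {z : ST n | 4 * r₀ ^ 2 ≤ |z.1| ∨ 2 * r₀ ≤ ‖z.2‖},
      ‖kap μ ε P (z.1 - h, z.2 - y) - kap μ ε P z‖ₑ ≤
      ENNReal.ofReal (18 * μ * C + (C / μ + 2 * C / (μ * Real.sqrt (3 * μ)))) := by
  set D : Set (ST n) := {z : ST n | 4 * r₀ ^ 2 ≤ |z.1| ∨ 2 * r₀ ≤ ‖z.2‖} with hDdef
  set S₀ : ℝ := 3 * μ * r₀ ^ 2 with hS₀
  have hS₀pos : 0 < S₀ := by positivity
  have mF : Measurable (fun p : ST n × ℝ =>
      ‖FF μ ε P p.2 (p.1.1 - h, p.1.2 - y) - FF μ ε P p.2 p.1‖ₑ) := by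
    refine Measurable.enorm (Measurable.sub ?_ ?_)
    · exact (FF_meas hP.cont).comp (measurable_snd.prodMk
        (((measurable_fst.comp measurable_fst).sub_const h).prodMk
          ((measurable_snd.comp measurable_fst).sub_const y)))
    · exact (FF_meas hP.cont).comp (measurable_snd.prodMk measurable_fst)
  calc ∫⁻ z in D, ‖kap μ ε P (z.1 - h, z.2 - y) - kap μ ε P z‖ₑ
      ≤ ∫⁻ z in D, ∫⁻ s, ‖FF μ ε P s (z.1 - h, z.2 - y) - FF μ ε P s z‖ₑ :=
        lintegral_mono fun z => kap_diff hP.cont hμ hε hε1 _ _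
    _ = ∫⁻ s, ∫⁻ z in D, ‖FF μ ε P s (z.1 - h, z.2 - y) - FF μ ε P s z‖ₑ :=
        lintegral_lintegral_swap mF.aemeasurable
    _ ≤ ∫⁻ s, ((Ioo 0 S₀).indicator (fun _ => ENNReal.ofReal 2 * (ENNReal.ofReal (S₀ / μ) *
          (ENNReal.ofReal ((r₀ ^ 4)⁻¹) * ENNReal.ofReal C))) s +
        ((Ioi S₀).indicator (fun s => ENNReal.ofReal (3 * |h| * C) * ENNReal.ofReal (s ^ (-2 : ℝ)) +
          ENNReal.ofReal (C * ‖y‖ / μ) * ENNReal.ofReal (s ^ (-(3 / 2) : ℝ))) s +
          ({S₀} : Set ℝ).indicator (fun _ => (⊤ : ℝ≥0∞)) s)) := by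
        refine lintegral_mono fun s => ?_
        rcases le_or_gt s 0 with hs | hs
        · simp [phi_neg hs]
        rcases lt_trichotomy s S₀ with h1 | h1 | h1
        · refine le_trans ?_ le_self_add
          rw [indicator_of_mem (show s ∈ Ioo 0 S₀ from ⟨hs, h1⟩)]
          refine (phi_near hP hμ hε hs hr h1 hh hy).trans ?_
          gcongr
        · refine le_trans ?_ le_add_self
          refine le_trans ?_ le_add_self
          rw [indicator_of_mem (by rw [h1]; rfl)]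
          exact le_top
        · refine le_trans ?_ le_add_self
          refine le_trans ?_ le_self_add
          rw [indicator_of_mem (show s ∈ Ioi S₀ from h1)]
          refine (setLIntegral_le_lintegral _ _).trans ((phi_far hP hμ hε hs h y).trans ?_)
          refine add_le_add (le_of_eq ?_) (le_of_eq ?_)
          · rw [← ENNReal.ofReal_mul (by positivity), ← ENNReal.ofReal_mul (by positivity)]
            congr 1
            rw [Real.rpow_neg hs.le, show (2 : ℝ) = ((2 : ℕ) : ℝ) by norm_num, Real.rpow_natCast]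
            push_cast
            field_simp
          · rw [← ENNReal.ofReal_mul (by positivity), ← ENNReal.ofReal_mul (by positivity)]
            congr 1
            have : s ^ (-(3 / 2) : ℝ) = s * s ^ (-(5 / 2) : ℝ) := by
              rw [← Real.rpow_one_add' hs.le (by norm_num)]
              congr 1; norm_num
            rw [this]; field_simp
    _ = ENNReal.ofReal 2 * (ENNReal.ofReal (S₀ / μ) *
          (ENNReal.ofReal ((r₀ ^ 4)⁻¹) * ENNReal.ofReal C)) * ENNReal.ofReal S₀ +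
        (ENNReal.ofReal (3 * |h| * C) * ENNReal.ofReal (S₀⁻¹) +
          ENNReal.ofReal (C * ‖y‖ / μ) * ENNReal.ofReal (2 * S₀ ^ (-(1 / 2) : ℝ))) := by
        have ms : Measurable fun s : ℝ => ({S₀} : Set ℝ).indicator (fun _ => (⊤ : ℝ≥0∞)) s :=
          measurable_const.indicator (measurableSet_singleton _)
        rw [lintegral_add_left (measurable_const.indicator measurableSet_Ioo),
          lintegral_add_right _ ms,
          lintegral_indicator measurableSet_Ioo, lintegral_indicator measurableSet_Ioi,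
          lintegral_indicator (measurableSet_singleton _)]
        simp only [lintegral_const, Measure.restrict_apply, MeasurableSet.univ, univ_inter,
          Real.volume_Ioo, sub_zero, Real.volume_singleton, mul_zero, add_zero]
        congr 1
        have mr : ∀ a : ℝ, Measurable fun s : ℝ => ENNReal.ofReal (s ^ a) := fun a =>
          ENNReal.measurable_ofReal.comp (measurable_id.pow_const a)
        rw [lintegral_add_left ((mr _).const_mul _), lintegral_const_mul _ (mr _),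
          lintegral_const_mul _ (mr _), lint_rpow (by norm_num) hS₀pos,
          lint_rpow (by norm_num) hS₀pos]
        congr 3
        · rw [show (-2 : ℝ) + 1 = -1 by norm_num, Real.rpow_neg_one]; ring
        · rw [show -(3 / 2 : ℝ) + 1 = -(1 / 2) by norm_num]; ring
    _ ≤ ENNReal.ofReal (18 * μ * C + (C / μ + 2 * C / (μ * Real.sqrt (3 * μ)))) := by
        have p1 : 0 ≤ C * ‖y‖ / μ := by positivity
        rw [← ENNReal.ofReal_mul (by positivity), ← ENNReal.ofReal_mul (by positivity),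
          ← ENNReal.ofReal_mul (by positivity), ← ENNReal.ofReal_mul (by positivity),
          ← ENNReal.ofReal_mul (by positivity), ← ENNReal.ofReal_mul (by positivity),
          ← ENNReal.ofReal_add (by positivity) (by positivity),
          ← ENNReal.ofReal_add (by positivity) (by positivity)]
        refine ENNReal.ofReal_le_ofReal (add_le_add (le_of_eq ?_) (add_le_add ?_ ?_))
        · rw [hS₀]; field_simp; ring
        · rw [hS₀]
          rw [← div_eq_mul_inv, div_le_div_iff₀ (by positivity) hμ]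
          nlinarith [mul_le_mul_of_nonneg_left hh (by positivity : 0 ≤ 3 * C * μ)]
        · have h3 : S₀ ^ (-(1 / 2) : ℝ) = (Real.sqrt (3 * μ) * r₀)⁻¹ := by
            rw [Real.rpow_neg hS₀pos.le, ← Real.sqrt_eq_rpow, hS₀,
              Real.sqrt_mul (by positivity), Real.sqrt_sq hr.le]
          rw [h3]
          have hsq : 0 < Real.sqrt (3 * μ) := Real.sqrt_pos.2 (by positivity)
          have e1 : C * ‖y‖ / μ * (2 * (Real.sqrt (3 * μ) * r₀)⁻¹) =
            2 * C / (μ * Real.sqrt (3 * μ)) * (‖y‖ / r₀) := by field_simp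
          rw [e1]
          refine mul_le_of_le_one_right (by positivity) ?_
          rw [div_le_one hr]; exact hy

/-- integrability of the main kernel -/
theorem kap_integrable {μ ε C : ℝ} {P : ℝ → Eu n → ℝ} (hP : Fam P C) (hμ : 0 < μ) (hε : 0 < ε)
    (hε1 : ε < 1) (hC : 0 ≤ C) : Integrable (kap μ ε P) := by
  refine ⟨(kap_meas hP.cont hμ hε hε1).aestronglyMeasurable, ?_⟩
  rw [hasFiniteIntegral_iff_enorm]
  have mF : Measurable (fun p : ST n × ℝ => ‖FF μ ε P p.2 p.1‖ₑ) :=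
    ((FF_meas hP.cont).comp (measurable_snd.prodMk measurable_fst)).enorm
  calc ∫⁻ z, ‖kap μ ε P z‖ₑ ≤ ∫⁻ z, ∫⁻ s, ‖FF μ ε P s z‖ₑ :=
        lintegral_mono fun z => kap_enorm hμ hε hε1 z
    _ = ∫⁻ s, ∫⁻ z, ‖FF μ ε P s z‖ₑ := lintegral_lintegral_swap mF.aemeasurable
    _ ≤ ∫⁻ s, (Ioi ε).indicator (fun s => ENNReal.ofReal (C / μ) *
          ENNReal.ofReal (s ^ (-2 : ℝ))) s := by
        refine lintegral_mono fun s => ?_
        have ma : Measurable fun r => aa μ ε s r :=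
          (aa_meas μ ε).comp (measurable_const.prodMk measurable_id)
        have mp : Measurable fun x : Eu n => PP P (s, x) :=
          (PP_meas hP.cont).comp (measurable_const.prodMk measurable_id)
        have e1 : ∫⁻ z, ‖FF μ ε P s z‖ₑ = (∫⁻ r, ‖aa μ ε s r‖ₑ) * ∫⁻ x, ‖PP P (s, x)‖ₑ := by
          unfold FF
          simp_rw [enorm_mul]
          rw [Measure.volume_eq_prod,
            lintegral_prod_mul ma.enorm.aemeasurable mp.enorm.aemeasurable]
        rw [e1]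
        refine (mul_le_mul_left (aa_int_le' hμ hε) _).trans ?_
        by_cases hs : s ∈ Ioi ε
        · rw [indicator_of_mem hs, indicator_of_mem hs]
          have hs0 : 0 < s := hε.trans hs
          have e2 : ∫⁻ x, ‖PP P (s, x)‖ₑ = ∫⁻ x, ‖P s x‖ₑ :=
            lintegral_congr fun x => by rw [PP_pos hs0]
          rw [e2]
          refine (mul_le_mul_right (hP.g1 s hs0) _).trans (le_of_eq ?_)
          rw [← ENNReal.ofReal_mul (by positivity), ← ENNReal.ofReal_mul (by positivity)]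
          congr 1
          rw [Real.rpow_neg hs0.le, show (2 : ℝ) = ((2 : ℕ) : ℝ) by norm_num, Real.rpow_natCast]
          field_simp
        · rw [indicator_of_notMem hs, indicator_of_notMem hs]; simp
    _ < ⊤ := by
        have mr : Measurable fun s : ℝ => ENNReal.ofReal (s ^ (-2 : ℝ)) :=
          ENNReal.measurable_ofReal.comp (measurable_id.pow_const _)
        rw [lintegral_indicator measurableSet_Ioi, lintegral_const_mul _ mr,
          lint_rpow (by norm_num) hε]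
        exact ENNReal.mul_lt_top ENNReal.ofReal_lt_top ENNReal.ofReal_lt_top

end Pool.Agent.Helper79.Horm
end

section
/-!
# Gaussian derivatives (part A): polynomial factors, decay, scaling, smoothness, heat equation
-/

open MeasureTheory Set Filter Topology
open scoped ENNReal ContDiff

namespace Pool.Agent.Helper50.JG

open Pool.Agent.Helper42.Jef

variable {n : ℕ}

/-! ## polynomials -/

/-- polynomial functions on `ℝⁿ` -/
inductive IsPoly : (Eu n → ℝ) → Prop
  | const (c : ℝ) : IsPoly (fun _ => c)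
  | coord (i : Fin n) : IsPoly (fun x => x i)
  | add {f g : Eu n → ℝ} : IsPoly f → IsPoly g → IsPoly (fun x => f x + g x)
  | mul {f g : Eu n → ℝ} : IsPoly f → IsPoly g → IsPoly (fun x => f x * g x)

theorem contDiff_coord (i : Fin n) : ContDiff ℝ ∞ (fun x : Eu n => x i) :=
  (EuclideanSpace.proj (𝕜 := ℝ) i).contDiff

theorem IsPoly.contDiff {f : Eu n → ℝ} (h : IsPoly f) : ContDiff ℝ ∞ f := by
  induction h with
  | const c => exact contDiff_const
  | coord i => exact contDiff_coord i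
  | add _ _ hf hg => exact hf.add hg
  | mul _ _ hf hg => exact hf.mul hg

theorem pd_coord (i j : Fin n) (x : Eu n) : pd i (fun x : Eu n => x j) x = if j = i then 1 else 0 := by
  have h : HasFDerivAt (fun x : Eu n => x j) (EuclideanSpace.proj (𝕜 := ℝ) j) x :=
    (EuclideanSpace.proj (𝕜 := ℝ) j).hasFDerivAt
  rw [pd, h.fderiv, bv]
  simp [PiLp.single_apply]

theorem pd_add {f g : Eu n → ℝ} {x : Eu n} (i : Fin n) (hf : DifferentiableAt ℝ f x)
    (hg : DifferentiableAt ℝ g x) : pd i (fun x => f x + g x) x = pd i f x + pd i g x := by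
  unfold pd
  rw [fderiv_fun_add hf hg]; rfl

theorem pd_mul {f g : Eu n → ℝ} {x : Eu n} (i : Fin n) (hf : DifferentiableAt ℝ f x)
    (hg : DifferentiableAt ℝ g x) :
    pd i (fun x => f x * g x) x = pd i f x * g x + f x * pd i g x := by
  unfold pd
  rw [fderiv_fun_mul hf hg]
  simp
  ring

theorem IsPoly.diff {f : Eu n → ℝ} (h : IsPoly f) : Differentiable ℝ f :=
  h.contDiff.differentiable (by simp)

theorem IsPoly.pd {f : Eu n → ℝ} (h : IsPoly f) (i : Fin n) : IsPoly (Helper42.Jef.pd i f) := by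
  induction h with
  | const c =>
    have : Helper42.Jef.pd i (fun _ : Eu n => c) = fun _ => 0 := by
      funext x; unfold Helper42.Jef.pd; simp
    rw [this]; exact .const 0
  | coord j =>
    have : Helper42.Jef.pd i (fun x : Eu n => x j) = fun _ => if j = i then (1 : ℝ) else 0 := by
      funext x; exact pd_coord i j x
    rw [this]; exact .const _
  | @add f g hf hg h1 h2 =>
    have : Helper42.Jef.pd i (fun x => f x + g x) = fun x => Helper42.Jef.pd i f x + Helper42.Jef.pd i g x := by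
      funext x; exact pd_add i (hf.diff x) (hg.diff x)
    rw [this]; exact .add h1 h2
  | @mul f g hf hg h1 h2 =>
    have : Helper42.Jef.pd i (fun x => f x * g x) =
        fun x => Helper42.Jef.pd i f x * g x + f x * Helper42.Jef.pd i g x := by
      funext x; exact pd_mul i (hf.diff x) (hg.diff x)
    rw [this]; exact .add (.mul h1 hg) (.mul hf h2)

theorem IsPoly.growth {f : Eu n → ℝ} (h : IsPoly f) :
    ∃ (C : ℝ) (k : ℕ), 0 ≤ C ∧ ∀ x, |f x| ≤ C * (1 + ‖x‖) ^ k := by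
  induction h with
  | const c => exact ⟨|c|, 0, abs_nonneg _, fun x => by simp⟩
  | coord i =>
    refine ⟨1, 1, zero_le_one, fun x => ?_⟩
    have : |x i| ≤ ‖x‖ := by
      simpa using PiLp.norm_apply_le x i
    simpa using this.trans (by linarith)
  | @add f g _ _ h1 h2 =>
    obtain ⟨C1, k1, hC1, h1⟩ := h1
    obtain ⟨C2, k2, hC2, h2⟩ := h2
    refine ⟨C1 + C2, k1 + k2, by positivity, fun x => ?_⟩
    have hx : (1 : ℝ) ≤ 1 + ‖x‖ := by linarith [norm_nonneg x]
    calc |f x + g x| ≤ |f x| + |g x| := abs_add_le _ _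
      _ ≤ C1 * (1 + ‖x‖) ^ k1 + C2 * (1 + ‖x‖) ^ k2 := add_le_add (h1 x) (h2 x)
      _ ≤ C1 * (1 + ‖x‖) ^ (k1 + k2) + C2 * (1 + ‖x‖) ^ (k1 + k2) := by
          gcongr <;> first | exact hx | omega
      _ = (C1 + C2) * (1 + ‖x‖) ^ (k1 + k2) := by ring
  | @mul f g _ _ h1 h2 =>
    obtain ⟨C1, k1, hC1, h1⟩ := h1
    obtain ⟨C2, k2, hC2, h2⟩ := h2
    refine ⟨C1 * C2, k1 + k2, by positivity, fun x => ?_⟩
    rw [abs_mul]
    calc |f x| * |g x| ≤ (C1 * (1 + ‖x‖) ^ k1) * (C2 * (1 + ‖x‖) ^ k2) :=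
          mul_le_mul (h1 x) (h2 x) (abs_nonneg _) (by positivity)
      _ = C1 * C2 * (1 + ‖x‖) ^ (k1 + k2) := by ring

/-! ## the Gaussian -/

theorem Gs_smooth (s : ℝ) : ContDiff ℝ ∞ (Gs s : Eu n → ℝ) := by
  unfold Gs
  exact contDiff_const.mul (Real.contDiff_exp.comp (((contDiff_norm_sq ℝ).neg).div_const _))

theorem pd_smooth {f : Eu n → ℝ} (hf : ContDiff ℝ ∞ f) (i : Fin n) : ContDiff ℝ ∞ (pd i f) := by
  unfold pd
  exact (hf.fderiv_right (m := ∞) (by simp)).clm_apply contDiff_const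

theorem pds_smooth {f : Eu n → ℝ} (hf : ContDiff ℝ ∞ f) (l : List (Fin n)) :
    ContDiff ℝ ∞ (pds l f) := by
  induction l with
  | nil => exact hf
  | cons i l ih => exact pd_smooth ih i

theorem hasFDerivAt_Gs (s : ℝ) (x : Eu n) :
    HasFDerivAt (Gs s : Eu n → ℝ) ((-(1 / (2 * s)) * Gs s x) • innerSL ℝ x) x := by
  have h1 : HasFDerivAt (fun x : Eu n => ‖x‖ ^ 2) (2 • innerSL ℝ x) x :=
    (hasStrictFDerivAt_norm_sq x).hasFDerivAt
  have h1' : HasFDerivAt (fun x : Eu n => -‖x‖ ^ 2) (-(2 • innerSL ℝ x)) x := h1.neg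
  have h2 := (h1'.mul_const ((4 * s)⁻¹)).exp.const_mul
    ((4 * Real.pi * s) ^ (-(n : ℝ) / 2))
  have h3 : (Gs s : Eu n → ℝ) = fun x => (4 * Real.pi * s) ^ (-(n : ℝ) / 2) *
      Real.exp (-‖x‖ ^ 2 * (4 * s)⁻¹) := by
    funext y; unfold Gs; rw [div_eq_mul_inv (-‖y‖ ^ 2)]
  rw [h3]
  refine h2.congr_fderiv ?_
  ext y
  simp only [_root_.smul_apply, _root_.neg_apply,
    smul_eq_mul, innerSL_apply_apply, nsmul_eq_mul]
  rcases eq_or_ne s 0 with hs | hs
  · subst hs; simp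
  · field_simp
    ring

theorem pd_Gs (s : ℝ) (i : Fin n) (x : Eu n) :
    pd i (Gs s) x = -(x i / (2 * s)) * Gs s x := by
  rw [pd, (hasFDerivAt_Gs s x).fderiv, bv]
  simp only [_root_.smul_apply, innerSL_apply_apply, smul_eq_mul,
    EuclideanSpace.inner_single_right]
  simp
  ring

/-- derivatives of the unit Gaussian are polynomials times the Gaussian -/
theorem pds_Gs_one (l : List (Fin n)) :
    ∃ P : Eu n → ℝ, IsPoly P ∧ pds l (Gs 1) = fun x => P x * Gs 1 x := by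
  induction l with
  | nil => exact ⟨fun _ => 1, .const 1, by funext x; simp [pds]⟩
  | cons i l ih =>
    obtain ⟨P, hP, hl⟩ := ih
    refine ⟨fun x => Helper42.Jef.pd i P x + P x * (-(1 / 2) * x i),
      .add (hP.pd i) (.mul hP (.mul (.const _) (.coord i))), ?_⟩
    funext x
    have : pds (i :: l) (Gs 1) x = Helper42.Jef.pd i (pds l (Gs 1)) x := rfl
    rw [this, hl, pd_mul i (hP.diff x) ((Gs_smooth 1).differentiable (by simp) x), pd_Gs]
    ring

theorem Gs_one_nonneg (x : Eu n) : 0 ≤ Gs 1 x := by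
  unfold Gs; positivity

/-- Gaussian decay of all derivatives -/
theorem pds_decay (l : List (Fin n)) :
    ∃ C : ℝ, 0 ≤ C ∧ ∀ x : Eu n, |pds l (Gs 1) x| ≤ C * Real.exp (-(1 / 8) * ‖x‖ ^ 2) := by
  obtain ⟨P, hP, hl⟩ := pds_Gs_one l
  obtain ⟨C, k, hC, hg⟩ := hP.growth
  set A : ℝ := (4 * Real.pi * 1) ^ (-(n : ℝ) / 2) with hA
  have hA0 : 0 ≤ A := by positivity
  refine ⟨C * (k.factorial * Real.exp 3) * A, by positivity, fun x => ?_⟩
  rw [hl, abs_mul, abs_of_nonneg (Gs_one_nonneg x)]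
  have h1 : (1 + ‖x‖) ^ k ≤ k.factorial * Real.exp (1 + ‖x‖) := by
    have := Real.pow_div_factorial_le_exp (x := 1 + ‖x‖) (by positivity) k
    rw [div_le_iff₀ (by positivity)] at this
    linarith
  have h2 : Gs 1 x = A * Real.exp (-(1 / 4) * ‖x‖ ^ 2) := by
    unfold Gs; congr 2; ring
  rw [h2]
  have h3 : Real.exp (1 + ‖x‖) * Real.exp (-(1 / 4) * ‖x‖ ^ 2) ≤
      Real.exp 3 * Real.exp (-(1 / 8) * ‖x‖ ^ 2) := by
    rw [← Real.exp_add, ← Real.exp_add]
    apply Real.exp_le_exp.2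
    nlinarith [sq_nonneg (‖x‖ - 4)]
  calc |P x| * (A * Real.exp (-(1 / 4) * ‖x‖ ^ 2))
      ≤ (C * (k.factorial * Real.exp (1 + ‖x‖))) * (A * Real.exp (-(1 / 4) * ‖x‖ ^ 2)) := by
        refine mul_le_mul_of_nonneg_right ((hg x).trans ?_) (by positivity)
        gcongr
    _ = C * k.factorial * A * (Real.exp (1 + ‖x‖) * Real.exp (-(1 / 4) * ‖x‖ ^ 2)) := by ring
    _ ≤ C * k.factorial * A * (Real.exp 3 * Real.exp (-(1 / 8) * ‖x‖ ^ 2)) := by gcongr
    _ = _ := by ring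

/-! ## scaling -/

theorem pd_scale (f : Eu n → ℝ) (c a : ℝ) (i : Fin n) (x : Eu n) :
    pd i (fun x => c * f (a • x)) x = c * a * pd i f (a • x) := by
  unfold pd
  have h1 : fderiv ℝ (fun x => c * f (a • x)) x = c • fderiv ℝ (fun x => f (a • x)) x := by
    have := congrFun (fderiv_const_smul_field (𝕜 := ℝ) (f := fun x : Eu n => f (a • x)) c) x
    exact this
  have h2 : fderiv ℝ (fun x => f (a • x)) x = a • fderiv ℝ f (a • x) := by
    exact fderiv_comp_smul (f := f) (x := x) a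
  rw [h1, h2]
  simp [smul_eq_mul]; ring

theorem pds_scale (f : Eu n → ℝ) (a : ℝ) (c : ℝ) (l : List (Fin n)) (x : Eu n) :
    pds l (fun x => c * f (a • x)) x = c * a ^ l.length * pds l f (a • x) := by
  induction l generalizing x with
  | nil => simp [pds]
  | cons i l ih =>
    have h1 : pds l (fun x => c * f (a • x)) = fun x => (c * a ^ l.length) * pds l f (a • x) := by
      funext y; exact ih y
    change pd i (pds l (fun x => c * f (a • x))) x = _
    rw [h1, pd_scale]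
    change _ = c * a ^ (l.length + 1) * pd i (pds l f) (a • x)
    ring

/-- the scaled derivative, a globally measurable function of `(s, x)` -/
noncomputable def Fl (l : List (Fin n)) (z : ST n) : ℝ :=
  (Real.sqrt z.1)⁻¹ ^ (n + l.length) * pds l (Gs 1) ((Real.sqrt z.1)⁻¹ • z.2)

theorem Gs_scale {s : ℝ} (hs : 0 < s) (x : Eu n) :
    Gs s x = (Real.sqrt s)⁻¹ ^ n * Gs 1 ((Real.sqrt s)⁻¹ • x) := by
  unfold Gs
  have h1 : (4 * Real.pi * s) ^ (-(n : ℝ) / 2) =
      (Real.sqrt s)⁻¹ ^ n * (4 * Real.pi * 1) ^ (-(n : ℝ) / 2) := by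
    rw [Real.mul_rpow (by positivity) hs.le, mul_one, mul_comm]
    congr 1
    rw [Real.sqrt_eq_rpow, ← Real.rpow_neg hs.le, ← Real.rpow_natCast, ← Real.rpow_mul hs.le]
    congr 1; ring
  rw [h1, mul_assoc]
  congr 3
  rw [norm_smul, mul_pow, Real.norm_eq_abs, sq_abs, inv_pow, Real.sq_sqrt hs.le]
  field_simp

theorem pds_Gs {s : ℝ} (hs : 0 < s) (l : List (Fin n)) (x : Eu n) :
    pds l (Gs s) x = Fl l (s, x) := by
  have h0 : (Gs s : Eu n → ℝ) = fun x => (Real.sqrt s)⁻¹ ^ n * Gs 1 ((Real.sqrt s)⁻¹ • x) := by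
    funext y; exact Gs_scale hs y
  rw [h0, pds_scale, Fl, ← pow_add]

theorem Fl_smoothAt (l : List (Fin n)) {z : ST n} (hz : 0 < z.1) : ContDiffAt ℝ ∞ (Fl l) z := by
  have h1 : ContDiffAt ℝ ∞ (fun z : ST n => (Real.sqrt z.1)⁻¹) z := by
    have h2 : ContDiffAt ℝ ∞ Real.sqrt z.1 := Real.contDiffAt_sqrt hz.ne'
    have h3 : ContDiffAt ℝ ∞ (fun z : ST n => z.1) z := contDiffAt_fst
    have h4 : ContDiffAt ℝ ∞ (fun z : ST n => Real.sqrt z.1) z := h2.comp z h3
    exact h4.inv (Real.sqrt_pos.2 hz).ne'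
  unfold Fl
  refine (h1.pow _).mul ?_
  exact (pds_smooth (Gs_smooth 1) l).contDiffAt.comp z (h1.smul contDiffAt_snd)

theorem measurable_Fl (l : List (Fin n)) : Measurable (Fl l) := by
  unfold Fl
  have h1 : Measurable (fun z : ST n => (Real.sqrt z.1)⁻¹) :=
    (Real.continuous_sqrt.measurable.comp measurable_fst).inv
  refine (h1.pow_const _).mul ?_
  exact (pds_smooth (Gs_smooth 1) l).continuous.measurable.comp (h1.smul measurable_snd)

/-! ## permutations -/

theorem pd_comm {f : Eu n → ℝ} (hf : ContDiff ℝ ∞ f) (i j : Fin n) (x : Eu n) :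
    pd i (pd j f) x = pd j (pd i f) x := by
  have hsym : IsSymmSndFDerivAt ℝ f x :=
    (hf.contDiffAt (x := x)).isSymmSndFDerivAt (by rw [minSmoothness_of_isRCLikeNormedField]; decide)
  have hd : Differentiable ℝ (fderiv ℝ f) :=
    (hf.fderiv_right (m := ∞) (by simp)).differentiable (by simp)
  have key : ∀ i j : Fin n, pd i (pd j f) x = fderiv ℝ (fderiv ℝ f) x (bv i) (bv j) := by
    intro i j
    unfold pd
    have := fderiv_clm_apply (hd x) (differentiableAt_const (bv j : Eu n))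
    have h2 : (fun y => fderiv ℝ f y (bv j)) = fun y => (fderiv ℝ f y) ((fun _ => (bv j : Eu n)) y) := rfl
    rw [h2, this]
    simp
  rw [key, key]
  exact hsym _ _

theorem pds_perm {f : Eu n → ℝ} (hf : ContDiff ℝ ∞ f) {l l' : List (Fin n)} (h : l.Perm l') :
    pds l f = pds l' f := by
  induction h with
  | nil => rfl
  | cons i _ ih => change pd i (pds _ f) = pd i (pds _ f); rw [ih]
  | swap i j l =>
    funext x
    exact pd_comm (pds_smooth hf l) _ _ x
  | trans _ _ h1 h2 => exact h1.trans h2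

/-! ## heat equation -/

theorem pd_pd_Gs {s : ℝ} (hs : 0 < s) (i : Fin n) (x : Eu n) :
    pd i (pd i (Gs s)) x = (-(1 / (2 * s)) + (x i) ^ 2 / (4 * s ^ 2)) * Gs s x := by
  have h1 : pd i (Gs s) = fun x : Eu n => (-(1 / (2 * s)) * x i) * Gs s x := by
    funext y; rw [pd_Gs]; ring
  have hc : IsPoly (fun x : Eu n => -(1 / (2 * s)) * x i) := .mul (.const _) (.coord i)
  rw [h1, pd_mul i (hc.diff x) ((Gs_smooth s).differentiable (by simp) x), pd_Gs,
    pd_mul i ((IsPoly.const _).diff x) ((IsPoly.coord i).diff x), pd_coord]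
  have : pd i (fun _ : Eu n => -(1 / (2 * s))) x = 0 := by unfold pd; simp
  rw [this]
  simp only [if_true]
  field_simp
  ring

theorem heat_base {s : ℝ} (hs : 0 < s) (x : Eu n) :
    HasDerivAt (fun s => Gs s x) (∑ i, pd i (pd i (Gs s)) x) s := by
  have h1 : HasDerivAt (fun s : ℝ => (4 * Real.pi * s) ^ (-(n : ℝ) / 2))
      ((4 * Real.pi) * (-(n : ℝ) / 2) * (4 * Real.pi * s) ^ (-(n : ℝ) / 2 - 1)) s := by
    have h0 : HasDerivAt (fun s : ℝ => 4 * Real.pi * s) (4 * Real.pi) s := by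
      simpa using (hasDerivAt_id s).const_mul (4 * Real.pi)
    exact h0.rpow_const (Or.inl (by positivity))
  have h2 : HasDerivAt (fun s : ℝ => Real.exp (-‖x‖ ^ 2 / (4 * s)))
      (Real.exp (-‖x‖ ^ 2 / (4 * s)) * (‖x‖ ^ 2 / (4 * s ^ 2))) s := by
    have h0 : HasDerivAt (fun s : ℝ => -‖x‖ ^ 2 / (4 * s)) (‖x‖ ^ 2 / (4 * s ^ 2)) s := by
      have h00 : HasDerivAt (fun s : ℝ => 4 * s) 4 s := by
        simpa using (hasDerivAt_id s).const_mul (4 : ℝ)
      have := (hasDerivAt_const s (-‖x‖ ^ 2)).div h00 (by positivity)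
      refine this.congr_deriv ?_
      field_simp
      ring
    exact h0.exp
  have h3 := h1.mul h2
  refine h3.congr_deriv ?_
  simp_rw [pd_pd_Gs hs]
  rw [← Finset.sum_mul, Finset.sum_add_distrib, ← Finset.sum_div]
  have h4 : ∑ i : Fin n, (x i) ^ 2 = ‖x‖ ^ 2 := by
    rw [EuclideanSpace.norm_sq_eq]; simp
  rw [h4]
  simp only [Finset.sum_const, Finset.card_univ, Fintype.card_fin, nsmul_eq_mul]
  unfold Gs
  have h5 : (4 * Real.pi * s) ^ (-(n : ℝ) / 2 - 1) = (4 * Real.pi * s) ^ (-(n : ℝ) / 2) / (4 * Real.pi * s) := by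
    rw [Real.rpow_sub_one (by positivity)]
  rw [h5]
  have hpi := Real.pi_pos
  field_simp

theorem pds_eq_fderiv {s : ℝ} (hs : 0 < s) (l : List (Fin n)) (i : Fin n) (x : Eu n) :
    pds (i :: l) (Gs s) x = fderiv ℝ (Fl l) (s, x) (0, bv i) := by
  have h1 : pds l (Gs s) = fun x : Eu n => Fl l (s, x) := by funext y; exact pds_Gs hs l y
  change pd i (pds l (Gs s)) x = _
  rw [h1]
  unfold pd
  have hd : DifferentiableAt ℝ (Fl l) (s, x) := (Fl_smoothAt l hs).differentiableAt (by simp)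
  have h2 : HasFDerivAt (fun y : Eu n => ((s, y) : ST n)) (ContinuousLinearMap.inr ℝ ℝ (Eu n)) x :=
    hasFDerivAt_prodMk_right s x
  have h3 := hd.hasFDerivAt.comp x h2
  have h4 : fderiv ℝ (fun y : Eu n => Fl l (s, y)) x =
      (fderiv ℝ (Fl l) (s, x)).comp (ContinuousLinearMap.inr ℝ ℝ (Eu n)) := h3.fderiv
  rw [h4]; simp

/-- the heat equation for all derivatives -/
theorem heat_pds {s : ℝ} (hs : 0 < s) (l : List (Fin n)) (x : Eu n) :
    HasDerivAt (fun s => pds l (Gs s) x) (∑ i, pds (i :: i :: l) (Gs s) x) s := by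
  induction l generalizing s x with
  | nil => exact heat_base hs x
  | cons k l ih =>
    have hopen : IsOpen {z : ST n | 0 < z.1} := isOpen_lt continuous_const continuous_fst
    have hF : ContDiffAt ℝ ∞ (Fl l) (s, x) := Fl_smoothAt l hs
    have hsym : IsSymmSndFDerivAt ℝ (Fl l) (s, x) :=
      hF.isSymmSndFDerivAt (by rw [minSmoothness_of_isRCLikeNormedField]; decide)
    have hdd : DifferentiableAt ℝ (fderiv ℝ (Fl l)) (s, x) :=
      (hF.fderiv_right (m := ∞) (by simp)).differentiableAt (by simp)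
    -- derivative in s
    have h1 : HasDerivAt (fun s => fderiv ℝ (Fl l) (s, x) (0, bv k))
        (fderiv ℝ (fderiv ℝ (Fl l)) (s, x) (1, 0) (0, bv k)) s := by
      have hline : HasDerivAt (fun s : ℝ => ((s, x) : ST n)) (1, 0) s :=
        (hasDerivAt_id s).prodMk (hasDerivAt_const s x)
      have h0 : HasDerivAt (fun s : ℝ => fderiv ℝ (Fl l) (s, x))
          (fderiv ℝ (fderiv ℝ (Fl l)) (s, x) (1, 0)) s :=
        (HasFDerivAt.comp_hasDerivAt (l := fderiv ℝ (Fl l)) (f := fun s : ℝ => ((s, x) : ST n)) s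
          hdd.hasFDerivAt hline)
      simpa using h0.clm_apply (hasDerivAt_const s ((0, bv k) : ST n))
    have h2 : (fun s => pds (k :: l) (Gs s) x) =ᶠ[𝓝 s]
        fun s => fderiv ℝ (Fl l) (s, x) (0, bv k) := by
      filter_upwards [lt_mem_nhds hs] with s' hs'
      exact pds_eq_fderiv hs' l k x
    have h3 := h1.congr_of_eventuallyEq h2
    refine h3.congr_deriv ?_
    rw [hsym]
    -- derivative in x of the time derivative
    have h4 : ∀ y : Eu n, fderiv ℝ (Fl l) (s, y) (1, 0) = ∑ i, pds (i :: i :: l) (Gs s) y := by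
      intro y
      have hd : DifferentiableAt ℝ (Fl l) (s, y) := (Fl_smoothAt l hs).differentiableAt (by simp)
      have hline : HasDerivAt (fun s : ℝ => ((s, y) : ST n)) (1, 0) s :=
        (hasDerivAt_id s).prodMk (hasDerivAt_const s y)
      have h5 : HasDerivAt (fun s => Fl l (s, y)) (fderiv ℝ (Fl l) (s, y) (1, 0)) s :=
        (HasFDerivAt.comp_hasDerivAt (l := Fl l) (f := fun s : ℝ => ((s, y) : ST n)) s
          hd.hasFDerivAt hline)
      have h6 : (fun s => pds l (Gs s) y) =ᶠ[𝓝 s] fun s => Fl l (s, y) := by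
        filter_upwards [lt_mem_nhds hs] with s' hs'
        exact pds_Gs hs' l y
      exact (h5.congr_of_eventuallyEq h6).unique (ih hs y)
    have h7 : HasFDerivAt (fun y : Eu n => fderiv ℝ (Fl l) (s, y) (1, 0))
        (((fderiv ℝ (fderiv ℝ (Fl l)) (s, x)).comp (ContinuousLinearMap.inr ℝ ℝ (Eu n))).flip
          (1, 0)) x := by
      have h2' : HasFDerivAt (fun y : Eu n => ((s, y) : ST n)) (ContinuousLinearMap.inr ℝ ℝ (Eu n)) x :=
        hasFDerivAt_prodMk_right s x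
      have := hdd.hasFDerivAt.comp x h2'
      have h8 := this.clm_apply (hasFDerivAt_const ((1, 0) : ST n) x)
      refine h8.congr_fderiv ?_
      ext y; simp
    have h9 : pd k (fun y : Eu n => fderiv ℝ (Fl l) (s, y) (1, 0)) x =
        fderiv ℝ (fderiv ℝ (Fl l)) (s, x) (0, bv k) (1, 0) := by
      unfold pd; rw [h7.fderiv]; simp
    rw [← h9]
    have h10 : (fun y : Eu n => fderiv ℝ (Fl l) (s, y) (1, 0)) =
        fun y => ∑ i, pds (i :: i :: l) (Gs s) y := by funext y; exact h4 y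
    rw [h10]
    have h11 : pd k (fun y : Eu n => ∑ i, pds (i :: i :: l) (Gs s) y) x =
        ∑ i, pd k (pds (i :: i :: l) (Gs s)) x := by
      unfold pd
      rw [fderiv_fun_sum (fun i _ => (pds_smooth (Gs_smooth s) _).differentiable (by simp) x)]
      simp
    rw [h11]
    refine Finset.sum_congr rfl fun i _ => ?_
    change pds (k :: i :: i :: l) (Gs s) x = pds (i :: i :: k :: l) (Gs s) x
    have hp : (k :: i :: i :: l).Perm (i :: i :: k :: l) :=
      (List.Perm.swap i k (i :: l)).trans (List.Perm.cons i (List.Perm.swap i k l))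
    rw [pds_perm (Gs_smooth s) hp]

end Pool.Agent.Helper50.JG
end

section
/-!
# Gaussian derivatives (part B): integral estimates g1, g2, g3
-/

open MeasureTheory Set Filter Topology
open scoped ENNReal ContDiff

namespace Pool.Agent.Helper50.JG

open Pool.Agent.Helper42.Jef

variable {n : ℕ}

theorem integrable_gauss {b : ℝ} (hb : 0 < b) :
    Integrable (fun x : Eu n => Real.exp (-b * ‖x‖ ^ 2)) := by
  have h := GaussianFourier.integrable_cexp_neg_mul_sq_norm_add (V := Eu n) (b := (b : ℂ))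
    (by simpa using hb) 0 0
  have h2 := h.norm
  refine h2.congr (Eventually.of_forall fun x => ?_)
  simp only [zero_mul, add_zero]
  rw [Complex.norm_exp]
  congr 1
  simp [← Complex.ofReal_pow]

theorem weight_bound : ∃ C : ℝ, 0 ≤ C ∧ ∀ r : ℝ, 0 ≤ r →
    r ^ 4 * Real.exp (-(1 / 8) * r ^ 2) ≤ C * Real.exp (-(1 / 16) * r ^ 2) := by
  refine ⟨Nat.factorial 4 * Real.exp 4, by positivity, fun r hr => ?_⟩
  have h1 : r ^ 4 ≤ Nat.factorial 4 * Real.exp r := by
    have := Real.pow_div_factorial_le_exp (x := r) hr 4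
    rw [div_le_iff₀ (by positivity)] at this
    linarith
  have h3 : Real.exp r * Real.exp (-(1 / 8) * r ^ 2) ≤
      Real.exp 4 * Real.exp (-(1 / 16) * r ^ 2) := by
    rw [← Real.exp_add, ← Real.exp_add]
    apply Real.exp_le_exp.2
    nlinarith [sq_nonneg (r - 8)]
  calc r ^ 4 * Real.exp (-(1 / 8) * r ^ 2)
      ≤ (Nat.factorial 4 * Real.exp r) * Real.exp (-(1 / 8) * r ^ 2) := by gcongr
    _ = Nat.factorial 4 * (Real.exp r * Real.exp (-(1 / 8) * r ^ 2)) := by ring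
    _ ≤ Nat.factorial 4 * (Real.exp 4 * Real.exp (-(1 / 16) * r ^ 2)) := by gcongr
    _ = _ := by ring

theorem integrable_one (l : List (Fin n)) : Integrable (pds l (Gs 1) : Eu n → ℝ) := by
  obtain ⟨C, hC, h⟩ := pds_decay l
  refine ((integrable_gauss (n := n) (b := 1 / 8) (by norm_num)).const_mul C).mono'
    (pds_smooth (Gs_smooth 1) l).continuous.aestronglyMeasurable
    (Eventually.of_forall fun x => ?_)
  simpa using h x

theorem integrable_one_weight (l : List (Fin n)) :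
    Integrable (fun x : Eu n => ‖x‖ ^ 4 * pds l (Gs 1) x) := by
  obtain ⟨C, hC, h⟩ := pds_decay l
  obtain ⟨D, hD, hw⟩ := weight_bound
  refine ((integrable_gauss (n := n) (b := 1 / 16) (by norm_num)).const_mul (C * D)).mono'
    (((continuous_norm.pow 4).mul
      (pds_smooth (Gs_smooth 1) l).continuous).aestronglyMeasurable)
    (Eventually.of_forall fun x => ?_)
  rw [norm_mul, norm_pow, norm_norm, Real.norm_eq_abs]
  calc ‖x‖ ^ 4 * |pds l (Gs 1) x| ≤ ‖x‖ ^ 4 * (C * Real.exp (-(1 / 8) * ‖x‖ ^ 2)) := by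
        gcongr; exact h x
    _ = C * (‖x‖ ^ 4 * Real.exp (-(1 / 8) * ‖x‖ ^ 2)) := by ring
    _ ≤ C * (D * Real.exp (-(1 / 16) * ‖x‖ ^ 2)) :=
          mul_le_mul_of_nonneg_left (hw _ (norm_nonneg x)) hC
    _ = _ := by ring

theorem a_pow {s : ℝ} (hs : 0 < s) (j : ℕ) :
    (Real.sqrt s)⁻¹ ^ j = s ^ (-(j : ℝ) / 2) := by
  rw [Real.sqrt_eq_rpow, ← Real.rpow_neg hs.le, ← Real.rpow_natCast, ← Real.rpow_mul hs.le]
  congr 1; ring

/-- (g1) for one list -/
theorem g1' (l : List (Fin n)) : ∃ C : ℝ, 0 ≤ C ∧ ∀ s : ℝ, 0 < s →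
    Integrable (pds l (Gs s) : Eu n → ℝ) ∧
    ∫⁻ x : Eu n, ‖pds l (Gs s) x‖ₑ ≤ ENNReal.ofReal (C * s ^ (-(l.length : ℝ) / 2)) := by
  refine ⟨∫ x : Eu n, ‖pds l (Gs 1) x‖, integral_nonneg fun x => norm_nonneg _, fun s hs => ?_⟩
  set a : ℝ := (Real.sqrt s)⁻¹ with ha
  have ha0 : 0 < a := by have := Real.sqrt_pos.2 hs; positivity
  have h0 : (pds l (Gs s) : Eu n → ℝ) = fun x => a ^ (n + l.length) * pds l (Gs 1) (a • x) := by
    funext x; rw [pds_Gs hs]; rfl
  have hI : Integrable (fun x : Eu n => a ^ (n + l.length) * pds l (Gs 1) (a • x)) :=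
    ((integrable_one l).comp_smul ha0.ne').const_mul _
  rw [h0]
  refine ⟨hI, ?_⟩
  rw [← ofReal_integral_norm_eq_lintegral_enorm hI]
  apply ENNReal.ofReal_le_ofReal
  have h1 : ∫ x : Eu n, ‖a ^ (n + l.length) * pds l (Gs 1) (a • x)‖ =
      a ^ (n + l.length) * ∫ x : Eu n, ‖pds l (Gs 1) (a • x)‖ := by
    rw [← integral_const_mul]
    congr 1; funext x
    rw [norm_mul, Real.norm_of_nonneg (by positivity)]
  rw [h1, Measure.integral_comp_smul volume (fun x : Eu n => ‖pds l (Gs 1) x‖) a]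
  rw [finrank_euclideanSpace, Fintype.card_fin, ← a_pow hs, ← ha]
  rw [abs_of_nonneg (by positivity), smul_eq_mul, pow_add]
  apply le_of_eq
  field_simp

/-- (g2) for one list -/
theorem g2' (l : List (Fin n)) : ∃ C : ℝ, 0 ≤ C ∧ ∀ s : ℝ, 0 < s →
    ∫⁻ x : Eu n, ENNReal.ofReal (‖x‖ ^ 4) * ‖pds l (Gs s) x‖ₑ ≤
      ENNReal.ofReal (C * s ^ (2 - (l.length : ℝ) / 2)) := by
  refine ⟨∫ x : Eu n, ‖‖x‖ ^ 4 * pds l (Gs 1) x‖, integral_nonneg fun x => norm_nonneg _,
    fun s hs => ?_⟩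
  set a : ℝ := (Real.sqrt s)⁻¹ with ha
  have ha0 : 0 < a := by have := Real.sqrt_pos.2 hs; positivity
  have h0 : (fun x : Eu n => ENNReal.ofReal (‖x‖ ^ 4) * ‖pds l (Gs s) x‖ₑ) =
      fun x => ‖(a ^ (n + l.length) * (a ^ 4)⁻¹) * (‖a • x‖ ^ 4 * pds l (Gs 1) (a • x))‖ₑ := by
    funext x; rw [pds_Gs hs, Fl, ← ha]
    have e1 : ENNReal.ofReal (‖x‖ ^ 4) = ‖‖x‖ ^ 4‖ₑ := by
      rw [Real.enorm_eq_ofReal (by positivity)]
    rw [e1, ← enorm_mul]
    congr 1
    rw [norm_smul, Real.norm_of_nonneg ha0.le, mul_pow]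
    field_simp
  rw [h0]
  have hI : Integrable (fun x : Eu n => (a ^ (n + l.length) * (a ^ 4)⁻¹) *
      (‖a • x‖ ^ 4 * pds l (Gs 1) (a • x))) :=
    ((integrable_one_weight l).comp_smul ha0.ne').const_mul _
  rw [← ofReal_integral_norm_eq_lintegral_enorm hI]
  apply ENNReal.ofReal_le_ofReal
  have h1 : ∫ x : Eu n, ‖(a ^ (n + l.length) * (a ^ 4)⁻¹) *
      (‖a • x‖ ^ 4 * pds l (Gs 1) (a • x))‖ =
      (a ^ (n + l.length) * (a ^ 4)⁻¹) *
        ∫ x : Eu n, ‖‖a • x‖ ^ 4 * pds l (Gs 1) (a • x)‖ := by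
    rw [← integral_const_mul]
    congr 1; funext x
    rw [norm_mul, Real.norm_of_nonneg (by positivity)]
  rw [h1, Measure.integral_comp_smul volume (fun x : Eu n => ‖‖x‖ ^ 4 * pds l (Gs 1) x‖) a]
  have h2 : s ^ (2 - (l.length : ℝ) / 2) = a ^ l.length * (a ^ 4)⁻¹ := by
    rw [ha, a_pow hs, a_pow hs, ← Real.rpow_neg hs.le, ← Real.rpow_add hs]
    congr 1; push_cast; ring
  rw [finrank_euclideanSpace, Fintype.card_fin, h2]
  rw [abs_of_nonneg (by positivity), smul_eq_mul, pow_add]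
  apply le_of_eq
  field_simp

/-- translation estimate in `L¹` -/
theorem translate_bound {f : Eu n → ℝ} (hf : ContDiff ℝ 1 f) (y : Eu n) :
    ∫⁻ x : Eu n, ‖f (x - y) - f x‖ₑ ≤ ENNReal.ofReal ‖y‖ * ∑ i, ∫⁻ x : Eu n, ‖pd i f x‖ₑ := by
  have hc : Continuous (fderiv ℝ f) := hf.continuous_fderiv (by simp)
  have hpc : ∀ i, Continuous (pd i f) := fun i => by
    unfold pd; exact hc.clm_apply continuous_const
  set G : Eu n → ℝ≥0∞ := fun z => ∑ i, ‖pd i f z‖ₑ with hG
  have hGm : Measurable G := by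
    apply Finset.measurable_fun_sum
    intro i _
    exact (hpc i).measurable.enorm
  have hlin : ∀ z : Eu n, ‖fderiv ℝ f z (-y)‖ₑ ≤ ENNReal.ofReal ‖y‖ * G z := by
    intro z
    have hy : y = ∑ i, y i • (bv i : Eu n) := by
      ext j
      simp [bv, Pi.single_apply]
    have h1 : fderiv ℝ f z (-y) = -∑ i, y i * pd i f z := by
      rw [map_neg]
      congr 1
      conv_lhs => rw [hy]
      rw [map_sum]
      simp [pd]
    have h2 : |fderiv ℝ f z (-y)| ≤ ‖y‖ * ∑ i, |pd i f z| := by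
      rw [h1, abs_neg, Finset.mul_sum]
      refine (Finset.abs_sum_le_sum_abs _ _).trans (Finset.sum_le_sum fun i _ => ?_)
      rw [abs_mul]
      gcongr
      simpa using PiLp.norm_apply_le y i
    rw [Real.enorm_eq_ofReal_abs]
    refine (ENNReal.ofReal_le_ofReal h2).trans (le_of_eq ?_)
    rw [ENNReal.ofReal_mul (norm_nonneg _), ENNReal.ofReal_sum_of_nonneg (fun i _ => abs_nonneg _)]
    simp [hG, Real.enorm_eq_ofReal_abs]
  have hftc : ∀ x : Eu n, ‖f (x - y) - f x‖ₑ ≤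
      ∫⁻ t in Icc (0 : ℝ) 1, ENNReal.ofReal ‖y‖ * G (x - t • y) := by
    intro x
    have hd : ∀ t : ℝ, HasDerivAt (fun t : ℝ => f (x - t • y)) (fderiv ℝ f (x - t • y) (-y)) t := by
      intro t
      have h1 : HasDerivAt (fun t : ℝ => x - t • y) (-y) t := by
        simpa using ((hasDerivAt_id t).smul_const y).const_sub x
      exact HasFDerivAt.comp_hasDerivAt (l := f) (f := fun t : ℝ => x - t • y) t
        ((hf.differentiable (by simp)) _).hasFDerivAt h1
    have hcont : Continuous (fun t : ℝ => fderiv ℝ f (x - t • y) (-y)) :=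
      (hc.comp (by fun_prop)).clm_apply continuous_const
    have h2 := intervalIntegral.integral_eq_sub_of_hasDerivAt (a := 0) (b := 1)
      (fun t _ => hd t) (hcont.intervalIntegrable 0 1)
    simp only [one_smul, zero_smul, sub_zero] at h2
    rw [← h2, intervalIntegral.integral_of_le zero_le_one]
    refine (enorm_integral_le_lintegral_enorm _).trans ?_
    refine (lintegral_mono fun t => hlin _).trans ?_
    exact lintegral_mono_set Ioc_subset_Icc_self
  calc ∫⁻ x : Eu n, ‖f (x - y) - f x‖ₑ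
      ≤ ∫⁻ x : Eu n, ∫⁻ t in Icc (0 : ℝ) 1, ENNReal.ofReal ‖y‖ * G (x - t • y) :=
        lintegral_mono hftc
    _ = ∫⁻ t in Icc (0 : ℝ) 1, ∫⁻ x : Eu n, ENNReal.ofReal ‖y‖ * G (x - t • y) := by
        rw [lintegral_lintegral_swap]
        apply Measurable.aemeasurable
        exact (hGm.comp (by fun_prop)).const_mul _
    _ = ∫⁻ t in Icc (0 : ℝ) 1, ENNReal.ofReal ‖y‖ * ∫⁻ x : Eu n, G x := by
        congr 1; funext t
        have hm : Measurable (fun x : Eu n => G (x - t • y)) := hGm.comp (by fun_prop)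
        rw [lintegral_const_mul _ hm, lintegral_sub_right_eq_self (fun x => G x) (t • y)]
    _ = ENNReal.ofReal ‖y‖ * ∑ i, ∫⁻ x : Eu n, ‖pd i f x‖ₑ := by
        rw [setLIntegral_const, Real.volume_Icc]
        simp only [sub_zero, ENNReal.ofReal_one, mul_one]
        congr 1
        rw [hG, lintegral_finsetSum]
        intro i _
        exact (hpc i).measurable.enorm

/-- (g3) for one list -/
theorem g3' (l : List (Fin n)) : ∃ C : ℝ, 0 ≤ C ∧ ∀ s : ℝ, 0 < s → ∀ y : Eu n,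
    ∫⁻ x : Eu n, ‖pds l (Gs s) (x - y) - pds l (Gs s) x‖ₑ ≤
      ENNReal.ofReal (C * ‖y‖ * s ^ (-((l.length : ℝ) + 1) / 2)) := by
  choose C hC h using fun i : Fin n => g1' (i :: l)
  refine ⟨∑ i, C i, Finset.sum_nonneg fun i _ => hC i, fun s hs y => ?_⟩
  refine (translate_bound ((pds_smooth (Gs_smooth s) l).of_le (by simp)) y).trans ?_
  have h1 : ∑ i, ∫⁻ x : Eu n, ‖pd i (pds l (Gs s)) x‖ₑ ≤
      ∑ i, ENNReal.ofReal (C i * s ^ (-((l.length : ℝ) + 1) / 2)) := by
    refine Finset.sum_le_sum fun i _ => ?_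
    have := (h i s hs).2
    simp only [List.length_cons, Nat.cast_add, Nat.cast_one] at this
    exact this
  refine (mul_le_mul_right h1 _).trans (le_of_eq ?_)
  have hnn : ∀ i ∈ Finset.univ, 0 ≤ C i * s ^ (-((l.length : ℝ) + 1) / 2) :=
    fun i _ => mul_nonneg (hC i) (by positivity)
  rw [← ENNReal.ofReal_sum_of_nonneg hnn, ← ENNReal.ofReal_mul (norm_nonneg _)]
  congr 1
  rw [← Finset.sum_mul]; ring

/-! ## uniform constants for lists of a given length -/

theorem unif {P : List (Fin n) → ℝ → Prop} (hP : ∀ l C C', C ≤ C' → P l C → P l C') (j : ℕ)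
    (h : ∀ l, ∃ C : ℝ, 0 ≤ C ∧ P l C) :
    ∃ C : ℝ, 0 ≤ C ∧ ∀ l : List (Fin n), l.length = j → P l C := by
  choose C hC h using h
  have hfin : {l : List (Fin n) | l.length = j}.Finite := List.finite_length_eq (Fin n) j
  refine ⟨∑ l ∈ hfin.toFinset, C l, Finset.sum_nonneg fun l _ => hC l, fun l hl => ?_⟩
  refine hP l (C l) _ ?_ (h l)
  exact Finset.single_le_sum (f := C) (fun l _ => hC l) (by simpa using hl)

/-- (g1) -/
theorem g1 (n j : ℕ) : ∃ C : ℝ, 0 ≤ C ∧ ∀ l : List (Fin n), l.length = j → ∀ s : ℝ, 0 < s →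
    ∫⁻ x : Eu n, ‖pds l (Gs s) x‖ₑ ≤ ENNReal.ofReal (C * s ^ (-(j : ℝ) / 2)) := by
  obtain ⟨C, hC, h⟩ := unif (n := n) (P := fun l C => ∀ s : ℝ, 0 < s →
    ∫⁻ x : Eu n, ‖pds l (Gs s) x‖ₑ ≤ ENNReal.ofReal (C * s ^ (-(l.length : ℝ) / 2)))
    (fun l C C' hCC h s hs => (h s hs).trans (ENNReal.ofReal_le_ofReal (by gcongr))) j
    (fun l => by obtain ⟨C, hC, h⟩ := g1' l; exact ⟨C, hC, fun s hs => (h s hs).2⟩)
  refine ⟨C, hC, fun l hl s hs => ?_⟩
  have := h l hl s hs
  rwa [hl] at this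

/-- (g2) -/
theorem g2 (n j : ℕ) : ∃ C : ℝ, 0 ≤ C ∧ ∀ l : List (Fin n), l.length = j → ∀ s : ℝ, 0 < s →
    ∫⁻ x : Eu n, ENNReal.ofReal (‖x‖ ^ 4) * ‖pds l (Gs s) x‖ₑ ≤
      ENNReal.ofReal (C * s ^ (2 - (j : ℝ) / 2)) := by
  obtain ⟨C, hC, h⟩ := unif (n := n) (P := fun l C => ∀ s : ℝ, 0 < s →
    ∫⁻ x : Eu n, ENNReal.ofReal (‖x‖ ^ 4) * ‖pds l (Gs s) x‖ₑ ≤
      ENNReal.ofReal (C * s ^ (2 - (l.length : ℝ) / 2)))
    (fun l C C' hCC h s hs => (h s hs).trans (ENNReal.ofReal_le_ofReal (by gcongr))) j g2'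
  refine ⟨C, hC, fun l hl s hs => ?_⟩
  have := h l hl s hs
  rwa [hl] at this

/-- (g3) -/
theorem g3 (n j : ℕ) : ∃ C : ℝ, 0 ≤ C ∧ ∀ l : List (Fin n), l.length = j → ∀ s : ℝ, 0 < s →
    ∀ y : Eu n, ∫⁻ x : Eu n, ‖pds l (Gs s) (x - y) - pds l (Gs s) x‖ₑ ≤
      ENNReal.ofReal (C * ‖y‖ * s ^ (-((j : ℝ) + 1) / 2)) := by
  obtain ⟨C, hC, h⟩ := unif (n := n) (P := fun l C => ∀ s : ℝ, 0 < s → ∀ y : Eu n,
    ∫⁻ x : Eu n, ‖pds l (Gs s) (x - y) - pds l (Gs s) x‖ₑ ≤
      ENNReal.ofReal (C * ‖y‖ * s ^ (-((l.length : ℝ) + 1) / 2)))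
    (fun l C C' hCC h s hs y => (h s hs y).trans (ENNReal.ofReal_le_ofReal (by gcongr))) j g3'
  refine ⟨C, hC, fun l hl s hs y => ?_⟩
  have := h l hl s hs y
  rwa [hl] at this

/-- (g0) joint continuity -/
theorem g0 (l : List (Fin n)) :
    ContinuousOn (fun z : ST n => pds l (Gs z.1) z.2) (Ioi 0 ×ˢ univ) := by
  have h1 : ContinuousOn (Fl l) (Ioi (0 : ℝ) ×ˢ (univ : Set (Eu n))) := fun z hz =>
    (Fl_smoothAt l hz.1).continuousAt.continuousWithinAt
  exact h1.congr fun z hz => pds_Gs hz.1 l z.2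

end Pool.Agent.Helper50.JG
end

section
/-! # Gaussian derivatives are Schwartz; scaling; Fourier bound -/

open MeasureTheory Set Filter Topology
open scoped ENNReal FourierTransform Nat

namespace Pool.Agent.Helper76.Jef

open Pool.Agent.Helper42.Jef

variable {n : ℕ}

theorem poly_gauss_bdd (b : ℝ) (hb : 0 < b) (N : ℕ) :
    ∃ C : ℝ, 0 ≤ C ∧ ∀ r : ℝ, 0 ≤ r → (1 + r) ^ N * Real.exp (-b * r ^ 2) ≤ C := by
  refine ⟨2 ^ N * (N ! / b ^ N * Real.exp b), by positivity, fun r hr => ?_⟩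
  have h1 : 1 + r ≤ 2 * (1 + r ^ 2) := by nlinarith [sq_nonneg (r - 1), sq_nonneg r]
  have h2 : (1 + r) ^ N ≤ 2 ^ N * (1 + r ^ 2) ^ N := by
    rw [← mul_pow]
    exact pow_le_pow_left₀ (by positivity) h1 N
  have h3 : (b * (1 + r ^ 2)) ^ N / N ! ≤ Real.exp (b * (1 + r ^ 2)) :=
    Real.pow_div_factorial_le_exp _ (by positivity) N
  have h4 : (1 + r ^ 2) ^ N ≤ N ! / b ^ N * Real.exp (b * (1 + r ^ 2)) := by
    rw [mul_pow, div_le_iff₀ (by positivity)] at h3
    rw [div_mul_eq_mul_div, le_div_iff₀ (by positivity)]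
    linarith
  have h5 : Real.exp (b * (1 + r ^ 2)) * Real.exp (-b * r ^ 2) = Real.exp b := by
    rw [← Real.exp_add]; ring_nf
  calc (1 + r) ^ N * Real.exp (-b * r ^ 2)
      ≤ (2 ^ N * (N ! / b ^ N * Real.exp (b * (1 + r ^ 2)))) * Real.exp (-b * r ^ 2) := by
        gcongr
        exact h2.trans (by gcongr)
    _ = 2 ^ N * (N ! / b ^ N * (Real.exp (b * (1 + r ^ 2)) * Real.exp (-b * r ^ 2))) := by ring
    _ = _ := by rw [h5]

theorem gauss_decay (b : ℝ) (hb : 0 < b) (k m : ℕ) : ∃ C : ℝ, ∀ x : Eu n,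
    ‖x‖ ^ k * ‖iteratedFDeriv ℝ m (fun x : Eu n => Real.exp (-b * ‖x‖ ^ 2)) x‖ ≤ C := by
  have hf : (fun x : Eu n => -b * ‖x‖ ^ 2).HasTemperateGrowth := by
    have h1 : (fun x : Eu n => ‖x‖ ^ 2).HasTemperateGrowth :=
      Function.hasTemperateGrowth_norm_sq _
    exact (Function.HasTemperateGrowth.const (-b)).mul h1
  obtain ⟨l, C, hC, hgr⟩ := hf.norm_iteratedFDeriv_le_uniform m
  obtain ⟨C', hC', hpoly⟩ := poly_gauss_bdd b hb (k + l * m)
  refine ⟨m ! * (1 + C) ^ m * C', fun x => ?_⟩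
  have hg : ContDiff ℝ (m : ℕ∞) Real.exp := Real.contDiff_exp
  have hD1 : 1 ≤ (1 + C) * (1 + ‖x‖) ^ l := by
    have : 1 ≤ (1 + ‖x‖) ^ l := one_le_pow₀ (by linarith [norm_nonneg x])
    nlinarith
  have h1 := norm_iteratedFDeriv_comp_le (𝕜 := ℝ) (g := Real.exp)
    (f := fun x : Eu n => -b * ‖x‖ ^ 2) (n := m) (N := (m : ℕ∞)) hg
    (hf.1.of_le (by exact_mod_cast le_top)) le_rfl x
    (C := Real.exp (-b * ‖x‖ ^ 2)) (D := (1 + C) * (1 + ‖x‖) ^ l)
    (fun i _ => by
      rw [norm_iteratedFDeriv_eq_norm_iteratedDeriv, iteratedDeriv_eq_iterate]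
      simp [Real.iter_deriv_exp])
    (fun i hi1 hi2 => by
      calc ‖iteratedFDeriv ℝ i (fun x : Eu n => -b * ‖x‖ ^ 2) x‖ ≤ C * (1 + ‖x‖) ^ l := hgr i hi2 x
        _ ≤ (1 + C) * (1 + ‖x‖) ^ l := by gcongr; linarith
        _ = ((1 + C) * (1 + ‖x‖) ^ l) ^ 1 := (pow_one _).symm
        _ ≤ _ := pow_le_pow_right₀ hD1 hi1)
  have h2 : ‖x‖ ^ k ≤ (1 + ‖x‖) ^ k := pow_le_pow_left₀ (norm_nonneg x) (by linarith) k
  have h3 := hpoly ‖x‖ (norm_nonneg x)
  calc ‖x‖ ^ k * ‖iteratedFDeriv ℝ m (fun x : Eu n => Real.exp (-b * ‖x‖ ^ 2)) x‖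
      ≤ (1 + ‖x‖) ^ k * (m ! * Real.exp (-b * ‖x‖ ^ 2) * ((1 + C) * (1 + ‖x‖) ^ l) ^ m) := by
        gcongr
        exact h1
    _ = m ! * (1 + C) ^ m * ((1 + ‖x‖) ^ (k + l * m) * Real.exp (-b * ‖x‖ ^ 2)) := by
        rw [mul_pow, ← pow_mul, pow_add]; ring
    _ ≤ _ := by gcongr

/-- `f` is (the real form of) a Schwartz function -/
def IsS (f : Eu n → ℝ) : Prop := ∃ F : SchwartzMap (Eu n) ℂ, ∀ x, F x = (f x : ℂ)

theorem isS_gauss (b c : ℝ) (hb : 0 < b) : IsS fun x : Eu n => c * Real.exp (-b * ‖x‖ ^ 2) := by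
  let g : SchwartzMap (Eu n) ℝ :=
    { toFun := fun x => Real.exp (-b * ‖x‖ ^ 2)
      smooth' := by
        have : ContDiff ℝ (⊤ : ℕ∞) fun x : Eu n => ‖x‖ ^ 2 := contDiff_norm_sq ℝ
        exact (contDiff_const.mul this).exp
      decay' := fun k m => gauss_decay b hb k m }
  refine ⟨SchwartzMap.postcompCLM (𝕜 := ℝ) Complex.ofRealCLM (c • g), fun x => ?_⟩
  rfl

theorem IsS.hasFDerivAt {f : Eu n → ℝ} (hf : IsS f) (x : Eu n) : HasFDerivAt f (fderiv ℝ f x) x := by
  obtain ⟨F, hF⟩ := hf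
  have h1 : f = fun x => Complex.reCLM (F x) := by
    funext x
    rw [hF]
    simp
  have h2 : DifferentiableAt ℝ f x := by
    rw [h1]
    exact (Complex.reCLM.differentiableAt).comp x F.differentiableAt
  exact h2.hasFDerivAt

theorem IsS.fderiv_eq {f : Eu n → ℝ} (F : SchwartzMap (Eu n) ℂ) (hF : ∀ x, F x = (f x : ℂ))
    (x v : Eu n) : fderiv ℝ F x v = ((fderiv ℝ f x v : ℝ) : ℂ) := by
  have h := IsS.hasFDerivAt ⟨F, hF⟩ x
  have h1 : (F : Eu n → ℂ) = fun x => Complex.ofRealCLM (f x) := by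
    funext x
    rw [hF]
    rfl
  have h2 : HasFDerivAt (F : Eu n → ℂ) (Complex.ofRealCLM.comp (fderiv ℝ f x)) x := by
    rw [h1]
    exact (Complex.ofRealCLM.hasFDerivAt).comp x h
  rw [h2.fderiv]
  rfl

open scoped LineDeriv in
theorem isS_pd {f : Eu n → ℝ} (hf : IsS f) (i : Fin n) : IsS (pd i f) := by
  obtain ⟨F, hF⟩ := hf
  refine ⟨∂_{bv i} F, fun x => ?_⟩
  rw [SchwartzMap.lineDerivOp_apply_eq_fderiv, IsS.fderiv_eq F hF]
  rfl

theorem isS_pds {f : Eu n → ℝ} (hf : IsS f) (l : List (Fin n)) : IsS (pds l f) := by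
  induction l with
  | nil => exact hf
  | cons i l ih => exact isS_pd ih i

theorem IsS.integrable {f : Eu n → ℝ} (hf : IsS f) : Integrable f := by
  obtain ⟨F, hF⟩ := hf
  have h1 : f = fun x => Complex.reCLM (F x) := by
    funext x
    rw [hF]
    simp
  rw [h1]
  exact Complex.reCLM.integrable_comp F.integrable

theorem IsS.continuous {f : Eu n → ℝ} (hf : IsS f) : Continuous f := by
  obtain ⟨F, hF⟩ := hf
  have h1 : f = fun x => Complex.reCLM (F x) := by
    funext x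
    rw [hF]
    simp
  rw [h1]
  exact Complex.reCLM.continuous.comp F.continuous

theorem norm_bv (i : Fin n) : ‖(bv i : Eu n)‖ = 1 := by
  simp [bv]

open scoped LineDeriv in
theorem fourier_pd {f : Eu n → ℝ} (hf : IsS f) (i : Fin n) (ξ : Eu n) :
    ‖𝓕 (fun x => ((pd i f x : ℝ) : ℂ)) ξ‖ ≤ 2 * Real.pi * ‖ξ‖ * ‖𝓕 (fun x => (f x : ℂ)) ξ‖ := by
  obtain ⟨F, hF⟩ := hf
  have h1 : (fun x => ((pd i f x : ℝ) : ℂ)) = ((∂_{bv i} F : SchwartzMap (Eu n) ℂ) : Eu n → ℂ) := by
    funext x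
    rw [SchwartzMap.lineDerivOp_apply_eq_fderiv, IsS.fderiv_eq F hF]
    rfl
  have h2 : (fun x => (f x : ℂ)) = (F : Eu n → ℂ) := by
    funext x
    rw [hF]
  rw [h1, h2, ← SchwartzMap.fourier_coe, ← SchwartzMap.fourier_coe,
    SchwartzMap.fourier_lineDerivOp_eq]
  have h3 : (fun x : Eu n => inner ℝ x (bv i)).HasTemperateGrowth :=
    ((innerSL ℝ).flip (bv i)).hasTemperateGrowth
  rw [_root_.smul_apply, SchwartzMap.smulLeftCLM_apply h3]
  rw [norm_smul, norm_smul]
  have h4 : ‖(2 * (Real.pi : ℂ) * Complex.I)‖ = 2 * Real.pi := by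
    simp [abs_of_pos Real.pi_pos]
  have h5 : ‖inner ℝ ξ (bv i)‖ ≤ ‖ξ‖ := by
    refine (norm_inner_le_norm _ _).trans ?_
    rw [norm_bv, mul_one]
  rw [h4, ← mul_assoc]
  gcongr

theorem fourier_pds {f : Eu n → ℝ} (hf : IsS f) (l : List (Fin n)) (ξ : Eu n) :
    ‖𝓕 (fun x => ((pds l f x : ℝ) : ℂ)) ξ‖ ≤
      (2 * Real.pi * ‖ξ‖) ^ l.length * ‖𝓕 (fun x => (f x : ℂ)) ξ‖ := by
  induction l with
  | nil => simp [pds]
  | cons i l ih =>
    have h1 := fourier_pd (isS_pds hf l) i ξ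
    have h2 : pds (i :: l) f = pd i (pds l f) := rfl
    rw [h2, List.length_cons]
    refine h1.trans ?_
    calc 2 * Real.pi * ‖ξ‖ * ‖𝓕 (fun x => ((pds l f x : ℝ) : ℂ)) ξ‖
        ≤ 2 * Real.pi * ‖ξ‖ * ((2 * Real.pi * ‖ξ‖) ^ l.length * ‖𝓕 (fun x => (f x : ℂ)) ξ‖) := by
          gcongr
      _ = _ := by rw [pow_succ]; ring

theorem isS_Gs {s : ℝ} (hs : 0 < s) : IsS (Gs (n := n) s) := by
  have h := isS_gauss (n := n) (1 / (4 * s)) ((4 * Real.pi * s) ^ (-(n : ℝ) / 2)) (by positivity)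
  have h2 : (fun x : Eu n => (4 * Real.pi * s) ^ (-(n : ℝ) / 2) *
      Real.exp (-(1 / (4 * s)) * ‖x‖ ^ 2)) = Gs s := by
    funext x
    unfold Gs
    congr 2
    ring
  rwa [h2] at h

theorem fourier_Gs {s : ℝ} (hs : 0 < s) (ξ : Eu n) :
    ‖𝓕 (fun x => ((Gs s x : ℝ) : ℂ)) ξ‖ = Real.exp (-((2 * Real.pi * ‖ξ‖) ^ 2 * s)) := by
  set b : ℝ := 1 / (4 * s) with hb
  have hb0 : 0 < b := by positivity
  have hbc : 0 < ((b : ℝ) : ℂ).re := by simpa using hb0
  have h1 : (fun x : Eu n => ((Gs s x : ℝ) : ℂ)) =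
      fun x => (((4 * Real.pi * s) ^ (-(n : ℝ) / 2) : ℝ) : ℂ) • Complex.exp (-(b : ℂ) * ‖x‖ ^ 2) := by
    funext x
    unfold Gs
    rw [Complex.ofReal_mul, smul_eq_mul, Complex.ofReal_exp]
    congr 2
    push_cast
    rw [hb]
    push_cast
    ring
  rw [h1]
  have h2 := fourier_gaussian_innerProductSpace (V := Eu n) hbc ξ
  have h3 : 𝓕 (fun x : Eu n => (((4 * Real.pi * s) ^ (-(n : ℝ) / 2) : ℝ) : ℂ) •
      Complex.exp (-(b : ℂ) * ‖x‖ ^ 2)) ξ = (((4 * Real.pi * s) ^ (-(n : ℝ) / 2) : ℝ) : ℂ) •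
      𝓕 (fun x : Eu n => Complex.exp (-(b : ℂ) * ‖x‖ ^ 2)) ξ := by
    simp only [Real.fourier_eq, smul_comm _ (((4 * Real.pi * s) ^ (-(n : ℝ) / 2) : ℝ) : ℂ)]
    rw [integral_smul]
  rw [h3, h2]
  have h4 : ((Real.pi : ℂ) / (b : ℂ)) ^ ((Module.finrank ℝ (Eu n) : ℂ) / 2) =
      (((4 * Real.pi * s) ^ ((n : ℝ) / 2) : ℝ) : ℂ) := by
    rw [Complex.ofReal_cpow (by positivity)]
    congr 1
    · rw [hb]
      push_cast
      field_simp
    · simp
  have h5 : Complex.exp (-(Real.pi : ℂ) ^ 2 * (‖ξ‖ : ℂ) ^ 2 / (b : ℂ)) =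
      ((Real.exp (-((2 * Real.pi * ‖ξ‖) ^ 2 * s)) : ℝ) : ℂ) := by
    rw [Complex.ofReal_exp]
    congr 1
    rw [hb]
    push_cast
    have : (s : ℂ) ≠ 0 := by exact_mod_cast hs.ne'
    field_simp
    ring
  rw [h4, h5, smul_eq_mul, ← Complex.ofReal_mul, ← Complex.ofReal_mul, Complex.norm_real,
    ← mul_assoc, ← Real.rpow_add (by positivity)]
  have h6 : -(n : ℝ) / 2 + (n : ℝ) / 2 = 0 := by ring
  rw [h6, Real.rpow_zero, one_mul, Real.norm_eq_abs, abs_of_pos (Real.exp_pos _)]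

theorem fourier_pds_Gs {s : ℝ} (hs : 0 < s) (l : List (Fin n)) (ξ : Eu n) :
    ‖𝓕 (fun x => ((pds l (Gs s) x : ℝ) : ℂ)) ξ‖ ≤
      (2 * Real.pi * ‖ξ‖) ^ l.length * Real.exp (-((2 * Real.pi * ‖ξ‖) ^ 2 * s)) := by
  have := fourier_pds (isS_Gs (n := n) hs) l ξ
  rwa [fourier_Gs hs ξ] at this

/-! ### scaling -/

theorem pds_smul (a : ℝ) {f : Eu n → ℝ} (hf : IsS f) (l : List (Fin n)) :
    pds l (fun x => a * f x) = fun x => a * pds l f x := by
  induction l with
  | nil => rfl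
  | cons i l ih =>
    have h2 : ∀ g : Eu n → ℝ, pds (i :: l) g = pd i (pds l g) := fun _ => rfl
    rw [h2, ih, h2]
    funext x
    unfold pd
    have h3 := (isS_pds hf l).hasFDerivAt x
    rw [(h3.const_mul a).fderiv]
    rfl

theorem pds_comp_smul (c : ℝ) {f : Eu n → ℝ} (hf : IsS f) (l : List (Fin n)) :
    pds l (fun x => f (c • x)) = fun x => c ^ l.length * pds l f (c • x) := by
  induction l with
  | nil => funext x; simp [pds]
  | cons i l ih =>
    have h2 : ∀ g : Eu n → ℝ, pds (i :: l) g = pd i (pds l g) := fun _ => rfl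
    rw [h2, ih, h2]
    funext x
    unfold pd
    have h3 := (isS_pds hf l).hasFDerivAt (c • x)
    have h4 : HasFDerivAt (fun y : Eu n => c • y) (c • ContinuousLinearMap.id ℝ (Eu n)) x :=
      (hasFDerivAt_id x).const_smul c
    have h5 := (h3.comp x h4).const_mul (c ^ l.length)
    have h6 : fderiv ℝ (fun y : Eu n => c ^ l.length * pds l f (c • y)) x = _ := h5.fderiv
    rw [h6]
    simp [pow_succ, mul_assoc]

theorem Gs_scale {s : ℝ} (hs : 0 < s) (x : Eu n) :
    Gs s x = (s ^ (-(1 / 2) : ℝ)) ^ n * Gs 1 ((s ^ (-(1 / 2) : ℝ)) • x) := by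
  unfold Gs
  have h1 : (4 * Real.pi * s) ^ (-(n : ℝ) / 2) =
      (s ^ (-(1 / 2) : ℝ)) ^ n * (4 * Real.pi * 1) ^ (-(n : ℝ) / 2) := by
    rw [Real.mul_rpow (by positivity) hs.le, mul_one, mul_comm]
    congr 1
    rw [← Real.rpow_natCast, ← Real.rpow_mul hs.le]
    congr 1
    ring
  have h2 : ‖(s ^ (-(1 / 2) : ℝ)) • x‖ ^ 2 = ‖x‖ ^ 2 / s := by
    rw [norm_smul, mul_pow, Real.norm_eq_abs, sq_abs, ← Real.rpow_natCast, ← Real.rpow_mul hs.le]
    norm_num
    rw [Real.rpow_neg_one]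
    field_simp
  rw [h1, h2, mul_assoc]
  congr 3
  field_simp

theorem pds_Gs_scale {s : ℝ} (hs : 0 < s) (l : List (Fin n)) (x : Eu n) :
    pds l (Gs s) x =
      (s ^ (-(1 / 2) : ℝ)) ^ (n + l.length) * pds l (Gs 1) ((s ^ (-(1 / 2) : ℝ)) • x) := by
  set c : ℝ := s ^ (-(1 / 2) : ℝ) with hc
  have hc0 : 0 < c := Real.rpow_pos_of_pos hs _
  have h1 : Gs (n := n) s = fun x => c ^ n * Gs 1 (c • x) := by
    funext y; exact Gs_scale hs y
  have h0 : IsS (fun x : Eu n => Gs 1 (c • x)) := by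
    have h := isS_gauss (n := n) (c ^ 2 / 4) ((4 * Real.pi * 1) ^ (-(n : ℝ) / 2)) (by positivity)
    have h2 : (fun x : Eu n => (4 * Real.pi * 1) ^ (-(n : ℝ) / 2) *
        Real.exp (-(c ^ 2 / 4) * ‖x‖ ^ 2)) = fun x => Gs 1 (c • x) := by
      funext x
      unfold Gs
      rw [norm_smul, mul_pow, Real.norm_eq_abs, sq_abs]
      congr 2
      ring
    rwa [h2] at h
  rw [h1, pds_smul _ h0, pds_comp_smul c (isS_Gs one_pos)]
  ring

end Pool.Agent.Helper76.Jef
end

section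
/-! # Plancherel for `L¹ ∩ L²` functions on `ℝⁿ` -/

open MeasureTheory Set Filter Topology
open scoped ENNReal ContDiff FourierTransform

namespace Pool.Agent.Helper76.Jef

open Pool.Agent.Helper42.Jef

variable {n : ℕ}

/-- the Fourier integral of an integrable `L²` function is its `L²` Fourier transform -/
theorem fourier_ae_eq (f : Eu n → ℂ) (hf : Integrable f) (hf2 : MemLp f 2) :
    ((𝓕 (hf2.toLp f) : Lp ℂ 2 (volume : Measure (Eu n))) : Eu n → ℂ) =ᵐ[volume] 𝓕 f := by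
  apply ae_eq_of_integral_contDiff_smul_eq
  · exact (Lp.memLp _).locallyIntegrable (by norm_num)
  · apply Continuous.locallyIntegrable
    exact VectorFourier.fourierIntegral_continuous Real.continuous_fourierChar
      (innerSL ℝ).continuous₂ hf
  · intro g hg hgc
    have hg₁ : HasCompactSupport (Complex.ofRealCLM ∘ g) := hgc.comp_left rfl
    have hg₂ : ContDiff ℝ ∞ (Complex.ofRealCLM ∘ g) := by fun_prop
    let G : SchwartzMap (Eu n) ℂ := hg₁.toSchwartzMap hg₂
    have hG : ∀ x, G x = (g x : ℂ) := fun x => rfl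
    have h1 : ∫ x, g x • ((𝓕 (hf2.toLp f) : Lp ℂ 2 (volume : Measure (Eu n))) : Eu n → ℂ) x =
        (Lp.toTemperedDistribution (𝓕 (hf2.toLp f) : Lp ℂ 2 (volume : Measure (Eu n)))) G := by
      rw [Lp.toTemperedDistribution_apply]
      rfl
    rw [h1, ← Lp.fourier_toTemperedDistribution_eq, TemperedDistribution.fourier_apply,
      Lp.toTemperedDistribution_apply]
    have h2 : ∫ x, (𝓕 G) x • ((hf2.toLp f : Lp ℂ 2 (volume : Measure (Eu n))) : Eu n → ℂ) x =
        ∫ x, (𝓕 G) x • f x := by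
      apply integral_congr_ae
      filter_upwards [hf2.coeFn_toLp] with x hx
      rw [hx]
    rw [h2]
    have h3 := VectorFourier.integral_fourierIntegral_smul_eq_flip (μ := (volume : Measure (Eu n)))
      (ν := (volume : Measure (Eu n)))
      (L := innerₗ (Eu n)) (f := (G : Eu n → ℂ)) (g := f) Real.continuous_fourierChar
      continuous_inner G.integrable hf
    rw [flip_innerₗ] at h3
    exact h3

/-- Plancherel's theorem for the Fourier integral of a function in `L¹ ∩ L²` -/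
theorem plancherel (f : Eu n → ℂ) (hf : Integrable f) (hf2 : MemLp f 2) :
    eLpNorm (𝓕 f) 2 volume = eLpNorm f 2 volume := by
  rw [← eLpNorm_congr_ae (fourier_ae_eq f hf hf2)]
  have h1 := Lp.norm_fourier_eq (hf2.toLp f)
  rw [Lp.norm_def, Lp.norm_def, ENNReal.toReal_eq_toReal_iff' (Lp.eLpNorm_ne_top _)
    (Lp.eLpNorm_ne_top _)] at h1
  rw [h1]
  exact eLpNorm_congr_ae hf2.coeFn_toLp

end Pool.Agent.Helper76.Jef
end

section
/-! # Young's inequality `L¹ * L² ⊆ L²`, `ℝ≥0∞`-valued version -/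

open MeasureTheory Set Filter Topology
open scoped ENNReal

namespace Pool.Agent.Helper76.Jef

theorem cs_sq {α : Type*} [MeasurableSpace α] (μ : Measure α) (a b : α → ℝ≥0∞)
    (ha : Measurable a) (hb : Measurable b) :
    (∫⁻ s, a s * b s ∂μ) ^ 2 ≤ (∫⁻ s, a s ∂μ) * ∫⁻ s, a s * b s ^ 2 ∂μ := by
  have h := ENNReal.lintegral_mul_le_Lp_mul_Lq μ (p := 2) (q := 2)
    Real.HolderConjugate.two_two
    (f := fun s => a s ^ (1 / 2 : ℝ)) (g := fun s => a s ^ (1 / 2 : ℝ) * b s)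
    (ha.pow_const _).aemeasurable ((ha.pow_const _).mul hb).aemeasurable
  have hhalf : ∀ x : ℝ≥0∞, x ^ (1 / 2 : ℝ) * x ^ (1 / 2 : ℝ) = x := fun x => by
    rw [← ENNReal.rpow_add_of_nonneg _ _ (by norm_num) (by norm_num)]
    norm_num
  have hsq : ∀ x : ℝ≥0∞, (x ^ (1 / 2 : ℝ)) ^ (2 : ℝ) = x := fun x => by
    rw [← ENNReal.rpow_mul]; norm_num
  have e1 : (∫⁻ s, ((fun s => a s ^ (1 / 2 : ℝ)) * fun s => a s ^ (1 / 2 : ℝ) * b s) s ∂μ) =
      ∫⁻ s, a s * b s ∂μ := by
    refine lintegral_congr fun s => ?_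
    simp only [Pi.mul_apply]
    rw [← mul_assoc, hhalf]
  have e2 : (∫⁻ s, (a s ^ (1 / 2 : ℝ)) ^ (2 : ℝ) ∂μ) = ∫⁻ s, a s ∂μ :=
    lintegral_congr fun s => hsq _
  have e3 : (∫⁻ s, (a s ^ (1 / 2 : ℝ) * b s) ^ (2 : ℝ) ∂μ) = ∫⁻ s, a s * b s ^ 2 ∂μ := by
    refine lintegral_congr fun s => ?_
    rw [ENNReal.mul_rpow_of_nonneg _ _ (by norm_num), hsq]
    norm_num
  rw [e1, e2, e3] at h
  calc (∫⁻ s, a s * b s ∂μ) ^ 2
      ≤ ((∫⁻ s, a s ∂μ) ^ (1 / 2 : ℝ) * (∫⁻ s, a s * b s ^ 2 ∂μ) ^ (1 / 2 : ℝ)) ^ 2 := by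
        gcongr
    _ = _ := by
        rw [mul_pow, pow_two, pow_two, hhalf, hhalf]

theorem young {G : Type*} [AddCommGroup G] [MeasurableSpace G] [MeasurableAdd₂ G]
    [MeasurableNeg G] (μ : Measure G) [SFinite μ] [μ.IsAddLeftInvariant] [μ.IsNegInvariant]
    (a b : G → ℝ≥0∞) (ha : Measurable a) (hb : Measurable b) :
    ∫⁻ t, (∫⁻ s, a (t - s) * b s ∂μ) ^ 2 ∂μ ≤ (∫⁻ r, a r ∂μ) ^ 2 * ∫⁻ s, b s ^ 2 ∂μ := by
  have hm : Measurable fun p : G × G => a (p.1 - p.2) * b p.2 ^ 2 :=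
    (ha.comp (measurable_fst.sub measurable_snd)).mul ((hb.comp measurable_snd).pow_const _)
  calc ∫⁻ t, (∫⁻ s, a (t - s) * b s ∂μ) ^ 2 ∂μ
      ≤ ∫⁻ t, (∫⁻ r, a r ∂μ) * ∫⁻ s, a (t - s) * b s ^ 2 ∂μ ∂μ := by
        refine lintegral_mono fun t => ?_
        refine (cs_sq μ (fun s => a (t - s)) b (ha.comp (measurable_const.sub measurable_id))
          hb).trans_eq ?_
        rw [lintegral_sub_left_eq_self (fun r => a r) t]
    _ = (∫⁻ r, a r ∂μ) * ∫⁻ t, ∫⁻ s, a (t - s) * b s ^ 2 ∂μ ∂μ := by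
        rw [lintegral_const_mul _ (Measurable.lintegral_prod_right' hm)]
    _ = (∫⁻ r, a r ∂μ) * ∫⁻ s, ∫⁻ t, a (t - s) * b s ^ 2 ∂μ ∂μ := by
        rw [lintegral_lintegral_swap hm.aemeasurable]
    _ = (∫⁻ r, a r ∂μ) * ∫⁻ s, (∫⁻ r, a r ∂μ) * b s ^ 2 ∂μ := by
        congr 1
        refine lintegral_congr fun s => ?_
        have h1 : Measurable fun t => a (t - s) := ha.comp (measurable_id.sub measurable_const)
        rw [lintegral_mul_const _ h1, lintegral_sub_right_eq_self (fun r => a r) s]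
    _ = _ := by
        rw [lintegral_const_mul _ (hb.pow_const _), ← mul_assoc, ← pow_two]

end Pool.Agent.Helper76.Jef
end

section
/-! # `L²` multiplier lemma on space-time: Fourier transform in space, Young in time -/

open MeasureTheory Set Filter Topology
open scoped ENNReal FourierTransform

namespace Pool.Agent.Helper76.Jef

open Pool.Agent.Helper42.Jef

variable {n : ℕ}

theorem st_left : (volume : Measure (ST n)).IsAddLeftInvariant :=
  inferInstanceAs ((volume : Measure ℝ).prod (volume : Measure (Eu n))).IsAddLeftInvariant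

theorem st_haar : (volume : Measure (ST n)).IsAddHaarMeasure :=
  inferInstanceAs ((volume : Measure ℝ).prod (volume : Measure (Eu n))).IsAddHaarMeasure

attribute [local instance] st_haar

theorem eLpNorm_two_sq {α : Type*} [MeasurableSpace α] (μ : Measure α) {F : Type*}
    [NormedAddCommGroup F] (f : α → F) : eLpNorm f 2 μ ^ 2 = ∫⁻ x, ‖f x‖ₑ ^ 2 ∂μ := by
  have h := eLpNorm_nnreal_pow_eq_lintegral (μ := μ) (f := f) (p := 2) (by norm_num)
  simpa using h

theorem enorm_ofReal' (x : ℝ) : ‖(x : ℂ)‖ₑ = ‖x‖ₑ := by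
  rw [← ofReal_norm, ← ofReal_norm, Complex.norm_real]

theorem integrable_conv (k u : ST n → ℝ) (hk : Integrable k) (hu : Integrable u) :
    Integrable (fun p : ST n × ST n => k (p.1 - p.2) * u p.2)
      ((volume : Measure (ST n)).prod volume) := by
  have h := Integrable.convolution_integrand (ContinuousLinearMap.mul ℝ ℝ) hu hk
    (μ := (volume : Measure (ST n)))
  refine h.congr (ae_of_all _ fun p => ?_)
  simp [mul_comm]

theorem integrable_slice (k u : ST n → ℝ) (hk : Integrable k) (hu : Integrable u) :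
    ∀ᵐ t : ℝ, Integrable (fun q : Eu n × ST n => k (t - q.2.1, q.1 - q.2.2) * u q.2)
      ((volume : Measure (Eu n)).prod volume) := by
  have h := integrable_conv k u hk hu
  have hp := (measurePreserving_prodAssoc (volume : Measure ℝ) (volume : Measure (Eu n))
    (volume : Measure (ST n))).symm
  have h2 := (hp.integrable_comp_emb (MeasurableEquiv.measurableEmbedding _)
    (g := fun p : ST n × ST n => k (p.1 - p.2) * u p.2)).mpr h
  exact h2.prod_right_ae

/-- Fourier transform in space of a space-time convolution, at a good time `t` -/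
theorem fourier_cv (k u : ST n → ℝ) (t : ℝ)
    (h3 : Integrable (fun q : Eu n × ST n => k (t - q.2.1, q.1 - q.2.2) * u q.2)
      ((volume : Measure (Eu n)).prod volume)) (ξ : Eu n) :
    𝓕 (fun x : Eu n => (cv k u (t, x) : ℂ)) ξ =
      ∫ s : ℝ, 𝓕 (fun x : Eu n => (k (t - s, x) : ℂ)) ξ * 𝓕 (fun y : Eu n => (u (s, y) : ℂ)) ξ := by
  -- the full integrand
  let Φ : Eu n × ST n → ℂ := fun q =>
    ((Real.fourierChar (-inner ℝ q.1 ξ) : Circle) : ℂ) *
      ((k (t - q.2.1, q.1 - q.2.2) * u q.2 : ℝ) : ℂ)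
  have hchar : Continuous fun x : Eu n => ((Real.fourierChar (-inner ℝ x ξ) : Circle) : ℂ) :=
    continuous_subtype_val.comp (Real.continuous_fourierChar.comp
      (continuous_id.inner continuous_const).neg)
  have hΦ : Integrable Φ ((volume : Measure (Eu n)).prod volume) := by
    have hc : Integrable (fun q : Eu n × ST n =>
        ((k (t - q.2.1, q.1 - q.2.2) * u q.2 : ℝ) : ℂ))
        ((volume : Measure (Eu n)).prod volume) := h3.ofReal
    refine hc.bdd_mul (c := 1) ?_ (ae_of_all _ fun q => ?_)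
    · exact (hchar.comp continuous_fst).aestronglyMeasurable
    · exact (Circle.norm_coe _).le
  have e1 : 𝓕 (fun x : Eu n => (cv k u (t, x) : ℂ)) ξ = ∫ x : Eu n, ∫ q : ST n, Φ (x, q) := by
    rw [Real.fourier_eq]
    refine integral_congr_ae (ae_of_all _ fun x => ?_)
    simp only [Φ, cv]
    rw [integral_const_mul, Circle.smul_def, smul_eq_mul]
    congr 1
    exact integral_complex_ofReal.symm
  have e2 : ∀ q : ST n, ∫ x : Eu n, Φ (x, q) =
      𝓕 (fun x : Eu n => (k (t - q.1, x) : ℂ)) ξ *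
        (((Real.fourierChar (-inner ℝ q.2 ξ) : Circle) : ℂ) * (u q : ℂ)) := by
    intro q
    rw [Real.fourier_eq, ← integral_add_right_eq_self (fun x => Φ (x, q)) q.2]
    rw [← integral_mul_const]
    refine integral_congr_ae (ae_of_all _ fun x => ?_)
    simp only [Φ, add_sub_cancel_right]
    rw [inner_add_left, neg_add, AddChar.map_add_eq_mul]
    simp only [Circle.smul_def, smul_eq_mul, Complex.ofReal_mul, Circle.coe_mul]
    ring
  rw [e1, integral_integral_swap hΦ]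
  simp_rw [e2]
  have hint : Integrable (fun q : ST n => 𝓕 (fun x : Eu n => (k (t - q.1, x) : ℂ)) ξ *
        (((Real.fourierChar (-inner ℝ q.2 ξ) : Circle) : ℂ) * (u q : ℂ))) volume := by
    have := hΦ.integral_prod_right
    refine this.congr (ae_of_all _ fun q => ?_)
    exact e2 q
  rw [Measure.volume_eq_prod, integral_prod _ hint]
  refine integral_congr_ae (ae_of_all _ fun s => ?_)
  simp only
  rw [integral_const_mul]
  rfl

theorem mult_aux (k : ST n → ℝ) (hk : Integrable k) (hkm : StronglyMeasurable k)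
    (B : ℝ → Eu n → ℝ≥0∞) (hB : Measurable (Function.uncurry B))
    (hbound : ∀ᵐ r : ℝ, ∀ ξ : Eu n, ‖𝓕 (fun x : Eu n => (k (r, x) : ℂ)) ξ‖ₑ ≤ B r ξ)
    (A : ℝ≥0∞) (hA : ∀ ξ, ∫⁻ r, B r ξ ≤ A)
    (u : ST n → ℝ) (hu : Integrable u) (hum : StronglyMeasurable u) (hu2 : MemLp u 2) :
    eLpNorm (cv k u) 2 volume ≤ A * eLpNorm u 2 volume := by
  -- measurability of the convolution
  have hvm : StronglyMeasurable (cv k u) := by
    have : StronglyMeasurable (fun p : ST n × ST n => k (p.1 - p.2) * u p.2) :=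
      (hkm.comp_measurable (measurable_fst.sub measurable_snd)).mul
        (hum.comp_measurable measurable_snd)
    exact this.integral_prod_right
  -- `L²` by Young
  have hke : Measurable fun z : ST n => ‖k z‖ₑ := hkm.measurable.enorm
  have hue : Measurable fun z : ST n => ‖u z‖ₑ := hum.measurable.enorm
  have hv2 : ∫⁻ z, ‖cv k u z‖ₑ ^ 2 < ∞ := by
    have h1 : ∀ z, ‖cv k u z‖ₑ ≤ ∫⁻ y, ‖k (z - y)‖ₑ * ‖u y‖ₑ := fun z => by
      refine (enorm_integral_le_lintegral_enorm _).trans_eq ?_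
      exact lintegral_congr fun y => enorm_mul _ _
    calc ∫⁻ z, ‖cv k u z‖ₑ ^ 2 ≤ ∫⁻ z, (∫⁻ y, ‖k (z - y)‖ₑ * ‖u y‖ₑ) ^ 2 :=
          lintegral_mono fun z => by gcongr; exact h1 z
      _ ≤ (∫⁻ z, ‖k z‖ₑ) ^ 2 * ∫⁻ z, ‖u z‖ₑ ^ 2 := young volume _ _ hke hue
      _ < ∞ := by
          apply ENNReal.mul_lt_top
          · exact ENNReal.pow_lt_top hk.2
          · rw [← eLpNorm_two_sq]
            exact ENNReal.pow_lt_top hu2.2
  have hv1 : Integrable (cv k u) := (integrable_conv k u hk hu).integral_prod_left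
  -- slices
  have hs1 : ∀ᵐ t : ℝ, Integrable fun x : Eu n => cv k u (t, x) := by
    have : Integrable (cv k u) ((volume : Measure ℝ).prod (volume : Measure (Eu n))) := hv1
    exact this.prod_right_ae
  have hs2 : ∀ᵐ t : ℝ, ∫⁻ x : Eu n, ‖cv k u (t, x)‖ₑ ^ 2 < ∞ := by
    have hm : Measurable fun z : ST n => ‖cv k u z‖ₑ ^ 2 := hvm.measurable.enorm.pow_const _
    rw [Measure.volume_eq_prod, lintegral_prod _ hm.aemeasurable] at hv2
    exact ae_lt_top (Measurable.lintegral_prod_right' hm) hv2.ne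
  have hus1 : ∀ᵐ s : ℝ, Integrable fun x : Eu n => u (s, x) := by
    have : Integrable u ((volume : Measure ℝ).prod (volume : Measure (Eu n))) := hu
    exact this.prod_right_ae
  have hus2 : ∀ᵐ s : ℝ, ∫⁻ x : Eu n, ‖u (s, x)‖ₑ ^ 2 < ∞ := by
    have hm : Measurable fun z : ST n => ‖u z‖ₑ ^ 2 := hue.pow_const _
    have h2 : ∫⁻ z, ‖u z‖ₑ ^ 2 < ∞ := by
      rw [← eLpNorm_two_sq]
      exact ENNReal.pow_lt_top hu2.2
    rw [Measure.volume_eq_prod, lintegral_prod _ hm.aemeasurable] at h2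
    exact ae_lt_top (Measurable.lintegral_prod_right' hm) h2.ne
  -- the Fourier transform of `u` in space
  obtain ⟨U, hUd⟩ : ∃ U : ℝ → Eu n → ℂ, ∀ s ξ, U s ξ = 𝓕 (fun y : Eu n => (u (s, y) : ℂ)) ξ :=
    ⟨_, fun _ _ => rfl⟩
  have hU : Measurable fun p : ℝ × Eu n => ‖U p.1 p.2‖ₑ := by
    have h1 : StronglyMeasurable (fun p : (ℝ × Eu n) × Eu n =>
        ((Real.fourierChar (-inner ℝ p.2 p.1.2) : Circle) : ℂ) * (u (p.1.1, p.2) : ℂ)) := by
      refine StronglyMeasurable.mul ?_ ?_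
      · apply Continuous.stronglyMeasurable
        exact continuous_subtype_val.comp (Real.continuous_fourierChar.comp
          (continuous_snd.inner (continuous_snd.comp continuous_fst)).neg)
      · exact Complex.continuous_ofReal.comp_stronglyMeasurable (hum.comp_measurable
          ((measurable_fst.comp measurable_fst).prodMk measurable_snd))
    have h2 := (h1.integral_prod_right' (ν := (volume : Measure (Eu n)))).measurable.enorm
    have e : (fun p : ℝ × Eu n => ‖U p.1 p.2‖ₑ) = fun x : ℝ × Eu n =>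
        ‖∫ y : Eu n, ((Real.fourierChar (-inner ℝ y x.2) : Circle) : ℂ) * (u (x.1, y) : ℂ)‖ₑ := by
      funext p
      rw [hUd]
      rfl
    rw [e]
    exact h2
  have hUξ : ∀ ξ, Measurable fun s => ‖U s ξ‖ₑ := fun ξ =>
    hU.comp (measurable_id.prodMk measurable_const)
  have hBξ : ∀ ξ, Measurable fun r => B r ξ := fun ξ =>
    hB.comp (measurable_id.prodMk measurable_const)
  have planch : ∀ (w : Eu n → ℝ), Integrable w → StronglyMeasurable w → ∫⁻ x, ‖w x‖ₑ ^ 2 < ∞ →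
      ∫⁻ ξ, ‖𝓕 (fun x : Eu n => (w x : ℂ)) ξ‖ₑ ^ 2 = ∫⁻ x, ‖w x‖ₑ ^ 2 := by
    intro w hw hwm hw2
    have hm2 : MemLp (fun x : Eu n => (w x : ℂ)) 2 volume := by
      refine ⟨(Complex.continuous_ofReal.comp_stronglyMeasurable hwm).aestronglyMeasurable, ?_⟩
      have : eLpNorm (fun x : Eu n => (w x : ℂ)) 2 volume ^ 2 < ∞ := by
        rw [eLpNorm_two_sq]
        simpa only [enorm_ofReal'] using hw2
      by_contra hcon
      rw [not_lt, top_le_iff] at hcon
      rw [hcon] at this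
      simp at this
    have e : ∫⁻ ξ, ‖𝓕 (fun x : Eu n => (w x : ℂ)) ξ‖ₑ ^ 2 =
        eLpNorm (𝓕 (fun x : Eu n => (w x : ℂ))) 2 volume ^ 2 := (eLpNorm_two_sq _ _).symm
    rw [e, plancherel (fun x : Eu n => (w x : ℂ)) hw.ofReal hm2, eLpNorm_two_sq]
    simp only [enorm_ofReal']
  -- pointwise bound for the Fourier transform of the convolution
  have hslice := integrable_slice k u hk hu
  have hbd : ∀ᵐ t : ℝ, ∀ ξ : Eu n, ‖𝓕 (fun x : Eu n => (cv k u (t, x) : ℂ)) ξ‖ₑ ≤
      ∫⁻ s, B (t - s) ξ * ‖U s ξ‖ₑ := by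
    filter_upwards [hslice] with t ht ξ
    rw [fourier_cv k u t ht ξ]
    simp only [← hUd]
    refine (enorm_integral_le_lintegral_enorm _).trans ?_
    have hb2 : ∀ᵐ s : ℝ, ∀ ξ : Eu n,
        ‖𝓕 (fun x : Eu n => (k (t - s, x) : ℂ)) ξ‖ₑ ≤ B (t - s) ξ :=
      (quasiMeasurePreserving_sub_left volume t).ae hbound
    refine lintegral_mono_ae ?_
    filter_upwards [hb2] with s hs
    rw [enorm_mul]
    gcongr
    exact hs ξ
  -- final computation
  have hmain : ∫⁻ z, ‖cv k u z‖ₑ ^ 2 ≤ A ^ 2 * ∫⁻ z, ‖u z‖ₑ ^ 2 := by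
    have hm : Measurable fun z : ST n => ‖cv k u z‖ₑ ^ 2 := hvm.measurable.enorm.pow_const _
    have hmu : Measurable fun z : ST n => ‖u z‖ₑ ^ 2 := hue.pow_const _
    have hBU : Measurable fun p : (ℝ × Eu n) × ℝ => B (p.1.1 - p.2) p.1.2 * ‖U p.2 p.1.2‖ₑ := by
      refine Measurable.mul ?_ ?_
      · exact hB.comp (((measurable_fst.comp measurable_fst).sub measurable_snd).prodMk
          (measurable_snd.comp measurable_fst))
      · exact hU.comp (measurable_snd.prodMk (measurable_snd.comp measurable_fst))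
    have hJ : Measurable fun p : ℝ × Eu n =>
        (∫⁻ s, B (p.1 - s) p.2 * ‖U s p.2‖ₑ) ^ 2 :=
      (Measurable.lintegral_prod_right' hBU).pow_const _
    calc ∫⁻ z, ‖cv k u z‖ₑ ^ 2 = ∫⁻ t : ℝ, ∫⁻ x : Eu n, ‖cv k u (t, x)‖ₑ ^ 2 := by
          rw [Measure.volume_eq_prod, lintegral_prod _ hm.aemeasurable]
      _ = ∫⁻ t : ℝ, ∫⁻ ξ : Eu n, ‖𝓕 (fun x : Eu n => (cv k u (t, x) : ℂ)) ξ‖ₑ ^ 2 := by
          refine lintegral_congr_ae ?_
          filter_upwards [hs1, hs2] with t ht1 ht2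
          exact (planch _ ht1 (hvm.comp_measurable measurable_prodMk_left) ht2).symm
      _ ≤ ∫⁻ t : ℝ, ∫⁻ ξ : Eu n, (∫⁻ s, B (t - s) ξ * ‖U s ξ‖ₑ) ^ 2 := by
          refine lintegral_mono_ae ?_
          filter_upwards [hbd] with t ht
          refine lintegral_mono fun ξ => ?_
          gcongr
          exact ht ξ
      _ = ∫⁻ ξ : Eu n, ∫⁻ t : ℝ, (∫⁻ s, B (t - s) ξ * ‖U s ξ‖ₑ) ^ 2 :=
          lintegral_lintegral_swap (f := fun t ξ => (∫⁻ s, B (t - s) ξ * ‖U s ξ‖ₑ) ^ 2)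
            hJ.aemeasurable
      _ ≤ ∫⁻ ξ : Eu n, A ^ 2 * ∫⁻ s, ‖U s ξ‖ₑ ^ 2 := by
          refine lintegral_mono fun ξ => ?_
          refine (young volume (fun r => B r ξ) (fun s => ‖U s ξ‖ₑ)
            (hBξ ξ) (hUξ ξ)).trans ?_
          gcongr
          exact hA ξ
      _ = A ^ 2 * ∫⁻ ξ : Eu n, ∫⁻ s, ‖U s ξ‖ₑ ^ 2 := by
          rw [lintegral_const_mul]
          exact Measurable.lintegral_prod_left' (hU.pow_const 2)
      _ = A ^ 2 * ∫⁻ s : ℝ, ∫⁻ ξ : Eu n, ‖U s ξ‖ₑ ^ 2 := by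
          congr 1
          exact lintegral_lintegral_swap (f := fun ξ s => ‖U s ξ‖ₑ ^ 2)
            ((hU.pow_const 2).comp measurable_swap).aemeasurable
      _ = A ^ 2 * ∫⁻ s : ℝ, ∫⁻ x : Eu n, ‖u (s, x)‖ₑ ^ 2 := by
          congr 1
          refine lintegral_congr_ae ?_
          filter_upwards [hus1, hus2] with s h1 h2
          simp only [hUd]
          exact planch _ h1 (hum.comp_measurable measurable_prodMk_left) h2
      _ = A ^ 2 * ∫⁻ z, ‖u z‖ₑ ^ 2 := by
          rw [Measure.volume_eq_prod, lintegral_prod _ hmu.aemeasurable]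
  rw [← eLpNorm_two_sq, ← eLpNorm_two_sq, ← mul_pow] at hmain
  exact (ENNReal.pow_le_pow_left_iff (by norm_num)).mp hmain

/-- The multiplier lemma. -/
theorem mult_lemma (k : ST n → ℝ) (hk : Integrable k)
    (B : ℝ → Eu n → ℝ≥0∞) (hB : Measurable (Function.uncurry B))
    (hbound : ∀ᵐ r : ℝ, ∀ ξ : Eu n, ‖𝓕 (fun x : Eu n => (k (r, x) : ℂ)) ξ‖ₑ ≤ B r ξ)
    (A : ℝ≥0∞) (hA : ∀ ξ, ∫⁻ r, B r ξ ≤ A)
    (u : ST n → ℝ) (hu : Integrable u) (hu2 : MemLp u 2) :
    eLpNorm (cv k u) 2 volume ≤ A * eLpNorm u 2 volume := by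
  obtain ⟨k', hk'm, hkk'⟩ := hk.1
  obtain ⟨u', hu'm, huu'⟩ := hu.1
  have hcv : cv k u = cv k' u' := by
    funext z
    refine integral_congr_ae ?_
    have h1 : ∀ᵐ y : ST n, k (z - y) = k' (z - y) :=
      (quasiMeasurePreserving_sub_left volume z).ae hkk'
    filter_upwards [h1, huu'] with y h1 h2
    rw [h1, h2]
  have hbound' : ∀ᵐ r : ℝ, ∀ ξ : Eu n, ‖𝓕 (fun x : Eu n => (k' (r, x) : ℂ)) ξ‖ₑ ≤ B r ξ := by
    have h1 : ∀ᵐ r : ℝ, ∀ᵐ x : Eu n, k (r, x) = k' (r, x) := by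
      have : ∀ᵐ z ∂((volume : Measure ℝ).prod (volume : Measure (Eu n))), k z = k' z := hkk'
      exact Measure.ae_ae_of_ae_prod this
    filter_upwards [h1, hbound] with r h1 h2 ξ
    refine le_trans (le_of_eq ?_) (h2 ξ)
    congr 1
    apply Real.fourier_congr_ae
    filter_upwards [h1] with x hx
    rw [hx]
  rw [hcv, eLpNorm_congr_ae huu']
  exact mult_aux k' (hk.congr hkk') hk'm B hB hbound' A hA u' (hu.congr huu') hu'm
    ((memLp_congr_ae huu').mp hu2)

end Pool.Agent.Helper76.Jef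
end
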