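import Pool.Agent.Helper42.JefB.B0

section
/-! # The mollification kernel -/

open MeasureTheory Set Filter Topology
open scoped ENNReal ContDiff

namespace Pool.Agent.Helper47.Jef

open Pool.Agent.Helper42.Jef

variable {n : ℕ}

theorem rho_smooth : ContDiff ℝ ∞ (rho n) := ContDiffBump.contDiff_normed _

theorem rho_cpt : HasCompactSupport (rho n) := ContDiffBump.hasCompactSupport_normed _

theorem rho_nonneg (x : Eu n) : 0 ≤ rho n x := ContDiffBump.nonneg_normed _ _

theorem rho_integral : ∫ x, rho n x = 1 := ContDiffBump.integral_normed _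

theorem rho_zero {x : Eu n} (hx : 1 ≤ ‖x‖) : rho n x = 0 := by
  by_contra h
  have h1 : x ∈ Function.support (rho n) := h
  unfold rho at h1
  rw [ContDiffBump.support_normed_eq, mem_ball_zero_iff] at h1
  exact absurd h1 (not_lt.2 hx)

theorem ro_smooth (ε : ℝ) : ContDiff ℝ ∞ (ro (n := n) ε) := by
  unfold ro
  exact contDiff_const.mul (rho_smooth.comp (contDiff_const_smul _))

theorem ro_nonneg {ε : ℝ} (hε : 0 < ε) (x : Eu n) : 0 ≤ ro ε x := by
  unfold ro
  exact mul_nonneg (by positivity) (rho_nonneg _)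

theorem ro_zero {ε : ℝ} (hε : 0 < ε) {x : Eu n} (hx : ε ≤ ‖x‖) : ro ε x = 0 := by
  unfold ro
  rw [rho_zero, mul_zero]
  rw [norm_smul, norm_inv, Real.norm_of_nonneg hε.le]
  rw [le_inv_mul_iff₀ hε]
  simpa using hx

theorem ro_cpt {ε : ℝ} (hε : 0 < ε) : HasCompactSupport (ro (n := n) ε) := by
  apply HasCompactSupport.intro (isCompact_closedBall (0 : Eu n) ε)
  intro x hx
  rw [mem_closedBall_zero_iff, not_le] at hx
  exact ro_zero hε hx.le

theorem ro_integrable {ε : ℝ} (hε : 0 < ε) : Integrable (ro (n := n) ε) :=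
  (ro_smooth ε).continuous.integrable_of_hasCompactSupport (ro_cpt hε)

theorem ro_integral {ε : ℝ} (hε : 0 < ε) : ∫ x : Eu n, ro ε x = 1 := by
  unfold ro
  rw [integral_const_mul, Measure.integral_comp_smul, rho_integral]
  simp only [finrank_euclideanSpace, Fintype.card_fin, smul_eq_mul, mul_one]
  rw [abs_of_pos (by positivity), inv_pow, inv_inv]
  exact inv_mul_cancel₀ (by positivity)

theorem ro_lintegral {ε : ℝ} (hε : 0 < ε) : ∫⁻ x : Eu n, ‖ro ε x‖ₑ = 1 := by
  have h1 := ofReal_integral_norm_eq_lintegral_enorm (ro_integrable (n := n) hε)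
  rw [← h1]
  have h2 : ∫ x : Eu n, ‖ro ε x‖ = 1 := by
    rw [← ro_integral (n := n) hε]
    congr 1
    ext x
    rw [Real.norm_of_nonneg (ro_nonneg hε x)]
  rw [h2, ENNReal.ofReal_one]

theorem fderiv_ro {ε : ℝ} (x : Eu n) : fderiv ℝ (ro ε) x =
    ((ε ^ n)⁻¹ * ε⁻¹) • fderiv ℝ (rho n) (ε⁻¹ • x) := by
  have h1 : HasFDerivAt (rho n) (fderiv ℝ (rho n) (ε⁻¹ • x)) (ε⁻¹ • x) :=
    ((rho_smooth (n := n)).differentiable (by simp) _).hasFDerivAt
  have h2 : HasFDerivAt (fun x : Eu n => ε⁻¹ • x) (ε⁻¹ • ContinuousLinearMap.id ℝ (Eu n)) x :=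
    (ε⁻¹ • ContinuousLinearMap.id ℝ (Eu n)).hasFDerivAt
  have h3 := (h1.comp x h2).const_mul ((ε ^ n)⁻¹)
  have h4 : fderiv ℝ (ro ε) x = _ := h3.fderiv
  rw [h4]
  ext v
  simp
  ring

theorem dro_zero {ε : ℝ} (hε : 0 < ε) {x : Eu n} (hx : ε < ‖x‖) : fderiv ℝ (ro ε) x = 0 := by
  have h1 : (ro (n := n) ε) =ᶠ[𝓝 x] fun _ => 0 := by
    have : {y : Eu n | ε < ‖y‖} ∈ 𝓝 x := (isOpen_lt continuous_const continuous_norm).mem_nhds hx
    filter_upwards [this] with y hy
    exact ro_zero hε (le_of_lt hy)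
  rw [h1.fderiv_eq]
  simp

/-- the constant of the commutator estimate -/
noncomputable def Cro (n : ℕ) : ℝ≥0∞ := ENNReal.ofReal (∫ x : Eu n, ‖fderiv ℝ (rho n) x‖)

theorem Cro_lt_top : Cro n < ⊤ := ENNReal.ofReal_lt_top

theorem drho_integrable : Integrable (fun x : Eu n => fderiv ℝ (rho n) x) :=
  ((rho_smooth (n := n)).continuous_fderiv (by simp)).integrable_of_hasCompactSupport
    ((rho_cpt (n := n)).fderiv (𝕜 := ℝ))

theorem dro_bound {ε : ℝ} (hε : 0 < ε) :
    ∫⁻ h : Eu n, ‖fderiv ℝ (ro ε) h‖ₑ * ‖h‖ₑ ≤ Cro n := by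
  set φ : Eu n → ℝ := fun h => (ε ^ n)⁻¹ * ‖fderiv ℝ (rho n) (ε⁻¹ • h)‖ with hφ
  have hφ0 : ∀ h, 0 ≤ φ h := fun h => by positivity
  have h1 : ∀ h : Eu n, ‖fderiv ℝ (ro ε) h‖ * ‖h‖ ≤ φ h := by
    intro h
    rcases lt_or_ge ε ‖h‖ with hh | hh
    · rw [dro_zero hε hh, norm_zero, zero_mul]
      exact hφ0 h
    · rw [fderiv_ro, norm_smul, norm_mul, norm_inv, norm_inv, norm_pow,
        Real.norm_of_nonneg hε.le]
      calc (ε ^ n)⁻¹ * ε⁻¹ * ‖fderiv ℝ (rho n) (ε⁻¹ • h)‖ * ‖h‖
          ≤ (ε ^ n)⁻¹ * ε⁻¹ * ‖fderiv ℝ (rho n) (ε⁻¹ • h)‖ * ε := by gcongr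
        _ = φ h := by
          simp only [hφ]
          field_simp
  have hint : Integrable φ := by
    have h2 : Integrable (fun h : Eu n => ‖fderiv ℝ (rho n) (ε⁻¹ • h)‖) :=
      (drho_integrable (n := n)).norm.comp_smul (inv_ne_zero hε.ne')
    exact h2.const_mul _
  have h3 : ∫ h, φ h = ∫ x : Eu n, ‖fderiv ℝ (rho n) x‖ := by
    simp only [hφ]
    rw [integral_const_mul, Measure.integral_comp_smul (μ := (volume : Measure (Eu n)))
      (fun x => ‖fderiv ℝ (rho n) x‖) ε⁻¹]
    simp only [finrank_euclideanSpace, Fintype.card_fin, smul_eq_mul]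
    rw [abs_of_pos (by positivity), inv_pow, inv_inv, ← mul_assoc,
      inv_mul_cancel₀ (by positivity), one_mul]
  calc ∫⁻ h : Eu n, ‖fderiv ℝ (ro ε) h‖ₑ * ‖h‖ₑ ≤ ∫⁻ h : Eu n, ENNReal.ofReal (φ h) := by
        apply lintegral_mono
        intro h
        simp only
        rw [← ofReal_norm, ← ofReal_norm, ← ENNReal.ofReal_mul (norm_nonneg _)]
        exact ENNReal.ofReal_le_ofReal (h1 h)
    _ = ENNReal.ofReal (∫ h, φ h) :=
        (ofReal_integral_eq_lintegral_ofReal hint (Eventually.of_forall hφ0)).symm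
    _ = Cro n := by rw [h3, Cro]

end Pool.Agent.Helper47.Jef
end

section
/-! # Translations and mollification on space-time -/

open MeasureTheory Set Filter Topology
open scoped ENNReal ContDiff

namespace Pool.Agent.Helper47.Jef

open Pool.Agent.Helper42.Jef

variable {n : ℕ}

instance stInv : (volume : Measure (ST n)).IsAddLeftInvariant :=
  inferInstanceAs ((volume.prod volume : Measure (ℝ × Eu n)).IsAddLeftInvariant)

/-- space translation -/
def shf (h : Eu n) (z : ST n) : ST n := (z.1, z.2 - h)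

theorem shf_mp (h : Eu n) : MeasurePreserving (shf h) (volume : Measure (ST n)) volume := by
  have h1 := measurePreserving_sub_right (volume : Measure (ST n)) ((0 : ℝ), h)
  convert! h1 using 1
  ext z <;> simp [shf]

theorem shf_cont : Continuous (fun p : ST n × Eu n => shf p.2 p.1) := by
  unfold shf
  fun_prop

theorem lintegral_shf (h : Eu n) (f : ST n → ℝ≥0∞) : ∫⁻ z, f (shf h z) = ∫⁻ z, f z := by
  have h1 := lintegral_sub_right_eq_self (μ := (volume : Measure (ST n))) f ((0 : ℝ), h)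
  rw [← h1]
  congr 1
  ext z
  simp [shf]
  congr 1
  ext <;> simp

/-- continuity of translations in `L^p` -/
theorem trans_cont {E : Type*} [NormedAddCommGroup E] {p : ℝ≥0∞} (hp1 : 1 ≤ p) (hp : p ≠ ⊤)
    {f : ST n → E} (hf : MemLp f p volume) {δ : ℝ} (hδ : 0 < δ) :
    ∃ r > 0, ∀ h : Eu n, ‖h‖ ≤ r →
      eLpNorm (fun z => f (shf h z) - f z) p volume ≤ ENNReal.ofReal δ := by
  have _ : Fact (1 ≤ p) := ⟨hp1⟩
  let g : Eu n → C(ST n, ST n) := fun h => ⟨shf h, by unfold shf; fun_prop⟩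
  have hg : Continuous g := by
    apply ContinuousMap.continuous_of_continuous_uncurry
    exact shf_cont.comp continuous_swap
  have hcont : Continuous (fun h => Lp.compMeasurePreserving (g h) (shf_mp h) (hf.toLp f)) :=
    Continuous.compMeasurePreservingLp continuous_const hg shf_mp hp
  have h0 := (Metric.continuous_iff.1 hcont) 0 δ hδ
  obtain ⟨r, hr, hr'⟩ := h0
  refine ⟨r / 2, by positivity, fun h hh => ?_⟩
  have h1 := hr' h (by rw [dist_zero_right]; linarith)
  rw [← edist_lt_ofReal] at h1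
  rw [Lp.edist_def] at h1
  refine le_trans (le_of_eq ?_) h1.le
  apply eLpNorm_congr_ae
  have a1 := Lp.coeFn_compMeasurePreserving (hf.toLp f) (shf_mp h)
  have a2 := Lp.coeFn_compMeasurePreserving (hf.toLp f) (shf_mp (0 : Eu n))
  have a3 := (hf.coeFn_toLp)
  have a4 := (shf_mp h).quasiMeasurePreserving.ae_eq_comp a3
  have a5 := (shf_mp (0 : Eu n)).quasiMeasurePreserving.ae_eq_comp a3
  filter_upwards [a1, a2, a4, a5] with z b1 b2 b4 b5
  simp only [Pi.sub_apply]
  have c1 : (Lp.compMeasurePreserving (g h) (shf_mp h) (hf.toLp f)) z = f (shf h z) := by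
    rw [show (Lp.compMeasurePreserving (g h) (shf_mp h) (hf.toLp f)) z = _ from b1]
    exact b4
  have c2 : (Lp.compMeasurePreserving (g 0) (shf_mp 0) (hf.toLp f)) z = f z := by
    rw [show (Lp.compMeasurePreserving (g 0) (shf_mp 0) (hf.toLp f)) z = _ from b2]
    rw [b5]
    simp [shf]
  rw [c1, c2]

/-! ### inequalities for lower integrals -/

theorem sq_lintegral_le {α : Type*} [MeasurableSpace α] {μ : Measure α} {w a : α → ℝ≥0∞}
    (hw : Measurable w) (ha : Measurable a) :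
    (∫⁻ x, w x * a x ∂μ) ^ 2 ≤ (∫⁻ x, w x ∂μ) * ∫⁻ x, w x * a x ^ 2 ∂μ := by
  have h1 := ENNReal.lintegral_mul_le_Lp_mul_Lq (μ.withDensity w) (p := 2) (q := 2)
    Real.HolderConjugate.two_two ha.aemeasurable (measurable_const (a := (1 : ℝ≥0∞))).aemeasurable
  simp only [Pi.mul_apply, mul_one, ENNReal.one_rpow, lintegral_const, one_mul] at h1
  rw [withDensity_apply _ MeasurableSet.univ, Measure.restrict_univ,
    lintegral_withDensity_eq_lintegral_mul _ hw ha,
    lintegral_withDensity_eq_lintegral_mul _ hw (ha.pow_const _)] at h1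
  simp only [Pi.mul_apply] at h1
  calc (∫⁻ x, w x * a x ∂μ) ^ 2
      ≤ ((∫⁻ x, w x * a x ^ (2 : ℝ) ∂μ) ^ (1 / (2 : ℝ)) * (∫⁻ x, w x ∂μ) ^ (1 / (2 : ℝ))) ^ 2 := by
        gcongr
    _ = (∫⁻ x, w x ∂μ) * ∫⁻ x, w x * a x ^ 2 ∂μ := by
        rw [mul_pow, ← ENNReal.rpow_natCast, ← ENNReal.rpow_natCast, ← ENNReal.rpow_mul,
          ← ENNReal.rpow_mul]
        norm_num
        rw [mul_comm]

theorem eLpNorm_two_sq {α : Type*} [MeasurableSpace α] {μ : Measure α} {E : Type*}
    [NormedAddCommGroup E] (f : α → E) : eLpNorm f 2 μ ^ 2 = ∫⁻ x, ‖f x‖ₑ ^ 2 ∂μ := by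
  rw [eLpNorm_eq_lintegral_rpow_enorm_toReal (by norm_num) (by norm_num)]
  rw [← ENNReal.rpow_natCast, ← ENNReal.rpow_mul]
  norm_num

/-- Cauchy–Schwarz -/
theorem lintegral_enorm_mul_le {α : Type*} [MeasurableSpace α] {μ : Measure α} {E F : Type*}
    [NormedAddCommGroup E] [NormedAddCommGroup F] {f : α → E} {g : α → F}
    (hf : AEStronglyMeasurable f μ) (hg : AEStronglyMeasurable g μ) :
    ∫⁻ x, ‖f x‖ₑ * ‖g x‖ₑ ∂μ ≤ eLpNorm f 2 μ * eLpNorm g 2 μ := by
  have h1 := ENNReal.lintegral_mul_le_Lp_mul_Lq μ (p := 2) (q := 2)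
    Real.HolderConjugate.two_two hf.enorm hg.enorm
  rw [eLpNorm_eq_lintegral_rpow_enorm_toReal (by norm_num) (by norm_num),
    eLpNorm_eq_lintegral_rpow_enorm_toReal (by norm_num) (by norm_num)]
  simpa using h1

end Pool.Agent.Helper47.Jef
end

section
/-! # Mollification: pointwise facts and `L^p` convergence -/

open MeasureTheory Set Filter Topology
open scoped ENNReal ContDiff

namespace Pool.Agent.Helper47.Jef

open Pool.Agent.Helper42.Jef

variable {n : ℕ} {E : Type*} [NormedAddCommGroup E] [NormedSpace ℝ E] [FiniteDimensional ℝ E]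

/-- the time slice is locally integrable -/
def Good (u : ST n → E) (t : ℝ) : Prop := LocallyIntegrable (fun y : Eu n => u (t, y)) volume

omit [NormedSpace ℝ E] [FiniteDimensional ℝ E] in
theorem good_ae {u : ST n → E} (hu : LocallyIntegrable u volume) : ∀ᵐ t : ℝ, Good u t := by
  have h1 : ∀ N : ℕ, ∀ᵐ t : ℝ, t ∈ Metric.closedBall (0 : ℝ) N →
      IntegrableOn (fun y : Eu n => u (t, y)) (Metric.closedBall 0 N) volume := by
    intro N
    have h2 : IntegrableOn u (Metric.closedBall (0 : ℝ) N ×ˢ Metric.closedBall (0 : Eu n) N)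
        volume :=
      hu.integrableOn_isCompact
        ((isCompact_closedBall _ _).prod (isCompact_closedBall _ _))
    rw [IntegrableOn, Measure.volume_eq_prod, ← Measure.prod_restrict] at h2
    have h3 := h2.prod_right_ae
    rw [ae_restrict_iff' Metric.isClosed_closedBall.measurableSet] at h3
    exact h3
  have h4 : ∀ᵐ t : ℝ, ∀ N : ℕ, t ∈ Metric.closedBall (0 : ℝ) N →
      IntegrableOn (fun y : Eu n => u (t, y)) (Metric.closedBall 0 N) volume := ae_all_iff.2 h1
  filter_upwards [h4] with t ht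
  intro x
  obtain ⟨N, hN⟩ := exists_nat_gt (max ‖t‖ (‖x‖ + 1))
  have hNt : ‖t‖ ≤ N := (le_max_left _ _).trans hN.le
  have hNx : ‖x‖ + 1 ≤ N := (le_max_right _ _).trans hN.le
  refine ⟨Metric.closedBall 0 N, ?_, ht N (by rwa [mem_closedBall_zero_iff])⟩
  apply Filter.mem_of_superset (Metric.ball_mem_nhds x one_pos)
  intro y hy
  rw [mem_closedBall_zero_iff]
  have h5 : ‖y - x‖ < 1 := by rwa [← dist_eq_norm]
  have h6 : ‖y‖ ≤ ‖y - x‖ + ‖x‖ := norm_le_norm_sub_add _ _
  linarith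

omit [NormedSpace ℝ E] [FiniteDimensional ℝ E] in
theorem ae_of_time {P : ℝ → Prop} (h : ∀ᵐ t : ℝ, P t) : ∀ᵐ z : ST n, P z.1 := by
  have h1 : Measure.QuasiMeasurePreserving (Prod.fst : ST n → ℝ) volume volume :=
    Measure.quasiMeasurePreserving_fst
  exact h1.ae h

omit [FiniteDimensional ℝ E] in
theorem good_kernel {u : ST n → E} {t : ℝ} (ht : Good u t) {k : Eu n → ℝ} (hk : Continuous k)
    (hkc : HasCompactSupport k) (x : Eu n) : Integrable (fun y => k (x - y) • u (t, y)) := by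
  have h1 : HasCompactSupport (fun y => k (x - y)) := by
    have := hkc.comp_homeomorph (Homeomorph.subLeft x)
    exact this
  exact LocallyIntegrable.integrable_smul_left_of_hasCompactSupport ht
    (hk.comp (continuous_const.sub continuous_id)) h1

omit [FiniteDimensional ℝ E] in
theorem good_kernel' {u : ST n → E} {t : ℝ} (ht : Good u t) {k : Eu n → ℝ} (hk : Continuous k)
    (hkc : HasCompactSupport k) (x : Eu n) : Integrable (fun h => k h • u (t, x - h)) := by
  have h1 := (good_kernel ht hk hkc x).comp_sub_left x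
  simpa using h1

omit [FiniteDimensional ℝ E] in
theorem conv_eq {F : Type*} [NormedAddCommGroup F] [NormedSpace ℝ F]
    (f : Eu n → Eu n → F) (x : Eu n) :
    ∫ y, f (x - y) y = ∫ h, f h (x - h) := by
  have h1 := integral_sub_left_eq_self (fun y => f (x - y) y) (volume : Measure (Eu n)) x
  rw [← h1]
  simp

omit [FiniteDimensional ℝ E] in
theorem mo_eq (ε : ℝ) (u : ST n → E) (z : ST n) : mo ε u z = ∫ h, ro ε h • u (shf h z) := by
  unfold mo shf
  exact conv_eq (fun h y => ro ε h • u (z.1, y)) z.2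

theorem mo_sub_eq {ε : ℝ} (hε : 0 < ε) {u : ST n → E} {z : ST n} (hz : Good u z.1) :
    mo ε u z - u z = ∫ h, ro ε h • (u (shf h z) - u z) := by
  have h1 : Integrable (fun h => ro ε h • u (shf h z)) :=
    good_kernel' hz (ro_smooth ε).continuous (ro_cpt hε) z.2
  have h2 : Integrable (fun h : Eu n => ro ε h • u z) := (ro_integrable hε).smul_const _
  simp only [smul_sub]
  rw [integral_sub h1 h2, integral_smul_const, ro_integral hε, one_smul, mo_eq]

theorem enorm_mo_sub_le {ε : ℝ} (hε : 0 < ε) {u : ST n → E} {z : ST n} (hz : Good u z.1) :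
    ‖mo ε u z - u z‖ₑ ≤ ∫⁻ h, ‖ro ε h‖ₑ * ‖u (shf h z) - u z‖ₑ := by
  rw [mo_sub_eq hε hz]
  refine (enorm_integral_le_lintegral_enorm _).trans (le_of_eq ?_)
  congr 1
  ext h
  rw [enorm_smul]

omit [NormedSpace ℝ E] [FiniteDimensional ℝ E] in
theorem meas_shf_sub {u : ST n → E} (hu : StronglyMeasurable u) :
    Measurable (fun p : ST n × Eu n => ‖u (shf p.2 p.1) - u p.1‖ₑ) := by
  have h1 : StronglyMeasurable (fun p : ST n × Eu n => u (shf p.2 p.1)) :=
    hu.comp_measurable shf_cont.measurable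
  have h2 : StronglyMeasurable (fun p : ST n × Eu n => u p.1) := hu.comp_measurable measurable_fst
  exact (h1.sub h2).enorm

theorem ro_enorm_meas (ε : ℝ) : Measurable (fun h : Eu n => ‖ro ε h‖ₑ) :=
  (ro_smooth ε).continuous.measurable.enorm

/-- Tonelli with a kernel in the space variable -/
theorem tonelli_kernel {w : Eu n → ℝ≥0∞} (hw : Measurable w) {a : ST n × Eu n → ℝ≥0∞}
    (ha : Measurable a) :
    ∫⁻ z : ST n, ∫⁻ h, w h * a (z, h) = ∫⁻ h, w h * ∫⁻ z : ST n, a (z, h) := by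
  rw [lintegral_lintegral_swap]
  · congr 1
    ext h
    rw [lintegral_const_mul]
    exact ha.comp (measurable_id.prodMk measurable_const)
  · exact ((hw.comp measurable_snd).mul ha).aemeasurable

theorem ro_weight {ε : ℝ} (hε : 0 < ε) {a : Eu n → ℝ≥0∞} {δ : ℝ≥0∞}
    (h : ∀ h, ‖h‖ ≤ ε → a h ≤ δ) : ∫⁻ h, ‖ro ε h‖ₑ * a h ≤ δ := by
  calc ∫⁻ h, ‖ro ε h‖ₑ * a h ≤ ∫⁻ h : Eu n, ‖ro ε h‖ₑ * δ := by
        apply lintegral_mono
        intro x
        simp only
        rcases le_or_gt ‖x‖ ε with hx | hx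
        · gcongr
          exact h x hx
        · rw [ro_zero hε hx.le]
          simp
    _ = δ := by
        rw [lintegral_mul_const _ (ro_enorm_meas ε), ro_lintegral hε, one_mul]

theorem mo_sub_L1 {ε : ℝ} (hε : 0 < ε) {u : ST n → E} (hu : StronglyMeasurable u)
    (hg : ∀ᵐ t : ℝ, Good u t) {δ : ℝ≥0∞}
    (hδ : ∀ h : Eu n, ‖h‖ ≤ ε → eLpNorm (fun z => u (shf h z) - u z) 1 volume ≤ δ) :
    eLpNorm (fun z => mo ε u z - u z) 1 volume ≤ δ := by
  rw [eLpNorm_one_eq_lintegral_enorm]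
  calc ∫⁻ z, ‖mo ε u z - u z‖ₑ ≤ ∫⁻ z : ST n, ∫⁻ h, ‖ro ε h‖ₑ * ‖u (shf h z) - u z‖ₑ := by
        apply lintegral_mono_ae
        filter_upwards [ae_of_time hg] with z hz
        exact enorm_mo_sub_le hε hz
    _ = ∫⁻ h, ‖ro ε h‖ₑ * ∫⁻ z : ST n, ‖u (shf h z) - u z‖ₑ :=
        tonelli_kernel (ro_enorm_meas ε) (meas_shf_sub hu)
    _ ≤ δ := by
        apply ro_weight hε
        intro h hh
        have := hδ h hh
        rwa [eLpNorm_one_eq_lintegral_enorm] at this

theorem mo_sub_L2 {ε : ℝ} (hε : 0 < ε) {u : ST n → E} (hu : StronglyMeasurable u)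
    (hg : ∀ᵐ t : ℝ, Good u t) {δ : ℝ≥0∞}
    (hδ : ∀ h : Eu n, ‖h‖ ≤ ε → eLpNorm (fun z => u (shf h z) - u z) 2 volume ≤ δ) :
    eLpNorm (fun z => mo ε u z - u z) 2 volume ≤ δ := by
  have hsq : eLpNorm (fun z => mo ε u z - u z) 2 volume ^ 2 ≤ δ ^ 2 := by
    rw [eLpNorm_two_sq]
    calc ∫⁻ z, ‖mo ε u z - u z‖ₑ ^ 2
        ≤ ∫⁻ z : ST n, ∫⁻ h, ‖ro ε h‖ₑ * ‖u (shf h z) - u z‖ₑ ^ 2 := by
          apply lintegral_mono_ae
          filter_upwards [ae_of_time hg] with z hz
          calc ‖mo ε u z - u z‖ₑ ^ 2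
              ≤ (∫⁻ h, ‖ro ε h‖ₑ * ‖u (shf h z) - u z‖ₑ) ^ 2 := by
                gcongr
                exact enorm_mo_sub_le hε hz
            _ ≤ (∫⁻ h : Eu n, ‖ro ε h‖ₑ) * ∫⁻ h, ‖ro ε h‖ₑ * ‖u (shf h z) - u z‖ₑ ^ 2 :=
                sq_lintegral_le (ro_enorm_meas ε)
                  ((meas_shf_sub hu).comp (measurable_const.prodMk measurable_id))
            _ = _ := by rw [ro_lintegral hε, one_mul]
      _ = ∫⁻ h, ‖ro ε h‖ₑ * ∫⁻ z : ST n, ‖u (shf h z) - u z‖ₑ ^ 2 :=
          tonelli_kernel (ro_enorm_meas ε) ((meas_shf_sub hu).pow_const 2)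
      _ ≤ δ ^ 2 := by
          apply ro_weight hε
          intro h hh
          have := hδ h hh
          rw [← eLpNorm_two_sq]
          gcongr
  exact (ENNReal.pow_le_pow_left_iff (by norm_num)).1 hsq

omit [FiniteDimensional ℝ E] in
theorem mo_meas {ε : ℝ} {u : ST n → E} (hu : StronglyMeasurable u) :
    StronglyMeasurable (mo ε u) := by
  have h1 : mo ε u = fun z => ∫ h, ro ε h • u (shf h z) := funext (mo_eq ε u)
  rw [h1]
  have h2 : StronglyMeasurable (fun p : ST n × Eu n => ro ε p.2 • u (shf p.2 p.1)) :=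
    ((ro_smooth ε).continuous.comp continuous_snd).stronglyMeasurable.smul
      (hu.comp_measurable shf_cont.measurable)
  exact h2.integral_prod_right'

end Pool.Agent.Helper47.Jef
end

section
/-! # One dimensional chain rule for distributional derivatives (du Bois-Reymond) -/

open MeasureTheory Set Filter Topology
open scoped ENNReal ContDiff

namespace Pool.Agent.Helper47.Jef

open Pool.Agent.Helper42.Jef

section OneD
variable {E E' : Type*} [NormedAddCommGroup E] [NormedSpace ℝ E] [FiniteDimensional ℝ E]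
    [NormedAddCommGroup E'] [NormedSpace ℝ E'] [FiniteDimensional ℝ E']

theorem chain_primitive_cont {R : ℝ → E} (hR : Continuous R) (c : E)
    {β : E → E'} (hβ : ContDiff ℝ 1 β) {η : ℝ → ℝ} (hη : ContDiff ℝ 1 η)
    (hc : HasCompactSupport η) :
    ∫ t, (deriv η t • β (c + ∫ s in (0 : ℝ)..t, R s) +
      η t • fderiv ℝ β (c + ∫ s in (0 : ℝ)..t, R s) (R t)) = 0 := by
  have hI : ∀ t, HasDerivAt (fun t => c + ∫ s in (0 : ℝ)..t, R s) (R t) t := fun t =>
    (intervalIntegral.integral_hasDerivAt_right (hR.intervalIntegrable _ _)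
      (hR.stronglyMeasurableAtFilter _ _) hR.continuousAt).const_add c
  have hIc : Continuous (fun t => c + ∫ s in (0 : ℝ)..t, R s) :=
    continuous_iff_continuousAt.2 fun t => (hI t).continuousAt
  have hd : ∀ t, HasDerivAt (fun t => η t • β (c + ∫ s in (0 : ℝ)..t, R s))
      (deriv η t • β (c + ∫ s in (0 : ℝ)..t, R s) +
      η t • fderiv ℝ β (c + ∫ s in (0 : ℝ)..t, R s) (R t)) t := by
    intro t
    have h1 : HasDerivAt η (deriv η t) t := (hη.differentiable one_ne_zero t).hasDerivAt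
    have h2 : HasFDerivAt β (fderiv ℝ β (c + ∫ s in (0 : ℝ)..t, R s))
      (c + ∫ s in (0 : ℝ)..t, R s) := (hβ.differentiable one_ne_zero _).hasFDerivAt
    have h3 := h2.comp_hasDerivAt t (hI t)
    have h4 := h1.smul h3
    rw [add_comm]
    exact h4
  have hdc : Continuous (deriv η) := hη.continuous_deriv le_rfl
  have hfd : Continuous (fderiv ℝ β) := hβ.continuous_fderiv one_ne_zero
  have hcont : Continuous (fun t => deriv η t • β (c + ∫ s in (0 : ℝ)..t, R s) +
      η t • fderiv ℝ β (c + ∫ s in (0 : ℝ)..t, R s) (R t)) :=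
    (hdc.smul (hβ.continuous.comp hIc)).add
      (hη.continuous.smul ((hfd.comp hIc).clm_apply hR))
  apply integral_eq_zero_of_hasDerivAt_of_integrable hd
  · apply hcont.integrable_of_hasCompactSupport
    exact (hc.deriv.smul_right).add hc.smul_right
  · apply (hη.continuous.smul (hβ.continuous.comp hIc)).integrable_of_hasCompactSupport
    exact hc.smul_right

theorem chain_primitive {R : ℝ → E} (hR : Integrable R) (c : E)
    {β : E → E'} (hβ : ContDiff ℝ 1 β) {η : ℝ → ℝ} (hη : ContDiff ℝ 1 η)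
    (hc : HasCompactSupport η) :
    ∫ t, (deriv η t • β (c + ∫ s in (0 : ℝ)..t, R s) +
      η t • fderiv ℝ β (c + ∫ s in (0 : ℝ)..t, R s) (R t)) = 0 := by
  have hex : ∀ k : ℕ, ∃ g : ℝ → E, HasCompactSupport g ∧ (∫ x, ‖R x - g x‖) ≤ 1 / ((k : ℝ) + 1) ∧
      Continuous g ∧ Integrable g := fun k =>
    hR.exists_hasCompactSupport_integral_sub_le (by positivity)
  choose Rk hRkc hRkd hRkcont hRki using hex
  set I : ℝ → E := fun t => ∫ s in (0 : ℝ)..t, R s with hIdef
  set Ik : ℕ → ℝ → E := fun k t => ∫ s in (0 : ℝ)..t, Rk k s with hIkdef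
  have hIcont : Continuous I := intervalIntegral.continuous_primitive (fun a b => hR.intervalIntegrable) 0
  have hIkcont : ∀ k, Continuous (Ik k) := fun k =>
    intervalIntegral.continuous_primitive (fun a b => (hRki k).intervalIntegrable) 0
  have hdiff : ∀ k t, ‖Ik k t - I t‖ ≤ 1 / ((k : ℝ) + 1) := by
    intro k t
    have h1 : Ik k t - I t = ∫ s in (0 : ℝ)..t, (Rk k s - R s) := by
      rw [intervalIntegral.integral_sub (hRki k).intervalIntegrable hR.intervalIntegrable]
    rw [h1]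
    calc ‖∫ s in (0 : ℝ)..t, (Rk k s - R s)‖ ≤ ∫ s in uIoc 0 t, ‖Rk k s - R s‖ :=
          intervalIntegral.norm_integral_le_integral_norm_uIoc
      _ ≤ ∫ s, ‖Rk k s - R s‖ := setIntegral_le_integral ((hRki k).sub hR).norm
          (Eventually.of_forall fun x => norm_nonneg _)
      _ = ∫ s, ‖R s - Rk k s‖ := by simp_rw [norm_sub_rev]
      _ ≤ _ := hRkd k
  have hIb : ∀ t, ‖I t‖ ≤ ∫ s, ‖R s‖ := by
    intro t
    calc ‖I t‖ ≤ ∫ s in uIoc 0 t, ‖R s‖ := intervalIntegral.norm_integral_le_integral_norm_uIoc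
      _ ≤ ∫ s, ‖R s‖ := setIntegral_le_integral hR.norm
          (Eventually.of_forall fun x => norm_nonneg _)
  set M : ℝ := (∫ s, ‖R s‖) + 1 with hM
  have hmemS : ∀ k t, c + Ik k t ∈ Metric.closedBall c M := by
    intro k t
    rw [mem_closedBall_iff_norm, add_sub_cancel_left]
    have h1 : ‖Ik k t‖ ≤ ‖Ik k t - I t‖ + ‖I t‖ := norm_le_norm_sub_add _ _
    have h2 := hdiff k t
    have h3 : 1 / ((k : ℝ) + 1) ≤ 1 := by
      rw [div_le_one (by positivity)]
      have : (0 : ℝ) ≤ k := Nat.cast_nonneg k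
      linarith
    have h4 := hIb t
    linarith
  have hcompact : IsCompact (Metric.closedBall c M) := by
    have : ProperSpace E := FiniteDimensional.proper ℝ E
    exact isCompact_closedBall c M
  have hfd : Continuous (fderiv ℝ β) := hβ.continuous_fderiv one_ne_zero
  have hdc : Continuous (deriv η) := hη.continuous_deriv le_rfl
  obtain ⟨Cβ, hCβ⟩ := hcompact.exists_bound_of_continuousOn hβ.continuous.continuousOn
  obtain ⟨CD, hCD⟩ := hcompact.exists_bound_of_continuousOn hfd.continuousOn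
  obtain ⟨Cη, hCη⟩ := hc.exists_bound_of_continuous hη.continuous
  have hCη0 : 0 ≤ Cη := le_trans (norm_nonneg _) (hCη 0)
  have hCD0 : 0 ≤ CD := le_trans (norm_nonneg _) (hCD _ (hmemS 0 0))
  have hetai : Integrable (deriv η) := hdc.integrable_of_hasCompactSupport hc.deriv
  -- the dominated part
  have hmeasD : ∀ k, AEStronglyMeasurable (fun t => deriv η t • β (c + Ik k t) +
      η t • fderiv ℝ β (c + Ik k t) (R t)) := by
    intro k
    have hk : Continuous (fun t => c + Ik k t) := continuous_const.add (hIkcont k)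
    refine ((hdc.smul (hβ.continuous.comp hk)).aestronglyMeasurable).add ?_
    refine hη.continuous.aestronglyMeasurable.smul ?_
    exact ContinuousLinearMap.aestronglyMeasurable_comp₂ (ContinuousLinearMap.apply ℝ E').flip
      (hfd.comp hk).aestronglyMeasurable hR.aestronglyMeasurable
  have hlim1 : Tendsto (fun k => ∫ t, (deriv η t • β (c + Ik k t) +
      η t • fderiv ℝ β (c + Ik k t) (R t))) atTop
      (𝓝 (∫ t, (deriv η t • β (c + I t) + η t • fderiv ℝ β (c + I t) (R t)))) := by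
    apply tendsto_integral_of_dominated_convergence
      (bound := fun t => ‖deriv η t‖ * Cβ + Cη * (CD * ‖R t‖)) hmeasD
    · exact (hetai.norm.mul_const _).add ((hR.norm.const_mul _).const_mul _)
    · intro k
      filter_upwards with t
      calc _ ≤ ‖deriv η t • β (c + Ik k t)‖ + ‖η t • fderiv ℝ β (c + Ik k t) (R t)‖ := norm_add_le _ _
        _ ≤ ‖deriv η t‖ * Cβ + Cη * (CD * ‖R t‖) := by
          rw [norm_smul, norm_smul]
          have h1 := hCβ _ (hmemS k t)
          have h2 := hCD _ (hmemS k t)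
          have h3 := hCη t
          have h4 := (fderiv ℝ β (c + Ik k t)).le_opNorm (R t)
          gcongr
          exact h4.trans (by gcongr)
    · filter_upwards with t
      have hIt : Tendsto (fun k => Ik k t) atTop (𝓝 (I t)) := by
        rw [tendsto_iff_norm_sub_tendsto_zero]
        exact squeeze_zero (fun k => norm_nonneg _) (fun k => hdiff k t)
          tendsto_one_div_add_atTop_nhds_zero_nat
      have h1 : Tendsto (fun k => c + Ik k t) atTop (𝓝 (c + I t)) := hIt.const_add c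
      have h2 := (hβ.continuous.tendsto _).comp h1
      have h3 : Tendsto (fun k => fderiv ℝ β (c + Ik k t)) atTop (𝓝 (fderiv ℝ β (c + I t))) :=
        (hfd.tendsto _).comp h1
      have h4 : Tendsto (fun k => fderiv ℝ β (c + Ik k t) (R t)) atTop
          (𝓝 (fderiv ℝ β (c + I t) (R t))) :=
        ((ContinuousLinearMap.apply ℝ E' (R t)).continuous.tendsto _).comp h3
      exact (h2.const_smul _).add (h4.const_smul _)
  have hlim2 : Tendsto (fun k => ∫ t, (deriv η t • β (c + Ik k t) +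
      η t • fderiv ℝ β (c + Ik k t) (R t))) atTop (𝓝 0) := by
    rw [tendsto_zero_iff_norm_tendsto_zero]
    refine squeeze_zero (fun k => norm_nonneg _) (g := fun k : ℕ => Cη * CD * (1 / ((k : ℝ) + 1)))
      (fun k => ?_) ?_
    · have h0 := chain_primitive_cont (hRkcont k) c hβ hη hc
      have hk : Continuous (fun t => c + Ik k t) := continuous_const.add (hIkcont k)
      have hi1 : Integrable (fun t => deriv η t • β (c + Ik k t) +
          η t • fderiv ℝ β (c + Ik k t) (R t)) := by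
        refine Integrable.mono' (g := fun t => ‖deriv η t‖ * Cβ + Cη * (CD * ‖R t‖))
          ((hetai.norm.mul_const _).add ((hR.norm.const_mul _).const_mul _)) (hmeasD k) ?_
        filter_upwards with t
        calc _ ≤ ‖deriv η t • β (c + Ik k t)‖ + ‖η t • fderiv ℝ β (c + Ik k t) (R t)‖ :=
              norm_add_le _ _
          _ ≤ ‖deriv η t‖ * Cβ + Cη * (CD * ‖R t‖) := by
            rw [norm_smul, norm_smul]
            have h1 := hCβ _ (hmemS k t)
            have h2 := hCD _ (hmemS k t)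
            have h3 := hCη t
            have h4 := (fderiv ℝ β (c + Ik k t)).le_opNorm (R t)
            gcongr
            exact h4.trans (by gcongr)
      have hi2 : Integrable (fun t => deriv η t • β (c + Ik k t) +
          η t • fderiv ℝ β (c + Ik k t) (Rk k t)) := by
        apply Continuous.integrable_of_hasCompactSupport
        · exact (hdc.smul (hβ.continuous.comp hk)).add
            (hη.continuous.smul ((hfd.comp hk).clm_apply (hRkcont k)))
        · exact (hc.deriv.smul_right).add hc.smul_right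
      have h5 : ∫ t, (deriv η t • β (c + Ik k t) + η t • fderiv ℝ β (c + Ik k t) (R t)) =
          ∫ t, (η t • fderiv ℝ β (c + Ik k t) (R t - Rk k t)) := by
        rw [← sub_zero (∫ t, (deriv η t • β (c + Ik k t) + η t • fderiv ℝ β (c + Ik k t) (R t))),
          ← h0, ← integral_sub hi1 hi2]
        congr 1
        ext t
        rw [map_sub, smul_sub]
        abel
      rw [h5]
      calc ‖∫ t, (η t • fderiv ℝ β (c + Ik k t) (R t - Rk k t))‖
          ≤ ∫ t, Cη * CD * ‖R t - Rk k t‖ := by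
            apply norm_integral_le_of_norm_le ((hR.sub (hRki k)).norm.const_mul _)
            filter_upwards with t
            rw [norm_smul]
            have h2 := hCD _ (hmemS k t)
            have h3 := hCη t
            have h4 := (fderiv ℝ β (c + Ik k t)).le_opNorm (R t - Rk k t)
            calc ‖η t‖ * ‖fderiv ℝ β (c + Ik k t) (R t - Rk k t)‖
                ≤ Cη * (CD * ‖R t - Rk k t‖) := by
                  gcongr
                  exact h4.trans (by gcongr)
              _ = Cη * CD * ‖R t - Rk k t‖ := by ring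
        _ = Cη * CD * ∫ t, ‖R t - Rk k t‖ := integral_const_mul _ _
        _ ≤ Cη * CD * (1 / ((k : ℝ) + 1)) := by
            gcongr
            exact hRkd k
    · simpa using tendsto_one_div_add_atTop_nhds_zero_nat.const_mul (Cη * CD)
  exact tendsto_nhds_unique hlim1 hlim2

/-- du Bois-Reymond -/
theorem dbr {W : ℝ → E} {a b : ℝ} (hab : a < b) (hW : IntegrableOn W (Ioo a b))
    (h : ∀ η, IsTime a b η → ∫ t, deriv η t • W t = 0) :
    ∃ c : E, ∀ᵐ t, t ∈ Ioo a b → W t = c := by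
  have _ : CompleteSpace E := FiniteDimensional.complete ℝ E
  -- integrability of products
  have hint : ∀ g : ℝ → ℝ, Continuous g → HasCompactSupport g → tsupport g ⊆ Ioo a b →
      Integrable (fun t => g t • W t) := by
    intro g hg hgc hgs
    obtain ⟨C, hC⟩ := hgc.exists_bound_of_continuous hg
    have h1 : (fun t => g t • W t) = (Ioo a b).indicator (fun t => g t • W t) := by
      ext t
      by_cases ht : t ∈ Ioo a b
      · rw [indicator_of_mem ht]
      · rw [indicator_of_notMem ht, image_eq_zero_of_notMem_tsupport (fun h => ht (hgs h)), zero_smul]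
    rw [h1, integrable_indicator_iff measurableSet_Ioo]
    exact hW.bdd_smul C hg.aestronglyMeasurable (Eventually.of_forall hC)
  -- a fixed bump
  let m : ℝ := (a + b) / 2
  let θb : ContDiffBump m := ⟨(b - a) / 8, (b - a) / 4, by linarith, by linarith⟩
  let θ : ℝ → ℝ := θb.normed volume
  have hθ1 : ∫ t, θ t = 1 := θb.integral_normed
  have hθs : ContDiff ℝ ∞ θ := θb.contDiff_normed
  have hθc : HasCompactSupport θ := θb.hasCompactSupport_normed
  have hθsupp : tsupport θ ⊆ Ioo a b := by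
    rw [θb.tsupport_normed_eq, Real.closedBall_eq_Icc]
    intro t ht
    have : θb.rOut = (b - a) / 4 := rfl
    rw [this] at ht
    simp only [m] at ht
    constructor <;> [linarith [ht.1]; linarith [ht.2]]
  refine ⟨∫ t, θ t • W t, ?_⟩
  set c : E := ∫ t, θ t • W t with hcdef
  have key := isOpen_Ioo.ae_eq_zero_of_integral_contDiff_smul_eq_zero (U := Ioo a b)
    (f := fun t => W t - c) (μ := volume) ?_ ?_
  · filter_upwards [key] with t ht hmem
    exact sub_eq_zero.1 (ht hmem)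
  · exact (hW.sub (integrableOn_const (by simp))).locallyIntegrableOn
  · intro g hg hgc hgs
    let M : ℝ := ∫ t, g t
    let g₀ : ℝ → ℝ := fun t => g t - M * θ t
    have hg₀ : ContDiff ℝ ∞ g₀ := hg.sub (contDiff_const.mul hθs)
    have hg₀c : HasCompactSupport g₀ := hgc.sub hθc.mul_left
    have hgi : Integrable g := hg.continuous.integrable_of_hasCompactSupport hgc
    have hθi : Integrable θ := hθs.continuous.integrable_of_hasCompactSupport hθc
    have hg₀i : Integrable g₀ := hg₀.continuous.integrable_of_hasCompactSupport hg₀c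
    have hg₀0 : ∫ t, g₀ t = 0 := by
      simp only [g₀]
      rw [integral_sub hgi (hθi.const_mul M), integral_const_mul, hθ1, mul_one, sub_self]
    -- supports
    obtain ⟨a', b', ha', hb', hab', hsub⟩ : ∃ a' b', a < a' ∧ b' < b ∧ a' ≤ b' ∧
        ∀ t, g₀ t ≠ 0 → t ∈ Icc a' b' := by
      have hK : IsCompact (tsupport g ∪ tsupport θ) := hgc.isCompact.union hθc.isCompact
      have hne : (tsupport g ∪ tsupport θ).Nonempty := by
        by_contra hcon
        rw [not_nonempty_iff_eq_empty, union_empty_iff] at hcon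
        have : θ = 0 := tsupport_eq_empty_iff.1 hcon.2
        rw [this] at hθ1
        simp at hθ1
      have hKs : tsupport g ∪ tsupport θ ⊆ Ioo a b := union_subset hgs hθsupp
      refine ⟨sInf (tsupport g ∪ tsupport θ), sSup (tsupport g ∪ tsupport θ),
        (hKs (hK.sInf_mem hne)).1, (hKs (hK.sSup_mem hne)).2,
        csInf_le_csSup hne hK.bddBelow hK.bddAbove, ?_⟩
      intro t ht
      have htm : t ∈ tsupport g ∪ tsupport θ := by
        by_contra hcon
        rw [mem_union, not_or] at hcon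
        apply ht
        simp only [g₀]
        rw [image_eq_zero_of_notMem_tsupport hcon.1, image_eq_zero_of_notMem_tsupport hcon.2]
        simp
      exact ⟨csInf_le hK.bddBelow htm, le_csSup hK.bddAbove htm⟩
    -- the primitive
    let η : ℝ → ℝ := fun t => ∫ s in a..t, g₀ s
    have hηd : ∀ t, HasDerivAt η (g₀ t) t := fun t =>
      intervalIntegral.integral_hasDerivAt_right (hg₀.continuous.intervalIntegrable _ _)
      (hg₀.continuous.stronglyMeasurableAtFilter _ _) hg₀.continuous.continuousAt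
    have hderiv : deriv η = g₀ := funext fun t => (hηd t).deriv
    have hηs : ContDiff ℝ ∞ η := by
      rw [contDiff_infty_iff_deriv]
      exact ⟨fun t => (hηd t).differentiableAt, by rw [hderiv]; exact hg₀⟩
    have hη0 : ∀ t, t ∉ Icc a' b' → η t = 0 := by
      intro t ht
      rw [mem_Icc, not_and_or, not_le, not_le] at ht
      rcases ht with ht | ht
      · simp only [η]
        apply intervalIntegral.integral_zero_ae
        filter_upwards with s hs
        by_contra hcon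
        have h1 := hsub s hcon
        have h2 : s ≤ max a t := (mem_uIoc.1 hs).elim (fun h => le_max_of_le_right h.2)
          (fun h => le_max_of_le_left h.2)
        have h3 : max a t < a' := max_lt ha' ht
        linarith [h1.1]
      · have h1 : η t = ∫ s, g₀ s := by
          simp only [η]
          rcases le_total a t with hat | hat
          · rw [intervalIntegral.integral_of_le hat]
            rw [← integral_indicator measurableSet_Ioc]
            congr 1
            ext s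
            by_cases hs : s ∈ Ioc a t
            · rw [indicator_of_mem hs]
            · rw [indicator_of_notMem hs]
              by_contra hcon
              have h2 := hsub s (Ne.symm hcon)
              exact hs ⟨lt_of_lt_of_le ha' h2.1, h2.2.trans ht.le⟩
          · exfalso
            linarith
        rw [h1, hg₀0]
    have hηT : IsTime a b η := by
      refine ⟨hηs, ?_, ?_⟩
      · exact HasCompactSupport.intro isCompact_Icc hη0
      · have h1 : tsupport η ⊆ Icc a' b' := by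
          apply closure_minimal _ isClosed_Icc
          intro t ht
          by_contra hcon
          exact ht (hη0 t hcon)
        exact h1.trans (Icc_subset_Ioo ha' hb')
    have h0 := h η hηT
    rw [hderiv] at h0
    have hgW := hint g hg.continuous hgc hgs
    have hθW := hint θ hθs.continuous hθc hθsupp
    have h1 : ∫ t, g₀ t • W t = (∫ t, g t • W t) - M • c := by
      simp only [g₀, sub_smul, mul_smul]
      have hθW' : Integrable (fun t => M • θ t • W t) := hθW.smul M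
      rw [integral_sub hgW hθW', integral_smul]
    have h2 : ∫ t, g t • (W t - c) = (∫ t, g t • W t) - M • c := by
      simp only [smul_sub]
      rw [integral_sub hgW (hgi.smul_const c), integral_smul_const]
    rw [h2, ← h1, h0]

/-- chain rule for weak derivatives on an interval -/
theorem oneD {U R : ℝ → E} {a b : ℝ} (hab : a < b) (hU : IntegrableOn U (Ioo a b))
    (hR : Integrable R)
    (h : ∀ η, IsTime a b η → ∫ t, (deriv η t • U t + η t • R t) = 0)
    {β : E → E'} (hβ : ContDiff ℝ 1 β) {η : ℝ → ℝ} (hη : IsTime a b η) :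
    ∫ t, (deriv η t • β (U t) + η t • fderiv ℝ β (U t) (R t)) = 0 := by
  set I : ℝ → E := fun t => ∫ s in (0 : ℝ)..t, R s with hIdef
  have hIcont : Continuous I :=
    intervalIntegral.continuous_primitive (fun a b => hR.intervalIntegrable) 0
  have hzero : ∀ ζ : ℝ → ℝ, IsTime a b ζ → ∀ t, t ∉ Ioo a b → ζ t = 0 ∧ deriv ζ t = 0 := by
    intro ζ hζ t ht
    refine ⟨image_eq_zero_of_notMem_tsupport fun h => ht (hζ.supp h),
      image_eq_zero_of_notMem_tsupport fun h => ht (hζ.supp (tsupport_deriv_subset h))⟩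
  obtain ⟨c, hc⟩ : ∃ c : E, ∀ᵐ t, t ∈ Ioo a b → U t - I t = c := by
    have hIi : IntegrableOn I (Ioo a b) :=
      (hIcont.integrableOn_Icc (a := a) (b := b)).mono_set Ioo_subset_Icc_self
    apply dbr hab (hU.sub hIi)
    intro ζ hζ
    have hζ1 : ContDiff ℝ 1 ζ := hζ.smooth.of_le (by exact_mod_cast le_top)
    have hζd : Continuous (deriv ζ) := hζ1.continuous_deriv le_rfl
    have h1 := chain_primitive hR (0 : E) (β := (id : E → E)) contDiff_id hζ1 hζ.cpt
    simp only [zero_add, id] at h1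
    have h2 := h ζ hζ
    obtain ⟨C, hC⟩ := hζ.cpt.exists_bound_of_continuous hζ.smooth.continuous
    have hi2 : Integrable (fun t => ζ t • R t) :=
      hR.bdd_smul C hζ.smooth.continuous.aestronglyMeasurable (Eventually.of_forall hC)
    obtain ⟨C', hC'⟩ := hζ.cpt.deriv.exists_bound_of_continuous hζd
    have hi1 : Integrable (fun t => deriv ζ t • U t) := by
      have h1 : (fun t => deriv ζ t • U t) = (Ioo a b).indicator (fun t => deriv ζ t • U t) := by
        ext t
        by_cases ht : t ∈ Ioo a b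
        · rw [indicator_of_mem ht]
        · rw [indicator_of_notMem ht, (hzero ζ hζ t ht).2, zero_smul]
      rw [h1, integrable_indicator_iff measurableSet_Ioo]
      exact hU.bdd_smul C' hζd.aestronglyMeasurable (Eventually.of_forall hC')
    have hi3 : Integrable (fun t => deriv ζ t • I t) :=
      (hζd.smul hIcont).integrable_of_hasCompactSupport hζ.cpt.deriv.smul_right
    have h1' : ∫ t, (deriv ζ t • I t + ζ t • R t) = 0 := by
      simpa using h1
    rw [integral_add hi3 hi2] at h1'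
    rw [integral_add hi1 hi2] at h2
    have h3 : ∫ t, deriv ζ t • (U - I) t = (∫ t, deriv ζ t • U t) - ∫ t, deriv ζ t • I t := by
      rw [← integral_sub hi1 hi3]
      congr 1
      ext t
      rw [Pi.sub_apply, smul_sub]
    rw [h3, eq_neg_of_add_eq_zero_left h2, eq_neg_of_add_eq_zero_left h1', sub_self]
  have h4 := chain_primitive hR c hβ (hη.smooth.of_le (by exact_mod_cast le_top)) hη.cpt
  rw [← h4]
  apply integral_congr_ae
  filter_upwards [hc] with t ht
  by_cases hmem : t ∈ Ioo a b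
  · have h5 : U t = c + I t := by
      rw [← ht hmem]; abel
    rw [h5]
  · rw [(hzero η hη t hmem).1, (hzero η hη t hmem).2]
    simp

end OneD

end Pool.Agent.Helper47.Jef
end

section
/-! # Time compactness for scalar functions -/

open MeasureTheory Set Filter Topology
open scoped ENNReal NNReal ContDiff

namespace Pool.Agent.Helper41.Jef

open Pool.Agent.Helper42.Jef

theorem prim_isTime {T a b : ℝ} (ha : 0 < a) (hb : b < T) {p : ℝ → ℝ} (hp : ContDiff ℝ ∞ p)
    (h0 : ∀ t, t ∉ Icc a b → p t = 0) (hi : ∫ t, p t = 0) :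
    IsTime 0 T (fun t => ∫ s in (0:ℝ)..t, p s) ∧
      (∀ t, deriv (fun t => ∫ s in (0:ℝ)..t, p s) t = p t) ∧
      ∀ t, t ∉ Icc a b → ∫ s in (0:ℝ)..t, p s = 0 := by
  have hder : ∀ t, HasDerivAt (fun t => ∫ s in (0:ℝ)..t, p s) (p t) t := by
    intro t
    exact intervalIntegral.integral_hasDerivAt_right (hp.continuous.intervalIntegrable _ _)
      hp.continuous.aestronglyMeasurable.stronglyMeasurableAtFilter
      hp.continuous.continuousAt
  have hder' : deriv (fun t => ∫ s in (0:ℝ)..t, p s) = p := funext fun t => (hder t).deriv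
  have hv : ∀ t, t ∉ Icc a b → ∫ s in (0:ℝ)..t, p s = 0 := by
    intro t ht
    by_cases h1 : t < a
    · have : ∀ s ∈ uIcc 0 t, p s = 0 := by
        intro s hs
        refine h0 s fun hs' => ?_
        have h3 : s ≤ max 0 t := hs.2
        have h2 : max 0 t < a := max_lt ha h1
        linarith [hs'.1]
      have h2 : ∫ s in (0:ℝ)..t, p s = ∫ s in (0:ℝ)..t, (0:ℝ) :=
        intervalIntegral.integral_congr this
      rw [h2]; simp
    · push Not at h1
      have h2 : b < t := by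
        by_contra h3
        push Not at h3
        exact ht ⟨h1, h3⟩
      rw [intervalIntegral.integral_of_le (by linarith)]
      rw [setIntegral_eq_integral_of_forall_compl_eq_zero, hi]
      intro s hs
      refine h0 s fun hs' => hs ⟨by linarith [hs'.1], by linarith [hs'.2]⟩
  refine ⟨⟨?_, ?_, ?_⟩, fun t => (hder t).deriv, hv⟩
  · rw [contDiff_infty_iff_deriv, hder']
    exact ⟨fun t => (hder t).differentiableAt, hp⟩
  · exact HasCompactSupport.intro isCompact_Icc (fun t ht => hv t ht)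
  · have h1 : tsupport (fun t => ∫ s in (0:ℝ)..t, p s) ⊆ Icc a b := by
      refine closure_minimal ?_ isClosed_Icc
      intro t ht
      by_contra h2
      exact ht (hv t h2)
    intro t ht
    have := h1 ht
    exact ⟨by linarith [this.1], by linarith [this.2]⟩

theorem abs_setIntegral_le {A : Set ℝ} {T : ℝ} (hT : 0 ≤ T) (hA : volume A ≤ ENNReal.ofReal T)
    {h : ℝ → ℝ} (hh : MemLp h 2 volume) :
    |∫ t in A, h t| ≤ Real.sqrt T * (eLpNorm h 2 volume).toReal := by
  have h1 := enorm_integral_sq_le (μ := volume.restrict A) hh.1.restrict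
  have h2 : ‖∫ t in A, h t‖ₑ ^ 2 ≤ ENNReal.ofReal T * eLpNorm h 2 volume ^ 2 := by
    refine h1.trans ?_
    rw [Measure.restrict_apply_univ, eLpNorm_two_sq]
    exact mul_le_mul' hA (lintegral_mono' Measure.restrict_le_self le_rfl)
  have h3 : |∫ t in A, h t| ^ 2 ≤ T * (eLpNorm h 2 volume).toReal ^ 2 := by
    have h4 := ENNReal.toReal_mono
      (ENNReal.mul_ne_top ENNReal.ofReal_ne_top (ENNReal.pow_ne_top hh.2.ne)) h2
    rw [ENNReal.toReal_mul, ENNReal.toReal_pow, ENNReal.toReal_pow, toReal_enorm,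
      ENNReal.toReal_ofReal hT] at h4
    exact h4
  have h4 : |∫ t in A, h t| ^ 2 ≤ (Real.sqrt T * (eLpNorm h 2 volume).toReal) ^ 2 := by
    rw [mul_pow, Real.sq_sqrt hT]; exact h3
  exact (pow_le_pow_iff_left₀ (abs_nonneg _) (by positivity) (by norm_num)).1 h4

theorem abs_integral_mul_le {f g : ℝ → ℝ} (hf : MemLp f 2 volume) (hg : MemLp g 2 volume) :
    |∫ t, f t * g t| ≤ (eLpNorm f 2 volume).toReal * (eLpNorm g 2 volume).toReal := by
  have h1 : ‖∫ t, f t * g t‖ₑ ≤ ∫⁻ t, ‖f t‖ₑ * ‖g t‖ₑ := by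
    refine (enorm_integral_le_lintegral_enorm _).trans (le_of_eq ?_)
    simp only [enorm_mul]
  have h2 : ‖∫ t, f t * g t‖ₑ ^ 2 ≤ eLpNorm f 2 volume ^ 2 * eLpNorm g 2 volume ^ 2 := by
    rw [eLpNorm_two_sq, eLpNorm_two_sq]
    exact (pow_le_pow_left₀ zero_le h1 2).trans (lintegral_mul_sq_le hf.1.enorm hg.1.enorm)
  have h4 := ENNReal.toReal_mono
      (ENNReal.mul_ne_top (ENNReal.pow_ne_top hf.2.ne) (ENNReal.pow_ne_top hg.2.ne)) h2
  rw [ENNReal.toReal_mul, ENNReal.toReal_pow, ENNReal.toReal_pow, ENNReal.toReal_pow,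
    toReal_enorm, ← mul_pow] at h4
  exact (pow_le_pow_iff_left₀ (abs_nonneg _) (by positivity) (by norm_num)).1 h4

theorem exists_cutoffs {T a : ℝ} (ha : 0 < a) (haT : a < T / 2) :
    ∃ b κ : ℝ → ℝ, ContDiff ℝ ∞ b ∧ (∀ t, 0 ≤ b t ∧ b t ≤ 1) ∧
      (∀ t ∈ Ioo a (T - a), b t = 1) ∧ (∀ t, t ∉ Icc (a / 2) (T - a / 2) → b t = 0) ∧
      ContDiff ℝ ∞ κ ∧ (∫ t, κ t = 1) ∧ (∀ t, t ∉ Icc (a / 2) (T - a / 2) → κ t = 0) ∧
      HasCompactSupport κ := by
  set b : ContDiffBump (T / 2 : ℝ) := ⟨T / 2 - a, T / 2 - a / 2, by linarith, by linarith⟩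
    with hbdef
  have hb1 : ∀ t ∈ Ioo a (T - a), b t = 1 := by
    intro t ht
    refine b.one_of_mem_closedBall ?_
    rw [Metric.mem_closedBall, Real.dist_eq, abs_le]
    show -(T / 2 - a) ≤ _ ∧ _ ≤ T / 2 - a
    constructor <;> linarith [ht.1, ht.2]
  have hb0 : ∀ t, t ∉ Icc (a / 2) (T - a / 2) → b t = 0 := by
    intro t ht
    refine b.zero_of_le_dist ?_
    show T / 2 - a / 2 ≤ _
    rw [Real.dist_eq]
    by_contra h
    push Not at h
    rw [abs_lt] at h
    exact ht ⟨by linarith [h.1], by linarith [h.2]⟩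
  refine ⟨b, b.normed volume, b.contDiff, fun t => ⟨b.nonneg, b.le_one⟩, hb1, hb0,
    b.contDiff_normed, b.integral_normed, ?_, b.hasCompactSupport_normed⟩
  intro t ht
  rw [ContDiffBump.normed_def, hb0 t ht, zero_div]

set_option maxHeartbeats 1600000 in
theorem scalar_core {T a : ℝ} (ha : 0 < a) (haT : a < T / 2) {g : ℕ → ℝ → ℝ} {K : ℝ}
    (hg : ∀ m, MemLp (g m) 2 volume) (hgK : ∀ m, (eLpNorm (g m) 2 volume).toReal ≤ K)
    (hw : ∀ A : Set ℝ, MeasurableSet A → volume A < ⊤ →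
      Tendsto (fun m => ∫ t in A, g m t) atTop (𝓝 0))
    (hb : ∀ ε : ℝ, 0 < ε → ∃ (C : ℝ) (m0 : ℕ), ∀ m ≥ m0, ∀ η, IsTime 0 T η →
      |∫ t, deriv η t * g m t| ≤ C * Real.sqrt (∫ t, η t ^ 2) + ε * ∫ t, |deriv η t|) :
    Tendsto (fun m => ∫ t in Ioo a (T - a), g m t ^ 2) atTop (𝓝 0) := by
  have hT : 0 < T := by linarith
  have hK : 0 ≤ K := ENNReal.toReal_nonneg.trans (hgK 0)
  obtain ⟨b, κ, hbs, hb01, hb1, hb0, hκs, hκi, hκ0, hκc⟩ := exists_cutoffs ha haT
  have hκm : MemLp κ 2 volume := hκs.continuous.memLp_of_hasCompactSupport hκc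
  set Ia : Set ℝ := Ioo a (T - a) with hIa
  have hIam : MeasurableSet Ia := measurableSet_Ioo
  have hgi : ∀ m, MemLp (Ia.indicator (g m)) 2 volume := fun m => (hg m).indicator hIam
  have hex : ∀ m : ℕ, ∃ f : ℝ → ℝ, HasCompactSupport f ∧ ContDiff ℝ ∞ f ∧
      eLpNorm (Ia.indicator (g m) - f) 2 volume ≤ ENNReal.ofReal (1 / ((m : ℝ) + 1)) := fun m =>
    (hgi m).exist_eLpNorm_sub_le (by norm_num) (by norm_num) (by positivity)
  choose f hfc hfs hfe using hex
  have hbf : ∀ m, ContDiff ℝ ∞ (fun t => b t * f m t) := fun m => hbs.mul (hfs m)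
  have hbfc : ∀ m, HasCompactSupport (fun t => b t * f m t) := fun m =>
    (hfc m).mul_left
  have hbfi : ∀ m, Integrable (fun t => b t * f m t) := fun m =>
    (hbf m).continuous.integrable_of_hasCompactSupport (hbfc m)
  have hκI : Integrable κ := hκs.continuous.integrable_of_hasCompactSupport hκc
  set s : ℕ → ℝ := fun m => ∫ t, b t * f m t with hs
  set p : ℕ → ℝ → ℝ := fun m t => b t * f m t - s m * κ t with hp
  have hps : ∀ m, ContDiff ℝ ∞ (p m) := fun m => (hbf m).sub (contDiff_const.mul hκs)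
  have hp0 : ∀ m t, t ∉ Icc (a / 2) (T - a / 2) → p m t = 0 := by
    intro m t ht
    simp only [hp, hb0 t ht, hκ0 t ht]; ring
  have hpi : ∀ m, ∫ t, p m t = 0 := by
    intro m
    show ∫ t, (b t * f m t - s m * κ t) = 0
    rw [integral_sub (hbfi m) (hκI.const_mul _), integral_const_mul, hκi]
    simp [hs]
  -- the error terms
  set e : ℕ → ℝ → ℝ := fun m t => b t * f m t - Ia.indicator (g m) t with he
  have hem : ∀ m, MemLp (e m) 2 volume := fun m =>
    ((hbf m).continuous.memLp_of_hasCompactSupport (hbfc m)).sub (hgi m)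
  have hen : ∀ m : ℕ, (eLpNorm (e m) 2 volume).toReal ≤ 1 / ((m : ℝ) + 1) := by
    intro m
    refine ENNReal.toReal_le_of_le_ofReal (by positivity) (le_trans ?_ (hfe m))
    refine eLpNorm_mono fun t => ?_
    by_cases ht : t ∈ Ia
    · simp only [he, Pi.sub_apply, hb1 t ht, one_mul]
      rw [norm_sub_rev]
    · simp only [he, Pi.sub_apply, indicator_of_notMem ht, sub_zero, zero_sub, norm_neg, norm_mul]
      have h1 : ‖b t‖ ≤ 1 := by
        rw [Real.norm_of_nonneg (hb01 t).1]; exact (hb01 t).2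
      calc ‖b t‖ * ‖f m t‖ ≤ 1 * ‖f m t‖ := mul_le_mul_of_nonneg_right h1 (norm_nonneg _)
        _ = _ := one_mul _
  have hloc : ∀ m (A : Set ℝ), MeasurableSet A → A ⊆ Icc 0 T → |∫ t in A, e m t| ≤
      Real.sqrt T * (1 / ((m : ℝ) + 1)) := by
    intro m A hA hAT
    have hv : volume A ≤ ENNReal.ofReal T := by
      refine (measure_mono hAT).trans ?_
      rw [Real.volume_Icc, sub_zero]
    exact (abs_setIntegral_le hT.le hv (hem m)).trans
      (mul_le_mul_of_nonneg_left (hen m) (Real.sqrt_nonneg _))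
  have h1m : Tendsto (fun m : ℕ => 1 / ((m : ℝ) + 1)) atTop (𝓝 0) :=
    tendsto_one_div_add_atTop_nhds_zero_nat
  have hs0 : Tendsto s atTop (𝓝 0) := by
    have h1 : ∀ m, s m = (∫ t in Icc 0 T, e m t) + ∫ t in Ia, g m t := by
      intro m
      have h2 : s m = ∫ t in Icc 0 T, b t * f m t := by
        rw [setIntegral_eq_integral_of_forall_compl_eq_zero]
        intro t ht
        rw [hb0 t fun h => ht ⟨by linarith [h.1], by linarith [h.2]⟩, zero_mul]
      have h3 : ∫ t in Ia, g m t = ∫ t in Icc 0 T, Ia.indicator (g m) t := by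
        have h4 : Icc 0 T ∩ Ia = Ia := by
          refine inter_eq_right.2 ?_
          intro t ht
          exact ⟨by linarith [ht.1], by linarith [ht.2]⟩
        rw [setIntegral_indicator hIam, h4]
      have : IsFiniteMeasure (volume.restrict (Icc 0 T)) := by
        constructor; simp
      rw [h2, h3, ← integral_add (((hem m).restrict _).integrable (by norm_num))
        (((hgi m).restrict _).integrable (by norm_num))]
      refine integral_congr_ae (Eventually.of_forall fun t => ?_)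
      simp only [he]; ring
    have h2 : Tendsto (fun m => ∫ t in Icc 0 T, e m t) atTop (𝓝 0) := by
      refine squeeze_zero_norm (fun m => hloc m _ measurableSet_Icc subset_rfl) ?_
      simpa using h1m.const_mul (Real.sqrt T)
    have h3 := h2.add (hw Ia hIam (by rw [hIa, Real.volume_Ioo]; exact ENNReal.ofReal_lt_top))
    rw [add_zero] at h3
    exact h3.congr fun m => (h1 m).symm
  set d : ℕ → ℝ → ℝ := fun m t => p m t - Ia.indicator (g m) t with hd
  have hde : ∀ m, d m = fun t => e m t - s m * κ t := by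
    intro m; funext t; simp only [hd, he, hp]; ring
  have hdm : ∀ m, MemLp (d m) 2 volume := by
    intro m; rw [hde]; exact (hem m).sub (hκm.const_mul _)
  have hdn : ∀ m, (eLpNorm (d m) 2 volume).toReal ≤
      1 / ((m : ℝ) + 1) + |s m| * (eLpNorm κ 2 volume).toReal := by
    intro m
    rw [hde]
    have h1 : eLpNorm (fun t => e m t - s m * κ t) 2 volume ≤
        eLpNorm (e m) 2 volume + ‖s m‖ₑ * eLpNorm κ 2 volume := by
      refine (eLpNorm_sub_le (hem m).1 (hκm.const_mul _).1 (by norm_num)).trans ?_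
      refine add_le_add le_rfl (le_of_eq ?_)
      exact eLpNorm_const_smul (s m) κ 2 volume
    have h2 := ENNReal.toReal_mono (ENNReal.add_ne_top.2
      ⟨(hem m).2.ne, ENNReal.mul_ne_top enorm_ne_top hκm.2.ne⟩) h1
    rw [ENNReal.toReal_add (hem m).2.ne (ENNReal.mul_ne_top enorm_ne_top hκm.2.ne),
      ENNReal.toReal_mul, toReal_enorm] at h2
    exact h2.trans (add_le_add (hen m) le_rfl)
  have hd0 : Tendsto (fun m => (eLpNorm (d m) 2 volume).toReal) atTop (𝓝 0) := by
    refine squeeze_zero (fun m => ENNReal.toReal_nonneg) hdn ?_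
    have h1 : Tendsto (fun m => |s m|) atTop (𝓝 0) := by
      simpa using hs0.abs
    simpa using h1m.add (h1.mul_const _)
  have hd1 : ∀ᶠ m in atTop, (eLpNorm (d m) 2 volume).toReal ≤ 1 := by
    filter_upwards [(tendsto_order.1 hd0).2 1 (by norm_num)] with m hm using hm.le
  have hpm : ∀ m, MemLp (p m) 2 volume := by
    intro m
    have : p m = fun t => d m t + Ia.indicator (g m) t := by
      funext t; simp only [hd]; ring
    rw [this]; exact (hdm m).add (hgi m)
  have hpn : ∀ m, (eLpNorm (p m) 2 volume).toReal ≤ (eLpNorm (d m) 2 volume).toReal + K := by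
    intro m
    have h0 : p m = fun t => d m t + Ia.indicator (g m) t := by
      funext t; simp only [hd]; ring
    have h1 : eLpNorm (p m) 2 volume ≤ eLpNorm (d m) 2 volume + eLpNorm (g m) 2 volume := by
      rw [h0]
      refine (eLpNorm_add_le (hdm m).1 (hgi m).1 (by norm_num)).trans ?_
      exact add_le_add le_rfl (eLpNorm_indicator_le _)
    have h2 := ENNReal.toReal_mono (ENNReal.add_ne_top.2 ⟨(hdm m).2.ne, (hg m).2.ne⟩) h1
    rw [ENNReal.toReal_add (hdm m).2.ne (hg m).2.ne] at h2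
    exact h2.trans (add_le_add le_rfl (hgK m))
  -- the primitives
  set η : ℕ → ℝ → ℝ := fun m t => ∫ s in (0:ℝ)..t, p m s with hη
  have hprim := fun m => prim_isTime (T := T) (a := a / 2) (b := T - a / 2) (by linarith)
    (by linarith) (hps m) (hp0 m) (hpi m)
  have hηd : ∀ m, deriv (η m) = p m := fun m => funext (hprim m).2.1
  have hη0 : ∀ m t, t ∉ Ioo 0 T → η m t = 0 := fun m t ht =>
    (hprim m).2.2 t fun h => ht ⟨by linarith [h.1], by linarith [h.2]⟩
  have hηb : ∀ m t, t ∈ Ioo 0 T → |η m t| ≤ Real.sqrt T * ((eLpNorm (d m) 2 volume).toReal + K) := by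
    intro m t ht
    show |∫ s in (0:ℝ)..t, p m s| ≤ _
    rw [intervalIntegral.integral_of_le ht.1.le]
    refine (abs_setIntegral_le hT.le ?_ (hpm m)).trans
      (mul_le_mul_of_nonneg_left (hpn m) (Real.sqrt_nonneg _))
    rw [Real.volume_Ioc]
    exact ENNReal.ofReal_le_ofReal (by linarith [ht.2])
  have hηt : ∀ t, Tendsto (fun m => η m t) atTop (𝓝 0) := by
    intro t
    by_cases ht : t ∈ Ioo 0 T
    · have h1 : ∀ m, η m t = (∫ t in Ioc 0 t, d m t) + ∫ t in Ioc 0 t ∩ Ia, g m t := by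
        intro m
        show ∫ s in (0:ℝ)..t, p m s = _
        have : IsFiniteMeasure (volume.restrict (Ioc 0 t)) := by
          constructor; simp
        rw [intervalIntegral.integral_of_le ht.1.le, ← setIntegral_indicator hIam,
          ← integral_add (((hdm m).restrict _).integrable (by norm_num))
          (((hgi m).restrict _).integrable (by norm_num))]
        refine integral_congr_ae (Eventually.of_forall fun t => ?_)
        simp only [hd]; ring
      have h2 : Tendsto (fun m => ∫ t in Ioc 0 t, d m t) atTop (𝓝 0) := by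
        refine squeeze_zero_norm (fun m => abs_setIntegral_le hT.le ?_ (hdm m)) ?_
        · rw [Real.volume_Ioc]
          exact ENNReal.ofReal_le_ofReal (by linarith [ht.2])
        · simpa using hd0.const_mul (Real.sqrt T)
      have h3 := h2.add (hw (Ioc 0 t ∩ Ia) (measurableSet_Ioc.inter hIam)
        ((measure_mono inter_subset_left).trans_lt (by simp)))
      rw [add_zero] at h3
      exact h3.congr fun m => (h1 m).symm
    · simp only [hη0 _ t ht]; exact tendsto_const_nhds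
  have hη2 : Tendsto (fun m => ∫ t, η m t ^ 2) atTop (𝓝 0) := by
    have h1 : Tendsto (fun m => ∫ t, η m t ^ 2) atTop (𝓝 (∫ _ : ℝ, (0:ℝ))) := by
      refine tendsto_integral_filter_of_dominated_convergence
        ((Ioo 0 T).indicator fun _ => (Real.sqrt T * (1 + K)) ^ 2) ?_ ?_ ?_ ?_
      · refine Eventually.of_forall fun m => ?_
        exact ((hprim m).1.smooth.continuous.pow 2).aestronglyMeasurable
      · filter_upwards [hd1] with m hm
        refine Eventually.of_forall fun t => ?_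
        by_cases ht : t ∈ Ioo 0 T
        · rw [indicator_of_mem ht, norm_pow, Real.norm_eq_abs]
          refine pow_le_pow_left₀ (abs_nonneg _) ((hηb m t ht).trans ?_) 2
          exact mul_le_mul_of_nonneg_left (by linarith) (Real.sqrt_nonneg _)
        · rw [indicator_of_notMem ht, hη0 m t ht]; simp
      · rw [integrable_indicator_iff measurableSet_Ioo]
        exact integrableOn_const (by simp)
      · refine Eventually.of_forall fun t => ?_
        simpa using (hηt t).pow 2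
    simpa using h1
  have hηs : Tendsto (fun m => Real.sqrt (∫ t, η m t ^ 2)) atTop (𝓝 0) := by
    have := (Real.continuous_sqrt.tendsto 0).comp hη2
    rw [Real.sqrt_zero] at this
    exact this
  -- the integral of `|p|`
  have hpa : ∀ m, ∫ t, |p m t| ≤ Real.sqrt T * ((eLpNorm (d m) 2 volume).toReal + K) := by
    intro m
    have h1 : ∫ t, |p m t| = ∫ t in Icc 0 T, |p m t| := by
      rw [setIntegral_eq_integral_of_forall_compl_eq_zero]
      intro t ht
      rw [hp0 m t fun h => ht ⟨by linarith [h.1], by linarith [h.2]⟩, abs_zero]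
    have h2 : MemLp (fun t => |p m t|) 2 volume := (hpm m).norm
    rw [h1]
    have h4 : volume (Icc 0 T) ≤ ENNReal.ofReal T := by
      rw [Real.volume_Icc, sub_zero]
    refine (le_abs_self _).trans ((abs_setIntegral_le hT.le h4 h2).trans ?_)
    have h3 : eLpNorm (fun t => |p m t|) 2 volume = eLpNorm (p m) 2 volume :=
      eLpNorm_congr_norm_ae (Eventually.of_forall fun t => by simp)
    rw [h3]
    exact mul_le_mul_of_nonneg_left (hpn m) (Real.sqrt_nonneg _)
  -- the energy identity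
  have hen2 : ∀ m, ∫ t in Ia, g m t ^ 2 = (∫ t, p m t * g m t) - ∫ t, d m t * g m t := by
    intro m
    have i1 : Integrable (fun t => p m t * g m t) := (hpm m).integrable_mul (hg m)
    have i2 : Integrable (fun t => d m t * g m t) := (hdm m).integrable_mul (hg m)
    rw [← integral_sub i1 i2, ← integral_indicator hIam]
    refine integral_congr_ae (Eventually.of_forall fun t => ?_)
    by_cases ht : t ∈ Ia
    · simp only [hd, indicator_of_mem ht]; ring
    · simp only [hd, indicator_of_notMem ht]; ring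
  refine tendsto_order.2 ⟨fun c hc => Eventually.of_forall fun m => hc.trans_le
    (integral_nonneg fun t => sq_nonneg _), fun ε' hε' => ?_⟩
  have hB : 0 < Real.sqrt T * (1 + K) + 1 := by positivity
  obtain ⟨C, m0, hC⟩ := hb (ε' / (3 * (Real.sqrt T * (1 + K) + 1))) (by positivity)
  have t1 : ∀ᶠ m in atTop, C * Real.sqrt (∫ t, η m t ^ 2) < ε' / 3 := by
    have := hηs.const_mul C
    rw [mul_zero] at this
    exact (tendsto_order.1 this).2 _ (by positivity)
  have t2 : ∀ᶠ m in atTop, (eLpNorm (d m) 2 volume).toReal * K < ε' / 3 := by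
    have := hd0.mul_const K
    rw [zero_mul] at this
    exact (tendsto_order.1 this).2 _ (by positivity)
  filter_upwards [t1, t2, hd1, eventually_ge_atTop m0] with m h1 h2 h3 h4
  have h5 := hC m h4 (η m) (hprim m).1
  rw [hηd] at h5
  have h6 : ε' / (3 * (Real.sqrt T * (1 + K) + 1)) * ∫ t, |p m t| ≤ ε' / 3 := by
    have h7 : ∫ t, |p m t| ≤ Real.sqrt T * (1 + K) + 1 := by
      refine (hpa m).trans ?_
      have := mul_le_mul_of_nonneg_left (add_le_add h3 (le_refl K)) (Real.sqrt_nonneg T)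
      linarith
    calc ε' / (3 * (Real.sqrt T * (1 + K) + 1)) * ∫ t, |p m t|
        ≤ ε' / (3 * (Real.sqrt T * (1 + K) + 1)) * (Real.sqrt T * (1 + K) + 1) :=
          mul_le_mul_of_nonneg_left h7 (by positivity)
      _ = ε' / 3 := by field_simp
  have h8 := abs_integral_mul_le (hdm m) (hg m)
  have h9 : (eLpNorm (d m) 2 volume).toReal * (eLpNorm (g m) 2 volume).toReal ≤
      (eLpNorm (d m) 2 volume).toReal * K :=
    mul_le_mul_of_nonneg_left (hgK m) ENNReal.toReal_nonneg
  rw [hen2]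
  have h10 := le_abs_self (∫ t, p m t * g m t)
  have h11 := neg_abs_le (∫ t, d m t * g m t)
  linarith

/-- scalar time compactness -/
theorem scalar_compact {T : ℝ} {g : ℕ → ℝ → ℝ} {K : ℝ}
    (hg : ∀ m, MemLp (g m) 2 volume) (hgK : ∀ m, (eLpNorm (g m) 2 volume).toReal ≤ K)
    (hw : ∀ A : Set ℝ, MeasurableSet A → volume A < ⊤ →
      Tendsto (fun m => ∫ t in A, g m t) atTop (𝓝 0))
    (hb : ∀ ε : ℝ, 0 < ε → ∃ (C : ℝ) (m0 : ℕ), ∀ m ≥ m0, ∀ η, IsTime 0 T η →
      |∫ t, deriv η t * g m t| ≤ C * Real.sqrt (∫ t, η t ^ 2) + ε * ∫ t, |deriv η t|)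
    (hc : ∀ ε : ℝ≥0∞, 0 < ε → ∃ a : ℝ, 0 < a ∧ a < T / 2 ∧
      ∀ m, ∫⁻ t in (Ioo a (T - a))ᶜ, ‖g m t‖ₑ ^ 2 ≤ ε) :
    Tendsto (fun m => ∫⁻ t, ‖g m t‖ₑ ^ 2) atTop (𝓝 0) := by
  rw [ENNReal.tendsto_nhds_zero]
  intro ε hε
  obtain ⟨a, ha, haT, hac⟩ := hc (ε / 2) (ENNReal.half_pos hε.ne')
  have h1 := scalar_core ha haT hg hgK hw hb
  have h2 : ∀ m, ∫⁻ t in Ioo a (T - a), ‖g m t‖ₑ ^ 2 =
      ENNReal.ofReal (∫ t in Ioo a (T - a), g m t ^ 2) := by
    intro m
    have h3 : Integrable (fun t => g m t ^ 2) (volume.restrict (Ioo a (T - a))) :=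
      ((hg m).restrict _).integrable_sq
    rw [ofReal_integral_eq_lintegral_ofReal h3 (Eventually.of_forall fun t => sq_nonneg _)]
    refine lintegral_congr fun t => ?_
    rw [← sq_abs, ENNReal.ofReal_pow (abs_nonneg _), ← Real.norm_eq_abs, ofReal_norm]
  have h3 : Tendsto (fun m => ∫⁻ t in Ioo a (T - a), ‖g m t‖ₑ ^ 2) atTop (𝓝 0) := by
    simp only [h2]
    have := ENNReal.tendsto_ofReal h1
    rwa [ENNReal.ofReal_zero] at this
  filter_upwards [ENNReal.tendsto_nhds_zero.1 h3 (ε / 2) (ENNReal.half_pos hε.ne')] with m hm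
  rw [← lintegral_add_compl _ (measurableSet_Ioo (a := a) (b := T - a)), ← ENNReal.add_halves ε]
  exact add_le_add hm (hac m)

end Pool.Agent.Helper41.Jef
end

section
/-! # Pairings in the space variable, elementary facts on `IsVel` -/

open MeasureTheory Set Filter Topology
open scoped ENNReal NNReal ContDiff

namespace Pool.Agent.Helper41.Jef

open Pool.Agent.Helper42.Jef

variable {n : ℕ}

/-- pairing in the space variable -/
noncomputable def pr (u : ST n → Eu n) (z : Eu n → Eu n) (t : ℝ) : ℝ :=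
  ∫ x, inner ℝ (u (t, x)) (z x)

theorem lintegral_slab {E : Type*} [NormedAddCommGroup E] {u : ST n → E}
    (hu : StronglyMeasurable u) (I : Set ℝ) :
    ∫⁻ z in I ×ˢ (univ : Set (Eu n)), ‖u z‖ₑ ^ 2 = ∫⁻ t in I, ∫⁻ x, ‖u (t, x)‖ₑ ^ 2 := by
  rw [Measure.volume_eq_prod, ← Measure.prod_restrict, Measure.restrict_univ,
    lintegral_prod _ (hu.enorm.pow_const 2).aemeasurable]

theorem lintegral_st {E : Type*} [NormedAddCommGroup E] {u : ST n → E}
    (hu : StronglyMeasurable u) :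
    ∫⁻ z, ‖u z‖ₑ ^ 2 = ∫⁻ t, ∫⁻ x, ‖u (t, x)‖ₑ ^ 2 := by
  rw [Measure.volume_eq_prod, lintegral_prod _ (hu.enorm.pow_const 2).aemeasurable]

theorem inner_sq_le {α : Type*} [MeasurableSpace α] {μ : Measure α} {f g : α → Eu n}
    (hf : AEStronglyMeasurable f μ) (hg : AEStronglyMeasurable g μ) :
    ‖∫ x, inner ℝ (f x) (g x) ∂μ‖ₑ ^ 2 ≤ (∫⁻ x, ‖f x‖ₑ ^ 2 ∂μ) * ∫⁻ x, ‖g x‖ₑ ^ 2 ∂μ := by
  have h1 : ‖∫ x, inner ℝ (f x) (g x) ∂μ‖ₑ ≤ ∫⁻ x, ‖f x‖ₑ * ‖g x‖ₑ ∂μ := by
    refine (enorm_integral_le_lintegral_enorm _).trans (lintegral_mono fun x => ?_)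
    rw [← ofReal_norm, ← ofReal_norm, ← ofReal_norm, ← ENNReal.ofReal_mul (norm_nonneg _)]
    exact ENNReal.ofReal_le_ofReal (norm_inner_le_norm _ _)
  exact (pow_le_pow_left₀ zero_le h1 2).trans (lintegral_mul_sq_le hf.enorm hg.enorm)

theorem sm_section {u : ST n → Eu n} (hu : StronglyMeasurable u) (t : ℝ) :
    StronglyMeasurable fun x => u (t, x) := hu.comp_measurable measurable_prodMk_left

theorem pr_sq_le {u : ST n → Eu n} (hu : StronglyMeasurable u) {z : Eu n → Eu n}
    (hz : AEStronglyMeasurable z volume) (t : ℝ) :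
    ‖pr u z t‖ₑ ^ 2 ≤ (∫⁻ x, ‖u (t, x)‖ₑ ^ 2) * ∫⁻ x, ‖z x‖ₑ ^ 2 :=
  inner_sq_le (sm_section hu t).aestronglyMeasurable hz

theorem pr_aesm {u : ST n → Eu n} (hu : StronglyMeasurable u) {z : Eu n → Eu n}
    (hz : AEStronglyMeasurable z volume) : AEStronglyMeasurable (pr u z) volume := by
  have h1 : AEStronglyMeasurable (fun p : ℝ × Eu n => inner ℝ (u p) (z p.2))
      ((volume : Measure ℝ).prod (volume : Measure (Eu n))) :=
    hu.aestronglyMeasurable.inner hz.comp_snd
  exact h1.integral_prod_right'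

theorem pr_slab_le {u : ST n → Eu n} (hu : StronglyMeasurable u) {z : Eu n → Eu n}
    (hz : AEStronglyMeasurable z volume) (I : Set ℝ) :
    ∫⁻ t in I, ‖pr u z t‖ₑ ^ 2 ≤
      (∫⁻ z in I ×ˢ (univ : Set (Eu n)), ‖u z‖ₑ ^ 2) * ∫⁻ x, ‖z x‖ₑ ^ 2 := by
  rw [lintegral_slab hu, ← lintegral_mul_const]
  · exact lintegral_mono fun t => pr_sq_le hu hz t
  · exact (hu.enorm.pow_const 2).lintegral_prod_right'

theorem pr_le {u : ST n → Eu n} (hu : StronglyMeasurable u) {z : Eu n → Eu n}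
    (hz : AEStronglyMeasurable z volume) :
    eLpNorm (pr u z) 2 volume ≤ eLpNorm u 2 volume * eLpNorm z 2 volume := by
  refine eLpNorm_le_of_sq ?_
  have := pr_slab_le hu hz univ
  rw [univ_prod_univ, Measure.restrict_univ, Measure.restrict_univ] at this
  rw [mul_pow, eLpNorm_two_sq, eLpNorm_two_sq]
  exact this

theorem pr_memLp {u : ST n → Eu n} (hu : StronglyMeasurable u) (hu2 : MemLp u 2 volume)
    {z : Eu n → Eu n} (hz : MemLp z 2 volume) : MemLp (pr u z) 2 volume :=
  ⟨pr_aesm hu hz.1, (pr_le hu hz.1).trans_lt (ENNReal.mul_lt_top hu2.2 hz.2)⟩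

/-- almost all sections are square integrable -/
theorem ae_section {u : ST n → Eu n} (hu : StronglyMeasurable u) (hu2 : MemLp u 2 volume) :
    ∀ᵐ t : ℝ, MemLp (fun x => u (t, x)) 2 volume := by
  have h1 : ∫⁻ t, ∫⁻ x, ‖u (t, x)‖ₑ ^ 2 ≠ ⊤ := by
    rw [← lintegral_st hu, ← eLpNorm_two_sq]
    exact ENNReal.pow_ne_top hu2.2.ne
  have h2 : Measurable fun t => ∫⁻ x, ‖u (t, x)‖ₑ ^ 2 :=
    (hu.enorm.pow_const 2).lintegral_prod_right'
  filter_upwards [ae_lt_top h2 h1] with t ht
  refine ⟨(sm_section hu t).aestronglyMeasurable, ?_⟩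
  rw [← eLpNorm_two_sq] at ht
  by_contra h
  rw [not_lt, top_le_iff] at h
  rw [h] at ht
  simp at ht

theorem inner_integrable {α : Type*} [MeasurableSpace α] {μ : Measure α} {f g : α → Eu n}
    (hf : MemLp f 2 μ) (hg : MemLp g 2 μ) : Integrable (fun x => inner ℝ (f x) (g x)) μ := by
  have := L2.integrable_inner (𝕜 := ℝ) (hf.toLp f) (hg.toLp g)
  refine this.congr ?_
  filter_upwards [hf.coeFn_toLp, hg.coeFn_toLp] with x h1 h2
  rw [h1, h2]

theorem pr_sub_left {u v : ST n → Eu n} {z : Eu n → Eu n} (hz : MemLp z 2 volume) {t : ℝ}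
    (hu : MemLp (fun x => u (t, x)) 2 volume) (hv : MemLp (fun x => v (t, x)) 2 volume) :
    pr (fun p => u p - v p) z t = pr u z t - pr v z t := by
  show ∫ x, inner ℝ (u (t, x) - v (t, x)) (z x) = _
  simp only [inner_sub_left]
  exact integral_sub (inner_integrable hu hz) (inner_integrable hv hz)

theorem pr_add_right {u : ST n → Eu n} {z z' : Eu n → Eu n} (hz : MemLp z 2 volume)
    (hz' : MemLp z' 2 volume) {t : ℝ} (hu : MemLp (fun x => u (t, x)) 2 volume) :
    pr u (fun x => z x + z' x) t = pr u z t + pr u z' t := by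
  show ∫ x, inner ℝ (u (t, x)) (z x + z' x) = _
  simp only [inner_add_right]
  exact integral_add (inner_integrable hu hz) (inner_integrable hu hz')

theorem pr_smul_right (u : ST n → Eu n) (z : Eu n → Eu n) (c : ℝ) (t : ℝ) :
    pr u (fun x => c • z x) t = c * pr u z t := by
  show ∫ x, inner ℝ (u (t, x)) (c • z x) = _
  simp only [inner_smul_right]
  exact integral_const_mul _ _

theorem pr_congr_right (u : ST n → Eu n) {z z' : Eu n → Eu n} (h : z =ᵐ[volume] z') (t : ℝ) :
    pr u z t = pr u z' t := by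
  refine integral_congr_ae ?_
  filter_upwards [h] with x hx
  rw [hx]

theorem memLp_tensor {ψ : ℝ → ℝ} {φ : Eu n → Eu n} (hψ : MemLp ψ 2 volume)
    (hφ : MemLp φ 2 volume) : MemLp (fun z : ST n => ψ z.1 • φ z.2) 2 volume := by
  refine ⟨?_, ?_⟩
  · have h1 : AEStronglyMeasurable (fun z : ℝ × Eu n => ψ z.1 • φ z.2)
      ((volume : Measure ℝ).prod (volume : Measure (Eu n))) :=
      hψ.1.comp_fst.smul hφ.1.comp_snd
    exact h1
  · have h1 : eLpNorm (fun z : ST n => ψ z.1 • φ z.2) 2 volume ^ 2 =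
        eLpNorm ψ 2 volume ^ 2 * eLpNorm φ 2 volume ^ 2 := by
      rw [eLpNorm_two_sq, eLpNorm_two_sq, eLpNorm_two_sq]
      have h2 : ∀ z : ST n, ‖ψ z.1 • φ z.2‖ₑ ^ 2 = ‖ψ z.1‖ₑ ^ 2 * ‖φ z.2‖ₑ ^ 2 := by
        intro z; rw [enorm_smul, mul_pow]
      simp only [h2]
      rw [Measure.volume_eq_prod]
      exact lintegral_prod_mul (hψ.1.enorm.pow_const 2) (hφ.1.enorm.pow_const 2)
    have h2 : eLpNorm (fun z : ST n => ψ z.1 • φ z.2) 2 volume ^ 2 < ⊤ := by
      rw [h1]
      exact ENNReal.mul_lt_top (ENNReal.pow_lt_top hψ.2) (ENNReal.pow_lt_top hφ.2)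
    by_contra h
    rw [not_lt, top_le_iff] at h
    rw [h] at h2
    simp at h2

/-- Fubini for the pairing -/
theorem pr_fubini {u : ST n → Eu n} (hu2 : MemLp u 2 volume) {ψ : ℝ → ℝ} {φ : Eu n → Eu n}
    (hψ : MemLp ψ 2 volume) (hφ : MemLp φ 2 volume) :
    ∫ z : ST n, ψ z.1 * inner ℝ (u z) (φ z.2) = ∫ t, ψ t * pr u φ t := by
  have h1 : Integrable (fun z : ST n => inner ℝ (u z) (ψ z.1 • φ z.2)) volume :=
    inner_integrable hu2 (memLp_tensor hψ hφ)
  have h2 : (fun z : ST n => inner ℝ (u z) (ψ z.1 • φ z.2)) =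
      fun z : ST n => ψ z.1 * inner ℝ (u z) (φ z.2) := by
    funext z; rw [inner_smul_right]
  rw [h2, Measure.volume_eq_prod] at h1
  rw [Measure.volume_eq_prod, integral_prod _ h1]
  refine integral_congr_ae (Eventually.of_forall fun t => ?_)
  show ∫ x, ψ t * inner ℝ (u (t, x)) (φ x) = _
  rw [integral_const_mul]
  rfl

end Pool.Agent.Helper41.Jef
end

section
/-! # Elementary fields and their closure -/

open MeasureTheory Set Filter Topology
open scoped ENNReal NNReal ContDiff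

namespace Pool.Agent.Helper41.Jef

open Pool.Agent.Helper42.Jef

variable {n : ℕ}

theorem vt_zero_of_notMem {Ω : Set (Eu n)} {φ : Eu n → Eu n} (h : IsVT Ω φ) {x : Eu n}
    (hx : x ∉ Ω) : φ x = 0 := by
  by_contra h0
  exact hx (h.supp (subset_tsupport _ h0))

theorem fderiv_lincomb {N : ℕ} {φ : Fin N → Eu n → Eu n} (h : ∀ j, ContDiff ℝ ∞ (φ j))
    (c : Fin N → ℝ) (x : Eu n) :
    fderiv ℝ (fun x => ∑ j, c j • φ j x) x = ∑ j, c j • fderiv ℝ (φ j) x := by
  have h1 : ∀ j, HasFDerivAt (fun x => c j • φ j x) (c j • fderiv ℝ (φ j) x) x := fun j =>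
    (((h j).differentiable (by simp)) x).hasFDerivAt.const_smul (c j)
  exact (HasFDerivAt.fun_sum fun j _ => h1 j).fderiv

theorem grad_lincomb {N : ℕ} {φ : Fin N → Eu n → Eu n} (h : ∀ j, ContDiff ℝ ∞ (φ j))
    (c : Fin N → ℝ) (x : Eu n) :
    grad (fun x => ∑ j, c j • φ j x) x = ∑ j, c j • grad (φ j) x := by
  unfold grad
  rw [fderiv_lincomb h]
  ext p
  simp

theorem vt_lincomb {Ω : Set (Eu n)} {N : ℕ} {φ : Fin N → Eu n → Eu n} (h : ∀ j, IsVT Ω (φ j))
    (c : Fin N → ℝ) : IsVT Ω (fun x => ∑ j, c j • φ j x) := by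
  have hK : IsCompact (⋃ j, tsupport (φ j)) := isCompact_iUnion fun j => (h j).cpt
  have h0 : ∀ x, x ∉ ⋃ j, tsupport (φ j) → ∑ j, c j • φ j x = 0 := by
    intro x hx
    refine Finset.sum_eq_zero fun j _ => ?_
    rw [image_eq_zero_of_notMem_tsupport fun h' => hx (mem_iUnion.2 ⟨j, h'⟩), smul_zero]
  refine ⟨ContDiff.sum fun j _ => (h j).smooth.const_smul (c j),
    HasCompactSupport.intro hK h0, ?_, ?_⟩
  · refine (closure_minimal ?_ hK.isClosed).trans (iUnion_subset fun j => (h j).supp)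
    intro x hx
    by_contra h'
    exact hx (h0 x h')
  · intro x
    unfold dvg
    rw [fderiv_lincomb fun j => (h j).smooth]
    have h1 : ∀ i : Fin n, ((∑ j, c j • fderiv ℝ (φ j) x) (bv i)) i =
        ∑ j, c j * (fderiv ℝ (φ j) x (bv i)) i := by
      intro i; simp
    simp only [h1]
    rw [Finset.sum_comm]
    refine Finset.sum_eq_zero fun j _ => ?_
    rw [← Finset.mul_sum]
    have := (h j).div0 x
    unfold dvg at this
    rw [this, mul_zero]

theorem grad_continuous {φ : Eu n → Eu n} (h : ContDiff ℝ ∞ φ) : Continuous (grad φ) := by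
  unfold grad
  refine (PiLp.continuous_toLp 2 _).comp (continuous_pi fun p => ?_)
  have h1 : Continuous fun x => fderiv ℝ φ x (bv p.2) :=
    (h.continuous_fderiv (by simp)).clm_apply continuous_const
  exact (EuclideanSpace.proj (𝕜 := ℝ) p.1).continuous.comp h1

theorem grad_memLp {φ : Eu n → Eu n} (h : ContDiff ℝ ∞ φ) (hc : HasCompactSupport φ) :
    MemLp (grad φ) 2 volume := by
  refine (grad_continuous h).memLp_of_hasCompactSupport ?_
  refine HasCompactSupport.intro hc.isCompact fun x hx => ?_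
  have h1 : fderiv ℝ φ x = 0 := by
    refine image_eq_zero_of_notMem_tsupport fun h' => hx ?_
    exact tsupport_fderiv_subset ℝ h'
  unfold grad
  rw [h1]
  ext p
  simp

theorem vt_memLp {Ω : Set (Eu n)} {φ : Eu n → Eu n} (h : IsVT Ω φ) : MemLp φ 2 volume :=
  h.smooth.continuous.memLp_of_hasCompactSupport h.cpt

theorem elem_section {Ω : Set (Eu n)} {T : ℝ} {v : ST n → Eu n} {G : ST n → Mt n}
    (h : IsElem Ω T v G) (t : ℝ) :
    IsVT Ω (fun x => v (t, x)) ∧ ∀ x, grad (fun y => v (t, y)) x = G (t, x) := by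
  obtain ⟨N, c, φ, -, -, -, hφ, hv, hG⟩ := h
  have h1 : (fun x => v (t, x)) = fun x => ∑ j, c j t • φ j x := by
    funext x; exact hv (t, x)
  rw [h1]
  refine ⟨vt_lincomb hφ _, fun x => ?_⟩
  rw [grad_lincomb fun j => (hφ j).smooth]
  exact (hG (t, x)).symm

theorem elem_sm {Ω : Set (Eu n)} {T : ℝ} {v : ST n → Eu n} {G : ST n → Mt n}
    (h : IsElem Ω T v G) : StronglyMeasurable v ∧ StronglyMeasurable G := by
  obtain ⟨N, c, φ, hc, -, -, hφ, hv, hG⟩ := h
  have h1 : v = fun z => ∑ j, c j z.1 • φ j z.2 := funext hv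
  have h2 : G = fun z => ∑ j, c j z.1 • grad (φ j) z.2 := funext hG
  rw [h1, h2]
  have h3 : ∀ j, StronglyMeasurable fun z : ST n => c j z.1 := fun j =>
    ((hc j).comp measurable_fst).stronglyMeasurable
  refine ⟨?_, ?_⟩
  · refine Finset.stronglyMeasurable_fun_sum _ fun j _ => (h3 j).smul ?_
    exact ((hφ j).smooth.continuous.comp continuous_snd).stronglyMeasurable
  · refine Finset.stronglyMeasurable_fun_sum _ fun j _ => (h3 j).smul ?_
    exact ((grad_continuous (hφ j).smooth).comp continuous_snd).stronglyMeasurable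

theorem elem_zero {Ω : Set (Eu n)} {T : ℝ} {v : ST n → Eu n} {G : ST n → Mt n}
    (h : IsElem Ω T v G) {z : ST n} (hz : z ∉ Ioo 0 T ×ˢ Ω) : v z = 0 := by
  obtain ⟨N, c, φ, hc, -, hc0, hφ, hv, hG⟩ := h
  rw [hv]
  refine Finset.sum_eq_zero fun j _ => ?_
  by_cases h1 : z.1 ∈ Ioo 0 T
  · rw [vt_zero_of_notMem (hφ j) fun h2 => hz ⟨h1, h2⟩, smul_zero]
  · rw [hc0 j _ h1, zero_smul]

theorem elem_sub {Ω : Set (Eu n)} {T : ℝ} {v v' : ST n → Eu n} {G G' : ST n → Mt n}
    (h : IsElem Ω T v G) (h' : IsElem Ω T v' G') :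
    IsElem Ω T (fun z => v z - v' z) (fun z => G z - G' z) := by
  obtain ⟨N, c, φ, hc, hcb, hc0, hφ, hv, hG⟩ := h
  obtain ⟨N', c', φ', hc', hcb', hc0', hφ', hv', hG'⟩ := h'
  refine ⟨N + N', Fin.append c (fun j t => -(c' j t)), Fin.append φ φ', ?_, ?_, ?_, ?_, ?_, ?_⟩
  · intro j
    refine Fin.addCases (fun i => ?_) (fun i => ?_) j
    · simpa using hc i
    · rw [Fin.append_right]; exact (hc' i).neg
  · intro j
    refine Fin.addCases (fun i => ?_) (fun i => ?_) j
    · simpa using hcb i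
    · simpa using hcb' i
  · intro j
    refine Fin.addCases (fun i => ?_) (fun i => ?_) j
    · simpa using hc0 i
    · intro t ht; simpa using hc0' i t ht
  · intro j
    refine Fin.addCases (fun i => ?_) (fun i => ?_) j
    · simpa using hφ i
    · simpa using hφ' i
  · intro z
    show v z - v' z = _
    rw [Fin.sum_univ_add, hv, hv']
    simp [sub_eq_add_neg]
  · intro z
    show G z - G' z = _
    rw [Fin.sum_univ_add, hG, hG']
    simp [sub_eq_add_neg]

theorem vel_sub {Ω : Set (Eu n)} {T : ℝ} {v v' : ST n → Eu n} {G G' : ST n → Mt n}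
    (h : IsVel Ω T v G) (h' : IsVel Ω T v' G') :
    IsVel Ω T (fun z => v z - v' z) (fun z => G z - G' z) := by
  refine ⟨h.memv.sub h'.memv, h.memG.sub h'.memG, fun ε hε => ?_⟩
  obtain ⟨a, A, hA, ha1, ha2⟩ := h.approx (ε / 2) (by positivity)
  obtain ⟨b, B, hB, hb1, hb2⟩ := h'.approx (ε / 2) (by positivity)
  have hea : ENNReal.ofReal ε = ENNReal.ofReal (ε / 2) + ENNReal.ofReal (ε / 2) := by
    rw [← ENNReal.ofReal_add (by positivity) (by positivity), add_halves]
  refine ⟨_, _, elem_sub hA hB, ?_, ?_⟩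
  · have h1 : (fun z => v z - v' z) - (fun z => a z - b z) = (v - a) - (v' - b) := by
      funext z; simp only [Pi.sub_apply]; abel
    rw [h1, hea]
    exact (eLpNorm_sub_le (h.memv.1.sub (elem_sm hA).1.aestronglyMeasurable)
      (h'.memv.1.sub (elem_sm hB).1.aestronglyMeasurable) (by norm_num)).trans (add_le_add ha1 hb1)
  · have h1 : (fun z => G z - G' z) - (fun z => A z - B z) = (G - A) - (G' - B) := by
      funext z; simp only [Pi.sub_apply]; abel
    rw [h1, hea]
    exact (eLpNorm_sub_le (h.memG.1.sub (elem_sm hA).2.aestronglyMeasurable)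
      (h'.memG.1.sub (elem_sm hB).2.aestronglyMeasurable) (by norm_num)).trans (add_le_add ha2 hb2)

theorem vel_congr {Ω : Set (Eu n)} {T : ℝ} {v v' : ST n → Eu n} {G : ST n → Mt n}
    (h : IsVel Ω T v G) (hv : v =ᵐ[volume] v') : IsVel Ω T v' G := by
  refine ⟨h.memv.ae_eq hv, h.memG, fun ε hε => ?_⟩
  obtain ⟨a, A, hA, ha1, ha2⟩ := h.approx ε hε
  refine ⟨a, A, hA, ?_, ha2⟩
  rw [← eLpNorm_congr_ae (hv.sub (EventuallyEq.refl _ a))]
  exact ha1

theorem eq_zero_of_forall_le {X Z : ℝ≥0∞} (hZ : Z ≠ ⊤)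
    (h : ∀ ε : ℝ, 0 < ε → X ≤ ENNReal.ofReal ε * Z) : X = 0 := by
  have h1 : Tendsto (fun k : ℕ => ENNReal.ofReal (1 / ((k : ℝ) + 1)) * Z) atTop (𝓝 (0 * Z)) := by
    refine ENNReal.Tendsto.mul_const ?_ (Or.inr hZ)
    have := ENNReal.tendsto_ofReal tendsto_one_div_add_atTop_nhds_zero_nat
    rwa [ENNReal.ofReal_zero] at this
  rw [zero_mul] at h1
  exact le_antisymm (ge_of_tendsto' h1 fun k => h _ (by positivity)) bot_le

/-- a velocity field vanishes outside `(0,T) × Ω` -/
theorem vel_zero {Ω : Set (Eu n)} (hΩ : IsOpen Ω) {T : ℝ} {v : ST n → Eu n} {G : ST n → Mt n}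
    (h : IsVel Ω T v G) : v =ᵐ[volume] (Ioo 0 T ×ˢ Ω).indicator v := by
  set S : Set (ST n) := (Ioo 0 T ×ˢ Ω)ᶜ with hS
  have hSm : MeasurableSet S := (measurableSet_Ioo.prod hΩ.measurableSet).compl
  have h1 : eLpNorm v 2 (volume.restrict S) = 0 := by
    refine eq_zero_of_forall_le (Z := 1) (by norm_num) fun ε hε => ?_
    obtain ⟨a, A, hA, ha1, ha2⟩ := h.approx ε hε
    rw [mul_one]
    have h2 : eLpNorm (v - a) 2 (volume.restrict S) ≤ eLpNorm (v - a) 2 volume :=
      eLpNorm_mono_measure (v - a) Measure.restrict_le_self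
    refine le_trans (le_of_eq ?_) (h2.trans ha1)
    refine eLpNorm_congr_ae ?_
    filter_upwards [ae_restrict_mem hSm] with z hz
    rw [Pi.sub_apply, elem_zero hA hz, sub_zero]
  rw [eLpNorm_eq_zero_iff h.memv.1.restrict (by norm_num), EventuallyEq,
    ae_restrict_iff' hSm] at h1
  filter_upwards [h1] with z hz
  by_cases h2 : z ∈ Ioo 0 T ×ˢ Ω
  · rw [indicator_of_mem h2]
  · rw [indicator_of_notMem h2]; exact hz h2

/-- fields orthogonal to all test fields pair to zero with velocity fields -/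
theorem vel_perp {Ω : Set (Eu n)} {T : ℝ} {v : ST n → Eu n} {G : ST n → Mt n}
    (h : IsVel Ω T v G) (hv : StronglyMeasurable v) {z : Eu n → Eu n} (hz : MemLp z 2 volume)
    (hp : ∀ φ, IsVT Ω φ → ∫ x, inner ℝ (φ x) (z x) = 0) : eLpNorm (pr v z) 2 volume = 0 := by
  refine eq_zero_of_forall_le hz.2.ne fun ε hε => ?_
  obtain ⟨a, A, hA, ha1, ha2⟩ := h.approx ε hε
  have h1 : pr v z =ᵐ[volume] pr (v - a) z := by
    filter_upwards [ae_section hv h.memv] with t ht
    have h2 : pr (fun p => v p - a p) z t = pr v z t - pr a z t :=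
      pr_sub_left hz ht (vt_memLp (elem_section hA t).1)
    have h3 : pr a z t = 0 := hp _ (elem_section hA t).1
    show _ = pr (fun p => v p - a p) z t
    rw [h2, h3, sub_zero]
  rw [eLpNorm_congr_ae h1]
  exact (pr_le (hv.sub (elem_sm hA).1) hz.1).trans (mul_le_mul' ha1 le_rfl)

end Pool.Agent.Helper41.Jef
end

section
open MeasureTheory Set Filter Topology
open scoped ENNReal ContDiff

namespace Pool.Agent.Helper44.Jef
open Pool.Agent.Helper42.Jef

section bk
variable {E : Type*} [NormedAddCommGroup E] [InnerProductSpace ℝ E]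

theorem sq_nn (k : ℝ) (a : ℝ) : 1 ≤ Real.sqrt (1 + a ^ 2 / k ^ 2) := by
  rw [show (1 : ℝ) = Real.sqrt 1 by simp]
  apply Real.sqrt_le_sqrt
  have : 0 ≤ a ^ 2 / k ^ 2 := by positivity
  simp only [Real.sqrt_one]; linarith

theorem inv_le_one' (k a : ℝ) : (Real.sqrt (1 + a ^ 2 / k ^ 2))⁻¹ ≤ 1 :=
  inv_le_one_of_one_le₀ (sq_nn k a)

theorem inv_pos' (k a : ℝ) : 0 < (Real.sqrt (1 + a ^ 2 / k ^ 2))⁻¹ :=
  inv_pos.mpr (lt_of_lt_of_le one_pos (sq_nn k a))

theorem bk_norm (k : ℝ) (x : E) : ‖bk k x‖ = (Real.sqrt (1 + ‖x‖ ^ 2 / k ^ 2))⁻¹ * ‖x‖ := by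
  unfold bk
  rw [norm_smul, Real.norm_eq_abs, abs_of_pos (inv_pos' k ‖x‖)]

theorem bk_norm_le' (k : ℝ) (x : E) : ‖bk k x‖ ≤ ‖x‖ := by
  rw [bk_norm]
  calc _ ≤ 1 * ‖x‖ := mul_le_mul_of_nonneg_right (inv_le_one' k _) (norm_nonneg _)
    _ = ‖x‖ := one_mul _

theorem div_le_sqrt (k : ℝ) (a : ℝ) : a / k ≤ Real.sqrt (1 + a ^ 2 / k ^ 2) := by
  apply Real.le_sqrt_of_sq_le
  rw [div_pow]; linarith

theorem bk_norm_le_k' {k : ℝ} (hk : 0 < k) (x : E) : ‖bk k x‖ ≤ k := by
  rw [bk_norm]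
  have h1 := div_le_sqrt k ‖x‖
  have h2 : (0 : ℝ) < Real.sqrt (1 + ‖x‖ ^ 2 / k ^ 2) := lt_of_lt_of_le one_pos (sq_nn k _)
  rw [inv_mul_le_iff₀ h2]
  rw [div_le_iff₀ hk] at h1
  linarith

/-- scalar version: monotone and 1-Lipschitz -/
theorem sc_lip (k : ℝ) {a b : ℝ} (hb : 0 ≤ b) (hab : b ≤ a) :
    |(Real.sqrt (1 + a ^ 2 / k ^ 2))⁻¹ * a - (Real.sqrt (1 + b ^ 2 / k ^ 2))⁻¹ * b| ≤ a - b := by
  have ha : 0 ≤ a := hb.trans hab
  have hsq : b ^ 2 ≤ a ^ 2 := by nlinarith
  have hmono : Real.sqrt (1 + b ^ 2 / k ^ 2) ≤ Real.sqrt (1 + a ^ 2 / k ^ 2) := by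
    apply Real.sqrt_le_sqrt
    have : b ^ 2 / k ^ 2 ≤ a ^ 2 / k ^ 2 := div_le_div_of_nonneg_right hsq (by positivity)
    linarith
  have hinv : (Real.sqrt (1 + a ^ 2 / k ^ 2))⁻¹ ≤ (Real.sqrt (1 + b ^ 2 / k ^ 2))⁻¹ :=
    inv_anti₀ (lt_of_lt_of_le one_pos (sq_nn k _)) hmono
  rw [abs_le]
  constructor
  · -- nonnegativity
    have h0 : (Real.sqrt (1 + b ^ 2 / k ^ 2))⁻¹ * b ≤ (Real.sqrt (1 + a ^ 2 / k ^ 2))⁻¹ * a := by
      have hA : (0 : ℝ) < Real.sqrt (1 + a ^ 2 / k ^ 2) := lt_of_lt_of_le one_pos (sq_nn k _)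
      have hB : (0 : ℝ) < Real.sqrt (1 + b ^ 2 / k ^ 2) := lt_of_lt_of_le one_pos (sq_nn k _)
      rw [inv_mul_eq_div, inv_mul_eq_div, div_le_div_iff₀ hB hA]
      -- b * √(1+a²/k²) ≤ a * √(1+b²/k²)
      have e1 : b * Real.sqrt (1 + a ^ 2 / k ^ 2) = Real.sqrt (b ^ 2 * (1 + a ^ 2 / k ^ 2)) := by
        rw [Real.sqrt_mul (sq_nonneg b), Real.sqrt_sq hb]
      have e2 : a * Real.sqrt (1 + b ^ 2 / k ^ 2) = Real.sqrt (a ^ 2 * (1 + b ^ 2 / k ^ 2)) := by
        rw [Real.sqrt_mul (sq_nonneg a), Real.sqrt_sq ha]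
      rw [e1, e2]
      apply Real.sqrt_le_sqrt
      have : b ^ 2 * (a ^ 2 / k ^ 2) = a ^ 2 * (b ^ 2 / k ^ 2) := by ring
      nlinarith
    linarith
  · have h1 : (Real.sqrt (1 + a ^ 2 / k ^ 2))⁻¹ * a ≤ (Real.sqrt (1 + b ^ 2 / k ^ 2))⁻¹ * a :=
      mul_le_mul_of_nonneg_right hinv ha
    have h2 : (Real.sqrt (1 + b ^ 2 / k ^ 2))⁻¹ * (a - b) ≤ 1 * (a - b) :=
      mul_le_mul_of_nonneg_right (inv_le_one' k b) (by linarith)
    nlinarith

theorem bk_lip' (k : ℝ) (x y : E) : ‖bk k x - bk k y‖ ≤ ‖x - y‖ := by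
  set α := (Real.sqrt (1 + ‖x‖ ^ 2 / k ^ 2))⁻¹ with hα
  set β := (Real.sqrt (1 + ‖y‖ ^ 2 / k ^ 2))⁻¹ with hβ
  have hα1 : α ≤ 1 := inv_le_one' k _
  have hβ1 : β ≤ 1 := inv_le_one' k _
  have hα0 : 0 < α := inv_pos' k _
  have hβ0 : 0 < β := inv_pos' k _
  have hsc : (α * ‖x‖ - β * ‖y‖) ^ 2 ≤ (‖x‖ - ‖y‖) ^ 2 := by
    rcases le_total ‖y‖ ‖x‖ with h | h
    · have := sc_lip k (norm_nonneg y) h
      rw [← hα, ← hβ] at this
      rw [← sq_abs]
      exact pow_le_pow_left₀ (abs_nonneg _) this 2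
    · have := sc_lip k (norm_nonneg x) h
      rw [← hα, ← hβ] at this
      rw [← sq_abs, abs_sub_comm, show (‖x‖ - ‖y‖) ^ 2 = (‖y‖ - ‖x‖) ^ 2 by ring]
      exact pow_le_pow_left₀ (abs_nonneg _) this 2
  have hcs : inner ℝ x y ≤ ‖x‖ * ‖y‖ := real_inner_le_norm x y
  have hαβ : α * β ≤ 1 := by nlinarith
  have h1 : ‖bk k x - bk k y‖ ^ 2 ≤ ‖x - y‖ ^ 2 := by
    unfold bk
    rw [← hα, ← hβ, @norm_sub_sq_real, @norm_sub_sq_real, norm_smul, norm_smul, Real.norm_eq_abs,
      Real.norm_eq_abs, abs_of_pos hα0, abs_of_pos hβ0, real_inner_smul_left, real_inner_smul_right]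
    nlinarith [mul_le_mul_of_nonneg_left hcs (sub_nonneg.mpr hαβ)]
  exact le_of_sq_le_sq h1 (norm_nonneg _)

theorem bk_sub_le' {k : ℝ} (hk : 0 < k) (x : E) : ‖x - bk k x‖ ≤ ‖x‖ ^ 2 / k := by
  set α := (Real.sqrt (1 + ‖x‖ ^ 2 / k ^ 2))⁻¹ with hα
  have hα1 : α ≤ 1 := inv_le_one' k _
  have e : x - bk k x = (1 - α) • x := by
    unfold bk; rw [← hα, sub_smul, one_smul]
  rw [e, norm_smul, Real.norm_eq_abs, abs_of_nonneg (by linarith)]
  have h2 : Real.sqrt (1 + ‖x‖ ^ 2 / k ^ 2) ≤ 1 + ‖x‖ / k := by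
    rw [Real.sqrt_le_left (by positivity)]
    have : (‖x‖ / k) ^ 2 = ‖x‖ ^ 2 / k ^ 2 := by rw [div_pow]
    have h3 : 0 ≤ ‖x‖ / k := by positivity
    nlinarith
  have h3 : (1 + ‖x‖ / k)⁻¹ ≤ α := inv_anti₀ (lt_of_lt_of_le one_pos (sq_nn k _)) h2
  have h4 : 1 - ‖x‖ / k ≤ (1 + ‖x‖ / k)⁻¹ := by
    have h5 : 0 ≤ ‖x‖ / k := by positivity
    rw [inv_eq_one_div, le_div_iff₀ (by positivity)]
    nlinarith
  have h5 : 1 - α ≤ ‖x‖ / k := by linarith
  calc (1 - α) * ‖x‖ ≤ ‖x‖ / k * ‖x‖ := mul_le_mul_of_nonneg_right h5 (norm_nonneg _)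
    _ = ‖x‖ ^ 2 / k := by ring

theorem bk_cont (k : ℝ) : Continuous (bk k : E → E) := by
  unfold bk
  apply Continuous.smul _ continuous_id
  apply Continuous.inv₀
  · fun_prop
  · intro x; exact (lt_of_lt_of_le one_pos (sq_nn k ‖x‖)).ne'

end bk

end Pool.Agent.Helper44.Jef
end

section
open MeasureTheory Set Filter Topology
open scoped ENNReal ContDiff Convolution

namespace Pool.Agent.Helper44.Jef
open Pool.Agent.Helper42.Jef

variable {n : ℕ}

instance stHaar : (volume : Measure (ST n)).IsAddHaarMeasure :=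
  inferInstanceAs ((volume : Measure ℝ).prod (volume : Measure (Eu n))).IsAddHaarMeasure

theorem cv_eq_conv (k u : ST n → ℝ) :
    cv k u = (u ⋆[ContinuousLinearMap.mul ℝ ℝ, volume] k) := by
  funext z
  rw [convolution_def]
  unfold cv
  congr 1
  funext y
  simp [mul_comm]

theorem cv_integrable {k u : ST n → ℝ} (hk : Integrable k) (hu : Integrable u) :
    Integrable (cv k u) := by
  rw [cv_eq_conv]
  exact hu.integrable_convolution _ hk

theorem cv_exists {k u : ST n → ℝ} (hk : Integrable k) (hu : Integrable u) :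
    ∀ᵐ z : ST n, Integrable (fun y => k (z - y) * u y) := by
  have := hu.ae_convolution_exists (ContinuousLinearMap.mul ℝ ℝ) hk
  filter_upwards [this] with z hz
  have h2 : Integrable (fun y => ContinuousLinearMap.mul ℝ ℝ (u y) (k (z - y))) := hz
  refine h2.congr (Eventually.of_forall fun y => ?_)
  simp [mul_comm]

theorem cv_add {k u w : ST n → ℝ} (hk : Integrable k) (hu : Integrable u) (hw : Integrable w) :
    ∀ᵐ z : ST n, cv k (fun y => u y + w y) z = cv k u z + cv k w z := by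
  filter_upwards [cv_exists hk hu, cv_exists hk hw] with z h1 h2
  unfold cv
  rw [← integral_add h1 h2]
  congr 1
  funext y; ring

theorem KK_apply (κ : (Fin n × Fin n) → (Fin n × Fin n) → ST n → ℝ) (u : ST n → Mt n)
    (z : ST n) (p : Fin n × Fin n) :
    KK κ u z p = ∑ q, cv (κ p q) (fun y => u y q) z := rfl

theorem KK_add {κ : (Fin n × Fin n) → (Fin n × Fin n) → ST n → ℝ} {u w : ST n → Mt n}
    (hκ : ∀ p q, Integrable (κ p q)) (hu : ∀ q, Integrable (fun y => u y q))
    (hw : ∀ q, Integrable (fun y => w y q)) :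
    ∀ᵐ z : ST n, KK κ (fun y => u y + w y) z = KK κ u z + KK κ w z := by
  have h : ∀ p q, ∀ᵐ z : ST n, cv (κ p q) (fun y => u y q + w y q) z =
      cv (κ p q) (fun y => u y q) z + cv (κ p q) (fun y => w y q) z :=
    fun p q => cv_add (hκ p q) (hu q) (hw q)
  have h2 : ∀ᵐ z : ST n, ∀ p q, cv (κ p q) (fun y => u y q + w y q) z =
      cv (κ p q) (fun y => u y q) z + cv (κ p q) (fun y => w y q) z := by
    rw [ae_all_iff]; intro p; rw [ae_all_iff]; exact h p
  filter_upwards [h2] with z hz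
  ext p
  rw [PiLp.add_apply, KK_apply, KK_apply, KK_apply, ← Finset.sum_add_distrib]
  exact Finset.sum_congr rfl fun q _ => hz p q

theorem KK_meas {κ : (Fin n × Fin n) → (Fin n × Fin n) → ST n → ℝ} {u : ST n → Mt n}
    (hκ : ∀ p q, Integrable (κ p q)) (hu : ∀ q, Integrable (fun y => u y q)) :
    AEStronglyMeasurable (KK κ u) volume := by
  have h : ∀ p, AEStronglyMeasurable (fun z => ∑ q, cv (κ p q) (fun y => u y q) z) volume :=
    fun p => by
      have := Finset.aestronglyMeasurable_fun_sum (μ := (volume : Measure (ST n)))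
        (Finset.univ : Finset (Fin n × Fin n))
        (f := fun q z => cv (κ p q) (fun y => u y q) z)
        (fun q _ => (cv_integrable (hκ p q) (hu q)).aestronglyMeasurable)
      exact this
  have h2 : AEStronglyMeasurable (fun z => (fun p => ∑ q, cv (κ p q) (fun y => u y q) z)) volume :=
    (aemeasurable_pi_lambda _ fun p => (h p).aemeasurable).aestronglyMeasurable
  exact (PiLp.continuous_toLp 2 (fun _ : Fin n × Fin n => ℝ)).comp_aestronglyMeasurable h2

theorem enorm_sq_eq {ι : Type*} [Fintype ι] (x : EuclideanSpace ℝ ι) :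
    ‖x‖ₑ ^ 2 = ∑ i, ‖x i‖ₑ ^ 2 := by
  have h := EuclideanSpace.norm_sq_eq x
  have h1 : ‖x‖ₑ ^ 2 = ENNReal.ofReal (‖x‖ ^ 2) := by
    rw [ENNReal.ofReal_pow (norm_nonneg _), ofReal_norm]
  rw [h1, h, ENNReal.ofReal_sum_of_nonneg (fun i _ => by positivity)]
  refine Finset.sum_congr rfl fun i _ => ?_
  rw [ENNReal.ofReal_pow (norm_nonneg _), ofReal_norm]

theorem enorm_sum_sq_le {ι : Type*} [Fintype ι] (a : ι → ℝ) :
    ‖∑ i, a i‖ₑ ^ 2 ≤ (Fintype.card ι : ℝ≥0∞) * ∑ i, ‖a i‖ₑ ^ 2 := by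
  have h := sq_sum_le_card_mul_sum_sq (s := (Finset.univ : Finset ι)) (f := a)
  have h1 : ∀ y : ℝ, ‖y‖ₑ ^ 2 = ENNReal.ofReal (y ^ 2) := fun y => by
    rw [← ofReal_norm, ← ENNReal.ofReal_pow (norm_nonneg _), Real.norm_eq_abs, sq_abs]
  rw [h1]
  simp only [h1]
  rw [← ENNReal.ofReal_sum_of_nonneg (fun i _ => sq_nonneg _), ← ENNReal.ofReal_natCast,
    ← ENNReal.ofReal_mul (by positivity)]
  apply ENNReal.ofReal_le_ofReal
  simpa using h

theorem lsq {α : Type*} [MeasurableSpace α] {μ : Measure α} {E : Type*} [NormedAddCommGroup E]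
    (f : α → E) : ∫⁻ z, ‖f z‖ₑ ^ 2 ∂μ = (eLpNorm f 2 μ) ^ 2 := by
  rw [eLpNorm_eq_lintegral_rpow_enorm_toReal two_ne_zero ENNReal.ofNat_ne_top]
  simp only [ENNReal.toReal_ofNat]
  rw [← ENNReal.rpow_natCast, ← ENNReal.rpow_mul]
  simp

/-- `L²` bound for the matrix convolution -/
theorem KK_L2 {κ : (Fin n × Fin n) → (Fin n × Fin n) → ST n → ℝ} {u : ST n → Mt n} {A : ℝ}
    (hκ : ∀ p q, Integrable (κ p q)) (hu : ∀ q, Integrable (fun y => u y q))
    (hu2 : ∀ q, MemLp (fun y => u y q) 2 volume)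
    (hA : ∀ p q, ∀ u : ST n → ℝ, Integrable u → MemLp u 2 volume →
      eLpNorm (cv (κ p q) u) 2 volume ≤ ENNReal.ofReal A * eLpNorm u 2 volume) :
    ∫⁻ z, ‖KK κ u z‖ₑ ^ 2 ≤ ENNReal.ofReal ((n * n : ℝ) ^ 2 * (max A 0) ^ 2) *
      ∫⁻ z, ‖u z‖ₑ ^ 2 := by
  have hcard : (Fintype.card (Fin n × Fin n) : ℝ≥0∞) = ENNReal.ofReal (n * n : ℝ) := by
    rw [← ENNReal.ofReal_natCast]; simp
  have hAmax : ENNReal.ofReal A = ENNReal.ofReal (max A 0) := by
    rcases le_total A 0 with h | h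
    · rw [max_eq_right h, ENNReal.ofReal_of_nonpos h]; simp
    · rw [max_eq_left h]
  have hm : ∀ p q, AEMeasurable (fun z => ‖cv (κ p q) (fun y => u y q) z‖ₑ ^ 2) volume :=
    fun p q => ((cv_integrable (hκ p q) (hu q)).aestronglyMeasurable.enorm).pow_const 2
  have hmu : ∀ q, AEMeasurable (fun z => ‖u z q‖ₑ ^ 2) volume :=
    fun q => ((hu q).aestronglyMeasurable.enorm).pow_const 2
  have step1 : ∀ z, ‖KK κ u z‖ₑ ^ 2 ≤
      ∑ p, (Fintype.card (Fin n × Fin n) : ℝ≥0∞) *
        ∑ q, ‖cv (κ p q) (fun y => u y q) z‖ₑ ^ 2 := by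
    intro z
    rw [enorm_sq_eq]
    exact Finset.sum_le_sum fun p _ => enorm_sum_sq_le _
  calc ∫⁻ z, ‖KK κ u z‖ₑ ^ 2
      ≤ ∫⁻ z, ∑ p, (Fintype.card (Fin n × Fin n) : ℝ≥0∞) *
        ∑ q, ‖cv (κ p q) (fun y => u y q) z‖ₑ ^ 2 := lintegral_mono step1
    _ = ∑ p, (Fintype.card (Fin n × Fin n) : ℝ≥0∞) *
        ∑ q, ∫⁻ z, ‖cv (κ p q) (fun y => u y q) z‖ₑ ^ 2 := by
      rw [lintegral_finsetSum' _ (fun p _ => by
        exact (Finset.aemeasurable_fun_sum _ (fun q _ => hm p q)).const_mul _)]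
      refine Finset.sum_congr rfl fun p _ => ?_
      rw [lintegral_const_mul'' _ (Finset.aemeasurable_fun_sum _ (fun q _ => hm p q)),
        lintegral_finsetSum' _ (fun q _ => hm p q)]
    _ ≤ ∑ p : Fin n × Fin n, (Fintype.card (Fin n × Fin n) : ℝ≥0∞) *
        ∑ q, (ENNReal.ofReal (max A 0) ^ 2 * ∫⁻ z, ‖u z q‖ₑ ^ 2) := by
      refine Finset.sum_le_sum fun p _ => ?_
      gcongr with q _
      rw [lsq, lsq (fun z => u z q), ← mul_pow, ← hAmax]
      exact pow_le_pow_left' (hA p q _ (hu q) (hu2 q)) 2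
    _ = (Fintype.card (Fin n × Fin n) : ℝ≥0∞) * ((Fintype.card (Fin n × Fin n) : ℝ≥0∞) *
        (ENNReal.ofReal (max A 0) ^ 2 * ∑ q, ∫⁻ z, ‖u z q‖ₑ ^ 2)) := by
      rw [Finset.sum_const, nsmul_eq_mul, Finset.card_univ, ← Finset.mul_sum]
    _ = ENNReal.ofReal ((n * n : ℝ) ^ 2 * (max A 0) ^ 2) * ∫⁻ z, ‖u z‖ₑ ^ 2 := by
      have e : ∫⁻ z, ‖u z‖ₑ ^ 2 = ∑ q, ∫⁻ z, ‖u z q‖ₑ ^ 2 := by
        rw [← lintegral_finsetSum' _ (fun q _ => hmu q)]
        exact lintegral_congr fun z => enorm_sq_eq _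
      rw [e, hcard, ENNReal.ofReal_mul (p := (n * n : ℝ) ^ 2) (by positivity),
        ENNReal.ofReal_pow (p := (n * n : ℝ)) (by positivity),
        ENNReal.ofReal_pow (le_max_right _ _)]
      ring

/-- weak type bound for the matrix convolution -/
theorem KK_weak {κ : (Fin n × Fin n) → (Fin n × Fin n) → ST n → ℝ} {u : ST n → Mt n} {C : ℝ → ℝ}
    (hu : ∀ q, Integrable (fun y => u y q))
    (hu2 : ∀ q, MemLp (fun y => u y q) 2 volume)
    (hC : ∀ p q, ∀ u : ST n → ℝ, Integrable u → MemLp u 2 → ∫ z, |u z| ≤ 1 → ∀ s > 0,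
      volume {z | s < |cv (κ p q) u z|} ≤ ENNReal.ofReal (C s * ∫ z, |u z|))
    (δ : ℝ) (hδ : δ ≤ 1) (hs : ∀ q, ∫ z, |u z q| ≤ δ) (s : ℝ) (hs0 : 0 < s) :
    volume {z | s < ‖KK κ u z‖} ≤ ENNReal.ofReal ((n * n : ℝ) ^ 2 *
      (max (C (s / ((n * n : ℝ) ^ 2 + 1))) 0 * δ)) := by
  set s' := s / ((n * n : ℝ) ^ 2 + 1) with hs'
  have hs'0 : 0 < s' := by positivity
  have hsub : {z | s < ‖KK κ u z‖} ⊆
      ⋃ p ∈ (Finset.univ : Finset (Fin n × Fin n)), ⋃ q ∈ (Finset.univ : Finset (Fin n × Fin n)),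
        {z | s' < |cv (κ p q) (fun y => u y q) z|} := by
    intro z hz
    simp only [mem_ofPred_eq] at hz
    by_contra hcon
    simp only [Finset.mem_univ, iUnion_true, mem_iUnion, mem_ofPred_eq, not_exists, not_lt] at hcon
    have h1 : ‖KK κ u z‖ ≤ ∑ p, |KK κ u z p| := by
      have h2 := EuclideanSpace.norm_eq (KK κ u z)
      rw [h2]
      rw [Real.sqrt_le_left (Finset.sum_nonneg fun i _ => abs_nonneg _)]
      simp only [Real.norm_eq_abs]
      exact Finset.sum_sq_le_sq_sum_of_nonneg fun i _ => abs_nonneg _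
    have h3 : ∑ p, |KK κ u z p| ≤ ∑ p : Fin n × Fin n, ∑ q : Fin n × Fin n, s' := by
      refine Finset.sum_le_sum fun p _ => ?_
      rw [KK_apply]
      exact (Finset.abs_sum_le_sum_abs _ _).trans (Finset.sum_le_sum fun q _ => hcon p q)
    have h4 : ∑ p : Fin n × Fin n, ∑ q : Fin n × Fin n, s' = (n * n : ℝ) ^ 2 * s' := by
      simp; ring
    have h5 : (n * n : ℝ) ^ 2 * s' < s := by
      rw [hs', mul_div_assoc', div_lt_iff₀ (by positivity)]
      nlinarith
    linarith
  have h0 : ∀ p q, volume {z | s' < |cv (κ p q) (fun y => u y q) z|} ≤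
      ENNReal.ofReal (max (C s') 0 * δ) := by
    intro p q
    refine (hC p q _ (hu q) (hu2 q) ((hs q).trans hδ) s' hs'0).trans ?_
    apply ENNReal.ofReal_le_ofReal
    have hnn : 0 ≤ ∫ z, |u z q| := integral_nonneg fun z => abs_nonneg _
    calc C s' * ∫ z, |u z q| ≤ max (C s') 0 * ∫ z, |u z q| :=
          mul_le_mul_of_nonneg_right (le_max_left _ _) hnn
      _ ≤ max (C s') 0 * δ := mul_le_mul_of_nonneg_left (hs q) (le_max_right _ _)
  calc volume {z | s < ‖KK κ u z‖}
      ≤ volume (⋃ p ∈ (Finset.univ : Finset (Fin n × Fin n)),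
        ⋃ q ∈ (Finset.univ : Finset (Fin n × Fin n)),
        {z | s' < |cv (κ p q) (fun y => u y q) z|}) := measure_mono hsub
    _ ≤ ∑ p : Fin n × Fin n, ∑ q : Fin n × Fin n,
        volume {z | s' < |cv (κ p q) (fun y => u y q) z|} :=
      (measure_biUnion_finset_le _ _).trans (Finset.sum_le_sum fun p _ =>
        measure_biUnion_finset_le _ _)
    _ ≤ ∑ p : Fin n × Fin n, ∑ q : Fin n × Fin n, ENNReal.ofReal (max (C s') 0 * δ) :=
      Finset.sum_le_sum fun p _ => Finset.sum_le_sum fun q _ => h0 p q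
    _ = ENNReal.ofReal ((n * n : ℝ) ^ 2 * (max (C s') 0 * δ)) := by
      simp only [Finset.sum_const, Finset.card_univ, Fintype.card_prod, Fintype.card_fin,
        nsmul_eq_mul]
      rw [ENNReal.ofReal_mul (p := (n * n : ℝ) ^ 2) (by positivity),
        ENNReal.ofReal_pow (p := (n * n : ℝ)) (by positivity), ← Nat.cast_mul,
        ENNReal.ofReal_natCast]
      ring

end Pool.Agent.Helper44.Jef
end
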