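import Pool.Agent.Helper42.JefB.C3
import Pool.Agent.Helper42.JefB.C2
import Pool.Agent.Helper42.JefB.B0

section
/-! # The velocity class -/

open MeasureTheory Set Filter Topology
open scoped ENNReal NNReal ContDiff

namespace Pool.Agent.Helper42.Jef

set_option maxHeartbeats 400000

variable {n : ℕ} {Ω : Set (Eu n)} {T : ℝ}

theorem memLp_prod_smul {E : Type*} [NormedAddCommGroup E] [NormedSpace ℝ E] {c : ℝ → ℝ}
    {φ : Eu n → E} (hc : MemLp c 2) (hφ : MemLp φ 2) :
    MemLp (fun z : ST n => c z.1 • φ z.2) 2 := by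
  have h1 : AEStronglyMeasurable (fun z : ST n => c z.1 • φ z.2) volume :=
    (hc.1.comp_quasiMeasurePreserving Measure.quasiMeasurePreserving_fst).smul
      (hφ.1.comp_quasiMeasurePreserving Measure.quasiMeasurePreserving_snd)
  rw [memLp_two_iff_integrable_sq_norm h1]
  have h2 : Integrable (fun t => ‖c t‖ ^ 2) := (memLp_two_iff_integrable_sq_norm hc.1).1 hc
  have h3 : Integrable (fun x => ‖φ x‖ ^ 2) := (memLp_two_iff_integrable_sq_norm hφ.1).1 hφ
  have h4 := h2.mul_prod h3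
  refine h4.congr (Eventually.of_forall fun z => ?_)
  simp only [norm_smul, mul_pow]

theorem memLp_coef {c : ℝ → ℝ} (hm : Measurable c) {C : ℝ} (hC : ∀ t, |c t| ≤ C)
    (h0 : ∀ t, t ∉ Ioo 0 T → c t = 0) (p : ℝ≥0∞) : MemLp c p := by
  have h1 : c = (Ioo 0 T).indicator c := by
    funext t
    by_cases ht : t ∈ Ioo 0 T
    · rw [indicator_of_mem ht]
    · rw [indicator_of_notMem ht, h0 t ht]
  rw [h1]
  rw [memLp_indicator_iff_restrict measurableSet_Ioo]
  exact MemLp.of_bound hm.aestronglyMeasurable C (Eventually.of_forall hC)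

theorem memLp_cc {E : Type*} [NormedAddCommGroup E] {φ : Eu n → E} (hc : Continuous φ)
    (hs : HasCompactSupport φ) (p : ℝ≥0∞) : MemLp φ p := hc.memLp_of_hasCompactSupport hs

namespace IsVT

theorem grad_cont {φ : Eu n → Eu n} (h : IsVT Ω φ) : Continuous (grad φ) :=
  (gradL_cont n).comp (h.smooth.continuous_fderiv (by simp))

theorem grad_cpt {φ : Eu n → Eu n} (h : IsVT Ω φ) : HasCompactSupport (grad φ) := by
  refine (h.cpt.fderiv (𝕜 := ℝ)).mono' ?_
  intro x hx
  refine subset_closure ?_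
  intro h0
  have h0' : fderiv ℝ φ x = 0 := h0
  exact hx (by show grad φ x = 0; rw [grad_eq, h0', map_zero])

end IsVT

theorem IsElem.memLp {v : ST n → Eu n} {G : ST n → Mt n} (h : IsElem Ω T v G) :
    MemLp v 2 volume ∧ MemLp G 2 volume := by
  obtain ⟨N, c, φ, hm, hb, h0, hφ, hv, hG⟩ := h
  choose C hC using hb
  constructor
  · have : v = fun z => ∑ j, c j z.1 • φ j z.2 := funext hv
    rw [this]
    refine memLp_finset_sum _ fun j _ => ?_
    exact memLp_prod_smul (memLp_coef (hm j) (hC j) (h0 j) 2)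
      (memLp_cc (hφ j).smooth.continuous (hφ j).cpt 2)
  · have : G = fun z => ∑ j, c j z.1 • grad (φ j) z.2 := funext hG
    rw [this]
    refine memLp_finset_sum _ fun j _ => ?_
    exact memLp_prod_smul (memLp_coef (hm j) (hC j) (h0 j) 2)
      (memLp_cc (hφ j).grad_cont (hφ j).grad_cpt 2)

theorem IsElem.isVel {v : ST n → Eu n} {G : ST n → Mt n} (h : IsElem Ω T v G) :
    IsVel Ω T v G := by
  refine ⟨h.memLp.1, h.memLp.2, fun ε hε => ⟨v, G, h, ?_, ?_⟩⟩
  · simp
  · simp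

theorem IsElem.add {v v' : ST n → Eu n} {G G' : ST n → Mt n} (h : IsElem Ω T v G)
    (h' : IsElem Ω T v' G') : IsElem Ω T (v + v') (G + G') := by
  obtain ⟨N, c, φ, hm, hb, h0, hφ, hv, hG⟩ := h
  obtain ⟨N', c', φ', hm', hb', h0', hφ', hv', hG'⟩ := h'
  refine ⟨N + N', fun j => Fin.addCases c c' j, fun j => Fin.addCases φ φ' j, ?_, ?_, ?_, ?_, ?_, ?_⟩
  · intro j
    refine Fin.addCases (fun i => ?_) (fun i => ?_) j
    · simpa using hm i
    · simpa using hm' i
  · intro j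
    refine Fin.addCases (fun i => ?_) (fun i => ?_) j
    · simpa using hb i
    · simpa using hb' i
  · intro j
    refine Fin.addCases (fun i => ?_) (fun i => ?_) j
    · simpa using h0 i
    · simpa using h0' i
  · intro j
    refine Fin.addCases (fun i => ?_) (fun i => ?_) j
    · simpa using hφ i
    · simpa using hφ' i
  · intro z
    rw [Fin.sum_univ_add]
    simp [hv z, hv' z]
  · intro z
    rw [Fin.sum_univ_add]
    simp [hG z, hG' z]

theorem IsElem.smul {v : ST n → Eu n} {G : ST n → Mt n} (h : IsElem Ω T v G) (a : ℝ) :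
    IsElem Ω T (a • v) (a • G) := by
  obtain ⟨N, c, φ, hm, hb, h0, hφ, hv, hG⟩ := h
  choose C hC using hb
  refine ⟨N, fun j t => a * c j t, φ, fun j => (hm j).const_mul a, fun j => ⟨|a| * C j, fun t => ?_⟩,
    fun j t ht => by simp [h0 j t ht], hφ, fun z => ?_, fun z => ?_⟩
  · rw [abs_mul]
    exact mul_le_mul_of_nonneg_left (hC j t) (abs_nonneg _)
  · simp [hv z, Finset.smul_sum, mul_smul]
  · simp [hG z, Finset.smul_sum, mul_smul]

theorem IsElem.zero : IsElem Ω T (0 : ST n → Eu n) (0 : ST n → Mt n) :=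
  ⟨0, fun _ _ => 0, fun _ => 0, fun j => j.elim0, fun j => j.elim0, fun j => j.elim0,
    fun j => j.elim0, fun z => by simp, fun z => by simp⟩

theorem IsVel.add {v v' : ST n → Eu n} {G G' : ST n → Mt n} (h : IsVel Ω T v G)
    (h' : IsVel Ω T v' G') : IsVel Ω T (v + v') (G + G') := by
  refine ⟨h.memv.add h'.memv, h.memG.add h'.memG, fun ε hε => ?_⟩
  obtain ⟨w, W, hw, h1, h2⟩ := h.approx (ε / 2) (by positivity)
  obtain ⟨w', W', hw', h1', h2'⟩ := h'.approx (ε / 2) (by positivity)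
  have hε2 : ENNReal.ofReal ε = ENNReal.ofReal (ε / 2) + ENNReal.ofReal (ε / 2) := by
    rw [← ENNReal.ofReal_add (by positivity) (by positivity)]; ring_nf
  refine ⟨w + w', W + W', hw.add hw', ?_, ?_⟩
  · have : v + v' - (w + w') = (v - w) + (v' - w') := by abel
    rw [this, hε2]
    exact (eLpNorm_add_le (h.memv.sub hw.memLp.1).1 (h'.memv.sub hw'.memLp.1).1
      (by norm_num)).trans (add_le_add h1 h1')
  · have : G + G' - (W + W') = (G - W) + (G' - W') := by abel
    rw [this, hε2]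
    exact (eLpNorm_add_le (h.memG.sub hw.memLp.2).1 (h'.memG.sub hw'.memLp.2).1
      (by norm_num)).trans (add_le_add h2 h2')

theorem IsVel.neg {v : ST n → Eu n} {G : ST n → Mt n} (h : IsVel Ω T v G) :
    IsVel Ω T (-v) (-G) := by
  refine ⟨h.memv.neg, h.memG.neg, fun ε hε => ?_⟩
  obtain ⟨w, W, hw, h1, h2⟩ := h.approx ε hε
  have h3 := hw.smul (-1)
  simp only [neg_one_smul] at h3
  refine ⟨-w, -W, h3, ?_, ?_⟩
  · have : -v - -w = -(v - w) := by abel
    rw [this, eLpNorm_neg]; exact h1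
  · have : -G - -W = -(G - W) := by abel
    rw [this, eLpNorm_neg]; exact h2

theorem IsVel.sub {v v' : ST n → Eu n} {G G' : ST n → Mt n} (h : IsVel Ω T v G)
    (h' : IsVel Ω T v' G') : IsVel Ω T (v - v') (G - G') := by
  have := h.add h'.neg
  simpa only [← sub_eq_add_neg] using this

/-! ## weak closedness -/

/-- the product Hilbert space -/
abbrev HV (n : ℕ) := WithLp 2 (Lp (Eu n) 2 (volume : Measure (ST n)) × Lp (Mt n) 2
  (volume : Measure (ST n)))

/-- class of a pair of `L²` functions -/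
noncomputable def mkHV {v : ST n → Eu n} {G : ST n → Mt n} (hv : MemLp v 2 volume)
    (hG : MemLp G 2 volume) : HV n := WithLp.toLp 2 (hv.toLp v, hG.toLp G)

def elemSub (Ω : Set (Eu n)) (T : ℝ) : Submodule ℝ (HV n) where
  carrier := {x | ∃ (v : ST n → Eu n) (G : ST n → Mt n) (h : IsElem Ω T v G),
    x = mkHV h.memLp.1 h.memLp.2}
  add_mem' := by
    rintro _ _ ⟨v, G, h, rfl⟩ ⟨v', G', h', rfl⟩
    exact ⟨v + v', G + G', h.add h', rfl⟩
  zero_mem' := ⟨0, 0, IsElem.zero, rfl⟩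
  smul_mem' := by
    rintro a _ ⟨v, G, h, rfl⟩
    exact ⟨a • v, a • G, h.smul a, rfl⟩

theorem dist_mkHV_le {v v' : ST n → Eu n} {G G' : ST n → Mt n} (hv : MemLp v 2 volume)
    (hG : MemLp G 2 volume) (hv' : MemLp v' 2 volume) (hG' : MemLp G' 2 volume) :
    (eLpNorm (v - v') 2 volume).toReal ≤ dist (mkHV hv hG) (mkHV hv' hG') ∧
    (eLpNorm (G - G') 2 volume).toReal ≤ dist (mkHV hv hG) (mkHV hv' hG') ∧
    dist (mkHV hv hG) (mkHV hv' hG') ≤ (eLpNorm (v - v') 2 volume).toReal +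
      (eLpNorm (G - G') 2 volume).toReal := by
  have h1 : dist (hv.toLp v) (hv'.toLp v') = (eLpNorm (v - v') 2 volume).toReal := by
    rw [dist_eq_norm, ← MemLp.toLp_sub, Lp.norm_toLp]
  have h2 : dist (hG.toLp G) (hG'.toLp G') = (eLpNorm (G - G') 2 volume).toReal := by
    rw [dist_eq_norm, ← MemLp.toLp_sub, Lp.norm_toLp]
  have h3 : dist (mkHV hv hG) (mkHV hv' hG') ^ 2 =
      (eLpNorm (v - v') 2 volume).toReal ^ 2 + (eLpNorm (G - G') 2 volume).toReal ^ 2 := by
    rw [WithLp.prod_dist_eq_of_L2, Real.sq_sqrt (by positivity), ← h1, ← h2]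
    rfl
  set a := (eLpNorm (v - v') 2 volume).toReal
  set b := (eLpNorm (G - G') 2 volume).toReal
  have ha : 0 ≤ a := ENNReal.toReal_nonneg
  have hb : 0 ≤ b := ENNReal.toReal_nonneg
  have hd : 0 ≤ dist (mkHV hv hG) (mkHV hv' hG') := dist_nonneg
  refine ⟨?_, ?_, ?_⟩
  · exact le_of_sq_le_sq (by nlinarith) hd
  · exact le_of_sq_le_sq (by nlinarith) hd
  · exact le_of_sq_le_sq (by nlinarith) (by positivity)

theorem isVel_iff {v : ST n → Eu n} {G : ST n → Mt n} (hv : MemLp v 2 volume)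
    (hG : MemLp G 2 volume) : IsVel Ω T v G ↔ mkHV hv hG ∈ (elemSub Ω T).topologicalClosure := by
  constructor
  · intro h
    refine Metric.mem_closure_iff.2 fun ε hε => ?_
    obtain ⟨w, W, hw, h1, h2⟩ := h.approx (ε / 3) (by positivity)
    refine ⟨mkHV hw.memLp.1 hw.memLp.2, ⟨w, W, hw, rfl⟩, ?_⟩
    have h3 := (dist_mkHV_le hv hG hw.memLp.1 hw.memLp.2).2.2
    have h4 := ENNReal.toReal_le_of_le_ofReal (by positivity) h1
    have h5 := ENNReal.toReal_le_of_le_ofReal (by positivity) h2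
    linarith
  · intro h
    refine ⟨hv, hG, fun ε hε => ?_⟩
    obtain ⟨_, ⟨w, W, hw, rfl⟩, hd⟩ := Metric.mem_closure_iff.1 h ε hε
    have h3 := dist_mkHV_le hv hG hw.memLp.1 hw.memLp.2
    refine ⟨w, W, hw, ?_, ?_⟩
    · rw [← ENNReal.ofReal_toReal (hv.sub hw.memLp.1).2.ne]
      exact ENNReal.ofReal_le_ofReal (h3.1.trans hd.le)
    · rw [← ENNReal.ofReal_toReal (hG.sub hw.memLp.2).2.ne]
      exact ENNReal.ofReal_le_ofReal (h3.2.1.trans hd.le)

theorem IsVel.of_wc {vs : ℕ → ST n → Eu n} {Gs : ℕ → ST n → Mt n} {v : ST n → Eu n}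
    {G : ST n → Mt n} (h : ∀ m, IsVel Ω T (vs m) (Gs m)) (hv : WC volume vs v)
    (hG : WC volume Gs G) : IsVel Ω T v G := by
  rw [isVel_iff hv.memU hG.memU]
  set K := (elemSub Ω T).topologicalClosure with hK
  have hcl : IsClosed (K : Set (HV n)) := Submodule.isClosed_topologicalClosure _
  haveI : CompleteSpace K := hcl.completeSpace_coe
  rw [← Submodule.orthogonal_orthogonal K, Submodule.mem_orthogonal]
  intro y hy
  have h1 : ∀ m, inner ℝ y (mkHV (h m).memv (h m).memG) = 0 := by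
    intro m
    have h2 := (isVel_iff (h m).memv (h m).memG).1 (h m)
    rw [real_inner_comm]
    exact (Submodule.mem_orthogonal _ _).1 hy _ h2
  have h2 : Tendsto (fun m => inner ℝ y (mkHV (h m).memv (h m).memG)) atTop
      (𝓝 (inner ℝ y (mkHV hv.memU hG.memU))) := by
    have h3 : ∀ {w : ST n → Eu n} {W : ST n → Mt n} (hw : MemLp w 2 volume)
        (hW : MemLp W 2 volume), inner ℝ y (mkHV hw hW) =
        (∫ z, inner ℝ (w z) (y.fst z)) + ∫ z, inner ℝ (W z) (y.snd z) := by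
      intro w W hw hW
      rw [WithLp.prod_inner_apply]
      congr 1
      · show inner ℝ y.fst (hw.toLp w) = _
        rw [inner_toLp_left]
        exact integral_congr_ae (Eventually.of_forall fun z => real_inner_comm _ _)
      · show inner ℝ y.snd (hW.toLp W) = _
        rw [inner_toLp_left]
        exact integral_congr_ae (Eventually.of_forall fun z => real_inner_comm _ _)
    rw [h3]
    have h4 := (hv.conv y.fst (Lp.memLp _)).add (hG.conv y.snd (Lp.memLp _))
    refine h4.congr fun m => ?_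
    rw [h3]
  simp only [h1] at h2
  exact (tendsto_nhds_unique h2 tendsto_const_nhds)

end Pool.Agent.Helper42.Jef
end

section
/-!
# Corotational Jeffreys model: function spaces and global weak solutions

`Eu n = ℝⁿ`, `Mt n` = real `n × n` matrices with the Frobenius inner product,
`ST n = ℝ × ℝⁿ` = space-time.  `(grad φ x)(i,j) = ∂_j φ_i(x)`, `sy A = (A + Aᵀ)/2`,
`sp A = (A - Aᵀ)/2`, `br A W = A W - W A`, `tr A = Aᵀ`, and `IsVT Ω φ` says that `φ` is a smooth
divergence free field with compact support in `Ω`.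
-/

open MeasureTheory Set Filter Topology
open scoped ENNReal ContDiff

namespace Pool.Agent.Helper42.Jef

variable {n : ℕ}

/-- `L²(Ω;ℝⁿ) × L²(Ω;ℝ^{n×n})` with the norm `(‖u‖² + ‖U‖²)^{1/2}` -/
abbrev PairSp (Ω : Set (Eu n)) : Type :=
  WithLp 2 (Lp (Eu n) 2 (volume.restrict Ω) × Lp (Mt n) 2 (volume.restrict Ω))

theorem vt_memLp {Ω : Set (Eu n)} {φ : Eu n → Eu n} (h : IsVT Ω φ) :
    MemLp φ 2 (volume.restrict Ω) :=
  (h.smooth.continuous.memLp_of_hasCompactSupport h.cpt).restrict Ω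

theorem vt_grad_memLp {Ω : Set (Eu n)} {φ : Eu n → Eu n} (h : IsVT Ω φ) :
    MemLp (grad φ) 2 (volume.restrict Ω) :=
  (h.grad_cont.memLp_of_hasCompactSupport h.grad_cpt).restrict Ω

/-- the pair `(φ, ∇φ)` of a test field `φ` -/
noncomputable def toPair {Ω : Set (Eu n)} {φ : Eu n → Eu n} (h : IsVT Ω φ) : PairSp Ω :=
  WithLp.toLp 2 ((vt_memLp h).toLp φ, (vt_grad_memLp h).toLp (grad φ))

/-- `V`: the closure in `W^{1,2}(Ω)ⁿ` of the test fields.  A field `u ∈ V` is represented by the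
pair `(u, ∇u)`, so that the norm of `V` is the norm of `W^{1,2}(Ω)ⁿ` -/
noncomputable def VV (Ω : Set (Eu n)) : Submodule ℝ (PairSp Ω) :=
  (Submodule.span ℝ {p : PairSp Ω | ∃ (φ : Eu n → Eu n) (h : IsVT Ω φ),
    p = toPair h}).topologicalClosure

/-- `H`: the closure in `L²(Ω)ⁿ` of the test fields -/
noncomputable def HH (Ω : Set (Eu n)) : Submodule ℝ (Lp (Eu n) 2 (volume.restrict Ω)) :=
  (Submodule.span ℝ {u : Lp (Eu n) 2 (volume.restrict Ω) | ∃ (φ : Eu n → Eu n) (h : IsVT Ω φ),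
    u = (vt_memLp h).toLp φ}).topologicalClosure

/-- `V*` -/
abbrev VDual (Ω : Set (Eu n)) : Type := StrongDual ℝ (VV Ω)

/-- a test field as an element of `V` -/
noncomputable def toVV {Ω : Set (Eu n)} {φ : Eu n → Eu n} (h : IsVT Ω φ) : VV Ω :=
  ⟨toPair h, subset_closure (Submodule.subset_span ⟨φ, h, rfl⟩)⟩

/-- the pairing of `ℓ ∈ V*` with the test field `φ` -/
noncomputable def pairV (Ω : Set (Eu n)) (ℓ : VDual Ω) (φ : Eu n → Eu n) : ℝ :=
  open Classical in if h : IsVT Ω φ then ℓ (toVV h) else 0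

/-- `(u, U)` is (a representative of) an element `u` of `V` with gradient `U = ∇u` -/
def InV (Ω : Set (Eu n)) (u : Eu n → Eu n) (U : Eu n → Mt n) : Prop :=
  ∃ p : VV Ω, ((p : PairSp Ω).fst : Eu n → Eu n) =ᵐ[volume.restrict Ω] u ∧
    ((p : PairSp Ω).snd : Eu n → Mt n) =ᵐ[volume.restrict Ω] U

/-- space-time velocity test fields `Φ ∈ C_c^∞((-∞,T) × Ω)`, divergence free in `x` -/
structure IsVTest (Ω : Set (Eu n)) (T : ℝ) (Φ : ST n → Eu n) : Prop where
  smooth : ContDiff ℝ ∞ Φ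
  cpt : HasCompactSupport Φ
  supp : tsupport Φ ⊆ Iio T ×ˢ Ω
  div0 : ∀ t x, dvg (fun y => Φ (t, y)) x = 0

/-- space-time matrix test fields `Ψ ∈ C_c^∞((-∞,T) × Ω; ℝ^{n×n})` -/
structure IsMTest (Ω : Set (Eu n)) (T : ℝ) (Ψ : ST n → Mt n) : Prop where
  smooth : ContDiff ℝ ∞ Ψ
  cpt : HasCompactSupport Ψ
  supp : tsupport Ψ ⊆ Iio T ×ˢ Ω

/-- Weak solutions `(v, τ)` on `[0,T]` of
`∂_t v + (v·∇)v - μ₀ Δv + ∇p = f + Div τ`, `div v = 0`, `v|_{∂Ω} = 0`, `v(0) = v₀`,
`τ + λ₁ (∂_t τ + (v·∇)τ + τ W(v) - W(v) τ) = 2η(1 - λ₂/λ₁) E(v)`, `τ(0) = τ₀`,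
with `μ₀ = η λ₂ / λ₁`; `G` is the gradient of `v`. -/
structure IsWeakSolG (Ω : Set (Eu n)) (η lam1 lam2 : ℝ) (f : ℝ → VDual Ω)
    (v0 : Eu n → Eu n) (τ0 : Eu n → Mt n) (T : ℝ)
    (v : ST n → Eu n) (G τ : ST n → Mt n) : Prop where
  /-- joint measurability -/
  meas_v : AEStronglyMeasurable v (volume.restrict (Ioo 0 T ×ˢ Ω))
  meas_G : AEStronglyMeasurable G (volume.restrict (Ioo 0 T ×ˢ Ω))
  meas_τ : AEStronglyMeasurable τ (volume.restrict (Ioo 0 T ×ˢ Ω))
  /-- `v(t) ∈ V` with gradient `G(t)` for almost every `t` -/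
  in_V : ∀ᵐ t : ℝ, t ∈ Ioo 0 T → InV Ω (fun x => v (t, x)) (fun x => G (t, x))
  /-- `v ∈ L²(0,T;V)` -/
  sq_G : ∫⁻ t in Ioo 0 T, ∫⁻ x in Ω, (‖v (t, x)‖ₑ ^ 2 + ‖G (t, x)‖ₑ ^ 2) < ⊤
  /-- `v ∈ L^∞(0,T;H)` -/
  bd_v : ∃ C : ℝ, ∀ᵐ t : ℝ, t ∈ Ioo 0 T → ∫⁻ x in Ω, ‖v (t, x)‖ₑ ^ 2 ≤ ENNReal.ofReal C
  /-- `τ ∈ L^∞(0,T;L²)` -/
  bd_τ : ∃ C : ℝ, ∀ᵐ t : ℝ, t ∈ Ioo 0 T → ∫⁻ x in Ω, ‖τ (t, x)‖ₑ ^ 2 ≤ ENNReal.ofReal C
  /-- `τ` is symmetric -/
  symm : ∀ᵐ z : ST n, z ∈ Ioo 0 T ×ˢ Ω → tr (τ z) = τ z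
  /-- momentum equation with initial value, tested with divergence free fields -/
  mom : ∀ Φ : ST n → Eu n, IsVTest Ω T Φ →
    (∫ t in Ioo 0 T, ((∫ x in Ω, (inner ℝ (v (t, x)) (fderiv ℝ Φ (t, x) (1, 0)) +
      inner ℝ (v (t, x)) (fderiv ℝ Φ (t, x) (0, v (t, x))) -
      η * lam2 / lam1 * inner ℝ (G (t, x)) (grad (fun y => Φ (t, y)) x) -
      inner ℝ (τ (t, x)) (grad (fun y => Φ (t, y)) x))) +
      pairV Ω (f t) (fun x => Φ (t, x)))) +
    ∫ x in Ω, inner ℝ (v0 x) (Φ (0, x)) = 0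
  /-- constitutive law with initial value -/
  law : ∀ Ψ : ST n → Mt n, IsMTest Ω T Ψ →
    (∫ t in Ioo 0 T, ∫ x in Ω, (inner ℝ (τ (t, x)) (Ψ (t, x)) -
      lam1 * inner ℝ (τ (t, x)) (fderiv ℝ Ψ (t, x) (1, 0)) -
      lam1 * inner ℝ (τ (t, x)) (fderiv ℝ Ψ (t, x) (0, v (t, x))) +
      lam1 * inner ℝ (br (τ (t, x)) (sp (G (t, x)))) (Ψ (t, x)) -
      2 * η * (1 - lam2 / lam1) * inner ℝ (sy (G (t, x))) (Ψ (t, x)))) -
    lam1 * ∫ x in Ω, inner ℝ (τ0 x) (Ψ (0, x)) = 0

/-- weak solution on `[0,T]` -/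
def IsWeakSol (Ω : Set (Eu n)) (η lam1 lam2 : ℝ) (f : ℝ → VDual Ω)
    (v0 : Eu n → Eu n) (τ0 : Eu n → Mt n) (T : ℝ) (v : ST n → Eu n) (τ : ST n → Mt n) : Prop :=
  ∃ G : ST n → Mt n, IsWeakSolG Ω η lam1 lam2 f v0 τ0 T v G τ

/-- the final statement -/
def FinalStatement : Prop :=
  ∀ (n : ℕ) (Ω : Set (Eu n)), IsOpen Ω → Bornology.IsBounded Ω →
    ∀ (η lam1 lam2 : ℝ), 0 < η → 0 < lam2 → lam2 < lam1 →
    ∀ (v0 : Lp (Eu n) 2 (volume.restrict Ω)), v0 ∈ HH Ω →
    ∀ (τ0 : Lp (Mt n) 2 (volume.restrict Ω)),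
      (∀ᵐ x ∂(volume.restrict Ω), tr (τ0 x) = τ0 x) →
    ∀ (f : ℝ → VDual Ω), AEStronglyMeasurable f (volume.restrict (Ioi 0)) →
      (∀ T : ℝ, 0 < T → IntegrableOn (fun t => ‖f t‖ ^ 2) (Ioo 0 T)) →
    ∃ (v : ST n → Eu n) (τ : ST n → Mt n), ∀ T : ℝ, 0 < T →
      IsWeakSol Ω η lam1 lam2 f v0 τ0 T v τ

end Pool.Agent.Helper42.Jef
end

section
/-! # Integration by parts in the velocity class -/

open MeasureTheory Set Filter Topology
open scoped ENNReal NNReal ContDiff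

namespace Pool.Agent.Helper42.Jef

set_option maxHeartbeats 400000

variable {n : ℕ} {Ω : Set (Eu n)} {T : ℝ}

instance instHaarST : (volume : Measure (ST n)).IsAddHaarMeasure :=
  MeasureTheory.Measure.prod.instIsAddHaarMeasure _ _

/-- approximating sequence -/
theorem IsVel.exists_seq {v : ST n → Eu n} {G : ST n → Mt n} (h : IsVel Ω T v G) :
    ∃ (vs : ℕ → ST n → Eu n) (Gs : ℕ → ST n → Mt n), (∀ k, IsElem Ω T (vs k) (Gs k)) ∧
      Tendsto (fun k => eLpNorm (fun z => vs k z - v z) 2 volume) atTop (𝓝 0) ∧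
      Tendsto (fun k => eLpNorm (fun z => Gs k z - G z) 2 volume) atTop (𝓝 0) ∧
      (∃ C : ℝ, ∀ k, eLpNorm (vs k) 2 volume ≤ ENNReal.ofReal C) ∧
      (∃ C : ℝ, ∀ k, eLpNorm (Gs k) 2 volume ≤ ENNReal.ofReal C) := by
  have h1 : ∀ k : ℕ, ∃ (v' : ST n → Eu n) (G' : ST n → Mt n), IsElem Ω T v' G' ∧
      eLpNorm (v - v') 2 volume ≤ ENNReal.ofReal (1 / ((k : ℝ) + 1)) ∧
      eLpNorm (G - G') 2 volume ≤ ENNReal.ofReal (1 / ((k : ℝ) + 1)) :=
    fun k => h.approx _ (by positivity)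
  choose vs Gs he hv hG using h1
  have h2 : Tendsto (fun k : ℕ => ENNReal.ofReal (1 / ((k : ℝ) + 1))) atTop (𝓝 0) := by
    have := ENNReal.tendsto_ofReal (tendsto_one_div_add_atTop_nhds_zero_nat (𝕜 := ℝ))
    simpa using this
  have hv' : ∀ k, eLpNorm (fun z => vs k z - v z) 2 volume ≤ ENNReal.ofReal (1 / ((k : ℝ) + 1)) := by
    intro k
    have : (fun z => vs k z - v z) = -(v - vs k) := by funext z; simp
    rw [this, eLpNorm_neg]; exact hv k
  have hG' : ∀ k, eLpNorm (fun z => Gs k z - G z) 2 volume ≤ ENNReal.ofReal (1 / ((k : ℝ) + 1)) := by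
    intro k
    have : (fun z => Gs k z - G z) = -(G - Gs k) := by funext z; simp
    rw [this, eLpNorm_neg]; exact hG k
  have hone : ∀ k : ℕ, ENNReal.ofReal (1 / ((k : ℝ) + 1)) ≤ ENNReal.ofReal 1 := by
    intro k
    refine ENNReal.ofReal_le_ofReal ?_
    rw [div_le_one (by positivity)]
    have : (0 : ℝ) ≤ k := Nat.cast_nonneg k
    linarith
  refine ⟨vs, Gs, he, tendsto_of_tendsto_of_tendsto_of_le_of_le tendsto_const_nhds h2
    (fun k => zero_le) hv', tendsto_of_tendsto_of_tendsto_of_le_of_le tendsto_const_nhds h2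
    (fun k => zero_le) hG', ⟨1 + (eLpNorm v 2 volume).toReal, fun k => ?_⟩,
    ⟨1 + (eLpNorm G 2 volume).toReal, fun k => ?_⟩⟩
  · rw [ENNReal.ofReal_add (by norm_num) ENNReal.toReal_nonneg, ENNReal.ofReal_toReal h.memv.2.ne]
    have e : vs k = (fun z => vs k z - v z) + v := by funext z; simp
    calc eLpNorm (vs k) 2 volume = eLpNorm ((fun z => vs k z - v z) + v) 2 volume := by rw [← e]
      _ ≤ eLpNorm (fun z => vs k z - v z) 2 volume + eLpNorm v 2 volume :=
        eLpNorm_add_le ((he k).memLp.1.sub h.memv).1 h.memv.1 (by norm_num)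
      _ ≤ _ := add_le_add ((hv' k).trans (hone k)) le_rfl
  · rw [ENNReal.ofReal_add (by norm_num) ENNReal.toReal_nonneg, ENNReal.ofReal_toReal h.memG.2.ne]
    have e : Gs k = (fun z => Gs k z - G z) + G := by funext z; simp
    calc eLpNorm (Gs k) 2 volume = eLpNorm ((fun z => Gs k z - G z) + G) 2 volume := by rw [← e]
      _ ≤ eLpNorm (fun z => Gs k z - G z) 2 volume + eLpNorm G 2 volume :=
        eLpNorm_add_le ((he k).memLp.2.sub h.memG).1 h.memG.1 (by norm_num)
      _ ≤ _ := add_le_add ((hG' k).trans (hone k)) le_rfl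

/-- a field vanishing a.e. where its approximants vanish -/
theorem ae_zero_of_approx {E : Type*} [NormedAddCommGroup E] {u : ST n → E} {us : ℕ → ST n → E}
    (hu : MemLp u 2 volume) (hus : ∀ k, MemLp (us k) 2 volume)
    (hs : Tendsto (fun k => eLpNorm (fun z => us k z - u z) 2 volume) atTop (𝓝 0))
    {A : Set (ST n)} (hA : MeasurableSet A) (h0 : ∀ k, ∀ z ∈ A, us k z = 0) :
    ∀ᵐ z, z ∈ A → u z = 0 := by
  have h1 : ∀ k, eLpNorm (A.indicator u) 2 volume ≤ eLpNorm (fun z => us k z - u z) 2 volume := by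
    intro k
    refine eLpNorm_mono fun z => ?_
    by_cases hz : z ∈ A
    · rw [indicator_of_mem hz, h0 k z hz, zero_sub, norm_neg]
    · rw [indicator_of_notMem hz, norm_zero]; exact norm_nonneg _
  have h2 : eLpNorm (A.indicator u) 2 volume = 0 := by
    refine le_antisymm ?_ zero_le
    exact ge_of_tendsto hs (Eventually.of_forall h1)
  rw [eLpNorm_eq_zero_iff (hu.1.indicator hA) (by norm_num)] at h2
  filter_upwards [h2] with z hz hzA
  rw [indicator_of_mem hzA] at hz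
  exact hz

theorem IsElem.zero_out {v : ST n → Eu n} {G : ST n → Mt n} (h : IsElem Ω T v G) (z : ST n)
    (hz : z.1 ∉ Ioo 0 T ∨ z.2 ∉ Ω) : v z = 0 ∧ G z = 0 := by
  obtain ⟨N, c, φ, hm, hb, h0, hφ, hv, hG⟩ := h
  rw [hv z, hG z]
  rcases hz with hz | hz
  · exact ⟨Finset.sum_eq_zero fun j _ => by rw [h0 j _ hz, zero_smul],
      Finset.sum_eq_zero fun j _ => by rw [h0 j _ hz, zero_smul]⟩
  · have h1 : ∀ j, φ j z.2 = 0 := fun j =>
      image_eq_zero_of_notMem_tsupport fun hc => hz ((hφ j).supp hc)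
    have h2 : ∀ j, grad (φ j) z.2 = 0 := by
      intro j
      have h3 : fderiv ℝ (φ j) z.2 = 0 := by
        have h4 : z.2 ∉ tsupport (fderiv ℝ (φ j)) := fun hc =>
          hz ((hφ j).supp (tsupport_fderiv_subset ℝ hc))
        exact image_eq_zero_of_notMem_tsupport h4
      rw [grad_eq, h3, map_zero]
    exact ⟨Finset.sum_eq_zero fun j _ => by rw [h1, smul_zero],
      Finset.sum_eq_zero fun j _ => by rw [h2, smul_zero]⟩

theorem IsVel.zero_out {v : ST n → Eu n} {G : ST n → Mt n} (h : IsVel Ω T v G)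
    (hΩ : MeasurableSet Ω) :
    (∀ᵐ z : ST n, (z.1 ∉ Ioo 0 T ∨ z.2 ∉ Ω) → v z = 0) ∧
    (∀ᵐ z : ST n, (z.1 ∉ Ioo 0 T ∨ z.2 ∉ Ω) → G z = 0) := by
  obtain ⟨vs, Gs, he, h1, h2, -, -⟩ := h.exists_seq
  have hA : MeasurableSet {z : ST n | z.1 ∉ Ioo 0 T ∨ z.2 ∉ Ω} := by
    have h3 : MeasurableSet {z : ST n | z.1 ∈ Ioo 0 T} := measurable_fst measurableSet_Ioo
    have h4 : MeasurableSet {z : ST n | z.2 ∈ Ω} := measurable_snd hΩ
    exact h3.compl.union h4.compl
  exact ⟨ae_zero_of_approx h.memv (fun k => (he k).memLp.1) h1 hA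
      fun k z hz => ((he k).zero_out z hz).1,
    ae_zero_of_approx h.memG (fun k => (he k).memLp.2) h2 hA
      fun k z hz => ((he k).zero_out z hz).2⟩

theorem IsElem.trace {v : ST n → Eu n} {G : ST n → Mt n} (h : IsElem Ω T v G) (z : ST n) :
    ∑ i, G z (i, i) = 0 := by
  obtain ⟨N, c, φ, hm, hb, h0, hφ, hv, hG⟩ := h
  rw [hG z]
  have h1 : ∀ i, (∑ j, c j z.1 • grad (φ j) z.2 : Mt n) (i, i) =
      ∑ j, c j z.1 * grad (φ j) z.2 (i, i) := by
    intro i
    simp
  simp only [h1]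
  rw [Finset.sum_comm]
  refine Finset.sum_eq_zero fun j _ => ?_
  rw [← Finset.mul_sum, ← dvg_eq_grad, (hφ j).div0, mul_zero]

theorem IsVel.trace {v : ST n → Eu n} {G : ST n → Mt n} (h : IsVel Ω T v G) :
    ∀ᵐ z : ST n, ∑ i, G z (i, i) = 0 := by
  obtain ⟨vs, Gs, he, h1, h2, -, -⟩ := h.exists_seq
  let L : Mt n →L[ℝ] ℝ := LinearMap.toContinuousLinearMap
    { toFun := fun A => ∑ i, A (i, i)
      map_add' := by intro A B; simp [Finset.sum_add_distrib]
      map_smul' := by intro c A; simp [Finset.mul_sum] }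
  have hL : ∀ A : Mt n, L A = ∑ i, A (i, i) := fun A => rfl
  have h3 := ae_zero_of_approx (u := fun z => L (G z)) (us := fun k z => L (Gs k z))
    (L.comp_memLp' h.memG) (fun k => L.comp_memLp' (he k).memLp.2) ?_ MeasurableSet.univ
    (fun k z _ => by rw [hL]; exact (he k).trace z)
  · filter_upwards [h3] with z hz
    exact hz trivial
  · have h4 : ∀ k, eLpNorm (fun z => L (Gs k z) - L (G z)) 2 volume ≤
        ENNReal.ofReal ‖L‖ * eLpNorm (fun z => Gs k z - G z) 2 volume := by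
      intro k
      refine eLpNorm_le_mul_eLpNorm_of_ae_le_mul (Eventually.of_forall fun z => ?_) 2
      rw [← map_sub]
      exact L.le_opNorm _
    have h5 : Tendsto (fun k => ENNReal.ofReal ‖L‖ * eLpNorm (fun z => Gs k z - G z) 2 volume)
        atTop (𝓝 0) := by
      have := ENNReal.Tendsto.const_mul h2 (Or.inr (ENNReal.ofReal_ne_top (r := ‖L‖)))
      simpa using this
    exact tendsto_of_tendsto_of_tendsto_of_le_of_le tendsto_const_nhds h5 (fun k => zero_le) h4

/-- line derivative of an elementary field in space directions -/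
theorem IsElem.lineDeriv {v : ST n → Eu n} {G : ST n → Mt n} (h : IsElem Ω T v G) (z : ST n)
    (i j : Fin n) : HasLineDerivAt ℝ (fun z => v z i) (G z (i, j)) z (0, bv j) := by
  obtain ⟨N, c, φ, hm, hb, h0, hφ, hv, hG⟩ := h
  have h1 : ∀ k, HasDerivAt (fun s : ℝ => (c k z.1) * (φ k (z.2 + s • bv j)) i)
      (c k z.1 * grad (φ k) z.2 (i, j)) 0 := by
    intro k
    have h2 : HasLineDerivAt ℝ (φ k) (fderiv ℝ (φ k) z.2 (bv j)) z.2 (bv j) :=
      ((hφ k).diff z.2).hasFDerivAt.hasLineDerivAt (bv j)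
    have h3 : HasDerivAt (fun s : ℝ => φ k (z.2 + s • bv j)) (fderiv ℝ (φ k) z.2 (bv j)) 0 := h2
    have h4 : HasDerivAt (fun s : ℝ => (φ k (z.2 + s • bv j)) i)
        ((fderiv ℝ (φ k) z.2 (bv j)) i) 0 :=
      (EuclideanSpace.proj (𝕜 := ℝ) i).hasFDerivAt.comp_hasDerivAt (0 : ℝ) h3
    exact h4.const_mul _
  have h5 := HasDerivAt.fun_sum (u := Finset.univ) fun k _ => h1 k
  have h6 : (fun s : ℝ => v (z + s • ((0 : ℝ), (bv j : Eu n))) i) =
      fun s => ∑ k, (c k z.1) * (φ k (z.2 + s • bv j)) i := by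
    funext s
    rw [hv]
    simp
  have h7 : G z (i, j) = ∑ k, c k z.1 * grad (φ k) z.2 (i, j) := by
    rw [hG]; simp
  show HasDerivAt (fun s : ℝ => v (z + s • ((0 : ℝ), (bv j : Eu n))) i) (G z (i, j)) 0
  rw [h6, h7]
  exact h5

/-- basic integration by parts for elementary fields -/
theorem IsElem.ibp {v : ST n → Eu n} {G : ST n → Mt n} (h : IsElem Ω T v G) (i j : Fin n)
    {f f' : ST n → ℝ} (hf : ∀ z, HasLineDerivAt ℝ f (f' z) z (0, bv j))
    (h1 : Integrable (fun z => v z i * f' z)) (h2 : Integrable (fun z => G z (i, j) * f z))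
    (h3 : Integrable (fun z => v z i * f z)) :
    ∫ z, v z i * f' z = - ∫ z, G z (i, j) * f z := by
  have := integral_bilinear_hasLineDerivAt_right_eq_neg_left_of_integrable
    (μ := (volume : Measure (ST n))) (f := fun z => v z i) (f' := fun z => G z (i, j)) (g := f)
    (g' := f') (v := ((0 : ℝ), (bv j : Eu n))) (B := ContinuousLinearMap.mul ℝ ℝ) h2 h1 h3
    (fun z _ => h.lineDeriv z i j) (fun z _ => hf z)
  exact this

/-- divergence free fields are orthogonal to gradients (elementary fields) -/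
theorem IsElem.div {v : ST n → Eu n} {G : ST n → Mt n} (h : IsElem Ω T v G)
    {f : ST n → ℝ} {f' : Fin n → ST n → ℝ} (hf : ∀ j z, HasLineDerivAt ℝ f (f' j z) z (0, bv j))
    (h1 : ∀ j, Integrable (fun z => v z j * f' j z))
    (h2 : ∀ j, Integrable (fun z => G z (j, j) * f z))
    (h3 : ∀ j, Integrable (fun z => v z j * f z)) :
    ∫ z, ∑ j, v z j * f' j z = 0 := by
  rw [integral_finsetSum _ fun j _ => h1 j]
  have h4 : ∀ j, ∫ z, v z j * f' j z = - ∫ z, G z (j, j) * f z := fun j =>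
    h.ibp j j (hf j) (h1 j) (h2 j) (h3 j)
  simp only [h4]
  rw [Finset.sum_neg_distrib, ← integral_finsetSum _ fun j _ => h2 j]
  have h5 : ∫ z, ∑ j, G z (j, j) * f z = 0 := by
    have : (fun z => ∑ j, G z (j, j) * f z) = fun _ => (0 : ℝ) := by
      funext z
      rw [← Finset.sum_mul, h.trace, zero_mul]
    rw [this]; simp
  rw [h5, neg_zero]

end Pool.Agent.Helper42.Jef
end

section
/-! # A countable `C¹`-dense family of pairs of test fields -/

open MeasureTheory Set Filter Topology Metric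
open scoped ENNReal NNReal ContDiff

namespace Pool.Agent.Helper42.Jef

set_option maxHeartbeats 400000

variable {n : ℕ} {Ω : Set (Eu n)}

/-- target of the `C¹` embedding -/
abbrev WW (n : ℕ) := (Eu n × Mt n) × ((Eu n →L[ℝ] Eu n) × (Eu n →L[ℝ] Mt n))

/-- `C¹` jet of a pair of test fields on the closed ball of radius `R` -/
noncomputable def jet (R : ℝ) (p : DD Ω) : C(closedBall (0 : Eu n) R, WW n) where
  toFun x := ((vf p x, tf p x), (fderiv ℝ (vf p) x, fderiv ℝ (tf p) x))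
  continuous_toFun := by
    have h1 : Continuous (vf p) := (vf_smooth p).continuous
    have h2 : Continuous (tf p) := (tf_smooth p).continuous
    have h3 : Continuous (fderiv ℝ (vf p)) := (vf_smooth p).continuous_fderiv (by simp)
    have h4 : Continuous (fderiv ℝ (tf p)) := (tf_smooth p).continuous_fderiv (by simp)
    exact ((h1.comp continuous_subtype_val).prodMk (h2.comp continuous_subtype_val)).prodMk
      ((h3.comp continuous_subtype_val).prodMk (h4.comp continuous_subtype_val))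

/-- both components vanish outside the closed ball of radius `R` -/
def Van (R : ℝ) (p : DD Ω) : Prop := ∀ x, R < ‖x‖ → vf p x = 0 ∧ tf p x = 0

theorem Van.fderiv {R : ℝ} {p : DD Ω} (h : Van R p) (x : Eu n) (hx : R < ‖x‖) :
    fderiv ℝ (vf p) x = 0 ∧ fderiv ℝ (tf p) x = 0 := by
  have ho : IsOpen {y : Eu n | R < ‖y‖} := isOpen_lt continuous_const continuous_norm
  have hn : {y : Eu n | R < ‖y‖} ∈ 𝓝 x := ho.mem_nhds hx
  constructor
  · have h1 : vf p =ᶠ[𝓝 x] fun _ => 0 := by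
      filter_upwards [hn] with y hy
      exact (h y hy).1
    rw [h1.fderiv_eq]; simp
  · have h1 : tf p =ᶠ[𝓝 x] fun _ => 0 := by
      filter_upwards [hn] with y hy
      exact (h y hy).2
    rw [h1.fderiv_eq]; simp

theorem exists_van (p : DD Ω) : ∃ N : ℕ, Van (N : ℝ) p := by
  obtain ⟨R1, h1⟩ := (vf_cpt p).isCompact.isBounded.subset_closedBall (0 : Eu n)
  obtain ⟨R2, h2⟩ := (tf_cpt p).isCompact.isBounded.subset_closedBall (0 : Eu n)
  obtain ⟨N, hN⟩ := exists_nat_ge (max R1 R2)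
  refine ⟨N, fun x hx => ⟨?_, ?_⟩⟩
  · by_contra h0
    have := h1 (subset_closure h0)
    rw [mem_closedBall_zero_iff] at this
    linarith [le_max_left R1 R2]
  · by_contra h0
    have := h2 (subset_closure h0)
    rw [mem_closedBall_zero_iff] at this
    linarith [le_max_right R1 R2]

theorem dense_seq (Ω : Set (Eu n)) :
    ∃ d : ℕ → DD Ω, ∀ p : DD Ω, ∃ R : ℝ, Van R p ∧ ∀ ε : ℝ, 0 < ε → ∃ i, Van R (d i) ∧
      (∀ x, ‖vf (d i) x - vf p x‖ ≤ ε) ∧ (∀ x, ‖tf (d i) x - tf p x‖ ≤ ε) ∧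
      (∀ x, ‖fderiv ℝ (vf (d i)) x - fderiv ℝ (vf p) x‖ ≤ ε) ∧
      (∀ x, ‖fderiv ℝ (tf (d i)) x - fderiv ℝ (tf p) x‖ ≤ ε) := by
  classical
  have key : ∀ N : ℕ, ∃ P : Set (DD Ω), P.Countable ∧ (∀ q ∈ P, Van (N : ℝ) q) ∧
      ∀ p : DD Ω, Van (N : ℝ) p → ∀ ε : ℝ, 0 < ε → ∃ q ∈ P, dist (jet (N : ℝ) q) (jet (N : ℝ) p) < ε := by
    intro N
    have hs : TopologicalSpace.IsSeparable (jet (N : ℝ) '' {p : DD Ω | Van (N : ℝ) p}) :=
      TopologicalSpace.IsSeparable.of_separableSpace _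
    obtain ⟨t, ht, htc, hts⟩ := hs.exists_countable_dense_subset
    have hch : ∀ f : t, ∃ q : DD Ω, Van (N : ℝ) q ∧ jet (N : ℝ) q = f := by
      intro f
      obtain ⟨q, hq, hqf⟩ := ht f.2
      exact ⟨q, hq, hqf⟩
    choose q hq hqf using hch
    refine ⟨range q, ?_, ?_, ?_⟩
    · haveI := htc.to_subtype
      exact countable_range q
    · rintro _ ⟨f, rfl⟩; exact hq f
    · intro p hp ε hε
      have h1 : jet (N : ℝ) p ∈ closure t := hts ⟨p, hp, rfl⟩
      obtain ⟨f, hf, hd⟩ := (Metric.mem_closure_iff (α := C(closedBall (0 : Eu n) (N : ℝ), WW n))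
        (s := t) (a := jet (N : ℝ) p)).1 h1 ε hε
      refine ⟨q ⟨f, hf⟩, ⟨_, rfl⟩, ?_⟩
      rw [hqf, dist_comm]; exact hd
  choose P hPc hPv hPd using key
  have hc : (⋃ N, P N ∪ {0}).Countable := countable_iUnion fun N => (hPc N).union (countable_singleton _)
  have hne : (⋃ N, P N ∪ {0}).Nonempty := ⟨0, mem_iUnion.2 ⟨0, Or.inr rfl⟩⟩
  obtain ⟨d, hd⟩ := hc.exists_eq_range hne
  refine ⟨d, fun p => ?_⟩
  obtain ⟨N, hN⟩ := exists_van p
  refine ⟨N, hN, fun ε hε => ?_⟩
  obtain ⟨q, hq, hqd⟩ := hPd N p hN ε hε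
  have hq' : q ∈ range d := by
    rw [← hd]
    exact mem_iUnion.2 ⟨N, Or.inl hq⟩
  obtain ⟨i, rfl⟩ := hq'
  have hv := hPv N _ hq
  have hjet : ∀ x : closedBall (0 : Eu n) (N : ℝ),
      dist (jet (N : ℝ) (d i) x) (jet (N : ℝ) p x) ≤ ε := fun x =>
    (ContinuousMap.dist_apply_le_dist x).trans hqd.le
  have hball : ∀ x : Eu n, ¬ ((N : ℝ) < ‖x‖) → x ∈ closedBall (0 : Eu n) (N : ℝ) := by
    intro x hx
    rw [mem_closedBall_zero_iff]; linarith
  refine ⟨i, hv, fun x => ?_, fun x => ?_, fun x => ?_, fun x => ?_⟩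
  · by_cases hx : (N : ℝ) < ‖x‖
    · rw [(hv x hx).1, (hN x hx).1, sub_zero, norm_zero]; exact hε.le
    · have := hjet ⟨x, hball x hx⟩
      rw [← dist_eq_norm]
      refine le_trans ?_ this
      exact le_trans (le_max_left _ _) (le_max_left _ _)
  · by_cases hx : (N : ℝ) < ‖x‖
    · rw [(hv x hx).2, (hN x hx).2, sub_zero, norm_zero]; exact hε.le
    · have := hjet ⟨x, hball x hx⟩
      rw [← dist_eq_norm]
      refine le_trans ?_ this
      exact le_trans (le_max_right _ _) (le_max_left _ _)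
  · by_cases hx : (N : ℝ) < ‖x‖
    · rw [(hv.fderiv x hx).1, (hN.fderiv x hx).1, sub_zero, norm_zero]; exact hε.le
    · have := hjet ⟨x, hball x hx⟩
      rw [← dist_eq_norm]
      refine le_trans ?_ this
      exact le_trans (le_max_left _ _) (le_max_right _ _)
  · by_cases hx : (N : ℝ) < ‖x‖
    · rw [(hv.fderiv x hx).2, (hN.fderiv x hx).2, sub_zero, norm_zero]; exact hε.le
    · have := hjet ⟨x, hball x hx⟩
      rw [← dist_eq_norm]
      refine le_trans ?_ this
      exact le_trans (le_max_right _ _) (le_max_right _ _)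

end Pool.Agent.Helper42.Jef
end

section
/-! # The multilinear forms of the Galerkin scheme -/

open MeasureTheory Set Filter Topology
open scoped ENNReal NNReal ContDiff

namespace Pool.Agent.Helper42.Jef

set_option maxHeartbeats 400000

variable {n : ℕ} {Ω : Set (Eu n)}

section abstractforms

variable {D : Type*} [AddCommGroup D] [Module ℝ D] {α : Type*} [MeasurableSpace α] {μ : Measure α}

/-- bilinear form from a pointwise bilinear integrand -/
noncomputable def mkBi (I : D → D → α → ℝ) (hi : ∀ U V, Integrable (I U V) μ)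
    (a1 : ∀ U U' V x, I (U + U') V x = I U V x + I U' V x)
    (s1 : ∀ (c : ℝ) U V x, I (c • U) V x = c * I U V x)
    (a2 : ∀ U V V' x, I U (V + V') x = I U V x + I U V' x)
    (s2 : ∀ (c : ℝ) U V x, I U (c • V) x = c * I U V x) : D →ₗ[ℝ] D →ₗ[ℝ] ℝ :=
  LinearMap.mk₂ ℝ (fun U V => ∫ x, I U V x ∂μ)
    (fun U U' V => by simp only [a1]; exact integral_add (hi _ _) (hi _ _))
    (fun c U V => by simp only [s1]; rw [integral_const_mul]; rfl)
    (fun U V V' => by simp only [a2]; exact integral_add (hi _ _) (hi _ _))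
    (fun c U V => by simp only [s2]; rw [integral_const_mul]; rfl)

/-- trilinear form from a pointwise trilinear integrand -/
noncomputable def mkTri (I : D → D → D → α → ℝ) (hi : ∀ U V Z, Integrable (I U V Z) μ)
    (a1 : ∀ U U' V Z x, I (U + U') V Z x = I U V Z x + I U' V Z x)
    (s1 : ∀ (c : ℝ) U V Z x, I (c • U) V Z x = c * I U V Z x)
    (a2 : ∀ U V V' Z x, I U (V + V') Z x = I U V Z x + I U V' Z x)
    (s2 : ∀ (c : ℝ) U V Z x, I U (c • V) Z x = c * I U V Z x)
    (a3 : ∀ U V Z Z' x, I U V (Z + Z') x = I U V Z x + I U V Z' x)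
    (s3 : ∀ (c : ℝ) U V Z x, I U V (c • Z) x = c * I U V Z x) :
    D →ₗ[ℝ] D →ₗ[ℝ] D →ₗ[ℝ] ℝ where
  toFun U := mkBi (μ := μ) (I U) (hi U) (fun V V' Z x => a2 U V V' Z x)
    (fun c V Z x => s2 c U V Z x) (fun V Z Z' x => a3 U V Z Z' x) (fun c V Z x => s3 c U V Z x)
  map_add' U U' := by
    ext V Z
    show ∫ x, I (U + U') V Z x ∂μ = ∫ x, I U V Z x ∂μ + ∫ x, I U' V Z x ∂μ
    simp only [a1]; exact integral_add (hi _ _ _) (hi _ _ _)
  map_smul' c U := by
    ext V Z
    show ∫ x, I (c • U) V Z x ∂μ = c * ∫ x, I U V Z x ∂μ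
    simp only [s1]; rw [integral_const_mul]

end abstractforms

/-! ## mollified spin of a test field -/

theorem rho_cont (n : ℕ) : Continuous (rho n) := by
  unfold rho
  exact (ContDiffBump.contDiff_normed (n := 0) _).continuous

theorem rho_smooth (n : ℕ) : ContDiff ℝ ∞ (rho n) := by
  unfold rho
  exact ContDiffBump.contDiff_normed _

theorem rho_cpt (n : ℕ) : HasCompactSupport (rho n) := by
  unfold rho
  exact ContDiffBump.hasCompactSupport_normed _

theorem rho_nonneg (x : Eu n) : 0 ≤ rho n x := by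
  unfold rho
  exact ContDiffBump.nonneg_normed _ _

theorem rho_integral (n : ℕ) : ∫ x, rho n x = 1 := by
  unfold rho
  exact ContDiffBump.integral_normed _

theorem rho_supp {x : Eu n} (hx : 1 ≤ ‖x‖) : rho n x = 0 := by
  have h : x ∉ Function.support (rho n) := by
    unfold rho
    rw [ContDiffBump.support_normed_eq]
    simp only [Metric.mem_ball, dist_zero_right, not_lt]
    exact hx
  simpa using h

theorem ro_smooth (ε : ℝ) : ContDiff ℝ ∞ (ro ε : Eu n → ℝ) := by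
  unfold ro
  exact contDiff_const.mul ((rho_smooth n).comp (contDiff_const_smul _))

theorem ro_cont (ε : ℝ) : Continuous (ro ε : Eu n → ℝ) := (ro_smooth ε).continuous

theorem ro_cpt {ε : ℝ} (hε : 0 < ε) : HasCompactSupport (ro ε : Eu n → ℝ) := by
  have h1 : HasCompactSupport (fun x : Eu n => rho n (ε⁻¹ • x)) :=
    (rho_cpt n).comp_homeomorph (Homeomorph.smulOfNeZero ε⁻¹ (inv_ne_zero hε.ne'))
  exact h1.mul_left

theorem ro_nonneg {ε : ℝ} (hε : 0 < ε) (x : Eu n) : 0 ≤ ro ε x :=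
  mul_nonneg (by positivity) (rho_nonneg _)

theorem ro_integral {ε : ℝ} (hε : 0 < ε) : ∫ x : Eu n, ro ε x = 1 := by
  unfold ro
  rw [integral_const_mul, Measure.integral_comp_smul, rho_integral, finrank_euclideanSpace,
    Fintype.card_fin, smul_eq_mul, mul_one, inv_pow, inv_inv, abs_of_pos (by positivity)]
  field_simp

theorem ro_integrable {ε : ℝ} (hε : 0 < ε) : Integrable (ro ε : Eu n → ℝ) :=
  (ro_cont ε).integrable_of_hasCompactSupport (ro_cpt hε)

theorem ro_lint {ε : ℝ} (hε : 0 < ε) : ∫⁻ x : Eu n, ‖ro ε x‖ₑ = 1 := by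
  have h1 : ∫⁻ x : Eu n, ‖ro ε x‖ₑ = ∫⁻ x : Eu n, ENNReal.ofReal (ro ε x) := by
    refine lintegral_congr fun x => ?_
    rw [Real.enorm_eq_ofReal (ro_nonneg hε x)]
  rw [h1, ← ofReal_integral_eq_lintegral_ofReal (ro_integrable hε)
    (Eventually.of_forall (ro_nonneg hε)), ro_integral hε, ENNReal.ofReal_one]

/-- mollified, cut off spin of a pair of test fields -/
noncomputable def sm (δ : ℝ) (U : DD Ω) (x : Eu n) : Mt n :=
  Ω.indicator (fun _ => ∫ y, ro δ (x - y) • sp (grad (vf U) y)) x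

theorem sm_int {δ : ℝ} (hδ : 0 < δ) (U : DD Ω) (x : Eu n) :
    Integrable (fun y => ro δ (x - y) • sp (grad (vf U) y)) := by
  have h1 : Continuous fun y => ro δ (x - y) • sp (grad (vf U) y) :=
    ((ro_cont δ).comp (continuous_const.sub continuous_id)).smul
      ((spL n).continuous.comp (vf_vt U).grad_cont)
  refine h1.integrable_of_hasCompactSupport ?_
  refine (vf_vt U).grad_cpt.mono' ?_
  intro y hy
  refine subset_closure fun h0 => hy ?_
  have h0' : grad (vf U) y = 0 := h0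
  show ro δ (x - y) • sp (grad (vf U) y) = 0
  rw [h0', show sp (0 : Mt n) = 0 from (spL n).map_zero, smul_zero]

theorem sm_add {δ : ℝ} (hδ : 0 < δ) (U V : DD Ω) (x : Eu n) :
    sm δ (U + V) x = sm δ U x + sm δ V x := by
  by_cases hx : x ∈ Ω
  · simp only [sm, indicator_of_mem hx]
    rw [← integral_add (sm_int hδ U x) (sm_int hδ V x)]
    refine integral_congr_ae (Eventually.of_forall fun y => ?_)
    simp only [vf_add]
    rw [grad_add (vf_diff U) (vf_diff V), ← smul_add]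
    congr 1
    exact (spL n).map_add _ _
  · simp only [sm, indicator_of_notMem hx, add_zero]

theorem sm_smul (δ : ℝ) (c : ℝ) (U : DD Ω) (x : Eu n) : sm δ (c • U) x = c • sm δ U x := by
  by_cases hx : x ∈ Ω
  · simp only [sm, indicator_of_mem hx]
    rw [← integral_smul]
    refine integral_congr_ae (Eventually.of_forall fun y => ?_)
    simp only [vf_smul]
    rw [grad_smul (vf_diff U), smul_comm]
    congr 1
    exact (spL n).map_smul _ _
  · simp only [sm, indicator_of_notMem hx, smul_zero]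

theorem sm_antisym {δ : ℝ} (hδ : 0 < δ) (U : DD Ω) (x : Eu n) :
    tr (sm δ U x) = - sm δ U x := by
  by_cases hx : x ∈ Ω
  · simp only [sm, indicator_of_mem hx]
    have h1 : tr (∫ y, ro δ (x - y) • sp (grad (vf U) y)) =
        ∫ y, tr (ro δ (x - y) • sp (grad (vf U) y)) :=
      ((trL n).integral_comp_comm (sm_int hδ U x)).symm
    rw [h1, ← integral_neg]
    refine integral_congr_ae (Eventually.of_forall fun y => ?_)
    simp only [tr_smul, tr_sp, smul_neg]
  · simp only [sm, indicator_of_notMem hx, neg_zero]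
    exact (trL n).map_zero

theorem sm_bound {δ : ℝ} (hδ : 0 < δ) (U : DD Ω) : ∃ C : ℝ, ∀ x, ‖sm δ U x‖ ≤ C := by
  obtain ⟨C, hC⟩ := (vf_vt U).grad_cont.bounded_above_of_compact_support (vf_vt U).grad_cpt
  have hC0 : 0 ≤ C := (norm_nonneg _).trans (hC 0)
  refine ⟨C, fun x => ?_⟩
  by_cases hx : x ∈ Ω
  · simp only [sm, indicator_of_mem hx]
    have hi : Integrable (fun y : Eu n => ro δ (x - y)) := by
      have := (ro_integrable (n := n) hδ).comp_sub_left x
      exact this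
    calc ‖∫ y, ro δ (x - y) • sp (grad (vf U) y)‖
        ≤ ∫ y, ‖ro δ (x - y) • sp (grad (vf U) y)‖ := norm_integral_le_integral_norm _
      _ ≤ ∫ y, ro δ (x - y) * C := by
          refine integral_mono (sm_int hδ U x).norm (hi.mul_const _) fun y => ?_
          rw [norm_smul, Real.norm_eq_abs, abs_of_nonneg (ro_nonneg hδ _)]
          exact mul_le_mul_of_nonneg_left ((norm_sp_le _).trans (hC y)) (ro_nonneg hδ _)
      _ = C := by
          rw [integral_mul_const, integral_sub_left_eq_self (fun y => ro δ y) volume x,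
            ro_integral hδ, one_mul]
  · simp only [sm, indicator_of_notMem hx, norm_zero]
    exact hC0

theorem sm_meas (hΩ : MeasurableSet Ω) (δ : ℝ) (U : DD Ω) :
    AEStronglyMeasurable (sm δ U) volume := by
  have h1 : Continuous (fun p : Eu n × Eu n => ro δ (p.1 - p.2) • sp (grad (vf U) p.2)) :=
    ((ro_cont δ).comp (continuous_fst.sub continuous_snd)).smul
      (((spL n).continuous.comp (vf_vt U).grad_cont).comp continuous_snd)
  have h2 : AEStronglyMeasurable (fun x => ∫ y, ro δ (x - y) • sp (grad (vf U) y)) volume :=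
    h1.aestronglyMeasurable.integral_prod_right'
  exact h2.indicator hΩ

/-! ## the trilinear form -/

/-- integrand of the trilinear form -/
noncomputable def Ib (δ : ℝ) (U V Z : DD Ω) (x : Eu n) : ℝ :=
  inner ℝ (vf V x) (fderiv ℝ (vf Z) x (vf U x)) + inner ℝ (tf V x) (fderiv ℝ (tf Z) x (vf U x)) -
    inner ℝ (br (tf V x) (sm δ U x)) (tf Z x)

theorem cc_integrable {f : Eu n → ℝ} (hc : Continuous f) {g : Eu n → Eu n}
    (hg : HasCompactSupport g) (h : ∀ x, g x = 0 → f x = 0) : Integrable f := by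
  refine hc.integrable_of_hasCompactSupport (hg.mono' fun x hx => subset_closure fun h0 => hx (h x h0))

theorem Ib_int (hΩ : MeasurableSet Ω) {δ : ℝ} (hδ : 0 < δ) (U V Z : DD Ω) :
    Integrable (Ib δ U V Z) := by
  have cU := (vf_smooth U).continuous
  have cV := (vf_smooth V).continuous
  have cV' := (tf_smooth V).continuous
  have cZ' := (tf_smooth Z).continuous
  have h1 : Integrable (fun x => inner ℝ (vf V x) (fderiv ℝ (vf Z) x (vf U x))) := by
    refine cc_integrable (cV.inner (((vf_smooth Z).continuous_fderiv (by simp)).clm_apply cU))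
      (vf_cpt U) fun x hx => ?_
    rw [hx, map_zero, inner_zero_right]
  have h2 : Integrable (fun x => inner ℝ (tf V x) (fderiv ℝ (tf Z) x (vf U x))) := by
    refine cc_integrable (cV'.inner (((tf_smooth Z).continuous_fderiv (by simp)).clm_apply cU))
      (vf_cpt U) fun x hx => ?_
    rw [hx, map_zero, inner_zero_right]
  have h3 : Integrable (fun x => inner ℝ (br (tf V x) (sm δ U x)) (tf Z x)) := by
    obtain ⟨C, hC⟩ := sm_bound hδ U
    have h4 : Integrable (fun x => ‖tf V x‖ * ‖tf Z x‖) := by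
      refine (cV'.norm.mul cZ'.norm).integrable_of_hasCompactSupport ?_
      refine (tf_cpt Z).mono' fun x hx => subset_closure fun h0 => hx ?_
      have h0' : tf Z x = 0 := h0
      simp [h0']
    refine (h4.const_mul (2 * C)).mono' ?_ (Eventually.of_forall fun x => ?_)
    · exact ((brL n).aestronglyMeasurable_comp₂ cV'.aestronglyMeasurable
        (sm_meas hΩ δ U)).inner cZ'.aestronglyMeasurable
    · calc ‖inner ℝ (br (tf V x) (sm δ U x)) (tf Z x)‖ ≤ ‖br (tf V x) (sm δ U x)‖ * ‖tf Z x‖ :=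
          norm_inner_le_norm _ _
        _ ≤ (2 * (‖tf V x‖ * ‖sm δ U x‖)) * ‖tf Z x‖ :=
          mul_le_mul_of_nonneg_right (norm_br_le _ _) (norm_nonneg _)
        _ ≤ (2 * (‖tf V x‖ * C)) * ‖tf Z x‖ := by
          refine mul_le_mul_of_nonneg_right ?_ (norm_nonneg _)
          exact mul_le_mul_of_nonneg_left (mul_le_mul_of_nonneg_left (hC x) (norm_nonneg _))
            (by norm_num)
        _ = _ := by ring
  exact (h1.add h2).sub h3

noncomputable def bform (hΩ : MeasurableSet Ω) {δ : ℝ} (hδ : 0 < δ) :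
    DD Ω →ₗ[ℝ] DD Ω →ₗ[ℝ] DD Ω →ₗ[ℝ] ℝ :=
  mkTri (μ := volume) (Ib δ) (Ib_int hΩ hδ)
    (fun U U' V Z x => by
      simp only [Ib, vf_add, Pi.add_apply, map_add, inner_add_right, sm_add hδ, br_add_right,
        inner_add_left]
      ring)
    (fun c U V Z x => by
      simp only [Ib, vf_smul, Pi.smul_apply, map_smul, inner_smul_right, sm_smul, br_smul_right,
        inner_smul_left, conj_trivial]
      ring)
    (fun U V V' Z x => by
      simp only [Ib, vf_add, tf_add, Pi.add_apply, inner_add_left, br_add_left]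
      ring)
    (fun c U V Z x => by
      simp only [Ib, vf_smul, tf_smul, Pi.smul_apply, inner_smul_left, br_smul_left, conj_trivial]
      ring)
    (fun U V Z Z' x => by
      simp only [Ib, vf_add, tf_add, fderiv_add (vf_diff Z x) (vf_diff Z' x),
        fderiv_add (tf_diff Z x) (tf_diff Z' x), Pi.add_apply, ContinuousLinearMap.add_apply,
        inner_add_right]
      ring)
    (fun c U V Z x => by
      simp only [Ib, vf_smul, tf_smul, fderiv_const_smul (vf_diff Z x),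
        fderiv_const_smul (tf_diff Z x), Pi.smul_apply, ContinuousLinearMap.smul_apply,
        inner_smul_right]
      ring)

theorem bform_apply (hΩ : MeasurableSet Ω) {δ : ℝ} (hδ : 0 < δ) (U V Z : DD Ω) :
    bform hΩ hδ U V Z = ∫ x, Ib δ U V Z x := rfl

/-! ## the bilinear form -/

noncomputable def Il (μ a c : ℝ) (U Z : DD Ω) (x : Eu n) : ℝ :=
  - (μ * inner ℝ (grad (vf U) x) (grad (vf Z) x)) - c * inner ℝ (tf U x) (sy (grad (vf Z) x)) -
    a * inner ℝ (tf U x) (tf Z x) + c * inner ℝ (sy (grad (vf U) x)) (tf Z x)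

theorem sy_cont {α : Type*} [TopologicalSpace α] {f : α → Mt n} (h : Continuous f) :
    Continuous (fun x => sy (f x)) := (syL n).continuous.comp h

theorem Il_int (μ a c : ℝ) (U Z : DD Ω) : Integrable (Il μ a c U Z) := by
  have cU := (vf_vt U).grad_cont
  have cZ := (vf_vt Z).grad_cont
  have cU' := (tf_smooth U).continuous
  have cZ' := (tf_smooth Z).continuous
  have hs : ∀ (f : Eu n → ℝ), Continuous f → (∀ x, vf Z x = 0 → grad (vf Z) x = 0 → tf Z x = 0 → f x = 0) →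
      Integrable f := by
    intro f hf h0
    refine hf.integrable_of_hasCompactSupport ?_
    have hK : IsCompact (tsupport (vf Z) ∪ (tsupport (grad (vf Z)) ∪ tsupport (tf Z))) :=
      (vf_cpt Z).isCompact.union ((vf_vt Z).grad_cpt.isCompact.union (tf_cpt Z).isCompact)
    refine HasCompactSupport.intro hK fun x hx => ?_
    simp only [mem_union, not_or] at hx
    exact h0 x (image_eq_zero_of_notMem_tsupport hx.1) (image_eq_zero_of_notMem_tsupport hx.2.1)
      (image_eq_zero_of_notMem_tsupport hx.2.2)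
  have h1 := hs (Il μ a c U Z) (by
    unfold Il
    exact (((continuous_const.mul (cU.inner cZ)).neg.sub
      (continuous_const.mul (cU'.inner (sy_cont cZ)))).sub
      (continuous_const.mul (cU'.inner cZ'))).add (continuous_const.mul ((sy_cont cU).inner cZ')))
    (by
      intro x _ h2 h3
      simp only [Il, h2, h3, inner_zero_right, mul_zero, show sy (0 : Mt n) = 0 from (syL n).map_zero]
      ring)
  exact h1

noncomputable def lform (Ω : Set (Eu n)) (μ a c : ℝ) : DD Ω →ₗ[ℝ] DD Ω →ₗ[ℝ] ℝ :=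
  mkBi (μ := volume) (Il μ a c) (Il_int μ a c)
    (fun U U' Z x => by
      have h : sy (grad (vf U) x + grad (vf U') x) = sy (grad (vf U) x) + sy (grad (vf U') x) :=
        (syL n).map_add _ _
      simp only [Il, vf_add, tf_add, Pi.add_apply, grad_add (vf_diff U) (vf_diff U'),
        inner_add_left, h]
      ring)
    (fun r U Z x => by
      have h : sy (r • grad (vf U) x) = r • sy (grad (vf U) x) := (syL n).map_smul _ _
      simp only [Il, vf_smul, tf_smul, Pi.smul_apply, grad_smul (vf_diff U), inner_smul_left, h,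
        conj_trivial]
      ring)
    (fun U Z Z' x => by
      have h : sy (grad (vf Z) x + grad (vf Z') x) = sy (grad (vf Z) x) + sy (grad (vf Z') x) :=
        (syL n).map_add _ _
      simp only [Il, vf_add, tf_add, Pi.add_apply, grad_add (vf_diff Z) (vf_diff Z'),
        inner_add_right, h]
      ring)
    (fun r U Z x => by
      have h : sy (r • grad (vf Z) x) = r • sy (grad (vf Z) x) := (syL n).map_smul _ _
      simp only [Il, vf_smul, tf_smul, Pi.smul_apply, grad_smul (vf_diff Z), inner_smul_right, h]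
      ring)

theorem lform_apply (μ a c : ℝ) (U Z : DD Ω) : lform Ω μ a c U Z = ∫ x, Il μ a c U Z x := rfl

theorem lform_self (μ a c : ℝ) (U : DD Ω) :
    lform Ω μ a c U U = - (μ * ∫ x, ‖grad (vf U) x‖ ^ 2) - a * ∫ x, ‖tf U x‖ ^ 2 := by
  rw [lform_apply]
  have h1 : Integrable (fun x => ‖grad (vf U) x‖ ^ 2) := by
    have : Continuous fun x => ‖grad (vf U) x‖ ^ 2 := (vf_vt U).grad_cont.norm.pow 2
    refine this.integrable_of_hasCompactSupport ?_
    refine (vf_vt U).grad_cpt.mono' fun x hx => subset_closure fun h0 => hx ?_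
    have h0' : grad (vf U) x = 0 := h0
    simp [h0']
  have h2 : Integrable (fun x => ‖tf U x‖ ^ 2) := by
    have : Continuous fun x => ‖tf U x‖ ^ 2 := (tf_smooth U).continuous.norm.pow 2
    refine this.integrable_of_hasCompactSupport ?_
    refine (tf_cpt U).mono' fun x hx => subset_closure fun h0 => hx ?_
    have h0' : tf U x = 0 := h0
    simp [h0']
  have h3 : ∀ x, Il μ a c U U x = - (μ * ‖grad (vf U) x‖ ^ 2) - a * ‖tf U x‖ ^ 2 := by
    intro x
    simp only [Il, real_inner_self_eq_norm_sq]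
    rw [real_inner_comm (sy (grad (vf U) x)) (tf U x)]
    ring
  simp only [h3]
  have h5 : Integrable (fun x => -(μ * ‖grad (vf U) x‖ ^ 2)) := (h1.const_mul μ).neg
  rw [integral_sub h5 (h2.const_mul a), integral_neg, integral_const_mul,
    integral_const_mul]

/-- divergence free fields are orthogonal to gradients -/
theorem vt_div {φ : Eu n → Eu n} (hφ : IsVT Ω φ) {h : Eu n → ℝ} (hh : ContDiff ℝ 1 h) :
    ∫ x, fderiv ℝ h x (φ x) = 0 := by
  have hexp : ∀ x, fderiv ℝ h x (φ x) = ∑ i, φ x i * fderiv ℝ h x (bv i) := by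
    intro x
    have h1 : φ x = ∑ i, φ x i • (bv i : Eu n) := by
      have := (EuclideanSpace.basisFun (Fin n) ℝ).sum_repr (φ x)
      simpa [bv] using this.symm
    conv_lhs => rw [h1]
    simp only [map_sum, map_smul, smul_eq_mul]
  have hci : ∀ i, ContDiff ℝ ∞ (fun x => φ x i) := fun i =>
    (EuclideanSpace.proj (𝕜 := ℝ) i).contDiff.comp hφ.smooth
  have hsi : ∀ i, HasCompactSupport (fun x => φ x i) := by
    intro i
    refine hφ.cpt.mono' fun x hx => subset_closure fun h0 => hx ?_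
    have h0' : φ x = 0 := h0
    simp [h0']
  have hd : Continuous (fderiv ℝ h) := hh.continuous_fderiv (by simp)
  have i1 : ∀ i, Integrable (fun x => φ x i * fderiv ℝ h x (bv i)) := fun i =>
    ((hci i).continuous.mul (hd.clm_apply continuous_const)).integrable_of_hasCompactSupport
      (hsi i).mul_right
  have i2 : ∀ i, Integrable (fun x => fderiv ℝ (fun x => φ x i) x (bv i) * h x) := fun i =>
    ((((hci i).continuous_fderiv (by simp)).clm_apply continuous_const).mul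
      hh.continuous).integrable_of_hasCompactSupport
      (((hsi i).fderiv_apply (𝕜 := ℝ) (bv i)).mul_right)
  have i3 : ∀ i, Integrable (fun x => φ x i * h x) := fun i =>
    ((hci i).continuous.mul hh.continuous).integrable_of_hasCompactSupport (hsi i).mul_right
  simp only [hexp]
  rw [integral_finsetSum _ fun i _ => i1 i]
  have h4 : ∀ i, ∫ x, φ x i * fderiv ℝ h x (bv i) =
      - ∫ x, fderiv ℝ (fun x => φ x i) x (bv i) * h x := fun i =>
    integral_mul_fderiv_eq_neg_fderiv_mul_of_integrable (i2 i) (i1 i) (i3 i)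
      (fun x _ => (hci i).differentiable (by simp) x) (fun x _ => hh.differentiable (by simp) x)
  simp only [h4]
  rw [Finset.sum_neg_distrib, ← integral_finsetSum _ fun i _ => i2 i]
  have h5 : (fun x => ∑ i, fderiv ℝ (fun x => φ x i) x (bv i) * h x) = fun _ => (0 : ℝ) := by
    funext x
    rw [← Finset.sum_mul]
    have h6 : ∑ i, fderiv ℝ (fun x => φ x i) x (bv i) = dvg φ x := by
      refine Finset.sum_congr rfl fun i _ => ?_
      have h7 : HasFDerivAt (fun x => φ x i)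
          ((EuclideanSpace.proj (𝕜 := ℝ) i).comp (fderiv ℝ φ x)) x :=
        (EuclideanSpace.proj (𝕜 := ℝ) i).hasFDerivAt.comp x (hφ.diff x).hasFDerivAt
      rw [h7.fderiv]
      rfl
    rw [h6, hφ.div0, zero_mul]
  rw [h5]; simp

theorem bform_self (hΩ : MeasurableSet Ω) {δ : ℝ} (hδ : 0 < δ) (U : DD Ω) :
    bform hΩ hδ U U U = 0 := by
  rw [bform_apply]
  have h1 : ∀ x, Ib δ U U U x =
      fderiv ℝ (fun x => (1 / 2 : ℝ) * (‖vf U x‖ ^ 2 + ‖tf U x‖ ^ 2)) x (vf U x) := by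
    intro x
    have h2 : inner ℝ (br (tf U x) (sm δ U x)) (tf U x) = 0 := inner_br _ _ (sm_antisym hδ U x)
    have h3 : HasFDerivAt (fun x => ‖vf U x‖ ^ 2)
        (2 • (innerSL ℝ (vf U x)).comp (fderiv ℝ (vf U) x)) x :=
      (vf_diff U x).hasFDerivAt.norm_sq
    have h4 : HasFDerivAt (fun x => ‖tf U x‖ ^ 2)
        (2 • (innerSL ℝ (tf U x)).comp (fderiv ℝ (tf U) x)) x :=
      (tf_diff U x).hasFDerivAt.norm_sq
    have h5 : HasFDerivAt (fun x => (1 / 2 : ℝ) * (‖vf U x‖ ^ 2 + ‖tf U x‖ ^ 2))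
        ((1 / 2 : ℝ) • ((2 • (innerSL ℝ (vf U x)).comp (fderiv ℝ (vf U) x)) +
          (2 • (innerSL ℝ (tf U x)).comp (fderiv ℝ (tf U) x)))) x :=
      (h3.add h4).const_mul (1 / 2)
    rw [h5.fderiv]
    simp only [Ib, h2, sub_zero, ContinuousLinearMap.smul_apply, ContinuousLinearMap.add_apply,
      ContinuousLinearMap.comp_apply, innerSL_apply_apply, smul_eq_mul, nsmul_eq_mul, Nat.cast_ofNat]
    ring
  simp only [h1]
  refine vt_div (vf_vt U) ?_
  refine contDiff_const.mul (ContDiff.add ?_ ?_)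
  · exact ((vf_smooth U).of_le (by exact_mod_cast le_top)).norm_sq ℝ
  · exact ((tf_smooth U).of_le (by exact_mod_cast le_top)).norm_sq ℝ

end Pool.Agent.Helper42.Jef
end

section
/-! # F1: time slices -/

open MeasureTheory Set Filter Topology
open scoped ENNReal NNReal ContDiff

namespace Pool.Agent.Helper50.JS

open Pool.Agent.Helper42.Jef

variable {n : ℕ}

/-! ### lintegral and integral of squares -/

theorem lint_sq_eq {α : Type*} [MeasurableSpace α] {μ : Measure α} {E : Type*}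
    [NormedAddCommGroup E] {u : α → E} (hu : MemLp u 2 μ) {S : Set α} (hS : MeasurableSet S) :
    ∫⁻ z in S, ‖u z‖ₑ ^ 2 ∂μ = ENNReal.ofReal (∫ z, S.indicator (fun _ => (1 : ℝ)) z *
      ‖u z‖ ^ 2 ∂μ) := by
  have h1 : Integrable (fun z => ‖u z‖ ^ 2) μ := (memLp_two_iff_integrable_sq_norm hu.1).1 hu
  have h2 : ∫ z, S.indicator (fun _ => (1 : ℝ)) z * ‖u z‖ ^ 2 ∂μ = ∫ z in S, ‖u z‖ ^ 2 ∂μ := by
    rw [← integral_indicator hS]
    refine integral_congr_ae (Eventually.of_forall fun z => ?_)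
    by_cases hz : z ∈ S
    · simp [hz]
    · simp [hz]
  rw [h2, ofReal_integral_eq_lintegral_ofReal h1.restrict
    (Eventually.of_forall fun z => by positivity)]
  refine lintegral_congr fun z => ?_
  rw [ENNReal.ofReal_pow (norm_nonneg _), ofReal_norm]

/-- F1c -/
theorem bound_of_wc {E : Type*} [NormedAddCommGroup E] [InnerProductSpace ℝ E] {M : ℝ}
    {us : ℕ → ST n → E} {u : ST n → E} (h : WC volume us u) {I : Set ℝ} (hI : MeasurableSet I)
    (hb : ∀ᶠ m in atTop,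
      ∫⁻ z in I ×ˢ (univ : Set (Eu n)), ‖us m z‖ₑ ^ 2 ≤ ENNReal.ofReal M) :
    ∫⁻ z in I ×ˢ (univ : Set (Eu n)), ‖u z‖ₑ ^ 2 ≤ ENNReal.ofReal M := by
  have hS : MeasurableSet (I ×ˢ (univ : Set (Eu n))) := hI.prod MeasurableSet.univ
  have h1 : ENNReal.ofReal M = ENNReal.ofReal (max M 0) := by
    rcases le_total M 0 with h0 | h0
    · rw [max_eq_right h0, ENNReal.ofReal_of_nonpos h0, ENNReal.ofReal_zero]
    · rw [max_eq_left h0]
  rw [h1, lint_sq_eq h.memU hS]
  refine ENNReal.ofReal_le_ofReal ?_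
  refine wc_lsc h _ ?_ 1 (fun x => ?_) _ ?_
  · exact (measurable_const.indicator hS).aestronglyMeasurable
  · by_cases hx : x ∈ I ×ˢ (univ : Set (Eu n))
    · rw [indicator_of_mem hx]; norm_num
    · rw [indicator_of_notMem hx]; norm_num
  · filter_upwards [hb] with m hm
    rw [h1, lint_sq_eq (h.mem m) hS] at hm
    exact (ENNReal.ofReal_le_ofReal_iff (le_max_right _ _)).1 hm

/-- iterated form of the lintegral over a slab -/
theorem lint_slab {f : ST n → ℝ≥0∞} (hf : AEMeasurable f volume) (I : Set ℝ) :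
    ∫⁻ z in I ×ˢ (univ : Set (Eu n)), f z = ∫⁻ t in I, ∫⁻ x, f (t, x) := by
  have h1 : (volume : Measure (ST n)).restrict (I ×ˢ (univ : Set (Eu n))) =
      (volume.restrict I).prod volume := by
    rw [Measure.volume_eq_prod, ← Measure.prod_restrict, Measure.restrict_univ]
  have hf' : AEMeasurable f ((volume.restrict I).prod volume) := by
    rw [← h1]; exact hf.restrict
  rw [h1, lintegral_prod _ hf']

theorem slice_aemeasurable {f : ST n → ℝ≥0∞} (hf : AEMeasurable f volume) :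
    AEMeasurable (fun t : ℝ => ∫⁻ x, f (t, x)) volume := by
  have hf' : AEMeasurable f ((volume : Measure ℝ).prod (volume : Measure (Eu n))) := hf
  exact hf'.lintegral_prod_right'

/-- F1b -/
theorem slices_bound {E : Type*} [NormedAddCommGroup E] {T M : ℝ} {u : ST n → E}
    (hu : AEStronglyMeasurable u volume)
    (h : ∀ I : Set ℝ, MeasurableSet I → I ⊆ Ioo 0 T →
      ∫⁻ z in I ×ˢ (univ : Set (Eu n)), ‖u z‖ₑ ^ 2 ≤ ENNReal.ofReal M * volume I) :
    ∀ᵐ t : ℝ, t ∈ Ioo 0 T → ∫⁻ x, ‖u (t, x)‖ₑ ^ 2 ≤ ENNReal.ofReal M := by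
  have hf : AEMeasurable (fun z : ST n => ‖u z‖ₑ ^ 2) volume := hu.enorm.pow_const 2
  have hg := slice_aemeasurable hf
  rw [← ae_restrict_iff' measurableSet_Ioo]
  refine ae_le_of_forall_setLIntegral_le_of_sigmaFinite₀ (hg.restrict) fun s hs _ => ?_
  rw [Measure.restrict_restrict hs]
  have h1 := h (s ∩ Ioo 0 T) (hs.inter measurableSet_Ioo) inter_subset_right
  rw [lint_slab hf] at h1
  rw [setLIntegral_const]
  exact h1

theorem grad_zero (x : Eu n) : grad (0 : Eu n → Eu n) x = 0 := by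
  rw [grad_eq]
  have : fderiv ℝ (0 : Eu n → Eu n) x = 0 := by
    have h : (0 : Eu n → Eu n) = fun _ => (0 : Eu n) := rfl
    rw [h, fderiv_fun_const]; rfl
  rw [this, map_zero]

theorem vt_sum {Ω : Set (Eu n)} {N : ℕ} (s : Finset (Fin N)) (φ : Fin N → Eu n → Eu n)
    (a : Fin N → ℝ) (hφ : ∀ j, IsVT Ω (φ j)) :
    IsVT Ω (∑ j ∈ s, a j • φ j) ∧
      ∀ x, grad (∑ j ∈ s, a j • φ j) x = ∑ j ∈ s, a j • grad (φ j) x := by
  classical
  induction s using Finset.induction_on with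
  | empty =>
    rw [Finset.sum_empty]
    refine ⟨IsVT.zero, fun x => ?_⟩
    rw [grad_zero, Finset.sum_empty]
  | insert i s hi ih =>
    rw [Finset.sum_insert hi]
    refine ⟨((hφ i).smul _).add ih.1, fun x => ?_⟩
    rw [Finset.sum_insert hi, grad_add ((hφ i).smul _).diff ih.1.diff,
      grad_smul (hφ i).diff, ih.2]

/-- elementary fields: time slices -/
theorem elem_slice {Ω : Set (Eu n)} {T : ℝ} {v : ST n → Eu n} {G : ST n → Mt n}
    (h : IsElem Ω T v G) (t : ℝ) :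
    IsVT Ω (fun x => v (t, x)) ∧ ∀ x, grad (fun x => v (t, x)) x = G (t, x) := by
  obtain ⟨N, c, φ, hm, hb, h0, hφ, hv, hG⟩ := h
  have e : (fun x => v (t, x)) = ∑ j, c j t • φ j := by
    funext x
    rw [hv]
    simp
  obtain ⟨h1, h2⟩ := vt_sum Finset.univ φ (fun j => c j t) hφ
  rw [e]
  refine ⟨h1, fun x => ?_⟩
  rw [h2, hG]

theorem eLpNorm_sq {α : Type*} [MeasurableSpace α] {μ : Measure α} {E : Type*}
    [NormedAddCommGroup E] (u : α → E) : eLpNorm u 2 μ ^ 2 = ∫⁻ z, ‖u z‖ₑ ^ 2 ∂μ := by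
  have h := eLpNorm_nnreal_pow_eq_lintegral (μ := μ) (f := u) (p := 2) (by norm_num)
  have h2 : ((2 : ℝ≥0) : ℝ) = ((2 : ℕ) : ℝ) := by norm_num
  rw [h2] at h
  simp only [ENNReal.rpow_natCast] at h
  exact h

theorem lt_of_sq_lt {a b : ℝ≥0∞} (h : a ^ 2 < b ^ 2) : a < b := by
  by_contra hc
  push Not at hc
  exact absurd h (not_lt.2 (by gcongr))

theorem slice_conv {E : Type*} [NormedAddCommGroup E] {u : ST n → E} {us : ℕ → ST n → E}
    (hm : ∀ k, AEStronglyMeasurable (fun z => u z - us k z) volume)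
    (hb : ∀ k : ℕ, eLpNorm (fun z => u z - us k z) 2 volume ≤ ENNReal.ofReal ((1 / 2) ^ k)) :
    ∀ᵐ t : ℝ, Tendsto (fun k => ∫⁻ x, ‖u (t, x) - us k (t, x)‖ₑ ^ 2) atTop (𝓝 0) := by
  have hf : ∀ k, AEMeasurable (fun z : ST n => ‖u z - us k z‖ₑ ^ 2) volume := fun k =>
    (hm k).enorm.pow_const 2
  have h1 : ∀ k : ℕ, ∫⁻ t : ℝ, ∫⁻ x, ‖u (t, x) - us k (t, x)‖ₑ ^ 2 ≤ (2⁻¹ : ℝ≥0∞) ^ k := by
    intro k
    have h2 := lint_slab (hf k) univ
    rw [univ_prod_univ, Measure.restrict_univ, Measure.restrict_univ] at h2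
    rw [← h2, ← eLpNorm_sq]
    have h3 : ENNReal.ofReal ((1 / 2) ^ k) = (2⁻¹ : ℝ≥0∞) ^ k := by
      rw [ENNReal.ofReal_pow (by norm_num)]
      congr 1
      rw [one_div, ENNReal.ofReal_inv_of_pos (by norm_num)]
      norm_num
    have h4 := hb k
    rw [h3] at h4
    have h5 : (2⁻¹ : ℝ≥0∞) ^ k ≤ 1 := pow_le_one₀ (by simp) (by norm_num)
    calc eLpNorm (fun z => u z - us k z) 2 volume ^ 2 ≤ ((2⁻¹ : ℝ≥0∞) ^ k) ^ 2 := by gcongr
      _ = (2⁻¹ : ℝ≥0∞) ^ k * (2⁻¹ : ℝ≥0∞) ^ k := sq _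
      _ ≤ (2⁻¹ : ℝ≥0∞) ^ k * 1 := by gcongr
      _ = _ := mul_one _
  have h2 : ∫⁻ t : ℝ, ∑' k, ∫⁻ x, ‖u (t, x) - us k (t, x)‖ₑ ^ 2 ≠ ⊤ := by
    rw [lintegral_tsum fun k => slice_aemeasurable (hf k)]
    refine ne_top_of_le_ne_top ?_ (ENNReal.tsum_le_tsum h1)
    rw [ENNReal.tsum_geometric]
    simp
  have h3 := ae_lt_top' (AEMeasurable.tsum fun k => slice_aemeasurable (hf k)) h2
  filter_upwards [h3] with t ht
  exact ENNReal.tendsto_atTop_zero_of_tsum_ne_top ht.ne

theorem slice_memLp {E : Type*} [NormedAddCommGroup E] {u : ST n → E} (hu : MemLp u 2 volume) :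
    ∀ᵐ t : ℝ, MemLp (fun x => u (t, x)) 2 volume := by
  have hf : AEMeasurable (fun z : ST n => ‖u z‖ₑ ^ 2) volume := hu.1.enorm.pow_const 2
  have h2 := lint_slab hf univ
  rw [univ_prod_univ, Measure.restrict_univ, Measure.restrict_univ, ← eLpNorm_sq] at h2
  have h3 : ∫⁻ t : ℝ, ∫⁻ x, ‖u (t, x)‖ₑ ^ 2 ≠ ⊤ := by
    rw [← h2]
    exact ENNReal.pow_ne_top hu.2.ne
  have hm : AEStronglyMeasurable u ((volume : Measure ℝ).prod (volume : Measure (Eu n))) := hu.1
  filter_upwards [ae_lt_top' (slice_aemeasurable hf) h3, hm.prodMk_left] with t h4 h5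
  refine ⟨h5, ?_⟩
  rw [← eLpNorm_sq] at h4
  exact lt_of_sq_lt (by simpa using h4)

/-- F1 -/
theorem vel_slices {Ω : Set (Eu n)} {T : ℝ} {v : ST n → Eu n} {G : ST n → Mt n}
    (hv : IsVel Ω T v G) :
    ∀ᵐ t : ℝ, MemLp (fun x => v (t, x)) 2 volume ∧ MemLp (fun x => G (t, x)) 2 volume ∧
      ∀ ε : ℝ, 0 < ε → ∃ φ, IsVT Ω φ ∧
        eLpNorm (fun x => v (t, x) - φ x) 2 volume ≤ ENNReal.ofReal ε ∧
        eLpNorm (fun x => G (t, x) - grad φ x) 2 volume ≤ ENNReal.ofReal ε := by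
  have h1 : ∀ k : ℕ, ∃ (v' : ST n → Eu n) (G' : ST n → Mt n), IsElem Ω T v' G' ∧
      eLpNorm (v - v') 2 volume ≤ ENNReal.ofReal ((1 / 2) ^ k) ∧
      eLpNorm (G - G') 2 volume ≤ ENNReal.ofReal ((1 / 2) ^ k) :=
    fun k => hv.approx _ (by positivity)
  choose vs Gs he hvs hGs using h1
  have h2 := slice_conv (u := v) (us := vs) (fun k => hv.memv.1.sub (he k).memLp.1.1) hvs
  have h3 := slice_conv (u := G) (us := Gs) (fun k => hv.memG.1.sub (he k).memLp.2.1) hGs
  filter_upwards [slice_memLp hv.memv, slice_memLp hv.memG, h2, h3] with t h4 h5 h6 h7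
  refine ⟨h4, h5, fun ε hε => ?_⟩
  have hpos : 0 < ENNReal.ofReal ε ^ 2 := by
    have : 0 < ENNReal.ofReal ε := ENNReal.ofReal_pos.2 hε
    positivity
  obtain ⟨k, h8, h9⟩ := ((h6.eventually (gt_mem_nhds hpos)).and
    (h7.eventually (gt_mem_nhds hpos))).exists
  obtain ⟨h10, h11⟩ := elem_slice (he k) t
  refine ⟨fun x => vs k (t, x), h10, ?_, ?_⟩
  · rw [← eLpNorm_sq] at h8
    exact (lt_of_sq_lt h8).le
  · rw [← eLpNorm_sq] at h9
    simp only [h11]
    exact (lt_of_sq_lt h9).le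

end Pool.Agent.Helper50.JS
end

section
/-! # The renormalising function `B(s) = log (1 + s²/ε²) / 2` -/

open MeasureTheory Set Filter Topology
open scoped ENNReal ContDiff

namespace Pool.Agent.Helper50.JT

open Pool.Agent.Helper42.Jef Pool.Agent.Helper22.Jef

/-- the renormalising function -/
noncomputable def Bf (ε s : ℝ) : ℝ := 1 / 2 * Real.log (1 + s ^ 2 / ε ^ 2)

/-- its derivative -/
noncomputable def Bd (ε s : ℝ) : ℝ := s / (ε ^ 2 + s ^ 2)

variable {ε : ℝ}

theorem Bf_zero (ε : ℝ) : Bf ε 0 = 0 := by simp [Bf]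

theorem Bd_zero (ε : ℝ) : Bd ε 0 = 0 := by simp [Bd]

theorem Bf_nonneg (ε s : ℝ) : 0 ≤ Bf ε s := by
  unfold Bf
  have : 0 ≤ s ^ 2 / ε ^ 2 := by positivity
  have h2 := Real.log_nonneg (by linarith : (1 : ℝ) ≤ 1 + s ^ 2 / ε ^ 2)
  linarith

theorem Bf_hasDeriv (hε : 0 < ε) (s : ℝ) : HasDerivAt (Bf ε) (Bd ε s) s := by
  have h1 : HasDerivAt (fun s : ℝ => 1 + s ^ 2 / ε ^ 2) (2 * s / ε ^ 2) s := by
    have := ((hasDerivAt_pow 2 s).div_const (ε ^ 2)).const_add 1
    simpa using this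
  have h2 : (1 + s ^ 2 / ε ^ 2) ≠ 0 := by positivity
  have h3 := (h1.log h2).const_mul (1 / 2 : ℝ)
  have h4 : 1 / 2 * (2 * s / ε ^ 2 / (1 + s ^ 2 / ε ^ 2)) = Bd ε s := by
    unfold Bd
    have : ε ^ 2 + s ^ 2 ≠ 0 := by positivity
    field_simp
  rw [h4] at h3
  exact h3

theorem Bd_continuous (hε : 0 < ε) : Continuous (Bd ε) := by
  unfold Bd
  refine Continuous.div continuous_id (by fun_prop) fun s => ?_
  positivity

theorem Bf_contDiff (hε : 0 < ε) : ContDiff ℝ 1 (Bf ε) := by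
  rw [contDiff_one_iff_deriv]
  refine ⟨fun s => (Bf_hasDeriv hε s).differentiableAt, ?_⟩
  have : deriv (Bf ε) = Bd ε := funext fun s => (Bf_hasDeriv hε s).deriv
  rw [this]
  exact Bd_continuous hε

theorem Bf_continuous (hε : 0 < ε) : Continuous (Bf ε) := (Bf_contDiff hε).continuous

theorem Bd_nonneg (ε : ℝ) {s : ℝ} (hs : 0 ≤ s) : 0 ≤ Bd ε s := by
  unfold Bd; positivity

theorem Bd_le (hε : 0 < ε) (s : ℝ) : Bd ε s ≤ 1 / (2 * ε) := by
  unfold Bd
  have h : 0 < ε ^ 2 + s ^ 2 := by positivity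
  rw [div_le_div_iff₀ h (by positivity)]
  nlinarith [sq_nonneg (ε - s)]

theorem Bd_mul_le (hε : 0 < ε) (s : ℝ) : Bd ε s * s ≤ 1 := by
  unfold Bd
  have h : 0 < ε ^ 2 + s ^ 2 := by positivity
  rw [div_mul_eq_mul_div, div_le_one h]
  nlinarith [sq_nonneg ε]

/-- the sequence `1/(j+1)` -/
theorem Bf_tendsto {s : ℝ} (hs : s ≠ 0) :
    Tendsto (fun j : ℕ => Bf (1 / ((j : ℝ) + 1)) s) atTop atTop := by
  unfold Bf
  have h1 : Tendsto (fun j : ℕ => 1 + s ^ 2 / (1 / ((j : ℝ) + 1)) ^ 2) atTop atTop := by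
    refine tendsto_atTop_add_const_left _ _ ?_
    have h2 : (fun j : ℕ => s ^ 2 / (1 / ((j : ℝ) + 1)) ^ 2) =
        fun j : ℕ => s ^ 2 * ((j : ℝ) + 1) ^ 2 := by
      funext j
      have : ((j : ℝ) + 1) ≠ 0 := by positivity
      field_simp
    rw [h2]
    refine Tendsto.const_mul_atTop (by positivity) ?_
    refine (tendsto_pow_atTop (by norm_num)).comp ?_
    exact tendsto_atTop_add_const_right _ _ tendsto_natCast_atTop_atTop
  exact (Real.tendsto_log_atTop.comp h1).const_mul_atTop (by norm_num)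

/-! ### the function `β (x, r) = B (r - ‖x‖²)` -/

section beta
variable {E : Type*} [NormedAddCommGroup E] [InnerProductSpace ℝ E]

/-- the renormalising function on pairs -/
noncomputable def bet (ε : ℝ) (p : E × ℝ) : ℝ := Bf ε (p.2 - ‖p.1‖ ^ 2)

theorem bet_contDiff (hε : 0 < ε) : ContDiff ℝ 1 (bet ε : E × ℝ → ℝ) := by
  unfold bet
  exact (Bf_contDiff hε).comp (contDiff_snd.sub (contDiff_fst.norm_sq ℝ))

theorem bet_fderiv (hε : 0 < ε) (p h : E × ℝ) :
    fderiv ℝ (bet ε) p h = Bd ε (p.2 - ‖p.1‖ ^ 2) * (h.2 - 2 * inner ℝ p.1 h.1) := by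
  have h1 : HasFDerivAt (fun p : E × ℝ => p.2 - ‖p.1‖ ^ 2)
      (ContinuousLinearMap.snd ℝ E ℝ - (2 : ℕ) • (innerSL ℝ p.1).comp
        (ContinuousLinearMap.fst ℝ E ℝ)) p := by
    have h2 : HasFDerivAt (fun p : E × ℝ => p.1) (ContinuousLinearMap.fst ℝ E ℝ) p :=
      hasFDerivAt_fst
    exact hasFDerivAt_snd.sub h2.norm_sq
  have h3 := (Bf_hasDeriv hε (p.2 - ‖p.1‖ ^ 2)).comp_hasFDerivAt p h1
  have h4 : (Bf ε ∘ fun p : E × ℝ => p.2 - ‖p.1‖ ^ 2) = bet ε := rfl
  rw [h4] at h3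
  rw [h3.fderiv]
  simp [two_mul]

end beta

end Pool.Agent.Helper50.JT
end

section
/-! # Scalar tests on space-time -/

open MeasureTheory Set Filter Topology
open scoped ENNReal ContDiff

namespace Pool.Agent.Helper44.Vort
open Pool.Agent.Helper42.Jef

variable {n : ℕ}

/-- smooth functions of compact support on space-time -/
structure SC (χ : ST n → ℝ) : Prop where
  smooth : ContDiff ℝ ∞ χ
  cpt : HasCompactSupport χ

/-- derivative in a fixed direction -/
noncomputable def dv (w : ST n) (χ : ST n → ℝ) (z : ST n) : ℝ := fderiv ℝ χ z w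

theorem dt_eq (χ : ST n → ℝ) : dt χ = dv (1, 0) χ := rfl
theorem dx_eq (i : Fin n) (χ : ST n → ℝ) : dx i χ = dv (0, bv i) χ := rfl

theorem dv_smooth {χ : ST n → ℝ} (h : ContDiff ℝ ∞ χ) (w : ST n) : ContDiff ℝ ∞ (dv w χ) :=
  (h.fderiv_right (m := ∞) (by simp)).clm_apply contDiff_const

theorem dv_tsupport (χ : ST n → ℝ) (w : ST n) : tsupport (dv w χ) ⊆ tsupport χ := by
  refine (closure_minimal ?_ (isClosed_tsupport _)).trans (tsupport_fderiv_subset ℝ (f := χ))
  intro z hz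
  refine subset_closure ?_
  intro h0
  exact hz (by show fderiv ℝ χ z w = 0; rw [h0]; rfl)

theorem SC.dv {χ : ST n → ℝ} (h : SC χ) (w : ST n) : SC (dv w χ) :=
  ⟨dv_smooth h.smooth w, h.cpt.of_isClosed_subset (isClosed_tsupport _) (dv_tsupport χ w)⟩

theorem SC.dx {χ : ST n → ℝ} (h : SC χ) (i : Fin n) : SC (dx i χ) := h.dv _
theorem SC.dt {χ : ST n → ℝ} (h : SC χ) : SC (dt χ) := h.dv _

theorem dv_comm {χ : ST n → ℝ} (h : ContDiff ℝ ∞ χ) (w w' : ST n) (z : ST n) :
    Vort.dv w (Vort.dv w' χ) z = Vort.dv w' (Vort.dv w χ) z := by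
  have hd : DifferentiableAt ℝ (fderiv ℝ χ) z :=
    (h.fderiv_right (m := ∞) (by simp)).differentiable (by simp) z
  have e : ∀ a b : ST n, Vort.dv a (Vort.dv b χ) z = fderiv ℝ (fderiv ℝ χ) z a b := by
    intro a b
    show fderiv ℝ (fun y => fderiv ℝ χ y b) z a = _
    rw [fderiv_clm_apply hd (differentiableAt_const b)]
    simp
  have hs : IsSymmSndFDerivAt ℝ χ z := h.contDiffAt.isSymmSndFDerivAt (by
    rw [minSmoothness_of_isRCLikeNormedField]; exact WithTop.coe_le_coe.2 le_top)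
  rw [e, e]
  exact hs w w'

theorem dv_line {χ : ST n → ℝ} (h : ContDiff ℝ ∞ χ) (w z : ST n) :
    HasLineDerivAt ℝ χ (Vort.dv w χ z) z w :=
  (h.differentiable (by simp) z).hasFDerivAt.hasLineDerivAt w

theorem SC.memLp {χ : ST n → ℝ} (h : SC χ) (p : ℝ≥0∞) : MemLp χ p volume :=
  h.smooth.continuous.memLp_of_hasCompactSupport h.cpt

theorem SC.bdd {χ : ST n → ℝ} (h : SC χ) : ∃ C : ℝ, ∀ z, |χ z| ≤ C := by
  obtain ⟨C, hC⟩ := h.smooth.continuous.bounded_above_of_compact_support h.cpt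
  exact ⟨C, fun z => by simpa using hC z⟩

theorem SC.aesm {χ : ST n → ℝ} (h : SC χ) : AEStronglyMeasurable χ volume :=
  h.smooth.continuous.aestronglyMeasurable

/-- slices of scalar tests -/
theorem slice_smooth {χ : ST n → ℝ} (h : ContDiff ℝ ∞ χ) (s : ℝ) :
    ContDiff ℝ ∞ (fun x : Eu n => χ (s, x)) := h.comp (contDiff_prodMk_right s)

theorem slice_fderiv {χ : ST n → ℝ} (h : ContDiff ℝ ∞ χ) (s : ℝ) (x v : Eu n) :
    fderiv ℝ (fun x : Eu n => χ (s, x)) x v = Vort.dv (0, v) χ (s, x) := by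
  have h1 : HasFDerivAt (fun x : Eu n => ((s, x) : ST n))
      ((0 : Eu n →L[ℝ] ℝ).prod (ContinuousLinearMap.id ℝ (Eu n))) x :=
    (hasFDerivAt_const s x).prodMk (hasFDerivAt_id x)
  have h2 : HasFDerivAt χ (fderiv ℝ χ (s, x)) (s, x) :=
    (h.differentiable (by simp) _).hasFDerivAt
  have h3 : HasFDerivAt (fun x : Eu n => χ (s, x)) ((fderiv ℝ χ (s, x)).comp
      ((0 : Eu n →L[ℝ] ℝ).prod (ContinuousLinearMap.id ℝ (Eu n)))) x := h2.comp x h1
  rw [h3.fderiv]
  rfl

theorem dv_sum {χ : ST n → ℝ} (z : ST n) (v : Eu n) :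
    Vort.dv (0, v) χ z = ∑ l, v l * dx l χ z := by
  have h1 : ((0 : ℝ), v) = ∑ l, v l • ((0 : ℝ), (bv l : Eu n)) := by
    refine Prod.ext ?_ ?_
    · simp [Prod.fst_sum]
    · rw [Prod.snd_sum]
      ext k
      simp [bv, Pi.single_apply]
  show fderiv ℝ χ z (0, v) = _
  rw [h1, map_sum]
  refine Finset.sum_congr rfl fun l _ => ?_
  rw [map_smul, smul_eq_mul]
  rfl

/-- the velocity test field built from `ψ` at time `s` -/
noncomputable def vph (ψ : ST n → ℝ) (i j : Fin n) (s : ℝ) (x : Eu n) : Eu n :=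
  dx j ψ (s, x) • bv i - dx i ψ (s, x) • bv j

theorem vph_fderiv {ψ : ST n → ℝ} (h : ContDiff ℝ ∞ ψ) (i j : Fin n) (s : ℝ) (x v : Eu n) :
    fderiv ℝ (vph ψ i j s) x v =
      Vort.dv (0, v) (dx j ψ) (s, x) • bv i - Vort.dv (0, v) (dx i ψ) (s, x) • bv j := by
  have ha := slice_smooth (dv_smooth h (0, bv j)) s
  have hb := slice_smooth (dv_smooth h (0, bv i)) s
  have da : HasFDerivAt (fun x : Eu n => dx j ψ (s, x))
    (fderiv ℝ (fun x : Eu n => dx j ψ (s, x)) x) x := (ha.differentiable (by simp) x).hasFDerivAt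
  have db : HasFDerivAt (fun x : Eu n => dx i ψ (s, x))
    (fderiv ℝ (fun x : Eu n => dx i ψ (s, x)) x) x := (hb.differentiable (by simp) x).hasFDerivAt
  have h1 := (da.smul_const (bv i)).sub (db.smul_const (bv j))
  have h2 : fderiv ℝ (vph ψ i j s) x = _ := h1.fderiv
  rw [h2]
  simp only [sub_apply, ContinuousLinearMap.smulRight_apply]
  have e1 : fderiv ℝ (fun x : Eu n => dx j ψ (s, x)) x v = Vort.dv (0, v) (dx j ψ) (s, x) :=
    slice_fderiv (dv_smooth h _) s x v
  have e2 : fderiv ℝ (fun x : Eu n => dx i ψ (s, x)) x v = Vort.dv (0, v) (dx i ψ) (s, x) :=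
    slice_fderiv (dv_smooth h _) s x v
  rw [e1, e2]

theorem bv_apply (i k : Fin n) : (bv i : Eu n) k = if k = i then 1 else 0 := by
  simp [bv]

theorem bv_inner (v : Eu n) (i : Fin n) : inner ℝ v (bv i) = v i := by
  simp [bv, EuclideanSpace.inner_single_right]

theorem vph_grad {ψ : ST n → ℝ} (h : ContDiff ℝ ∞ ψ) (i j : Fin n) (s : ℝ) (x : Eu n)
    (p l : Fin n) : grad (vph ψ i j s) x (p, l) =
      (if p = i then dx l (dx j ψ) (s, x) else 0) - (if p = j then dx l (dx i ψ) (s, x) else 0) := by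
  rw [grad_apply, vph_fderiv h]
  simp only [PiLp.sub_apply, PiLp.smul_apply, bv_apply, smul_eq_mul]
  show dx l (dx j ψ) (s, x) * _ - dx l (dx i ψ) (s, x) * _ = _
  split_ifs <;> simp

theorem vph_isVT {Ω : Set (Eu n)} {T : ℝ} {ψ : ST n → ℝ} (h : IsTestST Ω T ψ) (i j : Fin n)
    (s : ℝ) : IsVT Ω (vph ψ i j s) := by
  have hK : IsCompact (Prod.snd '' tsupport ψ) := h.cpt.isCompact.image continuous_snd
  have hKΩ : Prod.snd '' tsupport ψ ⊆ Ω := by
    rintro _ ⟨z, hz, rfl⟩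
    exact (h.supp hz).2
  have hsupp : tsupport (vph ψ i j s) ⊆ Prod.snd '' tsupport ψ := by
    refine closure_minimal ?_ hK.isClosed
    intro x hx
    by_contra hc
    apply hx
    have hn : ((s, x) : ST n) ∉ tsupport ψ := fun h0 => hc ⟨(s, x), h0, rfl⟩
    have h1 : dx j ψ (s, x) = 0 :=
      image_eq_zero_of_notMem_tsupport fun h0 => hn (dv_tsupport ψ _ h0)
    have h2 : dx i ψ (s, x) = 0 :=
      image_eq_zero_of_notMem_tsupport fun h0 => hn (dv_tsupport ψ _ h0)
    show dx j ψ (s, x) • bv i - dx i ψ (s, x) • bv j = 0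
    rw [h1, h2]; simp
  refine ⟨?_, ?_, hsupp.trans hKΩ, ?_⟩
  · exact ((slice_smooth (dv_smooth h.smooth (0, bv j)) s).smul contDiff_const).sub
      ((slice_smooth (dv_smooth h.smooth (0, bv i)) s).smul contDiff_const)
  · exact hK.of_isClosed_subset (isClosed_tsupport _) hsupp
  · intro x
    rw [dvg_eq_grad]
    simp only [vph_grad h.smooth]
    rw [Finset.sum_sub_distrib]
    simp only [Finset.sum_ite_eq', Finset.mem_univ, if_true]
    rw [sub_eq_zero]
    exact dv_comm h.smooth _ _ _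

/-- the flux of the momentum equation -/
noncomputable def flux (μ c : ℝ) (v : ST n → Eu n) (G τ : ST n → Mt n) (p l : Fin n) (z : ST n) :
    ℝ := v z p * v z l - μ * G z (p, l) - c * sy (τ z) (p, l)

/-- evaluation of the integrand of the momentum identity at the test field `vph` -/
theorem mom_eval {ψ : ST n → ℝ} (h : ContDiff ℝ ∞ ψ) (i j : Fin n) (s : ℝ) (μ c : ℝ)
    (v : ST n → Eu n) (G τ : ST n → Mt n) (η : ℝ → ℝ) (z : ST n) :
    (deriv η z.1 * inner ℝ (v z) (vph ψ i j s z.2) +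
        η z.1 * (inner ℝ (v z) (fderiv ℝ (vph ψ i j s) z.2 (v z)) -
          μ * inner ℝ (G z) (grad (vph ψ i j s) z.2) -
          c * inner ℝ (τ z) (sy (grad (vph ψ i j s) z.2)))) =
    deriv η z.1 * (v z i * dx j ψ (s, z.2) - v z j * dx i ψ (s, z.2)) +
      η z.1 * ∑ l, (flux μ c v G τ i l z * dx l (dx j ψ) (s, z.2) -
        flux μ c v G τ j l z * dx l (dx i ψ) (s, z.2)) := by
  have e1 : inner ℝ (v z) (vph ψ i j s z.2) =
      v z i * dx j ψ (s, z.2) - v z j * dx i ψ (s, z.2) := by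
    show inner ℝ (v z) (dx j ψ (s, z.2) • bv i - dx i ψ (s, z.2) • bv j) = _
    rw [inner_sub_right, inner_smul_right, inner_smul_right, bv_inner, bv_inner]
    ring
  have e2 : inner ℝ (v z) (fderiv ℝ (vph ψ i j s) z.2 (v z)) =
      ∑ l, (v z i * v z l * dx l (dx j ψ) (s, z.2) - v z j * v z l * dx l (dx i ψ) (s, z.2)) := by
    rw [vph_fderiv h, inner_sub_right, inner_smul_right, inner_smul_right, bv_inner, bv_inner,
      dv_sum, dv_sum, Finset.sum_sub_distrib, Finset.sum_mul, Finset.sum_mul]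
    congr 1 <;> exact Finset.sum_congr rfl fun l _ => by ring
  have e3 : ∀ A : Mt n, inner ℝ A (grad (vph ψ i j s) z.2) =
      ∑ l, (A (i, l) * dx l (dx j ψ) (s, z.2) - A (j, l) * dx l (dx i ψ) (s, z.2)) := by
    intro A
    rw [PiLp.inner_apply, Fintype.sum_prod_type, Finset.sum_comm]
    refine Finset.sum_congr rfl fun l _ => ?_
    simp only [vph_grad h, RCLike.inner_apply, conj_trivial, sub_mul, ite_mul, zero_mul]
    rw [Finset.sum_sub_distrib]
    simp only [Finset.sum_ite_eq', Finset.mem_univ, if_true]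
    ring
  rw [e1, e2, e3, ← inner_sy_left, e3]
  congr 1
  rw [Finset.mul_sum (a := μ), Finset.mul_sum (a := c), ← Finset.sum_sub_distrib,
    ← Finset.sum_sub_distrib]
  congr 1
  refine Finset.sum_congr rfl fun l _ => ?_
  unfold flux
  ring

end Pool.Agent.Helper44.Vort
end
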