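import Pool.Agent.Helper42.JefB.C1
import Pool.Agent.Helper42.JefB.C5

section
/-! # convergence in measure; the lower order terms -/

open MeasureTheory Set Filter Topology
open scoped ENNReal ContDiff Pointwise

namespace Pool.Agent.Helper37.Jef
open Pool.Agent.Helper42.Jef
variable {n : ℕ}

/-- convergence to zero in measure on a set -/
def CM (S : Set (ST n)) (f : ℕ → ST n → ℝ) : Prop :=
  ∀ s : ℝ, 0 < s → Tendsto (fun m => volume {z | z ∈ S ∧ s < |f m z|}) atTop (𝓝 0)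

section CM
variable {S : Set (ST n)} {f g : ℕ → ST n → ℝ}

theorem CM.congr (hf : CM S f) (h : ∀ m, ∀ z ∈ S, f m z = g m z) : CM S g := by
  intro s hs
  refine (hf s hs).congr fun m => ?_
  congr 1
  ext z
  simp only [mem_ofPred_eq]
  constructor
  · rintro ⟨h1, h2⟩
    exact ⟨h1, by rwa [← h m z h1]⟩
  · rintro ⟨h1, h2⟩
    exact ⟨h1, by rwa [h m z h1]⟩

theorem CM.add (hf : CM S f) (hg : CM S g) : CM S (fun m z => f m z + g m z) := by
  intro s hs
  have h1 := (hf (s / 2) (by positivity)).add (hg (s / 2) (by positivity))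
  rw [add_zero] at h1
  refine tendsto_of_tendsto_of_tendsto_of_le_of_le tendsto_const_nhds h1 (fun _ => zero_le)
    fun m => ?_
  refine (measure_mono ?_).trans (measure_union_le _ _)
  rintro z ⟨hz, h2⟩
  by_cases h3 : s / 2 < |f m z|
  · exact Or.inl ⟨hz, h3⟩
  · refine Or.inr ⟨hz, ?_⟩
    have := abs_add_le (f m z) (g m z)
    linarith [not_lt.1 h3]

theorem CM.zero : CM S (fun _ _ => (0 : ℝ)) := by
  intro s hs
  have : {z : ST n | z ∈ S ∧ s < |(0 : ℝ)|} = ∅ := by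
    ext z
    simp only [mem_empty_iff_false, iff_false]
    rintro ⟨-, h⟩
    rw [abs_zero] at h
    linarith
  simp only [this, measure_empty]
  exact tendsto_const_nhds

theorem CM.const_mul (hf : CM S f) (c : ℝ) : CM S (fun m z => c * f m z) := by
  rcases eq_or_ne c 0 with rfl | hc
  · exact CM.zero.congr fun m z _ => by simp
  intro s hs
  refine (hf (s / |c|) (by positivity)).congr fun m => ?_
  congr 1
  ext z
  simp only [mem_ofPred_eq]
  rw [abs_mul, div_lt_iff₀ (by positivity), mul_comm]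

theorem CM.neg (hf : CM S f) : CM S (fun m z => -f m z) :=
  (hf.const_mul (-1)).congr fun m z _ => by ring

theorem CM.sub (hf : CM S f) (hg : CM S g) : CM S (fun m z => f m z - g m z) :=
  (hf.add hg.neg).congr fun m z _ => by ring

theorem CM.sum {ι : Type*} (s : Finset ι) {F : ι → ℕ → ST n → ℝ} (h : ∀ i ∈ s, CM S (F i)) :
    CM S (fun m z => ∑ i ∈ s, F i m z) := by
  classical
  induction s using Finset.induction_on with
  | empty => exact CM.zero.congr fun m z _ => by simp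
  | insert a s ha ih =>
    have h1 := (h a (Finset.mem_insert_self a s)).add
      (ih fun i hi => h i (Finset.mem_insert_of_mem hi))
    exact h1.congr fun m z _ => by rw [Finset.sum_insert ha]

theorem CM.of_L1 {S' : Set (ST n)} (hSS : S ⊆ S')
    (hm : ∀ m, AEStronglyMeasurable (f m) volume)
    (h : Tendsto (fun m => ∫⁻ z in S', ‖f m z‖ₑ) atTop (𝓝 0)) : CM S f := by
  intro s hs
  have hs' : ENNReal.ofReal s ≠ 0 := by simpa using hs
  have h1 := ENNReal.Tendsto.div_const h (Or.inr hs')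
  rw [ENNReal.zero_div] at h1
  refine tendsto_of_tendsto_of_tendsto_of_le_of_le tendsto_const_nhds h1 (fun _ => zero_le)
    fun m => ?_
  have h2 := mul_meas_ge_le_lintegral₀ (μ := volume.restrict S') (hm m).restrict.enorm
    (ENNReal.ofReal s)
  rw [ENNReal.le_div_iff_mul_le (Or.inl hs') (Or.inl ENNReal.ofReal_ne_top), mul_comm]
  refine le_trans (mul_le_mul_right ?_ _) h2
  refine le_trans ?_ (Measure.le_restrict_apply S' _)
  refine measure_mono ?_
  rintro z ⟨hz, h3⟩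
  refine ⟨?_, hSS hz⟩
  simp only [mem_ofPred_eq]
  rw [← ofReal_norm]
  exact ENNReal.ofReal_le_ofReal h3.le

theorem CM.of_L2 (hm : ∀ m, AEStronglyMeasurable (f m) volume)
    (h : Tendsto (fun m => eLpNorm (f m) 2 volume) atTop (𝓝 0)) : CM S f := by
  intro s hs
  have hs' : ENNReal.ofReal s ≠ 0 := by simpa using hs
  have hs2 : ENNReal.ofReal s ^ (2 : ℝ) ≠ 0 := by simpa using hs
  have h0 : Tendsto (fun m => eLpNorm (f m) 2 volume ^ (2 : ℝ)) atTop (𝓝 0) := by
    have := ((ENNReal.continuous_rpow_const (y := 2)).tendsto 0).comp h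
    simpa only [Function.comp_def, ENNReal.zero_rpow_of_pos (by norm_num : (0 : ℝ) < 2)] using this
  have h1 := ENNReal.Tendsto.div_const h0 (Or.inr hs2)
  rw [ENNReal.zero_div] at h1
  refine tendsto_of_tendsto_of_tendsto_of_le_of_le tendsto_const_nhds h1 (fun _ => zero_le)
    fun m => ?_
  have h2 := mul_meas_ge_le_pow_eLpNorm' volume (p := 2) (by norm_num) (by norm_num) (hm m)
    (ENNReal.ofReal s)
  have hne : ENNReal.ofReal s ^ (2 : ℝ) ≠ ⊤ :=
    ENNReal.rpow_ne_top_of_nonneg (by norm_num) ENNReal.ofReal_ne_top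
  rw [ENNReal.le_div_iff_mul_le (Or.inl hs2) (Or.inl hne), mul_comm]
  simp only [ENNReal.toReal_ofNat] at h2
  refine le_trans (mul_le_mul_right ?_ _) h2
  refine measure_mono ?_
  rintro z ⟨hz, h3⟩
  simp only [mem_ofPred_eq]
  rw [← ofReal_norm]
  exact ENNReal.ofReal_le_ofReal h3.le

end CM

/-! ## nice functions: integrable, vanishing outside a set -/

def Nice (S : Set (ST n)) (u : ST n → ℝ) : Prop := Integrable u ∧ ∀ y, y ∉ S → u y = 0

section Nice
variable {S : Set (ST n)} {u v : ST n → ℝ}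

theorem Nice.add (hu : Nice S u) (hv : Nice S v) : Nice S (fun y => u y + v y) :=
  ⟨hu.1.add hv.1, fun y hy => by simp only [hu.2 y hy, hv.2 y hy, add_zero]⟩

theorem Nice.sub (hu : Nice S u) (hv : Nice S v) : Nice S (fun y => u y - v y) :=
  ⟨hu.1.sub hv.1, fun y hy => by simp only [hu.2 y hy, hv.2 y hy, sub_zero]⟩

theorem Nice.const_mul (hu : Nice S u) (c : ℝ) : Nice S (fun y => c * u y) :=
  ⟨hu.1.const_mul c, fun y hy => by simp only [hu.2 y hy, mul_zero]⟩

theorem Nice.ce (hu : Nice S u) (hS : IsCompact S) {k : ST n → ℝ} (hk : Continuous k)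
    (z : ST n) : Integrable (fun y => k (z - y) * u y) := ce_cont hk hu.1 hS hu.2 z

theorem Nice.congr (hu : Nice S u) (h : ∀ y, v y = u y) : Nice S v := by
  have : v = u := funext h
  rw [this]; exact hu

theorem nice_mul {φ g : ST n → ℝ} (hφ : Continuous φ) (hS : IsCompact S)
    (h0 : ∀ y, y ∉ S → φ y = 0) (hg : IntegrableOn g S) : Nice S (fun y => φ y * g y) := by
  refine ⟨?_, fun y hy => by simp only [h0 y hy, zero_mul]⟩
  have h1 : IntegrableOn (fun y => φ y * g y) S := hg.continuousOn_mul hφ.continuousOn hS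
  refine (integrableOn_iff_integrable_of_support_subset ?_).1 h1
  intro y hy
  by_contra h2
  exact hy (by simp [h0 y h2])

end Nice

/-! ## the lower order terms -/

theorem cv_enorm_bdd {k u : ST n → ℝ} {C : ℝ} (hk : ∀ y, ‖k y‖ ≤ C) (z : ST n) :
    ‖cv k u z‖ₑ ≤ ENNReal.ofReal C * ∫⁻ y, ‖u y‖ₑ := by
  refine (cv_enorm_le k u z).trans ?_
  rw [← lintegral_const_mul' _ _ ENNReal.ofReal_ne_top]
  refine lintegral_mono fun y => mul_le_mul_left ?_ _
  rw [← ofReal_norm]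
  exact ENNReal.ofReal_le_ofReal (hk _)

/-- smooth kernel: convergence in `L¹` -/
theorem cv_smooth_tendsto {Ω : Set (Eu n)} {T : ℝ} {φ : ST n → ℝ} (hφ : IsTestST Ω T φ)
    {g : ℕ → ST n → ℝ} (hg : ∀ m, Integrable (fun y => φ y * g m y)) {M : ℝ≥0∞} (hMt : M ≠ ⊤)
    (hM : ∀ m, ∫⁻ y, ‖φ y * g m y‖ₑ ≤ M)
    (hw : ∀ ψ, IsTestST Ω T ψ → Tendsto (fun m => ∫ z, g m z * ψ z) atTop (𝓝 0))
    {k : ST n → ℝ} (hk : ContDiff ℝ ∞ k) (hkc : HasCompactSupport k) :
    Tendsto (fun m => ∫⁻ z, ‖cv k (fun y => φ y * g m y) z‖ₑ) atTop (𝓝 0) := by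
  obtain ⟨C, hC⟩ := hkc.exists_bound_of_continuous hk.continuous
  set K : Set (ST n) := tsupport k + tsupport φ with hK
  have hKc : IsCompact K := hkc.isCompact.add hφ.cpt.isCompact
  have hz0 : ∀ m z, z ∉ K → cv k (fun y => φ y * g m y) z = 0 := by
    intro m z hz
    unfold cv
    rw [← integral_zero (ST n) ℝ (μ := volume)]
    refine integral_congr_ae (Eventually.of_forall fun y => ?_)
    by_cases h1 : y ∈ tsupport φ
    · have h2 : z - y ∉ tsupport k := by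
        intro h2
        exact hz ⟨z - y, h2, y, h1, by simp⟩
      simp only []
      rw [image_eq_zero_of_notMem_tsupport h2, zero_mul]
    · simp only []
      rw [image_eq_zero_of_notMem_tsupport h1, zero_mul, mul_zero]
  have hlim : ∀ z, Tendsto (fun m => ‖cv k (fun y => φ y * g m y) z‖ₑ) atTop (𝓝 0) := by
    intro z
    have hψ : IsTestST Ω T (fun y => φ y * k (z - y)) := by
      have e : ContDiff ℝ ∞ (fun y => k (z - y)) := hk.comp (contDiff_const.sub contDiff_id)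
      exact ⟨hφ.smooth.mul e, hφ.cpt.mul_right, (tsupport_mul_subset_left).trans hφ.supp⟩
    have h1 := hw _ hψ
    have h2 : ∀ m, ∫ y, g m y * (φ y * k (z - y)) = cv k (fun y => φ y * g m y) z := by
      intro m
      unfold cv
      exact integral_congr_ae (Eventually.of_forall fun y => by ring)
    simp only [h2] at h1
    have h3 := (continuous_enorm.tendsto (0 : ℝ)).comp h1
    simpa [Function.comp_def] using h3
  have hb : ∀ m z, ‖cv k (fun y => φ y * g m y) z‖ₑ ≤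
      K.indicator (fun _ => ENNReal.ofReal C * M) z := by
    intro m z
    by_cases hz : z ∈ K
    · rw [indicator_of_mem hz]
      exact (cv_enorm_bdd hC z).trans (mul_le_mul_right (hM m) _)
    · rw [hz0 m z hz]
      simp
  have h := tendsto_lintegral_of_dominated_convergence' (μ := (volume : Measure (ST n)))
    (F := fun m z => ‖cv k (fun y => φ y * g m y) z‖ₑ) (f := fun _ => 0)
    (K.indicator (fun _ => ENNReal.ofReal C * M))
    (fun m => (cv_aesm hk.continuous.aestronglyMeasurable (hg m).aestronglyMeasurable).enorm)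
    (fun m => Eventually.of_forall (hb m)) ?_ (Eventually.of_forall hlim)
  · simpa using h
  · rw [lintegral_indicator hKc.measurableSet, lintegral_const]
    simp only [Measure.restrict_apply_univ]
    exact ENNReal.mul_ne_top (ENNReal.mul_ne_top ENNReal.ofReal_ne_top hMt) hKc.measure_lt_top.ne

/-- black box: the lower order kernels -/
def KLow (n : ℕ) (μ : ℝ) : Prop := ∀ l : List (Fin n), l.length ≤ 3 → ∀ T : ℝ,
  ∃ K0 : ST n → ℝ, Integrable K0 ∧ ∀ ε : ℕ → ℝ, (∀ m, 0 < ε m ∧ ε m < 1) →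
      Tendsto ε atTop (𝓝 0) →
      Tendsto (fun m => ∫⁻ z in Iio T ×ˢ (univ : Set (Eu n)),
        ‖(∫ s in (ε m)..1, Kr μ (ε m) s l z) - K0 z‖ₑ) atTop (𝓝 0)

theorem low_cm {μ : ℝ} (hμ : 0 < μ) (hL : KLow n μ) {Ω : Set (Eu n)} {T : ℝ} {φ : ST n → ℝ}
    (hφ : IsTestST Ω T φ)
    {g : ℕ → ST n → ℝ} (hg : ∀ m, Integrable (fun y => φ y * g m y)) {M : ℝ}
    (hM : ∀ m, ∫⁻ y, ‖φ y * g m y‖ₑ ≤ ENNReal.ofReal M)
    (hw : ∀ ψ, IsTestST Ω T ψ → Tendsto (fun m => ∫ z, g m z * ψ z) atTop (𝓝 0))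
    {ε : ℕ → ℝ} (hε : ∀ m, 0 < ε m ∧ ε m < 1) (hε0 : Tendsto ε atTop (𝓝 0))
    (l : List (Fin n)) (hl : l.length ≤ 3) {S : Set (ST n)} (hS : S ⊆ Iio T ×ˢ univ) :
    CM S (fun m => cv (fun z => ∫ s in (ε m)..1, Kr μ (ε m) s l z) (fun y => φ y * g m y)) := by
  obtain ⟨K0, hK0, hK⟩ := hL l hl T
  have hKm := hK ε hε hε0
  have hSm : MeasurableSet (Iio T ×ˢ (univ : Set (Eu n))) := measurableSet_Iio.prod .univ
  set S' : Set (ST n) := Iio T ×ˢ (univ : Set (Eu n)) with hS'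
  set R : ℕ → ST n → ℝ := fun m z => ∫ s in (ε m)..1, Kr μ (ε m) s l z with hR
  have hRc : ∀ m, Continuous (R m) := fun m =>
    JC_cont (JC_Kr hμ (hε m).1 l) (hε m).1 (hε m).2.le
  set b : ℕ → ST n → ℝ := fun m y => φ y * g m y with hb
  have hnice : ∀ m, Nice (tsupport φ) (b m) := fun m =>
    ⟨hg m, fun y hy => by simp [hb, image_eq_zero_of_notMem_tsupport hy]⟩
  have hcut : ∀ (k : ST n → ℝ) m, ∀ z ∈ S', cv k (b m) z = cv (S'.indicator k) (b m) z := by
    intro k m z hz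
    unfold cv
    refine integral_congr_ae (Eventually.of_forall fun y => ?_)
    by_cases hy : y ∈ tsupport φ
    · have h1 : 0 < y.1 := (hφ.supp hy).1.1
      have h2 : z - y ∈ S' := by
        refine ⟨?_, mem_univ _⟩
        have : z.1 < T := hz.1
        simp only [Prod.fst_sub, mem_Iio]
        linarith
      simp only []
      rw [indicator_of_mem h2]
    · simp only []
      rw [(hnice m).2 y hy, mul_zero, mul_zero]
  have hRm : ∀ m, AEStronglyMeasurable (R m) volume := fun m => (hRc m).aestronglyMeasurable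
  have hbm : ∀ m, AEStronglyMeasurable (b m) volume := fun m => (hg m).aestronglyMeasurable
  have hK0' : Integrable (S'.indicator K0) := hK0.indicator hSm
  refine CM.of_L1 hS (fun m => cv_aesm (hRm m) (hbm m)) ?_
  rw [ENNReal.tendsto_nhds_zero]
  intro δ hδ
  -- choose the smooth approximation
  wlog hδt : δ ≠ ⊤ generalizing δ
  · rw [not_not] at hδt
    subst hδt
    exact Eventually.of_forall fun m => le_top
  set d : ℝ := δ.toReal with hd
  have hd0 : 0 < d := ENNReal.toReal_pos hδ.ne' hδt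
  have hδd : δ = ENNReal.ofReal d := (ENNReal.ofReal_toReal hδt).symm
  set M' : ℝ := |M| + 1 with hM'
  have hM'0 : 0 < M' := by positivity
  have hMM : ENNReal.ofReal M ≤ ENNReal.ofReal M' :=
    ENNReal.ofReal_le_ofReal (by rw [hM']; linarith [le_abs_self M])
  obtain ⟨k, hkc, hks, hkδ⟩ := (memLp_one_iff_integrable.2 hK0').exist_eLpNorm_sub_le
    (by norm_num) le_rfl (show 0 < d / 3 / M' by positivity)
  have h3 := cv_smooth_tendsto hφ hg ENNReal.ofReal_ne_top hM hw hks hkc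
  have e1 : ∀ᶠ m in atTop, ∫⁻ z, ‖cv k (b m) z‖ₑ ≤ ENNReal.ofReal (d / 3) :=
    (h3.eventually_lt_const (by simpa using (show 0 < d / 3 by positivity))).mono
      fun m hm => le_of_lt hm
  have e2 : ∀ᶠ m in atTop, ∫⁻ z in S', ‖R m z - K0 z‖ₑ ≤ ENNReal.ofReal (d / 3 / M') :=
    (hKm.eventually_lt_const (by simpa using (show 0 < d / 3 / M' by positivity))).mono
      fun m hm => le_of_lt hm
  filter_upwards [e1, e2] with m hm1 hm2
  have a1 : ∫⁻ z, ‖cv (fun z => S'.indicator (R m) z - S'.indicator K0 z) (b m) z‖ₑ ≤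
      ENNReal.ofReal (d / 3) := by
    refine (lint_cv (k := fun z => S'.indicator (R m) z - S'.indicator K0 z)
      (((hRm m).indicator hSm).sub hK0'.aestronglyMeasurable) (hbm m)).trans ?_
    have e3 : ∫⁻ z, ‖S'.indicator (R m) z - S'.indicator K0 z‖ₑ = ∫⁻ z in S', ‖R m z - K0 z‖ₑ := by
      rw [← lintegral_indicator hSm]
      refine lintegral_congr fun z => ?_
      by_cases hz : z ∈ S'
      · simp only [indicator_of_mem hz]
      · simp only [indicator_of_notMem hz]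
        simp
    rw [e3]
    refine (mul_le_mul' hm2 ((hM m).trans hMM)).trans (le_of_eq ?_)
    rw [← ENNReal.ofReal_mul (by positivity)]
    congr 1
    field_simp
  have a2 : ∫⁻ z, ‖cv (fun z => S'.indicator K0 z - k z) (b m) z‖ₑ ≤
      ENNReal.ofReal (d / 3) := by
    refine (lint_cv (k := fun z => S'.indicator K0 z - k z)
      (hK0'.aestronglyMeasurable.sub hks.continuous.aestronglyMeasurable)
      (hbm m)).trans ?_
    have e3 : ∫⁻ z, ‖S'.indicator K0 z - k z‖ₑ ≤ ENNReal.ofReal (d / 3 / M') := by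
      rw [eLpNorm_one_eq_lintegral_enorm] at hkδ
      exact hkδ
    refine (mul_le_mul' e3 ((hM m).trans hMM)).trans (le_of_eq ?_)
    rw [← ENNReal.ofReal_mul (by positivity)]
    congr 1
    field_simp
  have hae : ∀ᵐ z ∂(volume.restrict S'), ‖cv (R m) (b m) z‖ₑ ≤
      ‖cv (fun z => S'.indicator (R m) z - S'.indicator K0 z) (b m) z‖ₑ +
      (‖cv (fun z => S'.indicator K0 z - k z) (b m) z‖ₑ + ‖cv k (b m) z‖ₑ) := by
    filter_upwards [ae_restrict_mem hSm, ae_restrict_of_ae (ae_ce hK0' (hg m))] with z hz hI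
    have i1 : Integrable (fun y => S'.indicator (R m) (z - y) * b m y) := by
      have h1 := (hnice m).ce hφ.cpt.isCompact (hRc m) z
      refine h1.congr (Eventually.of_forall fun y => ?_)
      by_cases hy : y ∈ tsupport φ
      · have h1 : 0 < y.1 := (hφ.supp hy).1.1
        have h2 : z - y ∈ S' := by
          refine ⟨?_, mem_univ _⟩
          have : z.1 < T := hz.1
          simp only [Prod.fst_sub, mem_Iio]
          linarith
        simp only []
        rw [indicator_of_mem h2]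
      · simp only []
        rw [(hnice m).2 y hy, mul_zero, mul_zero]
    have i3 := (hnice m).ce hφ.cpt.isCompact hks.continuous z
    rw [hcut (R m) m z hz, cv_sub_left i1 hI, cv_sub_left hI i3]
    have : cv (S'.indicator (R m)) (b m) z = (cv (S'.indicator (R m)) (b m) z -
      cv (S'.indicator K0) (b m) z) + ((cv (S'.indicator K0) (b m) z - cv k (b m) z) +
        cv k (b m) z) := by ring
    calc ‖cv (S'.indicator (R m)) (b m) z‖ₑ = ‖(cv (S'.indicator (R m)) (b m) z -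
      cv (S'.indicator K0) (b m) z) + ((cv (S'.indicator K0) (b m) z - cv k (b m) z) +
        cv k (b m) z)‖ₑ := by rw [← this]
      _ ≤ _ := (enorm_add_le _ _).trans (by gcongr; exact enorm_add_le _ _)
  refine (lintegral_mono_ae hae).trans ?_
  have q1 : AEMeasurable (fun z => ‖cv (fun z => S'.indicator (R m) z - S'.indicator K0 z) (b m)
      z‖ₑ) (volume.restrict S') :=
    (cv_aesm (((hRm m).indicator hSm).sub hK0'.aestronglyMeasurable) (hbm m)).enorm.restrict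
  have q2 : AEMeasurable (fun z => ‖cv (fun z => S'.indicator K0 z - k z) (b m)
      z‖ₑ) (volume.restrict S') :=
    (cv_aesm (hK0'.aestronglyMeasurable.sub hks.continuous.aestronglyMeasurable)
      (hbm m)).enorm.restrict
  rw [lintegral_add_left' q1, lintegral_add_left' q2]
  have t : δ = ENNReal.ofReal (d / 3) + (ENNReal.ofReal (d / 3) + ENNReal.ofReal (d / 3)) := by
    rw [← ENNReal.ofReal_add (by positivity) (by positivity),
      ← ENNReal.ofReal_add (by positivity) (by positivity), hδd]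
    congr 1
    ring
  rw [t]
  exact add_le_add ((setLIntegral_le_lintegral _ _).trans a1)
    (add_le_add ((setLIntegral_le_lintegral _ _).trans a2)
      ((setLIntegral_le_lintegral _ _).trans hm1))

end Pool.Agent.Helper37.Jef
end

section
/-! # the pointwise identities -/

open MeasureTheory Set Filter Topology
open scoped ENNReal ContDiff

namespace Pool.Agent.Helper37.Jef
open Pool.Agent.Helper42.Jef
variable {n : ℕ}

/-! ## smooth weights supported in the support of `χ` -/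

structure TS (χ φ : ST n → ℝ) : Prop where
  smooth : ContDiff ℝ ∞ φ
  sub : tsupport φ ⊆ tsupport χ

section TS
variable {χ φ ψ : ST n → ℝ}

theorem TS.zero_out (h : TS χ φ) (y : ST n) (hy : y ∉ tsupport χ) : φ y = 0 :=
  image_eq_zero_of_notMem_tsupport fun h1 => hy (h.sub h1)

theorem TS.of_zero (hs : ContDiff ℝ ∞ φ) (h : ∀ y, y ∉ tsupport χ → φ y = 0) : TS χ φ := by
  refine ⟨hs, closure_minimal ?_ (isClosed_tsupport χ)⟩
  intro y hy
  by_contra h1
  exact hy (h y h1)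

theorem TS.refl (h : ContDiff ℝ ∞ χ) : TS χ χ := ⟨h, Subset.rfl⟩

theorem TS.fd (h : TS χ φ) (v : ST n) : TS χ (fun z => fderiv ℝ φ z v) := by
  have hs : ContDiff ℝ ∞ (fun z => fderiv ℝ φ z v) := by
    have h1 : ContDiff ℝ ∞ (fderiv ℝ φ) := h.smooth.fderiv_right (by simp)
    exact h1.clm_apply contDiff_const
  exact ⟨hs, (tsupport_fderiv_apply_subset ℝ v).trans h.sub⟩

theorem TS.dx (h : TS χ φ) (i : Fin n) : TS χ (dx i φ) := h.fd _

theorem TS.dt (h : TS χ φ) : TS χ (dt φ) := h.fd _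

theorem TS.add (h : TS χ φ) (h' : TS χ ψ) : TS χ (fun y => φ y + ψ y) :=
  TS.of_zero (h.smooth.add h'.smooth) fun y hy => by
    simp only [h.zero_out y hy, h'.zero_out y hy, add_zero]

theorem TS.const_mul (h : TS χ φ) (c : ℝ) : TS χ (fun y => c * φ y) :=
  TS.of_zero (contDiff_const.mul h.smooth) fun y hy => by
    simp only [h.zero_out y hy, mul_zero]

theorem TS.sum {ι : Type*} (s : Finset ι) {F : ι → ST n → ℝ} (h : ∀ i ∈ s, TS χ (F i)) :
    TS χ (fun y => ∑ i ∈ s, F i y) :=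
  TS.of_zero (ContDiff.sum fun i hi => (h i hi).smooth) fun y hy =>
    Finset.sum_eq_zero fun i hi => (h i hi).zero_out y hy

theorem TS.test {Ω : Set (Eu n)} {T : ℝ} (hχ : IsTestST Ω T χ) (h : TS χ φ) : IsTestST Ω T φ :=
  ⟨h.smooth, IsCompact.of_isClosed_subset hχ.cpt.isCompact (isClosed_tsupport φ) h.sub,
    h.sub.trans hχ.supp⟩

theorem TS.nice (h : TS χ φ) (hχ : HasCompactSupport χ) {g : ST n → ℝ}
    (hg : LocallyIntegrable g) : Nice (tsupport χ) (fun y => φ y * g y) :=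
  nice_mul h.smooth.continuous hχ.isCompact h.zero_out (hg.integrableOn_isCompact hχ.isCompact)

end TS

/-- the weight `∂_t χ + μ Δ χ` -/
noncomputable def Dc (μ : ℝ) (χ : ST n → ℝ) (y : ST n) : ℝ := dt χ y + μ * ∑ l, dx l (dx l χ) y

theorem TS.Dc {χ : ST n → ℝ} (h : TS χ χ) (μ : ℝ) : TS χ (Dc μ χ) :=
  h.dt.add ((TS.sum Finset.univ fun l _ => (h.dx l).dx l).const_mul μ)

/-! ## integrals -/

structure HI (f : ST n → ℝ) (a : ℝ) : Prop where
  int : Integrable f
  val : ∫ y, f y = a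

section HI
variable {f g : ST n → ℝ} {a b : ℝ}

theorem HI.add (hf : HI f a) (hg : HI g b) : HI (fun y => f y + g y) (a + b) :=
  ⟨hf.int.add hg.int, by rw [integral_add hf.int hg.int, hf.val, hg.val]⟩

theorem HI.sub (hf : HI f a) (hg : HI g b) : HI (fun y => f y - g y) (a - b) :=
  ⟨hf.int.sub hg.int, by rw [integral_sub hf.int hg.int, hf.val, hg.val]⟩

theorem HI.neg (hf : HI f a) : HI (fun y => -f y) (-a) :=
  ⟨hf.int.neg, by rw [integral_neg, hf.val]⟩

theorem HI.cmul (hf : HI f a) (c : ℝ) : HI (fun y => c * f y) (c * a) :=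
  ⟨hf.int.const_mul c, by rw [integral_const_mul, hf.val]⟩

theorem HI.sum {ι : Type*} (s : Finset ι) {F : ι → ST n → ℝ} {A : ι → ℝ}
    (h : ∀ i ∈ s, HI (F i) (A i)) : HI (fun y => ∑ i ∈ s, F i y) (∑ i ∈ s, A i) :=
  ⟨integrable_finsetSum _ fun i hi => (h i hi).int, by
    rw [integral_finsetSum _ fun i hi => (h i hi).int]
    exact Finset.sum_congr rfl fun i hi => (h i hi).val⟩

theorem HI.congr (hf : HI f a) (h : ∀ y, g y = f y) : HI g a := by
  have : g = f := funext h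
  rw [this]; exact hf

theorem HI.of_nice {S : Set (ST n)} (hS : IsCompact S) {u : ST n → ℝ} (hu : Nice S u)
    {k : ST n → ℝ} (hk : Continuous k) (z : ST n) :
    HI (fun y => k (z - y) * u y) (cv k u z) := ⟨hu.ce hS hk z, rfl⟩

end HI

/-! ## derivatives of reflected kernels and products -/

theorem fd_refl {k : ST n → ℝ} (hk : ContDiff ℝ ∞ k) (z y v : ST n) :
    fderiv ℝ (fun y => k (z - y)) y v = -fderiv ℝ k (z - y) v := by
  have h1 : HasFDerivAt (fun y : ST n => z - y) (-ContinuousLinearMap.id ℝ (ST n)) y :=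
    (hasFDerivAt_id y).const_sub z
  have h2 : HasFDerivAt k (fderiv ℝ k (z - y)) (z - y) :=
    ((hk.differentiable (by simp)) _).hasFDerivAt
  have h3 : fderiv ℝ (fun y => k (z - y)) y = _ := (h2.comp y h1).fderiv
  rw [h3]
  simp

theorem fd_mul {f g : ST n → ℝ} (hf : ContDiff ℝ ∞ f) (hg : ContDiff ℝ ∞ g) (y v : ST n) :
    fderiv ℝ (fun y => f y * g y) y v = fderiv ℝ f y v * g y + f y * fderiv ℝ g y v := by
  have h1 : HasFDerivAt f (fderiv ℝ f y) y := ((hf.differentiable (by simp)) _).hasFDerivAt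
  have h2 : HasFDerivAt g (fderiv ℝ g y) y := ((hg.differentiable (by simp)) _).hasFDerivAt
  have h3 : fderiv ℝ (fun y => f y * g y) y = _ := (h1.mul h2).fderiv
  rw [h3]
  simp only [_root_.add_apply, _root_.smul_apply, smul_eq_mul]
  ring

theorem fd_sub {f g : ST n → ℝ} (hf : ContDiff ℝ ∞ f) (hg : ContDiff ℝ ∞ g) (y v : ST n) :
    fderiv ℝ (fun y => f y - g y) y v = fderiv ℝ f y v - fderiv ℝ g y v := by
  have h1 : HasFDerivAt f (fderiv ℝ f y) y := ((hf.differentiable (by simp)) _).hasFDerivAt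
  have h2 : HasFDerivAt g (fderiv ℝ g y) y := ((hg.differentiable (by simp)) _).hasFDerivAt
  have h3 : fderiv ℝ (fun y => f y - g y) y = _ := (h1.sub h2).fderiv
  rw [h3]
  simp

/-! ## identity (A0) -/

/-- the function `∂_k (χ w_i)` -/
noncomputable def XX (χ : ST n → ℝ) (w : ST n → Eu n) (W : ST n → Mt n) (k i : Fin n)
    (y : ST n) : ℝ := dx k χ y * w y i + χ y * W y (i, k)

theorem li_comp {ι : Type*} [Fintype ι] {u : ST n → EuclideanSpace ℝ ι} {q : ℝ≥0∞} (hq : 1 ≤ q)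
    (hu : MemLp u q volume) (i : ι) : LocallyIntegrable (fun z => u z i) :=
  (memLp_comp hu i).locallyIntegrable hq

theorem li_w {Ω : Set (Eu n)} {T : ℝ} {w : ST n → Eu n} {W : ST n → Mt n} (hv : IsVel Ω T w W)
    (i : Fin n) : LocallyIntegrable (fun z => w z i) := li_comp (by norm_num) hv.memv i

theorem li_W {Ω : Set (Eu n)} {T : ℝ} {w : ST n → Eu n} {W : ST n → Mt n} (hv : IsVel Ω T w W)
    (p : Fin n × Fin n) : LocallyIntegrable (fun z => W z p) := li_comp (by norm_num) hv.memG p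

theorem XX_nice {Ω : Set (Eu n)} {T : ℝ} {χ : ST n → ℝ} (hχ : IsTestST Ω T χ)
    {w : ST n → Eu n} {W : ST n → Mt n} (hv : IsVel Ω T w W) (k i : Fin n) :
    Nice (tsupport χ) (XX χ w W k i) :=
  (((TS.refl hχ.smooth).dx k).nice hχ.cpt (li_w hv i)).add
    ((TS.refl hχ.smooth).nice hχ.cpt (li_W hv (i, k)))

theorem cv_XX {Ω : Set (Eu n)} {T : ℝ} {χ : ST n → ℝ} (hχ : IsTestST Ω T χ)
    {w : ST n → Eu n} {W : ST n → Mt n} (hv : IsVel Ω T w W) {K K' : ST n → ℝ}
    (hK : ContDiff ℝ ∞ K) (hK' : Continuous K') (k i : Fin n)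
    (hKK : ∀ z, fderiv ℝ K z (0, bv k) = K' z) (z : ST n) :
    cv K (XX χ w W k i) z = cv K' (fun y => χ y * w y i) z := by
  have t0 := TS.refl hχ.smooth
  have hq : ContDiff ℝ ∞ (fun y => K (z - y)) := hK.comp (contDiff_const.sub contDiff_id)
  have hψ : ContDiff ℝ ∞ (fun y => χ y * K (z - y)) := hχ.smooth.mul hq
  have hψc : HasCompactSupport (fun y => χ y * K (z - y)) := hχ.cpt.mul_right
  have h := vel_weak hv hψ hψc i k
  have e1 : ∀ y, dx k (fun y => χ y * K (z - y)) y = dx k χ y * K (z - y) - χ y * K' (z - y) := by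
    intro y
    unfold dx
    rw [fd_mul hχ.smooth hq, fd_refl hK, hKK]
    ring
  have c := hχ.cpt.isCompact
  have n1 := HI.of_nice c ((t0.dx k).nice hχ.cpt (li_w hv i)) hK.continuous z
  have n2 := HI.of_nice c (t0.nice hχ.cpt (li_W hv (i, k))) hK.continuous z
  have n3 := HI.of_nice c (t0.nice hχ.cpt (li_w hv i)) hK' z
  have l1 := (n2.congr (g := fun y => W y (i, k) * (χ y * K (z - y))) fun y => by ring).val
  have l2 := ((n1.sub n3).congr
    (g := fun y => w y i * dx k (fun y => χ y * K (z - y)) y) fun y => by rw [e1 y]; ring).val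
  have l3 := ((n1.add n2).congr (g := fun y => K (z - y) * XX χ w W k i y)
    fun y => by unfold XX; ring).val
  rw [l1, l2] at h
  have l4 : cv K (XX χ w W k i) z = _ := l3
  rw [l4, h]
  ring

/-! ## identity (b): the vorticity equation -/

/-- lower order part -/
noncomputable def cLow (χ : ST n → ℝ) (μ c : ℝ) (om hi hj : ST n → ℝ) (si sj : Fin n → ST n → ℝ)
    (i j : Fin n) (L : List (Fin n)) (E : List (Fin n) → (ST n → ℝ) → (ST n → ℝ) → ℝ) : ℝ :=
  E L (Dc μ χ) om - 2 * μ * ∑ l, E (l :: L) (dx l χ) om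
    + E L (dx j χ) hi - E (j :: L) χ hi - E L (dx i χ) hj + E (i :: L) χ hj
    + c * ∑ l, (E L (dx l (dx j χ)) (si l) - E (l :: L) (dx j χ) (si l)
        - E (j :: L) (dx l χ) (si l) - E L (dx l (dx i χ)) (sj l)
        + E (l :: L) (dx i χ) (sj l) + E (i :: L) (dx l χ) (sj l))

/-- main part -/
noncomputable def cMain (χ : ST n → ℝ) (c : ℝ) (si sj : Fin n → ST n → ℝ)
    (i j : Fin n) (L : List (Fin n)) (E : List (Fin n) → (ST n → ℝ) → (ST n → ℝ) → ℝ) : ℝ :=
  c * ∑ l, (E (l :: j :: L) χ (si l) - E (l :: i :: L) χ (sj l))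

/-- entries of the vorticity and of the symmetrized stress -/
noncomputable def om (W : ST n → Mt n) (i j : Fin n) (y : ST n) : ℝ := W y (i, j) - W y (j, i)
noncomputable def sg (σ : ST n → Mt n) (i l : Fin n) (y : ST n) : ℝ := sy (σ y) (l, i)

theorem sg_eq (σ : ST n → Mt n) (i l : Fin n) (y : ST n) :
    sg σ i l y = 1 / 2 * (σ y (l, i) + σ y (i, l)) := by
  simp [sg, sy, tr]
  ring

theorem li_om {Ω : Set (Eu n)} {T : ℝ} {w : ST n → Eu n} {W : ST n → Mt n} (hv : IsVel Ω T w W)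
    (i j : Fin n) : LocallyIntegrable (om W i j) := (li_W hv (i, j)).sub (li_W hv (j, i))

theorem li_sg {σ : ST n → Mt n} (hσ : MemLp σ 2 volume) (i l : Fin n) :
    LocallyIntegrable (sg σ i l) := by
  have h := (((memLp_comp hσ (l, i)).add (memLp_comp hσ (i, l))).const_mul
    (1 / 2 : ℝ)).locallyIntegrable (by norm_num)
  have e : sg σ i l = fun y => 1 / 2 * ((fun z => σ z (l, i)) + fun z => σ z (i, l)) y :=
    funext fun y => sg_eq σ i l y
  rw [e]
  exact h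

/-- the vorticity equation, tested -/
def Vort (Ω : Set (Eu n)) (T μ c : ℝ) (W : ST n → Mt n) (h : ST n → Eu n) (σ : ST n → Mt n) :
    Prop := ∀ i j : Fin n, ∀ ψ, IsTestST Ω T ψ →
      ∫ z, (W z (i, j) - W z (j, i)) * (dt ψ z + μ * ∑ l, dx l (dx l ψ) z) =
      ∫ z, (-(h z i * dx j ψ z) + h z j * dx i ψ z - c * ∑ l,
        (sy (σ z) (l, i) * dx l (dx j ψ) z - sy (σ z) (l, j) * dx l (dx i ψ) z))

theorem vort_cv {Ω : Set (Eu n)} {T μ c : ℝ} {χ : ST n → ℝ} (hχ : IsTestST Ω T χ)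
    {w : ST n → Eu n} {W : ST n → Mt n} (hv : IsVel Ω T w W) {h : ST n → Eu n}
    (hh : Integrable h) {σ : ST n → Mt n} (hσ : MemLp σ 2 volume) (hV : Vort Ω T μ c W h σ)
    {ε s : ℝ} (hμ : 0 < μ) (hε : 0 < ε) (hs : 0 < s) (i j : Fin n) (L : List (Fin n))
    (z : ST n) :
    cv (Kp μ ε s L) (fun y => χ y * om W i j y) z =
      cLow χ μ c (om W i j) (fun y => h y i) (fun y => h y j) (sg σ i) (sg σ j) i j L
        (fun L φ g => cv (Kr μ ε s L) (fun y => φ y * g y) z) +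
      cMain χ c (sg σ i) (sg σ j) i j L
        (fun L φ g => cv (Kr μ ε s L) (fun y => φ y * g y) z) := by
  have t0 := TS.refl hχ.smooth
  have cpt := hχ.cpt.isCompact
  have hKs : ∀ L : List (Fin n), ContDiff ℝ ∞ (Kr μ ε s L) := fun L => Kr_smooth hμ hε hs L
  set q : List (Fin n) → ST n → ℝ := fun L y => Kr μ ε s L (z - y) with hq
  have hqs : ∀ L, ContDiff ℝ ∞ (q L) := fun L => (hKs L).comp (contDiff_const.sub contDiff_id)
  have hqx : ∀ L i y, fderiv ℝ (q L) y (0, bv i) = -q (i :: L) y := fun L i y => by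
    simp only [hq]
    rw [fd_refl (hKs L), Kr_deriv_x hμ hε hs]
  have hqt : ∀ L y, fderiv ℝ (q L) y (1, 0) =
      -(Kp μ ε s L (z - y) + μ * ∑ i, q (i :: i :: L) y) := fun L y => by
    simp only [hq]
    rw [fd_refl (hKs L), Kr_deriv_t hμ hε hs]
  set ψ : ST n → ℝ := fun y => χ y * q L y with hψ
  have hψt : IsTestST Ω T ψ :=
    ⟨hχ.smooth.mul (hqs L), hχ.cpt.mul_right, tsupport_mul_subset_left.trans hχ.supp⟩
  have d1 : ∀ i, dx i ψ = fun y => dx i χ y * q L y - χ y * q (i :: L) y := by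
    intro i
    funext y
    change fderiv ℝ (fun y => χ y * q L y) y (0, bv i) = _
    rw [fd_mul hχ.smooth (hqs L), hqx]
    unfold dx
    ring
  have dxs : ∀ i, ContDiff ℝ ∞ (dx i χ) := fun i => (t0.dx i).smooth
  have d2 : ∀ l i y, dx l (dx i ψ) y = dx l (dx i χ) y * q L y - dx i χ y * q (l :: L) y -
      dx l χ y * q (i :: L) y + χ y * q (l :: i :: L) y := by
    intro l i y
    rw [d1 i]
    change fderiv ℝ (fun y => dx i χ y * q L y - χ y * q (i :: L) y) y (0, bv l) = _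
    rw [fd_sub ((dxs i).mul (hqs L)) (hχ.smooth.mul (hqs (i :: L))),
      fd_mul (dxs i) (hqs L), fd_mul hχ.smooth (hqs (i :: L)), hqx, hqx]
    change dx l (dx i χ) y * q L y + dx i χ y * -q (l :: L) y -
      (dx l χ y * q (i :: L) y + χ y * -q (l :: i :: L) y) = _
    ring
  have d3 : ∀ y, dt ψ y = dt χ y * q L y -
      χ y * (Kp μ ε s L (z - y) + μ * ∑ i, q (i :: i :: L) y) := by
    intro y
    change fderiv ℝ (fun y => χ y * q L y) y (1, 0) = _
    rw [fd_mul hχ.smooth (hqs L), hqt]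
    unfold dt
    ring
  have hVV := hV i j ψ hψt
  -- abbreviations
  set E : List (Fin n) → (ST n → ℝ) → (ST n → ℝ) → ℝ :=
    fun L φ g => cv (Kr μ ε s L) (fun y => φ y * g y) z with hE
  have B : ∀ (L : List (Fin n)) {φ g : ST n → ℝ}, TS χ φ → LocallyIntegrable g →
      HI (fun y => q L y * (φ y * g y)) (E L φ g) := fun L φ g h1 h2 =>
    HI.of_nice cpt (h1.nice hχ.cpt h2) (hKs L).continuous z
  have ho := li_om hv i j
  have hhi : ∀ i, LocallyIntegrable (fun y => h y i) := fun i =>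
    li_comp le_rfl (memLp_one_iff_integrable.2 hh) i
  have hsg := fun i l => li_sg hσ i l
  have hKpB : HI (fun y => Kp μ ε s L (z - y) * (χ y * om W i j y))
      (cv (Kp μ ε s L) (fun y => χ y * om W i j y) z) :=
    HI.of_nice cpt (t0.nice hχ.cpt ho) (Kp_smooth hμ hε hs L).continuous z
  -- left side
  have left : HI (fun y => (W y (i, j) - W y (j, i)) * (dt ψ y + μ * ∑ l, dx l (dx l ψ) y))
      (E L (Dc μ χ) (om W i j) - 2 * μ * ∑ l, E (l :: L) (dx l χ) (om W i j) -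
        cv (Kp μ ε s L) (fun y => χ y * om W i j y) z) := by
    refine HI.congr (((B L (t0.Dc μ) ho).sub ((HI.sum Finset.univ fun l _ =>
      B (l :: L) (t0.dx l) ho).cmul (2 * μ))).sub hKpB) fun y => ?_
    have e1 : ∑ l, dx l (dx l ψ) y = (∑ l, dx l (dx l χ) y) * q L y -
        2 * (∑ l, dx l χ y * q (l :: L) y) + χ y * ∑ l, q (l :: l :: L) y := by
      rw [Finset.sum_mul, Finset.mul_sum, Finset.mul_sum, ← Finset.sum_sub_distrib,
        ← Finset.sum_add_distrib]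
      refine Finset.sum_congr rfl fun l _ => ?_
      rw [d2 l l y]
      ring
    have e2 : ∑ l, q (l :: L) y * (dx l χ y * om W i j y) =
        (∑ l, dx l χ y * q (l :: L) y) * om W i j y := by
      rw [Finset.sum_mul]
      refine Finset.sum_congr rfl fun l _ => ?_
      ring
    rw [e1, d3 y, e2]
    unfold Dc om
    ring
  have right : HI (fun y => (-(h y i * dx j ψ y) + h y j * dx i ψ y - c * ∑ l,
        (sy (σ y) (l, i) * dx l (dx j ψ) y - sy (σ y) (l, j) * dx l (dx i ψ) y)))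
      ((E (j :: L) χ (fun y => h y i) - E L (dx j χ) (fun y => h y i)) +
       (E L (dx i χ) (fun y => h y j) - E (i :: L) χ (fun y => h y j)) -
       c * ∑ l, ((E L (dx l (dx j χ)) (sg σ i l) - E (l :: L) (dx j χ) (sg σ i l)
          - E (j :: L) (dx l χ) (sg σ i l) + E (l :: j :: L) χ (sg σ i l)) -
          (E L (dx l (dx i χ)) (sg σ j l) - E (l :: L) (dx i χ) (sg σ j l)
          - E (i :: L) (dx l χ) (sg σ j l) + E (l :: i :: L) χ (sg σ j l)))) := by
    refine HI.congr (((((B (j :: L) t0 (hhi i)).sub (B L (t0.dx j) (hhi i)))).add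
      ((B L (t0.dx i) (hhi j)).sub (B (i :: L) t0 (hhi j)))).sub
      ((HI.sum Finset.univ fun l _ => ((((B L ((t0.dx j).dx l) (hsg i l)).sub
        (B (l :: L) (t0.dx j) (hsg i l))).sub (B (j :: L) (t0.dx l) (hsg i l))).add
        (B (l :: j :: L) t0 (hsg i l))).sub ((((B L ((t0.dx i).dx l) (hsg j l)).sub
        (B (l :: L) (t0.dx i) (hsg j l))).sub (B (i :: L) (t0.dx l) (hsg j l))).add
        (B (l :: i :: L) t0 (hsg j l)))).cmul c)) fun y => ?_
    have e1 : dx j ψ y = dx j χ y * q L y - χ y * q (j :: L) y := congrFun (d1 j) y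
    have e2 : dx i ψ y = dx i χ y * q L y - χ y * q (i :: L) y := congrFun (d1 i) y
    have e3 : ∑ l, (sy (σ y) (l, i) * dx l (dx j ψ) y - sy (σ y) (l, j) * dx l (dx i ψ) y) =
        ∑ l, (q L y * (dx l (dx j χ) y * sg σ i l y) - q (l :: L) y * (dx j χ y * sg σ i l y) -
          q (j :: L) y * (dx l χ y * sg σ i l y) + q (l :: j :: L) y * (χ y * sg σ i l y) -
          (q L y * (dx l (dx i χ) y * sg σ j l y) - q (l :: L) y * (dx i χ y * sg σ j l y) -
          q (i :: L) y * (dx l χ y * sg σ j l y) + q (l :: i :: L) y * (χ y * sg σ j l y))) := by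
      refine Finset.sum_congr rfl fun l _ => ?_
      rw [d2 l j y, d2 l i y]
      unfold sg
      ring
    rw [e1, e2, e3]
    ring
  rw [left.val, right.val] at hVV
  have e4 : cv (Kp μ ε s L) (fun y => χ y * om W i j y) z =
    E L (Dc μ χ) (om W i j) - 2 * μ * ∑ l, E (l :: L) (dx l χ) (om W i j) -
     ((E (j :: L) χ (fun y => h y i) - E L (dx j χ) (fun y => h y i)) +
       (E L (dx i χ) (fun y => h y j) - E (i :: L) χ (fun y => h y j)) -
       c * ∑ l, ((E L (dx l (dx j χ)) (sg σ i l) - E (l :: L) (dx j χ) (sg σ i l)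
          - E (j :: L) (dx l χ) (sg σ i l) + E (l :: j :: L) χ (sg σ i l)) -
          (E L (dx l (dx i χ)) (sg σ j l) - E (l :: L) (dx i χ) (sg σ j l)
          - E (i :: L) (dx l χ) (sg σ j l) + E (l :: i :: L) χ (sg σ j l)))) := by
    linarith
  rw [e4]
  unfold cLow cMain
  have e5 : ∑ l, ((E L (dx l (dx j χ)) (sg σ i l) - E (l :: L) (dx j χ) (sg σ i l)
          - E (j :: L) (dx l χ) (sg σ i l) + E (l :: j :: L) χ (sg σ i l)) -
          (E L (dx l (dx i χ)) (sg σ j l) - E (l :: L) (dx i χ) (sg σ j l)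
          - E (i :: L) (dx l χ) (sg σ j l) + E (l :: i :: L) χ (sg σ j l))) =
      ∑ l, (E L (dx l (dx j χ)) (sg σ i l) - E (l :: L) (dx j χ) (sg σ i l)
        - E (j :: L) (dx l χ) (sg σ i l) - E L (dx l (dx i χ)) (sg σ j l)
        + E (l :: L) (dx i χ) (sg σ j l) + E (i :: L) (dx l χ) (sg σ j l)) +
      ∑ l, (E (l :: j :: L) χ (sg σ i l) - E (l :: i :: L) χ (sg σ j l)) := by
    rw [← Finset.sum_add_distrib]
    refine Finset.sum_congr rfl fun l _ => ?_
    ring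
  rw [e5]
  ring

end Pool.Agent.Helper37.Jef
end

section
/-! # the integrated representation formula -/

open MeasureTheory Set Filter Topology
open scoped ENNReal ContDiff

namespace Pool.Agent.Helper37.Jef
open Pool.Agent.Helper42.Jef
variable {n : ℕ}

/-- the divergence of `χ w` -/
noncomputable def dd (χ : ST n → ℝ) (w : ST n → Eu n) (y : ST n) : ℝ := ∑ p, dx p χ y * w y p

/-- commutator part of the vorticity of `χ w` -/
noncomputable def cw (χ : ST n → ℝ) (w : ST n → Eu n) (i j : Fin n) (y : ST n) : ℝ :=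
  dx j χ y * w y i - dx i χ y * w y j

theorem cw_nice {Ω : Set (Eu n)} {T : ℝ} {χ : ST n → ℝ} (hχ : IsTestST Ω T χ)
    {w : ST n → Eu n} {W : ST n → Mt n} (hv : IsVel Ω T w W) (i j : Fin n) :
    Nice (tsupport χ) (cw χ w i j) :=
  (((TS.refl hχ.smooth).dx j).nice hχ.cpt (li_w hv i)).sub
    (((TS.refl hχ.smooth).dx i).nice hχ.cpt (li_w hv j))

theorem Nice.sum {S : Set (ST n)} {ι : Type*} (s : Finset ι) {F : ι → ST n → ℝ}
    (h : ∀ i ∈ s, Nice S (F i)) : Nice S (fun y => ∑ i ∈ s, F i y) :=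
  ⟨integrable_finsetSum _ fun i hi => (h i hi).1, fun y hy =>
    Finset.sum_eq_zero fun i hi => (h i hi).2 y hy⟩

theorem dd_nice {Ω : Set (Eu n)} {T : ℝ} {χ : ST n → ℝ} (hχ : IsTestST Ω T χ)
    {w : ST n → Eu n} {W : ST n → Mt n} (hv : IsVel Ω T w W) :
    Nice (tsupport χ) (dd χ w) :=
  Nice.sum _ fun p _ => ((TS.refl hχ.smooth).dx p).nice hχ.cpt (li_w hv p)

theorem lap_id {Ω : Set (Eu n)} {T : ℝ} {χ : ST n → ℝ} (hχ : IsTestST Ω T χ)
    {w : ST n → Eu n} {W : ST n → Mt n} (hv : IsVel Ω T w W)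
    {μ ε s : ℝ} (hμ : 0 < μ) (hε : 0 < ε) (hs : 0 < s) (k i : Fin n) (z : ST n) :
    ∑ l, cv (Kp μ ε s [l, l]) (XX χ w W k i) z =
      ∑ j, (cv (Kp μ ε s [k, j]) (fun y => χ y * om W i j y) z +
        cv (Kp μ ε s [k, j]) (cw χ w i j) z) + cv (Kp μ ε s [k, i]) (dd χ w) z := by
  have t0 := TS.refl hχ.smooth
  have cpt := hχ.cpt.isCompact
  have hKs : ∀ L : List (Fin n), ContDiff ℝ ∞ (Kp μ ε s L) := fun L => Kp_smooth hμ hε hs L
  have hX : ∀ (L : List (Fin n)) (k i : Fin n), cv (Kp μ ε s L) (XX χ w W k i) z =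
      cv (Kp μ ε s (k :: L)) (fun y => χ y * w y i) z := fun L k i =>
    cv_XX hχ hv (hKs L) (hKs (k :: L)).continuous k i
      (fun z => Kp_deriv_x hμ hε hs L k z) z
  have h1 : ∀ j, cv (Kp μ ε s [k, j]) (fun y => χ y * om W i j y) z +
        cv (Kp μ ε s [k, j]) (cw χ w i j) z =
      cv (Kp μ ε s [j, k, j]) (fun y => χ y * w y i) z -
        cv (Kp μ ε s [i, k, j]) (fun y => χ y * w y j) z := by
    intro j
    have hc := (hKs [k, j]).continuous
    rw [← cv_add_right ((t0.nice hχ.cpt (li_om hv i j)).ce cpt hc z) ((cw_nice hχ hv i j).ce cpt hc z),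
      ← hX [k, j] j i, ← hX [k, j] i j,
      ← cv_sub_right ((XX_nice hχ hv j i).ce cpt hc z) ((XX_nice hχ hv i j).ce cpt hc z)]
    congr 1
    funext y
    unfold cw om XX
    ring
  have h2 : cv (Kp μ ε s [k, i]) (dd χ w) z =
      ∑ p, cv (Kp μ ε s [p, k, i]) (fun y => χ y * w y p) z := by
    have hc := (hKs [k, i]).continuous
    simp only [← hX]
    rw [← cv_sum_right Finset.univ fun p _ => (XX_nice hχ hv p p).ce cpt hc z]
    unfold cv
    refine integral_congr_ae ?_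
    filter_upwards [vel_trace hv] with y hy
    congr 1
    unfold dd XX
    rw [Finset.sum_add_distrib, ← Finset.mul_sum, hy]
    ring
  simp only [h1, hX]
  rw [h2, Finset.sum_sub_distrib]
  have h3 : ∀ p, cv (Kp μ ε s [p, k, i]) (fun y => χ y * w y p) z =
      cv (Kp μ ε s [i, k, p]) (fun y => χ y * w y p) z := by
    intro p
    have : Kp μ ε s [p, k, i] = Kp μ ε s [i, k, p] := by
      funext y
      refine Kp_perm hμ hε hs ?_ y
      exact (List.reverse_perm [i, k, p])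
    rw [this]
  have h4 : ∀ l, cv (Kp μ ε s [k, l, l]) (fun y => χ y * w y i) z =
      cv (Kp μ ε s [l, k, l]) (fun y => χ y * w y i) z := by
    intro l
    have : Kp μ ε s [k, l, l] = Kp μ ε s [l, k, l] := by
      funext y
      exact Kp_perm hμ hε hs (List.Perm.swap _ _ _) y
    rw [this]
  simp only [h3, h4]
  ring

/-! ## integration in `s` -/

structure HJ (ε : ℝ) (f : ℝ → ℝ) (a : ℝ) : Prop where
  int : IntervalIntegrable f volume ε 1
  val : ∫ s in ε..1, f s = a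

section HJ
variable {ε : ℝ} {f g : ℝ → ℝ} {a b : ℝ}

theorem HJ.add (hf : HJ ε f a) (hg : HJ ε g b) : HJ ε (fun y => f y + g y) (a + b) :=
  ⟨hf.int.add hg.int, by rw [intervalIntegral.integral_add hf.int hg.int, hf.val, hg.val]⟩

theorem HJ.sub (hf : HJ ε f a) (hg : HJ ε g b) : HJ ε (fun y => f y - g y) (a - b) :=
  ⟨hf.int.sub hg.int, by rw [intervalIntegral.integral_sub hf.int hg.int, hf.val, hg.val]⟩

theorem HJ.cmul (hf : HJ ε f a) (c : ℝ) : HJ ε (fun y => c * f y) (c * a) :=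
  ⟨hf.int.const_mul c, by rw [intervalIntegral.integral_const_mul, hf.val]⟩

theorem HJ.sum {ι : Type*} (s : Finset ι) {F : ι → ℝ → ℝ} {A : ι → ℝ}
    (h : ∀ i ∈ s, HJ ε (F i) (A i)) : HJ ε (fun y => ∑ i ∈ s, F i y) (∑ i ∈ s, A i) := by
  refine ⟨?_, ?_⟩
  · have := IntervalIntegrable.sum s (μ := volume) (a := ε) (b := 1) (f := F)
      fun i hi => (h i hi).int
    refine this.congr ?_
    intro x _
    simp
  · rw [intervalIntegral.integral_finsetSum fun i hi => (h i hi).int]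
    exact Finset.sum_congr rfl fun i hi => (h i hi).val

end HJ

/-- the time integrated kernels -/
noncomputable def RR (μ ε : ℝ) (L : List (Fin n)) (z : ST n) : ℝ := ∫ s in ε..1, Kr μ ε s L z
noncomputable def PP (μ ε : ℝ) (L : List (Fin n)) (z : ST n) : ℝ := ∫ s in ε..1, Kp μ ε s L z

theorem RR_cont {μ ε : ℝ} (hμ : 0 < μ) (hε : 0 < ε) (h1 : ε ≤ 1) (L : List (Fin n)) :
    Continuous (RR μ ε L) := JC_cont (JC_Kr hμ hε L) hε h1

theorem PP_cont {μ ε : ℝ} (hμ : 0 < μ) (hε : 0 < ε) (h1 : ε ≤ 1) (L : List (Fin n)) :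
    Continuous (PP μ ε L) := JC_cont (JC_Kp hμ hε L) hε h1

theorem HJ_Kr {μ ε : ℝ} (hμ : 0 < μ) (hε : 0 < ε) (h1 : ε ≤ 1) (L : List (Fin n))
    {S : Set (ST n)} (hS : IsCompact S) {u : ST n → ℝ} (hu : Nice S u) (z : ST n) :
    HJ ε (fun s => cv (Kr μ ε s L) u z) (cv (RR μ ε L) u z) :=
  ⟨(JC_fub (JC_Kr hμ hε L) hε h1 hu.1 hS hu.2 z).1,
    (JC_fub (JC_Kr hμ hε L) hε h1 hu.1 hS hu.2 z).2⟩

theorem HJ_Kp {μ ε : ℝ} (hμ : 0 < μ) (hε : 0 < ε) (h1 : ε ≤ 1) (L : List (Fin n))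
    {S : Set (ST n)} (hS : IsCompact S) {u : ST n → ℝ} (hu : Nice S u) (z : ST n) :
    HJ ε (fun s => cv (Kp μ ε s L) u z) (cv (PP μ ε L) u z) :=
  ⟨(JC_fub (JC_Kp hμ hε L) hε h1 hu.1 hS hu.2 z).1,
    (JC_fub (JC_Kp hμ hε L) hε h1 hu.1 hS hu.2 z).2⟩

theorem rep_id {Ω : Set (Eu n)} {T μ c : ℝ} {χ : ST n → ℝ} (hχ : IsTestST Ω T χ)
    {w : ST n → Eu n} {W : ST n → Mt n} (hv : IsVel Ω T w W) {h : ST n → Eu n}
    (hh : Integrable h) {σ : ST n → Mt n} (hσ : MemLp σ 2 volume) (hV : Vort Ω T μ c W h σ)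
    {ε : ℝ} (hμ : 0 < μ) (hε : 0 < ε) (h1 : ε ≤ 1) (k i : Fin n) (z : ST n) :
    cv (Kp μ ε 1 []) (XX χ w W k i) z - cv (Kp μ ε ε []) (XX χ w W k i) z =
      ∑ j, (cLow χ μ c (om W i j) (fun y => h y i) (fun y => h y j) (sg σ i) (sg σ j) i j [k, j]
          (fun L φ g => cv (RR μ ε L) (fun y => φ y * g y) z) +
        cMain χ c (sg σ i) (sg σ j) i j [k, j]
          (fun L φ g => cv (RR μ ε L) (fun y => φ y * g y) z) +
        cv (PP μ ε [k, j]) (cw χ w i j) z) + cv (PP μ ε [k, i]) (dd χ w) z := by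
  have t0 := TS.refl hχ.smooth
  have cpt := hχ.cpt.isCompact
  have hXn := XX_nice hχ hv k i
  have ho := li_om hv i
  have hhi : ∀ i, LocallyIntegrable (fun y => h y i) := fun i =>
    li_comp le_rfl (memLp_one_iff_integrable.2 hh) i
  have hsg := fun i l => li_sg hσ i l
  -- the left side
  have l1 : cv (Kp μ ε 1 []) (XX χ w W k i) z - cv (Kp μ ε ε []) (XX χ w W k i) z =
      ∑ l, cv (PP μ ε [l, l]) (XX χ w W k i) z := by
    rw [← cv_sum_left Finset.univ fun l _ => hXn.ce cpt (PP_cont hμ hε h1 [l, l]) z,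
      ← cv_sub_left (hXn.ce cpt (Kp_smooth hμ hε one_pos []).continuous z)
        (hXn.ce cpt (Kp_smooth hμ hε hε []).continuous z)]
    congr 1
    funext y
    rw [← Kp_ftc hμ hε h1 y, intervalIntegral.integral_finsetSum]
    · rfl
    · intro l _
      refine ContinuousOn.intervalIntegrable ?_
      rw [uIcc_of_le h1]
      refine ContinuousOn.comp (g := fun q : ℝ × ST n => Kp μ ε q.1 [l, l] q.2)
        (f := fun s : ℝ => (s, y)) (JC_Kp hμ hε [l, l])
        (continuous_id.prodMk continuous_const).continuousOn ?_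
      intro s hs
      exact hε.trans_le hs.1
  have l2 : HJ ε (fun s => ∑ l, cv (Kp μ ε s [l, l]) (XX χ w W k i) z)
      (∑ l, cv (PP μ ε [l, l]) (XX χ w W k i) z) :=
    HJ.sum _ fun l _ => HJ_Kp hμ hε h1 [l, l] cpt hXn z
  -- the right side
  have B : ∀ (L : List (Fin n)) {φ g : ST n → ℝ}, TS χ φ → LocallyIntegrable g →
      HJ ε (fun s => cv (Kr μ ε s L) (fun y => φ y * g y) z)
        (cv (RR μ ε L) (fun y => φ y * g y) z) := fun L φ g h2 h3 =>
    HJ_Kr hμ hε h1 L cpt (h2.nice hχ.cpt h3) z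
  have low : ∀ j, HJ ε (fun s => cLow χ μ c (om W i j) (fun y => h y i) (fun y => h y j)
        (sg σ i) (sg σ j) i j [k, j] (fun L φ g => cv (Kr μ ε s L) (fun y => φ y * g y) z))
      (cLow χ μ c (om W i j) (fun y => h y i) (fun y => h y j) (sg σ i) (sg σ j) i j [k, j]
        (fun L φ g => cv (RR μ ε L) (fun y => φ y * g y) z)) := by
    intro j
    unfold cLow
    exact ((((((B _ (t0.Dc μ) (ho j)).sub
      ((HJ.sum Finset.univ fun l _ => B _ (t0.dx l) (ho j)).cmul (2 * μ))).add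
      (B _ (t0.dx j) (hhi i))).sub (B _ t0 (hhi i))).sub (B _ (t0.dx i) (hhi j))).add
      (B _ t0 (hhi j))).add ((HJ.sum Finset.univ fun l _ =>
        (((((B _ ((t0.dx j).dx l) (hsg i l)).sub (B _ (t0.dx j) (hsg i l))).sub
          (B _ (t0.dx l) (hsg i l))).sub (B _ ((t0.dx i).dx l) (hsg j l))).add
          (B _ (t0.dx i) (hsg j l))).add (B _ (t0.dx l) (hsg j l))).cmul c)
  have main : ∀ j, HJ ε (fun s => cMain χ c (sg σ i) (sg σ j) i j [k, j]
        (fun L φ g => cv (Kr μ ε s L) (fun y => φ y * g y) z))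
      (cMain χ c (sg σ i) (sg σ j) i j [k, j]
        (fun L φ g => cv (RR μ ε L) (fun y => φ y * g y) z)) := by
    intro j
    unfold cMain
    exact (HJ.sum Finset.univ fun l _ => (B _ t0 (hsg i l)).sub (B _ t0 (hsg j l))).cmul c
  have r1 := (HJ.sum Finset.univ fun j (_ : j ∈ Finset.univ) => ((low j).add (main j)).add
    (HJ_Kp hμ hε h1 [k, j] cpt (cw_nice hχ hv i j) z)).add
    (HJ_Kp hμ hε h1 [k, i] cpt (dd_nice hχ hv) z)
  rw [l1, ← l2.val, ← r1.val]
  refine intervalIntegral.integral_congr fun s hs => ?_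
  rw [uIcc_of_le h1] at hs
  have hs0 : 0 < s := hε.trans_le hs.1
  simp only []
  rw [lap_id hχ hv hμ hε hs0 k i z]
  congr 1
  refine Finset.sum_congr rfl fun j _ => ?_
  rw [vort_cv hχ hv hh hσ hV hμ hε hs0 i j [k, j] z]

end Pool.Agent.Helper37.Jef
end

section
open MeasureTheory Set Filter Topology
open scoped ENNReal ContDiff Convolution

namespace Pool.Agent.Helper44.Jef
open Pool.Agent.Helper42.Jef

section gen
variable {α : Type*} [MeasurableSpace α] {μ : Measure α}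
variable {E : Type*} [NormedAddCommGroup E] [InnerProductSpace ℝ E]

theorem int_comb {f g h : α → ℝ} (hf : Integrable f μ) (hg : Integrable g μ)
    (hh : Integrable h μ) :
    (∫ x, f x ∂μ) - 2 * (∫ x, g x ∂μ) + ∫ x, h x ∂μ = ∫ x, (f x - 2 * g x + h x) ∂μ := by
  have h2 : Integrable (fun x => 2 * g x) μ := hg.const_mul 2
  have h3 : Integrable (fun x => f x - 2 * g x) μ := hf.sub h2
  rw [integral_add h3 hh, integral_sub hf h2, integral_const_mul]

omit [InnerProductSpace ℝ E] in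
theorem int_sq {f : α → E} (hf : MemLp f 2 μ) : Integrable (fun x => ‖f x‖ ^ 2) μ :=
  (memLp_two_iff_integrable_sq_norm hf.1).1 hf

theorem int_inner {f g : α → E} (hf : MemLp f 2 μ) (hg : MemLp g 2 μ) :
    Integrable (fun x => inner ℝ (f x) (g x)) μ := by
  refine ((int_sq hf).add (int_sq hg)).mono' (hf.1.inner hg.1) (Eventually.of_forall fun x => ?_)
  have h1 := norm_inner_le_norm (𝕜 := ℝ) (f x) (g x)
  have h2 : ‖f x‖ * ‖g x‖ ≤ ‖f x‖ ^ 2 + ‖g x‖ ^ 2 := by
    nlinarith [sq_nonneg (‖f x‖ - ‖g x‖), sq_nonneg (‖f x‖), sq_nonneg (‖g x‖)]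
  rw [Pi.add_apply]
  exact h1.trans h2

theorem int_wt {f : α → ℝ} (hf : Integrable f μ) {ζ : α → ℝ} (hζ : AEStronglyMeasurable ζ μ)
    {B : ℝ} (hB : ∀ x, |ζ x| ≤ B) : Integrable (fun x => ζ x * f x) μ :=
  hf.bdd_mul hζ (Eventually.of_forall fun x => by rw [Real.norm_eq_abs]; exact hB x)

theorem memLp_wt {f : α → E} (hf : MemLp f 2 μ) {ζ : α → ℝ} (hζ : AEStronglyMeasurable ζ μ)
    {B : ℝ} (hB : ∀ x, |ζ x| ≤ B) : MemLp (fun x => ζ x • f x) 2 μ := by
  refine hf.of_le_mul (c := B) (hζ.smul hf.1) (Eventually.of_forall fun x => ?_)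
  rw [norm_smul, Real.norm_eq_abs]
  exact mul_le_mul_of_nonneg_right (hB x) (norm_nonneg _)

theorem int_smul {f : α → E} (hf : MemLp f 2 μ) {χ : α → ℝ} (hχ : MemLp χ 2 μ) :
    Integrable (fun x => χ x • f x) μ := by
  have h : MemLp (χ • f) 1 μ := hf.smul hχ
  exact memLp_one_iff_integrable.mp h

omit [InnerProductSpace ℝ E] in
/-- `∫ ‖f‖² ≤ C²` -/
theorem int_sq_le {f : α → E} (hf : MemLp f 2 μ) {C : ℝ} (hC : eLpNorm f 2 μ ≤ ENNReal.ofReal C) :
    ∫ x, ‖f x‖ ^ 2 ∂μ ≤ (max C 0) ^ 2 := by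
  have h1 : ENNReal.ofReal (∫ x, ‖f x‖ ^ 2 ∂μ) = (eLpNorm f 2 μ) ^ 2 := by
    rw [← lsq, ofReal_integral_eq_lintegral_ofReal (int_sq hf)
      (Eventually.of_forall fun x => by positivity)]
    refine lintegral_congr fun x => ?_
    rw [ENNReal.ofReal_pow (norm_nonneg _), ofReal_norm]
  have h2 : ENNReal.ofReal (∫ x, ‖f x‖ ^ 2 ∂μ) ≤ ENNReal.ofReal ((max C 0) ^ 2) := by
    rw [h1, ENNReal.ofReal_pow (le_max_right _ _)]
    exact pow_le_pow_left' (hC.trans (ENNReal.ofReal_le_ofReal (le_max_left _ _))) 2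
  exact (ENNReal.ofReal_le_ofReal_iff (by positivity)).mp h2

omit [InnerProductSpace ℝ E] in
theorem tendsto_int_sq {f : ℕ → α → E} (hf : ∀ k, MemLp (f k) 2 μ)
    (h : Tendsto (fun k => eLpNorm (f k) 2 μ) atTop (𝓝 0)) :
    Tendsto (fun k => ∫ x, ‖f k x‖ ^ 2 ∂μ) atTop (𝓝 0) := by
  have h1 : ∀ k, ∫ x, ‖f k x‖ ^ 2 ∂μ = ((eLpNorm (f k) 2 μ) ^ 2).toReal := fun k => by
    rw [← lsq, integral_eq_lintegral_of_nonneg_ae (Eventually.of_forall fun x => by positivity)
      (int_sq (hf k)).aestronglyMeasurable]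
    congr 1
    refine lintegral_congr fun x => ?_
    rw [ENNReal.ofReal_pow (norm_nonneg _), ofReal_norm]
  simp only [h1]
  have h2 : Tendsto (fun k => (eLpNorm (f k) 2 μ) ^ 2) atTop (𝓝 0) := by
    have := ENNReal.Tendsto.pow (n := 2) h
    simpa using this
  have := (ENNReal.tendsto_toReal ENNReal.zero_ne_top).comp h2
  exact this

variable {u : ℕ → α → E} {U : α → E} {uk : ℕ → α → E} {ak : ℕ → α → ℝ}

/-- convergence of weighted quadratic quantities -/
theorem quad_conv (h : TV μ u U uk ak) {χ : α → ℝ} (hχ2 : MemLp (fun x => χ x ^ 2) 2 μ)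
    (hχm : AEStronglyMeasurable χ μ) {B : ℝ} (hB : ∀ x, |χ x| ≤ B) {w : α → E}
    (hw : MemLp w 2 μ) (k : ℕ) :
    Tendsto (fun m => ∫ x, χ x ^ 2 * ‖bk ((k : ℝ) + 1) (u m x) - w x‖ ^ 2 ∂μ) atTop
      (𝓝 ((∫ x, χ x ^ 2 * ak k x ∂μ) - 2 * (∫ x, χ x ^ 2 * inner ℝ (uk k x) (w x) ∂μ) +
        ∫ x, χ x ^ 2 * ‖w x‖ ^ 2 ∂μ)) := by
  have hχ2m : AEStronglyMeasurable (fun x => χ x ^ 2) μ := hχm.pow 2
  have hχ2B : ∀ x, |χ x ^ 2| ≤ B ^ 2 := fun x => by
    rw [abs_pow]; exact pow_le_pow_left₀ (abs_nonneg _) (hB x) 2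
  have c1 : Tendsto (fun m => ∫ x, χ x ^ 2 * ‖bk ((k : ℝ) + 1) (u m x)‖ ^ 2 ∂μ) atTop
      (𝓝 (∫ x, χ x ^ 2 * ak k x ∂μ)) := by
    have := (h.wa k).conv (fun x => χ x ^ 2) hχ2
    simpa [real_inner_eq_re_inner, inner, mul_comm] using this
  have c2 : Tendsto (fun m => ∫ x, χ x ^ 2 * inner ℝ (bk ((k : ℝ) + 1) (u m x)) (w x) ∂μ) atTop
      (𝓝 (∫ x, χ x ^ 2 * inner ℝ (uk k x) (w x) ∂μ)) := by
    have := (h.wk k).conv (fun x => χ x ^ 2 • w x) (memLp_wt hw hχ2m hχ2B)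
    simpa only [real_inner_smul_right] using this
  have c3 := (c1.sub (c2.const_mul 2)).add_const (∫ x, χ x ^ 2 * ‖w x‖ ^ 2 ∂μ)
  refine c3.congr fun m => ?_
  have i1 : Integrable (fun x => χ x ^ 2 * ‖bk ((k : ℝ) + 1) (u m x)‖ ^ 2) μ :=
    int_wt (int_sq ((h.wk k).mem m)) hχ2m hχ2B
  have i2 : Integrable (fun x => χ x ^ 2 * inner ℝ (bk ((k : ℝ) + 1) (u m x)) (w x)) μ :=
    int_wt (int_inner ((h.wk k).mem m) hw) hχ2m hχ2B
  have i3 : Integrable (fun x => χ x ^ 2 * ‖w x‖ ^ 2) μ := int_wt (int_sq hw) hχ2m hχ2B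
  rw [int_comb i1 i2 i3]
  refine integral_congr_ae (Eventually.of_forall fun x => ?_)
  simp only
  rw [@norm_sub_sq_real]
  ring

/-- limit of the limits -/
theorem quad_lim (h : TV μ u U uk ak) {χ : α → ℝ} 
    (hχm : AEStronglyMeasurable χ μ) {B : ℝ} (hB : ∀ x, |χ x| ≤ B) {θ : α → ℝ}
    (hθ : Integrable θ μ) (hai : ∀ k, Integrable (ak k) μ)
    (hL2 : Tendsto (fun k => eLpNorm (fun x => uk k x - U x) 2 μ) atTop (𝓝 0))
    (hconv : Tendsto (fun k => ∫ x, |ak k x - ‖uk k x‖ ^ 2 - θ x| ∂μ) atTop (𝓝 0)) :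
    Tendsto (fun k => (∫ x, χ x ^ 2 * ak k x ∂μ) -
      2 * (∫ x, χ x ^ 2 * inner ℝ (uk k x) (U x) ∂μ) + ∫ x, χ x ^ 2 * ‖U x‖ ^ 2 ∂μ) atTop
      (𝓝 (∫ x, χ x ^ 2 * θ x ∂μ)) ∧
    Tendsto (fun k => ∫ x, χ x ^ 2 * (ak k x - ‖uk k x‖ ^ 2) ∂μ) atTop
      (𝓝 (∫ x, χ x ^ 2 * θ x ∂μ)) := by
  have hχ2m : AEStronglyMeasurable (fun x => χ x ^ 2) μ := hχm.pow 2
  have hχ2B : ∀ x, |χ x ^ 2| ≤ B ^ 2 := fun x => by
    rw [abs_pow]; exact pow_le_pow_left₀ (abs_nonneg _) (hB x) 2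
  have hmem : ∀ k, MemLp (uk k) 2 μ := fun k => (h.wk k).memU
  have hmemU : MemLp U 2 μ := h.w.memU
  have hmem2 : ∀ k, MemLp (fun x => uk k x - U x) 2 μ := fun k => (hmem k).sub hmemU
  have hsq := tendsto_int_sq hmem2 hL2
  -- second statement
  have second : Tendsto (fun k => ∫ x, χ x ^ 2 * (ak k x - ‖uk k x‖ ^ 2) ∂μ) atTop
      (𝓝 (∫ x, χ x ^ 2 * θ x ∂μ)) := by
    rw [tendsto_iff_norm_sub_tendsto_zero]
    have hb : Tendsto (fun k => B ^ 2 * ∫ x, |ak k x - ‖uk k x‖ ^ 2 - θ x| ∂μ) atTop (𝓝 0) := by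
      simpa using hconv.const_mul (B ^ 2)
    refine squeeze_zero (fun k => norm_nonneg _) (fun k => ?_) hb
    have i1 : Integrable (fun x => ak k x - ‖uk k x‖ ^ 2) μ := (hai k).sub (int_sq (hmem k))
    rw [← integral_sub (int_wt i1 hχ2m hχ2B) (int_wt hθ hχ2m hχ2B), ← integral_const_mul]
    refine norm_integral_le_of_norm_le ((i1.sub hθ).abs.const_mul _)
      (Eventually.of_forall fun x => ?_)
    rw [← mul_sub, norm_mul, Real.norm_eq_abs, Real.norm_eq_abs]
    exact mul_le_mul_of_nonneg_right (hχ2B x) (abs_nonneg _)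
  refine ⟨?_, second⟩
  have hsmall : Tendsto (fun k => ∫ x, χ x ^ 2 * ‖uk k x - U x‖ ^ 2 ∂μ) atTop (𝓝 0) := by
    have hb : Tendsto (fun k => B ^ 2 * ∫ x, ‖uk k x - U x‖ ^ 2 ∂μ) atTop (𝓝 0) := by
      simpa using hsq.const_mul (B ^ 2)
    refine squeeze_zero (fun k => integral_nonneg fun x => by positivity) (fun k => ?_) hb
    rw [← integral_const_mul]
    refine integral_mono (int_wt (int_sq (hmem2 k)) hχ2m hχ2B) ((int_sq (hmem2 k)).const_mul _)
      fun x => ?_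
    exact mul_le_mul_of_nonneg_right ((le_abs_self _).trans (hχ2B x)) (by positivity)
  have hsum := second.add hsmall
  rw [add_zero] at hsum
  refine hsum.congr fun k => ?_
  have i1 : Integrable (fun x => χ x ^ 2 * (ak k x - ‖uk k x‖ ^ 2)) μ :=
    int_wt ((hai k).sub (int_sq (hmem k))) hχ2m hχ2B
  have i1' : Integrable (fun x => χ x ^ 2 * ak k x) μ := int_wt (hai k) hχ2m hχ2B
  have i2 : Integrable (fun x => χ x ^ 2 * inner ℝ (uk k x) (U x)) μ :=
    int_wt (int_inner (hmem k) hmemU) hχ2m hχ2B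
  have i3 : Integrable (fun x => χ x ^ 2 * ‖U x‖ ^ 2) μ := int_wt (int_sq hmemU) hχ2m hχ2B
  have i4 : Integrable (fun x => χ x ^ 2 * ‖uk k x - U x‖ ^ 2) μ :=
    int_wt (int_sq (hmem2 k)) hχ2m hχ2B
  rw [← integral_add i1 i4, int_comb i1' i2 i3]
  refine integral_congr_ae (Eventually.of_forall fun x => ?_)
  simp only
  rw [@norm_sub_sq_real]
  ring

/-- the limit dominates the truncated variance -/
theorem quad_lower (h : TV μ u U uk ak) {χ : α → ℝ}
    (hχm : AEStronglyMeasurable χ μ) {B : ℝ} (hB : ∀ x, |χ x| ≤ B) {w : α → E}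
    (hw : MemLp w 2 μ) (hai : ∀ k, Integrable (ak k) μ) (k : ℕ) :
    ∫ x, χ x ^ 2 * (ak k x - ‖uk k x‖ ^ 2) ∂μ ≤ (∫ x, χ x ^ 2 * ak k x ∂μ) -
      2 * (∫ x, χ x ^ 2 * inner ℝ (uk k x) (w x) ∂μ) + ∫ x, χ x ^ 2 * ‖w x‖ ^ 2 ∂μ := by
  have hχ2m : AEStronglyMeasurable (fun x => χ x ^ 2) μ := hχm.pow 2
  have hχ2B : ∀ x, |χ x ^ 2| ≤ B ^ 2 := fun x => by
    rw [abs_pow]; exact pow_le_pow_left₀ (abs_nonneg _) (hB x) 2
  have hmem : MemLp (uk k) 2 μ := (h.wk k).memU
  have i1 : Integrable (fun x => χ x ^ 2 * (ak k x - ‖uk k x‖ ^ 2)) μ :=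
    int_wt ((hai k).sub (int_sq hmem)) hχ2m hχ2B
  have i1' : Integrable (fun x => χ x ^ 2 * ak k x) μ := int_wt (hai k) hχ2m hχ2B
  have i2 : Integrable (fun x => χ x ^ 2 * inner ℝ (uk k x) (w x)) μ :=
    int_wt (int_inner hmem hw) hχ2m hχ2B
  have i3 : Integrable (fun x => χ x ^ 2 * ‖w x‖ ^ 2) μ := int_wt (int_sq hw) hχ2m hχ2B
  rw [int_comb i1' i2 i3]
  refine integral_mono i1 ((i1'.sub (i2.const_mul 2)).add i3) fun x => ?_
  have h1 := @norm_sub_sq_real E _ _ (uk k x) (w x)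
  have h2 : 0 ≤ χ x ^ 2 * ‖uk k x - w x‖ ^ 2 := by positivity
  rw [h1] at h2
  nlinarith

end gen

end Pool.Agent.Helper44.Jef
end

section
open MeasureTheory Set Filter Topology
open scoped ENNReal ContDiff Convolution

namespace Pool.Agent.Helper44.Jef
open Pool.Agent.Helper42.Jef

variable {n : ℕ}

theorem real_young {x y s l : ℝ} (hx : 0 ≤ x) (hl : 0 < l) (h : x ≤ y + 2 * s) :
    x ^ 2 ≤ (1 + l) * y ^ 2 + (1 + 1 / l) * (4 * s ^ 2) := by
  have h1 : x ^ 2 ≤ (y + 2 * s) ^ 2 := pow_le_pow_left₀ hx h 2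
  have h2 : 4 * (y * s) ≤ l * y ^ 2 + 1 / l * (4 * s ^ 2) := by
    have h3 : 0 ≤ (l * y - 2 * s) ^ 2 / l := by positivity
    have h4 : (l * y - 2 * s) ^ 2 / l = l * y ^ 2 - 4 * (y * s) + 1 / l * (4 * s ^ 2) := by
      field_simp; ring
    linarith
  nlinarith

theorem comp_int {u : ST n → Mt n} (hu : Integrable u) (q : Fin n × Fin n) :
    Integrable (fun y => u y q) :=
  (EuclideanSpace.proj q : Mt n →L[ℝ] ℝ).integrable_comp hu

theorem comp_mem {u : ST n → Mt n} (hu : MemLp u 2 volume) (q : Fin n × Fin n) :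
    MemLp (fun y => u y q) 2 volume :=
  (EuclideanSpace.proj q : Mt n →L[ℝ] ℝ).comp_memLp' hu

theorem lint_eq {E : Type*} [NormedAddCommGroup E] {f : ST n → E} (hf : MemLp f 2 volume) :
    ∫⁻ z, ‖f z‖ₑ ^ 2 = ENNReal.ofReal (∫ z, ‖f z‖ ^ 2) := by
  rw [ofReal_integral_eq_lintegral_ofReal (int_sq hf) (Eventually.of_forall fun x => by positivity)]
  refine lintegral_congr fun x => ?_
  rw [ENNReal.ofReal_pow (norm_nonneg _), ofReal_norm]

theorem bk_mem {E : Type*} [NormedAddCommGroup E] [InnerProductSpace ℝ E] {t : ST n → E}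
    (ht : MemLp t 2 volume) (k : ℝ) : MemLp (fun y => bk k (t y)) 2 volume :=
  ht.of_le ((bk_cont k).comp_aestronglyMeasurable ht.1) (Eventually.of_forall fun x => bk_norm_le' k _)

theorem main_ineq {κ : (Fin n × Fin n) → (Fin n × Fin n) → ST n → ℝ}
    (hκ : ∀ p q, Integrable (κ p q)) {A : ℝ}
    (hA : ∀ p q, ∀ u : ST n → ℝ, Integrable u → MemLp u 2 volume →
      eLpNorm (cv (κ p q) u) 2 volume ≤ ENNReal.ofReal A * eLpNorm u 2 volume)
    {C : ℝ → ℝ}
    (hC : ∀ p q, ∀ u : ST n → ℝ, Integrable u → MemLp u 2 → ∫ z, |u z| ≤ 1 → ∀ s > 0,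
      volume {z | s < |cv (κ p q) u z|} ≤ ENNReal.ofReal (C s * ∫ z, |u z|))
    {g gl t tl : ST n → Mt n} (hg : MemLp g 2 volume) (hgl : MemLp gl 2 volume)
    (ht : MemLp t 2 volume) (htl : MemLp tl 2 volume)
    {χ : ST n → ℝ} (hχ : Continuous χ) (hχc : HasCompactSupport χ) {B : ℝ} (hB0 : 0 ≤ B)
    (hB : ∀ z, |χ z| ≤ B) (i j : ℕ) {c0 : ℝ} (hc0 : B * ∫ z, ‖t z‖ ^ 2 ≤ c0)
    (hj : c0 ≤ (j : ℝ) + 1) {s l : ℝ} (hs : 0 < s) (hl : 0 < l) :
    ∫ z, χ z ^ 2 * ‖bk ((i : ℝ) + 1) (g z) - bk ((i : ℝ) + 1) (gl z)‖ ^ 2 ≤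
      (1 + l) * (((n * n : ℝ) ^ 2 * (max A 0) ^ 2) *
        ∫ z, χ z ^ 2 * ‖bk ((j : ℝ) + 1) (t z) - tl z‖ ^ 2) +
      (1 + 1 / l) * (4 * s ^ 2) * (volume {z | χ z ≠ 0}).toReal +
      (2 * ((i : ℝ) + 1) * B) ^ 2 * ((n * n : ℝ) ^ 2 *
        (max (C (s / ((n * n : ℝ) ^ 2 + 1))) 0 * (c0 / ((j : ℝ) + 1))) +
        (volume {z | χ z ≠ 0 ∧
          s < ‖χ z • (g z - gl z) - KK κ (fun y => χ y • (t y - tl y)) z‖}).toReal) := by
  have hi1 : (0 : ℝ) < (i : ℝ) + 1 := by positivity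
  have hj1 : (0 : ℝ) < (j : ℝ) + 1 := by positivity
  have hχm : AEStronglyMeasurable χ volume := hχ.aestronglyMeasurable
  have hχL2 : MemLp χ 2 volume := hχ.memLp_of_hasCompactSupport hχc
  have hbk : MemLp (fun y => bk ((j : ℝ) + 1) (t y)) 2 volume := bk_mem ht _
  have htb : MemLp (fun y => t y - bk ((j : ℝ) + 1) (t y)) 2 volume := ht.sub hbk
  have hbl : MemLp (fun y => bk ((j : ℝ) + 1) (t y) - tl y) 2 volume := hbk.sub htl
  set b : ST n → Mt n := fun y => χ y • (t y - bk ((j : ℝ) + 1) (t y)) with hb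
  set u1 : ST n → Mt n := fun y => χ y • (bk ((j : ℝ) + 1) (t y) - tl y) with hu1
  have hb2 : MemLp b 2 volume := memLp_wt htb hχm hB
  have hbI : Integrable b := int_smul htb hχL2
  have hu2 : MemLp u1 2 volume := memLp_wt hbl hχm hB
  have huI : Integrable u1 := int_smul hbl hχL2
  have hsum : (fun y => χ y • (t y - tl y)) = fun y => u1 y + b y := by
    funext y; simp only [hb, hu1, ← smul_add]; congr 1; abel
  have hadd := KK_add hκ (fun q => comp_int huI q) (fun q => comp_int hbI q)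
  rw [hsum]
  set Y := KK κ u1 with hY
  set Z := KK κ b with hZ
  have hYm : AEStronglyMeasurable Y volume := KK_meas hκ (fun q => comp_int huI q)
  have hZm : AEStronglyMeasurable Z volume := KK_meas hκ (fun q => comp_int hbI q)
  set rest : ST n → Mt n := fun z => χ z • (g z - gl z) - KK κ (fun y => u1 y + b y) z with hrest
  set Λ : ℝ := 2 * ((i : ℝ) + 1) * B with hΛ
  have hΛ0 : 0 ≤ Λ := by positivity
  -- the sets
  set S0 : Set (ST n) := {z | χ z ≠ 0} with hS0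
  have hS0o : IsOpen S0 := isOpen_ne_fun hχ continuous_const
  have hS0fin : volume S0 < ⊤ := by
    refine lt_of_le_of_lt (measure_mono ?_) hχc.measure_lt_top
    exact subset_tsupport χ
  set S1 : Set (ST n) := {z | s < ‖Z z‖} with hS1
  set S2 : Set (ST n) := {z | χ z ≠ 0 ∧ s < ‖rest z‖} with hS2
  have hS2fin : volume S2 < ⊤ := lt_of_le_of_lt (measure_mono fun z hz => hz.1) hS0fin
  have hS1n : NullMeasurableSet S1 volume :=
    nullMeasurableSet_lt aemeasurable_const hZm.norm.aemeasurable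
  -- weak type for Z
  have hδ1 : c0 / ((j : ℝ) + 1) ≤ 1 := by rw [div_le_one hj1]; exact hj
  have hbint : ∀ q, ∫ z, |b z q| ≤ c0 / ((j : ℝ) + 1) := by
    intro q
    have h1 : ∫ z, |b z q| ≤ ∫ z, (B / ((j : ℝ) + 1)) * ‖t z‖ ^ 2 := by
      refine integral_mono (comp_int hbI q).abs ((int_sq ht).const_mul _) fun z => ?_
      have h2 : |b z q| ≤ ‖b z‖ := by
        rw [← Real.norm_eq_abs]; exact PiLp.norm_apply_le (b z) q
      have h3 : ‖b z‖ ≤ B * (‖t z‖ ^ 2 / ((j : ℝ) + 1)) := by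
        rw [hb]
        simp only
        rw [norm_smul, Real.norm_eq_abs]
        exact mul_le_mul (hB z) (bk_sub_le' hj1 (t z)) (norm_nonneg _) hB0
      calc |b z q| ≤ _ := h2.trans h3
        _ = _ := by ring
    rw [integral_const_mul] at h1
    refine h1.trans ?_
    rw [div_mul_eq_mul_div]
    exact div_le_div_of_nonneg_right hc0 hj1.le
  have hS1v := KK_weak (κ := κ) (C := C) (fun q => comp_int hbI q) (fun q => comp_mem hb2 q) hC
    (c0 / ((j : ℝ) + 1)) hδ1 hbint s hs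
  -- pointwise inequality
  have hpt : ∀ᵐ z : ST n, ENNReal.ofReal (χ z ^ 2 *
      ‖bk ((i : ℝ) + 1) (g z) - bk ((i : ℝ) + 1) (gl z)‖ ^ 2) ≤
      ENNReal.ofReal (1 + l) * ‖Y z‖ₑ ^ 2 + (S0.indicator
        (fun _ => ENNReal.ofReal ((1 + 1 / l) * (4 * s ^ 2))) z + (S1.indicator
        (fun _ => ENNReal.ofReal (Λ ^ 2)) z + S2.indicator (fun _ => ENNReal.ofReal (Λ ^ 2)) z)) := by
    filter_upwards [hadd] with z hz
    by_cases hz0 : χ z = 0
    · simp [hz0]
    have hz0' : z ∈ S0 := hz0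
    have hbd : χ z ^ 2 * ‖bk ((i : ℝ) + 1) (g z) - bk ((i : ℝ) + 1) (gl z)‖ ^ 2 ≤ Λ ^ 2 := by
      rw [← mul_pow, ← sq_abs (χ z * _), abs_mul, abs_of_nonneg (norm_nonneg _)]
      have h1 : ‖bk ((i : ℝ) + 1) (g z) - bk ((i : ℝ) + 1) (gl z)‖ ≤ 2 * ((i : ℝ) + 1) := by
        calc _ ≤ ‖bk ((i : ℝ) + 1) (g z)‖ + ‖bk ((i : ℝ) + 1) (gl z)‖ := norm_sub_le _ _
          _ ≤ ((i : ℝ) + 1) + ((i : ℝ) + 1) := add_le_add (bk_norm_le_k' hi1 _) (bk_norm_le_k' hi1 _)
          _ = _ := by ring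
      refine pow_le_pow_left₀ (by positivity) ?_ 2
      calc |χ z| * _ ≤ B * (2 * ((i : ℝ) + 1)) := mul_le_mul (hB z) h1 (norm_nonneg _) hB0
        _ = Λ := by rw [hΛ]; ring
    by_cases hz1 : z ∈ S1
    · rw [indicator_of_mem hz1]
      calc _ ≤ ENNReal.ofReal (Λ ^ 2) := ENNReal.ofReal_le_ofReal hbd
        _ ≤ _ := by
          refine le_trans ?_ (self_le_add_left _ _)
          refine le_trans ?_ (self_le_add_left _ _)
          exact self_le_add_right _ _
    by_cases hz2 : z ∈ S2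
    · rw [indicator_of_mem hz2]
      calc _ ≤ ENNReal.ofReal (Λ ^ 2) := ENNReal.ofReal_le_ofReal hbd
        _ ≤ _ := by
          refine le_trans ?_ (self_le_add_left _ _)
          refine le_trans ?_ (self_le_add_left _ _)
          exact self_le_add_left _ _
    · rw [indicator_of_mem hz0']
      have hz1' : ‖Z z‖ ≤ s := not_lt.mp hz1
      have hz2' : ‖rest z‖ ≤ s := by
        by_contra hcon
        exact hz2 ⟨hz0, not_le.mp hcon⟩
      have hd : χ z • (g z - gl z) = Y z + Z z + rest z := by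
        rw [hrest]; simp only; rw [hz]; abel
      have hn : ‖χ z • (g z - gl z)‖ ≤ ‖Y z‖ + 2 * s := by
        rw [hd]
        calc ‖Y z + Z z + rest z‖ ≤ ‖Y z‖ + ‖Z z‖ + ‖rest z‖ := norm_add₃_le
          _ ≤ ‖Y z‖ + s + s := by gcongr
          _ = _ := by ring
      have hx : |χ z| * ‖bk ((i : ℝ) + 1) (g z) - bk ((i : ℝ) + 1) (gl z)‖ ≤ ‖Y z‖ + 2 * s := by
        refine le_trans ?_ hn
        rw [norm_smul, Real.norm_eq_abs]
        exact mul_le_mul_of_nonneg_left (bk_lip' _ _ _) (abs_nonneg _)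
      have hy := real_young (by positivity) hl hx
      rw [mul_pow, sq_abs] at hy
      calc _ ≤ ENNReal.ofReal ((1 + l) * ‖Y z‖ ^ 2 + (1 + 1 / l) * (4 * s ^ 2)) :=
            ENNReal.ofReal_le_ofReal hy
        _ = ENNReal.ofReal (1 + l) * ‖Y z‖ₑ ^ 2 +
            ENNReal.ofReal ((1 + 1 / l) * (4 * s ^ 2)) := by
          rw [ENNReal.ofReal_add (by positivity) (by positivity),
            ENNReal.ofReal_mul (by positivity), ENNReal.ofReal_pow (norm_nonneg _), ofReal_norm]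
        _ ≤ _ := by
          gcongr
          exact self_le_add_right _ _
  -- integrate
  have hint : Integrable (fun z => χ z ^ 2 *
      ‖bk ((i : ℝ) + 1) (g z) - bk ((i : ℝ) + 1) (gl z)‖ ^ 2) := by
    have h1 := int_sq ((bk_mem hg ((i : ℝ) + 1)).sub (bk_mem hgl ((i : ℝ) + 1)))
    refine int_wt (B := B ^ 2) h1 (hχm.pow 2) fun x => ?_
    rw [abs_pow]; exact pow_le_pow_left₀ (abs_nonneg _) (hB x) 2
  have hL : ENNReal.ofReal (∫ z, χ z ^ 2 *
      ‖bk ((i : ℝ) + 1) (g z) - bk ((i : ℝ) + 1) (gl z)‖ ^ 2) ≤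
      ENNReal.ofReal (1 + l) * (∫⁻ z, ‖Y z‖ₑ ^ 2) +
      (ENNReal.ofReal ((1 + 1 / l) * (4 * s ^ 2)) * volume S0 +
      (ENNReal.ofReal (Λ ^ 2) * volume S1 + ENNReal.ofReal (Λ ^ 2) * volume S2)) := by
    rw [ofReal_integral_eq_lintegral_ofReal hint (Eventually.of_forall fun x => by positivity)]
    refine (lintegral_mono_ae hpt).trans ?_
    have hYe : AEMeasurable (fun z => ‖Y z‖ₑ ^ 2) volume := hYm.enorm.pow_const 2
    rw [lintegral_add_left' (hYe.const_mul _), lintegral_const_mul'' _ hYe]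
    rw [lintegral_add_left' (aemeasurable_const.indicator₀ hS0o.measurableSet.nullMeasurableSet)]
    rw [lintegral_add_left' (aemeasurable_const.indicator₀ hS1n)]
    gcongr
    · exact lintegral_indicator_const_le _ _
    · exact lintegral_indicator_const_le _ _
    · exact lintegral_indicator_const_le _ _
  have hYb := KK_L2 hκ (fun q => comp_int huI q) (fun q => comp_mem hu2 q) hA
  have hu1e : ∫⁻ z, ‖u1 z‖ₑ ^ 2 = ENNReal.ofReal (∫ z, χ z ^ 2 *
      ‖bk ((j : ℝ) + 1) (t z) - tl z‖ ^ 2) := by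
    rw [lint_eq hu2]
    congr 1
    refine integral_congr_ae (Eventually.of_forall fun z => ?_)
    simp only [hu1]
    rw [norm_smul, mul_pow, Real.norm_eq_abs, sq_abs]
  rw [hu1e] at hYb
  have hI0 : 0 ≤ ∫ z, χ z ^ 2 * ‖bk ((j : ℝ) + 1) (t z) - tl z‖ ^ 2 :=
    integral_nonneg fun z => by positivity
  have hc00 : 0 ≤ c0 := by
    refine le_trans ?_ hc0
    exact mul_nonneg hB0 (integral_nonneg fun z => by positivity)
  set I := ∫ z, χ z ^ 2 * ‖bk ((j : ℝ) + 1) (t z) - tl z‖ ^ 2 with hI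
  set D := (n * n : ℝ) ^ 2 * (max (C (s / ((n * n : ℝ) ^ 2 + 1))) 0 * (c0 / ((j : ℝ) + 1))) with hD
  have hD0 : 0 ≤ D := by positivity
  set c1 := (1 + 1 / l) * (4 * s ^ 2) with hc1
  have hc10 : 0 ≤ c1 := by positivity
  have hl1 : (0 : ℝ) ≤ 1 + l := by positivity
  set A1 := (n * n : ℝ) ^ 2 * (max A 0) ^ 2 with hA1
  have hA10 : 0 ≤ A1 := by positivity
  have e : ENNReal.ofReal ((1 + l) * (A1 * I) + c1 * (volume S0).toReal +
      Λ ^ 2 * (D + (volume S2).toReal)) =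
      ENNReal.ofReal (1 + l) * (ENNReal.ofReal A1 * ENNReal.ofReal I) +
      (ENNReal.ofReal c1 * volume S0 + (ENNReal.ofReal (Λ ^ 2) * ENNReal.ofReal D +
        ENNReal.ofReal (Λ ^ 2) * volume S2)) := by
    rw [ENNReal.ofReal_add (by positivity) (by positivity),
      ENNReal.ofReal_add (by positivity) (by positivity),
      ENNReal.ofReal_mul hl1, ENNReal.ofReal_mul hA10, ENNReal.ofReal_mul hc10,
      ENNReal.ofReal_toReal hS0fin.ne, ENNReal.ofReal_mul (sq_nonneg Λ),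
      ENNReal.ofReal_add hD0 ENNReal.toReal_nonneg,
      ENNReal.ofReal_toReal hS2fin.ne, mul_add (ENNReal.ofReal (Λ ^ 2)), add_assoc]
  rw [← ENNReal.ofReal_le_ofReal_iff (by positivity), e]
  refine hL.trans ?_
  gcongr

end Pool.Agent.Helper44.Jef
end

section
open MeasureTheory Set Filter Topology
open scoped ENNReal ContDiff Convolution

namespace Pool.Agent.Helper44.Jef
open Pool.Agent.Helper42.Jef

/-- M12 of the blueprint: variance inequality from the representation; the part of `tv_main` (M3)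
which is needed is the hypothesis `tv_main`. -/
theorem star_of_tv (n : ℕ) (tv_main : ∀ (u : ℕ → ST n → Mt n) (U : ST n → Mt n)
      (uk : ℕ → ST n → Mt n) (ak : ℕ → ST n → ℝ), TV volume u U uk ak →
      (∀ k, Integrable (ak k)) ∧
      Tendsto (fun k => eLpNorm (fun x => uk k x - U x) 2 volume) atTop (𝓝 0))
    (A : ℝ) (C : ℝ → ℝ) : ∃ A' : ℝ, 0 ≤ A' ∧
    ∀ (g : ℕ → ST n → Mt n) (gl : ST n → Mt n) (gk : ℕ → ST n → Mt n) (ga : ℕ → ST n → ℝ)
      (t : ℕ → ST n → Mt n) (tl : ST n → Mt n) (tk : ℕ → ST n → Mt n) (ta : ℕ → ST n → ℝ)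
      (V θ : ST n → ℝ),
    TV volume g gl gk ga → TV volume t tl tk ta → Integrable V → Integrable θ →
    Tendsto (fun k => ∫ z, |ga k z - ‖gk k z‖ ^ 2 - V z|) atTop (𝓝 0) →
    Tendsto (fun k => ∫ z, |ta k z - ‖tk k z‖ ^ 2 - θ z|) atTop (𝓝 0) →
    ∀ (χ : ST n → ℝ), Continuous χ → HasCompactSupport χ →
    ∀ κ : ℕ → (Fin n × Fin n) → (Fin n × Fin n) → ST n → ℝ,
    (∀ m p q, Integrable (κ m p q)) →
    (∀ m p q, ∀ u : ST n → ℝ, Integrable u → MemLp u 2 →
      eLpNorm (cv (κ m p q) u) 2 volume ≤ ENNReal.ofReal A * eLpNorm u 2 volume) →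
    (∀ m p q, ∀ u : ST n → ℝ, Integrable u → MemLp u 2 → ∫ z, |u z| ≤ 1 → ∀ s > 0,
      volume {z | s < |cv (κ m p q) u z|} ≤ ENNReal.ofReal (C s * ∫ z, |u z|)) →
    (∀ s : ℝ, 0 < s → Tendsto (fun m => volume {z | χ z ≠ 0 ∧
      s < ‖χ z • (g m z - gl z) - KK (κ m) (fun y => χ y • (t m y - tl y)) z‖})
      atTop (𝓝 0)) →
    ∫ z, χ z ^ 2 * V z ≤ A' * ∫ z, χ z ^ 2 * θ z := by
  refine ⟨(n * n : ℝ) ^ 2 * (max A 0) ^ 2, by positivity, ?_⟩
  intro g gl gk ga t tl tk ta V θ hg ht hV hθ hVc hθc χ hχ hχc κ hκ hA hC hrest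
  obtain ⟨hgai, hgL2⟩ := tv_main _ _ _ _ hg
  obtain ⟨htai, htL2⟩ := tv_main _ _ _ _ ht
  obtain ⟨B0, hB0⟩ := hχ.bounded_above_of_compact_support hχc
  set B := max B0 0 with hBdef
  have hBnn : 0 ≤ B := le_max_right _ _
  have hB : ∀ z, |χ z| ≤ B := fun z => by
    rw [← Real.norm_eq_abs]; exact (hB0 z).trans (le_max_left _ _)
  have hχm : AEStronglyMeasurable χ volume := hχ.aestronglyMeasurable
  have hχL2 : MemLp χ 2 volume := hχ.memLp_of_hasCompactSupport hχc
  have hχ2 : MemLp (fun x => χ x ^ 2) 2 volume := by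
    have h1 : (fun x => χ x ^ 2) = fun x => χ x • χ x := by
      funext x; rw [smul_eq_mul, sq]
    rw [h1]
    exact memLp_wt hχL2 hχm hB
  obtain ⟨C0, hC0⟩ := ht.w.bdd
  set c0 := B * (max C0 0) ^ 2 with hc0def
  have hc0 : ∀ m, B * ∫ z, ‖t m z‖ ^ 2 ≤ c0 := fun m =>
    mul_le_mul_of_nonneg_left (int_sq_le (ht.w.mem m) (hC0 m)) hBnn
  set A1 := (n * n : ℝ) ^ 2 * (max A 0) ^ 2 with hA1
  set Θ := ∫ z, χ z ^ 2 * θ z with hΘ
  set v0 := (volume {z | χ z ≠ 0}).toReal with hv0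
  obtain ⟨hLt, -⟩ := quad_lim ht hχm hB hθ htai htL2 hθc
  obtain ⟨-, hPg⟩ := quad_lim hg hχm hB hV hgai hgL2 hVc
  have hglm : MemLp gl 2 volume := hg.w.memU
  have htlm : MemLp tl 2 volume := ht.w.memU
  -- step A
  have stepA : ∀ (i j : ℕ), c0 ≤ (j : ℝ) + 1 → ∀ (s l : ℝ), 0 < s → 0 < l →
      ∫ x, χ x ^ 2 * (ga i x - ‖gk i x‖ ^ 2) ≤
      (1 + l) * (A1 * ((∫ x, χ x ^ 2 * ta j x) -
        2 * (∫ x, χ x ^ 2 * inner ℝ (tk j x) (tl x)) + ∫ x, χ x ^ 2 * ‖tl x‖ ^ 2)) +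
      (1 + 1 / l) * (4 * s ^ 2) * v0 +
      (2 * ((i : ℝ) + 1) * B) ^ 2 * ((n * n : ℝ) ^ 2 *
        (max (C (s / ((n * n : ℝ) ^ 2 + 1))) 0 * (c0 / ((j : ℝ) + 1))) + 0) := by
    intro i j hj s l hs hl
    have hw := bk_mem hglm ((i : ℝ) + 1)
    refine (quad_lower hg hχm hB hw hgai i).trans ?_
    have hlim1 := quad_conv hg hχ2 hχm hB hw i
    have hlim2 := quad_conv ht hχ2 hχm hB htlm j
    have hlim3 : Tendsto (fun m => (volume {z | χ z ≠ 0 ∧
      s < ‖χ z • (g m z - gl z) - KK (κ m) (fun y => χ y • (t m y - tl y)) z‖}).toReal)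
      atTop (𝓝 0) := by
      have := (ENNReal.tendsto_toReal ENNReal.zero_ne_top).comp (hrest s hs)
      exact this
    have hrhs := ((((hlim2.const_mul A1).const_mul (1 + l))).add_const
      ((1 + 1 / l) * (4 * s ^ 2) * v0)).add ((hlim3.const_add ((n * n : ℝ) ^ 2 *
        (max (C (s / ((n * n : ℝ) ^ 2 + 1))) 0 * (c0 / ((j : ℝ) + 1))))).const_mul
        ((2 * ((i : ℝ) + 1) * B) ^ 2))
    refine le_of_tendsto_of_tendsto' hlim1 hrhs fun m => ?_
    exact main_ineq (hκ m) (hA m) (hC m) (hg.w.mem m) hglm (ht.w.mem m) htlm hχ hχc hBnn hB i j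
      (hc0 m) hj hs hl
  -- step B
  have stepB : ∀ (i : ℕ) (s l : ℝ), 0 < s → 0 < l →
      ∫ x, χ x ^ 2 * (ga i x - ‖gk i x‖ ^ 2) ≤
      (1 + l) * (A1 * Θ) + (1 + 1 / l) * (4 * s ^ 2) * v0 := by
    intro i s l hs hl
    have hD : Tendsto (fun j : ℕ => c0 / ((j : ℝ) + 1)) atTop (𝓝 0) :=
      tendsto_const_div_atTop_nhds_zero_nat c0 |>.comp (tendsto_add_atTop_nat 1) |>.congr
        fun j => by simp
    have h1 := (((hLt.const_mul A1).const_mul (1 + l)).add_const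
      ((1 + 1 / l) * (4 * s ^ 2) * v0)).add ((((hD.const_mul
        (max (C (s / ((n * n : ℝ) ^ 2 + 1))) 0)).const_mul ((n * n : ℝ) ^ 2)).add_const
        0).const_mul ((2 * ((i : ℝ) + 1) * B) ^ 2))
    have h2 : ∀ᶠ j : ℕ in atTop, c0 ≤ (j : ℝ) + 1 := by
      obtain ⟨N, hN⟩ := exists_nat_ge c0
      filter_upwards [eventually_ge_atTop N] with j hj
      have : (N : ℝ) ≤ j := by exact_mod_cast hj
      linarith
    have h3 := ge_of_tendsto h1 (h2.mono fun j hj => stepA i j hj s l hs hl)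
    simpa using h3
  -- step C
  have hseq : Tendsto (fun k : ℕ => 1 / ((k : ℝ) + 1)) atTop (𝓝 0) :=
    tendsto_one_div_add_atTop_nhds_zero_nat
  have stepC : ∀ (i : ℕ) (l : ℝ), 0 < l →
      ∫ x, χ x ^ 2 * (ga i x - ‖gk i x‖ ^ 2) ≤ (1 + l) * (A1 * Θ) := by
    intro i l hl
    have h1 : Tendsto (fun k : ℕ => (1 + l) * (A1 * Θ) +
        (1 + 1 / l) * (4 * (1 / ((k : ℝ) + 1)) ^ 2) * v0) atTop (𝓝 ((1 + l) * (A1 * Θ) +
        (1 + 1 / l) * (4 * 0 ^ 2) * v0)) :=
      ((((hseq.pow 2).const_mul 4).const_mul (1 + 1 / l)).mul_const v0).const_add _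
    have h2 := ge_of_tendsto' h1 fun k => stepB i (1 / ((k : ℝ) + 1)) l (by positivity) hl
    simpa using h2
  -- step D
  have stepD : ∀ i : ℕ, ∫ x, χ x ^ 2 * (ga i x - ‖gk i x‖ ^ 2) ≤ A1 * Θ := by
    intro i
    have h1 : Tendsto (fun k : ℕ => (1 + 1 / ((k : ℝ) + 1)) * (A1 * Θ)) atTop
        (𝓝 ((1 + 0) * (A1 * Θ))) := (hseq.const_add 1).mul_const _
    have h2 := ge_of_tendsto' h1 fun k => stepC i (1 / ((k : ℝ) + 1)) (by positivity)
    simpa using h2
  exact le_of_tendsto' hPg stepD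

end Pool.Agent.Helper44.Jef
end
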