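import Pool.Agent.Helper42.JefB.C5

section
/-! # Elementary velocity fields: slices, translations, divergence -/

open MeasureTheory Set Filter Topology
open scoped ENNReal ContDiff

namespace Pool.Agent.Helper47.Jef

open Pool.Agent.Helper42.Jef

variable {n : ℕ}

theorem fderiv_apply_sum {F : Type*} [NormedAddCommGroup F] [NormedSpace ℝ F]
    (L : Eu n →L[ℝ] F) (h : Eu n) : L h = ∑ j, h j • L (bv j) := by
  conv_lhs => rw [show h = ∑ j, h j • bv j by
    ext i
    simp [bv, Finset.sum_apply, Pi.single_apply]]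
  rw [map_sum]
  simp only [map_smul]

theorem norm_fderiv_le_grad (φ : Eu n → Eu n) (x h : Eu n) :
    ‖fderiv ℝ φ x h‖ ≤ ‖grad φ x‖ * ‖h‖ := by
  have h1 : ‖fderiv ℝ φ x h‖ ^ 2 ≤ (‖grad φ x‖ * ‖h‖) ^ 2 := by
    rw [mul_pow, EuclideanSpace.norm_sq_eq, EuclideanSpace.norm_sq_eq, EuclideanSpace.norm_sq_eq]
    rw [Fintype.sum_prod_type, Finset.sum_mul]
    apply Finset.sum_le_sum
    intro i _
    rw [fderiv_apply_sum (fderiv ℝ φ x) h]
    have h2 : (∑ j, h j • fderiv ℝ φ x (bv j)) i = ∑ j, (fderiv ℝ φ x (bv j)) i * h j := by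
      simp [Finset.sum_apply, mul_comm]
    rw [h2]
    simp only [Real.norm_eq_abs, sq_abs, grad]
    exact Finset.sum_mul_sq_le_sq_mul_sq _ _ _
  exact le_of_sq_le_sq h1 (by positivity)

/-- divergence free smooth compactly supported fields -/
structure VT0 (φ : Eu n → Eu n) : Prop where
  smooth : ContDiff ℝ ∞ φ
  cpt : HasCompactSupport φ
  div0 : ∀ x, dvg φ x = 0

theorem VT0.add {φ ψ : Eu n → Eu n} (h1 : VT0 φ) (h2 : VT0 ψ) : VT0 (fun x => φ x + ψ x) := by
  refine ⟨h1.smooth.add h2.smooth, h1.cpt.add h2.cpt, fun x => ?_⟩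
  have a1 := h1.div0 x
  have a2 := h2.div0 x
  unfold dvg at *
  have h3 : fderiv ℝ (fun x => φ x + ψ x) x = fderiv ℝ φ x + fderiv ℝ ψ x :=
    fderiv_fun_add (h1.smooth.differentiable (by simp) x) (h2.smooth.differentiable (by simp) x)
  rw [h3]
  simp only [add_apply, PiLp.add_apply, Finset.sum_add_distrib]
  rw [a1, a2, add_zero]

theorem VT0.smul {φ : Eu n → Eu n} (h1 : VT0 φ) (c : ℝ) : VT0 (fun x => c • φ x) := by
  refine ⟨(contDiff_const_smul c).comp h1.smooth,
    h1.cpt.comp_left (g := fun y : Eu n => c • y) (smul_zero c), fun x => ?_⟩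
  have a1 := h1.div0 x
  unfold dvg at *
  have h3 : fderiv ℝ (fun x => c • φ x) x = c • fderiv ℝ φ x :=
    fderiv_fun_const_smul (h1.smooth.differentiable (by simp) x) c
  rw [h3]
  simp only [smul_apply, PiLp.smul_apply, smul_eq_mul, ← Finset.mul_sum]
  rw [a1, mul_zero]

theorem VT0.zero : VT0 (fun _ : Eu n => (0 : Eu n)) := by
  refine ⟨contDiff_const, HasCompactSupport.zero, fun x => ?_⟩
  unfold dvg
  simp

theorem VT0.sum {ι : Type*} (s : Finset ι) {φ : ι → Eu n → Eu n} (h : ∀ i, VT0 (φ i)) :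
    VT0 (fun x => ∑ i ∈ s, φ i x) := by
  classical
  induction s using Finset.induction_on with
  | empty => simpa using VT0.zero
  | insert a s ha ih =>
    have : (fun x => ∑ i ∈ insert a s, φ i x) = fun x => φ a x + ∑ i ∈ s, φ i x := by
      ext1 x
      rw [Finset.sum_insert ha]
    rw [this]
    exact (h a).add ih

theorem elem_slice {Ω : Set (Eu n)} {T : ℝ} {v : ST n → Eu n} {G : ST n → Mt n}
    (h : IsElem Ω T v G) (t : ℝ) :
    VT0 (fun x => v (t, x)) ∧ ∀ x, grad (fun x => v (t, x)) x = G (t, x) := by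
  obtain ⟨N, c, φ, hcm, hcb, hc0, hφ, hv, hG⟩ := h
  have hv' : (fun x => v (t, x)) = fun x => ∑ j, c j t • φ j x := by
    ext1 x
    rw [hv]
  have hVT : ∀ j, VT0 (φ j) := fun j => ⟨(hφ j).smooth, (hφ j).cpt, (hφ j).div0⟩
  constructor
  · rw [hv']
    exact VT0.sum _ fun j => (hVT j).smul _
  · intro x
    rw [hv', hG]
    have h1 : fderiv ℝ (fun x => ∑ j, c j t • φ j x) x = ∑ j, c j t • fderiv ℝ (φ j) x := by
      rw [fderiv_fun_sum]
      · congr 1
        ext1 j
        exact fderiv_fun_const_smul ((hφ j).smooth.differentiable (by simp) x) _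
      · intro j _
        exact ((hφ j).smooth.differentiable (by simp) x).const_smul (c j t)
    ext p
    simp [grad, h1, Finset.sum_apply]

theorem elem_meas {Ω : Set (Eu n)} {T : ℝ} {v : ST n → Eu n} {G : ST n → Mt n}
    (h : IsElem Ω T v G) : StronglyMeasurable v ∧ StronglyMeasurable G ∧ ∃ C : ℝ, ∀ z, ‖v z‖ ≤ C := by
  obtain ⟨N, c, φ, hcm, hcb, hc0, hφ, hv, hG⟩ := h
  have hv' : v = fun z => ∑ j, c j z.1 • φ j z.2 := funext hv
  have hG' : G = fun z => ∑ j, c j z.1 • grad (φ j) z.2 := funext hG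
  have hgm : ∀ j, Continuous (grad (φ j)) := by
    intro j
    unfold grad
    have h1 := (hφ j).smooth.continuous_fderiv (by simp)
    refine (PiLp.continuous_toLp 2 _).comp ?_
    apply continuous_pi
    intro p
    fun_prop
  refine ⟨?_, ?_, ?_⟩
  · rw [hv']
    apply Finset.stronglyMeasurable_fun_sum
    intro j _
    exact ((hcm j).comp measurable_fst).stronglyMeasurable.smul
      ((hφ j).smooth.continuous.comp continuous_snd).stronglyMeasurable
  · rw [hG']
    apply Finset.stronglyMeasurable_fun_sum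
    intro j _
    exact ((hcm j).comp measurable_fst).stronglyMeasurable.smul
      ((hgm j).comp continuous_snd).stronglyMeasurable
  · choose C hC using hcb
    have h2 : ∀ j, ∃ D : ℝ, ∀ x, ‖φ j x‖ ≤ D := fun j =>
      (hφ j).cpt.exists_bound_of_continuous (hφ j).smooth.continuous
    choose D hD using h2
    refine ⟨∑ j, C j * D j, fun z => ?_⟩
    rw [hv]
    refine (norm_sum_le _ _).trans (Finset.sum_le_sum fun j _ => ?_)
    rw [norm_smul]
    have h3 := hC j z.1
    have h4 := hD j z.2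
    rw [Real.norm_eq_abs]
    gcongr
    exact le_trans (abs_nonneg _) h3

/-- translation estimate -/
theorem elem_trans {Ω : Set (Eu n)} {T : ℝ} {v : ST n → Eu n} {G : ST n → Mt n}
    (hv : IsElem Ω T v G) (h : Eu n) :
    eLpNorm (fun z => v (shf h z) - v z) 2 volume ≤ ‖h‖ₑ * eLpNorm G 2 volume := by
  obtain ⟨hvm, hGm, -⟩ := elem_meas hv
  have hsq : eLpNorm (fun z => v (shf h z) - v z) 2 volume ^ 2 ≤
      (‖h‖ₑ * eLpNorm G 2 volume) ^ 2 := by
    rw [mul_pow, eLpNorm_two_sq, eLpNorm_two_sq]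
    have hpt : ∀ z : ST n, ‖v (shf h z) - v z‖ₑ ^ 2 ≤
        ∫⁻ s in Icc (0 : ℝ) 1, (‖h‖ₑ * ‖G (shf (s • h) z)‖ₑ) ^ 2 := by
      intro z
      obtain ⟨hVT, hgr⟩ := elem_slice hv z.1
      set f : Eu n → Eu n := fun x => v (z.1, x) with hf
      let γ : ℝ → Eu n := fun s => f (z.2 - s • h)
      have hγd : ∀ s, HasDerivAt γ (fderiv ℝ f (z.2 - s • h) (-h)) s := by
        intro s
        have h1 : HasFDerivAt f (fderiv ℝ f (z.2 - s • h)) (z.2 - s • h) :=
          (hVT.smooth.differentiable (by simp) _).hasFDerivAt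
        have h2 : HasDerivAt (fun s : ℝ => z.2 - s • h) (-h) s := by
          have := ((hasDerivAt_id s).smul_const h).const_sub z.2
          simpa using this
        exact h1.comp_hasDerivAt s h2
      have hγ : ContDiff ℝ 1 γ :=
        (hVT.smooth.of_le (by exact_mod_cast le_top)).comp
          (contDiff_const.sub (contDiff_id.smul contDiff_const))
      have h3 := enorm_sub_le_lintegral_deriv_of_contDiffOn_Icc (f := γ) hγ.contDiffOn
        zero_le_one
      have h4 : γ 1 - γ 0 = v (shf h z) - v z := by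
        simp [γ, f, shf]
      rw [h4] at h3
      have h5 : ∫⁻ s in Icc (0 : ℝ) 1, ‖deriv γ s‖ₑ ≤
          ∫⁻ s in Icc (0 : ℝ) 1, 1 * (‖h‖ₑ * ‖G (shf (s • h) z)‖ₑ) := by
        apply lintegral_mono
        intro s
        simp only [one_mul]
        rw [(hγd s).deriv, map_neg, enorm_neg, mul_comm, ← ofReal_norm, ← ofReal_norm,
          ← ofReal_norm, ← ENNReal.ofReal_mul (norm_nonneg _)]
        apply ENNReal.ofReal_le_ofReal
        have h6 := norm_fderiv_le_grad f (z.2 - s • h) h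
        rw [hgr] at h6
        exact h6
      have hmeas : Measurable (fun s : ℝ => ‖h‖ₑ * ‖G (shf (s • h) z)‖ₑ) := by
        apply Measurable.const_mul
        apply (hGm.comp_measurable _).enorm
        unfold shf
        fun_prop
      calc ‖v (shf h z) - v z‖ₑ ^ 2
          ≤ (∫⁻ s in Icc (0 : ℝ) 1, 1 * (‖h‖ₑ * ‖G (shf (s • h) z)‖ₑ)) ^ 2 := by
            gcongr
            exact h3.trans h5
        _ ≤ (∫⁻ s in Icc (0 : ℝ) 1, 1) * ∫⁻ s in Icc (0 : ℝ) 1,
              1 * (‖h‖ₑ * ‖G (shf (s • h) z)‖ₑ) ^ 2 :=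
            sq_lintegral_le measurable_const hmeas
        _ = _ := by simp
    calc ∫⁻ z, ‖v (shf h z) - v z‖ₑ ^ 2
        ≤ ∫⁻ z : ST n, ∫⁻ s in Icc (0 : ℝ) 1, (‖h‖ₑ * ‖G (shf (s • h) z)‖ₑ) ^ 2 :=
          lintegral_mono hpt
      _ = ∫⁻ s in Icc (0 : ℝ) 1, ∫⁻ z : ST n, (‖h‖ₑ * ‖G (shf (s • h) z)‖ₑ) ^ 2 := by
          apply lintegral_lintegral_swap
          apply Measurable.aemeasurable
          apply Measurable.pow_const
          apply Measurable.const_mul
          apply (hGm.comp_measurable _).enorm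
          unfold shf
          fun_prop
      _ = ∫⁻ s in Icc (0 : ℝ) 1, ‖h‖ₑ ^ 2 * ∫⁻ z, ‖G z‖ₑ ^ 2 := by
          congr 1
          ext s
          have h7 := lintegral_shf (s • h) (fun z => (‖h‖ₑ * ‖G z‖ₑ) ^ 2)
          rw [h7]
          simp only [mul_pow]
          rw [lintegral_const_mul _ (hGm.enorm.pow_const 2)]
      _ = _ := by simp
  exact (ENNReal.pow_le_pow_left_iff (by norm_num)).1 hsq

/-- integration by parts for divergence free fields -/
theorem integral_div_free {F : Type*} [NormedAddCommGroup F] [NormedSpace ℝ F]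
    [FiniteDimensional ℝ F] {φ : Eu n → Eu n} (hφ : VT0 φ) {g : Eu n → F}
    (hg : ContDiff ℝ 1 g) : ∫ x, fderiv ℝ g x (φ x) = 0 := by
  have hgd : Continuous (fderiv ℝ g) := hg.continuous_fderiv one_ne_zero
  have hφi : ∀ i, ContDiff ℝ ∞ (fun x => φ x i) := fun i => by
    have := hφ.smooth
    exact (contDiff_euclidean.1 this) i
  have hφc : ∀ i, HasCompactSupport (fun x => φ x i) := fun i =>
    hφ.cpt.comp_left (g := fun y : Eu n => y i) rfl
  have h1 : ∀ x, fderiv ℝ g x (φ x) = ∑ i, φ x i • fderiv ℝ g x (bv i) := fun x =>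
    fderiv_apply_sum _ _
  have hint : ∀ i, Integrable (fun x => φ x i • fderiv ℝ g x (bv i)) := by
    intro i
    apply Continuous.integrable_of_hasCompactSupport
    · exact (hφi i).continuous.smul (hgd.clm_apply continuous_const)
    · exact (hφc i).smul_right
  have hfd : ∀ i x, fderiv ℝ (fun x => φ x i) x (bv i) = (fderiv ℝ φ x (bv i)) i := by
    intro i x
    have h2 : HasFDerivAt (fun x => φ x i)
        ((EuclideanSpace.proj (𝕜 := ℝ) i : Eu n →L[ℝ] ℝ).comp (fderiv ℝ φ x)) x :=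
      ((EuclideanSpace.proj (𝕜 := ℝ) i : Eu n →L[ℝ] ℝ).hasFDerivAt).comp x
        (hφ.smooth.differentiable (by simp) x).hasFDerivAt
    rw [h2.fderiv]
    rfl
  have hint2 : ∀ i, Integrable (fun x => fderiv ℝ (fun x => φ x i) x (bv i) • g x) := by
    intro i
    apply Continuous.integrable_of_hasCompactSupport
    · exact (((hφi i).continuous_fderiv (by simp)).clm_apply continuous_const).smul hg.continuous
    · apply HasCompactSupport.smul_right
      exact ((hφc i).fderiv (𝕜 := ℝ)).comp_left (g := fun L : Eu n →L[ℝ] ℝ => L (bv i)) rfl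
  have h2 : ∀ i, ∫ x, φ x i • fderiv ℝ g x (bv i) =
      - ∫ x, fderiv ℝ (fun x => φ x i) x (bv i) • g x := by
    intro i
    apply integral_smul_fderiv_eq_neg_fderiv_smul_of_integrable (hint2 i) (hint i)
    · apply Continuous.integrable_of_hasCompactSupport
      · exact (hφi i).continuous.smul hg.continuous
      · exact (hφc i).smul_right
    · intro x _
      exact (hφi i).differentiable (by simp) x
    · intro x _
      exact hg.differentiable one_ne_zero x
  simp only [h1]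
  rw [integral_finsetSum _ fun i _ => hint i]
  simp only [h2]
  rw [Finset.sum_neg_distrib, ← integral_finsetSum _ fun i _ => hint2 i]
  simp only [hfd, ← Finset.sum_smul]
  have h3 : ∀ x, ∑ i, (fderiv ℝ φ x (bv i)) i = 0 := hφ.div0
  simp only [h3, zero_smul, integral_zero, neg_zero]

end Pool.Agent.Helper47.Jef
end

section
/-! # The commutator estimate -/

open MeasureTheory Set Filter Topology
open scoped ENNReal ContDiff

namespace Pool.Agent.Helper47.Jef

open Pool.Agent.Helper42.Jef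

variable {n : ℕ} {E : Type*} [NormedAddCommGroup E] [NormedSpace ℝ E] [FiniteDimensional ℝ E]

/-- `(u v) * ∇ρ_ε` -/
noncomputable def qe (ε : ℝ) (v : ST n → Eu n) (u : ST n → E) (z : ST n) : E :=
  ∫ y, (fderiv ℝ (ro ε) (z.2 - y) (v (z.1, y))) • u (z.1, y)

/-- the commutator -/
noncomputable def re (ε : ℝ) (v : ST n → Eu n) (u : ST n → E) (z : ST n) : E :=
  ∫ y, (fderiv ℝ (ro ε) (z.2 - y) (v (z.1, y) - v z)) • u (z.1, y)

theorem dro_cont (ε : ℝ) : Continuous (fun x : Eu n => fderiv ℝ (ro ε) x) :=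
  (ro_smooth ε).continuous_fderiv (by simp)

theorem dro_cpt {ε : ℝ} (hε : 0 < ε) : HasCompactSupport (fun x : Eu n => fderiv ℝ (ro ε) x) :=
  (ro_cpt hε).fderiv (𝕜 := ℝ)

theorem ker_cont_cpt {ε : ℝ} (hε : 0 < ε) (x : Eu n) {w : Eu n → Eu n} (hw : Continuous w) :
    Continuous (fun y => fderiv ℝ (ro ε) (x - y) (w y)) ∧
    HasCompactSupport (fun y => fderiv ℝ (ro ε) (x - y) (w y)) := by
  constructor
  · exact ((dro_cont ε).comp (continuous_const.sub continuous_id)).clm_apply hw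
  · have h1 : HasCompactSupport (fun y => fderiv ℝ (ro ε) (x - y)) :=
      (dro_cpt hε).comp_homeomorph (Homeomorph.subLeft x)
    apply h1.mono
    intro y hy
    simp only [Function.mem_support] at hy ⊢
    intro h0
    apply hy
    rw [h0]
    simp

omit [FiniteDimensional ℝ E] in
theorem int_ker {ε : ℝ} (hε : 0 < ε) {u : ST n → E} {t : ℝ} (ht : Good u t) (x : Eu n)
    {w : Eu n → Eu n} (hw : Continuous w) :
    Integrable (fun y => (fderiv ℝ (ro ε) (x - y) (w y)) • u (t, y)) :=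
  LocallyIntegrable.integrable_smul_left_of_hasCompactSupport ht
    (ker_cont_cpt hε x hw).1 (ker_cont_cpt hε x hw).2

theorem mo_contDiff {ε : ℝ} (hε : 0 < ε) {u : ST n → E} {t : ℝ} (ht : Good u t) :
    ContDiff ℝ 1 (fun x => mo ε u (t, x)) :=
  (ro_cpt hε).contDiff_convolution_right (ContinuousLinearMap.lsmul ℝ ℝ).flip ht
    ((ro_smooth ε).of_le (by exact_mod_cast le_top))

theorem mo_fderiv {ε : ℝ} (hε : 0 < ε) {u : ST n → E} {t : ℝ} (ht : Good u t) (x w : Eu n) :
    fderiv ℝ (fun x => mo ε u (t, x)) x w = ∫ y, (fderiv ℝ (ro ε) (x - y) w) • u (t, y) := by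
  have h1 := (ro_cpt hε).hasFDerivAt_convolution_right (μ := (volume : Measure (Eu n)))
    (ContinuousLinearMap.lsmul ℝ ℝ : ℝ →L[ℝ] E →L[ℝ] E).flip ht
    ((ro_smooth ε).of_le (by exact_mod_cast le_top)) x
  have h2 : fderiv ℝ (fun x => mo ε u (t, x)) x = _ := h1.fderiv
  rw [h2, convolution_precompR_apply _ ht (dro_cpt hε) (dro_cont ε)]
  rfl

theorem qe_eq_re {ε : ℝ} (hε : 0 < ε) {v : ST n → Eu n} {u : ST n → E} {z : ST n}
    (hz : Good u z.1) (hv : Continuous (fun x => v (z.1, x))) :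
    qe ε v u z = re ε v u z + fderiv ℝ (fun x => mo ε u (z.1, x)) z.2 (v z) := by
  rw [mo_fderiv hε hz]
  unfold qe re
  have a1 := int_ker hε hz z.2 (w := fun y => v (z.1, y) - v z) (hv.sub continuous_const)
  have a2 := int_ker hε hz z.2 (w := fun _ => v z) continuous_const
  rw [← integral_add a1 a2]
  congr 1
  ext y
  rw [← add_smul, ← map_add, sub_add_cancel]

theorem integral_dro_const {ε : ℝ} (hε : 0 < ε) (x w : Eu n) :
    ∫ y, fderiv ℝ (ro ε) (x - y) w = 0 := by
  rw [integral_sub_left_eq_self (fun h => fderiv ℝ (ro (n := n) ε) h w) volume x]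
  have h1 := integral_mul_fderiv_eq_neg_fderiv_mul_of_integrable (μ := (volume : Measure (Eu n)))
    (f := fun _ => (1 : ℝ)) (g := ro (n := n) ε) (v := w) (by simp) ?_ ?_ ?_ ?_
  · simpa using h1
  · simp only [one_mul]
    apply Continuous.integrable_of_hasCompactSupport
    · exact (dro_cont ε).clm_apply continuous_const
    · exact (dro_cpt hε).comp_left (g := fun L : Eu n →L[ℝ] ℝ => L w) rfl
  · simpa using ro_integrable hε
  · intro y _
    exact differentiableAt_const _
  · intro y _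
    exact (ro_smooth ε).differentiable (by simp) y

theorem integral_dro_div {ε : ℝ} {φ : Eu n → Eu n} (hφ : VT0 φ) (x : Eu n) :
    ∫ y, fderiv ℝ (ro ε) (x - y) (φ y) = 0 := by
  have h1 : ContDiff ℝ 1 (fun y : Eu n => ro ε (x - y)) :=
    ((ro_smooth ε).of_le (by exact_mod_cast le_top)).comp (contDiff_const.sub contDiff_id)
  have h2 := integral_div_free hφ h1
  have h3 : ∀ y, fderiv ℝ (fun y : Eu n => ro ε (x - y)) y (φ y) =
      - fderiv ℝ (ro ε) (x - y) (φ y) := by
    intro y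
    have h4 : HasFDerivAt (fun y : Eu n => x - y) (-ContinuousLinearMap.id ℝ (Eu n)) y :=
      (hasFDerivAt_id y).const_sub x
    have h5 := (((ro_smooth ε).differentiable (by simp) (x - y)).hasFDerivAt).comp y h4
    have h6 : fderiv ℝ (fun y : Eu n => ro ε (x - y)) y = _ := h5.fderiv
    rw [h6]
    simp
  simp only [h3] at h2
  rw [integral_neg, neg_eq_zero] at h2
  exact h2

theorem re_eq {ε : ℝ} (hε : 0 < ε) {v : ST n → Eu n} {u : ST n → E} {z : ST n}
    (hz : Good u z.1) (hv : VT0 (fun x => v (z.1, x))) :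
    re ε v u z = ∫ y, (fderiv ℝ (ro ε) (z.2 - y) (v (z.1, y) - v z)) • (u (z.1, y) - u z) := by
  have hc : Continuous (fun y => v (z.1, y) - v z) := hv.smooth.continuous.sub continuous_const
  have h0 : Integrable (fun y => fderiv ℝ (ro ε) (z.2 - y) (v (z.1, y) - v z)) :=
    (ker_cont_cpt hε z.2 hc).1.integrable_of_hasCompactSupport (ker_cont_cpt hε z.2 hc).2
  have h1 : ∫ y, fderiv ℝ (ro ε) (z.2 - y) (v (z.1, y) - v z) = 0 := by
    simp only [map_sub]
    rw [integral_sub, integral_dro_div hv, integral_dro_const hε, sub_zero]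
    · exact (ker_cont_cpt hε z.2 hv.smooth.continuous).1.integrable_of_hasCompactSupport
        (ker_cont_cpt hε z.2 hv.smooth.continuous).2
    · exact (ker_cont_cpt hε z.2 continuous_const).1.integrable_of_hasCompactSupport
        (ker_cont_cpt hε z.2 continuous_const).2
  simp only [smul_sub]
  rw [integral_sub (int_ker hε hz z.2 hc) (h0.smul_const (u z)), integral_smul_const, h1, zero_smul,
    sub_zero]
  rfl

theorem dro_enorm_meas (ε : ℝ) : Measurable (fun h : Eu n => ‖fderiv ℝ (ro ε) h‖ₑ) :=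
  (dro_cont ε).enorm.measurable

/-- the commutator estimate -/
theorem re_bound {ε : ℝ} (hε : 0 < ε) {Ω : Set (Eu n)} {T : ℝ} {v : ST n → Eu n}
    {G : ST n → Mt n} (hv : IsElem Ω T v G) {u : ST n → E} (hu : StronglyMeasurable u)
    (hg : ∀ᵐ t : ℝ, Good u t) {δ : ℝ≥0∞}
    (hδ : ∀ h : Eu n, ‖h‖ ≤ ε → eLpNorm (fun z => u (shf h z) - u z) 2 volume ≤ δ) :
    ∫⁻ z, ‖re ε v u z‖ₑ ≤ Cro n * eLpNorm G 2 volume * δ := by
  obtain ⟨hvm, hGm, -⟩ := elem_meas hv
  have hvs : StronglyMeasurable (fun p : ST n × Eu n => v (shf p.2 p.1) - v p.1) :=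
    (hvm.comp_measurable shf_cont.measurable).sub (hvm.comp_measurable measurable_fst)
  have hus : StronglyMeasurable (fun p : ST n × Eu n => u (shf p.2 p.1) - u p.1) :=
    (hu.comp_measurable shf_cont.measurable).sub (hu.comp_measurable measurable_fst)
  calc ∫⁻ z, ‖re ε v u z‖ₑ
      ≤ ∫⁻ z : ST n, ∫⁻ h, ‖fderiv ℝ (ro ε) h‖ₑ *
          (‖v (shf h z) - v z‖ₑ * ‖u (shf h z) - u z‖ₑ) := by
        apply lintegral_mono_ae
        filter_upwards [ae_of_time hg] with z hz
        rw [re_eq hε hz (elem_slice hv z.1).1]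
        refine (enorm_integral_le_lintegral_enorm _).trans ?_
        have h1 := lintegral_sub_left_eq_self (μ := (volume : Measure (Eu n)))
          (fun y => ‖fderiv ℝ (ro ε) (z.2 - y)‖ₑ *
          (‖v (z.1, y) - v z‖ₑ * ‖u (z.1, y) - u z‖ₑ)) z.2
        simp only [sub_sub_cancel] at h1
        change _ ≤ ∫⁻ h, ‖fderiv ℝ (ro ε) h‖ₑ *
          (‖v (z.1, z.2 - h) - v z‖ₑ * ‖u (z.1, z.2 - h) - u z‖ₑ)
        rw [h1]
        apply lintegral_mono
        intro y
        simp only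
        rw [enorm_smul, ← mul_assoc]
        gcongr
        exact ContinuousLinearMap.le_opENorm _ _
    _ = ∫⁻ h, ‖fderiv ℝ (ro ε) h‖ₑ *
          ∫⁻ z : ST n, (‖v (shf h z) - v z‖ₑ * ‖u (shf h z) - u z‖ₑ) := by
        exact tonelli_kernel (a := fun p : ST n × Eu n =>
          ‖v (shf p.2 p.1) - v p.1‖ₑ * ‖u (shf p.2 p.1) - u p.1‖ₑ) (dro_enorm_meas ε)
          (hvs.enorm.mul hus.enorm)
    _ ≤ ∫⁻ h : Eu n, (‖fderiv ℝ (ro ε) h‖ₑ * ‖h‖ₑ) * (eLpNorm G 2 volume * δ) := by
        apply lintegral_mono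
        intro h
        beta_reduce
        rcases lt_or_ge ε ‖h‖ with hh | hh
        · have h0 : ‖fderiv ℝ (ro ε) h‖ₑ = 0 := by
            rw [← ofReal_norm, dro_zero hε hh, norm_zero, ENNReal.ofReal_zero]
          rw [h0, zero_mul]
          exact zero_le
        · rw [mul_assoc]
          gcongr
          refine (lintegral_enorm_mul_le (hvs.comp_measurable
            (measurable_id.prodMk measurable_const)).aestronglyMeasurable
            (hus.comp_measurable (measurable_id.prodMk measurable_const)).aestronglyMeasurable).trans ?_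
          rw [← mul_assoc]
          gcongr
          · exact elem_trans hv h
          · exact hδ h hh
    _ = (∫⁻ h : Eu n, ‖fderiv ℝ (ro ε) h‖ₑ * ‖h‖ₑ) * (eLpNorm G 2 volume * δ) := by
        apply lintegral_mul_const
        exact (dro_enorm_meas ε).mul measurable_id.enorm
    _ ≤ Cro n * (eLpNorm G 2 volume * δ) := by
        gcongr
        exact dro_bound hε
    _ = _ := by rw [mul_assoc]

omit [FiniteDimensional ℝ E] in
theorem qe_eq (ε : ℝ) (v : ST n → Eu n) (u : ST n → E) (z : ST n) :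
    qe ε v u z = ∫ h, (fderiv ℝ (ro ε) h (v (shf h z))) • u (shf h z) := by
  unfold qe shf
  exact conv_eq (fun h y => (fderiv ℝ (ro ε) h (v (z.1, y))) • u (z.1, y)) z.2

omit [FiniteDimensional ℝ E] in
theorem qe_meas {ε : ℝ} {v : ST n → Eu n} {u : ST n → E} (hv : StronglyMeasurable v)
    (hu : StronglyMeasurable u) : StronglyMeasurable (qe ε v u) := by
  have h1 : qe ε v u = fun z => ∫ h, (fderiv ℝ (ro ε) h (v (shf h z))) • u (shf h z) :=
    funext (qe_eq ε v u)
  rw [h1]
  have h2 : StronglyMeasurable (fun p : ST n × Eu n =>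
      (fderiv ℝ (ro ε) p.2 (v (shf p.2 p.1))) • u (shf p.2 p.1)) := by
    apply StronglyMeasurable.smul
    · have hc : Continuous (fun q : (Eu n →L[ℝ] ℝ) × Eu n => q.1 q.2) :=
        continuous_fst.clm_apply continuous_snd
      exact hc.comp_stronglyMeasurable
        (((dro_cont ε).comp continuous_snd).stronglyMeasurable.prodMk
          (hv.comp_measurable shf_cont.measurable))
    · exact hu.comp_measurable shf_cont.measurable
  exact h2.integral_prod_right'

/-- the constant for fixed `ε` -/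
noncomputable def Cdro (n : ℕ) (ε : ℝ) : ℝ≥0∞ := ∫⁻ h : Eu n, ‖fderiv ℝ (ro ε) h‖ₑ

theorem Cdro_lt_top {ε : ℝ} (hε : 0 < ε) : Cdro n ε < ⊤ :=
  ((dro_cont ε).integrable_of_hasCompactSupport (dro_cpt hε)).2

theorem qe_bound {ε : ℝ} {v : ST n → Eu n} {u : ST n → E}
    (hv : StronglyMeasurable v) (hu : StronglyMeasurable u) :
    ∫⁻ z, ‖qe ε v u z‖ₑ ≤ Cdro n ε * (eLpNorm v 2 volume * eLpNorm u 2 volume) := by
  have hvs : StronglyMeasurable (fun p : ST n × Eu n => v (shf p.2 p.1)) :=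
    hv.comp_measurable shf_cont.measurable
  have hus : StronglyMeasurable (fun p : ST n × Eu n => u (shf p.2 p.1)) :=
    hu.comp_measurable shf_cont.measurable
  calc ∫⁻ z, ‖qe ε v u z‖ₑ
      ≤ ∫⁻ z : ST n, ∫⁻ h, ‖fderiv ℝ (ro ε) h‖ₑ * (‖v (shf h z)‖ₑ * ‖u (shf h z)‖ₑ) := by
        apply lintegral_mono
        intro z
        simp only
        rw [qe_eq]
        refine (enorm_integral_le_lintegral_enorm _).trans ?_
        apply lintegral_mono
        intro h
        simp only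
        rw [enorm_smul, ← mul_assoc]
        gcongr
        exact ContinuousLinearMap.le_opENorm _ _
    _ = ∫⁻ h, ‖fderiv ℝ (ro ε) h‖ₑ * ∫⁻ z : ST n, (‖v (shf h z)‖ₑ * ‖u (shf h z)‖ₑ) := by
        exact tonelli_kernel (a := fun p : ST n × Eu n =>
          ‖v (shf p.2 p.1)‖ₑ * ‖u (shf p.2 p.1)‖ₑ) (dro_enorm_meas ε)
          (hvs.enorm.mul hus.enorm)
    _ = ∫⁻ h : Eu n, ‖fderiv ℝ (ro ε) h‖ₑ * ∫⁻ z : ST n, (‖v z‖ₑ * ‖u z‖ₑ) := by
        congr 1
        ext h
        rw [lintegral_shf h (fun z => ‖v z‖ₑ * ‖u z‖ₑ)]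
    _ = Cdro n ε * ∫⁻ z : ST n, (‖v z‖ₑ * ‖u z‖ₑ) := by
        rw [lintegral_mul_const _ (dro_enorm_meas ε)]
        rfl
    _ ≤ _ := by
        gcongr
        exact lintegral_enorm_mul_le hv.aestronglyMeasurable hu.aestronglyMeasurable

/-- integrability of the products for a.e. time -/
theorem int_vu {ε : ℝ} (hε : 0 < ε) {v : ST n → Eu n} {u : ST n → E}
    (hv : StronglyMeasurable v) (hu : StronglyMeasurable u) (hv2 : MemLp v 2 volume)
    (hu2 : MemLp u 2 volume) :
    ∀ᵐ t : ℝ, ∀ x : Eu n,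
      Integrable (fun y => (fderiv ℝ (ro ε) (x - y) (v (t, y))) • u (t, y)) := by
  have h1 : Integrable (fun z : ST n => ‖v z‖ * ‖u z‖) := by
    exact hv2.norm.integrable_mul hu2.norm
  have h2 : ∀ᵐ t : ℝ, Integrable (fun y : Eu n => ‖v (t, y)‖ * ‖u (t, y)‖) := by
    rw [Measure.volume_eq_prod] at h1
    exact h1.prod_right_ae
  obtain ⟨C, hC⟩ := (dro_cpt (n := n) hε).exists_bound_of_continuous (dro_cont ε)
  filter_upwards [h2] with t ht x
  refine Integrable.mono' (ht.const_mul C) ?_ ?_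
  · apply StronglyMeasurable.aestronglyMeasurable
    apply StronglyMeasurable.smul
    · have hc : Continuous (fun q : (Eu n →L[ℝ] ℝ) × Eu n => q.1 q.2) :=
        continuous_fst.clm_apply continuous_snd
      exact hc.comp_stronglyMeasurable
        (((dro_cont ε).comp (continuous_const.sub continuous_id)).stronglyMeasurable.prodMk
          (hv.comp_measurable (measurable_const.prodMk measurable_id)))
    · exact hu.comp_measurable (measurable_const.prodMk measurable_id)
  · filter_upwards with y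
    rw [norm_smul, ← mul_assoc]
    gcongr
    exact (ContinuousLinearMap.le_opNorm _ _).trans (by gcongr; exact hC _)

end Pool.Agent.Helper47.Jef
end

section
/-! # The mollified equation -/

open MeasureTheory Set Filter Topology
open scoped ENNReal ContDiff

namespace Pool.Agent.Helper47.Jef

open Pool.Agent.Helper42.Jef

variable {n : ℕ} {E E' : Type*} [NormedAddCommGroup E] [NormedSpace ℝ E] [FiniteDimensional ℝ E]
  [NormedAddCommGroup E'] [NormedSpace ℝ E'] [FiniteDimensional ℝ E']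

omit [FiniteDimensional ℝ E] in
theorem int2 {k : ST n → ℝ} (hk : MemLp k 2 volume) {w : ST n → E} (hw : MemLp w 2 volume) :
    Integrable (fun z => k z • w z) :=
  memLp_one_iff_integrable.1 (hw.smul hk)

theorem prod_cont_cpt {η : ℝ → ℝ} {ψ : Eu n → ℝ} (hη : Continuous η) (hηc : HasCompactSupport η)
    (hψ : Continuous ψ) (hψc : HasCompactSupport ψ) :
    Continuous (fun z : ST n => η z.1 * ψ z.2) ∧
    HasCompactSupport (fun z : ST n => η z.1 * ψ z.2) := by
  constructor
  · exact (hη.comp continuous_fst).mul (hψ.comp continuous_snd)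
  · apply HasCompactSupport.intro (hηc.isCompact.prod hψc.isCompact)
    rintro ⟨t, x⟩ hz
    rw [mem_prod, not_and_or] at hz
    rcases hz with hz | hz
    · simp only at hz ⊢
      rw [image_eq_zero_of_notMem_tsupport hz, zero_mul]
    · simp only at hz ⊢
      rw [image_eq_zero_of_notMem_tsupport hz, mul_zero]

theorem kerx_cpt {ε : ℝ} (hε : 0 < ε) (x : Eu n) :
    Continuous (fun y => ro ε (x - y)) ∧ HasCompactSupport (fun y => ro ε (x - y)) :=
  ⟨(ro_smooth ε).continuous.comp (continuous_const.sub continuous_id),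
    (ro_cpt hε).comp_homeomorph (Homeomorph.subLeft x)⟩

theorem kerx_test {ε : ℝ} (hε : 0 < ε) (x : Eu n) : IsTest (fun y => ro ε (x - y)) :=
  ⟨(ro_smooth ε).comp (contDiff_const.sub contDiff_id), (kerx_cpt hε x).2⟩

theorem kerx_fderiv {ε : ℝ} (x y w : Eu n) :
    fderiv ℝ (fun y : Eu n => ro ε (x - y)) y w = - fderiv ℝ (ro ε) (x - y) w := by
  have h4 : HasFDerivAt (fun y : Eu n => x - y) (-ContinuousLinearMap.id ℝ (Eu n)) y :=
    (hasFDerivAt_id y).const_sub x
  have h5 := (((ro_smooth ε).differentiable (by simp) (x - y)).hasFDerivAt).comp y h4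
  have h6 : fderiv ℝ (fun y : Eu n => ro ε (x - y)) y = _ := h5.fderiv
  rw [h6]
  simp

/-- integrability of `D ρ_ε(x - y)(v) u` -/
theorem int_qe {ε : ℝ} (hε : 0 < ε) {v : ST n → Eu n} {u : ST n → E}
    (hv : StronglyMeasurable v) (hu : StronglyMeasurable u) (hv2 : MemLp v 2 volume)
    (hu2 : MemLp u 2 volume) (x : Eu n) :
    Integrable (fun z : ST n => (fderiv ℝ (ro ε) (x - z.2) (v z)) • u z) := by
  have h1 : Integrable (fun z : ST n => ‖v z‖ * ‖u z‖) := hv2.norm.integrable_mul hu2.norm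
  obtain ⟨C, hC⟩ := (dro_cpt (n := n) hε).exists_bound_of_continuous (dro_cont ε)
  refine Integrable.mono' (h1.const_mul C) ?_ ?_
  · apply StronglyMeasurable.aestronglyMeasurable
    apply StronglyMeasurable.smul
    · have hc : Continuous (fun q : (Eu n →L[ℝ] ℝ) × Eu n => q.1 q.2) :=
        continuous_fst.clm_apply continuous_snd
      exact hc.comp_stronglyMeasurable
        (((dro_cont ε).comp (continuous_const.sub continuous_snd)).stronglyMeasurable.prodMk hv)
    · exact hu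
  · filter_upwards with z
    rw [norm_smul, ← mul_assoc]
    gcongr
    exact (ContinuousLinearMap.le_opNorm _ _).trans (by gcongr; exact hC _)

theorem bdd_smul_int {w : ST n → E} (hw : Integrable w) {k : ST n → ℝ} (hk : Continuous k)
    {C : ℝ} (hC : ∀ z, ‖k z‖ ≤ C) : Integrable (fun z => k z • w z) :=
  hw.bdd_smul C hk.aestronglyMeasurable (Eventually.of_forall hC)

/-- the one dimensional identity at every point `x` -/
theorem J_x {ε : ℝ} (hε : 0 < ε) {T : ℝ} (hT : 0 < T) {v : ST n → Eu n} {u F : ST n → E}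
    (hv : StronglyMeasurable v) (hu : StronglyMeasurable u)
    (hv2 : MemLp v 2 volume) (hu2 : MemLp u 2 volume) (hF1 : Integrable F volume)
    (h : TE T v u F) {β : E → E'} (hβ : ContDiff ℝ 1 β) {η : ℝ → ℝ} (hη : IsTime (-1) T η)
    (x : Eu n) :
    ∫ t, (deriv η t • β (mo ε u (t, x)) +
      η t • fderiv ℝ β (mo ε u (t, x)) (mo ε F (t, x) - qe ε v u (t, x))) = 0 := by
  obtain ⟨Cr, hCr⟩ := (kerx_cpt hε x).2.exists_bound_of_continuous (kerx_cpt hε x).1
  have hkc : Continuous (fun z : ST n => ro ε (x - z.2)) := (kerx_cpt hε x).1.comp continuous_snd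
  -- integrability of the building blocks
  have iF : Integrable (fun z : ST n => ro ε (x - z.2) • F z) :=
    bdd_smul_int hF1 hkc (fun z => hCr z.2)
  have iq := int_qe hε hv hu hv2 hu2 x
  have iu : IntegrableOn (fun t => mo ε u (t, x)) (Ioo (-1) T) := by
    have hk2 : MemLp (fun z : ST n => (Ioo (-1 : ℝ) T ×ˢ univ : Set (ST n)).indicator
        (fun z => ro ε (x - z.2)) z) 2 volume := by
      have hind : MemLp ((Ioo (-1 : ℝ) T ×ˢ Metric.closedBall x ε : Set (ST n)).indicator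
          (fun _ => Cr)) 2 volume := by
        apply memLp_indicator_const
        · exact measurableSet_Ioo.prod Metric.isClosed_closedBall.measurableSet
        · right
          rw [Measure.volume_eq_prod, Measure.prod_prod]
          exact (ENNReal.mul_lt_top (by simp) measure_closedBall_lt_top).ne
      refine hind.mono ?_ ?_
      · exact (hkc.stronglyMeasurable.indicator
          (measurableSet_Ioo.prod MeasurableSet.univ)).aestronglyMeasurable
      · filter_upwards with z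
        by_cases hz1 : z.1 ∈ Ioo (-1 : ℝ) T
        · by_cases hz2 : z.2 ∈ Metric.closedBall x ε
          · rw [indicator_of_mem (show z ∈ (Ioo (-1 : ℝ) T ×ˢ univ : Set (ST n)) from ⟨hz1, trivial⟩),
              indicator_of_mem (show z ∈ (Ioo (-1 : ℝ) T ×ˢ Metric.closedBall x ε : Set (ST n))
                from ⟨hz1, hz2⟩)]
            exact (hCr z.2).trans (le_abs_self _)
          · rw [indicator_of_mem (show z ∈ (Ioo (-1 : ℝ) T ×ˢ univ : Set (ST n)) from ⟨hz1, trivial⟩)]
            have : ro ε (x - z.2) = 0 := by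
              apply ro_zero hε
              rw [Metric.mem_closedBall, dist_comm, dist_eq_norm, not_le] at hz2
              exact hz2.le
            rw [this, norm_zero]
            exact norm_nonneg _
        · rw [indicator_of_notMem (fun hm => hz1 hm.1), norm_zero]
          exact norm_nonneg _
    have h1 := int2 hk2 hu2
    rw [Measure.volume_eq_prod] at h1
    have h2 := h1.integral_prod_left
    rw [← integrable_indicator_iff measurableSet_Ioo]
    refine h2.congr ?_
    filter_upwards with t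
    by_cases ht : t ∈ Ioo (-1 : ℝ) T
    · rw [indicator_of_mem ht]
      unfold mo
      congr 1
      ext1 y
      rw [indicator_of_mem (show (t, y) ∈ (Ioo (-1 : ℝ) T ×ˢ univ : Set (ST n)) from ⟨ht, trivial⟩)]
    · rw [indicator_of_notMem ht]
      have : ∀ y : Eu n, (Ioo (-1 : ℝ) T ×ˢ univ : Set (ST n)).indicator
        (fun z => ro ε (x - z.2)) (t, y) = 0 := fun y => indicator_of_notMem (fun hm => ht hm.1) _
      simp only [this, zero_smul, integral_zero]
  have iR : Integrable (fun t => mo ε F (t, x) - qe ε v u (t, x)) := by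
    rw [Measure.volume_eq_prod] at iF iq
    exact iF.integral_prod_left.sub iq.integral_prod_left
  apply oneD (by linarith) iu iR _ hβ hη
  intro ζ hζ
  have hζc : Continuous ζ := hζ.smooth.continuous
  have hζd : Continuous (deriv ζ) := (hζ.smooth.of_le (m := 1) (by exact_mod_cast le_top)).continuous_deriv le_rfl
  obtain ⟨Cz, hCz⟩ := hζ.cpt.exists_bound_of_continuous hζc
  have h0 := h ζ _ hζ (kerx_test hε x)
  simp only [kerx_fderiv] at h0
  -- the three pieces
  have i1 : Integrable (fun z : ST n => (deriv ζ z.1 * ro ε (x - z.2)) • u z) := by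
    obtain ⟨a1, a2⟩ := prod_cont_cpt hζd hζ.cpt.deriv (kerx_cpt hε x).1 (kerx_cpt hε x).2
    exact int2 (a1.memLp_of_hasCompactSupport a2) hu2
  have i2 : Integrable (fun z : ST n => (ζ z.1 * -(fderiv ℝ (ro ε) (x - z.2) (v z))) • u z) := by
    have := bdd_smul_int iq (k := fun z => - ζ z.1) (hζc.comp continuous_fst).neg
      (C := Cz) (fun z => by rw [norm_neg]; exact hCz z.1)
    refine this.congr ?_
    filter_upwards with z
    rw [smul_smul]
    congr 1
    ring
  have i3 : Integrable (fun z : ST n => (ζ z.1 * ro ε (x - z.2)) • F z) := by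
    have := bdd_smul_int iF (k := fun z => ζ z.1) (hζc.comp continuous_fst)
      (C := Cz) (fun z => hCz z.1)
    refine this.congr ?_
    filter_upwards with z
    rw [smul_smul]
  have e0 : ∫ z : ST n, ((deriv ζ z.1 * ro ε (x - z.2) + ζ z.1 * -(fderiv ℝ (ro ε) (x - z.2) (v z))) • u z
      + (ζ z.1 * ro ε (x - z.2)) • F z) =
      (∫ z : ST n, (deriv ζ z.1 * ro ε (x - z.2)) • u z) +
      (∫ z : ST n, (ζ z.1 * -(fderiv ℝ (ro ε) (x - z.2) (v z))) • u z) +
      ∫ z : ST n, (ζ z.1 * ro ε (x - z.2)) • F z := by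
    have i12 : Integrable (fun z : ST n => (deriv ζ z.1 * ro ε (x - z.2)) • u z +
        (ζ z.1 * -(fderiv ℝ (ro ε) (x - z.2) (v z))) • u z) := i1.add i2
    rw [← integral_add i1 i2, ← integral_add i12 i3]
    simp only [add_smul]
  rw [e0] at h0
  have e1 : ∫ z : ST n, (deriv ζ z.1 * ro ε (x - z.2)) • u z = ∫ t, deriv ζ t • mo ε u (t, x) := by
    rw [Measure.volume_eq_prod] at i1 ⊢
    rw [integral_prod _ i1]
    congr 1
    ext1 t
    simp only [mul_smul]
    rw [integral_smul]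
    rfl
  have e2 : ∫ z : ST n, (ζ z.1 * -(fderiv ℝ (ro ε) (x - z.2) (v z))) • u z =
      ∫ t, -(ζ t • qe ε v u (t, x)) := by
    rw [Measure.volume_eq_prod] at i2 ⊢
    rw [integral_prod _ i2]
    congr 1
    ext1 t
    simp only [mul_neg, neg_smul, mul_smul]
    rw [integral_neg, integral_smul]
    rfl
  have e3 : ∫ z : ST n, (ζ z.1 * ro ε (x - z.2)) • F z = ∫ t, ζ t • mo ε F (t, x) := by
    rw [Measure.volume_eq_prod] at i3 ⊢
    rw [integral_prod _ i3]
    congr 1
    ext1 t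
    simp only [mul_smul]
    rw [integral_smul]
    rfl
  -- integrability in time
  have j1 : Integrable (fun t => deriv ζ t • mo ε u (t, x)) := by
    rw [Measure.volume_eq_prod] at i1
    refine i1.integral_prod_left.congr ?_
    filter_upwards with t
    simp only [mul_smul]
    rw [integral_smul]
    rfl
  have j2 : Integrable (fun t => -(ζ t • qe ε v u (t, x))) := by
    rw [Measure.volume_eq_prod] at i2
    refine i2.integral_prod_left.congr ?_
    filter_upwards with t
    simp only [mul_neg, neg_smul, mul_smul]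
    rw [integral_neg, integral_smul]
    rfl
  have j3 : Integrable (fun t => ζ t • mo ε F (t, x)) := by
    rw [Measure.volume_eq_prod] at i3
    refine i3.integral_prod_left.congr ?_
    filter_upwards with t
    simp only [mul_smul]
    rw [integral_smul]
    rfl
  have j12 : Integrable (fun t => deriv ζ t • mo ε u (t, x) + -(ζ t • qe ε v u (t, x))) :=
    j1.add j2
  rw [e1, e2, e3, ← integral_add j1 j2, ← integral_add j12 j3] at h0
  rw [← h0]
  congr 1
  ext1 t
  rw [smul_sub]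
  abel

end Pool.Agent.Helper47.Jef
end

section
/-! # Translation estimate for velocity fields -/

open MeasureTheory Set Filter Topology
open scoped ENNReal NNReal ContDiff

namespace Pool.Agent.Helper41.Jef

open Pool.Agent.Helper42.Jef

variable {n : ℕ}

theorem fderiv_norm_le (φ : Eu n → Eu n) (x h : Eu n) :
    ‖fderiv ℝ φ x h‖ ≤ ‖h‖ * ‖grad φ x‖ := by
  have h1 : ‖fderiv ℝ φ x h‖ ^ 2 ≤ (‖h‖ * ‖grad φ x‖) ^ 2 := by
    have e1 : h = ∑ j, h j • bv j := by
      ext i
      simp [bv, Finset.sum_apply, Pi.single_apply]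
    have e2 : ∀ i, (fderiv ℝ φ x h) i = ∑ j, h j * (grad φ x) (i, j) := by
      intro i
      conv_lhs => rw [e1]
      rw [map_sum]
      simp [grad]
    rw [mul_pow, EuclideanSpace.real_norm_sq_eq, EuclideanSpace.real_norm_sq_eq,
      EuclideanSpace.real_norm_sq_eq, Fintype.sum_prod_type, Finset.mul_sum]
    refine Finset.sum_le_sum fun i _ => ?_
    rw [e2]
    exact Finset.sum_mul_sq_le_sq_mul_sq _ _ _
  exact (pow_le_pow_iff_left₀ (norm_nonneg _) (by positivity) (by norm_num)).1 h1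

theorem trans_smooth {φ : Eu n → Eu n} (hφ : ContDiff ℝ ∞ φ) (h : Eu n) :
    ∫⁻ x, ‖φ (x + h) - φ x‖ₑ ^ 2 ≤ ‖h‖ₑ ^ 2 * ∫⁻ x, ‖grad φ x‖ₑ ^ 2 := by
  have h1 : ∀ x, ‖φ (x + h) - φ x‖ₑ ^ 2 ≤
      ∫⁻ s in Ioc (0:ℝ) 1, ‖h‖ₑ ^ 2 * ‖grad φ (x + s • h)‖ₑ ^ 2 := by
    intro x
    have hd : ∀ s : ℝ, HasDerivAt (fun s : ℝ => φ (x + s • h)) (fderiv ℝ φ (x + s • h) h) s := by
      intro s
      have h2 : HasDerivAt (fun s : ℝ => x + s • h) h s := by
        simpa using ((hasDerivAt_id s).smul_const h).const_add x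
      have h3 : HasFDerivAt φ (fderiv ℝ φ (x + s • h)) (x + s • h) :=
        ((hφ.differentiable (by simp)) _).hasFDerivAt
      exact h3.comp_hasDerivAt s h2
    have hc : Continuous fun s : ℝ => fderiv ℝ φ (x + s • h) h := by
      have h2 : Continuous fun s : ℝ => fderiv ℝ φ (x + s • h) :=
        (hφ.continuous_fderiv (by simp)).comp (by fun_prop)
      exact h2.clm_apply continuous_const
    have h4 : ∫ s in (0:ℝ)..1, fderiv ℝ φ (x + s • h) h = φ (x + h) - φ x := by
      rw [intervalIntegral.integral_eq_sub_of_hasDerivAt (fun s _ => hd s)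
        (hc.intervalIntegrable _ _)]
      simp
    rw [← h4, intervalIntegral.integral_of_le zero_le_one]
    refine (enorm_integral_sq_le hc.aestronglyMeasurable).trans ?_
    rw [Measure.restrict_apply_univ, Real.volume_Ioc, sub_zero, ENNReal.ofReal_one, one_mul]
    refine lintegral_mono fun s => ?_
    show ‖fderiv ℝ φ (x + s • h) h‖ₑ ^ 2 ≤ _
    rw [← mul_pow]
    refine pow_le_pow_left₀ zero_le ?_ 2
    rw [← ofReal_norm, ← ofReal_norm, ← ofReal_norm, ← ENNReal.ofReal_mul (norm_nonneg _)]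
    exact ENNReal.ofReal_le_ofReal (fderiv_norm_le φ _ h)
  calc ∫⁻ x, ‖φ (x + h) - φ x‖ₑ ^ 2
      ≤ ∫⁻ x, ∫⁻ s in Ioc (0:ℝ) 1, ‖h‖ₑ ^ 2 * ‖grad φ (x + s • h)‖ₑ ^ 2 := lintegral_mono h1
    _ = ∫⁻ s in Ioc (0:ℝ) 1, ∫⁻ x, ‖h‖ₑ ^ 2 * ‖grad φ (x + s • h)‖ₑ ^ 2 := by
        refine lintegral_lintegral_swap ?_
        have hc : Continuous fun p : Eu n × ℝ => grad φ (p.1 + p.2 • h) :=
          (grad_continuous hφ).comp (by fun_prop)
        exact ((hc.stronglyMeasurable.enorm.pow_const 2).const_mul _).aemeasurable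
    _ = ∫⁻ s in Ioc (0:ℝ) 1, ‖h‖ₑ ^ 2 * ∫⁻ x, ‖grad φ x‖ₑ ^ 2 := by
        refine lintegral_congr fun s => ?_
        have hc : Continuous fun x : Eu n => grad φ (x + s • h) :=
          (grad_continuous hφ).comp (by fun_prop)
        rw [lintegral_const_mul _ (hc.stronglyMeasurable.enorm.pow_const 2)]
        congr 1
        exact lintegral_add_right_eq_self (fun x => ‖grad φ x‖ₑ ^ 2) (s • h)
    _ = ‖h‖ₑ ^ 2 * ∫⁻ x, ‖grad φ x‖ₑ ^ 2 := by
        rw [setLIntegral_const, Real.volume_Ioc]; simp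

/-- shift in space -/
def sh (h : Eu n) (z : ST n) : ST n := (z.1, z.2 + h)

theorem sh_mp (h : Eu n) : MeasurePreserving (sh h) (volume : Measure (ST n)) volume := by
  exact (MeasurePreserving.id (volume : Measure ℝ)).prod
    (measurePreserving_add_right (volume : Measure (Eu n)) h)

theorem trans_elem {Ω : Set (Eu n)} {T : ℝ} {v : ST n → Eu n} {G : ST n → Mt n}
    (hE : IsElem Ω T v G) (h : Eu n) :
    eLpNorm (fun z => v (sh h z) - v z) 2 volume ≤ ‖h‖ₑ * eLpNorm G 2 volume := by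
  refine eLpNorm_le_of_sq ?_
  have hm : StronglyMeasurable fun z => v (sh h z) - v z :=
    ((elem_sm hE).1.comp_measurable (sh_mp h).measurable).sub (elem_sm hE).1
  rw [mul_pow, eLpNorm_two_sq, lintegral_st hm, lintegral_st (elem_sm hE).2,
    ← lintegral_const_mul]
  · refine lintegral_mono fun t => ?_
    have h1 := trans_smooth (elem_section hE t).1.smooth h
    simp only [(elem_section hE t).2] at h1
    exact h1
  · exact ((elem_sm hE).2.enorm.pow_const 2).lintegral_prod_right'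

/-- translation estimate -/
theorem trans_vel {Ω : Set (Eu n)} {T : ℝ} {v : ST n → Eu n} {G : ST n → Mt n}
    (hE : IsVel Ω T v G) (h : Eu n) :
    eLpNorm (fun z => v (sh h z) - v z) 2 volume ≤ ‖h‖ₑ * eLpNorm G 2 volume := by
  have key : ∀ ε : ℝ, 0 < ε → eLpNorm (fun z => v (sh h z) - v z) 2 volume ≤
      ENNReal.ofReal ε * (2 + ‖h‖ₑ) + ‖h‖ₑ * eLpNorm G 2 volume := by
    intro ε hε
    obtain ⟨a, A, hA, ha1, ha2⟩ := hE.approx ε hε
    have hd : MemLp (v - a) 2 volume := by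
      refine ⟨hE.memv.1.sub (elem_sm hA).1.aestronglyMeasurable, ha1.trans_lt ENNReal.ofReal_lt_top⟩
    have h1 : eLpNorm (fun z => (v - a) (sh h z)) 2 volume ≤ ENNReal.ofReal ε := by
      have := eLpNorm_comp_measurePreserving (p := 2) hd.1 (sh_mp h)
      exact (le_of_eq this).trans ha1
    have h2 := trans_elem hA h
    have h3 : eLpNorm A 2 volume ≤ eLpNorm G 2 volume + ENNReal.ofReal ε := by
      have h4 : A = G - (G - A) := by abel
      rw [h4]
      refine (eLpNorm_sub_le hE.memG.1 (hE.memG.1.sub (elem_sm hA).2.aestronglyMeasurable)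
        (by norm_num)).trans (add_le_add le_rfl ?_)
      exact ha2
    have h5 : (fun z => v (sh h z) - v z) =
        ((fun z => (v - a) (sh h z)) + fun z => a (sh h z) - a z) - (v - a) := by
      funext z
      simp only [Pi.sub_apply, Pi.add_apply]
      abel
    have m1 : AEStronglyMeasurable (fun z => (v - a) (sh h z)) volume :=
      hd.1.comp_measurePreserving (sh_mp h)
    have m2 : AEStronglyMeasurable (fun z => a (sh h z) - a z) volume :=
      (((elem_sm hA).1.comp_measurable (sh_mp h).measurable).sub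
        (elem_sm hA).1).aestronglyMeasurable
    rw [h5]
    calc eLpNorm (((fun z => (v - a) (sh h z)) + fun z => a (sh h z) - a z) - (v - a)) 2 volume
        ≤ eLpNorm ((fun z => (v - a) (sh h z)) + fun z => a (sh h z) - a z) 2 volume +
          eLpNorm (v - a) 2 volume := eLpNorm_sub_le (m1.add m2) hd.1 (by norm_num)
      _ ≤ (eLpNorm (fun z => (v - a) (sh h z)) 2 volume +
          eLpNorm (fun z => a (sh h z) - a z) 2 volume) + eLpNorm (v - a) 2 volume :=
          add_le_add (eLpNorm_add_le m1 m2 (by norm_num)) le_rfl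
      _ ≤ (ENNReal.ofReal ε + ‖h‖ₑ * (eLpNorm G 2 volume + ENNReal.ofReal ε)) +
          ENNReal.ofReal ε :=
          add_le_add (add_le_add h1 (h2.trans (mul_le_mul' le_rfl h3))) ha1
      _ = ENNReal.ofReal ε * (2 + ‖h‖ₑ) + ‖h‖ₑ * eLpNorm G 2 volume := by ring
  have h1 : Tendsto (fun k : ℕ => ENNReal.ofReal (1 / ((k : ℝ) + 1)) * (2 + ‖h‖ₑ) +
      ‖h‖ₑ * eLpNorm G 2 volume) atTop (𝓝 (0 * (2 + ‖h‖ₑ) + ‖h‖ₑ * eLpNorm G 2 volume)) := by
    refine Tendsto.add (ENNReal.Tendsto.mul_const ?_ (Or.inr ?_)) tendsto_const_nhds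
    · have := ENNReal.tendsto_ofReal tendsto_one_div_add_atTop_nhds_zero_nat
      rwa [ENNReal.ofReal_zero] at this
    · exact ENNReal.add_ne_top.2 ⟨by norm_num, enorm_ne_top⟩
  rw [zero_mul, zero_add] at h1
  exact ge_of_tendsto' h1 fun k => key _ (by positivity)

end Pool.Agent.Helper41.Jef
end

section
/-! # Ball averages in the space variable -/

open MeasureTheory Set Filter Topology
open scoped ENNReal NNReal ContDiff

namespace Pool.Agent.Helper41.Jef

open Pool.Agent.Helper42.Jef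

variable {n : ℕ}

/-- unnormalised ball average -/
noncomputable def av (δ : ℝ) (w : ST n → Eu n) (z : ST n) : Eu n :=
  ∫ y in Metric.ball (0 : Eu n) δ, w (sh y z)

theorem sh_prod_measurable : Measurable fun p : ST n × Eu n => sh p.2 p.1 :=
  (measurable_fst.comp measurable_fst).prodMk ((measurable_snd.comp measurable_fst).add
    measurable_snd)

theorem av_sm (δ : ℝ) {w : ST n → Eu n} (hw : StronglyMeasurable w) :
    StronglyMeasurable (av δ w) :=
  (hw.comp_measurable sh_prod_measurable).integral_prod_right'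

theorem section_shift {w : ST n → Eu n} {t : ℝ} (ht : MemLp (fun x => w (t, x)) 2 volume)
    (x : Eu n) : MemLp (fun y => w (t, x + y)) 2 volume :=
  ht.comp_measurePreserving (measurePreserving_add_left volume x)

theorem section_integrable {w : ST n → Eu n} {t : ℝ} (ht : MemLp (fun x => w (t, x)) 2 volume)
    (x : Eu n) (δ : ℝ) : Integrable (fun y => w (t, x + y))
      (volume.restrict (Metric.ball (0 : Eu n) δ)) := by
  have : IsFiniteMeasure (volume.restrict (Metric.ball (0 : Eu n) δ)) :=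
    ⟨by rw [Measure.restrict_apply_univ]; exact measure_ball_lt_top⟩
  exact ((section_shift ht x).restrict _).integrable (by norm_num)

theorem av_diff {w : ST n → Eu n} (hw : StronglyMeasurable w) (hw2 : MemLp w 2 volume)
    {δ : ℝ} {K : ℝ≥0∞}
    (hK : ∀ y : Eu n, eLpNorm (fun z => w (sh y z) - w z) 2 volume ≤ ‖y‖ₑ * K) :
    eLpNorm (fun z => (volume (Metric.ball (0 : Eu n) δ)).toReal • w z - av δ w z) 2 volume ≤
      volume (Metric.ball (0 : Eu n) δ) * (ENNReal.ofReal δ * K) := by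
  set c := volume (Metric.ball (0 : Eu n) δ) with hc
  have hct : c ≠ ⊤ := measure_ball_lt_top.ne
  refine eLpNorm_le_of_sq ?_
  have h1 : ∀ᵐ z : ST n, ‖c.toReal • w z - av δ w z‖ₑ ^ 2 ≤
      c * ∫⁻ y in Metric.ball (0 : Eu n) δ, ‖w (sh y z) - w z‖ₑ ^ 2 := by
    have h2 : ∀ᵐ z : ST n, MemLp (fun x => w (z.1, x)) 2 volume := by
      rw [Measure.volume_eq_prod]
      exact Measure.quasiMeasurePreserving_fst.ae (ae_section hw hw2)
    filter_upwards [h2] with z hz
    have h3 : c.toReal • w z - av δ w z =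
        ∫ y in Metric.ball (0 : Eu n) δ, (w z - w (sh y z)) := by
      have : IsFiniteMeasure (volume.restrict (Metric.ball (0 : Eu n) δ)) :=
        ⟨by rw [Measure.restrict_apply_univ]; exact measure_ball_lt_top⟩
      have h5 : Integrable (fun y => w (sh y z))
          (volume.restrict (Metric.ball (0 : Eu n) δ)) := section_integrable hz z.2 δ
      rw [integral_sub (integrable_const _) h5, setIntegral_const]
      rfl
    have h4 : AEStronglyMeasurable (fun y => w z - w (sh y z))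
        (volume.restrict (Metric.ball (0 : Eu n) δ)) := by
      refine StronglyMeasurable.aestronglyMeasurable ?_
      refine stronglyMeasurable_const.sub (hw.comp_measurable ?_)
      exact (measurable_const.prodMk (measurable_const.add measurable_id))
    rw [h3]
    refine (enorm_integral_sq_le h4).trans (le_of_eq ?_)
    rw [Measure.restrict_apply_univ]
    congr 1
    refine lintegral_congr fun y => ?_
    rw [← enorm_neg, neg_sub]
  have hm : StronglyMeasurable fun p : ST n × Eu n => w (sh p.2 p.1) - w p.1 :=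
    (hw.comp_measurable sh_prod_measurable).sub (hw.comp_measurable measurable_fst)
  calc ∫⁻ z, ‖c.toReal • w z - av δ w z‖ₑ ^ 2
      ≤ ∫⁻ z, c * ∫⁻ y in Metric.ball (0 : Eu n) δ, ‖w (sh y z) - w z‖ₑ ^ 2 :=
        lintegral_mono_ae h1
    _ = c * ∫⁻ z, ∫⁻ y in Metric.ball (0 : Eu n) δ, ‖w (sh y z) - w z‖ₑ ^ 2 := by
        rw [lintegral_const_mul]
        exact (hm.enorm.pow_const 2).lintegral_prod_right'
    _ = c * ∫⁻ y in Metric.ball (0 : Eu n) δ, ∫⁻ z, ‖w (sh y z) - w z‖ₑ ^ 2 := by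
        rw [lintegral_lintegral_swap]
        exact (hm.enorm.pow_const 2).aemeasurable
    _ ≤ c * ∫⁻ y in Metric.ball (0 : Eu n) δ, (ENNReal.ofReal δ * K) ^ 2 := by
        refine mul_le_mul' le_rfl (setLIntegral_mono measurable_const fun y hy => ?_)
        rw [← eLpNorm_two_sq]
        refine pow_le_pow_left₀ zero_le ((hK y).trans (mul_le_mul' ?_ le_rfl)) 2
        rw [← ofReal_norm]
        exact ENNReal.ofReal_le_ofReal (mem_ball_zero_iff.1 hy).le
    _ = (c * (ENNReal.ofReal δ * K)) ^ 2 := by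
        rw [setLIntegral_const, ← hc]; ring

theorem enorm_sq_eq (v : Eu n) : ‖v‖ₑ ^ 2 = ∑ j, ‖v j‖ₑ ^ 2 := by
  rw [← ofReal_norm, ← ENNReal.ofReal_pow (norm_nonneg _), EuclideanSpace.real_norm_sq_eq,
    ENNReal.ofReal_sum_of_nonneg fun i _ => sq_nonneg _]
  refine Finset.sum_congr rfl fun j _ => ?_
  rw [← sq_abs, ENNReal.ofReal_pow (abs_nonneg _), ← Real.norm_eq_abs, ofReal_norm]

/-- the test field extracting a component of the ball average -/
noncomputable def zt (δ : ℝ) (x : Eu n) (j : Fin n) : Eu n → Eu n :=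
  (Metric.ball x δ).indicator fun _ => bv j

theorem zt_memLp (δ : ℝ) (x : Eu n) (j : Fin n) : MemLp (zt δ x j) 2 volume :=
  memLp_indicator_const 2 Metric.isOpen_ball.measurableSet _ (Or.inr measure_ball_lt_top.ne)

theorem av_comp {w : ST n → Eu n} {t : ℝ} (ht : MemLp (fun x => w (t, x)) 2 volume)
    (δ : ℝ) (x : Eu n) (j : Fin n) : (av δ w (t, x)) j = pr w (zt δ x j) t := by
  have h1 : (av δ w (t, x)) j = inner ℝ (bv j) (av δ w (t, x)) := by
    rw [bv, EuclideanSpace.inner_single_left]; simp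
  have h0 : av δ w (t, x) = ∫ y in Metric.ball (0 : Eu n) δ, w (t, x + y) := rfl
  rw [h1, h0]
  rw [← integral_inner (section_integrable ht x δ) (bv j),
    ← integral_indicator Metric.isOpen_ball.measurableSet]
  have h2 : ∀ y, (Metric.ball (0 : Eu n) δ).indicator
      (fun y => inner ℝ (bv j) (w (t, x + y))) y =
      (fun y' => inner ℝ (w (t, y')) (zt δ x j y')) (x + y) := by
    intro y
    by_cases hy : y ∈ Metric.ball (0 : Eu n) δ
    · have hy' : x + y ∈ Metric.ball x δ := by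
        rw [mem_ball_iff_norm, add_sub_cancel_left]
        exact mem_ball_zero_iff.1 hy
      simp only [zt, indicator_of_mem hy, indicator_of_mem hy']
      exact real_inner_comm _ _
    · have hy' : x + y ∉ Metric.ball x δ := by
        intro h
        rw [mem_ball_iff_norm, add_sub_cancel_left] at h
        exact hy (mem_ball_zero_iff.2 h)
      simp only [zt, indicator_of_notMem hy, indicator_of_notMem hy', inner_zero_right]
  rw [integral_congr_ae (Eventually.of_forall h2)]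
  exact integral_add_left_eq_self (fun y' => inner ℝ (w (t, y')) (zt δ x j y')) x

theorem av_section {w : ST n → Eu n} (hw : StronglyMeasurable w) (hw2 : MemLp w 2 volume)
    (δ : ℝ) (x : Eu n) :
    ∫⁻ t, ‖av δ w (t, x)‖ₑ ^ 2 = ∑ j, eLpNorm (pr w (zt δ x j)) 2 volume ^ 2 := by
  have h1 : ∫⁻ t, ‖av δ w (t, x)‖ₑ ^ 2 = ∫⁻ t, ∑ j, ‖pr w (zt δ x j) t‖ₑ ^ 2 := by
    refine lintegral_congr_ae ?_
    filter_upwards [ae_section hw hw2] with t ht
    rw [enorm_sq_eq]
    exact Finset.sum_congr rfl fun j _ => by rw [av_comp ht]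
  rw [h1, lintegral_finsetSum']
  · simp only [eLpNorm_two_sq]
  · intro j _
    exact (pr_aesm hw (zt_memLp δ x j).1).enorm.pow_const 2

theorem av_bound {w : ST n → Eu n} (hw : StronglyMeasurable w) (δ : ℝ) (x : Eu n) :
    ∫⁻ t, ‖av δ w (t, x)‖ₑ ^ 2 ≤
      volume (Metric.ball (0 : Eu n) δ) * eLpNorm w 2 volume ^ 2 := by
  rw [eLpNorm_two_sq, lintegral_st hw, ← lintegral_const_mul]
  · refine lintegral_mono fun t => ?_
    have h4 : AEStronglyMeasurable (fun y => w (t, x + y))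
        (volume.restrict (Metric.ball (0 : Eu n) δ)) := by
      refine StronglyMeasurable.aestronglyMeasurable (hw.comp_measurable ?_)
      exact (measurable_const.prodMk (measurable_const.add measurable_id))
    refine (enorm_integral_sq_le h4).trans ?_
    rw [Measure.restrict_apply_univ]
    refine mul_le_mul' le_rfl ((lintegral_mono' Measure.restrict_le_self le_rfl).trans ?_)
    exact le_of_eq (lintegral_add_left_eq_self (fun y => ‖w (t, y)‖ₑ ^ 2) x)
  · exact (hw.enorm.pow_const 2).lintegral_prod_right'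

theorem av_outside {w : ST n → Eu n} {R δ : ℝ} (h0 : ∀ z : ST n, R ≤ ‖z.2‖ → w z = 0)
    {x : Eu n} (hx : R + δ ≤ ‖x‖) (t : ℝ) : av δ w (t, x) = 0 := by
  unfold av
  rw [setIntegral_congr_fun Metric.isOpen_ball.measurableSet (g := fun _ => (0 : Eu n))]
  · simp
  · intro y hy
    refine h0 _ ?_
    have h1 : ‖y‖ < δ := mem_ball_zero_iff.1 hy
    have h2 : ‖x‖ ≤ ‖x + y‖ + ‖y‖ := by
      have := norm_sub_le (x + y) y
      rwa [add_sub_cancel_right] at this
    show R ≤ ‖x + y‖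
    linarith

/-- ball averages converge strongly -/
theorem av_tendsto {w : ℕ → ST n → Eu n} (hw : ∀ m, StronglyMeasurable (w m))
    (hw2 : ∀ m, MemLp (w m) 2 volume) {K : ℝ≥0∞} (hKt : K ≠ ⊤)
    (hK : ∀ m, eLpNorm (w m) 2 volume ≤ K)
    {R : ℝ} (h0 : ∀ m, ∀ z : ST n, R ≤ ‖z.2‖ → w m z = 0)
    (hp : ∀ z : Eu n → Eu n, MemLp z 2 volume →
      Tendsto (fun m => eLpNorm (pr (w m) z) 2 volume) atTop (𝓝 0)) (δ : ℝ) :
    Tendsto (fun m => ∫⁻ z, ‖av δ (w m) z‖ₑ ^ 2) atTop (𝓝 0) := by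
  set c := volume (Metric.ball (0 : Eu n) δ) with hc
  have hct : c ≠ ⊤ := measure_ball_lt_top.ne
  have hsm : ∀ m, Measurable fun x : Eu n => ∫⁻ t, ‖av δ (w m) (t, x)‖ₑ ^ 2 := fun m =>
    ((av_sm δ (hw m)).enorm.pow_const 2).lintegral_prod_left'
  have h1 : ∀ m, ∫⁻ z, ‖av δ (w m) z‖ₑ ^ 2 = ∫⁻ x, ∫⁻ t, ‖av δ (w m) (t, x)‖ₑ ^ 2 := by
    intro m
    rw [Measure.volume_eq_prod, lintegral_prod_symm _
      ((av_sm δ (hw m)).enorm.pow_const 2).aemeasurable]
  simp only [h1]
  have h2 : Tendsto (fun m => ∫⁻ x, ∫⁻ t, ‖av δ (w m) (t, x)‖ₑ ^ 2) atTop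
      (𝓝 (∫⁻ _ : Eu n, (0 : ℝ≥0∞))) := by
    refine tendsto_lintegral_of_dominated_convergence
      ((Metric.ball (0 : Eu n) (R + δ)).indicator fun _ => c * K ^ 2) hsm ?_ ?_ ?_
    · intro m
      refine Eventually.of_forall fun x => ?_
      by_cases hx : x ∈ Metric.ball (0 : Eu n) (R + δ)
      · rw [indicator_of_mem hx]
        exact (av_bound (hw m) δ x).trans (mul_le_mul' le_rfl (pow_le_pow_left₀ zero_le (hK m) 2))
      · rw [indicator_of_notMem hx]
        have hx' : R + δ ≤ ‖x‖ := by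
          rw [mem_ball_zero_iff] at hx
          exact not_lt.1 hx
        simp only [av_outside (h0 m) hx']
        simp
    · rw [lintegral_indicator_const Metric.isOpen_ball.measurableSet]
      exact ENNReal.mul_ne_top (ENNReal.mul_ne_top hct (ENNReal.pow_ne_top hKt))
        measure_ball_lt_top.ne
    · refine Eventually.of_forall fun x => ?_
      simp only [av_section (hw _) (hw2 _)]
      have h3 : ∀ j : Fin n, Tendsto (fun m => eLpNorm (pr (w m) (zt δ x j)) 2 volume ^ 2) atTop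
          (𝓝 0) := by
        intro j
        have := ENNReal.Tendsto.pow (n := 2) (hp _ (zt_memLp δ x j))
        simpa using this
      have h4 := tendsto_finsetSum Finset.univ fun j _ => h3 j
      simpa using h4
  simpa using h2

end Pool.Agent.Helper41.Jef
end

section
/-! # From test fields to all square integrable fields -/

open MeasureTheory Set Filter Topology
open scoped ENNReal NNReal ContDiff

namespace Pool.Agent.Helper41.Jef

open Pool.Agent.Helper42.Jef

variable {n : ℕ}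

theorem pr_add_norm {w : ST n → Eu n} (hw : StronglyMeasurable w) (hw2 : MemLp w 2 volume)
    {z z' : Eu n → Eu n} (hz : MemLp z 2 volume) (hz' : MemLp z' 2 volume) :
    eLpNorm (pr w (fun x => z x + z' x)) 2 volume ≤
      eLpNorm (pr w z) 2 volume + eLpNorm (pr w z') 2 volume := by
  have h1 : pr w (fun x => z x + z' x) =ᵐ[volume] pr w z + pr w z' := by
    filter_upwards [ae_section hw hw2] with t ht
    rw [pr_add_right hz hz' ht]; rfl
  rw [eLpNorm_congr_ae h1]
  exact eLpNorm_add_le (pr_aesm hw hz.1) (pr_aesm hw hz'.1) (by norm_num)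

/-- the subspace of fields against which the pairing tends to zero in `L²` -/
noncomputable def goodSub (w : ℕ → ST n → Eu n) (hw : ∀ m, StronglyMeasurable (w m))
    (hw2 : ∀ m, MemLp (w m) 2 volume) : Submodule ℝ (Lp (Eu n) 2 (volume : Measure (Eu n))) where
  carrier := {f | Tendsto (fun m => eLpNorm (pr (w m) f) 2 volume) atTop (𝓝 0)}
  add_mem' := by
    intro f g hf hg
    have h1 : ∀ m, eLpNorm (pr (w m) (f + g : Lp (Eu n) 2 (volume : Measure (Eu n)))) 2 volume ≤
        eLpNorm (pr (w m) f) 2 volume + eLpNorm (pr (w m) g) 2 volume := by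
      intro m
      have h2 : pr (w m) (f + g : Lp (Eu n) 2 (volume : Measure (Eu n))) =
          pr (w m) (fun x => f x + g x) := by
        funext t
        exact pr_congr_right _ (Lp.coeFn_add f g) t
      rw [h2]
      exact pr_add_norm (hw m) (hw2 m) (Lp.memLp f) (Lp.memLp g)
    have h3 : Tendsto (fun m => eLpNorm (pr (w m) f) 2 volume + eLpNorm (pr (w m) g) 2 volume)
        atTop (𝓝 0) := by
      have := Tendsto.add (show Tendsto _ _ _ from hf) (show Tendsto _ _ _ from hg)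
      rwa [add_zero] at this
    exact tendsto_of_tendsto_of_tendsto_of_le_of_le tendsto_const_nhds h3 (fun _ => bot_le) h1
  zero_mem' := by
    have h1 : ∀ m, eLpNorm (pr (w m) (0 : Lp (Eu n) 2 (volume : Measure (Eu n)))) 2 volume = 0 := by
      intro m
      have h2 : pr (w m) (0 : Lp (Eu n) 2 (volume : Measure (Eu n))) = 0 := by
        funext t
        rw [pr_congr_right _ (Lp.coeFn_zero (Eu n) 2 volume) t]
        simp [pr]
      rw [h2]; simp
    show Tendsto _ _ _
    simp only [h1]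
    exact tendsto_const_nhds
  smul_mem' := by
    intro c f hf
    have h1 : ∀ m, eLpNorm (pr (w m) (c • f : Lp (Eu n) 2 (volume : Measure (Eu n)))) 2 volume =
        ‖c‖ₑ * eLpNorm (pr (w m) f) 2 volume := by
      intro m
      have h2 : pr (w m) (c • f : Lp (Eu n) 2 (volume : Measure (Eu n))) =
          fun t => c • pr (w m) f t := by
        funext t
        rw [pr_congr_right _ (Lp.coeFn_smul c f) t]
        exact pr_smul_right _ _ _ _
      rw [h2]
      exact eLpNorm_const_smul c _ 2 volume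
    show Tendsto _ _ _
    simp only [h1]
    have := ENNReal.Tendsto.const_mul (a := ‖c‖ₑ) (show Tendsto _ _ _ from hf)
      (Or.inr enorm_ne_top)
    rwa [mul_zero] at this

theorem goodSub_closed {w : ℕ → ST n → Eu n} (hw : ∀ m, StronglyMeasurable (w m))
    (hw2 : ∀ m, MemLp (w m) 2 volume) {K : ℝ≥0∞} (hKt : K ≠ ⊤)
    (hK : ∀ m, eLpNorm (w m) 2 volume ≤ K) :
    IsClosed (goodSub w hw hw2 : Set (Lp (Eu n) 2 (volume : Measure (Eu n)))) := by
  refine isClosed_of_closure_subset fun f hf => ?_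
  show Tendsto _ _ _
  rw [ENNReal.tendsto_nhds_zero]
  intro ε hε
  -- choose an approximation
  obtain ⟨δ, hδ, hδe⟩ : ∃ δ : ℝ, 0 < δ ∧ K * ENNReal.ofReal δ ≤ ε / 2 := by
    have h1 : Tendsto (fun k : ℕ => K * ENNReal.ofReal (1 / ((k : ℝ) + 1))) atTop (𝓝 (K * 0)) := by
      refine ENNReal.Tendsto.const_mul ?_ (Or.inr hKt)
      have := ENNReal.tendsto_ofReal tendsto_one_div_add_atTop_nhds_zero_nat
      rwa [ENNReal.ofReal_zero] at this
    rw [mul_zero, ENNReal.tendsto_nhds_zero] at h1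
    obtain ⟨k, hk⟩ := (h1 (ε / 2) (ENNReal.half_pos hε.ne')).exists
    exact ⟨_, by positivity, hk⟩
  obtain ⟨f', hf', hd⟩ := Metric.mem_closure_iff.1 hf δ hδ
  have hf'' : Tendsto (fun m => eLpNorm (pr (w m) f') 2 volume) atTop (𝓝 0) := hf'
  filter_upwards [ENNReal.tendsto_nhds_zero.1 hf'' (ε / 2) (ENNReal.half_pos hε.ne')] with m hm
  have h1 : pr (w m) f = pr (w m) (fun x => (f - f' : Lp (Eu n) 2 (volume : Measure (Eu n))) x
      + f' x) := by
    funext t
    refine pr_congr_right _ ?_ t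
    filter_upwards [Lp.coeFn_sub f f'] with x hx
    rw [hx, Pi.sub_apply, sub_add_cancel]
  rw [h1]
  refine (pr_add_norm (hw m) (hw2 m) (Lp.memLp _) (Lp.memLp f')).trans ?_
  rw [← ENNReal.add_halves ε]
  refine add_le_add ?_ hm
  refine (pr_le (hw m) (Lp.memLp _).1).trans ((mul_le_mul' (hK m) ?_).trans hδe)
  rw [← Lp.enorm_def, ← ofReal_norm, ← dist_eq_norm]
  exact ENNReal.ofReal_le_ofReal hd.le

theorem inner_toLp' {g : Eu n → Eu n} (hg : MemLp g 2 volume)
    (f : Lp (Eu n) 2 (volume : Measure (Eu n))) :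
    inner ℝ (hg.toLp g) f = ∫ x, inner ℝ (g x) (f x) := by
  rw [L2.inner_def]
  refine integral_congr_ae ?_
  filter_upwards [hg.coeFn_toLp] with x h2
  rw [h2]

/-- from test fields to all fields -/
theorem pr_tendsto {Ω : Set (Eu n)} {T : ℝ} {w : ℕ → ST n → Eu n} {W : ℕ → ST n → Mt n}
    (hV : ∀ m, IsVel Ω T (w m) (W m)) (hw : ∀ m, StronglyMeasurable (w m))
    {K : ℝ≥0∞} (hKt : K ≠ ⊤) (hK : ∀ m, eLpNorm (w m) 2 volume ≤ K)
    (hφ : ∀ φ, IsVT Ω φ → Tendsto (fun m => eLpNorm (pr (w m) φ) 2 volume) atTop (𝓝 0))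
    {z : Eu n → Eu n} (hz : MemLp z 2 volume) :
    Tendsto (fun m => eLpNorm (pr (w m) z) 2 volume) atTop (𝓝 0) := by
  have hw2 : ∀ m, MemLp (w m) 2 volume := fun m => (hV m).memv
  set S := goodSub w hw hw2 with hS
  have hSc := goodSub_closed hw hw2 hKt hK
  set Y : Submodule ℝ (Lp (Eu n) 2 (volume : Measure (Eu n))) :=
    (Submodule.span ℝ {f | ∃ (φ : Eu n → Eu n) (h : IsVT Ω φ), f = (vt_memLp h).toLp φ}
      ).topologicalClosure with hY
  have hY1 : Y ≤ S := by
    refine Submodule.topologicalClosure_minimal _ (Submodule.span_le.2 ?_) hSc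
    rintro _ ⟨φ, h, rfl⟩
    show Tendsto _ _ _
    refine (hφ φ h).congr fun m => ?_
    have : pr (w m) ((vt_memLp h).toLp φ) = pr (w m) φ := by
      funext t
      exact pr_congr_right _ (vt_memLp h).coeFn_toLp t
    rw [this]
  have hY2 : Yᗮ ≤ S := by
    intro f hf
    have h1 : ∀ m, eLpNorm (pr (w m) f) 2 volume = 0 := by
      intro m
      refine vel_perp (hV m) (hw m) (Lp.memLp f) fun φ h => ?_
      rw [← inner_toLp' (vt_memLp h)]
      refine (Submodule.mem_orthogonal _ _).1 hf _ ?_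
      exact Submodule.le_topologicalClosure _ (Submodule.subset_span ⟨φ, h, rfl⟩)
    show Tendsto _ _ _
    simp only [h1]
    exact tendsto_const_nhds
  have hYcl : IsClosed (Y : Set (Lp (Eu n) 2 (volume : Measure (Eu n)))) :=
    Submodule.isClosed_topologicalClosure _
  have : CompleteSpace Y := hYcl.completeSpace_coe
  have h1 : hz.toLp z ∈ S := by
    have h2 : (⊤ : Submodule ℝ (Lp (Eu n) 2 (volume : Measure (Eu n)))) ≤ S := by
      rw [← Submodule.sup_orthogonal_of_hasOrthogonalProjection (K := Y)]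
      exact sup_le hY1 hY2
    exact h2 trivial
  have h2 : Tendsto (fun m => eLpNorm (pr (w m) (hz.toLp z)) 2 volume) atTop (𝓝 0) := h1
  refine h2.congr fun m => ?_
  have : pr (w m) (hz.toLp z) = pr (w m) z := by
    funext t
    exact pr_congr_right _ hz.coeFn_toLp t
  rw [this]

end Pool.Agent.Helper41.Jef
end

section
/-! # Strong compactness of the velocities (module M8 for `MP_6e2b46_an`) -/

open MeasureTheory Set Filter Topology
open scoped ENNReal NNReal ContDiff

namespace Pool.Agent.Helper41.Jef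

open Pool.Agent.Helper42.Jef

variable {n : ℕ}

theorem tendsto_of_sq {x : ℕ → ℝ≥0∞} (h : Tendsto (fun m => x m ^ 2) atTop (𝓝 0)) :
    Tendsto x atTop (𝓝 0) := by
  have h1 := (ENNReal.continuous_rpow_const (y := (1 / 2 : ℝ))).tendsto 0 |>.comp h
  have h2 : (fun x : ℝ≥0∞ => x ^ (1 / 2 : ℝ)) ∘ (fun m => x m ^ 2) = x := by
    funext m
    show (x m ^ 2) ^ (1 / 2 : ℝ) = x m
    rw [← ENNReal.rpow_natCast, ← ENNReal.rpow_mul]
    norm_num
  rw [h2] at h1
  simpa using h1

/-- the pairing with a test field tends to zero -/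
theorem pr_test_tendsto {Ω : Set (Eu n)} {T : ℝ} {w : ℕ → ST n → Eu n}
    (hw : ∀ m, StronglyMeasurable (w m)) (hw2 : ∀ m, MemLp (w m) 2 volume)
    {K : ℝ≥0∞} (hKt : K ≠ ⊤) (hK : ∀ m, eLpNorm (w m) 2 volume ≤ K)
    (hweak : ∀ g : ST n → Eu n, MemLp g 2 volume →
      Tendsto (fun m => ∫ z, inner ℝ (w m z) (g z)) atTop (𝓝 0))
    (hslab : ∀ ε : ℝ≥0∞, 0 < ε → ∃ a : ℝ, 0 < a ∧ a < T / 2 ∧
      ∀ m, ∫⁻ z in (Ioo a (T - a))ᶜ ×ˢ (univ : Set (Eu n)), ‖w m z‖ₑ ^ 2 ≤ ε)
    {φ : Eu n → Eu n} (hφ : IsVT Ω φ)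
    (htc : ∀ ε : ℝ, 0 < ε → ∃ (C : ℝ) (m0 : ℕ), ∀ m ≥ m0, ∀ η, IsTime 0 T η →
      |∫ z : ST n, deriv η z.1 * inner ℝ (w m z) (φ z.2)| ≤
        C * Real.sqrt (∫ t, η t ^ 2) + ε * ∫ t, |deriv η t|) :
    Tendsto (fun m => eLpNorm (pr (w m) φ) 2 volume) atTop (𝓝 0) := by
  have hφm := vt_memLp hφ
  have hg : ∀ m, MemLp (pr (w m) φ) 2 volume := fun m => pr_memLp (hw m) (hw2 m) hφm
  have hle : ∀ m, eLpNorm (pr (w m) φ) 2 volume ≤ K * eLpNorm φ 2 volume := fun m =>
    (pr_le (hw m) hφm.1).trans (mul_le_mul' (hK m) le_rfl)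
  have hgK : ∀ m, (eLpNorm (pr (w m) φ) 2 volume).toReal ≤ (K * eLpNorm φ 2 volume).toReal :=
    fun m => ENNReal.toReal_mono (ENNReal.mul_ne_top hKt hφm.2.ne) (hle m)
  refine tendsto_of_sq ?_
  simp only [eLpNorm_two_sq]
  refine scalar_compact (T := T) hg hgK ?_ ?_ ?_
  · intro A hA hAf
    have h1 : MemLp (A.indicator fun _ => (1:ℝ)) 2 (volume : Measure ℝ) :=
      memLp_indicator_const 2 hA 1 (Or.inr hAf.ne)
    have h2 := hweak _ (memLp_tensor h1 hφm)
    refine h2.congr fun m => ?_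
    have h3 : ∫ z : ST n, inner ℝ (w m z) (A.indicator (fun _ => (1:ℝ)) z.1 • φ z.2) =
        ∫ z : ST n, A.indicator (fun _ => (1:ℝ)) z.1 * inner ℝ (w m z) (φ z.2) := by
      refine integral_congr_ae (Eventually.of_forall fun z => ?_)
      simp only [inner_smul_right]
    rw [h3, pr_fubini (hw2 m) h1 hφm, ← integral_indicator hA]
    refine integral_congr_ae (Eventually.of_forall fun t => ?_)
    by_cases ht : t ∈ A
    · simp [ht]
    · simp [ht]
  · intro ε hε
    obtain ⟨C, m0, hC⟩ := htc ε hε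
    refine ⟨C, m0, fun m hm η hη => ?_⟩
    have h1 : MemLp (deriv η) 2 volume :=
      (hη.smooth.continuous_deriv (by simp)).memLp_of_hasCompactSupport hη.cpt.deriv
    rw [← pr_fubini (hw2 m) h1 hφm]
    exact hC m hm η hη
  · intro ε hε
    set Φ := ∫⁻ x, ‖φ x‖ₑ ^ 2 with hΦ
    have hΦt : Φ ≠ ⊤ := by
      rw [hΦ, ← eLpNorm_two_sq]
      exact ENNReal.pow_ne_top hφm.2.ne
    have hΦ1 : Φ + 1 ≠ ⊤ := ENNReal.add_ne_top.2 ⟨hΦt, by norm_num⟩
    have hΦ0 : Φ + 1 ≠ 0 := by simp
    obtain ⟨a, ha, haT, hs⟩ := hslab (ε / (Φ + 1)) (ENNReal.div_pos hε.ne' hΦ1)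
    refine ⟨a, ha, haT, fun m => ?_⟩
    calc ∫⁻ t in (Ioo a (T - a))ᶜ, ‖pr (w m) φ t‖ₑ ^ 2
        ≤ (∫⁻ z in (Ioo a (T - a))ᶜ ×ˢ (univ : Set (Eu n)), ‖w m z‖ₑ ^ 2) * Φ :=
          pr_slab_le (hw m) hφm.1 _
      _ ≤ ε / (Φ + 1) * (Φ + 1) := mul_le_mul' (hs m) le_self_add
      _ = ε := ENNReal.div_mul_cancel hΦ0 hΦ1

/-- the core statement for a normalised sequence -/
theorem strong_core {Ω : Set (Eu n)} (hΩb : Bornology.IsBounded Ω) {T : ℝ}
    {w : ℕ → ST n → Eu n} {W : ℕ → ST n → Mt n} (hV : ∀ m, IsVel Ω T (w m) (W m))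
    (hw : ∀ m, StronglyMeasurable (w m))
    (hw0 : ∀ m, ∀ z : ST n, z ∉ Ioo 0 T ×ˢ Ω → w m z = 0)
    {K K' : ℝ≥0∞} (hKt : K ≠ ⊤) (hK : ∀ m, eLpNorm (w m) 2 volume ≤ K)
    (hKt' : K' ≠ ⊤) (hK' : ∀ m, eLpNorm (W m) 2 volume ≤ K')
    (hweak : ∀ g : ST n → Eu n, MemLp g 2 volume →
      Tendsto (fun m => ∫ z, inner ℝ (w m z) (g z)) atTop (𝓝 0))
    (hslab : ∀ ε : ℝ≥0∞, 0 < ε → ∃ a : ℝ, 0 < a ∧ a < T / 2 ∧
      ∀ m, ∫⁻ z in (Ioo a (T - a))ᶜ ×ˢ (univ : Set (Eu n)), ‖w m z‖ₑ ^ 2 ≤ ε)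
    (htc : ∀ φ, IsVT Ω φ → ∀ ε : ℝ, 0 < ε → ∃ (C : ℝ) (m0 : ℕ), ∀ m ≥ m0, ∀ η, IsTime 0 T η →
      |∫ z : ST n, deriv η z.1 * inner ℝ (w m z) (φ z.2)| ≤
        C * Real.sqrt (∫ t, η t ^ 2) + ε * ∫ t, |deriv η t|) :
    Tendsto (fun m => eLpNorm (w m) 2 volume) atTop (𝓝 0) := by
  have hw2 : ∀ m, MemLp (w m) 2 volume := fun m => (hV m).memv
  have hp : ∀ z : Eu n → Eu n, MemLp z 2 volume →
      Tendsto (fun m => eLpNorm (pr (w m) z) 2 volume) atTop (𝓝 0) := fun z hz =>
    pr_tendsto hV hw hKt hK (fun φ hφ =>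
      pr_test_tendsto hw hw2 hKt hK hweak hslab hφ (htc φ hφ)) hz
  obtain ⟨R, hR⟩ := hΩb.subset_ball 0
  have h0 : ∀ m, ∀ z : ST n, R ≤ ‖z.2‖ → w m z = 0 := by
    intro m z hz
    refine hw0 m z fun h => ?_
    have := hR h.2
    rw [mem_ball_zero_iff] at this
    linarith
  rw [ENNReal.tendsto_nhds_zero]
  intro ε hε
  obtain ⟨δ, hδ, hδe⟩ : ∃ δ : ℝ, 0 < δ ∧ ENNReal.ofReal δ * K' ≤ ε / 2 := by
    have h1 : Tendsto (fun k : ℕ => ENNReal.ofReal (1 / ((k : ℝ) + 1)) * K') atTop
        (𝓝 (0 * K')) := by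
      refine ENNReal.Tendsto.mul_const ?_ (Or.inr hKt')
      have := ENNReal.tendsto_ofReal tendsto_one_div_add_atTop_nhds_zero_nat
      rwa [ENNReal.ofReal_zero] at this
    rw [zero_mul, ENNReal.tendsto_nhds_zero] at h1
    obtain ⟨k, hk⟩ := (h1 (ε / 2) (ENNReal.half_pos hε.ne')).exists
    exact ⟨_, by positivity, hk⟩
  set c := volume (Metric.ball (0 : Eu n) δ) with hc
  have hct : c ≠ ⊤ := measure_ball_lt_top.ne
  have hc0 : c ≠ 0 := (Metric.measure_ball_pos volume 0 hδ).ne'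
  have h1 : Tendsto (fun m => eLpNorm (av δ (w m)) 2 volume) atTop (𝓝 0) := by
    refine tendsto_of_sq ?_
    simp only [eLpNorm_two_sq]
    exact av_tendsto hw hw2 hKt hK h0 hp δ
  have h2 : Tendsto (fun m => c⁻¹ * eLpNorm (av δ (w m)) 2 volume) atTop (𝓝 0) := by
    have := ENNReal.Tendsto.const_mul (a := c⁻¹) h1 (Or.inr (ENNReal.inv_ne_top.2 hc0))
    rwa [mul_zero] at this
  filter_upwards [ENNReal.tendsto_nhds_zero.1 h2 (ε / 2) (ENNReal.half_pos hε.ne')] with m hm
  have h3 : eLpNorm (fun z => c.toReal • w m z - av δ (w m) z) 2 volume ≤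
      c * (ENNReal.ofReal δ * K') :=
    av_diff (hw m) (hw2 m) fun y => (trans_vel (hV m) y).trans (mul_le_mul' le_rfl (hK' m))
  have h4 : c * eLpNorm (w m) 2 volume ≤
      c * (ENNReal.ofReal δ * K') + eLpNorm (av δ (w m)) 2 volume := by
    have h5 : eLpNorm (fun z => c.toReal • w m z) 2 volume = c * eLpNorm (w m) 2 volume := by
      have h6 : eLpNorm (fun z => c.toReal • w m z) 2 volume =
          ‖c.toReal‖ₑ * eLpNorm (w m) 2 volume := eLpNorm_const_smul c.toReal (w m) 2 volume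
      rw [h6, Real.enorm_of_nonneg ENNReal.toReal_nonneg, ENNReal.ofReal_toReal hct]
    have h7 : (fun z => c.toReal • w m z) =
        (fun z => c.toReal • w m z - av δ (w m) z) + av δ (w m) := by
      funext z
      simp only [Pi.add_apply, sub_add_cancel]
    rw [← h5, h7]
    refine (eLpNorm_add_le ?_ (av_sm δ (hw m)).aestronglyMeasurable (by norm_num)).trans
      (add_le_add h3 le_rfl)
    exact (((hw m).const_smul c.toReal).sub (av_sm δ (hw m))).aestronglyMeasurable
  calc eLpNorm (w m) 2 volume = c⁻¹ * (c * eLpNorm (w m) 2 volume) := by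
        rw [← mul_assoc, ENNReal.inv_mul_cancel hc0 hct, one_mul]
    _ ≤ c⁻¹ * (c * (ENNReal.ofReal δ * K') + eLpNorm (av δ (w m)) 2 volume) :=
        mul_le_mul' le_rfl h4
    _ = ENNReal.ofReal δ * K' + c⁻¹ * eLpNorm (av δ (w m)) 2 volume := by
        rw [mul_add, ← mul_assoc, ENNReal.inv_mul_cancel hc0 hct, one_mul]
    _ ≤ ε / 2 + ε / 2 := add_le_add hδe hm
    _ = ε := ENNReal.add_halves ε

/-- **strong compactness of the velocities** (module M8) -/
theorem strong_conv {Ω : Set (Eu n)} (hΩ : IsOpen Ω) (hΩb : Bornology.IsBounded Ω)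
    {T : ℝ} (hT : 0 < T) {vs : ℕ → ST n → Eu n} {Gs : ℕ → ST n → Mt n}
    {v : ST n → Eu n} {G : ST n → Mt n} (hv : ∀ m, IsVel Ω T (vs m) (Gs m)) (hvl : IsVel Ω T v G)
    (M : ℝ) (hG : ∀ m, eLpNorm (Gs m) 2 volume ≤ ENNReal.ofReal M)
    (hw : WC volume vs v)
    (hM : ∀ m, ∀ I : Set ℝ, MeasurableSet I →
      ∫⁻ z in I ×ˢ (univ : Set (Eu n)), ‖vs m z‖ₑ ^ 2 ≤ ENNReal.ofReal M * volume I)
    (hTC : ∀ φ, IsVT Ω φ → ∀ ε : ℝ, 0 < ε → ∃ (C : ℝ) (m0 : ℕ), ∀ m ≥ m0, ∀ η, IsTime 0 T η →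
      |∫ z : ST n, deriv η z.1 * inner ℝ (vs m z) (φ z.2)| ≤
        C * Real.sqrt (∫ t, η t ^ 2) + ε * ∫ t, |deriv η t|) :
    Tendsto (fun m => eLpNorm (fun z => vs m z - v z) 2 volume) atTop (𝓝 0) := by
  set S : Set (ST n) := Ioo 0 T ×ˢ Ω with hS
  have hSm : MeasurableSet S := measurableSet_Ioo.prod hΩ.measurableSet
  have hV0 : ∀ m, IsVel Ω T (fun z => vs m z - v z) (fun z => Gs m z - G z) := fun m =>
    vel_sub (hv m) hvl
  -- strongly measurable representatives supported in `S`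
  set w : ℕ → ST n → Eu n := fun m => S.indicator ((hV0 m).memv.1.mk _) with hwdef
  have hwsm : ∀ m, StronglyMeasurable (w m) := fun m =>
    (hV0 m).memv.1.stronglyMeasurable_mk.indicator hSm
  have hwae : ∀ m, (fun z => vs m z - v z) =ᵐ[volume] w m := by
    intro m
    filter_upwards [vel_zero hΩ (hV0 m), (hV0 m).memv.1.ae_eq_mk] with z h1 h2
    rw [h1]
    simp only [hwdef]
    by_cases hz : z ∈ S
    · rw [indicator_of_mem hz, indicator_of_mem hz]; exact h2
    · rw [indicator_of_notMem hz, indicator_of_notMem hz]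
  have hV : ∀ m, IsVel Ω T (w m) (fun z => Gs m z - G z) := fun m => vel_congr (hV0 m) (hwae m)
  have hw0 : ∀ m, ∀ z : ST n, z ∉ S → w m z = 0 := fun m z hz => indicator_of_notMem hz _
  obtain ⟨C0, hC0⟩ := hw.bdd
  have hK : ∀ m, eLpNorm (w m) 2 volume ≤ ENNReal.ofReal C0 + eLpNorm v 2 volume := by
    intro m
    rw [← eLpNorm_congr_ae (hwae m)]
    exact (eLpNorm_sub_le (hw.mem m).1 hw.memU.1 (by norm_num)).trans
      (add_le_add (hC0 m) le_rfl)
  have hKt : ENNReal.ofReal C0 + eLpNorm v 2 volume ≠ ⊤ :=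
    ENNReal.add_ne_top.2 ⟨ENNReal.ofReal_ne_top, hw.memU.2.ne⟩
  have hK' : ∀ m, eLpNorm (fun z => Gs m z - G z) 2 volume ≤
      ENNReal.ofReal M + eLpNorm G 2 volume := fun m =>
    (eLpNorm_sub_le (hv m).memG.1 hvl.memG.1 (by norm_num)).trans (add_le_add (hG m) le_rfl)
  have hKt' : ENNReal.ofReal M + eLpNorm G 2 volume ≠ ⊤ :=
    ENNReal.add_ne_top.2 ⟨ENNReal.ofReal_ne_top, hvl.memG.2.ne⟩
  -- pairings of the representatives
  have hpair : ∀ m, ∀ g : ST n → Eu n, MemLp g 2 volume → ∫ z, inner ℝ (w m z) (g z) =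
      (∫ z, inner ℝ (vs m z) (g z)) - ∫ z, inner ℝ (v z) (g z) := by
    intro m g hg
    rw [← integral_sub (inner_integrable (hw.mem m) hg) (inner_integrable hw.memU hg)]
    refine integral_congr_ae ?_
    filter_upwards [hwae m] with z hz
    rw [← hz, inner_sub_left]
  have hweak : ∀ g : ST n → Eu n, MemLp g 2 volume →
      Tendsto (fun m => ∫ z, inner ℝ (w m z) (g z)) atTop (𝓝 0) := by
    intro g hg
    have h1 := (hw.conv g hg).sub_const (∫ z, inner ℝ (v z) (g z))
    rw [sub_self] at h1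
    exact h1.congr fun m => (hpair m g hg).symm
  -- time regularity
  have htc : ∀ φ, IsVT Ω φ → ∀ ε : ℝ, 0 < ε → ∃ (C : ℝ) (m0 : ℕ), ∀ m ≥ m0, ∀ η, IsTime 0 T η →
      |∫ z : ST n, deriv η z.1 * inner ℝ (w m z) (φ z.2)| ≤
        C * Real.sqrt (∫ t, η t ^ 2) + ε * ∫ t, |deriv η t| := by
    intro φ hφ ε hε
    obtain ⟨C, m0, hC⟩ := hTC φ hφ (ε / 2) (by positivity)
    refine ⟨2 * C, m0, fun m hm η hη => ?_⟩
    have h1 : MemLp (deriv η) 2 volume :=
      (hη.smooth.continuous_deriv (by simp)).memLp_of_hasCompactSupport hη.cpt.deriv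
    have hg := memLp_tensor h1 (vt_memLp hφ)
    have e1 : ∀ u : ST n → Eu n, ∫ z : ST n, deriv η z.1 * inner ℝ (u z) (φ z.2) =
        ∫ z : ST n, inner ℝ (u z) (deriv η z.1 • φ z.2) := by
      intro u
      refine integral_congr_ae (Eventually.of_forall fun z => ?_)
      simp only [inner_smul_right]
    have h2 : |∫ z : ST n, deriv η z.1 * inner ℝ (v z) (φ z.2)| ≤
        C * Real.sqrt (∫ t, η t ^ 2) + ε / 2 * ∫ t, |deriv η t| := by
      have h3 := (hw.conv _ hg).abs
      rw [e1]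
      refine le_of_tendsto h3 ?_
      filter_upwards [eventually_ge_atTop m0] with k hk
      rw [← e1]
      exact hC k hk η hη
    have h3 := hC m hm η hη
    rw [e1, hpair m _ hg, ← e1, ← e1]
    have h4 := abs_sub (∫ z : ST n, deriv η z.1 * inner ℝ (vs m z) (φ z.2))
      (∫ z : ST n, deriv η z.1 * inner ℝ (v z) (φ z.2))
    linarith
  -- the layers near `t = 0` and `t = T`
  have hslab : ∀ ε : ℝ≥0∞, 0 < ε → ∃ a : ℝ, 0 < a ∧ a < T / 2 ∧
      ∀ m, ∫⁻ z in (Ioo a (T - a))ᶜ ×ˢ (univ : Set (Eu n)), ‖w m z‖ₑ ^ 2 ≤ ε := by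
    intro ε hε
    have hv2 : ∫⁻ z, ‖v z‖ₑ ^ 2 ≠ ⊤ := by
      rw [← eLpNorm_two_sq]; exact ENNReal.pow_ne_top hw.memU.2.ne
    have hε4 : ε / 4 ≠ 0 := (ENNReal.div_pos hε.ne' (by norm_num)).ne'
    obtain ⟨δ, hδ, hδv⟩ := exists_pos_setLIntegral_lt_of_measure_lt hv2 hε4
    have hΩf : volume Ω ≠ ⊤ := hΩb.measure_lt_top.ne
    -- choose `a`
    obtain ⟨a, ha, haT, ha1, ha2⟩ : ∃ a : ℝ, 0 < a ∧ a < T / 2 ∧
        ENNReal.ofReal (2 * a) * volume Ω < δ ∧
        ENNReal.ofReal M * ENNReal.ofReal (2 * a) ≤ ε / 4 := by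
      have t0 : Tendsto (fun a : ℝ => ENNReal.ofReal (2 * a)) (𝓝[>] 0) (𝓝 0) := by
        have h1 : Tendsto (fun a : ℝ => ENNReal.ofReal (2 * a)) (𝓝 0) (𝓝 (ENNReal.ofReal (2 * 0))) :=
          (ENNReal.continuous_ofReal.comp (continuous_const.mul continuous_id)).tendsto 0
        rw [mul_zero, ENNReal.ofReal_zero] at h1
        exact h1.mono_left nhdsWithin_le_nhds
      have t1 : Tendsto (fun a : ℝ => ENNReal.ofReal (2 * a) * volume Ω) (𝓝[>] 0) (𝓝 0) := by
        have := ENNReal.Tendsto.mul_const t0 (Or.inr hΩf)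
        rwa [zero_mul] at this
      have t2 : Tendsto (fun a : ℝ => ENNReal.ofReal M * ENNReal.ofReal (2 * a)) (𝓝[>] 0)
          (𝓝 0) := by
        have := ENNReal.Tendsto.const_mul (a := ENNReal.ofReal M) t0 (Or.inr ENNReal.ofReal_ne_top)
        rwa [mul_zero] at this
      have t3 : ∀ᶠ a : ℝ in 𝓝[>] 0, a < T / 2 :=
        nhdsWithin_le_nhds (Iio_mem_nhds (by linarith : (0:ℝ) < T / 2))
      have t4 : ∀ᶠ a : ℝ in 𝓝[>] 0, 0 < a := self_mem_nhdsWithin
      obtain ⟨a, h1, h2, h3, h4⟩ := ((t4.and (t3.and (((tendsto_order.1 t1).2 δ hδ).and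
        ((tendsto_order.1 t2).2 (ε / 4) (pos_iff_ne_zero.2 hε4)))))).exists
      exact ⟨a, h1, h2, h3, h4.le⟩
    refine ⟨a, ha, haT, fun m => ?_⟩
    set J : Set ℝ := Ioc 0 a ∪ Ico (T - a) T with hJ
    have hJm : MeasurableSet J := measurableSet_Ioc.union measurableSet_Ico
    have hJv : volume J ≤ ENNReal.ofReal (2 * a) := by
      refine (measure_union_le _ _).trans ?_
      rw [Real.volume_Ioc, Real.volume_Ico, ← ENNReal.ofReal_add (by linarith) (by linarith)]
      exact ENNReal.ofReal_le_ofReal (by linarith)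
    have hJΩ : volume (J ×ˢ Ω) < δ := by
      rw [Measure.volume_eq_prod, Measure.prod_prod]
      exact (mul_le_mul' hJv le_rfl).trans_lt ha1
    -- only the part in `J × Ω` matters
    have h1 : ∫⁻ z in (Ioo a (T - a))ᶜ ×ˢ (univ : Set (Eu n)), ‖w m z‖ₑ ^ 2 ≤
        ∫⁻ z in J ×ˢ Ω, ‖w m z‖ₑ ^ 2 := by
      rw [← lintegral_indicator (measurableSet_Ioo.compl.prod MeasurableSet.univ),
        ← lintegral_indicator (hJm.prod hΩ.measurableSet)]
      refine lintegral_mono fun z => ?_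
      by_cases hz : z ∈ J ×ˢ Ω
      · rw [indicator_of_mem hz]
        exact indicator_le_self _ _ _
      · rw [indicator_of_notMem hz]
        by_cases hz1 : z ∈ (Ioo a (T - a))ᶜ ×ˢ (univ : Set (Eu n))
        · rw [indicator_of_mem hz1]
          have hz2 : z ∉ S := by
            intro h
            refine hz ⟨?_, h.2⟩
            have h3 : z.1 ∉ Ioo a (T - a) := hz1.1
            by_cases h4 : z.1 ≤ a
            · exact Or.inl ⟨h.1.1, h4⟩
            · refine Or.inr ⟨?_, h.1.2⟩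
              by_contra h5
              exact h3 ⟨not_le.1 h4, not_le.1 h5⟩
          rw [hw0 m z hz2]; simp
        · rw [indicator_of_notMem hz1]
    have h2 : ∫⁻ z in J ×ˢ Ω, ‖w m z‖ₑ ^ 2 ≤
        2 * (∫⁻ z in J ×ˢ Ω, ‖vs m z‖ₑ ^ 2) + 2 * ∫⁻ z in J ×ˢ Ω, ‖v z‖ₑ ^ 2 := by
      have h3 : ∀ᵐ z ∂(volume.restrict (J ×ˢ Ω)), ‖w m z‖ₑ ^ 2 ≤
          2 * ‖vs m z‖ₑ ^ 2 + 2 * ‖v z‖ₑ ^ 2 := by
        filter_upwards [ae_restrict_of_ae (hwae m)] with z hz
        rw [← hz]
        have h4 : ‖vs m z - v z‖ ^ 2 ≤ 2 * ‖vs m z‖ ^ 2 + 2 * ‖v z‖ ^ 2 := by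
          have h5 := norm_sub_le (vs m z) (v z)
          have h6 : ‖vs m z - v z‖ ^ 2 ≤ (‖vs m z‖ + ‖v z‖) ^ 2 :=
            pow_le_pow_left₀ (norm_nonneg _) h5 2
          nlinarith [sq_nonneg (‖vs m z‖ - ‖v z‖)]
        have h5 := ENNReal.ofReal_le_ofReal h4
        rw [ENNReal.ofReal_add (by positivity) (by positivity),
          ENNReal.ofReal_mul (by norm_num), ENNReal.ofReal_mul (by norm_num),
          ENNReal.ofReal_pow (norm_nonneg _), ENNReal.ofReal_pow (norm_nonneg _),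
          ENNReal.ofReal_pow (norm_nonneg _), ofReal_norm, ofReal_norm, ofReal_norm] at h5
        simpa using h5
      refine (lintegral_mono_ae h3).trans (le_of_eq ?_)
      rw [lintegral_add_left', lintegral_const_mul'', lintegral_const_mul'']
      · exact (hw.memU.1.restrict.enorm.pow_const 2)
      · exact ((hw.mem m).1.restrict.enorm.pow_const 2)
      · exact ((hw.mem m).1.restrict.enorm.pow_const 2).const_mul _
    have h3 : ∫⁻ z in J ×ˢ Ω, ‖vs m z‖ₑ ^ 2 ≤ ε / 4 := by
      have h4 : ∫⁻ z in J ×ˢ Ω, ‖vs m z‖ₑ ^ 2 ≤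
          ∫⁻ z in J ×ˢ (univ : Set (Eu n)), ‖vs m z‖ₑ ^ 2 :=
        lintegral_mono_set (prod_mono subset_rfl (subset_univ _))
      exact h4.trans ((hM m J hJm).trans ((mul_le_mul' le_rfl hJv).trans ha2))
    have h4 : ∫⁻ z in J ×ˢ Ω, ‖v z‖ₑ ^ 2 ≤ ε / 4 := (hδv _ hJΩ).le
    calc ∫⁻ z in (Ioo a (T - a))ᶜ ×ˢ (univ : Set (Eu n)), ‖w m z‖ₑ ^ 2
        ≤ 2 * (∫⁻ z in J ×ˢ Ω, ‖vs m z‖ₑ ^ 2) + 2 * ∫⁻ z in J ×ˢ Ω, ‖v z‖ₑ ^ 2 := h1.trans h2
      _ ≤ 2 * (ε / 4) + 2 * (ε / 4) := add_le_add (mul_le_mul' le_rfl h3) (mul_le_mul' le_rfl h4)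
      _ = ε := by
          rw [← two_mul, ← mul_assoc]
          norm_num
          exact ENNReal.mul_div_cancel (by norm_num) (by norm_num)
  have hfin := strong_core hΩb hV hwsm hw0 hKt hK hKt' hK' hweak hslab htc
  refine hfin.congr fun m => ?_
  exact (eLpNorm_congr_ae (hwae m)).symm

end Pool.Agent.Helper41.Jef
end
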