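import Pool.Agent.Helper42.JefB.B0
import Pool.Agent.Helper42.JefB.C2
import Pool.Agent.Helper42.JefB.C3

section
/-! # General space-time test functions from product test functions -/

open MeasureTheory Set Filter Topology
open scoped ENNReal NNReal ContDiff

namespace Pool.Agent.Helper94.Jef
open Pool.Agent.Helper42.Jef

variable {n : ℕ}

section slices
variable {E : Type*} [NormedAddCommGroup E] [NormedSpace ℝ E] {Φ : ST n → E}

theorem slice_fderiv_x {Ψ : ST n → E} (hΨ : Differentiable ℝ Ψ) (t : ℝ) (x : Eu n) :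
    HasFDerivAt (fun x => Ψ (t, x))
      ((fderiv ℝ Ψ (t, x)).comp (ContinuousLinearMap.inr ℝ ℝ (Eu n))) x := by
  have h1 : HasFDerivAt (fun x : Eu n => ((t, x) : ST n)) (ContinuousLinearMap.inr ℝ ℝ (Eu n)) x :=
    hasFDerivAt_prodMk_right t x
  exact (hΨ (t, x)).hasFDerivAt.comp x h1

theorem slice_deriv_t {Ψ : ST n → E} (hΨ : Differentiable ℝ Ψ) (t : ℝ) (x : Eu n) :
    HasDerivAt (fun t => Ψ (t, x)) (fderiv ℝ Ψ (t, x) (1, 0)) t := by
  have h1 : HasDerivAt (fun t : ℝ => ((t, x) : ST n)) (1, 0) t :=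
    (hasDerivAt_id t).prodMk (hasDerivAt_const t x)
  exact (hΨ (t, x)).hasFDerivAt.comp_hasDerivAt t h1

theorem two_le_inf : (2 : WithTop ℕ∞) ≤ ((⊤ : ℕ∞) : WithTop ℕ∞) :=
  WithTop.coe_le_coe.2 (le_top : (2 : ℕ∞) ≤ ⊤)

/-- symmetry of the mixed derivatives -/
theorem mixed_symm (hΦ : ContDiff ℝ ∞ Φ) (z v w : ST n) :
    fderiv ℝ (fderiv ℝ Φ) z v w = fderiv ℝ (fderiv ℝ Φ) z w v := by
  have h := (hΦ.contDiffAt (x := z)).isSymmSndFDerivAt (by
    simp only [minSmoothness_of_isRCLikeNormedField]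
    exact two_le_inf)
  exact h v w

theorem smooth_diff (hΦ : ContDiff ℝ ∞ Φ) : Differentiable ℝ Φ := hΦ.differentiable (by simp)

theorem smooth_fderiv (hΦ : ContDiff ℝ ∞ Φ) : ContDiff ℝ ∞ (fderiv ℝ Φ) :=
  hΦ.fderiv_right (m := ∞) (by simp)

theorem smooth_apply (hΦ : ContDiff ℝ ∞ Φ) (w : ST n) : ContDiff ℝ ∞ fun z => fderiv ℝ Φ z w :=
  (smooth_fderiv hΦ).clm_apply contDiff_const

theorem fderiv_apply_dir (hΦ : ContDiff ℝ ∞ Φ) (w z v : ST n) :
    fderiv ℝ (fun z => fderiv ℝ Φ z w) z v = fderiv ℝ (fderiv ℝ Φ) z v w := by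
  have h2 := ((smooth_diff (smooth_fderiv hΦ) z).hasFDerivAt.clm_apply
    (hasFDerivAt_const w z)).fderiv
  rw [h2]
  simp

/-- time derivative -/
noncomputable def dT (Φ : ST n → E) (z : ST n) : E := fderiv ℝ Φ z (1, 0)

theorem dT_smooth (hΦ : ContDiff ℝ ∞ Φ) : ContDiff ℝ ∞ (dT Φ) := smooth_apply hΦ (1, 0)

theorem dT_cpt (hc : HasCompactSupport Φ) : HasCompactSupport (dT Φ) :=
  (hc.fderiv (𝕜 := ℝ)).comp_left (g := fun L : ST n →L[ℝ] E => L (1, 0)) (by simp)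

/-- time derivative of a directional derivative -/
theorem dir_deriv_t (hΦ : ContDiff ℝ ∞ Φ) (s : ℝ) (x : Eu n) (w : ST n) :
    HasDerivAt (fun s => fderiv ℝ Φ (s, x) w) (fderiv ℝ (dT Φ) (s, x) w) s := by
  have h := slice_deriv_t (smooth_diff (smooth_apply hΦ w)) s x
  rw [fderiv_apply_dir hΦ, mixed_symm hΦ, ← fderiv_apply_dir hΦ] at h
  exact h

/-- uniform bounds -/
theorem exists_bound (hΦ : ContDiff ℝ ∞ Φ) (hc : HasCompactSupport Φ) : ∃ M : ℝ, 0 ≤ M ∧
    (∀ z, ‖Φ z‖ ≤ M) ∧ (∀ z, ‖dT Φ z‖ ≤ M) ∧ (∀ z, ‖dT (dT Φ) z‖ ≤ M) ∧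
    (∀ z, ‖fderiv ℝ Φ z‖ ≤ M) ∧ (∀ z, ‖fderiv ℝ (dT Φ) z‖ ≤ M) ∧
    (∀ z, ‖fderiv ℝ (dT (dT Φ)) z‖ ≤ M) := by
  have s1 := dT_smooth hΦ
  have s2 := dT_smooth s1
  have c1 := dT_cpt hc
  have c2 := dT_cpt c1
  have key : ∀ {Ψ : ST n → E}, ContDiff ℝ ∞ Ψ → HasCompactSupport Ψ → ∃ M : ℝ, 0 ≤ M ∧
      (∀ z, ‖Ψ z‖ ≤ M) ∧ ∀ z, ‖fderiv ℝ Ψ z‖ ≤ M := by
    intro Ψ hΨ hcΨ
    obtain ⟨M0, h0⟩ := hΨ.continuous.bounded_above_of_compact_support hcΨ
    obtain ⟨M1, h1⟩ := (smooth_fderiv hΨ).continuous.bounded_above_of_compact_support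
      (hcΨ.fderiv (𝕜 := ℝ))
    exact ⟨max M0 M1, ((norm_nonneg _).trans (h0 0)).trans (le_max_left _ _),
      fun z => (h0 z).trans (le_max_left _ _), fun z => (h1 z).trans (le_max_right _ _)⟩
  obtain ⟨A, a0, a1, a2⟩ := key hΦ hc
  obtain ⟨B, b0, b1, b2⟩ := key s1 c1
  obtain ⟨C, c0, c1, c2⟩ := key s2 c2
  refine ⟨A + B + C, by positivity, fun z => (a1 z).trans ?_, fun z => (b1 z).trans ?_,
    fun z => (c1 z).trans ?_, fun z => (a2 z).trans ?_, fun z => (b2 z).trans ?_,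
    fun z => (c2 z).trans ?_⟩ <;> linarith

theorem norm_dir_x (y : Eu n) : ‖((0, y) : ST n)‖ ≤ ‖y‖ := by
  rw [Prod.norm_def]; simp

/-- the interpolated function and its time derivative, for `fderiv ℝ Φ (·, x) w` -/
theorem interp_dir (hΦ : ContDiff ℝ ∞ Φ) {M : ℝ}
    (h2 : ∀ z, ‖fderiv ℝ (dT Φ) z‖ ≤ M) (h3 : ∀ z, ‖fderiv ℝ (dT (dT Φ)) z‖ ≤ M)
    {K : ℝ} (hK0 : 0 ≤ K) (hK1 : ∀ s, |hH s| ≤ K) (hK2 : ∀ s, |dH s| ≤ K)
    {h : ℝ} (hh : 0 < h) {t : ℝ} (ht : 0 ≤ t) {N : ℕ} (hN : t / h + 5 / 2 < N) (x : Eu n)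
    (w : ST n) :
    ‖∑ i ∈ Finset.range (N + 1), hH (t / h + 2 - i) • fderiv ℝ Φ (((i : ℝ) - 2) * h, x) w -
      fderiv ℝ Φ (t, x) w‖ ≤ 9 * K * M * h * ‖w‖ ∧
    ‖∑ i ∈ Finset.range (N + 1), (h⁻¹ * dH (t / h + 2 - i)) •
      fderiv ℝ Φ (((i : ℝ) - 2) * h, x) w - fderiv ℝ (dT Φ) (t, x) w‖ ≤
      9 * K * M * h * ‖w‖ := by
  have key := interp (V := E) hK0 hK1 hK2 (F := fun s => fderiv ℝ Φ (s, x) w)
    (F' := fun s => fderiv ℝ (dT Φ) (s, x) w)
    (F'' := fun s => fderiv ℝ (dT (dT Φ)) (s, x) w) (M := M * ‖w‖)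
    (fun s => dir_deriv_t hΦ s x w) (fun s => dir_deriv_t (dT_smooth hΦ) s x w)
    (fun s => (ContinuousLinearMap.le_opNorm _ _).trans
      (mul_le_mul_of_nonneg_right (h2 _) (norm_nonneg _)))
    (fun s => (ContinuousLinearMap.le_opNorm _ _).trans
      (mul_le_mul_of_nonneg_right (h3 _) (norm_nonneg _))) hh ht hN
  exact ⟨key.1.trans (le_of_eq (by ring)), key.2.trans (le_of_eq (by ring))⟩

theorem interp_val (hΦ : ContDiff ℝ ∞ Φ) {M : ℝ}
    (h1 : ∀ z, ‖dT Φ z‖ ≤ M) (h2 : ∀ z, ‖dT (dT Φ) z‖ ≤ M)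
    {K : ℝ} (hK0 : 0 ≤ K) (hK1 : ∀ s, |hH s| ≤ K) (hK2 : ∀ s, |dH s| ≤ K)
    {h : ℝ} (hh : 0 < h) {t : ℝ} (ht : 0 ≤ t) {N : ℕ} (hN : t / h + 5 / 2 < N) (x : Eu n) :
    ‖∑ i ∈ Finset.range (N + 1), hH (t / h + 2 - i) • Φ (((i : ℝ) - 2) * h, x) -
      Φ (t, x)‖ ≤ 9 * K * M * h ∧
    ‖∑ i ∈ Finset.range (N + 1), (h⁻¹ * dH (t / h + 2 - i)) •
      Φ (((i : ℝ) - 2) * h, x) - dT Φ (t, x)‖ ≤ 9 * K * M * h :=
  interp (V := E) hK0 hK1 hK2 (F := fun s => Φ (s, x))
    (F' := fun s => dT Φ (s, x)) (F'' := fun s => dT (dT Φ) (s, x)) (M := M)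
    (fun s => slice_deriv_t (smooth_diff hΦ) s x)
    (fun s => slice_deriv_t (smooth_diff (dT_smooth hΦ)) s x) (fun _ => h1 _) (fun _ => h2 _)
    hh ht hN

/-- the difference of a finite combination of slices and a slice: values and derivative -/
theorem comb_bounds {Ψ : ST n → E} (hΦ : ContDiff ℝ ∞ Φ) (hΨ : ContDiff ℝ ∞ Ψ) {N : ℕ}
    (w : ℕ → ℝ) (s : ℕ → ℝ) (t : ℝ) {c : ℝ} (hc : 0 ≤ c)
    (h0 : ∀ x, ‖∑ i ∈ Finset.range N, w i • Φ (s i, x) - Ψ (t, x)‖ ≤ c)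
    (h1 : ∀ x (y : Eu n), ‖∑ i ∈ Finset.range N, w i • fderiv ℝ Φ (s i, x) (0, y) -
      fderiv ℝ Ψ (t, x) (0, y)‖ ≤ c * ‖y‖) (g : Eu n → E)
    (hg : g = (∑ i ∈ Finset.range N, w i • fun x => Φ (s i, x)) - fun x => Ψ (t, x)) :
    ∀ x, ‖g x‖ ≤ c ∧ ‖fderiv ℝ g x‖ ≤ c := by
  intro x
  constructor
  · have := h0 x
    rw [hg]
    simpa only [Finset.sum_apply, Pi.smul_apply, Pi.sub_apply] using this
  · have hd : HasFDerivAt g
        ((∑ i ∈ Finset.range N, w i • (fderiv ℝ Φ (s i, x)).comp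
          (ContinuousLinearMap.inr ℝ ℝ (Eu n))) -
          (fderiv ℝ Ψ (t, x)).comp (ContinuousLinearMap.inr ℝ ℝ (Eu n))) x := by
      rw [hg]
      refine HasFDerivAt.sub ?_ (slice_fderiv_x (smooth_diff hΨ) t x)
      exact HasFDerivAt.sum fun i _ => (slice_fderiv_x (smooth_diff hΦ) (s i) x).const_smul (w i)
    rw [hd.fderiv]
    refine ContinuousLinearMap.opNorm_le_bound _ hc fun y => ?_
    have := h1 x y
    simpa using this

/-- bounds for one slice -/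
theorem slice_bounds {Ψ : ST n → E} (hΨ : ContDiff ℝ ∞ Ψ) {M : ℝ} (h0 : ∀ z, ‖Ψ z‖ ≤ M)
    (h1 : ∀ z, ‖fderiv ℝ Ψ z‖ ≤ M) (t : ℝ) (x : Eu n) :
    ‖(fun x => Ψ (t, x)) x‖ ≤ M ∧ ‖fderiv ℝ (fun x => Ψ (t, x)) x‖ ≤ M := by
  refine ⟨h0 _, ?_⟩
  have hM : 0 ≤ M := (norm_nonneg _).trans (h0 (t, x))
  rw [(slice_fderiv_x (smooth_diff hΨ) t x).fderiv]
  refine ContinuousLinearMap.opNorm_le_bound _ hM fun y => ?_
  have : (fderiv ℝ Ψ (t, x)).comp (ContinuousLinearMap.inr ℝ ℝ (Eu n)) y =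
      fderiv ℝ Ψ (t, x) (0, y) := by simp
  rw [this]
  exact (ContinuousLinearMap.le_opNorm _ _).trans
    (mul_le_mul (h1 _) (norm_dir_x y) (norm_nonneg _) hM)

end slices

/-! ### the time bumps -/

/-- the `i`-th time bump -/
noncomputable def eta (h : ℝ) (i : ℕ) (t : ℝ) : ℝ := hH (t / h + 2 - i)

theorem eta_deriv (h : ℝ) (i : ℕ) (t : ℝ) :
    HasDerivAt (eta h i) (h⁻¹ * dH (t / h + 2 - i)) t := by
  have h1 : HasDerivAt (fun t : ℝ => t / h + 2 - i) (1 / h) t :=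
    (((hasDerivAt_id t).div_const h).add_const 2).sub_const (i : ℝ)
  have h2 := (hH_deriv (t / h + 2 - i)).comp t h1
  have h3 : dH (t / h + 2 - i) * (1 / h) = h⁻¹ * dH (t / h + 2 - i) := by
    rw [one_div, mul_comm]
  rw [h3] at h2
  exact h2

theorem eta_isTime {h : ℝ} (hh : 0 < h) {i : ℕ} {T : ℝ} (h1 : -1 < ((i : ℝ) - 2) * h - 3 / 2 * h)
    (h2 : ((i : ℝ) - 2) * h + 3 / 2 * h < T) : IsTime (-1) T (eta h i) := by
  have hsub : Function.support (eta h i) ⊆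
      Icc (((i : ℝ) - 2) * h - 3 / 2 * h) (((i : ℝ) - 2) * h + 3 / 2 * h) := by
    intro t ht
    by_contra hc
    apply ht
    apply hH_zero
    rw [mem_Icc, not_and_or, not_le, not_le] at hc
    have e : t / h + 2 - i = (t - ((i : ℝ) - 2) * h) / h := by field_simp; ring
    rw [e]
    rcases hc with hc | hc
    · refine le_abs.2 (Or.inr ?_)
      rw [← neg_div, le_div_iff₀ hh]
      linarith
    · refine le_abs.2 (Or.inl ?_)
      rw [le_div_iff₀ hh]
      linarith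
  refine ⟨?_, HasCompactSupport.of_support_subset_isCompact isCompact_Icc hsub, ?_⟩
  · exact hH_smooth.comp (((contDiff_id.div_const h).add contDiff_const).sub contDiff_const)
  · refine (closure_minimal hsub isClosed_Icc).trans ?_
    intro t ht
    exact ⟨h1.trans_le ht.1, ht.2.trans_lt h2⟩

/-- F3: general space-time test functions from product test functions (abstract form) -/
theorem gt_abs {E : Type*} [NormedAddCommGroup E] [NormedSpace ℝ E] [FiniteDimensional ℝ E]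
    {T : ℝ} (hT : 0 < T) (P : Submodule ℝ (Eu n → E)) (A B : (Eu n → E) → ℝ → ℝ)
    (C : (Eu n → E) → ℝ)
    (hA1 : ∀ t, ∀ φ ∈ P, ∀ ψ ∈ P, A (φ + ψ) t = A φ t + A ψ t)
    (hA2 : ∀ t (r : ℝ), ∀ φ ∈ P, A (r • φ) t = r * A φ t)
    (hB1 : ∀ t, ∀ φ ∈ P, ∀ ψ ∈ P, B (φ + ψ) t = B φ t + B ψ t)
    (hB2 : ∀ t (r : ℝ), ∀ φ ∈ P, B (r • φ) t = r * B φ t)
    (hC1 : ∀ φ ∈ P, ∀ ψ ∈ P, C (φ + ψ) = C φ + C ψ)
    (hC2 : ∀ r : ℝ, ∀ φ ∈ P, C (r • φ) = r * C φ)
    (k : ℝ → ℝ) (hk0 : ∀ t, 0 ≤ k t) (hk : IntegrableOn k (Ioo 0 T)) (C0 : ℝ)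
    (hAb : ∀ φ ∈ P, ∀ c : ℝ, (∀ x, ‖φ x‖ ≤ c ∧ ‖fderiv ℝ φ x‖ ≤ c) →
      ∀ t ∈ Ioo 0 T, |A φ t| ≤ k t * c)
    (hBb : ∀ φ ∈ P, ∀ c : ℝ, (∀ x, ‖φ x‖ ≤ c ∧ ‖fderiv ℝ φ x‖ ≤ c) →
      ∀ t ∈ Ioo 0 T, |B φ t| ≤ k t * c)
    (hCb : ∀ φ ∈ P, ∀ c : ℝ, (∀ x, ‖φ x‖ ≤ c ∧ ‖fderiv ℝ φ x‖ ≤ c) → |C φ| ≤ C0 * c)
    (hAm : ∀ φ ∈ P, AEStronglyMeasurable (A φ) (volume.restrict (Ioo 0 T)))
    (hBm : ∀ φ ∈ P, AEStronglyMeasurable (B φ) (volume.restrict (Ioo 0 T)))
    (heq : ∀ η, IsTime (-1) T η → ∀ φ ∈ P,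
      (∫ t in Ioo 0 T, (deriv η t * A φ t + η t * B φ t)) + η 0 * C φ = 0)
    (Φ : ST n → E) (hΦ : ContDiff ℝ ∞ Φ) (hc : HasCompactSupport Φ)
    (hs : tsupport Φ ⊆ {z : ST n | z.1 < T}) (hP : ∀ t, (fun x => Φ (t, x)) ∈ P)
    (hP' : ∀ t, (fun x => fderiv ℝ Φ (t, x) (1, 0)) ∈ P) :
    IntegrableOn (fun t => A (fun x => fderiv ℝ Φ (t, x) (1, 0)) t + B (fun x => Φ (t, x)) t)
      (Ioo 0 T) ∧
    (∫ t in Ioo 0 T, (A (fun x => fderiv ℝ Φ (t, x) (1, 0)) t + B (fun x => Φ (t, x)) t)) +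
      C (fun x => Φ (0, x)) = 0 := by
  classical
  obtain ⟨K, hK0, hK1, hK2⟩ := exists_K
  obtain ⟨M, hM0, m0, m1, m2, m3, m4, m5⟩ := exists_bound hΦ hc
  -- support in time
  obtain ⟨T', hT'T, hT'⟩ : ∃ T' < T, ∀ t, T' ≤ t → ∀ x, Φ (t, x) = 0 := by
    rcases (tsupport Φ).eq_empty_or_nonempty with he | hne
    · refine ⟨T - 1, by linarith, fun t _ x => ?_⟩
      exact image_eq_zero_of_notMem_tsupport (by rw [he]; simp)
    · obtain ⟨z0, hz0, hmax⟩ := hc.isCompact.exists_isMaxOn hne continuous_fst.continuousOn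
      have hz0T : z0.1 < T := hs hz0
      refine ⟨(z0.1 + T) / 2, by linarith, fun t ht x => ?_⟩
      refine image_eq_zero_of_notMem_tsupport fun hmem => ?_
      have := hmax hmem
      simp only [mem_ofPred_eq] at this
      linarith
  -- linear maps on `P`
  let AL : ℝ → P →ₗ[ℝ] ℝ := fun t =>
    { toFun := fun φ => A φ t
      map_add' := fun φ ψ => hA1 t φ φ.2 ψ ψ.2
      map_smul' := fun r φ => hA2 t r φ φ.2 }
  let BL : ℝ → P →ₗ[ℝ] ℝ := fun t =>
    { toFun := fun φ => B φ t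
      map_add' := fun φ ψ => hB1 t φ φ.2 ψ ψ.2
      map_smul' := fun r φ => hB2 t r φ φ.2 }
  let CL : P →ₗ[ℝ] ℝ :=
    { toFun := fun φ => C φ
      map_add' := fun φ ψ => hC1 φ φ.2 ψ ψ.2
      map_smul' := fun r φ => hC2 r φ φ.2 }
  let sl : ℝ → P := fun t => ⟨fun x => Φ (t, x), hP t⟩
  let dsl : ℝ → P := fun t => ⟨fun x => dT Φ (t, x), hP' t⟩
  have hsl0 : ∀ t, T' ≤ t → sl t = 0 := fun t ht => Subtype.ext (funext fun x => hT' t ht x)
  -- the interpolants
  let nd : ℝ → ℕ → ℝ := fun h i => ((i : ℝ) - 2) * h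
  let Ih : ℝ → ℕ → ℝ → P := fun h N t =>
    ∑ i ∈ Finset.range (N + 1), eta h i t • sl (nd h i)
  let Dh : ℝ → ℕ → ℝ → P := fun h N t =>
    ∑ i ∈ Finset.range (N + 1), (h⁻¹ * dH (t / h + 2 - i)) • sl (nd h i)
  have hIb : ∀ h : ℝ, 0 < h → ∀ N : ℕ, ∀ t : ℝ, 0 ≤ t → t / h + 5 / 2 < N →
      ∀ x, ‖((Ih h N t - sl t : P) : Eu n → E) x‖ ≤ 9 * K * M * h ∧
        ‖fderiv ℝ ((Ih h N t - sl t : P) : Eu n → E) x‖ ≤ 9 * K * M * h := by
    intro h hh N t ht hN
    refine comb_bounds hΦ hΦ (fun i => hH (t / h + 2 - i)) (nd h) t (by positivity)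
      (fun x => (interp_val hΦ m1 m2 hK0 hK1 hK2 hh ht hN x).1)
      (fun x y => ?_) _ ?_
    · refine ((interp_dir hΦ m4 m5 hK0 hK1 hK2 hh ht hN x (0, y)).1).trans ?_
      exact mul_le_mul_of_nonneg_left (norm_dir_x y) (by positivity)
    · simp [Ih, sl, eta]
  have hDb : ∀ h : ℝ, 0 < h → ∀ N : ℕ, ∀ t : ℝ, 0 ≤ t → t / h + 5 / 2 < N →
      ∀ x, ‖((Dh h N t - dsl t : P) : Eu n → E) x‖ ≤ 9 * K * M * h ∧
        ‖fderiv ℝ ((Dh h N t - dsl t : P) : Eu n → E) x‖ ≤ 9 * K * M * h := by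
    intro h hh N t ht hN
    refine comb_bounds hΦ (dT_smooth hΦ) (fun i => h⁻¹ * dH (t / h + 2 - i)) (nd h) t (by positivity)
      (fun x => (interp_val hΦ m1 m2 hK0 hK1 hK2 hh ht hN x).2)
      (fun x y => ?_) _ ?_
    · refine ((interp_dir hΦ m4 m5 hK0 hK1 hK2 hh ht hN x (0, y)).2).trans ?_
      exact mul_le_mul_of_nonneg_left (norm_dir_x y) (by positivity)
    · simp [Dh, sl, dsl]
  -- bounds of the functionals
  have hsb : ∀ t x, ‖((sl t : P) : Eu n → E) x‖ ≤ M ∧ ‖fderiv ℝ ((sl t : P) : Eu n → E) x‖ ≤ M :=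
    fun t x => slice_bounds hΦ m0 m3 t x
  have hdb : ∀ t x, ‖((dsl t : P) : Eu n → E) x‖ ≤ M ∧
      ‖fderiv ℝ ((dsl t : P) : Eu n → E) x‖ ≤ M :=
    fun t x => slice_bounds (dT_smooth hΦ) m1 m4 t x
  -- the approximating identities
  have hid : ∀ h : ℝ, 0 < h → 4 * h < 1 → T' + 2 * h < T → ∀ N : ℕ,
      (∫ t in Ioo 0 T, (AL t (Dh h N t) + BL t (Ih h N t))) + CL (Ih h N 0) = 0 := by
    intro h hh h4 hT'h N
    have e1 : ∀ t, AL t (Dh h N t) + BL t (Ih h N t) = ∑ i ∈ Finset.range (N + 1),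
        (deriv (eta h i) t * AL t (sl (nd h i)) + eta h i t * BL t (sl (nd h i))) := by
      intro t
      simp only [Dh, Ih, map_sum, map_smul, smul_eq_mul]
      rw [← Finset.sum_add_distrib]
      refine Finset.sum_congr rfl fun i _ => ?_
      rw [(eta_deriv h i t).deriv]
    have e2 : CL (Ih h N 0) = ∑ i ∈ Finset.range (N + 1), eta h i 0 * CL (sl (nd h i)) := by
      simp only [Ih, map_sum, map_smul, smul_eq_mul]
    have hint : ∀ i, IntegrableOn (fun t => deriv (eta h i) t * AL t (sl (nd h i)) +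
        eta h i t * BL t (sl (nd h i))) (Ioo 0 T) := by
      intro i
      have hd : deriv (eta h i) = fun t => h⁻¹ * dH (t / h + 2 - i) :=
        funext fun t => (eta_deriv h i t).deriv
      have hdc : Continuous (deriv (eta h i)) := by
        rw [hd, dH_eq]
        exact continuous_const.mul ((hH_smooth.continuous_deriv (by simp)).comp (by fun_prop))
      have hec : Continuous (eta h i) := hH_smooth.continuous.comp (by fun_prop)
      have hkM : IntegrableOn (fun t => (h⁻¹ * K) * (k t * M) + K * (k t * M)) (Ioo 0 T) :=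
        ((hk.mul_const M).const_mul _).add ((hk.mul_const M).const_mul _)
      refine hkM.mono' ?_ ?_
      · exact (hdc.aestronglyMeasurable.mul (hAm _ (sl (nd h i)).2)).add
          (hec.aestronglyMeasurable.mul (hBm _ (sl (nd h i)).2))
      · filter_upwards [ae_restrict_mem measurableSet_Ioo] with t ht
        have b1 := hAb _ (sl (nd h i)).2 M (hsb _) t ht
        have b2 := hBb _ (sl (nd h i)).2 M (hsb _) t ht
        have b3 : |deriv (eta h i) t| ≤ h⁻¹ * K := by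
          rw [hd, abs_mul, abs_of_pos (by positivity : 0 < h⁻¹)]
          exact mul_le_mul_of_nonneg_left (hK2 _) (by positivity)
        refine (norm_add_le _ _).trans ?_
        rw [norm_mul, norm_mul]
        exact add_le_add (mul_le_mul b3 b1 (norm_nonneg _) (by positivity))
          (mul_le_mul (hK1 _) b2 (norm_nonneg _) hK0)
    simp only [e1]
    rw [integral_finsetSum _ fun i _ => hint i, e2, ← Finset.sum_add_distrib]
    refine Finset.sum_eq_zero fun i _ => ?_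
    by_cases hi : nd h i < T'
    · refine heq (eta h i) (eta_isTime hh ?_ ?_) _ (sl (nd h i)).2
      · have hi0 : (0 : ℝ) ≤ i := Nat.cast_nonneg i
        have : -2 * h ≤ ((i : ℝ) - 2) * h := by nlinarith
        linarith
      · have : ((i : ℝ) - 2) * h < T' := hi
        linarith
    · rw [hsl0 _ (not_lt.1 hi)]
      simp
  -- choice of the mesh
  set hm : ℕ → ℝ := fun m => ((m : ℝ) + 1)⁻¹ with hhm
  have hm0 : ∀ m, 0 < hm m := fun m => by rw [hhm]; positivity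
  have hmt : Tendsto hm atTop (𝓝 0) := by
    have := tendsto_one_div_add_atTop_nhds_zero_nat (𝕜 := ℝ)
    simpa [hhm, one_div] using this
  have hNex : ∀ m, ∃ N : ℕ, T / hm m + 5 / 2 < N := fun m => exists_nat_gt _
  choose Nm hNm using hNex
  have hNt : ∀ m, ∀ t : ℝ, 0 ≤ t → t ≤ T → t / hm m + 5 / 2 < Nm m := by
    intro m t _ ht
    refine lt_of_le_of_lt ?_ (hNm m)
    have := div_le_div_of_nonneg_right ht (hm0 m).le
    linarith
  set am : ℕ → ℝ → ℝ := fun m t => AL t (Dh (hm m) (Nm m) t) + BL t (Ih (hm m) (Nm m) t) with ham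
  set a : ℝ → ℝ := fun t => AL t (dsl t) + BL t (sl t) with ha
  have hdiff : ∀ m, ∀ t ∈ Ioo 0 T, |am m t - a t| ≤ k t * (18 * K * M * hm m) := by
    intro m t ht
    have hN := hNt m t ht.1.le ht.2.le
    have e : am m t - a t = AL t (Dh (hm m) (Nm m) t - dsl t) + BL t (Ih (hm m) (Nm m) t - sl t) := by
      rw [ham, ha]
      simp only [map_sub]
      ring
    rw [e]
    refine (abs_add_le _ _).trans ?_
    have b1 : |AL t (Dh (hm m) (Nm m) t - dsl t)| ≤ k t * (9 * K * M * hm m) :=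
      hAb _ (Dh (hm m) (Nm m) t - dsl t).2 _ (hDb _ (hm0 m) _ t ht.1.le hN) t ht
    have b2 : |BL t (Ih (hm m) (Nm m) t - sl t)| ≤ k t * (9 * K * M * hm m) :=
      hBb _ (Ih (hm m) (Nm m) t - sl t).2 _ (hIb _ (hm0 m) _ t ht.1.le hN) t ht
    linarith
  have hamm : ∀ m, AEStronglyMeasurable (am m) (volume.restrict (Ioo 0 T)) := by
    intro m
    have e1 : am m = fun t => ∑ i ∈ Finset.range (Nm m + 1),
        ((hm m)⁻¹ * dH (t / hm m + 2 - i) * A (fun x => Φ (nd (hm m) i, x)) t +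
          eta (hm m) i t * B (fun x => Φ (nd (hm m) i, x)) t) := by
      funext t
      simp only [ham, Dh, Ih, map_sum, map_smul, smul_eq_mul]
      rw [← Finset.sum_add_distrib]
      rfl
    rw [e1]
    refine Finset.aestronglyMeasurable_fun_sum _ fun i _ => ?_
    have hdc : Continuous fun t : ℝ => (hm m)⁻¹ * dH (t / hm m + 2 - i) := by
      rw [dH_eq]
      exact continuous_const.mul ((hH_smooth.continuous_deriv (by simp)).comp (by fun_prop))
    have hec : Continuous (eta (hm m) i) := hH_smooth.continuous.comp (by fun_prop)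
    exact (hdc.aestronglyMeasurable.mul (hAm _ (hP _))).add
      (hec.aestronglyMeasurable.mul (hBm _ (hP _)))
  have hlimpt : ∀ᵐ t ∂(volume.restrict (Ioo 0 T)), Tendsto (fun m => am m t) atTop (𝓝 (a t)) := by
    filter_upwards [ae_restrict_mem measurableSet_Ioo] with t ht
    rw [tendsto_iff_dist_tendsto_zero]
    have h1 : Tendsto (fun m => k t * (18 * K * M * hm m)) atTop (𝓝 0) := by
      have := (hmt.const_mul (18 * K * M)).const_mul (k t)
      simpa using this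
    refine squeeze_zero (fun _ => dist_nonneg) (fun m => ?_) h1
    rw [Real.dist_eq]
    exact hdiff m t ht
  have ham' : AEStronglyMeasurable a (volume.restrict (Ioo 0 T)) :=
    aestronglyMeasurable_of_tendsto_ae atTop hamm hlimpt
  have hab : ∀ t ∈ Ioo 0 T, |a t| ≤ k t * (2 * M) := by
    intro t ht
    have b1 : |AL t (dsl t)| ≤ k t * M := hAb _ (dsl t).2 _ (hdb t) t ht
    have b2 : |BL t (sl t)| ≤ k t * M := hBb _ (sl t).2 _ (hsb t) t ht
    refine (abs_add_le _ _).trans ?_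
    linarith
  have haint : IntegrableOn a (Ioo 0 T) := by
    refine (hk.mul_const (2 * M)).mono' ham' ?_
    filter_upwards [ae_restrict_mem measurableSet_Ioo] with t ht
    exact hab t ht
  refine ⟨haint, ?_⟩
  -- convergence of the integrals
  have hI : Tendsto (fun m => ∫ t in Ioo 0 T, am m t) atTop (𝓝 (∫ t in Ioo 0 T, a t)) := by
    have hdom : IntegrableOn (fun t => k t * (18 * K * M) + k t * (2 * M)) (Ioo 0 T) :=
      (hk.mul_const _).add (hk.mul_const _)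
    refine tendsto_integral_of_dominated_convergence _ hamm hdom (fun m => ?_) hlimpt
    filter_upwards [ae_restrict_mem measurableSet_Ioo] with t ht
    have h1 := hdiff m t ht
    have h2 := hab t ht
    have h3 : |am m t| ≤ |am m t - a t| + |a t| := by
      have := abs_add_le (am m t - a t) (a t)
      rwa [sub_add_cancel] at this
    have h4 : k t * (18 * K * M * hm m) ≤ k t * (18 * K * M) := by
      refine mul_le_mul_of_nonneg_left ?_ (hk0 t)
      refine mul_le_of_le_one_right (by positivity) ?_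
      rw [hhm]
      exact inv_le_one_of_one_le₀ (by simp)
    rw [Real.norm_eq_abs]
    linarith
  have hCt : Tendsto (fun m => CL (Ih (hm m) (Nm m) 0)) atTop (𝓝 (CL (sl 0))) := by
    rw [tendsto_iff_dist_tendsto_zero]
    have h1 : Tendsto (fun m => C0 * (9 * K * M * hm m)) atTop (𝓝 0) := by
      have := (hmt.const_mul (9 * K * M)).const_mul C0
      simpa using this
    refine squeeze_zero (fun _ => dist_nonneg) (fun m => ?_) h1
    rw [Real.dist_eq, ← map_sub]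
    exact hCb _ (Ih (hm m) (Nm m) 0 - sl 0).2 _ (hIb _ (hm0 m) _ 0 le_rfl
      (hNt m 0 le_rfl hT.le))
  have hsum := hI.add hCt
  have hev : ∀ᶠ m in atTop, (∫ t in Ioo 0 T, am m t) + CL (Ih (hm m) (Nm m) 0) = 0 := by
    have h1 : ∀ᶠ m in atTop, hm m < min (1 / 4) ((T - T') / 2) :=
      hmt.eventually_lt_const (lt_min (by norm_num) (by linarith))
    filter_upwards [h1] with m hm'
    have h2 := hm'.trans_le (min_le_left _ _)
    have h3 := hm'.trans_le (min_le_right _ _)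
    exact hid (hm m) (hm0 m) (by linarith) (by linarith) (Nm m)
  have hz : Tendsto (fun m => (∫ t in Ioo 0 T, am m t) + CL (Ih (hm m) (Nm m) 0)) atTop (𝓝 0) :=
    tendsto_const_nhds.congr' (by filter_upwards [hev] with m hm'; exact hm'.symm)
  exact tendsto_nhds_unique hsum hz

end Pool.Agent.Helper94.Jef
end

section
/-! # Diagonal weak compactness on growing time intervals -/

open MeasureTheory Set Filter Topology
open scoped ENNReal ContDiff

namespace Pool.Agent.Helper44.Diag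
open Pool.Agent.Helper42.Jef

variable {n : ℕ}

theorem rs_eq {E : Type*} [NormedAddCommGroup E] [NormedSpace ℝ E] (T : ℝ) (u : ST n → E) :
    rs T u = fun z => (Ioo 0 T).indicator (fun _ => (1 : ℝ)) z.1 • u z := by
  funext z
  by_cases h : z.1 ∈ Ioo 0 T
  · simp only [rs, indicator_of_mem h, one_smul, Prod.mk.eta]
  · simp only [rs, indicator_of_notMem h, zero_smul]

theorem rs_rs {E : Type*} [Zero E] {S T : ℝ} (h : S ≤ T) (u : ST n → E) :
    rs S (rs T u) = rs S u := by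
  funext z
  by_cases hz : z.1 ∈ Ioo 0 S
  · have hz' : z.1 ∈ Ioo 0 T := ⟨hz.1, hz.2.trans_le h⟩
    simp only [rs, indicator_of_mem hz, indicator_of_mem hz']
  · simp only [rs, indicator_of_notMem hz]

theorem rs_mem {E : Type*} [Zero E] {T : ℝ} {z : ST n} (h : z.1 ∈ Ioo 0 T) (u : ST n → E) :
    rs T u z = u z := by
  simp only [rs, indicator_of_mem h, Prod.mk.eta]

theorem rs_notMem {E : Type*} [Zero E] {T : ℝ} {z : ST n} (h : z.1 ∉ Ioo 0 T) (u : ST n → E) :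
    rs T u z = 0 := by
  simp only [rs, indicator_of_notMem h]

theorem wc_rs {E : Type*} [NormedAddCommGroup E] [InnerProductSpace ℝ E] [FiniteDimensional ℝ E]
    {us : ℕ → ST n → E} {U : ST n → E} (h : WC volume us U) (S : ℝ) :
    WC volume (fun m => rs S (us m)) (rs S U) := by
  have h1 := wc_weight h (ζ := fun z => (Ioo 0 S).indicator (fun _ => (1 : ℝ)) z.1)
    (((measurable_const.indicator measurableSet_Ioo).comp measurable_fst).aestronglyMeasurable)
    (C := 1) (fun z => by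
      by_cases hz : z.1 ∈ Ioo 0 S
      · simp only [indicator_of_mem hz, abs_one, le_refl]
      · simp only [indicator_of_notMem hz, abs_zero, zero_le_one])
  rw [rs_eq]
  simpa only [rs_eq] using h1

/-- F2: diagonal weak compactness on growing time intervals -/
theorem diag_compact {ι : Type*} [Finite ι] {E : ι → Type*} [∀ i, NormedAddCommGroup (E i)]
    [∀ i, InnerProductSpace ℝ (E i)] [∀ i, FiniteDimensional ℝ (E i)]
    (u : (i : ι) → ℕ → ST n → E i) (hm : ∀ i (T : ℕ) m, MemLp (rs (T : ℝ) (u i m)) 2 volume)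
    (hb : ∀ i (T : ℕ), ∃ C : ℝ, ∀ m, eLpNorm (rs (T : ℝ) (u i m)) 2 volume ≤ ENNReal.ofReal C) :
    ∃ φ : ℕ → ℕ, StrictMono φ ∧ ∃ U : (i : ι) → ST n → E i, ∀ i (T : ℕ),
      WC volume (fun m => rs (T : ℝ) (u i (φ m))) (rs (T : ℝ) (U i)) := by
  classical
  have := Fintype.ofFinite ι
  have : ∀ i, CompleteSpace (E i) := fun i => FiniteDimensional.complete ℝ (E i)
  let J : (i : ι) → E i →L[ℝ] PiLp 2 E := fun i =>
    ((PiLp.continuousLinearEquiv 2 ℝ E).symm : (∀ i, E i) →L[ℝ] PiLp 2 E).comp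
      (ContinuousLinearMap.single ℝ E i)
  let P : (i : ι) → PiLp 2 E →L[ℝ] E i := fun i =>
    (ContinuousLinearMap.proj i : (∀ i, E i) →L[ℝ] E i).comp
      ((PiLp.continuousLinearEquiv 2 ℝ E) : PiLp 2 E →L[ℝ] (∀ i, E i))
  have hPJ : ∀ i (x : E i), P i (J i x) = x := by
    intro i x
    simp [P, J]
  obtain ⟨φ, hφ, h⟩ := wc_compact (ι := ι × ℕ)
    (fun p m z => J p.1 (rs (p.2 : ℝ) (u p.1 m) z))
    (fun p m => (J p.1).comp_memLp' (hm p.1 p.2 m)) (μ := (volume : Measure (ST n))) (by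
      intro p
      obtain ⟨C, hC⟩ := hb p.1 p.2
      have hJ0 : 0 ≤ ‖J p.1‖ := ContinuousLinearMap.opNorm_nonneg _
      refine ⟨‖J p.1‖ * max C 0, fun m => ?_⟩
      rw [ENNReal.ofReal_mul hJ0]
      refine (eLpNorm_le_mul_eLpNorm_of_ae_le_mul (c := ‖J p.1‖)
        (Eventually.of_forall fun x => (J p.1).le_opNorm _) 2).trans ?_
      exact mul_le_mul' le_rfl ((hC m).trans (ENNReal.ofReal_le_ofReal (le_max_left _ _))))
  have h' : ∀ i (T : ℕ), ∃ V : ST n → E i,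
      WC volume (fun m => rs (T : ℝ) (u i (φ m))) V := by
    intro i T
    obtain ⟨V, hV⟩ := h (i, T)
    refine ⟨fun z => P i (V z), ?_⟩
    have h2 := wc_clm hV (P i)
    simp only [hPJ] at h2
    exact h2
  choose V hV using h'
  have hcons : ∀ i (S T : ℕ), S ≤ T → V i S =ᵐ[volume] rs (S : ℝ) (V i T) := by
    intro i S T hST
    have h2 := wc_rs (hV i T) (S : ℝ)
    simp only [rs_rs (n := n) (E := E i) (show (S : ℝ) ≤ T by exact_mod_cast hST)] at h2
    exact wc_unique (hV i S) h2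
  refine ⟨φ, hφ, fun i z => V i (⌊z.1⌋₊ + 1) z, fun i T => ?_⟩
  refine (hV i T).congr ?_
  have hall : ∀ᵐ z, ∀ S T : ℕ, S ≤ T → V i S z = rs (S : ℝ) (V i T) z := by
    rw [ae_all_iff]
    intro S
    rw [ae_all_iff]
    intro T'
    by_cases h3 : S ≤ T'
    · filter_upwards [hcons i S T' h3] with z hz _
      exact hz
    · exact Eventually.of_forall fun z h4 => absurd h4 h3
  filter_upwards [hall] with z hz
  by_cases h3 : z.1 ∈ Ioo 0 (T : ℝ)
  · rw [rs_mem h3]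
    have h4 : ⌊z.1⌋₊ + 1 ≤ T := (Nat.floor_lt h3.1.le).2 h3.2
    rw [hz _ _ h4, rs_mem]
    refine ⟨h3.1, ?_⟩
    push_cast
    exact Nat.lt_floor_add_one z.1
  · rw [rs_notMem h3, hz T T le_rfl, rs_notMem h3]

end Pool.Agent.Helper44.Diag
end

section
/-! # The mollifier `ro`, approximate identity in `L²` -/

open MeasureTheory Set Filter Topology
open scoped ENNReal NNReal ContDiff

namespace Pool.Agent.Helper94.Jef
open Pool.Agent.Helper42.Jef

variable {n : ℕ}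

theorem rho_nonneg (x : Eu n) : 0 ≤ rho n x := ContDiffBump.nonneg_normed _ _

theorem rho_integral : ∫ x, rho n x = 1 := ContDiffBump.integral_normed _

theorem rho_neg (x : Eu n) : rho n (-x) = rho n x := ContDiffBump.normed_neg _ _

theorem rho_cont : Continuous (rho n) := ContDiffBump.continuous_normed _

theorem rho_zero {x : Eu n} (hx : 1 ≤ ‖x‖) : rho n x = 0 := by
  by_contra h
  have h1 : x ∈ Function.support (rho n) := h
  unfold rho at h1
  rw [ContDiffBump.support_normed_eq, Metric.mem_ball, dist_zero_right] at h1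
  exact absurd h1 (not_lt.2 hx)

variable {δ : ℝ}

theorem ro_nonneg (hδ : 0 < δ) (x : Eu n) : 0 ≤ ro δ x := by
  unfold ro
  exact mul_nonneg (by positivity) (rho_nonneg _)

theorem ro_integral (hδ : 0 < δ) : ∫ x : Eu n, ro δ x = 1 := by
  unfold ro
  rw [integral_const_mul, Measure.integral_comp_inv_smul (μ := volume) (rho n) δ, rho_integral,
    finrank_euclideanSpace_fin, abs_of_pos (by positivity), smul_eq_mul, mul_one,
    inv_mul_cancel₀ (by positivity)]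

theorem ro_cont (δ : ℝ) : Continuous (ro δ : Eu n → ℝ) := by
  unfold ro
  exact continuous_const.mul (rho_cont.comp (continuous_const_smul _))

theorem ro_neg (x : Eu n) : ro δ (-x) = ro δ x := by
  unfold ro
  rw [smul_neg, rho_neg]

theorem ro_zero (hδ : 0 < δ) {x : Eu n} (hx : δ ≤ ‖x‖) : ro δ x = 0 := by
  unfold ro
  rw [rho_zero, mul_zero]
  rw [norm_smul, norm_inv, Real.norm_of_nonneg hδ.le]
  rwa [← div_eq_inv_mul, one_le_div hδ]

theorem ro_integrable (hδ : 0 < δ) : Integrable (ro δ : Eu n → ℝ) := by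
  by_contra h
  have := ro_integral (n := n) hδ
  rw [integral_undef h] at this
  exact one_ne_zero this.symm

theorem ro_lint (hδ : 0 < δ) : ∫⁻ x : Eu n, ‖ro δ x‖ₑ = 1 := by
  have h1 : ENNReal.ofReal (∫ x : Eu n, ro δ x) = ∫⁻ x : Eu n, ENNReal.ofReal (ro δ x) :=
    ofReal_integral_eq_lintegral_ofReal (ro_integrable hδ)
      (Eventually.of_forall fun x => ro_nonneg hδ x)
  rw [ro_integral hδ, ENNReal.ofReal_one] at h1
  rw [h1]
  refine lintegral_congr fun x => ?_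
  rw [Real.enorm_eq_ofReal (ro_nonneg hδ x)]

variable {E : Type*} [NormedAddCommGroup E] [NormedSpace ℝ E]

theorem ro_shift_int (hδ : 0 < δ) (x : Eu n) : ∫ y : Eu n, ro δ (x - y) = 1 := by
  rw [integral_sub_left_eq_self (fun y => ro δ y) volume x, ro_integral hδ]

/-- bound for continuous compactly supported functions -/
theorem mo_sub_le [CompleteSpace E] (hδ : 0 < δ) {g : ST n → E} (hg : Continuous g) {η : ℝ}
    (hη : ∀ z z' : ST n, dist z z' < δ → dist (g z) (g z') ≤ η) (z : ST n) :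
    ‖mo δ g z - g z‖ ≤ η := by
  have hint : Integrable (fun y : Eu n => ro δ (z.2 - y)) :=
    (ro_integrable hδ).comp_sub_left z.2
  have hgi : Integrable (fun y : Eu n => ro δ (z.2 - y) • (g (z.1, y) - g z)) := by
    have hc : Continuous fun y : Eu n => ro δ (z.2 - y) • (g (z.1, y) - g z) :=
      ((ro_cont δ).comp (continuous_const.sub continuous_id)).smul
        ((hg.comp (Continuous.prodMk_right z.1)).sub continuous_const)
    refine hc.integrable_of_hasCompactSupport ?_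
    refine HasCompactSupport.of_support_subset_isCompact (isCompact_closedBall z.2 δ) ?_
    intro y hy
    rw [Metric.mem_closedBall, dist_comm, dist_eq_norm]
    by_contra hc
    apply hy
    simp only
    rw [ro_zero hδ (le_of_lt (not_le.1 hc)), zero_smul]
  have h1 : mo δ g z - g z = ∫ y : Eu n, ro δ (z.2 - y) • (g (z.1, y) - g z) := by
    have h2 : g z = ∫ y : Eu n, ro δ (z.2 - y) • g z := by
      rw [integral_smul_const, ro_shift_int hδ, one_smul]
    have h3 : Integrable (fun y : Eu n => ro δ (z.2 - y) • g z) := hint.smul_const _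
    have h4 : mo δ g z = ∫ y : Eu n, (ro δ (z.2 - y) • (g (z.1, y) - g z) +
        ro δ (z.2 - y) • g z) := by
      unfold mo
      refine integral_congr_ae (Eventually.of_forall fun y => ?_)
      simp only
      rw [← smul_add, sub_add_cancel]
    rw [h4, integral_add hgi h3, ← h2, add_sub_cancel_right]
  rw [h1]
  have h5 : ∀ y : Eu n, ‖ro δ (z.2 - y) • (g (z.1, y) - g z)‖ ≤ η * ro δ (z.2 - y) := by
    intro y
    rw [norm_smul, Real.norm_of_nonneg (ro_nonneg hδ _), mul_comm]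
    by_cases hy : δ ≤ ‖z.2 - y‖
    · rw [ro_zero hδ hy]; simp
    · refine mul_le_mul_of_nonneg_right ?_ (ro_nonneg hδ _)
      rw [← dist_eq_norm]
      apply hη
      rw [dist_comm, Prod.dist_eq]
      simp only [dist_self]
      rw [max_eq_right dist_nonneg, dist_eq_norm]
      exact not_le.1 hy
  calc ‖∫ y : Eu n, ro δ (z.2 - y) • (g (z.1, y) - g z)‖ 
      ≤ ∫ y : Eu n, η * ro δ (z.2 - y) :=
        norm_integral_le_of_norm_le (hint.const_mul η) (Eventually.of_forall h5)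
    _ = η := by rw [integral_const_mul, ro_shift_int hδ, mul_one]

theorem mo_sub_zero (hδ : 0 < δ) (hδ1 : δ ≤ 1) {g : ST n → E} {R : ℝ}
    (hR : ∀ z, z ∉ Metric.closedBall (0 : ST n) R → g z = 0) {z : ST n}
    (hz : z ∉ Metric.closedBall (0 : ST n) (R + 1)) : mo δ g z - g z = 0 := by
  rw [Metric.mem_closedBall, dist_zero_right, not_le] at hz
  have h1 : g z = 0 := hR z (by rw [Metric.mem_closedBall, dist_zero_right, not_le]; linarith)
  rw [h1, sub_zero]
  unfold mo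
  rw [← integral_zero (Eu n) E]
  refine integral_congr_ae (Eventually.of_forall fun y => ?_)
  simp only
  by_cases hy : δ ≤ ‖z.2 - y‖
  · rw [ro_zero hδ hy, zero_smul]
  · rw [hR, smul_zero]
    rw [Metric.mem_closedBall, dist_zero_right, not_le]
    rw [Prod.norm_def] at hz ⊢
    rcases lt_max_iff.1 hz with h | h
    · exact lt_max_of_lt_left (by simp only; linarith)
    · refine lt_max_of_lt_right ?_
      simp only
      have h2 : ‖z.2‖ ≤ ‖z.2 - y‖ + ‖y‖ := by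
        have := norm_add_le (z.2 - y) y
        rwa [sub_add_cancel] at this
      have h3 := not_le.1 hy
      linarith

/-- approximate identity in `L²` -/
theorem mo_tendsto [CompleteSpace E] {u : ST n → E} (hu : MemLp u 2 volume) {δ : ℕ → ℝ}
    (hδ : ∀ m, 0 < δ m) (hδ0 : Tendsto δ atTop (𝓝 0)) :
    Tendsto (fun m => eLpNorm (fun z => mo (δ m) u z - u z) 2 volume) atTop (𝓝 0) := by
  rw [ENNReal.tendsto_atTop_zero]
  intro ε hε
  by_cases hεt : ε = ⊤
  · exact ⟨0, fun m _ => by rw [hεt]; exact le_top⟩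
  have hε3 : (ε / 3) ≠ 0 := by
    rw [ENNReal.div_ne_zero]; exact ⟨hε.ne', by simp⟩
  obtain ⟨g, hgs, hg1, hgc, hgm⟩ := hu.exists_hasCompactSupport_eLpNorm_sub_le (by simp) hε3
  -- support in a ball
  obtain ⟨R, hR⟩ := hgs.isCompact.isBounded.subset_closedBall (0 : ST n)
  have hR' : ∀ z, z ∉ Metric.closedBall (0 : ST n) R → g z = 0 := fun z hz =>
    image_eq_zero_of_notMem_tsupport fun h => hz (hR h)
  set V := volume (Metric.closedBall (0 : ST n) (R + 1)) with hV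
  have hVt : V ≠ ⊤ := (measure_closedBall_lt_top).ne
  -- choose η
  obtain ⟨η, hη0, hη⟩ : ∃ η : ℝ, 0 < η ∧ ENNReal.ofReal η * V ^ (1 / 2 : ℝ) ≤ ε / 3 := by
    have hW : V ^ (1 / 2 : ℝ) ≠ ⊤ := ENNReal.rpow_ne_top_of_nonneg (by norm_num) hVt
    have hε3t : ε / 3 ≠ ⊤ := ENNReal.div_ne_top hεt (by simp)
    set w := (V ^ (1 / 2 : ℝ)).toReal with hw
    have hw0 : 0 ≤ w := ENNReal.toReal_nonneg
    set e := (ε / 3).toReal with he
    have he0 : 0 < e := ENNReal.toReal_pos hε3 hε3t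
    refine ⟨e / (w + 1), by positivity, ?_⟩
    rw [← ENNReal.ofReal_toReal hW, ← ENNReal.ofReal_toReal hε3t, ← hw, ← he,
      ← ENNReal.ofReal_mul (by positivity)]
    apply ENNReal.ofReal_le_ofReal
    rw [div_mul_eq_mul_div, div_le_iff₀ (by positivity)]
    nlinarith
  have huc : UniformContinuous g := hgs.uniformContinuous_of_continuous hgc
  obtain ⟨d, hd0, hd⟩ := Metric.uniformContinuous_iff.1 huc η hη0
  have hev : ∀ᶠ m in atTop, δ m < min d 1 := hδ0.eventually_lt_const (by positivity)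
  obtain ⟨N, hN⟩ := eventually_atTop.1 hev
  refine ⟨N, fun m hm => ?_⟩
  have hdm := hN m hm
  have hd1 : δ m < d := hdm.trans_le (min_le_left _ _)
  have hd2 : δ m ≤ 1 := (hdm.trans_le (min_le_right _ _)).le
  have hro := ro_integrable (n := n) (hδ m)
  -- decomposition
  have hdec : (fun z => mo (δ m) u z - u z) =ᵐ[volume] fun z =>
      (mo (δ m) (fun z => u z - g z) z - (u z - g z)) + (mo (δ m) g z - g z) := by
    have h1 := spc_sub hro hu hgm
    filter_upwards [h1] with z hz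
    rw [mo_eq_spc, mo_eq_spc, mo_eq_spc, hz]
    abel
  rw [eLpNorm_congr_ae hdec]
  have hug : MemLp (fun z => u z - g z) 2 volume := hu.sub hgm
  have hm1 : AEStronglyMeasurable (fun z => mo (δ m) (fun z => u z - g z) z) volume := by
    rw [mo_eq_spc]; exact (spc_memLp hro hug).1
  have hm2 : AEStronglyMeasurable (fun z => mo (δ m) g z) volume := by
    rw [mo_eq_spc]; exact (spc_memLp hro hgm).1
  have hA : eLpNorm (fun z => mo (δ m) (fun z => u z - g z) z) 2 volume ≤ ε / 3 := by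
    rw [mo_eq_spc]
    refine (spc_eLpNorm_le hro.1 hug.1).trans ?_
    rw [ro_lint (hδ m), one_mul]
    exact hg1
  have hB : eLpNorm (fun z => mo (δ m) g z - g z) 2 volume ≤ ε / 3 := by
    have h1 : ∀ z, ‖mo (δ m) g z - g z‖ ≤ ‖(Metric.closedBall (0 : ST n) (R + 1)).indicator
        (fun _ => η) z‖ := by
      intro z
      by_cases hz : z ∈ Metric.closedBall (0 : ST n) (R + 1)
      · rw [indicator_of_mem hz, Real.norm_of_nonneg hη0.le]
        exact mo_sub_le (hδ m) hgc (fun z z' hzz => (hd (hzz.trans hd1)).le) z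
      · rw [mo_sub_zero (hδ m) hd2 hR' hz, norm_zero]
        exact norm_nonneg _
    refine (eLpNorm_mono h1).trans ?_
    rw [eLpNorm_indicator_const measurableSet_closedBall (by simp) (by simp)]
    rw [Real.enorm_eq_ofReal hη0.le]
    simpa using hη
  calc eLpNorm (fun z => (mo (δ m) (fun z => u z - g z) z - (u z - g z)) +
        (mo (δ m) g z - g z)) 2 volume
      ≤ eLpNorm (fun z => mo (δ m) (fun z => u z - g z) z - (u z - g z)) 2 volume +
        eLpNorm (fun z => mo (δ m) g z - g z) 2 volume :=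
        eLpNorm_add_le (hm1.sub hug.1) (hm2.sub hgm.1) (by norm_num)
    _ ≤ (eLpNorm (fun z => mo (δ m) (fun z => u z - g z) z) 2 volume +
        eLpNorm (fun z => u z - g z) 2 volume) +
        eLpNorm (fun z => mo (δ m) g z - g z) 2 volume :=
        add_le_add (eLpNorm_sub_le hm1 hug.1 (by norm_num)) le_rfl
    _ ≤ (ε / 3 + ε / 3) + ε / 3 := add_le_add (add_le_add hA hg1) hB
    _ = ε := ENNReal.add_thirds ε

end Pool.Agent.Helper94.Jef
end

section
/-! # The mollified spins satisfy `SpinProp` -/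

open MeasureTheory Set Filter Topology
open scoped ENNReal NNReal ContDiff

namespace Pool.Agent.Helper94.Jef
open Pool.Agent.Helper42.Jef Pool.Agent.Helper22.Jef

variable {n : ℕ} {δ : ℝ}

/-! ### duality for the mollification -/

theorem tonelli_dual {k : Eu n → ℝ} (hk : AEStronglyMeasurable k volume)
    (hev : ∀ x, ‖k (-x)‖ₑ = ‖k x‖ₑ) {f g : ST n → ℝ≥0∞} (hf : AEMeasurable f volume)
    (hg : AEMeasurable g volume) :
    ∫⁻ z : ST n, f z * ∫⁻ y : Eu n, ‖k (z.2 - y)‖ₑ * g (z.1, y) =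
      ∫⁻ z : ST n, (∫⁻ y : Eu n, ‖k (z.2 - y)‖ₑ * f (z.1, y)) * g z := by
  have hA : ∀ h : ST n → ℝ≥0∞, AEMeasurable h volume →
      AEMeasurable (fun p : ST n × Eu n => ‖k (p.1.2 - p.2)‖ₑ * h (p.1.1, p.2))
      (volume.prod volume) := fun h hh =>
    (hk.comp_quasiMeasurePreserving qmp_sub).enorm.mul
      (hh.comp_quasiMeasurePreserving qmp_fst)
  have hsl : ∀ h : ST n → ℝ≥0∞, AEMeasurable h volume →
      ∀ᵐ t : ℝ, AEMeasurable (fun y => h (t, y)) (volume : Measure (Eu n)) := by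
    intro h hh
    exact (AEStronglyMeasurable.prodMk_left (μ := volume) (ν := volume)
      hh.aestronglyMeasurable).mono fun t ht => ht.aemeasurable
  have h1 : ∫⁻ z : ST n, f z * ∫⁻ y : Eu n, ‖k (z.2 - y)‖ₑ * g (z.1, y) =
      ∫⁻ t : ℝ, ∫⁻ x : Eu n, f (t, x) * ∫⁻ y : Eu n, ‖k (x - y)‖ₑ * g (t, y) := by
    have hm : AEMeasurable (fun z : ST n => f z * ∫⁻ y : Eu n, ‖k (z.2 - y)‖ₑ * g (z.1, y))
        ((volume : Measure ℝ).prod (volume : Measure (Eu n))) :=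
      hf.mul (hA g hg).lintegral_prod_right'
    exact lintegral_prod _ hm
  have h2 : ∫⁻ z : ST n, (∫⁻ y : Eu n, ‖k (z.2 - y)‖ₑ * f (z.1, y)) * g z =
      ∫⁻ t : ℝ, ∫⁻ y : Eu n, (∫⁻ x : Eu n, ‖k (y - x)‖ₑ * f (t, x)) * g (t, y) := by
    have hm : AEMeasurable (fun z : ST n => (∫⁻ y : Eu n, ‖k (z.2 - y)‖ₑ * f (z.1, y)) * g z)
        ((volume : Measure ℝ).prod (volume : Measure (Eu n))) :=
      (hA f hf).lintegral_prod_right'.mul hg
    exact lintegral_prod _ hm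
  rw [h1, h2]
  refine lintegral_congr_ae ?_
  filter_upwards [hsl f hf, hsl g hg] with t htf htg
  have hkm : AEMeasurable (fun p : Eu n × Eu n => ‖k (p.1 - p.2)‖ₑ) (volume.prod volume) :=
    (hk.comp_quasiMeasurePreserving (quasiMeasurePreserving_sub_of_right_invariant _ _)).enorm
  have hm2 : AEMeasurable (fun p : Eu n × Eu n => f (t, p.1) * (‖k (p.1 - p.2)‖ₑ * g (t, p.2)))
      (volume.prod volume) :=
    (htf.comp_quasiMeasurePreserving Measure.quasiMeasurePreserving_fst).mul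
      (hkm.mul (htg.comp_quasiMeasurePreserving Measure.quasiMeasurePreserving_snd))
  have hk1 : ∀ x, AEMeasurable (fun y => ‖k (x - y)‖ₑ) (volume : Measure (Eu n)) := fun x =>
    (hk.comp_quasiMeasurePreserving
      (Measure.measurePreserving_sub_left volume x).quasiMeasurePreserving).enorm
  calc ∫⁻ x : Eu n, f (t, x) * ∫⁻ y : Eu n, ‖k (x - y)‖ₑ * g (t, y)
      = ∫⁻ x : Eu n, ∫⁻ y : Eu n, f (t, x) * (‖k (x - y)‖ₑ * g (t, y)) := by
        refine lintegral_congr fun x => ?_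
        have hm : AEMeasurable (fun y : Eu n => ‖k (x - y)‖ₑ * g (t, y)) volume :=
          (hk1 x).mul htg
        rw [lintegral_const_mul'' _ hm]
    _ = ∫⁻ y : Eu n, ∫⁻ x : Eu n, f (t, x) * (‖k (x - y)‖ₑ * g (t, y)) :=
        lintegral_lintegral_swap hm2
    _ = ∫⁻ y : Eu n, (∫⁻ x : Eu n, ‖k (y - x)‖ₑ * f (t, x)) * g (t, y) := by
        refine lintegral_congr fun y => ?_
        have hm : AEMeasurable (fun x : Eu n => ‖k (y - x)‖ₑ * f (t, x)) volume :=
          (hk1 y).mul htf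
        rw [← lintegral_mul_const'' _ hm]
        refine lintegral_congr fun x => ?_
        have : ‖k (x - y)‖ₑ = ‖k (y - x)‖ₑ := by rw [← hev (y - x), neg_sub]
        rw [this]; ring

section bounds
variable {ζ : ST n → ℝ} {L : ℝ}

theorem mo_scal_int (hδ : 0 < δ) (hζm : Measurable ζ) (hζ : ∀ z, 0 ≤ ζ z ∧ ζ z ≤ L) (z : ST n) :
    Integrable (fun y : Eu n => ro δ (z.2 - y) • ζ (z.1, y)) := by
  have hint : Integrable (fun y : Eu n => ro δ (z.2 - y)) :=
    (ro_integrable hδ).comp_sub_left z.2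
  have hm : Measurable fun y : Eu n => ζ (z.1, y) := hζm.comp measurable_prodMk_left
  refine (hint.mul_const L).mono' (hint.1.smul hm.aestronglyMeasurable)
    (Eventually.of_forall fun y => ?_)
  rw [norm_smul, Real.norm_of_nonneg (ro_nonneg hδ _), Real.norm_of_nonneg (hζ _).1]
  exact mul_le_mul_of_nonneg_left (hζ _).2 (ro_nonneg hδ _)

theorem mo_scal_nonneg (hδ : 0 < δ) (hζ : ∀ z, 0 ≤ ζ z ∧ ζ z ≤ L) (z : ST n) : 0 ≤ mo δ ζ z :=
  integral_nonneg fun _ => smul_nonneg (ro_nonneg hδ _) (hζ _).1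

theorem mo_scal_le (hδ : 0 < δ) (hζm : Measurable ζ) (hζ : ∀ z, 0 ≤ ζ z ∧ ζ z ≤ L) (z : ST n) :
    mo δ ζ z ≤ L := by
  have hint : Integrable (fun y : Eu n => ro δ (z.2 - y)) :=
    (ro_integrable hδ).comp_sub_left z.2
  calc mo δ ζ z ≤ ∫ y : Eu n, ro δ (z.2 - y) * L := by
        refine integral_mono (mo_scal_int hδ hζm hζ z) (hint.mul_const L) fun y => ?_
        exact mul_le_mul_of_nonneg_left (hζ _).2 (ro_nonneg hδ _)
    _ = L := by rw [integral_mul_const, ro_shift_int hδ, one_mul]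

theorem mo_scal_lint (hδ : 0 < δ) (hζm : Measurable ζ) (hζ : ∀ z, 0 ≤ ζ z ∧ ζ z ≤ L) (z : ST n) :
    ∫⁻ y : Eu n, ‖ro δ (z.2 - y)‖ₑ * ENNReal.ofReal (ζ (z.1, y)) = ENNReal.ofReal (mo δ ζ z) := by
  unfold mo
  rw [ofReal_integral_eq_lintegral_ofReal (mo_scal_int hδ hζm hζ z)
    (Eventually.of_forall fun _ => smul_nonneg (ro_nonneg hδ _) (hζ _).1)]
  refine lintegral_congr fun y => ?_
  rw [Real.enorm_eq_ofReal (ro_nonneg hδ _), smul_eq_mul, ENNReal.ofReal_mul (ro_nonneg hδ _)]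

variable {E : Type*} [NormedAddCommGroup E] [NormedSpace ℝ E]

theorem jensen_lint (hδ : 0 < δ) {X : ST n → E} (hX : MemLp X 2 volume) (hζm : Measurable ζ)
    (hζ : ∀ z, 0 ≤ ζ z ∧ ζ z ≤ L) :
    ∫⁻ z, ENNReal.ofReal (ζ z) * ‖mo δ X z‖ₑ ^ 2 ≤
      ∫⁻ z, ENNReal.ofReal (mo δ ζ z) * ‖X z‖ₑ ^ 2 := by
  have hk : AEStronglyMeasurable (ro δ : Eu n → ℝ) volume := (ro_integrable hδ).1
  have hsl : ∀ᵐ z : ST n, AEMeasurable (fun y => ‖X (z.1, y)‖ₑ) (volume : Measure (Eu n)) := by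
    have h1 : ∀ᵐ t : ℝ, AEStronglyMeasurable (fun y => X (t, y)) (volume : Measure (Eu n)) :=
      AEStronglyMeasurable.prodMk_left (μ := volume) (ν := volume) hX.1
    have h2 : ∀ᵐ z : ST n, AEStronglyMeasurable (fun y => X (z.1, y)) (volume : Measure (Eu n)) :=
      Measure.quasiMeasurePreserving_fst.ae h1
    exact h2.mono fun z hz => hz.enorm
  calc ∫⁻ z, ENNReal.ofReal (ζ z) * ‖mo δ X z‖ₑ ^ 2
      ≤ ∫⁻ z : ST n, ENNReal.ofReal (ζ z) *
          ∫⁻ y : Eu n, ‖ro δ (z.2 - y)‖ₑ * ‖X (z.1, y)‖ₑ ^ 2 := by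
        refine lintegral_mono_ae ?_
        filter_upwards [hsl] with z hz
        refine mul_le_mul' le_rfl ?_
        have h1 : ‖mo δ X z‖ₑ ≤ ∫⁻ y : Eu n, ‖ro δ (z.2 - y)‖ₑ * ‖X (z.1, y)‖ₑ := by
          refine (enorm_integral_le_lintegral_enorm _).trans (le_of_eq ?_)
          exact lintegral_congr fun y => enorm_smul _ _
        refine (pow_le_pow_left' h1 2).trans ((young_cs hk hz z.2).trans ?_)
        rw [ro_lint hδ, one_mul]
    _ = ∫⁻ z : ST n, (∫⁻ y : Eu n, ‖ro δ (z.2 - y)‖ₑ * ENNReal.ofReal (ζ (z.1, y))) *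
          ‖X z‖ₑ ^ 2 :=
        tonelli_dual hk (fun x => by rw [ro_neg]) hζm.ennreal_ofReal.aemeasurable
          (hX.1.enorm.pow_const 2)
    _ = _ := by
        refine lintegral_congr fun z => ?_
        rw [mo_scal_lint hδ hζm hζ z]

omit [NormedSpace ℝ E] in
theorem int_sq' {α : Type*} [MeasurableSpace α] {μ : Measure α} {f : α → E} (hf : MemLp f 2 μ) :
    Integrable (fun x => ‖f x‖ ^ 2) μ := (memLp_two_iff_integrable_sq_norm hf.1).1 hf

omit [NormedSpace ℝ E] in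
theorem int_wsq {α : Type*} [MeasurableSpace α] {μ : Measure α} {f : α → E} (hf : MemLp f 2 μ)
    {w : α → ℝ} (hw : AEStronglyMeasurable w μ) {L : ℝ} (hL : ∀ x, 0 ≤ w x ∧ w x ≤ L) :
    Integrable (fun x => w x * ‖f x‖ ^ 2) μ :=
  (int_sq' hf).bdd_mul hw (Eventually.of_forall fun x => by
    rw [Real.norm_of_nonneg (hL x).1]; exact (hL x).2)

theorem jensen_real (hδ : 0 < δ) {X : ST n → E} (hX : MemLp X 2 volume) (hζm : Measurable ζ)
    (hζ : ∀ z, 0 ≤ ζ z ∧ ζ z ≤ L) (hζ2 : MemLp ζ 2 volume) :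
    ∫ z, ζ z * ‖mo δ X z‖ ^ 2 ≤ ∫ z, mo δ ζ z * ‖X z‖ ^ 2 := by
  have hmoX : MemLp (mo δ X) 2 volume := by
    rw [mo_eq_spc]; exact spc_memLp (ro_integrable hδ) hX
  have hmoζ : AEStronglyMeasurable (mo δ ζ) volume := by
    rw [mo_eq_spc]; exact (spc_memLp (ro_integrable hδ) hζ2).1
  have hb : ∀ z, 0 ≤ mo δ ζ z ∧ mo δ ζ z ≤ L := fun z =>
    ⟨mo_scal_nonneg hδ hζ z, mo_scal_le hδ hζm hζ z⟩
  have i1 := int_wsq hmoX hζm.aestronglyMeasurable hζ
  have i2 := int_wsq hX hmoζ hb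
  have n1 : ∀ z, 0 ≤ ζ z * ‖mo δ X z‖ ^ 2 := fun z => mul_nonneg (hζ z).1 (by positivity)
  have n2 : ∀ z, 0 ≤ mo δ ζ z * ‖X z‖ ^ 2 := fun z => mul_nonneg (hb z).1 (by positivity)
  rw [← ENNReal.ofReal_le_ofReal_iff (integral_nonneg n2),
    ofReal_integral_eq_lintegral_ofReal i1 (Eventually.of_forall n1),
    ofReal_integral_eq_lintegral_ofReal i2 (Eventually.of_forall n2)]
  have e : ∀ {w : ℝ} {x : E}, 0 ≤ w →
      ENNReal.ofReal (w * ‖x‖ ^ 2) = ENNReal.ofReal w * ‖x‖ₑ ^ 2 := by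
    intro w x hw
    rw [ENNReal.ofReal_mul hw, ENNReal.ofReal_pow (norm_nonneg _), ofReal_norm]
  have e1 : ∫⁻ z, ENNReal.ofReal (ζ z * ‖mo δ X z‖ ^ 2) =
      ∫⁻ z, ENNReal.ofReal (ζ z) * ‖mo δ X z‖ₑ ^ 2 := lintegral_congr fun z => e (hζ z).1
  have e2 : ∫⁻ z, ENNReal.ofReal (mo δ ζ z * ‖X z‖ ^ 2) =
      ∫⁻ z, ENNReal.ofReal (mo δ ζ z) * ‖X z‖ₑ ^ 2 := lintegral_congr fun z => e (hb z).1
  rw [e1, e2]
  exact jensen_lint hδ hX hζm hζ

end bounds

/-! ### bounded multipliers converging to zero -/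

theorem mult_tendsto {α : Type*} [MeasurableSpace α] {μ : Measure α} {E : Type*}
    [NormedAddCommGroup E] [NormedSpace ℝ E] {f : ℕ → α → ℝ} {L : ℝ}
    (hf : ∀ m, AEStronglyMeasurable (f m) μ) (hL : ∀ m x, |f m x| ≤ L)
    (h0 : Tendsto (fun m => eLpNorm (f m) 2 μ) atTop (𝓝 0)) {G : α → E} (hG : MemLp G 2 μ) :
    Tendsto (fun m => eLpNorm (fun x => f m x • G x) 2 μ) atTop (𝓝 0) := by
  refine tendsto_of_subseq_tendsto fun ns hns => ?_
  have h1 : TendstoInMeasure μ (fun k => f (ns k)) atTop (fun _ => 0) := by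
    refine tendstoInMeasure_of_tendsto_eLpNorm (p := 2) (by norm_num) (fun k => hf _)
      aestronglyMeasurable_const ?_
    have h2 := h0.comp hns
    refine h2.congr fun k => ?_
    simp only [Function.comp_apply]
    congr 1
    funext x
    simp
  obtain ⟨ms, _, hae⟩ := h1.exists_seq_tendsto_ae
  refine ⟨ms, ?_⟩
  have h3 : Tendsto (fun k => ∫⁻ x, ‖f (ns (ms k)) x • G x‖ₑ ^ 2 ∂μ) atTop
      (𝓝 (∫⁻ _, 0 ∂μ)) := by
    refine tendsto_lintegral_of_dominated_convergence' (fun x => ENNReal.ofReal L ^ 2 * ‖G x‖ₑ ^ 2)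
      (fun k => (((hf _).smul hG.1).enorm.pow_const 2)) (fun k => Eventually.of_forall fun x => ?_)
      ?_ ?_
    · simp only
      rw [enorm_smul, mul_pow]
      refine mul_le_mul' (pow_le_pow_left' ?_ 2) le_rfl
      rw [← ofReal_norm, Real.norm_eq_abs]
      exact ENNReal.ofReal_le_ofReal (hL _ _)
    · rw [lintegral_const_mul'' _ (hG.1.enorm.pow_const 2)]
      refine ENNReal.mul_ne_top (by simp) ?_
      have := lintegral_rpow_enorm_lt_top_of_eLpNorm_lt_top (p := 2) (by norm_num) (by norm_num)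
        hG.2
      have h4 : ∫⁻ x, ‖G x‖ₑ ^ 2 ∂μ < ⊤ := by simpa using this
      exact h4.ne
    · filter_upwards [hae] with x hx
      have h4 : Tendsto (fun k => ‖f (ns (ms k)) x • G x‖ₑ ^ 2) atTop (𝓝 (‖(0:ℝ) • G x‖ₑ ^ 2)) := by
        have h5 : Tendsto (fun k => f (ns (ms k)) x • G x) atTop (𝓝 ((0:ℝ) • G x)) :=
          hx.smul_const _
        exact ((ENNReal.continuous_pow 2).tendsto _).comp h5.enorm
      simpa using h4
  rw [lintegral_zero] at h3
  have h4 : Tendsto (fun k => (∫⁻ x, ‖f (ns (ms k)) x • G x‖ₑ ^ 2 ∂μ) ^ (1 / 2 : ℝ)) atTop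
      (𝓝 (0 ^ (1 / 2 : ℝ))) := ((ENNReal.continuous_rpow_const).tendsto _).comp h3
  rw [ENNReal.zero_rpow_of_pos (by norm_num)] at h4
  refine h4.congr fun k => ?_
  rw [eLpNorm_two_eq]

/-! ### the limit of the weighted variances -/

/-- the inner product as a bilinear map -/
noncomputable def innerB (n : ℕ) : Mt n →L[ℝ] Mt n →L[ℝ] ℝ := innerSL ℝ

theorem innerB_apply (A B : Mt n) : innerB n A B = inner ℝ A B := rfl

theorem int_comb3 {α : Type*} [MeasurableSpace α] {μ : Measure α} {f g h : α → ℝ}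
    (hf : Integrable f μ) (hg : Integrable g μ) (hh : Integrable h μ) (c d : ℝ) :
    ∫ x, (f x + c * g x + d * h x) ∂μ =
      (∫ x, f x ∂μ) + c * (∫ x, g x ∂μ) + d * ∫ x, h x ∂μ := by
  have h2 : Integrable (fun x => c * g x) μ := hg.const_mul c
  have h3 : Integrable (fun x => d * h x) μ := hh.const_mul d
  have h4 : Integrable (fun x => f x + c * g x) μ := hf.add h2
  rw [integral_add h4 h3, integral_add hf h2, integral_const_mul, integral_const_mul]

theorem var_limit {Gs : ℕ → ST n → Mt n} {G : ST n → Mt n}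
    {gk : ℕ → ST n → Mt n} {ga : ℕ → ST n → ℝ} (hTV : TV volume Gs G gk ga) {δ : ℕ → ℝ}
    (hδ : ∀ m, 0 < δ m) (hδ0 : Tendsto δ atTop (𝓝 0)) (j : ℕ) {ζ : ST n → ℝ} {L : ℝ}
    (hζm : Measurable ζ) (hζ : ∀ z, 0 ≤ ζ z ∧ ζ z ≤ L) (hζ2 : MemLp ζ 2 volume) :
    Tendsto (fun m => ∫ z, mo (δ m) ζ z * ‖bk ((j : ℝ) + 1) (Gs m z) - G z‖ ^ 2) atTop
      (𝓝 (∫ z, ζ z * (ga j z - 2 * inner ℝ (gk j z) (G z) + ‖G z‖ ^ 2))) := by
  have hG := hTV.w.memU
  have hζs := mo_tendsto hζ2 hδ hδ0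
  have hmm : ∀ m, MemLp (mo (δ m) ζ) 2 volume := fun m => by
    rw [mo_eq_spc]; exact spc_memLp (ro_integrable (hδ m)) hζ2
  have hb : ∀ m z, 0 ≤ mo (δ m) ζ z ∧ mo (δ m) ζ z ≤ L := fun m z =>
    ⟨mo_scal_nonneg (hδ m) hζ z, mo_scal_le (hδ m) hζm hζ z⟩
  have hζG : MemLp (fun z => ζ z • G z) 2 volume := by
    refine hG.of_le_mul (c := L) (hζ2.1.smul hG.1) (Eventually.of_forall fun z => ?_)
    rw [norm_smul, Real.norm_of_nonneg (hζ z).1]
    exact mul_le_mul_of_nonneg_right (hζ z).2 (norm_nonneg _)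
  have hmG : ∀ m, MemLp (fun z => mo (δ m) ζ z • G z) 2 volume := fun m => by
    refine hG.of_le_mul (c := L) ((hmm m).1.smul hG.1) (Eventually.of_forall fun z => ?_)
    rw [norm_smul, Real.norm_of_nonneg (hb m z).1]
    exact mul_le_mul_of_nonneg_right (hb m z).2 (norm_nonneg _)
  have hd : Tendsto (fun m => eLpNorm (fun z => mo (δ m) ζ z • G z - ζ z • G z) 2 volume)
      atTop (𝓝 0) := by
    have h1 := mult_tendsto (f := fun m z => mo (δ m) ζ z - ζ z) (L := L)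
      (fun m => (hmm m).1.sub hζ2.1) (fun m z => by
        have h1 := hb m z
        have h2 := hζ z
        rw [abs_le]; constructor <;> linarith [h1.1, h1.2, h2.1, h2.2]) hζs hG
    refine h1.congr fun m => ?_
    congr 1
    funext z
    rw [sub_smul]
  -- the three terms
  have t1 : Tendsto (fun m => ∫ z, mo (δ m) ζ z * ‖bk ((j : ℝ) + 1) (Gs m z)‖ ^ 2) atTop
      (𝓝 (∫ z, ζ z * ga j z)) := by
    have h1 := wc_bilin_strong (hTV.wa j) hmm hζ2 hζs (ContinuousLinearMap.mul ℝ ℝ).flip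
    simpa only [ContinuousLinearMap.flip_apply, ContinuousLinearMap.mul_apply'] using h1
  have t2 : Tendsto (fun m => ∫ z, mo (δ m) ζ z * inner ℝ (bk ((j : ℝ) + 1) (Gs m z)) (G z)) atTop
      (𝓝 (∫ z, ζ z * inner ℝ (gk j z) (G z))) := by
    have h1 := wc_bilin_strong (hTV.wk j) hmG hζG hd (innerB n)
    simpa only [innerB_apply, inner_smul_right] using h1
  have t3 : Tendsto (fun m => ∫ z, mo (δ m) ζ z * ‖G z‖ ^ 2) atTop
      (𝓝 (∫ z, ζ z * ‖G z‖ ^ 2)) := by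
    have h1 := wc_bilin_strong (wc_const hG) hmG hζG hd (innerB n)
    simpa only [innerB_apply, inner_smul_right, real_inner_self_eq_norm_sq] using h1
  have hfin := (t1.sub (t2.const_mul 2)).add t3
  have i1 : ∀ m, Integrable (fun z => mo (δ m) ζ z * ‖bk ((j : ℝ) + 1) (Gs m z)‖ ^ 2) volume :=
    fun m => int_wsq ((hTV.wk j).mem m) (hmm m).1 (hb m)
  have i2 : ∀ m, Integrable (fun z => mo (δ m) ζ z *
      inner ℝ (bk ((j : ℝ) + 1) (Gs m z)) (G z)) volume := fun m => by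
    have := memLp_inner_integrable ((hTV.wk j).mem m) (hmG m)
    simpa only [inner_smul_right] using this
  have i3 : ∀ m, Integrable (fun z => mo (δ m) ζ z * ‖G z‖ ^ 2) volume :=
    fun m => int_wsq hG (hmm m).1 (hb m)
  have j1 : Integrable (fun z => ζ z * ga j z) volume := hζ2.integrable_mul (hTV.wa j).memU
  have j2 : Integrable (fun z => ζ z * inner ℝ (gk j z) (G z)) volume := by
    have := memLp_inner_integrable (hTV.wk j).memU hζG
    simpa only [inner_smul_right] using this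
  have j3 : Integrable (fun z => ζ z * ‖G z‖ ^ 2) volume := int_wsq hG hζ2.1 hζ
  have e1 : ∀ m, ∫ z, mo (δ m) ζ z * ‖bk ((j : ℝ) + 1) (Gs m z) - G z‖ ^ 2 =
      (∫ z, mo (δ m) ζ z * ‖bk ((j : ℝ) + 1) (Gs m z)‖ ^ 2) -
        2 * (∫ z, mo (δ m) ζ z * inner ℝ (bk ((j : ℝ) + 1) (Gs m z)) (G z)) +
        ∫ z, mo (δ m) ζ z * ‖G z‖ ^ 2 := by
    intro m
    have h1 := int_comb3 (i1 m) (i2 m) (i3 m) (-2) 1
    have h2 : ∫ z, mo (δ m) ζ z * ‖bk ((j : ℝ) + 1) (Gs m z) - G z‖ ^ 2 =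
        ∫ z, (mo (δ m) ζ z * ‖bk ((j : ℝ) + 1) (Gs m z)‖ ^ 2 +
          (-2) * (mo (δ m) ζ z * inner ℝ (bk ((j : ℝ) + 1) (Gs m z)) (G z)) +
          1 * (mo (δ m) ζ z * ‖G z‖ ^ 2)) := by
      refine integral_congr_ae (Eventually.of_forall fun z => ?_)
      simp only
      rw [norm_sub_sq_real]
      ring
    rw [h2, h1]
    ring
  have e2 : ∫ z, ζ z * (ga j z - 2 * inner ℝ (gk j z) (G z) + ‖G z‖ ^ 2) =
      (∫ z, ζ z * ga j z) - 2 * (∫ z, ζ z * inner ℝ (gk j z) (G z)) +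
        ∫ z, ζ z * ‖G z‖ ^ 2 := by
    have h1 := int_comb3 j1 j2 j3 (-2) 1
    have h2 : ∫ z, ζ z * (ga j z - 2 * inner ℝ (gk j z) (G z) + ‖G z‖ ^ 2) =
        ∫ z, (ζ z * ga j z + (-2) * (ζ z * inner ℝ (gk j z) (G z)) + 1 * (ζ z * ‖G z‖ ^ 2)) := by
      refine integral_congr_ae (Eventually.of_forall fun z => ?_)
      simp only
      ring
    rw [h2, h1]
    ring
  rw [e2]
  exact hfin.congr fun m => (e1 m).symm

/-! ### the mollified spin -/

section mspin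
variable {Ω : Set (Eu n)}

theorem sp_memLp {p : ℝ≥0∞} {A : ST n → Mt n} (hA : MemLp A p volume) :
    MemLp (fun z => sp (A z)) p volume := (spL n).comp_memLp' hA

theorem mspin_norm_le (A : ST n → Mt n) (z : ST n) :
    ‖mspin Ω δ A z‖ ≤ ‖mo δ (fun y => sp (A y)) z‖ := by
  unfold mspin
  by_cases h : z.2 ∈ Ω
  · rw [indicator_of_mem h]
  · rw [indicator_of_notMem h, norm_zero]; exact norm_nonneg _

theorem mspin_aesm (hΩ : IsOpen Ω) {A : ST n → Mt n} (hδ : 0 < δ)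
    (hA : AEStronglyMeasurable A volume) : AEStronglyMeasurable (mspin Ω δ A) volume := by
  have h1 : mspin Ω δ A = ((fun z : ST n => z.2) ⁻¹' Ω).indicator (mo δ (fun y => sp (A y))) := by
    funext z
    unfold mspin
    by_cases h : z.2 ∈ Ω
    · rw [indicator_of_mem h, indicator_of_mem (show z ∈ (fun z : ST n => z.2) ⁻¹' Ω from h)]
    · rw [indicator_of_notMem h, indicator_of_notMem (show z ∉ (fun z : ST n => z.2) ⁻¹' Ω from h)]
  rw [h1]
  refine AEStronglyMeasurable.indicator ?_ (hΩ.measurableSet.preimage measurable_snd)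
  rw [mo_eq_spc]
  exact spc_aesm (ro_integrable hδ).1 ((spL n).continuous.comp_aestronglyMeasurable hA)

theorem mspin_eLpNorm_le (hδ : 0 < δ) {A : ST n → Mt n} (hA : AEStronglyMeasurable A volume) :
    eLpNorm (mspin Ω δ A) 2 volume ≤ eLpNorm A 2 volume := by
  refine (eLpNorm_mono fun z => mspin_norm_le A z).trans ?_
  rw [mo_eq_spc]
  refine (spc_eLpNorm_le (ro_integrable hδ).1
    ((spL n).continuous.comp_aestronglyMeasurable hA)).trans ?_
  rw [ro_lint hδ, one_mul]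
  exact eLpNorm_mono fun z => norm_sp_le _

theorem mspin_memLp (hΩ : IsOpen Ω) (hδ : 0 < δ) {A : ST n → Mt n} (hA : MemLp A 2 volume) :
    MemLp (mspin Ω δ A) 2 volume :=
  ⟨mspin_aesm hΩ hδ hA.1, (mspin_eLpNorm_le hδ hA.1).trans_lt hA.2⟩

theorem mspin_sub (hδ : 0 < δ) {A B : ST n → Mt n} (hA : MemLp A 2 volume)
    (hB : MemLp B 2 volume) :
    mspin Ω δ (fun z => A z - B z) =ᵐ[volume] fun z => mspin Ω δ A z - mspin Ω δ B z := by
  have h1 := spc_sub (ro_integrable hδ) (sp_memLp hA) (sp_memLp hB)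
  filter_upwards [h1] with z hz
  unfold mspin
  by_cases h : z.2 ∈ Ω
  · simp only [indicator_of_mem h]
    rw [mo_eq_spc, mo_eq_spc, mo_eq_spc, ← hz]
    congr 1
    funext y
    exact (spL n).map_sub _ _
  · simp only [indicator_of_notMem h, sub_zero]

/-- `L¹` bound -/
theorem mspin_lint_le (hδ : 0 < δ) {A : ST n → Mt n} (hA : AEStronglyMeasurable A volume) :
    ∫⁻ z, ‖mspin Ω δ A z‖ₑ ≤ ∫⁻ z, ‖A z‖ₑ := by
  calc ∫⁻ z, ‖mspin Ω δ A z‖ₑ
      ≤ ∫⁻ z : ST n, ∫⁻ y : Eu n, ‖ro δ (z.2 - y)‖ₑ * ‖A (z.1, y)‖ₑ := by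
        refine lintegral_mono fun z => ?_
        have h0 : ‖mspin Ω δ A z‖ₑ ≤ ‖mo δ (fun y => sp (A y)) z‖ₑ :=
          enorm_le_iff_norm_le.2 (mspin_norm_le A z)
        refine h0.trans ((enorm_integral_le_lintegral_enorm _).trans ?_)
        refine lintegral_mono fun y => ?_
        rw [enorm_smul]
        exact mul_le_mul' le_rfl (enorm_le_iff_norm_le.2 (norm_sp_le _))
    _ = _ := by
        rw [young_tonelli (f := fun z => ‖A z‖ₑ) (ro_integrable hδ).1 hA.enorm, ro_lint hδ,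
          one_mul]

end mspin

theorem rem_tendsto {Ω : Set (Eu n)} {G : ST n → Mt n} (hG : MemLp G 2 volume) {δ : ℕ → ℝ}
    (hδ : ∀ m, 0 < δ m) (hδ0 : Tendsto δ atTop (𝓝 0))
    (hG0 : ∀ᵐ z : ST n, z.2 ∉ Ω → G z = 0) :
    Tendsto (fun m => eLpNorm (fun z => mspin Ω (δ m) G z - sp (G z)) 2 volume) atTop (𝓝 0) := by
  have h1 := mo_tendsto (sp_memLp hG) hδ hδ0
  refine tendsto_of_tendsto_of_tendsto_of_le_of_le tendsto_const_nhds h1 (fun _ => zero_le)
    fun m => ?_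
  refine eLpNorm_mono_ae ?_
  filter_upwards [hG0] with z hz
  unfold mspin
  by_cases h : z.2 ∈ Ω
  · rw [indicator_of_mem h]
  · rw [indicator_of_notMem h, hz h]
    have h0 : sp (0 : Mt n) = 0 := (spL n).map_zero
    rw [h0, sub_zero, norm_zero]
    exact norm_nonneg _

/-- N2a: the mollified spins satisfy `SpinProp` -/
theorem spin_var {Ω : Set (Eu n)} (hΩ : IsOpen Ω) {Gs : ℕ → ST n → Mt n} {G : ST n → Mt n}
    {gk : ℕ → ST n → Mt n} {ga : ℕ → ST n → ℝ} (hTV : TV volume Gs G gk ga) {M : ℝ}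
    (hM0 : 0 ≤ M) (hM : ∀ m, eLpNorm (Gs m) 2 volume ≤ ENNReal.ofReal M) {δ : ℕ → ℝ}
    (hδ : ∀ m, 0 < δ m) (hδ0 : Tendsto δ atTop (𝓝 0))
    (hG0 : ∀ᵐ z : ST n, z.2 ∉ Ω → G z = 0) :
    SpinProp (fun m => mspin Ω (δ m) (Gs m)) G gk ga (M ^ 2) := by
  intro j
  set k : ℝ := (j : ℝ) + 1 with hk
  have hk0 : 0 < k := by positivity
  set b : ℕ → ST n → Mt n := fun m z => bk k (Gs m z) with hb
  have hbm : ∀ m, MemLp (b m) 2 volume := (hTV.wk j).mem
  have hGm := hTV.w.mem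
  have hG := hTV.w.memU
  have hbM : ∀ m, eLpNorm (b m) 2 volume ≤ ENNReal.ofReal M := fun m =>
    (eLpNorm_mono fun z => bk_norm_le k _).trans (hM m)
  have hdm : ∀ m, MemLp (fun z => Gs m z - b m z) 2 volume := fun m => (hGm m).sub (hbm m)
  have hXm : ∀ m, MemLp (fun z => b m z - G z) 2 volume := fun m => (hbm m).sub hG
  -- `L¹` bound for `Gs - b`
  have hL1 : ∀ m, ∫⁻ z, ‖Gs m z - b m z‖ₑ ≤ ENNReal.ofReal (M ^ 2 / k) := by
    intro m
    have h1 : ∀ z, ‖Gs m z - b m z‖ₑ ≤ ENNReal.ofReal k⁻¹ * ‖Gs m z‖ₑ ^ 2 := by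
      intro z
      rw [← ofReal_norm, ← ofReal_norm, ← ENNReal.ofReal_pow (norm_nonneg _),
        ← ENNReal.ofReal_mul (by positivity)]
      apply ENNReal.ofReal_le_ofReal
      have := bk_sub_le hk0 (Gs m z)
      rwa [div_eq_inv_mul] at this
    calc ∫⁻ z, ‖Gs m z - b m z‖ₑ ≤ ∫⁻ z, ENNReal.ofReal k⁻¹ * ‖Gs m z‖ₑ ^ 2 := lintegral_mono h1
      _ = ENNReal.ofReal k⁻¹ * ∫⁻ z, ‖Gs m z‖ₑ ^ 2 :=
          lintegral_const_mul'' _ ((hGm m).1.enorm.pow_const 2)
      _ = ENNReal.ofReal k⁻¹ * eLpNorm (Gs m) 2 volume ^ 2 := by rw [lint_sq_eq]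
      _ ≤ ENNReal.ofReal k⁻¹ * ENNReal.ofReal M ^ 2 :=
          mul_le_mul' le_rfl (pow_le_pow_left' (hM m) 2)
      _ = ENNReal.ofReal (M ^ 2 / k) := by
          rw [← ENNReal.ofReal_pow hM0, ← ENNReal.ofReal_mul (by positivity), div_eq_inv_mul]
  refine ⟨fun m => mspin Ω (δ m) (b m), fun m => mspin Ω (δ m) (fun z => Gs m z - b m z),
    ?_, fun m => mspin_memLp hΩ (hδ m) (hbm m), ⟨M, fun m => ?_⟩, ?_, ?_, ?_⟩
  · intro m
    filter_upwards [mspin_sub (Ω := Ω) (hδ m) (hGm m) (hbm m)] with z hz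
    rw [hz]
    abel
  · exact (mspin_eLpNorm_le (hδ m) (hbm m).1).trans (hbM m)
  · intro m
    refine ⟨mspin_aesm hΩ (hδ m) (hdm m).1, ?_⟩
    rw [hasFiniteIntegral_iff_enorm]
    exact ((mspin_lint_le (hδ m) (hdm m).1).trans (hL1 m)).trans_lt ENNReal.ofReal_lt_top
  · intro m
    have h1 := (mspin_lint_le (Ω := Ω) (hδ m) (hdm m).1).trans (hL1 m)
    rw [integral_norm_eq_lintegral_enorm (mspin_aesm hΩ (hδ m) (hdm m).1)]
    exact ENNReal.toReal_le_of_le_ofReal (by positivity) h1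
  · intro ζ L hζm hζ hζ2 ε hε
    set P : ℕ → ST n → Mt n := fun m => mspin Ω (δ m) (fun z => b m z - G z) with hP
    set R : ℕ → ST n → Mt n := fun m z => mspin Ω (δ m) G z - sp (G z) with hR
    have hPm : ∀ m, MemLp (P m) 2 volume := fun m => mspin_memLp hΩ (hδ m) (hXm m)
    have hRm : ∀ m, MemLp (R m) 2 volume := fun m =>
      (mspin_memLp hΩ (hδ m) hG).sub (sp_memLp hG)
    have hdec : ∀ m, (fun z => mspin Ω (δ m) (b m) z - sp (G z)) =ᵐ[volume]
        fun z => P m z + R m z := by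
      intro m
      filter_upwards [mspin_sub (Ω := Ω) (hδ m) (hbm m) hG] with z hz
      rw [hP, hR]
      simp only
      rw [hz]
      abel
    have hRt := rem_tendsto (Ω := Ω) hG hδ hδ0 hG0
    set C : ℝ := M + (eLpNorm G 2 volume).toReal with hC
    have hC0 : 0 ≤ C := add_nonneg hM0 ENNReal.toReal_nonneg
    have hPC : ∀ m, (eLpNorm (P m) 2 volume).toReal ≤ C := by
      intro m
      refine ENNReal.toReal_le_of_le_ofReal hC0 ?_
      refine (mspin_eLpNorm_le (hδ m) (hXm m).1).trans ?_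
      refine (eLpNorm_sub_le (hbm m).1 hG.1 (by norm_num)).trans ?_
      rw [hC, ENNReal.ofReal_add hM0 ENNReal.toReal_nonneg, ENNReal.ofReal_toReal hG.2.ne]
      exact add_le_add (hbM m) le_rfl
    have hL0 : 0 ≤ L := (hζ 0).1.trans (hζ 0).2
    -- the cross terms tend to zero
    have hr : Tendsto (fun m => (eLpNorm (R m) 2 volume).toReal) atTop (𝓝 0) := by
      have h0 := (ENNReal.tendsto_toReal (by simp : (0:ℝ≥0∞) ≠ ⊤)).comp hRt
      rw [ENNReal.toReal_zero] at h0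
      exact h0
    have hcr : Tendsto (fun m => 2 * (L * (C * (eLpNorm (R m) 2 volume).toReal)) +
        L * ((eLpNorm (R m) 2 volume).toReal * (eLpNorm (R m) 2 volume).toReal)) atTop (𝓝 0) := by
      have h1 := (((hr.const_mul C).const_mul L).const_mul 2).add ((hr.mul hr).const_mul L)
      simpa using h1
    have hlim := (var_limit hTV hδ hδ0 j hζm hζ hζ2).add hcr
    rw [add_zero] at hlim
    have hev := hlim.eventually_lt_const (lt_add_of_pos_right _ hε)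
    filter_upwards [hev] with m hm
    refine le_trans ?_ hm.le
    have e0 : ∫ z, ζ z * ‖mspin Ω (δ m) (b m) z - sp (G z)‖ ^ 2 =
        ∫ z, ζ z * ‖P m z + R m z‖ ^ 2 :=
      integral_congr_ae (by filter_upwards [hdec m] with z hz; rw [hz])
    have iP : Integrable (fun z => ζ z * ‖P m z‖ ^ 2) volume := int_wsq (hPm m) hζ2.1 hζ
    have iR : Integrable (fun z => ζ z * ‖R m z‖ ^ 2) volume := int_wsq (hRm m) hζ2.1 hζ
    have hζR : MemLp (fun z => ζ z • R m z) 2 volume := by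
      refine (hRm m).of_le_mul (c := L) (hζ2.1.smul (hRm m).1) (Eventually.of_forall fun z => ?_)
      rw [norm_smul, Real.norm_of_nonneg (hζ z).1]
      exact mul_le_mul_of_nonneg_right (hζ z).2 (norm_nonneg _)
    have iPR : Integrable (fun z => ζ z * inner ℝ (P m z) (R m z)) volume := by
      have := memLp_inner_integrable (hPm m) hζR
      simpa only [inner_smul_right] using this
    have hζRn : (eLpNorm (fun z => ζ z • R m z) 2 volume).toReal ≤
        L * (eLpNorm (R m) 2 volume).toReal := by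
      have h1 : eLpNorm (fun z => ζ z • R m z) 2 volume ≤
          ENNReal.ofReal L * eLpNorm (R m) 2 volume := by
        refine eLpNorm_le_mul_eLpNorm_of_ae_le_mul (Eventually.of_forall fun z => ?_) 2
        rw [norm_smul, Real.norm_of_nonneg (hζ z).1]
        exact mul_le_mul_of_nonneg_right (hζ z).2 (norm_nonneg _)
      have h2 := ENNReal.toReal_mono (ENNReal.mul_ne_top ENNReal.ofReal_ne_top (hRm m).2.ne) h1
      rwa [ENNReal.toReal_mul, ENNReal.toReal_ofReal hL0] at h2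
    have e1 : ∫ z, ζ z * ‖P m z + R m z‖ ^ 2 = (∫ z, ζ z * ‖P m z‖ ^ 2) +
        (2 * (∫ z, ζ z * inner ℝ (P m z) (R m z)) + ∫ z, ζ z * ‖R m z‖ ^ 2) := by
      have h1 := int_comb3 iP iPR iR 2 1
      have h2 : ∫ z, ζ z * ‖P m z + R m z‖ ^ 2 = ∫ z, (ζ z * ‖P m z‖ ^ 2 +
          2 * (ζ z * inner ℝ (P m z) (R m z)) + 1 * (ζ z * ‖R m z‖ ^ 2)) := by
        refine integral_congr_ae (Eventually.of_forall fun z => ?_)
        simp only
        rw [norm_add_sq_real]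
        ring
      rw [h2, h1]
      ring
    have b1 : ∫ z, ζ z * ‖P m z‖ ^ 2 ≤ ∫ z, mo (δ m) ζ z * ‖bk k (Gs m z) - G z‖ ^ 2 := by
      have hsX : MemLp (fun z => sp (b m z - G z)) 2 volume := sp_memLp (hXm m)
      have hmo : MemLp (mo (δ m) fun z => sp (b m z - G z)) 2 volume := by
        rw [mo_eq_spc]; exact spc_memLp (ro_integrable (hδ m)) hsX
      have hmζ : MemLp (mo (δ m) ζ) 2 volume := by
        rw [mo_eq_spc]; exact spc_memLp (ro_integrable (hδ m)) hζ2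
      have hbd : ∀ z, 0 ≤ mo (δ m) ζ z ∧ mo (δ m) ζ z ≤ L := fun z =>
        ⟨mo_scal_nonneg (hδ m) hζ z, mo_scal_le (hδ m) hζm hζ z⟩
      calc ∫ z, ζ z * ‖P m z‖ ^ 2
          ≤ ∫ z, ζ z * ‖mo (δ m) (fun z => sp (b m z - G z)) z‖ ^ 2 := by
            refine integral_mono iP (int_wsq hmo hζ2.1 hζ) fun z => ?_
            exact mul_le_mul_of_nonneg_left (pow_le_pow_left₀ (norm_nonneg _)
              (mspin_norm_le _ z) 2) (hζ z).1
        _ ≤ ∫ z, mo (δ m) ζ z * ‖sp (b m z - G z)‖ ^ 2 := jensen_real (hδ m) hsX hζm hζ hζ2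
        _ ≤ _ := by
            refine integral_mono (int_wsq hsX hmζ.1 hbd) (int_wsq (hXm m) hmζ.1 hbd) fun z => ?_
            exact mul_le_mul_of_nonneg_left (pow_le_pow_left₀ (norm_nonneg _)
              (norm_sp_le _) 2) (hbd z).1
    have b2 : ∫ z, ζ z * inner ℝ (P m z) (R m z) ≤
        L * (C * (eLpNorm (R m) 2 volume).toReal) := by
      have h1 := integral_inner_le (hPm m) hζR
      have h2 : ∫ z, inner ℝ (P m z) (ζ z • R m z) = ∫ z, ζ z * inner ℝ (P m z) (R m z) :=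
        integral_congr_ae (Eventually.of_forall fun z => by simp only [inner_smul_right])
      rw [h2] at h1
      refine (le_abs_self _).trans (h1.trans ?_)
      calc (eLpNorm (P m) 2 volume).toReal * (eLpNorm (fun z => ζ z • R m z) 2 volume).toReal
          ≤ C * (L * (eLpNorm (R m) 2 volume).toReal) :=
            mul_le_mul (hPC m) hζRn ENNReal.toReal_nonneg hC0
        _ = _ := by ring
    have b3 : ∫ z, ζ z * ‖R m z‖ ^ 2 ≤
        L * ((eLpNorm (R m) 2 volume).toReal * (eLpNorm (R m) 2 volume).toReal) := by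
      have h1 := integral_inner_le (hRm m) hζR
      have h2 : ∫ z, inner ℝ (R m z) (ζ z • R m z) = ∫ z, ζ z * ‖R m z‖ ^ 2 :=
        integral_congr_ae (Eventually.of_forall fun z => by
          simp only [inner_smul_right, real_inner_self_eq_norm_sq])
      rw [h2] at h1
      refine (le_abs_self _).trans (h1.trans ?_)
      calc (eLpNorm (R m) 2 volume).toReal * (eLpNorm (fun z => ζ z • R m z) 2 volume).toReal
          ≤ (eLpNorm (R m) 2 volume).toReal * (L * (eLpNorm (R m) 2 volume).toReal) :=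
            mul_le_mul_of_nonneg_left hζRn ENNReal.toReal_nonneg
        _ = _ := by ring
    rw [e0, e1]
    linarith

end Pool.Agent.Helper94.Jef
end
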