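import Pool.Agent.Helper42.JefB.C4
import Pool.Agent.Helper42.JefB.C2
import Pool.Agent.Helper42.JefB.C3
import Pool.Agent.Helper42.JefB.B0

section
/-!
# Integrability of the elliptic kernel, assembling the main kernel
-/

open MeasureTheory Set Filter Topology
open scoped ENNReal ContDiff

namespace Pool.Agent.Helper79.Horm

open Pool.Agent.Helper42.Jef

variable {n : ℕ}

/-- integrability of kernels with an integrable time factor -/
theorem ell_integrable {μ ε C : ℝ} {P : ℝ → Eu n → ℝ} {θ : ℝ → ℝ}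
    (hP : ContinuousOn (fun z : ℝ × Eu n => P z.1 z.2) (Ioi 0 ×ˢ univ))
    (g1 : ∀ s > 0, ∫⁻ x, ‖P s x‖ₑ ≤ ENNReal.ofReal (C / s))
    (hθm : Measurable θ) (hθ0 : ∀ r ≤ 0, θ r = 0) (hθ : Integrable θ)
    (hμ : 0 < μ) (hε : 0 < ε) (hε1 : ε < 1) (hC : 0 ≤ C) :
    Integrable (fun z : ST n => ∫ s in ε..1, θ z.1 * P (μ * z.1 + s) z.2) := by
  have e1 : (fun z : ST n => ∫ s in ε..1, θ z.1 * P (μ * z.1 + s) z.2) =
      fun z => ∫ s in Ioc ε 1, θ z.1 * PP P (μ * z.1 + s, z.2) := by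
    funext z
    rw [intervalIntegral.integral_of_le hε1.le]
    refine setIntegral_congr_fun measurableSet_Ioc fun s hs => ?_
    rcases le_or_gt z.1 0 with hz | hz
    · simp [hθ0 _ hz]
    · rw [PP_pos]
      have := hs.1
      nlinarith [mul_pos hμ hz]
  rw [e1]
  have mG : Measurable (fun p : ST n × ℝ => θ p.1.1 * PP P (μ * p.1.1 + p.2, p.1.2)) := by
    refine Measurable.mul (hθm.comp (measurable_fst.comp measurable_fst)) ?_
    refine (PP_meas hP).comp (Measurable.prodMk ?_ ?_)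
    · exact ((measurable_fst.comp measurable_fst).const_mul μ).add measurable_snd
    · exact measurable_snd.comp measurable_fst
  refine ⟨?_, ?_⟩
  · have := StronglyMeasurable.integral_prod_right (ν := volume.restrict (Ioc ε 1))
      (f := fun (z : ST n) s => θ z.1 * PP P (μ * z.1 + s, z.2)) mG.stronglyMeasurable
    exact this.aestronglyMeasurable
  · rw [hasFiniteIntegral_iff_enorm]
    calc ∫⁻ z : ST n, ‖∫ s in Ioc ε 1, θ z.1 * PP P (μ * z.1 + s, z.2)‖ₑ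
        ≤ ∫⁻ z : ST n, ∫⁻ s in Ioc ε 1, ‖θ z.1 * PP P (μ * z.1 + s, z.2)‖ₑ :=
          lintegral_mono fun z => enorm_integral_le_lintegral_enorm _
      _ = ∫⁻ s in Ioc ε 1, ∫⁻ z : ST n, ‖θ z.1 * PP P (μ * z.1 + s, z.2)‖ₑ :=
          lintegral_lintegral_swap mG.enorm.aemeasurable
      _ ≤ ∫⁻ s in Ioc ε 1, (∫⁻ r, ‖θ r‖ₑ) * ENNReal.ofReal (C / ε) := by
          refine setLIntegral_mono' measurableSet_Ioc fun s hs => ?_
          have ms : Measurable fun z : ST n => ‖θ z.1 * PP P (μ * z.1 + s, z.2)‖ₑ :=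
            (mG.comp (measurable_id.prodMk measurable_const)).enorm
          rw [Measure.volume_eq_prod, lintegral_prod _ ms.aemeasurable]
          calc ∫⁻ r, ∫⁻ x, ‖θ r * PP P (μ * r + s, x)‖ₑ
              ≤ ∫⁻ r, ‖θ r‖ₑ * ENNReal.ofReal (C / ε) := by
                refine lintegral_mono fun r => ?_
                simp_rw [enorm_mul]
                have mx : Measurable fun x : Eu n => ‖PP P (μ * r + s, x)‖ₑ :=
                  ((PP_meas hP).comp (measurable_const.prodMk measurable_id)).enorm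
                rw [lintegral_const_mul _ mx]
                rcases le_or_gt r 0 with hr | hr
                · simp [hθ0 _ hr]
                · refine mul_le_mul_right ?_ _
                  have h1 : ε < μ * r + s := by nlinarith [hs.1, mul_pos hμ hr]
                  have h0 : 0 < μ * r + s := hε.trans h1
                  have : ∫⁻ x, ‖PP P (μ * r + s, x)‖ₑ = ∫⁻ x, ‖P (μ * r + s) x‖ₑ :=
                    lintegral_congr fun x => by rw [PP_pos h0]
                  rw [this]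
                  refine (g1 _ h0).trans (ENNReal.ofReal_le_ofReal ?_)
                  exact div_le_div_of_nonneg_left hC hε h1.le
            _ = (∫⁻ r, ‖θ r‖ₑ) * ENNReal.ofReal (C / ε) := lintegral_mul_const _ hθm.enorm
      _ < ⊤ := by
          rw [setLIntegral_const, Real.volume_Ioc]
          refine ENNReal.mul_lt_top (ENNReal.mul_lt_top ?_ ENNReal.ofReal_lt_top)
            ENNReal.ofReal_lt_top
          have := hθ.2
          rwa [hasFiniteIntegral_iff_enorm] at this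

/-- facts on the derivative of the smooth step -/
theorem dstep {ε : ℝ} (hε : 0 < ε) :
    Continuous (deriv fun r => Real.smoothTransition (r / ε)) ∧
    (∀ r ≤ 0, deriv (fun r => Real.smoothTransition (r / ε)) r = 0) ∧
    (∀ r, ε ≤ r → deriv (fun r => Real.smoothTransition (r / ε)) r = 0) ∧
    (∀ r, 0 ≤ deriv (fun r => Real.smoothTransition (r / ε)) r) ∧
    Integrable (deriv fun r => Real.smoothTransition (r / ε)) := by
  have hc : ContDiff ℝ 1 (fun r => Real.smoothTransition (r / ε)) :=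
    (Real.smoothTransition.contDiff (n := 1)).comp (contDiff_id.div_const ε)
  have h1 : Continuous (deriv fun r => Real.smoothTransition (r / ε)) :=
    hc.continuous_deriv (by norm_num)
  have h2 : ∀ r < 0, deriv (fun r => Real.smoothTransition (r / ε)) r = 0 := by
    intro r hr
    have : (fun r => Real.smoothTransition (r / ε)) =ᶠ[𝓝 r] fun _ => 0 := by
      filter_upwards [Iio_mem_nhds hr] with t ht
      exact Real.smoothTransition.zero_of_nonpos
        (div_nonpos_of_nonpos_of_nonneg (le_of_lt ht) hε.le)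
    rw [this.deriv_eq]; simp
  have h3 : ∀ r, ε < r → deriv (fun r => Real.smoothTransition (r / ε)) r = 0 := by
    intro r hr
    have : (fun r => Real.smoothTransition (r / ε)) =ᶠ[𝓝 r] fun _ => 1 := by
      filter_upwards [Ioi_mem_nhds hr] with t ht
      exact Real.smoothTransition.one_of_one_le ((one_le_div hε).2 (le_of_lt ht))
    rw [this.deriv_eq]; simp
  have h2' : ∀ r ≤ 0, deriv (fun r => Real.smoothTransition (r / ε)) r = 0 := by
    have : Iic (0 : ℝ) ⊆ {r | deriv (fun r => Real.smoothTransition (r / ε)) r = 0} := by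
      rw [← closure_Iio]
      exact closure_minimal (fun r hr => h2 r hr) (isClosed_eq h1 continuous_const)
    exact fun r hr => this hr
  have h3' : ∀ r, ε ≤ r → deriv (fun r => Real.smoothTransition (r / ε)) r = 0 := by
    have : Ici ε ⊆ {r | deriv (fun r => Real.smoothTransition (r / ε)) r = 0} := by
      rw [← closure_Ioi]
      exact closure_minimal (fun r hr => h3 r hr) (isClosed_eq h1 continuous_const)
    exact fun r hr => this hr
  refine ⟨h1, h2', h3', ?_, ?_⟩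
  · intro r
    refine Monotone.deriv_nonneg ?_
    exact fun a b hab => Real.smoothTransition.monotone (div_le_div_of_nonneg_right hab hε.le)
  · refine h1.integrable_of_hasCompactSupport ?_
    refine HasCompactSupport.of_support_subset_isCompact (isCompact_Icc (a := 0) (b := ε)) ?_
    intro r hr
    rw [Function.mem_support] at hr
    refine ⟨?_, ?_⟩
    · by_contra hc
      exact hr (h2' r (not_le.1 hc).le)
    · by_contra hc
      exact hr (h3' r (not_le.1 hc).le)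

end Pool.Agent.Helper79.Horm
end

section
/-! # `L²` bounds for the two singular kernels -/

open MeasureTheory Set Filter Topology
open scoped ENNReal FourierTransform Interval

namespace Pool.Agent.Helper76.Jef

open Pool.Agent.Helper42.Jef

variable {n : ℕ}

/-! ### a measurable extension of `(s, x) ↦ pds l (Gs s) x` -/

/-- measurable extension of `(s, x) ↦ pds l (Gs s) x` -/
noncomputable def Qs (l : List (Fin n)) (p : ℝ × Eu n) : ℝ :=
  (p.1 ^ (-(1 / 2) : ℝ)) ^ (n + l.length) * pds l (Gs 1) ((p.1 ^ (-(1 / 2) : ℝ)) • p.2)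

theorem Qs_eq {s : ℝ} (hs : 0 < s) (l : List (Fin n)) (x : Eu n) :
    pds l (Gs s) x = Qs l (s, x) := pds_Gs_scale hs l x

theorem Qs_meas (l : List (Fin n)) : Measurable (Qs l) := by
  have h1 : Measurable fun p : ℝ × Eu n => p.1 ^ (-(1 / 2) : ℝ) :=
    measurable_fst.pow_const _
  have h2 : Measurable (pds l (Gs (n := n) 1)) := (isS_pds (isS_Gs one_pos) l).continuous.measurable
  exact (h1.pow_const _).mul (h2.comp (h1.smul measurable_snd))

theorem lintegral_Qs {s : ℝ} (hs : 0 < s) (l : List (Fin n)) :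
    ∫⁻ x, ‖Qs l (s, x)‖ₑ =
      ENNReal.ofReal ((s ^ (-(1 / 2) : ℝ)) ^ l.length) * ∫⁻ x, ‖pds l (Gs (n := n) 1) x‖ₑ := by
  set c : ℝ := s ^ (-(1 / 2) : ℝ) with hc
  have hc0 : 0 < c := Real.rpow_pos_of_pos hs _
  have h1 : ∀ x, ‖Qs l (s, x)‖ₑ =
      ENNReal.ofReal (c ^ (n + l.length)) * ‖pds l (Gs (n := n) 1) (c • x)‖ₑ := by
    intro x
    unfold Qs
    rw [enorm_mul]
    congr 1
    rw [Real.enorm_eq_ofReal (by positivity)]
  simp_rw [h1]
  have hm : Measurable (pds l (Gs (n := n) 1)) :=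
    (isS_pds (isS_Gs one_pos) l).continuous.measurable
  rw [lintegral_const_mul _ (by fun_prop)]
  have h2 : ∫⁻ x : Eu n, ‖pds l (Gs (n := n) 1) (c • x)‖ₑ =
      ENNReal.ofReal ((c ^ n)⁻¹) * ∫⁻ x, ‖pds l (Gs (n := n) 1) x‖ₑ := by
    have h3 := lintegral_map (μ := (volume : Measure (Eu n)))
      (f := fun x => ‖pds l (Gs (n := n) 1) x‖ₑ) (g := fun x : Eu n => c • x)
      (by fun_prop) (by fun_prop)
    rw [← h3, Measure.map_addHaar_smul _ hc0.ne', lintegral_smul_measure]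
    simp [abs_of_pos hc0]
  rw [h2, ← mul_assoc, ← ENNReal.ofReal_mul (by positivity)]
  congr 2
  rw [pow_add]
  field_simp

/-! ### the Fourier transform of a time slice -/

/-- time slice of the kernels -/
noncomputable def slice (μ ε w r : ℝ) (l : List (Fin n)) (x : Eu n) : ℝ :=
  ∫ s in ε..1, w * pds l (Gs (μ * r + s)) x

theorem fourier_slice {μ ε : ℝ} (hμ : 0 < μ) (hε : 0 < ε) (hε1 : ε < 1) (w : ℝ) {r : ℝ}
    (hr : 0 ≤ r) (l : List (Fin n)) (ξ : Eu n) :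
    ‖𝓕 (fun x : Eu n => ((slice μ ε w r l x : ℝ) : ℂ)) ξ‖ ≤
      |w| * ∫ s in ε..1, (2 * Real.pi * ‖ξ‖) ^ l.length *
        Real.exp (-((2 * Real.pi * ‖ξ‖) ^ 2 * (μ * r + s))) := by
  have hpos : ∀ s ∈ Ioc ε 1, 0 < μ * r + s := fun s hs => by
    have : 0 ≤ μ * r := by positivity
    linarith [hs.1]
  have h1 : (fun x : Eu n => ((slice μ ε w r l x : ℝ) : ℂ)) =
      fun x => ∫ s in Ioc ε 1, ((w * Qs l (μ * r + s, x) : ℝ) : ℂ) := by
    funext x
    unfold slice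
    rw [intervalIntegral.integral_of_le hε1.le, ← integral_complex_ofReal]
    refine setIntegral_congr_fun measurableSet_Ioc fun s hs => ?_
    rw [Qs_eq (hpos s hs)]
  have hchar : Continuous fun x : Eu n => ((Real.fourierChar (-inner ℝ x ξ) : Circle) : ℂ) :=
    continuous_subtype_val.comp (Real.continuous_fourierChar.comp (by fun_prop))
  -- integrability
  have hmeas : Measurable fun p : Eu n × ℝ => Qs l (μ * r + p.2, p.1) :=
    (Qs_meas l).comp ((by fun_prop : Measurable fun p : Eu n × ℝ => (μ * r + p.2, p.1)))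
  have hM : ∫⁻ x, ‖pds l (Gs (n := n) 1) x‖ₑ < ∞ :=
    (isS_pds (isS_Gs one_pos) l).integrable.2
  have hint : Integrable (fun p : Eu n × ℝ => ((Real.fourierChar (-inner ℝ p.1 ξ) : Circle) : ℂ) *
      ((w * Qs l (μ * r + p.2, p.1) : ℝ) : ℂ))
      ((volume : Measure (Eu n)).prod (volume.restrict (Ioc ε 1))) := by
    constructor
    · refine AEStronglyMeasurable.mul ?_ ?_
      · exact (hchar.comp continuous_fst).aestronglyMeasurable
      · exact (Complex.measurable_ofReal.comp (hmeas.const_mul w)).aestronglyMeasurable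
    · show ∫⁻ p, _ ∂_ < ∞
      have h2 : ∀ p : Eu n × ℝ, ‖((Real.fourierChar (-inner ℝ p.1 ξ) : Circle) : ℂ) *
          ((w * Qs l (μ * r + p.2, p.1) : ℝ) : ℂ)‖ₑ = ‖w‖ₑ * ‖Qs l (μ * r + p.2, p.1)‖ₑ := by
        intro p
        rw [enorm_mul, enorm_ofReal', enorm_mul]
        have : ‖((Real.fourierChar (-inner ℝ p.1 ξ) : Circle) : ℂ)‖ₑ = 1 := by
          rw [← ofReal_norm, Circle.norm_coe, ENNReal.ofReal_one]
        rw [this, one_mul]
      simp_rw [h2]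
      rw [lintegral_prod_symm _ (by
        exact ((hmeas.enorm).const_mul _).aemeasurable)]
      have h3 : ∀ s ∈ Ioc ε 1, ∫⁻ x : Eu n, ‖w‖ₑ * ‖Qs l (μ * r + s, x)‖ₑ ≤
          ‖w‖ₑ * (ENNReal.ofReal ((ε ^ (-(1 / 2) : ℝ)) ^ l.length) *
            ∫⁻ x, ‖pds l (Gs (n := n) 1) x‖ₑ) := by
        intro s hs
        have hm2 : Measurable fun x : Eu n => ‖Qs l (μ * r + s, x)‖ₑ :=
          ((Qs_meas l).comp (by fun_prop : Measurable fun x : Eu n => (μ * r + s, x))).enorm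
        rw [lintegral_const_mul _ hm2, lintegral_Qs (hpos s hs)]
        gcongr ‖w‖ₑ * (ENNReal.ofReal (?_ ^ _) * _)
        · exact (Real.rpow_pos_of_pos (hpos s hs) _).le
        · refine Real.rpow_le_rpow_of_nonpos hε ?_ (by norm_num)
          have : 0 ≤ μ * r := by positivity
          linarith [hs.1]
      refine (setLIntegral_mono measurable_const h3).trans_lt ?_
      rw [setLIntegral_const]
      refine ENNReal.mul_lt_top (ENNReal.mul_lt_top (by simp) (ENNReal.mul_lt_top (by simp) hM))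
        (by simp)
  have h4 : 𝓕 (fun x : Eu n => ((slice μ ε w r l x : ℝ) : ℂ)) ξ =
      ∫ s in Ioc ε 1, (w : ℂ) * 𝓕 (fun x : Eu n => ((pds l (Gs (μ * r + s)) x : ℝ) : ℂ)) ξ := by
    rw [h1, Real.fourier_eq]
    have h5 : ∀ x : Eu n, (Real.fourierChar (-inner ℝ x ξ)) •
        (∫ s in Ioc ε 1, ((w * Qs l (μ * r + s, x) : ℝ) : ℂ)) =
        ∫ s in Ioc ε 1, ((Real.fourierChar (-inner ℝ x ξ) : Circle) : ℂ) *
          ((w * Qs l (μ * r + s, x) : ℝ) : ℂ) := by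
      intro x
      rw [integral_const_mul]
      rfl
    simp_rw [h5]
    rw [integral_integral_swap hint]
    refine setIntegral_congr_fun measurableSet_Ioc fun s hs => ?_
    rw [Real.fourier_eq, ← integral_const_mul]
    refine integral_congr_ae (ae_of_all _ fun x => ?_)
    simp only
    rw [Qs_eq (hpos s hs), Circle.smul_def, smul_eq_mul, Complex.ofReal_mul]
    ring
  rw [h4, intervalIntegral.integral_of_le hε1.le, ← integral_const_mul]
  refine norm_integral_le_of_norm_le ?_ ?_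
  · have hc : Continuous fun s : ℝ => |w| * ((2 * Real.pi * ‖ξ‖) ^ l.length *
        Real.exp (-((2 * Real.pi * ‖ξ‖) ^ 2 * (μ * r + s)))) := by fun_prop
    exact (hc.integrableOn_Icc (a := ε) (b := 1)).mono_set Ioc_subset_Icc_self
  · filter_upwards [ae_restrict_mem measurableSet_Ioc] with s hs
    rw [norm_mul, Complex.norm_real, Real.norm_eq_abs]
    gcongr
    exact fourier_pds_Gs (hpos s hs) l ξ

theorem exp_int {μ ε : ℝ} (hε : 0 < ε) {q : ℝ} (hq : 0 ≤ q) (r : ℝ) :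
    ∫ s in ε..1, q * Real.exp (-(q * (μ * r + s))) ≤ Real.exp (-(q * (μ * r))) := by
  have h1 : ∀ s ∈ uIcc ε 1, HasDerivAt (fun s => -Real.exp (-(q * (μ * r + s))))
      (q * Real.exp (-(q * (μ * r + s)))) s := by
    intro s _
    have h2 : HasDerivAt (fun s => -(q * (μ * r + s))) (-(q * 1)) s :=
      (((hasDerivAt_id s).const_add (μ * r)).const_mul q).neg
    have h3 : HasDerivAt (fun s => -Real.exp (-(q * (μ * r + s))))
      (-(Real.exp (-(q * (μ * r + s))) * (-(q * 1)))) s := h2.exp.neg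
    have h4 : -(Real.exp (-(q * (μ * r + s))) * (-(q * 1))) =
      q * Real.exp (-(q * (μ * r + s))) := by ring
    rwa [h4] at h3
  rw [intervalIntegral.integral_eq_sub_of_hasDerivAt h1 (by
    apply Continuous.intervalIntegrable; fun_prop)]
  have h4 : Real.exp (-(q * (μ * r + ε))) ≤ Real.exp (-(q * (μ * r))) := by
    apply Real.exp_le_exp.mpr
    nlinarith [mul_nonneg hq hε.le]
  have h5 := Real.exp_pos (-(q * (μ * r + 1)))
  linarith

/-! ### the cut-off in time -/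

theorem deriv_st_nonneg {ε : ℝ} (hε : 0 < ε) (r : ℝ) :
    0 ≤ deriv (fun r => Real.smoothTransition (r / ε)) r := by
  apply Monotone.deriv_nonneg
  intro a b hab
  exact Real.smoothTransition.monotone (by gcongr)

theorem deriv_st_of_nonpos {ε : ℝ} (hε : 0 < ε) {r : ℝ} (hr : r ≤ 0) :
    deriv (fun r => Real.smoothTransition (r / ε)) r = 0 := by
  apply IsLocalMin.deriv_eq_zero
  refine Filter.Eventually.of_forall fun y => ?_
  simp only
  rw [Real.smoothTransition.zero_of_nonpos (div_nonpos_of_nonpos_of_nonneg hr hε.le)]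
  exact Real.smoothTransition.nonneg _

theorem deriv_st_of_ge {ε : ℝ} (hε : 0 < ε) {r : ℝ} (hr : ε ≤ r) :
    deriv (fun r => Real.smoothTransition (r / ε)) r = 0 := by
  apply IsLocalMax.deriv_eq_zero
  refine Filter.Eventually.of_forall fun y => ?_
  simp only
  rw [Real.smoothTransition.one_of_one_le ((one_le_div hε).mpr hr)]
  exact Real.smoothTransition.le_one _

theorem contDiff_st (ε : ℝ) : ContDiff ℝ (⊤ : ℕ∞) (fun r => Real.smoothTransition (r / ε)) :=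
  Real.smoothTransition.contDiff.comp (contDiff_id.div_const ε)

theorem continuous_deriv_st (ε : ℝ) :
    Continuous (deriv (fun r => Real.smoothTransition (r / ε))) :=
  (contDiff_st ε).continuous_deriv (by simp)

theorem lintegral_deriv_st {ε : ℝ} (hε : 0 < ε) :
    ∫⁻ r, ENNReal.ofReal (deriv (fun r => Real.smoothTransition (r / ε)) r) ≤ 1 := by
  have h1 : ∫⁻ r, ENNReal.ofReal (deriv (fun r => Real.smoothTransition (r / ε)) r) =
      ∫⁻ r in Ioc 0 ε, ENNReal.ofReal (deriv (fun r => Real.smoothTransition (r / ε)) r) := by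
    rw [← lintegral_indicator measurableSet_Ioc]
    congr 1
    funext r
    by_cases hr : r ∈ Ioc 0 ε
    · rw [indicator_of_mem hr]
    · rw [indicator_of_notMem hr]
      have : r ≤ 0 ∨ ε ≤ r := by
        by_contra h
        push Not at h
        exact hr ⟨h.1, h.2.le⟩
      rcases this with h | h
      · rw [deriv_st_of_nonpos hε h, ENNReal.ofReal_zero]
      · rw [deriv_st_of_ge hε h, ENNReal.ofReal_zero]
  rw [h1, ← ofReal_integral_eq_lintegral_ofReal]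
  · rw [← intervalIntegral.integral_of_le hε.le,
      intervalIntegral.integral_deriv_eq_sub' (fun r => Real.smoothTransition (r / ε)) rfl
      (fun x _ => ((contDiff_st ε).differentiable (by simp)).differentiableAt)
      (continuous_deriv_st ε).continuousOn]
    simp [div_self hε.ne']
  · exact ((continuous_deriv_st ε).integrableOn_Icc (a := 0) (b := ε)).mono_set Ioc_subset_Icc_self
  · exact ae_of_all _ fun r => deriv_st_nonneg hε r

/-! ### the two kernels -/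

theorem fourier_zero' (ξ : Eu n) : 𝓕 (fun _ : Eu n => ((0 : ℝ) : ℂ)) ξ = 0 := by
  rw [Real.fourier_eq]
  simp

theorem kernel_main_l2 {μ ε : ℝ} (hμ : 0 < μ) (hε : 0 < ε) (hε1 : ε < 1)
    (l : List (Fin n)) (hl : l.length = 4)
    (hint : Integrable (fun z : ST n => ∫ s in ε..1, Kr μ ε s l z))
    (u : ST n → ℝ) (hu : Integrable u) (hu2 : MemLp u 2) :
    eLpNorm (cv (fun z => ∫ s in ε..1, Kr μ ε s l z) u) 2 volume
      ≤ ENNReal.ofReal (1 / μ) * eLpNorm u 2 volume := by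
  let B : ℝ → Eu n → ℝ≥0∞ := fun r ξ => (Ioi (0 : ℝ)).indicator (fun r =>
    ENNReal.ofReal ((2 * Real.pi * ‖ξ‖) ^ 2 *
      Real.exp (-((2 * Real.pi * ‖ξ‖) ^ 2 * (μ * r))))) r
  have hB : Measurable (Function.uncurry B) := by
    have h1 : Function.uncurry B = (Ioi (0 : ℝ) ×ˢ (univ : Set (Eu n))).indicator (fun p =>
        ENNReal.ofReal ((2 * Real.pi * ‖p.2‖) ^ 2 *
          Real.exp (-((2 * Real.pi * ‖p.2‖) ^ 2 * (μ * p.1))))) := by
      funext p
      by_cases hp : p.1 ∈ Ioi (0 : ℝ)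
      · have : p ∈ Ioi (0 : ℝ) ×ˢ (univ : Set (Eu n)) := ⟨hp, trivial⟩
        rw [indicator_of_mem this]
        simp only [Function.uncurry, B]
        rw [indicator_of_mem hp]
      · have : p ∉ Ioi (0 : ℝ) ×ˢ (univ : Set (Eu n)) := fun h => hp h.1
        rw [indicator_of_notMem this]
        simp only [Function.uncurry, B]
        rw [indicator_of_notMem hp]
    rw [h1]
    refine Measurable.indicator ?_ (measurableSet_Ioi.prod MeasurableSet.univ)
    fun_prop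
  refine mult_lemma _ hint B hB (ae_of_all _ fun r ξ => ?_) _ (fun ξ => ?_) u hu hu2
  · by_cases hr : 0 < r
    · simp only [B]
      rw [indicator_of_mem (show r ∈ Ioi (0 : ℝ) from hr)]
      have h1 := fourier_slice hμ hε hε1 (Real.smoothTransition (r / ε)) hr.le l ξ
      have h2 : (fun x : Eu n => ((∫ s in ε..1, Kr μ ε s l (r, x) : ℝ) : ℂ)) =
          fun x => ((slice μ ε (Real.smoothTransition (r / ε)) r l x : ℝ) : ℂ) := rfl
      rw [h2, ← ofReal_norm]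
      refine ENNReal.ofReal_le_ofReal (h1.trans ?_)
      have h3 : |Real.smoothTransition (r / ε)| ≤ 1 := by
        rw [abs_of_nonneg (Real.smoothTransition.nonneg _)]
        exact Real.smoothTransition.le_one _
      set q : ℝ := (2 * Real.pi * ‖ξ‖) ^ 2 with hq
      have hq0 : 0 ≤ q := by positivity
      have h4 : (2 * Real.pi * ‖ξ‖) ^ l.length = q * q := by rw [hl, hq]; ring
      simp_rw [h4, mul_assoc q q]
      rw [intervalIntegral.integral_const_mul]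
      have h5 := exp_int (μ := μ) hε hq0 r
      calc |Real.smoothTransition (r / ε)| *
          (q * ∫ s in ε..1, q * Real.exp (-(q * (μ * r + s))))
          ≤ 1 * (q * Real.exp (-(q * (μ * r)))) := by
            gcongr
            · refine mul_nonneg hq0 (intervalIntegral.integral_nonneg hε1.le fun s _ => ?_)
              positivity
        _ = _ := one_mul _
    · have h1 : (fun x : Eu n => ((∫ s in ε..1, Kr μ ε s l (r, x) : ℝ) : ℂ)) =
          fun _ => ((0 : ℝ) : ℂ) := by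
        funext x
        congr 1
        have h2 : ∀ s, Kr μ ε s l (r, x) = 0 := fun s => by
          unfold Kr
          simp only
          rw [Real.smoothTransition.zero_of_nonpos
            (div_nonpos_of_nonpos_of_nonneg (not_lt.mp hr) hε.le), zero_mul]
        simp [h2]
      rw [h1, fourier_zero']
      simp
  · set q : ℝ := (2 * Real.pi * ‖ξ‖) ^ 2 with hq
    have hq0 : 0 ≤ q := by positivity
    have h1 : ∫⁻ r, B r ξ = ∫⁻ r in Ioi (0 : ℝ),
        ENNReal.ofReal (q * Real.exp (-(q * (μ * r)))) := by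
      rw [← lintegral_indicator measurableSet_Ioi]
    rw [h1]
    rcases hq0.eq_or_lt with h | h
    · rw [← h]
      simp
    · have h2 : ∀ r, q * Real.exp (-(q * (μ * r))) = q * Real.exp (-(q * μ) * r) := fun r => by
        congr 2; ring
      simp_rw [h2]
      have hneg : -(q * μ) < 0 := by
        have := mul_pos h hμ
        linarith
      rw [← ofReal_integral_eq_lintegral_ofReal]
      · rw [integral_const_mul, integral_exp_mul_Ioi hneg]
        apply ENNReal.ofReal_le_ofReal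
        simp
        rw [mul_comm μ⁻¹ q⁻¹, ← mul_assoc, mul_inv_cancel₀ h.ne', one_mul]
      · exact (integrableOn_exp_mul_Ioi hneg 0).const_mul q
      · exact ae_of_all _ fun r => by positivity

theorem kernel_ell_l2 {μ ε : ℝ} (hμ : 0 < μ) (hε : 0 < ε) (hε1 : ε < 1)
    (l : List (Fin n)) (hl : l.length = 2)
    (hint : Integrable (fun z : ST n => ∫ s in ε..1, Kp μ ε s l z))
    (u : ST n → ℝ) (hu : Integrable u) (hu2 : MemLp u 2) :
    eLpNorm (cv (fun z => ∫ s in ε..1, Kp μ ε s l z) u) 2 volume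
      ≤ ENNReal.ofReal 1 * eLpNorm u 2 volume := by
  let B : ℝ → Eu n → ℝ≥0∞ := fun r _ =>
    ENNReal.ofReal (deriv (fun r => Real.smoothTransition (r / ε)) r)
  have hB : Measurable (Function.uncurry B) := by
    have := (continuous_deriv_st ε).measurable
    exact (this.comp measurable_fst).ennreal_ofReal
  refine mult_lemma _ hint B hB (ae_of_all _ fun r ξ => ?_) _ (fun ξ => ?_) u hu hu2
  · by_cases hr : 0 < r
    · simp only [B]
      have h1 := fourier_slice hμ hε hε1 (deriv (fun r => Real.smoothTransition (r / ε)) r)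
        hr.le l ξ
      have h2 : (fun x : Eu n => ((∫ s in ε..1, Kp μ ε s l (r, x) : ℝ) : ℂ)) =
          fun x => ((slice μ ε (deriv (fun r => Real.smoothTransition (r / ε)) r) r l x : ℝ) : ℂ) :=
        rfl
      rw [h2, ← ofReal_norm]
      refine ENNReal.ofReal_le_ofReal (h1.trans ?_)
      rw [abs_of_nonneg (deriv_st_nonneg hε r)]
      set q : ℝ := (2 * Real.pi * ‖ξ‖) ^ 2 with hq
      have hq0 : 0 ≤ q := by positivity
      rw [hl]
      have h5 := exp_int (μ := μ) hε hq0 r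
      have h6 : Real.exp (-(q * (μ * r))) ≤ 1 := by
        rw [Real.exp_le_one_iff]
        have : 0 ≤ q * (μ * r) := by positivity
        linarith
      have h7 := deriv_st_nonneg hε r
      calc deriv (fun r => Real.smoothTransition (r / ε)) r *
          (∫ s in ε..1, q * Real.exp (-(q * (μ * r + s))))
          ≤ deriv (fun r => Real.smoothTransition (r / ε)) r * 1 := by
            gcongr
            exact h5.trans h6
        _ = _ := mul_one _
    · have h1 : (fun x : Eu n => ((∫ s in ε..1, Kp μ ε s l (r, x) : ℝ) : ℂ)) =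
          fun _ => ((0 : ℝ) : ℂ) := by
        funext x
        congr 1
        have h2 : ∀ s, Kp μ ε s l (r, x) = 0 := fun s => by
          unfold Kp
          simp only
          rw [deriv_st_of_nonpos hε (not_lt.mp hr), zero_mul]
        simp [h2]
      rw [h1, fourier_zero']
      simp
  · simpa [B] using lintegral_deriv_st hε

end Pool.Agent.Helper76.Jef
end

section
/-!
# `kernel_main` and `kernel_ell`
-/

open MeasureTheory Set Filter Topology
open scoped ENNReal ContDiff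

namespace Pool.Agent.Helper79.Horm

open Pool.Agent.Helper42.Jef

variable {n : ℕ}

/-- the Gaussian derivatives of order four satisfy the hypotheses with a uniform constant -/
theorem fam_pds (n : ℕ) : ∃ C : ℝ, 0 ≤ C ∧ ∀ l : List (Fin n), l.length = 4 →
    Fam (fun s => pds l (Gs s)) C := by
  obtain ⟨C₁, h₁, g₁⟩ := Pool.Agent.Helper50.JG.g1 n 4
  obtain ⟨C₂, h₂, g₂⟩ := Pool.Agent.Helper50.JG.g2 n 4
  obtain ⟨C₃, h₃, g₃⟩ := Pool.Agent.Helper50.JG.g3 n 4
  refine ⟨C₁ + C₂ + C₃, by positivity, fun l hl => ⟨?_, ?_, ?_, ?_⟩⟩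
  · exact Pool.Agent.Helper50.JG.g0 l
  · intro s hs
    refine (g₁ l hl s hs).trans (ENNReal.ofReal_le_ofReal ?_)
    rw [show (-((4 : ℕ) : ℝ) / 2) = -((2 : ℕ) : ℝ) by push_cast; norm_num,
      Real.rpow_neg hs.le, Real.rpow_natCast, div_eq_mul_inv]
    refine mul_le_mul_of_nonneg_right ?_ (by positivity)
    linarith
  · intro s hs
    refine (g₂ l hl s hs).trans (ENNReal.ofReal_le_ofReal ?_)
    rw [show ((2 : ℝ) - ((4 : ℕ) : ℝ) / 2) = 0 by push_cast; norm_num, Real.rpow_zero]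
    linarith
  · intro s hs y
    refine (g₃ l hl s hs y).trans (ENNReal.ofReal_le_ofReal ?_)
    rw [show (-(((4 : ℕ) : ℝ) + 1) / 2) = -(5 / 2) by push_cast; norm_num]
    refine mul_le_mul_of_nonneg_right ?_ (Real.rpow_nonneg hs.le _)
    refine mul_le_mul_of_nonneg_right ?_ (norm_nonneg _)
    linarith

/-- integrability of the elliptic kernel -/
theorem ell_int {μ ε : ℝ} (hμ : 0 < μ) (hε : 0 < ε) (hε1 : ε < 1) {l : List (Fin n)}
    (hl : l.length = 2) : Integrable (fun z : ST n => ∫ s in ε..1, Kp μ ε s l z) := by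
  obtain ⟨C, hC, g⟩ := Pool.Agent.Helper50.JG.g1 n 2
  obtain ⟨d1, d2, -, -, d5⟩ := dstep hε
  refine ell_integrable (P := fun s => pds l (Gs s)) (C := C)
    (Pool.Agent.Helper50.JG.g0 l) ?_ d1.measurable d2 d5 hμ hε hε1 hC
  intro s hs
  refine (g l hl s hs).trans (ENNReal.ofReal_le_ofReal (le_of_eq ?_))
  rw [show (-((2 : ℕ) : ℝ) / 2) = -1 by push_cast; norm_num, Real.rpow_neg_one, div_eq_mul_inv]

/-- main kernel (four derivatives): uniform `L²` bound and uniform weak type bound -/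
theorem kernel_main (n : ℕ) {μ : ℝ} (hμ : 0 < μ) : ∃ (A : ℝ) (C : ℝ → ℝ), ∀ ε : ℝ, 0 < ε → ε < 1 →
    ∀ l : List (Fin n), l.length = 4 →
      Integrable (fun z : ST n => ∫ s in ε..1, Kr μ ε s l z) ∧
      (∀ u : ST n → ℝ, Integrable u → MemLp u 2 →
        eLpNorm (cv (fun z => ∫ s in ε..1, Kr μ ε s l z) u) 2 volume
          ≤ ENNReal.ofReal A * eLpNorm u 2 volume) ∧
      (∀ u : ST n → ℝ, Integrable u → MemLp u 2 → ∫ z, |u z| ≤ 1 → ∀ s > 0,
        volume {z | s < |cv (fun z => ∫ s in ε..1, Kr μ ε s l z) u z|}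
          ≤ ENNReal.ofReal (C s * ∫ z, |u z|)) := by
  obtain ⟨C, hC, hF⟩ := fam_pds n
  obtain ⟨W, hW⟩ := Pool.Agent.Helper38.Jef.weak_type n (1 / μ)
    (18 * μ * C + (C / μ + 2 * C / (μ * Real.sqrt (3 * μ))))
  refine ⟨1 / μ, W, fun ε hε hε1 l hl => ?_⟩
  have hint : Integrable (fun z : ST n => ∫ s in ε..1, Kr μ ε s l z) :=
    kap_integrable (hF l hl) hμ hε hε1 hC
  have hL2 : ∀ u : ST n → ℝ, Integrable u → MemLp u 2 →
        eLpNorm (cv (fun z => ∫ s in ε..1, Kr μ ε s l z) u) 2 volume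
          ≤ ENNReal.ofReal (1 / μ) * eLpNorm u 2 volume := fun u hu hu2 =>
    Pool.Agent.Helper76.Jef.kernel_main_l2 hμ hε hε1 l hl hint u hu hu2
  refine ⟨hint, hL2, ?_⟩
  exact hW _ hint hL2 fun r hr h y hh hy => horm (hF l hl) hμ hε hε1 hC hr hh hy

/-- elliptic kernel (two derivatives, `Θ'`): uniform `L²` bound -/
theorem kernel_ell (n : ℕ) {μ : ℝ} (hμ : 0 < μ) : ∃ A : ℝ, ∀ ε : ℝ, 0 < ε → ε < 1 →
    ∀ l : List (Fin n), l.length = 2 →
      Integrable (fun z : ST n => ∫ s in ε..1, Kp μ ε s l z) ∧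
      (∀ u : ST n → ℝ, Integrable u → MemLp u 2 →
        eLpNorm (cv (fun z => ∫ s in ε..1, Kp μ ε s l z) u) 2 volume
          ≤ ENNReal.ofReal A * eLpNorm u 2 volume) :=
  ⟨1, fun _ hε hε1 l hl => ⟨ell_int hμ hε hε1 hl, fun u hu hu2 =>
    Pool.Agent.Helper76.Jef.kernel_ell_l2 hμ hε hε1 l hl (ell_int hμ hε hε1 hl) u hu hu2⟩⟩

end Pool.Agent.Helper79.Horm
end

section
/-!
# Space-time kernels `Kr`, `Kp`: smoothness, derivatives, permutation
-/

open MeasureTheory Set Filter Topology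
open scoped ENNReal ContDiff

namespace Pool.Agent.Helper50.JG

open Pool.Agent.Helper42.Jef

variable {n : ℕ}

/-- the cut-off in time -/
noncomputable def th (ε r : ℝ) : ℝ := Real.smoothTransition (r / ε)

theorem th_smooth (ε : ℝ) : ContDiff ℝ ∞ (th ε) :=
  Real.smoothTransition.contDiff.comp (contDiff_id.div_const ε)

theorem th_zero {ε r : ℝ} (hε : 0 < ε) (hr : r ≤ 0) : th ε r = 0 :=
  Real.smoothTransition.zero_of_nonpos (div_nonpos_of_nonpos_of_nonneg hr hε.le)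

theorem th_one {ε r : ℝ} (hε : 0 < ε) (hr : ε ≤ r) : th ε r = 1 :=
  Real.smoothTransition.one_of_one_le (by rwa [one_le_div hε])

theorem th_nonneg (ε r : ℝ) : 0 ≤ th ε r := Real.smoothTransition.nonneg _

theorem th_le_one (ε r : ℝ) : th ε r ≤ 1 := Real.smoothTransition.le_one _

theorem dth_smooth (ε : ℝ) : ContDiff ℝ ∞ (deriv (th ε)) :=
  ((contDiff_infty_iff_deriv (f := th ε)).1 (th_smooth ε)).2

theorem dth_zero {ε r : ℝ} (hε : 0 < ε) (hr : r < 0) : deriv (th ε) r = 0 := by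
  have h1 : th ε =ᶠ[𝓝 r] fun _ => 0 := by
    filter_upwards [gt_mem_nhds hr] with r' hr'
    exact th_zero hε hr'.le
  rw [h1.deriv_eq]; simp

/-- general kernel `θ(r) ∂^α G_{μ r + s}(x)` -/
noncomputable def Kg (θ : ℝ → ℝ) (μ s : ℝ) (l : List (Fin n)) (z : ST n) : ℝ :=
  θ z.1 * pds l (Gs (μ * z.1 + s)) z.2

theorem Kr_eq (μ ε s : ℝ) (l : List (Fin n)) : Kr μ ε s l = Kg (th ε) μ s l := rfl

theorem Kp_eq (μ ε s : ℝ) (l : List (Fin n)) : Kp μ ε s l = Kg (deriv (th ε)) μ s l := rfl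

theorem Kg_eventually {θ : ℝ → ℝ} {μ s : ℝ} (hμ : 0 < μ) (hs : 0 < s) (l : List (Fin n))
    {z : ST n} (hz : 0 ≤ z.1) :
    Kg θ μ s l =ᶠ[𝓝 z] fun z => θ z.1 * Fl l (μ * z.1 + s, z.2) := by
  have h1 : ∀ᶠ z' : ST n in 𝓝 z, 0 < μ * z'.1 + s := by
    have hc : Continuous (fun z' : ST n => μ * z'.1 + s) := by fun_prop
    exact hc.continuousAt.eventually (lt_mem_nhds (by positivity))
  filter_upwards [h1] with z' hz'
  unfold Kg
  rw [pds_Gs hz']

theorem Kg_smooth {θ : ℝ → ℝ} (hθ : ContDiff ℝ ∞ θ) (hθ0 : ∀ r < 0, θ r = 0) {μ s : ℝ}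
    (hμ : 0 < μ) (hs : 0 < s) (l : List (Fin n)) : ContDiff ℝ ∞ (Kg θ μ s l) := by
  rw [contDiff_iff_contDiffAt]
  intro z
  rcases lt_or_ge z.1 0 with hz | hz
  · have h1 : Kg θ μ s l =ᶠ[𝓝 z] fun _ => 0 := by
      have : ∀ᶠ z' : ST n in 𝓝 z, z'.1 < 0 := continuous_fst.continuousAt.eventually (gt_mem_nhds hz)
      filter_upwards [this] with z' hz'
      unfold Kg; rw [hθ0 _ hz', zero_mul]
    exact contDiffAt_const.congr_of_eventuallyEq h1
  · refine ContDiffAt.congr_of_eventuallyEq ?_ (Kg_eventually hμ hs l hz)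
    refine (hθ.contDiffAt.comp z contDiffAt_fst).mul ?_
    have hp : 0 < ((μ * z.1 + s, z.2) : ST n).1 := by
      show 0 < μ * z.1 + s
      positivity
    have h2 : ContDiffAt ℝ ∞ (fun z : ST n => ((μ * z.1 + s, z.2) : ST n)) z := by fun_prop
    exact (Fl_smoothAt l hp).comp z h2

theorem Kr_smooth {μ ε s : ℝ} (hμ : 0 < μ) (hε : 0 < ε) (hs : 0 < s) (l : List (Fin n)) :
    ContDiff ℝ ∞ (Kr μ ε s l) := by
  rw [Kr_eq]
  exact Kg_smooth (th_smooth ε) (fun r hr => th_zero hε hr.le) hμ hs l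

theorem Kp_smooth {μ ε s : ℝ} (hμ : 0 < μ) (hε : 0 < ε) (hs : 0 < s) (l : List (Fin n)) :
    ContDiff ℝ ∞ (Kp μ ε s l) := by
  rw [Kp_eq]
  exact Kg_smooth (dth_smooth ε) (fun r hr => dth_zero hε hr) hμ hs l

theorem Kg_deriv_x {θ : ℝ → ℝ} (hθ : ContDiff ℝ ∞ θ) (hθ0 : ∀ r < 0, θ r = 0) {μ s : ℝ}
    (hμ : 0 < μ) (hs : 0 < s) (l : List (Fin n)) (i : Fin n) (z : ST n) :
    fderiv ℝ (Kg θ μ s l) z (0, bv i) = Kg θ μ s (i :: l) z := by
  have hd : DifferentiableAt ℝ (Kg θ μ s l) z :=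
    (Kg_smooth hθ hθ0 hμ hs l).differentiable (by simp) z
  have h2 : HasFDerivAt (fun y : Eu n => ((z.1, y) : ST n)) (ContinuousLinearMap.inr ℝ ℝ (Eu n)) z.2 :=
    hasFDerivAt_prodMk_right z.1 z.2
  have h3 : HasFDerivAt (fun y : Eu n => Kg θ μ s l (z.1, y))
      ((fderiv ℝ (Kg θ μ s l) z).comp (ContinuousLinearMap.inr ℝ ℝ (Eu n))) z.2 :=
    HasFDerivAt.comp (g := Kg θ μ s l) (f := fun y : Eu n => ((z.1, y) : ST n)) z.2
      (by exact hd.hasFDerivAt) h2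
  have h4 : fderiv ℝ (fun y : Eu n => Kg θ μ s l (z.1, y)) z.2 (bv i) =
      fderiv ℝ (Kg θ μ s l) z (0, bv i) := by
    rw [h3.fderiv]; simp
  rw [← h4]
  have h5 : (fun y : Eu n => Kg θ μ s l (z.1, y)) =
      fun y => θ z.1 * pds l (Gs (μ * z.1 + s)) y := rfl
  rw [h5, fderiv_const_mul ((pds_smooth (Gs_smooth _) l).differentiable (by simp) _)]
  rfl

/-- space derivatives of the kernels -/
theorem Kr_deriv_x {μ ε s : ℝ} (hμ : 0 < μ) (hε : 0 < ε) (hs : 0 < s) (l : List (Fin n))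
    (i : Fin n) (z : ST n) :
    fderiv ℝ (Kr μ ε s l) z (0, bv i) = Kr μ ε s (i :: l) z := by
  rw [Kr_eq, Kr_eq]
  exact Kg_deriv_x (th_smooth ε) (fun r hr => th_zero hε hr.le) hμ hs l i z

/-- space derivatives of the `Kp` kernels -/
theorem Kp_deriv_x {μ ε s : ℝ} (hμ : 0 < μ) (hε : 0 < ε) (hs : 0 < s) (l : List (Fin n))
    (i : Fin n) (z : ST n) :
    fderiv ℝ (Kp μ ε s l) z (0, bv i) = Kp μ ε s (i :: l) z := by
  rw [Kp_eq, Kp_eq]
  exact Kg_deriv_x (dth_smooth ε) (fun r hr => dth_zero hε hr) hμ hs l i z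

/-- heat equation `∂_r Kr = Kp + μ Δ Kr` -/
theorem Kr_deriv_t {μ ε s : ℝ} (hμ : 0 < μ) (hε : 0 < ε) (hs : 0 < s) (l : List (Fin n))
    (z : ST n) :
    fderiv ℝ (Kr μ ε s l) z (1, 0) = Kp μ ε s l z + μ * ∑ i, Kr μ ε s (i :: i :: l) z := by
  have hd : DifferentiableAt ℝ (Kr μ ε s l) z :=
    (Kr_smooth hμ hε hs l).differentiable (by simp) z
  have hline : HasDerivAt (fun r : ℝ => ((r, z.2) : ST n)) (1, 0) z.1 :=
    (hasDerivAt_id z.1).prodMk (hasDerivAt_const z.1 z.2)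
  have h1 : HasDerivAt (fun r => Kr μ ε s l (r, z.2)) (fderiv ℝ (Kr μ ε s l) z (1, 0)) z.1 :=
    HasFDerivAt.comp_hasDerivAt (l := Kr μ ε s l) (f := fun r : ℝ => ((r, z.2) : ST n)) z.1
      (by exact hd.hasFDerivAt) hline
  refine h1.unique ?_
  rcases lt_or_ge z.1 0 with hz | hz
  · have e1 : (fun r => Kr μ ε s l (r, z.2)) =ᶠ[𝓝 z.1] fun _ => 0 := by
      filter_upwards [gt_mem_nhds hz] with r hr
      show th ε r * _ = 0
      rw [th_zero hε hr.le, zero_mul]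
    have e2 : Kp μ ε s l z + μ * ∑ i, Kr μ ε s (i :: i :: l) z = 0 := by
      have h3 : ∀ l' : List (Fin n), Kr μ ε s l' z = 0 := fun l' => by
        show th ε z.1 * _ = 0
        rw [th_zero hε hz.le, zero_mul]
      have h4 : Kp μ ε s l z = 0 := by
        show deriv (th ε) z.1 * _ = 0
        rw [dth_zero hε hz, zero_mul]
      simp [h3, h4]
    rw [e2]
    exact (hasDerivAt_const z.1 (0 : ℝ)).congr_of_eventuallyEq e1
  · have hp : 0 < μ * z.1 + s := by positivity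
    have h5 : HasDerivAt (fun r : ℝ => μ * r + s) μ z.1 := by
      simpa using ((hasDerivAt_id z.1).const_mul μ).add_const s
    have h6 : HasDerivAt (fun r => pds l (Gs (μ * r + s)) z.2)
        ((∑ i, pds (i :: i :: l) (Gs (μ * z.1 + s)) z.2) * μ) z.1 :=
      HasDerivAt.comp (h₂ := fun s => pds l (Gs s) z.2) (h := fun r : ℝ => μ * r + s) z.1
        (heat_pds hp l z.2) h5
    have h7 : HasDerivAt (th ε) (deriv (th ε) z.1) z.1 :=
      ((th_smooth ε).differentiable (by simp) z.1).hasDerivAt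
    have h8 := h7.mul h6
    refine h8.congr_deriv ?_
    show _ = deriv (th ε) z.1 * _ + μ * ∑ i, th ε z.1 * _
    rw [← Finset.mul_sum]
    ring

/-- `∂_s Kp = Δ Kp` -/
theorem Kp_deriv_s {μ ε s : ℝ} (hμ : 0 < μ) (hε : 0 < ε) (hs : 0 < s) (l : List (Fin n))
    (z : ST n) :
    HasDerivAt (fun s => Kp μ ε s l z) (∑ i, Kp μ ε s (i :: i :: l) z) s := by
  rcases lt_or_ge z.1 0 with hz | hz
  · have h4 : ∀ (s' : ℝ) (l' : List (Fin n)), Kp μ ε s' l' z = 0 := fun s' l' => by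
      show deriv (th ε) z.1 * _ = 0
      rw [dth_zero hε hz, zero_mul]
    simp only [h4, Finset.sum_const_zero]
    exact hasDerivAt_const s (0 : ℝ)
  · have hp : 0 < μ * z.1 + s := by positivity
    have h5 : HasDerivAt (fun s : ℝ => μ * z.1 + s) 1 s := by
      simpa using (hasDerivAt_id s).const_add (μ * z.1)
    have h6 : HasDerivAt (fun s => pds l (Gs (μ * z.1 + s)) z.2)
        ((∑ i, pds (i :: i :: l) (Gs (μ * z.1 + s)) z.2) * 1) s :=
      HasDerivAt.comp (h₂ := fun s => pds l (Gs s) z.2) (h := fun s : ℝ => μ * z.1 + s) s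
        (heat_pds hp l z.2) h5
    have h7 := h6.const_mul (deriv (th ε) z.1)
    refine h7.congr_deriv ?_
    show _ = ∑ i, deriv (th ε) z.1 * _
    rw [← Finset.mul_sum, mul_one]

/-- the derivatives commute -/
theorem Kr_perm {μ ε s : ℝ} (_hμ : 0 < μ) (_hε : 0 < ε) (_hs : 0 < s) {l l' : List (Fin n)}
    (h : l.Perm l') (z : ST n) : Kr μ ε s l z = Kr μ ε s l' z := by
  unfold Kr
  rw [pds_perm (Gs_smooth _) h]

theorem Kp_perm {μ ε s : ℝ} {l l' : List (Fin n)}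
    (h : l.Perm l') (z : ST n) : Kp μ ε s l z = Kp μ ε s l' z := by
  unfold Kp
  rw [pds_perm (Gs_smooth _) h]

end Pool.Agent.Helper50.JG
end

section
/-!
# `kernel_low`: lower order kernels converge in `L¹`
-/

open MeasureTheory Set Filter Topology
open scoped ENNReal

namespace Pool.Agent.Helper50.JG

open Pool.Agent.Helper42.Jef

variable {n : ℕ}

/-- the integrand -/
noncomputable def Jf (μ : ℝ) (l : List (Fin n)) (p : ST n × ℝ) : ℝ :=
  Fl l (μ * p.1.1 + p.2, p.1.2)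

theorem measurable_Jf (μ : ℝ) (l : List (Fin n)) : Measurable (Jf μ l) :=
  (measurable_Fl l).comp (by fun_prop)

/-- dominating function -/
noncomputable def Df (μ : ℝ) (l : List (Fin n)) (z : ST n) : ℝ≥0∞ :=
  ∫⁻ s in Ioc (0 : ℝ) 1, ‖Jf μ l (z, s)‖ₑ

theorem measurable_Df (μ : ℝ) (l : List (Fin n)) : Measurable (Df μ l) :=
  Measurable.lintegral_prod_right' (f := fun p : ST n × ℝ => ‖Jf μ l p‖ₑ)
    (measurable_Jf μ l).enorm

theorem rpow_bound {u : ℝ} (hu : 0 < u) {j : ℕ} (hj : j ≤ 3) :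
    u ^ (-(j : ℝ) / 2) ≤ 1 + u ^ (-(3 : ℝ) / 2) := by
  have hj' : (j : ℝ) ≤ 3 := by exact_mod_cast hj
  have hj0 : (0 : ℝ) ≤ j := by positivity
  have h0 : 0 ≤ u ^ (-(3 : ℝ) / 2) := by positivity
  rcases le_or_gt 1 u with h | h
  · have := Real.rpow_le_one_of_one_le_of_nonpos h (show -(j : ℝ) / 2 ≤ 0 by linarith)
    linarith
  · have := Real.rpow_le_rpow_of_exponent_ge hu h.le (show -(3 : ℝ) / 2 ≤ -(j : ℝ) / 2 by linarith)
    linarith

theorem rpow_split {μ r s : ℝ} (hμ : 0 < μ) (hr : 0 < r) (hs : 0 < s) :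
    (μ * r + s) ^ (-(3 : ℝ) / 2) ≤ (μ * r) ^ (-(3 : ℝ) / 4) * s ^ (-(3 : ℝ) / 4) := by
  have hu : 0 < μ * r + s := by positivity
  have h1 : (μ * r + s) ^ (-(3 : ℝ) / 2) =
      (μ * r + s) ^ (-(3 : ℝ) / 4) * (μ * r + s) ^ (-(3 : ℝ) / 4) := by
    rw [← Real.rpow_add hu]; congr 1; norm_num
  rw [h1]
  have h2 : (μ * r + s) ^ (-(3 : ℝ) / 4) ≤ (μ * r) ^ (-(3 : ℝ) / 4) :=
    Real.rpow_le_rpow_of_nonpos (by positivity) (by linarith) (by norm_num)
  have h3 : (μ * r + s) ^ (-(3 : ℝ) / 4) ≤ s ^ (-(3 : ℝ) / 4) :=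
    Real.rpow_le_rpow_of_nonpos hs (by nlinarith) (by norm_num)
  exact mul_le_mul h2 h3 (by positivity) (by positivity)

theorem lint_rpow (c : ℝ) : ∫⁻ r in Ioc (0 : ℝ) c, ENNReal.ofReal (r ^ (-(3 : ℝ) / 4)) < ∞ := by
  rcases le_or_gt c 0 with hc | hc
  · simp [Ioc_eq_empty_of_le hc]
  have h := intervalIntegral.intervalIntegrable_rpow' (a := 0) (b := c) (r := -(3 : ℝ) / 4)
    (by norm_num)
  rw [intervalIntegrable_iff_integrableOn_Ioc_of_le hc.le] at h
  have h2 := h.2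
  rw [hasFiniteIntegral_iff_enorm] at h2
  refine lt_of_le_of_lt (lintegral_mono fun r => ?_) h2
  rw [Real.enorm_eq_ofReal_abs]
  exact ENNReal.ofReal_le_ofReal (le_abs_self _)

theorem lint_Df {μ : ℝ} (hμ : 0 < μ) (l : List (Fin n)) (hl : l.length ≤ 3) (T : ℝ) :
    ∫⁻ z in Ioo (0 : ℝ) T ×ˢ (univ : Set (Eu n)), Df μ l z < ∞ := by
  obtain ⟨C, hC, h⟩ := g1 n l.length
  have hvol : (volume : Measure (ST n)).restrict (Ioo (0 : ℝ) T ×ˢ (univ : Set (Eu n))) =
      ((volume : Measure ℝ).restrict (Ioo 0 T)).prod (volume : Measure (Eu n)) := by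
    have := Measure.prod_restrict (μ := (volume : Measure ℝ)) (ν := (volume : Measure (Eu n)))
      (Ioo 0 T) univ
    rw [Measure.restrict_univ] at this
    rw [this]; rfl
  rw [hvol, lintegral_prod _ (measurable_Df μ l).aemeasurable]
  have key : ∀ r ∈ Ioo (0 : ℝ) T, ∫⁻ x : Eu n, Df μ l (r, x) ≤
      ENNReal.ofReal C * (1 + ENNReal.ofReal ((μ * r) ^ (-(3 : ℝ) / 4)) *
        ∫⁻ s in Ioc (0 : ℝ) 1, ENNReal.ofReal (s ^ (-(3 : ℝ) / 4))) := by
    intro r hr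
    have hswap : ∫⁻ x : Eu n, Df μ l (r, x) =
        ∫⁻ s in Ioc (0 : ℝ) 1, ∫⁻ x : Eu n, ‖Jf μ l ((r, x), s)‖ₑ := by
      unfold Df
      rw [lintegral_lintegral_swap]
      apply Measurable.aemeasurable
      exact ((measurable_Jf μ l).comp (by fun_prop :
        Measurable (fun p : Eu n × ℝ => (((r, p.1), p.2) : ST n × ℝ)))).enorm
    rw [hswap]
    have h1 : ∀ s ∈ Ioc (0 : ℝ) 1, ∫⁻ x : Eu n, ‖Jf μ l ((r, x), s)‖ₑ ≤
        ENNReal.ofReal C * (1 + ENNReal.ofReal ((μ * r) ^ (-(3 : ℝ) / 4)) *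
          ENNReal.ofReal (s ^ (-(3 : ℝ) / 4))) := by
      intro s hs
      have hu : 0 < μ * r + s := by
        have := mul_pos hμ hr.1
        linarith [hs.1]
      have h2 := h l rfl (μ * r + s) hu
      have h3 : ∫⁻ x : Eu n, ‖Jf μ l ((r, x), s)‖ₑ =
          ∫⁻ x : Eu n, ‖pds l (Gs (μ * r + s)) x‖ₑ := by
        congr 1; funext x
        rw [pds_Gs hu]; rfl
      rw [h3]
      refine h2.trans ?_
      have h4 : C * (μ * r + s) ^ (-(l.length : ℝ) / 2) ≤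
          C * (1 + (μ * r) ^ (-(3 : ℝ) / 4) * s ^ (-(3 : ℝ) / 4)) := by
        refine mul_le_mul_of_nonneg_left ?_ hC
        exact (rpow_bound hu hl).trans (by linarith [rpow_split hμ hr.1 hs.1])
      refine (ENNReal.ofReal_le_ofReal h4).trans (le_of_eq ?_)
      have hr0 : 0 < μ * r := mul_pos hμ hr.1
      have hs0 : 0 < s := hs.1
      rw [ENNReal.ofReal_mul hC, ENNReal.ofReal_add zero_le_one (by positivity),
        ENNReal.ofReal_mul (by positivity), ENNReal.ofReal_one]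
    calc ∫⁻ s in Ioc (0 : ℝ) 1, ∫⁻ x : Eu n, ‖Jf μ l ((r, x), s)‖ₑ
        ≤ ∫⁻ s in Ioc (0 : ℝ) 1, ENNReal.ofReal C *
            (1 + ENNReal.ofReal ((μ * r) ^ (-(3 : ℝ) / 4)) *
              ENNReal.ofReal (s ^ (-(3 : ℝ) / 4))) := setLIntegral_mono' measurableSet_Ioc h1
      _ = _ := by
          have hm : Measurable (fun s : ℝ => ENNReal.ofReal (s ^ (-(3 : ℝ) / 4))) := by fun_prop
          rw [lintegral_const_mul _ (by fun_prop), lintegral_add_left measurable_const,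
            lintegral_const_mul _ hm]
          simp
  refine lt_of_le_of_lt (setLIntegral_mono' measurableSet_Ioo key) ?_
  set B : ℝ≥0∞ := ∫⁻ s in Ioc (0 : ℝ) 1, ENNReal.ofReal (s ^ (-(3 : ℝ) / 4)) with hB
  have hBf : B < ∞ := lint_rpow 1
  have hle : ∫⁻ r in Ioo (0 : ℝ) T, ENNReal.ofReal C *
      (1 + ENNReal.ofReal ((μ * r) ^ (-(3 : ℝ) / 4)) * B) ≤
      ENNReal.ofReal C * (volume (Ioo (0 : ℝ) T) +
        (ENNReal.ofReal (μ ^ (-(3 : ℝ) / 4)) *
          ∫⁻ r in Ioc (0 : ℝ) T, ENNReal.ofReal (r ^ (-(3 : ℝ) / 4))) * B) := by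
    have hm : Measurable (fun s : ℝ => ENNReal.ofReal ((μ * s) ^ (-(3 : ℝ) / 4))) := by fun_prop
    rw [lintegral_const_mul _ (by fun_prop), lintegral_add_left measurable_const,
      lintegral_mul_const _ hm]
    simp only [lintegral_const, one_mul, Measure.restrict_apply MeasurableSet.univ, univ_inter]
    gcongr
    have e1 : ∫⁻ r in Ioo (0 : ℝ) T, ENNReal.ofReal ((μ * r) ^ (-(3 : ℝ) / 4)) =
        ∫⁻ r in Ioo (0 : ℝ) T, ENNReal.ofReal (μ ^ (-(3 : ℝ) / 4)) *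
          ENNReal.ofReal (r ^ (-(3 : ℝ) / 4)) := by
      refine setLIntegral_congr_fun measurableSet_Ioo fun r hr => ?_
      have hr0 : 0 < r := hr.1
      rw [Real.mul_rpow hμ.le hr0.le, ENNReal.ofReal_mul (by positivity)]
    rw [e1, lintegral_const_mul _ (by fun_prop)]
    gcongr
    exact Ioo_subset_Ioc_self
  refine lt_of_le_of_lt hle ?_
  refine ENNReal.mul_lt_top ENNReal.ofReal_lt_top (ENNReal.add_lt_top.2 ⟨?_, ?_⟩)
  · rw [Real.volume_Ioo]; exact ENNReal.ofReal_lt_top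
  · exact ENNReal.mul_lt_top (ENNReal.mul_lt_top ENNReal.ofReal_lt_top (lint_rpow T)) hBf

theorem stronglyMeasurable_int (μ : ℝ) (l : List (Fin n)) (S : Set ℝ) :
    StronglyMeasurable (fun z : ST n => ∫ s in S, Jf μ l (z, s)) :=
  StronglyMeasurable.integral_prod_right' (f := Jf μ l) (measurable_Jf μ l).stronglyMeasurable

theorem int_Kr {μ ε : ℝ} (hμ : 0 < μ) (hε : 0 < ε) (hε1 : ε < 1) (l : List (Fin n)) (z : ST n) :
    ∫ s in ε..1, Kr μ ε s l z = th ε z.1 * ∫ s in Ioc ε 1, Jf μ l (z, s) := by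
  rw [intervalIntegral.integral_of_le hε1.le, ← integral_const_mul]
  refine setIntegral_congr_fun measurableSet_Ioc fun s hs => ?_
  show th ε z.1 * pds l (Gs (μ * z.1 + s)) z.2 = th ε z.1 * Jf μ l (z, s)
  rcases le_or_gt z.1 0 with hz | hz
  · rw [th_zero hε hz, zero_mul, zero_mul]
  · have hu : 0 < μ * z.1 + s := by
      have := mul_pos hμ hz
      linarith [hs.1]
    rw [pds_Gs hu]; rfl

theorem continuousOn_Jf {μ : ℝ} (hμ : 0 < μ) (l : List (Fin n)) {z : ST n} (hz : 0 < z.1) :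
    ContinuousOn (fun s => Jf μ l (z, s)) (Icc 0 1) := by
  intro s hs
  have hu : 0 < ((μ * z.1 + s, z.2) : ST n).1 := by
    show 0 < μ * z.1 + s
    have := mul_pos hμ hz
    linarith [hs.1]
  have h1 : ContinuousAt (fun s : ℝ => ((μ * z.1 + s, z.2) : ST n)) s := by fun_prop
  have h2 : ContinuousAt (fun s : ℝ => Fl l ((μ * z.1 + s, z.2) : ST n)) s :=
    ContinuousAt.comp (g := Fl l) (f := fun s : ℝ => ((μ * z.1 + s, z.2) : ST n))
      (Fl_smoothAt l hu).continuousAt h1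
  exact h2.continuousWithinAt

theorem enorm_int_le (μ : ℝ) (l : List (Fin n)) (z : ST n) {S : Set ℝ} (hS : S ⊆ Ioc 0 1) :
    ‖∫ s in S, Jf μ l (z, s)‖ₑ ≤ Df μ l z :=
  (enorm_integral_le_lintegral_enorm _).trans (lintegral_mono_set hS)

/-- lower order kernels (at most three derivatives) converge in `L¹((−∞,T) × ℝⁿ)` as `ε → 0` -/
theorem kernel_low (n : ℕ) {μ : ℝ} (hμ : 0 < μ) (l : List (Fin n)) (hl : l.length ≤ 3) (T : ℝ) :
    ∃ K0 : ST n → ℝ, Integrable K0 ∧ ∀ ε : ℕ → ℝ, (∀ m, 0 < ε m ∧ ε m < 1) →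
      Tendsto ε atTop (𝓝 0) →
      Tendsto (fun m => ∫⁻ z in Iio T ×ˢ (univ : Set (Eu n)),
        ‖(∫ s in (ε m)..1, Kr μ (ε m) s l z) - K0 z‖ₑ) atTop (𝓝 0) := by
  set S : Set (ST n) := Ioo (0 : ℝ) T ×ˢ (univ : Set (Eu n)) with hS
  have hSm : MeasurableSet S := measurableSet_Ioo.prod MeasurableSet.univ
  set K0 : ST n → ℝ := S.indicator (fun z => ∫ s in Ioc (0 : ℝ) 1, Jf μ l (z, s)) with hK0
  have hK0m : StronglyMeasurable K0 := (stronglyMeasurable_int μ l _).indicator hSm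
  have hDm := measurable_Df μ l
  have hDfin : ∫⁻ z, S.indicator (Df μ l) z < ∞ := by
    rw [lintegral_indicator hSm]; exact lint_Df hμ l hl T
  refine ⟨K0, ⟨hK0m.aestronglyMeasurable, ?_⟩, fun ε hε hlim => ?_⟩
  · rw [hasFiniteIntegral_iff_enorm]
    refine lt_of_le_of_lt (lintegral_mono fun z => ?_) hDfin
    by_cases hz : z ∈ S
    · simp only [hK0, indicator_of_mem hz]
      exact enorm_int_le μ l z le_rfl
    · simp [hK0, indicator_of_notMem hz]
  · have hfe : ∀ m z, (∫ s in (ε m)..1, Kr μ (ε m) s l z) =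
        th (ε m) z.1 * ∫ s in Ioc (ε m) 1, Jf μ l (z, s) :=
      fun m z => int_Kr hμ (hε m).1 (hε m).2 l z
    simp only [hfe]
    have hAm : MeasurableSet (Iio T ×ˢ (univ : Set (Eu n))) := measurableSet_Iio.prod MeasurableSet.univ
    have hz0 : Tendsto (fun m => ∫⁻ z in Iio T ×ˢ (univ : Set (Eu n)),
        ‖th (ε m) z.1 * (∫ s in Ioc (ε m) 1, Jf μ l (z, s)) - K0 z‖ₑ) atTop
        (𝓝 (∫⁻ z in Iio T ×ˢ (univ : Set (Eu n)), 0)) := by
      refine tendsto_lintegral_of_dominated_convergence (fun z => 2 * S.indicator (Df μ l) z)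
        ?_ ?_ ?_ ?_
      · intro m
        have h1 : StronglyMeasurable (fun z : ST n => th (ε m) z.1) :=
          ((th_smooth (ε m)).continuous.comp continuous_fst).stronglyMeasurable
        exact ((h1.mul (stronglyMeasurable_int μ l _)).sub hK0m).measurable.enorm
      · intro m
        refine (ae_restrict_iff' hAm).2 (Eventually.of_forall fun z hz => ?_)
        have hzT : z.1 < T := hz.1
        by_cases hzS : z ∈ S
        · simp only [hK0, indicator_of_mem hzS]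
          refine (enorm_sub_le).trans ?_
          rw [two_mul]
          refine add_le_add ?_ (enorm_int_le μ l z le_rfl)
          rw [enorm_mul]
          have h1 : ‖th (ε m) z.1‖ₑ ≤ 1 := by
            rw [Real.enorm_eq_ofReal (th_nonneg _ _)]
            exact ENNReal.ofReal_le_one.2 (th_le_one _ _)
          calc ‖th (ε m) z.1‖ₑ * ‖∫ s in Ioc (ε m) 1, Jf μ l (z, s)‖ₑ
              ≤ 1 * Df μ l z := mul_le_mul' h1
                (enorm_int_le μ l z (Ioc_subset_Ioc_left (hε m).1.le))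
            _ = _ := one_mul _
        · have hz0 : z.1 ≤ 0 := by
            by_contra hcon
            exact hzS ⟨⟨not_le.1 hcon, hzT⟩, mem_univ _⟩
          simp only [hK0, indicator_of_notMem hzS, th_zero (hε m).1 hz0]
          simp
      · rw [lintegral_const_mul _ (hDm.indicator hSm)]
        refine (ENNReal.mul_lt_top (by simp) ?_).ne
        exact lt_of_le_of_lt (lintegral_mono' Measure.restrict_le_self le_rfl) hDfin
      · refine (ae_restrict_iff' hAm).2 (Eventually.of_forall fun z hz => ?_)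
        have hzT : z.1 < T := hz.1
        by_cases hzS : z ∈ S
        · simp only [hK0, indicator_of_mem hzS]
          have hzpos : 0 < z.1 := hzS.1.1
          have hc := continuousOn_Jf hμ l hzpos
          obtain ⟨M, hM⟩ := isCompact_Icc.exists_bound_of_continuousOn hc
          have hii : ∀ a b : ℝ, a ∈ Icc (0 : ℝ) 1 → b ∈ Icc (0 : ℝ) 1 →
              IntervalIntegrable (fun s => Jf μ l (z, s)) volume a b := fun a b ha hb =>
            (hc.mono (uIcc_subset_Icc ha hb)).intervalIntegrable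
          have hM0 : 0 ≤ M := (norm_nonneg _).trans (hM 0 ⟨le_rfl, zero_le_one⟩)
          have h1 : ∀ᶠ m in atTop, ‖th (ε m) z.1 * (∫ s in Ioc (ε m) 1, Jf μ l (z, s)) -
              ∫ s in Ioc (0 : ℝ) 1, Jf μ l (z, s)‖ₑ ≤ ENNReal.ofReal (M * ε m) := by
            filter_upwards [hlim.eventually (gt_mem_nhds hzpos)] with m hm
            have hε0 := (hε m).1
            have hε1 := (hε m).2
            rw [th_one hε0 hm.le, one_mul, ← intervalIntegral.integral_of_le hε1.le,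
              ← intervalIntegral.integral_of_le zero_le_one]
            have h2 : (∫ s in (0 : ℝ)..(ε m), Jf μ l (z, s)) + ∫ s in (ε m)..1, Jf μ l (z, s) =
                ∫ s in (0 : ℝ)..1, Jf μ l (z, s) :=
              intervalIntegral.integral_add_adjacent_intervals
                (hii _ _ ⟨le_rfl, zero_le_one⟩ ⟨hε0.le, hε1.le⟩)
                (hii _ _ ⟨hε0.le, hε1.le⟩ ⟨zero_le_one, le_rfl⟩)
            rw [← h2]
            have h3 : (∫ s in (ε m)..1, Jf μ l (z, s)) -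
                ((∫ s in (0 : ℝ)..(ε m), Jf μ l (z, s)) + ∫ s in (ε m)..1, Jf μ l (z, s)) =
                -∫ s in (0 : ℝ)..(ε m), Jf μ l (z, s) := by ring
            rw [h3, enorm_neg, Real.enorm_eq_ofReal_abs]
            apply ENNReal.ofReal_le_ofReal
            have h4 := intervalIntegral.norm_integral_le_of_norm_le_const (a := 0) (b := ε m)
              (f := fun s => Jf μ l (z, s)) (C := M) (fun s hs => by
                rw [uIoc_of_le hε0.le] at hs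
                exact hM s ⟨hs.1.le, hs.2.trans hε1.le⟩)
            rw [sub_zero, abs_of_pos hε0] at h4
            simpa using h4
          have h2 : Tendsto (fun m => ENNReal.ofReal (M * ε m)) atTop (𝓝 0) := by
            have : Tendsto (fun m => M * ε m) atTop (𝓝 0) := by
              simpa using hlim.const_mul M
            simpa using ENNReal.tendsto_ofReal this
          exact tendsto_of_tendsto_of_tendsto_of_le_of_le' tendsto_const_nhds h2
            (Eventually.of_forall fun m => zero_le) h1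
        · have hz0 : z.1 ≤ 0 := by
            by_contra hcon
            exact hzS ⟨⟨not_le.1 hcon, hzT⟩, mem_univ _⟩
          have : ∀ m, ‖th (ε m) z.1 * (∫ s in Ioc (ε m) 1, Jf μ l (z, s)) - K0 z‖ₑ = 0 := by
            intro m
            simp [hK0, indicator_of_notMem hzS, th_zero (hε m).1 hz0]
          simp only [this]
          exact tendsto_const_nhds
    simpa using hz0

end Pool.Agent.Helper50.JG
end

section
/-! # Preparations for the key inequality `lemmaP` -/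

open MeasureTheory Set Filter Topology
open scoped ENNReal ContDiff

namespace Pool.Agent.Helper1.JefP

open Pool.Agent.Helper42.Jef Pool.Agent.Helper22.Jef

/-- choose an error sequence from a family of monotone predicates -/
theorem exists_e (P : ℕ → ℝ → Prop) (hmono : ∀ k ε ε', ε ≤ ε' → P k ε → P k ε')
    (h0 : ∀ k, ∃ ε0, P k ε0) (h : ∀ ε : ℝ, 0 < ε → ∀ᶠ k in atTop, P k ε) :
    ∃ e : ℕ → ℝ, Tendsto e atTop (𝓝 0) ∧ ∀ k, P k (e k) := by
  classical
  let A : ℕ → Set ℝ := fun k => {ε | 0 < ε ∧ P k ε}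
  have hne : ∀ k, (A k).Nonempty := by
    intro k
    obtain ⟨ε0, h0⟩ := h0 k
    exact ⟨max ε0 1, lt_of_lt_of_le one_pos (le_max_right _ _), hmono k _ _ (le_max_left _ _) h0⟩
  have hbb : ∀ k, BddBelow (A k) := fun k => ⟨0, fun ε hε => hε.1.le⟩
  refine ⟨fun k => sInf (A k) + 1 / ((k : ℝ) + 1), ?_, ?_⟩
  · have h1 : Tendsto (fun k => sInf (A k)) atTop (𝓝 0) := by
      rw [tendsto_order]
      constructor
      · intro a ha
        filter_upwards with k
        exact lt_of_lt_of_le ha (le_csInf (hne k) fun ε hε => hε.1.le)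
      · intro a ha
        filter_upwards [h (a / 2) (by linarith)] with k hk
        have : sInf (A k) ≤ a / 2 := csInf_le (hbb k) ⟨by linarith, hk⟩
        linarith
    have h2 := h1.add (tendsto_one_div_add_atTop_nhds_zero_nat (𝕜 := ℝ))
    rwa [add_zero] at h2
  · intro k
    have h1 : (0 : ℝ) < 1 / ((k : ℝ) + 1) := by positivity
    have h2 : sInf (A k) < sInf (A k) + 1 / ((k : ℝ) + 1) := by linarith
    obtain ⟨ε, hε, hlt⟩ := exists_lt_of_csInf_lt (hne k) h2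
    exact hmono k _ _ hlt.le hε.2

variable {α : Type*} [MeasurableSpace α] {μ : Measure α}
variable {E : Type*} [NormedAddCommGroup E] [InnerProductSpace ℝ E]

theorem wsmul_mem {ζ : α → ℝ} (hζ : AEStronglyMeasurable ζ μ) {C : ℝ}
    (hC : ∀ᵐ x ∂μ, |ζ x| ≤ C) {W : α → E} (hW : MemLp W 2 μ) :
    MemLp (fun x => ζ x • W x) 2 μ := by
  refine hW.of_le_mul (c := C) (hζ.smul hW.1) ?_
  filter_upwards [hC] with x hx
  rw [norm_smul, Real.norm_eq_abs]
  exact mul_le_mul_of_nonneg_right hx (norm_nonneg _)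

theorem wint {ζ : α → ℝ} (hζ : AEStronglyMeasurable ζ μ) {C : ℝ}
    (hC : ∀ᵐ x ∂μ, |ζ x| ≤ C) {f : α → ℝ} (hf : Integrable f μ) :
    Integrable (fun x => ζ x * f x) μ := by
  refine (hf.norm.const_mul C).mono' (hζ.mul hf.1) ?_
  filter_upwards [hC] with x hx
  rw [norm_mul, Real.norm_eq_abs (ζ x)]
  exact mul_le_mul_of_nonneg_right hx (norm_nonneg _)

theorem l2mul {f g : α → ℝ} (hf : MemLp f 2 μ) (hg : MemLp g 2 μ) :
    Integrable (fun x => f x * g x) μ := hf.integrable_mul hg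

/-- limit of weighted second moments around a fixed function -/
theorem var_lim {v : ℕ → α → E} {U : α → E} {s : α → ℝ} (hv : WC μ v U)
    (hs : WC μ (fun m x => ‖v m x‖ ^ 2) s) {W : α → E} (hW : MemLp W 2 μ) {ζ : α → ℝ}
    (hζ : MemLp ζ 2 μ) {C : ℝ} (hC : ∀ᵐ x ∂μ, |ζ x| ≤ C) :
    Tendsto (fun m => ∫ x, ζ x * ‖v m x - W x‖ ^ 2 ∂μ) atTop
      (𝓝 (∫ x, ζ x * (s x - 2 * inner ℝ (U x) (W x) + ‖W x‖ ^ 2) ∂μ)) := by
  have hζW := wsmul_mem hζ.1 hC hW
  have key : ∀ {V : α → E} {r : α → ℝ}, MemLp V 2 μ → MemLp r 2 μ →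
      ∫ x, ζ x * (r x - 2 * inner ℝ (V x) (W x) + ‖W x‖ ^ 2) ∂μ =
        ∫ x, inner ℝ (r x) (ζ x) ∂μ - 2 * ∫ x, inner ℝ (V x) (ζ x • W x) ∂μ +
          ∫ x, ζ x * ‖W x‖ ^ 2 ∂μ := by
    intro V r hV hr
    have i1 : Integrable (fun x => inner ℝ (r x) (ζ x)) μ := l2_inner hr hζ
    have i2 : Integrable (fun x => 2 * inner ℝ (V x) (ζ x • W x)) μ :=
      (l2_inner hV hζW).const_mul 2
    have i3 : Integrable (fun x => ζ x * ‖W x‖ ^ 2) μ := wint hζ.1 hC (l2_sq hW)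
    have i12 : Integrable (fun x => inner ℝ (r x) (ζ x) - 2 * inner ℝ (V x) (ζ x • W x)) μ :=
      i1.sub i2
    rw [← integral_const_mul, ← integral_sub i1 i2, ← integral_add i12 i3]
    refine integral_congr_ae (Eventually.of_forall fun x => ?_)
    simp only [inner_smul_right, RCLike.inner_apply, conj_trivial]
    ring
  rw [key hv.memU hs.memU]
  have h1 := hs.conv ζ hζ
  have h2 := (hv.conv _ hζW).const_mul 2
  refine ((h1.sub h2).add_const _).congr (fun m => ?_)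
  rw [← key (hv.mem m) (hs.mem m)]
  refine integral_congr_ae (Eventually.of_forall fun x => ?_)
  simp only
  rw [norm_sub_sq_real]

/-- weak convergence tested with a bounded `L²` weight times a fixed function -/
theorem zero_lim {v : ℕ → α → E} {U : α → E} (hv : WC μ v U) {W : α → E} (hW : MemLp W 2 μ) :
    Tendsto (fun m => ∫ x, inner ℝ (v m x - U x) (W x) ∂μ) atTop (𝓝 0) := by
  have h1 := (hv.conv W hW).sub_const (∫ x, inner ℝ (U x) (W x) ∂μ)
  rw [sub_self] at h1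
  refine h1.congr fun m => ?_
  rw [← integral_sub (l2_inner (hv.mem m) hW) (l2_inner hv.memU hW)]
  refine integral_congr_ae (Eventually.of_forall fun x => ?_)
  simp only [inner_sub_left]

section tv

variable [SigmaFinite μ] [FiniteDimensional ℝ E] [MeasurableSpace E] [BorelSpace E]

/-- the facts about truncated weak limits used below -/
theorem tv_pack {u : ℕ → α → E} {U : α → E} {uk : ℕ → α → E} {ak : ℕ → α → ℝ}
    (h : TV μ u U uk ak) {θ : α → ℝ} (hθi : Integrable θ μ)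
    (hθ : Tendsto (fun k => ∫ x, |ak k x - ‖uk k x‖ ^ 2 - θ x| ∂μ) atTop (𝓝 0)) :
    ∃ A : α → ℝ, Integrable A μ ∧
      (∀ᵐ x ∂μ, ∀ k, ‖uk k x‖ ^ 2 ≤ ak k x ∧ ak k x ≤ A x ∧ ‖uk k x‖ ≤ k + 1) ∧
      (∀ᵐ x ∂μ, 0 ≤ θ x) ∧
      (∀ k, Integrable (ak k) μ) ∧
      Tendsto (fun k => ∫ x, |A x - ak k x| ∂μ) atTop (𝓝 0) ∧
      (∀ (ζ : α → ℝ) (C : ℝ), AEStronglyMeasurable ζ μ → (∀ᵐ x ∂μ, |ζ x| ≤ C) →
        Tendsto (fun k => ∫ x, ζ x * (ak k x - 2 * inner ℝ (uk k x) (U x) + ‖U x‖ ^ 2) ∂μ)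
          atTop (𝓝 (∫ x, ζ x * θ x ∂μ))) := by
  obtain ⟨A, hA, hb, hta, htu, hUA, hi, hL1, hs⟩ := tv_main h
  have hθ' : Tendsto (fun k => ∫ x, |ak k x - ‖uk k x‖ ^ 2 - (A x - ‖U x‖ ^ 2)| ∂μ) atTop
      (𝓝 0) := by
    have h1 : Tendsto (fun k => ∫ x, |ak k x - ‖uk k x‖ ^ 2 - (A x - ‖U x‖ ^ 2)| ∂μ) atTop
        (𝓝 (∫ _, (0 : ℝ) ∂μ)) := by
      refine tendsto_integral_of_dominated_convergence A ?_ hA ?_ ?_
      · intro k
        exact (((hi k).sub (l2_sq (h.wk k).memU)).sub (hA.sub (l2_sq h.w.memU))).abs.1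
      · intro k
        filter_upwards [hb, hUA] with x hx hx2
        obtain ⟨h1, -, h3, -, -⟩ := hx k
        rw [Real.norm_eq_abs, abs_abs, abs_le]
        constructor <;> nlinarith [sq_nonneg ‖U x‖, sq_nonneg ‖uk k x‖]
      · filter_upwards [hta, htu] with x h1 h2
        have h3 := ((h1.sub (h2.norm.pow 2)).sub_const (A x - ‖U x‖ ^ 2)).abs
        simpa using h3
    simpa using h1
  have hθA : ∀ᵐ x ∂μ, θ x = A x - ‖U x‖ ^ 2 := by
    have i0 : Integrable (fun x => A x - ‖U x‖ ^ 2) μ := hA.sub (l2_sq h.w.memU)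
    have i1 : Integrable (fun x => |θ x - (A x - ‖U x‖ ^ 2)|) μ := (hθi.sub i0).abs
    have h2 : ∫ x, |θ x - (A x - ‖U x‖ ^ 2)| ∂μ ≤ 0 := by
      refine ge_of_tendsto' (by simpa using hθ.add hθ') (fun k => ?_)
      have ik : Integrable (fun x => ak k x - ‖uk k x‖ ^ 2) μ :=
        (hi k).sub (l2_sq (h.wk k).memU)
      have i2 : Integrable (fun x => |ak k x - ‖uk k x‖ ^ 2 - θ x|) μ := (ik.sub hθi).abs
      have i3 : Integrable (fun x => |ak k x - ‖uk k x‖ ^ 2 - (A x - ‖U x‖ ^ 2)|) μ :=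
        (ik.sub i0).abs
      rw [← integral_add i2 i3]
      refine integral_mono i1 (i2.add i3) (fun x => ?_)
      simp only
      have h3 := abs_sub (ak k x - ‖uk k x‖ ^ 2 - (A x - ‖U x‖ ^ 2))
        (ak k x - ‖uk k x‖ ^ 2 - θ x)
      have h4 : ak k x - ‖uk k x‖ ^ 2 - (A x - ‖U x‖ ^ 2) - (ak k x - ‖uk k x‖ ^ 2 - θ x) =
        θ x - (A x - ‖U x‖ ^ 2) := by ring
      rw [h4] at h3
      linarith
    have h5 : ∫ x, |θ x - (A x - ‖U x‖ ^ 2)| ∂μ = 0 :=
      le_antisymm h2 (integral_nonneg fun x => abs_nonneg _)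
    rw [integral_eq_zero_iff_of_nonneg (fun x => abs_nonneg _) i1] at h5
    filter_upwards [h5] with x hx
    have : |θ x - (A x - ‖U x‖ ^ 2)| = 0 := hx
    linarith [abs_eq_zero.1 this]
  refine ⟨A, hA, ?_, ?_, hi, hL1, ?_⟩
  · filter_upwards [hb] with x hx k
    exact ⟨(hx k).1, (hx k).2.2.1, (hx k).2.2.2.1⟩
  · filter_upwards [hθA, hUA] with x h1 h2
    rw [h1]; linarith
  · intro ζ C hζ hC
    have hI : ∫ x, ζ x * θ x ∂μ = ∫ x, ζ x * (A x - ‖U x‖ ^ 2) ∂μ := by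
      refine integral_congr_ae ?_
      filter_upwards [hθA] with x hx
      rw [hx]
    rw [hI]
    refine tendsto_integral_of_dominated_convergence (fun x => C * (4 * A x)) ?_
      ((hA.const_mul 4).const_mul C) ?_ ?_
    · intro k
      refine hζ.mul ?_
      exact (((h.wa k).memU.1.sub (((h.wk k).memU.1.inner h.w.memU.1).const_mul 2)).add
        (l2_sq h.w.memU).1)
    · intro k
      filter_upwards [hb, hUA, hC] with x hx hx2 hx3
      obtain ⟨h1, -, h3, -, -⟩ := hx k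
      rw [Real.norm_eq_abs, abs_mul]
      have h4 : |ak k x - 2 * inner ℝ (uk k x) (U x) + ‖U x‖ ^ 2| ≤ 4 * A x := by
        have h5 := abs_le.1 (abs_real_inner_le_norm (uk k x) (U x))
        have h6 : ‖uk k x‖ * ‖U x‖ ≤ A x := by
          nlinarith [sq_nonneg (‖uk k x‖ - ‖U x‖)]
        rw [abs_le]
        constructor <;> nlinarith [sq_nonneg ‖U x‖, sq_nonneg ‖uk k x‖]
      exact mul_le_mul hx3 h4 (abs_nonneg _) ((abs_nonneg _).trans hx3)
    · filter_upwards [hta, htu] with x h1 h2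
      have h3 : Tendsto (fun k => inner ℝ (uk k x) (U x)) atTop (𝓝 (inner ℝ (U x) (U x))) :=
        h2.inner tendsto_const_nhds
      have h4 := (((h1.sub (h3.const_mul 2)).add_const (‖U x‖ ^ 2)).const_mul (ζ x))
      rw [real_inner_self_eq_norm_sq] at h4
      have h5 : ζ x * (A x - 2 * ‖U x‖ ^ 2 + ‖U x‖ ^ 2) = ζ x * (A x - ‖U x‖ ^ 2) := by ring
      rwa [h5] at h4

end tv

/-- uniform integrability, in the form used below -/
theorem trunc_tail {A : α → ℝ} (hA : Integrable A μ) :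
    Tendsto (fun N : ℕ => ∫ x, max (A x - N) 0 ∂μ) atTop (𝓝 0) := by
  have h1 : Tendsto (fun N : ℕ => ∫ x, max (A x - N) 0 ∂μ) atTop (𝓝 (∫ _, (0 : ℝ) ∂μ)) := by
    refine tendsto_integral_of_dominated_convergence (fun x => |A x|) ?_ hA.abs ?_ ?_
    · intro N
      exact (hA.1.sub aestronglyMeasurable_const).sup aestronglyMeasurable_const
    · intro N
      filter_upwards with x
      rw [Real.norm_eq_abs, abs_of_nonneg (le_max_right _ _)]
      refine max_le ?_ (abs_nonneg _)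
      have := le_abs_self (A x)
      have h2 : (0 : ℝ) ≤ N := Nat.cast_nonneg N
      linarith
    · filter_upwards with x
      refine tendsto_const_nhds.congr' ?_
      filter_upwards [eventually_ge_atTop ⌈A x⌉₊] with N hN
      have h2 : A x ≤ N := (Nat.le_ceil _).trans (by exact_mod_cast hN)
      rw [max_eq_right (by linarith)]
  simpa using h1

end Pool.Agent.Helper1.JefP
end

section
/-! # The pointwise inequality for the damping/stretching part -/

open MeasureTheory Set Filter Topology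
open scoped ENNReal ContDiff

namespace Pool.Agent.Helper1.JefP

open Pool.Agent.Helper42.Jef Pool.Agent.Helper22.Jef

variable {E : Type*} [NormedAddCommGroup E] [InnerProductSpace ℝ E]

theorem comb_sq_le (T : E →L[ℝ] E) (hT : ∀ x, ‖T x‖ ≤ ‖x‖) (a c : ℝ) (x y : E) :
    ‖c • T x - a • y‖ ^ 2 ≤ 2 * c ^ 2 * ‖x‖ ^ 2 + 2 * a ^ 2 * ‖y‖ ^ 2 := by
  have h1 : ‖c • T x - a • y‖ ≤ |c| * ‖x‖ + |a| * ‖y‖ := by
    refine (norm_sub_le _ _).trans ?_
    rw [norm_smul, norm_smul, Real.norm_eq_abs, Real.norm_eq_abs]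
    have := mul_le_mul_of_nonneg_left (hT x) (abs_nonneg c)
    linarith
  have h2 : ‖c • T x - a • y‖ ^ 2 ≤ (|c| * ‖x‖ + |a| * ‖y‖) ^ 2 :=
    pow_le_pow_left₀ (norm_nonneg _) h1 2
  have h3 : (|c| * ‖x‖) ^ 2 = c ^ 2 * ‖x‖ ^ 2 := by rw [mul_pow, sq_abs]
  have h4 : (|a| * ‖y‖) ^ 2 = a ^ 2 * ‖y‖ ^ 2 := by rw [mul_pow, sq_abs]
  nlinarith [sq_nonneg (|c| * ‖x‖ - |a| * ‖y‖)]

/-- the estimate of the truncation commutator -/
theorem ptR {t P w : E} {k l j : ℕ} (hkj : k ≤ j) (hlj : 2 * (l + 1) ≤ j + 1) {lam N A : ℝ}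
    (hlam : 0 < lam) (hN : 0 ≤ N) (hw : ‖w‖ ^ 2 ≤ A) :
    2 * inner ℝ (bk ((k : ℝ) + 1) t - w) (fderiv ℝ (bk ((k : ℝ) + 1)) t P - P) ≤
      4 * ((l : ℝ) + 1) / ((k : ℝ) + 1) * (‖bk ((k : ℝ) + 1) t - w‖ ^ 2 + ‖P‖ ^ 2) +
      lam * ‖P‖ ^ 2 + 16 / lam * (‖bk ((j : ℝ) + 1) t‖ ^ 2 - ‖bk ((l : ℝ) + 1) t‖ ^ 2) +
      8 / lam * (max (A - N) 0 + N * (‖t‖ ^ 2 / (2 * ((l : ℝ) + 1)) ^ 2)) := by
  have hk : (0 : ℝ) < (k : ℝ) + 1 := by positivity
  have hl : (0 : ℝ) < (l : ℝ) + 1 := by positivity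
  have hj : (0 : ℝ) < (j : ℝ) + 1 := by positivity
  have hkj' : (k : ℝ) + 1 ≤ (j : ℝ) + 1 := by
    have : (k : ℝ) ≤ j := by exact_mod_cast hkj
    linarith
  have hlj' : 2 * ((l : ℝ) + 1) ≤ (j : ℝ) + 1 := by exact_mod_cast hlj
  have hlj2 : (l : ℝ) + 1 ≤ (j : ℝ) + 1 := by linarith
  set d := bk ((k : ℝ) + 1) t - w with hd
  set D := fderiv ℝ (bk ((k : ℝ) + 1)) t with hD
  have h0 : inner ℝ d (D P - P) ≤ ‖d‖ * ‖D P - P‖ := real_inner_le_norm _ _
  have hbm : ‖bk ((l : ℝ) + 1) t‖ ^ 2 ≤ ‖bk ((j : ℝ) + 1) t‖ ^ 2 :=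
    pow_le_pow_left₀ (norm_nonneg _) (bk_mono hl hlj2 t) 2
  have hb0 : 0 ≤ 16 / lam * (‖bk ((j : ℝ) + 1) t‖ ^ 2 - ‖bk ((l : ℝ) + 1) t‖ ^ 2) := by
    apply mul_nonneg (by positivity); linarith
  have hA0 : 0 ≤ 8 / lam * (max (A - N) 0 + N * (‖t‖ ^ 2 / (2 * ((l : ℝ) + 1)) ^ 2)) := by
    have : (0 : ℝ) ≤ max (A - N) 0 := le_max_right _ _
    positivity
  rcases lt_or_ge ‖t‖ (2 * ((l : ℝ) + 1)) with ht | ht
  · have h1 : ‖D P - P‖ ≤ 4 * ((l : ℝ) + 1) / ((k : ℝ) + 1) * ‖P‖ := by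
      refine (bk_fderiv_sub_le hk t P).trans ?_
      apply mul_le_mul_of_nonneg_right _ (norm_nonneg _)
      rw [mul_div_assoc']
      apply div_le_div_of_nonneg_right _ hk.le
      linarith
    have h2 : 2 * (‖d‖ * ‖D P - P‖) ≤
        4 * ((l : ℝ) + 1) / ((k : ℝ) + 1) * (‖d‖ ^ 2 + ‖P‖ ^ 2) := by
      have h3 : ‖d‖ * ‖D P - P‖ ≤ ‖d‖ * (4 * ((l : ℝ) + 1) / ((k : ℝ) + 1) * ‖P‖) :=
        mul_le_mul_of_nonneg_left h1 (norm_nonneg _)
      have h4 : 0 ≤ 4 * ((l : ℝ) + 1) / ((k : ℝ) + 1) * (‖d‖ - ‖P‖) ^ 2 := by positivity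
      nlinarith
    have h5 : 0 ≤ lam * ‖P‖ ^ 2 := by positivity
    linarith
  · have h1 : ‖D P - P‖ ≤ 2 * ‖P‖ := bk_fderiv_sub_le_two _ t P
    have h2 : 2 * (‖d‖ * ‖D P - P‖) ≤ 4 / lam * ‖d‖ ^ 2 + lam * ‖P‖ ^ 2 := by
      have h3 : ‖d‖ * ‖D P - P‖ ≤ ‖d‖ * (2 * ‖P‖) :=
        mul_le_mul_of_nonneg_left h1 (norm_nonneg _)
      have h4 : 4 / lam * ‖d‖ ^ 2 + lam * ‖P‖ ^ 2 - 4 * (‖d‖ * ‖P‖) =
          (2 * ‖d‖ - lam * ‖P‖) ^ 2 / lam := by
        field_simp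
        ring
      have h5 : 0 ≤ (2 * ‖d‖ - lam * ‖P‖) ^ 2 / lam := by positivity
      linarith
    have h6 : ‖d‖ ^ 2 ≤ 2 * ‖bk ((k : ℝ) + 1) t‖ ^ 2 + 2 * ‖w‖ ^ 2 := by
      have h7 := norm_sub_le (bk ((k : ℝ) + 1) t) w
      have h8 : ‖d‖ ^ 2 ≤ (‖bk ((k : ℝ) + 1) t‖ + ‖w‖) ^ 2 :=
        pow_le_pow_left₀ (norm_nonneg _) h7 2
      nlinarith [sq_nonneg (‖bk ((k : ℝ) + 1) t‖ - ‖w‖)]
    have h9 : ‖bk ((k : ℝ) + 1) t‖ ^ 2 ≤ ‖bk ((j : ℝ) + 1) t‖ ^ 2 :=
      pow_le_pow_left₀ (norm_nonneg _) (bk_mono hk hkj' t) 2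
    have h10 := bk_big hl (x := t) ht hlj'
    have h11 : A ≤ max (A - N) 0 + N * (‖t‖ ^ 2 / (2 * ((l : ℝ) + 1)) ^ 2) := by
      have h12 : 1 ≤ ‖t‖ ^ 2 / (2 * ((l : ℝ) + 1)) ^ 2 := by
        rw [le_div_iff₀ (by positivity), one_mul]
        exact pow_le_pow_left₀ (by positivity) ht 2
      have h13 : A - N ≤ max (A - N) 0 := le_max_left _ _
      nlinarith
    have h14 : 4 / lam * ‖d‖ ^ 2 ≤
        16 / lam * (‖bk ((j : ℝ) + 1) t‖ ^ 2 - ‖bk ((l : ℝ) + 1) t‖ ^ 2) +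
        8 / lam * (max (A - N) 0 + N * (‖t‖ ^ 2 / (2 * ((l : ℝ) + 1)) ^ 2)) := by
      have h15 : ‖d‖ ^ 2 ≤ 4 * (‖bk ((j : ℝ) + 1) t‖ ^ 2 - ‖bk ((l : ℝ) + 1) t‖ ^ 2) +
        2 * (max (A - N) 0 + N * (‖t‖ ^ 2 / (2 * ((l : ℝ) + 1)) ^ 2)) := by linarith
      have h16 := mul_le_mul_of_nonneg_left h15 (by positivity : (0 : ℝ) ≤ 4 / lam)
      refine h16.trans (le_of_eq ?_)
      ring
    have h17 : 0 ≤ 4 * ((l : ℝ) + 1) / ((k : ℝ) + 1) * (‖d‖ ^ 2 + ‖P‖ ^ 2) := by positivity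
    linarith

/-- the error terms of the pointwise inequality -/
noncomputable def errI (a c : ℝ) (k l j : ℕ) (lam N A : ℝ) (t g w : E) : ℝ :=
  4 * ((k : ℝ) + 1) / ((j : ℝ) + 1) * (|c| * ‖g‖ ^ 2 + |a| * ‖t‖ ^ 2) +
    4 * ((l : ℝ) + 1) / ((k : ℝ) + 1) *
      (‖bk ((k : ℝ) + 1) t - w‖ ^ 2 + (2 * c ^ 2 * ‖g‖ ^ 2 + 2 * a ^ 2 * ‖t‖ ^ 2)) +
    lam * (2 * c ^ 2 * ‖g‖ ^ 2 + 2 * a ^ 2 * ‖t‖ ^ 2) +
    8 / lam * (max (A - N) 0 + N * (‖t‖ ^ 2 / (2 * ((l : ℝ) + 1)) ^ 2))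

theorem errI_nonneg (a c : ℝ) (k l j : ℕ) {lam N A : ℝ} (hlam : 0 < lam) (hN : 0 ≤ N)
    (t g w : E) : 0 ≤ errI a c k l j lam N A t g w := by
  unfold errI
  have h1 : (0 : ℝ) ≤ max (A - N) 0 := le_max_right _ _
  positivity

theorem ptI (T : E →L[ℝ] E) (hT : ∀ x, ‖T x‖ ≤ ‖x‖) (a c : ℝ) {t g w : E} (U W : E)
    {k l j : ℕ} (hkj : k ≤ j) (hlj : 2 * (l + 1) ≤ j + 1) {lam N A : ℝ} (hlam : 0 < lam)
    (hN : 0 ≤ N) (hw : ‖w‖ ^ 2 ≤ A) (hwk : ‖w‖ ≤ (k : ℝ) + 1) :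
    2 * inner ℝ (bk ((k : ℝ) + 1) t - w) (fderiv ℝ (bk ((k : ℝ) + 1)) t (c • T g - a • t)) ≤
      errI a c k l j lam N A t g w +
      16 / lam * (‖bk ((j : ℝ) + 1) t‖ ^ 2 - ‖bk ((l : ℝ) + 1) t‖ ^ 2) +
      ‖bk ((k : ℝ) + 1) t - w‖ ^ 2 +
      (2 * c ^ 2 * ‖bk ((j : ℝ) + 1) g - W‖ ^ 2 + 2 * a ^ 2 * ‖bk ((j : ℝ) + 1) t - U‖ ^ 2) +
      2 * inner ℝ (bk ((k : ℝ) + 1) t - w) (c • T W - a • U) := by
  have hk : (0 : ℝ) < (k : ℝ) + 1 := by positivity
  have hj : (0 : ℝ) < (j : ℝ) + 1 := by positivity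
  obtain ⟨P, hP⟩ : ∃ P, P = c • T (bk ((j : ℝ) + 1) g) - a • bk ((j : ℝ) + 1) t := ⟨_, rfl⟩
  obtain ⟨Q, hQ⟩ : ∃ Q, Q = c • T g - a • t := ⟨_, rfl⟩
  obtain ⟨Z, hZ⟩ : ∃ Z, Z = c • T W - a • U := ⟨_, rfl⟩
  have hR := ptR (P := P) (w := w) (t := t) hkj hlj hlam hN hw
  have hP2 : ‖P‖ ^ 2 ≤ 2 * c ^ 2 * ‖g‖ ^ 2 + 2 * a ^ 2 * ‖t‖ ^ 2 := by
    rw [hP]
    refine (comb_sq_le T hT a c _ _).trans ?_
    have h1 : ‖bk ((j : ℝ) + 1) g‖ ^ 2 ≤ ‖g‖ ^ 2 :=
      pow_le_pow_left₀ (norm_nonneg _) (bk_norm_le _ _) 2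
    have h2 : ‖bk ((j : ℝ) + 1) t‖ ^ 2 ≤ ‖t‖ ^ 2 :=
      pow_le_pow_left₀ (norm_nonneg _) (bk_norm_le _ _) 2
    have h3 := mul_le_mul_of_nonneg_left h1 (by positivity : 0 ≤ 2 * c ^ 2)
    have h4 := mul_le_mul_of_nonneg_left h2 (by positivity : 0 ≤ 2 * a ^ 2)
    linarith
  have hPZ : ‖P - Z‖ ^ 2 ≤ 2 * c ^ 2 * ‖bk ((j : ℝ) + 1) g - W‖ ^ 2 +
      2 * a ^ 2 * ‖bk ((j : ℝ) + 1) t - U‖ ^ 2 := by
    have h1 : P - Z = c • T (bk ((j : ℝ) + 1) g - W) - a • (bk ((j : ℝ) + 1) t - U) := by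
      rw [hP, hZ, map_sub, smul_sub, smul_sub]; abel
    rw [h1]
    exact comb_sq_le T hT a c _ _
  have hQP : ‖Q - P‖ ≤ (|c| * ‖g‖ ^ 2 + |a| * ‖t‖ ^ 2) / ((j : ℝ) + 1) := by
    have h1 : Q - P = c • T (g - bk ((j : ℝ) + 1) g) - a • (t - bk ((j : ℝ) + 1) t) := by
      rw [hP, hQ, map_sub, smul_sub, smul_sub]; abel
    rw [h1]
    refine (norm_sub_le _ _).trans ?_
    rw [norm_smul, norm_smul, Real.norm_eq_abs, Real.norm_eq_abs]
    have h2 := mul_le_mul_of_nonneg_left ((hT (g - bk ((j : ℝ) + 1) g)).trans (bk_sub_le hj g))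
      (abs_nonneg c)
    have h3 := mul_le_mul_of_nonneg_left (bk_sub_le hj t) (abs_nonneg a)
    rw [add_div, mul_div_assoc, mul_div_assoc]
    linarith
  rw [← hQ, ← hZ]
  set d := bk ((k : ℝ) + 1) t - w with hd
  have hdn : ‖d‖ ≤ 2 * ((k : ℝ) + 1) := by
    have h1 := norm_sub_le (bk ((k : ℝ) + 1) t) w
    have h2 := bk_norm_le_k hk t
    rw [← hd] at h1
    linarith
  have hsplit : inner ℝ d (fderiv ℝ (bk ((k : ℝ) + 1)) t Q) =
      inner ℝ d (fderiv ℝ (bk ((k : ℝ) + 1)) t (Q - P)) +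
      inner ℝ d (fderiv ℝ (bk ((k : ℝ) + 1)) t P - P) + inner ℝ d (P - Z) + inner ℝ d Z := by
    rw [map_sub]
    simp only [inner_sub_right]
    ring
  have h1 : inner ℝ d (fderiv ℝ (bk ((k : ℝ) + 1)) t (Q - P)) ≤
      2 * ((k : ℝ) + 1) * ((|c| * ‖g‖ ^ 2 + |a| * ‖t‖ ^ 2) / ((j : ℝ) + 1)) := by
    refine (real_inner_le_norm _ _).trans ?_
    exact mul_le_mul hdn ((bk_fderiv_apply_norm _ t _).trans hQP) (norm_nonneg _) (by positivity)
  have h2 : 2 * inner ℝ d (P - Z) ≤ ‖d‖ ^ 2 + ‖P - Z‖ ^ 2 := by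
    have := real_inner_le_norm d (P - Z)
    nlinarith [sq_nonneg (‖d‖ - ‖P - Z‖)]
  have h3 : 4 * ((k : ℝ) + 1) / ((j : ℝ) + 1) * (|c| * ‖g‖ ^ 2 + |a| * ‖t‖ ^ 2) =
      2 * (2 * ((k : ℝ) + 1) * ((|c| * ‖g‖ ^ 2 + |a| * ‖t‖ ^ 2) / ((j : ℝ) + 1))) := by ring
  have h4 : 4 * ((l : ℝ) + 1) / ((k : ℝ) + 1) * (‖d‖ ^ 2 + ‖P‖ ^ 2) ≤
      4 * ((l : ℝ) + 1) / ((k : ℝ) + 1) *
        (‖d‖ ^ 2 + (2 * c ^ 2 * ‖g‖ ^ 2 + 2 * a ^ 2 * ‖t‖ ^ 2)) := by
    apply mul_le_mul_of_nonneg_left _ (by positivity)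
    linarith
  have h5 := mul_le_mul_of_nonneg_left hP2 hlam.le
  unfold errI
  rw [hsplit, h3, ← hd]
  linarith

end Pool.Agent.Helper1.JefP
end

section
/-! # The integrated inequalities -/

open MeasureTheory Set Filter Topology
open scoped ENNReal ContDiff

namespace Pool.Agent.Helper1.JefP

open Pool.Agent.Helper42.Jef Pool.Agent.Helper22.Jef

variable {α : Type*} [MeasurableSpace α] {μ : Measure α}
variable {E : Type*} [NormedAddCommGroup E] [InnerProductSpace ℝ E]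

theorem bk_mem {t : α → E} (ht : MemLp t 2 μ) (k : ℝ) : MemLp (fun x => bk k (t x)) 2 μ := by
  refine ht.of_le ?_ (Eventually.of_forall fun x => bk_norm_le _ _)
  exact (bk_contDiff k).continuous.comp_aestronglyMeasurable ht.1

/-- the integrated error -/
noncomputable def errB (a c : ℝ) (k l j : ℕ) (lam N K1 K2 K3 K4 : ℝ) : ℝ :=
  4 * ((k : ℝ) + 1) / ((j : ℝ) + 1) * (|c| * K2 + |a| * K1) +
    4 * ((l : ℝ) + 1) / ((k : ℝ) + 1) *
      ((2 * K1 + 2 * K3) + (2 * c ^ 2 * K2 + 2 * a ^ 2 * K1)) +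
    lam * (2 * c ^ 2 * K2 + 2 * a ^ 2 * K1) +
    8 / lam * (K4 + N * (K1 / (2 * ((l : ℝ) + 1)) ^ 2))

theorem int_err (a c : ℝ) {t g w : α → E} (ht : MemLp t 2 μ) (hg : MemLp g 2 μ)
    (hw : MemLp w 2 μ) {A : α → ℝ} (hA : Integrable A μ) (hwA : ∀ᵐ x ∂μ, ‖w x‖ ^ 2 ≤ A x)
    {k l j : ℕ} {lam N : ℝ} (hlam : 0 < lam) (hN : 0 ≤ N) {K1 K2 : ℝ}
    (hK1 : ∫ x, ‖t x‖ ^ 2 ∂μ ≤ K1) (hK2 : ∫ x, ‖g x‖ ^ 2 ∂μ ≤ K2) :
    Integrable (fun x => errI a c k l j lam N (A x) (t x) (g x) (w x)) μ ∧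
    ∫ x, errI a c k l j lam N (A x) (t x) (g x) (w x) ∂μ ≤
      errB a c k l j lam N K1 K2 (∫ x, A x ∂μ) (∫ x, max (A x - N) 0 ∂μ) := by
  have it : Integrable (fun x => ‖t x‖ ^ 2) μ := l2_sq ht
  have ig : Integrable (fun x => ‖g x‖ ^ 2) μ := l2_sq hg
  have iv : Integrable (fun x => ‖bk ((k : ℝ) + 1) (t x) - w x‖ ^ 2) μ :=
    l2_sq ((bk_mem ht _).sub hw)
  have im : Integrable (fun x => max (A x - N) 0) μ := by
    refine (hA.abs).mono' ((hA.1.sub aestronglyMeasurable_const).sup aestronglyMeasurable_const) ?_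
    filter_upwards with x
    rw [Real.norm_eq_abs, abs_of_nonneg (le_max_right _ _)]
    refine max_le ?_ (abs_nonneg _)
    have := le_abs_self (A x)
    linarith
  have e1 : Integrable (fun x => |c| * ‖g x‖ ^ 2 + |a| * ‖t x‖ ^ 2) μ :=
    (ig.const_mul _).add (it.const_mul _)
  have e2 : Integrable (fun x => 2 * c ^ 2 * ‖g x‖ ^ 2 + 2 * a ^ 2 * ‖t x‖ ^ 2) μ :=
    (ig.const_mul _).add (it.const_mul _)
  have e3 : Integrable (fun x => ‖bk ((k : ℝ) + 1) (t x) - w x‖ ^ 2 +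
      (2 * c ^ 2 * ‖g x‖ ^ 2 + 2 * a ^ 2 * ‖t x‖ ^ 2)) μ := iv.add e2
  have e4 : Integrable (fun x => N * (‖t x‖ ^ 2 / (2 * ((l : ℝ) + 1)) ^ 2)) μ :=
    (it.div_const _).const_mul _
  have e5 : Integrable (fun x => max (A x - N) 0 +
      N * (‖t x‖ ^ 2 / (2 * ((l : ℝ) + 1)) ^ 2)) μ := im.add e4
  have f1 : Integrable (fun x => 4 * ((k : ℝ) + 1) / ((j : ℝ) + 1) *
      (|c| * ‖g x‖ ^ 2 + |a| * ‖t x‖ ^ 2)) μ := e1.const_mul _
  have f2 : Integrable (fun x => 4 * ((l : ℝ) + 1) / ((k : ℝ) + 1) *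
      (‖bk ((k : ℝ) + 1) (t x) - w x‖ ^ 2 +
      (2 * c ^ 2 * ‖g x‖ ^ 2 + 2 * a ^ 2 * ‖t x‖ ^ 2))) μ := e3.const_mul _
  have f3 : Integrable (fun x => lam *
      (2 * c ^ 2 * ‖g x‖ ^ 2 + 2 * a ^ 2 * ‖t x‖ ^ 2)) μ := e2.const_mul _
  have f4 : Integrable (fun x => 8 / lam * (max (A x - N) 0 +
      N * (‖t x‖ ^ 2 / (2 * ((l : ℝ) + 1)) ^ 2))) μ := e5.const_mul _
  have f12 : Integrable (fun x => 4 * ((k : ℝ) + 1) / ((j : ℝ) + 1) *
      (|c| * ‖g x‖ ^ 2 + |a| * ‖t x‖ ^ 2) + 4 * ((l : ℝ) + 1) / ((k : ℝ) + 1) *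
      (‖bk ((k : ℝ) + 1) (t x) - w x‖ ^ 2 +
      (2 * c ^ 2 * ‖g x‖ ^ 2 + 2 * a ^ 2 * ‖t x‖ ^ 2))) μ := f1.add f2
  have f123 : Integrable (fun x => 4 * ((k : ℝ) + 1) / ((j : ℝ) + 1) *
      (|c| * ‖g x‖ ^ 2 + |a| * ‖t x‖ ^ 2) + 4 * ((l : ℝ) + 1) / ((k : ℝ) + 1) *
      (‖bk ((k : ℝ) + 1) (t x) - w x‖ ^ 2 +
      (2 * c ^ 2 * ‖g x‖ ^ 2 + 2 * a ^ 2 * ‖t x‖ ^ 2)) + lam *
      (2 * c ^ 2 * ‖g x‖ ^ 2 + 2 * a ^ 2 * ‖t x‖ ^ 2)) μ := f12.add f3
  refine ⟨f123.add f4, ?_⟩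
  unfold errI
  rw [integral_add f123 f4, integral_add f12 f3, integral_add f1 f2, integral_const_mul,
    integral_const_mul, integral_const_mul, integral_const_mul, integral_add im e4,
    integral_const_mul, integral_div, integral_add iv e2, integral_add (ig.const_mul _)
    (it.const_mul _), integral_add (ig.const_mul _) (it.const_mul _), integral_const_mul,
    integral_const_mul, integral_const_mul, integral_const_mul]
  have hv : ∫ x, ‖bk ((k : ℝ) + 1) (t x) - w x‖ ^ 2 ∂μ ≤ 2 * K1 + 2 * ∫ x, A x ∂μ := by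
    have h1 : ∫ x, ‖bk ((k : ℝ) + 1) (t x) - w x‖ ^ 2 ∂μ ≤ ∫ x, (2 * ‖t x‖ ^ 2 + 2 * A x) ∂μ := by
      refine integral_mono_ae iv ((it.const_mul 2).add (hA.const_mul 2)) ?_
      filter_upwards [hwA] with x hx
      have h2 := norm_sub_le (bk ((k : ℝ) + 1) (t x)) (w x)
      have h3 := bk_norm_le ((k : ℝ) + 1) (t x)
      have h4 : ‖bk ((k : ℝ) + 1) (t x) - w x‖ ≤ ‖t x‖ + ‖w x‖ := by linarith
      have h5 : ‖bk ((k : ℝ) + 1) (t x) - w x‖ ^ 2 ≤ (‖t x‖ + ‖w x‖) ^ 2 :=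
        pow_le_pow_left₀ (norm_nonneg _) h4 2
      nlinarith [sq_nonneg (‖t x‖ - ‖w x‖)]
    rw [integral_add (it.const_mul 2) (hA.const_mul 2), integral_const_mul,
      integral_const_mul] at h1
    linarith
  unfold errB
  gcongr

/-- the damping/stretching part -/
theorem intI (T : E →L[ℝ] E) (hT : ∀ x, ‖T x‖ ≤ ‖x‖) (a c : ℝ) {t g U W w : α → E}
    (ht : MemLp t 2 μ) (hg : MemLp g 2 μ) (hU : MemLp U 2 μ) (hW : MemLp W 2 μ)
    (hw : MemLp w 2 μ) {A : α → ℝ} (hA : Integrable A μ) (hwA : ∀ᵐ x ∂μ, ‖w x‖ ^ 2 ≤ A x)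
    {k l j : ℕ} (hwk : ∀ᵐ x ∂μ, ‖w x‖ ≤ (k : ℝ) + 1) (hkj : k ≤ j)
    (hlj : 2 * (l + 1) ≤ j + 1) {lam N : ℝ} (hlam : 0 < lam) (hN : 0 ≤ N)
    {K1 K2 : ℝ} (hK1 : ∫ x, ‖t x‖ ^ 2 ∂μ ≤ K1) (hK2 : ∫ x, ‖g x‖ ^ 2 ∂μ ≤ K2)
    (hD : MemLp (fun x => fderiv ℝ (bk ((k : ℝ) + 1)) (t x) (c • T (g x) - a • t x)) 2 μ)
    {B : Set α} (hB : MeasurableSet B) {ζ : α → ℝ} (hζm : Measurable ζ)
    {L : ℝ} (hζ : ∀ x, 0 ≤ ζ x ∧ ζ x ≤ L) (hζB : ∀ x, x ∉ B → ζ x = 0) (hL : 0 ≤ L) :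
    ∫ x, ζ x * (2 * inner ℝ (bk ((k : ℝ) + 1) (t x) - w x)
      (fderiv ℝ (bk ((k : ℝ) + 1)) (t x) (c • T (g x) - a • t x))) ∂μ ≤
      L * errB a c k l j lam N K1 K2 (∫ x, A x ∂μ) (∫ x, max (A x - N) 0 ∂μ) +
      L * (16 / lam) * (∫ x in B, (‖bk ((j : ℝ) + 1) (t x)‖ ^ 2 -
        ‖bk ((l : ℝ) + 1) (t x)‖ ^ 2) ∂μ) +
      ∫ x, ζ x * ‖bk ((k : ℝ) + 1) (t x) - w x‖ ^ 2 ∂μ +
      (2 * c ^ 2 * ∫ x, ζ x * ‖bk ((j : ℝ) + 1) (g x) - W x‖ ^ 2 ∂μ +
        2 * a ^ 2 * ∫ x, ζ x * ‖bk ((j : ℝ) + 1) (t x) - U x‖ ^ 2 ∂μ) +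
      2 * ∫ x, inner ℝ (bk ((k : ℝ) + 1) (t x) - w x)
        (ζ x • (c • T (W x) - a • U x)) ∂μ := by
  have hζa : AEStronglyMeasurable ζ μ := hζm.aestronglyMeasurable
  have hζb : ∀ᵐ x ∂μ, |ζ x| ≤ L := Eventually.of_forall fun x => by
    rw [abs_of_nonneg (hζ x).1]; exact (hζ x).2
  obtain ⟨ie, he⟩ := int_err (k := k) (l := l) (j := j) a c ht hg hw hA hwA hlam hN hK1 hK2
  have hd : MemLp (fun x => bk ((k : ℝ) + 1) (t x) - w x) 2 μ := (bk_mem ht _).sub hw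
  have hTW : MemLp (fun x => c • T (W x) - a • U x) 2 μ :=
    ((T.comp_memLp' hW).const_smul c).sub (hU.const_smul a)
  have i0 : Integrable (fun x => ζ x * (2 * inner ℝ (bk ((k : ℝ) + 1) (t x) - w x)
      (fderiv ℝ (bk ((k : ℝ) + 1)) (t x) (c • T (g x) - a • t x)))) μ :=
    wint hζa hζb ((l2_inner hd hD).const_mul 2)
  have i1 : Integrable (fun x => L * errI a c k l j lam N (A x) (t x) (g x) (w x)) μ :=
    ie.const_mul L
  have ib : Integrable (fun x => ‖bk ((j : ℝ) + 1) (t x)‖ ^ 2 -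
      ‖bk ((l : ℝ) + 1) (t x)‖ ^ 2) μ := (l2_sq (bk_mem ht _)).sub (l2_sq (bk_mem ht _))
  have i2 : Integrable (fun x => L * (16 / lam) * B.indicator (fun x =>
      ‖bk ((j : ℝ) + 1) (t x)‖ ^ 2 - ‖bk ((l : ℝ) + 1) (t x)‖ ^ 2) x) μ :=
    (ib.indicator hB).const_mul _
  have i3 : Integrable (fun x => ζ x * ‖bk ((k : ℝ) + 1) (t x) - w x‖ ^ 2) μ :=
    wint hζa hζb (l2_sq hd)
  have i4 : Integrable (fun x => ζ x * ‖bk ((j : ℝ) + 1) (g x) - W x‖ ^ 2) μ :=
    wint hζa hζb (l2_sq ((bk_mem hg _).sub hW))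
  have i5 : Integrable (fun x => ζ x * ‖bk ((j : ℝ) + 1) (t x) - U x‖ ^ 2) μ :=
    wint hζa hζb (l2_sq ((bk_mem ht _).sub hU))
  have i45 : Integrable (fun x => 2 * c ^ 2 * (ζ x * ‖bk ((j : ℝ) + 1) (g x) - W x‖ ^ 2) +
      2 * a ^ 2 * (ζ x * ‖bk ((j : ℝ) + 1) (t x) - U x‖ ^ 2)) μ :=
    (i4.const_mul _).add (i5.const_mul _)
  have i6 : Integrable (fun x => 2 * inner ℝ (bk ((k : ℝ) + 1) (t x) - w x)
        (ζ x • (c • T (W x) - a • U x))) μ :=
    (l2_inner hd (wsmul_mem hζa hζb hTW)).const_mul 2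
  have i12 : Integrable (fun x => L * errI a c k l j lam N (A x) (t x) (g x) (w x) +
      L * (16 / lam) * B.indicator (fun x =>
      ‖bk ((j : ℝ) + 1) (t x)‖ ^ 2 - ‖bk ((l : ℝ) + 1) (t x)‖ ^ 2) x) μ := i1.add i2
  have i123 : Integrable (fun x => L * errI a c k l j lam N (A x) (t x) (g x) (w x) +
      L * (16 / lam) * B.indicator (fun x =>
      ‖bk ((j : ℝ) + 1) (t x)‖ ^ 2 - ‖bk ((l : ℝ) + 1) (t x)‖ ^ 2) x +
      ζ x * ‖bk ((k : ℝ) + 1) (t x) - w x‖ ^ 2) μ := i12.add i3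
  have i1235 : Integrable (fun x => L * errI a c k l j lam N (A x) (t x) (g x) (w x) +
      L * (16 / lam) * B.indicator (fun x =>
      ‖bk ((j : ℝ) + 1) (t x)‖ ^ 2 - ‖bk ((l : ℝ) + 1) (t x)‖ ^ 2) x +
      ζ x * ‖bk ((k : ℝ) + 1) (t x) - w x‖ ^ 2 +
      (2 * c ^ 2 * (ζ x * ‖bk ((j : ℝ) + 1) (g x) - W x‖ ^ 2) +
      2 * a ^ 2 * (ζ x * ‖bk ((j : ℝ) + 1) (t x) - U x‖ ^ 2))) μ := i123.add i45
  have hmain := integral_mono_ae i0 (i1235.add i6) (by
    filter_upwards [hwA, hwk] with x hx hxk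
    simp only [Pi.add_apply]
    have h1 := ptI T hT a c (U x) (W x) (t := t x) (g := g x) (w := w x) hkj hlj hlam hN hx hxk
    have h2 := errI_nonneg a c k l j (A := A x) hlam hN (t x) (g x) (w x)
    have hl : (0 : ℝ) < (l : ℝ) + 1 := by positivity
    have hlj2 : (l : ℝ) + 1 ≤ (j : ℝ) + 1 := by
      have hlj' : 2 * ((l : ℝ) + 1) ≤ (j : ℝ) + 1 := by exact_mod_cast hlj
      linarith
    have hbm : ‖bk ((l : ℝ) + 1) (t x)‖ ^ 2 ≤ ‖bk ((j : ℝ) + 1) (t x)‖ ^ 2 :=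
      pow_le_pow_left₀ (norm_nonneg _) (bk_mono hl hlj2 (t x)) 2
    have h3 : 0 ≤ 16 / lam * (‖bk ((j : ℝ) + 1) (t x)‖ ^ 2 -
      ‖bk ((l : ℝ) + 1) (t x)‖ ^ 2) := by
      apply mul_nonneg (by positivity); linarith
    by_cases hxB : x ∈ B
    · rw [indicator_of_mem hxB, inner_smul_right]
      have h4 := mul_le_mul_of_nonneg_left h1 (hζ x).1
      have h5 := mul_le_mul_of_nonneg_right (hζ x).2 (add_nonneg h2 h3)
      nlinarith
    · rw [indicator_of_notMem hxB, hζB x hxB]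
      simp only [zero_mul, zero_smul, inner_zero_right, mul_zero, add_zero]
      positivity)
  simp only [Pi.add_apply] at hmain
  rw [integral_add i1235 i6, integral_add i123 i45, integral_add i12 i3, integral_add i1 i2,
    integral_const_mul, integral_const_mul, integral_indicator hB,
    integral_add (i4.const_mul _) (i5.const_mul _), integral_const_mul, integral_const_mul,
    integral_const_mul] at hmain
  have h7 := mul_le_mul_of_nonneg_left he hL
  linarith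

end Pool.Agent.Helper1.JefP
end
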