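import Pool.Agent.Helper42.JefB.D1
import Pool.Agent.Helper42.JefB.B0

section
/-! # The space-time functional of the weak formulation -/

open MeasureTheory Set Filter Topology
open scoped ENNReal NNReal ContDiff

namespace Pool.Agent.Helper42.Jef

set_option maxHeartbeats 400000

variable {n : ℕ} {Ω : Set (Eu n)}

/-- bounded continuous-type weights: products of bounded measurable scalar functions with `L²`
pairings are integrable -/
theorem integrable_bdd_mul {α : Type*} [MeasurableSpace α] {μ : Measure α} {ζ f : α → ℝ}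
    (hf : Integrable f μ) (hζ : AEStronglyMeasurable ζ μ) {C : ℝ} (hC : ∀ x, |ζ x| ≤ C) :
    Integrable (fun x => ζ x * f x) μ := hf.bdd_mul hζ (Eventually.of_forall hC)

/-- time test functions are bounded, with bounded derivative -/
theorem IsTime.bounded {a b : ℝ} {η : ℝ → ℝ} (h : IsTime a b η) :
    (∃ C : ℝ, ∀ t, |η t| ≤ C) ∧ ∃ C : ℝ, ∀ t, |deriv η t| ≤ C := by
  constructor
  · obtain ⟨C, hC⟩ := h.smooth.continuous.bounded_above_of_compact_support h.cpt
    exact ⟨C, hC⟩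
  · have h1 : Continuous (deriv η) := h.smooth.continuous_deriv (by simp)
    obtain ⟨C, hC⟩ := h1.bounded_above_of_compact_support h.cpt.deriv
    exact ⟨C, hC⟩

theorem IsTime.cont {a b : ℝ} {η : ℝ → ℝ} (h : IsTime a b η) : Continuous η := h.smooth.continuous

theorem IsTime.dcont {a b : ℝ} {η : ℝ → ℝ} (h : IsTime a b η) : Continuous (deriv η) :=
  h.smooth.continuous_deriv (by simp)

theorem IsTime.diff {a b : ℝ} {η : ℝ → ℝ} (h : IsTime a b η) : Differentiable ℝ η :=
  h.smooth.differentiable (by simp)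

/-- integrand of the weak formulation, for a pair `V` of test fields -/
noncomputable def LLi (μ a c : ℝ) (v : ST n → Eu n) (G τ S : ST n → Mt n) (η : ℝ → ℝ) (V : DD Ω)
    (z : ST n) : ℝ :=
  deriv η z.1 * (inner ℝ (v z) (vf V z.2) + inner ℝ (τ z) (tf V z.2)) +
    η z.1 * (inner ℝ (v z) (fderiv ℝ (vf V) z.2 (v z)) + inner ℝ (τ z) (fderiv ℝ (tf V) z.2 (v z)) -
      inner ℝ (br (τ z) (S z)) (tf V z.2) - μ * inner ℝ (G z) (grad (vf V) z.2) -
      c * inner ℝ (τ z) (sy (grad (vf V) z.2)) - a * inner ℝ (τ z) (tf V z.2) +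
      c * inner ℝ (sy (G z)) (tf V z.2))

section pieces

variable {E F : Type*} [NormedAddCommGroup E] [InnerProductSpace ℝ E]
  [NormedAddCommGroup F] [InnerProductSpace ℝ F]

/-- pairing of an `L²` field with a time coefficient times a compactly supported field:
the product test function is in `L²` -/
theorem memLp_test {η : ℝ → ℝ} (hη : Continuous η) (hηc : HasCompactSupport η) {φ : Eu n → E}
    (hφ : Continuous φ) (hφc : HasCompactSupport φ) :
    MemLp (fun z : ST n => η z.1 • φ z.2) 2 volume :=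
  memLp_prod_smul (hη.memLp_of_hasCompactSupport hηc) (hφ.memLp_of_hasCompactSupport hφc)

theorem int_lin {u : ST n → E} (hu : MemLp u 2 volume) {η : ℝ → ℝ} (hη : Continuous η)
    (hηc : HasCompactSupport η) {φ : Eu n → E} (hφ : Continuous φ) (hφc : HasCompactSupport φ) :
    Integrable (fun z : ST n => η z.1 * inner ℝ (u z) (φ z.2)) := by
  have := memLp_inner_integrable hu (memLp_test hη hηc hφ hφc)
  refine this.congr (Eventually.of_forall fun z => ?_)
  simp only [inner_smul_right]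

/-- quadratic terms with a bounded continuous coefficient -/
theorem int_quad {u : ST n → E} {w : ST n → F} (hu : MemLp u 2 volume) (hw : MemLp w 2 volume)
    {f : ST n → ℝ} (hf : AEStronglyMeasurable f volume) {C : ℝ}
    (hC : ∀ z, |f z| ≤ C * (‖u z‖ * ‖w z‖)) : Integrable f := by
  have h1 : Integrable (fun z => C * (‖u z‖ * ‖w z‖)) :=
    (hu.norm.integrable_mul hw.norm).const_mul C
  exact h1.mono' hf (Eventually.of_forall hC)

end pieces

/-- convection term -/
theorem int_conv {E : Type*} [NormedAddCommGroup E] [InnerProductSpace ℝ E] [FiniteDimensional ℝ E]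
    {u : ST n → E} {v : ST n → Eu n} (hu : MemLp u 2 volume)
    (hv : MemLp v 2 volume) {η : ℝ → ℝ} (hη : Continuous η) (hηc : HasCompactSupport η)
    {φ : Eu n → E} (hφ : ContDiff ℝ ∞ φ) (hφc : HasCompactSupport φ) :
    Integrable (fun z : ST n => η z.1 * inner ℝ (u z) (fderiv ℝ φ z.2 (v z))) := by
  obtain ⟨C1, hC1⟩ := hη.bounded_above_of_compact_support hηc
  have hd : Continuous (fderiv ℝ φ) := hφ.continuous_fderiv (by simp)
  obtain ⟨C2, hC2⟩ := hd.bounded_above_of_compact_support (hφc.fderiv (𝕜 := ℝ))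
  have hC10 : 0 ≤ C1 := (norm_nonneg _).trans (hC1 0)
  have hC20 : 0 ≤ C2 := (norm_nonneg _).trans (hC2 0)
  refine int_quad (C := C1 * C2) hu hv ?_ fun z => ?_
  · have h1 : AEStronglyMeasurable (fun z : ST n => fderiv ℝ φ z.2 (v z)) volume := by
      have h2 : Continuous fun z : ST n => fderiv ℝ φ z.2 := hd.comp continuous_snd
      exact (ContinuousLinearMap.apply ℝ E).flip.aestronglyMeasurable_comp₂
        h2.aestronglyMeasurable hv.1
    exact ((hη.comp continuous_fst).aestronglyMeasurable).mul (hu.1.inner h1)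
  · rw [abs_mul]
    calc |η z.1| * |inner ℝ (u z) (fderiv ℝ φ z.2 (v z))|
        ≤ C1 * (‖u z‖ * (C2 * ‖v z‖)) := by
          refine mul_le_mul (hC1 _) ?_ (abs_nonneg _) hC10
          refine (abs_real_inner_le_norm _ _).trans ?_
          refine mul_le_mul_of_nonneg_left ?_ (norm_nonneg _)
          exact (ContinuousLinearMap.le_opNorm _ _).trans
            (mul_le_mul_of_nonneg_right (hC2 _) (norm_nonneg _))
      _ = C1 * C2 * (‖u z‖ * ‖v z‖) := by ring

/-- commutator term -/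
theorem int_br {τ S : ST n → Mt n} (hτ : MemLp τ 2 volume)
    (hS : MemLp S 2 volume) {η : ℝ → ℝ} (hη : Continuous η) (hηc : HasCompactSupport η)
    {φ : Eu n → Mt n} (hφ : Continuous φ) (hφc : HasCompactSupport φ) :
    Integrable (fun z : ST n => η z.1 * inner ℝ (br (τ z) (S z)) (φ z.2)) := by
  obtain ⟨C1, hC1⟩ := hη.bounded_above_of_compact_support hηc
  obtain ⟨C2, hC2⟩ := hφ.bounded_above_of_compact_support hφc
  have hC10 : 0 ≤ C1 := (norm_nonneg _).trans (hC1 0)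
  have hC20 : 0 ≤ C2 := (norm_nonneg _).trans (hC2 0)
  refine int_quad (C := C1 * (2 * C2)) hτ hS ?_ fun z => ?_
  · have h1 : AEStronglyMeasurable (fun z : ST n => br (τ z) (S z)) volume :=
      (brL n).aestronglyMeasurable_comp₂ hτ.1 hS.1
    exact ((hη.comp continuous_fst).aestronglyMeasurable).mul
      (h1.inner (hφ.comp continuous_snd).aestronglyMeasurable)
  · rw [abs_mul]
    calc |η z.1| * |inner ℝ (br (τ z) (S z)) (φ z.2)|
        ≤ C1 * ((2 * (‖τ z‖ * ‖S z‖)) * C2) := by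
          refine mul_le_mul (hC1 _) ?_ (abs_nonneg _) hC10
          refine (abs_real_inner_le_norm _ _).trans ?_
          exact mul_le_mul (norm_br_le _ _) (hC2 _) (norm_nonneg _) (by positivity)
      _ = C1 * (2 * C2) * (‖τ z‖ * ‖S z‖) := by ring

theorem LLi_int {μ a c : ℝ} {v : ST n → Eu n} {G τ S : ST n → Mt n} (hv : MemLp v 2 volume)
    (hG : MemLp G 2 volume) (hτ : MemLp τ 2 volume) (hS : MemLp S 2 volume) {s b : ℝ}
    {η : ℝ → ℝ} (hη : IsTime s b η) (V : DD Ω) : Integrable (LLi μ a c v G τ S η V) := by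
  have c1 := hη.cont
  have c2 := hη.dcont
  have k1 := hη.cpt
  have k2 : HasCompactSupport (deriv η) := hη.cpt.deriv
  have cs : Continuous (fun x => sy (grad (vf V) x)) := sy_cont (vf_vt V).grad_cont
  have ks : HasCompactSupport (fun x => sy (grad (vf V) x)) := by
    refine (vf_vt V).grad_cpt.mono' fun x hx => subset_closure fun h0 => hx ?_
    have h0' : grad (vf V) x = 0 := h0
    show sy (grad (vf V) x) = 0
    rw [h0']; exact (syL n).map_zero
  have hsG : MemLp (fun z => sy (G z)) 2 volume := (syL n).comp_memLp' hG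
  have i1 := int_lin hv c2 k2 (vf_smooth V).continuous (vf_cpt V)
  have i2 := int_lin hτ c2 k2 (tf_smooth V).continuous (tf_cpt V)
  have i3 := int_conv hv hv c1 k1 (vf_smooth V) (vf_cpt V)
  have i4 := int_conv hτ hv c1 k1 (tf_smooth V) (tf_cpt V)
  have i5 := int_br hτ hS c1 k1 (tf_smooth V).continuous (tf_cpt V)
  have i6 := (int_lin hG c1 k1 (vf_vt V).grad_cont (vf_vt V).grad_cpt).const_mul μ
  have i7 := (int_lin hτ c1 k1 cs ks).const_mul c
  have i8 := (int_lin hτ c1 k1 (tf_smooth V).continuous (tf_cpt V)).const_mul a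
  have i9 := (int_lin hsG c1 k1 (tf_smooth V).continuous (tf_cpt V)).const_mul c
  have h := ((i1.add i2).add (((((((i3.add i4).sub i5).sub i6).sub i7).sub i8)).add i9))
  refine h.congr (Eventually.of_forall fun z => ?_)
  simp only [Pi.add_apply, Pi.sub_apply, LLi]
  ring

end Pool.Agent.Helper42.Jef
end

section
/-! # Galerkin solutions -/

open MeasureTheory Set Filter Topology
open scoped ENNReal NNReal ContDiff

namespace Pool.Agent.Helper42.Jef

set_option maxHeartbeats 400000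

variable {n : ℕ} {Ω : Set (Eu n)}

/-- global solution, extended continuously to all times -/
theorem ode_global_cont {S : Type*} [NormedAddCommGroup S] [InnerProductSpace ℝ S]
    [FiniteDimensional ℝ S] (b : S →ₗ[ℝ] S →ₗ[ℝ] S →ₗ[ℝ] ℝ) (l : S →ₗ[ℝ] S →ₗ[ℝ] ℝ)
    (F : ℝ → S) (hF : Continuous F) (hb : ∀ x, b x x x = 0) (hl : ∀ x, l x x ≤ 0)
    {T : ℝ} (hT : 0 < T) (U0 : S) :
    ∃ U : ℝ → S, U 0 = U0 ∧ Continuous U ∧ ∀ t ∈ Ioo 0 T,
      HasDerivAt U (gf b l (U t) + F t) t := by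
  obtain ⟨U, h0, hc, hd⟩ := ode_global' b l F hF hb hl hT U0
  let U' : ℝ → S := fun t => U (max 0 (min t T))
  have hm : ∀ t, max 0 (min t T) ∈ Icc 0 T := fun t =>
    ⟨le_max_left _ _, max_le hT.le (min_le_right _ _)⟩
  have he : ∀ t ∈ Icc 0 T, U' t = U t := by
    intro t ht
    simp only [U', min_eq_left ht.2, max_eq_right ht.1]
  refine ⟨U', ?_, ?_, ?_⟩
  · rw [he 0 ⟨le_rfl, hT.le⟩, h0]
  · exact hc.comp_continuous (by fun_prop) hm
  · intro t ht
    have ht' := Ioo_subset_Icc_self ht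
    rw [he t ht']
    have h1 : HasDerivAt U (gf b l (U t) + F t) t := (hd t ht').hasDerivAt (Icc_mem_nhds ht.1 ht.2)
    refine h1.congr_of_eventuallyEq ?_
    filter_upwards [Icc_mem_nhds ht.1 ht.2] with s hs
    exact he s hs

/-! ## mollified spin in `L²` -/

theorem mspin_eq (Ω : Set (Eu n)) (δ : ℝ) (G : ST n → Mt n) :
    mspin Ω δ G = (univ ×ˢ Ω : Set (ST n)).indicator (spc (ro δ) fun z => sp (G z)) := by
  funext z
  by_cases hz : z.2 ∈ Ω
  · rw [indicator_of_mem (by exact ⟨trivial, hz⟩)]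
    simp only [mspin, indicator_of_mem hz]
    rfl
  · rw [indicator_of_notMem (by exact fun h => hz h.2)]
    simp only [mspin, indicator_of_notMem hz]

theorem sp_memLp {G : ST n → Mt n} (hG : MemLp G 2 volume) : MemLp (fun z => sp (G z)) 2 volume :=
  (spL n).comp_memLp' hG

theorem mspin_memLp (hΩ : MeasurableSet Ω) {δ : ℝ} (hδ : 0 < δ) {G : ST n → Mt n}
    (hG : MemLp G 2 volume) : MemLp (mspin Ω δ G) 2 volume := by
  rw [mspin_eq]
  exact (spc_memLp (ro_integrable hδ) (sp_memLp hG)).indicator (MeasurableSet.univ.prod hΩ)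

theorem mspin_antisym (Ω : Set (Eu n)) (δ : ℝ) (G : ST n → Mt n) (z : ST n) :
    tr (mspin Ω δ G z) = - mspin Ω δ G z := by
  rw [mspin_eq]
  by_cases hz : z ∈ (univ ×ˢ Ω : Set (ST n))
  · rw [indicator_of_mem hz]
    simp only [spc]
    by_cases hi : Integrable (fun y => ro δ (z.2 - y) • sp (G (z.1, y)))
    · have h1 : tr (∫ y, ro δ (z.2 - y) • sp (G (z.1, y))) =
          ∫ y, tr (ro δ (z.2 - y) • sp (G (z.1, y))) :=
        ((trL n).integral_comp_comm hi).symm
      rw [h1, ← integral_neg]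
      refine integral_congr_ae (Eventually.of_forall fun y => ?_)
      simp only [tr_smul, tr_sp, smul_neg]
    · rw [integral_undef hi, neg_zero]
      exact (trL n).map_zero
  · rw [indicator_of_notMem hz, neg_zero]
    exact (trL n).map_zero

/-! ## the space-time fields of a curve in a finite dimensional space of test fields -/

noncomputable def gv (T : ℝ) (U : ℝ → DD Ω) (z : ST n) : Eu n :=
  (Ioo 0 T).indicator (fun t => vf (U t) z.2) z.1
noncomputable def gG (T : ℝ) (U : ℝ → DD Ω) (z : ST n) : Mt n :=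
  (Ioo 0 T).indicator (fun t => grad (vf (U t)) z.2) z.1
noncomputable def gt (T : ℝ) (U : ℝ → DD Ω) (z : ST n) : Mt n :=
  (Ioo 0 T).indicator (fun t => tf (U t) z.2) z.1

theorem grad_sum {ι : Type*} (s : Finset ι) (c : ι → ℝ) (e : ι → DD Ω) (x : Eu n) :
    grad (vf (∑ i ∈ s, c i • e i)) x = ∑ i ∈ s, c i • grad (vf (e i)) x := by
  classical
  induction s using Finset.induction_on with
  | empty =>
    simp only [Finset.sum_empty, vf_zero]
    rw [grad_eq]; simp
  | insert a s ha ih =>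
    rw [Finset.sum_insert ha, Finset.sum_insert ha, vf_add, grad_add (vf_diff _) (vf_diff _), ih,
      vf_smul, grad_smul (vf_diff _)]

section curve

variable (S : Submodule ℝ (DD Ω)) [FiniteDimensional ℝ S]

/-- coefficients of a curve in the orthonormal basis, cut off outside `(0,T)` -/
noncomputable def cf (T : ℝ) (U : ℝ → S) (i : Fin (Module.finrank ℝ S)) (t : ℝ) : ℝ :=
  (Ioo 0 T).indicator (fun t => inner ℝ (stdOrthonormalBasis ℝ S i) (U t)) t

variable {S}

theorem cf_meas (T : ℝ) {U : ℝ → S} (hU : Continuous U) (i : Fin (Module.finrank ℝ S)) :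
    Measurable (cf S T U i) := by
  have h1 : Continuous fun t => inner ℝ (stdOrthonormalBasis ℝ S i) (U t) :=
    continuous_const.inner hU
  exact h1.measurable.indicator measurableSet_Ioo

theorem cf_bdd {T : ℝ} (hT : 0 < T) {U : ℝ → S} (hU : Continuous U)
    (i : Fin (Module.finrank ℝ S)) : ∃ C : ℝ, ∀ t, |cf S T U i t| ≤ C := by
  have h1 : Continuous fun t => inner ℝ (stdOrthonormalBasis ℝ S i) (U t) :=
    continuous_const.inner hU
  obtain ⟨C, hC⟩ := (isCompact_Icc (a := (0:ℝ)) (b := T)).exists_bound_of_continuousOn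
    h1.continuousOn
  have hC0 : 0 ≤ C := (norm_nonneg _).trans (hC 0 ⟨le_rfl, hT.le⟩)
  refine ⟨C, fun t => ?_⟩
  by_cases ht : t ∈ Ioo 0 T
  · simp only [cf, indicator_of_mem ht]
    exact hC t (Ioo_subset_Icc_self ht)
  · simp only [cf, indicator_of_notMem ht, abs_zero]
    exact hC0

theorem cf_zero (T : ℝ) (U : ℝ → S) (i : Fin (Module.finrank ℝ S)) (t : ℝ) (ht : t ∉ Ioo 0 T) :
    cf S T U i t = 0 := by
  simp only [cf, indicator_of_notMem ht]

theorem curve_rep (x : S) : (x : DD Ω) = ∑ i, inner ℝ (stdOrthonormalBasis ℝ S i) x •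
    ((stdOrthonormalBasis ℝ S i : S) : DD Ω) := by
  conv_lhs => rw [← (stdOrthonormalBasis ℝ S).sum_repr' x]
  simp only [Submodule.coe_sum, Submodule.coe_smul]

theorem gv_rep (T : ℝ) (U : ℝ → S) (z : ST n) : gv T (fun t => (U t : DD Ω)) z =
    ∑ i, cf S T U i z.1 • vf ((stdOrthonormalBasis ℝ S i : S) : DD Ω) z.2 := by
  by_cases ht : z.1 ∈ Ioo 0 T
  · simp only [gv, cf, indicator_of_mem ht]
    rw [curve_rep (U z.1), vf_sum]
    simp only [vf_smul, Finset.sum_apply, Pi.smul_apply]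
  · simp only [gv, cf, indicator_of_notMem ht, zero_smul, Finset.sum_const_zero]

theorem gt_rep (T : ℝ) (U : ℝ → S) (z : ST n) : gt T (fun t => (U t : DD Ω)) z =
    ∑ i, cf S T U i z.1 • tf ((stdOrthonormalBasis ℝ S i : S) : DD Ω) z.2 := by
  by_cases ht : z.1 ∈ Ioo 0 T
  · simp only [gt, cf, indicator_of_mem ht]
    rw [curve_rep (U z.1), tf_sum]
    simp only [tf_smul, Finset.sum_apply, Pi.smul_apply]
  · simp only [gt, cf, indicator_of_notMem ht, zero_smul, Finset.sum_const_zero]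

theorem gG_rep (T : ℝ) (U : ℝ → S) (z : ST n) : gG T (fun t => (U t : DD Ω)) z =
    ∑ i, cf S T U i z.1 • grad (vf ((stdOrthonormalBasis ℝ S i : S) : DD Ω)) z.2 := by
  by_cases ht : z.1 ∈ Ioo 0 T
  · simp only [gG, cf, indicator_of_mem ht]
    rw [curve_rep (U z.1), grad_sum]
  · simp only [gG, cf, indicator_of_notMem ht, zero_smul, Finset.sum_const_zero]

theorem curve_elem {T : ℝ} (hT : 0 < T) {U : ℝ → S} (hU : Continuous U) :
    IsElem Ω T (gv T (fun t => (U t : DD Ω))) (gG T (fun t => (U t : DD Ω))) :=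
  ⟨_, cf S T U, fun i => vf ((stdOrthonormalBasis ℝ S i : S) : DD Ω), cf_meas T hU,
    cf_bdd hT hU, cf_zero T U, fun i => vf_vt _, gv_rep T U, gG_rep T U⟩

theorem curve_gt {T : ℝ} (hT : 0 < T) {U : ℝ → S} (hU : Continuous U) :
    MemLp (gt T (fun t => (U t : DD Ω))) 2 volume := by
  have h1 : gt T (fun t => (U t : DD Ω)) = fun z : ST n => ∑ i, cf S T U i z.1 •
      tf ((stdOrthonormalBasis ℝ S i : S) : DD Ω) z.2 := funext (gt_rep T U)
  rw [h1]
  refine memLp_finsetSum _ fun i _ => ?_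
  obtain ⟨C, hC⟩ := cf_bdd hT hU i
  exact memLp_prod_smul (memLp_coef (cf_meas T hU i) hC (cf_zero T U i) 2)
    (memLp_cc (tf_smooth _).continuous (tf_cpt _) 2)

end curve

theorem mspin_gG (T δ : ℝ) (U : ℝ → DD Ω) (z : ST n) :
    mspin Ω δ (gG T U) z = (Ioo 0 T).indicator (fun t => sm δ (U t) z.2) z.1 := by
  by_cases ht : z.1 ∈ Ioo 0 T
  · rw [indicator_of_mem ht]
    by_cases hx : z.2 ∈ Ω
    · simp only [mspin, sm, indicator_of_mem hx, mo, gG, indicator_of_mem ht]
    · simp only [mspin, sm, indicator_of_notMem hx]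
  · rw [indicator_of_notMem ht]
    by_cases hx : z.2 ∈ Ω
    · simp only [mspin, indicator_of_mem hx, mo, gG, indicator_of_notMem ht]
      have : sp (0 : Mt n) = 0 := (spL n).map_zero
      simp [this]
    · simp only [mspin, indicator_of_notMem hx]

end Pool.Agent.Helper42.Jef
end

section
/-! # Galerkin solutions: weak form and energy estimate -/

open MeasureTheory Set Filter Topology
open scoped ENNReal NNReal ContDiff

namespace Pool.Agent.Helper42.Jef

set_option maxHeartbeats 400000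

variable {n : ℕ} {Ω : Set (Eu n)}

/-- restriction of the trilinear form to a subspace -/
noncomputable def bS (hΩ : MeasurableSet Ω) {δ : ℝ} (hδ : 0 < δ) (S : Submodule ℝ (DD Ω)) :
    S →ₗ[ℝ] S →ₗ[ℝ] S →ₗ[ℝ] ℝ where
  toFun U := (bform hΩ hδ (U : DD Ω)).compl₁₂ S.subtype S.subtype
  map_add' U U' := by ext V Z; simp
  map_smul' c U := by ext V Z; simp

@[simp] theorem bS_apply (hΩ : MeasurableSet Ω) {δ : ℝ} (hδ : 0 < δ) (S : Submodule ℝ (DD Ω))
    (U V Z : S) : bS hΩ hδ S U V Z = bform hΩ hδ (U : DD Ω) (V : DD Ω) (Z : DD Ω) := rfl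

noncomputable def lS (μ a c : ℝ) (S : Submodule ℝ (DD Ω)) : S →ₗ[ℝ] S →ₗ[ℝ] ℝ :=
  (lform Ω μ a c).compl₁₂ S.subtype S.subtype

@[simp] theorem lS_apply (μ a c : ℝ) (S : Submodule ℝ (DD Ω)) (U V : S) :
    lS μ a c S U V = lform Ω μ a c (U : DD Ω) (V : DD Ω) := rfl

/-- Galerkin solution: continuous curve in `S` solving the projected equation -/
structure IsGal (hΩ : MeasurableSet Ω) {δ : ℝ} (hδ : 0 < δ) (T μ a c : ℝ)
    (S : Submodule ℝ (DD Ω)) [FiniteDimensional ℝ S] (F : ℝ → S) (U : ℝ → S) : Prop where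
  cont : Continuous U
  eq : ∀ t ∈ Ioo 0 T, HasDerivAt U (gf (bS hΩ hδ S) (lS μ a c S) (U t) + F t) t

theorem gal_exists (hΩ : MeasurableSet Ω) {δ : ℝ} (hδ : 0 < δ) {T μ a : ℝ} (hT : 0 < T)
    (hμ : 0 ≤ μ) (ha : 0 ≤ a) (c : ℝ) (S : Submodule ℝ (DD Ω)) [FiniteDimensional ℝ S]
    (F : ℝ → S) (hF : Continuous F) (U0 : S) :
    ∃ U : ℝ → S, U 0 = U0 ∧ IsGal hΩ hδ T μ a c S F U := by
  obtain ⟨U, h0, hc, hd⟩ := ode_global_cont (bS hΩ hδ S) (lS μ a c S) F hF
    (fun x => by rw [bS_apply]; exact bform_self hΩ hδ _)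
    (fun x => by
      rw [lS_apply, lform_self]
      have h1 : 0 ≤ ∫ y, ‖grad (vf (x : DD Ω)) y‖ ^ 2 := integral_nonneg fun y => by positivity
      have h2 : 0 ≤ ∫ y, ‖tf (x : DD Ω) y‖ ^ 2 := integral_nonneg fun y => by positivity
      nlinarith [mul_nonneg hμ h1, mul_nonneg ha h2]) hT U0
  exact ⟨U, h0, hc, hd⟩

section weak

variable {hΩ : MeasurableSet Ω} {δ : ℝ} {hδ : 0 < δ} {T μ a c : ℝ}
  {S : Submodule ℝ (DD Ω)} [FiniteDimensional ℝ S] {F : ℝ → S} {U : ℝ → S}

theorem slice_eq (T : ℝ) {μ a c δ : ℝ} (η : ℝ → ℝ) (W : ℝ → DD Ω) (V : DD Ω) (t : ℝ) (x : Eu n)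
    (ht : t ∈ Ioo 0 T) :
    LLi μ a c (gv T W) (gG T W) (gt T W) (mspin Ω δ (gG T W)) η V (t, x) =
      deriv η t * (inner ℝ (vf (W t) x) (vf V x) + inner ℝ (tf (W t) x) (tf V x)) +
        η t * (Ib δ (W t) (W t) V x + Il μ a c (W t) V x) := by
  have h1 : gv T W (t, x) = vf (W t) x := by simp only [gv, indicator_of_mem ht]
  have h2 : gG T W (t, x) = grad (vf (W t)) x := by simp only [gG, indicator_of_mem ht]
  have h3 : gt T W (t, x) = tf (W t) x := by simp only [gt, indicator_of_mem ht]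
  have h4 : mspin Ω δ (gG T W) (t, x) = sm δ (W t) x := by
    rw [mspin_gG]; simp only [indicator_of_mem ht]
  simp only [LLi, h1, h2, h3, h4, Ib, Il]
  ring

theorem slice_zero (T : ℝ) {μ a c δ : ℝ} (η : ℝ → ℝ) (W : ℝ → DD Ω) (V : DD Ω) (t : ℝ) (x : Eu n)
    (ht : t ∉ Ioo 0 T) :
    LLi μ a c (gv T W) (gG T W) (gt T W) (mspin Ω δ (gG T W)) η V (t, x) = 0 := by
  have h1 : gv T W (t, x) = 0 := by simp only [gv, indicator_of_notMem ht]
  have h2 : gG T W (t, x) = 0 := by simp only [gG, indicator_of_notMem ht]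
  have h3 : gt T W (t, x) = 0 := by simp only [gt, indicator_of_notMem ht]
  have h4 : sy (0 : Mt n) = 0 := (syL n).map_zero
  simp only [LLi, h1, h2, h3, h4, br_zero_left, inner_zero_left, map_zero, inner_zero_right,
    mul_zero, add_zero, sub_zero]

theorem slice_int (hΩ : MeasurableSet Ω) (hδ : 0 < δ) (η : ℝ → ℝ) (W : DD Ω) (V : DD Ω) (t : ℝ) :
    ∫ x, (deriv η t * (inner ℝ (vf W x) (vf V x) + inner ℝ (tf W x) (tf V x)) +
        η t * (Ib δ W W V x + Il μ a c W V x)) =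
      deriv η t * inner ℝ W V + η t * (bform hΩ hδ W W V + lform Ω μ a c W V) := by
  have h1 : Integrable (fun x => inner ℝ (vf W x) (vf V x) + inner ℝ (tf W x) (tf V x)) :=
    (int_vv W V).add (int_tt W V)
  have h2 : Integrable (fun x => Ib δ W W V x + Il μ a c W V x) :=
    (Ib_int hΩ hδ W W V).add (Il_int μ a c W V)
  rw [integral_add (h1.const_mul _) (h2.const_mul _), integral_const_mul, integral_const_mul,
    integral_add (int_vv W V) (int_tt W V), integral_add (Ib_int hΩ hδ W W V) (Il_int μ a c W V)]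
  rfl

/-- weak form of the Galerkin equation, as a space-time identity -/
theorem gal_weak (h : IsGal hΩ hδ T μ a c S F U) (hF : Continuous F) (hT : 0 < T) {η : ℝ → ℝ}
    (hη : IsTime (-1) T η) (V : S) :
    (∫ z, LLi μ a c (gv T fun t => (U t : DD Ω)) (gG T fun t => (U t : DD Ω))
      (gt T fun t => (U t : DD Ω)) (mspin Ω δ (gG T fun t => (U t : DD Ω))) η (V : DD Ω) z) +
      (∫ t in Ioo 0 T, η t * inner ℝ (F t) V) + η 0 * inner ℝ (U 0) V = 0 := by
  set W : ℝ → DD Ω := fun t => (U t : DD Ω) with hW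
  have hel := curve_elem hT h.cont
  have hgt := curve_gt hT h.cont
  have hms := mspin_memLp hΩ hδ hel.memLp.2
  have hint := LLi_int (μ := μ) (a := a) (c := c) hel.memLp.1 hel.memLp.2 hgt hms hη (V : DD Ω)
  -- reduce to a time integral
  have h1 : (∫ z, LLi μ a c (gv T W) (gG T W) (gt T W) (mspin Ω δ (gG T W)) η (V : DD Ω) z) =
      ∫ t, ∫ x, LLi μ a c (gv T W) (gG T W) (gt T W) (mspin Ω δ (gG T W)) η (V : DD Ω) (t, x) := by
    have hvol : (volume : Measure (ST n)) = (volume : Measure ℝ).prod (volume : Measure (Eu n)) :=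
      rfl
    rw [hvol]
    exact integral_prod _ hint
  let φ : ℝ → ℝ := fun t => deriv η t * inner ℝ (W t) (V : DD Ω) +
    η t * (bform hΩ hδ (W t) (W t) (V : DD Ω) + lform Ω μ a c (W t) (V : DD Ω))
  have h2 : ∀ t, ∫ x, LLi μ a c (gv T W) (gG T W) (gt T W) (mspin Ω δ (gG T W)) η (V : DD Ω) (t, x) =
      (Ioo 0 T).indicator φ t := by
    intro t
    by_cases ht : t ∈ Ioo 0 T
    · rw [indicator_of_mem ht]
      simp only [slice_eq T η W (V : DD Ω) t _ ht]
      exact slice_int hΩ hδ η (W t) (V : DD Ω) t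
    · rw [indicator_of_notMem ht]
      simp only [slice_zero T η W (V : DD Ω) t _ ht, integral_zero]
  rw [h1]
  simp only [h2]
  rw [integral_indicator measurableSet_Ioo]
  -- the fundamental theorem of calculus
  have hcont1 : Continuous (fun t => gf (bS hΩ hδ S) (lS μ a c S) (U t)) :=
    (gf_contDiff _ _).continuous.comp h.cont
  have hφc : Continuous φ := by
    have e1 : ∀ t, bform hΩ hδ (W t) (W t) (V : DD Ω) + lform Ω μ a c (W t) (V : DD Ω) =
        inner ℝ (gf (bS hΩ hδ S) (lS μ a c S) (U t)) V := by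
      intro t; rw [gf_inner]; rfl
    have e2 : ∀ t, inner ℝ (W t) (V : DD Ω) = inner ℝ (U t) V := fun t => rfl
    simp only [φ, e1, e2]
    exact (hη.dcont.mul (h.cont.inner continuous_const)).add
      (hη.cont.mul (hcont1.inner continuous_const))
  have hFc : Continuous fun t => η t * inner ℝ (F t) V :=
    hη.cont.mul (hF.inner continuous_const)
  have hder : ∀ t ∈ Ioo 0 T, HasDerivAt (fun t => η t * inner ℝ (U t) V)
      (φ t + η t * inner ℝ (F t) V) t := by
    intro t ht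
    have h3 := h.eq t ht
    have h4 : HasDerivAt (fun t => inner ℝ (U t) V)
        (inner ℝ (gf (bS hΩ hδ S) (lS μ a c S) (U t) + F t) V) t := by
      have := h3.inner ℝ (hasDerivAt_const t V)
      simpa using this
    have h5 := (hη.diff t).hasDerivAt.mul h4
    refine h5.congr_deriv ?_
    rw [inner_add_left, gf_inner, bS_apply, lS_apply]
    simp only [φ, hW]
    have e2 : inner ℝ (U t : DD Ω) (V : DD Ω) = inner ℝ (U t) V := rfl
    rw [e2]
    ring
  have hftc : ∫ t in (0:ℝ)..T, (φ t + η t * inner ℝ (F t) V) =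
      η T * inner ℝ (U T) V - η 0 * inner ℝ (U 0) V :=
    intervalIntegral.integral_eq_sub_of_hasDerivAt_of_le hT.le
      (hη.cont.mul (h.cont.inner continuous_const)).continuousOn hder
      ((hφc.add hFc).intervalIntegrable 0 T)
  have hηT : η T = 0 := by
    refine image_eq_zero_of_notMem_tsupport fun hc => ?_
    exact (lt_irrefl T) (hη.supp hc).2
  rw [hηT, zero_mul, zero_sub] at hftc
  have h6 : ∫ t in (0:ℝ)..T, (φ t + η t * inner ℝ (F t) V) =
      (∫ t in Ioo 0 T, φ t) + ∫ t in Ioo 0 T, η t * inner ℝ (F t) V := by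
    rw [intervalIntegral.integral_add (hφc.intervalIntegrable 0 T) (hFc.intervalIntegrable 0 T),
      intervalIntegral.integral_of_le hT.le, intervalIntegral.integral_of_le hT.le,
      integral_Ioc_eq_integral_Ioo, integral_Ioc_eq_integral_Ioo]
  rw [← h6, hftc]
  ring

end weak

end Pool.Agent.Helper42.Jef
end

section
/-! # Galerkin solutions: energy estimate -/

open MeasureTheory Set Filter Topology
open scoped ENNReal NNReal ContDiff

namespace Pool.Agent.Helper42.Jef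

set_option maxHeartbeats 400000

variable {n : ℕ} {Ω : Set (Eu n)}

section energy

variable {hΩ : MeasurableSet Ω} {δ : ℝ} {hδ : 0 < δ} {T μ a c : ℝ}
  {S : Submodule ℝ (DD Ω)} [FiniteDimensional ℝ S] {F : ℝ → S} {U : ℝ → S}

/-- Dirichlet integral of the velocity -/
noncomputable def dir (W : DD Ω) : ℝ := ∫ x, ‖grad (vf W) x‖ ^ 2

theorem dir_nonneg (W : DD Ω) : 0 ≤ dir W := integral_nonneg fun x => by positivity

theorem dir_eq (W : DD Ω) : dir W = - lform Ω 1 0 0 W W := by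
  rw [lform_self]; simp [dir]

theorem dir_cont {U : ℝ → S} (hU : Continuous U) : Continuous fun t => dir (U t : DD Ω) := by
  have h1 : ∀ t, dir (U t : DD Ω) = - inner ℝ (gf (0 : S →ₗ[ℝ] S →ₗ[ℝ] S →ₗ[ℝ] ℝ)
      (lS 1 0 0 S) (U t)) (U t) := by
    intro t
    rw [gf_inner, dir_eq]
    simp
  simp only [h1]
  exact (((gf_contDiff _ _).continuous.comp hU).inner hU).neg

theorem vsq_le (W : DD Ω) : ∫ x, ‖vf W x‖ ^ 2 ≤ ‖W‖ ^ 2 := by
  rw [dd_norm_sq]
  have : 0 ≤ ∫ x, ‖tf W x‖ ^ 2 := integral_nonneg fun x => by positivity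
  linarith

/-- pointwise energy inequality -/
theorem energy_alg {E2 D tt g e μ a inn : ℝ} {w : ℝ} (hμ : 0 < μ) (ha : 0 ≤ a) (hD : 0 ≤ D)
    (htt : 0 ≤ tt) (hg : 0 ≤ g) (he : 0 ≤ e) (hw : 0 ≤ w) (hE : E2 = w ^ 2)
    (hin : inn ≤ g * Real.sqrt (E2 + D) + e * w) :
    2 * (-(μ * D) - a * tt) + 2 * inn - E2 ≤ -(μ * D) + ((g + e) ^ 2 + g ^ 2 / μ) := by
  have h1 : Real.sqrt (E2 + D) ≤ w + Real.sqrt D := by
    rw [hE]
    rw [Real.sqrt_le_left (by positivity)]
    have := Real.sq_sqrt hD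
    nlinarith [Real.sqrt_nonneg D]
  have h2 : g * Real.sqrt (E2 + D) ≤ g * w + g * Real.sqrt D := by
    have := mul_le_mul_of_nonneg_left h1 hg
    linarith
  have h3 : 2 * (g * Real.sqrt D) ≤ g ^ 2 / μ + μ * D := by
    have hs := Real.sq_sqrt hD
    have h4 : 0 ≤ (g / Real.sqrt μ - Real.sqrt μ * Real.sqrt D) ^ 2 := sq_nonneg _
    have hsm : Real.sqrt μ ^ 2 = μ := Real.sq_sqrt hμ.le
    have hsm0 : 0 < Real.sqrt μ := Real.sqrt_pos.2 hμ
    have h5 : (g / Real.sqrt μ - Real.sqrt μ * Real.sqrt D) ^ 2 =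
        g ^ 2 / Real.sqrt μ ^ 2 - 2 * (g * Real.sqrt D) + Real.sqrt μ ^ 2 * Real.sqrt D ^ 2 := by
      field_simp
      ring
    rw [h5, hsm, hs] at h4
    linarith
  have h6 : 2 * ((g + e) * w) ≤ (g + e) ^ 2 + E2 := by
    rw [hE]; nlinarith [sq_nonneg (g + e - w)]
  have h7 : 0 ≤ a * tt := mul_nonneg ha htt
  nlinarith

theorem gal_energy (h : IsGal hΩ hδ T μ a c S F U) (hF : Continuous F) (hT : 0 < T)
    (hμ : 0 < μ) (ha : 0 ≤ a) {g e : ℝ → ℝ} (hg0 : ∀ t, 0 ≤ g t) (he0 : ∀ t, 0 ≤ e t)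
    (hgi : IntegrableOn (fun t => g t ^ 2) (Ioo 0 T))
    (hgei : IntegrableOn (fun t => (g t + e t) ^ 2) (Ioo 0 T))
    (hFb : ∀ᵐ t ∂(volume.restrict (Ioo 0 T)), ∀ V : S, |inner ℝ (F t) V| ≤
      g t * Real.sqrt ((∫ x, ‖vf (V : DD Ω) x‖ ^ 2) + ∫ x, ‖grad (vf (V : DD Ω)) x‖ ^ 2) +
        e t * ‖V‖) {t : ℝ} (ht : t ∈ Icc 0 T) :
    Real.exp (-t) * ‖U t‖ ^ 2 + ∫ s in Ioo 0 t, Real.exp (-s) * (μ * dir (U s : DD Ω)) ≤
      ‖U 0‖ ^ 2 + ∫ s in Ioo 0 t, ((g s + e s) ^ 2 + g s ^ 2 / μ) := by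
  have hgf : Continuous fun s => gf (bS hΩ hδ S) (lS μ a c S) (U s) + F s :=
    ((gf_contDiff _ _).continuous.comp h.cont).add hF
  let d : ℝ → ℝ := fun s => Real.exp (-s) *
    (2 * inner ℝ (U s) (gf (bS hΩ hδ S) (lS μ a c S) (U s) + F s) - ‖U s‖ ^ 2)
  have hdc : Continuous d := by
    refine (Real.continuous_exp.comp continuous_neg).mul ?_
    exact ((h.cont.inner hgf).const_mul 2 |> fun h => h).sub (h.cont.norm.pow 2)
  have hder : ∀ s ∈ Ioo 0 t, HasDerivAt (fun s => Real.exp (-s) * ‖U s‖ ^ 2) (d s) s := by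
    intro s hs
    have hs' : s ∈ Ioo 0 T := ⟨hs.1, hs.2.trans_le ht.2⟩
    have h1 : HasDerivAt (fun s => ‖U s‖ ^ 2)
        (2 * inner ℝ (U s) (gf (bS hΩ hδ S) (lS μ a c S) (U s) + F s)) s := (h.eq s hs').norm_sq
    have h2 : HasDerivAt (fun s : ℝ => Real.exp (-s)) (-Real.exp (-s)) s := by
      simpa using (hasDerivAt_neg s).exp
    refine (h2.mul h1).congr_deriv ?_
    simp only [d]; ring
  have hftc : ∫ s in (0:ℝ)..t, d s = Real.exp (-t) * ‖U t‖ ^ 2 - Real.exp (-0) * ‖U 0‖ ^ 2 :=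
    intervalIntegral.integral_eq_sub_of_hasDerivAt_of_le ht.1
      ((Real.continuous_exp.comp continuous_neg).mul (h.cont.norm.pow 2)).continuousOn hder
      (hdc.intervalIntegrable 0 t)
  rw [intervalIntegral.integral_of_le ht.1, integral_Ioc_eq_integral_Ioo] at hftc
  have hsub : Ioo 0 t ⊆ Ioo 0 T := Ioo_subset_Ioo le_rfl ht.2
  have hi1 : IntegrableOn (fun s => (g s + e s) ^ 2 + g s ^ 2 / μ) (Ioo 0 t) :=
    (hgei.mono_set hsub).add ((hgi.mono_set hsub).div_const μ)
  have hc2 : Continuous fun s => Real.exp (-s) * (μ * dir (U s : DD Ω)) :=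
    (Real.continuous_exp.comp continuous_neg).mul (continuous_const.mul (dir_cont h.cont))
  have hi2 : IntegrableOn (fun s => Real.exp (-s) * (μ * dir (U s : DD Ω))) (Ioo 0 t) :=
    (hc2.integrableOn_Icc (a := 0) (b := t)).mono_set Ioo_subset_Icc_self
  have hi3 : IntegrableOn d (Ioo 0 t) :=
    (hdc.integrableOn_Icc (a := 0) (b := t)).mono_set Ioo_subset_Icc_self
  have hle : ∫ s in Ioo 0 t, d s ≤ ∫ s in Ioo 0 t, (((g s + e s) ^ 2 + g s ^ 2 / μ) -
      Real.exp (-s) * (μ * dir (U s : DD Ω))) := by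
    refine integral_mono_ae hi3 (hi1.sub hi2) ?_
    have hFb' := ae_restrict_of_ae_restrict_of_subset hsub hFb
    filter_upwards [hFb', ae_restrict_mem measurableSet_Ioo] with s hs hs0
    have hin : inner ℝ (F s) (U s) ≤ g s * Real.sqrt (‖U s‖ ^ 2 + dir (U s : DD Ω)) +
        e s * ‖U s‖ := by
      refine (le_abs_self _).trans ((hs (U s)).trans ?_)
      refine add_le_add ?_ le_rfl
      refine mul_le_mul_of_nonneg_left (Real.sqrt_le_sqrt ?_) (hg0 s)
      exact add_le_add (vsq_le (U s : DD Ω)) le_rfl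
    have h2 : 0 ≤ ∫ x, ‖tf (U s : DD Ω) x‖ ^ 2 := integral_nonneg fun x => by positivity
    have halg := energy_alg hμ ha (dir_nonneg (U s : DD Ω)) h2 (hg0 s) (he0 s) (norm_nonneg (U s))
      rfl hin
    have hq : 2 * inner ℝ (U s) (gf (bS hΩ hδ S) (lS μ a c S) (U s) + F s) - ‖U s‖ ^ 2 =
        2 * (-(μ * dir (U s : DD Ω)) - a * ∫ x, ‖tf (U s : DD Ω) x‖ ^ 2) +
          2 * inner ℝ (F s) (U s) - ‖U s‖ ^ 2 := by
      rw [real_inner_comm, inner_add_left, gf_inner, bS_apply, bform_self, lS_apply, lform_self]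
      simp only [dir]
      ring
    simp only [d]
    rw [hq]
    have he1 : Real.exp (-s) ≤ 1 := by
      rw [Real.exp_le_one_iff]; linarith [hs0.1]
    have he2 : 0 < Real.exp (-s) := Real.exp_pos _
    have hX : 0 ≤ (g s + e s) ^ 2 + g s ^ 2 / μ := by positivity
    calc Real.exp (-s) * (2 * (-(μ * dir (U s : DD Ω)) - a * ∫ x, ‖tf (U s : DD Ω) x‖ ^ 2) +
          2 * inner ℝ (F s) (U s) - ‖U s‖ ^ 2)
        ≤ Real.exp (-s) * (-(μ * dir (U s : DD Ω)) + ((g s + e s) ^ 2 + g s ^ 2 / μ)) :=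
          mul_le_mul_of_nonneg_left halg he2.le
      _ = Real.exp (-s) * ((g s + e s) ^ 2 + g s ^ 2 / μ) -
          Real.exp (-s) * (μ * dir (U s : DD Ω)) := by ring
      _ ≤ _ := by
          have := mul_le_mul_of_nonneg_right he1 hX
          linarith
  rw [integral_sub hi1 hi2] at hle
  rw [hftc] at hle
  simp only [neg_zero, Real.exp_zero, one_mul] at hle
  linarith

end energy

end Pool.Agent.Helper42.Jef
end

section
/-! # Continuity of the space-time functional -/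

open MeasureTheory Set Filter Topology
open scoped ENNReal NNReal ContDiff

namespace Pool.Agent.Helper42.Jef

set_option maxHeartbeats 400000

variable {n : ℕ} {Ω : Set (Eu n)}

section tend

variable {E : Type*} [NormedAddCommGroup E] [InnerProductSpace ℝ E]

theorem tend_lin {us : ℕ → ST n → E} {u : ST n → E} (h : WC volume us u) {η : ℝ → ℝ}
    (hη : Continuous η) (hηc : HasCompactSupport η) {φ : Eu n → E} (hφ : Continuous φ)
    (hφc : HasCompactSupport φ) :
    Tendsto (fun m => ∫ z : ST n, η z.1 * inner ℝ (us m z) (φ z.2)) atTop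
      (𝓝 (∫ z : ST n, η z.1 * inner ℝ (u z) (φ z.2))) := by
  have h1 := h.conv _ (memLp_test hη hηc hφ hφc)
  simpa only [inner_smul_right] using h1

/-- strong `L²` convergence of `η D φ (v_m)` -/
theorem strong_D [FiniteDimensional ℝ E] {vs : ℕ → ST n → Eu n} {v : ST n → Eu n}
    (hvs : ∀ m, MemLp (vs m) 2 volume)
    (hv : MemLp v 2 volume)
    (hs : Tendsto (fun m => eLpNorm (fun z => vs m z - v z) 2 volume) atTop (𝓝 0)) {η : ℝ → ℝ}
    (hη : Continuous η) (hηc : HasCompactSupport η) {φ : Eu n → E} (hφ : ContDiff ℝ ∞ φ)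
    (hφc : HasCompactSupport φ) :
    (∀ m, MemLp (fun z : ST n => η z.1 • fderiv ℝ φ z.2 (vs m z)) 2 volume) ∧
    MemLp (fun z : ST n => η z.1 • fderiv ℝ φ z.2 (v z)) 2 volume ∧
    Tendsto (fun m => eLpNorm (fun z : ST n => η z.1 • fderiv ℝ φ z.2 (vs m z) -
      η z.1 • fderiv ℝ φ z.2 (v z)) 2 volume) atTop (𝓝 0) := by
  obtain ⟨C1, hC1⟩ := hη.bounded_above_of_compact_support hηc
  have hd : Continuous (fderiv ℝ φ) := hφ.continuous_fderiv (by simp)
  obtain ⟨C2, hC2⟩ := hd.bounded_above_of_compact_support (hφc.fderiv (𝕜 := ℝ))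
  have hC10 : 0 ≤ C1 := (norm_nonneg _).trans (hC1 0)
  have hC20 : 0 ≤ C2 := (norm_nonneg _).trans (hC2 0)
  have hm : ∀ {w : ST n → Eu n}, AEStronglyMeasurable w volume →
      AEStronglyMeasurable (fun z : ST n => η z.1 • fderiv ℝ φ z.2 (w z)) volume := by
    intro w hw
    have h2 : Continuous fun z : ST n => fderiv ℝ φ z.2 := hd.comp continuous_snd
    have h1 : AEStronglyMeasurable (fun z : ST n => fderiv ℝ φ z.2 (w z)) volume :=
      (ContinuousLinearMap.apply ℝ E).flip.aestronglyMeasurable_comp₂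
        h2.aestronglyMeasurable hw
    exact ((hη.comp continuous_fst).aestronglyMeasurable).smul h1
  have hb : ∀ (w : Eu n) (z : ST n), ‖η z.1 • fderiv ℝ φ z.2 w‖ ≤ (C1 * C2) * ‖w‖ := by
    intro w z
    rw [norm_smul]
    calc ‖η z.1‖ * ‖fderiv ℝ φ z.2 w‖ ≤ C1 * (C2 * ‖w‖) := by
          refine mul_le_mul (hC1 _) ?_ (norm_nonneg _) hC10
          exact (ContinuousLinearMap.le_opNorm _ _).trans
            (mul_le_mul_of_nonneg_right (hC2 _) (norm_nonneg _))
      _ = (C1 * C2) * ‖w‖ := by ring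
  have hmem : ∀ {w : ST n → Eu n}, MemLp w 2 volume →
      MemLp (fun z : ST n => η z.1 • fderiv ℝ φ z.2 (w z)) 2 volume := fun hw =>
    hw.of_le_mul (hm hw.1) (Eventually.of_forall fun z => hb _ z)
  refine ⟨fun m => hmem (hvs m), hmem hv, ?_⟩
  have h1 : ∀ m, eLpNorm (fun z : ST n => η z.1 • fderiv ℝ φ z.2 (vs m z) -
      η z.1 • fderiv ℝ φ z.2 (v z)) 2 volume ≤
      ENNReal.ofReal (C1 * C2) * eLpNorm (fun z => vs m z - v z) 2 volume := by
    intro m
    refine eLpNorm_le_mul_eLpNorm_of_ae_le_mul (Eventually.of_forall fun z => ?_) 2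
    rw [← smul_sub, ← map_sub]
    exact hb _ z
  have h2 : Tendsto (fun m => ENNReal.ofReal (C1 * C2) * eLpNorm (fun z => vs m z - v z) 2 volume)
      atTop (𝓝 0) := by
    have := ENNReal.Tendsto.const_mul hs (Or.inr (ENNReal.ofReal_ne_top (r := C1 * C2)))
    simpa using this
  exact tendsto_of_tendsto_of_tendsto_of_le_of_le tendsto_const_nhds h2 (fun _ => zero_le) h1

theorem tend_conv [FiniteDimensional ℝ E] {us : ℕ → ST n → E} {u : ST n → E}
    (h : WC volume us u) {vs : ℕ → ST n → Eu n}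
    {v : ST n → Eu n} (hvs : ∀ m, MemLp (vs m) 2 volume)
    (hv : MemLp v 2 volume)
    (hs : Tendsto (fun m => eLpNorm (fun z => vs m z - v z) 2 volume) atTop (𝓝 0)) {η : ℝ → ℝ}
    (hη : Continuous η) (hηc : HasCompactSupport η) {φ : Eu n → E} (hφ : ContDiff ℝ ∞ φ)
    (hφc : HasCompactSupport φ) :
    Tendsto (fun m => ∫ z : ST n, η z.1 * inner ℝ (us m z) (fderiv ℝ φ z.2 (vs m z))) atTop
      (𝓝 (∫ z : ST n, η z.1 * inner ℝ (u z) (fderiv ℝ φ z.2 (v z)))) := by
  obtain ⟨h1, h2, h3⟩ := strong_D hvs hv hs hη hηc hφ hφc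
  have h4 := wc_bilin_strong h h1 h2 h3 (innerSL ℝ)
  have e1 : ∀ {a : ST n → E} {w : ST n → Eu n},
      ∫ z : ST n, (innerSL ℝ (a z)) (η z.1 • fderiv ℝ φ z.2 (w z)) =
        ∫ z : ST n, η z.1 * inner ℝ (a z) (fderiv ℝ φ z.2 (w z)) := by
    intro a w
    refine integral_congr_ae (Eventually.of_forall fun z => ?_)
    show inner ℝ (a z) (η z.1 • fderiv ℝ φ z.2 (w z)) = _
    rw [inner_smul_right]
  simp only [e1] at h4
  exact h4

theorem tend_br {τs : ℕ → ST n → Mt n} {τ : ST n → Mt n} (h : WC volume τs τ)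
    {Ss : ℕ → ST n → Mt n} {S : ST n → Mt n} (hSs : ∀ m, MemLp (Ss m) 2 volume)
    (hS : MemLp S 2 volume)
    (hs : Tendsto (fun m => eLpNorm (fun z => Ss m z - S z) 2 volume) atTop (𝓝 0)) {η : ℝ → ℝ}
    (hη : Continuous η) (hηc : HasCompactSupport η) {φ : Eu n → Mt n} (hφ : Continuous φ)
    (hφc : HasCompactSupport φ) :
    Tendsto (fun m => ∫ z : ST n, η z.1 * inner ℝ (br (τs m z) (Ss m z)) (φ z.2)) atTop
      (𝓝 (∫ z : ST n, η z.1 * inner ℝ (br (τ z) (S z)) (φ z.2))) := by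
  obtain ⟨C1, hC1⟩ := hη.bounded_above_of_compact_support hηc
  obtain ⟨C2, hC2⟩ := hφ.bounded_above_of_compact_support hφc
  have hC10 : 0 ≤ C1 := (norm_nonneg _).trans (hC1 0)
  have hC20 : 0 ≤ C2 := (norm_nonneg _).trans (hC2 0)
  -- scalar weights
  have hpc : ∀ p : Fin n × Fin n, Continuous fun z : ST n => η z.1 * φ z.2 p := fun p =>
    (hη.comp continuous_fst).mul
      ((EuclideanSpace.proj (𝕜 := ℝ) p).continuous.comp (hφ.comp continuous_snd))
  have hpb : ∀ (p : Fin n × Fin n) (z : ST n), |η z.1 * φ z.2 p| ≤ C1 * C2 := by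
    intro p z
    rw [abs_mul]
    exact mul_le_mul (hC1 _) ((PiLp.norm_apply_le (φ z.2) p).trans (hC2 _)) (abs_nonneg _) hC10
  have hpp : ∀ p, Tendsto (fun m => ∫ z : ST n, (η z.1 * φ z.2 p) • br (τs m z) (Ss m z)) atTop
      (𝓝 (∫ z : ST n, (η z.1 * φ z.2 p) • br (τ z) (S z))) := fun p =>
    wc_mul_strong h hSs hS hs (brL n) (fun z : ST n => η z.1 * φ z.2 p)
      (hpc p).aestronglyMeasurable (C1 * C2) (hpb p)
  have hint : ∀ {a b : ST n → Mt n}, MemLp a 2 volume → MemLp b 2 volume → ∀ p,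
      Integrable (fun z : ST n => (η z.1 * φ z.2 p) • br (a z) (b z)) := by
    intro a b ha hb p
    have h1 : Integrable (fun z => br (a z) (b z)) volume := by
      have h2 : Integrable (fun x => ‖a x‖ * ‖b x‖) volume := ha.norm.integrable_mul hb.norm
      refine (h2.const_mul 2).mono' ((brL n).aestronglyMeasurable_comp₂ ha.1 hb.1)
        (Eventually.of_forall fun x => norm_br_le _ _)
    exact h1.bdd_smul (C1 * C2) (hpc p).aestronglyMeasurable (Eventually.of_forall (hpb p))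
  have hrep : ∀ {a b : ST n → Mt n}, MemLp a 2 volume → MemLp b 2 volume →
      ∫ z : ST n, η z.1 * inner ℝ (br (a z) (b z)) (φ z.2) =
      ∑ p, (∫ z : ST n, (η z.1 * φ z.2 p) • br (a z) (b z)) p := by
    intro a b ha hb
    have h1 : ∀ p, (∫ z : ST n, (η z.1 * φ z.2 p) • br (a z) (b z)) p =
        ∫ z : ST n, (η z.1 * φ z.2 p) * br (a z) (b z) p := by
      intro p
      have := (EuclideanSpace.proj (𝕜 := ℝ) p : Mt n →L[ℝ] ℝ).integral_comp_comm (hint ha hb p)
      exact this.symm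
    simp only [h1]
    rw [← integral_finsetSum]
    · refine integral_congr_ae (Eventually.of_forall fun z => ?_)
      simp only [PiLp.inner_apply, RCLike.inner_apply, conj_trivial, Finset.mul_sum]
      exact Finset.sum_congr rfl fun p _ => by ring
    · intro p _
      exact (EuclideanSpace.proj (𝕜 := ℝ) p : Mt n →L[ℝ] ℝ).integrable_comp (hint ha hb p)
  rw [hrep h.memU hS]
  have h5 : (fun m => ∫ z : ST n, η z.1 * inner ℝ (br (τs m z) (Ss m z)) (φ z.2)) =
      fun m => ∑ p, (∫ z : ST n, (η z.1 * φ z.2 p) • br (τs m z) (Ss m z)) p := by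
    funext m; exact hrep (h.mem m) (hSs m)
  rw [h5]
  refine tendsto_finsetSum _ fun p _ => ?_
  exact ((EuclideanSpace.proj (𝕜 := ℝ) p : Mt n →L[ℝ] ℝ).continuous.tendsto _).comp (hpp p)

end tend

theorem nine_int {α : Type*} [MeasurableSpace α] {μ : Measure α}
    {f1 f2 f3 f4 f5 f6 f7 f8 f9 : α → ℝ} (i1 : Integrable f1 μ) (i2 : Integrable f2 μ)
    (i3 : Integrable f3 μ) (i4 : Integrable f4 μ) (i5 : Integrable f5 μ) (i6 : Integrable f6 μ)
    (i7 : Integrable f7 μ) (i8 : Integrable f8 μ) (i9 : Integrable f9 μ) :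
    ∫ x, (f1 x + f2 x + f3 x + f4 x - f5 x - f6 x - f7 x - f8 x + f9 x) ∂μ =
    (∫ x, f1 x ∂μ) + (∫ x, f2 x ∂μ) + (∫ x, f3 x ∂μ) + (∫ x, f4 x ∂μ) - (∫ x, f5 x ∂μ) -
      (∫ x, f6 x ∂μ) - (∫ x, f7 x ∂μ) - (∫ x, f8 x ∂μ) + (∫ x, f9 x ∂μ) := by
  have j2 : Integrable (fun x => f1 x + f2 x) μ := i1.add i2
  have j3 : Integrable (fun x => f1 x + f2 x + f3 x) μ := j2.add i3
  have j4 : Integrable (fun x => f1 x + f2 x + f3 x + f4 x) μ := j3.add i4
  have j5 : Integrable (fun x => f1 x + f2 x + f3 x + f4 x - f5 x) μ := j4.sub i5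
  have j6 : Integrable (fun x => f1 x + f2 x + f3 x + f4 x - f5 x - f6 x) μ := j5.sub i6
  have j7 : Integrable (fun x => f1 x + f2 x + f3 x + f4 x - f5 x - f6 x - f7 x) μ := j6.sub i7
  have j8 : Integrable (fun x => f1 x + f2 x + f3 x + f4 x - f5 x - f6 x - f7 x - f8 x) μ :=
    j7.sub i8
  rw [integral_add j8 i9, integral_sub j7 i8, integral_sub j6 i7, integral_sub j5 i6,
    integral_sub j4 i5, integral_add j3 i4, integral_add j2 i3, integral_add i1 i2]

/-- convergence of the functional -/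
theorem LL_tendsto {μ a c : ℝ} {vs : ℕ → ST n → Eu n} {v : ST n → Eu n}
    {Gs τs Ss : ℕ → ST n → Mt n} {G τ S : ST n → Mt n} (hv : WC volume vs v)
    (hvs : Tendsto (fun m => eLpNorm (fun z => vs m z - v z) 2 volume) atTop (𝓝 0))
    (hG : WC volume Gs G) (hτ : WC volume τs τ) (hS : ∀ m, MemLp (Ss m) 2 volume)
    (hS' : MemLp S 2 volume)
    (hSs : Tendsto (fun m => eLpNorm (fun z => Ss m z - S z) 2 volume) atTop (𝓝 0))
    {s b : ℝ} {η : ℝ → ℝ} (hη : IsTime s b η) (V : DD Ω) :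
    Tendsto (fun m => ∫ z, LLi μ a c (vs m) (Gs m) (τs m) (Ss m) η V z) atTop
      (𝓝 (∫ z, LLi μ a c v G τ S η V z)) := by
  have c1 := hη.cont
  have c2 := hη.dcont
  have k1 := hη.cpt
  have k2 : HasCompactSupport (deriv η) := hη.cpt.deriv
  have cs : Continuous (fun x => sy (grad (vf V) x)) := sy_cont (vf_vt V).grad_cont
  have ks : HasCompactSupport (fun x => sy (grad (vf V) x)) := by
    refine (vf_vt V).grad_cpt.mono' fun x hx => subset_closure fun h0 => hx ?_
    have h0' : grad (vf V) x = 0 := h0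
    show sy (grad (vf V) x) = 0
    rw [h0']; exact (syL n).map_zero
  have hsG : WC volume (fun m z => sy (Gs m z)) (fun z => sy (G z)) := wc_clm hG (syL n)
  have hrep : ∀ {v : ST n → Eu n} {G τ S : ST n → Mt n}, MemLp v 2 volume → MemLp G 2 volume →
      MemLp τ 2 volume → MemLp S 2 volume → ∫ z, LLi μ a c v G τ S η V z =
      (∫ z : ST n, deriv η z.1 * inner ℝ (v z) (vf V z.2)) +
      (∫ z : ST n, deriv η z.1 * inner ℝ (τ z) (tf V z.2)) +
      (∫ z : ST n, η z.1 * inner ℝ (v z) (fderiv ℝ (vf V) z.2 (v z))) +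
      (∫ z : ST n, η z.1 * inner ℝ (τ z) (fderiv ℝ (tf V) z.2 (v z))) -
      (∫ z : ST n, η z.1 * inner ℝ (br (τ z) (S z)) (tf V z.2)) -
      μ * (∫ z : ST n, η z.1 * inner ℝ (G z) (grad (vf V) z.2)) -
      c * (∫ z : ST n, η z.1 * inner ℝ (τ z) (sy (grad (vf V) z.2))) -
      a * (∫ z : ST n, η z.1 * inner ℝ (τ z) (tf V z.2)) +
      c * (∫ z : ST n, η z.1 * inner ℝ (sy (G z)) (tf V z.2)) := by
    intro v G τ S hv hG hτ hS
    have hsG : MemLp (fun z => sy (G z)) 2 volume := (syL n).comp_memLp' hG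
    have i1 := int_lin hv c2 k2 (vf_smooth V).continuous (vf_cpt V)
    have i2 := int_lin hτ c2 k2 (tf_smooth V).continuous (tf_cpt V)
    have i3 := int_conv hv hv c1 k1 (vf_smooth V) (vf_cpt V)
    have i4 := int_conv hτ hv c1 k1 (tf_smooth V) (tf_cpt V)
    have i5 := int_br hτ hS c1 k1 (tf_smooth V).continuous (tf_cpt V)
    have i6 := (int_lin hG c1 k1 (vf_vt V).grad_cont (vf_vt V).grad_cpt).const_mul μ
    have i7 := (int_lin hτ c1 k1 cs ks).const_mul c
    have i8 := (int_lin hτ c1 k1 (tf_smooth V).continuous (tf_cpt V)).const_mul a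
    have i9 := (int_lin hsG c1 k1 (tf_smooth V).continuous (tf_cpt V)).const_mul c
    rw [← integral_const_mul, ← integral_const_mul, ← integral_const_mul, ← integral_const_mul,
      ← nine_int i1 i2 i3 i4 i5 i6 i7 i8 i9]
    refine integral_congr_ae (Eventually.of_forall fun z => ?_)
    simp only [LLi]
    ring
  rw [hrep hv.memU hG.memU hτ.memU hS']
  have hfun : (fun m => ∫ z, LLi μ a c (vs m) (Gs m) (τs m) (Ss m) η V z) = fun m =>
      (∫ z : ST n, deriv η z.1 * inner ℝ (vs m z) (vf V z.2)) +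
      (∫ z : ST n, deriv η z.1 * inner ℝ (τs m z) (tf V z.2)) +
      (∫ z : ST n, η z.1 * inner ℝ (vs m z) (fderiv ℝ (vf V) z.2 (vs m z))) +
      (∫ z : ST n, η z.1 * inner ℝ (τs m z) (fderiv ℝ (tf V) z.2 (vs m z))) -
      (∫ z : ST n, η z.1 * inner ℝ (br (τs m z) (Ss m z)) (tf V z.2)) -
      μ * (∫ z : ST n, η z.1 * inner ℝ (Gs m z) (grad (vf V) z.2)) -
      c * (∫ z : ST n, η z.1 * inner ℝ (τs m z) (sy (grad (vf V) z.2))) -
      a * (∫ z : ST n, η z.1 * inner ℝ (τs m z) (tf V z.2)) +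
      c * (∫ z : ST n, η z.1 * inner ℝ (sy (Gs m z)) (tf V z.2)) := by
    funext m
    exact hrep (hv.mem m) (hG.mem m) (hτ.mem m) (hS m)
  rw [hfun]
  have t1 := tend_lin hv c2 k2 (vf_smooth V).continuous (vf_cpt V)
  have t2 := tend_lin hτ c2 k2 (tf_smooth V).continuous (tf_cpt V)
  have t3 := tend_conv hv hv.mem hv.memU hvs c1 k1 (vf_smooth V) (vf_cpt V)
  have t4 := tend_conv hτ hv.mem hv.memU hvs c1 k1 (tf_smooth V) (tf_cpt V)
  have t5 := tend_br hτ hS hS' hSs c1 k1 (tf_smooth V).continuous (tf_cpt V)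
  have t6 := (tend_lin hG c1 k1 (vf_vt V).grad_cont (vf_vt V).grad_cpt).const_mul μ
  have t7 := (tend_lin hτ c1 k1 cs ks).const_mul c
  have t8 := (tend_lin hτ c1 k1 (tf_smooth V).continuous (tf_cpt V)).const_mul a
  have t9 := (tend_lin hsG c1 k1 (tf_smooth V).continuous (tf_cpt V)).const_mul c
  exact (((((((t1.add t2).add t3).add t4).sub t5).sub t6).sub t7).sub t8).add t9

end Pool.Agent.Helper42.Jef
end

section
/-! # Extension of the weak formulation from a dense family to all test fields -/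

open MeasureTheory Set Filter Topology
open scoped ENNReal NNReal ContDiff

namespace Pool.Agent.Helper42.Jef

set_option maxHeartbeats 400000

variable {n : ℕ} {Ω : Set (Eu n)}

theorem LLi_sub {μ a c : ℝ} {v : ST n → Eu n} {G τ S : ST n → Mt n} {η : ℝ → ℝ} (V W : DD Ω)
    (z : ST n) : LLi μ a c v G τ S η (V - W) z =
      LLi μ a c v G τ S η V z - LLi μ a c v G τ S η W z := by
  have hs : V - W = V + (-1 : ℝ) • W := by rw [neg_one_smul, sub_eq_add_neg]
  rw [hs]
  have h1 : fderiv ℝ (vf (V + (-1 : ℝ) • W)) z.2 = fderiv ℝ (vf V) z.2 +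
      (-1 : ℝ) • fderiv ℝ (vf W) z.2 := by
    rw [vf_add, vf_smul, fderiv_add (vf_diff V z.2) ((vf_diff W z.2).const_smul _),
      fderiv_const_smul (vf_diff W z.2)]
  have h2 : fderiv ℝ (tf (V + (-1 : ℝ) • W)) z.2 = fderiv ℝ (tf V) z.2 +
      (-1 : ℝ) • fderiv ℝ (tf W) z.2 := by
    rw [tf_add, tf_smul, fderiv_add (tf_diff V z.2) ((tf_diff W z.2).const_smul _),
      fderiv_const_smul (tf_diff W z.2)]
  have h3 : grad (vf (V + (-1 : ℝ) • W)) z.2 = grad (vf V) z.2 + (-1 : ℝ) • grad (vf W) z.2 := by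
    rw [grad_eq, h1, map_add, map_smul]; rfl
  have h4 : sy (grad (vf V) z.2 + (-1 : ℝ) • grad (vf W) z.2) =
      sy (grad (vf V) z.2) + (-1 : ℝ) • sy (grad (vf W) z.2) := by
    have := (syL n).map_add (grad (vf V) z.2) ((-1 : ℝ) • grad (vf W) z.2)
    rw [(syL n).map_smul] at this
    exact this
  have h5 : vf (V + (-1 : ℝ) • W) z.2 = vf V z.2 + (-1 : ℝ) • vf W z.2 := rfl
  have h6 : tf (V + (-1 : ℝ) • W) z.2 = tf V z.2 + (-1 : ℝ) • tf W z.2 := rfl
  unfold LLi
  rw [h1, h2, h3, h4, h5, h6]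
  simp only [_root_.add_apply, _root_.smul_apply, inner_add_right, inner_smul_right]
  ring

/-- `C¹` smallness of a pair of test fields -/
def Small (R ε : ℝ) (W : DD Ω) : Prop :=
  Van R W ∧ (∀ x, ‖vf W x‖ ≤ ε) ∧ (∀ x, ‖tf W x‖ ≤ ε) ∧ (∀ x, ‖fderiv ℝ (vf W) x‖ ≤ ε) ∧
    (∀ x, ‖fderiv ℝ (tf W) x‖ ≤ ε)

/-- operator norm of `gradL` -/
noncomputable def cg (n : ℕ) : ℝ := ‖LinearMap.toContinuousLinearMap (gradL n)‖

theorem cg_nonneg (n : ℕ) : 0 ≤ cg n := ContinuousLinearMap.opNorm_nonneg _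

theorem norm_grad_le (φ : Eu n → Eu n) (x : Eu n) : ‖grad φ x‖ ≤ cg n * ‖fderiv ℝ φ x‖ :=
  (LinearMap.toContinuousLinearMap (gradL n)).le_opNorm (fderiv ℝ φ x)

theorem LLi_bound {μ a c : ℝ} {v : ST n → Eu n} {G τ S : ST n → Mt n} {s b : ℝ} {η : ℝ → ℝ}
    (hv : MemLp v 2 volume) (hG : MemLp G 2 volume) (hτ : MemLp τ 2 volume)
    (hS : MemLp S 2 volume) (hη : IsTime s b η) (R : ℝ) :
    ∃ K : ℝ, ∀ ε : ℝ, 0 ≤ ε → ∀ W : DD Ω, Small R ε W →
      |∫ z, LLi μ a c v G τ S η W z| ≤ ε * K := by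
  obtain ⟨C1, hC1⟩ := hη.bounded.1
  obtain ⟨C2, hC2⟩ := hη.bounded.2
  have hC10 : 0 ≤ C1 := (abs_nonneg _).trans (hC1 0)
  have hC20 : 0 ≤ C2 := (abs_nonneg _).trans (hC2 0)
  set K : Set (ST n) := tsupport η ×ˢ Metric.closedBall (0 : Eu n) R with hK
  have hKc : IsCompact K := hη.cpt.isCompact.prod (isCompact_closedBall _ _)
  have hKm : MeasurableSet K := hKc.isClosed.measurableSet
  have hKf : volume K < ⊤ := hKc.measure_lt_top
  let k : ST n → ℝ := fun z => C2 * (‖v z‖ + ‖τ z‖) + C1 * (‖v z‖ * ‖v z‖ + ‖τ z‖ * ‖v z‖ +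
    2 * (‖τ z‖ * ‖S z‖) + |μ| * (cg n * ‖G z‖) + |c| * (cg n * ‖τ z‖) + |a| * ‖τ z‖ +
      |c| * ‖G z‖)
  have hl : ∀ {E : Type} [NormedAddCommGroup E] {u : ST n → E}, MemLp u 2 volume →
      IntegrableOn (fun z => ‖u z‖) K volume := by
    intro E _ u hu
    haveI : IsFiniteMeasure (volume.restrict K) := ⟨by rw [Measure.restrict_apply_univ]; exact hKf⟩
    have h1 : MemLp u 1 (volume.restrict K) := (hu.restrict K).mono_exponent (by norm_num)
    exact (memLp_one_iff_integrable.1 h1).norm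
  have hq : ∀ {E F : Type} [NormedAddCommGroup E] [NormedAddCommGroup F] {u : ST n → E}
      {w : ST n → F}, MemLp u 2 volume → MemLp w 2 volume →
      IntegrableOn (fun z => ‖u z‖ * ‖w z‖) K volume := fun hu hw =>
    (hu.norm.integrable_mul hw.norm).integrableOn
  have hk : IntegrableOn k K volume := by
    refine (((hl hv).add (hl hτ)).const_mul C2).add (Integrable.const_mul ?_ C1)
    exact (((((((hq hv hv).add (hq hτ hv)).add ((hq hτ hS).const_mul 2)).add
      (((hl hG).const_mul (cg n)).const_mul |μ|)).add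
      (((hl hτ).const_mul (cg n)).const_mul |c|)).add ((hl hτ).const_mul |a|)).add
      ((hl hG).const_mul |c|))
  refine ⟨∫ z in K, k z, fun ε hε W hW => ?_⟩
  obtain ⟨hvan, h1, h2, h3, h4⟩ := hW
  have hcg := cg_nonneg n
  have hpt : ∀ z, z ∈ K → |LLi μ a c v G τ S η W z| ≤ ε * k z := by
    intro z _
    have hg : ‖grad (vf W) z.2‖ ≤ cg n * ε :=
      (norm_grad_le _ _).trans (mul_le_mul_of_nonneg_left (h3 _) hcg)
    have b1 : |inner ℝ (v z) (vf W z.2)| ≤ ‖v z‖ * ε :=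
      (abs_real_inner_le_norm _ _).trans (mul_le_mul_of_nonneg_left (h1 _) (norm_nonneg _))
    have b2 : |inner ℝ (τ z) (tf W z.2)| ≤ ‖τ z‖ * ε :=
      (abs_real_inner_le_norm _ _).trans (mul_le_mul_of_nonneg_left (h2 _) (norm_nonneg _))
    have b3 : |inner ℝ (v z) (fderiv ℝ (vf W) z.2 (v z))| ≤ ‖v z‖ * (ε * ‖v z‖) := by
      refine (abs_real_inner_le_norm _ _).trans (mul_le_mul_of_nonneg_left ?_ (norm_nonneg _))
      exact (ContinuousLinearMap.le_opNorm _ _).trans
        (mul_le_mul_of_nonneg_right (h3 _) (norm_nonneg _))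
    have b4 : |inner ℝ (τ z) (fderiv ℝ (tf W) z.2 (v z))| ≤ ‖τ z‖ * (ε * ‖v z‖) := by
      refine (abs_real_inner_le_norm _ _).trans (mul_le_mul_of_nonneg_left ?_ (norm_nonneg _))
      exact (ContinuousLinearMap.le_opNorm _ _).trans
        (mul_le_mul_of_nonneg_right (h4 _) (norm_nonneg _))
    have b5 : |inner ℝ (br (τ z) (S z)) (tf W z.2)| ≤ (2 * (‖τ z‖ * ‖S z‖)) * ε := by
      refine (abs_real_inner_le_norm _ _).trans ?_
      exact mul_le_mul (norm_br_le _ _) (h2 _) (norm_nonneg _) (by positivity)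
    have b6 : |inner ℝ (G z) (grad (vf W) z.2)| ≤ ‖G z‖ * (cg n * ε) :=
      (abs_real_inner_le_norm _ _).trans (mul_le_mul_of_nonneg_left hg (norm_nonneg _))
    have b7 : |inner ℝ (τ z) (sy (grad (vf W) z.2))| ≤ ‖τ z‖ * (cg n * ε) :=
      (abs_real_inner_le_norm _ _).trans (mul_le_mul_of_nonneg_left
        ((norm_sy_le _).trans hg) (norm_nonneg _))
    have b9 : |inner ℝ (sy (G z)) (tf W z.2)| ≤ ‖G z‖ * ε := by
      refine (abs_real_inner_le_norm _ _).trans ?_
      exact mul_le_mul (norm_sy_le _) (h2 _) (norm_nonneg _) (norm_nonneg _)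
    have e1 : |deriv η z.1 * (inner ℝ (v z) (vf W z.2) + inner ℝ (τ z) (tf W z.2))| ≤
        C2 * (‖v z‖ * ε + ‖τ z‖ * ε) := by
      rw [abs_mul]
      exact mul_le_mul (hC2 _) ((abs_add_le _ _).trans (add_le_add b1 b2)) (abs_nonneg _) hC20
    have e2 : |inner ℝ (v z) (fderiv ℝ (vf W) z.2 (v z)) + inner ℝ (τ z) (fderiv ℝ (tf W) z.2 (v z)) -
      inner ℝ (br (τ z) (S z)) (tf W z.2) - μ * inner ℝ (G z) (grad (vf W) z.2) -
      c * inner ℝ (τ z) (sy (grad (vf W) z.2)) - a * inner ℝ (τ z) (tf W z.2) +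
      c * inner ℝ (sy (G z)) (tf W z.2)| ≤ ‖v z‖ * (ε * ‖v z‖) + ‖τ z‖ * (ε * ‖v z‖) +
        (2 * (‖τ z‖ * ‖S z‖)) * ε + |μ| * (‖G z‖ * (cg n * ε)) + |c| * (‖τ z‖ * (cg n * ε)) +
        |a| * (‖τ z‖ * ε) + |c| * (‖G z‖ * ε) := by
      have m6 : |μ * inner ℝ (G z) (grad (vf W) z.2)| ≤ |μ| * (‖G z‖ * (cg n * ε)) := by
        rw [abs_mul]; exact mul_le_mul_of_nonneg_left b6 (abs_nonneg _)
      have m7 : |c * inner ℝ (τ z) (sy (grad (vf W) z.2))| ≤ |c| * (‖τ z‖ * (cg n * ε)) := by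
        rw [abs_mul]; exact mul_le_mul_of_nonneg_left b7 (abs_nonneg _)
      have m8 : |a * inner ℝ (τ z) (tf W z.2)| ≤ |a| * (‖τ z‖ * ε) := by
        rw [abs_mul]; exact mul_le_mul_of_nonneg_left b2 (abs_nonneg _)
      have m9 : |c * inner ℝ (sy (G z)) (tf W z.2)| ≤ |c| * (‖G z‖ * ε) := by
        rw [abs_mul]; exact mul_le_mul_of_nonneg_left b9 (abs_nonneg _)
      rw [abs_le] at b3 b4 b5 m6 m7 m8 m9 ⊢
      constructor <;> linarith [b3.1, b3.2, b4.1, b4.2, b5.1, b5.2, m6.1, m6.2, m7.1, m7.2, m8.1,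
        m8.2, m9.1, m9.2]
    have e3 := mul_le_mul (hC1 z.1) e2 (abs_nonneg _) hC10
    rw [← abs_mul] at e3
    have e4 : LLi μ a c v G τ S η W z = deriv η z.1 * (inner ℝ (v z) (vf W z.2) +
      inner ℝ (τ z) (tf W z.2)) + η z.1 * (inner ℝ (v z) (fderiv ℝ (vf W) z.2 (v z)) +
      inner ℝ (τ z) (fderiv ℝ (tf W) z.2 (v z)) -
      inner ℝ (br (τ z) (S z)) (tf W z.2) - μ * inner ℝ (G z) (grad (vf W) z.2) -
      c * inner ℝ (τ z) (sy (grad (vf W) z.2)) - a * inner ℝ (τ z) (tf W z.2) +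
      c * inner ℝ (sy (G z)) (tf W z.2)) := rfl
    rw [e4]
    refine (abs_add_le _ _).trans ((add_le_add e1 e3).trans (le_of_eq ?_))
    simp only [k]; ring
  have hout : ∀ z, z ∉ K → LLi μ a c v G τ S η W z = 0 := by
    intro z hz
    by_cases h5 : z.1 ∈ tsupport η
    · have h6 : R < ‖z.2‖ := by
        by_contra h7
        exact hz ⟨h5, by rw [Metric.mem_closedBall, dist_zero_right]; linarith⟩
      have h7 := hvan z.2 h6
      have h8 := hvan.fderiv z.2 h6
      have h9 : grad (vf W) z.2 = 0 := by rw [grad_eq, h8.1, map_zero]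
      have h10 : sy (0 : Mt n) = 0 := (syL n).map_zero
      simp only [LLi, h7.1, h7.2, h8.1, h8.2, h9, h10, inner_zero_right,
        _root_.zero_apply, mul_zero, add_zero, sub_zero]
    · have h6 : η z.1 = 0 := image_eq_zero_of_notMem_tsupport h5
      have h7 : deriv η z.1 = 0 := by
        have : z.1 ∉ tsupport (deriv η) := fun h => h5 (tsupport_deriv_subset h)
        exact image_eq_zero_of_notMem_tsupport this
      simp only [LLi, h6, h7, zero_mul, add_zero]
  have hi := LLi_int (μ := μ) (a := a) (c := c) hv hG hτ hS hη W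
  have h5 : ∫ z, LLi μ a c v G τ S η W z = ∫ z in K, LLi μ a c v G τ S η W z := by
    rw [← integral_indicator hKm]
    refine integral_congr_ae (Eventually.of_forall fun z => ?_)
    by_cases hz : z ∈ K
    · simp only [indicator_of_mem hz]
    · simp only [indicator_of_notMem hz]; exact hout z hz
  rw [h5]
  calc |∫ z in K, LLi μ a c v G τ S η W z| ≤ ∫ z in K, |LLi μ a c v G τ S η W z| :=
        abs_integral_le_integral_abs
    _ ≤ ∫ z in K, ε * k z := by
        refine setIntegral_mono_on hi.abs.integrableOn (hk.const_mul ε) hKm fun z hz => hpt z hz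
    _ = ε * ∫ z in K, k z := integral_const_mul _ _

/-- smallness of the force functional -/
theorem force_bound {f : ℝ → (Eu n → Eu n) → ℝ} {g : ℝ → ℝ} (hf : IsForce Ω f g) (R : ℝ) :
    ∃ K : ℝ, 0 ≤ K ∧ ∀ ε : ℝ, 0 ≤ ε → ∀ W : DD Ω, Small R ε W → ∀ t,
      |f t (vf W)| ≤ g t * (ε * K) := by
  set B := Metric.closedBall (0 : Eu n) R
  have hB : volume B < ⊤ := (isCompact_closedBall _ _).measure_lt_top
  refine ⟨Real.sqrt ((1 + cg n ^ 2) * (volume B).toReal), Real.sqrt_nonneg _,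
    fun ε hε W hW t => ?_⟩
  obtain ⟨hvan, h1, h2, h3, h4⟩ := hW
  refine (hf.bound t _ (vf_vt W)).trans (mul_le_mul_of_nonneg_left ?_ (hf.gnn t))
  have hgen : ∀ {E : Type} [NormedAddCommGroup E] (u : Eu n → E) (C : ℝ), 0 ≤ C → (∀ x, ‖u x‖ ≤ C) →
      (∀ x, x ∉ B → u x = 0) → ∫ x, ‖u x‖ ^ 2 ≤ C ^ 2 * (volume B).toReal := by
    intro E _ u C hC hu h0
    have e1 : ∫ x, ‖u x‖ ^ 2 = ∫ x in B, ‖u x‖ ^ 2 := by
      rw [← integral_indicator Metric.isClosed_closedBall.measurableSet]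
      refine integral_congr_ae (Eventually.of_forall fun x => ?_)
      by_cases hx : x ∈ B
      · exact (indicator_of_mem hx (fun x => ‖u x‖ ^ 2)).symm
      · refine Eq.trans ?_ (indicator_of_notMem hx (fun x => ‖u x‖ ^ 2)).symm
        simp only [h0 x hx, norm_zero]; norm_num
    rw [e1]
    have e2 := norm_setIntegral_le_of_norm_le_const (μ := volume) (s := B)
      (f := fun x => ‖u x‖ ^ 2) (C := C ^ 2) hB (fun x _ => by
        rw [Real.norm_eq_abs, abs_of_nonneg (by positivity)]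
        exact pow_le_pow_left₀ (norm_nonneg _) (hu x) 2)
    refine (le_abs_self _).trans ?_
    rw [← Real.norm_eq_abs]
    exact e2
  have hout : ∀ x, x ∉ B → R < ‖x‖ := by
    intro x hx
    by_contra h5
    exact hx (by rw [Metric.mem_closedBall, dist_zero_right]; linarith)
  have i1 := hgen (vf W) ε hε h1 (fun x hx => (hvan x (hout x hx)).1)
  have i2 := hgen (grad (vf W)) (cg n * ε) (mul_nonneg (cg_nonneg n) hε)
    (fun x => (norm_grad_le _ _).trans (mul_le_mul_of_nonneg_left (h3 x) (cg_nonneg n)))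
    (fun x hx => by rw [grad_eq, (hvan.fderiv x (hout x hx)).1, map_zero])
  calc Real.sqrt ((∫ x, ‖vf W x‖ ^ 2) + ∫ x, ‖grad (vf W) x‖ ^ 2)
      ≤ Real.sqrt (ε ^ 2 * ((1 + cg n ^ 2) * (volume B).toReal)) := by
        refine Real.sqrt_le_sqrt ?_
        calc _ ≤ _ := add_le_add i1 i2
          _ = _ := by ring
    _ = ε * Real.sqrt ((1 + cg n ^ 2) * (volume B).toReal) := by
        rw [Real.sqrt_mul (by positivity), Real.sqrt_sq hε]

end Pool.Agent.Helper42.Jef
end

section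
/-! # Transport form of the stress equation (module P1) -/

open MeasureTheory Set Filter Topology
open scoped ENNReal NNReal ContDiff

namespace Pool.Agent.Helper42.Jef

variable {n : ℕ}

namespace TeIff

theorem smul_int {α : Type*} [MeasurableSpace α] {μ : Measure α} {E : Type*}
    [NormedAddCommGroup E] [NormedSpace ℝ E] {f : α → ℝ} {u : α → E} (hf : MemLp f 2 μ)
    (hu : MemLp u 2 μ) : Integrable (fun x => f x • u x) μ := by
  have h1 : Integrable (fun x => ‖f x‖ * ‖u x‖) μ := hf.norm.integrable_mul hu.norm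
  exact h1.mono' (hf.1.smul hu.1) (Eventually.of_forall fun x => by rw [norm_smul])

/-- integral of the derivative of a time test function over `(-1,0)` -/
theorem int_deriv {T : ℝ} {η : ℝ → ℝ} (hη : IsTime (-1) T η) :
    ∫ t in Ioo (-1 : ℝ) 0, deriv η t = η 0 := by
  rw [← integral_Ioc_eq_integral_Ioo, ← intervalIntegral.integral_of_le (by norm_num)]
  rw [intervalIntegral.integral_deriv_eq_sub (fun x _ => hη.diff x)
    (hη.dcont.intervalIntegrable _ _)]
  have h1 : η (-1) = 0 := by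
    refine image_eq_zero_of_notMem_tsupport fun hc => ?_
    exact lt_irrefl _ (hη.supp hc).1
  rw [h1, sub_zero]

end TeIff

/-- the transport equation for `ext0 τ0 τ` is the weak form with initial value -/
theorem te_iff {E : Type*} [NormedAddCommGroup E] [InnerProductSpace ℝ E] [FiniteDimensional ℝ E]
    [MeasurableSpace E] [BorelSpace E]
    {Ω : Set (Eu n)} (hΩ : IsOpen Ω) {T : ℝ} (hT : 0 < T) {v : ST n → Eu n} {G : ST n → Mt n}
    (hv : IsVel Ω T v G) {u : ST n → E} (hu : MemLp u 2 volume)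
    (hsup : ∀ z : ST n, z.1 ∉ Ioo 0 T → u z = 0) {u0 : Eu n → E} (hu0 : MemLp u0 2 volume)
    {F : ST n → E} (hF : ∀ (η : ℝ → ℝ) (ψ : Eu n → ℝ), IsTime (-1) T η → IsTest ψ →
      Integrable (fun z : ST n => (η z.1 * ψ z.2) • F z)) :
    TE T v (ext0 u0 u) F ↔ ∀ (η : ℝ → ℝ) (ψ : Eu n → ℝ), IsTime (-1) T η → IsTest ψ →
      (∫ z : ST n, ((deriv η z.1 * ψ z.2 + η z.1 * fderiv ℝ ψ z.2 (v z)) • u z +
        (η z.1 * ψ z.2) • F z)) + η 0 • ∫ x, ψ x • u0 x = 0 := by
  have key : ∀ (η : ℝ → ℝ) (ψ : Eu n → ℝ), IsTime (-1) T η → IsTest ψ →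
      ∫ z : ST n, ((deriv η z.1 * ψ z.2 + η z.1 * fderiv ℝ ψ z.2 (v z)) • ext0 u0 u z +
        (η z.1 * ψ z.2) • F z) =
      (∫ z : ST n, ((deriv η z.1 * ψ z.2 + η z.1 * fderiv ℝ ψ z.2 (v z)) • u z +
        (η z.1 * ψ z.2) • F z)) + η 0 • ∫ x, ψ x • u0 x := by
    intro η ψ hη hψ
    have m1 : MemLp (fun z : ST n => deriv η z.1 * ψ z.2) 2 volume :=
      memLp_test (E := ℝ) hη.dcont hη.cpt.deriv hψ.smooth.continuous hψ.cpt
    have m2 : MemLp (fun z : ST n => η z.1 * fderiv ℝ ψ z.2 (v z)) 2 volume :=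
      (strong_D (vs := fun _ => v) (fun _ => hv.memv) hv.memv (by simp) hη.cont hη.cpt hψ.smooth
        hψ.cpt).2.1
    have i1 : Integrable (fun z : ST n =>
        (deriv η z.1 * ψ z.2 + η z.1 * fderiv ℝ ψ z.2 (v z)) • u z) :=
      TeIff.smul_int (m1.add m2) hu
    have i2 := hF η ψ hη hψ
    -- the initial part
    set w : ST n → E := fun z => (Ioo (-1 : ℝ) 0).indicator (fun _ => (1 : ℝ)) z.1 • u0 z.2 with hw
    have mind : MemLp ((Ioo (-1 : ℝ) 0).indicator (fun _ => (1 : ℝ))) 2 volume :=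
      memLp_indicator_const 2 measurableSet_Ioo 1 (Or.inr (by simp))
    have mw : MemLp w 2 volume := memLp_prod_smul mind hu0
    have i3 : Integrable (fun z : ST n =>
        (deriv η z.1 * ψ z.2 + η z.1 * fderiv ℝ ψ z.2 (v z)) • w z) :=
      TeIff.smul_int (m1.add m2) mw
    have hext : ∀ z, ext0 u0 u z = u z + w z := by
      intro z
      by_cases hz : z.1 ∈ Ioo (-1 : ℝ) 0
      · have h1 : ext0 u0 u z = u0 z.2 := by simp only [ext0, if_pos hz]
        have h2 : u z = 0 := hsup z fun hc => lt_asymm hc.1 hz.2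
        rw [h1, h2, zero_add, hw]
        simp only [indicator_of_mem hz, one_smul]
      · have h1 : ext0 u0 u z = u z := by simp only [ext0, if_neg hz]
        rw [h1, hw]
        simp only [indicator_of_notMem hz, zero_smul, add_zero]
    have e1 : ∫ z : ST n, ((deriv η z.1 * ψ z.2 + η z.1 * fderiv ℝ ψ z.2 (v z)) • ext0 u0 u z +
        (η z.1 * ψ z.2) • F z) =
        (∫ z : ST n, ((deriv η z.1 * ψ z.2 + η z.1 * fderiv ℝ ψ z.2 (v z)) • u z +
        (η z.1 * ψ z.2) • F z)) +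
        ∫ z : ST n, (deriv η z.1 * ψ z.2 + η z.1 * fderiv ℝ ψ z.2 (v z)) • w z := by
      have i12 : Integrable (fun z : ST n =>
        (deriv η z.1 * ψ z.2 + η z.1 * fderiv ℝ ψ z.2 (v z)) • u z +
        (η z.1 * ψ z.2) • F z) := i1.add i2
      rw [← integral_add i12 i3]
      refine integral_congr_ae (Eventually.of_forall fun z => ?_)
      simp only [hext, smul_add]
      abel
    rw [e1]
    congr 1
    -- `v = 0` for `t ∉ (0,T)`
    have hv0 := (hv.zero_out hΩ.measurableSet).1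
    have e2 : ∫ z : ST n, (deriv η z.1 * ψ z.2 + η z.1 * fderiv ℝ ψ z.2 (v z)) • w z =
        ∫ z : ST n, ((Ioo (-1 : ℝ) 0).indicator (deriv η) z.1) • (ψ z.2 • u0 z.2) := by
      refine integral_congr_ae ?_
      filter_upwards [hv0] with z hz
      by_cases hz1 : z.1 ∈ Ioo (-1 : ℝ) 0
      · have h2 : v z = 0 := hz (Or.inl fun hc => lt_asymm hc.1 hz1.2)
        simp only [hw, h2, map_zero, mul_zero, add_zero, indicator_of_mem hz1, one_smul,
          smul_smul]
      · simp only [hw, indicator_of_notMem hz1, zero_smul, smul_zero]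
    rw [e2]
    have e3 : ∫ z : ST n, ((Ioo (-1 : ℝ) 0).indicator (deriv η) z.1) • (ψ z.2 • u0 z.2) =
        (∫ t, (Ioo (-1 : ℝ) 0).indicator (deriv η) t) • ∫ x, ψ x • u0 x := by
      exact integral_prod_smul (μ := (volume : Measure ℝ)) (ν := (volume : Measure (Eu n)))
        ((Ioo (-1 : ℝ) 0).indicator (deriv η)) (fun x => ψ x • u0 x)
    rw [e3, integral_indicator measurableSet_Ioo, TeIff.int_deriv hη]
  constructor
  · intro h η ψ hη hψ
    rw [← key η ψ hη hψ]
    exact h η ψ hη hψ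
  · intro h η ψ hη hψ
    rw [key η ψ hη hψ]
    exact h η ψ hη hψ

end Pool.Agent.Helper42.Jef
end
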