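import Pool.Agent.Helper42.JefB.D3
import Pool.Agent.Helper42.JefB.D1

section
/-! # The mollified renormalised equation on space-time -/

open MeasureTheory Set Filter Topology
open scoped ENNReal ContDiff

namespace Pool.Agent.Helper47.Jef

open Pool.Agent.Helper42.Jef

variable {n : ℕ} {E E' : Type*} [NormedAddCommGroup E] [NormedSpace ℝ E] [FiniteDimensional ℝ E]
  [NormedAddCommGroup E'] [NormedSpace ℝ E'] [FiniteDimensional ℝ E']

/-- the hypotheses of the renormalisation theorem (measurable representatives) -/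
structure RH (T : ℝ) (v : ST n → Eu n) (u F : ST n → E) (K : Set E) (β : E → E') (L : ℝ) :
    Prop where
  hT : 0 < T
  vm : StronglyMeasurable v
  um : StronglyMeasurable u
  Fm : StronglyMeasurable F
  v2 : MemLp v 2 volume
  u2 : MemLp u 2 volume
  F1 : Integrable F volume
  te : TE T v u F
  hK : Convex ℝ K
  hKc : IsClosed K
  hK0 : (0 : E) ∈ K
  uK : ∀ᵐ z, u z ∈ K
  hβ : ContDiff ℝ 1 β
  hL : ∀ x ∈ K, ‖fderiv ℝ β x‖ ≤ L

namespace RH

variable {T : ℝ} {v : ST n → Eu n} {u F : ST n → E} {K : Set E} {β : E → E'} {L : ℝ}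

theorem L0 (H : RH T v u F K β L) : 0 ≤ L := (norm_nonneg _).trans (H.hL 0 H.hK0)

theorem lip (H : RH T v u F K β L) {x y : E} (hx : x ∈ K) (hy : y ∈ K) :
    ‖β y - β x‖ ≤ L * ‖y - x‖ :=
  H.hK.norm_image_sub_le_of_norm_fderiv_le (fun z _ => H.hβ.differentiable one_ne_zero z)
    H.hL hx hy

theorem bnd (H : RH T v u F K β L) {x : E} (hx : x ∈ K) : ‖β x‖ ≤ ‖β 0‖ + L * ‖x‖ := by
  have h1 := H.lip H.hK0 hx
  rw [sub_zero] at h1
  have h2 : ‖β x‖ ≤ ‖β x - β 0‖ + ‖β 0‖ := norm_le_norm_sub_add _ _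
  linarith

theorem good_u (H : RH T v u F K β L) : ∀ᵐ t : ℝ, Good u t :=
  good_ae (H.u2.locallyIntegrable (by norm_num))

theorem good_F (H : RH T v u F K β L) : ∀ᵐ t : ℝ, Good F t :=
  good_ae H.F1.locallyIntegrable

/-- mollification preserves closed convex sets -/
theorem mo_mem (H : RH T v u F K β L) {ε : ℝ} (hε : 0 < ε) : ∀ᵐ z, mo ε u z ∈ K := by
  have h1 : ∀ᵐ t : ℝ, ∀ᵐ y : Eu n, u (t, y) ∈ K := by
    have := H.uK
    rw [Measure.volume_eq_prod] at this
    exact Measure.ae_ae_of_ae_prod this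
  filter_upwards [ae_of_time (H.good_u.and h1)] with z hz
  obtain ⟨hz1, hz2⟩ := hz
  set w : Eu n → ℝ≥0∞ := fun y => ENNReal.ofReal (ro ε (z.2 - y)) with hw
  have hwm : Measurable w := (kerx_cpt hε z.2).1.measurable.ennreal_ofReal
  have hwlt : ∀ᵐ y : Eu n, w y < ⊤ := Eventually.of_forall fun y => ENNReal.ofReal_lt_top
  have hwr : ∀ y, (w y).toReal = ro ε (z.2 - y) := fun y =>
    ENNReal.toReal_ofReal (ro_nonneg hε _)
  have hprob : IsProbabilityMeasure (volume.withDensity w) := by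
    constructor
    rw [withDensity_apply _ MeasurableSet.univ, Measure.restrict_univ]
    have h2 := lintegral_sub_left_eq_self (μ := (volume : Measure (Eu n)))
      (fun y => ENNReal.ofReal (ro ε y)) z.2
    simp only [hw]
    rw [h2, ← ro_lintegral (n := n) hε]
    congr 1
    ext y
    rw [← ofReal_norm, Real.norm_of_nonneg (ro_nonneg hε y)]
  have h3 : ∫ y, u (z.1, y) ∂(volume.withDensity w) ∈ K := by
    apply H.hK.integral_mem H.hKc
    · exact (withDensity_absolutelyContinuous _ _).ae_le hz2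
    · rw [integrable_withDensity_iff_integrable_smul' hwm hwlt]
      simp only [hwr]
      exact good_kernel hz1 (ro_smooth ε).continuous (ro_cpt hε) z.2
  rw [integral_withDensity_eq_integral_toReal_smul hwm hwlt] at h3
  simp only [hwr] at h3
  exact h3

theorem trans_triv {p : ℝ≥0∞} {w : ST n → E} (hw : StronglyMeasurable w) (hp : 1 ≤ p)
    (h : Eu n) : eLpNorm (fun z => w (shf h z) - w z) p volume ≤ 2 * eLpNorm w p volume := by
  have h1 : eLpNorm (fun z => w (shf h z)) p volume = eLpNorm w p volume :=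
    eLpNorm_comp_measurePreserving hw.aestronglyMeasurable (shf_mp h)
  have h2 : AEStronglyMeasurable (fun z => w (shf h z)) volume :=
    hw.aestronglyMeasurable.comp_measurePreserving (shf_mp h)
  calc eLpNorm (fun z => w (shf h z) - w z) p volume
      ≤ eLpNorm (fun z => w (shf h z)) p volume + eLpNorm w p volume :=
        eLpNorm_sub_le h2 hw.aestronglyMeasurable hp
    _ = 2 * eLpNorm w p volume := by rw [h1, two_mul]

theorem mo_u2 (H : RH T v u F K β L) {ε : ℝ} (hε : 0 < ε) : MemLp (mo ε u) 2 volume := by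
  have h1 : MemLp (fun z => mo ε u z - u z) 2 volume := by
    refine ⟨((mo_meas H.um).sub H.um).aestronglyMeasurable, ?_⟩
    refine (mo_sub_L2 hε H.um H.good_u (fun h _ => trans_triv H.um (by norm_num) h)).trans_lt ?_
    exact ENNReal.mul_lt_top (by norm_num) H.u2.2
  have h2 := h1.add H.u2
  refine (memLp_congr_ae ?_).1 h2
  filter_upwards with z
  simp

theorem mo_F1 (H : RH T v u F K β L) {ε : ℝ} (hε : 0 < ε) : Integrable (mo ε F) volume := by
  have h1 : Integrable (fun z => mo ε F z - F z) volume := by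
    rw [← memLp_one_iff_integrable]
    refine ⟨((mo_meas H.Fm).sub H.Fm).aestronglyMeasurable, ?_⟩
    refine (mo_sub_L1 hε H.Fm H.good_F (fun h _ => trans_triv H.Fm le_rfl h)).trans_lt ?_
    exact ENNReal.mul_lt_top (by norm_num) (memLp_one_iff_integrable.2 H.F1).2
  have h2 := h1.add H.F1
  refine h2.congr ?_
  filter_upwards with z
  simp

theorem qe_int {ε : ℝ} (hε : 0 < ε) {v : ST n → Eu n} {u : ST n → E}
    (hv : StronglyMeasurable v) (hu : StronglyMeasurable u) (hv2 : MemLp v 2 volume)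
    (hu2 : MemLp u 2 volume) : Integrable (qe ε v u) volume := by
  refine ⟨(qe_meas hv hu).aestronglyMeasurable, ?_⟩
  refine (qe_bound hv hu).trans_lt ?_
  exact ENNReal.mul_lt_top (Cdro_lt_top hε) (ENNReal.mul_lt_top hv2.2 hu2.2)

/-- weights times `β(w)` -/
theorem intB (H : RH T v u F K β L) {w : ST n → E} (hw : StronglyMeasurable w)
    (hw2 : MemLp w 2 volume) (hwK : ∀ᵐ z, w z ∈ K) {k : ST n → ℝ} (hk1 : Integrable k)
    (hk2 : MemLp k 2 volume) : Integrable (fun z => k z • β (w z)) := by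
  have h1 : Integrable (fun z => ‖k z‖ * ‖β 0‖ + L * (‖k z‖ * ‖w z‖)) :=
    (hk1.norm.mul_const _).add ((hk2.norm.integrable_mul hw2.norm).const_mul _)
  refine h1.mono' ?_ ?_
  · exact hk1.aestronglyMeasurable.smul
      (H.hβ.continuous.comp_stronglyMeasurable hw).aestronglyMeasurable
  · filter_upwards [hwK] with z hz
    rw [norm_smul]
    have := H.bnd hz
    calc ‖k z‖ * ‖β (w z)‖ ≤ ‖k z‖ * (‖β 0‖ + L * ‖w z‖) := by gcongr
      _ = _ := by ring

theorem measD (hβ : ContDiff ℝ 1 β) {w g : ST n → E} (hw : StronglyMeasurable w)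
    (hg : StronglyMeasurable g) : StronglyMeasurable (fun z => fderiv ℝ β (w z) (g z)) := by
  have hc : Continuous (fun q : E × E => fderiv ℝ β q.1 q.2) :=
    ((hβ.continuous_fderiv one_ne_zero).comp continuous_fst).clm_apply continuous_snd
  exact hc.comp_stronglyMeasurable (hw.prodMk hg)

theorem bndD (H : RH T v u F K β L) {w g : ST n → E} (hwK : ∀ᵐ z, w z ∈ K) {k : ST n → ℝ}
    {C : ℝ} (hC : ∀ z, ‖k z‖ ≤ C) :
    ∀ᵐ z, ‖k z • fderiv ℝ β (w z) (g z)‖ ≤ C * L * ‖g z‖ := by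
  have hC0 : 0 ≤ C := (norm_nonneg _).trans (hC 0)
  filter_upwards [hwK] with z hz
  rw [norm_smul]
  have h1 := hC z
  have h2 := H.hL _ hz
  calc ‖k z‖ * ‖fderiv ℝ β (w z) (g z)‖ ≤ C * (L * ‖g z‖) := by
        gcongr
        exact (ContinuousLinearMap.le_opNorm _ _).trans (by gcongr)
    _ = _ := by ring

theorem intD (H : RH T v u F K β L) {w g : ST n → E} (hw : StronglyMeasurable w)
    (hwK : ∀ᵐ z, w z ∈ K) (hg : StronglyMeasurable g) (hg1 : Integrable g)
    {k : ST n → ℝ} (hk : Continuous k) {C : ℝ} (hC : ∀ z, ‖k z‖ ≤ C) :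
    Integrable (fun z => k z • fderiv ℝ β (w z) (g z)) := by
  refine (hg1.norm.const_mul (C * L)).mono' ?_ (H.bndD hwK hC)
  exact hk.aestronglyMeasurable.smul (measD H.hβ hw hg).aestronglyMeasurable

theorem normD (H : RH T v u F K β L) {w g : ST n → E}
    (hwK : ∀ᵐ z, w z ∈ K)
    {k : ST n → ℝ} {C : ℝ} (hC : ∀ z, ‖k z‖ ≤ C) :
    ‖∫ z, k z • fderiv ℝ β (w z) (g z)‖ₑ ≤ ENNReal.ofReal (C * L) * ∫⁻ z, ‖g z‖ₑ := by
  have hC0 : 0 ≤ C := (norm_nonneg _).trans (hC 0)
  refine (enorm_integral_le_lintegral_enorm _).trans ?_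
  rw [← lintegral_const_mul' _ _ ENNReal.ofReal_ne_top]
  apply lintegral_mono_ae
  filter_upwards [H.bndD (g := g) hwK hC] with z hz
  rw [← ofReal_norm, ← ofReal_norm, ← ENNReal.ofReal_mul (mul_nonneg hC0 H.L0)]
  exact ENNReal.ofReal_le_ofReal hz

/-- facts on the weight `η ∂ψ(v)` -/
theorem kv {η : ℝ → ℝ} {ψ : Eu n → ℝ} (hη : IsTime (-1) T η) (hψ : IsTest ψ)
    {v : ST n → Eu n} (vm : StronglyMeasurable v) (v2 : MemLp v 2 volume) :
    StronglyMeasurable (fun z : ST n => η z.1 * fderiv ℝ ψ z.2 (v z)) ∧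
    Integrable (fun z : ST n => η z.1 * fderiv ℝ ψ z.2 (v z)) ∧
    MemLp (fun z : ST n => η z.1 * fderiv ℝ ψ z.2 (v z)) 2 volume := by
  have hηc : Continuous η := hη.smooth.continuous
  have hψc : Continuous (fun x => fderiv ℝ ψ x) := hψ.smooth.continuous_fderiv (by simp)
  have hm : StronglyMeasurable (fun z : ST n => η z.1 * fderiv ℝ ψ z.2 (v z)) := by
    have hc : Continuous (fun q : (Eu n →L[ℝ] ℝ) × Eu n => q.1 q.2) :=
      continuous_fst.clm_apply continuous_snd
    exact (hηc.comp continuous_fst).stronglyMeasurable.mul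
      (hc.comp_stronglyMeasurable ((hψc.comp continuous_snd).stronglyMeasurable.prodMk vm))
  obtain ⟨a1, a2⟩ := prod_cont_cpt (η := fun t => ‖η t‖) (ψ := fun x => ‖fderiv ℝ ψ x‖)
    hηc.norm hη.cpt.norm hψc.norm (hψ.cpt.fderiv (𝕜 := ℝ)).norm
  obtain ⟨C, hC⟩ := a2.exists_bound_of_continuous a1
  have hpt : ∀ z : ST n, ‖η z.1 * fderiv ℝ ψ z.2 (v z)‖ ≤
      (‖η z.1‖ * ‖fderiv ℝ ψ z.2‖) * ‖v z‖ := by
    intro z
    rw [norm_mul, mul_assoc]
    gcongr
    exact ContinuousLinearMap.le_opNorm _ _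
  refine ⟨hm, ?_, ?_⟩
  · have hk2 : MemLp (fun z : ST n => ‖η z.1‖ * ‖fderiv ℝ ψ z.2‖) 2 volume :=
      a1.memLp_of_hasCompactSupport a2
    refine (hk2.integrable_mul v2.norm).mono'
      hm.aestronglyMeasurable ?_
    filter_upwards with z
    exact hpt z
  · refine (v2.norm.const_mul C).mono' hm.aestronglyMeasurable ?_
    filter_upwards with z
    refine (hpt z).trans ?_
    gcongr
    exact (le_abs_self _).trans (hC z)

/-- the mollified equation on space-time -/
theorem J_ST (H : RH T v u F K β L) {ε : ℝ} (hε : 0 < ε) {η : ℝ → ℝ} {ψ : Eu n → ℝ}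
    (hη : IsTime (-1) T η) (hψ : IsTest ψ) :
    ∫ z : ST n, ((deriv η z.1 * ψ z.2) • β (mo ε u z) + (η z.1 * ψ z.2) •
      fderiv ℝ β (mo ε u z) (mo ε F z - qe ε v u z)) = 0 := by
  have hηc : Continuous η := hη.smooth.continuous
  have hηd : Continuous (deriv η) :=
    (hη.smooth.of_le (m := 1) (by exact_mod_cast le_top)).continuous_deriv le_rfl
  obtain ⟨a1, a2⟩ := prod_cont_cpt hηd hη.cpt.deriv hψ.smooth.continuous hψ.cpt
  obtain ⟨b1, b2⟩ := prod_cont_cpt hηc hη.cpt hψ.smooth.continuous hψ.cpt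
  obtain ⟨C, hC⟩ := b2.exists_bound_of_continuous b1
  have i1 := H.intB (mo_meas (ε := ε) H.um) (H.mo_u2 hε) (H.mo_mem hε)
    (a1.integrable_of_hasCompactSupport a2) (a1.memLp_of_hasCompactSupport a2)
  have i2 := H.intD (mo_meas (ε := ε) H.um) (H.mo_mem hε)
    ((mo_meas (ε := ε) H.Fm).sub (qe_meas (ε := ε) H.vm H.um))
    ((H.mo_F1 hε).sub (qe_int hε H.vm H.um H.v2 H.u2)) b1 hC
  have i3 : Integrable (fun z : ST n => (deriv η z.1 * ψ z.2) • β (mo ε u z) +
      (η z.1 * ψ z.2) • fderiv ℝ β (mo ε u z) (mo ε F z - qe ε v u z)) := i1.add i2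
  rw [Measure.volume_eq_prod] at i3 ⊢
  rw [integral_prod_symm _ i3]
  have h1 : ∀ x : Eu n, ∫ t : ℝ, ((deriv η t * ψ x) • β (mo ε u (t, x)) +
      (η t * ψ x) • fderiv ℝ β (mo ε u (t, x)) (mo ε F (t, x) - qe ε v u (t, x))) = 0 := by
    intro x
    have h2 := J_x hε H.hT H.vm H.um H.v2 H.u2 H.F1 H.te H.hβ hη x
    have h3 : ∀ t : ℝ, ((deriv η t * ψ x) • β (mo ε u (t, x)) +
      (η t * ψ x) • fderiv ℝ β (mo ε u (t, x)) (mo ε F (t, x) - qe ε v u (t, x))) =
      ψ x • (deriv η t • β (mo ε u (t, x)) +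
      η t • fderiv ℝ β (mo ε u (t, x)) (mo ε F (t, x) - qe ε v u (t, x))) := by
      intro t
      rw [smul_add, smul_smul, smul_smul, mul_comm (ψ x), mul_comm (ψ x)]
    simp only [h3]
    rw [integral_smul, h2, smul_zero]
  simp only [h1, integral_zero]

end RH

end Pool.Agent.Helper47.Jef
end

section
/-! # The defect functional -/

open MeasureTheory Set Filter Topology
open scoped ENNReal ContDiff

namespace Pool.Agent.Helper47.Jef

open Pool.Agent.Helper42.Jef

variable {n : ℕ} {E E' : Type*} [NormedAddCommGroup E] [NormedSpace ℝ E] [FiniteDimensional ℝ E]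
  [NormedAddCommGroup E'] [NormedSpace ℝ E'] [FiniteDimensional ℝ E']

/-- the defect functional -/
noncomputable def BB (β : E → E') (η : ℝ → ℝ) (ψ : Eu n → ℝ) (ε : ℝ) (u : ST n → E)
    (v : ST n → Eu n) : E' :=
  ∫ z : ST n, ((η z.1 * fderiv ℝ ψ z.2 (v z)) • β (mo ε u z) +
    (η z.1 * ψ z.2) • fderiv ℝ β (mo ε u z) (qe ε v u z))

omit [FiniteDimensional ℝ E] in
theorem re_eq' (ε : ℝ) (v : ST n → Eu n) (u : ST n → E) (z : ST n) :
    re ε v u z = ∫ h, (fderiv ℝ (ro ε) h (v (shf h z) - v z)) • u (shf h z) := by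
  unfold re shf
  exact conv_eq (fun h y => (fderiv ℝ (ro ε) h (v (z.1, y) - v z)) • u (z.1, y)) z.2

omit [FiniteDimensional ℝ E] in
theorem re_meas {ε : ℝ} {v : ST n → Eu n} {u : ST n → E} (hv : StronglyMeasurable v)
    (hu : StronglyMeasurable u) : StronglyMeasurable (re ε v u) := by
  have h1 : re ε v u = fun z => ∫ h, (fderiv ℝ (ro ε) h (v (shf h z) - v z)) • u (shf h z) :=
    funext (re_eq' ε v u)
  rw [h1]
  have h2 : StronglyMeasurable (fun p : ST n × Eu n =>
      (fderiv ℝ (ro ε) p.2 (v (shf p.2 p.1) - v p.1)) • u (shf p.2 p.1)) := by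
    apply StronglyMeasurable.smul
    · have hc : Continuous (fun q : (Eu n →L[ℝ] ℝ) × Eu n => q.1 q.2) :=
        continuous_fst.clm_apply continuous_snd
      exact hc.comp_stronglyMeasurable
        (((dro_cont ε).comp continuous_snd).stronglyMeasurable.prodMk
          ((hv.comp_measurable shf_cont.measurable).sub (hv.comp_measurable measurable_fst)))
    · exact hu.comp_measurable shf_cont.measurable
  exact h2.integral_prod_right'

theorem le_of_forall_real {x a b : ℝ≥0∞} (hb : b ≠ ⊤)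
    (h : ∀ κ : ℝ, 0 < κ → x ≤ a + b * ENNReal.ofReal κ) : x ≤ a := by
  have h1 : Tendsto (fun κ : ℝ => a + b * ENNReal.ofReal κ) (𝓝[>] 0) (𝓝 (a + b * 0)) := by
    apply Tendsto.const_add
    apply ENNReal.Tendsto.const_mul _ (Or.inr hb)
    have h2 : Tendsto (fun κ : ℝ => ENNReal.ofReal κ) (𝓝 0) (𝓝 (ENNReal.ofReal 0)) :=
      (ENNReal.continuous_ofReal.tendsto 0)
    rw [ENNReal.ofReal_zero] at h2
    exact h2.mono_left nhdsWithin_le_nhds
  rw [mul_zero, add_zero] at h1
  apply ge_of_tendsto h1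
  filter_upwards [self_mem_nhdsWithin] with κ hκ
  exact h κ hκ

namespace RH

variable {T : ℝ} {v : ST n → Eu n} {u F : ST n → E} {K : Set E} {β : E → E'} {L : ℝ}

theorem BB_int (H : RH T v u F K β L) {ε : ℝ} (hε : 0 < ε) {η : ℝ → ℝ} {ψ : Eu n → ℝ}
    (hη : IsTime (-1) T η) (hψ : IsTest ψ) {v' : ST n → Eu n} (vm' : StronglyMeasurable v')
    (v2' : MemLp v' 2 volume) :
    Integrable (fun z : ST n => (η z.1 * fderiv ℝ ψ z.2 (v' z)) • β (mo ε u z)) ∧
    Integrable (fun z : ST n => (η z.1 * ψ z.2) • fderiv ℝ β (mo ε u z) (qe ε v' u z)) := by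
  obtain ⟨b1, b2⟩ := prod_cont_cpt hη.smooth.continuous hη.cpt hψ.smooth.continuous hψ.cpt
  obtain ⟨C, hC⟩ := b2.exists_bound_of_continuous b1
  obtain ⟨k1, k2, k3⟩ := kv hη hψ vm' v2'
  exact ⟨H.intB (mo_meas H.um) (H.mo_u2 hε) (H.mo_mem hε) k2 k3,
    H.intD (mo_meas (ε := ε) H.um) (H.mo_mem hε) (qe_meas (ε := ε) vm' H.um)
      (qe_int hε vm' H.um v2' H.u2) b1 hC⟩

theorem re_int (H : RH T v u F K β L) {ε : ℝ} (hε : 0 < ε) {Ω : Set (Eu n)}
    {v' : ST n → Eu n} {G' : ST n → Mt n} (hv' : IsElem Ω T v' G') (G2' : MemLp G' 2 volume) :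
    Integrable (re ε v' u) := by
  refine ⟨(re_meas (elem_meas hv').1 H.um).aestronglyMeasurable, ?_⟩
  refine (re_bound hε hv' H.um H.good_u (fun h _ => trans_triv H.um (by norm_num) h)).trans_lt ?_
  exact ENNReal.mul_lt_top (ENNReal.mul_lt_top Cro_lt_top G2'.2)
    (ENNReal.mul_lt_top (by norm_num) H.u2.2)

theorem BB_elem (H : RH T v u F K β L) {ε : ℝ} (hε : 0 < ε) {η : ℝ → ℝ} {ψ : Eu n → ℝ}
    (hη : IsTime (-1) T η) (hψ : IsTest ψ) {Ω : Set (Eu n)} {v' : ST n → Eu n}
    {G' : ST n → Mt n} (hv' : IsElem Ω T v' G') (v2' : MemLp v' 2 volume)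
    (G2' : MemLp G' 2 volume) :
    BB β η ψ ε u v' = ∫ z : ST n, (η z.1 * ψ z.2) • fderiv ℝ β (mo ε u z) (re ε v' u z) := by
  obtain ⟨b1, b2⟩ := prod_cont_cpt hη.smooth.continuous hη.cpt hψ.smooth.continuous hψ.cpt
  obtain ⟨C, hC⟩ := b2.exists_bound_of_continuous b1
  obtain ⟨vm', Gm', -⟩ := elem_meas hv'
  obtain ⟨i1, i2⟩ := H.BB_int hε hη hψ vm' v2'
  have i3 := H.intD (mo_meas (ε := ε) H.um) (H.mo_mem hε) (re_meas (ε := ε) vm' H.um)
      (H.re_int hε hv' G2') b1 hC
  have i12 : Integrable (fun z : ST n => (η z.1 * fderiv ℝ ψ z.2 (v' z)) • β (mo ε u z) +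
      (η z.1 * ψ z.2) • fderiv ℝ β (mo ε u z) (qe ε v' u z)) := i1.add i2
  have iH : Integrable (fun z : ST n => ((η z.1 * fderiv ℝ ψ z.2 (v' z)) • β (mo ε u z) +
      (η z.1 * ψ z.2) • fderiv ℝ β (mo ε u z) (qe ε v' u z)) -
      (η z.1 * ψ z.2) • fderiv ℝ β (mo ε u z) (re ε v' u z)) := i12.sub i3
  have hzero : ∫ z : ST n, (((η z.1 * fderiv ℝ ψ z.2 (v' z)) • β (mo ε u z) +
      (η z.1 * ψ z.2) • fderiv ℝ β (mo ε u z) (qe ε v' u z)) -
      (η z.1 * ψ z.2) • fderiv ℝ β (mo ε u z) (re ε v' u z)) = 0 := by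
    rw [Measure.volume_eq_prod] at iH ⊢
    rw [integral_prod _ iH]
    apply integral_eq_zero_of_ae
    filter_upwards [H.good_u] with t ht
    obtain ⟨hVT, -⟩ := elem_slice hv' t
    set g : Eu n → E' := fun x => ψ x • β (mo ε u (t, x)) with hg
    have hmo := mo_contDiff hε ht
    have hψ1 : ContDiff ℝ 1 ψ := hψ.smooth.of_le (by exact_mod_cast le_top)
    have hgs : ContDiff ℝ 1 g := hψ1.smul (H.hβ.comp hmo)
    have hgd : ∀ x w, fderiv ℝ g x w = (fderiv ℝ ψ x w) • β (mo ε u (t, x)) +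
        ψ x • fderiv ℝ β (mo ε u (t, x)) (fderiv ℝ (fun x => mo ε u (t, x)) x w) := by
      intro x w
      have h1 : HasFDerivAt ψ (fderiv ℝ ψ x) x := (hψ1.differentiable one_ne_zero x).hasFDerivAt
      have h2 : HasFDerivAt (fun x => mo ε u (t, x)) (fderiv ℝ (fun x => mo ε u (t, x)) x) x :=
        (hmo.differentiable one_ne_zero x).hasFDerivAt
      have h3 : HasFDerivAt β (fderiv ℝ β (mo ε u (t, x))) (mo ε u (t, x)) :=
        (H.hβ.differentiable one_ne_zero _).hasFDerivAt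
      have h4 := h1.smul (h3.comp x h2)
      have h5 : fderiv ℝ g x = _ := h4.fderiv
      rw [h5]
      simp [add_comm]
    have key : ∀ x, (((η t * fderiv ℝ ψ x (v' (t, x))) • β (mo ε u (t, x)) +
      (η t * ψ x) • fderiv ℝ β (mo ε u (t, x)) (qe ε v' u (t, x))) -
      (η t * ψ x) • fderiv ℝ β (mo ε u (t, x)) (re ε v' u (t, x))) =
        η t • fderiv ℝ g x (v' (t, x)) := by
      intro x
      have h6 := qe_eq_re hε (v := v') (u := u) (z := (t, x)) ht hVT.smooth.continuous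
      rw [h6, hgd, map_add]
      simp only [smul_add, mul_smul]
      abel
    show ∫ x, _ = (0 : E')
    simp only [key]
    rw [integral_smul, integral_div_free hVT hgs, smul_zero]
  rw [integral_sub i12 i3, sub_eq_zero] at hzero
  exact hzero

theorem BB_elem_bound (H : RH T v u F K β L) {ε : ℝ} (hε : 0 < ε) {η : ℝ → ℝ} {ψ : Eu n → ℝ}
    (hη : IsTime (-1) T η) (hψ : IsTest ψ) {Ω : Set (Eu n)} {v' : ST n → Eu n}
    {G' : ST n → Mt n} (hv' : IsElem Ω T v' G') (v2' : MemLp v' 2 volume)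
    (G2' : MemLp G' 2 volume) {C : ℝ} (hC : ∀ z : ST n, ‖η z.1 * ψ z.2‖ ≤ C) {δ : ℝ≥0∞}
    (hδ : ∀ h : Eu n, ‖h‖ ≤ ε → eLpNorm (fun z => u (shf h z) - u z) 2 volume ≤ δ) :
    ‖BB β η ψ ε u v'‖ₑ ≤ ENNReal.ofReal (C * L) * (Cro n * eLpNorm G' 2 volume * δ) := by
  rw [H.BB_elem hε hη hψ hv' v2' G2']
  refine (H.normD (H.mo_mem hε) hC).trans ?_
  gcongr
  exact re_bound hε hv' H.um H.good_u hδ

theorem BB_sub (H : RH T v u F K β L) {ε : ℝ} (hε : 0 < ε) {η : ℝ → ℝ} {ψ : Eu n → ℝ}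
    (hη : IsTime (-1) T η) (hψ : IsTest ψ) {v1 v2 : ST n → Eu n} (vm1 : StronglyMeasurable v1)
    (v21 : MemLp v1 2 volume) (vm2 : StronglyMeasurable v2) (v22 : MemLp v2 2 volume) :
    BB β η ψ ε u v1 - BB β η ψ ε u v2 = BB β η ψ ε u (fun z => v1 z - v2 z) := by
  obtain ⟨i1, i2⟩ := H.BB_int hε hη hψ vm1 v21
  obtain ⟨j1, j2⟩ := H.BB_int hε hη hψ vm2 v22
  unfold BB
  have i12 : Integrable (fun z : ST n => (η z.1 * fderiv ℝ ψ z.2 (v1 z)) • β (mo ε u z) +
      (η z.1 * ψ z.2) • fderiv ℝ β (mo ε u z) (qe ε v1 u z)) := i1.add i2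
  have j12 : Integrable (fun z : ST n => (η z.1 * fderiv ℝ ψ z.2 (v2 z)) • β (mo ε u z) +
      (η z.1 * ψ z.2) • fderiv ℝ β (mo ε u z) (qe ε v2 u z)) := j1.add j2
  rw [← integral_sub i12 j12]
  apply integral_congr_ae
  filter_upwards [ae_of_time (int_vu hε vm1 H.um v21 H.u2),
    ae_of_time (int_vu hε vm2 H.um v22 H.u2)] with z hz1 hz2
  have h1 : qe ε (fun z => v1 z - v2 z) u z = qe ε v1 u z - qe ε v2 u z := by
    unfold qe
    rw [← integral_sub (hz1 z.2) (hz2 z.2)]
    congr 1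
    ext1 y
    rw [map_sub, sub_smul]
  rw [h1, map_sub, map_sub]
  simp only [mul_sub, sub_smul, smul_sub]
  abel

theorem BB_crude (H : RH T v u F K β L) {ε : ℝ} (hε : 0 < ε) {η : ℝ → ℝ} {ψ : Eu n → ℝ}
    (hη : IsTime (-1) T η) (hψ : IsTest ψ) : ∃ Kε : ℝ≥0∞, Kε ≠ ⊤ ∧
    ∀ v' : ST n → Eu n, StronglyMeasurable v' → MemLp v' 2 volume →
      ‖BB β η ψ ε u v'‖ₑ ≤ Kε * eLpNorm v' 2 volume := by
  have hηc : Continuous η := hη.smooth.continuous
  have hψc : Continuous (fun x => fderiv ℝ ψ x) := hψ.smooth.continuous_fderiv (by simp)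
  obtain ⟨a1, a2⟩ := prod_cont_cpt (η := fun t => ‖η t‖) (ψ := fun x => ‖fderiv ℝ ψ x‖)
    hηc.norm hη.cpt.norm hψc.norm (hψ.cpt.fderiv (𝕜 := ℝ)).norm
  obtain ⟨C', hC'⟩ := a2.exists_bound_of_continuous a1
  obtain ⟨b1, b2⟩ := prod_cont_cpt hη.smooth.continuous hη.cpt hψ.smooth.continuous hψ.cpt
  obtain ⟨C, hC⟩ := b2.exists_bound_of_continuous b1
  have hC0 : 0 ≤ C := (norm_nonneg _).trans (hC 0)
  set k : ST n → ℝ := fun z => (‖η z.1‖ * ‖fderiv ℝ ψ z.2‖) * (‖β 0‖ + L * ‖mo ε u z‖) with hk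
  have hkm : StronglyMeasurable k := a1.stronglyMeasurable.mul
    (stronglyMeasurable_const.add ((mo_meas H.um).norm.const_mul L))
  have hk2 : MemLp k 2 volume := by
    have h1 : MemLp (fun z : ST n => (‖η z.1‖ * ‖fderiv ℝ ψ z.2‖) * ‖β 0‖) 2 volume :=
      (a1.memLp_of_hasCompactSupport (p := 2) a2).mul_const _
    have h2 : MemLp (fun z : ST n => C' * L * ‖mo ε u z‖) 2 volume :=
      (H.mo_u2 hε).norm.const_mul _
    have h3 := h1.add h2
    refine h3.mono' hkm.aestronglyMeasurable ?_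
    filter_upwards with z
    have h4 := (le_abs_self _).trans (hC' z)
    have h5 := H.L0
    rw [Real.norm_of_nonneg (by simp only [hk]; positivity)]
    simp only [hk, Pi.add_apply]
    rw [mul_add]
    have h6 : ‖η z.1‖ * ‖fderiv ℝ ψ z.2‖ * (L * ‖mo ε u z‖) ≤ C' * (L * ‖mo ε u z‖) := by gcongr
    linarith
  refine ⟨eLpNorm k 2 volume + ENNReal.ofReal (C * L) * (Cdro n ε * eLpNorm u 2 volume), ?_, ?_⟩
  · exact (ENNReal.add_lt_top.2 ⟨hk2.2, ENNReal.mul_lt_top ENNReal.ofReal_lt_top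
      (ENNReal.mul_lt_top (Cdro_lt_top hε) H.u2.2)⟩).ne
  · intro v' vm' v2'
    obtain ⟨i1, i2⟩ := H.BB_int hε hη hψ vm' v2'
    unfold BB
    rw [integral_add i1 i2]
    refine (enorm_add_le _ _).trans ?_
    rw [add_mul]
    gcongr
    · refine (enorm_integral_le_lintegral_enorm _).trans ?_
      refine le_trans ?_ (lintegral_enorm_mul_le hkm.aestronglyMeasurable vm'.aestronglyMeasurable)
      apply lintegral_mono_ae
      filter_upwards [H.mo_mem hε] with z hz
      rw [← ofReal_norm, ← ofReal_norm, ← ofReal_norm, ← ENNReal.ofReal_mul (norm_nonneg _)]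
      apply ENNReal.ofReal_le_ofReal
      have h5 := H.L0
      rw [norm_smul, norm_mul, Real.norm_of_nonneg (show 0 ≤ k z by simp only [hk]; positivity)]
      have h6 := H.bnd hz
      calc ‖η z.1‖ * ‖fderiv ℝ ψ z.2 (v' z)‖ * ‖β (mo ε u z)‖
          ≤ ‖η z.1‖ * (‖fderiv ℝ ψ z.2‖ * ‖v' z‖) * (‖β 0‖ + L * ‖mo ε u z‖) := by
            gcongr
            exact ContinuousLinearMap.le_opNorm _ _
        _ = k z * ‖v' z‖ := by simp only [hk]; ring
    · refine (H.normD (H.mo_mem hε) hC).trans ?_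
      rw [mul_assoc]
      gcongr
      refine (qe_bound vm' H.um).trans (le_of_eq ?_)
      ring

theorem BB_bound (H : RH T v u F K β L) {Ω : Set (Eu n)} {G : ST n → Mt n}
    (hv : IsVel Ω T v G) {ε : ℝ} (hε : 0 < ε) {η : ℝ → ℝ} {ψ : Eu n → ℝ}
    (hη : IsTime (-1) T η) (hψ : IsTest ψ) {C : ℝ} (hC : ∀ z : ST n, ‖η z.1 * ψ z.2‖ ≤ C)
    {δ : ℝ≥0∞} (hδt : δ ≠ ⊤)
    (hδ : ∀ h : Eu n, ‖h‖ ≤ ε → eLpNorm (fun z => u (shf h z) - u z) 2 volume ≤ δ) :
    ‖BB β η ψ ε u v‖ₑ ≤ ENNReal.ofReal (C * L) * (Cro n * eLpNorm G 2 volume * δ) := by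
  obtain ⟨Kε, hK1, hK2⟩ := H.BB_crude hε hη hψ
  apply le_of_forall_real (b := ENNReal.ofReal (C * L) * (Cro n * δ) + Kε)
  · exact (ENNReal.add_lt_top.2 ⟨ENNReal.mul_lt_top ENNReal.ofReal_lt_top
      (ENNReal.mul_lt_top Cro_lt_top hδt.lt_top), hK1.lt_top⟩).ne
  · intro κ hκ
    obtain ⟨v', G', he, h1, h2⟩ := hv.approx κ hκ
    obtain ⟨vm', Gm', -⟩ := elem_meas he
    have v2' : MemLp v' 2 volume := by
      have h3 : MemLp (v - v') 2 volume :=
        ⟨(H.vm.sub vm').aestronglyMeasurable, h1.trans_lt ENNReal.ofReal_lt_top⟩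
      have h4 := hv.memv.sub h3
      rwa [sub_sub_cancel] at h4
    have hGd : MemLp (G - G') 2 volume :=
      ⟨hv.memG.1.sub Gm'.aestronglyMeasurable, h2.trans_lt ENNReal.ofReal_lt_top⟩
    have G2' : MemLp G' 2 volume := by
      have h4 := hv.memG.sub hGd
      rwa [sub_sub_cancel] at h4
    have h5 : eLpNorm G' 2 volume ≤ eLpNorm G 2 volume + ENNReal.ofReal κ := by
      have h6 : G' = G - (G - G') := by rw [sub_sub_cancel]
      calc eLpNorm G' 2 volume = eLpNorm (G - (G - G')) 2 volume := by rw [← h6]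
        _ ≤ eLpNorm G 2 volume + eLpNorm (G - G') 2 volume :=
            eLpNorm_sub_le hv.memG.1 hGd.1 (by norm_num)
        _ ≤ _ := by gcongr
    have h7 : BB β η ψ ε u v = BB β η ψ ε u v' + BB β η ψ ε u (fun z => v z - v' z) := by
      rw [← H.BB_sub hε hη hψ H.vm H.v2 vm' v2']
      abel
    rw [h7]
    refine (enorm_add_le _ _).trans ?_
    have h8 := H.BB_elem_bound hε hη hψ he v2' G2' hC hδ
    have h9 := hK2 (fun z => v z - v' z) (H.vm.sub vm') (H.v2.sub v2')
    have h10 : eLpNorm (fun z => v z - v' z) 2 volume ≤ ENNReal.ofReal κ := h1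
    calc ‖BB β η ψ ε u v'‖ₑ + ‖BB β η ψ ε u (fun z => v z - v' z)‖ₑ
        ≤ ENNReal.ofReal (C * L) * (Cro n * (eLpNorm G 2 volume + ENNReal.ofReal κ) * δ) +
          Kε * ENNReal.ofReal κ := by
          gcongr
          · exact h8.trans (by gcongr)
          · exact h9.trans (by gcongr)
      _ = _ := by ring

end RH

end Pool.Agent.Helper47.Jef
end

section
/-! # DiPerna–Lions renormalisation -/

open MeasureTheory Set Filter Topology
open scoped ENNReal ContDiff

namespace Pool.Agent.Helper47.Jef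

open Pool.Agent.Helper42.Jef

variable {n : ℕ} {E E' : Type*} [NormedAddCommGroup E] [NormedSpace ℝ E] [FiniteDimensional ℝ E]
  [NormedAddCommGroup E'] [NormedSpace ℝ E'] [FiniteDimensional ℝ E']

omit [NormedSpace ℝ E'] [FiniteDimensional ℝ E'] in
theorem tendsto_zero_of_enorm_le {f : ℕ → E'} {a : ℕ → ℝ≥0∞} (h : ∀ m, ‖f m‖ₑ ≤ a m)
    (ha : Tendsto a atTop (𝓝 0)) : Tendsto f atTop (𝓝 0) := by
  rw [tendsto_iff_edist_tendsto_0]
  refine tendsto_of_tendsto_of_tendsto_of_le_of_le tendsto_const_nhds ha (fun _ => zero_le) ?_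
  intro m
  simp only [edist_zero_right]
  exact h m

namespace RH

variable {T : ℝ} {v : ST n → Eu n} {u F : ST n → E} {K : Set E} {β : E → E'} {L : ℝ}

/-- a good sequence of mollification parameters -/
theorem exists_seq (H : RH T v u F K β L) {Ω : Set (Eu n)} {G : ST n → Mt n}
    (hv : IsVel Ω T v G) {η : ℝ → ℝ} {ψ : Eu n → ℝ}
    (hη : IsTime (-1) T η) (hψ : IsTest ψ) :
    ∃ e : ℕ → ℝ, (∀ m, 0 < e m) ∧
      Tendsto (fun m => eLpNorm (fun z => mo (e m) u z - u z) 2 volume) atTop (𝓝 0) ∧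
      Tendsto (fun m => eLpNorm (fun z => mo (e m) F z - F z) 1 volume) atTop (𝓝 0) ∧
      Tendsto (fun m => BB β η ψ (e m) u v) atTop (𝓝 0) ∧
      ∀ᵐ z, Tendsto (fun m => mo (e m) u z) atTop (𝓝 (u z)) := by
  obtain ⟨b1, b2⟩ := prod_cont_cpt hη.smooth.continuous hη.cpt hψ.smooth.continuous hψ.cpt
  obtain ⟨C, hC⟩ := b2.exists_bound_of_continuous b1
  have h1 : ∀ m : ℕ, ∃ ε : ℝ, 0 < ε ∧
      eLpNorm (fun z => mo ε u z - u z) 2 volume ≤ ENNReal.ofReal (1 / ((m : ℝ) + 1)) ∧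
      eLpNorm (fun z => mo ε F z - F z) 1 volume ≤ ENNReal.ofReal (1 / ((m : ℝ) + 1)) ∧
      ‖BB β η ψ ε u v‖ₑ ≤ ENNReal.ofReal (C * L) * (Cro n * eLpNorm G 2 volume) *
        ENNReal.ofReal (1 / ((m : ℝ) + 1)) := by
    intro m
    have hm : (0 : ℝ) < 1 / ((m : ℝ) + 1) := by positivity
    obtain ⟨r, hr, hr'⟩ := trans_cont (by norm_num) (by norm_num) H.u2 hm
    obtain ⟨s, hs, hs'⟩ := trans_cont le_rfl (by norm_num) (memLp_one_iff_integrable.2 H.F1) hm
    have hrs : 0 < min r s := lt_min hr hs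
    refine ⟨min r s, hrs, ?_, ?_, ?_⟩
    · exact mo_sub_L2 hrs H.um H.good_u fun h hh => hr' h (hh.trans (min_le_left _ _))
    · exact mo_sub_L1 hrs H.Fm H.good_F fun h hh => hs' h (hh.trans (min_le_right _ _))
    · refine (H.BB_bound hv hrs hη hψ hC ENNReal.ofReal_ne_top
        (fun h hh => hr' h (hh.trans (min_le_left _ _)))).trans (le_of_eq ?_)
      ring
  choose e he1 he2 he3 he4 using h1
  have hlim : Tendsto (fun m : ℕ => ENNReal.ofReal (1 / ((m : ℝ) + 1))) atTop (𝓝 0) := by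
    have := (ENNReal.continuous_ofReal.tendsto 0).comp tendsto_one_div_add_atTop_nhds_zero_nat
    rwa [ENNReal.ofReal_zero] at this
  have l1 : Tendsto (fun m => eLpNorm (fun z => mo (e m) u z - u z) 2 volume) atTop (𝓝 0) :=
    tendsto_of_tendsto_of_tendsto_of_le_of_le tendsto_const_nhds hlim (fun _ => zero_le) he2
  have l2 : Tendsto (fun m => eLpNorm (fun z => mo (e m) F z - F z) 1 volume) atTop (𝓝 0) :=
    tendsto_of_tendsto_of_tendsto_of_le_of_le tendsto_const_nhds hlim (fun _ => zero_le) he3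
  have l3 : Tendsto (fun m => BB β η ψ (e m) u v) atTop (𝓝 0) := by
    apply tendsto_zero_of_enorm_le he4
    have hc : ENNReal.ofReal (C * L) * (Cro n * eLpNorm G 2 volume) ≠ ⊤ :=
      (ENNReal.mul_lt_top ENNReal.ofReal_lt_top
        (ENNReal.mul_lt_top Cro_lt_top hv.memG.2)).ne
    have := ENNReal.Tendsto.const_mul hlim (Or.inr hc)
    simpa using this
  have hmeas : TendstoInMeasure volume (fun m => mo (e m) u) atTop u := by
    apply tendstoInMeasure_of_tendsto_eLpNorm (p := 2) (by norm_num)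
      (fun m => (mo_meas H.um).aestronglyMeasurable) H.um.aestronglyMeasurable
    exact l1
  obtain ⟨φ, hφ, hφ'⟩ := hmeas.exists_seq_tendsto_ae
  exact ⟨fun m => e (φ m), fun m => he1 _, l1.comp hφ.tendsto_atTop, l2.comp hφ.tendsto_atTop,
    l3.comp hφ.tendsto_atTop, hφ'⟩

theorem main (H : RH T v u F K β L) {Ω : Set (Eu n)} {G : ST n → Mt n}
    (hv : IsVel Ω T v G) :
    TE T v (fun z => β (u z)) (fun z => fderiv ℝ β (u z) (F z)) := by
  intro η ψ hη hψ
  obtain ⟨e, he, l1, l2, l3, l4⟩ := H.exists_seq hv hη hψ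
  have hηc : Continuous η := hη.smooth.continuous
  have hηd : Continuous (deriv η) :=
    (hη.smooth.of_le (m := 1) (by exact_mod_cast le_top)).continuous_deriv le_rfl
  obtain ⟨a1, a2⟩ := prod_cont_cpt hηd hη.cpt.deriv hψ.smooth.continuous hψ.cpt
  obtain ⟨b1, b2⟩ := prod_cont_cpt hηc hη.cpt hψ.smooth.continuous hψ.cpt
  obtain ⟨C, hC⟩ := b2.exists_bound_of_continuous b1
  have hC0 : 0 ≤ C := (norm_nonneg _).trans (hC 0)
  obtain ⟨k1, k2, k3⟩ := kv hη hψ H.vm H.v2
  -- the weight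
  set W : ST n → ℝ := fun z => deriv η z.1 * ψ z.2 + η z.1 * fderiv ℝ ψ z.2 (v z) with hW
  have W1 : Integrable W := (a1.integrable_of_hasCompactSupport a2).add k2
  have W2 : MemLp W 2 volume := (a1.memLp_of_hasCompactSupport (p := 2) a2).add k3
  have Wm : StronglyMeasurable W := a1.stronglyMeasurable.add k1
  -- integrability
  have I1 : ∀ m, Integrable (fun z => W z • β (mo (e m) u z)) := fun m =>
    H.intB (mo_meas H.um) (H.mo_u2 (he m)) (H.mo_mem (he m)) W1 W2
  have I2 : ∀ m, Integrable (fun z : ST n => (η z.1 * ψ z.2) •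
      fderiv ℝ β (mo (e m) u z) (mo (e m) F z)) := fun m =>
    H.intD (mo_meas (ε := e m) H.um) (H.mo_mem (he m)) (mo_meas (ε := e m) H.Fm)
      (H.mo_F1 (he m)) b1 hC
  have I3 : Integrable (fun z => W z • β (u z)) := H.intB H.um H.u2 H.uK W1 W2
  have I4 : Integrable (fun z : ST n => (η z.1 * ψ z.2) • fderiv ℝ β (u z) (F z)) :=
    H.intD H.um H.uK H.Fm H.F1 b1 hC
  have I5 : ∀ m, Integrable (fun z : ST n => (η z.1 * ψ z.2) •
      fderiv ℝ β (mo (e m) u z) (F z)) := fun m =>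
    H.intD (mo_meas (ε := e m) H.um) (H.mo_mem (he m)) H.Fm H.F1 b1 hC
  -- the mollified identity
  have hZ : ∀ m, (∫ z : ST n, W z • β (mo (e m) u z)) +
      (∫ z : ST n, (η z.1 * ψ z.2) • fderiv ℝ β (mo (e m) u z) (mo (e m) F z)) =
      BB β η ψ (e m) u v := by
    intro m
    have hJ := H.J_ST (he m) hη hψ
    obtain ⟨j1, j2⟩ := H.BB_int (he m) hη hψ H.vm H.v2
    have j3 := H.intB (mo_meas (ε := e m) H.um) (H.mo_u2 (he m)) (H.mo_mem (he m))
      (a1.integrable_of_hasCompactSupport a2) (a1.memLp_of_hasCompactSupport a2)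
    have j4 := H.intD (mo_meas (ε := e m) H.um) (H.mo_mem (he m))
      ((mo_meas (ε := e m) H.Fm).sub (qe_meas (ε := e m) H.vm H.um))
      ((H.mo_F1 (he m)).sub (qe_int (he m) H.vm H.um H.v2 H.u2)) b1 hC
    have j34 : Integrable (fun z : ST n => (deriv η z.1 * ψ z.2) • β (mo (e m) u z) +
      (η z.1 * ψ z.2) • fderiv ℝ β (mo (e m) u z) (mo (e m) F z - qe (e m) v u z)) := j3.add j4
    have j12 : Integrable (fun z : ST n => (η z.1 * fderiv ℝ ψ z.2 (v z)) • β (mo (e m) u z) +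
      (η z.1 * ψ z.2) • fderiv ℝ β (mo (e m) u z) (qe (e m) v u z)) := j1.add j2
    rw [← integral_add (I1 m) (I2 m)]
    calc ∫ z : ST n, (W z • β (mo (e m) u z) +
          (η z.1 * ψ z.2) • fderiv ℝ β (mo (e m) u z) (mo (e m) F z))
        = ∫ z : ST n, (((deriv η z.1 * ψ z.2) • β (mo (e m) u z) +
          (η z.1 * ψ z.2) • fderiv ℝ β (mo (e m) u z) (mo (e m) F z - qe (e m) v u z)) +
          ((η z.1 * fderiv ℝ ψ z.2 (v z)) • β (mo (e m) u z) +
          (η z.1 * ψ z.2) • fderiv ℝ β (mo (e m) u z) (qe (e m) v u z))) := by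
          congr 1
          ext1 z
          simp only [hW, add_smul, map_sub, smul_sub]
          abel
      _ = 0 + BB β η ψ (e m) u v := by
          rw [integral_add j34 j12, hJ]
          rfl
      _ = _ := zero_add _
  -- limits
  have T1 : Tendsto (fun m => ∫ z : ST n, W z • β (mo (e m) u z)) atTop
      (𝓝 (∫ z : ST n, W z • β (u z))) := by
    apply tendsto_integral_of_L1' _ I3.aestronglyMeasurable (Eventually.of_forall I1)
    have hb : ∀ m, eLpNorm ((fun z => W z • β (mo (e m) u z)) - fun z => W z • β (u z)) 1 volume ≤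
        ENNReal.ofReal L * (eLpNorm W 2 volume *
          eLpNorm (fun z => mo (e m) u z - u z) 2 volume) := by
      intro m
      rw [eLpNorm_one_eq_lintegral_enorm]
      calc ∫⁻ z, ‖((fun z => W z • β (mo (e m) u z)) - fun z => W z • β (u z)) z‖ₑ
          ≤ ∫⁻ z, ENNReal.ofReal L * (‖W z‖ₑ * ‖mo (e m) u z - u z‖ₑ) := by
            apply lintegral_mono_ae
            filter_upwards [H.mo_mem (he m), H.uK] with z hz1 hz2
            simp only [Pi.sub_apply]
            rw [← smul_sub, enorm_smul, mul_left_comm]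
            gcongr
            rw [← ofReal_norm, ← ofReal_norm, ← ENNReal.ofReal_mul H.L0]
            exact ENNReal.ofReal_le_ofReal (H.lip hz2 hz1)
        _ = ENNReal.ofReal L * ∫⁻ z, (‖W z‖ₑ * ‖mo (e m) u z - u z‖ₑ) :=
            lintegral_const_mul' _ _ ENNReal.ofReal_ne_top
        _ ≤ _ := by
            gcongr
            exact lintegral_enorm_mul_le Wm.aestronglyMeasurable
              ((mo_meas H.um).sub H.um).aestronglyMeasurable
    refine tendsto_of_tendsto_of_tendsto_of_le_of_le tendsto_const_nhds ?_ (fun _ => zero_le) hb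
    have h1 : Tendsto (fun m => eLpNorm W 2 volume *
          eLpNorm (fun z => mo (e m) u z - u z) 2 volume) atTop (𝓝 (eLpNorm W 2 volume * 0)) :=
      ENNReal.Tendsto.const_mul l1 (Or.inr W2.2.ne)
    have h2 := ENNReal.Tendsto.const_mul h1 (Or.inr (ENNReal.ofReal_ne_top (r := L)))
    simpa using h2
  have T2 : Tendsto (fun m => ∫ z : ST n, (η z.1 * ψ z.2) •
      fderiv ℝ β (mo (e m) u z) (F z)) atTop
      (𝓝 (∫ z : ST n, (η z.1 * ψ z.2) • fderiv ℝ β (u z) (F z))) := by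
    apply tendsto_integral_of_dominated_convergence (fun z => C * L * ‖F z‖)
      (fun m => (I5 m).aestronglyMeasurable) (H.F1.norm.const_mul _)
      (fun m => H.bndD (H.mo_mem (he m)) hC)
    filter_upwards [l4] with z hz
    have h1 : Tendsto (fun m => fderiv ℝ β (mo (e m) u z)) atTop (𝓝 (fderiv ℝ β (u z))) :=
      ((H.hβ.continuous_fderiv one_ne_zero).tendsto _).comp hz
    have h2 : Tendsto (fun m => fderiv ℝ β (mo (e m) u z) (F z)) atTop
        (𝓝 (fderiv ℝ β (u z) (F z))) :=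
      ((ContinuousLinearMap.apply ℝ E' (F z)).continuous.tendsto _).comp h1
    exact h2.const_smul _
  have T3 : Tendsto (fun m => ∫ z : ST n, (η z.1 * ψ z.2) •
      fderiv ℝ β (mo (e m) u z) (mo (e m) F z - F z)) atTop (𝓝 0) := by
    apply tendsto_zero_of_enorm_le (a := fun m => ENNReal.ofReal (C * L) *
      eLpNorm (fun z => mo (e m) F z - F z) 1 volume)
    · intro m
      rw [eLpNorm_one_eq_lintegral_enorm]
      exact H.normD (H.mo_mem (he m)) hC
    · have := ENNReal.Tendsto.const_mul l2 (Or.inr (ENNReal.ofReal_ne_top (r := C * L)))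
      simpa using this
  have T4 : Tendsto (fun m => (∫ z : ST n, W z • β (mo (e m) u z)) +
      (∫ z : ST n, (η z.1 * ψ z.2) • fderiv ℝ β (mo (e m) u z) (mo (e m) F z))) atTop
      (𝓝 ((∫ z : ST n, W z • β (u z)) +
        ((∫ z : ST n, (η z.1 * ψ z.2) • fderiv ℝ β (u z) (F z)) + 0))) := by
    apply T1.add
    refine (T2.add T3).congr fun m => ?_
    have I6 : Integrable (fun z : ST n => (η z.1 * ψ z.2) •
        fderiv ℝ β (mo (e m) u z) (mo (e m) F z - F z)) := by
      refine ((I2 m).sub (I5 m)).congr ?_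
      filter_upwards with z
      simp only [Pi.sub_apply, map_sub, smul_sub]
    rw [← integral_add (I5 m) I6]
    congr 1
    ext1 z
    rw [map_sub, ← smul_add, add_sub_cancel]
  have T5 : Tendsto (fun m => (∫ z : ST n, W z • β (mo (e m) u z)) +
      (∫ z : ST n, (η z.1 * ψ z.2) • fderiv ℝ β (mo (e m) u z) (mo (e m) F z))) atTop
      (𝓝 0) := l3.congr fun m => (hZ m).symm
  have hfin := tendsto_nhds_unique T4 T5
  rw [add_zero, ← integral_add I3 I4] at hfin
  exact hfin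

end RH

/-- **DiPerna–Lions renormalisation** -/
theorem renorm {n : ℕ} {E E' : Type*} [NormedAddCommGroup E] [NormedSpace ℝ E]
    [FiniteDimensional ℝ E] [MeasurableSpace E] [BorelSpace E]
    [NormedAddCommGroup E'] [NormedSpace ℝ E'] [FiniteDimensional ℝ E']
    [MeasurableSpace E'] [BorelSpace E']
    {Ω : Set (Eu n)} (_hΩ : IsOpen Ω) (_hΩb : Bornology.IsBounded Ω) {T : ℝ} (hT : 0 < T)
    {v : ST n → Eu n} {G : ST n → Mt n} (hv : IsVel Ω T v G)
    {u F : ST n → E} (hu : MemLp u 2 volume) (hF : Integrable F volume)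
    (h : TE T v u F) {K : Set E} (hK : Convex ℝ K) (hKc : IsClosed K) (hK0 : (0 : E) ∈ K)
    (huK : ∀ᵐ z, u z ∈ K) (β : E → E') (hβ : ContDiff ℝ 1 β) (L : ℝ)
    (hL : ∀ x ∈ K, ‖fderiv ℝ β x‖ ≤ L) :
    TE T v (fun z => β (u z)) (fun z => fderiv ℝ β (u z) (F z)) := by
  -- measurable representatives
  set v' : ST n → Eu n := hv.memv.1.mk v with hv'
  set u' : ST n → E := hu.1.mk u with hu'
  set F' : ST n → E := hF.1.mk F with hF'
  have ev : v =ᵐ[volume] v' := hv.memv.1.ae_eq_mk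
  have eu : u =ᵐ[volume] u' := hu.1.ae_eq_mk
  have eF : F =ᵐ[volume] F' := hF.1.ae_eq_mk
  have hvel : IsVel Ω T v' G := by
    refine ⟨hv.memv.ae_eq ev, hv.memG, fun ε hε => ?_⟩
    obtain ⟨w, Gw, h1, h2, h3⟩ := hv.approx ε hε
    refine ⟨w, Gw, h1, ?_, h3⟩
    rw [eLpNorm_congr_ae (g := v - w)]
    · exact h2
    · filter_upwards [ev] with z hz
      simp only [Pi.sub_apply, hz]
  have hte : TE T v' u' F' := by
    intro η ψ hη hψ
    rw [← h η ψ hη hψ]
    apply integral_congr_ae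
    filter_upwards [ev, eu, eF] with z h1 h2 h3
    rw [h1, h2, h3]
  have H : RH T v' u' F' K β L :=
    { hT := hT
      vm := hv.memv.1.stronglyMeasurable_mk
      um := hu.1.stronglyMeasurable_mk
      Fm := hF.1.stronglyMeasurable_mk
      v2 := hv.memv.ae_eq ev
      u2 := hu.ae_eq eu
      F1 := hF.congr eF
      te := hte
      hK := hK
      hKc := hKc
      hK0 := hK0
      uK := by
        filter_upwards [huK, eu] with z h1 h2
        rwa [← h2]
      hβ := hβ
      hL := hL }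
  have hm := H.main hvel
  intro η ψ hη hψ
  rw [← hm η ψ hη hψ]
  apply integral_congr_ae
  filter_upwards [ev, eu, eF] with z h1 h2 h3
  rw [h1, h2, h3]

end Pool.Agent.Helper47.Jef
end

section
/-! # DiPerna–Lions renormalisation, locally integrable right-hand side -/

open MeasureTheory Set Filter Topology
open scoped ENNReal ContDiff

namespace Pool.Agent.Helper47.Jef

open Pool.Agent.Helper42.Jef

variable {n : ℕ}

/-- local version of `renorm` -/
theorem renorm_loc {E E' : Type*} [NormedAddCommGroup E] [NormedSpace ℝ E]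
    [FiniteDimensional ℝ E] [MeasurableSpace E] [BorelSpace E]
    [NormedAddCommGroup E'] [NormedSpace ℝ E'] [FiniteDimensional ℝ E']
    [MeasurableSpace E'] [BorelSpace E']
    {Ω : Set (Eu n)} (hΩ : IsOpen Ω) (hΩb : Bornology.IsBounded Ω) {T : ℝ} (hT : 0 < T)
    {v : ST n → Eu n} {G : ST n → Mt n} (hv : IsVel Ω T v G)
    {u F : ST n → E} (hu : MemLp u 2 volume)
    (hF : ∀ R : ℝ, IntegrableOn F {z : ST n | ‖z.2‖ ≤ R} volume)
    (h : TE T v u F) {K : Set E} (hK : Convex ℝ K) (hKc : IsClosed K) (hK0 : (0 : E) ∈ K)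
    (huK : ∀ᵐ z, u z ∈ K) (β : E → E') (hβ : ContDiff ℝ 1 β) (L : ℝ)
    (hL : ∀ x ∈ K, ‖fderiv ℝ β x‖ ≤ L) :
    TE T v (fun z => β (u z)) (fun z => fderiv ℝ β (u z) (F z)) := by
  intro η ψ hη hψ
  -- a large ball
  obtain ⟨R, hR0, hR⟩ : ∃ R : ℝ, 0 < R ∧ Ω ∪ tsupport ψ ⊆ Metric.ball (0 : Eu n) R := by
    have h1 : Bornology.IsBounded (Ω ∪ tsupport ψ) := hΩb.union hψ.cpt.isCompact.isBounded
    obtain ⟨r, hr⟩ := h1.subset_ball (0 : Eu n)
    refine ⟨max r 1, lt_max_of_lt_right one_pos, hr.trans (Metric.ball_subset_ball (le_max_left _ _))⟩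
  let b : ContDiffBump (0 : Eu n) := ⟨R, R + 1, hR0, by linarith⟩
  let κ : Eu n → ℝ := b
  have κs : ContDiff ℝ ∞ κ := b.contDiff
  have κ0 : ∀ x, 0 ≤ κ x := fun x => b.nonneg
  have κ1 : ∀ x, κ x ≤ 1 := fun x => b.le_one
  have κone : ∀ x ∈ Metric.ball (0 : Eu n) R, κ x = 1 := fun x hx =>
    b.one_of_mem_closedBall (Metric.ball_subset_closedBall hx)
  have κout : ∀ x : Eu n, R + 1 ≤ ‖x‖ → κ x = 0 := fun x hx =>
    b.zero_of_le_dist (by rwa [dist_zero_right])
  have κd : ∀ x ∈ Metric.ball (0 : Eu n) R, fderiv ℝ κ x = 0 := by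
    intro x hx
    have h1 : κ =ᶠ[𝓝 x] fun _ => 1 := by
      filter_upwards [Metric.isOpen_ball.mem_nhds hx] with y hy
      exact κone y hy
    rw [h1.fderiv_eq]
    simp
  have hv0 := (hv.zero_out hΩ.measurableSet).1
  have κv : ∀ᵐ z : ST n, fderiv ℝ κ z.2 (v z) = 0 := by
    filter_upwards [hv0] with z hz
    by_cases hzΩ : z.2 ∈ Ω
    · rw [κd z.2 (hR (Or.inl hzΩ))]
      rfl
    · rw [hz (Or.inr hzΩ), map_zero]
  have κm : Continuous (fun z : ST n => κ z.2) := κs.continuous.comp continuous_snd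
  have κb : ∀ z : ST n, ‖κ z.2‖ ≤ 1 := fun z => by
    rw [Real.norm_of_nonneg (κ0 _)]
    exact κ1 _
  -- cut off
  set u' : ST n → E := fun z => κ z.2 • u z with hu'
  set F' : ST n → E := fun z => κ z.2 • F z with hF'
  have u2' : MemLp u' 2 volume := by
    refine hu.mono (κm.aestronglyMeasurable.smul hu.1) ?_
    filter_upwards with z
    rw [hu', norm_smul]
    exact mul_le_of_le_one_left (norm_nonneg _) (κb z)
  have F1' : Integrable F' := by
    have h1 : IntegrableOn F' {z : ST n | ‖z.2‖ ≤ R + 1} volume :=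
      (hF (R + 1)).bdd_smul 1 κm.aestronglyMeasurable (Eventually.of_forall κb)
    have hm : MeasurableSet {z : ST n | ‖z.2‖ ≤ R + 1} :=
      (isClosed_le (continuous_snd.norm) continuous_const).measurableSet
    have h2 := (integrable_indicator_iff hm).2 h1
    refine h2.congr ?_
    filter_upwards with z
    by_cases hz : z ∈ {z : ST n | ‖z.2‖ ≤ R + 1}
    · rw [indicator_of_mem hz]
    · rw [indicator_of_notMem hz]
      rw [mem_ofPred_eq, not_le] at hz
      simp only [hF', κout z.2 hz.le, zero_smul]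
  have te' : TE T v u' F' := by
    intro ζ χ hζ hχ
    have hκχ : IsTest (fun x => κ x * χ x) := ⟨κs.mul hχ.smooth, hχ.cpt.mul_left⟩
    rw [← h ζ _ hζ hκχ]
    apply integral_congr_ae
    filter_upwards [κv] with z hz
    have h1 : fderiv ℝ (fun x => κ x * χ x) z.2 (v z) = κ z.2 * fderiv ℝ χ z.2 (v z) := by
      have h2 : HasFDerivAt κ (fderiv ℝ κ z.2) z.2 :=
        (κs.differentiable (by simp) _).hasFDerivAt
      have h3 : HasFDerivAt χ (fderiv ℝ χ z.2) z.2 :=
        (hχ.smooth.differentiable (by simp) _).hasFDerivAt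
      have h4 : fderiv ℝ (fun x => κ x * χ x) z.2 = _ := (h2.mul h3).fderiv
      rw [h4]
      simp [hz]
    simp only [hu', hF', h1, smul_smul]
    congr 2 <;> ring
  have uK' : ∀ᵐ z, u' z ∈ K := by
    filter_upwards [huK] with z hz
    have h1 := hK hK0 hz (a := 1 - κ z.2) (b := κ z.2) (by linarith [κ1 z.2]) (κ0 _) (by ring)
    rwa [smul_zero, zero_add] at h1
  have hm := renorm hΩ hΩb hT hv u2' F1' te' hK hKc hK0 uK' β hβ L hL
  rw [← hm η ψ hη hψ]
  apply integral_congr_ae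
  filter_upwards with z
  by_cases hz : z.2 ∈ tsupport ψ
  · have h1 : κ z.2 = 1 := κone _ (hR (Or.inr hz))
    simp only [hu', hF', h1, one_smul]
  · have h1 : ψ z.2 = 0 := image_eq_zero_of_notMem_tsupport hz
    have h2 : fderiv ℝ ψ z.2 = 0 :=
      image_eq_zero_of_notMem_tsupport fun hc => hz (tsupport_fderiv_subset ℝ hc)
    simp [h1, h2]

end Pool.Agent.Helper47.Jef
end

section
/-! # Mollification in time of product tests -/

open MeasureTheory Set Filter Topology
open scoped ENNReal ContDiff Convolution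

namespace Pool.Agent.Helper44.Vort
open Pool.Agent.Helper42.Jef

variable {n : ℕ}

theorem cpt_ball {E : Type*} [NormedAddCommGroup E] {k : E → ℝ} (h : HasCompactSupport k) :
    ∃ R : ℝ, 0 < R ∧ ∀ x, R < ‖x‖ → k x = 0 := by
  obtain ⟨R, hR⟩ := h.isCompact.isBounded.subset_closedBall (0 : E)
  refine ⟨max R 1, lt_of_lt_of_le one_pos (le_max_right _ _), fun x hx => ?_⟩
  refine image_eq_zero_of_notMem_tsupport fun hc => ?_
  have := hR hc
  rw [mem_closedBall_zero_iff] at this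
  exact absurd ((le_max_left R 1).trans_lt hx) (not_lt.2 this)

theorem cc_bdd {E : Type*} [NormedAddCommGroup E] {k : E → ℝ} (hk : Continuous k)
    (h : HasCompactSupport k) : ∃ C : ℝ, 0 ≤ C ∧ ∀ x, |k x| ≤ C := by
  obtain ⟨C, hC⟩ := hk.bounded_above_of_compact_support h
  exact ⟨max C 0, le_max_right _ _, fun x => ((hC x).trans (le_max_left _ _))⟩

theorem int_ball {f : ST n → ℝ} (hf : LocallyIntegrable f volume) (R C : ℝ) :
    Integrable ((Metric.closedBall (0 : ST n) R).indicator fun z => C * |f z|) volume := by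
  rw [integrable_indicator_iff Metric.isClosed_closedBall.measurableSet]
  exact ((hf.integrableOn_isCompact (isCompact_closedBall _ _)).abs).const_mul C

theorem joint_bound {f : ST n → ℝ} {k : ℝ → ℝ} {χ : ST n → ℝ} {R1 R2 C1 C2 : ℝ}
    (hR1 : 0 < R1)
    (h1 : ∀ x, R1 < ‖x‖ → k x = 0) (h2 : ∀ x, R2 < ‖x‖ → χ x = 0) (hC1 : ∀ x, |k x| ≤ C1)
    (hC10 : 0 ≤ C1) (hC2 : ∀ x, |χ x| ≤ C2) (hC20 : 0 ≤ C2) (s : ℝ) (z : ST n) :
    ‖k (z.1 - s) * (f z * χ (s, z.2))‖ ≤
      (Metric.closedBall (0 : ℝ) R2).indicator (fun _ => (1 : ℝ)) s *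
        (Metric.closedBall (0 : ST n) (R1 + R2)).indicator (fun z => (C1 * C2) * |f z|) z := by
  by_cases hk0 : R1 < ‖z.1 - s‖
  · rw [h1 _ hk0, zero_mul, norm_zero]
    refine mul_nonneg (indicator_nonneg (fun _ _ => by norm_num) _)
      (indicator_nonneg (fun _ _ => by positivity) _)
  by_cases hk1 : R2 < ‖((s, z.2) : ST n)‖
  · rw [h2 _ hk1, mul_zero, mul_zero, norm_zero]
    refine mul_nonneg (indicator_nonneg (fun _ _ => by norm_num) _)
      (indicator_nonneg (fun _ _ => by positivity) _)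
  rw [not_lt] at hk0 hk1
  have hs : |s| ≤ R2 := (le_max_left _ _).trans hk1
  have hx : ‖z.2‖ ≤ R2 := (le_max_right _ _).trans hk1
  have ht : ‖z.1‖ ≤ R1 + R2 := by
    calc ‖z.1‖ = ‖(z.1 - s) + s‖ := by rw [sub_add_cancel]
      _ ≤ ‖z.1 - s‖ + ‖s‖ := norm_add_le _ _
      _ ≤ _ := add_le_add hk0 hs
  have hz : ‖z‖ ≤ R1 + R2 := max_le ht (hx.trans (by linarith))
  rw [indicator_of_mem (by rw [mem_closedBall_zero_iff]; exact hs),
    indicator_of_mem (by rw [mem_closedBall_zero_iff]; exact hz), one_mul, norm_mul, norm_mul]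
  simp only [Real.norm_eq_abs]
  calc |k (z.1 - s)| * (|f z| * |χ (s, z.2)|) ≤ C1 * (|f z| * C2) := by
        refine mul_le_mul (hC1 _) ?_ (by positivity) hC10
        exact mul_le_mul_of_nonneg_left (hC2 _) (abs_nonneg _)
    _ = _ := by ring

/-- joint integrability -/
theorem joint_int {f : ST n → ℝ} (hf : LocallyIntegrable f volume) {k : ℝ → ℝ}
    (hk : Continuous k) (hkc : HasCompactSupport k) {χ : ST n → ℝ} (hχ : Continuous χ)
    (hχc : HasCompactSupport χ) :
    Integrable (fun p : ℝ × ST n => k (p.2.1 - p.1) * (f p.2 * χ (p.1, p.2.2)))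
      ((volume : Measure ℝ).prod (volume : Measure (ST n))) := by
  obtain ⟨R1, hR1, h1⟩ := cpt_ball hkc
  obtain ⟨R2, hR2, h2⟩ := cpt_ball hχc
  obtain ⟨C1, hC10, hC1⟩ := cc_bdd hk hkc
  obtain ⟨C2, hC20, hC2⟩ := cc_bdd hχ hχc
  have hi : Integrable ((Metric.closedBall (0 : ℝ) R2).indicator (fun _ => (1 : ℝ))) volume := by
    rw [integrable_indicator_iff Metric.isClosed_closedBall.measurableSet]
    exact integrableOn_const (isCompact_closedBall (0 : ℝ) R2).measure_lt_top.ne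
  refine (hi.mul_prod (int_ball hf (R1 + R2) (C1 * C2))).mono' ?_
    (Eventually.of_forall fun p => joint_bound hR1 h1 h2 hC1 hC10 hC2 hC20 p.1 p.2)
  have m1 : Continuous fun p : ℝ × ST n => k (p.2.1 - p.1) := hk.comp (by fun_prop)
  have m2 : Continuous fun p : ℝ × ST n => χ (p.1, p.2.2) := hχ.comp (by fun_prop)
  exact m1.aestronglyMeasurable.mul (hf.aestronglyMeasurable.comp_snd.mul m2.aestronglyMeasurable)

/-- integrability of every slice -/
theorem slice_int {f : ST n → ℝ} (hf : LocallyIntegrable f volume) {k : ℝ → ℝ}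
    (hk : Continuous k) (hkc : HasCompactSupport k) {χ : ST n → ℝ} (hχ : Continuous χ)
    (hχc : HasCompactSupport χ) (s : ℝ) :
    Integrable (fun z : ST n => k (z.1 - s) * (f z * χ (s, z.2))) := by
  obtain ⟨R1, hR1, h1⟩ := cpt_ball hkc
  obtain ⟨R2, hR2, h2⟩ := cpt_ball hχc
  obtain ⟨C1, hC10, hC1⟩ := cc_bdd hk hkc
  obtain ⟨C2, hC20, hC2⟩ := cc_bdd hχ hχc
  refine ((int_ball hf (R1 + R2) (C1 * C2)).const_mul
    ((Metric.closedBall (0 : ℝ) R2).indicator (fun _ => (1 : ℝ)) s)).mono' ?_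
    (Eventually.of_forall fun z => joint_bound hR1 h1 h2 hC1 hC10 hC2 hC20 s z)
  have m1 : Continuous fun z : ST n => k (z.1 - s) := hk.comp (by fun_prop)
  have m2 : Continuous fun z : ST n => χ (s, z.2) := hχ.comp (by fun_prop)
  exact m1.aestronglyMeasurable.mul (hf.aestronglyMeasurable.mul m2.aestronglyMeasurable)

theorem moll_swap {f : ST n → ℝ} (hf : LocallyIntegrable f volume) {k : ℝ → ℝ}
    (hk : Continuous k) (hkc : HasCompactSupport k) {χ : ST n → ℝ} (hχ : Continuous χ)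
    (hχc : HasCompactSupport χ) :
    ∫ s, ∫ z : ST n, k (z.1 - s) * (f z * χ (s, z.2)) =
      ∫ z : ST n, f z * ∫ s, k (z.1 - s) * χ (s, z.2) := by
  rw [integral_integral_swap (joint_int hf hk hkc hχ hχc)]
  refine integral_congr_ae (Eventually.of_forall fun z => ?_)
  simp only
  rw [← integral_const_mul]
  refine integral_congr_ae (Eventually.of_forall fun s => ?_)
  simp only
  ring

theorem moll_tendsto {f : ST n → ℝ} (hf : LocallyIntegrable f volume) {χ : ST n → ℝ}
    (hχ : Continuous χ) (hχc : HasCompactSupport χ) {b : ℕ → ContDiffBump (0 : ℝ)}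
    (hb : Tendsto (fun m => (b m).rOut) atTop (𝓝 0)) (hb1 : ∀ m, (b m).rOut ≤ 1) :
    Tendsto (fun m => ∫ s, ∫ z : ST n, (b m).normed volume (z.1 - s) * (f z * χ (s, z.2)))
      atTop (𝓝 (∫ z, f z * χ z)) := by
  have hk : ∀ m, Continuous ((b m).normed volume) := fun m => (b m).continuous_normed
  have hkc : ∀ m, HasCompactSupport ((b m).normed volume) := fun m =>
    (b m).hasCompactSupport_normed
  simp only [fun m => moll_swap hf (hk m) (hkc m) hχ hχc]
  obtain ⟨R2, hR2, h2⟩ := cpt_ball hχc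
  obtain ⟨C2, hC20, hC2⟩ := cc_bdd hχ hχc
  have hg : ∀ z : ST n, Continuous fun s : ℝ => χ (s, z.2) := fun z => hχ.comp (by fun_prop)
  have hI : ∀ m (z : ST n), Integrable fun s => (b m).normed volume (z.1 - s) * χ (s, z.2) := by
    intro m z
    have hc : HasCompactSupport fun s : ℝ => χ (s, z.2) := by
      refine HasCompactSupport.intro (isCompact_closedBall (0 : ℝ) R2) fun s hs => ?_
      refine h2 _ (lt_of_lt_of_le ?_ (le_max_left _ _))
      rw [mem_closedBall_zero_iff, not_le] at hs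
      exact hs
    exact (((hk m).comp (by fun_prop)).mul (hg z)).integrable_of_hasCompactSupport hc.mul_left
  have hbd : ∀ m (z : ST n), |∫ s, (b m).normed volume (z.1 - s) * χ (s, z.2)| ≤
      (Metric.closedBall (0 : ST n) (1 + R2)).indicator (fun _ => C2) z := by
    intro m z
    by_cases hz : z ∈ Metric.closedBall (0 : ST n) (1 + R2)
    · rw [indicator_of_mem hz]
      have h3 : ∫ s, (b m).normed volume (z.1 - s) = 1 := by
        rw [integral_sub_left_eq_self (fun s => (b m).normed volume s) volume z.1]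
        exact (b m).integral_normed
      have h4 : Integrable fun s => (b m).normed volume (z.1 - s) :=
        ((hk m).integrable_of_hasCompactSupport (hkc m)).comp_sub_left z.1
      calc |∫ s, (b m).normed volume (z.1 - s) * χ (s, z.2)|
          ≤ ∫ s, |(b m).normed volume (z.1 - s) * χ (s, z.2)| := abs_integral_le_integral_abs
        _ ≤ ∫ s, (b m).normed volume (z.1 - s) * C2 := by
            refine integral_mono (hI m z).abs (h4.mul_const _) fun s => ?_
            simp only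
            rw [abs_mul, abs_of_nonneg ((b m).nonneg_normed _)]
            exact mul_le_mul_of_nonneg_left (hC2 _) ((b m).nonneg_normed _)
        _ = C2 := by rw [integral_mul_const, h3, one_mul]
    · rw [indicator_of_notMem hz]
      have h3 : ∀ s, (b m).normed volume (z.1 - s) * χ (s, z.2) = 0 := by
        intro s
        by_cases h4 : R2 < ‖((s, z.2) : ST n)‖
        · rw [h2 _ h4, mul_zero]
        · rw [not_lt] at h4
          have h5 : (z.1 - s) ∉ Function.support ((b m).normed volume) := by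
            rw [(b m).support_normed_eq, mem_ball_zero_iff, not_lt]
            rw [mem_closedBall_zero_iff, not_le] at hz
            have hs : |s| ≤ R2 := (le_max_left _ _).trans h4
            have hx : ‖z.2‖ ≤ R2 := (le_max_right _ _).trans h4
            have h6 : 1 + R2 < ‖z.1‖ := by
              have h7 : ‖z‖ = max ‖z.1‖ ‖z.2‖ := rfl
              rw [h7, lt_max_iff] at hz
              rcases hz with hz | hz
              · exact hz
              · exact absurd hz (not_lt.2 (by linarith))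
            have h8 : ‖z.1‖ ≤ ‖z.1 - s‖ + ‖s‖ := by
              calc ‖z.1‖ = ‖(z.1 - s) + s‖ := by rw [sub_add_cancel]
                _ ≤ _ := norm_add_le _ _
            have h9 : ‖s‖ ≤ R2 := hs
            have := hb1 m
            linarith
          rw [Function.notMem_support.1 h5, zero_mul]
      simp only [h3]
      simp
  refine tendsto_integral_of_dominated_convergence
    ((Metric.closedBall (0 : ST n) (1 + R2)).indicator fun z => C2 * |f z|) ?_
    (int_ball hf (1 + R2) C2) ?_ ?_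
  · intro m
    have h3 := (joint_int hf (hk m) (hkc m) hχ hχc).integral_prod_right
    refine h3.aestronglyMeasurable.congr (Eventually.of_forall fun z => ?_)
    simp only
    rw [← integral_const_mul]
    refine integral_congr_ae (Eventually.of_forall fun s => ?_)
    simp only
    ring
  · intro m
    refine Eventually.of_forall fun z => ?_
    have h3 := hbd m z
    rw [norm_mul, Real.norm_eq_abs, Real.norm_eq_abs]
    by_cases hz : z ∈ Metric.closedBall (0 : ST n) (1 + R2)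
    · rw [indicator_of_mem hz] at h3 ⊢
      rw [mul_comm]
      exact mul_le_mul_of_nonneg_right h3 (abs_nonneg _)
    · rw [indicator_of_notMem hz] at h3 ⊢
      have h4 : |∫ s, (b m).normed volume (z.1 - s) * χ (s, z.2)| = 0 :=
        le_antisymm h3 (abs_nonneg _)
      rw [h4, mul_zero]
  · refine Eventually.of_forall fun z => ?_
    refine Tendsto.mul tendsto_const_nhds ?_
    have h3 := ContDiffBump.convolution_tendsto_right_of_continuous (μ := (volume : Measure ℝ))
      hb (hg z) z.1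
    refine h3.congr fun m => ?_
    rw [convolution_eq_swap]
    rfl

theorem moll_deriv {f : ST n → ℝ} (hf : LocallyIntegrable f volume) {χ : ST n → ℝ} (hχ : SC χ)
    (b : ContDiffBump (0 : ℝ)) :
    ∫ s, ∫ z : ST n, deriv (b.normed volume) (z.1 - s) * (f z * χ (s, z.2)) =
      ∫ s, ∫ z : ST n, b.normed volume (z.1 - s) * (f z * dt χ (s, z.2)) := by
  have hk : Continuous (b.normed volume) := b.continuous_normed
  have hkc : HasCompactSupport (b.normed volume) := b.hasCompactSupport_normed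
  have hks : ContDiff ℝ 1 (b.normed (volume : Measure ℝ)) := b.contDiff_normed
  have hk' : Continuous (deriv (b.normed (volume : Measure ℝ))) := hks.continuous_deriv le_rfl
  have hkc' : HasCompactSupport (deriv (b.normed (volume : Measure ℝ))) := hkc.deriv
  rw [moll_swap hf hk' hkc' hχ.smooth.continuous hχ.cpt,
    moll_swap hf hk hkc hχ.dt.smooth.continuous hχ.dt.cpt]
  refine integral_congr_ae (Eventually.of_forall fun z => ?_)
  simp only
  congr 1
  have hu : ∀ s : ℝ, HasDerivAt (fun s => b.normed volume (z.1 - s))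
      (-deriv (b.normed volume) (z.1 - s)) s := by
    intro s
    have h1 : HasDerivAt (b.normed volume) (deriv (b.normed volume) (z.1 - s)) (z.1 - s) :=
      (hks.differentiable (by simp) _).hasDerivAt
    exact h1.comp_const_sub z.1 s
  have hv : ∀ s : ℝ, HasDerivAt (fun s => χ (s, z.2)) (dt χ (s, z.2)) s := by
    intro s
    have h1 : HasFDerivAt χ (fderiv ℝ χ (s, z.2)) (s, z.2) :=
      (hχ.smooth.differentiable (by simp) _).hasFDerivAt
    have h2 : HasDerivAt (fun s : ℝ => ((s, z.2) : ST n)) (1, 0) s :=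
      (hasDerivAt_id s).prodMk (hasDerivAt_const s z.2)
    exact h1.comp_hasDerivAt s h2
  have cc : ∀ {ξ : ST n → ℝ}, SC ξ → HasCompactSupport fun s : ℝ => ξ (s, z.2) := by
    intro ξ hξ
    obtain ⟨R2, hR2, h2⟩ := cpt_ball hξ.cpt
    refine HasCompactSupport.intro (isCompact_closedBall (0 : ℝ) R2) fun s hs => ?_
    refine h2 _ (lt_of_lt_of_le ?_ (le_max_left _ _))
    rw [mem_closedBall_zero_iff, not_le] at hs
    exact hs
  have cs : ∀ {ξ : ST n → ℝ}, SC ξ → Continuous fun s : ℝ => ξ (s, z.2) := fun hξ =>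
    hξ.smooth.continuous.comp (by fun_prop)
  have h1 := integral_mul_deriv_eq_deriv_mul_of_integrable (u := fun s => b.normed volume (z.1 - s))
    (v := fun s => χ (s, z.2)) (u' := fun s => -deriv (b.normed volume) (z.1 - s))
    (v' := fun s => dt χ (s, z.2)) (fun s _ => hu s) (fun s _ => hv s)
    (((hk.comp (by fun_prop)).mul (cs hχ.dt)).integrable_of_hasCompactSupport (cc hχ.dt).mul_left)
    (((hk'.comp (by fun_prop)).neg.mul (cs hχ)).integrable_of_hasCompactSupport (cc hχ).mul_left)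
    (((hk.comp (by fun_prop)).mul (cs hχ)).integrable_of_hasCompactSupport (cc hχ).mul_left)
  rw [h1, ← integral_neg]
  refine integral_congr_ae (Eventually.of_forall fun s => ?_)
  simp only
  ring

/-- from product tests with time mollifiers to general tests -/
theorem diag {f1 f2 : ST n → ℝ} (hf1 : LocallyIntegrable f1 volume)
    (hf2 : LocallyIntegrable f2 volume) {χ1 χ2 : ST n → ℝ} (hχ1 : SC χ1) (hχ2 : SC χ2)
    {g1 g2 : Fin n → ST n → ℝ} (hg1 : ∀ l, LocallyIntegrable (g1 l) volume)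
    (hg2 : ∀ l, LocallyIntegrable (g2 l) volume) {ξ1 ξ2 : Fin n → ST n → ℝ}
    (hξ1 : ∀ l, SC (ξ1 l)) (hξ2 : ∀ l, SC (ξ2 l)) {δ0 : ℝ} (hδ0 : 0 < δ0)
    (h : ∀ b : ContDiffBump (0 : ℝ), b.rOut < δ0 → ∀ s : ℝ,
      ∫ z : ST n, (deriv (b.normed volume) (z.1 - s) * (f1 z * χ1 (s, z.2) - f2 z * χ2 (s, z.2)) +
        b.normed volume (z.1 - s) * ∑ l, (g1 l z * ξ1 l (s, z.2) - g2 l z * ξ2 l (s, z.2))) = 0) :
    (∫ z, f1 z * dt χ1 z) - (∫ z, f2 z * dt χ2 z) +
      ∑ l, ((∫ z, g1 l z * ξ1 l z) - ∫ z, g2 l z * ξ2 l z) = 0 := by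
  set δ : ℕ → ℝ := fun m => min δ0 1 / ((m : ℝ) + 2) with hδ
  have hmin : 0 < min δ0 1 := lt_min hδ0 one_pos
  have hδp : ∀ m, 0 < δ m := fun m => by positivity
  have hδlt : ∀ m, δ m < min δ0 1 := by
    intro m
    rw [hδ]
    simp only
    rw [div_lt_iff₀ (by positivity)]
    have : (0 : ℝ) ≤ m := Nat.cast_nonneg m
    nlinarith
  let b : ℕ → ContDiffBump (0 : ℝ) := fun m => ⟨δ m / 2, δ m, by linarith [hδp m],
    by linarith [hδp m]⟩
  have hb : Tendsto (fun m => (b m).rOut) atTop (𝓝 0) := by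
    have h1 : Tendsto (fun m : ℕ => ((m : ℝ) + 2)) atTop atTop :=
      tendsto_atTop_add_const_right _ _ tendsto_natCast_atTop_atTop
    exact h1.const_div_atTop _
  have hb1 : ∀ m, (b m).rOut ≤ 1 := fun m => (hδlt m).le.trans (min_le_right _ _)
  have hb0 : ∀ m, (b m).rOut < δ0 := fun m => (hδlt m).trans_le (min_le_left _ _)
  have key : ∀ m, (∫ s, ∫ z : ST n, (b m).normed volume (z.1 - s) * (f1 z * dt χ1 (s, z.2))) -
      (∫ s, ∫ z : ST n, (b m).normed volume (z.1 - s) * (f2 z * dt χ2 (s, z.2))) +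
      ∑ l, ((∫ s, ∫ z : ST n, (b m).normed volume (z.1 - s) * (g1 l z * ξ1 l (s, z.2))) -
        ∫ s, ∫ z : ST n, (b m).normed volume (z.1 - s) * (g2 l z * ξ2 l (s, z.2))) = 0 := by
    intro m
    have hk : Continuous ((b m).normed volume) := (b m).continuous_normed
    have hkc : HasCompactSupport ((b m).normed volume) := (b m).hasCompactSupport_normed
    have hks : ContDiff ℝ 1 ((b m).normed (volume : Measure ℝ)) := (b m).contDiff_normed
    have hk' : Continuous (deriv ((b m).normed (volume : Measure ℝ))) :=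
      hks.continuous_deriv le_rfl
    have hkc' : HasCompactSupport (deriv ((b m).normed (volume : Measure ℝ))) := hkc.deriv
    rw [← moll_deriv hf1 hχ1, ← moll_deriv hf2 hχ2]
    have J1 : Integrable fun s => ∫ z : ST n, deriv ((b m).normed volume) (z.1 - s) *
        (f1 z * χ1 (s, z.2)) :=
      (joint_int hf1 hk' hkc' hχ1.smooth.continuous hχ1.cpt).integral_prod_left
    have J2 : Integrable fun s => ∫ z : ST n, deriv ((b m).normed volume) (z.1 - s) *
        (f2 z * χ2 (s, z.2)) :=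
      (joint_int hf2 hk' hkc' hχ2.smooth.continuous hχ2.cpt).integral_prod_left
    have J12 : Integrable fun s => (∫ z : ST n, deriv ((b m).normed volume) (z.1 - s) *
        (f1 z * χ1 (s, z.2))) - ∫ z : ST n, deriv ((b m).normed volume) (z.1 - s) *
        (f2 z * χ2 (s, z.2)) := J1.sub J2
    have J3 := fun l => (joint_int (hg1 l) hk hkc (hξ1 l).smooth.continuous
      (hξ1 l).cpt).integral_prod_left
    have J4 := fun l => (joint_int (hg2 l) hk hkc (hξ2 l).smooth.continuous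
      (hξ2 l).cpt).integral_prod_left
    have J5 : ∀ l, Integrable fun s => (∫ z : ST n, (b m).normed volume (z.1 - s) *
        (g1 l z * ξ1 l (s, z.2))) - ∫ z : ST n, (b m).normed volume (z.1 - s) *
        (g2 l z * ξ2 l (s, z.2)) := fun l => (J3 l).sub (J4 l)
    have J6 : ∀ l, (∫ s, ∫ z : ST n, (b m).normed volume (z.1 - s) * (g1 l z * ξ1 l (s, z.2))) -
        (∫ s, ∫ z : ST n, (b m).normed volume (z.1 - s) * (g2 l z * ξ2 l (s, z.2))) =
        ∫ s, ((∫ z : ST n, (b m).normed volume (z.1 - s) * (g1 l z * ξ1 l (s, z.2))) -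
        ∫ z : ST n, (b m).normed volume (z.1 - s) * (g2 l z * ξ2 l (s, z.2))) := fun l =>
      (integral_sub (J3 l) (J4 l)).symm
    simp only [J6]
    rw [← integral_finsetSum _ fun l _ => J5 l, ← integral_sub J1 J2]
    rw [← integral_add J12 (integrable_finsetSum _ fun l _ => J5 l)]
    refine integral_eq_zero_of_ae (Eventually.of_forall fun s => ?_)
    simp only [Pi.zero_apply]
    refine Eq.trans ?_ (h (b m) (hb0 m) s)
    have S1 := slice_int hf1 hk' hkc' hχ1.smooth.continuous hχ1.cpt s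
    have S2 := slice_int hf2 hk' hkc' hχ2.smooth.continuous hχ2.cpt s
    have S3 := fun l => slice_int (hg1 l) hk hkc (hξ1 l).smooth.continuous (hξ1 l).cpt s
    have S4 := fun l => slice_int (hg2 l) hk hkc (hξ2 l).smooth.continuous (hξ2 l).cpt s
    have S12 : Integrable fun z : ST n => deriv ((b m).normed volume) (z.1 - s) *
        (f1 z * χ1 (s, z.2)) - deriv ((b m).normed volume) (z.1 - s) *
        (f2 z * χ2 (s, z.2)) := S1.sub S2
    have S34 : ∀ l, Integrable fun z : ST n => (b m).normed volume (z.1 - s) *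
        (g1 l z * ξ1 l (s, z.2)) - (b m).normed volume (z.1 - s) * (g2 l z * ξ2 l (s, z.2)) :=
      fun l => (S3 l).sub (S4 l)
    have S5 : ∀ l, (∫ z : ST n, (b m).normed volume (z.1 - s) * (g1 l z * ξ1 l (s, z.2))) -
        (∫ z : ST n, (b m).normed volume (z.1 - s) * (g2 l z * ξ2 l (s, z.2))) =
        ∫ z : ST n, ((b m).normed volume (z.1 - s) * (g1 l z * ξ1 l (s, z.2)) -
          (b m).normed volume (z.1 - s) * (g2 l z * ξ2 l (s, z.2))) := fun l =>
      (integral_sub (S3 l) (S4 l)).symm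
    simp only [S5]
    rw [← integral_finsetSum _ fun l _ => S34 l, ← integral_sub S1 S2,
      ← integral_add S12 (integrable_finsetSum _ fun l _ => S34 l)]
    refine integral_congr_ae (Eventually.of_forall fun z => ?_)
    simp only
    rw [Finset.mul_sum]
    congr 1
    · ring
    · exact Finset.sum_congr rfl fun l _ => by ring
  have lim := ((moll_tendsto hf1 hχ1.dt.smooth.continuous hχ1.dt.cpt hb hb1).sub
    (moll_tendsto hf2 hχ2.dt.smooth.continuous hχ2.dt.cpt hb hb1)).add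
    (tendsto_finsetSum Finset.univ fun l _ =>
      (moll_tendsto (hg1 l) (hξ1 l).smooth.continuous (hξ1 l).cpt hb hb1).sub
      (moll_tendsto (hg2 l) (hξ2 l).smooth.continuous (hξ2 l).cpt hb hb1))
  refine tendsto_nhds_unique lim ?_
  simp only [key]
  exact tendsto_const_nhds

end Pool.Agent.Helper44.Vort
end

section
/-! # Integration by parts in the velocity class, for scalar tests -/

open MeasureTheory Set Filter Topology
open scoped ENNReal ContDiff Convolution

namespace Pool.Agent.Helper44.Vort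
open Pool.Agent.Helper42.Jef

variable {n : ℕ} {Ω : Set (Eu n)} {T : ℝ}

theorem comp_mem {ι : Type*} [Fintype ι] {u : ST n → EuclideanSpace ℝ ι}
    (hu : MemLp u 2 volume) (q : ι) : MemLp (fun z => u z q) 2 volume :=
  (EuclideanSpace.proj (𝕜 := ℝ) q).comp_memLp' hu

theorem int2 {a b : ST n → ℝ} (ha : MemLp a 2 volume) (hb : MemLp b 2 volume) :
    Integrable (fun z => a z * b z) := ha.integrable_mul hb

theorem int3 {a b ζ : ST n → ℝ} (ha : MemLp a 2 volume) (hb : MemLp b 2 volume) (hζ : SC ζ) :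
    Integrable (fun z => ζ z * (a z * b z)) := by
  obtain ⟨C, hC⟩ := hζ.bdd
  exact (int2 ha hb).bdd_mul hζ.aesm (Eventually.of_forall hC)

theorem conv_comp {ι : Type*} [Fintype ι] [DecidableEq ι] {us : ℕ → ST n → EuclideanSpace ℝ ι}
    {u : ST n → EuclideanSpace ℝ ι} (h : WC volume us u) {f : ST n → ℝ} (hf : MemLp f 2 volume)
    (q : ι) : Tendsto (fun k => ∫ z, us k z q * f z) atTop (𝓝 (∫ z, u z q * f z)) := by
  have hg : MemLp (fun z => f z • (EuclideanSpace.single q (1 : ℝ) : EuclideanSpace ℝ ι)) 2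
      volume :=
    ((ContinuousLinearMap.id ℝ ℝ).smulRight
      (EuclideanSpace.single q (1 : ℝ) : EuclideanSpace ℝ ι)).comp_memLp' hf
  have h1 := h.conv _ hg
  have e : ∀ a : ST n → EuclideanSpace ℝ ι, ∫ z, inner ℝ (a z) (f z •
      (EuclideanSpace.single q (1 : ℝ) : EuclideanSpace ℝ ι)) = ∫ z, a z q * f z := by
    intro a
    refine integral_congr_ae (Eventually.of_forall fun z => ?_)
    simp only
    rw [inner_smul_right, EuclideanSpace.inner_single_right]
    simp [mul_comm]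
  simp only [e] at h1
  exact h1

theorem elem_line {v : ST n → Eu n} {G : ST n → Mt n} (h : IsElem Ω T v G) {χ : ST n → ℝ}
    (hχ : SC χ) (i l : Fin n) (z : ST n) :
    HasLineDerivAt ℝ (fun z => v z i * χ z) (G z (i, l) * χ z + v z i * dx l χ z) z (0, bv l) := by
  have h1 : HasDerivAt (fun t : ℝ => v (z + t • ((0 : ℝ), (bv l : Eu n))) i) (G z (i, l)) 0 :=
    h.lineDeriv z i l
  have h2 : HasDerivAt (fun t : ℝ => χ (z + t • ((0 : ℝ), (bv l : Eu n)))) (dx l χ z) 0 :=
    dv_line hχ.smooth (0, bv l) z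
  have h3 := h1.mul h2
  simp only [zero_smul, add_zero] at h3
  exact h3

/-- integration by parts -/
theorem vel_ibp {v : ST n → Eu n} {G : ST n → Mt n} (h : IsVel Ω T v G) {χ : ST n → ℝ}
    (hχ : SC χ) (i l : Fin n) : ∫ z, v z i * dx l χ z = - ∫ z, G z (i, l) * χ z := by
  obtain ⟨vs, Gs, he, h1, h2, h3, h4⟩ := h.exists_seq
  have hv : WC volume vs v := wc_of_strong (fun k => (he k).memLp.1) h.memv h1 h3
  have hG : WC volume Gs G := wc_of_strong (fun k => (he k).memLp.2) h.memG h2 h4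
  have l1 := conv_comp hv (hχ.dx l |>.memLp 2) i
  have l2 := (conv_comp hG (hχ.memLp 2) (i, l)).neg
  refine tendsto_nhds_unique l1 (l2.congr fun k => ?_)
  exact ((he k).ibp i l (fun z => dv_line hχ.smooth _ z)
    (int2 (comp_mem (he k).memLp.1 i) ((hχ.dx l).memLp 2))
    (int2 (comp_mem (he k).memLp.2 (i, l)) (hχ.memLp 2))
    (int2 (comp_mem (he k).memLp.1 i) (hχ.memLp 2))).symm

/-- product of two coordinates as a bilinear map -/
noncomputable def bl {ι κ : Type*} [Fintype ι] [Fintype κ] (p : ι) (q : κ) :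
    EuclideanSpace ℝ ι →L[ℝ] EuclideanSpace ℝ κ →L[ℝ] ℝ :=
  (ContinuousLinearMap.mul ℝ ℝ).bilinearComp (EuclideanSpace.proj (𝕜 := ℝ) p)
    (EuclideanSpace.proj (𝕜 := ℝ) q)

theorem bl_apply {ι κ : Type*} [Fintype ι] [Fintype κ] (p : ι) (q : κ) (a : EuclideanSpace ℝ ι)
    (b : EuclideanSpace ℝ κ) : bl p q a b = a p * b q := rfl

theorem elem_div {v : ST n → Eu n} {G : ST n → Mt n} (h : IsElem Ω T v G) {χ : ST n → ℝ}
    (hχ : SC χ) (i : Fin n) :
    ∑ l, ((∫ z, dx l χ z * (v z l * v z i)) + ∫ z, χ z * (v z l * G z (i, l))) = 0 := by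
  have a1 : ∀ l, Integrable fun z => dx l χ z * (v z l * v z i) := fun l =>
    int3 (comp_mem h.memLp.1 l) (comp_mem h.memLp.1 i) (hχ.dx l)
  have a2 : ∀ l, Integrable fun z => χ z * (v z l * G z (i, l)) := fun l =>
    int3 (comp_mem h.memLp.1 l) (comp_mem h.memLp.2 (i, l)) hχ
  have a3 : ∀ l, Integrable fun z => v z l * (G z (i, l) * χ z + v z i * dx l χ z) := by
    intro l
    refine ((a1 l).add (a2 l)).congr (Eventually.of_forall fun z => ?_)
    simp only [Pi.add_apply]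
    ring
  have h1 := h.div (f := fun z => v z i * χ z)
    (f' := fun l z => G z (i, l) * χ z + v z i * dx l χ z) (fun l z => elem_line h hχ i l z) a3
    (fun l => by
      refine (int3 (comp_mem h.memLp.2 (l, l)) (comp_mem h.memLp.1 i) hχ).congr
        (Eventually.of_forall fun z => ?_)
      simp only
      ring)
    (fun l => by
      refine (int3 (comp_mem h.memLp.1 l) (comp_mem h.memLp.1 i) hχ).congr
        (Eventually.of_forall fun z => ?_)
      simp only
      ring)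
  rw [integral_finsetSum _ fun l _ => a3 l] at h1
  rw [← h1]
  refine Finset.sum_congr rfl fun l _ => ?_
  rw [← integral_add (a1 l) (a2 l)]
  refine integral_congr_ae (Eventually.of_forall fun z => ?_)
  simp only
  ring

/-- the convective term -/
theorem vel_div {v : ST n → Eu n} {G : ST n → Mt n} (h : IsVel Ω T v G) {χ : ST n → ℝ}
    (hχ : SC χ) (i : Fin n) :
    ∑ l, ((∫ z, dx l χ z * (v z l * v z i)) + ∫ z, χ z * (v z l * G z (i, l))) = 0 := by
  obtain ⟨vs, Gs, he, h1, h2, h3, h4⟩ := h.exists_seq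
  have hv : WC volume vs v := wc_of_strong (fun k => (he k).memLp.1) h.memv h1 h3
  have hG : WC volume Gs G := wc_of_strong (fun k => (he k).memLp.2) h.memG h2 h4
  obtain ⟨C, hC⟩ := hχ.bdd
  have lim : Tendsto (fun k => ∑ l, ((∫ z, dx l χ z * (vs k z l * vs k z i)) +
      ∫ z, χ z * (vs k z l * Gs k z (i, l)))) atTop
      (𝓝 (∑ l, ((∫ z, dx l χ z * (v z l * v z i)) + ∫ z, χ z * (v z l * G z (i, l))))) := by
    refine tendsto_finsetSum _ fun l _ => Tendsto.add ?_ ?_
    · obtain ⟨C', hC'⟩ := (hχ.dx l).bdd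
      exact wc_mul_strong hv (fun k => (he k).memLp.1) h.memv h1 (bl l i) (dx l χ)
        (hχ.dx l).aesm C' hC'
    · exact wc_mul_strong hv (fun k => (he k).memLp.2) h.memG h2 (bl l (i, l)) χ hχ.aesm C hC
  refine tendsto_nhds_unique lim ?_
  simp only [fun k => elem_div (he k) hχ i]
  exact tendsto_const_nhds

theorem hvec_int {v : ST n → Eu n} {G : ST n → Mt n} (h : IsVel Ω T v G) {χ : ST n → ℝ}
    (hχ : SC χ) (i : Fin n) : Integrable fun z => hvec v G z i * χ z := by
  have a2 : ∀ l, Integrable fun z => χ z * (v z l * G z (i, l)) := fun l =>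
    int3 (comp_mem h.memv l) (comp_mem h.memG (i, l)) hχ
  refine (integrable_finsetSum Finset.univ fun l _ => a2 l).congr
    (Eventually.of_forall fun z => ?_)
  simp only [hvec]
  rw [Finset.sum_mul]
  exact Finset.sum_congr rfl fun l _ => by ring

theorem conv_eq {v : ST n → Eu n} {G : ST n → Mt n} (h : IsVel Ω T v G) {χ : ST n → ℝ}
    (hχ : SC χ) (i : Fin n) :
    ∑ l, (∫ z, dx l χ z * (v z l * v z i)) = -∫ z, hvec v G z i * χ z := by
  have h1 := vel_div h hχ i
  rw [Finset.sum_add_distrib] at h1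
  have a2 : ∀ l, Integrable fun z => χ z * (v z l * G z (i, l)) := fun l =>
    int3 (comp_mem h.memv l) (comp_mem h.memG (i, l)) hχ
  have h2 : ∑ l, ∫ z, χ z * (v z l * G z (i, l)) = ∫ z, hvec v G z i * χ z := by
    rw [← integral_finsetSum _ fun l _ => a2 l]
    refine integral_congr_ae (Eventually.of_forall fun z => ?_)
    simp only [hvec]
    rw [Finset.sum_mul]
    exact Finset.sum_congr rfl fun l _ => by ring
  rw [h2] at h1
  linarith

/-- the viscous term -/
theorem visc_eq {v : ST n → Eu n} {G : ST n → Mt n} (h : IsVel Ω T v G) {ψ : ST n → ℝ}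
    (hψ : SC ψ) (i j l : Fin n) :
    ∫ z, G z (i, l) * dx l (dx j ψ) z = ∫ z, G z (i, j) * dx l (dx l ψ) z := by
  have h1 := vel_ibp h ((hψ.dx j).dx l) i l
  have h2 := vel_ibp h ((hψ.dx l).dx l) i j
  have e : ∀ z, dx l (dx l (dx j ψ)) z = dx j (dx l (dx l ψ)) z := by
    intro z
    have e1 : dx l (dx j ψ) = dx j (dx l ψ) := funext fun y => dv_comm hψ.smooth _ _ y
    rw [e1]
    exact dv_comm (hψ.dx l).smooth _ _ z
  simp only [e] at h1
  rw [h1] at h2
  linarith

theorem time_eq {v : ST n → Eu n} {G : ST n → Mt n} (h : IsVel Ω T v G) {ψ : ST n → ℝ}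
    (hψ : SC ψ) (i j : Fin n) :
    ∫ z, v z i * dt (dx j ψ) z = - ∫ z, G z (i, j) * dt ψ z := by
  have h1 := vel_ibp h hψ.dt i j
  have e : ∀ z, dt (dx j ψ) z = dx j (dt ψ) z := fun z => dv_comm hψ.smooth _ _ z
  simp only [e]
  exact h1

theorem l2_loc {a : ST n → ℝ} (ha : MemLp a 2 volume) : LocallyIntegrable a volume :=
  ha.locallyIntegrable (by norm_num)

theorem sy_mem {τ : ST n → Mt n} (h : MemLp τ 2 volume) : MemLp (fun z => sy (τ z)) 2 volume :=
  h.of_le ((sy_cont' continuous_id).comp_aestronglyMeasurable h.1)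
    (Eventually.of_forall fun z => norm_sy_le _)
where
  sy_cont' {α : Type _} [TopologicalSpace α] {f : α → Mt n} (h : Continuous f) :
    Continuous fun x => sy (f x) := by
    unfold sy tr
    fun_prop

theorem flux_loc {v : ST n → Eu n} {G τ : ST n → Mt n} (hv : MemLp v 2 volume)
    (hG : MemLp G 2 volume) (hτ : MemLp τ 2 volume) (μ c : ℝ) (p l : Fin n) :
    LocallyIntegrable (flux μ c v G τ p l) volume :=
  (((int2 (comp_mem hv p) (comp_mem hv l)).locallyIntegrable).sub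
    (l2_loc ((comp_mem hG (p, l)).const_mul μ))).sub
    (l2_loc ((comp_mem (sy_mem hτ) (p, l)).const_mul c))

/-- splitting of the flux term -/
theorem flux_split {v : ST n → Eu n} {G τ : ST n → Mt n} (hv : MemLp v 2 volume)
    (hG : MemLp G 2 volume) (hτ : MemLp τ 2 volume) (μ c : ℝ) (p l : Fin n) {χ : ST n → ℝ}
    (hχ : SC χ) : (Integrable fun z => flux μ c v G τ p l z * χ z) ∧
    ∫ z, flux μ c v G τ p l z * χ z = (∫ z, χ z * (v z l * v z p)) - μ * (∫ z, G z (p, l) * χ z) -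
      c * ∫ z, sy (τ z) (p, l) * χ z := by
  have a1 : Integrable fun z => χ z * (v z l * v z p) := int3 (comp_mem hv l) (comp_mem hv p) hχ
  have a2 : Integrable fun z => μ * (G z (p, l) * χ z) :=
    (int2 (comp_mem hG (p, l)) (hχ.memLp 2)).const_mul μ
  have a3 : Integrable fun z => c * (sy (τ z) (p, l) * χ z) :=
    (int2 (comp_mem (sy_mem hτ) (p, l)) (hχ.memLp 2)).const_mul c
  have a12 : Integrable fun z => χ z * (v z l * v z p) - μ * (G z (p, l) * χ z) := a1.sub a2
  have e : ∀ z, flux μ c v G τ p l z * χ z = χ z * (v z l * v z p) - μ * (G z (p, l) * χ z) -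
      c * (sy (τ z) (p, l) * χ z) := by
    intro z
    unfold flux
    ring
  simp only [e]
  refine ⟨a12.sub a3, ?_⟩
  rw [integral_sub a12 a3, integral_sub a1 a2, integral_const_mul, integral_const_mul]

end Pool.Agent.Helper44.Vort
end

section
/-! # Vorticity identity of the difference of two solutions -/

open MeasureTheory Set Filter Topology
open scoped ENNReal ContDiff Convolution

namespace Pool.Agent.Helper44.Vort
open Pool.Agent.Helper42.Jef

variable {n : ℕ}

theorem slice_all {v : ST n → Eu n} {G τ : ST n → Mt n} (hv : MemLp v 2 volume)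
    (hG : MemLp G 2 volume) (hτ : MemLp τ 2 volume) (μ c : ℝ) (i j : Fin n) {ψ : ST n → ℝ}
    (hψ : SC ψ) (b : ContDiffBump (0 : ℝ)) (s : ℝ) :
    Integrable fun z : ST n => deriv (b.normed volume) (z.1 - s) *
        (v z i * dx j ψ (s, z.2) - v z j * dx i ψ (s, z.2)) +
      b.normed volume (z.1 - s) * ∑ l, (flux μ c v G τ i l z * dx l (dx j ψ) (s, z.2) -
        flux μ c v G τ j l z * dx l (dx i ψ) (s, z.2)) := by
  have hk : Continuous (b.normed volume) := b.continuous_normed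
  have hkc : HasCompactSupport (b.normed volume) := b.hasCompactSupport_normed
  have hks : ContDiff ℝ 1 (b.normed (volume : Measure ℝ)) := b.contDiff_normed
  have hk' : Continuous (deriv (b.normed (volume : Measure ℝ))) := hks.continuous_deriv le_rfl
  have hkc' : HasCompactSupport (deriv (b.normed (volume : Measure ℝ))) := hkc.deriv
  have S1 := slice_int (l2_loc (comp_mem hv i)) hk' hkc' (hψ.dx j).smooth.continuous
    (hψ.dx j).cpt s
  have S2 := slice_int (l2_loc (comp_mem hv j)) hk' hkc' (hψ.dx i).smooth.continuous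
    (hψ.dx i).cpt s
  have S3 := fun l => slice_int (flux_loc hv hG hτ μ c i l) hk hkc
    ((hψ.dx j).dx l).smooth.continuous ((hψ.dx j).dx l).cpt s
  have S4 := fun l => slice_int (flux_loc hv hG hτ μ c j l) hk hkc
    ((hψ.dx i).dx l).smooth.continuous ((hψ.dx i).dx l).cpt s
  refine ((S1.sub S2).add (integrable_finsetSum Finset.univ fun l _ => (S3 l).sub (S4 l))).congr
    (Eventually.of_forall fun z => ?_)
  simp only [Pi.add_apply, Pi.sub_apply]
  rw [Finset.mul_sum]
  congr 1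
  · ring
  · exact Finset.sum_congr rfl fun l _ => by ring

theorem isTime_bump {T δ0 s : ℝ} {K : Set ℝ} (hδ : Metric.cthickening δ0 K ⊆ Ioo 0 T)
    (hs : s ∈ K) (b : ContDiffBump (0 : ℝ)) (hb : b.rOut < δ0) :
    IsTime 0 T fun t => b.normed volume (t - s) := by
  have hsub : Metric.closedBall s b.rOut ⊆ Ioo 0 T := by
    refine Subset.trans ?_ hδ
    refine (Metric.closedBall_subset_cthickening hs _).trans ?_
    exact Metric.cthickening_mono hb.le _
  have hsupp : tsupport (fun t => b.normed (volume : Measure ℝ) (t - s)) ⊆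
      Metric.closedBall s b.rOut := by
    refine closure_minimal ?_ Metric.isClosed_closedBall
    intro t ht
    have h1 : t - s ∈ Function.support (b.normed (volume : Measure ℝ)) := ht
    rw [b.support_normed_eq, mem_ball_zero_iff] at h1
    rw [Metric.mem_closedBall, dist_eq_norm]
    exact h1.le
  refine ⟨b.contDiff_normed.comp (contDiff_id.sub contDiff_const), ?_, hsupp.trans hsub⟩
  exact (isCompact_closedBall s b.rOut).of_isClosed_subset (isClosed_tsupport _) hsupp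

theorem dx_notMem {ψ : ST n → ℝ} {z : ST n} (hz : z ∉ tsupport ψ) (i : Fin n) : dx i ψ z = 0 :=
  image_eq_zero_of_notMem_tsupport fun h0 => hz (dv_tsupport ψ _ h0)

theorem dxx_notMem {ψ : ST n → ℝ} {z : ST n} (hz : z ∉ tsupport ψ) (l i : Fin n) :
    dx l (dx i ψ) z = 0 := dx_notMem (fun h0 => hz (dv_tsupport ψ _ h0)) l

/-- the identity before integration by parts -/
theorem pre_vort {Ω : Set (Eu n)} {T μ c : ℝ}
    {v1 v2 : ST n → Eu n} {G1 G2 τ1 τ2 : ST n → Mt n}
    (h1 : IsVel Ω T v1 G1) (h2 : IsVel Ω T v2 G2) (hτ1 : MemLp τ1 2 volume)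
    (hτ2 : MemLp τ2 2 volume)
    (hm : ∀ (η : ℝ → ℝ) (φ : Eu n → Eu n), IsTime 0 T η → IsVT Ω φ →
      ∫ z : ST n, (deriv η z.1 * inner ℝ (v1 z) (φ z.2) +
        η z.1 * (inner ℝ (v1 z) (fderiv ℝ φ z.2 (v1 z)) - μ * inner ℝ (G1 z) (grad φ z.2) -
          c * inner ℝ (τ1 z) (sy (grad φ z.2)))) =
      ∫ z : ST n, (deriv η z.1 * inner ℝ (v2 z) (φ z.2) +
        η z.1 * (inner ℝ (v2 z) (fderiv ℝ φ z.2 (v2 z)) - μ * inner ℝ (G2 z) (grad φ z.2) -
          c * inner ℝ (τ2 z) (sy (grad φ z.2)))))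
    (i j : Fin n) {ψ : ST n → ℝ} (hψ : IsTestST Ω T ψ) :
    (∫ z, (v1 z i - v2 z i) * dt (dx j ψ) z) - (∫ z, (v1 z j - v2 z j) * dt (dx i ψ) z) +
      ∑ l, ((∫ z, (flux μ c v1 G1 τ1 i l z - flux μ c v2 G2 τ2 i l z) * dx l (dx j ψ) z) -
        ∫ z, (flux μ c v1 G1 τ1 j l z - flux μ c v2 G2 τ2 j l z) * dx l (dx i ψ) z) = 0 := by
  have hS : SC ψ := ⟨hψ.smooth, hψ.cpt⟩
  have hK : IsCompact (Prod.fst '' tsupport ψ) := hψ.cpt.isCompact.image continuous_fst
  have hKT : Prod.fst '' tsupport ψ ⊆ Ioo 0 T := by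
    rintro _ ⟨z, hz, rfl⟩
    exact (hψ.supp hz).1
  obtain ⟨δ0, hδ0, hδ⟩ := hK.exists_cthickening_subset_open isOpen_Ioo hKT
  refine diag (f1 := fun z => v1 z i - v2 z i) (f2 := fun z => v1 z j - v2 z j)
    (l2_loc ((comp_mem h1.memv i).sub (comp_mem h2.memv i)))
    (l2_loc ((comp_mem h1.memv j).sub (comp_mem h2.memv j))) (hS.dx j) (hS.dx i)
    (g1 := fun l z => flux μ c v1 G1 τ1 i l z - flux μ c v2 G2 τ2 i l z)
    (g2 := fun l z => flux μ c v1 G1 τ1 j l z - flux μ c v2 G2 τ2 j l z)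
    (fun l => (flux_loc h1.memv h1.memG hτ1 μ c i l).sub (flux_loc h2.memv h2.memG hτ2 μ c i l))
    (fun l => (flux_loc h1.memv h1.memG hτ1 μ c j l).sub (flux_loc h2.memv h2.memG hτ2 μ c j l))
    (ξ1 := fun l => dx l (dx j ψ)) (ξ2 := fun l => dx l (dx i ψ))
    (fun l => (hS.dx j).dx l) (fun l => (hS.dx i).dx l) hδ0 ?_
  intro b hb s
  by_cases hs : s ∈ Prod.fst '' tsupport ψ
  · have hη := isTime_bump hδ hs b hb
    have hmom := hm _ _ hη (vph_isVT hψ i j s)
    rw [integral_congr_ae (Eventually.of_forall fun z => mom_eval hψ.smooth i j s μ c v1 G1 τ1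
        (fun t => b.normed volume (t - s)) z),
      integral_congr_ae (Eventually.of_forall fun z => mom_eval hψ.smooth i j s μ c v2 G2 τ2
        (fun t => b.normed volume (t - s)) z)] at hmom
    simp only [deriv_comp_sub_const] at hmom
    have I1 := slice_all h1.memv h1.memG hτ1 μ c i j hS b s
    have I2 := slice_all h2.memv h2.memG hτ2 μ c i j hS b s
    have h3 := sub_eq_zero.2 hmom
    rw [← integral_sub I1 I2] at h3
    refine Eq.trans ?_ h3
    refine integral_congr_ae (Eventually.of_forall fun z => ?_)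
    simp only
    rw [add_sub_add_comm, ← mul_sub, ← mul_sub, ← Finset.sum_sub_distrib]
    congr 1
    · ring
    · congr 1
      exact Finset.sum_congr rfl fun l _ => by ring
  · have hn : ∀ x : Eu n, ((s, x) : ST n) ∉ tsupport ψ := fun x h0 => hs ⟨(s, x), h0, rfl⟩
    refine integral_eq_zero_of_ae (Eventually.of_forall fun z => ?_)
    simp only [dx_notMem (hn z.2), dxx_notMem (hn z.2), Pi.zero_apply]
    simp

/-- N1: vorticity identity of the difference of two solutions -/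
theorem vorticity {Ω : Set (Eu n)} (hΩ : IsOpen Ω) {T μ c : ℝ} (hT : 0 < T)
    {v1 v2 : ST n → Eu n} {G1 G2 τ1 τ2 : ST n → Mt n}
    (h1 : IsVel Ω T v1 G1) (h2 : IsVel Ω T v2 G2) (hτ1 : MemLp τ1 2 volume)
    (hτ2 : MemLp τ2 2 volume)
    (hm : ∀ (η : ℝ → ℝ) (φ : Eu n → Eu n), IsTime 0 T η → IsVT Ω φ →
      ∫ z : ST n, (deriv η z.1 * inner ℝ (v1 z) (φ z.2) +
        η z.1 * (inner ℝ (v1 z) (fderiv ℝ φ z.2 (v1 z)) - μ * inner ℝ (G1 z) (grad φ z.2) -
          c * inner ℝ (τ1 z) (sy (grad φ z.2)))) =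
      ∫ z : ST n, (deriv η z.1 * inner ℝ (v2 z) (φ z.2) +
        η z.1 * (inner ℝ (v2 z) (fderiv ℝ φ z.2 (v2 z)) - μ * inner ℝ (G2 z) (grad φ z.2) -
          c * inner ℝ (τ2 z) (sy (grad φ z.2))))) :
    ∀ i j : Fin n, ∀ ψ, IsTestST Ω T ψ →
      ∫ z, ((G1 z - G2 z) (i, j) - (G1 z - G2 z) (j, i)) *
        (dt ψ z + μ * ∑ l, dx l (dx l ψ) z) =
      ∫ z, (-((hvec v1 G1 z - hvec v2 G2 z) i * dx j ψ z) +
        (hvec v1 G1 z - hvec v2 G2 z) j * dx i ψ z - c * ∑ l,
        (sy (τ1 z - τ2 z) (l, i) * dx l (dx j ψ) z - sy (τ1 z - τ2 z) (l, j) * dx l (dx i ψ) z)) := by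
  intro i j ψ hψ
  have hS : SC ψ := ⟨hψ.smooth, hψ.cpt⟩
  have hpre := pre_vort h1 h2 hτ1 hτ2 hm i j hψ
  -- basic integrals
  have hw : IsVel Ω T (v1 - v2) (G1 - G2) := h1.sub h2
  -- flux terms
  have F : ∀ p l : Fin n, ∀ χ : ST n → ℝ, SC χ →
      ∫ z, (flux μ c v1 G1 τ1 p l z - flux μ c v2 G2 τ2 p l z) * χ z =
      ((∫ z, χ z * (v1 z l * v1 z p)) - ∫ z, χ z * (v2 z l * v2 z p)) -
        μ * ((∫ z, G1 z (p, l) * χ z) - ∫ z, G2 z (p, l) * χ z) -
        c * ((∫ z, sy (τ1 z) (p, l) * χ z) - ∫ z, sy (τ2 z) (p, l) * χ z) := by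
    intro p l χ hχ
    obtain ⟨a1, e1⟩ := flux_split h1.memv h1.memG hτ1 μ c p l hχ
    obtain ⟨a2, e2⟩ := flux_split h2.memv h2.memG hτ2 μ c p l hχ
    have e3 : ∫ z, (flux μ c v1 G1 τ1 p l z - flux μ c v2 G2 τ2 p l z) * χ z =
        (∫ z, flux μ c v1 G1 τ1 p l z * χ z) - ∫ z, flux μ c v2 G2 τ2 p l z * χ z := by
      rw [← integral_sub a1 a2]
      exact integral_congr_ae (Eventually.of_forall fun z => by simp only; ring)
    rw [e3, e1, e2]
    ring
  have S1 : ∑ l, (∫ z, (flux μ c v1 G1 τ1 i l z - flux μ c v2 G2 τ2 i l z) *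
      dx l (dx j ψ) z) = (-(∫ z, hvec v1 G1 z i * dx j ψ z) + ∫ z, hvec v2 G2 z i * dx j ψ z) -
      μ * ∑ l, ((∫ z, G1 z (i, j) * dx l (dx l ψ) z) - ∫ z, G2 z (i, j) * dx l (dx l ψ) z) -
      c * ∑ l, ((∫ z, sy (τ1 z) (i, l) * dx l (dx j ψ) z) -
        ∫ z, sy (τ2 z) (i, l) * dx l (dx j ψ) z) := by
    have c1 := conv_eq h1 (hS.dx j) i
    have c2 := conv_eq h2 (hS.dx j) i
    rw [show (-(∫ z, hvec v1 G1 z i * dx j ψ z) + ∫ z, hvec v2 G2 z i * dx j ψ z) =
      (-(∫ z, hvec v1 G1 z i * dx j ψ z)) - (-∫ z, hvec v2 G2 z i * dx j ψ z) by ring,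
      ← c1, ← c2, ← Finset.sum_sub_distrib, Finset.mul_sum, Finset.mul_sum,
      ← Finset.sum_sub_distrib, ← Finset.sum_sub_distrib]
    refine Finset.sum_congr rfl fun l _ => ?_
    rw [F i l _ ((hS.dx j).dx l), visc_eq h1 hS i j l, visc_eq h2 hS i j l]
  have S2 : ∑ l, (∫ z, (flux μ c v1 G1 τ1 j l z - flux μ c v2 G2 τ2 j l z) *
      dx l (dx i ψ) z) = (-(∫ z, hvec v1 G1 z j * dx i ψ z) + ∫ z, hvec v2 G2 z j * dx i ψ z) -
      μ * ∑ l, ((∫ z, G1 z (j, i) * dx l (dx l ψ) z) - ∫ z, G2 z (j, i) * dx l (dx l ψ) z) -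
      c * ∑ l, ((∫ z, sy (τ1 z) (j, l) * dx l (dx i ψ) z) -
        ∫ z, sy (τ2 z) (j, l) * dx l (dx i ψ) z) := by
    have c1 := conv_eq h1 (hS.dx i) j
    have c2 := conv_eq h2 (hS.dx i) j
    rw [show (-(∫ z, hvec v1 G1 z j * dx i ψ z) + ∫ z, hvec v2 G2 z j * dx i ψ z) =
      (-(∫ z, hvec v1 G1 z j * dx i ψ z)) - (-∫ z, hvec v2 G2 z j * dx i ψ z) by ring,
      ← c1, ← c2, ← Finset.sum_sub_distrib, Finset.mul_sum, Finset.mul_sum,
      ← Finset.sum_sub_distrib, ← Finset.sum_sub_distrib]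
    refine Finset.sum_congr rfl fun l _ => ?_
    rw [F j l _ ((hS.dx i).dx l), visc_eq h1 hS j i l, visc_eq h2 hS j i l]
  have D1 : ∀ p q : Fin n, ∫ z, (v1 z p - v2 z p) * dt (dx q ψ) z =
      -((∫ z, G1 z (p, q) * dt ψ z) - ∫ z, G2 z (p, q) * dt ψ z) := by
    intro p q
    have e1 := time_eq hw hS p q
    rw [← integral_sub (int2 (comp_mem h1.memG (p, q)) (hS.dt.memLp 2))
      (int2 (comp_mem h2.memG (p, q)) (hS.dt.memLp 2))]
    refine e1.trans ?_
    congr 1
    exact integral_congr_ae (Eventually.of_forall fun z => by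
      simp only [Pi.sub_apply, PiLp.sub_apply]; ring)
  rw [Finset.sum_sub_distrib, S1, S2, D1, D1] at hpre
  -- the left side of the goal
  have gI : ∀ p : Fin n × Fin n, ∀ χ : ST n → ℝ, SC χ → Integrable (fun z => G1 z p * χ z) :=
    fun p χ hχ => int2 (comp_mem h1.memG p) (hχ.memLp 2)
  have gI2 : ∀ p : Fin n × Fin n, ∀ χ : ST n → ℝ, SC χ → Integrable (fun z => G2 z p * χ z) :=
    fun p χ hχ => int2 (comp_mem h2.memG p) (hχ.memLp 2)
  have tI : ∀ p : Fin n × Fin n, ∀ χ : ST n → ℝ, SC χ →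
      Integrable (fun z => sy (τ1 z) p * χ z) :=
    fun p χ hχ => int2 (comp_mem (sy_mem hτ1) p) (hχ.memLp 2)
  have tI2 : ∀ p : Fin n × Fin n, ∀ χ : ST n → ℝ, SC χ →
      Integrable (fun z => sy (τ2 z) p * χ z) :=
    fun p χ hχ => int2 (comp_mem (sy_mem hτ2) p) (hχ.memLp 2)
  have om : ∀ χ : ST n → ℝ, SC χ → (Integrable fun z => ((G1 z - G2 z) (i, j) -
      (G1 z - G2 z) (j, i)) * χ z) ∧ ∫ z, ((G1 z - G2 z) (i, j) - (G1 z - G2 z) (j, i)) * χ z =
      ((∫ z, G1 z (i, j) * χ z) - ∫ z, G2 z (i, j) * χ z) -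
      ((∫ z, G1 z (j, i) * χ z) - ∫ z, G2 z (j, i) * χ z) := by
    intro χ hχ
    have a1 : Integrable fun z => G1 z (i, j) * χ z - G2 z (i, j) * χ z :=
      (gI _ χ hχ).sub (gI2 _ χ hχ)
    have a2 : Integrable fun z => G1 z (j, i) * χ z - G2 z (j, i) * χ z :=
      (gI _ χ hχ).sub (gI2 _ χ hχ)
    have e : ∀ z, ((G1 z - G2 z) (i, j) - (G1 z - G2 z) (j, i)) * χ z =
        (G1 z (i, j) * χ z - G2 z (i, j) * χ z) - (G1 z (j, i) * χ z - G2 z (j, i) * χ z) := by
      intro z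
      simp only [PiLp.sub_apply]
      ring
    simp only [e]
    refine ⟨a1.sub a2, ?_⟩
    rw [integral_sub a1 a2, integral_sub (gI _ χ hχ) (gI2 _ χ hχ),
      integral_sub (gI _ χ hχ) (gI2 _ χ hχ)]
  have L : ∫ z, ((G1 z - G2 z) (i, j) - (G1 z - G2 z) (j, i)) *
        (dt ψ z + μ * ∑ l, dx l (dx l ψ) z) =
      (((∫ z, G1 z (i, j) * dt ψ z) - ∫ z, G2 z (i, j) * dt ψ z) -
      ((∫ z, G1 z (j, i) * dt ψ z) - ∫ z, G2 z (j, i) * dt ψ z)) + μ * ∑ l,
      (((∫ z, G1 z (i, j) * dx l (dx l ψ) z) - ∫ z, G2 z (i, j) * dx l (dx l ψ) z) -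
      ((∫ z, G1 z (j, i) * dx l (dx l ψ) z) - ∫ z, G2 z (j, i) * dx l (dx l ψ) z)) := by
    have o1 := om _ hS.dt
    have o2 := fun l => om _ ((hS.dx l).dx l)
    rw [← o1.2, ← Finset.sum_congr rfl fun l _ => (o2 l).2,
      ← integral_finsetSum _ fun l _ => (o2 l).1, ← integral_const_mul,
      ← integral_add o1.1 ((integrable_finsetSum _ fun l _ => (o2 l).1).const_mul μ)]
    refine integral_congr_ae (Eventually.of_forall fun z => ?_)
    simp only
    rw [← Finset.mul_sum]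
    ring
  -- the right side of the goal
  have sI : ∀ l, Integrable fun z => sy (τ1 z) (i, l) * dx l (dx j ψ) z -
      sy (τ2 z) (i, l) * dx l (dx j ψ) z - (sy (τ1 z) (j, l) * dx l (dx i ψ) z -
      sy (τ2 z) (j, l) * dx l (dx i ψ) z) := fun l =>
    ((tI (i, l) _ ((hS.dx j).dx l)).sub (tI2 (i, l) _ ((hS.dx j).dx l))).sub
      ((tI (j, l) _ ((hS.dx i).dx l)).sub (tI2 (j, l) _ ((hS.dx i).dx l)))
  have sV : ∀ l, ∫ z, (sy (τ1 z) (i, l) * dx l (dx j ψ) z -
      sy (τ2 z) (i, l) * dx l (dx j ψ) z - (sy (τ1 z) (j, l) * dx l (dx i ψ) z -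
      sy (τ2 z) (j, l) * dx l (dx i ψ) z)) = ((∫ z, sy (τ1 z) (i, l) * dx l (dx j ψ) z) -
        ∫ z, sy (τ2 z) (i, l) * dx l (dx j ψ) z) - ((∫ z, sy (τ1 z) (j, l) * dx l (dx i ψ) z) -
        ∫ z, sy (τ2 z) (j, l) * dx l (dx i ψ) z) := by
    intro l
    have a1 : Integrable fun z => sy (τ1 z) (i, l) * dx l (dx j ψ) z -
      sy (τ2 z) (i, l) * dx l (dx j ψ) z :=
      (tI (i, l) _ ((hS.dx j).dx l)).sub (tI2 (i, l) _ ((hS.dx j).dx l))
    have a2 : Integrable fun z => sy (τ1 z) (j, l) * dx l (dx i ψ) z -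
      sy (τ2 z) (j, l) * dx l (dx i ψ) z :=
      (tI (j, l) _ ((hS.dx i).dx l)).sub (tI2 (j, l) _ ((hS.dx i).dx l))
    rw [integral_sub a1 a2,
      integral_sub (tI (i, l) _ ((hS.dx j).dx l)) (tI2 (i, l) _ ((hS.dx j).dx l)),
      integral_sub (tI (j, l) _ ((hS.dx i).dx l)) (tI2 (j, l) _ ((hS.dx i).dx l))]
  have b1 := hvec_int h1 (hS.dx j) i
  have b2 := hvec_int h2 (hS.dx j) i
  have b3 := hvec_int h1 (hS.dx i) j
  have b4 := hvec_int h2 (hS.dx i) j
  have R : ∫ z, (-((hvec v1 G1 z - hvec v2 G2 z) i * dx j ψ z) +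
        (hvec v1 G1 z - hvec v2 G2 z) j * dx i ψ z - c * ∑ l,
        (sy (τ1 z - τ2 z) (l, i) * dx l (dx j ψ) z -
          sy (τ1 z - τ2 z) (l, j) * dx l (dx i ψ) z)) =
      -((∫ z, hvec v1 G1 z i * dx j ψ z) - ∫ z, hvec v2 G2 z i * dx j ψ z) +
      ((∫ z, hvec v1 G1 z j * dx i ψ z) - ∫ z, hvec v2 G2 z j * dx i ψ z) - c * ∑ l,
      (((∫ z, sy (τ1 z) (i, l) * dx l (dx j ψ) z) - ∫ z, sy (τ2 z) (i, l) * dx l (dx j ψ) z) -
      ((∫ z, sy (τ1 z) (j, l) * dx l (dx i ψ) z) -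
        ∫ z, sy (τ2 z) (j, l) * dx l (dx i ψ) z)) := by
    have a12 : Integrable fun z => hvec v1 G1 z i * dx j ψ z - hvec v2 G2 z i * dx j ψ z :=
      b1.sub b2
    have a34 : Integrable fun z => hvec v1 G1 z j * dx i ψ z - hvec v2 G2 z j * dx i ψ z :=
      b3.sub b4
    have a12n : Integrable fun z => -(hvec v1 G1 z i * dx j ψ z - hvec v2 G2 z i * dx j ψ z) :=
      a12.neg
    have a5 : Integrable fun z => -(hvec v1 G1 z i * dx j ψ z - hvec v2 G2 z i * dx j ψ z) +
        (hvec v1 G1 z j * dx i ψ z - hvec v2 G2 z j * dx i ψ z) := a12n.add a34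
    rw [← integral_sub b1 b2, ← integral_sub b3 b4, ← integral_neg,
      ← Finset.sum_congr rfl fun l _ => sV l, ← integral_finsetSum _ fun l _ => sI l,
      ← integral_const_mul, ← integral_add a12n a34,
      ← integral_sub a5 ((integrable_finsetSum _ fun l _ => sI l).const_mul c)]
    refine integral_congr_ae (Eventually.of_forall fun z => ?_)
    simp only [PiLp.sub_apply]
    congr 1
    · ring
    · congr 1
      refine Finset.sum_congr rfl fun l _ => ?_
      simp only [sy_apply, PiLp.sub_apply, Prod.swap_prod_mk]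
      ring
  rw [L, R]
  rw [Finset.sum_sub_distrib (f := fun l => (∫ z, G1 z (i, j) * dx l (dx l ψ) z) -
      ∫ z, G2 z (i, j) * dx l (dx l ψ) z),
    Finset.sum_sub_distrib (f := fun l => (∫ z, sy (τ1 z) (i, l) * dx l (dx j ψ) z) -
      ∫ z, sy (τ2 z) (i, l) * dx l (dx j ψ) z)]
  linear_combination -hpre

end Pool.Agent.Helper44.Vort
end

section
/-! # Difference of two solutions: the hypotheses of the variance inequality (module P6c) -/

open MeasureTheory Set Filter Topology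
open scoped ENNReal NNReal ContDiff

namespace Pool.Agent.Helper38.JefDiff

open Pool.Agent.Helper42.Jef Pool.Agent.Helper44.Vort

variable {n : ℕ}

theorem norm_hvec_le (v : ST n → Eu n) (G : ST n → Mt n) (z : ST n) :
    ‖hvec v G z‖ ≤ ‖v z‖ * ‖G z‖ := by
  have h1 : ‖hvec v G z‖ ^ 2 ≤ (‖v z‖ * ‖G z‖) ^ 2 := by
    rw [mul_pow, EuclideanSpace.real_norm_sq_eq, EuclideanSpace.real_norm_sq_eq,
      EuclideanSpace.real_norm_sq_eq, Fintype.sum_prod_type, Finset.mul_sum]
    refine Finset.sum_le_sum fun i _ => ?_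
    exact Finset.sum_mul_sq_le_sq_mul_sq Finset.univ (fun l => v z l) fun l => G z (i, l)
  exact le_of_sq_le_sq h1 (by positivity)

theorem hvec_integrable {v : ST n → Eu n} {G : ST n → Mt n} (hv : MemLp v 2 volume)
    (hG : MemLp G 2 volume) : Integrable (hvec v G) := by
  have h1 : Integrable (fun z => ‖v z‖ * ‖G z‖) := hv.norm.integrable_mul hG.norm
  refine h1.mono' ?_ (Eventually.of_forall fun z => norm_hvec_le v G z)
  have h2 : AEStronglyMeasurable (fun z => (v z, G z)) volume := hv.1.prodMk hG.1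
  have h3 : Continuous fun p : Eu n × Mt n =>
      (WithLp.toLp 2 fun i => ∑ l, p.1 l * p.2 (i, l) : Eu n) := by fun_prop
  exact h3.comp_aestronglyMeasurable h2

theorem hvec_bound {v : ST n → Eu n} {G : ST n → Mt n} (hv : MemLp v 2 volume)
    (hG : MemLp G 2 volume) : ∫ z, ‖hvec v G z‖ ≤
      (eLpNorm v 2 volume).toReal * (eLpNorm G 2 volume).toReal := by
  have h1 : Integrable (fun z => ‖v z‖ * ‖G z‖) := hv.norm.integrable_mul hG.norm
  refine (integral_mono (hvec_integrable hv hG).norm h1 fun z => norm_hvec_le v G z).trans ?_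
  have h2 := (le_abs_self _).trans (integral_inner_le hv.norm hG.norm)
  rw [eLpNorm_norm, eLpNorm_norm] at h2
  refine le_trans (le_of_eq ?_) h2
  refine integral_congr_ae (Eventually.of_forall fun x => ?_)
  simp only [RCLike.inner_apply, conj_trivial]
  ring

/-- P6c: the hypotheses of `ReprStar` for two converging sequences of solutions -/
theorem diff_facts {Ω : Set (Eu n)} (hΩ : IsOpen Ω) {T μ a c : ℝ} (hT : 0 < T)
    {f : ℝ → (Eu n → Eu n) → ℝ} {v0 : Eu n → Eu n}
    {τ0 : Eu n → Mt n} {Ss : ℕ → ST n → Mt n} {vs : ℕ → ST n → Eu n} {Gs τs : ℕ → ST n → Mt n}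
    {v : ST n → Eu n} {G τ : ST n → Mt n}
    (h : ∀ m, IsSol Ω T μ a c f v0 τ0 (Ss m) (vs m) (Gs m) (τs m))
    (wv : WC volume vs v) (wG : WC volume Gs G) (wτ : WC volume τs τ)
    (hs : Tendsto (fun m => eLpNorm (fun z => vs m z - v z) 2 volume) atTop (𝓝 0))
    (hmom : ∀ (η : ℝ → ℝ) (φ : Eu n → Eu n), IsTime (-1) T η → IsVT Ω φ →
    (∫ z : ST n, (deriv η z.1 * inner ℝ (v z) (φ z.2) +
      η z.1 * (inner ℝ (v z) (fderiv ℝ φ z.2 (v z)) - μ * inner ℝ (G z) (grad φ z.2) -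
        c * inner ℝ (τ z) (sy (grad φ z.2))))) + (∫ t in Ioo 0 T, η t * f t φ) +
      η 0 * ∫ x, inner ℝ (v0 x) (φ x) = 0) :
    (∀ m, IsVel Ω T (fun z => vs m z - v z) (fun z => Gs m z - G z)) ∧
    (∀ m, Integrable (fun z => hvec (vs m) (Gs m) z - hvec v G z)) ∧
    (∃ M : ℝ, ∀ m, ∫ z, ‖hvec (vs m) (Gs m) z - hvec v G z‖ ≤ M) ∧
    (∀ ψ, IsTestST Ω T ψ → ∀ i, Tendsto (fun m =>
      ∫ z, (hvec (vs m) (Gs m) z - hvec v G z) i * ψ z) atTop (𝓝 0)) ∧
    (∀ m, ∀ i j : Fin n, ∀ ψ, IsTestST Ω T ψ →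
      ∫ z, ((Gs m z - G z) (i, j) - (Gs m z - G z) (j, i)) *
        (dt ψ z + μ * ∑ l, dx l (dx l ψ) z) =
      ∫ z, (-((hvec (vs m) (Gs m) z - hvec v G z) i * dx j ψ z) +
        (hvec (vs m) (Gs m) z - hvec v G z) j * dx i ψ z - c * ∑ l,
        (sy (τs m z - τ z) (l, i) * dx l (dx j ψ) z -
          sy (τs m z - τ z) (l, j) * dx l (dx i ψ) z))) := by
  have hV : IsVel Ω T v G := IsVel.of_wc (fun m => (h m).vel) wv wG
  have I1 : ∀ m, Integrable (hvec (vs m) (Gs m)) := fun m =>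
    hvec_integrable (h m).vel.memv (h m).vel.memG
  have I2 : Integrable (hvec v G) := hvec_integrable hV.memv hV.memG
  refine ⟨fun m => (h m).vel.sub hV, fun m => (I1 m).sub I2, ?_, ?_, ?_⟩
  · obtain ⟨C1, hC1⟩ := wv.bdd
    obtain ⟨C2, hC2⟩ := wG.bdd
    refine ⟨max C1 0 * max C2 0 + ∫ z, ‖hvec v G z‖, fun m => ?_⟩
    have b1 : (eLpNorm (vs m) 2 volume).toReal ≤ max C1 0 := by
      refine ENNReal.toReal_le_of_le_ofReal (le_max_right _ _) ((hC1 m).trans ?_)
      exact ENNReal.ofReal_le_ofReal (le_max_left _ _)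
    have b2 : (eLpNorm (Gs m) 2 volume).toReal ≤ max C2 0 := by
      refine ENNReal.toReal_le_of_le_ofReal (le_max_right _ _) ((hC2 m).trans ?_)
      exact ENNReal.ofReal_le_ofReal (le_max_left _ _)
    calc ∫ z, ‖hvec (vs m) (Gs m) z - hvec v G z‖
        ≤ ∫ z, (‖hvec (vs m) (Gs m) z‖ + ‖hvec v G z‖) :=
          integral_mono ((I1 m).sub I2).norm ((I1 m).norm.add I2.norm) fun z => norm_sub_le _ _
      _ = (∫ z, ‖hvec (vs m) (Gs m) z‖) + ∫ z, ‖hvec v G z‖ :=
          integral_add (I1 m).norm I2.norm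
      _ ≤ _ := by
          refine add_le_add ((hvec_bound (h m).vel.memv (h m).vel.memG).trans ?_) le_rfl
          exact mul_le_mul b1 b2 ENNReal.toReal_nonneg (le_max_right _ _)
  · intro ψ hψ i
    have hS : SC ψ := ⟨hψ.smooth, hψ.cpt⟩
    obtain ⟨C, hC⟩ := hS.bdd
    have e : ∀ (w : ST n → Eu n) (W : ST n → Mt n), MemLp w 2 volume → MemLp W 2 volume →
        ∫ z, hvec w W z i * ψ z = ∑ l, ∫ z, ψ z • bl (i, l) l (W z) (w z) := by
      intro w W hw hW
      rw [← integral_finsetSum]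
      · refine integral_congr_ae (Eventually.of_forall fun z => ?_)
        simp only [hvec, bl_apply, smul_eq_mul]
        rw [Finset.sum_mul]
        exact Finset.sum_congr rfl fun l _ => by ring
      · intro l _
        exact int3 (comp_mem hW (i, l)) (comp_mem hw l) hS
    have lim : Tendsto (fun m => ∫ z, hvec (vs m) (Gs m) z i * ψ z) atTop
        (𝓝 (∫ z, hvec v G z i * ψ z)) := by
      rw [e v G hV.memv hV.memG]
      simp only [fun m => e (vs m) (Gs m) (h m).vel.memv (h m).vel.memG]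
      exact tendsto_finsetSum _ fun l _ => wc_mul_strong wG (fun m => (h m).vel.memv) hV.memv hs
        (bl (i, l) l) ψ hS.aesm C hC
    have lim2 := lim.sub_const (∫ z, hvec v G z i * ψ z)
    rw [sub_self] at lim2
    refine lim2.congr fun m => ?_
    rw [← integral_sub (hvec_int (h m).vel hS i) (hvec_int hV hS i)]
    refine integral_congr_ae (Eventually.of_forall fun z => ?_)
    simp only [PiLp.sub_apply]
    ring
  · intro m
    refine vorticity hΩ hT (h m).vel hV (h m).memτ wτ.memU ?_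
    intro η φ hη hφ
    have hη' : IsTime (-1) T η := ⟨hη.smooth, hη.cpt, hη.supp.trans (Ioo_subset_Ioo_left (by norm_num))⟩
    have h0 : η 0 = 0 := image_eq_zero_of_notMem_tsupport fun h0 => absurd (hη.supp h0).1 (lt_irrefl _)
    have e1 := (h m).mom η φ hη' hφ
    have e2 := hmom η φ hη' hφ
    rw [h0, zero_mul, add_zero] at e1 e2
    linarith

end Pool.Agent.Helper38.JefDiff
end
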