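import Pool.Agent.Helper42.JefB.D2
import Pool.Agent.Helper42.JefB.C5
import Pool.Agent.Helper42.JefB.D5
import Pool.Agent.Helper42.JefB.C3
import Pool.Agent.Helper42.JefB.D1

section
/-! # bounds of finite combinations of kernels -/

open MeasureTheory Set Filter Topology
open scoped ENNReal ContDiff

namespace Pool.Agent.Helper37.Jef
open Pool.Agent.Helper42.Jef
variable {n : ℕ}

/-- integrable kernel with an `L²` bound and a weak type bound -/
def KB (A : ℝ) (C : ℝ → ℝ) (k : ST n → ℝ) : Prop :=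
  Integrable k ∧
  (∀ u : ST n → ℝ, Integrable u → MemLp u 2 →
    eLpNorm (cv k u) 2 volume ≤ ENNReal.ofReal A * eLpNorm u 2 volume) ∧
  (∀ u : ST n → ℝ, Integrable u → MemLp u 2 → ∫ z, |u z| ≤ 1 → ∀ s > 0,
    volume {z | s < |cv k u z|} ≤ ENNReal.ofReal (C s * ∫ z, |u z|))

theorem cv_comb_ae {ι : Type*} [Fintype ι] {K : ι → ST n → ℝ} (coef : ι → ℝ)
    (hK : ∀ a, Integrable (K a)) {u : ST n → ℝ} (hu : Integrable u) :
    ∀ᵐ z, cv (fun y => ∑ a, coef a * K a y) u z = ∑ a, coef a * cv (K a) u z := by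
  have h : ∀ᵐ z, ∀ a, Integrable (fun y => (coef a * K a (z - y)) * u y) := by
    rw [ae_all_iff]
    intro a
    exact ae_ce ((hK a).const_mul (coef a)) hu
  filter_upwards [h] with z hz
  rw [cv_sum_left (k := fun a y => coef a * K a y) Finset.univ fun a _ => hz a]
  exact Finset.sum_congr rfl fun a _ => cv_const_left (K a) u (coef a) z

theorem KB_comb {ι : Type*} [Fintype ι] {K : ι → ST n → ℝ} {coef : ι → ℝ} {B A : ℝ}
    {C : ℝ → ℝ} (hB0 : 0 ≤ B) (hB : ∀ a, |coef a| ≤ B) (hK : ∀ a, KB A C (K a)) :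
    KB ((Fintype.card ι : ℝ) * B * A)
      (fun s => (Fintype.card ι : ℝ) * C (s / (((Fintype.card ι : ℝ) + 1) * (B + 1))))
      (fun y => ∑ a, coef a * K a y) := by
  set N : ℝ := (Fintype.card ι : ℝ) with hN
  have hN0 : 0 ≤ N := by positivity
  refine ⟨integrable_finsetSum _ fun a _ => (hK a).1.const_mul _, ?_, ?_⟩
  · intro u hu hu2
    have h1 := cv_comb_ae coef (fun a => (hK a).1) hu
    rw [eLpNorm_congr_ae h1]
    have e : (fun z => ∑ a, coef a * cv (K a) u z) = ∑ a, fun z => coef a * cv (K a) u z := by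
      funext z
      simp
    rw [e]
    have hm : ∀ a, AEStronglyMeasurable (cv (K a) u) volume := fun a =>
      cv_aesm (hK a).1.aestronglyMeasurable hu.aestronglyMeasurable
    refine (eLpNorm_sum_le (fun a _ => (hm a).const_mul (coef a)) (by norm_num)).trans ?_
    calc ∑ a, eLpNorm (fun z => coef a * cv (K a) u z) 2 volume
        ≤ ∑ a : ι, ENNReal.ofReal B * (ENNReal.ofReal A * eLpNorm u 2 volume) := by
          refine Finset.sum_le_sum fun a _ => ?_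
          have h2 : eLpNorm (fun z => coef a * cv (K a) u z) 2 volume =
              ‖coef a‖ₑ * eLpNorm (cv (K a) u) 2 volume :=
            eLpNorm_const_smul (coef a) (cv (K a) u) 2 volume
          rw [h2]
          refine mul_le_mul' ?_ ((hK a).2.1 u hu hu2)
          rw [← ofReal_norm]
          exact ENNReal.ofReal_le_ofReal (hB a)
      _ = ENNReal.ofReal (N * B * A) * eLpNorm u 2 volume := by
          rw [Finset.sum_const, Finset.card_univ, nsmul_eq_mul,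
            ENNReal.ofReal_mul (by positivity), ENNReal.ofReal_mul hN0, hN,
            ENNReal.ofReal_natCast]
          ring
  · intro u hu hu2 hu1 s hs
    set s' : ℝ := s / ((N + 1) * (B + 1)) with hs'
    have hs0 : 0 < s' := by positivity
    have h1 := cv_comb_ae coef (fun a => (hK a).1) hu
    have h2 : ({z | s < |cv (fun y => ∑ a, coef a * K a y) u z|} : Set (ST n)) ≤ᵐ[volume]
        ⋃ a, {z | s' < |cv (K a) u z|} := by
      filter_upwards [h1] with z hz hlt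
      have hlt' : s < |cv (fun y => ∑ a, coef a * K a y) u z| := hlt
      rw [hz] at hlt'
      by_contra hcon
      have hcon' : ∀ a, |cv (K a) u z| ≤ s' := by
        intro a
        by_contra h3
        exact hcon (mem_iUnion.2 ⟨a, not_le.1 h3⟩)
      have h4 : |∑ a, coef a * cv (K a) u z| ≤ N * (B * s') := by
        refine (Finset.abs_sum_le_sum_abs _ _).trans ?_
        calc ∑ a, |coef a * cv (K a) u z| ≤ ∑ a : ι, B * s' := by
              refine Finset.sum_le_sum fun a _ => ?_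
              rw [abs_mul]
              exact mul_le_mul (hB a) (hcon' a) (abs_nonneg _) hB0
          _ = N * (B * s') := by
              rw [Finset.sum_const, Finset.card_univ, nsmul_eq_mul]
      have h5 : N * (B * s') ≤ s := by
        have e : s = (N + 1) * (B + 1) * s' := by
          rw [hs']
          field_simp
        rw [e]
        have : 0 ≤ N * B * s' := by positivity
        nlinarith [mul_nonneg hN0 hs0.le, mul_nonneg hB0 hs0.le]
      linarith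
    refine (measure_mono_ae h2).trans ((measure_iUnion_fintype_le _ _).trans ?_)
    calc ∑ a, volume {z | s' < |cv (K a) u z|}
        ≤ ∑ a : ι, ENNReal.ofReal (C s' * ∫ z, |u z|) :=
          Finset.sum_le_sum fun a _ => (hK a).2.2 u hu hu2 hu1 s' hs0
      _ = _ := by
          rw [Finset.sum_const, Finset.card_univ, nsmul_eq_mul, mul_assoc,
            ENNReal.ofReal_mul hN0, hN, ENNReal.ofReal_natCast]

/-- black box: the main kernels -/
def KMain (n : ℕ) (μ : ℝ) : Prop := ∃ (A : ℝ) (C : ℝ → ℝ), ∀ ε : ℝ, 0 < ε → ε < 1 →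
    ∀ l : List (Fin n), l.length = 4 →
      Integrable (fun z : ST n => ∫ s in ε..1, Kr μ ε s l z) ∧
      (∀ u : ST n → ℝ, Integrable u → MemLp u 2 →
        eLpNorm (cv (fun z => ∫ s in ε..1, Kr μ ε s l z) u) 2 volume
          ≤ ENNReal.ofReal A * eLpNorm u 2 volume) ∧
      (∀ u : ST n → ℝ, Integrable u → MemLp u 2 → ∫ z, |u z| ≤ 1 → ∀ s > 0,
        volume {z | s < |cv (fun z => ∫ s in ε..1, Kr μ ε s l z) u z|}
          ≤ ENNReal.ofReal (C s * ∫ z, |u z|))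

/-- black box: the elliptic kernels -/
def KEll (n : ℕ) (μ : ℝ) : Prop := ∃ A : ℝ, ∀ ε : ℝ, 0 < ε → ε < 1 →
    ∀ l : List (Fin n), l.length = 2 →
      Integrable (fun z : ST n => ∫ s in ε..1, Kp μ ε s l z) ∧
      (∀ u : ST n → ℝ, Integrable u → MemLp u 2 →
        eLpNorm (cv (fun z => ∫ s in ε..1, Kp μ ε s l z) u) 2 volume
          ≤ ENNReal.ofReal A * eLpNorm u 2 volume)

/-! ## the main kernel matrix -/

/-- indicator coefficient -/
def dl (p q : Fin n × Fin n) : ℝ := if p = q then 1 else 0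

/-- coefficients -/
noncomputable def cf (c : ℝ) (i : Fin n) (q : Fin n × Fin n) (a : (Fin n × Fin n) × Bool) : ℝ :=
  if a.2 then -(c / 2) * (dl (a.1.2, i) q + dl (i, a.1.2) q)
  else c / 2 * (dl (a.1.2, a.1.1) q + dl (a.1.1, a.1.2) q)

/-- lists of derivatives -/
def ls (i k : Fin n) (a : (Fin n × Fin n) × Bool) : List (Fin n) :=
  if a.2 then [a.1.2, a.1.1, k, a.1.1] else [a.1.2, i, k, a.1.1]

/-- the kernel matrix; `p = (i, k)` -/
noncomputable def kap (c μ ε : ℝ) (p q : Fin n × Fin n) (z : ST n) : ℝ :=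
  ∑ a : (Fin n × Fin n) × Bool, cf c p.1 q a * RR μ ε (ls p.1 p.2 a) z

theorem dl_bound (p q : Fin n × Fin n) : 0 ≤ dl p q ∧ dl p q ≤ 1 := by
  unfold dl
  split_ifs <;> norm_num

theorem cf_bound (c : ℝ) (i : Fin n) (q : Fin n × Fin n) (a : (Fin n × Fin n) × Bool) :
    |cf c i q a| ≤ |c| := by
  have key : ∀ x : ℝ, 0 ≤ x → x ≤ 2 → |c / 2 * x| ≤ |c| := by
    intro x h0 h2
    rw [abs_mul, abs_div, abs_of_nonneg h0, abs_of_pos (by norm_num : (0 : ℝ) < 2)]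
    nlinarith [abs_nonneg c]
  unfold cf
  split_ifs
  · rw [neg_mul, abs_neg]
    have h1 := dl_bound (a.1.2, i) q
    have h2 := dl_bound (i, a.1.2) q
    exact key _ (by linarith [h1.1, h2.1]) (by linarith [h1.2, h2.2])
  · have h1 := dl_bound (a.1.2, a.1.1) q
    have h2 := dl_bound (a.1.1, a.1.2) q
    exact key _ (by linarith [h1.1, h2.1]) (by linarith [h1.2, h2.2])

theorem ls_length (i k : Fin n) (a : (Fin n × Fin n) × Bool) : (ls i k a).length = 4 := by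
  unfold ls
  split_ifs <;> rfl

theorem sum_dl (p : Fin n × Fin n) (f : Fin n × Fin n → ℝ) : ∑ q, dl p q * f q = f p := by
  unfold dl
  simp

/-- the main terms are the convolution with the kernel matrix -/
theorem kap_sum {Ω : Set (Eu n)} {T μ c : ℝ} {χ : ST n → ℝ} (hχ : IsTestST Ω T χ)
    {σ : ST n → Mt n} (hσ : MemLp σ 2 volume)
    {ε : ℝ} (hμ : 0 < μ) (hε : 0 < ε) (h1 : ε ≤ 1) (i k : Fin n) (z : ST n) :
    ∑ q, cv (kap c μ ε (i, k) q) (fun y => χ y * σ y q) z =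
      -∑ j, cMain χ c (sg σ i) (sg σ j) i j [k, j]
          (fun L φ g => cv (RR μ ε L) (fun y => φ y * g y) z) := by
  have t0 := TS.refl hχ.smooth
  have cpt := hχ.cpt.isCompact
  have hn : ∀ q, Nice (tsupport χ) (fun y => χ y * σ y q) := fun q =>
    t0.nice hχ.cpt (li_comp (by norm_num) hσ q)
  set F : List (Fin n) → Fin n × Fin n → ℝ := fun L q => cv (RR μ ε L) (fun y => χ y * σ y q) z
    with hF
  have e1 : ∀ q, cv (kap c μ ε (i, k) q) (fun y => χ y * σ y q) z =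
      ∑ a : (Fin n × Fin n) × Bool, cf c i q a * F (ls i k a) q := by
    intro q
    have hI : ∀ a : (Fin n × Fin n) × Bool,
        Integrable (fun y => (cf c i q a * RR μ ε (ls i k a) (z - y)) * (χ y * σ y q)) := fun a =>
      (hn q).ce cpt (k := fun y => cf c i q a * RR μ ε (ls i k a) y)
        (continuous_const.mul (RR_cont hμ hε h1 _)) z
    have := cv_sum_left (k := fun (a : (Fin n × Fin n) × Bool) y =>
      cf c i q a * RR μ ε (ls i k a) y) (u := fun y => χ y * σ y q) (z := z) Finset.univ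
      fun a _ => hI a
    have h2 : cv (kap c μ ε (i, k) q) (fun y => χ y * σ y q) z = _ := this
    rw [h2]
    exact Finset.sum_congr rfl fun a _ => cv_const_left _ _ _ _
  have e2 : ∀ (L : List (Fin n)) (i l : Fin n),
      cv (RR μ ε L) (fun y => χ y * sg σ i l y) z = 1 / 2 * (F L (l, i) + F L (i, l)) := by
    intro L i l
    have hc := RR_cont hμ hε h1 L
    simp only [hF]
    rw [← cv_add_right ((hn (l, i)).ce cpt hc z) ((hn (i, l)).ce cpt hc z), ← cv_const_right]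
    congr 1
    funext y
    rw [sg_eq]
    ring
  simp only [e1]
  rw [Finset.sum_comm]
  have e3 : ∀ a : (Fin n × Fin n) × Bool, ∑ q, cf c i q a * F (ls i k a) q =
      if a.2 then -(c / 2) * (F [a.1.2, a.1.1, k, a.1.1] (a.1.2, i) +
        F [a.1.2, a.1.1, k, a.1.1] (i, a.1.2))
      else c / 2 * (F [a.1.2, i, k, a.1.1] (a.1.2, a.1.1) +
        F [a.1.2, i, k, a.1.1] (a.1.1, a.1.2)) := by
    intro a
    unfold cf ls
    split_ifs
    · have : ∀ q, -(c / 2) * (dl (a.1.2, i) q + dl (i, a.1.2) q) *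
          F [a.1.2, a.1.1, k, a.1.1] q =
          -(c / 2) * (dl (a.1.2, i) q * F [a.1.2, a.1.1, k, a.1.1] q +
            dl (i, a.1.2) q * F [a.1.2, a.1.1, k, a.1.1] q) := fun q => by ring
      simp only [this]
      rw [← Finset.mul_sum, Finset.sum_add_distrib, sum_dl, sum_dl]
    · have : ∀ q, (c / 2) * (dl (a.1.2, a.1.1) q + dl (a.1.1, a.1.2) q) *
          F [a.1.2, i, k, a.1.1] q =
          (c / 2) * (dl (a.1.2, a.1.1) q * F [a.1.2, i, k, a.1.1] q +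
            dl (a.1.1, a.1.2) q * F [a.1.2, i, k, a.1.1] q) := fun q => by ring
      simp only [this]
      rw [← Finset.mul_sum, Finset.sum_add_distrib, sum_dl, sum_dl]
  simp only [e3]
  rw [Fintype.sum_prod_type, Fintype.sum_prod_type, ← Finset.sum_neg_distrib]
  refine Finset.sum_congr rfl fun j _ => ?_
  unfold cMain
  simp only [e2, Fintype.sum_bool]
  rw [Finset.mul_sum, ← Finset.sum_neg_distrib]
  refine Finset.sum_congr rfl fun l _ => ?_
  simp only [if_true, Bool.false_eq_true, if_false]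
  ring

end Pool.Agent.Helper37.Jef
end

section
/-! # representation of the localized gradient -/

open MeasureTheory Set Filter Topology
open scoped ENNReal ContDiff

namespace Pool.Agent.Helper37.Jef
open Pool.Agent.Helper42.Jef
variable {n : ℕ}

/-! ## elementary convergence facts -/

theorem TS.bdd {χ φ : ST n → ℝ} (hχ : HasCompactSupport χ) (h : TS χ φ) :
    ∃ C : ℝ, 0 ≤ C ∧ ∀ y, ‖φ y‖ ≤ C := by
  have hc : HasCompactSupport φ :=
    IsCompact.of_isClosed_subset hχ.isCompact (isClosed_tsupport φ) h.sub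
  obtain ⟨C, hC⟩ := hc.exists_bound_of_continuous h.smooth.continuous
  exact ⟨C, (norm_nonneg _).trans (hC 0), hC⟩

theorem TS.memLp {χ φ : ST n → ℝ} (hχ : HasCompactSupport χ) (h : TS χ φ) (q : ℝ≥0∞) :
    MemLp φ q volume := by
  have hc : HasCompactSupport φ :=
    IsCompact.of_isClosed_subset hχ.isCompact (isClosed_tsupport φ) h.sub
  exact h.smooth.continuous.memLp_of_hasCompactSupport hc

theorem eL2_mul_le {φ g : ST n → ℝ} {C : ℝ} (hC : ∀ y, ‖φ y‖ ≤ C) (q : ℝ≥0∞) :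
    eLpNorm (fun y => φ y * g y) q volume ≤ ENNReal.ofReal C * eLpNorm g q volume := by
  refine eLpNorm_le_mul_eLpNorm_of_ae_le_mul (Eventually.of_forall fun y => ?_) q
  rw [norm_mul]
  exact mul_le_mul_of_nonneg_right (hC y) (norm_nonneg _)

theorem TS.mul_memLp {χ φ g : ST n → ℝ} (hχ : HasCompactSupport χ) (h : TS χ φ) {q : ℝ≥0∞}
    (hg : MemLp g q volume) : MemLp (fun y => φ y * g y) q volume := by
  obtain ⟨C, -, hC⟩ := h.bdd hχ
  refine ⟨h.smooth.continuous.aestronglyMeasurable.mul hg.aestronglyMeasurable, ?_⟩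
  exact (eL2_mul_le hC q).trans_lt (ENNReal.mul_lt_top ENNReal.ofReal_lt_top hg.2)

theorem tendsto_of_le_mul {f g : ℕ → ℝ≥0∞} {C : ℝ≥0∞} (hC : C ≠ ⊤) (h : ∀ m, f m ≤ C * g m)
    (hg : Tendsto g atTop (𝓝 0)) : Tendsto f atTop (𝓝 0) := by
  have h1 := ENNReal.Tendsto.const_mul hg (Or.inr hC)
  rw [mul_zero] at h1
  exact tendsto_of_tendsto_of_tendsto_of_le_of_le tendsto_const_nhds h1 (fun _ => zero_le) h

theorem tendsto_real_of_enorm {f : ℕ → ℝ} (h : Tendsto (fun m => ‖f m‖ₑ) atTop (𝓝 0)) :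
    Tendsto f atTop (𝓝 0) := by
  have h1 := (ENNReal.tendsto_toReal ENNReal.zero_ne_top).comp h
  rw [ENNReal.toReal_zero] at h1
  rw [tendsto_zero_iff_norm_tendsto_zero]
  refine h1.congr fun m => ?_
  simp

/-! ## good sequences for the lower order terms -/

structure Gd (Ω : Set (Eu n)) (T : ℝ) (χ : ST n → ℝ) (g : ℕ → ST n → ℝ) : Prop where
  loc : ∀ m, LocallyIntegrable (g m)
  bdd : ∀ φ, TS χ φ → ∃ M : ℝ, ∀ m, ∫⁻ y, ‖φ y * g m y‖ₑ ≤ ENNReal.ofReal M
  weak : ∀ ψ, IsTestST Ω T ψ → Tendsto (fun m => ∫ z, g m z * ψ z) atTop (𝓝 0)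

theorem holder2_lint {f g : ST n → ℝ} (hf : AEStronglyMeasurable f volume)
    (hg : AEStronglyMeasurable g volume) :
    ∫⁻ z, ‖f z * g z‖ₑ ≤ eLpNorm f 2 volume * eLpNorm g 2 volume := by
  simp only [enorm_mul]
  have h := ENNReal.lintegral_mul_le_Lp_mul_Lq volume (p := 2) (q := 2)
    (by constructor <;> norm_num) hf.enorm hg.enorm
  rw [eLpNorm_eq_lintegral_rpow_enorm_toReal (by norm_num) (by norm_num),
    eLpNorm_eq_lintegral_rpow_enorm_toReal (by norm_num) (by norm_num)]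
  simpa using h

theorem Gd.of_L2 {Ω : Set (Eu n)} {T : ℝ} {χ : ST n → ℝ} (hχ : IsTestST Ω T χ)
    {g : ℕ → ST n → ℝ} {M : ℝ}
    (h2 : ∀ m, MemLp (g m) 2 volume) (hM : ∀ m, eLpNorm (g m) 2 volume ≤ ENNReal.ofReal M)
    (hw : ∀ ψ, IsTestST Ω T ψ → Tendsto (fun m => ∫ z, g m z * ψ z) atTop (𝓝 0)) :
    Gd Ω T χ g := by
  refine ⟨fun m => (h2 m).locallyIntegrable (by norm_num), fun φ hφ => ?_, hw⟩
  have h1 := hφ.memLp hχ.cpt 2
  refine ⟨(eLpNorm φ 2 volume).toReal * M, fun m => ?_⟩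
  rw [ENNReal.ofReal_mul ENNReal.toReal_nonneg, ENNReal.ofReal_toReal h1.eLpNorm_ne_top]
  exact (holder2_lint h1.aestronglyMeasurable (h2 m).aestronglyMeasurable).trans
    (mul_le_mul_right (hM m) _)

theorem Gd.cm {Ω : Set (Eu n)} {T : ℝ} {χ : ST n → ℝ} (hχ : IsTestST Ω T χ)
    {g : ℕ → ST n → ℝ} (hg : Gd Ω T χ g) {μ : ℝ} (hμ : 0 < μ) (hL : KLow n μ)
    {ε : ℕ → ℝ} (hε : ∀ m, 0 < ε m ∧ ε m < 1) (hε0 : Tendsto ε atTop (𝓝 0))
    {L : List (Fin n)} (hl : L.length ≤ 3) {S : Set (ST n)} (hS : S ⊆ Iio T ×ˢ univ)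
    {φ : ST n → ℝ} (hφ : TS χ φ) :
    CM S (fun m => cv (RR μ (ε m) L) (fun y => φ y * g m y)) := by
  obtain ⟨M, hM⟩ := hg.bdd φ hφ
  exact low_cm hμ hL (hφ.test hχ) (fun m => (hφ.nice hχ.cpt (hg.loc m)).1) hM hg.weak hε hε0 L hl hS

theorem cLow_cm {Ω : Set (Eu n)} {T : ℝ} {χ : ST n → ℝ} (hχ : IsTestST Ω T χ)
    {om hi hj : ℕ → ST n → ℝ} {si sj : ℕ → Fin n → ST n → ℝ}
    (hom : Gd Ω T χ om) (hhi : Gd Ω T χ hi) (hhj : Gd Ω T χ hj)
    (hsi : ∀ l, Gd Ω T χ (fun m => si m l)) (hsj : ∀ l, Gd Ω T χ (fun m => sj m l))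
    {μ : ℝ} (hμ : 0 < μ) (hL : KLow n μ) (c : ℝ)
    {ε : ℕ → ℝ} (hε : ∀ m, 0 < ε m ∧ ε m < 1) (hε0 : Tendsto ε atTop (𝓝 0))
    (i j : Fin n) {L : List (Fin n)} (hl : L.length = 2) {S : Set (ST n)}
    (hS : S ⊆ Iio T ×ˢ univ) :
    CM S (fun m z => cLow χ μ c (om m) (hi m) (hj m) (si m) (sj m) i j L
      (fun L φ g => cv (RR μ (ε m) L) (fun y => φ y * g y) z)) := by
  have t0 := TS.refl hχ.smooth
  have h2 : L.length ≤ 3 := by omega
  have h3 : ∀ l, (l :: L).length ≤ 3 := fun l => by simp [hl]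
  unfold cLow
  exact ((((((hom.cm hχ hμ hL hε hε0 h2 hS (t0.Dc μ)).sub
    ((CM.sum Finset.univ fun l _ => hom.cm hχ hμ hL hε hε0 (h3 l) hS (t0.dx l)).const_mul
      (2 * μ))).add
    (hhi.cm hχ hμ hL hε hε0 h2 hS (t0.dx j))).sub
    (hhi.cm hχ hμ hL hε hε0 (h3 j) hS t0)).sub
    (hhj.cm hχ hμ hL hε hε0 h2 hS (t0.dx i))).add
    (hhj.cm hχ hμ hL hε hε0 (h3 i) hS t0)).add
    ((CM.sum Finset.univ fun l _ =>
      ((((((hsi l).cm hχ hμ hL hε hε0 h2 hS ((t0.dx j).dx l)).sub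
        ((hsi l).cm hχ hμ hL hε hε0 (h3 l) hS (t0.dx j))).sub
        ((hsi l).cm hχ hμ hL hε hε0 (h3 j) hS (t0.dx l))).sub
        ((hsj l).cm hχ hμ hL hε hε0 h2 hS ((t0.dx i).dx l))).add
        ((hsj l).cm hχ hμ hL hε hε0 (h3 l) hS (t0.dx i))).add
        ((hsj l).cm hχ hμ hL hε hε0 (h3 i) hS (t0.dx l))).const_mul c)

/-! ## choice of the regularization parameters -/

theorem choose_eps {μ : ℝ} (hμ : 0 < μ) {ι : Type*} [Finite ι] {X : ι → ST n → ℝ}
    (h2 : ∀ a, MemLp (X a) 2 volume) (h1 : ∀ a, Integrable (X a)) {δ : ℝ} (hδ : 0 < δ) :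
    ∃ ε : ℝ, 0 < ε ∧ ε < 1 ∧ ε < δ ∧ ∀ a,
      eLpNorm (fun z => X a z - cv (Kp μ ε ε []) (X a) z) 2 volume ≤ ENNReal.ofReal δ := by
  have e1 : ∀ a, ∀ᶠ ε in 𝓝[>] (0 : ℝ),
      eLpNorm (fun z => X a z - cv (Kp μ ε ε []) (X a) z) 2 volume ≤ ENNReal.ofReal δ := by
    intro a
    obtain ⟨ε0, h0, h⟩ := app_id (h2 a) (h1 a) hμ hδ
    filter_upwards [Ioo_mem_nhdsGT h0] with ε hε
    exact h ε hε.1 hε.2
  have e2 : ∀ᶠ ε in 𝓝[>] (0 : ℝ), ε ∈ Ioo 0 (min 1 δ) :=
    Ioo_mem_nhdsGT (lt_min one_pos hδ)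
  obtain ⟨ε, hε, hε2⟩ := ((eventually_all.2 e1).and e2).exists
  exact ⟨ε, hε2.1, hε2.2.trans_le (min_le_left _ _), hε2.2.trans_le (min_le_right _ _), hε⟩

theorem norm_le_sum_abs {ι : Type*} [Fintype ι] (v : EuclideanSpace ℝ ι) :
    ‖v‖ ≤ ∑ p, |v p| := by
  rw [EuclideanSpace.norm_eq]
  refine Real.sqrt_le_iff.2 ⟨Finset.sum_nonneg fun _ _ => abs_nonneg _, ?_⟩
  have h1 : ∀ p ∈ (Finset.univ : Finset ι), ‖v p‖ ^ 2 ≤ |v p| * ∑ q, |v q| := by
    intro p hp
    rw [Real.norm_eq_abs, sq]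
    exact mul_le_mul_of_nonneg_left
      (Finset.single_le_sum (f := fun q => |v q|) (fun _ _ => abs_nonneg _) hp) (abs_nonneg _)
  refine (Finset.sum_le_sum h1).trans ?_
  rw [← Finset.sum_mul, sq]

theorem CM.abs {S : Set (ST n)} {f : ℕ → ST n → ℝ} (hf : CM S f) :
    CM S (fun m z => |f m z|) := by
  intro s hs
  refine (hf s hs).congr fun m => ?_
  simp only [abs_abs]

/-! ## the theorem -/

theorem XX_memLp {Ω : Set (Eu n)} {T : ℝ} {χ : ST n → ℝ} (hχ : IsTestST Ω T χ)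
    {w : ST n → Eu n} {W : ST n → Mt n} (hv : IsVel Ω T w W) (k i : Fin n) :
    MemLp (XX χ w W k i) 2 volume :=
  (((TS.refl hχ.smooth).dx k).mul_memLp hχ.cpt (memLp_comp hv.memv i)).add
    ((TS.refl hχ.smooth).mul_memLp hχ.cpt (memLp_comp hv.memG (i, k)))

theorem om_abs (W : ST n → Mt n) (i j : Fin n) (y : ST n) : ‖om W i j y‖ ≤ 2 * ‖W y‖ := by
  have h1 := abs_comp_le (W y) (i, j)
  have h2 := abs_comp_le (W y) (j, i)
  rw [Real.norm_eq_abs]
  unfold om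
  have := abs_sub (W y (i, j)) (W y (j, i))
  linarith

theorem sg_abs (σ : ST n → Mt n) (i l : Fin n) (y : ST n) : ‖sg σ i l y‖ ≤ ‖σ y‖ := by
  have h1 := abs_comp_le (σ y) (l, i)
  have h2 := abs_comp_le (σ y) (i, l)
  rw [Real.norm_eq_abs, sg_eq, abs_mul, abs_of_pos (by norm_num : (0 : ℝ) < 1 / 2)]
  have := abs_add_le (σ y (l, i)) (σ y (i, l))
  linarith

theorem repr_of (n : ℕ) {μ : ℝ} (hμ : 0 < μ) (hM : KMain n μ) (hE : KEll n μ) (hL : KLow n μ)
    (c : ℝ) : ∃ (A : ℝ) (C : ℝ → ℝ),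
    ∀ (Ω : Set (Eu n)), IsOpen Ω → Bornology.IsBounded Ω → ∀ T : ℝ, 0 < T →
    ∀ (w : ℕ → ST n → Eu n) (W : ℕ → ST n → Mt n) (h : ℕ → ST n → Eu n) (σ : ℕ → ST n → Mt n)
      (M : ℝ),
    (∀ m, IsVel Ω T (w m) (W m)) →
    Tendsto (fun m => eLpNorm (w m) 2 volume) atTop (𝓝 0) →
    (∀ m, eLpNorm (W m) 2 volume ≤ ENNReal.ofReal M) →
    (∀ m, Integrable (h m)) → (∀ m, ∫ z, ‖h m z‖ ≤ M) →
    (∀ m, MemLp (σ m) 2 volume) → (∀ m, eLpNorm (σ m) 2 volume ≤ ENNReal.ofReal M) →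
    (∀ ψ, IsTestST Ω T ψ → ∀ i, Tendsto (fun m => ∫ z, h m z i * ψ z) atTop (𝓝 0)) →
    (∀ ψ, IsTestST Ω T ψ → ∀ p, Tendsto (fun m => ∫ z, σ m z p * ψ z) atTop (𝓝 0)) →
    (∀ m, ∀ i j : Fin n, ∀ ψ, IsTestST Ω T ψ →
      ∫ z, (W m z (i, j) - W m z (j, i)) * (dt ψ z + μ * ∑ l, dx l (dx l ψ) z) =
      ∫ z, (-(h m z i * dx j ψ z) + h m z j * dx i ψ z - c * ∑ l,
        (sy (σ m z) (l, i) * dx l (dx j ψ) z - sy (σ m z) (l, j) * dx l (dx i ψ) z))) →
    ∀ χ, IsTestST Ω T χ → ∃ κ : ℕ → (Fin n × Fin n) → (Fin n × Fin n) → ST n → ℝ,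
      (∀ m p q, Integrable (κ m p q)) ∧
      (∀ m p q, ∀ u : ST n → ℝ, Integrable u → MemLp u 2 →
        eLpNorm (cv (κ m p q) u) 2 volume ≤ ENNReal.ofReal A * eLpNorm u 2 volume) ∧
      (∀ m p q, ∀ u : ST n → ℝ, Integrable u → MemLp u 2 → ∫ z, |u z| ≤ 1 → ∀ s > 0,
        volume {z | s < |cv (κ m p q) u z|} ≤ ENNReal.ofReal (C s * ∫ z, |u z|)) ∧
      (∀ s : ℝ, 0 < s → Tendsto (fun m => volume {z | χ z ≠ 0 ∧
        s < ‖χ z • W m z - KK (κ m) (fun y => χ y • σ m y) z‖}) atTop (𝓝 0)) := by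
  obtain ⟨A0, C0, hM⟩ := hM
  obtain ⟨AE, hE⟩ := hE
  set N : ℝ := (Fintype.card ((Fin n × Fin n) × Bool) : ℝ) with hN
  refine ⟨N * |c| * A0, fun s => N * C0 (s / ((N + 1) * (|c| + 1))), ?_⟩
  intro Ω hΩ hΩb T hT w W h σ M hv hw hW hhi hhM hσ hσM hhw hσw hV χ hχ
  have t0 := TS.refl hχ.smooth
  have cpt := hχ.cpt
  have hV' : ∀ m, Vort Ω T μ c (W m) (h m) (σ m) := hV
  choose ε hε0 hε1 hεδ hεX using fun m : ℕ => choose_eps hμ (ι := Fin n × Fin n)
    (X := fun p => XX χ (w m) (W m) p.2 p.1) (fun p => XX_memLp hχ (hv m) p.2 p.1)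
    (fun p => (XX_nice hχ (hv m) p.2 p.1).1) (δ := 1 / ((m : ℝ) + 1)) (by positivity)
  have hεε : ∀ m, 0 < ε m ∧ ε m < 1 := fun m => ⟨hε0 m, hε1 m⟩
  have hεt : Tendsto ε atTop (𝓝 0) :=
    tendsto_of_tendsto_of_tendsto_of_le_of_le tendsto_const_nhds
      tendsto_one_div_add_atTop_nhds_zero_nat (fun m => (hε0 m).le) fun m => (hεδ m).le
  have hKB : ∀ (m : ℕ) (p q : Fin n × Fin n), KB (N * |c| * A0) (fun s => N * C0 (s / ((N + 1) * (|c| + 1))))
      (kap c μ (ε m) p q) := by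
    intro m p q
    exact KB_comb (abs_nonneg c) (cf_bound c p.1 q) fun a =>
      hM (ε m) (hε0 m) (hε1 m) (ls p.1 p.2 a) (ls_length p.1 p.2 a)
  refine ⟨fun m => kap c μ (ε m), fun m p q => (hKB m p q).1, fun m p q => (hKB m p q).2.1,
    fun m p q => (hKB m p q).2.2, ?_⟩
  -- supports
  set S : Set (ST n) := {z | χ z ≠ 0} with hS
  have hSS : S ⊆ Iio T ×ˢ univ := by
    intro z hz
    have h1 : z ∈ tsupport χ := subset_tsupport χ hz
    exact ⟨(hχ.supp h1).1.2, mem_univ _⟩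
  -- convergence of the velocities
  have hwi : ∀ {φ : ST n → ℝ}, TS χ φ → ∀ i,
      Tendsto (fun m => eLpNorm (fun y => φ y * w m y i) 2 volume) atTop (𝓝 0) := by
    intro φ hφ i
    obtain ⟨C, -, hC⟩ := hφ.bdd cpt
    refine tendsto_of_le_mul (C := ENNReal.ofReal C) ENNReal.ofReal_ne_top (fun m => ?_) hw
    exact (eL2_mul_le hC 2).trans (mul_le_mul_right (eL_comp_le (w m) 2 i) _)
  have mwi : ∀ {φ : ST n → ℝ}, TS χ φ → ∀ i m, MemLp (fun y => φ y * w m y i) 2 volume :=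
    fun hφ i m => hφ.mul_memLp cpt (memLp_comp (hv m).memv i)
  -- good sequences
  have gom : ∀ i j, Gd Ω T χ (fun m => om (W m) i j) := by
    intro i j
    refine Gd.of_L2 hχ (M := 2 * M)
      (fun m => (memLp_comp (hv m).memG (i, j)).sub (memLp_comp (hv m).memG (j, i))) ?_ ?_
    · intro m
      have h1 : eLpNorm (om (W m) i j) 2 volume ≤ ENNReal.ofReal 2 * eLpNorm (W m) 2 volume :=
        eLpNorm_le_mul_eLpNorm_of_ae_le_mul (Eventually.of_forall (om_abs (W m) i j)) 2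
      rw [ENNReal.ofReal_mul (by norm_num)]
      exact h1.trans (mul_le_mul_right (hW m) _)
    · intro ψ hψ
      have e1 : ∀ m, ∫ z, om (W m) i j z * ψ z =
          (∫ z, w m z j * dx i ψ z) - ∫ z, w m z i * dx j ψ z := by
        intro m
        have a1 := vel_weak (hv m) hψ.smooth hψ.cpt i j
        have a2 := vel_weak (hv m) hψ.smooth hψ.cpt j i
        have mψ : MemLp ψ 2 volume := hψ.smooth.continuous.memLp_of_hasCompactSupport hψ.cpt
        have e2 : ∀ z, om (W m) i j z * ψ z = W m z (i, j) * ψ z - W m z (j, i) * ψ z := by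
          intro z
          unfold om
          ring
        simp only [e2]
        rw [integral_sub (int_mul2 (memLp_comp (hv m).memG (i, j)) mψ)
          (int_mul2 (memLp_comp (hv m).memG (j, i)) mψ), a1, a2]
        ring
      simp only [e1]
      have key : ∀ i j, Tendsto (fun m => ∫ z, w m z i * dx j ψ z) atTop (𝓝 0) := by
        intro i j
        refine tendsto_real_of_enorm ?_
        have tψ := (TS.refl hψ.smooth).dx j
        have mψ := tψ.memLp hψ.cpt 2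
        refine tendsto_of_le_mul mψ.eLpNorm_ne_top (fun m => ?_) hw
        rw [mul_comm]
        refine (holder2 (aesm_comp (hv m).memv.aestronglyMeasurable i)
          mψ.aestronglyMeasurable).trans ?_
        exact mul_le_mul_left (eL_comp_le (w m) 2 i) _
      simpa using (key j i).sub (key i j)
  have ghi : ∀ i, Gd Ω T χ (fun m y => h m y i) := by
    intro i
    refine ⟨fun m => li_comp le_rfl (memLp_one_iff_integrable.2 (hhi m)) i, ?_,
      fun ψ hψ => hhw ψ hψ i⟩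
    intro φ hφ
    obtain ⟨C, hC0, hC⟩ := hφ.bdd cpt
    refine ⟨C * M, fun m => ?_⟩
    calc ∫⁻ y, ‖φ y * h m y i‖ₑ ≤ ∫⁻ y, ENNReal.ofReal C * ‖h m y‖ₑ := by
          refine lintegral_mono fun y => ?_
          rw [enorm_mul]
          refine mul_le_mul' ?_ ?_
          · rw [← ofReal_norm]
            exact ENNReal.ofReal_le_ofReal (hC y)
          · rw [← ofReal_norm, ← ofReal_norm]
            exact ENNReal.ofReal_le_ofReal (abs_comp_le (h m y) i)
      _ = ENNReal.ofReal C * ENNReal.ofReal (∫ y, ‖h m y‖) := by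
          rw [lintegral_const_mul' _ _ ENNReal.ofReal_ne_top,
            ofReal_integral_norm_eq_lintegral_enorm (hhi m)]
      _ ≤ ENNReal.ofReal (C * M) := by
          rw [ENNReal.ofReal_mul hC0]
          exact mul_le_mul_right (ENNReal.ofReal_le_ofReal (hhM m)) _
  have gsg : ∀ i l, Gd Ω T χ (fun m => sg (σ m) i l) := by
    intro i l
    refine Gd.of_L2 hχ (M := M) (fun m => ?_) (fun m => ?_) ?_
    · have e : sg (σ m) i l = fun y => 1 / 2 * ((fun z => σ m z (l, i)) +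
          fun z => σ m z (i, l)) y := funext fun y => sg_eq (σ m) i l y
      rw [e]
      exact ((memLp_comp (hσ m) (l, i)).add (memLp_comp (hσ m) (i, l))).const_mul (1 / 2 : ℝ)
    · exact (eLpNorm_mono (sg_abs (σ m) i l)).trans (hσM m)
    · intro ψ hψ
      have mψ : MemLp ψ 2 volume := hψ.smooth.continuous.memLp_of_hasCompactSupport hψ.cpt
      have e1 : ∀ m, ∫ z, sg (σ m) i l z * ψ z =
          1 / 2 * ((∫ z, σ m z (l, i) * ψ z) + ∫ z, σ m z (i, l) * ψ z) := by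
        intro m
        have e2 : ∀ z, sg (σ m) i l z * ψ z =
            1 / 2 * (σ m z (l, i) * ψ z + σ m z (i, l) * ψ z) := by
          intro z
          rw [sg_eq]
          ring
        simp only [e2]
        rw [integral_const_mul, integral_add (int_mul2 (memLp_comp (hσ m) (l, i)) mψ)
          (int_mul2 (memLp_comp (hσ m) (i, l)) mψ)]
      simp only [e1]
      simpa using ((hσw ψ hψ (l, i)).add (hσw ψ hψ (i, l))).const_mul (1 / 2 : ℝ)
  -- the remainder, entry by entry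
  have hCM : ∀ p : Fin n × Fin n, CM S (fun m z =>
      (χ z • W m z - KK (kap c μ (ε m)) (fun y => χ y • σ m y) z) p) := by
    rintro ⟨i, k⟩
    have T1 : CM S (fun m z => XX χ (w m) (W m) k i z -
        cv (Kp μ (ε m) (ε m) []) (XX χ (w m) (W m) k i) z) := by
      refine CM.of_L2 (fun m => ?_) ?_
      · exact (XX_memLp hχ (hv m) k i).aestronglyMeasurable.sub
          (cv_aesm (Kp_smooth hμ (hε0 m) (hε0 m) []).continuous.aestronglyMeasurable
            (XX_memLp hχ (hv m) k i).aestronglyMeasurable)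
      · have hz : Tendsto (fun m : ℕ => ENNReal.ofReal (1 / ((m : ℝ) + 1))) atTop (𝓝 0) := by
          have := ENNReal.tendsto_ofReal (tendsto_one_div_add_atTop_nhds_zero_nat (𝕜 := ℝ))
          simpa using this
        exact tendsto_of_tendsto_of_tendsto_of_le_of_le tendsto_const_nhds hz
          (fun _ => zero_le) fun m => hεX m (i, k)
    have T2 : CM S (fun m z => cv (Kp μ (ε m) 1 []) (XX χ (w m) (W m) k i) z) := by
      have e1 : ∀ m z, cv (Kp μ (ε m) 1 [k]) (fun y => χ y * w m y i) z =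
          cv (Kp μ (ε m) 1 []) (XX χ (w m) (W m) k i) z := fun m z =>
        (cv_XX hχ (hv m) (Kp_smooth hμ (hε0 m) one_pos [])
          (Kp_smooth hμ (hε0 m) one_pos [k]).continuous k i
          (fun z => Kp_deriv_x hμ (hε0 m) one_pos [] k z) z).symm
      refine CM.congr (f := fun m z => cv (Kp μ (ε m) 1 [k]) (fun y => χ y * w m y i) z) ?_
        fun m z _ => e1 m z
      refine CM.of_L2 (fun m => cv_aesm
        (Kp_smooth hμ (hε0 m) one_pos [k]).continuous.aestronglyMeasurable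
        (mwi t0 i m).aestronglyMeasurable) ?_
      refine tendsto_of_le_mul (C := ENNReal.ofReal ((2 : ℝ) ^ ((n : ℝ) / 2)))
        ENNReal.ofReal_ne_top (fun m => ?_) (hwi t0 i)
      exact (eL2_cv (Kp_smooth hμ (hε0 m) one_pos [k]).continuous.aestronglyMeasurable
        (mwi t0 i m).aestronglyMeasurable).trans (mul_le_mul_left (Kp1_lint hμ (hε0 m) k) _)
    have T3 : ∀ j, CM S (fun m z => cv (PP μ (ε m) [k, j]) (cw χ (w m) i j) z) := by
      intro j
      have mm : ∀ m, MemLp (cw χ (w m) i j) 2 volume := fun m =>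
        (mwi (t0.dx j) i m).sub (mwi (t0.dx i) j m)
      refine CM.of_L2 (fun m => cv_aesm
        (PP_cont hμ (hε0 m) (hε1 m).le [k, j]).aestronglyMeasurable
        (mm m).aestronglyMeasurable) ?_
      have h0 : Tendsto (fun m => eLpNorm (cw χ (w m) i j) 2 volume) atTop (𝓝 0) := by
        have h1 := (hwi (t0.dx j) i).add (hwi (t0.dx i) j)
        rw [add_zero] at h1
        refine tendsto_of_tendsto_of_tendsto_of_le_of_le tendsto_const_nhds h1
          (fun _ => zero_le) fun m => ?_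
        exact eLpNorm_sub_le (mwi (t0.dx j) i m).aestronglyMeasurable
          (mwi (t0.dx i) j m).aestronglyMeasurable (by norm_num)
      refine tendsto_of_le_mul (C := ENNReal.ofReal AE) ENNReal.ofReal_ne_top (fun m => ?_) h0
      exact (hE (ε m) (hε0 m) (hε1 m) [k, j] rfl).2 _ (cw_nice hχ (hv m) i j).1 (mm m)
    have T4 : CM S (fun m z => cv (PP μ (ε m) [k, i]) (dd χ (w m)) z) := by
      have e : ∀ m, dd χ (w m) = ∑ p, fun y => dx p χ y * w m y p := by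
        intro m
        funext y
        simp [dd]
      have mm : ∀ m, MemLp (dd χ (w m)) 2 volume := fun m => by
        rw [e m]
        exact memLp_finsetSum' Finset.univ fun p _ => mwi (t0.dx p) p m
      refine CM.of_L2 (fun m => cv_aesm
        (PP_cont hμ (hε0 m) (hε1 m).le [k, i]).aestronglyMeasurable
        (mm m).aestronglyMeasurable) ?_
      have h0 : Tendsto (fun m => eLpNorm (dd χ (w m)) 2 volume) atTop (𝓝 0) := by
        have h1 : Tendsto (fun m => ∑ p, eLpNorm (fun y => dx p χ y * w m y p) 2 volume)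
            atTop (𝓝 0) := by
          have := tendsto_finsetSum Finset.univ
            fun p (_ : p ∈ Finset.univ) => hwi (t0.dx p) p
          simpa using this
        refine tendsto_of_tendsto_of_tendsto_of_le_of_le tendsto_const_nhds h1
          (fun _ => zero_le) fun m => ?_
        simp only []
        rw [e m]
        exact eLpNorm_sum_le (fun p _ => (mwi (t0.dx p) p m).aestronglyMeasurable) (by norm_num)
      refine tendsto_of_le_mul (C := ENNReal.ofReal AE) ENNReal.ofReal_ne_top (fun m => ?_) h0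
      exact (hE (ε m) (hε0 m) (hε1 m) [k, i] rfl).2 _ (dd_nice hχ (hv m)).1 (mm m)
    have T5 : ∀ j, CM S (fun m z => cLow χ μ c (om (W m) i j) (fun y => h m y i)
        (fun y => h m y j) (sg (σ m) i) (sg (σ m) j) i j [k, j]
          (fun L φ g => cv (RR μ (ε m) L) (fun y => φ y * g y) z)) := fun j =>
      cLow_cm hχ (om := fun m => om (W m) i j) (hi := fun m y => h m y i)
        (hj := fun m y => h m y j) (si := fun m => sg (σ m) i) (sj := fun m => sg (σ m) j)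
        (gom i j) (ghi i) (ghi j) (gsg i) (gsg j) hμ hL c hεε hεt i j rfl hSS
    have T6 : CM S (fun m z => dx k χ z * w m z i) :=
      CM.of_L2 (fun m => (mwi (t0.dx k) i m).aestronglyMeasurable) (hwi (t0.dx k) i)
    have TT := (((((T1.add T2).sub (CM.sum Finset.univ fun j _ => T5 j)).sub
      (CM.sum Finset.univ fun j _ => T3 j)).sub T4).sub T6)
    refine TT.congr fun m z _ => ?_
    have e1 := rep_id hχ (hv m) (hhi m) (hσ m) (hV' m) hμ (hε0 m) (hε1 m).le k i z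
    have e2 := kap_sum (c := c) hχ (hσ m) hμ (hε0 m) (hε1 m).le i k z
    have e3 : (χ z • W m z - KK (kap c μ (ε m)) (fun y => χ y • σ m y) z) (i, k) =
        χ z * W m z (i, k) - ∑ q, cv (kap c μ (ε m) (i, k) q) (fun y => χ y * σ m y q) z := by
      simp [KK]
    rw [e3, e2]
    rw [Finset.sum_add_distrib, Finset.sum_add_distrib] at e1
    have e4 : XX χ (w m) (W m) k i z = dx k χ z * w m z i + χ z * W m z (i, k) := rfl
    rw [e4]
    linarith
  intro s hs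
  have hfin := (CM.sum Finset.univ fun p (_ : p ∈ Finset.univ) => (hCM p).abs) s hs
  refine tendsto_of_tendsto_of_tendsto_of_le_of_le tendsto_const_nhds hfin (fun _ => zero_le)
    fun m => measure_mono ?_
  rintro z ⟨hz, h1⟩
  refine ⟨hz, ?_⟩
  rw [abs_of_nonneg (Finset.sum_nonneg fun _ _ => abs_nonneg _)]
  exact h1.trans_le (norm_le_sum_abs _)

end Pool.Agent.Helper37.Jef
end

section
/-! # P6: pointwise variance inequality -/

open MeasureTheory Set Filter Topology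
open scoped ENNReal NNReal ContDiff

namespace Pool.Agent.Helper41.Jef

open Pool.Agent.Helper42.Jef

variable {n : ℕ}

/-- smooth functions decreasing to the indicator of a closed ball -/
theorem exists_ball_cutoff {Ω : Set (Eu n)} {T : ℝ} {z : ST n} {r R : ℝ} (hr : 0 < r) (hrR : r < R)
    (hR : Metric.closedBall z R ⊆ Ioo 0 T ×ˢ Ω) : ∃ χ : ST n → ℝ, IsTestST Ω T χ ∧
      (∀ y, 0 ≤ χ y ∧ χ y ≤ 1) ∧ (∀ y ∈ Metric.closedBall z r, χ y = 1) ∧
      ∀ y, R ≤ dist y z → χ y = 0 := by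
  set b : ContDiffBump z := ⟨r, R, hr, hrR⟩ with hb
  refine ⟨b, ⟨b.contDiff, b.hasCompactSupport, ?_⟩, fun y => ⟨b.nonneg, b.le_one⟩,
    fun y hy => b.one_of_mem_closedBall hy, fun y hy => b.zero_of_le_dist hy⟩
  rw [b.tsupport_eq]
  exact hR

/-- pointwise inequality from squares of test functions -/
theorem ae_le_of_tests {Ω : Set (Eu n)} (hΩ : IsOpen Ω) {T A' : ℝ} {V θ : ST n → ℝ}
    (hV : Integrable V) (hθ : Integrable θ)
    (h : ∀ χ, IsTestST Ω T χ → ∫ z, χ z ^ 2 * V z ≤ A' * ∫ z, χ z ^ 2 * θ z) :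
    ∀ᵐ z : ST n, z.1 ∈ Ioo 0 T → z.2 ∈ Ω → V z ≤ A' * θ z := by
  set f : ST n → ℝ := fun z => A' * θ z - V z with hf
  have hfi : Integrable f := (hθ.const_mul A').sub hV
  have hU : IsOpen (Ioo 0 T ×ˢ Ω) := isOpen_Ioo.prod hΩ
  have hsq : ∀ {χ : ST n → ℝ} {g : ST n → ℝ}, IsTestST Ω T χ → Integrable g →
      Integrable (fun z => χ z ^ 2 * g z) := by
    intro χ g hχ hg
    obtain ⟨B, hB⟩ := hχ.cpt.exists_bound_of_continuous hχ.smooth.continuous
    refine hg.bdd_mul (c := B ^ 2) ((hχ.smooth.continuous.pow 2).aestronglyMeasurable)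
      (Eventually.of_forall fun z => ?_)
    rw [norm_pow]
    exact pow_le_pow_left₀ (norm_nonneg _) (hB z) 2
  -- the integral of `f` over closed balls inside is nonnegative
  have hball : ∀ z : ST n, ∀ r : ℝ, 0 < r → ∀ R, r < R →
      Metric.closedBall z R ⊆ Ioo 0 T ×ˢ Ω → 0 ≤ ∫ y in Metric.closedBall z r, f y := by
    intro z r hr R hrR hR
    have hex : ∀ k : ℕ, ∃ χ : ST n → ℝ, IsTestST Ω T χ ∧
        (∀ y, 0 ≤ χ y ∧ χ y ≤ 1) ∧ (∀ y ∈ Metric.closedBall z r, χ y = 1) ∧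
        ∀ y, r + (R - r) / ((k : ℝ) + 1) ≤ dist y z → χ y = 0 := by
      intro k
      have h1 : (R - r) / ((k : ℝ) + 1) ≤ R - r :=
        div_le_self (by linarith) (by linarith [(Nat.cast_nonneg k : (0:ℝ) ≤ k)])
      have h2 : 0 < (R - r) / ((k : ℝ) + 1) := by
        have : 0 < R - r := by linarith
        positivity
      exact exists_ball_cutoff hr (by linarith)
        ((Metric.closedBall_subset_closedBall (by linarith)).trans hR)
    choose χ hχt hχ01 hχ1 hχ0 using hex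
    have h1 : ∀ k, 0 ≤ ∫ y, χ k y ^ 2 * f y := by
      intro k
      have h2 := h (χ k) (hχt k)
      have h3 : ∫ y, χ k y ^ 2 * f y = A' * (∫ y, χ k y ^ 2 * θ y) - ∫ y, χ k y ^ 2 * V y := by
        rw [← integral_const_mul, ← integral_sub ((hsq (hχt k) hθ).const_mul A')
          (hsq (hχt k) hV)]
        refine integral_congr_ae (Eventually.of_forall fun y => ?_)
        simp only [hf]; ring
      rw [h3]; linarith
    have h2 : Tendsto (fun k => ∫ y, χ k y ^ 2 * f y) atTop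
        (𝓝 (∫ y, (Metric.closedBall z r).indicator f y)) := by
      refine tendsto_integral_of_dominated_convergence (fun y => ‖f y‖) ?_ hfi.norm ?_ ?_
      · exact fun k => (hsq (hχt k) hfi).1
      · intro k
        refine Eventually.of_forall fun y => ?_
        rw [norm_mul, norm_pow, Real.norm_of_nonneg (hχ01 k y).1]
        have := pow_le_one₀ (n := 2) (hχ01 k y).1 (hχ01 k y).2
        exact mul_le_of_le_one_left (norm_nonneg _) this
      · refine Eventually.of_forall fun y => ?_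
        by_cases hy : y ∈ Metric.closedBall z r
        · have : (fun k => χ k y ^ 2 * f y) = fun _ => (Metric.closedBall z r).indicator f y := by
            funext k
            rw [hχ1 k y hy, indicator_of_mem hy]; ring
          rw [this]
          exact tendsto_const_nhds
        · have hy' : r < dist y z := by
            rw [Metric.mem_closedBall, not_le] at hy; exact hy
          have h3 : Tendsto (fun k : ℕ => r + (R - r) * (1 / ((k : ℝ) + 1))) atTop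
              (𝓝 (r + (R - r) * 0)) :=
            (tendsto_one_div_add_atTop_nhds_zero_nat.const_mul _).const_add _
          rw [mul_zero, add_zero] at h3
          rw [indicator_of_notMem hy]
          refine tendsto_const_nhds.congr' ?_
          filter_upwards [(tendsto_order.1 h3).2 _ hy'] with k hk
          have h4 : χ k y = 0 := by
            refine hχ0 k y ?_
            rw [div_eq_mul_one_div]
            exact hk.le
          rw [h4]; ring
    rw [integral_indicator Metric.isClosed_closedBall.measurableSet] at h2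
    exact ge_of_tendsto' h2 h1
  have hleb := IsUnifLocDoublingMeasure.ae_tendsto_average
    ((volume : Measure ℝ).prod (volume : Measure (Eu n))) hfi.locallyIntegrable 1
  filter_upwards [hleb] with z hz h1 h2
  have hzU : z ∈ Ioo 0 T ×ˢ Ω := ⟨h1, h2⟩
  obtain ⟨R, hR, hRU⟩ := Metric.nhds_basis_closedBall.mem_iff.1 (hU.mem_nhds hzU)
  have h3 := hz (fun _ : ℝ => z) (fun r : ℝ => r) (l := 𝓝[>] 0) tendsto_id
    (by filter_upwards [self_mem_nhdsWithin] with r hr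
        exact Metric.mem_closedBall_self (by rw [one_mul]; exact (le_of_lt hr)))
  have h4 : ∀ᶠ r : ℝ in 𝓝[>] 0,
      0 ≤ ⨍ y in Metric.closedBall z r, f y ∂((volume : Measure ℝ).prod (volume : Measure (Eu n))) := by
    filter_upwards [self_mem_nhdsWithin, nhdsWithin_le_nhds (Iio_mem_nhds hR)] with r hr hr2
    rw [setAverage_eq]
    refine smul_nonneg (by positivity) ?_
    have h5 := hball z r hr R hr2 hRU
    exact h5
  have h5 : 0 ≤ f z := ge_of_tendsto h3 h4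
  simp only [hf] at h5
  linarith

/-- properties `repr` and `star` combined (same text as in the skeleton) -/
def ReprStar (n : ℕ) (μ c : ℝ) : Prop :=
  ∃ A' : ℝ, 0 ≤ A' ∧ ∀ (Ω : Set (Eu n)), IsOpen Ω → Bornology.IsBounded Ω → ∀ T : ℝ, 0 < T →
    ∀ (w : ℕ → ST n → Eu n) (g : ℕ → ST n → Mt n) (gl : ST n → Mt n) (h : ℕ → ST n → Eu n)
      (t : ℕ → ST n → Mt n) (tl : ST n → Mt n) (gk tk : ℕ → ST n → Mt n) (ga ta : ℕ → ST n → ℝ)
      (V θ : ST n → ℝ) (M : ℝ),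
    (∀ m, IsVel Ω T (w m) (fun z => g m z - gl z)) →
    Tendsto (fun m => eLpNorm (w m) 2 volume) atTop (𝓝 0) →
    (∀ m, Integrable (h m)) → (∀ m, ∫ z, ‖h m z‖ ≤ M) →
    (∀ ψ, IsTestST Ω T ψ → ∀ i, Tendsto (fun m => ∫ z, h m z i * ψ z) atTop (𝓝 0)) →
    (∀ m, ∀ i j : Fin n, ∀ ψ, IsTestST Ω T ψ →
      ∫ z, ((g m z - gl z) (i, j) - (g m z - gl z) (j, i)) *
        (dt ψ z + μ * ∑ l, dx l (dx l ψ) z) =
      ∫ z, (-(h m z i * dx j ψ z) + h m z j * dx i ψ z - c * ∑ l,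
        (sy (t m z - tl z) (l, i) * dx l (dx j ψ) z - sy (t m z - tl z) (l, j) * dx l (dx i ψ) z))) →
    TV volume g gl gk ga → TV volume t tl tk ta → Integrable V → Integrable θ →
    Tendsto (fun k => ∫ z, |ga k z - ‖gk k z‖ ^ 2 - V z|) atTop (𝓝 0) →
    Tendsto (fun k => ∫ z, |ta k z - ‖tk k z‖ ^ 2 - θ z|) atTop (𝓝 0) →
    ∀ᵐ z : ST n, z.1 ∈ Ioo 0 T → z.2 ∈ Ω → V z ≤ A' * θ z

theorem inner_integrable' {f g : ST n → Mt n} (hf : MemLp f 2 volume) (hg : MemLp g 2 volume) :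
    Integrable (fun x => inner ℝ (f x) (g x)) volume := by
  have := L2.integrable_inner (𝕜 := ℝ) (hf.toLp f) (hg.toLp g)
  refine this.congr ?_
  filter_upwards [hf.coeFn_toLp, hg.coeFn_toLp] with x h1 h2
  rw [h1, h2]

theorem wc_diff_bound {u : ℕ → ST n → Mt n} {U : ST n → Mt n} (h : WC volume u U) :
    ∃ M : ℝ, ∀ m, eLpNorm (fun z => u m z - U z) 2 volume ≤ ENNReal.ofReal M := by
  obtain ⟨C, hC⟩ := h.bdd
  refine ⟨max C 0 + (eLpNorm U 2 volume).toReal, fun m => ?_⟩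
  rw [ENNReal.ofReal_add (le_max_right _ _) ENNReal.toReal_nonneg,
    ENNReal.ofReal_toReal h.memU.2.ne]
  exact (eLpNorm_sub_le (h.mem m).1 h.memU.1 (by norm_num)).trans
    (add_le_add ((hC m).trans (ENNReal.ofReal_le_ofReal (le_max_left _ _))) le_rfl)

/-- P6b: `ReprStar` from `repr`, `star` and `ae_le_of_tests` -/
theorem reprStar (n : ℕ) {μ : ℝ} (hμ : 0 < μ) (c : ℝ) : ReprStar n μ c := by
  have hKM : Pool.Agent.Helper37.Jef.KMain n μ := Pool.Agent.Helper79.Horm.kernel_main n hμ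
  have hKE : Pool.Agent.Helper37.Jef.KEll n μ := Pool.Agent.Helper79.Horm.kernel_ell n hμ
  have hKL : Pool.Agent.Helper37.Jef.KLow n μ := fun l hl T =>
    Pool.Agent.Helper50.JG.kernel_low n hμ l hl T
  obtain ⟨A, C, hrep⟩ := Pool.Agent.Helper37.Jef.repr_of n hμ hKM hKE hKL c
  obtain ⟨A', hA', hstar⟩ := Pool.Agent.Helper44.Jef.star_of_tv n (fun u U uk ak h => by
    obtain ⟨_, _, _, _, _, _, h5, _, h7⟩ := Pool.Agent.Helper22.Jef.tv_main h
    exact ⟨h5, h7⟩) A C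
  refine ⟨A', hA', ?_⟩
  intro Ω hΩ hΩb T hT w g gl h t tl gk tk ga ta V θ M hw hw0 hhi hhM hhw hvort hTg hTt hV hθ hVc hθc
  refine ae_le_of_tests hΩ hV hθ fun χ hχ => ?_
  obtain ⟨M1, hM1⟩ := wc_diff_bound hTg.w
  obtain ⟨M2, hM2⟩ := wc_diff_bound hTt.w
  have hσw : ∀ ψ, IsTestST Ω T ψ → ∀ p, Tendsto (fun m => ∫ z, (t m z - tl z) p * ψ z) atTop
      (𝓝 0) := by
    intro ψ hψ p
    have hψ2 : MemLp ψ 2 volume := hψ.smooth.continuous.memLp_of_hasCompactSupport hψ.cpt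
    have hg : MemLp (fun z => ψ z • (EuclideanSpace.single p (1:ℝ) : Mt n)) 2 volume := by
      refine hψ2.of_le_mul (c := ‖(EuclideanSpace.single p (1:ℝ) : Mt n)‖)
        (hψ2.1.smul aestronglyMeasurable_const) (Eventually.of_forall fun z => ?_)
      rw [norm_smul, mul_comm]
    have h1 := (hTt.w.conv _ hg).sub_const (∫ z, inner ℝ (tl z)
      (ψ z • (EuclideanSpace.single p (1:ℝ) : Mt n)))
    rw [sub_self] at h1
    refine h1.congr fun m => ?_
    rw [← integral_sub (inner_integrable' (hTt.w.mem m) hg)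
      (inner_integrable' hTt.w.memU hg)]
    refine integral_congr_ae (Eventually.of_forall fun z => ?_)
    simp only [inner_smul_right, EuclideanSpace.inner_single_right]
    simp
    ring
  obtain ⟨κ, hκ1, hκ2, hκ3, hκ4⟩ := hrep Ω hΩ hΩb T hT w (fun m z => g m z - gl z) h
    (fun m z => t m z - tl z) (max M (max M1 M2)) hw hw0
    (fun m => (hM1 m).trans (ENNReal.ofReal_le_ofReal
      ((le_max_left _ _).trans (le_max_right _ _)))) hhi
    (fun m => (hhM m).trans (le_max_left _ _))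
    (fun m => (hTt.w.mem m).sub hTt.w.memU)
    (fun m => (hM2 m).trans (ENNReal.ofReal_le_ofReal
      ((le_max_right _ _).trans (le_max_right _ _)))) hhw hσw hvort χ hχ
  exact hstar g gl gk ga t tl tk ta V θ hTg hTt hV hθ hVc hθc χ hχ.smooth.continuous hχ.cpt κ
    hκ1 hκ2 hκ3 hκ4

end Pool.Agent.Helper41.Jef
end

section
/-! # The spin part and the limit `m → ∞` -/

open MeasureTheory Set Filter Topology
open scoped ENNReal ContDiff

namespace Pool.Agent.Helper1.JefP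

open Pool.Agent.Helper42.Jef Pool.Agent.Helper22.Jef

variable {n : ℕ}

theorem inner_br_polar (A B W : Mt n) (hW : tr W = -W) :
    inner ℝ (br A W) B = - inner ℝ (br B W) A := by
  have h1 := inner_br (A + B) W hW
  rw [br_add_left, inner_add_left, inner_add_right, inner_add_right, inner_br A W hW,
    inner_br B W hW] at h1
  linarith

theorem ptII {v w s s1 s2 G0 : Mt n} {K : ℝ} (hK : 0 ≤ K) (hw : ‖w‖ ≤ K) (hv : ‖v‖ ≤ K)
    (hs : s = s1 + s2) (hsa : tr s = -s) (hG : tr G0 = -G0) :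
    2 * inner ℝ w (br v s) ≤ 8 * K ^ 2 * ‖s2‖ + 2 * (‖w‖ ^ 2 * ‖v - w‖ ^ 2) +
      2 * ‖s1 - G0‖ ^ 2 + 2 * inner ℝ (v - w) (-br w G0) := by
  have h0 : inner ℝ w (br v s) = inner ℝ w (br (v - w) s) := by
    rw [br_sub_left, inner_sub_right, real_inner_comm (br w s) w, inner_br w s hsa, sub_zero]
  have h1 : br (v - w) s = br (v - w) s2 + br (v - w) (s1 - G0) + br (v - w) G0 := by
    rw [hs, br_add_right, br_sub_right]; abel
  have h2 : inner ℝ w (br (v - w) G0) = inner ℝ (v - w) (-br w G0) := by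
    rw [real_inner_comm, inner_br_polar _ _ _ hG, real_inner_comm, inner_neg_right]
  have h3 : inner ℝ w (br (v - w) s2) ≤ 4 * K ^ 2 * ‖s2‖ := by
    refine (real_inner_le_norm _ _).trans ?_
    have h4 := norm_br_le (v - w) s2
    have h5 : ‖v - w‖ ≤ 2 * K := (norm_sub_le _ _).trans (by linarith)
    calc ‖w‖ * ‖br (v - w) s2‖ ≤ K * (2 * ((2 * K) * ‖s2‖)) := by
          refine mul_le_mul hw (h4.trans ?_) (norm_nonneg _) hK
          have := mul_le_mul_of_nonneg_right h5 (norm_nonneg s2)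
          linarith
      _ = _ := by ring
  have h6 : 2 * inner ℝ w (br (v - w) (s1 - G0)) ≤
      2 * (‖w‖ ^ 2 * ‖v - w‖ ^ 2) + 2 * ‖s1 - G0‖ ^ 2 := by
    have h7 := real_inner_le_norm w (br (v - w) (s1 - G0))
    have h8 := mul_le_mul_of_nonneg_left (norm_br_le (v - w) (s1 - G0)) (norm_nonneg w)
    nlinarith [sq_nonneg (‖w‖ * ‖v - w‖ - ‖s1 - G0‖)]
  rw [h0, h1, inner_add_right, inner_add_right, h2]
  linarith

theorem tr_sp' (A : Mt n) : tr (sp A) = - sp A := tr_sp A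

variable {α : Type*} [MeasurableSpace α] {μ : Measure α}

theorem br_mem {w G : α → Mt n} (hw : MemLp w 2 μ) (hG : MemLp G 2 μ) {K : ℝ}
    (hwk : ∀ᵐ x ∂μ, ‖w x‖ ≤ K) : MemLp (fun x => -br (w x) (sp (G x))) 2 μ := by
  have h1 : MemLp (fun x => sp (G x)) 2 μ := (spL n).comp_memLp' hG
  refine h1.of_le_mul (c := 2 * K) ?_ ?_
  · exact ((brL n).aestronglyMeasurable_comp₂ hw.1 h1.1).neg
  · filter_upwards [hwk] with x hx
    rw [norm_neg]
    refine (norm_br_le _ _).trans ?_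
    have := mul_le_mul_of_nonneg_right hx (norm_nonneg (sp (G x)))
    linarith

/-- the spin part -/
theorem intII {t w G S S1 S2 : α → Mt n} (ht : MemLp t 2 μ) (hw : MemLp w 2 μ)
    (hG : MemLp G 2 μ) {k : ℕ} (hwk : ∀ᵐ x ∂μ, ‖w x‖ ≤ (k : ℝ) + 1)
    (hSa : ∀ᵐ x ∂μ, tr (S x) = - S x) (hS : S =ᵐ[μ] fun x => S1 x + S2 x)
    (hS1 : MemLp S1 2 μ) (hS2 : Integrable S2 μ) {Y : ℝ} (hY : ∫ x, ‖S2 x‖ ∂μ ≤ Y)
    (hbr : MemLp (fun x => br (bk ((k : ℝ) + 1) (t x)) (S x)) 2 μ)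
    {ζ : α → ℝ} (hζm : Measurable ζ) {L : ℝ} (hζ : ∀ x, 0 ≤ ζ x ∧ ζ x ≤ L) (hL : 0 ≤ L) :
    ∫ x, ζ x * (2 * inner ℝ (w x) (br (bk ((k : ℝ) + 1) (t x)) (S x))) ∂μ ≤
      L * (8 * ((k : ℝ) + 1) ^ 2) * Y +
      2 * (∫ x, (ζ x * ‖w x‖ ^ 2) * ‖bk ((k : ℝ) + 1) (t x) - w x‖ ^ 2 ∂μ) +
      2 * (∫ x, ζ x * ‖S1 x - sp (G x)‖ ^ 2 ∂μ) +
      2 * ∫ x, inner ℝ (bk ((k : ℝ) + 1) (t x) - w x) (ζ x • (-br (w x) (sp (G x)))) ∂μ := by
  have hζa : AEStronglyMeasurable ζ μ := hζm.aestronglyMeasurable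
  have hζb : ∀ᵐ x ∂μ, |ζ x| ≤ L := Eventually.of_forall fun x => by
    rw [abs_of_nonneg (hζ x).1]; exact (hζ x).2
  have hk : (0 : ℝ) < (k : ℝ) + 1 := by positivity
  have hd : MemLp (fun x => bk ((k : ℝ) + 1) (t x) - w x) 2 μ := (bk_mem ht _).sub hw
  have hsG : MemLp (fun x => sp (G x)) 2 μ := (spL n).comp_memLp' hG
  have i0 : Integrable (fun x => ζ x * (2 * inner ℝ (w x)
      (br (bk ((k : ℝ) + 1) (t x)) (S x)))) μ := wint hζa hζb ((l2_inner hw hbr).const_mul 2)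
  have i1 : Integrable (fun x => L * (8 * ((k : ℝ) + 1) ^ 2) * ‖S2 x‖) μ := hS2.norm.const_mul _
  have hζw : ∀ᵐ x ∂μ, |ζ x * ‖w x‖ ^ 2| ≤ L * ((k : ℝ) + 1) ^ 2 := by
    filter_upwards [hζb, hwk] with x h1 h2
    rw [abs_mul, abs_of_nonneg (sq_nonneg ‖w x‖)]
    exact mul_le_mul h1 (pow_le_pow_left₀ (norm_nonneg _) h2 2) (sq_nonneg _) hL
  have i2 : Integrable (fun x => 2 * ((ζ x * ‖w x‖ ^ 2) *
      ‖bk ((k : ℝ) + 1) (t x) - w x‖ ^ 2)) μ :=
    (wint (hζa.mul (l2_sq hw).1) hζw (l2_sq hd)).const_mul 2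
  have i3 : Integrable (fun x => 2 * (ζ x * ‖S1 x - sp (G x)‖ ^ 2)) μ :=
    (wint hζa hζb (l2_sq (hS1.sub hsG))).const_mul 2
  have i4 : Integrable (fun x => 2 * inner ℝ (bk ((k : ℝ) + 1) (t x) - w x)
      (ζ x • (-br (w x) (sp (G x))))) μ :=
    (l2_inner hd (wsmul_mem hζa hζb (br_mem hw hG hwk))).const_mul 2
  have i12 : Integrable (fun x => L * (8 * ((k : ℝ) + 1) ^ 2) * ‖S2 x‖ +
      2 * ((ζ x * ‖w x‖ ^ 2) * ‖bk ((k : ℝ) + 1) (t x) - w x‖ ^ 2)) μ := i1.add i2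
  have i123 : Integrable (fun x => L * (8 * ((k : ℝ) + 1) ^ 2) * ‖S2 x‖ +
      2 * ((ζ x * ‖w x‖ ^ 2) * ‖bk ((k : ℝ) + 1) (t x) - w x‖ ^ 2) +
      2 * (ζ x * ‖S1 x - sp (G x)‖ ^ 2)) μ := i12.add i3
  have hmain := integral_mono_ae i0 (i123.add i4) (by
    filter_upwards [hwk, hSa, hS] with x h1 h2 h3
    simp only [Pi.add_apply]
    have h4 := ptII (v := bk ((k : ℝ) + 1) (t x)) (w := w x) (G0 := sp (G x)) hk.le h1
      (bk_norm_le_k hk (t x)) h3 h2 (tr_sp _)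
    rw [inner_smul_right]
    have h5 := mul_le_mul_of_nonneg_left h4 (hζ x).1
    have h6 : ζ x * (8 * ((k : ℝ) + 1) ^ 2 * ‖S2 x‖) ≤ L * (8 * ((k : ℝ) + 1) ^ 2 * ‖S2 x‖) :=
      mul_le_mul_of_nonneg_right (hζ x).2 (by positivity)
    nlinarith)
  simp only [Pi.add_apply] at hmain
  rw [integral_add i123 i4, integral_add i12 i3, integral_add i1 i2, integral_const_mul,
    integral_const_mul, integral_const_mul, integral_const_mul] at hmain
  have h7 := mul_le_mul_of_nonneg_left hY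
    (mul_nonneg hL (by positivity : (0 : ℝ) ≤ 8 * ((k : ℝ) + 1) ^ 2))
  linarith

end Pool.Agent.Helper1.JefP
end

section
/-! # The key inequality `lemmaP` -/

open MeasureTheory Set Filter Topology
open scoped ENNReal ContDiff

namespace Pool.Agent.Helper1.JefP

open Pool.Agent.Helper42.Jef Pool.Agent.Helper22.Jef

variable {n : ℕ}

/-- the inequality after `m → ∞`, at level `j` -/
theorem level_j {τs Gs : ℕ → ST n → Mt n} {τ G : ST n → Mt n} {tk gk : ℕ → ST n → Mt n}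
    {ta ga : ℕ → ST n → ℝ} (hτ : TV volume τs τ tk ta) (hG : TV volume Gs G gk ga)
    {a c M : ℝ} {A : ST n → ℝ} (hA : Integrable A)
    (hb : ∀ᵐ x, ∀ k, ‖tk k x‖ ^ 2 ≤ ta k x ∧ ta k x ≤ A x ∧ ‖tk k x‖ ≤ k + 1)
    (htai : ∀ k, Integrable (ta k))
    {S : ℕ → ST n → Mt n} (hSa : ∀ m, ∀ᵐ z, tr (S m z) = - S m z)
    (hSp : SpinProp S G gk ga M) {F D : ℕ → ST n → Mt n} {Q : ℕ → ST n → ℝ}
    (hF : ∀ k : ℕ, WC volume (fun m z => fderiv ℝ (bk ((k : ℝ) + 1)) (τs m z)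
      (c • sy (Gs m z) - a • τs m z)) (F k))
    (hD : ∀ k : ℕ, WC volume (fun m z => br (bk ((k : ℝ) + 1) (τs m z)) (S m z)) (D k))
    (hQ : ∀ k : ℕ, WC volume (fun m z => 2 * inner ℝ (bk ((k : ℝ) + 1) (τs m z))
      (fderiv ℝ (bk ((k : ℝ) + 1)) (τs m z) (c • sy (Gs m z) - a • τs m z))) (Q k))
    {K1 K2 : ℝ} (hK1 : ∀ m, ∫ x, ‖τs m x‖ ^ 2 ≤ K1) (hK2 : ∀ m, ∫ x, ‖Gs m x‖ ^ 2 ≤ K2)
    {B : Set (ST n)} (hB : MeasurableSet B) (hBf : volume B < ⊤) {k l j : ℕ} (hkj : k ≤ j)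
    (hlj : 2 * (l + 1) ≤ j + 1) {lam N : ℝ} (hlam : 0 < lam) (hN : 0 ≤ N)
    {ζ : ST n → ℝ} {L : ℝ} (hζm : Measurable ζ) (hζ : ∀ z, 0 ≤ ζ z ∧ ζ z ≤ L)
    (hζB : ∀ z, z ∉ B → ζ z = 0) :
    ∫ z, ζ z * (Q k z - 2 * inner ℝ (tk k z) (F k z - D k z)) ≤
      L * errB a c k l j lam N K1 K2 (∫ x, A x) (∫ x, max (A x - N) 0) +
      L * (16 / lam) * (∫ x, |A x - ta l x|) +
      (∫ x, ζ x * (ta k x - ‖tk k x‖ ^ 2)) +
      (2 * c ^ 2 * (∫ x, ζ x * (ga j x - 2 * inner ℝ (gk j x) (G x) + ‖G x‖ ^ 2)) +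
        2 * a ^ 2 * (∫ x, ζ x * (ta j x - 2 * inner ℝ (tk j x) (τ x) + ‖τ x‖ ^ 2))) +
      L * (8 * ((k : ℝ) + 1) ^ 2) * (M / ((j : ℝ) + 1)) +
      2 * (∫ x, (ζ x * ‖tk k x‖ ^ 2) * (ta k x - ‖tk k x‖ ^ 2)) +
      2 * (∫ x, ζ x * (ga j x - 2 * inner ℝ (gk j x) (G x) + ‖G x‖ ^ 2)) := by
  have hL : 0 ≤ L := (hζ 0).1.trans (hζ 0).2
  have hζa : AEStronglyMeasurable ζ volume := hζm.aestronglyMeasurable
  have hζb : ∀ᵐ x, |ζ x| ≤ L := Eventually.of_forall fun x => by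
    rw [abs_of_nonneg (hζ x).1]; exact (hζ x).2
  have hζ2 : MemLp ζ 2 volume := by
    have h1 : MemLp (B.indicator fun _ => L) 2 (volume : Measure (ST n)) :=
      memLp_indicator_const 2 hB L (Or.inr hBf.ne)
    refine h1.of_le hζa (Eventually.of_forall fun x => ?_)
    by_cases hx : x ∈ B
    · rw [indicator_of_mem hx, Real.norm_of_nonneg (hζ x).1, Real.norm_of_nonneg hL]
      exact (hζ x).2
    · rw [indicator_of_notMem hx, hζB x hx]
  have hwk : ∀ᵐ x, ‖tk k x‖ ≤ (k : ℝ) + 1 := by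
    filter_upwards [hb] with x hx
    exact (hx k).2.2
  have hwA : ∀ᵐ x, ‖tk k x‖ ^ 2 ≤ A x := by
    filter_upwards [hb] with x hx
    exact (hx k).1.trans (hx k).2.1
  have hw : MemLp (tk k) 2 volume := (hτ.wk k).memU
  have hζw : ∀ᵐ x, |ζ x * ‖tk k x‖ ^ 2| ≤ L * ((k : ℝ) + 1) ^ 2 := by
    filter_upwards [hζb, hwk] with x h1 h2
    rw [abs_mul, abs_of_nonneg (sq_nonneg ‖tk k x‖)]
    exact mul_le_mul h1 (pow_le_pow_left₀ (norm_nonneg _) h2 2) (sq_nonneg _) hL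
  have hζw2 : MemLp (fun x => ζ x * ‖tk k x‖ ^ 2) 2 volume := by
    refine hζ2.of_le_mul (c := ((k : ℝ) + 1) ^ 2) (hζa.mul (l2_sq hw).1) ?_
    filter_upwards [hwk] with x hx
    rw [norm_mul, Real.norm_of_nonneg (sq_nonneg ‖tk k x‖), mul_comm]
    exact mul_le_mul_of_nonneg_right (pow_le_pow_left₀ (norm_nonneg _) hx 2) (norm_nonneg _)
  obtain ⟨S1, S2, hS, hS1, -, hS2, hS2b, hSv⟩ := hSp j
  -- the left hand side
  have hζtk : MemLp (fun x => ζ x • tk k x) 2 volume := wsmul_mem hζa hζb hw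
  have key : ∀ {q : ST n → ℝ} {f d : ST n → Mt n}, MemLp q 2 volume → MemLp f 2 volume →
      MemLp d 2 volume →
      ∫ z, ζ z * (q z - 2 * inner ℝ (tk k z) (f z - d z)) =
        (∫ z, inner ℝ (q z) (ζ z)) - 2 * (∫ z, inner ℝ (f z) (ζ z • tk k z)) +
          2 * (∫ z, inner ℝ (d z) (ζ z • tk k z)) := by
    intro q f d hq hf hd
    have i1 : Integrable (fun z => inner ℝ (q z) (ζ z)) volume := l2_inner hq hζ2
    have i2 : Integrable (fun z => 2 * inner ℝ (f z) (ζ z • tk k z)) volume :=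
      (l2_inner hf hζtk).const_mul 2
    have i3 : Integrable (fun z => 2 * inner ℝ (d z) (ζ z • tk k z)) volume :=
      (l2_inner hd hζtk).const_mul 2
    have i12 : Integrable (fun z => inner ℝ (q z) (ζ z) -
      2 * inner ℝ (f z) (ζ z • tk k z)) volume := i1.sub i2
    rw [← integral_const_mul, ← integral_const_mul, ← integral_sub i1 i2, ← integral_add i12 i3]
    refine integral_congr_ae (Eventually.of_forall fun x => ?_)
    simp only [inner_smul_right, RCLike.inner_apply, conj_trivial, inner_sub_right]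
    rw [real_inner_comm (tk k x) (f x), real_inner_comm (tk k x) (d x)]
    ring
  have hlim : Tendsto (fun m => ∫ z, ζ z * (2 * inner ℝ (bk ((k : ℝ) + 1) (τs m z))
      (fderiv ℝ (bk ((k : ℝ) + 1)) (τs m z) (c • sy (Gs m z) - a • τs m z)) -
      2 * inner ℝ (tk k z) (fderiv ℝ (bk ((k : ℝ) + 1)) (τs m z)
        (c • sy (Gs m z) - a • τs m z) - br (bk ((k : ℝ) + 1) (τs m z)) (S m z)))) atTop
      (𝓝 (∫ z, ζ z * (Q k z - 2 * inner ℝ (tk k z) (F k z - D k z)))) := by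
    rw [key (hQ k).memU (hF k).memU (hD k).memU]
    have h1 := (hQ k).conv ζ hζ2
    have h2 := ((hF k).conv _ hζtk).const_mul 2
    have h3 := ((hD k).conv _ hζtk).const_mul 2
    refine ((h1.sub h2).add h3).congr (fun m => ?_)
    exact (key ((hQ k).mem m) ((hF k).mem m) ((hD k).mem m)).symm
  -- the right hand side
  have r1 : Tendsto (fun m => ∫ x in B, (‖bk ((j : ℝ) + 1) (τs m x)‖ ^ 2 -
      ‖bk ((l : ℝ) + 1) (τs m x)‖ ^ 2)) atTop (𝓝 (∫ x in B, (ta j x - ta l x))) :=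
    wc_set_real (wc_sub (hτ.wa j) (hτ.wa l)) hB hBf
  have r2 := var_lim (hτ.wk k) (hτ.wa k) (hτ.wk k).memU hζ2 hζb
  have r3 := var_lim (hG.wk j) (hG.wa j) hG.w.memU hζ2 hζb
  have r4 := var_lim (hτ.wk j) (hτ.wa j) hτ.w.memU hζ2 hζb
  have r5 : Tendsto (fun m => ∫ x, inner ℝ (bk ((k : ℝ) + 1) (τs m x) - tk k x)
      (ζ x • (c • syL n (G x) - a • τ x))) atTop (𝓝 0) := by
    refine zero_lim (hτ.wk k) (wsmul_mem hζa hζb ?_)
    exact ((((syL n).comp_memLp' hG.w.memU).const_smul c).sub (hτ.w.memU.const_smul a))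
  have r6 := var_lim (hτ.wk k) (hτ.wa k) (hτ.wk k).memU hζw2 hζw
  have r7 : Tendsto (fun m => ∫ x, inner ℝ (bk ((k : ℝ) + 1) (τs m x) - tk k x)
      (ζ x • (-br (tk k x) (sp (G x))))) atTop (𝓝 0) :=
    zero_lim (hτ.wk k) (wsmul_mem hζa hζb (br_mem hw hG.w.memU hwk))
  have e2 : ∫ x, ζ x * (ta k x - 2 * inner ℝ (tk k x) (tk k x) + ‖tk k x‖ ^ 2) =
      ∫ x, ζ x * (ta k x - ‖tk k x‖ ^ 2) := by
    refine integral_congr_ae (Eventually.of_forall fun x => ?_)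
    simp only [real_inner_self_eq_norm_sq]
    ring
  have e6 : ∫ x, (ζ x * ‖tk k x‖ ^ 2) *
      (ta k x - 2 * inner ℝ (tk k x) (tk k x) + ‖tk k x‖ ^ 2) =
      ∫ x, (ζ x * ‖tk k x‖ ^ 2) * (ta k x - ‖tk k x‖ ^ 2) := by
    refine integral_congr_ae (Eventually.of_forall fun x => ?_)
    simp only [real_inner_self_eq_norm_sq]
    ring
  rw [e2] at r2
  rw [e6] at r6
  set X := ∫ x, ζ x * (ga j x - 2 * inner ℝ (gk j x) (G x) + ‖G x‖ ^ 2) with hX
  refine le_of_forall_pos_le_add (fun ε hε => ?_)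
  have hr := ((((((r1.const_mul (L * (16 / lam))).const_add (L * errB a c k l j lam N K1 K2
    (∫ x, A x) (∫ x, max (A x - N) 0))).add r2).add
    ((r3.const_mul (2 * c ^ 2)).add (r4.const_mul (2 * a ^ 2)))).add (r5.const_mul 2)).add
    (((r6.const_mul 2).const_add (L * (8 * ((k : ℝ) + 1) ^ 2) * (M / ((j : ℝ) + 1)))).add
      (r7.const_mul 2))).add_const (2 * (X + ε / 2))
  have hle := le_of_tendsto_of_tendsto hlim hr (by
    filter_upwards [hSv ζ L hζm hζ hζ2 (ε / 2) (by linarith)] with m hm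
    have p1 := intI (syL n) (fun x => norm_sy_le x) a c (hτ.w.mem m) (hG.w.mem m) hτ.w.memU
      hG.w.memU hw hA hwA hwk hkj hlj hlam hN (hK1 m) (hK2 m) ((hF k).mem m) hB hζm hζ hζB hL
    have p2 := intII (hτ.w.mem m) hw hG.w.memU hwk (hSa m) (hS m) (hS1 m) (hS2 m) (hS2b m)
      ((hD k).mem m) hζm hζ hL
    have hd : MemLp (fun x => bk ((k : ℝ) + 1) (τs m x) - tk k x) 2 volume :=
      (bk_mem (hτ.w.mem m) _).sub hw
    have q1 : Integrable (fun x => ζ x * (2 * inner ℝ (bk ((k : ℝ) + 1) (τs m x) - tk k x)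
        (fderiv ℝ (bk ((k : ℝ) + 1)) (τs m x) (c • sy (Gs m x) - a • τs m x)))) volume :=
      wint hζa hζb ((l2_inner hd ((hF k).mem m)).const_mul 2)
    have q2 : Integrable (fun x => ζ x * (2 * inner ℝ (tk k x)
        (br (bk ((k : ℝ) + 1) (τs m x)) (S m x)))) volume :=
      wint hζa hζb ((l2_inner hw ((hD k).mem m)).const_mul 2)
    have q3 : ∫ z, ζ z * (2 * inner ℝ (bk ((k : ℝ) + 1) (τs m z))
      (fderiv ℝ (bk ((k : ℝ) + 1)) (τs m z) (c • sy (Gs m z) - a • τs m z)) -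
      2 * inner ℝ (tk k z) (fderiv ℝ (bk ((k : ℝ) + 1)) (τs m z)
        (c • sy (Gs m z) - a • τs m z) - br (bk ((k : ℝ) + 1) (τs m z)) (S m z))) =
      (∫ x, ζ x * (2 * inner ℝ (bk ((k : ℝ) + 1) (τs m x) - tk k x)
        (fderiv ℝ (bk ((k : ℝ) + 1)) (τs m x) (c • sy (Gs m x) - a • τs m x)))) +
      ∫ x, ζ x * (2 * inner ℝ (tk k x) (br (bk ((k : ℝ) + 1) (τs m x)) (S m x))) := by
      rw [← integral_add q1 q2]
      refine integral_congr_ae (Eventually.of_forall fun x => ?_)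
      simp only [inner_sub_right, inner_sub_left]
      ring
    rw [q3]
    simp only [syL_apply] at p1 ⊢
    linarith)
  have h1 : ∫ x in B, (ta j x - ta l x) ≤ ∫ x, |A x - ta l x| := by
    have i1 : Integrable (fun x => |A x - ta l x|) volume := (hA.sub (htai l)).abs
    calc ∫ x in B, (ta j x - ta l x) ≤ ∫ x in B, |A x - ta l x| := by
          refine integral_mono_ae ((htai j).sub (htai l)).integrableOn i1.integrableOn ?_
          refine ae_restrict_of_ae ?_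
          filter_upwards [hb] with x hx
          have h2 := (hx j).2.1
          have h3 := le_abs_self (A x - ta l x)
          linarith
      _ ≤ ∫ x, |A x - ta l x| :=
          setIntegral_le_integral i1 (Eventually.of_forall fun x => abs_nonneg _)
  have h2 := mul_le_mul_of_nonneg_left h1 (mul_nonneg hL (by positivity : 0 ≤ 16 / lam))
  linarith

theorem bdd_sq {α : Type*} [MeasurableSpace α] {μ : Measure α} {E : Type*}
    [NormedAddCommGroup E] [InnerProductSpace ℝ E] {u : ℕ → α → E} {U : α → E} (h : WC μ u U) :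
    ∃ K : ℝ, 0 ≤ K ∧ ∀ m, ∫ x, ‖u m x‖ ^ 2 ∂μ ≤ K := by
  obtain ⟨C, hC⟩ := h.bdd
  refine ⟨(max C 0) ^ 2, by positivity, fun m => ?_⟩
  exact int_sq_le (h.mem m) (le_max_right _ _)
    ((hC m).trans (ENNReal.ofReal_le_ofReal (le_max_left _ _)))

/-- N2b: the key inequality -/
theorem lemmaP {τs Gs : ℕ → ST n → Mt n} {τ G : ST n → Mt n} {tk gk : ℕ → ST n → Mt n}
    {ta ga : ℕ → ST n → ℝ} (hτ : TV volume τs τ tk ta) (hG : TV volume Gs G gk ga)
    {a c M C : ℝ} {θ V : ST n → ℝ} (hθi : Integrable θ) (hVi : Integrable V)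
    (hθ : Tendsto (fun k => ∫ z, |ta k z - ‖tk k z‖ ^ 2 - θ z|) atTop (𝓝 0))
    (hV : Tendsto (fun k => ∫ z, |ga k z - ‖gk k z‖ ^ 2 - V z|) atTop (𝓝 0))
    (hVθ : ∀ᵐ z, V z ≤ C * θ z)
    {S : ℕ → ST n → Mt n} (hS : ∀ m, MemLp (S m) 2 volume)
    (hSa : ∀ m, ∀ᵐ z, tr (S m z) = - S m z) (hSp : SpinProp S G gk ga M)
    {F D : ℕ → ST n → Mt n} {Q : ℕ → ST n → ℝ}
    (hF : ∀ k : ℕ, WC volume (fun m z => fderiv ℝ (bk ((k : ℝ) + 1)) (τs m z)
      (c • sy (Gs m z) - a • τs m z)) (F k))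
    (hD : ∀ k : ℕ, WC volume (fun m z => br (bk ((k : ℝ) + 1) (τs m z)) (S m z)) (D k))
    (hQ : ∀ k : ℕ, WC volume (fun m z => 2 * inner ℝ (bk ((k : ℝ) + 1) (τs m z))
      (fderiv ℝ (bk ((k : ℝ) + 1)) (τs m z) (c • sy (Gs m z) - a • τs m z))) (Q k)) :
    ∃ C' : ℝ, ∀ B : Set (ST n), MeasurableSet B → volume B < ⊤ →
      ∃ e : ℕ → ℝ, Tendsto e atTop (𝓝 0) ∧ ∀ (k : ℕ) (ζ : ST n → ℝ) (L : ℝ), Measurable ζ →
        (∀ z, 0 ≤ ζ z ∧ ζ z ≤ L) → (∀ z, z ∉ B → ζ z = 0) →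
        ∫ z, ζ z * (Q k z - 2 * inner ℝ (tk k z) (F k z - D k z)) ≤
          C' * (∫ z, ζ z * ((1 + ‖tk k z‖) ^ 2 * (ta k z - ‖tk k z‖ ^ 2) + θ z)) + L * e k := by
  obtain ⟨K1, hK10, hK1⟩ := bdd_sq hτ.w
  obtain ⟨K2, hK20, hK2⟩ := bdd_sq hG.w
  obtain ⟨A, hA, hb, hθ0, htai, hL1, hlimτ⟩ := tv_pack hτ hθi hθ
  obtain ⟨A', hA', hb', hV0, hgai, hL1', hlimG⟩ := tv_pack hG hVi hV
  have hAi : 0 ≤ ∫ x, A x := integral_nonneg_of_ae (by
    filter_upwards [hb] with x hx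
    exact (sq_nonneg _).trans ((hx 0).1.trans (hx 0).2.1))
  refine ⟨2 + (2 * c ^ 2 + 2) * |C| + 2 * a ^ 2, fun B hB hBf => ?_⟩
  -- the inequality with explicit error
  have hmain : ∀ (k l : ℕ) (lam N : ℝ), 0 < lam → 0 ≤ N → ∀ (ζ : ST n → ℝ) (L : ℝ),
      Measurable ζ → (∀ z, 0 ≤ ζ z ∧ ζ z ≤ L) → (∀ z, z ∉ B → ζ z = 0) →
        ∫ z, ζ z * (Q k z - 2 * inner ℝ (tk k z) (F k z - D k z)) ≤
          (2 + (2 * c ^ 2 + 2) * |C| + 2 * a ^ 2) *
            (∫ z, ζ z * ((1 + ‖tk k z‖) ^ 2 * (ta k z - ‖tk k z‖ ^ 2) + θ z)) +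
          L * (4 * ((l : ℝ) + 1) / ((k : ℝ) + 1) *
            ((2 * K1 + 2 * ∫ x, A x) + (2 * c ^ 2 * K2 + 2 * a ^ 2 * K1)) +
            lam * (2 * c ^ 2 * K2 + 2 * a ^ 2 * K1) +
            8 / lam * ((∫ x, max (A x - N) 0) + N * (K1 / (2 * ((l : ℝ) + 1)) ^ 2)) +
            16 / lam * (∫ x, |A x - ta l x|)) := by
    intro k l lam N hlam hN ζ L hζm hζ hζB
    have hL : 0 ≤ L := (hζ 0).1.trans (hζ 0).2
    have hζa : AEStronglyMeasurable ζ volume := hζm.aestronglyMeasurable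
    have hζb : ∀ᵐ x, |ζ x| ≤ L := Eventually.of_forall fun x => by
      rw [abs_of_nonneg (hζ x).1]; exact (hζ x).2
    have hl1 := hlimτ ζ L hζa hζb
    have hl2 := hlimG ζ L hζa hζb
    have hz : Tendsto (fun j : ℕ => (1 : ℝ) / ((j : ℝ) + 1)) atTop (𝓝 0) :=
      tendsto_one_div_add_atTop_nhds_zero_nat
    -- the limit `j → ∞`
    have hlim : Tendsto (fun j : ℕ =>
        L * errB a c k l j lam N K1 K2 (∫ x, A x) (∫ x, max (A x - N) 0) +
        L * (16 / lam) * (∫ x, |A x - ta l x|) +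
        (∫ x, ζ x * (ta k x - ‖tk k x‖ ^ 2)) +
        (2 * c ^ 2 * (∫ x, ζ x * (ga j x - 2 * inner ℝ (gk j x) (G x) + ‖G x‖ ^ 2)) +
          2 * a ^ 2 * (∫ x, ζ x * (ta j x - 2 * inner ℝ (tk j x) (τ x) + ‖τ x‖ ^ 2))) +
        L * (8 * ((k : ℝ) + 1) ^ 2) * (M / ((j : ℝ) + 1)) +
        2 * (∫ x, (ζ x * ‖tk k x‖ ^ 2) * (ta k x - ‖tk k x‖ ^ 2)) +
        2 * (∫ x, ζ x * (ga j x - 2 * inner ℝ (gk j x) (G x) + ‖G x‖ ^ 2))) atTop
        (𝓝 (L * (4 * ((l : ℝ) + 1) / ((k : ℝ) + 1) *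
            ((2 * K1 + 2 * ∫ x, A x) + (2 * c ^ 2 * K2 + 2 * a ^ 2 * K1)) +
            lam * (2 * c ^ 2 * K2 + 2 * a ^ 2 * K1) +
            8 / lam * ((∫ x, max (A x - N) 0) + N * (K1 / (2 * ((l : ℝ) + 1)) ^ 2))) +
        L * (16 / lam) * (∫ x, |A x - ta l x|) +
        (∫ x, ζ x * (ta k x - ‖tk k x‖ ^ 2)) +
        (2 * c ^ 2 * (∫ x, ζ x * V x) + 2 * a ^ 2 * (∫ x, ζ x * θ x)) + 0 +
        2 * (∫ x, (ζ x * ‖tk k x‖ ^ 2) * (ta k x - ‖tk k x‖ ^ 2)) +
        2 * (∫ x, ζ x * V x))) := by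
      refine (((((Tendsto.add (Tendsto.add ?_ tendsto_const_nhds) tendsto_const_nhds).add
        ((hl2.const_mul _).add (hl1.const_mul _))).add ?_).add tendsto_const_nhds).add
        (hl2.const_mul 2))
      · refine Tendsto.const_mul L ?_
        unfold errB
        have h1 := (hz.const_mul (4 * ((k : ℝ) + 1) * (|c| * K2 + |a| * K1)))
        rw [mul_zero] at h1
        have h2 := ((h1.add_const (4 * ((l : ℝ) + 1) / ((k : ℝ) + 1) *
            ((2 * K1 + 2 * ∫ x, A x) + (2 * c ^ 2 * K2 + 2 * a ^ 2 * K1)))).add_const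
            (lam * (2 * c ^ 2 * K2 + 2 * a ^ 2 * K1))).add_const
            (8 / lam * ((∫ x, max (A x - N) 0) + N * (K1 / (2 * ((l : ℝ) + 1)) ^ 2)))
        rw [zero_add] at h2
        refine h2.congr (fun j => ?_)
        ring
      · have h1 := hz.const_mul (L * (8 * ((k : ℝ) + 1) ^ 2) * M)
        rw [mul_zero] at h1
        refine h1.congr (fun j => ?_)
        ring
    have hle := ge_of_tendsto hlim (by
      filter_upwards [eventually_ge_atTop k, eventually_ge_atTop (2 * (l + 1))] with j hj1 hj2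
      exact level_j hτ hG hA hb htai hSa hSp hF hD hQ hK1 hK2 hB hBf hj1 (by omega) hlam hN
        hζm hζ hζB)
    -- collecting the terms
    have hwk : ∀ᵐ x, ‖tk k x‖ ≤ (k : ℝ) + 1 := by
      filter_upwards [hb] with x hx
      exact (hx k).2.2
    have hw : MemLp (tk k) 2 volume := (hτ.wk k).memU
    have hζw : ∀ᵐ x, |ζ x * ‖tk k x‖ ^ 2| ≤ L * ((k : ℝ) + 1) ^ 2 := by
      filter_upwards [hζb, hwk] with x h1 h2
      rw [abs_mul, abs_of_nonneg (sq_nonneg ‖tk k x‖)]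
      exact mul_le_mul h1 (pow_le_pow_left₀ (norm_nonneg _) h2 2) (sq_nonneg _) hL
    have iθk : Integrable (fun x => ta k x - ‖tk k x‖ ^ 2) volume := (htai k).sub (l2_sq hw)
    have i1 : Integrable (fun x => ζ x * (ta k x - ‖tk k x‖ ^ 2)) volume := wint hζa hζb iθk
    have i2 : Integrable (fun x => (ζ x * ‖tk k x‖ ^ 2) * (ta k x - ‖tk k x‖ ^ 2)) volume :=
      wint (hζa.mul (l2_sq hw).1) hζw iθk
    have i3 : Integrable (fun x => ζ x * θ x) volume := wint hζa hζb hθi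
    have i4 : Integrable (fun x => ζ x * V x) volume := wint hζa hζb hVi
    have hζw3 : ∀ᵐ x, |ζ x * (1 + ‖tk k x‖) ^ 2| ≤ L * ((k : ℝ) + 2) ^ 2 := by
      filter_upwards [hζb, hwk] with x h1 h2
      rw [abs_mul, abs_of_nonneg (sq_nonneg (1 + ‖tk k x‖))]
      refine mul_le_mul h1 (pow_le_pow_left₀ (by positivity) ?_ 2) (sq_nonneg _) hL
      linarith
    have i5 : Integrable (fun x => (ζ x * (1 + ‖tk k x‖) ^ 2) * (ta k x - ‖tk k x‖ ^ 2))
        volume :=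
      wint (hζa.mul ((aestronglyMeasurable_const.add hw.1.norm).pow 2)) hζw3 iθk
    have i6 : Integrable (fun x => ζ x * ((1 + ‖tk k x‖) ^ 2 * (ta k x - ‖tk k x‖ ^ 2) + θ x))
        volume := by
      refine (i5.add i3).congr (Eventually.of_forall fun x => ?_)
      simp only [Pi.add_apply]
      ring
    have hcol : (∫ x, ζ x * (ta k x - ‖tk k x‖ ^ 2)) +
        (2 * c ^ 2 * (∫ x, ζ x * V x) + 2 * a ^ 2 * (∫ x, ζ x * θ x)) +
        2 * (∫ x, (ζ x * ‖tk k x‖ ^ 2) * (ta k x - ‖tk k x‖ ^ 2)) +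
        2 * (∫ x, ζ x * V x) ≤ (2 + (2 * c ^ 2 + 2) * |C| + 2 * a ^ 2) *
            (∫ z, ζ z * ((1 + ‖tk k z‖) ^ 2 * (ta k z - ‖tk k z‖ ^ 2) + θ z)) := by
      have j1 : Integrable (fun x => 2 * c ^ 2 * (ζ x * V x) + 2 * a ^ 2 * (ζ x * θ x))
        volume := (i4.const_mul _).add (i3.const_mul _)
      have j2 : Integrable (fun x => ζ x * (ta k x - ‖tk k x‖ ^ 2) +
        (2 * c ^ 2 * (ζ x * V x) + 2 * a ^ 2 * (ζ x * θ x))) volume := i1.add j1
      have j3 : Integrable (fun x => ζ x * (ta k x - ‖tk k x‖ ^ 2) +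
        (2 * c ^ 2 * (ζ x * V x) + 2 * a ^ 2 * (ζ x * θ x)) +
        2 * ((ζ x * ‖tk k x‖ ^ 2) * (ta k x - ‖tk k x‖ ^ 2))) volume :=
        j2.add (i2.const_mul 2)
      rw [← integral_const_mul, ← integral_const_mul, ← integral_const_mul,
        ← integral_const_mul, ← integral_const_mul, ← integral_add (i4.const_mul _)
        (i3.const_mul _), ← integral_add i1 j1, ← integral_add j2 (i2.const_mul 2),
        ← integral_add j3 (i4.const_mul 2)]
      refine integral_mono_ae (j3.add (i4.const_mul 2)) (i6.const_mul _) ?_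
      filter_upwards [hb, hθ0, hV0, hVθ] with x hx h1 h2 h3
      have hζ0 := (hζ x).1
      have h4 : 0 ≤ ta k x - ‖tk k x‖ ^ 2 := by linarith [(hx k).1]
      have h5 : V x ≤ |C| * θ x := h3.trans (mul_le_mul_of_nonneg_right (le_abs_self C) h1)
      have h6 : 0 ≤ ‖tk k x‖ := norm_nonneg _
      have hc2 : 0 ≤ 2 * c ^ 2 + 2 := by positivity
      have h7 : (2 * c ^ 2 + 2) * V x ≤ (2 * c ^ 2 + 2) * |C| * θ x := by
        have := mul_le_mul_of_nonneg_left h5 hc2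
        linarith
      set q := ta k x - ‖tk k x‖ ^ 2 with hq
      set w := ‖tk k x‖ with hw
      have h8 : q + 2 * (w ^ 2 * q) + (2 * c ^ 2 + 2) * V x + 2 * a ^ 2 * θ x ≤
          (2 + (2 * c ^ 2 + 2) * |C| + 2 * a ^ 2) * ((1 + w) ^ 2 * q + θ x) := by
        have h9 : q + 2 * (w ^ 2 * q) ≤ 2 * ((1 + w) ^ 2 * q) := by nlinarith
        have h10 : 0 ≤ (1 + w) ^ 2 * q := by positivity
        have h11 : 0 ≤ (2 * c ^ 2 + 2) * |C| * ((1 + w) ^ 2 * q) := by positivity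
        have h12 : 0 ≤ a ^ 2 * ((1 + w) ^ 2 * q) := by positivity
        nlinarith
      have h9 := mul_le_mul_of_nonneg_left h8 hζ0
      calc _ = ζ x * (q + 2 * (w ^ 2 * q) + (2 * c ^ 2 + 2) * V x + 2 * a ^ 2 * θ x) := by ring
        _ ≤ _ := h9
        _ = _ := by ring
    linarith
  obtain ⟨KK, hKK⟩ : ∃ KK : ℝ, KK = 2 * c ^ 2 * K2 + 2 * a ^ 2 * K1 := ⟨_, rfl⟩
  have hKK0 : 0 ≤ KK := by rw [hKK]; positivity
  obtain ⟨KA, hKA⟩ : ∃ KA : ℝ, KA = (2 * K1 + 2 * ∫ x, A x) + KK := ⟨_, rfl⟩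
  have hKA0 : 0 ≤ KA := by rw [hKA]; positivity
  -- for every `lam` there is `l` with error at most `4 (l+1)/(k+1) KA + lam (KK + 24)`
  have hlam : ∀ lam : ℝ, 0 < lam → ∃ l : ℕ, ∀ (k : ℕ) (ζ : ST n → ℝ) (L : ℝ),
      Measurable ζ → (∀ z, 0 ≤ ζ z ∧ ζ z ≤ L) → (∀ z, z ∉ B → ζ z = 0) →
        ∫ z, ζ z * (Q k z - 2 * inner ℝ (tk k z) (F k z - D k z)) ≤
          (2 + (2 * c ^ 2 + 2) * |C| + 2 * a ^ 2) *
            (∫ z, ζ z * ((1 + ‖tk k z‖) ^ 2 * (ta k z - ‖tk k z‖ ^ 2) + θ z)) +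
          L * (4 * ((l : ℝ) + 1) / ((k : ℝ) + 1) * KA + lam * (KK + 32)) := by
    intro lam hlam
    obtain ⟨N, hN⟩ := ((trunc_tail hA).eventually_lt_const
      (by positivity : (0 : ℝ) < lam ^ 2)).exists
    have hl1 : ∀ᶠ l : ℕ in atTop, (N : ℝ) * (K1 / (2 * ((l : ℝ) + 1)) ^ 2) < lam ^ 2 := by
      have h1 : Tendsto (fun l : ℕ => ((N : ℝ) * K1 / 4) * ((1 / ((l : ℝ) + 1)) *
          (1 / ((l : ℝ) + 1)))) atTop (𝓝 (((N : ℝ) * K1 / 4) * (0 * 0))) :=
        ((tendsto_one_div_add_atTop_nhds_zero_nat (𝕜 := ℝ)).mul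
          (tendsto_one_div_add_atTop_nhds_zero_nat (𝕜 := ℝ))).const_mul _
      rw [mul_zero, mul_zero] at h1
      filter_upwards [h1.eventually_lt_const (by positivity : (0 : ℝ) < lam ^ 2)] with l hl
      refine lt_of_eq_of_lt ?_ hl
      field_simp
      ring
    have hl2 : ∀ᶠ l : ℕ in atTop, ∫ x, |A x - ta l x| < lam ^ 2 / 2 + lam ^ 2 / 2 :=
      hL1.eventually_lt_const (by positivity)
    obtain ⟨l, h1, h2⟩ := (hl1.and hl2).exists
    refine ⟨l, fun k ζ L hζm hζ hζB => ?_⟩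
    have hL : 0 ≤ L := (hζ 0).1.trans (hζ 0).2
    refine (hmain k l lam N hlam (Nat.cast_nonneg N) ζ L hζm hζ hζB).trans ?_
    rw [← hKK, ← hKA]
    have h3 : 8 / lam * ((∫ x, max (A x - N) 0) + N * (K1 / (2 * ((l : ℝ) + 1)) ^ 2)) ≤
        16 * lam := by
      have h4 : (∫ x, max (A x - N) 0) + N * (K1 / (2 * ((l : ℝ) + 1)) ^ 2) ≤ 2 * lam ^ 2 := by
        linarith
      have h5 := mul_le_mul_of_nonneg_left h4 (by positivity : 0 ≤ 8 / lam)
      refine h5.trans (le_of_eq ?_)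
      field_simp
      ring
    have h4 : 16 / lam * (∫ x, |A x - ta l x|) ≤ 16 * lam := by
      have h4 : (∫ x, |A x - ta l x|) ≤ lam ^ 2 := by linarith
      have h5 := mul_le_mul_of_nonneg_left h4 (by positivity : 0 ≤ 16 / lam)
      refine h5.trans (le_of_eq ?_)
      field_simp
    have h5 : 4 * ((l : ℝ) + 1) / ((k : ℝ) + 1) * KA + lam * KK +
        8 / lam * ((∫ x, max (A x - N) 0) + N * (K1 / (2 * ((l : ℝ) + 1)) ^ 2)) +
        16 / lam * (∫ x, |A x - ta l x|) ≤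
        4 * ((l : ℝ) + 1) / ((k : ℝ) + 1) * KA + lam * (KK + 32) := by linarith
    have h6 := mul_le_mul_of_nonneg_left h5 hL
    linarith
  -- conclusion
  obtain ⟨e, he0, he⟩ := exists_e (fun k ε => ∀ (ζ : ST n → ℝ) (L : ℝ), Measurable ζ →
        (∀ z, 0 ≤ ζ z ∧ ζ z ≤ L) → (∀ z, z ∉ B → ζ z = 0) →
        ∫ z, ζ z * (Q k z - 2 * inner ℝ (tk k z) (F k z - D k z)) ≤
          (2 + (2 * c ^ 2 + 2) * |C| + 2 * a ^ 2) *
            (∫ z, ζ z * ((1 + ‖tk k z‖) ^ 2 * (ta k z - ‖tk k z‖ ^ 2) + θ z)) + L * ε)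
    (by
      intro k ε ε' hε h ζ L h1 h2 h3
      have hL : 0 ≤ L := (h2 0).1.trans (h2 0).2
      have := mul_le_mul_of_nonneg_left hε hL
      linarith [h ζ L h1 h2 h3])
    (by
      intro k
      obtain ⟨l, hl⟩ := hlam 1 one_pos
      exact ⟨_, hl k⟩)
    (by
      intro ε hε
      obtain ⟨l, hl⟩ := hlam (ε / (2 * (KK + 32))) (by positivity)
      have h1 : Tendsto (fun k : ℕ => (4 * ((l : ℝ) + 1) * KA) * (1 / ((k : ℝ) + 1))) atTop
          (𝓝 ((4 * ((l : ℝ) + 1) * KA) * 0)) :=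
        (tendsto_one_div_add_atTop_nhds_zero_nat (𝕜 := ℝ)).const_mul _
      rw [mul_zero] at h1
      filter_upwards [h1.eventually_lt_const (by linarith : (0 : ℝ) < ε / 2)] with k hk
      intro ζ L h1 h2 h3
      have hL : 0 ≤ L := (h2 0).1.trans (h2 0).2
      refine (hl k ζ L h1 h2 h3).trans ?_
      have h4 : 4 * ((l : ℝ) + 1) / ((k : ℝ) + 1) * KA + ε / (2 * (KK + 32)) * (KK + 32) ≤ ε := by
        have h5 : ε / (2 * (KK + 32)) * (KK + 32) = ε / 2 := by field_simp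
        have h6 : 4 * ((l : ℝ) + 1) / ((k : ℝ) + 1) * KA =
          (4 * ((l : ℝ) + 1) * KA) * (1 / ((k : ℝ) + 1)) := by ring
        rw [h5, h6]
        linarith
      have h7 := mul_le_mul_of_nonneg_left h4 hL
      linarith)
  exact ⟨e, he0, fun k ζ L h1 h2 h3 => he k ζ L h1 h2 h3⟩

end Pool.Agent.Helper1.JefP
end

section
/-! # Test functions, combination of transport equations -/

open MeasureTheory Set Filter Topology
open scoped ENNReal NNReal ContDiff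

namespace Pool.Agent.Helper50.JT

open Pool.Agent.Helper42.Jef Pool.Agent.Helper22.Jef

variable {n : ℕ}

/-! ### the time weight -/

theorem expGlue_deriv_pos {x : ℝ} (hx : 0 < x) : 0 < deriv expNegInvGlue x := by
  have h1 : HasDerivAt (fun y : ℝ => Real.exp (-y⁻¹)) (Real.exp (-x⁻¹) * (-(-(x ^ 2)⁻¹))) x :=
    ((hasDerivAt_inv hx.ne').neg).exp
  have h2 : expNegInvGlue =ᶠ[𝓝 x] fun y : ℝ => Real.exp (-y⁻¹) := by
    filter_upwards [Ioi_mem_nhds hx] with y hy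
    have hy' : ¬ y ≤ 0 := not_le.2 hy
    simp [expNegInvGlue, hy']
  rw [h2.deriv_eq, h1.deriv, neg_neg]
  positivity

theorem expGlue_le_one (x : ℝ) : expNegInvGlue x ≤ 1 := by
  rcases le_or_gt x 0 with h | h
  · rw [expNegInvGlue.zero_of_nonpos h]; norm_num
  · have hy' : ¬ x ≤ 0 := not_le.2 h
    simp only [expNegInvGlue, hy', if_false]
    refine Real.exp_le_one_iff.2 ?_
    have : 0 < x⁻¹ := by positivity
    linarith

/-- the time weight -/
noncomputable def et (T1 t : ℝ) : ℝ := Real.smoothTransition (2 * t + 1) * expNegInvGlue (T1 - t)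

theorem et_contDiff (T1 : ℝ) : ContDiff ℝ ∞ (et T1) := by
  unfold et
  refine ContDiff.mul ?_ ?_
  · exact Real.smoothTransition.contDiff.comp (by fun_prop)
  · exact expNegInvGlue.contDiff.comp (by fun_prop)

theorem et_nonneg (T1 t : ℝ) : 0 ≤ et T1 t :=
  mul_nonneg (Real.smoothTransition.nonneg _) (expNegInvGlue.nonneg _)

theorem et_le_one (T1 t : ℝ) : et T1 t ≤ 1 :=
  mul_le_one₀ (Real.smoothTransition.le_one _) (expNegInvGlue.nonneg _) (expGlue_le_one _)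

theorem et_supp (T1 : ℝ) : tsupport (et T1) ⊆ Icc (-1 / 2) T1 := by
  refine closure_minimal ?_ isClosed_Icc
  intro t ht
  rw [Function.mem_support] at ht
  unfold et at ht
  constructor
  · by_contra hc
    push Not at hc
    exact ht (by rw [Real.smoothTransition.zero_of_nonpos (by linarith), zero_mul])
  · by_contra hc
    push Not at hc
    exact ht (by rw [expNegInvGlue.zero_of_nonpos (by linarith), mul_zero])

theorem et_time {T T1 : ℝ} (h : T1 < T) : IsTime (-1) T (et T1) where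
  smooth := et_contDiff T1
  cpt := HasCompactSupport.of_support_subset_isCompact (isCompact_Icc (a := (-1 / 2 : ℝ)) (b := T1))
    ((subset_tsupport _).trans (et_supp T1))
  supp := (et_supp T1).trans fun t ht => ⟨by linarith [ht.1], lt_of_le_of_lt ht.2 h⟩

theorem et_deriv {T1 t : ℝ} (ht : 0 < t) : deriv (et T1) t = - deriv expNegInvGlue (T1 - t) := by
  have h1 : et T1 =ᶠ[𝓝 t] fun s => expNegInvGlue (T1 - s) := by
    filter_upwards [Ioi_mem_nhds ht] with s hs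
    have hs' : (0 : ℝ) < s := hs
    unfold et
    rw [Real.smoothTransition.one_of_one_le (by linarith), one_mul]
  rw [h1.deriv_eq, deriv_comp_const_sub]

theorem et_deriv_nonpos {T1 t : ℝ} (ht : 0 < t) : deriv (et T1) t ≤ 0 := by
  rw [et_deriv ht]
  have := expNegInvGlue.monotone.deriv_nonneg (x := T1 - t)
  linarith

theorem et_deriv_neg {T1 t : ℝ} (ht : 0 < t) (ht1 : t < T1) : deriv (et T1) t < 0 := by
  rw [et_deriv ht]
  have := expGlue_deriv_pos (x := T1 - t) (by linarith)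
  linarith

/-! ### `L²` facts for test functions -/

theorem isTime_deriv_memLp {a b : ℝ} {η : ℝ → ℝ} (hη : IsTime a b η) (p : ℝ≥0∞) :
    MemLp (deriv η) p volume :=
  (hη.smooth.continuous_deriv (by simp)).memLp_of_hasCompactSupport hη.cpt.deriv

theorem isTime_memLp {a b : ℝ} {η : ℝ → ℝ} (hη : IsTime a b η) (p : ℝ≥0∞) :
    MemLp η p volume :=
  hη.smooth.continuous.memLp_of_hasCompactSupport hη.cpt

theorem isTest_memLp {ψ : Eu n → ℝ} (hψ : IsTest ψ) (p : ℝ≥0∞) : MemLp ψ p volume :=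
  hψ.smooth.continuous.memLp_of_hasCompactSupport hψ.cpt

/-- bounds for time test functions -/
theorem isTime_bound {a b : ℝ} {η : ℝ → ℝ} (hη : IsTime a b η) : ∃ C : ℝ, ∀ t, ‖η t‖ ≤ C :=
  hη.cpt.exists_bound_of_continuous hη.smooth.continuous

theorem te_coef_memLp {v : ST n → Eu n} (hv : MemLp v 2 volume) {a b : ℝ} {η : ℝ → ℝ}
    {ψ : Eu n → ℝ} (hη : IsTime a b η) (hψ : IsTest ψ) :
    MemLp (fun z : ST n => deriv η z.1 * ψ z.2 + η z.1 * fderiv ℝ ψ z.2 (v z)) 2 volume := by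
  refine MemLp.add ?_ ?_
  · exact memLp_prod_smul (isTime_deriv_memLp hη 2) (isTest_memLp hψ 2)
  · obtain ⟨C, hC⟩ := isTime_bound hη
    obtain ⟨D, hD⟩ := (hψ.cpt.fderiv (𝕜 := ℝ)).exists_bound_of_continuous
      (hψ.smooth.continuous_fderiv (by simp))
    have hm : AEStronglyMeasurable (fun z : ST n => η z.1 * fderiv ℝ ψ z.2 (v z)) volume := by
      refine AEStronglyMeasurable.mul ?_ ?_
      · exact (hη.smooth.continuous.comp continuous_fst).aestronglyMeasurable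
      · have h1 : AEStronglyMeasurable (fun z : ST n => fderiv ℝ ψ z.2) volume :=
          ((hψ.smooth.continuous_fderiv (by simp)).comp continuous_snd).aestronglyMeasurable
        exact isBoundedBilinearMap_apply.continuous.comp_aestronglyMeasurable (h1.prodMk hv.1)
    refine (hv.const_smul (C * D)).mono hm (Eventually.of_forall fun z => ?_)
    rw [norm_mul, Pi.smul_apply, norm_smul]
    have h2 : ‖fderiv ℝ ψ z.2 (v z)‖ ≤ D * ‖v z‖ :=
      ((fderiv ℝ ψ z.2).le_opNorm _).trans (mul_le_mul_of_nonneg_right (hD _) (norm_nonneg _))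
    have hC0 : 0 ≤ C := (norm_nonneg _).trans (hC 0)
    calc ‖η z.1‖ * ‖fderiv ℝ ψ z.2 (v z)‖ ≤ C * (D * ‖v z‖) :=
          mul_le_mul (hC _) h2 (norm_nonneg _) hC0
      _ = (C * D) * ‖v z‖ := by ring
      _ ≤ ‖C * D‖ * ‖v z‖ := mul_le_mul_of_nonneg_right (le_abs_self _) (norm_nonneg _)

theorem te_int {E : Type*} [NormedAddCommGroup E] [NormedSpace ℝ E] {v : ST n → Eu n}
    (hv : MemLp v 2 volume) {u F : ST n → E} (hu : MemLp u 2 volume) (hF : MemLp F 2 volume)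
    {a b : ℝ} {η : ℝ → ℝ} {ψ : Eu n → ℝ} (hη : IsTime a b η) (hψ : IsTest ψ) :
    Integrable (fun z : ST n => (deriv η z.1 * ψ z.2 + η z.1 * fderiv ℝ ψ z.2 (v z)) • u z +
      (η z.1 * ψ z.2) • F z) := by
  have h1 : Integrable (fun z : ST n =>
      (deriv η z.1 * ψ z.2 + η z.1 * fderiv ℝ ψ z.2 (v z)) • u z) := by
    rw [← memLp_one_iff_integrable]
    exact hu.smul (te_coef_memLp hv hη hψ)
  have h2 : Integrable (fun z : ST n => (η z.1 * ψ z.2) • F z) := by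
    rw [← memLp_one_iff_integrable]
    exact hF.smul (memLp_prod_smul (isTime_memLp hη 2) (isTest_memLp hψ 2))
  exact h1.add h2

theorem memLp_pair {α : Type*} [MeasurableSpace α] {μ : Measure α} {E E' : Type*}
    [NormedAddCommGroup E] [NormedAddCommGroup E'] {u : α → E} {u' : α → E'}
    (hu : MemLp u 2 μ) (hu' : MemLp u' 2 μ) : MemLp (fun z => (u z, u' z)) 2 μ := by
  have h1 : MemLp (fun z => ‖u z‖ + ‖u' z‖) 2 μ := hu.norm.add hu'.norm
  refine h1.mono (hu.1.prodMk hu'.1) (Eventually.of_forall fun z => ?_)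
  rw [Prod.norm_mk, Real.norm_of_nonneg (by positivity)]
  exact max_le (le_add_of_nonneg_right (norm_nonneg _)) (le_add_of_nonneg_left (norm_nonneg _))

theorem TE_pair {E E' : Type*} [NormedAddCommGroup E] [NormedSpace ℝ E] [CompleteSpace E]
    [NormedAddCommGroup E'] [NormedSpace ℝ E'] [CompleteSpace E'] {T : ℝ} {v : ST n → Eu n}
    (hv : MemLp v 2 volume) {u F : ST n → E} (hu : MemLp u 2 volume) (hF : MemLp F 2 volume)
    {u' F' : ST n → E'} (hu' : MemLp u' 2 volume) (hF' : MemLp F' 2 volume)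
    (h : TE T v u F) (h' : TE T v u' F') :
    TE T v (fun z => (u z, u' z)) (fun z => (F z, F' z)) := by
  intro η ψ hη hψ
  have h1 := te_int hv hu hF hη hψ
  have h2 := te_int hv hu' hF' hη hψ
  have h3 := integral_pair h1 h2
  rw [h η ψ hη hψ, h' η ψ hη hψ] at h3
  rw [← Prod.mk_zero_zero, ← h3]
  rfl

/-! ### the extension by the initial value -/

theorem ext0_memLp {E : Type*} [NormedAddCommGroup E] [NormedSpace ℝ E] {u0 : Eu n → E}
    {u : ST n → E} (h0 : MemLp u0 2 volume) (hu : MemLp u 2 volume) :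
    MemLp (ext0 u0 u) 2 volume := by
  have hI : MemLp ((Ioo (-1 : ℝ) 0).indicator fun _ => (1 : ℝ)) 2 volume :=
    memLp_indicator_const 2 measurableSet_Ioo 1 (Or.inr (by simp))
  have h1 := memLp_prod_smul hI h0
  have hS : MeasurableSet {z : ST n | z.1 ∈ Ioo (-1 : ℝ) 0} := measurable_fst measurableSet_Ioo
  have h2 : MemLp ({z : ST n | z.1 ∈ Ioo (-1 : ℝ) 0}ᶜ.indicator u) 2 volume :=
    hu.indicator hS.compl
  have h3 := h1.add h2
  refine h3.ae_eq (Eventually.of_forall fun z => ?_)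
  by_cases hz : z.1 ∈ Ioo (-1 : ℝ) 0
  · have hz' : z ∉ {z : ST n | z.1 ∈ Ioo (-1 : ℝ) 0}ᶜ := fun hc => hc hz
    simp only [Pi.add_apply]
    rw [indicator_of_mem hz, one_smul, indicator_of_notMem hz', add_zero]
    simp only [ext0, if_pos hz]
  · have hz' : z ∈ {z : ST n | z.1 ∈ Ioo (-1 : ℝ) 0}ᶜ := hz
    simp only [Pi.add_apply]
    rw [indicator_of_notMem hz, zero_smul, indicator_of_mem hz', zero_add]
    simp only [ext0, if_neg hz]

theorem ext0_of_mem {E : Type*} {u0 : Eu n → E} {u : ST n → E} {z : ST n}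
    (hz : z.1 ∈ Ioo (-1 : ℝ) 0) : ext0 u0 u z = u0 z.2 := by
  simp only [ext0, if_pos hz]

theorem ext0_of_notMem {E : Type*} {u0 : Eu n → E} {u : ST n → E} {z : ST n}
    (hz : z.1 ∉ Ioo (-1 : ℝ) 0) : ext0 u0 u z = u z := by
  simp only [ext0, if_neg hz]

/-- fields vanishing outside `(0,T)` are locally integrable in the sense used by `renorm_loc` -/
theorem integrableOn_slab {E : Type*} [NormedAddCommGroup E] {T : ℝ} {F : ST n → E}
    (hF : MemLp F 2 volume) (h0 : ∀ᵐ z : ST n, z.1 ∉ Ioo 0 T → F z = 0) (R : ℝ) :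
    IntegrableOn F {z : ST n | ‖z.2‖ ≤ R} volume := by
  have hS : MeasurableSet {z : ST n | ‖z.2‖ ≤ R} :=
    measurableSet_le (measurable_snd.norm) measurable_const
  have hT : MeasurableSet {z : ST n | z.1 ∈ Ioo 0 T} := measurable_fst measurableSet_Ioo
  rw [← integrable_indicator_iff hS]
  have h1 : Integrable (({z : ST n | ‖z.2‖ ≤ R} ∩ {z : ST n | z.1 ∈ Ioo 0 T}).indicator F) := by
    rw [integrable_indicator_iff (hS.inter hT)]
    have hfin : volume ({z : ST n | ‖z.2‖ ≤ R} ∩ {z : ST n | z.1 ∈ Ioo 0 T}) < ⊤ := by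
      have hsub : ({z : ST n | ‖z.2‖ ≤ R} ∩ {z : ST n | z.1 ∈ Ioo 0 T}) ⊆
          Ioo 0 T ×ˢ Metric.closedBall 0 R := by
        intro z hz
        exact ⟨hz.2, by simpa using hz.1⟩
      refine (measure_mono hsub).trans_lt ?_
      rw [Measure.volume_eq_prod, Measure.prod_prod]
      exact ENNReal.mul_lt_top (by simp) measure_closedBall_lt_top
    have : IsFiniteMeasure (volume.restrict
        ({z : ST n | ‖z.2‖ ≤ R} ∩ {z : ST n | z.1 ∈ Ioo 0 T})) :=
      ⟨by rwa [Measure.restrict_apply_univ]⟩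
    exact (hF.restrict _).integrable (by norm_num)
  refine h1.congr ?_
  filter_upwards [h0] with z hz
  by_cases h2 : z ∈ {z : ST n | ‖z.2‖ ≤ R}
  · rw [indicator_of_mem h2]
    by_cases h3 : z ∈ {z : ST n | z.1 ∈ Ioo 0 T}
    · rw [indicator_of_mem (mem_inter h2 h3)]
    · rw [indicator_of_notMem (fun hc => h3 hc.2), hz h3]
  · rw [indicator_of_notMem h2, indicator_of_notMem (fun hc => h2 hc.1)]

end Pool.Agent.Helper50.JT
end

section
/-! # Renormalisation of the defect and the limits -/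

open MeasureTheory Set Filter Topology
open scoped ENNReal NNReal ContDiff

namespace Pool.Agent.Helper50.JT

open Pool.Agent.Helper42.Jef Pool.Agent.Helper22.Jef

variable {n : ℕ}

/-- the renormalisation property for pairs (instance of `renorm_loc`) -/
def Ren (T : ℝ) (v : ST n → Eu n) : Prop :=
  ∀ (u F : ST n → Mt n × ℝ), MemLp u 2 volume →
    (∀ R : ℝ, IntegrableOn F {z : ST n | ‖z.2‖ ≤ R} volume) → TE T v u F →
    ∀ K : Set (Mt n × ℝ), Convex ℝ K → IsClosed K → (0 : Mt n × ℝ) ∈ K → (∀ᵐ z, u z ∈ K) →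
    ∀ β : Mt n × ℝ → ℝ, ContDiff ℝ 1 β → ∀ L : ℝ, (∀ x ∈ K, ‖fderiv ℝ β x‖ ≤ L) →
    TE T v (fun z => β (u z)) (fun z => fderiv ℝ β (u z) (F z))

theorem TE_congr {E : Type*} [NormedAddCommGroup E] [NormedSpace ℝ E] {T : ℝ} {v : ST n → Eu n}
    {u F u' F' : ST n → E} (h : TE T v u F) (hu : u =ᵐ[volume] u') (hF : F =ᵐ[volume] F') :
    TE T v u' F' := by
  intro η ψ hη hψ
  rw [← h η ψ hη hψ]
  refine integral_congr_ae ?_
  filter_upwards [hu, hF] with z h1 h2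
  rw [h1, h2]

theorem bk_memLp {κ : ℝ} {τ0 : Eu n → Mt n} (hτ0 : MemLp τ0 2 volume) :
    MemLp (fun x => bk κ (τ0 x)) 2 volume := by
  have hc : Continuous (bk κ : Mt n → Mt n) := (bk_contDiff κ).continuous
  exact hτ0.mono (hc.comp_aestronglyMeasurable hτ0.1) (Eventually.of_forall fun x => bk_norm_le _ _)

theorem bk_sq_memLp {κ : ℝ} (hκ : 0 < κ) {τ0 : Eu n → Mt n} (hτ0 : MemLp τ0 2 volume) :
    MemLp (fun x => ‖bk κ (τ0 x)‖ ^ 2) 2 volume := by
  have hc : Continuous (bk κ : Mt n → Mt n) := (bk_contDiff κ).continuous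
  refine (hτ0.const_smul κ).mono ((hc.comp_aestronglyMeasurable hτ0.1).norm.pow 2)
    (Eventually.of_forall fun x => ?_)
  rw [Pi.smul_apply, norm_smul, norm_pow, norm_norm, Real.norm_of_nonneg hκ.le]
  have h1 := bk_norm_le κ (τ0 x)
  have h2 := bk_norm_le_k hκ (τ0 x)
  have h3 := norm_nonneg (bk κ (τ0 x))
  nlinarith

/-- renormalised equation for the defect -/
theorem ren_step {T : ℝ} {v : ST n → Eu n} (hv : MemLp v 2 volume) (hren : Ren T v) {κ : ℝ}
    (hκ : 0 < κ) {τ0 : Eu n → Mt n} (hτ0 : MemLp τ0 2 volume) {t : ST n → Mt n} {a : ST n → ℝ}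
    (hb : ∀ᵐ z, ‖t z‖ ^ 2 ≤ a z ∧ ‖t z‖ ≤ κ ∧ a z ≤ κ ^ 2) (htm : MemLp t 2 volume)
    (ham : MemLp a 2 volume) (ht0 : ∀ᵐ z : ST n, z.1 ∉ Ioo 0 T → t z = 0)
    (ha0 : ∀ᵐ z : ST n, z.1 ∉ Ioo 0 T → a z = 0) {H : ST n → Mt n} {Q : ST n → ℝ}
    (hH : MemLp H 2 volume) (hQ : MemLp Q 2 volume)
    (hH0 : ∀ᵐ z : ST n, z.1 ∉ Ioo 0 T → H z = 0) (hQ0 : ∀ᵐ z : ST n, z.1 ∉ Ioo 0 T → Q z = 0)
    (hTE1 : TE T v (ext0 (fun x => bk κ (τ0 x)) t) H)
    (hTE2 : TE T v (ext0 (fun x => ‖bk κ (τ0 x)‖ ^ 2) a) Q) {ε : ℝ} (hε : 0 < ε) :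
    TE T v (fun z => Bf ε (a z - ‖t z‖ ^ 2))
      (fun z => Bd ε (a z - ‖t z‖ ^ 2) * (Q z - 2 * inner ℝ (t z) (H z))) := by
  have hu1 : MemLp (ext0 (fun x => bk κ (τ0 x)) t) 2 volume := ext0_memLp (bk_memLp hτ0) htm
  have hu2 : MemLp (ext0 (fun x => ‖bk κ (τ0 x)‖ ^ 2) a) 2 volume :=
    ext0_memLp (bk_sq_memLp hκ hτ0) ham
  have hpair := TE_pair hv hu1 hH hu2 hQ hTE1 hTE2
  set K : Set (Mt n × ℝ) := Metric.closedBall 0 κ ×ˢ Metric.closedBall 0 (κ ^ 2) with hK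
  have hKc : IsCompact K := (isCompact_closedBall _ _).prod (isCompact_closedBall _ _)
  have hcf : Continuous (fderiv ℝ (bet ε : Mt n × ℝ → ℝ)) :=
    (bet_contDiff hε).continuous_fderiv (by norm_num)
  obtain ⟨L, hL⟩ := hKc.exists_bound_of_continuousOn hcf.continuousOn
  have h0K : (0 : Mt n × ℝ) ∈ K :=
    ⟨Metric.mem_closedBall_self hκ.le, Metric.mem_closedBall_self (by positivity)⟩
  have hKu : ∀ᵐ z, (ext0 (fun x => bk κ (τ0 x)) t z, ext0 (fun x => ‖bk κ (τ0 x)‖ ^ 2) a z) ∈ K := by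
    filter_upwards [hb] with z hz
    refine ⟨?_, ?_⟩
    · rw [mem_closedBall_zero_iff]
      by_cases h : z.1 ∈ Ioo (-1 : ℝ) 0
      · rw [ext0_of_mem h]; exact bk_norm_le_k hκ _
      · rw [ext0_of_notMem h]; exact hz.2.1
    · rw [mem_closedBall_zero_iff]
      change ‖ext0 (fun x => ‖bk κ (τ0 x)‖ ^ 2) a z‖ ≤ κ ^ 2
      by_cases h : z.1 ∈ Ioo (-1 : ℝ) 0
      · rw [ext0_of_mem h, norm_pow, norm_norm]
        exact pow_le_pow_left₀ (norm_nonneg _) (bk_norm_le_k hκ _) 2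
      · rw [ext0_of_notMem h, Real.norm_of_nonneg ((by positivity : (0:ℝ) ≤ ‖t z‖ ^ 2).trans hz.1)]
        exact hz.2.2
  have hmain := hren _ _ (memLp_pair hu1 hu2) (fun R => by
      have h1 := integrableOn_slab (memLp_pair hH hQ) (T := T) (by
        filter_upwards [hH0, hQ0] with z h1 h2 hz
        rw [h1 hz, h2 hz]; rfl) R
      exact h1) hpair K ((convex_closedBall _ _).prod (convex_closedBall _ _))
      (Metric.isClosed_closedBall.prod Metric.isClosed_closedBall) h0K hKu (bet ε)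
      (bet_contDiff hε) L hL
  refine TE_congr hmain ?_ ?_
  · filter_upwards [ht0, ha0] with z h1 h2
    by_cases h : z.1 ∈ Ioo (-1 : ℝ) 0
    · have h3 : z.1 ∉ Ioo 0 T := fun hc => by linarith [hc.1, h.2]
      rw [ext0_of_mem h, ext0_of_mem h, h1 h3, h2 h3]
      simp [bet]
    · rw [ext0_of_notMem h, ext0_of_notMem h]
      rfl
  · filter_upwards [ht0, ha0, hH0, hQ0] with z h1 h2 h3 h4
    rw [bet_fderiv hε]
    by_cases h : z.1 ∈ Ioo (-1 : ℝ) 0
    · have h5 : z.1 ∉ Ioo 0 T := fun hc => by linarith [hc.1, h.2]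
      rw [h1 h5, h2 h5, h3 h5, h4 h5]
      simp
    · rw [ext0_of_notMem h, ext0_of_notMem h]

/-! ### weights -/

/-- the space-time weight on the left side -/
noncomputable def wt (T1 : ℝ) (ψ : Eu n → ℝ) (z : ST n) : ℝ :=
  (Ioi (0 : ℝ)).indicator (fun t => - deriv (et T1) t) z.1 * ψ z.2

/-- the space-time weight on the right side -/
noncomputable def gt (T1 : ℝ) (ψ : Eu n → ℝ) (z : ST n) : ℝ := et T1 z.1 * ψ z.2

theorem wt_nonneg {T1 : ℝ} {ψ : Eu n → ℝ} (hψ : ∀ x, 0 ≤ ψ x) (z : ST n) : 0 ≤ wt T1 ψ z := by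
  refine mul_nonneg ?_ (hψ _)
  refine indicator_nonneg (fun t ht => ?_) _
  have := et_deriv_nonpos (T1 := T1) (mem_Ioi.1 ht)
  linarith

theorem wt_pos {T1 : ℝ} {ψ : Eu n → ℝ} {z : ST n} (h1 : z.1 ∈ Ioo 0 T1) (h2 : 0 < ψ z.2) :
    0 < wt T1 ψ z := by
  refine mul_pos ?_ h2
  rw [indicator_of_mem (mem_Ioi.2 h1.1)]
  have := et_deriv_neg h1.1 h1.2
  linarith

theorem wt_integrable {T T1 : ℝ} (h : T1 < T) {ψ : Eu n → ℝ} (hψ : IsTest ψ) :
    Integrable (wt T1 ψ) := by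
  have h1 : Integrable ((Ioi (0 : ℝ)).indicator fun t => - deriv (et T1) t) :=
    ((memLp_one_iff_integrable.1 (isTime_deriv_memLp (et_time h) 1)).neg).indicator measurableSet_Ioi
  exact h1.mul_prod (memLp_one_iff_integrable.1 (isTest_memLp hψ 1))

theorem gt_nonneg {T1 : ℝ} {ψ : Eu n → ℝ} (hψ : ∀ x, 0 ≤ ψ x) (z : ST n) : 0 ≤ gt T1 ψ z :=
  mul_nonneg (et_nonneg _ _) (hψ _)

theorem gt_le_one {T1 : ℝ} {ψ : Eu n → ℝ} (hψ : ∀ x, 0 ≤ ψ x) (hψ1 : ∀ x, ψ x ≤ 1) (z : ST n) :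
    gt T1 ψ z ≤ 1 :=
  mul_le_one₀ (et_le_one _ _) (hψ _) (hψ1 _)

theorem gt_integrable {T T1 : ℝ} (h : T1 < T) {ψ : Eu n → ℝ} (hψ : IsTest ψ) :
    Integrable (gt T1 ψ) :=
  (memLp_one_iff_integrable.1 (isTime_memLp (et_time h) 1)).mul_prod (memLp_one_iff_integrable.1 (isTest_memLp hψ 1))

theorem gt_continuous (T1 : ℝ) {ψ : Eu n → ℝ} (hψ : IsTest ψ) : Continuous (gt T1 ψ) :=
  ((et_contDiff T1).continuous.comp continuous_fst).mul (hψ.smooth.continuous.comp continuous_snd)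

/-- the tested equation -/
theorem tested {Ω : Set (Eu n)} {T T1 : ℝ} (h : T1 < T) {v : ST n → Eu n}
    (hv0 : ∀ᵐ z : ST n, z.2 ∉ Ω → v z = 0) {ψ : Eu n → ℝ} (hψ : IsTest ψ)
    (hψΩ : ∀ x ∈ Ω, fderiv ℝ ψ x = 0) {θk P : ST n → ℝ} {ε κ : ℝ} (hε : 0 < ε)
    (hm : AEStronglyMeasurable θk volume)
    (hθ : ∀ᵐ z, 0 ≤ θk z ∧ θk z ≤ κ) (hθ0 : ∀ᵐ z : ST n, z.1 ∉ Ioo 0 T → θk z = 0)
    (hP : Integrable (fun z => gt T1 ψ z * (Bd ε (θk z) * P z)))
    (hTE : TE T v (fun z => Bf ε (θk z)) (fun z => Bd ε (θk z) * P z)) :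
    Integrable (fun z => wt T1 ψ z * Bf ε (θk z)) ∧
    ∫ z, wt T1 ψ z * Bf ε (θk z) = ∫ z, gt T1 ψ z * (Bd ε (θk z) * P z) := by
  obtain ⟨D, hD⟩ := (isCompact_Icc (a := (0 : ℝ)) (b := κ)).exists_bound_of_continuousOn
    (Bf_continuous hε).continuousOn
  have hBm : AEStronglyMeasurable (fun z => Bf ε (θk z)) volume :=
    (Bf_continuous hε).comp_aestronglyMeasurable hm
  have hBb : ∀ᵐ z, ‖Bf ε (θk z)‖ ≤ D := by
    filter_upwards [hθ] with z hz
    exact hD _ hz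
  have hw : Integrable (fun z => wt T1 ψ z * Bf ε (θk z)) :=
    (wt_integrable h hψ).mul_bdd hBm hBb
  refine ⟨hw, ?_⟩
  have h1 := hTE _ _ (et_time h) hψ
  have h2 : (fun z : ST n => (deriv (et T1) z.1 * ψ z.2 + et T1 z.1 * fderiv ℝ ψ z.2 (v z)) •
      Bf ε (θk z) + (et T1 z.1 * ψ z.2) • (Bd ε (θk z) * P z)) =ᵐ[volume]
      fun z => - (wt T1 ψ z * Bf ε (θk z)) + gt T1 ψ z * (Bd ε (θk z) * P z) := by
    filter_upwards [hv0, hθ0] with z h3 h4
    have h5 : fderiv ℝ ψ z.2 (v z) = 0 := by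
      by_cases hz : z.2 ∈ Ω
      · rw [hψΩ _ hz]; rfl
      · rw [h3 hz, map_zero]
    rw [h5, mul_zero, add_zero, smul_eq_mul, smul_eq_mul]
    unfold gt wt
    by_cases hz : 0 < z.1
    · rw [indicator_of_mem (mem_Ioi.2 hz)]
      ring
    · have h6 : θk z = 0 := h4 fun hc => hz hc.1
      rw [h6, Bf_zero]
      ring
  have hw' : Integrable (fun z => - (wt T1 ψ z * Bf ε (θk z))) := hw.neg
  rw [integral_congr_ae h2, integral_add hw' hP, integral_neg] at h1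
  linarith

end Pool.Agent.Helper50.JT
end

section
/-! # Passage to the limit -/

open MeasureTheory Set Filter Topology
open scoped ENNReal NNReal ContDiff

namespace Pool.Agent.Helper50.JT

open Pool.Agent.Helper42.Jef Pool.Agent.Helper22.Jef

variable {n : ℕ}

/-- if `∫ w B_ε(θ)` is bounded uniformly in `ε` then `θ = 0` where `w > 0` -/
theorem fatou_log {α : Type*} [MeasurableSpace α] {μ : Measure α} {w θ : α → ℝ}
    (hw : AEMeasurable w μ) (hθ : AEMeasurable θ μ) {C0 : ℝ}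
    (h : ∀ ε : ℝ, 0 < ε → ∫⁻ z, ENNReal.ofReal (w z * Bf ε (θ z)) ∂μ ≤ ENNReal.ofReal C0) :
    ∀ᵐ z ∂μ, 0 < w z → θ z = 0 := by
  have hpos : ∀ j : ℕ, (0 : ℝ) < 1 / ((j : ℝ) + 1) := fun j => by positivity
  have hm : ∀ j : ℕ, AEMeasurable (fun z => ENNReal.ofReal (w z * Bf (1 / ((j : ℝ) + 1)) (θ z))) μ :=
    fun j => (hw.mul ((Bf_continuous (hpos j)).measurable.comp_aemeasurable hθ)).ennreal_ofReal
  have h1 : ∫⁻ z, liminf (fun j : ℕ => ENNReal.ofReal (w z * Bf (1 / ((j : ℝ) + 1)) (θ z))) atTop ∂μ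
      ≤ ENNReal.ofReal C0 := by
    refine (lintegral_liminf_le' hm).trans ?_
    exact liminf_le_of_le (by isBoundedDefault) fun b hb => by
      obtain ⟨j, hj⟩ := hb.exists
      exact hj.trans (h _ (hpos j))
  have h2 : ∀ᵐ z ∂μ, liminf (fun j : ℕ => ENNReal.ofReal (w z * Bf (1 / ((j : ℝ) + 1)) (θ z))) atTop
      < ⊤ := by
    refine ae_lt_top' ?_ (h1.trans_lt ENNReal.ofReal_lt_top).ne
    refine ⟨fun z => liminf (fun j => (hm j).mk _ z) atTop,
      Measurable.liminf fun j => (hm j).measurable_mk, ?_⟩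
    filter_upwards [ae_all_iff.2 fun j => (hm j).ae_eq_mk] with z hz
    exact congrArg (fun f : ℕ → ℝ≥0∞ => liminf f atTop) (funext hz)
  filter_upwards [h2] with z hz hwz
  by_contra hne
  have h3 : Tendsto (fun j : ℕ => ENNReal.ofReal (w z * Bf (1 / ((j : ℝ) + 1)) (θ z))) atTop
      (𝓝 ⊤) := by
    have h4 := (Bf_tendsto hne).const_mul_atTop hwz
    exact ENNReal.tendsto_ofReal_nhds_top.2 h4
  rw [h3.liminf_eq] at hz
  exact lt_irrefl _ hz

theorem limit_bound {T T1 : ℝ} (h : T1 < T) {ψ : Eu n → ℝ} (hψ : IsTest ψ) (hψ0 : ∀ x, 0 ≤ ψ x)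
    (hψ1 : ∀ x, ψ x ≤ 1) {tk : ℕ → ST n → Mt n} {ta : ℕ → ST n → ℝ} {A θ : ST n → ℝ}
    (hA : Integrable A)
    (hb : ∀ᵐ z, ∀ k : ℕ, ‖tk k z‖ ^ 2 ≤ ta k z ∧ ta k z ≤ A z)
    (hlim : ∀ᵐ z, Tendsto (fun k => ta k z - ‖tk k z‖ ^ 2) atTop (𝓝 (θ z)))
    (hθA : ∀ᵐ z, 0 ≤ θ z ∧ θ z ≤ A z) (hθm : AEStronglyMeasurable θ volume)
    (htm : ∀ k, AEStronglyMeasurable (tk k) volume)
    (ham : ∀ k, AEStronglyMeasurable (ta k) volume)
    {P : ℕ → ST n → ℝ} {B : Set (ST n)} {C' : ℝ} {e : ℕ → ℝ} (he : Tendsto e atTop (𝓝 0))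
    (hP : ∀ (k : ℕ) (ζ : ST n → ℝ) (L : ℝ), Measurable ζ →
        (∀ z, 0 ≤ ζ z ∧ ζ z ≤ L) → (∀ z, z ∉ B → ζ z = 0) →
        ∫ z, ζ z * P k z ≤
          C' * (∫ z, ζ z * ((1 + ‖tk k z‖) ^ 2 * (ta k z - ‖tk k z‖ ^ 2) + θ z)) + L * e k)
    (hB : ∀ z, z ∉ B → gt T1 ψ z = 0) {ε : ℝ} (hε : 0 < ε)
    (hid : ∀ k, Integrable (fun z => wt T1 ψ z * Bf ε (ta k z - ‖tk k z‖ ^ 2)) ∧
      ∫ z, wt T1 ψ z * Bf ε (ta k z - ‖tk k z‖ ^ 2) =
        ∫ z, gt T1 ψ z * (Bd ε (ta k z - ‖tk k z‖ ^ 2) * P k z)) :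
    ∫⁻ z, ENNReal.ofReal (wt T1 ψ z * Bf ε (θ z)) ≤
      ENNReal.ofReal (|C'| * ∫ z, gt T1 ψ z * (3 + 2 * A z)) := by
  have hg0 := gt_nonneg (T1 := T1) hψ0
  have hg1 := gt_le_one (T1 := T1) hψ0 hψ1
  have hgi := gt_integrable h hψ
  have hgc := gt_continuous T1 hψ
  have hdm : ∀ k, AEStronglyMeasurable (fun z => ta k z - ‖tk k z‖ ^ 2) volume := fun k =>
    (ham k).sub ((htm k).norm.pow 2)
  have hL0 : 0 < 1 / (2 * ε) := by positivity
  have hθi : Integrable θ := by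
    refine hA.mono hθm ?_
    filter_upwards [hθA] with z hz
    rw [Real.norm_of_nonneg hz.1, Real.norm_of_nonneg (hz.1.trans hz.2)]
    exact hz.2
  have hgA : ∀ c : ℝ, Integrable (fun z => gt T1 ψ z * (c + 2 * A z)) := by
    intro c
    have h1 : Integrable (fun z => gt T1 ψ z * c) := hgi.mul_const c
    have h2 : Integrable (fun z => gt T1 ψ z * (2 * A z)) :=
      (hA.const_mul 2).bdd_mul (c := 1) hgc.aestronglyMeasurable
        (Eventually.of_forall fun z => by rw [Real.norm_of_nonneg (hg0 z)]; exact hg1 z)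
    refine (h1.add h2).congr (Eventually.of_forall fun z => ?_)
    simp only [Pi.add_apply]
    ring
  have hBθ : ∀ f : ST n → ℝ, AEStronglyMeasurable f volume → (∀ᵐ z, 0 ≤ f z) →
      Integrable (fun z => gt T1 ψ z * (Bd ε (f z) * θ z)) := by
    intro f hf hf0
    have h1 : Integrable (fun z => Bd ε (f z) * θ z) := by
      refine hθi.bdd_mul (c := 1 / (2 * ε)) ((Bd_continuous hε).comp_aestronglyMeasurable hf) ?_
      filter_upwards [hf0] with z hz
      rw [Real.norm_of_nonneg (Bd_nonneg ε hz)]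
      exact Bd_le hε _
    exact h1.bdd_mul (c := 1) hgc.aestronglyMeasurable
        (Eventually.of_forall fun z => by rw [Real.norm_of_nonneg (hg0 z)]; exact hg1 z)
  have hd0 : ∀ k, ∀ᵐ z, 0 ≤ ta k z - ‖tk k z‖ ^ 2 := by
    intro k
    filter_upwards [hb] with z hz
    linarith [(hz k).1]
  set J : ℕ → ℝ := fun k => ∫ z, gt T1 ψ z * (Bd ε (ta k z - ‖tk k z‖ ^ 2) * θ z) with hJ
  set J' : ℝ := ∫ z, gt T1 ψ z * (Bd ε (θ z) * θ z) with hJ'
  set I2 : ℝ := ∫ z, gt T1 ψ z * (2 + 2 * A z) with hI2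
  -- the bound for fixed `k`
  have hk : ∀ k, ∫ z, wt T1 ψ z * Bf ε (ta k z - ‖tk k z‖ ^ 2) ≤
      |C'| * (I2 + J k) + 1 / (2 * ε) * e k := by
    intro k
    rw [(hid k).2]
    obtain ⟨f, hf, hfe⟩ := hdm k
    set ζ : ST n → ℝ := fun z => gt T1 ψ z * Bd ε (max (f z) 0) with hζ
    have hζm : Measurable ζ :=
      hgc.measurable.mul ((Bd_continuous hε).measurable.comp (hf.measurable.max measurable_const))
    have hζb : ∀ z, 0 ≤ ζ z ∧ ζ z ≤ 1 / (2 * ε) := by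
      intro z
      have h1 : 0 ≤ Bd ε (max (f z) 0) := Bd_nonneg ε (le_max_right _ _)
      refine ⟨mul_nonneg (hg0 z) h1, ?_⟩
      calc gt T1 ψ z * Bd ε (max (f z) 0) ≤ 1 * Bd ε (max (f z) 0) :=
            mul_le_mul_of_nonneg_right (hg1 z) h1
        _ ≤ _ := by rw [one_mul]; exact Bd_le hε _
    have hζB : ∀ z, z ∉ B → ζ z = 0 := fun z hz => by
      simp only [hζ]
      rw [hB z hz, zero_mul]
    have hζe : ∀ᵐ z, ζ z = gt T1 ψ z * Bd ε (ta k z - ‖tk k z‖ ^ 2) := by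
      filter_upwards [hfe, hd0 k] with z h1 h2
      simp only [hζ]
      rw [← h1, max_eq_left h2]
    have h1 := hP k ζ _ hζm hζb hζB
    have h2 : ∫ z, ζ z * P k z = ∫ z, gt T1 ψ z * (Bd ε (ta k z - ‖tk k z‖ ^ 2) * P k z) := by
      refine integral_congr_ae ?_
      filter_upwards [hζe] with z hz
      rw [hz]; ring
    have h3 : 0 ≤ ∫ z, ζ z * ((1 + ‖tk k z‖) ^ 2 * (ta k z - ‖tk k z‖ ^ 2) + θ z) := by
      refine integral_nonneg_of_ae ?_
      filter_upwards [hd0 k, hθA] with z h4 h5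
      have h6 : 0 ≤ (1 + ‖tk k z‖) ^ 2 * (ta k z - ‖tk k z‖ ^ 2) := mul_nonneg (by positivity) h4
      exact mul_nonneg (hζb z).1 (by linarith [h5.1])
    have h4 : ∫ z, ζ z * ((1 + ‖tk k z‖) ^ 2 * (ta k z - ‖tk k z‖ ^ 2) + θ z) ≤ I2 + J k := by
      have h5 := integral_add (hgA 2) (hBθ _ (hdm k) (hd0 k))
      rw [hI2, hJ]
      simp only
      rw [← h5]
      refine integral_mono_of_nonneg ?_ ((hgA 2).add (hBθ _ (hdm k) (hd0 k))) ?_
      · filter_upwards [hd0 k, hθA] with z h4 h5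
        have h6 : 0 ≤ (1 + ‖tk k z‖) ^ 2 * (ta k z - ‖tk k z‖ ^ 2) := mul_nonneg (by positivity) h4
        exact mul_nonneg (hζb z).1 (by linarith [h5.1])
      · filter_upwards [hd0 k, hθA, hζe, hb] with z h4 h5 h6 h7
        rw [h6]
        have h8 : Bd ε (ta k z - ‖tk k z‖ ^ 2) * (ta k z - ‖tk k z‖ ^ 2) ≤ 1 := Bd_mul_le hε _
        have h9 : (1 + ‖tk k z‖) ^ 2 ≤ 2 + 2 * A z := by
          nlinarith [(h7 k).1, (h7 k).2, sq_nonneg (1 - ‖tk k z‖)]
        have h10 : (1 + ‖tk k z‖) ^ 2 *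
            (Bd ε (ta k z - ‖tk k z‖ ^ 2) * (ta k z - ‖tk k z‖ ^ 2)) ≤ 2 + 2 * A z := by
          refine le_trans ?_ h9
          exact mul_le_of_le_one_right (by positivity) h8
        have h11 := mul_le_mul_of_nonneg_left h10 (hg0 z)
        nlinarith
    have h5 : C' * (∫ z, ζ z * ((1 + ‖tk k z‖) ^ 2 * (ta k z - ‖tk k z‖ ^ 2) + θ z)) ≤
        |C'| * (I2 + J k) :=
      (mul_le_mul_of_nonneg_right (le_abs_self _) h3).trans
        (mul_le_mul_of_nonneg_left h4 (abs_nonneg _))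
    rw [← h2]
    linarith
  -- limits
  have hJlim : Tendsto J atTop (𝓝 J') := by
    refine tendsto_integral_of_dominated_convergence (fun z => 1 / (2 * ε) * A z)
      (fun k => (hBθ _ (hdm k) (hd0 k)).1) (hA.const_mul _) (fun k => ?_) ?_
    · filter_upwards [hd0 k, hθA] with z h4 h5
      have h6 : 0 ≤ Bd ε (ta k z - ‖tk k z‖ ^ 2) := Bd_nonneg ε h4
      rw [Real.norm_of_nonneg (mul_nonneg (hg0 z) (mul_nonneg h6 h5.1))]
      calc gt T1 ψ z * (Bd ε (ta k z - ‖tk k z‖ ^ 2) * θ z) ≤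
            1 * (Bd ε (ta k z - ‖tk k z‖ ^ 2) * θ z) :=
            mul_le_mul_of_nonneg_right (hg1 z) (mul_nonneg h6 h5.1)
        _ = Bd ε (ta k z - ‖tk k z‖ ^ 2) * θ z := one_mul _
        _ ≤ 1 / (2 * ε) * A z := mul_le_mul (Bd_le hε _) h5.2 h5.1 hL0.le
    · filter_upwards [hlim] with z hz
      exact ((((Bd_continuous hε).tendsto _).comp hz).mul_const _).const_mul _
  have hrhs : Tendsto (fun k => |C'| * (I2 + J k) + 1 / (2 * ε) * e k) atTop
      (𝓝 (|C'| * (I2 + J'))) := by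
    have := (((tendsto_const_nhds (x := I2)).add hJlim).const_mul |C'|).add (he.const_mul (1 / (2 * ε)))
    simpa using this
  have hJ'le : J' ≤ ∫ z, gt T1 ψ z := by
    refine integral_mono_of_nonneg ?_ hgi ?_
    · filter_upwards [hθA] with z h5
      exact mul_nonneg (hg0 z) (mul_nonneg (Bd_nonneg ε h5.1) h5.1)
    · refine Eventually.of_forall fun z => ?_
      exact mul_le_of_le_one_right (hg0 z) (Bd_mul_le hε _)
  have hI3 : ∫ z, gt T1 ψ z * (3 + 2 * A z) = I2 + ∫ z, gt T1 ψ z := by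
    rw [hI2, ← integral_add (hgA 2) hgi]
    refine integral_congr_ae (Eventually.of_forall fun z => ?_)
    simp only
    ring
  have hwm : AEMeasurable (wt T1 ψ) volume := (wt_integrable h hψ).1.aemeasurable
  have hw0 := wt_nonneg (T1 := T1) hψ0
  have hm : ∀ k, AEMeasurable (fun z => ENNReal.ofReal
      (wt T1 ψ z * Bf ε (ta k z - ‖tk k z‖ ^ 2))) volume := fun k =>
    ((hid k).1.1.aemeasurable).ennreal_ofReal
  calc ∫⁻ z, ENNReal.ofReal (wt T1 ψ z * Bf ε (θ z))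
      = ∫⁻ z, liminf (fun k => ENNReal.ofReal
          (wt T1 ψ z * Bf ε (ta k z - ‖tk k z‖ ^ 2))) atTop := by
        refine lintegral_congr_ae ?_
        filter_upwards [hlim] with z hz
        have h1 : Tendsto (fun k => ENNReal.ofReal
          (wt T1 ψ z * Bf ε (ta k z - ‖tk k z‖ ^ 2))) atTop
            (𝓝 (ENNReal.ofReal (wt T1 ψ z * Bf ε (θ z)))) :=
          ENNReal.tendsto_ofReal ((((Bf_continuous hε).tendsto _).comp hz).const_mul _)
        exact h1.liminf_eq.symm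
    _ ≤ liminf (fun k => ∫⁻ z, ENNReal.ofReal
          (wt T1 ψ z * Bf ε (ta k z - ‖tk k z‖ ^ 2))) atTop := lintegral_liminf_le' hm
    _ ≤ liminf (fun k => ENNReal.ofReal (|C'| * (I2 + J k) + 1 / (2 * ε) * e k)) atTop := by
        refine liminf_le_liminf (Eventually.of_forall fun k => ?_)
        rw [← ofReal_integral_eq_lintegral_ofReal (hid k).1
          (Eventually.of_forall fun z => mul_nonneg (hw0 z) (Bf_nonneg _ _))]
        exact ENNReal.ofReal_le_ofReal (hk k)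
    _ = ENNReal.ofReal (|C'| * (I2 + J')) := (ENNReal.tendsto_ofReal hrhs).liminf_eq
    _ ≤ _ := by
        refine ENNReal.ofReal_le_ofReal (mul_le_mul_of_nonneg_left ?_ (abs_nonneg _))
        rw [hI3]
        linarith

end Pool.Agent.Helper50.JT
end

section
/-! # N3: the defect vanishes (conditional on the renormalisation property) -/

open MeasureTheory Set Filter Topology
open scoped ENNReal NNReal ContDiff

namespace Pool.Agent.Helper50.JT

open Pool.Agent.Helper42.Jef Pool.Agent.Helper22.Jef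

variable {n : ℕ}

theorem int_gtBdP {T T1 : ℝ} (h : T1 < T) {ψ : Eu n → ℝ} (hψ : IsTest ψ) (hψ0 : ∀ x, 0 ≤ ψ x)
    (hψ1 : ∀ x, ψ x ≤ 1) {t H : ST n → Mt n} {Q θk : ST n → ℝ} (htm : MemLp t 2 volume)
    (hH : MemLp H 2 volume) (hQ : MemLp Q 2 volume) (hm : AEStronglyMeasurable θk volume)
    (h0 : ∀ᵐ z, 0 ≤ θk z) {ε : ℝ} (hε : 0 < ε) :
    Integrable (fun z => gt T1 ψ z * (Bd ε (θk z) * (Q z - 2 * inner ℝ (t z) (H z)))) := by
  have hg0 := gt_nonneg (T1 := T1) hψ0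
  have hg1 := gt_le_one (T1 := T1) hψ0 hψ1
  have hgc := gt_continuous T1 hψ
  have hg2 : MemLp (gt T1 ψ) 2 volume :=
    memLp_prod_smul (isTime_memLp (et_time h) 2) (isTest_memLp hψ 2)
  have h1 : Integrable (fun z => gt T1 ψ z * Q z) := hg2.integrable_mul hQ
  have h2 : Integrable (fun z => (inner ℝ (t z) (H z) : ℝ)) := by
    have h3 : Integrable (fun z => ‖t z‖ * ‖H z‖) := htm.norm.integrable_mul hH.norm
    refine h3.mono (htm.1.inner hH.1) (Eventually.of_forall fun z => ?_)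
    rw [Real.norm_of_nonneg (mul_nonneg (norm_nonneg (t z)) (norm_nonneg (H z)))]
    exact norm_inner_le_norm _ _
  have h3 : Integrable (fun z => gt T1 ψ z * (inner ℝ (t z) (H z) : ℝ)) :=
    h2.bdd_mul (c := 1) hgc.aestronglyMeasurable
      (Eventually.of_forall fun z => by rw [Real.norm_of_nonneg (hg0 z)]; exact hg1 z)
  have h4 : Integrable (fun z => gt T1 ψ z * Q z - 2 * (gt T1 ψ z * (inner ℝ (t z) (H z) : ℝ))) :=
    h1.sub (h3.const_mul 2)
  have h5 := h4.bdd_mul (c := 1 / (2 * ε)) ((Bd_continuous hε).comp_aestronglyMeasurable hm) (by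
    filter_upwards [h0] with z hz
    rw [Real.norm_of_nonneg (Bd_nonneg ε hz)]
    exact Bd_le hε _)
  refine h5.congr (Eventually.of_forall fun z => ?_)
  simp only
  ring

/-- N3 with the renormalisation property as a hypothesis -/
theorem theta_zero_of_ren {Ω : Set (Eu n)} (hΩ : IsOpen Ω) (hΩb : Bornology.IsBounded Ω) {T : ℝ}
    (hT : 0 < T) {v : ST n → Eu n} {G : ST n → Mt n} (hv : IsVel Ω T v G) (hren : Ren T v)
    {τ0 : Eu n → Mt n} (hτ0 : MemLp τ0 2 volume) {tk : ℕ → ST n → Mt n} {ta : ℕ → ST n → ℝ}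
    {τ : ST n → Mt n} {A θ : ST n → ℝ} (hA : Integrable A)
    (hb : ∀ᵐ z, ∀ k : ℕ, ‖tk k z‖ ^ 2 ≤ ta k z ∧ ta k z ≤ A z ∧ ‖tk k z‖ ≤ (k : ℝ) + 1 ∧
      ta k z ≤ ((k : ℝ) + 1) ^ 2)
    (hAc : ∀ᵐ z, Tendsto (fun k => ta k z) atTop (𝓝 (A z)))
    (htc : ∀ᵐ z, Tendsto (fun k => tk k z) atTop (𝓝 (τ z)))
    (hθ : ∀ᵐ z, θ z = A z - ‖τ z‖ ^ 2) (htm : ∀ k, MemLp (tk k) 2 volume)
    (ham : ∀ k, MemLp (ta k) 2 volume) (ht0 : ∀ k, ∀ᵐ z : ST n, z.1 ∉ Ioo 0 T → tk k z = 0)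
    (ha0 : ∀ k, ∀ᵐ z : ST n, z.1 ∉ Ioo 0 T → ta k z = 0)
    {H : ℕ → ST n → Mt n} {Q : ℕ → ST n → ℝ} (hH : ∀ k, MemLp (H k) 2 volume)
    (hQ : ∀ k, MemLp (Q k) 2 volume) (hH0 : ∀ k, ∀ᵐ z : ST n, z.1 ∉ Ioo 0 T → H k z = 0)
    (hQ0 : ∀ k, ∀ᵐ z : ST n, z.1 ∉ Ioo 0 T → Q k z = 0)
    (hTE1 : ∀ k : ℕ, TE T v (ext0 (fun x => bk ((k : ℝ) + 1) (τ0 x)) (tk k)) (H k))
    (hTE2 : ∀ k : ℕ, TE T v (ext0 (fun x => ‖bk ((k : ℝ) + 1) (τ0 x)‖ ^ 2) (ta k)) (Q k))
    {C' : ℝ} (hP : ∀ B : Set (ST n), MeasurableSet B → volume B < ⊤ →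
      ∃ e : ℕ → ℝ, Tendsto e atTop (𝓝 0) ∧ ∀ (k : ℕ) (ζ : ST n → ℝ) (L : ℝ), Measurable ζ →
        (∀ z, 0 ≤ ζ z ∧ ζ z ≤ L) → (∀ z, z ∉ B → ζ z = 0) →
        ∫ z, ζ z * (Q k z - 2 * inner ℝ (tk k z) (H k z)) ≤
          C' * (∫ z, ζ z * ((1 + ‖tk k z‖) ^ 2 * (ta k z - ‖tk k z‖ ^ 2) + θ z)) + L * e k) :
    ∀ᵐ z : ST n, z.1 ∈ Ioo 0 T → θ z = 0 := by
  obtain ⟨R0, hR0⟩ := hΩb.subset_ball (0 : Eu n)
  have hlim : ∀ᵐ z, Tendsto (fun k => ta k z - ‖tk k z‖ ^ 2) atTop (𝓝 (θ z)) := by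
    filter_upwards [hAc, htc, hθ] with z h1 h2 h3
    rw [h3]
    exact h1.sub ((h2.norm).pow 2)
  have hθA : ∀ᵐ z, 0 ≤ θ z ∧ θ z ≤ A z := by
    filter_upwards [hlim, hb, hθ] with z h1 h2 h3
    refine ⟨ge_of_tendsto' h1 fun k => by linarith [(h2 k).1], ?_⟩
    rw [h3]
    have : 0 ≤ ‖τ z‖ ^ 2 := by positivity
    linarith
  have hdm : ∀ k, AEStronglyMeasurable (fun z => ta k z - ‖tk k z‖ ^ 2) volume := fun k =>
    (ham k).1.sub ((htm k).1.norm.pow 2)
  have hθm : AEStronglyMeasurable θ volume := aestronglyMeasurable_of_tendsto_ae atTop hdm hlim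
  have hv0 : ∀ᵐ z : ST n, z.2 ∉ Ω → v z = 0 := by
    filter_upwards [(hv.zero_out hΩ.measurableSet).1] with z hz h
    exact hz (Or.inr h)
  have key : ∀ m : ℕ, ∀ᵐ z : ST n, 0 < z.1 → z.1 < T - T / ((m : ℝ) + 2) → ‖z.2‖ ≤ (m : ℝ) →
      θ z = 0 := by
    intro m
    set T1 : ℝ := T - T / ((m : ℝ) + 2) with hT1
    have h1 : T1 < T := by
      have : 0 < T / ((m : ℝ) + 2) := by positivity
      linarith
    have hRpos : 0 < |R0| + m + 1 := by positivity
    set f : ContDiffBump (0 : Eu n) := ⟨|R0| + m + 1, |R0| + m + 2, hRpos, by linarith⟩ with hf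
    set ψ : Eu n → ℝ := fun x => f x with hψdef
    have hψ : IsTest ψ := ⟨f.contDiff, f.hasCompactSupport⟩
    have hψ0 : ∀ x, 0 ≤ ψ x := fun x => f.nonneg
    have hψ1 : ∀ x, ψ x ≤ 1 := fun x => f.le_one
    have hψΩ : ∀ x ∈ Ω, fderiv ℝ ψ x = 0 := by
      intro x hx
      have h2 : x ∈ Metric.ball (0 : Eu n) f.rIn := by
        have h3 := hR0 hx
        rw [mem_ball_zero_iff] at h3 ⊢
        change ‖x‖ < |R0| + m + 1
        have := le_abs_self R0
        have h4 : (0 : ℝ) ≤ m := Nat.cast_nonneg m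
        linarith
      have h3 : ψ =ᶠ[𝓝 x] fun _ => (1 : ℝ) := f.eventuallyEq_one_of_mem_ball h2
      rw [h3.fderiv_eq]
      simp
    set B : Set (ST n) := Icc (-1 / 2) T1 ×ˢ Metric.closedBall 0 (|R0| + m + 2) with hB
    have hBm : MeasurableSet B := measurableSet_Icc.prod Metric.isClosed_closedBall.measurableSet
    have hBv : volume B < ⊤ := by
      rw [hB, Measure.volume_eq_prod, Measure.prod_prod]
      exact ENNReal.mul_lt_top (by simp) measure_closedBall_lt_top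
    have hB0 : ∀ z, z ∉ B → gt T1 ψ z = 0 := by
      intro z hz
      by_cases h2 : z.1 ∈ Icc (-1 / 2) T1
      · have h3 : z.2 ∉ Metric.closedBall 0 (|R0| + m + 2) := fun hc => hz ⟨h2, hc⟩
        have h4 : f z.2 = 0 := by
          refine f.zero_of_le_dist ?_
          rw [Metric.mem_closedBall, not_le] at h3
          exact h3.le
        change et T1 z.1 * f z.2 = 0
        rw [h4, mul_zero]
      · have h3 : et T1 z.1 = 0 :=
          image_eq_zero_of_notMem_tsupport fun hc => h2 (et_supp T1 hc)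
        change et T1 z.1 * ψ z.2 = 0
        rw [h3, zero_mul]
    obtain ⟨e, he, hPe⟩ := hP B hBm hBv
    have hbnd : ∀ ε : ℝ, 0 < ε → ∫⁻ z, ENNReal.ofReal (wt T1 ψ z * Bf ε (θ z)) ≤
        ENNReal.ofReal (|C'| * ∫ z, gt T1 ψ z * (3 + 2 * A z)) := by
      intro ε hε
      refine limit_bound h1 hψ hψ0 hψ1 hA ?_ hlim hθA hθm (fun k => (htm k).1) (fun k => (ham k).1)
        he hPe hB0 hε ?_
      · filter_upwards [hb] with z hz k
        exact ⟨(hz k).1, (hz k).2.1⟩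
      · intro k
        have hκ : (0 : ℝ) < (k : ℝ) + 1 := by positivity
        have hd0 : ∀ᵐ z, 0 ≤ ta k z - ‖tk k z‖ ^ 2 := by
          filter_upwards [hb] with z hz
          linarith [(hz k).1]
        have hTE := ren_step hv.memv hren hκ hτ0 (t := tk k) (a := ta k) (by
          filter_upwards [hb] with z hz
          exact ⟨(hz k).1, (hz k).2.2.1, (hz k).2.2.2⟩) (htm k) (ham k) (ht0 k) (ha0 k) (hH k)
          (hQ k) (hH0 k) (hQ0 k) (hTE1 k) (hTE2 k) hε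
        refine tested h1 hv0 hψ hψΩ (κ := ((k : ℝ) + 1) ^ 2) hε (hdm k) ?_ ?_ ?_ hTE
        · filter_upwards [hb] with z hz
          have : 0 ≤ ‖tk k z‖ ^ 2 := by positivity
          exact ⟨by linarith [(hz k).1], by linarith [(hz k).2.2.2]⟩
        · filter_upwards [ht0 k, ha0 k] with z h2 h3 h4
          rw [h2 h4, h3 h4]; simp
        · exact int_gtBdP h1 hψ hψ0 hψ1 (htm k) (hH k) (hQ k) (hdm k) hd0 hε
    have hfin := fatou_log (wt_integrable h1 hψ).1.aemeasurable hθm.aemeasurable hbnd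
    filter_upwards [hfin] with z hz h2 h3 h4
    refine hz (wt_pos ⟨h2, h3⟩ ?_)
    have h5 : f z.2 = 1 := by
      refine f.one_of_mem_closedBall ?_
      rw [mem_closedBall_zero_iff]
      change ‖z.2‖ ≤ |R0| + m + 1
      have := abs_nonneg R0
      linarith
    change 0 < f z.2
    rw [h5]; norm_num
  have key' := ae_all_iff.2 key
  filter_upwards [key'] with z hz hzT
  have hgap : 0 < T - z.1 := by linarith [hzT.2]
  obtain ⟨m1, hm1⟩ := exists_nat_gt (T / (T - z.1))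
  obtain ⟨m2, hm2⟩ := exists_nat_gt ‖z.2‖
  refine hz (max m1 m2) hzT.1 ?_ ?_
  · have h1 : (m1 : ℝ) ≤ ((max m1 m2 : ℕ) : ℝ) := by exact_mod_cast le_max_left m1 m2
    have h2 : T / (T - z.1) < ((max m1 m2 : ℕ) : ℝ) + 2 := by linarith
    have h3 : T / (((max m1 m2 : ℕ) : ℝ) + 2) < T - z.1 := by
      rw [div_lt_iff₀ hgap] at h2
      rw [div_lt_iff₀ (by positivity)]
      linarith
    linarith
  · have h1 : (m2 : ℝ) ≤ ((max m1 m2 : ℕ) : ℝ) := by exact_mod_cast le_max_right m1 m2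
    linarith

end Pool.Agent.Helper50.JT
end
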