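import Pool.Agent.Helper42.JefB.E1

section
/-! # Approximation of data and force; uniform bounds for Galerkin solutions -/

open MeasureTheory Set Filter Topology
open scoped ENNReal NNReal ContDiff

namespace Pool.Agent.Helper42.Jef

set_option maxHeartbeats 400000

variable {n : ℕ} {Ω : Set (Eu n)}

theorem toReal_eLpNorm_sq {α : Type*} [MeasurableSpace α] {μ : Measure α} {E : Type*}
    [NormedAddCommGroup E] [InnerProductSpace ℝ E] {f : α → E} (hf : MemLp f 2 μ) :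
    (eLpNorm f 2 μ).toReal ^ 2 = ∫ x, ‖f x‖ ^ 2 ∂μ := by
  rw [← Lp.norm_toLp f hf, ← real_inner_self_eq_norm_sq, inner_toLp hf hf]
  simp only [real_inner_self_eq_norm_sq]

/-- Riesz representative in finite dimension -/
noncomputable def rz {S : Type*} [NormedAddCommGroup S] [InnerProductSpace ℝ S]
    [FiniteDimensional ℝ S] (Λ : S →ₗ[ℝ] ℝ) : S :=
  ∑ i, Λ (stdOrthonormalBasis ℝ S i) • stdOrthonormalBasis ℝ S i

theorem rz_inner {S : Type*} [NormedAddCommGroup S] [InnerProductSpace ℝ S]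
    [FiniteDimensional ℝ S] (Λ : S →ₗ[ℝ] ℝ) (V : S) : inner ℝ (rz Λ) V = Λ V := by
  have hV : V = ∑ i, inner ℝ (stdOrthonormalBasis ℝ S i) V • stdOrthonormalBasis ℝ S i :=
    ((stdOrthonormalBasis ℝ S).sum_repr' V).symm
  conv_rhs => rw [hV]
  simp only [rz, sum_inner, inner_smul_left, map_sum, map_smul, smul_eq_mul, conj_trivial]
  exact Finset.sum_congr rfl fun i _ => mul_comm _ _

theorem rz_memLp {α : Type*} [MeasurableSpace α] {μ : Measure α} {S : Type*}
    [NormedAddCommGroup S] [InnerProductSpace ℝ S] [FiniteDimensional ℝ S] (Λ : α → S →ₗ[ℝ] ℝ)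
    (h : ∀ V : S, MemLp (fun t => Λ t V) 2 μ) : MemLp (fun t => rz (Λ t)) 2 μ := by
  simp only [rz]
  refine memLp_finsetSum _ fun i _ => ?_
  have h2 := h (stdOrthonormalBasis ℝ S i)
  refine h2.of_le_mul (c := ‖stdOrthonormalBasis ℝ S i‖) (h2.1.smul_const _)
    (Eventually.of_forall fun t => ?_)
  rw [norm_smul, mul_comm]

/-- Riesz representation in finite dimension -/
theorem riesz_fd {S : Type*} [NormedAddCommGroup S] [InnerProductSpace ℝ S]
    [FiniteDimensional ℝ S] (Λ : S →ₗ[ℝ] ℝ) : ∃ w : S, ∀ V, inner ℝ w V = Λ V :=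
  ⟨rz Λ, rz_inner Λ⟩

theorem vf_memLp (V : DD Ω) : MemLp (vf V) 2 volume := memLp_cc (vf_smooth V).continuous (vf_cpt V) 2
theorem tf_memLp (V : DD Ω) : MemLp (tf V) 2 volume := memLp_cc (tf_smooth V).continuous (tf_cpt V) 2

/-- pairing with the initial data -/
noncomputable def initL {v0 : Eu n → Eu n} {τ0 : Eu n → Mt n} (hv0 : MemLp v0 2 volume)
    (hτ0 : MemLp τ0 2 volume) : DD Ω →ₗ[ℝ] ℝ where
  toFun V := (∫ x, inner ℝ (v0 x) (vf V x)) + ∫ x, inner ℝ (τ0 x) (tf V x)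
  map_add' V W := by
    simp only [vf_add, tf_add, Pi.add_apply, inner_add_right]
    rw [integral_add (memLp_inner_integrable hv0 (vf_memLp V))
      (memLp_inner_integrable hv0 (vf_memLp W)),
      integral_add (memLp_inner_integrable hτ0 (tf_memLp V))
      (memLp_inner_integrable hτ0 (tf_memLp W))]
    ring
  map_smul' c V := by
    simp only [vf_smul, tf_smul, Pi.smul_apply, inner_smul_right, RingHom.id_apply, smul_eq_mul]
    rw [integral_const_mul, integral_const_mul]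
    ring

theorem initL_le {v0 : Eu n → Eu n} {τ0 : Eu n → Mt n} (hv0 : MemLp v0 2 volume)
    (hτ0 : MemLp τ0 2 volume) (V : DD Ω) : initL hv0 hτ0 V ≤
      Real.sqrt ((∫ x, ‖v0 x‖ ^ 2) + ∫ x, ‖τ0 x‖ ^ 2) * ‖V‖ := by
  have h1 : initL hv0 hτ0 V = (∫ x, inner ℝ (v0 x) (vf V x)) + ∫ x, inner ℝ (τ0 x) (tf V x) := rfl
  rw [h1]
  have h2 := (le_abs_self _).trans (integral_inner_le hv0 (vf_memLp V))
  have h3 := (le_abs_self _).trans (integral_inner_le hτ0 (tf_memLp V))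
  have e1 := toReal_eLpNorm_sq hv0
  have e2 := toReal_eLpNorm_sq hτ0
  have e3 := toReal_eLpNorm_sq (vf_memLp V)
  have e4 := toReal_eLpNorm_sq (tf_memLp V)
  set p := (eLpNorm v0 2 volume).toReal
  set q := (eLpNorm τ0 2 volume).toReal
  set r := (eLpNorm (vf V) 2 volume).toReal
  set s := (eLpNorm (tf V) 2 volume).toReal
  have hV : ‖V‖ = Real.sqrt (r ^ 2 + s ^ 2) := by
    rw [e3, e4, ← dd_norm_sq, Real.sqrt_sq (norm_nonneg _)]
  rw [← e1, ← e2, hV, ← Real.sqrt_mul (by positivity)]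
  refine (add_le_add h2 h3).trans (Real.le_sqrt_of_sq_le ?_)
  nlinarith [sq_nonneg (p * s - q * r)]

theorem init_exists {v0 : Eu n → Eu n} {τ0 : Eu n → Mt n} (hv0 : MemLp v0 2 volume)
    (hτ0 : MemLp τ0 2 volume) (S : Submodule ℝ (DD Ω)) [FiniteDimensional ℝ S] :
    ∃ w : S, (∀ V : S, inner ℝ w V = initL hv0 hτ0 (V : DD Ω)) ∧
      ‖w‖ ^ 2 ≤ (∫ x, ‖v0 x‖ ^ 2) + ∫ x, ‖τ0 x‖ ^ 2 := by
  obtain ⟨w, hw⟩ := riesz_fd ((initL hv0 hτ0).comp S.subtype)
  refine ⟨w, fun V => hw V, ?_⟩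
  have h1 : ‖w‖ ^ 2 = initL hv0 hτ0 (w : DD Ω) := by
    rw [← real_inner_self_eq_norm_sq]; exact hw w
  have h2 := initL_le hv0 hτ0 (w : DD Ω)
  have h3 : ‖(w : DD Ω)‖ = ‖w‖ := rfl
  rw [h3] at h2
  set X := (∫ x, ‖v0 x‖ ^ 2) + ∫ x, ‖τ0 x‖ ^ 2
  have hX : 0 ≤ X := add_nonneg (integral_nonneg fun x => by positivity)
    (integral_nonneg fun x => by positivity)
  rw [← h1] at h2
  have h4 : ‖w‖ ≤ Real.sqrt X := by
    rcases eq_or_lt_of_le (norm_nonneg w) with h | h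
    · rw [← h]; exact Real.sqrt_nonneg _
    · rw [sq] at h2
      exact le_of_mul_le_mul_right h2 h
  calc ‖w‖ ^ 2 ≤ Real.sqrt X ^ 2 := pow_le_pow_left₀ (norm_nonneg _) h4 2
    _ = X := Real.sq_sqrt hX

/-! ## force -/

/-- the force as a linear functional on pairs of test fields -/
noncomputable def forceL {f : ℝ → (Eu n → Eu n) → ℝ} {g : ℝ → ℝ} (hf : IsForce Ω f g) (t : ℝ) :
    DD Ω →ₗ[ℝ] ℝ where
  toFun V := f t (vf V)
  map_add' V W := hf.add t _ _ (vf_vt V) (vf_vt W)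
  map_smul' c V := hf.smul t c _ (vf_vt V)

@[simp] theorem forceL_apply {f : ℝ → (Eu n → Eu n) → ℝ} {g : ℝ → ℝ} (hf : IsForce Ω f g) (t : ℝ)
    (V : DD Ω) : forceL hf t V = f t (vf V) := rfl

/-- Riesz representative of the force in a finite dimensional subspace -/
noncomputable def forceR {f : ℝ → (Eu n → Eu n) → ℝ} {g : ℝ → ℝ} (hf : IsForce Ω f g)
    (S : Submodule ℝ (DD Ω)) [FiniteDimensional ℝ S] (t : ℝ) : S :=
  rz ((forceL hf t).comp S.subtype)

theorem forceR_inner {f : ℝ → (Eu n → Eu n) → ℝ} {g : ℝ → ℝ} (hf : IsForce Ω f g)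
    (S : Submodule ℝ (DD Ω)) [FiniteDimensional ℝ S] (t : ℝ) (V : S) :
    inner ℝ (forceR hf S t) V = f t (vf (V : DD Ω)) := rz_inner _ _

theorem force_memLp {f : ℝ → (Eu n → Eu n) → ℝ} {g : ℝ → ℝ} (hf : IsForce Ω f g) (T : ℝ)
    {φ : Eu n → Eu n} (hφ : IsVT Ω φ) : MemLp (fun t => f t φ) 2 (volume.restrict (Ioo 0 T)) := by
  have hg : MemLp g 2 (volume.restrict (Ioo 0 T)) := by
    rw [memLp_two_iff_integrable_sq hf.gmeas.restrict]
    exact hf.gint T
  refine hg.of_le_mul (c := Real.sqrt ((∫ x, ‖φ x‖ ^ 2) + ∫ x, ‖grad φ x‖ ^ 2))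
    (hf.meas φ hφ).restrict (Eventually.of_forall fun t => ?_)
  rw [Real.norm_eq_abs, Real.norm_eq_abs, abs_of_nonneg (hf.gnn t), mul_comm]
  exact hf.bound t φ hφ

theorem forceR_memLp {f : ℝ → (Eu n → Eu n) → ℝ} {g : ℝ → ℝ} (hf : IsForce Ω f g)
    (S : Submodule ℝ (DD Ω)) [FiniteDimensional ℝ S] (T : ℝ) :
    MemLp (forceR hf S) 2 (volume.restrict (Ioo 0 T)) :=
  rz_memLp (fun t => (forceL hf t).comp S.subtype) fun V => force_memLp hf T (vf_vt (V : DD Ω))

theorem force_approx {f : ℝ → (Eu n → Eu n) → ℝ} {g : ℝ → ℝ} (hf : IsForce Ω f g)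
    (S : Submodule ℝ (DD Ω)) [FiniteDimensional ℝ S] (T : ℝ) {ε : ℝ} (hε : 0 < ε) :
    ∃ F : ℝ → S, Continuous F ∧
      eLpNorm (fun t => forceR hf S t - F t) 2 (volume.restrict (Ioo 0 T)) ≤ ENNReal.ofReal ε := by
  obtain ⟨F, -, h2, h3, -⟩ := (forceR_memLp hf S T).exists_hasCompactSupport_eLpNorm_sub_le
    (by norm_num) (ε := ENNReal.ofReal ε) (by simpa using hε)
  exact ⟨F, h3, h2⟩

end Pool.Agent.Helper42.Jef
end

section
/-! # Galerkin solutions with uniform bounds -/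

open MeasureTheory Set Filter Topology
open scoped ENNReal NNReal ContDiff

namespace Pool.Agent.Helper42.Jef

set_option maxHeartbeats 400000

variable {n : ℕ} {Ω : Set (Eu n)}

/-- the uniform bound -/
noncomputable def Mb (μ X : ℝ) (g : ℝ → ℝ) (T : ℝ) : ℝ :=
  Real.exp T * (X + (2 + 1 / μ) * (∫ t in Ioo 0 T, g t ^ 2) + 2) * (1 + 1 / μ)

theorem Mb_nonneg {μ X : ℝ} (hμ : 0 < μ) (hX : 0 ≤ X) (g : ℝ → ℝ) (T : ℝ) : 0 ≤ Mb μ X g T := by
  unfold Mb
  have h1 : 0 ≤ ∫ t in Ioo 0 T, g t ^ 2 := integral_nonneg fun t => by positivity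
  positivity

theorem gal_package (hΩ : MeasurableSet Ω) {δ : ℝ} (hδ : 0 < δ) {T μ a : ℝ} (hT : 0 < T)
    (hμ : 0 < μ) (ha : 0 ≤ a) (c : ℝ) {f : ℝ → (Eu n → Eu n) → ℝ} {g : ℝ → ℝ}
    (hf : IsForce Ω f g) {v0 : Eu n → Eu n} {τ0 : Eu n → Mt n} (hv0 : MemLp v0 2 volume)
    (hτ0 : MemLp τ0 2 volume) (S : Submodule ℝ (DD Ω)) [FiniteDimensional ℝ S]
    {ε : ℝ} (hε : 0 < ε) (hε1 : ε ≤ 1) :
    ∃ F U : ℝ → S, Continuous F ∧ IsGal hΩ hδ T μ a c S F U ∧
      (∀ V : S, inner ℝ (U 0) V = initL hv0 hτ0 (V : DD Ω)) ∧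
      eLpNorm (fun t => forceR hf S t - F t) 2 (volume.restrict (Ioo 0 T)) ≤ ENNReal.ofReal ε ∧
      ∀ T' : ℝ, 0 ≤ T' → T' ≤ T →
        (∀ t ∈ Icc 0 T', ‖U t‖ ^ 2 ≤
          Mb μ ((∫ x, ‖v0 x‖ ^ 2) + ∫ x, ‖τ0 x‖ ^ 2) g T') ∧
        ∫ s in Ioo 0 T', dir (U s : DD Ω) ≤
          Mb μ ((∫ x, ‖v0 x‖ ^ 2) + ∫ x, ‖τ0 x‖ ^ 2) g T' := by
  set X := (∫ x, ‖v0 x‖ ^ 2) + ∫ x, ‖τ0 x‖ ^ 2 with hXdef
  have hX : 0 ≤ X := add_nonneg (integral_nonneg fun x => by positivity)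
    (integral_nonneg fun x => by positivity)
  obtain ⟨w, hw1, hw2⟩ := init_exists hv0 hτ0 S
  obtain ⟨F, hFc, hF⟩ := force_approx hf S T hε
  obtain ⟨U, hU0, hU⟩ := gal_exists hΩ hδ hT hμ.le ha c S F hFc w
  refine ⟨F, U, hFc, hU, fun V => by rw [hU0]; exact hw1 V, hF, ?_⟩
  -- the error function
  let e : ℝ → ℝ := fun t => ‖forceR hf S t - F t‖
  have hFm : MemLp (fun t => forceR hf S t - F t) 2 (volume.restrict (Ioo 0 T)) := by
    refine ⟨(forceR_memLp hf S T).1.sub hFc.aestronglyMeasurable, ?_⟩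
    exact hF.trans_lt ENNReal.ofReal_lt_top
  have hem : MemLp e 2 (volume.restrict (Ioo 0 T)) := hFm.norm
  have hgm : MemLp g 2 (volume.restrict (Ioo 0 T)) := by
    rw [memLp_two_iff_integrable_sq hf.gmeas.restrict]
    exact hf.gint T
  have hei : IntegrableOn (fun t => e t ^ 2) (Ioo 0 T) := hem.integrable_sq
  have hgei : IntegrableOn (fun t => (g t + e t) ^ 2) (Ioo 0 T) := (hgm.add hem).integrable_sq
  have he1 : ∫ t in Ioo 0 T, e t ^ 2 ≤ 1 := by
    have h1 := toReal_eLpNorm_sq hFm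
    have h2 : (eLpNorm (fun t => forceR hf S t - F t) 2 (volume.restrict (Ioo 0 T))).toReal ≤ 1 := by
      refine (ENNReal.toReal_le_of_le_ofReal hε.le hF).trans hε1
    rw [← h1]
    have h3 : 0 ≤ (eLpNorm (fun t => forceR hf S t - F t) 2
      (volume.restrict (Ioo 0 T))).toReal := ENNReal.toReal_nonneg
    nlinarith
  have hFb : ∀ᵐ t ∂(volume.restrict (Ioo 0 T)), ∀ V : S, |inner ℝ (F t) V| ≤
      g t * Real.sqrt ((∫ x, ‖vf (V : DD Ω) x‖ ^ 2) + ∫ x, ‖grad (vf (V : DD Ω)) x‖ ^ 2) +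
        e t * ‖V‖ := by
    refine Eventually.of_forall fun t V => ?_
    have h1 : inner ℝ (F t) V = inner ℝ (forceR hf S t) V - inner ℝ (forceR hf S t - F t) V := by
      rw [inner_sub_left]; ring
    rw [h1, forceR_inner]
    refine (abs_sub _ _).trans (add_le_add (hf.bound t _ (vf_vt _)) ?_)
    exact abs_real_inner_le_norm _ _
  intro T' hT'0 hT'T
  have hen : ∀ t ∈ Icc 0 T', Real.exp (-t) * ‖U t‖ ^ 2 +
      ∫ s in Ioo 0 t, Real.exp (-s) * (μ * dir (U s : DD Ω)) ≤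
      X + (2 + 1 / μ) * (∫ t in Ioo 0 T', g t ^ 2) + 2 := by
    intro t ht
    have ht' : t ∈ Icc 0 T := ⟨ht.1, ht.2.trans hT'T⟩
    refine (gal_energy hU hFc hT hμ ha hf.gnn (fun t => norm_nonneg _) (hf.gint T) hgei hFb
      ht').trans ?_
    rw [hU0]
    have hsub : Ioo 0 t ⊆ Ioo 0 T := Ioo_subset_Ioo le_rfl ht'.2
    have hsub' : Ioo 0 t ⊆ Ioo 0 T' := Ioo_subset_Ioo le_rfl ht.2
    have i1 : IntegrableOn (fun s => (g s + e s) ^ 2 + g s ^ 2 / μ) (Ioo 0 t) :=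
      (hgei.mono_set hsub).add (((hf.gint T).mono_set hsub).div_const μ)
    have i2 : IntegrableOn (fun s => (2 + 1 / μ) * g s ^ 2 + 2 * e s ^ 2) (Ioo 0 t) :=
      (((hf.gint T).mono_set hsub).const_mul _).add ((hei.mono_set hsub).const_mul _)
    have h1 : ∫ s in Ioo 0 t, ((g s + e s) ^ 2 + g s ^ 2 / μ) ≤
        ∫ s in Ioo 0 t, ((2 + 1 / μ) * g s ^ 2 + 2 * e s ^ 2) := by
      refine setIntegral_mono_on i1 i2 measurableSet_Ioo fun s _ => ?_
      have h2 : g s ^ 2 / μ = 1 / μ * g s ^ 2 := by ring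
      rw [h2]
      nlinarith [sq_nonneg (g s - e s)]
    have h2 : ∫ s in Ioo 0 t, ((2 + 1 / μ) * g s ^ 2 + 2 * e s ^ 2) =
        (2 + 1 / μ) * (∫ s in Ioo 0 t, g s ^ 2) + 2 * ∫ s in Ioo 0 t, e s ^ 2 := by
      rw [integral_add (((hf.gint T).mono_set hsub).const_mul _) ((hei.mono_set hsub).const_mul _),
        integral_const_mul, integral_const_mul]
    have h3 : ∫ s in Ioo 0 t, g s ^ 2 ≤ ∫ s in Ioo 0 T', g s ^ 2 :=
      setIntegral_mono_set (hf.gint T') (Eventually.of_forall fun s => by positivity)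
        (HasSubset.Subset.eventuallyLE hsub')
    have h4 : ∫ s in Ioo 0 t, e s ^ 2 ≤ ∫ s in Ioo 0 T, e s ^ 2 :=
      setIntegral_mono_set hei (Eventually.of_forall fun s => by positivity)
        (HasSubset.Subset.eventuallyLE hsub)
    have h5 : 0 ≤ 2 + 1 / μ := by positivity
    have h6 := mul_le_mul_of_nonneg_left h3 h5
    linarith
  set K := X + (2 + 1 / μ) * (∫ t in Ioo 0 T', g t ^ 2) + 2 with hK
  have hK0 : 0 ≤ K := by
    have h1 : 0 ≤ ∫ t in Ioo 0 T', g t ^ 2 := integral_nonneg fun t => by positivity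
    positivity
  have hMb : Mb μ X g T' = Real.exp T' * K * (1 + 1 / μ) := rfl
  have hEK : 0 ≤ Real.exp T' * K := by positivity
  have hμ1 : 0 ≤ 1 / μ := by positivity
  constructor
  · intro t ht
    have h1 := hen t ht
    have h2 : 0 ≤ ∫ s in Ioo 0 t, Real.exp (-s) * (μ * dir (U s : DD Ω)) :=
      integral_nonneg fun s => mul_nonneg (Real.exp_pos _).le (mul_nonneg hμ.le (dir_nonneg _))
    have h3 : Real.exp (-t) * ‖U t‖ ^ 2 ≤ K := by linarith
    have h4 : ‖U t‖ ^ 2 ≤ Real.exp t * K := by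
      calc ‖U t‖ ^ 2 = Real.exp t * (Real.exp (-t) * ‖U t‖ ^ 2) := by
            rw [← mul_assoc, ← Real.exp_add]; simp
        _ ≤ Real.exp t * K := mul_le_mul_of_nonneg_left h3 (Real.exp_pos _).le
    have h5 : Real.exp t * K ≤ Real.exp T' * K :=
      mul_le_mul_of_nonneg_right (Real.exp_le_exp.2 ht.2) hK0
    rw [hMb]
    nlinarith
  · have h1 := hen T' ⟨hT'0, le_rfl⟩
    have h2 : 0 ≤ Real.exp (-T') * ‖U T'‖ ^ 2 := by positivity
    have h3 : ∫ s in Ioo 0 T', Real.exp (-s) * (μ * dir (U s : DD Ω)) ≤ K := by linarith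
    have hdc : Continuous fun s => dir (U s : DD Ω) := dir_cont hU.cont
    have i1 : IntegrableOn (fun s => Real.exp (-T') * (μ * dir (U s : DD Ω))) (Ioo 0 T') :=
      (((continuous_const.mul (continuous_const.mul hdc))).integrableOn_Icc
        (a := 0) (b := T')).mono_set Ioo_subset_Icc_self
    have i2 : IntegrableOn (fun s => Real.exp (-s) * (μ * dir (U s : DD Ω))) (Ioo 0 T') :=
      (((Real.continuous_exp.comp continuous_neg).mul (continuous_const.mul hdc)).integrableOn_Icc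
        (a := 0) (b := T')).mono_set Ioo_subset_Icc_self
    have h4 : ∫ s in Ioo 0 T', Real.exp (-T') * (μ * dir (U s : DD Ω)) ≤ K := by
      refine (setIntegral_mono_on i1 i2 measurableSet_Ioo fun s hs => ?_).trans h3
      refine mul_le_mul_of_nonneg_right (Real.exp_le_exp.2 (by linarith [hs.2]))
        (mul_nonneg hμ.le (dir_nonneg _))
    rw [integral_const_mul, integral_const_mul] at h4
    set D := ∫ s in Ioo 0 T', dir (U s : DD Ω)
    have h5 : D ≤ Real.exp T' * K * (1 / μ) := by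
      have h6 : D = Real.exp T' * (Real.exp (-T') * (μ * D)) * (1 / μ) := by
        have h7 : Real.exp T' * (Real.exp (-T') * (μ * D)) = μ * D := by
          rw [← mul_assoc, ← Real.exp_add]; simp
        rw [h7]; field_simp
      rw [h6]
      exact mul_le_mul_of_nonneg_right (mul_le_mul_of_nonneg_left h4 (Real.exp_pos _).le) hμ1
    rw [hMb]
    nlinarith

end Pool.Agent.Helper42.Jef
end

section
/-! # Space-time bounds of Galerkin curves -/

open MeasureTheory Set Filter Topology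
open scoped ENNReal NNReal ContDiff

namespace Pool.Agent.Helper42.Jef

set_option maxHeartbeats 400000

variable {n : ℕ} {Ω : Set (Eu n)}

theorem lint_slab {u : ST n → ℝ≥0∞} (hu : AEMeasurable u volume) {I : Set ℝ} :
    ∫⁻ z in I ×ˢ (univ : Set (Eu n)), u z = ∫⁻ t in I, ∫⁻ x, u (t, x) := by
  have hvol : (volume : Measure (ST n)) = (volume : Measure ℝ).prod (volume : Measure (Eu n)) := rfl
  have h1 : (volume : Measure (ST n)).restrict (I ×ˢ (univ : Set (Eu n))) =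
      ((volume : Measure ℝ).restrict I).prod (volume : Measure (Eu n)) := by
    rw [hvol, ← Measure.prod_restrict, Measure.restrict_univ]
  rw [h1, lintegral_prod]
  rw [← h1]
  exact hu.restrict

theorem lint_sq_slab {E : Type*} [NormedAddCommGroup E] {u : ST n → E}
    (hu : AEStronglyMeasurable u volume) {I : Set ℝ} :
    ∫⁻ z in I ×ˢ (univ : Set (Eu n)), ‖u z‖ₑ ^ 2 = ∫⁻ t in I, ∫⁻ x, ‖u (t, x)‖ₑ ^ 2 :=
  lint_slab (hu.enorm.pow_const 2)

theorem lint_sq_real {α : Type*} [MeasurableSpace α] {μ : Measure α} {E : Type*}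
    [NormedAddCommGroup E] [InnerProductSpace ℝ E] {u : α → E} (hu : MemLp u 2 μ) :
    ∫⁻ x, ‖u x‖ₑ ^ 2 ∂μ = ENNReal.ofReal (∫ x, ‖u x‖ ^ 2 ∂μ) := by
  rw [lint_sq_eq, ← toReal_eLpNorm_sq hu, ENNReal.ofReal_pow ENNReal.toReal_nonneg,
    ENNReal.ofReal_toReal hu.2.ne]

theorem slab_bound {E : Type*} [NormedAddCommGroup E] {u : ST n → E}
    (hu : AEStronglyMeasurable u volume) {I : Set ℝ} (hI : MeasurableSet I) {M : ℝ}
    (h : ∀ t ∈ I, ∫⁻ x, ‖u (t, x)‖ₑ ^ 2 ≤ ENNReal.ofReal M) :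
    ∫⁻ z in I ×ˢ (univ : Set (Eu n)), ‖u z‖ₑ ^ 2 ≤ ENNReal.ofReal M * volume I := by
  rw [lint_sq_slab hu]
  calc ∫⁻ t in I, ∫⁻ x, ‖u (t, x)‖ₑ ^ 2 ≤ ∫⁻ _ in I, ENNReal.ofReal M :=
        setLIntegral_mono' hI h
    _ = ENNReal.ofReal M * volume I := setLIntegral_const _ _

theorem gv_slice_lint {T : ℝ} {W : ℝ → DD Ω} {M : ℝ} (t : ℝ)
    (h : t ∈ Ioo 0 T → ‖W t‖ ^ 2 ≤ M) :
    ∫⁻ x, ‖gv T W (t, x)‖ₑ ^ 2 ≤ ENNReal.ofReal M := by
  by_cases ht : t ∈ Ioo 0 T
  · simp only [gv, indicator_of_mem ht]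
    rw [lint_sq_real (vf_memLp (W t))]
    exact ENNReal.ofReal_le_ofReal ((vsq_le _).trans (h ht))
  · simp only [gv, indicator_of_notMem ht, enorm_zero]
    simp

theorem tsq_le (W : DD Ω) : ∫ x, ‖tf W x‖ ^ 2 ≤ ‖W‖ ^ 2 := by
  rw [dd_norm_sq]
  have : 0 ≤ ∫ x, ‖vf W x‖ ^ 2 := integral_nonneg fun x => by positivity
  linarith

theorem gt_slice_lint {T : ℝ} {W : ℝ → DD Ω} {M : ℝ} (t : ℝ)
    (h : t ∈ Ioo 0 T → ‖W t‖ ^ 2 ≤ M) :
    ∫⁻ x, ‖gt T W (t, x)‖ₑ ^ 2 ≤ ENNReal.ofReal M := by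
  by_cases ht : t ∈ Ioo 0 T
  · simp only [gt, indicator_of_mem ht]
    rw [lint_sq_real (tf_memLp (W t))]
    exact ENNReal.ofReal_le_ofReal ((tsq_le _).trans (h ht))
  · simp only [gt, indicator_of_notMem ht, enorm_zero]
    simp

theorem grad_memLp (V : DD Ω) : MemLp (grad (vf V)) 2 volume :=
  memLp_cc (vf_vt V).grad_cont (vf_vt V).grad_cpt 2

theorem gG_slab {T T' : ℝ} (hTT : T' ≤ T) {W : ℝ → DD Ω}
    (hm : AEStronglyMeasurable (gG T W) volume)
    (hd : IntegrableOn (fun t => dir (W t)) (Ioo 0 T')) :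
    ∫⁻ z in Ioo 0 T' ×ˢ (univ : Set (Eu n)), ‖gG T W z‖ₑ ^ 2 =
      ENNReal.ofReal (∫ t in Ioo 0 T', dir (W t)) := by
  rw [lint_sq_slab hm, ofReal_integral_eq_lintegral_ofReal hd
    (Eventually.of_forall fun t => dir_nonneg _)]
  refine setLIntegral_congr_fun measurableSet_Ioo fun t ht => ?_
  have ht' : t ∈ Ioo 0 T := ⟨ht.1, ht.2.trans_le hTT⟩
  simp only [gG, indicator_of_mem ht']
  rw [lint_sq_real (grad_memLp (W t))]
  rfl

/-- `L²` bound of the whole field from the slab bound -/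
theorem eLpNorm_of_slab {E : Type*} [NormedAddCommGroup E] {u : ST n → E} {T : ℝ}
    (h0 : ∀ z : ST n, z.1 ∉ Ioo 0 T → u z = 0) {X : ℝ≥0∞}
    (h : ∫⁻ z in Ioo 0 T ×ˢ (univ : Set (Eu n)), ‖u z‖ₑ ^ 2 ≤ X) :
    eLpNorm u 2 volume ≤ X ^ (1 / 2 : ℝ) := by
  rw [eLpNorm_two_eq]
  refine ENNReal.rpow_le_rpow ?_ (by norm_num)
  have h1 : ∫⁻ z : ST n, ‖u z‖ₑ ^ 2 = ∫⁻ z in Ioo 0 T ×ˢ (univ : Set (Eu n)), ‖u z‖ₑ ^ 2 := by
    rw [← lintegral_indicator (measurableSet_Ioo.prod MeasurableSet.univ)]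
    refine lintegral_congr fun z => ?_
    by_cases hz : z ∈ Ioo 0 T ×ˢ (univ : Set (Eu n))
    · simp only [indicator_of_mem hz]
    · have hz' : z.1 ∉ Ioo 0 T := fun hc => hz ⟨hc, trivial⟩
      simp only [indicator_of_notMem hz, h0 z hz', enorm_zero]
      simp
  rw [h1]
  exact h

theorem gv_zero_out {T : ℝ} {W : ℝ → DD Ω} (z : ST n) (hz : z.1 ∉ Ioo 0 T) : gv T W z = 0 := by
  simp only [gv, indicator_of_notMem hz]
theorem gG_zero_out {T : ℝ} {W : ℝ → DD Ω} (z : ST n) (hz : z.1 ∉ Ioo 0 T) : gG T W z = 0 := by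
  simp only [gG, indicator_of_notMem hz]
theorem gt_zero_out {T : ℝ} {W : ℝ → DD Ω} (z : ST n) (hz : z.1 ∉ Ioo 0 T) : gt T W z = 0 := by
  simp only [gt, indicator_of_notMem hz]

end Pool.Agent.Helper42.Jef
end

section
/-! # Time regularity of Galerkin curves -/

open MeasureTheory Set Filter Topology
open scoped ENNReal NNReal ContDiff

namespace Pool.Agent.Helper42.Jef

set_option maxHeartbeats 400000

variable {n : ℕ} {Ω : Set (Eu n)}

theorem cs_norm {α : Type*} [MeasurableSpace α] {μ : Measure α} {E F : Type*}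
    [NormedAddCommGroup E] [NormedAddCommGroup F] {f : α → E} {g : α → F}
    (hf : MemLp f 2 μ) (hg : MemLp g 2 μ) :
    ∫ x, ‖f x‖ * ‖g x‖ ∂μ ≤ Real.sqrt (∫ x, ‖f x‖ ^ 2 ∂μ) * Real.sqrt (∫ x, ‖g x‖ ^ 2 ∂μ) := by
  have hf' : MemLp (fun x => ‖f x‖) 2 μ := hf.norm
  have hg' : MemLp (fun x => ‖g x‖) 2 μ := hg.norm
  have h1 := (le_abs_self _).trans (integral_inner_le hf' hg')
  have e1 := toReal_eLpNorm_sq hf'
  have e2 := toReal_eLpNorm_sq hg'
  simp only [norm_norm] at e1 e2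
  rw [← e1, ← e2, Real.sqrt_sq ENNReal.toReal_nonneg, Real.sqrt_sq ENNReal.toReal_nonneg]
  refine le_trans (le_of_eq ?_) h1
  refine integral_congr_ae (Eventually.of_forall fun x => ?_)
  simp only [RCLike.inner_apply, conj_trivial]
  ring

theorem int_lc2 {α : Type*} [MeasurableSpace α] {μ : Measure α} {f g : α → ℝ}
    (hf : Integrable f μ) (hg : Integrable g μ) (a b : ℝ) :
    ∫ x, (a * f x + b * g x) ∂μ = a * (∫ x, f x ∂μ) + b * ∫ x, g x ∂μ := by
  rw [integral_add (hf.const_mul _) (hg.const_mul _), integral_const_mul, integral_const_mul]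

theorem int_lc3 {α : Type*} [MeasurableSpace α] {μ : Measure α} {f g h : α → ℝ}
    (hf : Integrable f μ) (hg : Integrable g μ) (hh : Integrable h μ) (a b c : ℝ) :
    ∫ x, (a * f x + b * g x + c * h x) ∂μ =
      a * (∫ x, f x ∂μ) + b * (∫ x, g x ∂μ) + c * ∫ x, h x ∂μ := by
  have h1 : Integrable (fun x => a * f x + b * g x) μ := (hf.const_mul _).add (hg.const_mul _)
  rw [integral_add h1 (hh.const_mul _), int_lc2 hf hg, integral_const_mul]

theorem int_lc4 {α : Type*} [MeasurableSpace α] {μ : Measure α} {f g h k : α → ℝ}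
    (hf : Integrable f μ) (hg : Integrable g μ) (hh : Integrable h μ) (hk : Integrable k μ)
    (a b c d : ℝ) : ∫ x, (a * f x + b * g x + c * h x + d * k x) ∂μ =
      a * (∫ x, f x ∂μ) + b * (∫ x, g x ∂μ) + c * (∫ x, h x ∂μ) + d * ∫ x, k x ∂μ := by
  have h1 : Integrable (fun x => a * f x + b * g x + c * h x) μ :=
    ((hf.const_mul _).add (hg.const_mul _)).add (hh.const_mul _)
  rw [integral_add h1 (hk.const_mul _), int_lc3 hf hg hh, integral_const_mul]

theorem sqrt_vsq_le (W : DD Ω) : Real.sqrt (∫ x, ‖vf W x‖ ^ 2) ≤ ‖W‖ := by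
  rw [Real.sqrt_le_left (norm_nonneg _)]
  exact vsq_le W

theorem sqrt_tsq_le (W : DD Ω) : Real.sqrt (∫ x, ‖tf W x‖ ^ 2) ≤ ‖W‖ := by
  rw [Real.sqrt_le_left (norm_nonneg _)]
  exact tsq_le W

theorem sm_le {δ : ℝ} (hδ : 0 < δ) : ∃ C : ℝ, 0 ≤ C ∧ ∀ (U : DD Ω) (x : Eu n),
    ‖sm δ U x‖ ≤ C * Real.sqrt (dir U) := by
  refine ⟨Real.sqrt (∫ y : Eu n, ‖ro δ y‖ ^ 2), Real.sqrt_nonneg _, fun U x => ?_⟩
  have h0 : 0 ≤ Real.sqrt (∫ y : Eu n, ‖ro δ y‖ ^ 2) * Real.sqrt (dir U) := by positivity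
  by_cases hx : x ∈ Ω
  · simp only [sm, indicator_of_mem hx]
    have hm : MemLp (fun y : Eu n => ro δ (x - y)) 2 volume := by
      refine memLp_cc ((ro_cont δ).comp (continuous_const.sub continuous_id)) ?_ 2
      have := (ro_cpt (n := n) hδ).comp_homeomorph (Homeomorph.subLeft x)
      exact this
    have h1 := cs_norm hm (grad_memLp U)
    have h2 : ∫ y : Eu n, ‖ro δ (x - y)‖ ^ 2 = ∫ y : Eu n, ‖ro δ y‖ ^ 2 :=
      integral_sub_left_eq_self (fun y : Eu n => ‖ro δ y‖ ^ 2) volume x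
    rw [h2] at h1
    refine le_trans ((norm_integral_le_integral_norm _).trans ?_) h1
    refine integral_mono_of_nonneg (Eventually.of_forall fun y => norm_nonneg _) ?_
      (Eventually.of_forall fun y => ?_)
    · exact hm.norm.integrable_mul (grad_memLp U).norm
    · show ‖ro δ (x - y) • sp (grad (vf U) y)‖ ≤ ‖ro δ (x - y)‖ * ‖grad (vf U) y‖
      rw [norm_smul]
      exact mul_le_mul_of_nonneg_left (norm_sp_le _) (norm_nonneg _)
  · simp only [sm, indicator_of_notMem hx, norm_zero]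
    exact h0

theorem bform_bound (hΩ : MeasurableSet Ω) {δ : ℝ} (hδ : 0 < δ) (Z : DD Ω) :
    ∃ K : ℝ, 0 ≤ K ∧ ∀ U : DD Ω,
      |bform hΩ hδ U U Z| ≤ K * (‖U‖ ^ 2 + Real.sqrt (dir U) * ‖U‖) := by
  obtain ⟨C0, hC00, hC0⟩ := sm_le (Ω := Ω) hδ
  have hd1 : Continuous (fderiv ℝ (vf Z)) := (vf_smooth Z).continuous_fderiv (by simp)
  obtain ⟨C1, hC1⟩ := hd1.bounded_above_of_compact_support ((vf_cpt Z).fderiv (𝕜 := ℝ))
  have hd2 : Continuous (fderiv ℝ (tf Z)) := (tf_smooth Z).continuous_fderiv (by simp)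
  obtain ⟨C2, hC2⟩ := hd2.bounded_above_of_compact_support ((tf_cpt Z).fderiv (𝕜 := ℝ))
  have hC10 : 0 ≤ C1 := (norm_nonneg _).trans (hC1 0)
  have hC20 : 0 ≤ C2 := (norm_nonneg _).trans (hC2 0)
  refine ⟨C1 + C2 + 2 * C0 * ‖Z‖, by positivity, fun U => ?_⟩
  set s := Real.sqrt (dir U) with hs
  have hs0 : 0 ≤ s := Real.sqrt_nonneg _
  rw [bform_apply]
  have i1 : Integrable (fun x => ‖vf U x‖ * ‖vf U x‖) :=
    (vf_memLp U).norm.integrable_mul (vf_memLp U).norm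
  have i2 : Integrable (fun x => ‖tf U x‖ * ‖vf U x‖) :=
    (tf_memLp U).norm.integrable_mul (vf_memLp U).norm
  have i3 : Integrable (fun x => ‖tf U x‖ * ‖tf Z x‖) :=
    (tf_memLp U).norm.integrable_mul (tf_memLp Z).norm
  have hpt : ∀ x, ‖Ib δ U U Z x‖ ≤ C1 * (‖vf U x‖ * ‖vf U x‖) + C2 * (‖tf U x‖ * ‖vf U x‖) +
      (2 * C0 * s) * (‖tf U x‖ * ‖tf Z x‖) := by
    intro x
    have b1 : |inner ℝ (vf U x) (fderiv ℝ (vf Z) x (vf U x))| ≤ C1 * (‖vf U x‖ * ‖vf U x‖) := by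
      refine (abs_real_inner_le_norm _ _).trans ?_
      have := (ContinuousLinearMap.le_opNorm (fderiv ℝ (vf Z) x) (vf U x)).trans
        (mul_le_mul_of_nonneg_right (hC1 x) (norm_nonneg _))
      calc ‖vf U x‖ * ‖fderiv ℝ (vf Z) x (vf U x)‖ ≤ ‖vf U x‖ * (C1 * ‖vf U x‖) :=
            mul_le_mul_of_nonneg_left this (norm_nonneg _)
        _ = _ := by ring
    have b2 : |inner ℝ (tf U x) (fderiv ℝ (tf Z) x (vf U x))| ≤ C2 * (‖tf U x‖ * ‖vf U x‖) := by
      refine (abs_real_inner_le_norm _ _).trans ?_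
      have := (ContinuousLinearMap.le_opNorm (fderiv ℝ (tf Z) x) (vf U x)).trans
        (mul_le_mul_of_nonneg_right (hC2 x) (norm_nonneg _))
      calc ‖tf U x‖ * ‖fderiv ℝ (tf Z) x (vf U x)‖ ≤ ‖tf U x‖ * (C2 * ‖vf U x‖) :=
            mul_le_mul_of_nonneg_left this (norm_nonneg _)
        _ = _ := by ring
    have b3 : |inner ℝ (br (tf U x) (sm δ U x)) (tf Z x)| ≤
        (2 * C0 * s) * (‖tf U x‖ * ‖tf Z x‖) := by
      refine (abs_real_inner_le_norm _ _).trans ?_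
      calc ‖br (tf U x) (sm δ U x)‖ * ‖tf Z x‖ ≤ (2 * (‖tf U x‖ * (C0 * s))) * ‖tf Z x‖ := by
            refine mul_le_mul_of_nonneg_right ((norm_br_le _ _).trans ?_) (norm_nonneg _)
            have := mul_le_mul_of_nonneg_left (hC0 U x) (norm_nonneg (tf U x))
            linarith
        _ = _ := by ring
    rw [Real.norm_eq_abs]
    simp only [Ib]
    rw [abs_le] at b1 b2 b3 ⊢
    constructor <;> linarith [b1.1, b1.2, b2.1, b2.2, b3.1, b3.2]
  have h1 : |∫ x, Ib δ U U Z x| ≤ ∫ x, (C1 * (‖vf U x‖ * ‖vf U x‖) +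
      C2 * (‖tf U x‖ * ‖vf U x‖) + (2 * C0 * s) * (‖tf U x‖ * ‖tf Z x‖)) := by
    rw [← Real.norm_eq_abs]
    refine (norm_integral_le_integral_norm _).trans ?_
    exact integral_mono (Ib_int hΩ hδ U U Z).norm
      (((i1.const_mul _).add (i2.const_mul _)).add (i3.const_mul _)) hpt
  have h2 : ∫ x, (C1 * (‖vf U x‖ * ‖vf U x‖) +
      C2 * (‖tf U x‖ * ‖vf U x‖) + (2 * C0 * s) * (‖tf U x‖ * ‖tf Z x‖)) =
      C1 * (∫ x, ‖vf U x‖ * ‖vf U x‖) + C2 * (∫ x, ‖tf U x‖ * ‖vf U x‖) +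
        (2 * C0 * s) * ∫ x, ‖tf U x‖ * ‖tf Z x‖ := int_lc3 i1 i2 i3 _ _ _
  rw [h2] at h1
  have j1 : ∫ x, ‖vf U x‖ * ‖vf U x‖ ≤ ‖U‖ * ‖U‖ :=
    (cs_norm (vf_memLp U) (vf_memLp U)).trans
      (mul_le_mul (sqrt_vsq_le U) (sqrt_vsq_le U) (Real.sqrt_nonneg _) (norm_nonneg _))
  have j2 : ∫ x, ‖tf U x‖ * ‖vf U x‖ ≤ ‖U‖ * ‖U‖ :=
    (cs_norm (tf_memLp U) (vf_memLp U)).trans
      (mul_le_mul (sqrt_tsq_le U) (sqrt_vsq_le U) (Real.sqrt_nonneg _) (norm_nonneg _))
  have j3 : ∫ x, ‖tf U x‖ * ‖tf Z x‖ ≤ ‖U‖ * ‖Z‖ :=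
    (cs_norm (tf_memLp U) (tf_memLp Z)).trans
      (mul_le_mul (sqrt_tsq_le U) (sqrt_tsq_le Z) (Real.sqrt_nonneg _) (norm_nonneg _))
  refine h1.trans ?_
  have k1 := mul_le_mul_of_nonneg_left j1 hC10
  have k2 := mul_le_mul_of_nonneg_left j2 hC20
  have k3 := mul_le_mul_of_nonneg_left j3 (show 0 ≤ 2 * C0 * s by positivity)
  have n1 : 0 ≤ C1 * (s * ‖U‖) := by positivity
  have n2 : 0 ≤ C2 * (s * ‖U‖) := by positivity
  have n3 : 0 ≤ 2 * C0 * ‖Z‖ * ‖U‖ ^ 2 := by positivity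
  nlinarith [k1, k2, k3, n1, n2, n3]

theorem lform_bound (μ a c : ℝ) (Z : DD Ω) :
    ∃ K : ℝ, 0 ≤ K ∧ ∀ U : DD Ω,
      |lform Ω μ a c U Z| ≤ K * (Real.sqrt (dir U) + ‖U‖) := by
  set D := Real.sqrt (dir Z) with hD
  have hD0 : 0 ≤ D := Real.sqrt_nonneg _
  refine ⟨|μ| * D + |c| * D + |a| * ‖Z‖ + |c| * ‖Z‖, by positivity, fun U => ?_⟩
  set s := Real.sqrt (dir U) with hs
  have hs0 : 0 ≤ s := Real.sqrt_nonneg _
  rw [lform_apply]
  have i1 : Integrable (fun x => ‖grad (vf U) x‖ * ‖grad (vf Z) x‖) :=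
    (grad_memLp U).norm.integrable_mul (grad_memLp Z).norm
  have i2 : Integrable (fun x => ‖tf U x‖ * ‖grad (vf Z) x‖) :=
    (tf_memLp U).norm.integrable_mul (grad_memLp Z).norm
  have i3 : Integrable (fun x => ‖tf U x‖ * ‖tf Z x‖) :=
    (tf_memLp U).norm.integrable_mul (tf_memLp Z).norm
  have i4 : Integrable (fun x => ‖grad (vf U) x‖ * ‖tf Z x‖) :=
    (grad_memLp U).norm.integrable_mul (tf_memLp Z).norm
  have hpt : ∀ x, ‖Il μ a c U Z x‖ ≤ |μ| * (‖grad (vf U) x‖ * ‖grad (vf Z) x‖) +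
      |c| * (‖tf U x‖ * ‖grad (vf Z) x‖) + |a| * (‖tf U x‖ * ‖tf Z x‖) +
      |c| * (‖grad (vf U) x‖ * ‖tf Z x‖) := by
    intro x
    have b1 : |μ * inner ℝ (grad (vf U) x) (grad (vf Z) x)| ≤
        |μ| * (‖grad (vf U) x‖ * ‖grad (vf Z) x‖) := by
      rw [abs_mul]
      exact mul_le_mul_of_nonneg_left (abs_real_inner_le_norm _ _) (abs_nonneg _)
    have b2 : |c * inner ℝ (tf U x) (sy (grad (vf Z) x))| ≤
        |c| * (‖tf U x‖ * ‖grad (vf Z) x‖) := by
      rw [abs_mul]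
      refine mul_le_mul_of_nonneg_left ((abs_real_inner_le_norm _ _).trans ?_) (abs_nonneg _)
      exact mul_le_mul_of_nonneg_left (norm_sy_le _) (norm_nonneg _)
    have b3 : |a * inner ℝ (tf U x) (tf Z x)| ≤ |a| * (‖tf U x‖ * ‖tf Z x‖) := by
      rw [abs_mul]
      exact mul_le_mul_of_nonneg_left (abs_real_inner_le_norm _ _) (abs_nonneg _)
    have b4 : |c * inner ℝ (sy (grad (vf U) x)) (tf Z x)| ≤
        |c| * (‖grad (vf U) x‖ * ‖tf Z x‖) := by
      rw [abs_mul]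
      refine mul_le_mul_of_nonneg_left ((abs_real_inner_le_norm _ _).trans ?_) (abs_nonneg _)
      exact mul_le_mul_of_nonneg_right (norm_sy_le _) (norm_nonneg _)
    rw [Real.norm_eq_abs]
    simp only [Il]
    rw [abs_le] at b1 b2 b3 b4 ⊢
    constructor <;> linarith [b1.1, b1.2, b2.1, b2.2, b3.1, b3.2, b4.1, b4.2]
  have h1 : |∫ x, Il μ a c U Z x| ≤ ∫ x, (|μ| * (‖grad (vf U) x‖ * ‖grad (vf Z) x‖) +
      |c| * (‖tf U x‖ * ‖grad (vf Z) x‖) + |a| * (‖tf U x‖ * ‖tf Z x‖) +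
      |c| * (‖grad (vf U) x‖ * ‖tf Z x‖)) := by
    rw [← Real.norm_eq_abs]
    refine (norm_integral_le_integral_norm _).trans ?_
    exact integral_mono (Il_int μ a c U Z).norm
      ((((i1.const_mul _).add (i2.const_mul _)).add (i3.const_mul _)).add (i4.const_mul _)) hpt
  have h2 : ∫ x, (|μ| * (‖grad (vf U) x‖ * ‖grad (vf Z) x‖) +
      |c| * (‖tf U x‖ * ‖grad (vf Z) x‖) + |a| * (‖tf U x‖ * ‖tf Z x‖) +
      |c| * (‖grad (vf U) x‖ * ‖tf Z x‖)) =
      |μ| * (∫ x, ‖grad (vf U) x‖ * ‖grad (vf Z) x‖) +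
      |c| * (∫ x, ‖tf U x‖ * ‖grad (vf Z) x‖) + |a| * (∫ x, ‖tf U x‖ * ‖tf Z x‖) +
      |c| * (∫ x, ‖grad (vf U) x‖ * ‖tf Z x‖) := int_lc4 i1 i2 i3 i4 _ _ _ _
  rw [h2] at h1
  have j1 : ∫ x, ‖grad (vf U) x‖ * ‖grad (vf Z) x‖ ≤ s * D := cs_norm (grad_memLp U) (grad_memLp Z)
  have j2 : ∫ x, ‖tf U x‖ * ‖grad (vf Z) x‖ ≤ ‖U‖ * D :=
    (cs_norm (tf_memLp U) (grad_memLp Z)).trans
      (mul_le_mul (sqrt_tsq_le U) le_rfl (Real.sqrt_nonneg _) (norm_nonneg _))
  have j3 : ∫ x, ‖tf U x‖ * ‖tf Z x‖ ≤ ‖U‖ * ‖Z‖ :=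
    (cs_norm (tf_memLp U) (tf_memLp Z)).trans
      (mul_le_mul (sqrt_tsq_le U) (sqrt_tsq_le Z) (Real.sqrt_nonneg _) (norm_nonneg _))
  have j4 : ∫ x, ‖grad (vf U) x‖ * ‖tf Z x‖ ≤ s * ‖Z‖ :=
    (cs_norm (grad_memLp U) (tf_memLp Z)).trans
      (mul_le_mul le_rfl (sqrt_tsq_le Z) (Real.sqrt_nonneg _) hs0)
  refine h1.trans ?_
  have k1 := mul_le_mul_of_nonneg_left j1 (abs_nonneg μ)
  have k2 := mul_le_mul_of_nonneg_left j2 (abs_nonneg c)
  have k3 := mul_le_mul_of_nonneg_left j3 (abs_nonneg a)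
  have k4 := mul_le_mul_of_nonneg_left j4 (abs_nonneg c)
  have n1 : 0 ≤ |μ| * D * ‖U‖ := by positivity
  have n2 : 0 ≤ |c| * D * s := by positivity
  have n3 : 0 ≤ |a| * ‖Z‖ * s := by positivity
  have n4 : 0 ≤ |c| * ‖Z‖ * ‖U‖ := by positivity
  nlinarith [k1, k2, k3, k4, n1, n2, n3, n4]

/-- smallness in norm -/
theorem Small.norm_le {R ε : ℝ} (hε : 0 ≤ ε) {W : DD Ω} (h : Small R ε W) :
    ‖W‖ ≤ ε * Real.sqrt (2 * (volume (Metric.closedBall (0 : Eu n) R)).toReal) := by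
  set B := Metric.closedBall (0 : Eu n) R
  have hB : volume B < ⊤ := (isCompact_closedBall _ _).measure_lt_top
  obtain ⟨hvan, h1, h2, -, -⟩ := h
  have hgen : ∀ {E : Type} [NormedAddCommGroup E] (u : Eu n → E), (∀ x, ‖u x‖ ≤ ε) →
      (∀ x, x ∉ B → u x = 0) → ∫ x, ‖u x‖ ^ 2 ≤ ε ^ 2 * (volume B).toReal := by
    intro E _ u hu h0
    have e1 : ∫ x, ‖u x‖ ^ 2 = ∫ x in B, ‖u x‖ ^ 2 := by
      rw [← integral_indicator Metric.isClosed_closedBall.measurableSet]
      refine integral_congr_ae (Eventually.of_forall fun x => ?_)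
      by_cases hx : x ∈ B
      · exact (indicator_of_mem hx (fun x => ‖u x‖ ^ 2)).symm
      · refine Eq.trans ?_ (indicator_of_notMem hx (fun x => ‖u x‖ ^ 2)).symm
        simp only [h0 x hx, norm_zero]; norm_num
    rw [e1]
    have e2 := norm_setIntegral_le_of_norm_le_const (μ := volume) (s := B)
      (f := fun x => ‖u x‖ ^ 2) (C := ε ^ 2) hB (fun x _ => by
        rw [Real.norm_eq_abs, abs_of_nonneg (by positivity)]
        exact pow_le_pow_left₀ (norm_nonneg _) (hu x) 2)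
    refine (le_abs_self _).trans ?_
    rw [← Real.norm_eq_abs]
    exact e2
  have hout : ∀ x, x ∉ B → R < ‖x‖ := by
    intro x hx
    by_contra h5
    exact hx (by rw [Metric.mem_closedBall, dist_zero_right]; linarith)
  have i1 := hgen (vf W) h1 (fun x hx => (hvan x (hout x hx)).1)
  have i2 := hgen (tf W) h2 (fun x hx => (hvan x (hout x hx)).2)
  have h3 : ‖W‖ = Real.sqrt (‖W‖ ^ 2) := (Real.sqrt_sq (norm_nonneg _)).symm
  rw [h3, dd_norm_sq]
  calc Real.sqrt ((∫ x, ‖vf W x‖ ^ 2) + ∫ x, ‖tf W x‖ ^ 2)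
      ≤ Real.sqrt (ε ^ 2 * (2 * (volume B).toReal)) := by
        refine Real.sqrt_le_sqrt ?_
        calc _ ≤ _ := add_le_add i1 i2
          _ = _ := by ring
    _ = ε * Real.sqrt (2 * (volume B).toReal) := by
        rw [Real.sqrt_mul (by positivity), Real.sqrt_sq hε]

end Pool.Agent.Helper42.Jef
end

section
/-! # Time regularity of Galerkin curves, continued -/

open MeasureTheory Set Filter Topology
open scoped ENNReal NNReal ContDiff

namespace Pool.Agent.Helper42.Jef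

set_option maxHeartbeats 400000

variable {n : ℕ} {Ω : Set (Eu n)}

section ibp

variable {hΩ : MeasurableSet Ω} {δ : ℝ} {hδ : 0 < δ} {T μ a c : ℝ}
  {S : Submodule ℝ (DD Ω)} [FiniteDimensional ℝ S] {F : ℝ → S} {U : ℝ → S}

/-- right side of the Galerkin equation tested with `V` -/
noncomputable def gq (hΩ : MeasurableSet Ω) {δ : ℝ} (hδ : 0 < δ) (μ a c : ℝ)
    (S : Submodule ℝ (DD Ω)) (F : ℝ → S) (U : ℝ → S) (V : S) (t : ℝ) : ℝ :=
  (bform hΩ hδ (U t : DD Ω) (U t : DD Ω) (V : DD Ω) + lform Ω μ a c (U t : DD Ω) (V : DD Ω)) +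
    inner ℝ (F t) V

theorem gq_cont (h : IsGal hΩ hδ T μ a c S F U) (hF : Continuous F) (V : S) :
    Continuous (gq hΩ hδ μ a c S F U V) := by
  have hcont1 : Continuous (fun t => gf (bS hΩ hδ S) (lS μ a c S) (U t)) :=
    (gf_contDiff _ _).continuous.comp h.cont
  have e1 : ∀ t, gq hΩ hδ μ a c S F U V t =
      inner ℝ (gf (bS hΩ hδ S) (lS μ a c S) (U t)) V + inner ℝ (F t) V := by
    intro t; rw [gf_inner]; rfl
  have e2 : gq hΩ hδ μ a c S F U V = fun t =>
      inner ℝ (gf (bS hΩ hδ S) (lS μ a c S) (U t)) V + inner ℝ (F t) V := funext e1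
  rw [e2]
  exact (hcont1.inner continuous_const).add (hF.inner continuous_const)

theorem gal_ibp (h : IsGal hΩ hδ T μ a c S F U) (hF : Continuous F) (hT : 0 < T) {η : ℝ → ℝ}
    (hη : IsTime 0 T η) (V : S) :
    ∫ t in Ioo 0 T, deriv η t * inner ℝ (U t) V =
      - ∫ t in Ioo 0 T, η t * gq hΩ hδ μ a c S F U V t := by
  have hqc := gq_cont h hF V
  have hder : ∀ t ∈ Ioo 0 T, HasDerivAt (fun t => η t * inner ℝ (U t) V)
      (deriv η t * inner ℝ (U t) V + η t * gq hΩ hδ μ a c S F U V t) t := by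
    intro t ht
    have h3 := h.eq t ht
    have h4 : HasDerivAt (fun t => inner ℝ (U t) V)
        (inner ℝ (gf (bS hΩ hδ S) (lS μ a c S) (U t) + F t) V) t := by
      have := h3.inner ℝ (hasDerivAt_const t V)
      simpa using this
    have h5 := (hη.diff t).hasDerivAt.mul h4
    refine h5.congr_deriv ?_
    rw [inner_add_left, gf_inner, bS_apply, lS_apply]
    rfl
  have c1 : Continuous fun t => deriv η t * inner ℝ (U t) V :=
    hη.dcont.mul (h.cont.inner continuous_const)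
  have c2 : Continuous fun t => η t * gq hΩ hδ μ a c S F U V t := hη.cont.mul hqc
  have hftc : ∫ t in (0:ℝ)..T, (deriv η t * inner ℝ (U t) V +
      η t * gq hΩ hδ μ a c S F U V t) =
      η T * inner ℝ (U T) V - η 0 * inner ℝ (U 0) V :=
    intervalIntegral.integral_eq_sub_of_hasDerivAt_of_le hT.le
      (hη.cont.mul (h.cont.inner continuous_const)).continuousOn hder
      ((c1.add c2).intervalIntegrable 0 T)
  have hηT : η T = 0 := by
    refine image_eq_zero_of_notMem_tsupport fun hc => ?_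
    exact (lt_irrefl T) (hη.supp hc).2
  have hη0 : η 0 = 0 := by
    refine image_eq_zero_of_notMem_tsupport fun hc => ?_
    exact (lt_irrefl _) (hη.supp hc).1
  rw [hηT, hη0, zero_mul, zero_mul, sub_zero] at hftc
  have h6 : ∫ t in (0:ℝ)..T, (deriv η t * inner ℝ (U t) V + η t * gq hΩ hδ μ a c S F U V t) =
      (∫ t in Ioo 0 T, deriv η t * inner ℝ (U t) V) +
        ∫ t in Ioo 0 T, η t * gq hΩ hδ μ a c S F U V t := by
    rw [intervalIntegral.integral_add (c1.intervalIntegrable 0 T) (c2.intervalIntegrable 0 T),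
      intervalIntegral.integral_of_le hT.le, intervalIntegral.integral_of_le hT.le,
      integral_Ioc_eq_integral_Ioo, integral_Ioc_eq_integral_Ioo]
  linarith

end ibp

/-- uniform bound of the right side in `L²(0,T)` -/
theorem gq_bound (hΩ : MeasurableSet Ω) {δ : ℝ} (hδ : 0 < δ) (T μ a c : ℝ) {M : ℝ} (hM : 0 ≤ M)
    {f : ℝ → (Eu n → Eu n) → ℝ} {g : ℝ → ℝ} (hf : IsForce Ω f g) (Z : DD Ω) :
    ∃ C : ℝ, 0 ≤ C ∧ ∀ (S : Submodule ℝ (DD Ω)) [FiniteDimensional ℝ S] (F U : ℝ → S),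
      Continuous F → IsGal hΩ hδ T μ a c S F U → (∀ t ∈ Ioo 0 T, ‖U t‖ ^ 2 ≤ M) →
      ∫ s in Ioo 0 T, dir (U s : DD Ω) ≤ M →
      eLpNorm (fun t => forceR hf S t - F t) 2 (volume.restrict (Ioo 0 T)) ≤ 1 →
      ∀ V : S, (V : DD Ω) = Z →
        ∫ t in Ioo 0 T, (gq hΩ hδ μ a c S F U V t) ^ 2 ≤ C := by
  obtain ⟨K1, hK1, hb1⟩ := bform_bound hΩ hδ Z
  obtain ⟨K2, hK2, hb2⟩ := lform_bound (Ω := Ω) μ a c Z
  set m := Real.sqrt M with hm
  have hm0 : 0 ≤ m := Real.sqrt_nonneg _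
  have hmm : m ^ 2 = M := Real.sq_sqrt hM
  set K := K1 * (M + m) + K2 * (1 + m) with hK
  have hK0 : 0 ≤ K := by positivity
  have hff : IntegrableOn (fun t => (f t (vf Z)) ^ 2) (Ioo 0 T) :=
    (force_memLp hf T (vf_vt Z)).integrable_sq
  have hX : 0 ≤ ∫ t in Ioo 0 T, (f t (vf Z)) ^ 2 := integral_nonneg fun t => by positivity
  refine ⟨6 * K ^ 2 * ((volume (Ioo 0 T)).toReal + M) + 3 * (∫ t in Ioo 0 T, (f t (vf Z)) ^ 2) +
    3 * ‖Z‖ ^ 2, by positivity, ?_⟩
  intro S _ F U hF hU hUM hdir hFe V hV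
  have hFm : MemLp (fun t => forceR hf S t - F t) 2 (volume.restrict (Ioo 0 T)) := by
    refine ⟨(forceR_memLp hf S T).1.sub hF.aestronglyMeasurable, ?_⟩
    exact hFe.trans_lt ENNReal.one_lt_top
  have hei : IntegrableOn (fun t => ‖forceR hf S t - F t‖ ^ 2) (Ioo 0 T) := by
    have := hFm.norm.integrable_sq
    exact this
  have he1 : ∫ t in Ioo 0 T, ‖forceR hf S t - F t‖ ^ 2 ≤ 1 := by
    have h1 := toReal_eLpNorm_sq hFm
    have h2 : (eLpNorm (fun t => forceR hf S t - F t) 2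
        (volume.restrict (Ioo 0 T))).toReal ≤ 1 := by
      refine ENNReal.toReal_le_of_le_ofReal zero_le_one ?_
      simpa using hFe
    rw [← h1]
    have h3 : 0 ≤ (eLpNorm (fun t => forceR hf S t - F t) 2
      (volume.restrict (Ioo 0 T))).toReal := ENNReal.toReal_nonneg
    nlinarith
  have hdc : Continuous fun s => dir (U s : DD Ω) := dir_cont hU.cont
  have hdi : IntegrableOn (fun s => dir (U s : DD Ω)) (Ioo 0 T) :=
    (hdc.integrableOn_Icc (a := 0) (b := T)).mono_set Ioo_subset_Icc_self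
  have hci : IntegrableOn (fun _ : ℝ => (1:ℝ)) (Ioo 0 T) := by
    exact integrableOn_const (by rw [Real.volume_Ioo]; exact ENNReal.ofReal_ne_top)
  -- pointwise bound
  have hpt : ∀ t ∈ Ioo 0 T, (gq hΩ hδ μ a c S F U V t) ^ 2 ≤
      (6 * K ^ 2) * 1 + (6 * K ^ 2) * dir (U t : DD Ω) + 3 * (f t (vf Z)) ^ 2 +
        (3 * ‖Z‖ ^ 2) * ‖forceR hf S t - F t‖ ^ 2 := by
    intro t ht
    set s := Real.sqrt (dir (U t : DD Ω)) with hs
    have hs0 : 0 ≤ s := Real.sqrt_nonneg _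
    have hss : s ^ 2 = dir (U t : DD Ω) := Real.sq_sqrt (dir_nonneg _)
    have hu : ‖(U t : DD Ω)‖ ≤ m := by
      have h1 : ‖(U t : DD Ω)‖ = ‖U t‖ := rfl
      rw [h1]
      exact Real.le_sqrt_of_sq_le (hUM t ht)
    have hu0 : 0 ≤ ‖(U t : DD Ω)‖ := norm_nonneg _
    have p1 : |bform hΩ hδ (U t : DD Ω) (U t : DD Ω) Z + lform Ω μ a c (U t : DD Ω) Z| ≤
        K * (1 + s) := by
      refine (abs_add_le _ _).trans ((add_le_add (hb1 _) (hb2 _)).trans ?_)
      have q1 : ‖(U t : DD Ω)‖ ^ 2 ≤ M := by rw [← hmm]; exact pow_le_pow_left₀ hu0 hu 2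
      have q2 : s * ‖(U t : DD Ω)‖ ≤ s * m := mul_le_mul_of_nonneg_left hu hs0
      have q3 : K1 * (‖(U t : DD Ω)‖ ^ 2 + s * ‖(U t : DD Ω)‖) ≤ K1 * (M + s * m) :=
        mul_le_mul_of_nonneg_left (add_le_add q1 q2) hK1
      have q4 : K2 * (s + ‖(U t : DD Ω)‖) ≤ K2 * (s + m) :=
        mul_le_mul_of_nonneg_left (add_le_add le_rfl hu) hK2
      have n1 : 0 ≤ K1 * (M * s) := by positivity
      have n2 : 0 ≤ K1 * m := by positivity
      have n3 : 0 ≤ K2 * (m * s) := by positivity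
      have n4 : 0 ≤ K2 * 1 := by positivity
      calc _ ≤ K1 * (M + s * m) + K2 * (s + m) := add_le_add q3 q4
        _ ≤ K * (1 + s) := by rw [hK]; nlinarith
    have p2 : inner ℝ (F t) V = f t (vf Z) - inner ℝ (forceR hf S t - F t) V := by
      rw [inner_sub_left, forceR_inner, hV]; ring
    have p3 : |inner ℝ (forceR hf S t - F t) V| ≤ ‖forceR hf S t - F t‖ * ‖Z‖ := by
      have h1 : ‖V‖ = ‖(V : DD Ω)‖ := rfl
      rw [← hV, ← h1]
      exact abs_real_inner_le_norm _ _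
    have p4 : gq hΩ hδ μ a c S F U V t =
        (bform hΩ hδ (U t : DD Ω) (U t : DD Ω) Z + lform Ω μ a c (U t : DD Ω) Z) +
        f t (vf Z) - inner ℝ (forceR hf S t - F t) V := by
      simp only [gq]
      rw [p2, hV]
      ring
    rw [p4]
    set A := bform hΩ hδ (U t : DD Ω) (U t : DD Ω) Z + lform Ω μ a c (U t : DD Ω) Z
    set B := f t (vf Z)
    set D := inner ℝ (forceR hf S t - F t) V
    have r1 : (A + B - D) ^ 2 ≤ 3 * (A ^ 2 + B ^ 2 + D ^ 2) := by
      nlinarith [sq_nonneg (A - B), sq_nonneg (A + D), sq_nonneg (B + D)]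
    have r2 : A ^ 2 ≤ K ^ 2 * (2 * (1 + dir (U t : DD Ω))) := by
      have h1 : A ^ 2 ≤ (K * (1 + s)) ^ 2 := by
        rw [← sq_abs A]
        exact pow_le_pow_left₀ (abs_nonneg _) p1 2
      have h2 : (K * (1 + s)) ^ 2 = K ^ 2 * (1 + s) ^ 2 := by ring
      rw [h2] at h1
      refine h1.trans (mul_le_mul_of_nonneg_left ?_ (by positivity))
      rw [← hss]
      nlinarith [sq_nonneg (1 - s)]
    have r3 : D ^ 2 ≤ ‖Z‖ ^ 2 * ‖forceR hf S t - F t‖ ^ 2 := by
      have h1 : D ^ 2 ≤ (‖forceR hf S t - F t‖ * ‖Z‖) ^ 2 := by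
        rw [← sq_abs D]
        exact pow_le_pow_left₀ (abs_nonneg _) p3 2
      calc D ^ 2 ≤ _ := h1
        _ = _ := by ring
    nlinarith [r1, r2, r3]
  have hqi : IntegrableOn (fun t => (gq hΩ hδ μ a c S F U V t) ^ 2) (Ioo 0 T) :=
    (((gq_cont hU hF V).pow 2).integrableOn_Icc (a := 0) (b := T)).mono_set Ioo_subset_Icc_self
  have h1 := setIntegral_mono_on hqi ((((hci.const_mul (6 * K ^ 2)).add
    (hdi.const_mul (6 * K ^ 2))).add (hff.const_mul 3)).add (hei.const_mul (3 * ‖Z‖ ^ 2)))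
    measurableSet_Ioo hpt
  have h2 := int_lc4 hci hdi hff hei (6 * K ^ 2) (6 * K ^ 2) 3 (3 * ‖Z‖ ^ 2)
  refine h1.trans (h2.le.trans ?_)
  have h3 : ∫ _ in Ioo 0 T, (1:ℝ) = (volume (Ioo 0 T)).toReal := by
    rw [setIntegral_const, smul_eq_mul, mul_one]; rfl
  rw [h3]
  have h4 := mul_le_mul_of_nonneg_left hdir (show 0 ≤ 6 * K ^ 2 by positivity)
  have h5 := mul_le_mul_of_nonneg_left he1 (show 0 ≤ 3 * ‖Z‖ ^ 2 by positivity)
  linarith

/-- test of the velocity with a fixed field -/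
theorem gv_test {T : ℝ} {W : ℝ → DD Ω} (hm : MemLp (gv T W) 2 volume) {φ : Eu n → Eu n}
    (hφ : IsVT Ω φ) {η : ℝ → ℝ} (hη : Continuous η) (hηc : HasCompactSupport η) :
    ∫ z : ST n, η z.1 * inner ℝ (gv T W z) (φ z.2) =
      ∫ t in Ioo 0 T, η t * inner ℝ (W t)
        (DD.mk φ 0 hφ contDiff_const (HasCompactSupport.zero) : DD Ω) := by
  have hint := int_lin hm hη hηc hφ.smooth.continuous hφ.cpt
  have hvol : (volume : Measure (ST n)) = (volume : Measure ℝ).prod (volume : Measure (Eu n)) := rfl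
  have h1 : ∫ z : ST n, η z.1 * inner ℝ (gv T W z) (φ z.2) =
      ∫ t, ∫ x, η t * inner ℝ (gv T W (t, x)) (φ x) := by
    rw [hvol]; exact integral_prod _ hint
  rw [h1, ← integral_indicator measurableSet_Ioo]
  refine integral_congr_ae (Eventually.of_forall fun t => ?_)
  by_cases ht : t ∈ Ioo 0 T
  · simp only [indicator_of_mem ht, gv]
    rw [integral_const_mul, dd_inner]
    simp
  · simp only [indicator_of_notMem ht, gv]
    simp

end Pool.Agent.Helper42.Jef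
end

section
/-! # Time regularity of Galerkin curves: the test condition -/

open MeasureTheory Set Filter Topology
open scoped ENNReal NNReal ContDiff

namespace Pool.Agent.Helper42.Jef

set_option maxHeartbeats 400000

variable {n : ℕ} {Ω : Set (Eu n)}

/-- the pair `(φ, 0)` -/
noncomputable def vpair {φ : Eu n → Eu n} (hφ : IsVT Ω φ) : DD Ω :=
  DD.mk φ 0 hφ contDiff_const (HasCompactSupport.zero)

theorem memLp_cont_Ioo {E : Type*} [NormedAddCommGroup E] {h : ℝ → E}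
    (hh : Continuous h) (T : ℝ) : MemLp h 2 (volume.restrict (Ioo 0 T)) := by
  haveI : IsFiniteMeasure ((volume : Measure ℝ).restrict (Ioo 0 T)) :=
    ⟨by rw [Measure.restrict_apply_univ, Real.volume_Ioo]; exact ENNReal.ofReal_lt_top⟩
  obtain ⟨C, hC⟩ := (isCompact_Icc (a := (0:ℝ)) (b := T)).exists_bound_of_continuousOn
    hh.continuousOn
  have hsm : AEStronglyMeasurable h (volume.restrict (Ioo 0 T)) := by
    refine ContinuousOn.aestronglyMeasurable_of_isCompact ?_ ?_ ?_ |>.mono_measure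
      (Measure.restrict_mono (s' := Icc 0 T) Ioo_subset_Icc_self le_rfl)
    · exact hh.continuousOn
    · exact isCompact_Icc
    · exact measurableSet_Icc
  refine MemLp.of_bound hsm C ?_
  rw [ae_restrict_iff' measurableSet_Ioo]
  exact Eventually.of_forall fun t ht => hC t (Ioo_subset_Icc_self ht)

theorem IsTime.sq_int {a b : ℝ} {η : ℝ → ℝ} (h : IsTime a b η) :
    Integrable fun t => η t ^ 2 := by
  have h1 : Integrable (fun t => η t * η t) :=
    (h.cont.mul h.cont).integrable_of_hasCompactSupport h.cpt.mul_left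
  exact h1.congr (Eventually.of_forall fun t => (sq (η t)).symm)

theorem IsTime.dabs_int {a b : ℝ} {η : ℝ → ℝ} (h : IsTime a b η) :
    Integrable fun t => |deriv η t| :=
  (h.dcont.integrable_of_hasCompactSupport h.cpt.deriv).abs

theorem gal_tc1 (hΩ : MeasurableSet Ω) {δ : ℝ} (hδ : 0 < δ) {T : ℝ} (hT : 0 < T) (μ a c : ℝ)
    {M : ℝ} (hM : 0 ≤ M) {f : ℝ → (Eu n → Eu n) → ℝ} {g : ℝ → ℝ} (hf : IsForce Ω f g)
    {φ : Eu n → Eu n} (hφ : IsVT Ω φ) (Z : DD Ω) {ε : ℝ}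
    (hε : Real.sqrt M * ‖vpair hφ - Z‖ ≤ ε) :
    ∃ C : ℝ, ∀ (S : Submodule ℝ (DD Ω)) [FiniteDimensional ℝ S] (F U : ℝ → S),
      Continuous F → IsGal hΩ hδ T μ a c S F U → (∀ t ∈ Ioo 0 T, ‖U t‖ ^ 2 ≤ M) →
      ∫ s in Ioo 0 T, dir (U s : DD Ω) ≤ M →
      eLpNorm (fun t => forceR hf S t - F t) 2 (volume.restrict (Ioo 0 T)) ≤ 1 →
      Z ∈ S → ∀ η, IsTime 0 T η →
      |∫ z : ST n, deriv η z.1 * inner ℝ (gv T (fun t => (U t : DD Ω)) z) (φ z.2)| ≤
        C * Real.sqrt (∫ t, η t ^ 2) + ε * ∫ t, |deriv η t| := by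
  obtain ⟨C, hC0, hC⟩ := gq_bound hΩ hδ T μ a c hM hf Z
  refine ⟨Real.sqrt C, ?_⟩
  intro S _ F U hF hU hUM hdir hFe hZ η hη
  have hm := (curve_elem hT hU.cont).memLp.1
  have hε0 : 0 ≤ ε := (mul_nonneg (Real.sqrt_nonneg _) (norm_nonneg _)).trans hε
  rw [gv_test hm hφ hη.dcont hη.cpt.deriv]
  let V : S := ⟨Z, hZ⟩
  have hq := hC S F U hF hU hUM hdir hFe V rfl
  have hibp := gal_ibp hU hF hT hη V
  have hcq := gq_cont hU hF V
  -- split
  have hUc : Continuous fun t => (U t : DD Ω) := continuous_subtype_val.comp hU.cont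
  have c1 : Continuous fun t => deriv η t * inner ℝ (U t) V :=
    hη.dcont.mul (hU.cont.inner continuous_const)
  have c2 : Continuous fun t => deriv η t * inner ℝ (U t : DD Ω) (vpair hφ - Z) :=
    hη.dcont.mul (hUc.inner continuous_const)
  have hIoo : ∀ {h : ℝ → ℝ}, Continuous h → IntegrableOn h (Ioo 0 T) := fun hh =>
    (hh.integrableOn_Icc (a := 0) (b := T)).mono_set Ioo_subset_Icc_self
  have h1 : ∫ t in Ioo 0 T, deriv η t * inner ℝ (U t : DD Ω) (vpair hφ) =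
      (∫ t in Ioo 0 T, deriv η t * inner ℝ (U t) V) +
        ∫ t in Ioo 0 T, deriv η t * inner ℝ (U t : DD Ω) (vpair hφ - Z) := by
    rw [← integral_add (hIoo c1) (hIoo c2)]
    refine integral_congr_ae (Eventually.of_forall fun t => ?_)
    have e1 : inner ℝ (U t) V = inner ℝ (U t : DD Ω) Z := rfl
    simp only [e1, inner_sub_right]
    ring
  have h1' : ∫ t in Ioo 0 T, deriv η t * inner ℝ (U t : DD Ω)
      (DD.mk φ 0 hφ contDiff_const (HasCompactSupport.zero) : DD Ω) =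
      (∫ t in Ioo 0 T, deriv η t * inner ℝ (U t) V) +
        ∫ t in Ioo 0 T, deriv η t * inner ℝ (U t : DD Ω) (vpair hφ - Z) := h1
  rw [h1', hibp]
  -- first part
  have hb1 : |- ∫ t in Ioo 0 T, η t * gq hΩ hδ μ a c S F U V t| ≤
      Real.sqrt C * Real.sqrt (∫ t, η t ^ 2) := by
    rw [abs_neg]
    have k1 := cs_norm (memLp_cont_Ioo hη.cont T) (memLp_cont_Ioo hcq T)
    have k2 : |∫ t in Ioo 0 T, η t * gq hΩ hδ μ a c S F U V t| ≤
        ∫ t in Ioo 0 T, ‖η t‖ * ‖gq hΩ hδ μ a c S F U V t‖ := by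
      rw [← Real.norm_eq_abs]
      refine (norm_integral_le_integral_norm _).trans (le_of_eq ?_)
      refine integral_congr_ae (Eventually.of_forall fun t => ?_)
      simp only [norm_mul]
    refine k2.trans (k1.trans ?_)
    have hηi := hη.sq_int
    have k3 : ∫ t in Ioo 0 T, ‖η t‖ ^ 2 ≤ ∫ t, η t ^ 2 := by
      simp only [Real.norm_eq_abs, sq_abs]
      exact setIntegral_le_integral hηi (Eventually.of_forall fun t => by positivity)
    have k4 : ∫ t in Ioo 0 T, ‖gq hΩ hδ μ a c S F U V t‖ ^ 2 ≤ C := by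
      simp only [Real.norm_eq_abs, sq_abs]
      exact hq
    rw [mul_comm]
    exact mul_le_mul (Real.sqrt_le_sqrt k4) (Real.sqrt_le_sqrt k3) (Real.sqrt_nonneg _)
      (Real.sqrt_nonneg _)
  -- second part
  have hb2 : |∫ t in Ioo 0 T, deriv η t * inner ℝ (U t : DD Ω) (vpair hφ - Z)| ≤
      ε * ∫ t, |deriv η t| := by
    have hdi := hη.dabs_int
    have k1 : |∫ t in Ioo 0 T, deriv η t * inner ℝ (U t : DD Ω) (vpair hφ - Z)| ≤
        ∫ t in Ioo 0 T, ε * |deriv η t| := by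
      rw [← Real.norm_eq_abs]
      refine (norm_integral_le_integral_norm _).trans ?_
      refine setIntegral_mono_on (hIoo c2).norm (hdi.integrableOn.const_mul ε) measurableSet_Ioo
        fun t ht => ?_
      rw [norm_mul, Real.norm_eq_abs, Real.norm_eq_abs, mul_comm]
      refine mul_le_mul_of_nonneg_right ?_ (abs_nonneg _)
      refine (abs_real_inner_le_norm _ _).trans (le_trans ?_ hε)
      refine mul_le_mul_of_nonneg_right ?_ (norm_nonneg _)
      exact Real.le_sqrt_of_sq_le (hUM t ht)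
    rw [integral_const_mul] at k1
    refine k1.trans (mul_le_mul_of_nonneg_left ?_ hε0)
    exact setIntegral_le_integral hdi (Eventually.of_forall fun t => abs_nonneg _)
  exact (abs_add_le _ _).trans (add_le_add hb1 hb2)

end Pool.Agent.Helper42.Jef
end

section
/-! # The mollified spin is bounded by the velocity -/

open MeasureTheory Set Filter Topology
open scoped ENNReal NNReal ContDiff

namespace Pool.Agent.Helper42.Jef

set_option maxHeartbeats 400000

variable {n : ℕ} {Ω : Set (Eu n)}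

/-- placing a vector in column `j` -/
noncomputable def colL (j : Fin n) : Eu n →L[ℝ] Mt n :=
  LinearMap.toContinuousLinearMap
    { toFun := fun w => WithLp.toLp 2 fun p => if p.2 = j then w p.1 else 0
      map_add' := fun w w' => by
        ext p
        by_cases h : p.2 = j <;> simp [h]
      map_smul' := fun c w => by
        ext p
        by_cases h : p.2 = j <;> simp [h] }

theorem colL_apply (j : Fin n) (w : Eu n) (p : Fin n × Fin n) :
    colL j w p = if p.2 = j then w p.1 else 0 := rfl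

theorem grad_col (φ : Eu n → Eu n) (x : Eu n) : grad φ x = ∑ j, colL j (fderiv ℝ φ x (bv j)) := by
  ext p
  have h1 : (∑ j, colL j (fderiv ℝ φ x (bv j))) p =
      ∑ j, (colL j (fderiv ℝ φ x (bv j))) p :=
    map_sum (EuclideanSpace.proj (𝕜 := ℝ) p : Mt n →L[ℝ] ℝ) _ _
  rw [h1]
  simp only [colL_apply]
  rw [Finset.sum_ite_eq]
  simp only [Finset.mem_univ, if_true]
  rfl

/-- directional derivative of the mollifier -/
noncomputable def dro (δ : ℝ) (j : Fin n) (x : Eu n) : ℝ := fderiv ℝ (ro δ) x (bv j)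

theorem dro_cont (δ : ℝ) (j : Fin n) : Continuous (dro (n := n) δ j) :=
  ((ro_smooth (n := n) δ).continuous_fderiv (by simp)).clm_apply continuous_const

theorem dro_cpt {δ : ℝ} (hδ : 0 < δ) (j : Fin n) : HasCompactSupport (dro (n := n) δ j) := by
  refine ((ro_cpt (n := n) hδ).fderiv (𝕜 := ℝ)).mono' fun x hx => subset_closure fun h0 => hx ?_
  have h0' : fderiv ℝ (ro δ) x = 0 := h0
  show fderiv ℝ (ro δ) x (bv j) = 0
  rw [h0']; rfl

theorem dro_integrable {δ : ℝ} (hδ : 0 < δ) (j : Fin n) : Integrable (dro (n := n) δ j) :=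
  (dro_cont δ j).integrable_of_hasCompactSupport (dro_cpt hδ j)

/-- space integration by parts against the mollifier -/
theorem ro_ibp {δ : ℝ} (hδ : 0 < δ) {φ : Eu n → Eu n} (hφ : ContDiff ℝ ∞ φ)
    (x : Eu n) (j : Fin n) :
    ∫ y, ro δ (x - y) • fderiv ℝ φ y (bv j) = ∫ y, dro δ j (x - y) • φ y := by
  have hs : HasCompactSupport fun y : Eu n => ro δ (x - y) := by
    have := (ro_cpt (n := n) hδ).comp_homeomorph (Homeomorph.subLeft x)
    exact this
  have hs' : HasCompactSupport fun y : Eu n => dro δ j (x - y) := by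
    have := (dro_cpt (n := n) hδ j).comp_homeomorph (Homeomorph.subLeft x)
    exact this
  have hc : Continuous fun y : Eu n => ro δ (x - y) :=
    (ro_cont δ).comp (continuous_const.sub continuous_id)
  have hc' : Continuous fun y : Eu n => dro δ j (x - y) :=
    (dro_cont δ j).comp (continuous_const.sub continuous_id)
  have hdr : ∀ y, HasFDerivAt (fun y : Eu n => ro δ (x - y)) (-(fderiv ℝ (ro δ) (x - y))) y := by
    intro y
    have h1 : HasFDerivAt (ro (n := n) δ) (fderiv ℝ (ro δ) (x - y)) (x - y) :=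
      ((ro_smooth δ).differentiable (by simp) (x - y)).hasFDerivAt
    have h2 : HasFDerivAt (fun y : Eu n => x - y) (-(ContinuousLinearMap.id ℝ (Eu n))) y :=
      (hasFDerivAt_id y).const_sub x
    have h3 := h1.comp y h2
    refine h3.congr_fderiv ?_
    ext w
    simp
  have hfd : ∀ y, fderiv ℝ (fun y : Eu n => ro δ (x - y)) y (bv j) = - dro δ j (x - y) := by
    intro y
    rw [(hdr y).fderiv]; rfl
  have hd : Continuous (fderiv ℝ φ) := hφ.continuous_fderiv (by simp)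
  have i1 : Integrable (fun y => fderiv ℝ (fun y : Eu n => ro δ (x - y)) y (bv j) • φ y) := by
    simp only [hfd]
    exact (hc'.neg.smul hφ.continuous).integrable_of_hasCompactSupport (hs'.neg.smul_right)
  have i2 : Integrable (fun y => ro δ (x - y) • fderiv ℝ φ y (bv j)) :=
    (hc.smul (hd.clm_apply continuous_const)).integrable_of_hasCompactSupport hs.smul_right
  have i3 : Integrable (fun y => ro δ (x - y) • φ y) :=
    (hc.smul hφ.continuous).integrable_of_hasCompactSupport hs.smul_right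
  rw [integral_smul_fderiv_eq_neg_fderiv_smul_of_integrable i1 i2 i3
    (fun y _ => (hdr y).differentiableAt) (fun y _ => hφ.differentiable (by simp) y)]
  simp only [hfd]
  rw [← integral_neg]
  refine integral_congr_ae (Eventually.of_forall fun y => ?_)
  simp

/-- the spin operator on velocities: `z ↦ sp (∑_j (∂_j ρ_δ * v) ⊗ e_j)` -/
noncomputable def msv (δ : ℝ) (v : ST n → Eu n) (z : ST n) : Mt n :=
  spL n (∑ j, colL j (spc (dro δ j) v z))

theorem elem_mo {T δ : ℝ} (hδ : 0 < δ) {v : ST n → Eu n} {G : ST n → Mt n}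
    (h : IsElem Ω T v G) (z : ST n) : mo δ (fun z => sp (G z)) z = msv δ v z := by
  obtain ⟨N, c, φ, -, -, -, hφ, hv, hG⟩ := h
  have i1 : ∀ k, Integrable (fun y => ro δ (z.2 - y) • grad (φ k) y) := by
    intro k
    have hs : HasCompactSupport fun y : Eu n => ro δ (z.2 - y) := by
      have := (ro_cpt (n := n) hδ).comp_homeomorph (Homeomorph.subLeft z.2)
      exact this
    exact (((ro_cont δ).comp (continuous_const.sub continuous_id)).smul
      (hφ k).grad_cont).integrable_of_hasCompactSupport hs.smul_right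
  have hgr : ∀ k, ∫ y, ro δ (z.2 - y) • grad (φ k) y =
      ∑ j, colL j (∫ y, dro δ j (z.2 - y) • φ k y) := by
    intro k
    have hs : HasCompactSupport fun y : Eu n => ro δ (z.2 - y) := by
      have := (ro_cpt (n := n) hδ).comp_homeomorph (Homeomorph.subLeft z.2)
      exact this
    have hd : Continuous (fderiv ℝ (φ k)) := (hφ k).smooth.continuous_fderiv (by simp)
    have i2 : ∀ j : Fin n, Integrable (fun y => ro δ (z.2 - y) • fderiv ℝ (φ k) y (bv j)) :=
      fun j => (((ro_cont δ).comp (continuous_const.sub continuous_id)).smul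
        (hd.clm_apply continuous_const)).integrable_of_hasCompactSupport hs.smul_right
    have e1 : ∀ y, ro δ (z.2 - y) • grad (φ k) y =
        ∑ j, colL j (ro δ (z.2 - y) • fderiv ℝ (φ k) y (bv j)) := by
      intro y
      rw [grad_col, Finset.smul_sum]
      simp only [map_smul]
    simp only [e1]
    rw [integral_finsetSum _ fun j _ => (colL j).integrable_comp (i2 j)]
    refine Finset.sum_congr rfl fun j _ => ?_
    rw [(colL j).integral_comp_comm (i2 j), ro_ibp hδ (hφ k).smooth]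
  -- left side
  have hL : mo δ (fun z => sp (G z)) z = spL n (∑ k, c k z.1 • ∫ y, ro δ (z.2 - y) • grad (φ k) y) := by
    simp only [mo]
    have e2 : ∀ y, ro δ (z.2 - y) • sp (G (z.1, y)) =
        spL n (∑ k, c k z.1 • (ro δ (z.2 - y) • grad (φ k) y)) := by
      intro y
      rw [hG (z.1, y), ← spL_apply, ← map_smul, Finset.smul_sum]
      congr 1
      refine Finset.sum_congr rfl fun k _ => ?_
      rw [smul_comm]
    simp only [e2]
    rw [(spL n).integral_comp_comm, integral_finsetSum]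
    · simp only [integral_smul]
    · intro k _
      exact (i1 k).smul (c k z.1)
    · exact integrable_finsetSum _ fun k _ => (i1 k).smul (c k z.1)
  rw [hL]
  simp only [msv, hgr, spc]
  congr 1
  have i3 : ∀ j k, Integrable (fun y => dro δ j (z.2 - y) • φ k y) := by
    intro j k
    have hs' : HasCompactSupport fun y : Eu n => dro δ j (z.2 - y) := by
      have := (dro_cpt (n := n) hδ j).comp_homeomorph (Homeomorph.subLeft z.2)
      exact this
    exact (((dro_cont δ j).comp (continuous_const.sub continuous_id)).smul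
      (hφ k).smooth.continuous).integrable_of_hasCompactSupport hs'.smul_right
  have hR : ∀ j, ∫ y, dro δ j (z.2 - y) • v (z.1, y) =
      ∑ k, c k z.1 • ∫ y, dro δ j (z.2 - y) • φ k y := by
    intro j
    have e3 : ∀ y, dro δ j (z.2 - y) • v (z.1, y) =
        ∑ k, c k z.1 • (dro δ j (z.2 - y) • φ k y) := by
      intro y
      rw [hv (z.1, y), Finset.smul_sum]
      exact Finset.sum_congr rfl fun k _ => smul_comm _ _ _
    simp only [e3]
    rw [integral_finsetSum]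
    · simp only [integral_smul]
    · intro k _
      exact (i3 j k).smul (c k z.1)
  simp only [hR, map_sum, map_smul, Finset.smul_sum]
  exact Finset.sum_comm

end Pool.Agent.Helper42.Jef
end

section
/-! # Strong convergence of the mollified spins -/

open MeasureTheory Set Filter Topology
open scoped ENNReal NNReal ContDiff

namespace Pool.Agent.Helper42.Jef

set_option maxHeartbeats 400000

variable {n : ℕ} {Ω : Set (Eu n)}

theorem eLpNorm_clm_le {α : Type*} [MeasurableSpace α] {μ : Measure α} {E F : Type*}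
    [NormedAddCommGroup E] [NormedSpace ℝ E] [NormedAddCommGroup F] [NormedSpace ℝ F]
    (L : E →L[ℝ] F) (u : α → E) :
    eLpNorm (fun x => L (u x)) 2 μ ≤ ENNReal.ofReal ‖L‖ * eLpNorm u 2 μ :=
  eLpNorm_le_mul_eLpNorm_of_ae_le_mul (Eventually.of_forall fun x => L.le_opNorm (u x)) 2

theorem spc_dro_memLp {δ : ℝ} (hδ : 0 < δ) (j : Fin n) {v : ST n → Eu n}
    (hv : MemLp v 2 volume) : MemLp (spc (dro δ j) v) 2 volume :=
  spc_memLp (dro_integrable hδ j) hv

theorem msv_bound {δ : ℝ} (hδ : 0 < δ) : ∃ C : ℝ≥0∞, C ≠ ⊤ ∧ ∀ v : ST n → Eu n,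
    MemLp v 2 volume → eLpNorm (msv δ v) 2 volume ≤ C * eLpNorm v 2 volume := by
  refine ⟨ENNReal.ofReal ‖spL n‖ * ∑ j : Fin n, ENNReal.ofReal ‖colL j‖ *
    (∫⁻ x, ‖dro (n := n) δ j x‖ₑ), ?_, fun v hv => ?_⟩
  · refine ENNReal.mul_ne_top ENNReal.ofReal_ne_top ?_
    refine (ENNReal.sum_lt_top.2 fun j _ => ?_).ne
    exact ENNReal.mul_lt_top ENNReal.ofReal_lt_top (dro_integrable hδ j).2
  · have h1 : eLpNorm (msv δ v) 2 volume ≤ ENNReal.ofReal ‖spL n‖ *
        eLpNorm (fun z => ∑ j, colL j (spc (dro δ j) v z)) 2 volume := eLpNorm_clm_le _ _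
    have h2 : eLpNorm (fun z => ∑ j, colL j (spc (dro δ j) v z)) 2 volume ≤
        ∑ j, eLpNorm (fun z => colL j (spc (dro δ j) v z)) 2 volume := by
      have h3 : (fun z => ∑ j, colL j (spc (dro δ j) v z)) =
          ∑ j, fun z => colL j (spc (dro δ j) v z) := by
        funext z; simp
      rw [h3]
      refine eLpNorm_sum_le (fun j _ => ?_) (by norm_num)
      exact (colL j).continuous.comp_aestronglyMeasurable (spc_dro_memLp hδ j hv).1
    refine h1.trans ?_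
    rw [mul_assoc]
    refine mul_le_mul_right (h2.trans ?_) _
    rw [Finset.sum_mul]
    refine Finset.sum_le_sum fun j _ => ?_
    refine (eLpNorm_clm_le _ _).trans ?_
    rw [mul_assoc]
    exact mul_le_mul_right (spc_eLpNorm_le (dro_integrable hδ j).1 hv.1) _

theorem msv_aesm {δ : ℝ} (hδ : 0 < δ) {v : ST n → Eu n} (hv : MemLp v 2 volume) :
    AEStronglyMeasurable (msv δ v) volume := by
  refine (spL n).continuous.comp_aestronglyMeasurable ?_
  have h3 : (fun z => ∑ j, colL j (spc (dro δ j) v z)) =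
      ∑ j, fun z => colL j (spc (dro δ j) v z) := by
    funext z; simp
  rw [h3]
  exact Finset.aestronglyMeasurable_sum _ fun j _ =>
    (colL j).continuous.comp_aestronglyMeasurable (spc_dro_memLp hδ j hv).1

theorem msv_sub {δ : ℝ} (hδ : 0 < δ) {v w : ST n → Eu n} (hv : MemLp v 2 volume)
    (hw : MemLp w 2 volume) :
    msv δ (fun z => v z - w z) =ᵐ[volume] fun z => msv δ v z - msv δ w z := by
  have h1 : ∀ j : Fin n, ∀ᵐ z, spc (dro δ j) (fun z => v z - w z) z =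
      spc (dro δ j) v z - spc (dro δ j) w z := fun j => spc_sub (dro_integrable hδ j) hv hw
  filter_upwards [ae_all_iff.2 h1] with z hz
  simp only [msv, hz, map_sub, Finset.sum_sub_distrib]

theorem tendsto_zero_of_le_mul {u w : ℕ → ℝ≥0∞} {C : ℝ≥0∞} (hC : C ≠ ⊤)
    (hw : Tendsto w atTop (𝓝 0)) (h : ∀ m, u m ≤ C * w m) : Tendsto u atTop (𝓝 0) := by
  have h2 : Tendsto (fun m => C * w m) atTop (𝓝 0) := by
    have := ENNReal.Tendsto.const_mul hw (Or.inr hC)
    simpa using this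
  exact tendsto_of_tendsto_of_tendsto_of_le_of_le tendsto_const_nhds h2 (fun _ => zero_le) h

theorem vel_mo {T δ : ℝ} (hδ : 0 < δ) {v : ST n → Eu n} {G : ST n → Mt n}
    (h : IsVel Ω T v G) : mo δ (fun z => sp (G z)) =ᵐ[volume] msv δ v := by
  obtain ⟨vs, Gs, hel, hv, hG, -, -⟩ := h.exists_seq
  obtain ⟨C, hC, hb⟩ := msv_bound (n := n) hδ
  have hmv : ∀ k, MemLp (vs k) 2 volume := fun k => (hel k).memLp.1
  have hmG : ∀ k, MemLp (Gs k) 2 volume := fun k => (hel k).memLp.2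
  -- first difference
  have h1 : Tendsto (fun k => eLpNorm (fun z => mo δ (fun z => sp (Gs k z)) z -
      mo δ (fun z => sp (G z)) z) 2 volume) atTop (𝓝 0) := by
    refine tendsto_zero_of_le_mul (C := ENNReal.ofReal ‖spL n‖) ENNReal.ofReal_ne_top hG
      fun k => ?_
    rw [mo_eq_spc, mo_eq_spc]
    refine (spc_sub_le (ro_integrable hδ) (sp_memLp (hmG k)) (sp_memLp h.memG)).trans ?_
    rw [ro_lint hδ, one_mul]
    have e1 : (fun z => sp (Gs k z) - sp (G z)) = fun z => spL n (Gs k z - G z) := by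
      funext z; rw [map_sub]; rfl
    rw [e1]
    exact eLpNorm_clm_le _ _
  -- second difference
  have h2 : Tendsto (fun k => eLpNorm (fun z => msv δ (vs k) z - msv δ v z) 2 volume) atTop
      (𝓝 0) := by
    refine tendsto_zero_of_le_mul hC hv fun k => ?_
    rw [← eLpNorm_congr_ae (msv_sub hδ (hmv k) h.memv)]
    exact hb _ ((hmv k).sub h.memv)
  have hm1 : AEStronglyMeasurable (mo δ (fun z => sp (G z))) volume := by
    rw [mo_eq_spc]; exact (spc_memLp (ro_integrable hδ) (sp_memLp h.memG)).1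
  have hm1k : ∀ k, AEStronglyMeasurable (mo δ (fun z => sp (Gs k z))) volume := by
    intro k
    rw [mo_eq_spc]; exact (spc_memLp (ro_integrable hδ) (sp_memLp (hmG k))).1
  have h3 : eLpNorm (fun z => mo δ (fun z => sp (G z)) z - msv δ v z) 2 volume = 0 := by
    have h4 : ∀ k, eLpNorm (fun z => mo δ (fun z => sp (G z)) z - msv δ v z) 2 volume ≤
        eLpNorm (fun z => mo δ (fun z => sp (Gs k z)) z - mo δ (fun z => sp (G z)) z) 2 volume +
        eLpNorm (fun z => msv δ (vs k) z - msv δ v z) 2 volume := by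
      intro k
      have e1 : (fun z => mo δ (fun z => sp (G z)) z - msv δ v z) =
          (fun z => msv δ (vs k) z - msv δ v z) -
          (fun z => mo δ (fun z => sp (Gs k z)) z - mo δ (fun z => sp (G z)) z) := by
        funext z
        simp only [Pi.sub_apply]
        rw [elem_mo hδ (hel k) z]
        abel
      rw [e1, add_comm]
      exact eLpNorm_sub_le ((msv_aesm hδ (hmv k)).sub (msv_aesm hδ h.memv))
        ((hm1k k).sub hm1) (by norm_num)
    have h5 := h1.add h2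
    rw [add_zero] at h5
    exact le_antisymm (ge_of_tendsto h5 (Eventually.of_forall h4)) zero_le
  have h6 := (eLpNorm_eq_zero_iff (hm1.sub (msv_aesm hδ h.memv)) (by norm_num)).1 h3
  filter_upwards [h6] with z hz
  exact sub_eq_zero.1 hz

theorem mspin_strong (hΩ : MeasurableSet Ω) {T δ : ℝ} (hδ : 0 < δ) {vs : ℕ → ST n → Eu n}
    {Gs : ℕ → ST n → Mt n} {v : ST n → Eu n} {G : ST n → Mt n}
    (hv : ∀ m, IsVel Ω T (vs m) (Gs m)) (hvl : IsVel Ω T v G)
    (hs : Tendsto (fun m => eLpNorm (fun z => vs m z - v z) 2 volume) atTop (𝓝 0)) :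
    Tendsto (fun m => eLpNorm (fun z => mspin Ω δ (Gs m) z - mspin Ω δ G z) 2 volume) atTop
      (𝓝 0) := by
  obtain ⟨C, hC, hb⟩ := msv_bound (n := n) hδ
  refine tendsto_zero_of_le_mul hC hs fun m => ?_
  have h1 : ∀ᵐ z, ‖mspin Ω δ (Gs m) z - mspin Ω δ G z‖ ≤ ‖msv δ (fun z => vs m z - v z) z‖ := by
    filter_upwards [vel_mo hδ (hv m), vel_mo hδ hvl, msv_sub hδ (hv m).memv hvl.memv]
      with z h1 h2 h3
    by_cases hz : z.2 ∈ Ω
    · simp only [mspin, indicator_of_mem hz]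
      rw [h1, h2, h3]
    · simp only [mspin, indicator_of_notMem hz, sub_zero, norm_zero]
      exact norm_nonneg _
  exact (eLpNorm_mono_ae h1).trans (hb _ ((hv m).memv.sub hvl.memv))

end Pool.Agent.Helper42.Jef
end
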