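import Pool.Agent.Helper42.JefB.F1
import Pool.Agent.Helper42.JefB.D1
import Pool.Agent.Helper42.JefB.C3
import Pool.Agent.Helper42.JefB.D4

section
/-! # The regularised problem: setup of the limit -/

open MeasureTheory Set Filter Topology
open scoped ENNReal NNReal ContDiff

namespace Pool.Agent.Helper42.Jef

set_option maxHeartbeats 400000

variable {n : ℕ} {Ω : Set (Eu n)}

/-- `L^∞(0,T;L²)` bound in averaged form -/
def LB {E : Type*} [NormedAddCommGroup E] (T M : ℝ) (u : ST n → E) : Prop :=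
  ∀ I : Set ℝ, MeasurableSet I → I ⊆ Ioo 0 T →
    ∫⁻ z in I ×ˢ (univ : Set (Eu n)), ‖u z‖ₑ ^ 2 ≤ ENNReal.ofReal M * volume I

/-- the bounds of the approximate solutions on all shorter time intervals -/
structure Bd (Mf : ℝ → ℝ) (T : ℝ) (v : ST n → Eu n) (G τ : ST n → Mt n) : Prop where
  v : ∀ T' : ℝ, 0 ≤ T' → T' ≤ T → LB T' (Mf T') v
  τ : ∀ T' : ℝ, 0 ≤ T' → T' ≤ T → LB T' (Mf T') τ
  G : ∀ T' : ℝ, 0 ≤ T' → T' ≤ T →
    ∫⁻ z in Ioo 0 T' ×ˢ (univ : Set (Eu n)), ‖G z‖ₑ ^ 2 ≤ ENNReal.ofReal (Mf T')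

theorem LB.of_wc {E : Type*} [NormedAddCommGroup E] [InnerProductSpace ℝ E] {T M : ℝ}
    (hM : 0 ≤ M) {us : ℕ → ST n → E} {u : ST n → E} (h : WC volume us u)
    (hb : ∀ m, LB T M (us m)) : LB T M u := by
  intro I hI hIT
  have hfin : volume I ≠ ⊤ := by
    refine ((measure_mono hIT).trans_lt ?_).ne
    rw [Real.volume_Ioo]; exact ENNReal.ofReal_lt_top
  have e1 : ENNReal.ofReal M * volume I = ENNReal.ofReal (M * (volume I).toReal) := by
    rw [ENNReal.ofReal_mul hM, ENNReal.ofReal_toReal hfin]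
  rw [e1]
  refine Pool.Agent.Helper50.JS.bound_of_wc h hI (Eventually.of_forall fun m => ?_)
  rw [← e1]
  exact hb m I hI hIT

theorem Bd.of_wc {Mf : ℝ → ℝ} (hM : ∀ T, 0 ≤ Mf T) {T : ℝ} {vs : ℕ → ST n → Eu n}
    {Gs τs : ℕ → ST n → Mt n} {v : ST n → Eu n} {G τ : ST n → Mt n} (hv : WC volume vs v)
    (hG : WC volume Gs G) (hτ : WC volume τs τ) (h : ∀ m, Bd Mf T (vs m) (Gs m) (τs m)) :
    Bd Mf T v G τ where
  v T' h1 h2 := LB.of_wc (hM T') hv fun m => (h m).v T' h1 h2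
  τ T' h1 h2 := LB.of_wc (hM T') hτ fun m => (h m).τ T' h1 h2
  G T' h1 h2 := Pool.Agent.Helper50.JS.bound_of_wc hG measurableSet_Ioo
    (Eventually.of_forall fun m => (h m).G T' h1 h2)

/-- bounds of a Galerkin curve -/
theorem gal_bd {S : Submodule ℝ (DD Ω)} [FiniteDimensional ℝ S] {T : ℝ} (hT : 0 < T) {U : ℝ → S}
    (hU : Continuous U) {Mf : ℝ → ℝ} (h : ∀ T' : ℝ, 0 ≤ T' → T' ≤ T →
      (∀ t ∈ Icc 0 T', ‖U t‖ ^ 2 ≤ Mf T') ∧ ∫ s in Ioo 0 T', dir (U s : DD Ω) ≤ Mf T') :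
    Bd Mf T (gv T fun t => (U t : DD Ω)) (gG T fun t => (U t : DD Ω))
      (gt T fun t => (U t : DD Ω)) := by
  have hel := (curve_elem hT hU).memLp
  have hgt := curve_gt hT hU
  constructor
  · intro T' h1 h2 I hI hIT
    exact slab_bound hel.1.1 hI fun t ht => gv_slice_lint t fun _ =>
      (h T' h1 h2).1 t (Ioo_subset_Icc_self (hIT ht))
  · intro T' h1 h2 I hI hIT
    exact slab_bound hgt.1 hI fun t ht => gt_slice_lint t fun _ =>
      (h T' h1 h2).1 t (Ioo_subset_Icc_self (hIT ht))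
  · intro T' h1 h2
    have hdc : Continuous fun s => dir (U s : DD Ω) := dir_cont hU
    have hdi : IntegrableOn (fun s => dir (U s : DD Ω)) (Ioo 0 T') :=
      (hdc.integrableOn_Icc (a := 0) (b := T')).mono_set Ioo_subset_Icc_self
    rw [gG_slab h2 hel.2.1 hdi]
    exact ENNReal.ofReal_le_ofReal (h T' h1 h2).2

/-- the statement of the compactness module -/
def StrongConv (n : ℕ) : Prop :=
  ∀ (Ω : Set (Eu n)), IsOpen Ω → Bornology.IsBounded Ω → ∀ (T : ℝ), 0 < T →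
    ∀ (vs : ℕ → ST n → Eu n) (Gs : ℕ → ST n → Mt n) (v : ST n → Eu n) (G : ST n → Mt n),
    (∀ m, IsVel Ω T (vs m) (Gs m)) → IsVel Ω T v G → ∀ M : ℝ,
    (∀ m, eLpNorm (Gs m) 2 volume ≤ ENNReal.ofReal M) → WC volume vs v →
    (∀ m, ∀ I : Set ℝ, MeasurableSet I →
      ∫⁻ z in I ×ˢ (univ : Set (Eu n)), ‖vs m z‖ₑ ^ 2 ≤ ENNReal.ofReal M * volume I) →
    (∀ φ, IsVT Ω φ → ∀ ε : ℝ, 0 < ε → ∃ (C : ℝ) (m0 : ℕ), ∀ m ≥ m0, ∀ η, IsTime 0 T η →
      |∫ z : ST n, deriv η z.1 * inner ℝ (vs m z) (φ z.2)| ≤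
        C * Real.sqrt (∫ t, η t ^ 2) + ε * ∫ t, |deriv η t|) →
    Tendsto (fun m => eLpNorm (fun z => vs m z - v z) 2 volume) atTop (𝓝 0)

noncomputable def SSp (d : ℕ → DD Ω) (N : ℕ) : Submodule ℝ (DD Ω) :=
  Submodule.span ℝ (d '' Iio N)

instance instFDSSp (d : ℕ → DD Ω) (N : ℕ) : FiniteDimensional ℝ (SSp d N) :=
  FiniteDimensional.span_of_finite ℝ ((finite_Iio N).image d)

theorem mem_SSp (d : ℕ → DD Ω) {i N : ℕ} (h : i < N) : d i ∈ SSp d N :=
  Submodule.subset_span ⟨i, h, rfl⟩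

/-- `L²` bound from `LB` -/
theorem LB.eLpNorm {E : Type*} [NormedAddCommGroup E] {T M : ℝ} (hM : 0 ≤ M) (hT : 0 ≤ T)
    {u : ST n → E} (h0 : ∀ z : ST n, z.1 ∉ Ioo 0 T → u z = 0) (h : LB T M u) :
    eLpNorm u 2 volume ≤ ENNReal.ofReal (Real.sqrt (M * T)) := by
  have h1 := eLpNorm_of_slab h0 (h _ measurableSet_Ioo Subset.rfl)
  refine h1.trans (le_of_eq ?_)
  rw [Real.volume_Ioo, sub_zero, ← ENNReal.ofReal_mul hM,
    ENNReal.ofReal_rpow_of_nonneg (mul_nonneg hM hT) (by norm_num), Real.sqrt_eq_rpow]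

theorem slab_eLpNorm {E : Type*} [NormedAddCommGroup E] {T M : ℝ} (hM : 0 ≤ M)
    {u : ST n → E} (h0 : ∀ z : ST n, z.1 ∉ Ioo 0 T → u z = 0)
    (h : ∫⁻ z in Ioo 0 T ×ˢ (univ : Set (Eu n)), ‖u z‖ₑ ^ 2 ≤ ENNReal.ofReal M) :
    eLpNorm u 2 volume ≤ ENNReal.ofReal (Real.sqrt M) := by
  have h1 := eLpNorm_of_slab h0 h
  refine h1.trans (le_of_eq ?_)
  rw [ENNReal.ofReal_rpow_of_nonneg hM (by norm_num), Real.sqrt_eq_rpow]

/-- common weakly convergent subsequence of the three fields -/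
theorem wc_three {vs : ℕ → ST n → Eu n} {Gs τs : ℕ → ST n → Mt n}
    (h1 : ∀ m, MemLp (vs m) 2 volume) (h2 : ∀ m, MemLp (Gs m) 2 volume)
    (h3 : ∀ m, MemLp (τs m) 2 volume) {C : ℝ}
    (b1 : ∀ m, eLpNorm (vs m) 2 volume ≤ ENNReal.ofReal C)
    (b2 : ∀ m, eLpNorm (Gs m) 2 volume ≤ ENNReal.ofReal C)
    (b3 : ∀ m, eLpNorm (τs m) 2 volume ≤ ENNReal.ofReal C) :
    ∃ φ : ℕ → ℕ, StrictMono φ ∧ ∃ (v : ST n → Eu n) (G τ : ST n → Mt n),
      WC volume (fun m => vs (φ m)) v ∧ WC volume (fun m => Gs (φ m)) G ∧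
      WC volume (fun m => τs (φ m)) τ := by
  obtain ⟨φ1, hφ1, w1⟩ := wc_compact (ι := Unit) (fun _ m => vs m) (fun _ => h1)
    (fun _ => ⟨C, b1⟩)
  obtain ⟨v, hv⟩ := w1 ()
  obtain ⟨φ2, hφ2, w2⟩ := wc_compact (ι := Bool) (μ := (volume : Measure (ST n)))
    (fun b m => if b then Gs (φ1 m) else τs (φ1 m))
    (fun b m => by cases b <;> simp [h2, h3])
    (fun b => ⟨C, fun m => by cases b <;> simp [b2, b3]⟩)
  obtain ⟨G, hG⟩ := w2 true
  obtain ⟨τ, hτ⟩ := w2 false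
  refine ⟨fun m => φ1 (φ2 m), hφ1.comp hφ2, v, G, τ, ?_, ?_, ?_⟩
  · exact hv.subseq hφ2
  · simpa using hG
  · simpa using hτ

end Pool.Agent.Helper42.Jef
end

section
/-! # The weak formulation as a functional; density of test functions -/

open MeasureTheory Set Filter Topology
open scoped ENNReal NNReal ContDiff

namespace Pool.Agent.Helper42.Jef

set_option maxHeartbeats 400000

variable {n : ℕ} {Ω : Set (Eu n)}

theorem eta_memLp_Ioo {s b : ℝ} {η : ℝ → ℝ} (hη : IsTime s b η) (T : ℝ) :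
    MemLp η 2 (volume.restrict (Ioo 0 T)) := memLp_cont_Ioo hη.cont T

theorem force_int {f : ℝ → (Eu n → Eu n) → ℝ} {g : ℝ → ℝ} (hf : IsForce Ω f g) (T : ℝ)
    {s b : ℝ} {η : ℝ → ℝ} (hη : IsTime s b η) {φ : Eu n → Eu n} (hφ : IsVT Ω φ) :
    IntegrableOn (fun t => η t * f t φ) (Ioo 0 T) :=
  (eta_memLp_Ioo hη T).integrable_mul (force_memLp hf T hφ)

theorem force_zero {f : ℝ → (Eu n → Eu n) → ℝ} {g : ℝ → ℝ} (hf : IsForce Ω f g)
    (h0 : IsVT Ω (0 : Eu n → Eu n)) (t : ℝ) : f t 0 = 0 := by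
  have := hf.smul t 0 0 h0
  simpa using this

theorem force_sub {f : ℝ → (Eu n → Eu n) → ℝ} {g : ℝ → ℝ} (hf : IsForce Ω f g) (t : ℝ)
    (V W : DD Ω) : f t (vf (V - W)) = f t (vf V) - f t (vf W) :=
  (forceL hf t).map_sub V W

/-- error of the approximate force -/
theorem force_diff {f : ℝ → (Eu n → Eu n) → ℝ} {g : ℝ → ℝ} (hf : IsForce Ω f g) (T : ℝ)
    (S : Submodule ℝ (DD Ω)) [FiniteDimensional ℝ S] {F : ℝ → S} (hF : Continuous F) {ε : ℝ}
    (hε : 0 ≤ ε)
    (hFe : eLpNorm (fun t => forceR hf S t - F t) 2 (volume.restrict (Ioo 0 T)) ≤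
      ENNReal.ofReal ε) {s b : ℝ} {η : ℝ → ℝ} (hη : IsTime s b η) (V : S) :
    |(∫ t in Ioo 0 T, η t * inner ℝ (F t) V) - ∫ t in Ioo 0 T, η t * f t (vf (V : DD Ω))| ≤
      ‖V‖ * Real.sqrt (∫ t in Ioo 0 T, ‖η t‖ ^ 2) * ε := by
  have hFm : MemLp (fun t => forceR hf S t - F t) 2 (volume.restrict (Ioo 0 T)) := by
    refine ⟨(forceR_memLp hf S T).1.sub hF.aestronglyMeasurable, ?_⟩
    exact hFe.trans_lt ENNReal.ofReal_lt_top
  have hηm := eta_memLp_Ioo hη T
  have i1 : IntegrableOn (fun t => η t * inner ℝ (F t) V) (Ioo 0 T) :=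
    ((hη.cont.mul (hF.inner continuous_const)).integrableOn_Icc (a := 0) (b := T)).mono_set
      Ioo_subset_Icc_self
  have i2 := force_int hf T hη (vf_vt (V : DD Ω))
  rw [← integral_sub i1 i2]
  have e1 : ∀ t, η t * inner ℝ (F t) V - η t * f t (vf (V : DD Ω)) =
      - (η t * inner ℝ (forceR hf S t - F t) V) := by
    intro t
    rw [inner_sub_left, forceR_inner]; ring
  simp only [e1]
  rw [integral_neg, abs_neg]
  have h1 := cs_norm hηm hFm
  have h2 : |∫ t in Ioo 0 T, η t * inner ℝ (forceR hf S t - F t) V| ≤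
      ∫ t in Ioo 0 T, ‖V‖ * (‖η t‖ * ‖forceR hf S t - F t‖) := by
    rw [← Real.norm_eq_abs]
    refine (norm_integral_le_integral_norm _).trans ?_
    refine integral_mono_of_nonneg (Eventually.of_forall fun t => norm_nonneg _)
      ((hηm.norm.integrable_mul hFm.norm).const_mul _) (Eventually.of_forall fun t => ?_)
    show ‖η t * inner ℝ (forceR hf S t - F t) V‖ ≤ ‖V‖ * (‖η t‖ * ‖forceR hf S t - F t‖)
    rw [norm_mul]
    calc ‖η t‖ * ‖inner ℝ (forceR hf S t - F t) V‖ ≤ ‖η t‖ * (‖forceR hf S t - F t‖ * ‖V‖) :=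
          mul_le_mul_of_nonneg_left (norm_inner_le_norm _ _) (norm_nonneg _)
      _ = _ := by ring
  refine h2.trans ?_
  rw [integral_const_mul, mul_assoc]
  refine mul_le_mul_of_nonneg_left (h1.trans ?_) (norm_nonneg _)
  refine mul_le_mul_of_nonneg_left ?_ (Real.sqrt_nonneg _)
  rw [← toReal_eLpNorm_sq hFm, Real.sqrt_sq ENNReal.toReal_nonneg]
  exact ENNReal.toReal_le_of_le_ofReal hε hFe

/-- the weak formulation as a functional of the test pair -/
noncomputable def Fun (μ a c : ℝ) (f : ℝ → (Eu n → Eu n) → ℝ) {v0 : Eu n → Eu n}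
    {τ0 : Eu n → Mt n} (hv0 : MemLp v0 2 volume) (hτ0 : MemLp τ0 2 volume) (T : ℝ)
    (v : ST n → Eu n) (G τ S : ST n → Mt n) (η : ℝ → ℝ) (V : DD Ω) : ℝ :=
  (∫ z, LLi μ a c v G τ S η V z) + (∫ t in Ioo 0 T, η t * f t (vf V)) + η 0 * initL hv0 hτ0 V

theorem fun_dense {μ a c : ℝ} {f : ℝ → (Eu n → Eu n) → ℝ} {g : ℝ → ℝ} (hf : IsForce Ω f g)
    {v0 : Eu n → Eu n}
    {τ0 : Eu n → Mt n} (hv0 : MemLp v0 2 volume) (hτ0 : MemLp τ0 2 volume) (T : ℝ)
    {v : ST n → Eu n} {G τ S : ST n → Mt n} (hv : MemLp v 2 volume) (hG : MemLp G 2 volume)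
    (hτ : MemLp τ 2 volume) (hS : MemLp S 2 volume) {s b : ℝ} {η : ℝ → ℝ} (hη : IsTime s b η)
    {d : ℕ → DD Ω}
    (hd : ∀ p : DD Ω, ∃ R : ℝ, Van R p ∧ ∀ ε : ℝ, 0 < ε → ∃ i, Van R (d i) ∧
      (∀ x, ‖vf (d i) x - vf p x‖ ≤ ε) ∧ (∀ x, ‖tf (d i) x - tf p x‖ ≤ ε) ∧
      (∀ x, ‖fderiv ℝ (vf (d i)) x - fderiv ℝ (vf p) x‖ ≤ ε) ∧
      (∀ x, ‖fderiv ℝ (tf (d i)) x - fderiv ℝ (tf p) x‖ ≤ ε))
    (h : ∀ i, Fun μ a c f hv0 hτ0 T v G τ S η (d i) = 0) (V : DD Ω) :
    Fun μ a c f hv0 hτ0 T v G τ S η V = 0 := by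
  obtain ⟨R, hR, happ⟩ := hd V
  obtain ⟨K1, hK1⟩ := LLi_bound (Ω := Ω) (μ := μ) (a := a) (c := c) hv hG hτ hS hη R
  obtain ⟨K2, hK20, hK2⟩ := force_bound hf R
  set X := (∫ x, ‖v0 x‖ ^ 2) + ∫ x, ‖τ0 x‖ ^ 2
  set B := Real.sqrt (2 * (volume (Metric.closedBall (0 : Eu n) R)).toReal)
  have hgm : MemLp g 2 (volume.restrict (Ioo 0 T)) := by
    rw [memLp_two_iff_integrable_sq hf.gmeas.restrict]
    exact hf.gint T
  have hgi : IntegrableOn (fun t => ‖η t‖ * ‖g t‖) (Ioo 0 T) :=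
    (eta_memLp_Ioo hη T).norm.integrable_mul hgm.norm
  set Y := ∫ t in Ioo 0 T, ‖η t‖ * ‖g t‖
  have hY : 0 ≤ Y := integral_nonneg fun t => by positivity
  -- linearity
  have hlin : ∀ V W : DD Ω, Fun μ a c f hv0 hτ0 T v G τ S η (V - W) =
      Fun μ a c f hv0 hτ0 T v G τ S η V - Fun μ a c f hv0 hτ0 T v G τ S η W := by
    intro V W
    simp only [Fun]
    have e1 : ∫ z, LLi μ a c v G τ S η (V - W) z =
        (∫ z, LLi μ a c v G τ S η V z) - ∫ z, LLi μ a c v G τ S η W z := by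
      rw [← integral_sub (LLi_int hv hG hτ hS hη V) (LLi_int hv hG hτ hS hη W)]
      exact integral_congr_ae (Eventually.of_forall fun z => LLi_sub V W z)
    have e2 : ∫ t in Ioo 0 T, η t * f t (vf (V - W)) =
        (∫ t in Ioo 0 T, η t * f t (vf V)) - ∫ t in Ioo 0 T, η t * f t (vf W) := by
      rw [← integral_sub (force_int hf T hη (vf_vt V)) (force_int hf T hη (vf_vt W))]
      refine integral_congr_ae (Eventually.of_forall fun t => ?_)
      simp only [force_sub hf]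
      ring
    rw [e1, e2, map_sub]
    ring
  -- bound
  have hbd : ∀ ε : ℝ, 0 < ε → |Fun μ a c f hv0 hτ0 T v G τ S η V| ≤
      ε * (K1 + K2 * Y + |η 0| * (Real.sqrt X * B)) := by
    intro ε hε
    obtain ⟨i, hi1, hi2, hi3, hi4, hi5⟩ := happ ε hε
    have hsm : Small R ε (d i - V) := by
      have hs : d i - V = d i + (-1 : ℝ) • V := by rw [neg_one_smul, sub_eq_add_neg]
      have hv' : vf (d i - V) = vf (d i) - vf V := by
        rw [hs, vf_add, vf_smul, neg_one_smul, sub_eq_add_neg]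
      have ht' : tf (d i - V) = tf (d i) - tf V := by
        rw [hs, tf_add, tf_smul, neg_one_smul, sub_eq_add_neg]
      refine ⟨fun x hx => ?_, fun x => ?_, fun x => ?_, fun x => ?_, fun x => ?_⟩
      · rw [hv', ht']
        simp only [Pi.sub_apply, (hi1 x hx).1, (hi1 x hx).2, (hR x hx).1, (hR x hx).2, sub_zero]
        exact ⟨trivial, trivial⟩
      · rw [hv']; exact hi2 x
      · rw [ht']; exact hi3 x
      · rw [hv', fderiv_sub (vf_diff _ x) (vf_diff _ x)]; exact hi4 x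
      · rw [ht', fderiv_sub (tf_diff _ x) (tf_diff _ x)]; exact hi5 x
    have h0 : Fun μ a c f hv0 hτ0 T v G τ S η V =
        - Fun μ a c f hv0 hτ0 T v G τ S η (d i - V) := by
      rw [hlin, h i]; ring
    rw [h0, abs_neg]
    have b1 := hK1 ε hε.le _ hsm
    have b2 : |∫ t in Ioo 0 T, η t * f t (vf (d i - V))| ≤ ε * (K2 * Y) := by
      have c1 : |∫ t in Ioo 0 T, η t * f t (vf (d i - V))| ≤
          ∫ t in Ioo 0 T, (ε * K2) * (‖η t‖ * ‖g t‖) := by
        rw [← Real.norm_eq_abs]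
        refine (norm_integral_le_integral_norm _).trans ?_
        refine integral_mono_of_nonneg (Eventually.of_forall fun t => norm_nonneg _)
          (hgi.const_mul _) (Eventually.of_forall fun t => ?_)
        show ‖η t * f t (vf (d i - V))‖ ≤ (ε * K2) * (‖η t‖ * ‖g t‖)
        rw [norm_mul]
        have c2 := hK2 ε hε.le _ hsm t
        calc ‖η t‖ * ‖f t (vf (d i - V))‖ ≤ ‖η t‖ * (g t * (ε * K2)) :=
              mul_le_mul_of_nonneg_left c2 (norm_nonneg _)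
          _ = (ε * K2) * (‖η t‖ * ‖g t‖) := by
              rw [Real.norm_eq_abs (g t), abs_of_nonneg (hf.gnn t)]; ring
      rw [integral_const_mul] at c1
      calc _ ≤ _ := c1
        _ = _ := by ring
    have b3 : |initL hv0 hτ0 (d i - V)| ≤ ε * (Real.sqrt X * B) := by
      have c1 := initL_le hv0 hτ0 (d i - V)
      have c2 := initL_le hv0 hτ0 (-(d i - V))
      rw [map_neg, norm_neg] at c2
      have c3 := hsm.norm_le hε.le
      have c4 : Real.sqrt X * ‖d i - V‖ ≤ ε * (Real.sqrt X * B) := by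
        calc Real.sqrt X * ‖d i - V‖ ≤ Real.sqrt X * (ε * B) :=
              mul_le_mul_of_nonneg_left c3 (Real.sqrt_nonneg _)
          _ = _ := by ring
      rw [abs_le]
      constructor
      · linarith
      · exact c1.trans c4
    have b4 : |η 0 * initL hv0 hτ0 (d i - V)| ≤ ε * (|η 0| * (Real.sqrt X * B)) := by
      rw [abs_mul]
      calc |η 0| * |initL hv0 hτ0 (d i - V)| ≤ |η 0| * (ε * (Real.sqrt X * B)) :=
            mul_le_mul_of_nonneg_left b3 (abs_nonneg _)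
        _ = _ := by ring
    simp only [Fun]
    refine (abs_add_le _ _).trans ((add_le_add (abs_add_le _ _) le_rfl).trans ?_)
    calc _ ≤ ε * K1 + ε * (K2 * Y) + ε * (|η 0| * (Real.sqrt X * B)) :=
          add_le_add (add_le_add b1 b2) b4
      _ = _ := by ring
  set K := K1 + K2 * Y + |η 0| * (Real.sqrt X * B)
  have hK : 0 ≤ K := by
    have := (abs_nonneg _).trans (hbd 1 one_pos)
    linarith
  by_contra hne
  have hpos : 0 < |Fun μ a c f hv0 hτ0 T v G τ S η V| := abs_pos.2 hne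
  have h1 := hbd (|Fun μ a c f hv0 hτ0 T v G τ S η V| / (2 * (K + 1)))
    (div_pos hpos (by positivity))
  set A := |Fun μ a c f hv0 hτ0 T v G τ S η V|
  have h2 : A / (2 * (K + 1)) * K ≤ A / 2 := by
    have h3 : A / (2 * (K + 1)) * K = A / 2 * (K / (K + 1)) := by
      field_simp
    rw [h3]
    have h4 : K / (K + 1) ≤ 1 := by
      rw [div_le_one (by positivity)]; linarith
    nlinarith
  linarith

end Pool.Agent.Helper42.Jef
end

section
/-! # From the functional form to `IsSol` -/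

open MeasureTheory Set Filter Topology
open scoped ENNReal NNReal ContDiff

namespace Pool.Agent.Helper42.Jef

set_option maxHeartbeats 400000

variable {n : ℕ} {Ω : Set (Eu n)}

/-- matrix unit -/
noncomputable def ep (p : Fin n × Fin n) : Mt n := EuclideanSpace.single p (1 : ℝ)

theorem inner_ep (A : Mt n) (p : Fin n × Fin n) : inner ℝ A (ep p) = A p := by
  simp [ep, EuclideanSpace.inner_single_right]

/-- the pair `(0, ψ e_p)` -/
noncomputable def tpair (Ω : Set (Eu n)) {ψ : Eu n → ℝ} (hψ : IsTest ψ) (p : Fin n × Fin n) :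
    DD Ω :=
  DD.mk 0 (fun x => ψ x • ep p) IsVT.zero (hψ.smooth.smul contDiff_const) hψ.cpt.smul_right

theorem smul_int2 {α : Type*} [MeasurableSpace α] {μ : Measure α} {E : Type*}
    [NormedAddCommGroup E] [NormedSpace ℝ E] {f : α → ℝ} {u : α → E} (hf : MemLp f 2 μ)
    (hu : MemLp u 2 μ) : Integrable (fun x => f x • u x) μ := by
  have h1 : Integrable (fun x => ‖f x‖ * ‖u x‖) μ := hf.norm.integrable_mul hu.norm
  exact h1.mono' (hf.1.smul hu.1) (Eventually.of_forall fun x => by rw [norm_smul])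

/-- integrand of the stress equation -/
noncomputable def stI (a c : ℝ) (v : ST n → Eu n) (G τ S : ST n → Mt n) (η : ℝ → ℝ)
    (ψ : Eu n → ℝ) (z : ST n) : Mt n :=
  (deriv η z.1 * ψ z.2 + η z.1 * fderiv ℝ ψ z.2 (v z)) • τ z +
      (η z.1 * ψ z.2) • (c • sy (G z) - a • τ z - br (τ z) (S z))

theorem stI_int {a c : ℝ} {v : ST n → Eu n} {G τ S : ST n → Mt n} (hv : MemLp v 2 volume)
    (hG : MemLp G 2 volume) (hτ : MemLp τ 2 volume) (hS : MemLp S 2 volume) {s b : ℝ}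
    {η : ℝ → ℝ} (hη : IsTime s b η) {ψ : Eu n → ℝ} (hψ : IsTest ψ) :
    Integrable (stI a c v G τ S η ψ) := by
  have m1 : MemLp (fun z : ST n => deriv η z.1 * ψ z.2) 2 volume :=
    memLp_test (E := ℝ) hη.dcont hη.cpt.deriv hψ.smooth.continuous hψ.cpt
  have m2 : MemLp (fun z : ST n => η z.1 * fderiv ℝ ψ z.2 (v z)) 2 volume :=
    (strong_D (vs := fun _ => v) (fun _ => hv) hv (by simp) hη.cont hη.cpt hψ.smooth
      hψ.cpt).2.1
  have m3 : MemLp (fun z : ST n => η z.1 * ψ z.2) 2 volume :=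
    memLp_test (E := ℝ) hη.cont hη.cpt hψ.smooth.continuous hψ.cpt
  have hsG : MemLp (fun z => sy (G z)) 2 volume := (syL n).comp_memLp' hG
  have i1 : Integrable (fun z => (deriv η z.1 * ψ z.2 + η z.1 * fderiv ℝ ψ z.2 (v z)) • τ z) :=
    smul_int2 (m1.add m2) hτ
  have i2 : Integrable (fun z : ST n => (η z.1 * ψ z.2) • (c • sy (G z) - a • τ z)) :=
    smul_int2 m3 ((hsG.const_smul c).sub (hτ.const_smul a))
  have i3 : Integrable (fun z : ST n => (η z.1 * ψ z.2) • br (τ z) (S z)) := by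
    have h1 : Integrable (fun z => br (τ z) (S z)) volume := by
      have h2 : Integrable (fun x => ‖τ x‖ * ‖S x‖) volume := hτ.norm.integrable_mul hS.norm
      refine (h2.const_mul 2).mono' ((brL n).aestronglyMeasurable_comp₂ hτ.1 hS.1)
        (Eventually.of_forall fun x => norm_br_le _ _)
    obtain ⟨C1, hC1⟩ := hη.bounded.1
    obtain ⟨C2, hC2⟩ := hψ.smooth.continuous.bounded_above_of_compact_support hψ.cpt
    refine h1.bdd_smul (C1 * C2) m3.1 (Eventually.of_forall fun z => ?_)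
    rw [norm_mul]
    exact mul_le_mul (hC1 _) (hC2 _) (norm_nonneg _) ((abs_nonneg _).trans (hC1 0))
  refine (i1.add (i2.sub i3)).congr (Eventually.of_forall fun z => ?_)
  simp only [Pi.add_apply, Pi.sub_apply, stI, ← smul_sub]

theorem isSol_of_fun {μ a c : ℝ} {f : ℝ → (Eu n → Eu n) → ℝ} {g : ℝ → ℝ} (hf : IsForce Ω f g)
    {v0 : Eu n → Eu n}
    {τ0 : Eu n → Mt n} (hv0 : MemLp v0 2 volume) (hτ0 : MemLp τ0 2 volume) {T : ℝ}
    {v : ST n → Eu n} {G τ S : ST n → Mt n} (hv : IsVel Ω T v G)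
    (hτ : MemLp τ 2 volume) (hS : MemLp S 2 volume)
    (hsup : ∀ z : ST n, z.1 ∉ Ioo 0 T → τ z = 0)
    (h : ∀ η, IsTime (-1) T η → ∀ V : DD Ω, Fun μ a c f hv0 hτ0 T v G τ S η V = 0) :
    IsSol Ω T μ a c f v0 τ0 S v G τ where
  vel := hv
  memτ := hτ
  supτ := hsup
  memS := hS
  mom := by
    intro η φ hη hφ
    have h1 := h η hη (vpair hφ)
    simp only [Fun] at h1
    have e1 : ∀ z, LLi μ a c v G τ S η (vpair hφ) z =
        (deriv η z.1 * inner ℝ (v z) (φ z.2) +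
      η z.1 * (inner ℝ (v z) (fderiv ℝ φ z.2 (v z)) - μ * inner ℝ (G z) (grad φ z.2) -
        c * inner ℝ (τ z) (sy (grad φ z.2)))) := by
      intro z
      have ht : tf (vpair hφ) = 0 := rfl
      have hv' : vf (vpair hφ) = φ := rfl
      simp only [LLi, ht, hv', Pi.zero_apply, inner_zero_right, fderiv_zero,
        _root_.zero_apply, mul_zero, add_zero, sub_zero]
    have e2 : initL hv0 hτ0 (vpair hφ) = ∫ x, inner ℝ (v0 x) (φ x) := by
      have : initL hv0 hτ0 (vpair hφ) = (∫ x, inner ℝ (v0 x) (vf (vpair hφ) x)) +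
        ∫ x, inner ℝ (τ0 x) (tf (vpair hφ) x) := rfl
      rw [this]
      have ht : tf (vpair hφ) = 0 := rfl
      have hv' : vf (vpair hφ) = φ := rfl
      simp only [ht, hv', Pi.zero_apply, inner_zero_right, integral_zero, add_zero]
    simp only [e1] at h1
    rw [e2] at h1
    exact h1
  str := by
    intro η ψ hη hψ
    have hint := stI_int (a := a) (c := c) hv.memv hv.memG hτ hS hη hψ
    have hi2 : Integrable (fun x => ψ x • τ0 x) :=
      smul_int2 (memLp_cc hψ.smooth.continuous hψ.cpt 2) hτ0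
    show (∫ z, stI a c v G τ S η ψ z) + η 0 • ∫ x, ψ x • τ0 x = 0
    ext p
    have h1 := h η hη (tpair Ω hψ p)
    simp only [Fun] at h1
    have hv' : vf (tpair Ω hψ p) = 0 := rfl
    have ht : tf (tpair Ω hψ p) = fun x => ψ x • ep p := rfl
    have hfd : ∀ x w, fderiv ℝ (fun x => ψ x • ep p) x w = (fderiv ℝ ψ x w) • ep p := by
      intro x w
      rw [fderiv_smul_const (hψ.smooth.differentiable (by simp) x)]
      rfl
    have hg0 : ∀ x : Eu n, grad (0 : Eu n → Eu n) x = 0 := by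
      intro x
      rw [grad_eq, fderiv_zero]
      exact map_zero _
    have hs0 : sy (0 : Mt n) = 0 := (syL n).map_zero
    have e1 : ∀ z, LLi μ a c v G τ S η (tpair Ω hψ p) z = (stI a c v G τ S η ψ z) p := by
      intro z
      have r1 : (stI a c v G τ S η ψ z) p =
          (deriv η z.1 * ψ z.2 + η z.1 * fderiv ℝ ψ z.2 (v z)) * τ z p +
          (η z.1 * ψ z.2) * (c * sy (G z) p - a * τ z p - br (τ z) (S z) p) := rfl
      rw [r1]
      simp only [LLi, ht, hv', Pi.zero_apply, inner_zero_right, fderiv_zero,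
        _root_.zero_apply, mul_zero, add_zero, sub_zero, hfd, hg0, hs0, inner_smul_right,
        inner_ep, zero_add]
      ring
    have e2 : initL hv0 hτ0 (tpair Ω hψ p) = (∫ x, ψ x • τ0 x) p := by
      have r1 : initL hv0 hτ0 (tpair Ω hψ p) = (∫ x, inner ℝ (v0 x) (vf (tpair Ω hψ p) x)) +
        ∫ x, inner ℝ (τ0 x) (tf (tpair Ω hψ p) x) := rfl
      have r2 := (EuclideanSpace.proj (𝕜 := ℝ) p : Mt n →L[ℝ] ℝ).integral_comp_comm hi2
      rw [r1]
      simp only [ht, hv', Pi.zero_apply, inner_zero_right, integral_zero, zero_add,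
        inner_smul_right, inner_ep]
      exact r2
    have e3 : ∫ t in Ioo 0 T, η t * f t (vf (tpair Ω hψ p)) = 0 := by
      rw [hv']
      simp only [force_zero hf IsVT.zero, mul_zero, integral_zero]
    have e4 : (∫ z, stI a c v G τ S η ψ z) p = ∫ z, (stI a c v G τ S η ψ z) p :=
      ((EuclideanSpace.proj (𝕜 := ℝ) p : Mt n →L[ℝ] ℝ).integral_comp_comm hint).symm
    simp only [e1] at h1
    rw [e2, e3, add_zero, ← e4] at h1
    exact h1

end Pool.Agent.Helper42.Jef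
end

section
/-! # Existence for the regularised problem -/

open MeasureTheory Set Filter Topology
open scoped ENNReal NNReal ContDiff

namespace Pool.Agent.Helper42.Jef

set_option maxHeartbeats 1000000

variable {n : ℕ} {Ω : Set (Eu n)}

/-- cut-off in time of a weak limit of fields supported in `(0,T)` -/
theorem wc_cut {E : Type*} [NormedAddCommGroup E] [InnerProductSpace ℝ E]
    [FiniteDimensional ℝ E] {T : ℝ}
    {us : ℕ → ST n → E} {u : ST n → E} (h : WC volume us u)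
    (h0 : ∀ m, ∀ z : ST n, z.1 ∉ Ioo 0 T → us m z = 0) :
    WC volume us (fun z => (Ioo 0 T ×ˢ (univ : Set (Eu n))).indicator (fun _ => (1:ℝ)) z • u z) := by
  set ζ : ST n → ℝ := (Ioo 0 T ×ˢ (univ : Set (Eu n))).indicator (fun _ => (1:ℝ)) with hζ
  have hm : MeasurableSet (Ioo 0 T ×ˢ (univ : Set (Eu n))) :=
    measurableSet_Ioo.prod MeasurableSet.univ
  have h1 := wc_weight h (ζ := ζ) (C := 1)
    ((measurable_const.indicator hm).aestronglyMeasurable) (fun x => by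
      by_cases hx : x ∈ Ioo 0 T ×ˢ (univ : Set (Eu n))
      · simp [hζ, indicator_of_mem hx]
      · simp [hζ, indicator_of_notMem hx])
  refine h1.congr_seq fun m => Eventually.of_forall fun z => ?_
  by_cases hz : z ∈ Ioo 0 T ×ˢ (univ : Set (Eu n))
  · simp only [hζ, indicator_of_mem hz, one_smul]
  · have hz' : z.1 ∉ Ioo 0 T := fun hc => hz ⟨hc, trivial⟩
    simp only [hζ, indicator_of_notMem hz, zero_smul, h0 m z hz']

theorem reg_exists (hSC : StrongConv n) (hΩ : IsOpen Ω) (hΩb : Bornology.IsBounded Ω) {δ : ℝ}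
    (hδ : 0 < δ) {T μ a : ℝ} (hT : 0 < T) (hμ : 0 < μ) (ha : 0 ≤ a) (c : ℝ)
    {f : ℝ → (Eu n → Eu n) → ℝ} {g : ℝ → ℝ}
    (hf : IsForce Ω f g) {v0 : Eu n → Eu n} {τ0 : Eu n → Mt n} (hv0 : MemLp v0 2 volume)
    (hτ0 : MemLp τ0 2 volume) :
    ∃ (v : ST n → Eu n) (G τ : ST n → Mt n), IsSol Ω T μ a c f v0 τ0 (mspin Ω δ G) v G τ ∧
      Bd (Mb μ ((∫ x, ‖v0 x‖ ^ 2) + ∫ x, ‖τ0 x‖ ^ 2) g) T v G τ := by
  set X := (∫ x, ‖v0 x‖ ^ 2) + ∫ x, ‖τ0 x‖ ^ 2 with hXdef
  have hX : 0 ≤ X := add_nonneg (integral_nonneg fun x => by positivity)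
    (integral_nonneg fun x => by positivity)
  have hMb : ∀ T, 0 ≤ Mb μ X g T := fun T => Mb_nonneg hμ hX g T
  set M := Mb μ X g T with hMdef
  have hM : 0 ≤ M := hMb T
  have hΩm := hΩ.measurableSet
  obtain ⟨d, hd⟩ := dense_seq Ω
  have pk := fun N : ℕ => gal_package hΩm hδ hT hμ ha c hf hv0 hτ0 (SSp d N)
    (ε := 1 / ((N:ℝ) + 1)) (by positivity) (by
      rw [div_le_one (by positivity)]
      have : (0:ℝ) ≤ N := Nat.cast_nonneg N
      linarith)
  choose F U hFc hG hinit hFe hbd using pk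
  let W : (N : ℕ) → ℝ → DD Ω := fun N t => (U N t : DD Ω)
  let vs : ℕ → ST n → Eu n := fun N => gv T (W N)
  let Gs : ℕ → ST n → Mt n := fun N => gG T (W N)
  let τs : ℕ → ST n → Mt n := fun N => gt T (W N)
  have hel : ∀ N, IsElem Ω T (vs N) (Gs N) := fun N => curve_elem hT (hG N).cont
  have hvel : ∀ N, IsVel Ω T (vs N) (Gs N) := fun N => (hel N).isVel
  have hτm : ∀ N, MemLp (τs N) 2 volume := fun N => curve_gt hT (hG N).cont
  have hBd : ∀ N, Bd (Mb μ X g) T (vs N) (Gs N) (τs N) := fun N =>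
    gal_bd hT (hG N).cont (hbd N)
  -- global bounds
  set C := Real.sqrt (M * T) + Real.sqrt M with hC
  have hb1 : ∀ N, eLpNorm (vs N) 2 volume ≤ ENNReal.ofReal C := fun N =>
    (LB.eLpNorm hM hT.le (fun z hz => gv_zero_out z hz) ((hBd N).v T hT.le le_rfl)).trans
      (ENNReal.ofReal_le_ofReal (by rw [hC]; linarith [Real.sqrt_nonneg M]))
  have hb3 : ∀ N, eLpNorm (τs N) 2 volume ≤ ENNReal.ofReal C := fun N =>
    (LB.eLpNorm hM hT.le (fun z hz => gt_zero_out z hz) ((hBd N).τ T hT.le le_rfl)).trans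
      (ENNReal.ofReal_le_ofReal (by rw [hC]; linarith [Real.sqrt_nonneg M]))
  have hb2 : ∀ N, eLpNorm (Gs N) 2 volume ≤ ENNReal.ofReal C := fun N =>
    (slab_eLpNorm hM (fun z hz => gG_zero_out z hz) ((hBd N).G T hT.le le_rfl)).trans
      (ENNReal.ofReal_le_ofReal (by rw [hC]; linarith [Real.sqrt_nonneg (M * T)]))
  -- weak limits
  obtain ⟨φ, hφ, v, G, τ', wv, wG, wτ'⟩ := wc_three (fun m => (hvel m).memv)
    (fun m => (hvel m).memG) hτm hb1 hb2 hb3
  have wτ := wc_cut wτ' (fun m z hz => gt_zero_out z hz)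
  set τ : ST n → Mt n := fun z =>
    (Ioo 0 T ×ˢ (univ : Set (Eu n))).indicator (fun _ => (1:ℝ)) z • τ' z with hτdef
  have hvl : IsVel Ω T v G := IsVel.of_wc (fun m => hvel (φ m)) wv wG
  have hφge : ∀ m, m ≤ φ m := hφ.id_le
  -- strong convergence of the velocities
  have hUM : ∀ N, ∀ t ∈ Ioo 0 T, ‖U N t‖ ^ 2 ≤ M := fun N t ht =>
    (hbd N T hT.le le_rfl).1 t (Ioo_subset_Icc_self ht)
  have hdirM : ∀ N, ∫ s in Ioo 0 T, dir (U N s : DD Ω) ≤ M := fun N => (hbd N T hT.le le_rfl).2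
  have hFe1 : ∀ N, eLpNorm (fun t => forceR hf (SSp d N) t - F N t) 2
      (volume.restrict (Ioo 0 T)) ≤ 1 := by
    intro N
    refine (hFe N).trans ?_
    rw [← ENNReal.ofReal_one]
    refine ENNReal.ofReal_le_ofReal ?_
    rw [div_le_one (by positivity)]
    have : (0:ℝ) ≤ N := Nat.cast_nonneg N
    linarith
  have hstrong : Tendsto (fun m => eLpNorm (fun z => vs (φ m) z - v z) 2 volume) atTop (𝓝 0) := by
    refine hSC Ω hΩ hΩb T hT (fun m => vs (φ m)) (fun m => Gs (φ m)) v G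
      (fun m => hvel (φ m)) hvl (C + M) ?_ wv ?_ ?_
    · intro m
      exact (hb2 (φ m)).trans (ENNReal.ofReal_le_ofReal (by linarith))
    · intro m I hI
      have h1 := slab_bound (hvel (φ m)).memv.1 hI (M := M) (fun t _ =>
        gv_slice_lint t fun ht => hUM (φ m) t ht)
      refine h1.trans ?_
      have hCn : 0 ≤ C := by rw [hC]; positivity
      gcongr
      linarith
    · intro ψ hψ ε hε
      obtain ⟨R, hR, happ⟩ := hd (vpair hψ)
      set B := Real.sqrt (2 * (volume (Metric.closedBall (0 : Eu n) R)).toReal) with hB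
      have hB0 : 0 ≤ B := Real.sqrt_nonneg _
      set e := ε / (Real.sqrt M * B + 1) with he
      have hden : 0 < Real.sqrt M * B + 1 := by positivity
      have he0 : 0 < e := div_pos hε hden
      obtain ⟨i, hi1, hi2, hi3, hi4, hi5⟩ := happ e he0
      have hsm : Small R e (vpair hψ - d i) := by
        have hs : vpair hψ - d i = vpair hψ + (-1 : ℝ) • d i := by
          rw [neg_one_smul, sub_eq_add_neg]
        have hv' : vf (vpair hψ - d i) = vf (vpair hψ) - vf (d i) := by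
          rw [hs, vf_add, vf_smul, neg_one_smul, sub_eq_add_neg]
        have ht' : tf (vpair hψ - d i) = tf (vpair hψ) - tf (d i) := by
          rw [hs, tf_add, tf_smul, neg_one_smul, sub_eq_add_neg]
        refine ⟨fun x hx => ?_, fun x => ?_, fun x => ?_, fun x => ?_, fun x => ?_⟩
        · rw [hv', ht']
          simp only [Pi.sub_apply, (hi1 x hx).1, (hi1 x hx).2, (hR x hx).1, (hR x hx).2, sub_zero]
          exact ⟨trivial, trivial⟩
        · rw [hv', Pi.sub_apply, norm_sub_rev]; exact hi2 x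
        · rw [ht', Pi.sub_apply, norm_sub_rev]; exact hi3 x
        · rw [hv', fderiv_sub (vf_diff _ x) (vf_diff _ x), norm_sub_rev]; exact hi4 x
        · rw [ht', fderiv_sub (tf_diff _ x) (tf_diff _ x), norm_sub_rev]; exact hi5 x
      have hnorm : Real.sqrt M * ‖vpair hψ - d i‖ ≤ ε := by
        have h1 := hsm.norm_le he0.le
        calc Real.sqrt M * ‖vpair hψ - d i‖ ≤ Real.sqrt M * (e * B) :=
              mul_le_mul_of_nonneg_left h1 (Real.sqrt_nonneg _)
          _ = ε * ((Real.sqrt M * B) / (Real.sqrt M * B + 1)) := by rw [he]; ring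
          _ ≤ ε * 1 := by
              refine mul_le_mul_of_nonneg_left ?_ hε.le
              rw [div_le_one hden]; linarith
          _ = ε := mul_one _
      obtain ⟨C', hC'⟩ := gal_tc1 hΩm hδ hT μ a c hM hf hψ (d i) hnorm
      refine ⟨C', i + 1, fun m hm η hη => ?_⟩
      have him : i < φ m := lt_of_lt_of_le (Nat.lt_of_succ_le hm) (hφge m)
      exact hC' (SSp d (φ m)) (F (φ m)) (U (φ m)) (hFc (φ m)) (hG (φ m)) (hUM (φ m))
        (hdirM (φ m)) (hFe1 (φ m)) (mem_SSp d him) η hη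
  -- spins
  have hspin := mspin_strong hΩm hδ (fun m => hvel (φ m)) hvl hstrong
  have hSm : ∀ m, MemLp (mspin Ω δ (Gs (φ m))) 2 volume := fun m =>
    mspin_memLp hΩm hδ (hvel (φ m)).memG
  have hS : MemLp (mspin Ω δ G) 2 volume := mspin_memLp hΩm hδ hvl.memG
  -- the limit identity for the dense family
  have hlim : ∀ η, IsTime (-1) T η → ∀ i,
      Fun μ a c f hv0 hτ0 T v G τ (mspin Ω δ G) η (d i) = 0 := by
    intro η hη i
    have t1 := LL_tendsto (μ := μ) (a := a) (c := c) wv hstrong wG wτ hSm hS hspin hη (d i)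
    have hev : ∀ m, i < φ m → ∫ z, LLi μ a c (vs (φ m)) (Gs (φ m)) (τs (φ m))
        (mspin Ω δ (Gs (φ m))) η (d i) z =
        - (∫ t in Ioo 0 T, η t * inner ℝ (F (φ m) t) (if h : i < φ m then
          (⟨d i, mem_SSp d h⟩ : SSp d (φ m)) else 0)) - η 0 * initL hv0 hτ0 (d i) := by
      intro m hm
      have h1 := gal_weak (hG (φ m)) (hFc (φ m)) hT hη (⟨d i, mem_SSp d hm⟩ : SSp d (φ m))
      rw [hinit] at h1
      rw [dif_pos hm]
      linarith
    have t2 : Tendsto (fun m => ∫ t in Ioo 0 T, η t * inner ℝ (F (φ m) t)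
        (if h : i < φ m then (⟨d i, mem_SSp d h⟩ : SSp d (φ m)) else 0)) atTop
        (𝓝 (∫ t in Ioo 0 T, η t * f t (vf (d i)))) := by
      rw [tendsto_iff_norm_sub_tendsto_zero]
      set K := ‖d i‖ * Real.sqrt (∫ t in Ioo 0 T, ‖η t‖ ^ 2) with hK
      have t3 : Tendsto (fun m : ℕ => K * (1 / ((φ m : ℝ) + 1))) atTop (𝓝 0) := by
        have h1 : Tendsto (fun m : ℕ => 1 / ((m : ℝ) + 1)) atTop (𝓝 0) :=
          tendsto_one_div_add_atTop_nhds_zero_nat
        have h2 := (h1.comp hφ.tendsto_atTop).const_mul K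
        rw [mul_zero] at h2
        exact h2
      refine squeeze_zero' (Eventually.of_forall fun m => norm_nonneg _) ?_ t3
      filter_upwards [eventually_gt_atTop i] with m hm
      have him : i < φ m := lt_of_lt_of_le hm (hφge m)
      rw [dif_pos him, Real.norm_eq_abs]
      exact force_diff hf T (SSp d (φ m)) (hFc (φ m)) (by positivity) (hFe (φ m)) hη
        (⟨d i, mem_SSp d him⟩ : SSp d (φ m))
    have t4 : Tendsto (fun m => ∫ z, LLi μ a c (vs (φ m)) (Gs (φ m)) (τs (φ m))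
        (mspin Ω δ (Gs (φ m))) η (d i) z) atTop
        (𝓝 (-(∫ t in Ioo 0 T, η t * f t (vf (d i))) - η 0 * initL hv0 hτ0 (d i))) := by
      refine (t2.neg.sub_const (η 0 * initL hv0 hτ0 (d i))).congr' ?_
      filter_upwards [eventually_gt_atTop i] with m hm
      exact (hev m (lt_of_lt_of_le hm (hφge m))).symm
    have h5 := tendsto_nhds_unique t1 t4
    simp only [Fun]
    linarith
  have hall : ∀ η, IsTime (-1) T η → ∀ V : DD Ω,
      Fun μ a c f hv0 hτ0 T v G τ (mspin Ω δ G) η V = 0 := fun η hη V =>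
    fun_dense hf hv0 hτ0 T hvl.memv hvl.memG wτ.memU hS hη hd (hlim η hη) V
  refine ⟨v, G, τ, isSol_of_fun hf hv0 hτ0 hvl wτ.memU hS ?_ hall, ?_⟩
  · intro z hz
    have hz' : z ∉ Ioo 0 T ×ˢ (univ : Set (Eu n)) := fun hc => hz hc.1
    simp only [hτdef, indicator_of_notMem hz', zero_smul]
  · exact Bd.of_wc hMb wv wG wτ fun m => hBd (φ m)

end Pool.Agent.Helper42.Jef
end

section
/-! # Closure theorem: extraction of the weak limits -/

open MeasureTheory Set Filter Topology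
open scoped ENNReal NNReal ContDiff

namespace Pool.Agent.Helper42.Jef

open Pool.Agent.Helper22.Jef

set_option maxHeartbeats 1000000

variable {n : ℕ}

section tools

variable {α : Type*} [MeasurableSpace α] {μ : Measure α}
variable {E : Type*} [NormedAddCommGroup E]
variable {F : Type*} [NormedAddCommGroup F]

theorem bnd_of_le {u : α → E} {w : α → F} (hu : MemLp u 2 μ)
    (hw : AEStronglyMeasurable w μ) {C M : ℝ} (hC : 0 ≤ C) (h : ∀ z, ‖w z‖ ≤ C * ‖u z‖)
    (hM : eLpNorm u 2 μ ≤ ENNReal.ofReal M) :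
    MemLp w 2 μ ∧ eLpNorm w 2 μ ≤ ENNReal.ofReal (C * M) := by
  refine ⟨hu.of_le_mul hw (Eventually.of_forall h), ?_⟩
  refine (eLpNorm_le_mul_eLpNorm_of_ae_le_mul (Eventually.of_forall h) 2).trans ?_
  rw [ENNReal.ofReal_mul hC]
  exact mul_le_mul_right hM _

/-- a weak limit vanishes where the sequence vanishes -/
theorem wc_zero [InnerProductSpace ℝ E] [FiniteDimensional ℝ E] {u : ℕ → α → E} {U : α → E}
    (h : WC μ u U) {A : Set α} (hA : MeasurableSet A) (h0 : ∀ m, ∀ᵐ x ∂μ, x ∈ A → u m x = 0) :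
    ∀ᵐ x ∂μ, x ∈ A → U x = 0 := by
  have h1 := wc_weight h (ζ := A.indicator fun _ => (1:ℝ)) (C := 1)
    ((measurable_const.indicator hA).aestronglyMeasurable) (fun x => by
      by_cases hx : x ∈ A
      · simp [indicator_of_mem hx]
      · simp [indicator_of_notMem hx])
  have h2 : WC μ (fun (_ : ℕ) (_ : α) => (0 : E))
      (fun x => A.indicator (fun _ => (1:ℝ)) x • U x) := by
    refine h1.congr_seq fun m => ?_
    filter_upwards [h0 m] with x hx
    by_cases hxA : x ∈ A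
    · rw [hx hxA, smul_zero]
    · rw [indicator_of_notMem hxA, zero_smul]
  have h3 : WC μ (fun (_ : ℕ) (_ : α) => (0 : E)) (fun _ => (0 : E)) := wc_const MemLp.zero'
  filter_upwards [wc_unique h2 h3] with x hx hxA
  rw [indicator_of_mem hxA, one_smul] at hx
  exact hx

end tools

section bkfacts

variable {α : Type*} [MeasurableSpace α] {μ : Measure α}
variable {E : Type*} [NormedAddCommGroup E] [InnerProductSpace ℝ E]

theorem bk_cont (k : ℝ) : Continuous (bk k : E → E) := (bk_contDiff k).continuous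

theorem bk_bnd {u : α → E} (hu : MemLp u 2 μ) {M : ℝ} (hM : eLpNorm u 2 μ ≤ ENNReal.ofReal M)
    (k : ℝ) : MemLp (fun x => bk k (u x)) 2 μ ∧
      eLpNorm (fun x => bk k (u x)) 2 μ ≤ ENNReal.ofReal (1 * M) :=
  bnd_of_le hu ((bk_cont k).comp_aestronglyMeasurable hu.1) zero_le_one
    (fun z => by rw [one_mul]; exact bk_norm_le k _) hM

theorem bksq_bnd {u : α → E} (hu : MemLp u 2 μ) {M : ℝ} (hM : eLpNorm u 2 μ ≤ ENNReal.ofReal M)
    {k : ℝ} (hk : 0 < k) : MemLp (fun x => ‖bk k (u x)‖ ^ 2) 2 μ ∧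
      eLpNorm (fun x => ‖bk k (u x)‖ ^ 2) 2 μ ≤ ENNReal.ofReal (k * M) := by
  refine bnd_of_le hu (((bk_cont k).norm.pow 2).comp_aestronglyMeasurable hu.1) hk.le
    (fun z => ?_) hM
  rw [Real.norm_eq_abs, abs_of_nonneg (sq_nonneg _), sq]
  exact mul_le_mul (bk_norm_le_k hk _) (bk_norm_le k _) (norm_nonneg _) hk.le

theorem dbk_cont [FiniteDimensional ℝ E] (k : ℝ) :
    Continuous fun p : E × E => fderiv ℝ (bk k) p.1 p.2 := by
  have h1 : Continuous (fderiv ℝ (bk k : E → E)) := (bk_contDiff k).continuous_fderiv (by simp)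
  exact (h1.comp continuous_fst).clm_apply continuous_snd

theorem dbk_bnd [FiniteDimensional ℝ E] {u X : α → E} (hu : MemLp u 2 μ) (hX : MemLp X 2 μ) {M : ℝ}
    (hM : eLpNorm X 2 μ ≤ ENNReal.ofReal M) (k : ℝ) :
    MemLp (fun x => fderiv ℝ (bk k) (u x) (X x)) 2 μ ∧
      eLpNorm (fun x => fderiv ℝ (bk k) (u x) (X x)) 2 μ ≤ ENNReal.ofReal (1 * M) :=
  bnd_of_le hX ((dbk_cont k).comp_aestronglyMeasurable (hu.1.prodMk hX.1)) zero_le_one
    (fun z => by rw [one_mul]; exact bk_fderiv_apply_norm k _ _) hM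

theorem qbk_bnd [FiniteDimensional ℝ E] {u X : α → E} (hu : MemLp u 2 μ) (hX : MemLp X 2 μ) {M : ℝ}
    (hM : eLpNorm X 2 μ ≤ ENNReal.ofReal M) {k : ℝ} (hk : 0 < k) :
    MemLp (fun x => 2 * inner ℝ (bk k (u x)) (fderiv ℝ (bk k) (u x) (X x))) 2 μ ∧
      eLpNorm (fun x => 2 * inner ℝ (bk k (u x)) (fderiv ℝ (bk k) (u x) (X x))) 2 μ ≤
        ENNReal.ofReal ((2 * k) * M) := by
  refine bnd_of_le hX ?_ (by positivity) (fun z => ?_) hM
  · have h1 := (dbk_bnd hu hX hM k).1.1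
    have h2 := (bk_cont k).comp_aestronglyMeasurable hu.1
    exact (h2.inner h1).const_mul 2
  · rw [norm_mul, Real.norm_eq_abs, Real.norm_eq_abs, abs_two, mul_assoc]
    refine mul_le_mul_of_nonneg_left ?_ (by norm_num)
    refine (abs_real_inner_le_norm _ _).trans ?_
    exact mul_le_mul (bk_norm_le_k hk _) (bk_fderiv_apply_norm k _ _) (norm_nonneg _) hk.le

theorem brbk_bnd {u S : α → Mt n} (hu : MemLp u 2 μ) (hS : MemLp S 2 μ) {M : ℝ}
    (hM : eLpNorm S 2 μ ≤ ENNReal.ofReal M) {k : ℝ} (hk : 0 < k) :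
    MemLp (fun x => br (bk k (u x)) (S x)) 2 μ ∧
      eLpNorm (fun x => br (bk k (u x)) (S x)) 2 μ ≤ ENNReal.ofReal ((2 * k) * M) := by
  refine bnd_of_le hS ?_ (by positivity) (fun z => ?_) hM
  · exact (brL n).aestronglyMeasurable_comp₂ ((bk_cont k).comp_aestronglyMeasurable hu.1) hS.1
  · refine (norm_br_le _ _).trans ?_
    rw [mul_assoc]
    refine mul_le_mul_of_nonneg_left ?_ (by norm_num)
    exact mul_le_mul_of_nonneg_right (bk_norm_le_k hk _) (norm_nonneg _)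

end bkfacts

/-- linear part of the right side -/
noncomputable def xx (a c : ℝ) (G τ : ST n → Mt n) (z : ST n) : Mt n := c • sy (G z) - a • τ z

theorem xx_bnd (a c : ℝ) {G τ : ST n → Mt n} (hG : MemLp G 2 volume) (hτ : MemLp τ 2 volume) {M : ℝ}
    (hGM : eLpNorm G 2 volume ≤ ENNReal.ofReal M) (hτM : eLpNorm τ 2 volume ≤ ENNReal.ofReal M) :
    MemLp (xx a c G τ) 2 volume ∧
      eLpNorm (xx a c G τ) 2 volume ≤ ENNReal.ofReal (|c| * M + |a| * M) := by
  have h1 := bnd_of_le (w := fun z => c • sy (G z)) hG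
    (((syL n).continuous.comp_aestronglyMeasurable hG.1).const_smul c) (abs_nonneg c)
    (fun z => by
      rw [norm_smul, Real.norm_eq_abs]
      exact mul_le_mul_of_nonneg_left (norm_sy_le _) (abs_nonneg _)) hGM
  have h2 := bnd_of_le (w := fun z => a • τ z) hτ (hτ.1.const_smul a) (abs_nonneg a)
    (fun z => by rw [norm_smul, Real.norm_eq_abs]) hτM
  refine ⟨h1.1.sub h2.1, ?_⟩
  refine (eLpNorm_sub_le h1.1.1 h2.1.1 (by norm_num)).trans ((add_le_add h1.2 h2.2).trans ?_)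
  by_cases hM : 0 ≤ M
  · rw [← ENNReal.ofReal_add (by positivity) (by positivity)]
  · have hM' : M ≤ 0 := (not_le.1 hM).le
    have e1 : |c| * M ≤ 0 := mul_nonpos_of_nonneg_of_nonpos (abs_nonneg _) hM'
    have e2 : |a| * M ≤ 0 := mul_nonpos_of_nonneg_of_nonpos (abs_nonneg _) hM'
    rw [ENNReal.ofReal_of_nonpos e1, ENNReal.ofReal_of_nonpos e2]
    simp

/-- common weak limits of all truncated quantities along a subsequence -/
theorem extract (a c : ℝ) {Gs τs Ss : ℕ → ST n → Mt n} (hG : ∀ m, MemLp (Gs m) 2 volume)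
    (hτ : ∀ m, MemLp (τs m) 2 volume) (hS : ∀ m, MemLp (Ss m) 2 volume) {M : ℝ}
    (hGM : ∀ m, eLpNorm (Gs m) 2 volume ≤ ENNReal.ofReal M)
    (hτM : ∀ m, eLpNorm (τs m) 2 volume ≤ ENNReal.ofReal M)
    (hSM : ∀ m, eLpNorm (Ss m) 2 volume ≤ ENNReal.ofReal M) :
    ∃ φ : ℕ → ℕ, StrictMono φ ∧ ∃ (tk gk F D : ℕ → ST n → Mt n) (ta ga Q : ℕ → ST n → ℝ),
      (∀ k : ℕ, WC volume (fun m z => bk ((k : ℝ) + 1) (τs (φ m) z)) (tk k)) ∧
      (∀ k : ℕ, WC volume (fun m z => bk ((k : ℝ) + 1) (Gs (φ m) z)) (gk k)) ∧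
      (∀ k : ℕ, WC volume (fun m z => ‖bk ((k : ℝ) + 1) (τs (φ m) z)‖ ^ 2) (ta k)) ∧
      (∀ k : ℕ, WC volume (fun m z => ‖bk ((k : ℝ) + 1) (Gs (φ m) z)‖ ^ 2) (ga k)) ∧
      (∀ k : ℕ, WC volume (fun m z => fderiv ℝ (bk ((k : ℝ) + 1)) (τs (φ m) z)
        (c • sy (Gs (φ m) z) - a • τs (φ m) z)) (F k)) ∧
      (∀ k : ℕ, WC volume (fun m z => br (bk ((k : ℝ) + 1) (τs (φ m) z)) (Ss (φ m) z)) (D k)) ∧
      (∀ k : ℕ, WC volume (fun m z => 2 * inner ℝ (bk ((k : ℝ) + 1) (τs (φ m) z))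
        (fderiv ℝ (bk ((k : ℝ) + 1)) (τs (φ m) z)
          (c • sy (Gs (φ m) z) - a • τs (φ m) z))) (Q k)) := by
  have hk : ∀ k : ℕ, (0:ℝ) < (k : ℝ) + 1 := fun k => by positivity
  have hX : ∀ m, MemLp (xx a c (Gs m) (τs m)) 2 volume ∧
      eLpNorm (xx a c (Gs m) (τs m)) 2 volume ≤ ENNReal.ofReal (|c| * M + |a| * M) := fun m =>
    xx_bnd a c (hG m) (hτ m) (hGM m) (hτM m)
  obtain ⟨φ1, hφ1, w1⟩ := wc_compact (ι := Fin 4 × ℕ) (μ := (volume : Measure (ST n)))
    (fun i m => (![fun z => bk ((i.2 : ℝ) + 1) (τs m z), fun z => bk ((i.2 : ℝ) + 1) (Gs m z),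
      fun z => fderiv ℝ (bk ((i.2 : ℝ) + 1)) (τs m z) (xx a c (Gs m) (τs m) z),
      fun z => br (bk ((i.2 : ℝ) + 1) (τs m z)) (Ss m z)] : Fin 4 → ST n → Mt n) i.1)
    (by
      rintro ⟨i, k⟩ m
      fin_cases i
      · exact (bk_bnd (hτ m) (hτM m) _).1
      · exact (bk_bnd (hG m) (hGM m) _).1
      · exact (dbk_bnd (hτ m) (hX m).1 (hX m).2 _).1
      · exact (brbk_bnd (hτ m) (hS m) (hSM m) (hk k)).1)
    (by
      rintro ⟨i, k⟩
      fin_cases i
      · exact ⟨_, fun m => (bk_bnd (hτ m) (hτM m) _).2⟩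
      · exact ⟨_, fun m => (bk_bnd (hG m) (hGM m) _).2⟩
      · exact ⟨_, fun m => (dbk_bnd (hτ m) (hX m).1 (hX m).2 _).2⟩
      · exact ⟨_, fun m => (brbk_bnd (hτ m) (hS m) (hSM m) (hk k)).2⟩)
  obtain ⟨φ2, hφ2, w2⟩ := wc_compact (ι := Fin 3 × ℕ) (μ := (volume : Measure (ST n)))
    (fun i m => (![fun z => ‖bk ((i.2 : ℝ) + 1) (τs (φ1 m) z)‖ ^ 2,
      fun z => ‖bk ((i.2 : ℝ) + 1) (Gs (φ1 m) z)‖ ^ 2,
      fun z => 2 * inner ℝ (bk ((i.2 : ℝ) + 1) (τs (φ1 m) z))
        (fderiv ℝ (bk ((i.2 : ℝ) + 1)) (τs (φ1 m) z) (xx a c (Gs (φ1 m)) (τs (φ1 m)) z))] :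
        Fin 3 → ST n → ℝ) i.1)
    (by
      rintro ⟨i, k⟩ m
      fin_cases i
      · exact (bksq_bnd (hτ _) (hτM _) (hk k)).1
      · exact (bksq_bnd (hG _) (hGM _) (hk k)).1
      · exact (qbk_bnd (hτ _) (hX _).1 (hX _).2 (hk k)).1)
    (by
      rintro ⟨i, k⟩
      fin_cases i
      · exact ⟨_, fun m => (bksq_bnd (hτ _) (hτM _) (hk k)).2⟩
      · exact ⟨_, fun m => (bksq_bnd (hG _) (hGM _) (hk k)).2⟩
      · exact ⟨_, fun m => (qbk_bnd (hτ _) (hX _).1 (hX _).2 (hk k)).2⟩)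
  choose U1 hU1 using w1
  choose U2 hU2 using w2
  refine ⟨fun m => φ1 (φ2 m), hφ1.comp hφ2, fun k => U1 (0, k), fun k => U1 (1, k),
    fun k => U1 (2, k), fun k => U1 (3, k), fun k => U2 (0, k), fun k => U2 (1, k),
    fun k => U2 (2, k), ?_, ?_, ?_, ?_, ?_, ?_, ?_⟩
  · exact fun k => (hU1 (0, k)).subseq hφ2
  · exact fun k => (hU1 (1, k)).subseq hφ2
  · exact fun k => hU2 (0, k)
  · exact fun k => hU2 (1, k)
  · exact fun k => (hU1 (2, k)).subseq hφ2
  · exact fun k => (hU1 (3, k)).subseq hφ2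
  · exact fun k => hU2 (2, k)

end Pool.Agent.Helper42.Jef
end

section
/-! # P8: weak limit of the mollified spins -/

open MeasureTheory Set Filter Topology
open scoped ENNReal NNReal ContDiff

namespace Pool.Agent.Helper94.Jef
open Pool.Agent.Helper42.Jef

variable {n : ℕ} {δ : ℝ}

/-- exchange of the two space variables -/
def swp (p : ST n × Eu n) : ST n × Eu n := ((p.1.1, p.2), p.1.2)

theorem swp_mp : MeasurePreserving (swp (n := n)) ((volume : Measure (ST n)).prod volume)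
    ((volume : Measure (ST n)).prod volume) := by
  have h1 : MeasurePreserving (MeasurableEquiv.prodAssoc (α := ℝ) (β := Eu n) (γ := Eu n))
      (((volume : Measure ℝ).prod (volume : Measure (Eu n))).prod (volume : Measure (Eu n)))
      ((volume : Measure ℝ).prod ((volume : Measure (Eu n)).prod (volume : Measure (Eu n)))) :=
    measurePreserving_prodAssoc _ _ _
  have h2 : MeasurePreserving (Prod.map id Prod.swap : ℝ × (Eu n × Eu n) → ℝ × (Eu n × Eu n))
      ((volume : Measure ℝ).prod ((volume : Measure (Eu n)).prod (volume : Measure (Eu n))))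
      ((volume : Measure ℝ).prod ((volume : Measure (Eu n)).prod (volume : Measure (Eu n)))) :=
    (MeasurePreserving.id _).prod Measure.measurePreserving_swap
  exact (h1.symm _).comp (h2.comp h1)

section dual
variable {E : Type*} [NormedAddCommGroup E] [InnerProductSpace ℝ E] [CompleteSpace E]

omit [CompleteSpace E] in
theorem dual_int {k : Eu n → ℝ} (hk : Integrable k) {X g : ST n → E} (hX : MemLp X 2 volume)
    (hg : MemLp g 2 volume) :
    Integrable (fun p : ST n × Eu n => k (p.1.2 - p.2) * inner ℝ (X (p.1.1, p.2)) (g p.1))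
      (volume.prod volume) := by
  have hm : AEStronglyMeasurable
      (fun p : ST n × Eu n => k (p.1.2 - p.2) * inner ℝ (X (p.1.1, p.2)) (g p.1))
      (volume.prod volume) :=
    (hk.1.comp_quasiMeasurePreserving qmp_sub).mul
      ((hX.1.comp_quasiMeasurePreserving qmp_fst).inner hg.1.comp_fst)
  refine ⟨hm, ?_⟩
  rw [hasFiniteIntegral_iff_enorm]
  rw [lintegral_prod _ hm.enorm]
  have hA : AEMeasurable (fun z : ST n => ∫⁻ y : Eu n, ‖k (z.2 - y)‖ₑ * ‖X (z.1, y)‖ₑ) volume := by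
    have hm : AEMeasurable (fun p : ST n × Eu n => ‖k (p.1.2 - p.2)‖ₑ * ‖X (p.1.1, p.2)‖ₑ)
        (volume.prod volume) :=
      (hk.1.comp_quasiMeasurePreserving qmp_sub).enorm.mul
        (hX.1.comp_quasiMeasurePreserving qmp_fst).enorm
    exact hm.lintegral_prod_right'
  have hsl : ∀ᵐ z : ST n, AEMeasurable (fun y => ‖k (z.2 - y)‖ₑ * ‖X (z.1, y)‖ₑ)
      (volume : Measure (Eu n)) := by
    have h1 : ∀ᵐ t : ℝ, AEStronglyMeasurable (fun y => X (t, y)) (volume : Measure (Eu n)) :=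
      AEStronglyMeasurable.prodMk_left (μ := volume) (ν := volume) hX.1
    have h2 : ∀ᵐ z : ST n, AEStronglyMeasurable (fun y => X (z.1, y)) (volume : Measure (Eu n)) :=
      Measure.quasiMeasurePreserving_fst.ae h1
    have hk' : ∀ z : ST n, AEMeasurable (fun y => ‖k (z.2 - y)‖ₑ) (volume : Measure (Eu n)) :=
      fun z => (hk.1.comp_quasiMeasurePreserving
        (Measure.measurePreserving_sub_left volume z.2).quasiMeasurePreserving).enorm
    exact h2.mono fun z hz => (hk' z).mul hz.enorm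
  calc ∫⁻ z : ST n, ∫⁻ y : Eu n, ‖k (z.2 - y) * inner ℝ (X (z.1, y)) (g z)‖ₑ
      ≤ ∫⁻ z : ST n, ∫⁻ y : Eu n, (‖k (z.2 - y)‖ₑ * ‖X (z.1, y)‖ₑ) * ‖g z‖ₑ := by
        refine lintegral_mono fun z => lintegral_mono fun y => ?_
        rw [enorm_mul, mul_assoc]
        refine mul_le_mul' le_rfl ?_
        rw [← ofReal_norm, ← ofReal_norm, ← ofReal_norm, ← ENNReal.ofReal_mul (norm_nonneg _)]
        exact ENNReal.ofReal_le_ofReal (norm_inner_le_norm _ _)
    _ = ∫⁻ z : ST n, (∫⁻ y : Eu n, ‖k (z.2 - y)‖ₑ * ‖X (z.1, y)‖ₑ) * ‖g z‖ₑ := by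
        refine lintegral_congr_ae ?_
        filter_upwards [hsl] with z hz
        exact lintegral_mul_const'' _ hz
    _ ≤ (∫⁻ z : ST n, (∫⁻ y : Eu n, ‖k (z.2 - y)‖ₑ * ‖X (z.1, y)‖ₑ) ^ (2:ℝ)) ^ (1 / (2:ℝ)) *
          (∫⁻ z, ‖g z‖ₑ ^ (2:ℝ)) ^ (1 / (2:ℝ)) := by
        exact ENNReal.lintegral_mul_le_Lp_mul_Lq (volume : Measure (ST n))
          Real.HolderConjugate.two_two hA hg.1.enorm
    _ < ⊤ := by
        refine ENNReal.mul_lt_top ?_ ?_
        · refine ENNReal.rpow_lt_top_of_nonneg (by norm_num) (ne_of_lt ?_)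
          have h1 := spc_lint_le hk.1 hX.1
          have h2 : ∫⁻ z : ST n, ‖X z‖ₑ ^ 2 < ⊤ := by
            have := lintegral_rpow_enorm_lt_top_of_eLpNorm_lt_top (p := 2) (by norm_num)
              (by norm_num) hX.2
            simpa using this
          have h3 := h1.trans_lt (ENNReal.mul_lt_top (ENNReal.pow_lt_top hk.2) h2)
          simpa using h3
        · refine ENNReal.rpow_lt_top_of_nonneg (by norm_num) (ne_of_lt ?_)
          have := lintegral_rpow_enorm_lt_top_of_eLpNorm_lt_top (p := 2) (by norm_num)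
            (by norm_num) hg.2
          simpa using this

theorem dual_one {k : Eu n → ℝ} (hk : Integrable k) {X g : ST n → E} (hX : MemLp X 2 volume)
    (hg : MemLp g 2 volume) :
    ∫ z, inner ℝ (spc k X z) (g z) =
      ∫ p : ST n × Eu n, k (p.1.2 - p.2) * inner ℝ (X (p.1.1, p.2)) (g p.1)
        ∂(volume.prod volume) := by
  rw [integral_prod _ (dual_int hk hX hg)]
  refine integral_congr_ae ?_
  filter_upwards [spc_ae_integrable hk hX] with z hz
  simp only [spc]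
  rw [real_inner_comm, ← integral_inner hz]
  refine integral_congr_ae (Eventually.of_forall fun y => ?_)
  simp only [inner_smul_right]
  rw [real_inner_comm]

/-- the mollification is symmetric in `L²` -/
theorem mo_dual (hδ : 0 < δ) {X g : ST n → E} (hX : MemLp X 2 volume) (hg : MemLp g 2 volume) :
    ∫ z, inner ℝ (mo δ X z) (g z) = ∫ z, inner ℝ (X z) (mo δ g z) := by
  have hk := ro_integrable (n := n) hδ
  have h1 := dual_one hk hX hg
  have h2 := dual_one hk hg hX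
  have h3 : ∫ p : ST n × Eu n, ro δ (p.1.2 - p.2) * inner ℝ (X (p.1.1, p.2)) (g p.1)
        ∂(volume.prod volume) = ∫ p : ST n × Eu n, ro δ (p.1.2 - p.2) *
          inner ℝ (g (p.1.1, p.2)) (X p.1) ∂(volume.prod volume) := by
    have h4 : MeasurePreserving (swp (n := n)) (volume.prod volume) (volume.prod volume) := swp_mp
    have h5 := (integral_map (μ := (volume : Measure (ST n)).prod (volume : Measure (Eu n)))
      h4.measurable.aemeasurable
      (f := fun p : ST n × Eu n => ro δ (p.1.2 - p.2) * inner ℝ (X (p.1.1, p.2)) (g p.1))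
      (by rw [h4.map_eq]; exact (dual_int hk hX hg).1))
    rw [h4.map_eq] at h5
    rw [h5]
    refine integral_congr_ae (Eventually.of_forall fun p => ?_)
    simp only [swp]
    rw [real_inner_comm, ← neg_sub p.1.2 p.2, ro_neg]
  rw [mo_eq_spc, mo_eq_spc, h1, h3, ← h2]
  exact integral_congr_ae (Eventually.of_forall fun z => real_inner_comm _ _)

end dual

theorem wc_mspin {Ω : Set (Eu n)} (hΩ : IsOpen Ω) {Gs : ℕ → ST n → Mt n} {G : ST n → Mt n}
    (wG : WC volume Gs G) (hG0 : ∀ᵐ z : ST n, z.2 ∉ Ω → G z = 0) {δ : ℕ → ℝ}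
    (hδ : ∀ m, 0 < δ m) (hδ0 : Tendsto δ atTop (𝓝 0)) :
    WC volume (fun m => mspin Ω (δ m) (Gs m)) (fun z => sp (G z)) := by
  have hΩm := hΩ.measurableSet
  have wS : WC volume (fun m z => spL n (Gs m z)) (fun z => spL n (G z)) := wc_clm wG (spL n)
  have hS : MeasurableSet (univ ×ˢ Ω : Set (ST n)) := MeasurableSet.univ.prod hΩm
  refine ⟨fun m => Pool.Agent.Helper42.Jef.mspin_memLp hΩm (hδ m) (wG.mem m), ?_, sp_memLp wG.memU, fun g hg => ?_⟩
  · obtain ⟨C, hC⟩ := wS.bdd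
    refine ⟨C, fun m => le_trans ?_ (hC m)⟩
    rw [mspin_eq]
    refine (eLpNorm_indicator_le _).trans ?_
    refine (spc_eLpNorm_le (ro_integrable (hδ m)).1 (sp_memLp (wG.mem m)).1).trans ?_
    rw [ro_lint (hδ m), one_mul]
    exact le_rfl
  · set g' : ST n → Mt n := (univ ×ˢ Ω : Set (ST n)).indicator g with hg'
    have hgm : MemLp g' 2 volume := hg.indicator hS
    have h1 := mo_tendsto hgm hδ hδ0
    have hmm : ∀ m, MemLp (mo (δ m) g') 2 volume := fun m => by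
      rw [mo_eq_spc]; exact spc_memLp (ro_integrable (hδ m)) hgm
    have h2 := wc_bilin_strong wS hmm hgm h1 (innerB n)
    have e1 : ∀ m, ∫ x, innerB n (spL n (Gs m x)) (mo (δ m) g' x) =
        ∫ x, inner ℝ (mspin Ω (δ m) (Gs m) x) (g x) := by
      intro m
      simp only [innerB_apply]
      rw [← mo_dual (hδ m) (wS.mem m) hgm]
      refine integral_congr_ae (Eventually.of_forall fun z => ?_)
      simp only [mspin_eq, hg']
      by_cases hz : z ∈ (univ ×ˢ Ω : Set (ST n))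
      · rw [indicator_of_mem hz, indicator_of_mem hz]; rfl
      · rw [indicator_of_notMem hz, indicator_of_notMem hz, inner_zero_right, inner_zero_left]
    have e2 : ∫ x, innerB n (spL n (G x)) (g' x) = ∫ x, inner ℝ (sp (G x)) (g x) := by
      simp only [innerB_apply]
      refine integral_congr_ae ?_
      filter_upwards [hG0] with z hz
      by_cases hzΩ : z ∈ (univ ×ˢ Ω : Set (ST n))
      · rw [hg', indicator_of_mem hzΩ]; rfl
      · have hz0 : G z = 0 := hz fun h => hzΩ ⟨trivial, h⟩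
        have e3 : sp (G z) = 0 := by rw [hz0]; exact (spL n).map_zero
        rw [hz0, map_zero, inner_zero_left, ← hz0, e3, inner_zero_left]
    rw [e2] at h2
    exact h2.congr e1

end Pool.Agent.Helper94.Jef
end

section
/-! # P5: consequences of the momentum equation -/

open MeasureTheory Set Filter Topology
open scoped ENNReal NNReal ContDiff

namespace Pool.Agent.Helper50.JM

open Pool.Agent.Helper42.Jef

variable {n : ℕ}

theorem sy_grad_cont {Ω : Set (Eu n)} {φ : Eu n → Eu n} (hφ : IsVT Ω φ) :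
    Continuous (fun x => sy (grad φ x)) := sy_cont hφ.grad_cont

theorem sy_grad_cpt {Ω : Set (Eu n)} {φ : Eu n → Eu n} (hφ : IsVT Ω φ) :
    HasCompactSupport (fun x => sy (grad φ x)) := by
  refine hφ.grad_cpt.mono' fun x hx => subset_closure fun h0 => hx ?_
  have h0' : grad φ x = 0 := h0
  show sy (grad φ x) = 0
  rw [h0']; exact (syL n).map_zero

/-- splitting of the momentum functional -/
theorem mom_split {Ω : Set (Eu n)} {μ c : ℝ} {v : ST n → Eu n} {G τ : ST n → Mt n}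
    (hv : MemLp v 2 volume) (hG : MemLp G 2 volume) (hτ : MemLp τ 2 volume) {s b : ℝ}
    {η : ℝ → ℝ} (hη : IsTime s b η) {φ : Eu n → Eu n} (hφ : IsVT Ω φ) :
    ∫ z : ST n, (deriv η z.1 * inner ℝ (v z) (φ z.2) +
      η z.1 * (inner ℝ (v z) (fderiv ℝ φ z.2 (v z)) - μ * inner ℝ (G z) (grad φ z.2) -
        c * inner ℝ (τ z) (sy (grad φ z.2)))) =
    (∫ z : ST n, deriv η z.1 * inner ℝ (v z) (φ z.2)) +
      (∫ z : ST n, η z.1 * inner ℝ (v z) (fderiv ℝ φ z.2 (v z))) -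
      μ * (∫ z : ST n, η z.1 * inner ℝ (G z) (grad φ z.2)) -
      c * (∫ z : ST n, η z.1 * inner ℝ (τ z) (sy (grad φ z.2))) := by
  have c1 := hη.cont
  have c2 := hη.dcont
  have k1 := hη.cpt
  have k2 : HasCompactSupport (deriv η) := hη.cpt.deriv
  have i1 := int_lin hv c2 k2 hφ.smooth.continuous hφ.cpt
  have i2 := int_conv hv hv c1 k1 hφ.smooth hφ.cpt
  have i3 := int_lin hG c1 k1 hφ.grad_cont hφ.grad_cpt
  have i4 := int_lin hτ c1 k1 (sy_grad_cont hφ) (sy_grad_cpt hφ)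
  have h := int_lc4 i1 i2 i3 i4 1 1 (-μ) (-c)
  rw [one_mul, one_mul] at h
  have e : ∫ z : ST n, (deriv η z.1 * inner ℝ (v z) (φ z.2) +
      η z.1 * (inner ℝ (v z) (fderiv ℝ φ z.2 (v z)) - μ * inner ℝ (G z) (grad φ z.2) -
        c * inner ℝ (τ z) (sy (grad φ z.2)))) =
      ∫ z : ST n, (1 * (deriv η z.1 * inner ℝ (v z) (φ z.2)) +
        1 * (η z.1 * inner ℝ (v z) (fderiv ℝ φ z.2 (v z))) +
        (-μ) * (η z.1 * inner ℝ (G z) (grad φ z.2)) +
        (-c) * (η z.1 * inner ℝ (τ z) (sy (grad φ z.2)))) := by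
    refine integral_congr_ae (Eventually.of_forall fun z => ?_)
    simp only
    ring
  rw [e, h]
  ring

/-- the momentum equation passes to the limit -/
theorem mom_limit {Ω : Set (Eu n)} {T μ a c : ℝ} (hT : 0 < T)
    {f : ℝ → (Eu n → Eu n) → ℝ} {v0 : Eu n → Eu n}
    {τ0 : Eu n → Mt n} {Ss : ℕ → ST n → Mt n} {vs : ℕ → ST n → Eu n} {Gs τs : ℕ → ST n → Mt n}
    {v : ST n → Eu n} {G τ : ST n → Mt n}
    (h : ∀ m, IsSol Ω T μ a c f v0 τ0 (Ss m) (vs m) (Gs m) (τs m))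
    (wv : WC volume vs v) (wG : WC volume Gs G) (wτ : WC volume τs τ)
    (hs : Tendsto (fun m => eLpNorm (fun z => vs m z - v z) 2 volume) atTop (𝓝 0)) :
    ∀ (η : ℝ → ℝ) (φ : Eu n → Eu n), IsTime (-1) T η → IsVT Ω φ →
    (∫ z : ST n, (deriv η z.1 * inner ℝ (v z) (φ z.2) +
      η z.1 * (inner ℝ (v z) (fderiv ℝ φ z.2 (v z)) - μ * inner ℝ (G z) (grad φ z.2) -
        c * inner ℝ (τ z) (sy (grad φ z.2))))) + (∫ t in Ioo 0 T, η t * f t φ) +
      η 0 * ∫ x, inner ℝ (v0 x) (φ x) = 0 := by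
  intro η φ hη hφ
  have c1 := hη.cont
  have c2 := hη.dcont
  have k1 := hη.cpt
  have k2 : HasCompactSupport (deriv η) := hη.cpt.deriv
  have t1 := tend_lin wv c2 k2 hφ.smooth.continuous hφ.cpt
  have t2 := tend_conv wv wv.mem wv.memU hs c1 k1 hφ.smooth hφ.cpt
  have t3 := tend_lin wG c1 k1 hφ.grad_cont hφ.grad_cpt
  have t4 := tend_lin wτ c1 k1 (sy_grad_cont hφ) (sy_grad_cpt hφ)
  have t5 := ((((t1.add t2).sub (t3.const_mul μ)).sub (t4.const_mul c)).add
    (tendsto_const_nhds (x := ∫ t in Ioo 0 T, η t * f t φ))).add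
    (tendsto_const_nhds (x := η 0 * ∫ x, inner ℝ (v0 x) (φ x)))
  have t6 : Tendsto (fun _ : ℕ => (0 : ℝ)) atTop (𝓝 0) := tendsto_const_nhds
  rw [mom_split wv.memU wG.memU wτ.memU hη hφ]
  refine tendsto_nhds_unique t5 (t6.congr fun m => ?_)
  have h1 := (h m).mom η φ hη hφ
  rw [mom_split (wv.mem m) (wG.mem m) (wτ.mem m) hη hφ] at h1
  exact h1.symm

theorem lin_bound {E : Type*} [NormedAddCommGroup E] [InnerProductSpace ℝ E] {M : ℝ}
    (hM : 0 ≤ M) {u : ST n → E} (hu : MemLp u 2 volume)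
    (hb : eLpNorm u 2 volume ≤ ENNReal.ofReal M) {η : ℝ → ℝ} (hη : Continuous η)
    (hηc : HasCompactSupport η) {φ : Eu n → E} (hφ : Continuous φ) (hφc : HasCompactSupport φ) :
    |∫ z : ST n, η z.1 * inner ℝ (u z) (φ z.2)| ≤
      M * (Real.sqrt (∫ t, η t ^ 2) * Real.sqrt (∫ x, ‖φ x‖ ^ 2)) := by
  have hm := memLp_test hη hηc hφ hφc
  have h1 := integral_inner_le hu hm
  have e1 : ∫ z : ST n, inner ℝ (u z) (η z.1 • φ z.2) = ∫ z : ST n, η z.1 * inner ℝ (u z) (φ z.2) :=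
    integral_congr_ae (Eventually.of_forall fun z => by simp only [inner_smul_right])
  rw [e1] at h1
  have h2 : (eLpNorm u 2 volume).toReal ≤ M := ENNReal.toReal_le_of_le_ofReal hM hb
  have h3 : (eLpNorm (fun z : ST n => η z.1 • φ z.2) 2 volume).toReal =
      Real.sqrt (∫ t, η t ^ 2) * Real.sqrt (∫ x, ‖φ x‖ ^ 2) := by
    have e2 := toReal_eLpNorm_sq hm
    have e3 : ∫ z : ST n, ‖η z.1 • φ z.2‖ ^ 2 = (∫ t, η t ^ 2) * ∫ x, ‖φ x‖ ^ 2 := by
      have e4 := integral_prod_mul (μ := (volume : Measure ℝ)) (ν := (volume : Measure (Eu n)))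
        (fun t => η t ^ 2) (fun x => ‖φ x‖ ^ 2)
      rw [← e4]
      refine integral_congr_ae (Eventually.of_forall fun z => ?_)
      simp only [norm_smul, mul_pow, Real.norm_eq_abs, sq_abs]
    rw [e3] at e2
    rw [← Real.sqrt_mul (integral_nonneg fun t => by positivity), ← e2,
      Real.sqrt_sq ENNReal.toReal_nonneg]
  rw [h3] at h1
  exact h1.trans (mul_le_mul_of_nonneg_right h2 (by positivity))

theorem slab_quad {T M : ℝ} (hM : 0 ≤ M) {v : ST n → Eu n} (hv : MemLp v 2 volume)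
    (hLB : LB T M v) {η : ℝ → ℝ} (hη : IsTime 0 T η) :
    ∫ z : ST n, |η z.1| * ‖v z‖ ^ 2 ≤ M * ∫ t, |η t| := by
  have hsl := Pool.Agent.Helper50.JS.slices_bound hv.1 hLB
  have hηi : Integrable (fun t => |η t|) :=
    (hη.cont.abs).integrable_of_hasCompactSupport (hη.cpt.comp_left (g := fun x : ℝ => |x|) abs_zero)
  have hm : AEMeasurable (fun z : ST n => ‖η z.1‖ₑ * ‖v z‖ₑ ^ 2) volume :=
    ((hη.cont.comp continuous_fst).aestronglyMeasurable.enorm).mul (hv.1.enorm.pow_const 2)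
  have h1 : ∫⁻ z : ST n, ‖η z.1‖ₑ * ‖v z‖ₑ ^ 2 ≤ ENNReal.ofReal (M * ∫ t, |η t|) := by
    have h2 := Pool.Agent.Helper50.JS.lint_slab hm univ
    rw [univ_prod_univ, Measure.restrict_univ, Measure.restrict_univ] at h2
    rw [h2]
    have h3 : ∀ᵐ t : ℝ, ∫⁻ x : Eu n, ‖η t‖ₑ * ‖v (t, x)‖ₑ ^ 2 ≤ ENNReal.ofReal M *
        ENNReal.ofReal |η t| := by
      filter_upwards [hsl] with t ht
      by_cases h0 : t ∈ Ioo 0 T
      · rw [lintegral_const_mul' _ _ enorm_ne_top, ← Real.norm_eq_abs, ofReal_norm, mul_comm]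
        exact mul_le_mul_left (ht h0) _
      · have h4 : η t = 0 := image_eq_zero_of_notMem_tsupport fun hc => h0 (hη.supp hc)
        simp [h4]
    refine (lintegral_mono_ae h3).trans ?_
    rw [lintegral_const_mul' _ _ ENNReal.ofReal_ne_top, ENNReal.ofReal_mul hM,
      ofReal_integral_eq_lintegral_ofReal hηi (Eventually.of_forall fun t => abs_nonneg _)]
  have h2 : ∫⁻ z : ST n, ENNReal.ofReal (|η z.1| * ‖v z‖ ^ 2) =
      ∫⁻ z : ST n, ‖η z.1‖ₑ * ‖v z‖ₑ ^ 2 := by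
    refine lintegral_congr fun z => ?_
    rw [ENNReal.ofReal_mul (abs_nonneg _), ENNReal.ofReal_pow (norm_nonneg _), ofReal_norm,
      ← Real.norm_eq_abs, ofReal_norm]
  by_cases hi : Integrable (fun z : ST n => |η z.1| * ‖v z‖ ^ 2)
  · have h3 := ofReal_integral_eq_lintegral_ofReal hi
      (Eventually.of_forall fun z => by positivity)
    rw [h2] at h3
    rw [← h3] at h1
    exact (ENNReal.ofReal_le_ofReal_iff (by positivity)).1 h1
  · rw [integral_undef hi]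
    positivity

theorem l1_le {T : ℝ} (hT : 0 < T) {η : ℝ → ℝ} (hη : IsTime 0 T η) :
    ∫ t, |η t| ≤ Real.sqrt T * Real.sqrt (∫ t, η t ^ 2) := by
  have hI : MemLp ((Ioo (0 : ℝ) T).indicator fun _ => (1 : ℝ)) 2 volume :=
    memLp_indicator_const 2 measurableSet_Ioo 1 (Or.inr (by simp))
  have hηm : MemLp η 2 volume := hη.cont.memLp_of_hasCompactSupport hη.cpt
  have h1 := cs_norm hI hηm
  have e1 : ∫ t, ‖(Ioo (0 : ℝ) T).indicator (fun _ => (1 : ℝ)) t‖ * ‖η t‖ = ∫ t, |η t| := by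
    refine integral_congr_ae (Eventually.of_forall fun t => ?_)
    simp only
    by_cases h0 : t ∈ Ioo 0 T
    · rw [indicator_of_mem h0, norm_one, one_mul, Real.norm_eq_abs]
    · have h4 : η t = 0 := image_eq_zero_of_notMem_tsupport fun hc => h0 (hη.supp hc)
      simp [h4]
  have e2 : ∫ t, ‖(Ioo (0 : ℝ) T).indicator (fun _ => (1 : ℝ)) t‖ ^ 2 = T := by
    have : (fun t => ‖(Ioo (0 : ℝ) T).indicator (fun _ => (1 : ℝ)) t‖ ^ 2) =
        (Ioo (0 : ℝ) T).indicator fun _ => (1 : ℝ) := by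
      funext t
      by_cases h0 : t ∈ Ioo 0 T
      · simp [h0]
      · simp [h0]
    rw [this, integral_indicator measurableSet_Ioo]
    simp [hT.le]
  have e3 : ∫ t, ‖η t‖ ^ 2 = ∫ t, η t ^ 2 :=
    integral_congr_ae (Eventually.of_forall fun t => by simp)
  rw [e1, e2, e3] at h1
  exact h1

/-- equicontinuity in time -/
theorem tc_of_mom {Ω : Set (Eu n)} {T μ a c : ℝ} (hT : 0 < T)
    {f : ℝ → (Eu n → Eu n) → ℝ} {g : ℝ → ℝ} (hf : IsForce Ω f g) {v0 : Eu n → Eu n}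
    {τ0 : Eu n → Mt n} {M : ℝ} (hM : 0 ≤ M) {φ : Eu n → Eu n} (hφ : IsVT Ω φ) :
    ∃ C : ℝ, ∀ (S : ST n → Mt n) (v : ST n → Eu n) (G τ : ST n → Mt n),
      IsSol Ω T μ a c f v0 τ0 S v G τ → LB T M v →
      eLpNorm G 2 volume ≤ ENNReal.ofReal M → eLpNorm τ 2 volume ≤ ENNReal.ofReal M →
      ∀ η, IsTime 0 T η → |∫ z : ST n, deriv η z.1 * inner ℝ (v z) (φ z.2)| ≤
        C * Real.sqrt (∫ t, η t ^ 2) := by
  have hd : Continuous (fderiv ℝ φ) := hφ.smooth.continuous_fderiv (by simp)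
  obtain ⟨D, hD⟩ := hd.bounded_above_of_compact_support (hφ.cpt.fderiv (𝕜 := ℝ))
  have hD0 : 0 ≤ D := (norm_nonneg _).trans (hD 0)
  set N := Real.sqrt ((∫ x, ‖φ x‖ ^ 2) + ∫ x, ‖grad φ x‖ ^ 2) with hN
  set g2 := Real.sqrt (∫ t in Ioo 0 T, g t ^ 2) with hg2
  refine ⟨D * (M * Real.sqrt T) + |μ| * (M * Real.sqrt (∫ x, ‖grad φ x‖ ^ 2)) +
    |c| * (M * Real.sqrt (∫ x, ‖sy (grad φ x)‖ ^ 2)) + N * g2, ?_⟩
  intro S v G τ hsol hLB hGb hτb η hη
  have hη' : IsTime (-1) T η := ⟨hη.smooth, hη.cpt, hη.supp.trans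
    (Ioo_subset_Ioo (by norm_num) le_rfl)⟩
  have hη0 : η 0 = 0 := image_eq_zero_of_notMem_tsupport fun hc => lt_irrefl _ (hη.supp hc).1
  have hmom := hsol.mom η φ hη' hφ
  rw [mom_split hsol.vel.memv hsol.vel.memG hsol.memτ hη' hφ, hη0, zero_mul, add_zero] at hmom
  set R := Real.sqrt (∫ t, η t ^ 2) with hR
  have hR0 : 0 ≤ R := Real.sqrt_nonneg _
  -- convection
  have b1 : |∫ z : ST n, η z.1 * inner ℝ (v z) (fderiv ℝ φ z.2 (v z))| ≤
      D * (M * Real.sqrt T) * R := by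
    have i1 : Integrable (fun z : ST n => |η z.1| * ‖v z‖ ^ 2) := by
      have h1 : Integrable (fun z => ‖v z‖ ^ 2) :=
        (memLp_two_iff_integrable_sq_norm hsol.vel.memv.1).1 hsol.vel.memv
      obtain ⟨Cη, hCη⟩ := hη.bounded.1
      exact h1.bdd_mul (c := Cη) (hη.cont.abs.comp continuous_fst).aestronglyMeasurable
        (Eventually.of_forall fun z => by rw [Real.norm_eq_abs, abs_abs]; exact hCη _)
    have h1 : |∫ z : ST n, η z.1 * inner ℝ (v z) (fderiv ℝ φ z.2 (v z))| ≤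
        ∫ z : ST n, D * (|η z.1| * ‖v z‖ ^ 2) := by
      rw [← Real.norm_eq_abs]
      refine norm_integral_le_of_norm_le (i1.const_mul D) (Eventually.of_forall fun z => ?_)
      rw [norm_mul, Real.norm_eq_abs]
      have h2 : ‖inner ℝ (v z) (fderiv ℝ φ z.2 (v z))‖ ≤ ‖v z‖ * (D * ‖v z‖) :=
        (norm_inner_le_norm _ _).trans (mul_le_mul_of_nonneg_left
          ((ContinuousLinearMap.le_opNorm _ _).trans
            (mul_le_mul_of_nonneg_right (hD _) (norm_nonneg _))) (norm_nonneg _))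
      calc |η z.1| * ‖inner ℝ (v z) (fderiv ℝ φ z.2 (v z))‖
          ≤ |η z.1| * (‖v z‖ * (D * ‖v z‖)) := mul_le_mul_of_nonneg_left h2 (abs_nonneg _)
        _ = D * (|η z.1| * ‖v z‖ ^ 2) := by ring
    rw [integral_const_mul] at h1
    have h2 := slab_quad hM hsol.vel.memv hLB hη
    have h3 := l1_le hT hη
    calc |∫ z : ST n, η z.1 * inner ℝ (v z) (fderiv ℝ φ z.2 (v z))|
        ≤ D * (M * (Real.sqrt T * R)) :=
          h1.trans (mul_le_mul_of_nonneg_left (h2.trans (mul_le_mul_of_nonneg_left h3 hM)) hD0)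
      _ = _ := by ring
  have b2 := lin_bound hM hsol.vel.memG hGb hη.cont hη.cpt hφ.grad_cont hφ.grad_cpt
  have b3 := lin_bound hM hsol.memτ hτb hη.cont hη.cpt (sy_grad_cont hφ) (sy_grad_cpt hφ)
  -- force
  have b4 : |∫ t in Ioo 0 T, η t * f t φ| ≤ N * g2 * R := by
    have hgm : MemLp g 2 (volume.restrict (Ioo 0 T)) := by
      rw [memLp_two_iff_integrable_sq_norm hf.gmeas.restrict]
      have h5 : Integrable (fun t => g t ^ 2) (volume.restrict (Ioo 0 T)) := hf.gint T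
      simpa using h5
    have hηm : MemLp η 2 (volume.restrict (Ioo 0 T)) :=
      (hη.cont.memLp_of_hasCompactSupport hη.cpt).restrict _
    have h1 := cs_norm hηm hgm
    have hint : Integrable (fun t => ‖η t‖ * ‖g t‖) (volume.restrict (Ioo 0 T)) :=
      hηm.norm.integrable_mul hgm.norm
    have h2 : |∫ t in Ioo 0 T, η t * f t φ| ≤ ∫ t in Ioo 0 T, N * (‖η t‖ * ‖g t‖) := by
      rw [← Real.norm_eq_abs]
      refine norm_integral_le_of_norm_le (hint.const_mul N) (Eventually.of_forall fun t => ?_)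
      rw [norm_mul, Real.norm_eq_abs (f t φ)]
      have h3 := hf.bound t φ hφ
      rw [Real.norm_of_nonneg (hf.gnn t)]
      calc ‖η t‖ * |f t φ| ≤ ‖η t‖ * (g t * N) := mul_le_mul_of_nonneg_left h3 (norm_nonneg _)
        _ = _ := by ring
    rw [integral_const_mul] at h2
    have e1 : ∫ t in Ioo 0 T, ‖η t‖ ^ 2 ≤ ∫ t, η t ^ 2 := by
      have hi : Integrable (fun t => ‖η t‖ ^ 2) := (memLp_two_iff_integrable_sq_norm
        hη.cont.aestronglyMeasurable).1 (hη.cont.memLp_of_hasCompactSupport hη.cpt)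
      have h3 := setIntegral_le_integral (s := Ioo 0 T) hi
        (Eventually.of_forall fun t => by positivity)
      refine h3.trans (le_of_eq ?_)
      exact integral_congr_ae (Eventually.of_forall fun t => by simp)
    have e2 : ∫ t in Ioo 0 T, ‖g t‖ ^ 2 = ∫ t in Ioo 0 T, g t ^ 2 :=
      integral_congr_ae (Eventually.of_forall fun t => by simp)
    rw [e2] at h1
    have h4 : Real.sqrt (∫ t in Ioo 0 T, ‖η t‖ ^ 2) * g2 ≤ R * g2 :=
      mul_le_mul_of_nonneg_right (Real.sqrt_le_sqrt e1) (Real.sqrt_nonneg _)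
    calc |∫ t in Ioo 0 T, η t * f t φ| ≤ N * (R * g2) :=
          h2.trans (mul_le_mul_of_nonneg_left (h1.trans h4) (Real.sqrt_nonneg _))
      _ = _ := by ring
  have e : ∫ z : ST n, deriv η z.1 * inner ℝ (v z) (φ z.2) =
      -(∫ z : ST n, η z.1 * inner ℝ (v z) (fderiv ℝ φ z.2 (v z))) +
      μ * (∫ z : ST n, η z.1 * inner ℝ (G z) (grad φ z.2)) +
      c * (∫ z : ST n, η z.1 * inner ℝ (τ z) (sy (grad φ z.2))) -
      ∫ t in Ioo 0 T, η t * f t φ := by linarith
  rw [e]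
  have b2' := mul_le_mul_of_nonneg_left b2 (abs_nonneg μ)
  have b3' := mul_le_mul_of_nonneg_left b3 (abs_nonneg c)
  rw [← abs_mul] at b2' b3'
  refine (abs_sub _ _).trans ?_
  refine (add_le_add (abs_add_three _ _ _) le_rfl).trans ?_
  rw [abs_neg]
  nlinarith

end Pool.Agent.Helper50.JM
end

section
/-! # Stability of the transport equation under weak/strong limits (module P2) -/

open MeasureTheory Set Filter Topology
open scoped ENNReal NNReal ContDiff

namespace Pool.Agent.Helper76.Jef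

open Pool.Agent.Helper42.Jef

variable {n : ℕ}

theorem te_limit {E : Type*} [NormedAddCommGroup E] [InnerProductSpace ℝ E]
    [FiniteDimensional ℝ E] [MeasurableSpace E] [BorelSpace E] {T : ℝ}
    {vs : ℕ → ST n → Eu n} {v : ST n → Eu n}
    (hvs : ∀ m, MemLp (vs m) 2 volume) (hv : MemLp v 2 volume)
    (hs : Tendsto (fun m => eLpNorm (fun z => vs m z - v z) 2 volume) atTop (𝓝 0))
    {us Fs : ℕ → ST n → E} {u F : ST n → E} (hu : WC volume us u) (hF : WC volume Fs F)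
    (h : ∀ m, TE T (vs m) (us m) (Fs m)) : TE T v u F := by
  intro η ψ hη hψ
  obtain ⟨h1, h2, h3⟩ := strong_D hvs hv hs hη.cont hη.cpt hψ.smooth hψ.cpt
  have m1 : MemLp (fun z : ST n => deriv η z.1 * ψ z.2) 2 volume :=
    memLp_test (E := ℝ) hη.dcont hη.cpt.deriv hψ.smooth.continuous hψ.cpt
  have m3 : MemLp (fun z : ST n => η z.1 * ψ z.2) 2 volume :=
    memLp_test (E := ℝ) hη.cont hη.cpt hψ.smooth.continuous hψ.cpt
  -- the scalar coefficient
  have w1 : ∀ m, MemLp (fun z : ST n => deriv η z.1 * ψ z.2 + η z.1 * fderiv ℝ ψ z.2 (vs m z)) 2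
      volume := fun m => m1.add (h1 m)
  have w2 : MemLp (fun z : ST n => deriv η z.1 * ψ z.2 + η z.1 * fderiv ℝ ψ z.2 (v z)) 2 volume :=
    m1.add h2
  have w3 : Tendsto (fun m => eLpNorm (fun z : ST n =>
      (deriv η z.1 * ψ z.2 + η z.1 * fderiv ℝ ψ z.2 (vs m z)) -
      (deriv η z.1 * ψ z.2 + η z.1 * fderiv ℝ ψ z.2 (v z))) 2 volume) atTop (𝓝 0) := by
    refine h3.congr fun m => ?_
    congr 1
    funext z
    simp only [smul_eq_mul]
    ring
  let B : E →L[ℝ] ℝ →L[ℝ] E := (ContinuousLinearMap.lsmul ℝ ℝ).flip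
  have hB : ∀ (x : E) (r : ℝ), B x r = r • x := fun x r => rfl
  have l1 := wc_bilin_strong hu w1 w2 w3 B
  have l2 := wc_bilin_fixed hF m3 B
  simp only [hB] at l1 l2
  have l3 := l1.add l2
  have e0 : ∀ m, (∫ z : ST n, (deriv η z.1 * ψ z.2 + η z.1 * fderiv ℝ ψ z.2 (vs m z)) • us m z) +
      ∫ z : ST n, (η z.1 * ψ z.2) • Fs m z = 0 := by
    intro m
    rw [← integral_add (smul_int2 (w1 m) (hu.mem m)) (smul_int2 m3 (hF.mem m))]
    exact h m η ψ hη hψ
  have e1 : (∫ z : ST n, (deriv η z.1 * ψ z.2 + η z.1 * fderiv ℝ ψ z.2 (v z)) • u z) +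
      ∫ z : ST n, (η z.1 * ψ z.2) • F z = 0 := by
    refine tendsto_nhds_unique l3 ?_
    simp only [e0]
    exact tendsto_const_nhds
  rw [integral_add (smul_int2 w2 hu.memU) (smul_int2 m3 hF.memU)]
  exact e1

theorem ext0_eq {E : Type*} [NormedAddCommGroup E] [NormedSpace ℝ E] (w0 : Eu n → E)
    (u : ST n → E) (z : ST n) :
    ext0 w0 u z = (Ioo (-1 : ℝ) 0).indicator (fun _ => (1 : ℝ)) z.1 • w0 z.2 +
      (Ioo (-1 : ℝ) 0)ᶜ.indicator (fun _ => (1 : ℝ)) z.1 • u z := by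
  unfold ext0
  by_cases hz : z.1 ∈ Ioo (-1 : ℝ) 0
  · rw [if_pos hz, indicator_of_mem hz, indicator_of_notMem (by simpa using hz)]
    simp
  · rw [if_neg hz, indicator_of_notMem hz, indicator_of_mem (by simpa using hz)]
    simp

theorem wc_ext0 {E : Type*} [NormedAddCommGroup E] [InnerProductSpace ℝ E]
    [FiniteDimensional ℝ E] [MeasurableSpace E] [BorelSpace E] {us : ℕ → ST n → E} {U : ST n → E}
    (h : WC volume us U) {w0 : Eu n → E} (hw0 : MemLp w0 2 volume) :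
    WC volume (fun m => ext0 w0 (us m)) (ext0 w0 U) := by
  have h1 : MemLp (fun z : ST n => (Ioo (-1 : ℝ) 0).indicator (fun _ => (1 : ℝ)) z.1 • w0 z.2) 2
      volume := by
    refine memLp_prod_smul ?_ hw0
    exact memLp_indicator_const 2 measurableSet_Ioo 1 (Or.inr (by simp))
  have h2 : WC volume (fun m (z : ST n) =>
      (Ioo (-1 : ℝ) 0)ᶜ.indicator (fun _ => (1 : ℝ)) z.1 • us m z)
      (fun z => (Ioo (-1 : ℝ) 0)ᶜ.indicator (fun _ => (1 : ℝ)) z.1 • U z) := by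
    refine wc_weight h (C := 1) ?_ fun z => ?_
    · exact ((measurable_const.indicator measurableSet_Ioo.compl).comp
        measurable_fst).aestronglyMeasurable
    · by_cases hz : z.1 ∈ (Ioo (-1 : ℝ) 0)ᶜ
      · rw [indicator_of_mem hz]; simp
      · rw [indicator_of_notMem hz]; simp
  have h3 := (wc_const h1).add h2
  have e : ∀ u : ST n → E, ext0 w0 u = fun z =>
      (Ioo (-1 : ℝ) 0).indicator (fun _ => (1 : ℝ)) z.1 • w0 z.2 +
      (Ioo (-1 : ℝ) 0)ᶜ.indicator (fun _ => (1 : ℝ)) z.1 • u z := by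
    intro u
    funext z
    exact ext0_eq w0 u z
  simp only [e]
  exact h3

end Pool.Agent.Helper76.Jef
end
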