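import Pool.Agent.Helper42.JefB.G1
import Pool.Agent.Helper42.JefB.D4
import Pool.Agent.Helper42.JefB.C3
import Pool.Agent.Helper42.JefB.E2
import Pool.Agent.Helper42.JefB.D3
import Pool.Agent.Helper42.JefB.E3
import Pool.Agent.Helper42.JefB.E1

section
/-! # Closure theorem: auxiliary facts -/

open MeasureTheory Set Filter Topology
open scoped ENNReal NNReal ContDiff

namespace Pool.Agent.Helper42.Jef

open Pool.Agent.Helper22.Jef

set_option maxHeartbeats 1000000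

variable {n : ℕ} {Ω : Set (Eu n)}

theorem mspin_norm_le (Ω : Set (Eu n)) {δ : ℝ} (hδ : 0 < δ) {G : ST n → Mt n}
    (hG : MemLp G 2 volume) {M : ℝ} (hM : eLpNorm G 2 volume ≤ ENNReal.ofReal M) :
    eLpNorm (mspin Ω δ G) 2 volume ≤ ENNReal.ofReal M := by
  rw [mspin_eq]
  refine (eLpNorm_indicator_le _).trans ?_
  refine (spc_eLpNorm_le (ro_integrable hδ).1 (sp_memLp hG).1).trans ?_
  rw [ro_lint hδ, one_mul]
  refine (eLpNorm_mono fun z => ?_).trans hM
  exact norm_sp_le _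

theorem LB.all {E : Type*} [NormedAddCommGroup E] {T M : ℝ} {u : ST n → E} (h : LB T M u)
    (h0 : ∀ᵐ z : ST n, z.1 ∉ Ioo 0 T → u z = 0) {I : Set ℝ} (hI : MeasurableSet I) :
    ∫⁻ z in I ×ˢ (univ : Set (Eu n)), ‖u z‖ₑ ^ 2 ≤ ENNReal.ofReal M * volume I := by
  have h1 := h (I ∩ Ioo 0 T) (hI.inter measurableSet_Ioo) inter_subset_right
  have hS : MeasurableSet (I ×ˢ (univ : Set (Eu n))) := hI.prod MeasurableSet.univ
  have hS' : MeasurableSet ((I ∩ Ioo 0 T) ×ˢ (univ : Set (Eu n))) :=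
    (hI.inter measurableSet_Ioo).prod MeasurableSet.univ
  have h2 : ∫⁻ z in I ×ˢ (univ : Set (Eu n)), ‖u z‖ₑ ^ 2 =
      ∫⁻ z in (I ∩ Ioo 0 T) ×ˢ (univ : Set (Eu n)), ‖u z‖ₑ ^ 2 := by
    rw [← lintegral_indicator hS, ← lintegral_indicator hS']
    refine lintegral_congr_ae ?_
    filter_upwards [h0] with z hz
    by_cases h3 : z.1 ∈ I
    · rw [indicator_of_mem (by exact ⟨h3, trivial⟩)]
      by_cases h4 : z.1 ∈ Ioo 0 T
      · rw [indicator_of_mem (by exact ⟨⟨h3, h4⟩, trivial⟩)]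
      · rw [indicator_of_notMem (by exact fun hc => h4 hc.1.2), hz h4, enorm_zero]
        simp
    · rw [indicator_of_notMem (by exact fun hc => h3 hc.1),
        indicator_of_notMem (by exact fun hc => h3 hc.1.1)]
  rw [h2]
  refine h1.trans ?_
  gcongr
  exact inter_subset_left

theorem LB.mono {E : Type*} [NormedAddCommGroup E] {T M M' : ℝ} {u : ST n → E} (h : LB T M u)
    (hMM : M ≤ M') : LB T M' u := fun I hI hIT =>
  (h I hI hIT).trans (by gcongr)

theorem int_abs_sq_sub {α : Type*} [MeasurableSpace α] {μ : Measure α} {E : Type*}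
    [NormedAddCommGroup E] [InnerProductSpace ℝ E] {u w : α → E} (hu : MemLp u 2 μ)
    (hw : MemLp w 2 μ) : ∫ x, |‖u x‖ ^ 2 - ‖w x‖ ^ 2| ∂μ ≤
      (eLpNorm (fun x => u x - w x) 2 μ).toReal * ((eLpNorm u 2 μ).toReal +
        (eLpNorm w 2 μ).toReal) := by
  have hd : MemLp (fun x => u x - w x) 2 μ := hu.sub hw
  have i1 : Integrable (fun x => ‖u x - w x‖ * ‖u x‖) μ := hd.norm.integrable_mul hu.norm
  have i2 : Integrable (fun x => ‖u x - w x‖ * ‖w x‖) μ := hd.norm.integrable_mul hw.norm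
  have h1 : ∫ x, |‖u x‖ ^ 2 - ‖w x‖ ^ 2| ∂μ ≤
      ∫ x, (‖u x - w x‖ * ‖u x‖ + ‖u x - w x‖ * ‖w x‖) ∂μ := by
    refine integral_mono_of_nonneg (Eventually.of_forall fun x => abs_nonneg _) (i1.add i2)
      (Eventually.of_forall fun x => ?_)
    show |‖u x‖ ^ 2 - ‖w x‖ ^ 2| ≤ ‖u x - w x‖ * ‖u x‖ + ‖u x - w x‖ * ‖w x‖
    have e1 : ‖u x‖ ^ 2 - ‖w x‖ ^ 2 = (‖u x‖ - ‖w x‖) * (‖u x‖ + ‖w x‖) := by ring
    rw [e1, abs_mul, abs_of_nonneg (by positivity : 0 ≤ ‖u x‖ + ‖w x‖), ← mul_add]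
    exact mul_le_mul_of_nonneg_right (abs_norm_sub_norm_le _ _) (by positivity)
  rw [integral_add i1 i2] at h1
  have c1 := cs_norm hd hu
  have c2 := cs_norm hd hw
  rw [← toReal_eLpNorm_sq hd, ← toReal_eLpNorm_sq hu, Real.sqrt_sq ENNReal.toReal_nonneg,
    Real.sqrt_sq ENNReal.toReal_nonneg] at c1
  rw [← toReal_eLpNorm_sq hd, ← toReal_eLpNorm_sq hw, Real.sqrt_sq ENNReal.toReal_nonneg,
    Real.sqrt_sq ENNReal.toReal_nonneg] at c2
  rw [mul_add]
  linarith

/-- the truncated defects converge in `L¹` to the defect -/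
theorem defect_conv {α : Type*} [MeasurableSpace α] {μ : Measure α} {E : Type*}
    [NormedAddCommGroup E] [InnerProductSpace ℝ E] {uk : ℕ → α → E} {U : α → E} {ak : ℕ → α → ℝ}
    {A : α → ℝ} (hA : Integrable A μ) (hak : ∀ k, Integrable (ak k) μ)
    (huk : ∀ k, MemLp (uk k) 2 μ) (hU : MemLp U 2 μ)
    (h1 : Tendsto (fun k => ∫ x, |A x - ak k x| ∂μ) atTop (𝓝 0))
    (h2 : Tendsto (fun k => eLpNorm (fun x => uk k x - U x) 2 μ) atTop (𝓝 0)) :
    Tendsto (fun k => ∫ x, |ak k x - ‖uk k x‖ ^ 2 - (A x - ‖U x‖ ^ 2)| ∂μ) atTop (𝓝 0) := by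
  set e : ℕ → ℝ := fun k => (eLpNorm (fun x => uk k x - U x) 2 μ).toReal
  set B := (eLpNorm U 2 μ).toReal
  have he : Tendsto e atTop (𝓝 0) := by
    have := (ENNReal.tendsto_toReal ENNReal.zero_ne_top).comp h2
    rw [ENNReal.toReal_zero] at this
    exact this
  have h3 : ∀ k, ∫ x, |ak k x - ‖uk k x‖ ^ 2 - (A x - ‖U x‖ ^ 2)| ∂μ ≤
      (∫ x, |A x - ak k x| ∂μ) + e k * ((e k + B) + B) := by
    intro k
    have i1 : Integrable (fun x => |A x - ak k x|) μ := (hA.sub (hak k)).abs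
    have i2 : Integrable (fun x => |‖uk k x‖ ^ 2 - ‖U x‖ ^ 2|) μ := by
      have a1 : Integrable (fun x => ‖uk k x‖ ^ 2) μ := by
        have := (huk k).norm.integrable_sq
        exact this
      have a2 : Integrable (fun x => ‖U x‖ ^ 2) μ := by
        have := hU.norm.integrable_sq
        exact this
      exact (a1.sub a2).abs
    have h4 : ∫ x, |ak k x - ‖uk k x‖ ^ 2 - (A x - ‖U x‖ ^ 2)| ∂μ ≤
        ∫ x, (|A x - ak k x| + |‖uk k x‖ ^ 2 - ‖U x‖ ^ 2|) ∂μ := by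
      refine integral_mono_of_nonneg (Eventually.of_forall fun x => abs_nonneg _) (i1.add i2)
        (Eventually.of_forall fun x => ?_)
      show |ak k x - ‖uk k x‖ ^ 2 - (A x - ‖U x‖ ^ 2)| ≤
        |A x - ak k x| + |‖uk k x‖ ^ 2 - ‖U x‖ ^ 2|
      have e1 : ak k x - ‖uk k x‖ ^ 2 - (A x - ‖U x‖ ^ 2) =
          -(A x - ak k x) - (‖uk k x‖ ^ 2 - ‖U x‖ ^ 2) := by ring
      rw [e1]
      refine (abs_sub _ _).trans ?_
      rw [abs_neg]
    rw [integral_add i1 i2] at h4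
    have h5 := int_abs_sq_sub (huk k) hU
    have h6 : (eLpNorm (uk k) 2 μ).toReal ≤ e k + B := by
      have h7 : eLpNorm (uk k) 2 μ ≤ eLpNorm (fun x => uk k x - U x) 2 μ + eLpNorm U 2 μ := by
        have h8 : uk k = (fun x => uk k x - U x) + U := by funext x; simp
        calc eLpNorm (uk k) 2 μ = eLpNorm ((fun x => uk k x - U x) + U) 2 μ := by rw [← h8]
          _ ≤ _ := eLpNorm_add_le ((huk k).1.sub hU.1) hU.1 (by norm_num)
      have h9 : eLpNorm (fun x => uk k x - U x) 2 μ ≠ ⊤ := ((huk k).sub hU).2.ne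
      have h10 := ENNReal.toReal_mono (ENNReal.add_ne_top.2 ⟨h9, hU.2.ne⟩) h7
      rwa [ENNReal.toReal_add h9 hU.2.ne] at h10
    have h11 : (eLpNorm (fun x => uk k x - U x) 2 μ).toReal * ((eLpNorm (uk k) 2 μ).toReal +
        (eLpNorm U 2 μ).toReal) ≤ e k * ((e k + B) + B) :=
      mul_le_mul_of_nonneg_left (add_le_add h6 le_rfl) ENNReal.toReal_nonneg
    linarith
  have h4 : Tendsto (fun k => (∫ x, |A x - ak k x| ∂μ) + e k * ((e k + B) + B)) atTop (𝓝 0) := by
    have := h1.add (he.mul ((he.add_const B).add_const B))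
    simpa using this
  exact squeeze_zero (fun k => integral_nonneg fun x => abs_nonneg _) h3 h4

end Pool.Agent.Helper42.Jef
end

section
/-! # Restriction to shorter time intervals -/

open MeasureTheory Set Filter Topology
open scoped ENNReal NNReal ContDiff

namespace Pool.Agent.Helper42.Jef

open Pool.Agent.Helper44.Diag

set_option maxHeartbeats 1000000

variable {n : ℕ} {Ω : Set (Eu n)}

theorem rs_memLp {E : Type*} [NormedAddCommGroup E] [NormedSpace ℝ E] {u : ST n → E}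
    (hu : MemLp u 2 volume) (T : ℝ) : MemLp (rs T u) 2 volume := by
  have h1 : rs T u = (Ioo 0 T ×ˢ (univ : Set (Eu n))).indicator u := by
    funext z
    by_cases hz : z.1 ∈ Ioo 0 T
    · rw [rs_mem hz, indicator_of_mem (by exact ⟨hz, trivial⟩)]
    · rw [rs_notMem hz, indicator_of_notMem (by exact fun hc => hz hc.1)]
  rw [h1]
  exact hu.indicator (measurableSet_Ioo.prod MeasurableSet.univ)

theorem IsElem.rs {T T' : ℝ} (hTT : T ≤ T') {v : ST n → Eu n} {G : ST n → Mt n}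
    (h : IsElem Ω T' v G) : IsElem Ω T (rs T v) (rs T G) := by
  obtain ⟨N, c, φ, hc, hb, h0, hφ, hv, hG⟩ := h
  refine ⟨N, fun j => (Ioo 0 T).indicator (c j), φ, fun j => (hc j).indicator measurableSet_Ioo,
    fun j => ?_, fun j t ht => indicator_of_notMem ht _, hφ, fun z => ?_, fun z => ?_⟩
  · obtain ⟨C, hC⟩ := hb j
    refine ⟨C, fun t => ?_⟩
    show |(Ioo 0 T).indicator (c j) t| ≤ C
    by_cases ht : t ∈ Ioo 0 T
    · rw [indicator_of_mem ht]; exact hC t
    · rw [indicator_of_notMem ht, abs_zero]; exact (abs_nonneg _).trans (hC t)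
  · by_cases hz : z.1 ∈ Ioo 0 T
    · rw [rs_mem hz, hv]; simp only [indicator_of_mem hz]
    · rw [rs_notMem hz]; simp only [indicator_of_notMem hz, zero_smul, Finset.sum_const_zero]
  · by_cases hz : z.1 ∈ Ioo 0 T
    · rw [rs_mem hz, hG]; simp only [indicator_of_mem hz]
    · rw [rs_notMem hz]; simp only [indicator_of_notMem hz, zero_smul, Finset.sum_const_zero]

theorem rs_sub_norm {E : Type*} [NormedAddCommGroup E] (T : ℝ) (u w : ST n → E) :
    eLpNorm (rs T u - rs T w) 2 volume ≤ eLpNorm (u - w) 2 volume := by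
  refine eLpNorm_mono fun z => ?_
  by_cases hz : z.1 ∈ Ioo 0 T
  · simp only [Pi.sub_apply, rs_mem hz]; exact le_rfl
  · simp only [Pi.sub_apply, rs_notMem hz, sub_zero, norm_zero]; exact norm_nonneg _

theorem IsVel.rs {T T' : ℝ} (hTT : T ≤ T') {v : ST n → Eu n} {G : ST n → Mt n}
    (h : IsVel Ω T' v G) : IsVel Ω T (rs T v) (rs T G) where
  memv := rs_memLp h.memv T
  memG := rs_memLp h.memG T
  approx := by
    intro ε hε
    obtain ⟨v', G', hel, h1, h2⟩ := h.approx ε hε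
    exact ⟨Pool.Agent.Helper42.Jef.rs T v', Pool.Agent.Helper42.Jef.rs T G', hel.rs hTT,
      (rs_sub_norm T _ _).trans h1, (rs_sub_norm T _ _).trans h2⟩

theorem mspin_rs (δ T : ℝ) (G : ST n → Mt n) : mspin Ω δ (rs T G) = rs T (mspin Ω δ G) := by
  funext z
  by_cases hz : z.1 ∈ Ioo 0 T
  · rw [rs_mem hz]
    by_cases hx : z.2 ∈ Ω
    · simp only [mspin, indicator_of_mem hx, mo]
      refine integral_congr_ae (Eventually.of_forall fun y => ?_)
      have : rs T G (z.1, y) = G (z.1, y) := rs_mem (z := (z.1, y)) hz G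
      simp only [this]
    · simp only [mspin, indicator_of_notMem hx]
  · rw [rs_notMem hz]
    by_cases hx : z.2 ∈ Ω
    · simp only [mspin, indicator_of_mem hx, mo]
      have h1 : ∀ y, sp (rs T G (z.1, y)) = 0 := by
        intro y
        have : rs T G (z.1, y) = 0 := rs_notMem (z := (z.1, y)) hz G
        rw [this]; exact (spL n).map_zero
      simp only [h1, smul_zero, integral_zero]
    · simp only [mspin, indicator_of_notMem hx]

theorem sp_rs (T : ℝ) (G : ST n → Mt n) : (fun z => sp (rs T G z)) = rs T (fun z => sp (G z)) := by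
  funext z
  by_cases hz : z.1 ∈ Ioo 0 T
  · rw [rs_mem hz, rs_mem hz]
  · rw [rs_notMem hz, rs_notMem hz]; exact (spL n).map_zero

theorem IsTime.weaken {a b b' : ℝ} (hb : b ≤ b') {η : ℝ → ℝ} (h : IsTime a b η) :
    IsTime a b' η := ⟨h.smooth, h.cpt, h.supp.trans (Ioo_subset_Ioo le_rfl hb)⟩

theorem IsTime.zero_ge {a b : ℝ} {η : ℝ → ℝ} (h : IsTime a b η) {t : ℝ} (ht : b ≤ t) :
    η t = 0 ∧ deriv η t = 0 := by
  have h1 : t ∉ tsupport η := fun hc => (not_lt.2 ht) (h.supp hc).2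
  refine ⟨image_eq_zero_of_notMem_tsupport h1, ?_⟩
  have h2 : t ∉ tsupport (deriv η) := fun hc => h1 (tsupport_deriv_subset hc)
  exact image_eq_zero_of_notMem_tsupport h2

/-- weak solutions restrict to shorter time intervals -/
theorem IsSol.rs (hΩ : MeasurableSet Ω) {T T' μ a c : ℝ} (hTT : T ≤ T')
    {f : ℝ → (Eu n → Eu n) → ℝ} {v0 : Eu n → Eu n} {τ0 : Eu n → Mt n} {S : ST n → Mt n}
    {v : ST n → Eu n} {G τ : ST n → Mt n} (h : IsSol Ω T' μ a c f v0 τ0 S v G τ) :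
    IsSol Ω T μ a c f v0 τ0 (rs T S) (rs T v) (rs T G) (rs T τ) where
  vel := h.vel.rs hTT
  memτ := rs_memLp h.memτ T
  supτ := fun z hz => rs_notMem hz τ
  memS := rs_memLp h.memS T
  mom := by
    intro η φ hη hφ
    have h1 := h.mom η φ (hη.weaken hTT) hφ
    refine Eq.trans ?_ h1
    congr 1
    congr 1
    · refine integral_congr_ae ?_
      filter_upwards [(h.vel.zero_out hΩ).1, (h.vel.zero_out hΩ).2] with z hz1 hz2
      by_cases hz : z.1 ∈ Ioo 0 T
      · simp only [rs_mem hz]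
      · simp only [rs_notMem hz, inner_zero_left, mul_zero, sub_zero, add_zero]
        rcases lt_or_ge z.1 T with h3 | h3
        · have h4 : z.1 ∉ Ioo 0 T' := fun hc => hz ⟨hc.1, h3⟩
          simp only [hz1 (Or.inl h4), hz2 (Or.inl h4), h.supτ z h4, inner_zero_left, mul_zero,
            sub_zero, add_zero]
        · simp only [(hη.zero_ge h3).1, (hη.zero_ge h3).2, zero_mul, add_zero]
    · rw [← integral_indicator measurableSet_Ioo, ← integral_indicator measurableSet_Ioo]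
      refine integral_congr_ae (Eventually.of_forall fun t => ?_)
      by_cases ht : t ∈ Ioo 0 T
      · have ht' : t ∈ Ioo 0 T' := ⟨ht.1, ht.2.trans_le hTT⟩
        simp only [indicator_of_mem ht, indicator_of_mem ht']
      · rw [indicator_of_notMem ht]
        by_cases ht' : t ∈ Ioo 0 T'
        · rw [indicator_of_mem ht']
          have h3 : T ≤ t := by
            by_contra hc
            exact ht ⟨ht'.1, not_le.1 hc⟩
          rw [(hη.zero_ge h3).1, zero_mul]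
        · rw [indicator_of_notMem ht']
  str := by
    intro η ψ hη hψ
    have h1 := h.str η ψ (hη.weaken hTT) hψ
    refine Eq.trans ?_ h1
    congr 1
    refine integral_congr_ae ?_
    filter_upwards [(h.vel.zero_out hΩ).1, (h.vel.zero_out hΩ).2] with z hz1 hz2
    by_cases hz : z.1 ∈ Ioo 0 T
    · simp only [rs_mem hz]
    · simp only [rs_notMem hz]
      have hs0 : sy (0 : Mt n) = 0 := (syL n).map_zero
      rcases lt_or_ge z.1 T with h3 | h3
      · have h4 : z.1 ∉ Ioo 0 T' := fun hc => hz ⟨hc.1, h3⟩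
        simp only [hz2 (Or.inl h4), h.supτ z h4, smul_zero, br_zero_left, hs0, sub_zero]
      · simp only [(hη.zero_ge h3).1, (hη.zero_ge h3).2, zero_mul, add_zero, zero_smul]

theorem LB.rs {E : Type*} [NormedAddCommGroup E] {T M : ℝ} {u : ST n → E}
    (h : LB T M u) : LB T M (rs T u) := by
  intro I hI hIT
  refine le_trans (le_of_eq ?_) (h I hI hIT)
  refine setLIntegral_congr_fun (hI.prod MeasurableSet.univ) fun z hz => ?_
  have : z.1 ∈ Ioo 0 T := hIT hz.1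
  simp only [rs_mem this]

theorem IsSol.congr_S {T μ a c : ℝ}
    {f : ℝ → (Eu n → Eu n) → ℝ} {v0 : Eu n → Eu n} {τ0 : Eu n → Mt n} {S S' : ST n → Mt n}
    {v : ST n → Eu n} {G τ : ST n → Mt n} (h : IsSol Ω T μ a c f v0 τ0 S v G τ) (hS : S = S') :
    IsSol Ω T μ a c f v0 τ0 S' v G τ := hS ▸ h

/-- eventually bounded implies bounded -/
theorem bdd_of_eventually {x : ℕ → ℝ≥0∞} (hx : ∀ m, x m ≠ ⊤) {C : ℝ} {N : ℕ}
    (h : ∀ m, N ≤ m → x m ≤ ENNReal.ofReal C) : ∃ C' : ℝ, ∀ m, x m ≤ ENNReal.ofReal C' := by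
  refine ⟨|C| + ∑ m ∈ Finset.range N, (x m).toReal, fun m => ?_⟩
  have h0 : 0 ≤ ∑ m ∈ Finset.range N, (x m).toReal :=
    Finset.sum_nonneg fun i _ => ENNReal.toReal_nonneg
  by_cases hm : N ≤ m
  · refine (h m hm).trans (ENNReal.ofReal_le_ofReal ?_)
    linarith [le_abs_self C]
  · have h1 : (x m).toReal ≤ ∑ m ∈ Finset.range N, (x m).toReal :=
      Finset.single_le_sum (f := fun m => (x m).toReal) (fun i _ => ENNReal.toReal_nonneg)
        (Finset.mem_range.2 (not_le.1 hm))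
    rw [← ENNReal.ofReal_toReal (hx m)]
    refine ENNReal.ofReal_le_ofReal ?_
    linarith [abs_nonneg C]

end Pool.Agent.Helper42.Jef
end

section
/-! # Removal of the truncation when the defect vanishes (module P7) -/

open MeasureTheory Set Filter Topology
open scoped ENNReal NNReal ContDiff

namespace Pool.Agent.Helper63.Jef

open Pool.Agent.Helper42.Jef Pool.Agent.Helper76.Jef Pool.Agent.Helper22.Jef

set_option maxHeartbeats 1000000

variable {n : ℕ}

section gen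

variable {α : Type*} [MeasurableSpace α] {μ : Measure α}
variable {E F : Type*} [NormedAddCommGroup E] [InnerProductSpace ℝ E]
  [NormedAddCommGroup F] [InnerProductSpace ℝ F]

omit [InnerProductSpace ℝ E] [InnerProductSpace ℝ F] in
/-- Cauchy–Schwarz for norms -/
theorem cs {f : α → E} {g : α → F} (hf : MemLp f 2 μ) (hg : MemLp g 2 μ) :
    ∫ x, ‖f x‖ * ‖g x‖ ∂μ ≤ (eLpNorm f 2 μ).toReal * (eLpNorm g 2 μ).toReal := by
  have h3 := integral_inner_le (E := ℝ) hf.norm hg.norm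
  have h4 : ∫ x, inner ℝ (‖f x‖ : ℝ) (‖g x‖ : ℝ) ∂μ = ∫ x, ‖f x‖ * ‖g x‖ ∂μ :=
    integral_congr_ae (Eventually.of_forall fun x => by
      simp only [RCLike.inner_apply, conj_trivial]; ring)
  rw [h4, eLpNorm_norm, eLpNorm_norm] at h3
  exact (le_abs_self _).trans h3

theorem toReal_sq {f : α → E} (hf : MemLp f 2 μ) :
    (eLpNorm f 2 μ).toReal = Real.sqrt (∫ x, ‖f x‖ ^ 2 ∂μ) := by
  have h1 : ∫ x, ‖f x‖ ^ 2 ∂μ = (eLpNorm f 2 μ).toReal ^ 2 := by
    have h2 := inner_toLp hf hf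
    rw [real_inner_self_eq_norm_sq, Lp.norm_toLp] at h2
    rw [h2]
    exact integral_congr_ae (Eventually.of_forall fun x => by
      simp only [real_inner_self_eq_norm_sq])
  rw [h1, Real.sqrt_sq ENNReal.toReal_nonneg]

theorem memLp_bdd_smul {f : α → E} (hf : MemLp f 2 μ) {ζ : α → ℝ}
    (hζ : AEStronglyMeasurable ζ μ) {C : ℝ} (hC : ∀ x, |ζ x| ≤ C) :
    MemLp (fun x => ζ x • f x) 2 μ := by
  refine hf.of_le_mul (c := C) (hζ.smul hf.1) (Eventually.of_forall fun x => ?_)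
  rw [norm_smul]
  exact mul_le_mul_of_nonneg_right (hC x) (norm_nonneg _)

/-- the weak limit of integrals of products with a fixed `L²` function -/
theorem wc_smul_int [FiniteDimensional ℝ E] {u : ℕ → α → E} {U : α → E} (h : WC μ u U)
    {ζ : α → ℝ} (hζ : MemLp ζ 2 μ) :
    Tendsto (fun m => ∫ x, ζ x • u m x ∂μ) atTop (𝓝 (∫ x, ζ x • U x ∂μ)) :=
  wc_bilin_fixed h hζ ((ContinuousLinearMap.lsmul ℝ ℝ).flip : E →L[ℝ] ℝ →L[ℝ] E)

end gen

/-- the initial values: truncation removed -/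
theorem ext0_lim {E : Type*} [NormedAddCommGroup E] [InnerProductSpace ℝ E]
    [FiniteDimensional ℝ E] {u0 : Eu n → E} (hu0 : MemLp u0 2 volume)
    {uk : ℕ → ST n → E} {u : ST n → E} (huk : ∀ k, MemLp (uk k) 2 volume) (hu : MemLp u 2 volume)
    (hs : Tendsto (fun k => eLpNorm (fun z => uk k z - u z) 2 volume) atTop (𝓝 0))
    (hb : ∃ C : ℝ, ∀ k, eLpNorm (uk k) 2 volume ≤ ENNReal.ofReal C)
    {g : ST n → ℝ} (hg : MemLp g 2 volume) :
    Tendsto (fun k : ℕ => ∫ z, g z • ext0 (fun x => bk ((k : ℝ) + 1) (u0 x)) (uk k) z) atTop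
      (𝓝 (∫ z, g z • ext0 u0 u z)) := by
  set i1 : ST n → ℝ := fun z => (Ioo (-1 : ℝ) 0).indicator (fun _ => (1 : ℝ)) z.1 with hi1
  set i2 : ST n → ℝ := fun z => (Ioo (-1 : ℝ) 0)ᶜ.indicator (fun _ => (1 : ℝ)) z.1 with hi2
  have mi1 : MemLp ((Ioo (-1 : ℝ) 0).indicator fun _ => (1 : ℝ)) 2 volume :=
    memLp_indicator_const 2 measurableSet_Ioo 1 (Or.inr (by simp))
  have h1 : MemLp (fun z : ST n => i1 z • u0 z.2) 2 volume := memLp_prod_smul mi1 hu0
  have hbk : ∀ k : ℕ, MemLp (fun x => bk ((k : ℝ) + 1) (u0 x)) 2 volume := fun k =>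
    hu0.of_le ((bk_contDiff _).continuous.comp_aestronglyMeasurable hu0.1)
      (Eventually.of_forall fun x => bk_norm_le _ _)
  have h1k : ∀ k : ℕ, MemLp (fun z : ST n => i1 z • bk ((k : ℝ) + 1) (u0 z.2)) 2 volume :=
    fun k => memLp_prod_smul mi1 (hbk k)
  have mi2 : AEStronglyMeasurable i2 volume :=
    ((measurable_const.indicator measurableSet_Ioo.compl).comp
        measurable_fst).aestronglyMeasurable
  have hi2b : ∀ z, |i2 z| ≤ 1 := by
    intro z
    by_cases hz : z.1 ∈ (Ioo (-1 : ℝ) 0)ᶜ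
    · simp only [hi2]; rw [indicator_of_mem hz]; simp
    · simp only [hi2]; rw [indicator_of_notMem hz]; simp
  have hg2 : MemLp (fun z => i2 z • g z) 2 volume := memLp_bdd_smul hg mi2 hi2b
  have e : ∀ (a : Eu n → E) (b : ST n → E), MemLp (fun z : ST n => i1 z • a z.2) 2 volume →
      MemLp b 2 volume → ∫ z, g z • ext0 a b z =
        (∫ z, g z • (i1 z • a z.2)) + ∫ z, (i2 z • g z) • b z := by
    intro a b ha hb
    rw [← integral_add (smul_int2 hg ha) (smul_int2 hg2 hb)]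
    refine integral_congr_ae (Eventually.of_forall fun z => ?_)
    simp only
    rw [ext0_eq, smul_add]
    congr 1
    simp only [smul_smul, smul_eq_mul]
    rw [mul_comm]
  have e2 : (fun k : ℕ => ∫ z, g z • ext0 (fun x => bk ((k : ℝ) + 1) (u0 x)) (uk k) z) =
      fun k : ℕ => (∫ z, g z • (i1 z • bk ((k : ℝ) + 1) (u0 z.2))) +
        ∫ z, (i2 z • g z) • uk k z := by
    funext k
    exact e (fun x => bk ((k : ℝ) + 1) (u0 x)) (uk k) (h1k k) (huk k)
  rw [e2, e u0 u h1 hu]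
  refine Tendsto.add ?_ ?_
  · refine tendsto_integral_of_dominated_convergence (fun z => ‖g z‖ * ‖i1 z • u0 z.2‖)
      (fun k => (smul_int2 hg (h1k k)).1) (hg.norm.integrable_mul h1.norm)
      (fun k => Eventually.of_forall fun z => ?_) (Eventually.of_forall fun z => ?_)
    · rw [norm_smul, norm_smul, norm_smul]
      exact mul_le_mul_of_nonneg_left (mul_le_mul_of_nonneg_left (bk_norm_le _ _)
        (norm_nonneg _)) (norm_nonneg _)
    · refine Tendsto.const_smul (Tendsto.const_smul ?_ _) _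
      rw [tendsto_iff_norm_sub_tendsto_zero]
      have h3 : Tendsto (fun k : ℕ => ‖u0 z.2‖ ^ 2 / ((k : ℝ) + 1)) atTop (𝓝 0) :=
        tendsto_const_nhds.div_atTop
          (tendsto_atTop_add_const_right _ _ tendsto_natCast_atTop_atTop)
      refine squeeze_zero (fun k => norm_nonneg _) (fun k => ?_) h3
      rw [norm_sub_rev]
      exact bk_sub_le (by positivity) _
  · exact wc_smul_int (wc_of_strong huk hu hs hb) hg2

theorem te_final {T a c M : ℝ} (hT : 0 < T) {v : ST n → Eu n} (hv : MemLp v 2 volume)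
    {τs Gs Ss : ℕ → ST n → Mt n} {τ G : ST n → Mt n} {tk : ℕ → ST n → Mt n} {ta : ℕ → ST n → ℝ}
    (hTV : TV volume τs τ tk ta) (wG : WC volume Gs G)
    (hτM : ∀ m, eLpNorm (τs m) 2 volume ≤ ENNReal.ofReal M)
    (hGM : ∀ m, eLpNorm (Gs m) 2 volume ≤ ENNReal.ofReal M)
    (hS : ∀ m, MemLp (Ss m) 2 volume) (hSM : ∀ m, eLpNorm (Ss m) 2 volume ≤ ENNReal.ofReal M)
    (wS : WC volume Ss (fun z => sp (G z)))
    {A : ST n → ℝ} (hA : Integrable A) (hAτ : ∀ᵐ z, A z = ‖τ z‖ ^ 2)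
    (hb : ∀ᵐ z, ∀ k : ℕ, ‖tk k z‖ ^ 2 ≤ ta k z ∧ ta k z ≤ A z)
    (hstr : Tendsto (fun k => eLpNorm (fun z => tk k z - τ z) 2 volume) atTop (𝓝 0))
    {F D : ℕ → ST n → Mt n}
    (hF : ∀ k : ℕ, WC volume (fun m z => fderiv ℝ (bk ((k : ℝ) + 1)) (τs m z)
      (c • sy (Gs m z) - a • τs m z)) (F k))
    (hD : ∀ k : ℕ, WC volume (fun m z => br (bk ((k : ℝ) + 1) (τs m z)) (Ss m z)) (D k))
    {τ0 : Eu n → Mt n} (hτ0 : MemLp τ0 2 volume)
    (hTE : ∀ k : ℕ, TE T v (ext0 (fun x => bk ((k : ℝ) + 1) (τ0 x)) (tk k))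
      (fun z => F k z - D k z)) :
    TE T v (ext0 τ0 τ) (fun z => c • sy (G z) - a • τ z - br (τ z) (sp (G z))) := by
  intro η ψ hη hψ
  -- constants
  set C : ℝ := max M 0 with hC
  have hC0 : 0 ≤ C := le_max_right _ _
  have hMC : ∀ {x : ℝ≥0∞}, x ≤ ENNReal.ofReal M → x.toReal ≤ C := fun {x} hx =>
    ENNReal.toReal_le_of_le_ofReal hC0 (hx.trans (ENNReal.ofReal_le_ofReal (le_max_left _ _)))
  -- memberships
  have mτ : MemLp τ 2 volume := hTV.w.memU
  have mτs : ∀ m, MemLp (τs m) 2 volume := hTV.w.mem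
  have mG : MemLp G 2 volume := wG.memU
  have mtk : ∀ k, MemLp (tk k) 2 volume := fun k => (hTV.wk k).memU
  have msG : MemLp (fun z => sy (G z)) 2 volume := (syL n).comp_memLp' mG
  have mspG : MemLp (fun z => sp (G z)) 2 volume := wS.memU
  have mΦ : MemLp (fun z => c • sy (G z) - a • τ z) 2 volume :=
    (msG.const_smul c).sub (mτ.const_smul a)
  have wΦ : WC volume (fun m z => c • sy (Gs m z) - a • τs m z)
      (fun z => c • sy (G z) - a • τ z) :=
    ((wc_clm wG (syL n)).const_smul c).sub (hTV.w.const_smul a)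
  -- the test functions
  set g : ST n → ℝ := fun z => deriv η z.1 * ψ z.2 + η z.1 * fderiv ℝ ψ z.2 (v z) with hg
  set ζ : ST n → ℝ := fun z => η z.1 * ψ z.2 with hζ
  have m1 : MemLp (fun z : ST n => deriv η z.1 * ψ z.2) 2 volume :=
    memLp_test (E := ℝ) hη.dcont hη.cpt.deriv hψ.smooth.continuous hψ.cpt
  have m2 : MemLp (fun z : ST n => η z.1 * fderiv ℝ ψ z.2 (v z)) 2 volume :=
    (strong_D (vs := fun _ => v) (fun _ => hv) hv (by simp) hη.cont hη.cpt hψ.smooth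
      hψ.cpt).2.1
  have mζ : MemLp ζ 2 volume :=
    memLp_test (E := ℝ) hη.cont hη.cpt hψ.smooth.continuous hψ.cpt
  have mg : MemLp g 2 volume := m1.add m2
  obtain ⟨C1, hC1⟩ := hη.bounded.1
  obtain ⟨C2, hC2⟩ := hψ.smooth.continuous.bounded_above_of_compact_support hψ.cpt
  have hζb : ∀ z, |ζ z| ≤ C1 * C2 := by
    intro z
    rw [hζ]
    simp only
    rw [abs_mul]
    exact mul_le_mul (hC1 _) (hC2 _) (abs_nonneg _) ((abs_nonneg _).trans (hC1 0))
  set L : ℝ := C1 * C2 with hL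
  have hL0 : 0 ≤ L := (abs_nonneg _).trans (hζb 0)
  -- integrability of brackets
  have ibr : ∀ {X Y : ST n → Mt n}, MemLp X 2 volume → MemLp Y 2 volume →
      Integrable (fun z => ζ z • br (X z) (Y z)) := by
    intro X Y hX hY
    have h1 : Integrable (fun z => br (X z) (Y z)) volume := by
      have h2 : Integrable (fun x => ‖X x‖ * ‖Y x‖) volume := hX.norm.integrable_mul hY.norm
      refine (h2.const_mul 2).mono' ((brL n).aestronglyMeasurable_comp₂ hX.1 hY.1)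
        (Eventually.of_forall fun x => norm_br_le _ _)
    exact h1.bdd_smul L mζ.1 (Eventually.of_forall fun z => hζb z)
  -- (1) the transported quantity
  have htkb : ∃ C : ℝ, ∀ k, eLpNorm (tk k) 2 volume ≤ ENNReal.ofReal C := by
    refine ⟨Real.sqrt (∫ z, A z), fun k => ?_⟩
    have h2 : (eLpNorm (tk k) 2 volume).toReal ≤ Real.sqrt (∫ z, A z) := by
      rw [toReal_sq (mtk k)]
      refine Real.sqrt_le_sqrt (integral_mono_ae ((mtk k).integrable_norm_pow (by simp)) hA ?_)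
      filter_upwards [hb] with z hz
      exact (hz k).1.trans (hz k).2
    rw [← ENNReal.ofReal_toReal (mtk k).2.ne]
    exact ENNReal.ofReal_le_ofReal h2
  have t1 := ext0_lim (n := n) hτ0 mtk mτ hstr htkb mg
  have mext : ∀ (a : Eu n → Mt n) (b : ST n → Mt n), MemLp a 2 volume → MemLp b 2 volume →
      MemLp (ext0 a b) 2 volume := fun a b ha hb' => (wc_ext0 (wc_const hb') ha).memU
  -- (2) the source
  have t2 : Tendsto (fun k => ∫ z, ζ z • F k z) atTop
      (𝓝 (∫ z, ζ z • (c • sy (G z) - a • τ z))) := by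
    rw [tendsto_iff_norm_sub_tendsto_zero]
    set K : ℝ := L * (2 * (C * (|c| * C + |a| * C))) with hK
    have h3 : Tendsto (fun k : ℕ => K / ((k : ℝ) + 1)) atTop (𝓝 0) :=
      tendsto_const_nhds.div_atTop
        (tendsto_atTop_add_const_right _ _ tendsto_natCast_atTop_atTop)
    refine squeeze_zero (fun k => norm_nonneg _) (fun k => ?_) h3
    have hk : (0 : ℝ) < (k : ℝ) + 1 := by positivity
    have l1 := wc_smul_int (hF k) mζ
    have l2 := wc_smul_int wΦ mζ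
    refine le_of_tendsto (l1.sub l2).norm (Eventually.of_forall fun m => ?_)
    have mΦm : MemLp (fun z => c • sy (Gs m z) - a • τs m z) 2 volume := wΦ.mem m
    rw [← integral_sub (smul_int2 mζ ((hF k).mem m)) (smul_int2 mζ (wΦ.mem m))]
    refine (norm_integral_le_integral_norm _).trans ?_
    have hn : ∀ z, ‖ζ z • (fderiv ℝ (bk ((k : ℝ) + 1)) (τs m z))
        (c • sy (Gs m z) - a • τs m z) - ζ z • (c • sy (Gs m z) - a • τs m z)‖ ≤
        (L * 2 / ((k : ℝ) + 1)) * (‖τs m z‖ * ‖c • sy (Gs m z) - a • τs m z‖) := by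
      intro z
      rw [← smul_sub, norm_smul]
      have h5 := bk_fderiv_sub_le hk (τs m z) (c • sy (Gs m z) - a • τs m z)
      calc ‖ζ z‖ * ‖(fderiv ℝ (bk ((k : ℝ) + 1)) (τs m z))
              (c • sy (Gs m z) - a • τs m z) - (c • sy (Gs m z) - a • τs m z)‖
          ≤ L * (2 * (‖τs m z‖ / ((k : ℝ) + 1)) * ‖c • sy (Gs m z) - a • τs m z‖) :=
            mul_le_mul (hζb z) h5 (norm_nonneg _) hL0
        _ = _ := by ring
    have hint : Integrable (fun z => (L * 2 / ((k : ℝ) + 1)) *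
        (‖τs m z‖ * ‖c • sy (Gs m z) - a • τs m z‖)) :=
      ((mτs m).norm.integrable_mul mΦm.norm).const_mul _
    refine (integral_mono (((smul_int2 mζ ((hF k).mem m)).sub
      (smul_int2 mζ (wΦ.mem m))).norm) hint hn).trans ?_
    rw [integral_const_mul]
    have h6 : (eLpNorm (fun z => c • sy (Gs m z) - a • τs m z) 2 volume).toReal ≤
        |c| * C + |a| * C := by
      refine ENNReal.toReal_le_of_le_ofReal (by positivity) ?_
      have h7 : eLpNorm (fun z => c • sy (Gs m z)) 2 volume ≤ ENNReal.ofReal (|c| * C) := by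
        rw [ENNReal.ofReal_mul (abs_nonneg _)]
        refine (eLpNorm_le_mul_eLpNorm_of_ae_le_mul (g := Gs m) (c := |c|)
          (Eventually.of_forall fun x => ?_) 2).trans ?_
        · rw [norm_smul]
          exact mul_le_mul_of_nonneg_left (norm_sy_le _) (abs_nonneg _)
        · exact mul_le_mul' le_rfl ((hGM m).trans (ENNReal.ofReal_le_ofReal (le_max_left _ _)))
      have h8 : eLpNorm (fun z => a • τs m z) 2 volume ≤ ENNReal.ofReal (|a| * C) := by
        rw [ENNReal.ofReal_mul (abs_nonneg _)]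
        refine (eLpNorm_le_mul_eLpNorm_of_ae_le_mul (g := τs m) (c := |a|)
          (Eventually.of_forall fun x => ?_) 2).trans ?_
        · rw [norm_smul]; rfl
        · exact mul_le_mul' le_rfl ((hτM m).trans (ENNReal.ofReal_le_ofReal (le_max_left _ _)))
      rw [ENNReal.ofReal_add (by positivity) (by positivity)]
      refine (eLpNorm_sub_le ?_ ?_ (by norm_num)).trans (add_le_add h7 h8)
      · exact (((syL n).comp_memLp' (wG.mem m)).const_smul c).1
      · exact ((mτs m).const_smul a).1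
    have h9 : ∫ z, ‖τs m z‖ * ‖c • sy (Gs m z) - a • τs m z‖ ≤ C * (|c| * C + |a| * C) :=
      (cs (mτs m) mΦm).trans (mul_le_mul (hMC (hτM m)) h6 ENNReal.toReal_nonneg hC0)
    calc (L * 2 / ((k : ℝ) + 1)) * ∫ z, ‖τs m z‖ * ‖c • sy (Gs m z) - a • τs m z‖
        ≤ (L * 2 / ((k : ℝ) + 1)) * (C * (|c| * C + |a| * C)) :=
          mul_le_mul_of_nonneg_left h9 (by positivity)
      _ = K / ((k : ℝ) + 1) := by rw [hK]; ring
  -- (3) the bracket
  have mζ2 : MemLp (fun z => ζ z ^ 2) 2 volume := by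
    have := memLp_bdd_smul mζ mζ.1 hζb
    refine this.ae_eq (Eventually.of_forall fun z => ?_)
    simp only [smul_eq_mul]; ring
  have hζ2b : ∀ z, |ζ z ^ 2| ≤ L ^ 2 := by
    intro z
    rw [abs_of_nonneg (sq_nonneg _), ← sq_abs]
    exact pow_le_pow_left₀ (abs_nonneg _) (hζb z) 2
  have wtk : WC volume tk τ := wc_of_strong mtk mτ hstr htkb
  have mspS : ∀ m, MemLp (Ss m) 2 volume := hS
  set Y : ℕ → ℝ := fun k => (∫ z, ζ z ^ 2 * A z) - ∫ z, ζ z ^ 2 * ‖tk k z‖ ^ 2 with hY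
  have tY : Tendsto Y atTop (𝓝 0) := by
    have l1 := wc_mul_strong wtk mtk mτ hstr (innerSL ℝ) (fun z => ζ z ^ 2) mζ2.1 (L ^ 2) hζ2b
    have l2 : Tendsto (fun k => ∫ z, ζ z ^ 2 * ‖tk k z‖ ^ 2) atTop
        (𝓝 (∫ z, ζ z ^ 2 * A z)) := by
      have e1 : ∫ z, ζ z ^ 2 * A z = ∫ z, ζ z ^ 2 • (innerSL ℝ (τ z)) (τ z) := by
        refine integral_congr_ae ?_
        filter_upwards [hAτ] with z hz
        rw [hz, innerSL_apply_apply, real_inner_self_eq_norm_sq, smul_eq_mul]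
      rw [e1]
      refine l1.congr fun k => ?_
      refine integral_congr_ae (Eventually.of_forall fun z => ?_)
      change ζ z ^ 2 • (inner ℝ (tk k z) (tk k z) : ℝ) = ζ z ^ 2 * ‖tk k z‖ ^ 2
      rw [real_inner_self_eq_norm_sq, smul_eq_mul]
    have := l2.const_sub (∫ z, ζ z ^ 2 * A z)
    simpa [hY] using this
  have hX : ∀ k : ℕ, ‖(∫ z, ζ z • D k z) - ∫ z, ζ z • br (tk k z) (sp (G z))‖ ≤
      2 * (Real.sqrt (Y k) * C) := by
    intro k
    have l1 := wc_smul_int (hD k) mζ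
    have mk : ∀ m, MemLp (fun z => bk ((k : ℝ) + 1) (τs m z)) 2 volume := (hTV.wk k).mem
    have mζtk : MemLp (fun z => ζ z • tk k z) 2 volume := memLp_bdd_smul (mtk k) mζ.1 hζb
    have l2 := wc_bilin_fixed wS mζtk (brL n).flip
    have l2' : Tendsto (fun m => ∫ z, ζ z • br (tk k z) (Ss m z)) atTop
        (𝓝 (∫ z, ζ z • br (tk k z) (sp (G z)))) := by
      have e : ∀ X : ST n → Mt n, ∫ z, (brL n).flip (X z) (ζ z • tk k z) =
          ∫ z, ζ z • br (tk k z) (X z) := fun X =>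
        integral_congr_ae (Eventually.of_forall fun z => by
          simp only [ContinuousLinearMap.flip_apply, brL_apply, br_smul_left])
      rw [e] at l2
      exact l2.congr fun m => e _
    -- the squares
    have l3 := (hTV.wa k).conv _ mζ2
    have mζ2tk : MemLp (fun z => ζ z ^ 2 • tk k z) 2 volume := memLp_bdd_smul (mtk k) mζ2.1 hζ2b
    have l4 := (hTV.wk k).conv _ mζ2tk
    have i5 : Integrable (fun z => ζ z ^ 2 * ‖tk k z‖ ^ 2) :=
      integrable_bdd_mul ((mtk k).integrable_norm_pow (by simp)) mζ2.1 hζ2b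
    have i6 : Integrable (fun z => ζ z ^ 2 * A z) := integrable_bdd_mul hA mζ2.1 hζ2b
    have e3 : ∀ m, ∫ z, ‖ζ z • (bk ((k : ℝ) + 1) (τs m z) - tk k z)‖ ^ 2 =
        (∫ z, inner ℝ (‖bk ((k : ℝ) + 1) (τs m z)‖ ^ 2) (ζ z ^ 2)) -
        2 * (∫ z, inner ℝ (bk ((k : ℝ) + 1) (τs m z)) (ζ z ^ 2 • tk k z)) +
        ∫ z, ζ z ^ 2 * ‖tk k z‖ ^ 2 := by
      intro m
      have j1 : Integrable (fun z => inner ℝ (‖bk ((k : ℝ) + 1) (τs m z)‖ ^ 2) (ζ z ^ 2)) :=
        memLp_inner_integrable ((hTV.wa k).mem m) mζ2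
      have j2 : Integrable (fun z => inner ℝ (bk ((k : ℝ) + 1) (τs m z)) (ζ z ^ 2 • tk k z)) :=
        memLp_inner_integrable ((hTV.wk k).mem m) mζ2tk
      have j12 : Integrable (fun z => inner ℝ (‖bk ((k : ℝ) + 1) (τs m z)‖ ^ 2) (ζ z ^ 2) -
          2 * inner ℝ (bk ((k : ℝ) + 1) (τs m z)) (ζ z ^ 2 • tk k z)) := j1.sub (j2.const_mul 2)
      rw [← integral_const_mul, ← integral_sub j1 (j2.const_mul 2), ← integral_add j12 i5]
      refine integral_congr_ae (Eventually.of_forall fun z => ?_)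
      simp only
      rw [norm_smul, mul_pow, norm_sub_sq_real, inner_smul_right, Real.norm_eq_abs, sq_abs,
        RCLike.inner_apply, conj_trivial]
      ring
    have l5 : Tendsto (fun m => ∫ z, ‖ζ z • (bk ((k : ℝ) + 1) (τs m z) - tk k z)‖ ^ 2) atTop
        (𝓝 ((∫ z, inner ℝ (ta k z) (ζ z ^ 2)) - 2 * (∫ z, inner ℝ (tk k z) (ζ z ^ 2 • tk k z)) +
          ∫ z, ζ z ^ 2 * ‖tk k z‖ ^ 2)) := by
      simp only [e3]
      exact (l3.sub (l4.const_mul 2)).add_const _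
    have hle : (∫ z, inner ℝ (ta k z) (ζ z ^ 2)) -
        2 * (∫ z, inner ℝ (tk k z) (ζ z ^ 2 • tk k z)) +
          ∫ z, ζ z ^ 2 * ‖tk k z‖ ^ 2 ≤ Y k := by
      have e4 : ∫ z, inner ℝ (tk k z) (ζ z ^ 2 • tk k z) = ∫ z, ζ z ^ 2 * ‖tk k z‖ ^ 2 :=
        integral_congr_ae (Eventually.of_forall fun z => by
          simp only [inner_smul_right, real_inner_self_eq_norm_sq])
      have e5 : ∫ z, inner ℝ (ta k z) (ζ z ^ 2) ≤ ∫ z, ζ z ^ 2 * A z := by
        refine integral_mono_ae (memLp_inner_integrable (hTV.wa k).memU mζ2) i6 ?_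
        filter_upwards [hb] with z hz
        simp only [RCLike.inner_apply, conj_trivial]
        exact mul_le_mul_of_nonneg_left (hz k).2 (sq_nonneg _)
      rw [e4, hY]
      simp only
      linarith
    have l6 := ((l5.sqrt).mul_const C).const_mul 2
    have hfin : ‖(∫ z, ζ z • D k z) - ∫ z, ζ z • br (tk k z) (sp (G z))‖ ≤
        2 * (Real.sqrt ((∫ z, inner ℝ (ta k z) (ζ z ^ 2)) -
        2 * (∫ z, inner ℝ (tk k z) (ζ z ^ 2 • tk k z)) +
          ∫ z, ζ z ^ 2 * ‖tk k z‖ ^ 2) * C) := by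
      refine le_of_tendsto_of_tendsto (l1.sub l2').norm l6 (Eventually.of_forall fun m => ?_)
      have j3 : Integrable (fun z => ζ z • br (bk ((k : ℝ) + 1) (τs m z)) (Ss m z)) :=
        ibr (mk m) (hS m)
      have j4 : Integrable (fun z => ζ z • br (tk k z) (Ss m z)) := ibr (mtk k) (hS m)
      have mdiff : MemLp (fun z => ζ z • (bk ((k : ℝ) + 1) (τs m z) - tk k z)) 2 volume :=
        memLp_bdd_smul ((mk m).sub (mtk k)) mζ.1 hζb
      simp only
      rw [← integral_sub j3 j4]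
      refine (norm_integral_le_integral_norm _).trans ?_
      have hn : ∀ z, ‖ζ z • br (bk ((k : ℝ) + 1) (τs m z)) (Ss m z) -
          ζ z • br (tk k z) (Ss m z)‖ ≤
          2 * (‖ζ z • (bk ((k : ℝ) + 1) (τs m z) - tk k z)‖ * ‖Ss m z‖) := by
        intro z
        rw [← smul_sub, ← br_sub_left, ← br_smul_left]
        exact norm_br_le _ _
      refine (integral_mono (j3.sub j4).norm
        ((mdiff.norm.integrable_mul (hS m).norm).const_mul 2) hn).trans ?_
      rw [integral_const_mul]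
      refine mul_le_mul_of_nonneg_left ((cs mdiff (hS m)).trans ?_) (by norm_num)
      rw [toReal_sq mdiff]
      exact mul_le_mul_of_nonneg_left (hMC (hSM m)) (Real.sqrt_nonneg _)
    refine hfin.trans ?_
    exact mul_le_mul_of_nonneg_left (mul_le_mul_of_nonneg_right (Real.sqrt_le_sqrt hle) hC0)
      (by norm_num)
  have t3 : Tendsto (fun k => ∫ z, ζ z • D k z) atTop
      (𝓝 (∫ z, ζ z • br (τ z) (sp (G z)))) := by
    have mζsp : MemLp (fun z => ζ z • sp (G z)) 2 volume := memLp_bdd_smul mspG mζ.1 hζb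
    have l1 := wc_bilin_fixed wtk mζsp (brL n)
    have l1' : Tendsto (fun k => ∫ z, ζ z • br (tk k z) (sp (G z))) atTop
        (𝓝 (∫ z, ζ z • br (τ z) (sp (G z)))) := by
      have e : ∀ X : ST n → Mt n, ∫ z, (brL n) (X z) (ζ z • sp (G z)) =
          ∫ z, ζ z • br (X z) (sp (G z)) := fun X =>
        integral_congr_ae (Eventually.of_forall fun z => by
          simp only [brL_apply, br_smul_right])
      rw [e] at l1
      exact l1.congr fun m => e _
    have l2 : Tendsto (fun k => (∫ z, ζ z • D k z) - ∫ z, ζ z • br (tk k z) (sp (G z))) atTop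
        (𝓝 0) := by
      refine squeeze_zero_norm hX ?_
      have := ((tY.sqrt).mul_const C).const_mul 2
      simpa using this
    have l3 := l2.add l1'
    simpa using l3
  have t4 := t1.add (t2.sub t3)
  have e0 : ∀ k : ℕ, (∫ z, g z • ext0 (fun x => bk ((k : ℝ) + 1) (τ0 x)) (tk k) z) +
      ((∫ z, ζ z • F k z) - ∫ z, ζ z • D k z) = 0 := by
    intro k
    have j1 : Integrable (fun z => g z • ext0 (fun x => bk ((k : ℝ) + 1) (τ0 x)) (tk k) z) := by
      refine smul_int2 mg (mext _ (tk k) ?_ (mtk k))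
      exact hτ0.of_le ((bk_contDiff _).continuous.comp_aestronglyMeasurable hτ0.1)
        (Eventually.of_forall fun x => bk_norm_le _ _)
    have j2 := smul_int2 mζ (hF k).memU
    have j3 := smul_int2 mζ (hD k).memU
    have j23 : Integrable (fun z => ζ z • F k z - ζ z • D k z) := j2.sub j3
    rw [← integral_sub j2 j3, ← integral_add j1 j23, ← hTE k η ψ hη hψ]
    refine integral_congr_ae (Eventually.of_forall fun z => ?_)
    simp only [smul_sub, hg, hζ]
  have e1 := tendsto_nhds_unique t4 (by simp only [e0]; exact tendsto_const_nhds)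
  have j1 : Integrable (fun z => g z • ext0 τ0 τ z) := smul_int2 mg (mext _ τ hτ0 mτ)
  have j2 := smul_int2 mζ mΦ
  have j3 := ibr mτ mspG
  have j23 : Integrable (fun z => ζ z • (c • sy (G z) - a • τ z) - ζ z • br (τ z) (sp (G z))) :=
    j2.sub j3
  rw [← integral_sub j2 j3, ← integral_add j1 j23] at e1
  rw [← e1]
  refine integral_congr_ae (Eventually.of_forall fun z => ?_)
  simp only [smul_sub, hg, hζ]

end Pool.Agent.Helper63.Jef
end

section
/-! # Closure theorem -/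

open MeasureTheory Set Filter Topology
open scoped ENNReal NNReal ContDiff

namespace Pool.Agent.Helper42.Jef

open Pool.Agent.Helper22.Jef
open Pool.Agent.Helper47.Jef (renorm_loc)
open Pool.Agent.Helper81.Jef (RenLoc te_bk)
open Pool.Agent.Helper41.Jef (ReprStar)
open Pool.Agent.Helper50.JM (tc_of_mom mom_limit)
open Pool.Agent.Helper38.JefDiff (diff_facts)
open Pool.Agent.Helper1.JefP (lemmaP)
open Pool.Agent.Helper76.Jef (te_limit wc_ext0)
open Pool.Agent.Helper63.Jef (te_final)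
open Pool.Agent.Helper94.Jef (wc_mspin)

set_option maxHeartbeats 1000000

variable {n : ℕ} {Ω : Set (Eu n)}

theorem renLoc1 (hΩ : IsOpen Ω) (hΩb : Bornology.IsBounded Ω) {T : ℝ} (hT : 0 < T)
    {v : ST n → Eu n} {G : ST n → Mt n} (hv : IsVel Ω T v G) : RenLoc n T v (Mt n) (Mt n) :=
  fun _ _ hu hF h β hβ L hL => renorm_loc hΩ hΩb hT hv hu hF h convex_univ isClosed_univ
    (mem_univ _) (Eventually.of_forall fun _ => mem_univ _) β hβ L fun x _ => hL x

theorem renLoc2 (hΩ : IsOpen Ω) (hΩb : Bornology.IsBounded Ω) {T : ℝ} (hT : 0 < T)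
    {v : ST n → Eu n} {G : ST n → Mt n} (hv : IsVel Ω T v G) : RenLoc n T v (Mt n) ℝ :=
  fun _ _ hu hF h β hβ L hL => renorm_loc hΩ hΩb hT hv hu hF h convex_univ isClosed_univ
    (mem_univ _) (Eventually.of_forall fun _ => mem_univ _) β hβ L fun x _ => hL x

theorem ren_of (hΩ : IsOpen Ω) (hΩb : Bornology.IsBounded Ω) {T : ℝ} (hT : 0 < T)
    {v : ST n → Eu n} {G : ST n → Mt n} (hv : IsVel Ω T v G) :
    Pool.Agent.Helper50.JT.Ren T v :=
  fun _ _ hu hF h _ hK hKc hK0 huK β hβ L hL =>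
    renorm_loc hΩ hΩb hT hv hu hF h hK hKc hK0 huK β hβ L hL

/-- the compactness module -/
theorem strongConv (n : ℕ) : StrongConv n :=
  fun _ hΩ hΩb _ hT _ _ _ _ hv hvl M hG hw hM hTC =>
    Pool.Agent.Helper41.Jef.strong_conv hΩ hΩb hT hv hvl M hG hw hM hTC

/-- integrability of the right side of the stress equation against test functions -/
theorem rhs_test_int {a c : ℝ} {v : ST n → Eu n} {G τ S : ST n → Mt n} (hv : MemLp v 2 volume)
    (hG : MemLp G 2 volume) (hτ : MemLp τ 2 volume) (hS : MemLp S 2 volume) (η : ℝ → ℝ)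
    (ψ : Eu n → ℝ) {T : ℝ} (hη : IsTime (-1) T η) (hψ : IsTest ψ) :
    Integrable (fun z : ST n => (η z.1 * ψ z.2) • (c • sy (G z) - a • τ z - br (τ z) (S z))) := by
  have h1 := stI_int (a := a) (c := c) hv hG hτ hS hη hψ
  have m1 : MemLp (fun z : ST n => deriv η z.1 * ψ z.2) 2 volume :=
    memLp_test (E := ℝ) hη.dcont hη.cpt.deriv hψ.smooth.continuous hψ.cpt
  have m2 : MemLp (fun z : ST n => η z.1 * fderiv ℝ ψ z.2 (v z)) 2 volume :=
    (strong_D (vs := fun _ => v) (fun _ => hv) hv (by simp) hη.cont hη.cpt hψ.smooth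
      hψ.cpt).2.1
  have i1 : Integrable (fun z => (deriv η z.1 * ψ z.2 + η z.1 * fderiv ℝ ψ z.2 (v z)) • τ z) :=
    smul_int2 (m1.add m2) hτ
  refine (h1.sub i1).congr (Eventually.of_forall fun z => ?_)
  simp only [Pi.sub_apply, stI, add_sub_cancel_left]

theorem closure_thm (hSC : StrongConv n) (hΩ : IsOpen Ω) (hΩb : Bornology.IsBounded Ω)
    {T μ a c : ℝ} (hT : 0 < T) (hμ : 0 < μ) (hRS : ReprStar n μ c)
    {f : ℝ → (Eu n → Eu n) → ℝ} {g : ℝ → ℝ} (hf : IsForce Ω f g) {v0 : Eu n → Eu n}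
    {τ0 : Eu n → Mt n} (hτ0 : MemLp τ0 2 volume) {M : ℝ} {δ : ℕ → ℝ} (hδ : ∀ m, 0 < δ m)
    (hδ0 : Tendsto δ atTop (𝓝 0)) {vs : ℕ → ST n → Eu n} {Gs τs : ℕ → ST n → Mt n}
    (hsol : ∀ m, IsSol Ω T μ a c f v0 τ0 (mspin Ω (δ m) (Gs m)) (vs m) (Gs m) (τs m))
    (hLB : ∀ m, LB T M (vs m)) {v : ST n → Eu n} {G τ : ST n → Mt n}
    (wv : WC volume vs v) (wG : WC volume Gs G) (wτ : WC volume τs τ)
    (hsup : ∀ z : ST n, z.1 ∉ Ioo 0 T → τ z = 0) :
    IsSol Ω T μ a c f v0 τ0 (fun z => sp (G z)) v G τ := by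
  have hΩm := hΩ.measurableSet
  -- common bound
  obtain ⟨C1, hC1⟩ := wv.bdd
  obtain ⟨C2, hC2⟩ := wG.bdd
  obtain ⟨C3, hC3⟩ := wτ.bdd
  obtain ⟨M1, hM10, hMM, hb1, hb2, hb3⟩ : ∃ M1 : ℝ, 0 ≤ M1 ∧ M ≤ M1 ∧
      (∀ m, eLpNorm (vs m) 2 volume ≤ ENNReal.ofReal M1) ∧
      (∀ m, eLpNorm (Gs m) 2 volume ≤ ENNReal.ofReal M1) ∧
      (∀ m, eLpNorm (τs m) 2 volume ≤ ENNReal.ofReal M1) := by
    refine ⟨|M| + |C1| + |C2| + |C3|, by positivity, ?_, fun m => ?_, fun m => ?_, fun m => ?_⟩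
    · have := le_abs_self M
      have h1 := abs_nonneg C1
      have h2 := abs_nonneg C2
      have h3 := abs_nonneg C3
      linarith
    · refine (hC1 m).trans (ENNReal.ofReal_le_ofReal ?_)
      linarith [le_abs_self C1, abs_nonneg M, abs_nonneg C2, abs_nonneg C3]
    · refine (hC2 m).trans (ENNReal.ofReal_le_ofReal ?_)
      linarith [le_abs_self C2, abs_nonneg M, abs_nonneg C1, abs_nonneg C3]
    · refine (hC3 m).trans (ENNReal.ofReal_le_ofReal ?_)
      linarith [le_abs_self C3, abs_nonneg M, abs_nonneg C1, abs_nonneg C2]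
  have hvel : ∀ m, IsVel Ω T (vs m) (Gs m) := fun m => (hsol m).vel
  have hvl : IsVel Ω T v G := IsVel.of_wc hvel wv wG
  have hSm : ∀ m, MemLp (mspin Ω (δ m) (Gs m)) 2 volume := fun m => (hsol m).memS
  have hSM : ∀ m, eLpNorm (mspin Ω (δ m) (Gs m)) 2 volume ≤ ENNReal.ofReal M1 := fun m =>
    mspin_norm_le Ω (hδ m) (hvel m).memG (hb2 m)
  -- strong convergence of the velocities
  have hstrong : Tendsto (fun m => eLpNorm (fun z => vs m z - v z) 2 volume) atTop (𝓝 0) := by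
    refine hSC Ω hΩ hΩb T hT vs Gs v G hvel hvl M1 hb2 wv ?_ ?_
    · intro m I hI
      refine ((hLB m).mono hMM).all ?_ hI
      filter_upwards [((hvel m).zero_out hΩm).1] with z hz h1
      exact hz (Or.inl h1)
    · intro φ hφ ε hε
      obtain ⟨C, hC⟩ := tc_of_mom (μ := μ) (a := a) (c := c) (v0 := v0) (τ0 := τ0) hT hf hM10 hφ
      refine ⟨C, 0, fun m _ η hη => ?_⟩
      refine (hC _ _ _ _ (hsol m) ((hLB m).mono hMM) (hb2 m) (hb3 m) η hη).trans ?_
      have h1 : 0 ≤ ε * ∫ t, |deriv η t| :=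
        mul_nonneg hε.le (integral_nonneg fun t => abs_nonneg _)
      linarith
  have hmom := mom_limit hT hsol wv wG wτ hstrong
  -- truncated limits
  obtain ⟨φ, hφ, tk, gk, F, D, ta, ga, Q, h1, h2, h3, h4, h5, h6, h7⟩ :=
    extract a c (fun m => (hvel m).memG) (fun m => (hsol m).memτ) hSm hb2 hb3 hSM
  have hTVτ : TV volume (fun m => τs (φ m)) τ tk ta := ⟨wτ.subseq hφ, h1, h3⟩
  have hTVG : TV volume (fun m => Gs (φ m)) G gk ga := ⟨wG.subseq hφ, h2, h4⟩
  obtain ⟨A, hAi, hA1, hA2, hA3, hA4, hA5, hA6, hA7⟩ := tv_main hTVτ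
  obtain ⟨B, hBi, hB1, hB2, hB3, hB4, hB5, hB6, hB7⟩ := tv_main hTVG
  set θ : ST n → ℝ := fun z => A z - ‖τ z‖ ^ 2 with hθdef
  set V : ST n → ℝ := fun z => B z - ‖G z‖ ^ 2 with hVdef
  have hτsq : Integrable (fun z => ‖τ z‖ ^ 2) := by
    have := wτ.memU.norm.integrable_sq
    exact this
  have hGsq : Integrable (fun z => ‖G z‖ ^ 2) := by
    have := wG.memU.norm.integrable_sq
    exact this
  have hθi : Integrable θ := hAi.sub hτsq
  have hVi : Integrable V := hBi.sub hGsq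
  have hθc : Tendsto (fun k => ∫ z, |ta k z - ‖tk k z‖ ^ 2 - θ z|) atTop (𝓝 0) :=
    defect_conv hAi hA5 (fun k => (h1 k).memU) wτ.memU hA6 hA7
  have hVc : Tendsto (fun k => ∫ z, |ga k z - ‖gk k z‖ ^ 2 - V z|) atTop (𝓝 0) :=
    defect_conv hBi hB5 (fun k => (h2 k).memU) wG.memU hB6 hB7
  -- the variance inequality
  obtain ⟨A', hA'0, hRS'⟩ := hRS
  obtain ⟨d1, d2, ⟨M2, d3⟩, d4, d5⟩ := diff_facts hΩ hT hsol wv wG wτ hstrong hmom
  have hVθ0 : ∀ᵐ z : ST n, z.1 ∈ Ioo 0 T → z.2 ∈ Ω → V z ≤ A' * θ z :=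
    hRS' Ω hΩ hΩb T hT (fun m z => vs (φ m) z - v z) (fun m => Gs (φ m)) G
      (fun m z => hvec (vs (φ m)) (Gs (φ m)) z - hvec v G z) (fun m => τs (φ m)) τ gk tk ga ta
      V θ M2 (fun m => d1 (φ m)) (hstrong.comp hφ.tendsto_atTop) (fun m => d2 (φ m))
      (fun m => d3 (φ m)) (fun ψ hψ i => (d4 ψ hψ i).comp hφ.tendsto_atTop)
      (fun m => d5 (φ m)) hTVG hTVτ hVi hθi hVc hθc
  -- vanishing outside
  have hout : MeasurableSet {z : ST n | z.1 ∉ Ioo 0 T ∨ z.2 ∉ Ω} := by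
    have e1 : {z : ST n | z.1 ∉ Ioo 0 T ∨ z.2 ∉ Ω} = (Ioo 0 T ×ˢ Ω)ᶜ := by
      ext z
      simp only [mem_setOf_eq, mem_compl_iff, mem_prod, not_and_or]
    rw [e1]
    exact (measurableSet_Ioo.prod hΩm).compl
  have hout1 : MeasurableSet {z : ST n | z.1 ∉ Ioo 0 T} := by
    have e1 : {z : ST n | z.1 ∉ Ioo 0 T} = Prod.fst ⁻¹' (Ioo 0 T)ᶜ := rfl
    rw [e1]
    exact measurableSet_Ioo.compl.preimage measurable_fst
  have bk0 : ∀ k : ℝ, bk k (0 : Mt n) = 0 := fun k => by simp [bk]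
  have hGs0 : ∀ m, ∀ᵐ z : ST n, (z.1 ∉ Ioo 0 T ∨ z.2 ∉ Ω) → Gs m z = 0 := fun m =>
    ((hvel m).zero_out hΩm).2
  have hG0 := (hvl.zero_out hΩm).2
  have hga0 : ∀ k, ∀ᵐ z : ST n, z ∈ {z : ST n | z.1 ∉ Ioo 0 T ∨ z.2 ∉ Ω} → ga k z = 0 := by
    intro k
    refine wc_zero (h4 k) hout fun m => ?_
    filter_upwards [hGs0 (φ m)] with z hz hz'
    rw [hz hz', bk0, norm_zero]; norm_num
  have htk0 : ∀ k, ∀ᵐ z : ST n, z ∈ {z : ST n | z.1 ∉ Ioo 0 T} → tk k z = 0 := by
    intro k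
    refine wc_zero (h1 k) hout1 fun m => Eventually.of_forall fun z hz => ?_
    rw [(hsol (φ m)).supτ z hz, bk0]
  have hta0 : ∀ k, ∀ᵐ z : ST n, z ∈ {z : ST n | z.1 ∉ Ioo 0 T} → ta k z = 0 := by
    intro k
    refine wc_zero (h3 k) hout1 fun m => Eventually.of_forall fun z hz => ?_
    rw [(hsol (φ m)).supτ z hz, bk0, norm_zero]; norm_num
  have hsy0 : sy (0 : Mt n) = 0 := (syL n).map_zero
  have hF0 : ∀ k, ∀ᵐ z : ST n, z ∈ {z : ST n | z.1 ∉ Ioo 0 T} → F k z = 0 := by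
    intro k
    refine wc_zero (h5 k) hout1 fun m => ?_
    filter_upwards [hGs0 (φ m)] with z hz hz'
    rw [hz (Or.inl hz'), (hsol (φ m)).supτ z hz', hsy0, smul_zero, smul_zero, sub_zero, map_zero]
  have hD0 : ∀ k, ∀ᵐ z : ST n, z ∈ {z : ST n | z.1 ∉ Ioo 0 T} → D k z = 0 := by
    intro k
    refine wc_zero (h6 k) hout1 fun m => Eventually.of_forall fun z hz => ?_
    rw [(hsol (φ m)).supτ z hz, bk0, br_zero_left]
  have hQ0 : ∀ k, ∀ᵐ z : ST n, z ∈ {z : ST n | z.1 ∉ Ioo 0 T} → Q k z = 0 := by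
    intro k
    refine wc_zero (h7 k) hout1 fun m => Eventually.of_forall fun z hz => ?_
    rw [(hsol (φ m)).supτ z hz, bk0, inner_zero_left, mul_zero]
  have hVθ : ∀ᵐ z, V z ≤ A' * θ z := by
    filter_upwards [hVθ0, ae_all_iff.2 hga0, hG0, hB2, hA4] with z g1 g2 g3 g4 g5
    by_cases hz : z.1 ∉ Ioo 0 T ∨ z.2 ∉ Ω
    · have e1 : B z = 0 := by
        refine tendsto_nhds_unique g4 ?_
        have : (fun k => ga k z) = fun _ => 0 := funext fun k => g2 k hz
        rw [this]; exact tendsto_const_nhds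
      have e2 : V z = 0 := by simp [hVdef, e1, g3 hz]
      rw [e2]
      have e3 : 0 ≤ θ z := by simp only [hθdef]; linarith
      positivity
    · rw [not_or, not_not, not_not] at hz
      exact g1 hz.1 hz.2
  -- spins and the key inequality
  have hG0' : ∀ᵐ z : ST n, z.2 ∉ Ω → G z = 0 := by
    filter_upwards [hG0] with z hz h
    exact hz (Or.inr h)
  have hδφ : Tendsto (fun m => δ (φ m)) atTop (𝓝 0) := hδ0.comp hφ.tendsto_atTop
  have hSp : SpinProp (fun m => mspin Ω (δ (φ m)) (Gs (φ m))) G gk ga (M1 ^ 2) :=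
    Pool.Agent.Helper94.Jef.spin_var hΩ hTVG hM10 (fun m => hb2 (φ m)) (fun m => hδ (φ m)) hδφ hG0'
  obtain ⟨C', hP⟩ := lemmaP hTVτ hTVG hθi hVi hθc hVc hVθ (fun m => hSm (φ m))
    (fun m => Eventually.of_forall fun z => mspin_antisym Ω _ _ z) hSp h5 h6 h7
  -- the renormalised equations
  have hTEm : ∀ m, TE T (vs m) (ext0 τ0 (τs m)) (fun z => c • sy (Gs m z) - a • τs m z -
      br (τs m z) (mspin Ω (δ m) (Gs m) z)) := by
    intro m
    rw [te_iff hΩ hT (hvel m) (hsol m).memτ (hsol m).supτ hτ0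
      (fun η ψ hη hψ => rhs_test_int (hvel m).memv (hvel m).memG (hsol m).memτ (hSm m) η ψ hη hψ)]
    exact (hsol m).str
  have hbkτ0 : ∀ k : ℕ, MemLp (fun x => bk ((k : ℝ) + 1) (τ0 x)) 2 volume := fun k =>
    (bk_bnd hτ0 (M := (eLpNorm τ0 2 volume).toReal)
      (by rw [ENNReal.ofReal_toReal hτ0.2.ne]) _).1
  have hbkτ0' : ∀ k : ℕ, MemLp (fun x => ‖bk ((k : ℝ) + 1) (τ0 x)‖ ^ 2) 2 volume := fun k =>
    (bksq_bnd hτ0 (M := (eLpNorm τ0 2 volume).toReal)
      (by rw [ENNReal.ofReal_toReal hτ0.2.ne]) (by positivity)).1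
  have hren : ∀ m (k : ℕ), _ := fun m k => te_bk (Ω := Ω) hT
    (renLoc1 hΩ hΩb hT (hvel m)) (renLoc2 hΩ hΩb hT (hvel m)) (hvel m).memG (hsol m).memτ (hSm m)
    (Eventually.of_forall fun z => mspin_antisym Ω _ _ z) (hsol m).supτ (hGs0 m) hτ0 (hTEm m)
    (k := (k : ℝ) + 1) (by positivity)
  have hstrong' : Tendsto (fun m => eLpNorm (fun z => vs (φ m) z - v z) 2 volume) atTop (𝓝 0) :=
    hstrong.comp hφ.tendsto_atTop
  have hTE1 : ∀ k : ℕ, TE T v (ext0 (fun x => bk ((k : ℝ) + 1) (τ0 x)) (tk k))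
      (fun z => F k z - D k z) := fun k =>
    te_limit (fun m => (hvel (φ m)).memv) hvl.memv hstrong' (wc_ext0 (h1 k) (hbkτ0 k))
      ((h5 k).sub (h6 k)) (fun m => (hren (φ m) k).1)
  have hTE2 : ∀ k : ℕ, TE T v (ext0 (fun x => ‖bk ((k : ℝ) + 1) (τ0 x)‖ ^ 2) (ta k)) (Q k) :=
    fun k => te_limit (fun m => (hvel (φ m)).memv) hvl.memv hstrong'
      (wc_ext0 (h3 k) (hbkτ0' k)) (h7 k) (fun m => (hren (φ m) k).2)
  -- the defect vanishes
  have hθ0 : ∀ᵐ z : ST n, z.1 ∈ Ioo 0 T → θ z = 0 :=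
    Pool.Agent.Helper50.JT.theta_zero_of_ren hΩ hΩb hT hvl (ren_of hΩ hΩb hT hvl) hτ0 (tk := tk) (ta := ta) (τ := τ) hAi
      (by
        filter_upwards [hA1] with z hz k
        exact ⟨(hz k).1, (hz k).2.2.1, (hz k).2.2.2.1, (hz k).2.2.2.2⟩)
      hA2 hA3 (Eventually.of_forall fun z => rfl) (fun k => (h1 k).memU) (fun k => (h3 k).memU)
      htk0 hta0 (H := fun k z => F k z - D k z) (Q := Q)
      (fun k => (h5 k).memU.sub (h6 k).memU) (fun k => (h7 k).memU)
      (fun k => by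
        filter_upwards [hF0 k, hD0 k] with z e1 e2 hz
        rw [e1 hz, e2 hz, sub_zero]) hQ0 hTE1 hTE2 hP
  have hAτ : ∀ᵐ z, A z = ‖τ z‖ ^ 2 := by
    filter_upwards [hθ0, ae_all_iff.2 hta0, hA2] with z e1 e2 e3
    by_cases hz : z.1 ∈ Ioo 0 T
    · have := e1 hz
      simp only [hθdef] at this
      linarith
    · have e4 : A z = 0 := by
        refine tendsto_nhds_unique e3 ?_
        have : (fun k => ta k z) = fun _ => 0 := funext fun k => e2 k hz
        rw [this]; exact tendsto_const_nhds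
      rw [e4, hsup z hz, norm_zero]; norm_num
  -- conclusion
  have wS : WC volume (fun m => mspin Ω (δ (φ m)) (Gs (φ m))) (fun z => sp (G z)) :=
    wc_mspin hΩ (wG.subseq hφ) hG0' (fun m => hδ (φ m)) hδφ
  have hfin := te_final hT hvl.memv hTVτ (wG.subseq hφ) (fun m => hb3 (φ m)) (fun m => hb2 (φ m))
    (fun m => hSm (φ m)) (fun m => hSM (φ m)) wS hAi hAτ
    (by
      filter_upwards [hA1] with z hz k
      exact ⟨(hz k).1, (hz k).2.2.1⟩) hA7 h5 h6 hτ0 hTE1
  have hspG : MemLp (fun z => sp (G z)) 2 volume := sp_memLp hvl.memG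
  rw [te_iff hΩ hT hvl wτ.memU hsup hτ0
    (fun η ψ hη hψ => rhs_test_int hvl.memv hvl.memG wτ.memU hspG η ψ hη hψ)] at hfin
  exact ⟨hvl, wτ.memU, hsup, hspG, hmom, hfin⟩

end Pool.Agent.Helper42.Jef
end

section
/-! # Global existence for the rescaled system -/

open MeasureTheory Set Filter Topology
open scoped ENNReal NNReal ContDiff

namespace Pool.Agent.Helper42.Jef

open Pool.Agent.Helper44.Diag

set_option maxHeartbeats 1000000

variable {n : ℕ} {Ω : Set (Eu n)}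

/-- codomains of the two kinds of fields -/
abbrev ET (n : ℕ) : Bool → Type
  | true => Eu n
  | false => Mt n

theorem slab_eLpNorm_ae {E : Type*} [NormedAddCommGroup E] {T M : ℝ} (hM : 0 ≤ M)
    {u : ST n → E} (h0 : ∀ᵐ z : ST n, z.1 ∉ Ioo 0 T → u z = 0)
    (h : ∫⁻ z in Ioo 0 T ×ˢ (univ : Set (Eu n)), ‖u z‖ₑ ^ 2 ≤ ENNReal.ofReal M) :
    eLpNorm u 2 volume ≤ ENNReal.ofReal (Real.sqrt M) := by
  have h1 : u =ᵐ[volume] rs T u := by
    filter_upwards [h0] with z hz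
    by_cases hz' : z.1 ∈ Ioo 0 T
    · rw [rs_mem hz']
    · rw [rs_notMem hz', hz hz']
  rw [eLpNorm_congr_ae h1]
  refine slab_eLpNorm hM (fun z hz => rs_notMem hz u) ?_
  refine le_trans (le_of_eq ?_) h
  refine setLIntegral_congr_fun (measurableSet_Ioo.prod MeasurableSet.univ) fun z hz => ?_
  simp only [rs_mem hz.1]

theorem glob_rescaled (hSC : StrongConv n) (hΩ : IsOpen Ω) (hΩb : Bornology.IsBounded Ω)
    {μ a c : ℝ} (hμ : 0 < μ) (ha : 0 ≤ a) (hRS : Pool.Agent.Helper41.Jef.ReprStar n μ c)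
    {f : ℝ → (Eu n → Eu n) → ℝ} {g : ℝ → ℝ} (hf : IsForce Ω f g) {v0 : Eu n → Eu n}
    {τ0 : Eu n → Mt n} (hv0 : MemLp v0 2 volume) (hτ0 : MemLp τ0 2 volume) :
    ∃ (v : ST n → Eu n) (G τ : ST n → Mt n), ∀ T : ℝ, 0 < T →
      IsSol Ω T μ a c f v0 τ0 (fun z => sp (rs T G z)) (rs T v) (rs T G) (rs T τ) ∧
      (∃ M : ℝ, LB T M (rs T v)) ∧ (∃ M : ℝ, LB T M (rs T τ)) := by
  set X := (∫ x, ‖v0 x‖ ^ 2) + ∫ x, ‖τ0 x‖ ^ 2 with hXdef
  have hX : 0 ≤ X := add_nonneg (integral_nonneg fun x => by positivity)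
    (integral_nonneg fun x => by positivity)
  set Mf := Mb μ X g with hMf
  have hMb : ∀ T, 0 ≤ Mf T := fun T => Mb_nonneg hμ hX g T
  have hex := fun m : ℕ => reg_exists hSC hΩ hΩb (δ := 1 / ((m : ℝ) + 1)) (by positivity)
    (T := (m : ℝ) + 1) (by positivity) hμ ha c hf hv0 hτ0
  choose v G τ hsol hBd using hex
  have hΩm := hΩ.measurableSet
  have hδ : ∀ m : ℕ, (0:ℝ) < 1 / ((m : ℝ) + 1) := fun m => by positivity
  have hδ0 : Tendsto (fun m : ℕ => 1 / ((m : ℝ) + 1)) atTop (𝓝 0) :=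
    tendsto_one_div_add_atTop_nhds_zero_nat
  -- bounds on fixed intervals
  have hcast : ∀ {T m : ℕ}, T ≤ m → (T : ℝ) ≤ (m : ℝ) + 1 := by
    intro T m h
    have : (T : ℝ) ≤ m := by exact_mod_cast h
    linarith
  have bv : ∀ T : ℕ, ∀ m, T ≤ m → eLpNorm (rs (T : ℝ) (v m)) 2 volume ≤
      ENNReal.ofReal (Real.sqrt (Mf T * T)) := by
    intro T m hm
    have h1 := ((hBd m).v T (Nat.cast_nonneg T) (hcast hm)).rs
    exact h1.eLpNorm (hMb T) (Nat.cast_nonneg T) (fun z hz => rs_notMem hz _)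
  have bτ : ∀ T : ℕ, ∀ m, T ≤ m → eLpNorm (rs (T : ℝ) (τ m)) 2 volume ≤
      ENNReal.ofReal (Real.sqrt (Mf T * T)) := by
    intro T m hm
    have h1 := ((hBd m).τ T (Nat.cast_nonneg T) (hcast hm)).rs
    exact h1.eLpNorm (hMb T) (Nat.cast_nonneg T) (fun z hz => rs_notMem hz _)
  have bG : ∀ T : ℕ, ∀ m, T ≤ m → eLpNorm (rs (T : ℝ) (G m)) 2 volume ≤
      ENNReal.ofReal (Real.sqrt (Mf T)) := by
    intro T m hm
    have h1 := (hBd m).G T (Nat.cast_nonneg T) (hcast hm)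
    refine slab_eLpNorm (hMb T) (fun z hz => rs_notMem hz _) (le_trans (le_of_eq ?_) h1)
    refine setLIntegral_congr_fun (measurableSet_Ioo.prod MeasurableSet.univ) fun z hz => ?_
    simp only [rs_mem hz.1]
  have mv : ∀ (T : ℕ) m, MemLp (rs (T : ℝ) (v m)) 2 volume := fun T m =>
    rs_memLp (hsol m).vel.memv T
  have mG : ∀ (T : ℕ) m, MemLp (rs (T : ℝ) (G m)) 2 volume := fun T m =>
    rs_memLp (hsol m).vel.memG T
  have mτ : ∀ (T : ℕ) m, MemLp (rs (T : ℝ) (τ m)) 2 volume := fun T m =>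
    rs_memLp (hsol m).memτ T
  -- diagonal subsequence for the three fields
  obtain ⟨φ1, hφ1, U1, hU1⟩ := diag_compact (ι := Unit) (E := fun _ => Eu n) (fun _ m => v m)
    (fun _ T m => mv T m) (fun _ T => bdd_of_eventually (fun m => (mv T m).2.ne) (bv T))
  obtain ⟨φ2, hφ2, U2, hU2⟩ := diag_compact (ι := Bool) (E := fun _ => Mt n)
    (fun b m => if b then G (φ1 m) else τ (φ1 m))
    (fun b T m => by
      cases b
      · simpa using mτ T (φ1 m)
      · simpa using mG T (φ1 m))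
    (fun b T => by
      cases b
      · obtain ⟨C, hC⟩ := bdd_of_eventually (fun m => (mτ T m).2.ne) (bτ T)
        exact ⟨C, fun m => by simpa using hC (φ1 m)⟩
      · obtain ⟨C, hC⟩ := bdd_of_eventually (fun m => (mG T m).2.ne) (bG T)
        exact ⟨C, fun m => by simpa using hC (φ1 m)⟩)
  set φ : ℕ → ℕ := fun m => φ1 (φ2 m) with hφdef
  have hφ : StrictMono φ := hφ1.comp hφ2
  have hφge : ∀ m, m ≤ φ m := hφ.id_le
  have wv : ∀ T : ℕ, WC volume (fun m => rs (T : ℝ) (v (φ m))) (rs (T : ℝ) (U1 ())) := fun T =>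
    (hU1 () T).subseq hφ2
  have wG : ∀ T : ℕ, WC volume (fun m => rs (T : ℝ) (G (φ m))) (rs (T : ℝ) (U2 true)) := by
    intro T
    have := hU2 true T
    simpa using this
  have wτ : ∀ T : ℕ, WC volume (fun m => rs (T : ℝ) (τ (φ m))) (rs (T : ℝ) (U2 false)) := by
    intro T
    have := hU2 false T
    simpa using this
  -- the limit on integer intervals
  have hint : ∀ T : ℕ, 0 < T →
      IsSol Ω T μ a c f v0 τ0 (fun z => sp (rs T (U2 true) z)) (rs T (U1 ())) (rs T (U2 true))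
        (rs T (U2 false)) ∧ LB T (Mf T) (rs (T : ℝ) (U1 ())) ∧
        LB T (Mf T) (rs (T : ℝ) (U2 false)) := by
    intro T hT
    have hT' : (0:ℝ) < T := by exact_mod_cast hT
    have hsh : StrictMono fun m : ℕ => m + T := fun a b h => Nat.add_lt_add_right h T
    have hge : ∀ m, T ≤ φ (m + T) := fun m => (Nat.le_add_left T m).trans (hφge _)
    have LBv : ∀ m, LB (T : ℝ) (Mf T) (rs (T : ℝ) (v (φ (m + T)))) := fun m =>
      ((hBd _).v T hT'.le (hcast (hge m))).rs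
    have LBτ : ∀ m, LB (T : ℝ) (Mf T) (rs (T : ℝ) (τ (φ (m + T)))) := fun m =>
      ((hBd _).τ T hT'.le (hcast (hge m))).rs
    have wv' := (wv T).subseq hsh
    have wG' := (wG T).subseq hsh
    have wτ' := (wτ T).subseq hsh
    have hsolT : ∀ m, IsSol Ω T μ a c f v0 τ0
        (mspin Ω (1 / ((φ (m + T) : ℝ) + 1)) (rs (T : ℝ) (G (φ (m + T)))))
        (rs T (v (φ (m + T)))) (rs T (G (φ (m + T)))) (rs T (τ (φ (m + T)))) := by
      intro m
      have h1 := (hsol (φ (m + T))).rs hΩm (hcast (hge m))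
      rw [← mspin_rs] at h1
      exact h1
    have hδ' : Tendsto (fun m : ℕ => 1 / ((φ (m + T) : ℝ) + 1)) atTop (𝓝 0) :=
      hδ0.comp (hφ.comp hsh).tendsto_atTop
    refine ⟨closure_thm hSC hΩ hΩb hT' hμ hRS hf hτ0 (fun m => hδ _) hδ' hsolT LBv wv' wG' wτ'
      (fun z hz => rs_notMem hz _), LB.of_wc (hMb T) wv' LBv, LB.of_wc (hMb T) wτ' LBτ⟩
  refine ⟨U1 (), U2 true, U2 false, fun T hT => ?_⟩
  obtain ⟨N, hN⟩ := exists_nat_ge T
  have hN0 : 0 < N := by
    have : (0:ℝ) < N := hT.trans_le hN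
    exact_mod_cast this
  obtain ⟨h1, h2, h3⟩ := hint N hN0
  have h4 := h1.rs hΩm hN
  rw [rs_rs hN, rs_rs hN, rs_rs hN, ← sp_rs, rs_rs hN] at h4
  have hLB : ∀ {E : Type} [NormedAddCommGroup E] {u : ST n → E}, LB (N : ℝ) (Mf N) (rs (N : ℝ) u) →
      LB T (Mf N) (rs T u) := by
    intro E _ u h I hI hIT
    refine le_trans (le_of_eq ?_) (h I hI (hIT.trans (Ioo_subset_Ioo le_rfl hN)))
    refine setLIntegral_congr_fun (hI.prod MeasurableSet.univ) fun z hz => ?_
    have e1 : z.1 ∈ Ioo 0 T := hIT hz.1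
    have e2 : z.1 ∈ Ioo 0 (N : ℝ) := ⟨e1.1, e1.2.trans_le hN⟩
    simp only [rs_mem e1, rs_mem e2]
  exact ⟨h4, ⟨_, hLB h2⟩, ⟨_, hLB h3⟩⟩

end Pool.Agent.Helper42.Jef
end
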