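import Pool.Agent.Helper42.JefB.G1
import Pool.Agent.Helper42.JefB.D4
import Pool.Agent.Helper42.JefB.D1

section
/-! # General space-time test functions -/

open MeasureTheory Set Filter Topology
open scoped ENNReal NNReal ContDiff

namespace Pool.Agent.Helper42.Jef

set_option maxHeartbeats 1000000

variable {n : ℕ} {Ω : Set (Eu n)}

section gen

variable {E : Type*} [NormedAddCommGroup E] [InnerProductSpace ℝ E] [FiniteDimensional ℝ E]

/-- integrability of the pairing with a bounded continuous test field -/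
theorem int_pair {ν : Measure (Eu n)} {p : Eu n → E} (hp : Integrable p ν) {φ : Eu n → E}
    (hφ : Continuous φ) {c : ℝ} (hc : ∀ x, ‖φ x‖ ≤ c) :
    Integrable (fun x => inner ℝ (p x) (φ x)) ν ∧
      |∫ x, inner ℝ (p x) (φ x) ∂ν| ≤ (∫ x, ‖p x‖ ∂ν) * c := by
  have h1 : ∀ x, ‖inner ℝ (p x) (φ x)‖ ≤ ‖p x‖ * c := fun x =>
    (norm_inner_le_norm _ _).trans (mul_le_mul_of_nonneg_left (hc x) (norm_nonneg _))
  have h2 : Integrable (fun x => inner ℝ (p x) (φ x)) ν :=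
    (hp.norm.mul_const c).mono' (hp.1.inner hφ.aestronglyMeasurable) (Eventually.of_forall h1)
  refine ⟨h2, ?_⟩
  rw [← integral_mul_const, ← Real.norm_eq_abs]
  exact (norm_integral_le_integral_norm _).trans (integral_mono h2.norm (hp.norm.mul_const c) h1)

/-- the pairing `⟨q₀, φ⟩ + ∑_j ⟨q_j, ∂_j φ⟩` at a point -/
noncomputable def prg (q0 : ST n → E) (q : Fin n → ST n → E) (φ : Eu n → E) (t : ℝ) (x : Eu n) :
    ℝ := inner ℝ (q0 (t, x)) (φ x) + ∑ j, inner ℝ (q j (t, x)) (fderiv ℝ φ x (bv j))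

theorem norm_bv (j : Fin n) : ‖(bv j : Eu n)‖ = 1 := by
  simp [bv]

theorem prg_int {ν : Measure (Eu n)} {q0 : ST n → E} {q : Fin n → ST n → E} {t : ℝ}
    (h0 : Integrable (fun x => q0 (t, x)) ν) (h1 : ∀ j, Integrable (fun x => q j (t, x)) ν)
    {φ : Eu n → E} (hφ : Continuous φ) (hφ' : Continuous (fderiv ℝ φ)) {c : ℝ}
    (hc : ∀ x, ‖φ x‖ ≤ c ∧ ‖fderiv ℝ φ x‖ ≤ c) :
    Integrable (prg q0 q φ t) ν ∧ |∫ x, prg q0 q φ t x ∂ν| ≤
      ((∫ x, ‖q0 (t, x)‖ ∂ν) + ∑ j, ∫ x, ‖q j (t, x)‖ ∂ν) * c := by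
  have hcj : ∀ (j : Fin n) x, ‖fderiv ℝ φ x (bv j)‖ ≤ c := by
    intro j x
    refine (ContinuousLinearMap.le_opNorm _ _).trans ?_
    rw [norm_bv, mul_one]; exact (hc x).2
  have i0 := int_pair h0 hφ fun x => (hc x).1
  have i1 := fun j => int_pair (h1 j) (hφ'.clm_apply (continuous_const (y := (bv j : Eu n))))
    (hcj j)
  have i2 : Integrable (fun x => ∑ j, inner ℝ (q j (t, x)) (fderiv ℝ φ x (bv j))) ν :=
    integrable_finsetSum _ fun j _ => (i1 j).1
  refine ⟨i0.1.add i2, ?_⟩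
  have e1 : ∫ x, prg q0 q φ t x ∂ν = (∫ x, inner ℝ (q0 (t, x)) (φ x) ∂ν) +
      ∑ j, ∫ x, inner ℝ (q j (t, x)) (fderiv ℝ φ x (bv j)) ∂ν := by
    rw [← integral_finsetSum _ fun j _ => (i1 j).1, ← integral_add i0.1 i2]
    rfl
  rw [e1, add_mul, Finset.sum_mul]
  refine (abs_add_le _ _).trans (add_le_add i0.2 ?_)
  exact (Finset.abs_sum_le_sum_abs _ _).trans (Finset.sum_le_sum fun j _ => (i1 j).2)

/-- general test functions from product test functions -/
theorem gt_gen {T : ℝ} (hT : 0 < T) (P : Submodule ℝ (Eu n → E))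
    (hPs : ∀ φ ∈ P, ContDiff ℝ ∞ φ ∧ HasCompactSupport φ)
    {p q0 : ST n → E} {q : Fin n → ST n → E}
    (hp : IntegrableOn p (Ioo 0 T ×ˢ Ω) volume) (hq0 : IntegrableOn q0 (Ioo 0 T ×ˢ Ω) volume)
    (hq : ∀ j, IntegrableOn (q j) (Ioo 0 T ×ˢ Ω) volume)
    {ℓ : ℝ → (Eu n → E) → ℝ} (hℓ1 : ∀ t, ∀ φ ∈ P, ∀ ψ ∈ P, ℓ t (φ + ψ) = ℓ t φ + ℓ t ψ)
    (hℓ2 : ∀ t (r : ℝ), ∀ φ ∈ P, ℓ t (r • φ) = r * ℓ t φ)
    {k0 : ℝ → ℝ} (hk0 : ∀ t, 0 ≤ k0 t) (hk0i : IntegrableOn k0 (Ioo 0 T))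
    (hℓb : ∀ φ ∈ P, ∀ c : ℝ, (∀ x, ‖φ x‖ ≤ c ∧ ‖fderiv ℝ φ x‖ ≤ c) →
      ∀ t ∈ Ioo 0 T, |ℓ t φ| ≤ k0 t * c)
    (hℓm : ∀ φ ∈ P, AEStronglyMeasurable (fun t => ℓ t φ) (volume.restrict (Ioo 0 T)))
    {u0 : Eu n → E} (hu0 : IntegrableOn u0 Ω volume)
    (heq : ∀ η, IsTime (-1) T η → ∀ φ ∈ P,
      (∫ z in Ioo 0 T ×ˢ Ω, (deriv η z.1 * inner ℝ (p z) (φ z.2) +
        η z.1 * prg q0 q φ z.1 z.2)) + (∫ t in Ioo 0 T, η t * ℓ t φ) +
        η 0 * ∫ x in Ω, inner ℝ (u0 x) (φ x) = 0)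
    (Φ : ST n → E) (hΦ : ContDiff ℝ ∞ Φ) (hc : HasCompactSupport Φ)
    (hs : tsupport Φ ⊆ {z : ST n | z.1 < T}) (hP : ∀ t, (fun x => Φ (t, x)) ∈ P)
    (hP' : ∀ t, (fun x => fderiv ℝ Φ (t, x) (1, 0)) ∈ P) :
    (∫ t in Ioo 0 T, ((∫ x in Ω, (inner ℝ (p (t, x)) (fderiv ℝ Φ (t, x) (1, 0)) +
      prg q0 q (fun y => Φ (t, y)) t x)) +
      ℓ t (fun x => Φ (t, x)))) + ∫ x in Ω, inner ℝ (u0 x) (Φ (0, x)) = 0 := by
  classical
  set ν : Measure (Eu n) := volume.restrict Ω with hν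
  have hprod : (volume : Measure (ST n)).restrict (Ioo 0 T ×ˢ Ω) =
      ((volume : Measure ℝ).restrict (Ioo 0 T)).prod ν := by
    have hvol : (volume : Measure (ST n)) = (volume : Measure ℝ).prod (volume : Measure (Eu n)) :=
      rfl
    rw [hvol, ← Measure.prod_restrict]
  have ip : Integrable p (((volume : Measure ℝ).restrict (Ioo 0 T)).prod ν) := by
    rw [← hprod]; exact hp
  have iq0 : Integrable q0 (((volume : Measure ℝ).restrict (Ioo 0 T)).prod ν) := by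
    rw [← hprod]; exact hq0
  have iq : ∀ j, Integrable (q j) (((volume : Measure ℝ).restrict (Ioo 0 T)).prod ν) := by
    intro j
    rw [← hprod]; exact hq j
  let good : Set ℝ := {t | Integrable (fun x => p (t, x)) ν ∧ Integrable (fun x => q0 (t, x)) ν ∧
    ∀ j, Integrable (fun x => q j (t, x)) ν}
  have hgood : ∀ᵐ t ∂((volume : Measure ℝ).restrict (Ioo 0 T)), t ∈ good := by
    filter_upwards [ip.prod_right_ae, iq0.prod_right_ae,
      ae_all_iff.2 fun j => (iq j).prod_right_ae] with t h1 h2 h3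
    exact ⟨h1, h2, h3⟩
  let A : (Eu n → E) → ℝ → ℝ := fun φ t => if t ∈ good then ∫ x, inner ℝ (p (t, x)) (φ x) ∂ν else 0
  let B0 : (Eu n → E) → ℝ → ℝ := fun φ t =>
    if t ∈ good then ∫ x, prg q0 q φ t x ∂ν else 0
  let C : (Eu n → E) → ℝ := fun φ => ∫ x, inner ℝ (u0 x) (φ x) ∂ν
  let k : ℝ → ℝ := fun t => (∫ x, ‖p (t, x)‖ ∂ν) + ((∫ x, ‖q0 (t, x)‖ ∂ν) +
    ∑ j, ∫ x, ‖q j (t, x)‖ ∂ν) + k0 t
  have hk : IntegrableOn k (Ioo 0 T) := by
    have h1 : IntegrableOn (fun t => ∑ j, ∫ x, ‖q j (t, x)‖ ∂ν) (Ioo 0 T) :=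
      integrable_finsetSum _ fun j _ => (iq j).norm.integral_prod_left
    exact (ip.norm.integral_prod_left.add (iq0.norm.integral_prod_left.add h1)).add hk0i
  have hn1 : ∀ t, 0 ≤ ∫ x, ‖p (t, x)‖ ∂ν := fun t => integral_nonneg fun x => norm_nonneg _
  have hn2 : ∀ t, 0 ≤ (∫ x, ‖q0 (t, x)‖ ∂ν) + ∑ j, ∫ x, ‖q j (t, x)‖ ∂ν := fun t =>
    add_nonneg (integral_nonneg fun x => norm_nonneg _)
      (Finset.sum_nonneg fun j _ => integral_nonneg fun x => norm_nonneg _)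
  have hkn : ∀ t, 0 ≤ k t := fun t => add_nonneg (add_nonneg (hn1 t) (hn2 t)) (hk0 t)
  have hcd : ∀ φ ∈ P, Continuous φ ∧ Continuous (fderiv ℝ φ) ∧ (∃ c : ℝ, ∀ x, ‖φ x‖ ≤ c) ∧
      ∃ c : ℝ, ∀ x, ‖fderiv ℝ φ x‖ ≤ c := by
    intro φ hφ
    obtain ⟨h1, h2⟩ := hPs φ hφ
    have h3 : Continuous (fderiv ℝ φ) := h1.continuous_fderiv (by simp)
    exact ⟨h1.continuous, h3, h1.continuous.bounded_above_of_compact_support h2,
      h3.bounded_above_of_compact_support (h2.fderiv (𝕜 := ℝ))⟩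
  have iA : ∀ φ ∈ P, ∀ t ∈ good, Integrable (fun x => inner ℝ (p (t, x)) (φ x)) ν := by
    intro φ hφ t ht
    obtain ⟨h1, h2, ⟨c, h3⟩, -⟩ := hcd φ hφ
    exact (int_pair ht.1 h1 h3).1
  have iB : ∀ φ ∈ P, ∀ t ∈ good, Integrable (prg q0 q φ t) ν := by
    intro φ hφ t ht
    obtain ⟨h1, h2, ⟨c, h3⟩, ⟨c', h4⟩⟩ := hcd φ hφ
    exact (prg_int ht.2.1 ht.2.2 h1 h2 (c := max c c') fun x =>
      ⟨(h3 x).trans (le_max_left _ _), (h4 x).trans (le_max_right _ _)⟩).1
  have iC : ∀ φ ∈ P, Integrable (fun x => inner ℝ (u0 x) (φ x)) ν := by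
    intro φ hφ
    obtain ⟨h1, h2, ⟨c, h3⟩, -⟩ := hcd φ hφ
    exact (int_pair hu0 h1 h3).1
  have fadd : ∀ φ ∈ P, ∀ ψ ∈ P, ∀ x, fderiv ℝ (φ + ψ) x = fderiv ℝ φ x + fderiv ℝ ψ x := by
    intro φ hφ ψ hψ x
    exact fderiv_add ((hPs φ hφ).1.differentiable (by simp) x)
      ((hPs ψ hψ).1.differentiable (by simp) x)
  have fsmul : ∀ φ ∈ P, ∀ (r : ℝ), ∀ x, fderiv ℝ (r • φ) x = r • fderiv ℝ φ x := by
    intro φ hφ r x
    exact fderiv_const_smul ((hPs φ hφ).1.differentiable (by simp) x) r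
  have hAeq : ∀ φ, ∀ t ∈ good, A φ t = ∫ x, inner ℝ (p (t, x)) (φ x) ∂ν := by
    intro φ t ht
    simp only [A, if_pos ht]
  have hBeq : ∀ φ, ∀ t ∈ good, B0 φ t = ∫ x, prg q0 q φ t x ∂ν := by
    intro φ t ht
    simp only [B0, if_pos ht]
  have hA0 : ∀ φ, ∀ t, t ∉ good → A φ t = 0 := fun φ t ht => by simp only [A, if_neg ht]
  have hB0 : ∀ φ, ∀ t, t ∉ good → B0 φ t = 0 := fun φ t ht => by simp only [B0, if_neg ht]
  -- product integrands
  have hAm : ∀ φ ∈ P, AEStronglyMeasurable (A φ) (volume.restrict (Ioo 0 T)) := by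
    intro φ hφ
    have h1 : AEStronglyMeasurable (fun z : ℝ × Eu n => inner ℝ (p z) (φ z.2))
        (((volume : Measure ℝ).restrict (Ioo 0 T)).prod ν) :=
      ip.1.inner ((hcd φ hφ).1.comp continuous_snd).aestronglyMeasurable
    refine h1.integral_prod_right'.congr ?_
    filter_upwards [hgood] with t ht
    exact (hAeq φ t ht).symm
  have hprm : ∀ φ ∈ P, AEStronglyMeasurable (fun z : ℝ × Eu n => prg q0 q φ z.1 z.2)
        (((volume : Measure ℝ).restrict (Ioo 0 T)).prod ν) := by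
    intro φ hφ
    have h1 : AEStronglyMeasurable (fun z : ℝ × Eu n => inner ℝ (q0 z) (φ z.2))
        (((volume : Measure ℝ).restrict (Ioo 0 T)).prod ν) :=
      iq0.1.inner ((hcd φ hφ).1.comp continuous_snd).aestronglyMeasurable
    have h2 : ∀ j, AEStronglyMeasurable
        (fun z : ℝ × Eu n => inner ℝ (q j z) (fderiv ℝ φ z.2 (bv j)))
        (((volume : Measure ℝ).restrict (Ioo 0 T)).prod ν) := fun j =>
      (iq j).1.inner (((hcd φ hφ).2.1.comp continuous_snd).clm_apply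
        continuous_const).aestronglyMeasurable
    have h3 := h1.add (Finset.aestronglyMeasurable_sum Finset.univ fun j _ => h2 j)
    refine h3.congr (Eventually.of_forall fun z => ?_)
    simp only [Pi.add_apply, Finset.sum_apply, prg]
  have hBm : ∀ φ ∈ P, AEStronglyMeasurable (B0 φ) (volume.restrict (Ioo 0 T)) := by
    intro φ hφ
    refine (hprm φ hφ).integral_prod_right'.congr ?_
    filter_upwards [hgood] with t ht
    exact (hBeq φ t ht).symm
  have hAb : ∀ φ ∈ P, ∀ c : ℝ, (∀ x, ‖φ x‖ ≤ c ∧ ‖fderiv ℝ φ x‖ ≤ c) → ∀ t, |A φ t| ≤ k t * c := by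
    intro φ hφ c hcb t
    have hc0 : 0 ≤ c := (norm_nonneg _).trans (hcb 0).1
    by_cases ht : t ∈ good
    · rw [hAeq φ t ht]
      refine (int_pair ht.1 (hcd φ hφ).1 fun x => (hcb x).1).2.trans ?_
      refine mul_le_mul_of_nonneg_right ?_ hc0
      have h2 := hn2 t
      have h3 := hk0 t
      simp only [k]
      linarith
    · rw [hA0 φ t ht, abs_zero]
      exact mul_nonneg (hkn t) hc0
  have hBb : ∀ φ ∈ P, ∀ c : ℝ, (∀ x, ‖φ x‖ ≤ c ∧ ‖fderiv ℝ φ x‖ ≤ c) → ∀ t ∈ Ioo 0 T,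
      |B0 φ t + ℓ t φ| ≤ k t * c := by
    intro φ hφ c hcb t htT
    have hc0 : 0 ≤ c := (norm_nonneg _).trans (hcb 0).1
    have h3 := hℓb φ hφ c hcb t htT
    have h4 : |B0 φ t| ≤ ((∫ x, ‖q0 (t, x)‖ ∂ν) + ∑ j, ∫ x, ‖q j (t, x)‖ ∂ν) * c := by
      by_cases ht : t ∈ good
      · rw [hBeq φ t ht]
        exact (prg_int ht.2.1 ht.2.2 (hcd φ hφ).1 (hcd φ hφ).2.1 hcb).2
      · rw [hB0 φ t ht, abs_zero]
        exact mul_nonneg (hn2 t) hc0
    have h5 : 0 ≤ (∫ x, ‖p (t, x)‖ ∂ν) * c := mul_nonneg (hn1 t) hc0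
    calc |B0 φ t + ℓ t φ| ≤ |B0 φ t| + |ℓ t φ| := abs_add_le _ _
      _ ≤ ((∫ x, ‖q0 (t, x)‖ ∂ν) + ∑ j, ∫ x, ‖q j (t, x)‖ ∂ν) * c + k0 t * c := add_le_add h4 h3
      _ ≤ k t * c := by simp only [k]; nlinarith
  have heq' : ∀ η, IsTime (-1) T η → ∀ φ ∈ P,
      (∫ t in Ioo 0 T, (deriv η t * A φ t + η t * (B0 φ t + ℓ t φ))) + η 0 * C φ = 0 := by
    intro η hη φ hφ
    refine Eq.trans ?_ (heq η hη φ hφ)
    obtain ⟨Cη, hCη⟩ := hη.bounded.1
    obtain ⟨Cη', hCη'⟩ := hη.bounded.2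
    obtain ⟨h1, h2, ⟨c1, h3⟩, ⟨c2, h4⟩⟩ := hcd φ hφ
    have j1 : Integrable (fun z : ℝ × Eu n => deriv η z.1 * inner ℝ (p z) (φ z.2))
        (((volume : Measure ℝ).restrict (Ioo 0 T)).prod ν) := by
      have h5 : Integrable (fun z : ℝ × Eu n => inner ℝ (p z) (φ z.2))
          (((volume : Measure ℝ).restrict (Ioo 0 T)).prod ν) :=
        (ip.norm.mul_const c1).mono' (ip.1.inner (h1.comp continuous_snd).aestronglyMeasurable)
          (Eventually.of_forall fun z => (norm_inner_le_norm _ _).trans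
            (mul_le_mul_of_nonneg_left (h3 z.2) (norm_nonneg _)))
      exact h5.bdd_mul (hη.dcont.comp continuous_fst).aestronglyMeasurable
        (Eventually.of_forall fun z => hCη' z.1)
    have j0 : Integrable (fun z : ℝ × Eu n => prg q0 q φ z.1 z.2)
        (((volume : Measure ℝ).restrict (Ioo 0 T)).prod ν) := by
      have h5 : Integrable (fun z : ℝ × Eu n => (‖q0 z‖ + ∑ j, ‖q j z‖) * max c1 c2)
          (((volume : Measure ℝ).restrict (Ioo 0 T)).prod ν) :=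
        (iq0.norm.add (integrable_finsetSum _ fun j _ => (iq j).norm)).mul_const _
      refine h5.mono' (hprm φ hφ) (Eventually.of_forall fun z => ?_)
      have g1 : ‖inner ℝ (q0 z) (φ z.2)‖ ≤ ‖q0 z‖ * max c1 c2 :=
        (norm_inner_le_norm _ _).trans (mul_le_mul_of_nonneg_left
          ((h3 z.2).trans (le_max_left _ _)) (norm_nonneg _))
      have g2 : ∀ j, ‖inner ℝ (q j z) (fderiv ℝ φ z.2 (bv j))‖ ≤ ‖q j z‖ * max c1 c2 := by
        intro j
        refine (norm_inner_le_norm _ _).trans (mul_le_mul_of_nonneg_left ?_ (norm_nonneg _))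
        refine (ContinuousLinearMap.le_opNorm _ _).trans ?_
        rw [norm_bv, mul_one]
        exact (h4 z.2).trans (le_max_right _ _)
      calc ‖prg q0 q φ z.1 z.2‖ ≤ ‖inner ℝ (q0 z) (φ z.2)‖ +
            ‖∑ j, inner ℝ (q j z) (fderiv ℝ φ z.2 (bv j))‖ := norm_add_le _ _
        _ ≤ ‖q0 z‖ * max c1 c2 + ∑ j, ‖q j z‖ * max c1 c2 :=
            add_le_add g1 ((norm_sum_le _ _).trans (Finset.sum_le_sum fun j _ => g2 j))
        _ = (‖q0 z‖ + ∑ j, ‖q j z‖) * max c1 c2 := by rw [add_mul, Finset.sum_mul]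
    have j2 : Integrable (fun z : ℝ × Eu n => η z.1 * prg q0 q φ z.1 z.2)
        (((volume : Measure ℝ).restrict (Ioo 0 T)).prod ν) :=
      j0.bdd_mul (hη.cont.comp continuous_fst).aestronglyMeasurable
        (Eventually.of_forall fun z => hCη z.1)
    have e1 : ∫ z in Ioo 0 T ×ˢ Ω, (deriv η z.1 * inner ℝ (p z) (φ z.2) +
        η z.1 * prg q0 q φ z.1 z.2) =
        ∫ t in Ioo 0 T, (deriv η t * A φ t + η t * B0 φ t) := by
      have j3 : Integrable (fun z : ℝ × Eu n => deriv η z.1 * inner ℝ (p z) (φ z.2) +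
          η z.1 * prg q0 q φ z.1 z.2) (((volume : Measure ℝ).restrict (Ioo 0 T)).prod ν) :=
        j1.add j2
      rw [hprod, integral_prod _ j3]
      refine integral_congr_ae ?_
      filter_upwards [hgood] with t ht
      have k1 : Integrable (fun x => deriv η t * inner ℝ (p (t, x)) (φ x)) ν :=
        (iA φ hφ t ht).const_mul _
      have k2 : Integrable (fun x => η t * prg q0 q φ t x) ν := (iB φ hφ t ht).const_mul _
      have k3 : ∫ x, (deriv η t * inner ℝ (p (t, x)) (φ x) +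
          η t * prg q0 q φ t x) ∂ν =
          deriv η t * A φ t + η t * B0 φ t := by
        rw [integral_add k1 k2, integral_const_mul, integral_const_mul, hAeq φ t ht, hBeq φ t ht]
      exact k3
    have i1 : IntegrableOn (fun t => deriv η t * A φ t + η t * B0 φ t) (Ioo 0 T) := by
      have h5 := (j1.add j2).integral_prod_left
      refine h5.congr ?_
      filter_upwards [hgood] with t ht
      have k1 : Integrable (fun x => deriv η t * inner ℝ (p (t, x)) (φ x)) ν :=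
        (iA φ hφ t ht).const_mul _
      have k2 : Integrable (fun x => η t * prg q0 q φ t x) ν := (iB φ hφ t ht).const_mul _
      have k3 : ∫ x, (deriv η t * inner ℝ (p (t, x)) (φ x) +
          η t * prg q0 q φ t x) ∂ν =
          deriv η t * A φ t + η t * B0 φ t := by
        rw [integral_add k1 k2, integral_const_mul, integral_const_mul, hAeq φ t ht, hBeq φ t ht]
      exact k3
    have i2 : IntegrableOn (fun t => η t * ℓ t φ) (Ioo 0 T) := by
      have h5 : IntegrableOn (fun t => ℓ t φ) (Ioo 0 T) := by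
        refine (hk0i.mul_const (max c1 c2)).mono' (hℓm φ hφ) ?_
        rw [ae_restrict_iff' measurableSet_Ioo]
        refine Eventually.of_forall fun t ht => ?_
        exact hℓb φ hφ _ (fun x => ⟨(h3 x).trans (le_max_left _ _),
          (h4 x).trans (le_max_right _ _)⟩) t ht
      exact h5.bdd_mul hη.cont.aestronglyMeasurable (Eventually.of_forall fun t => hCη t)
    rw [e1]
    congr 1
    rw [← integral_add i1 i2]
    refine integral_congr_ae (Eventually.of_forall fun t => ?_)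
    simp only
    ring
  have main := Pool.Agent.Helper94.Jef.gt_abs hT P A (fun φ t => B0 φ t + ℓ t φ) C ?_ ?_ ?_ ?_ ?_ ?_
    k hkn hk (∫ x, ‖u0 x‖ ∂ν) (fun φ hφ c hcb t _ => hAb φ hφ c hcb t) hBb ?_ hAm
    (fun φ hφ => (hBm φ hφ).add (hℓm φ hφ)) heq' Φ hΦ hc hs hP hP'
  · refine Eq.trans ?_ main.2
    congr 1
    refine integral_congr_ae ?_
    filter_upwards [hgood] with t ht
    rw [hAeq _ t ht, hBeq _ t ht]
    have k1 := iA _ (hP' t) t ht
    have k2 := iB _ (hP t) t ht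
    rw [integral_add k1 k2]
    ring
  · intro t φ hφ ψ hψ
    by_cases ht : t ∈ good
    · rw [hAeq _ t ht, hAeq _ t ht, hAeq _ t ht, ← integral_add (iA φ hφ t ht) (iA ψ hψ t ht)]
      refine integral_congr_ae (Eventually.of_forall fun x => ?_)
      simp only [Pi.add_apply, inner_add_right]
    · rw [hA0 _ t ht, hA0 _ t ht, hA0 _ t ht, add_zero]
  · intro t r φ hφ
    by_cases ht : t ∈ good
    · rw [hAeq _ t ht, hAeq _ t ht, ← integral_const_mul]
      refine integral_congr_ae (Eventually.of_forall fun x => ?_)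
      simp only [Pi.smul_apply, inner_smul_right]
    · rw [hA0 _ t ht, hA0 _ t ht, mul_zero]
  · intro t φ hφ ψ hψ
    show B0 (φ + ψ) t + ℓ t (φ + ψ) = B0 φ t + ℓ t φ + (B0 ψ t + ℓ t ψ)
    rw [hℓ1 t φ hφ ψ hψ]
    by_cases ht : t ∈ good
    · rw [hBeq _ t ht, hBeq _ t ht, hBeq _ t ht]
      have k3 : ∫ x, prg q0 q (φ + ψ) t x ∂ν =
          (∫ x, prg q0 q φ t x ∂ν) + ∫ x, prg q0 q ψ t x ∂ν := by
        rw [← integral_add (iB φ hφ t ht) (iB ψ hψ t ht)]
        refine integral_congr_ae (Eventually.of_forall fun x => ?_)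
        simp only [prg, Pi.add_apply, fadd φ hφ ψ hψ, _root_.add_apply, inner_add_right,
          Finset.sum_add_distrib]
        ring
      rw [k3]; ring
    · rw [hB0 _ t ht, hB0 _ t ht, hB0 _ t ht]; ring
  · intro t r φ hφ
    show B0 (r • φ) t + ℓ t (r • φ) = r * (B0 φ t + ℓ t φ)
    rw [hℓ2 t r φ hφ]
    by_cases ht : t ∈ good
    · rw [hBeq _ t ht, hBeq _ t ht]
      have k3 : ∫ x, prg q0 q (r • φ) t x ∂ν = r * ∫ x, prg q0 q φ t x ∂ν := by
        rw [← integral_const_mul]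
        refine integral_congr_ae (Eventually.of_forall fun x => ?_)
        simp only [prg, Pi.smul_apply, fsmul φ hφ, _root_.smul_apply, inner_smul_right, mul_add,
          Finset.mul_sum]
      rw [k3]; ring
    · rw [hB0 _ t ht, hB0 _ t ht]; ring
  · intro φ hφ ψ hψ
    show ∫ x, inner ℝ (u0 x) ((φ + ψ) x) ∂ν = _
    rw [← integral_add (iC φ hφ) (iC ψ hψ)]
    refine integral_congr_ae (Eventually.of_forall fun x => ?_)
    simp only [Pi.add_apply, inner_add_right]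
  · intro r φ hφ
    show ∫ x, inner ℝ (u0 x) ((r • φ) x) ∂ν = _
    rw [← integral_const_mul]
    refine integral_congr_ae (Eventually.of_forall fun x => ?_)
    simp only [Pi.smul_apply, inner_smul_right]
  · intro φ hφ c hcb
    exact (int_pair hu0 (hcd φ hφ).1 fun x => (hcb x).1).2

end gen

end Pool.Agent.Helper42.Jef
end

section
/-! # Slices of space-time test functions -/

open MeasureTheory Set Filter Topology
open scoped ENNReal NNReal ContDiff

namespace Pool.Agent.Helper42.Jef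

set_option maxHeartbeats 1000000

variable {n : ℕ} {Ω : Set (Eu n)}

section slices

variable {E : Type*} [NormedAddCommGroup E] [NormedSpace ℝ E]

theorem slice_hasFDerivAt {Φ : ST n → E} (hΦ : ContDiff ℝ ∞ Φ) (t : ℝ) (x : Eu n) :
    HasFDerivAt (fun y => Φ (t, y))
      ((fderiv ℝ Φ (t, x)).comp (ContinuousLinearMap.inr ℝ ℝ (Eu n))) x := by
  have h1 : HasFDerivAt Φ (fderiv ℝ Φ (t, x)) (t, x) :=
    (hΦ.differentiable (by simp) (t, x)).hasFDerivAt
  have h2 : HasFDerivAt (fun y : Eu n => (t, y)) (ContinuousLinearMap.inr ℝ ℝ (Eu n)) x :=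
    hasFDerivAt_prodMk_right t x
  exact h1.comp x h2

theorem slice_fderiv {Φ : ST n → E} (hΦ : ContDiff ℝ ∞ Φ) (t : ℝ) (x w : Eu n) :
    fderiv ℝ (fun y => Φ (t, y)) x w = fderiv ℝ Φ (t, x) (0, w) := by
  rw [(slice_hasFDerivAt hΦ t x).fderiv]; rfl

theorem slice_smooth {Φ : ST n → E} (hΦ : ContDiff ℝ ∞ Φ) (t : ℝ) :
    ContDiff ℝ ∞ (fun y : Eu n => Φ (t, y)) :=
  hΦ.comp (contDiff_const.prodMk contDiff_id)

theorem slice_tsupport {Φ : ST n → E} (t : ℝ) :
    tsupport (fun y : Eu n => Φ (t, y)) ⊆ {y | (t, y) ∈ tsupport Φ} := by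
  refine closure_minimal (fun y hy => subset_closure hy) ?_
  exact (isClosed_tsupport Φ).preimage (continuous_const.prodMk continuous_id)

theorem slice_cpt {Φ : ST n → E} (hc : HasCompactSupport Φ) (t : ℝ) :
    HasCompactSupport (fun y : Eu n => Φ (t, y)) := by
  have h1 : IsCompact (Prod.snd '' tsupport Φ) := hc.isCompact.image continuous_snd
  refine HasCompactSupport.of_support_subset_isCompact h1 fun y hy => ?_
  exact ⟨(t, y), subset_closure hy, rfl⟩

/-- the time derivative of a smooth space-time field -/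
theorem dt_smooth {Φ : ST n → E} (hΦ : ContDiff ℝ ∞ Φ) :
    ContDiff ℝ ∞ (fun z : ST n => fderiv ℝ Φ z (1, 0)) :=
  (hΦ.fderiv_right (m := ∞) (by simp)).clm_apply contDiff_const

theorem dt_tsupport {Φ : ST n → E} :
    tsupport (fun z : ST n => fderiv ℝ Φ z (1, 0)) ⊆ tsupport Φ := by
  refine (closure_mono fun z hz => ?_).trans (tsupport_fderiv_subset ℝ (f := Φ))
  intro h0
  apply hz
  show fderiv ℝ Φ z (1, 0) = 0
  have h0' : fderiv ℝ Φ z = 0 := h0
  rw [h0']; rfl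

theorem dt_cpt {Φ : ST n → E} (hc : HasCompactSupport Φ) :
    HasCompactSupport (fun z : ST n => fderiv ℝ Φ z (1, 0)) :=
  hc.of_isClosed_subset (isClosed_tsupport _) dt_tsupport

end slices

/-- the second derivatives commute -/
theorem dt_dx_comm {Φ : ST n → Eu n} (hΦ : ContDiff ℝ ∞ Φ) (t : ℝ) (x : Eu n) (i : Fin n) :
    fderiv ℝ (fun y => fderiv ℝ Φ (t, y) (1, 0)) x (bv i) =
      fderiv ℝ (fun s => fderiv ℝ Φ (s, x) (0, bv i)) t 1 := by
  have hd : ContDiff ℝ ∞ (fderiv ℝ Φ) := hΦ.fderiv_right (m := ∞) (by simp)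
  have hD : HasFDerivAt (fderiv ℝ Φ) (fderiv ℝ (fderiv ℝ Φ) (t, x)) (t, x) :=
    (hd.differentiable (by simp) (t, x)).hasFDerivAt
  have h1 : HasFDerivAt (fun y : Eu n => fderiv ℝ Φ (t, y))
      ((fderiv ℝ (fderiv ℝ Φ) (t, x)).comp (ContinuousLinearMap.inr ℝ ℝ (Eu n))) x :=
    hD.comp x (hasFDerivAt_prodMk_right t x)
  have h2 : HasFDerivAt (fun s : ℝ => fderiv ℝ Φ (s, x))
      ((fderiv ℝ (fderiv ℝ Φ) (t, x)).comp (ContinuousLinearMap.inl ℝ ℝ (Eu n))) t :=
    hD.comp t (hasFDerivAt_prodMk_left t x)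
  have e1 : fderiv ℝ (fun y => fderiv ℝ Φ (t, y) (1, 0)) x (bv i) =
      fderiv ℝ (fderiv ℝ Φ) (t, x) (0, bv i) (1, 0) := by
    have := (h1.clm_apply (hasFDerivAt_const ((1:ℝ), (0 : Eu n)) x)).fderiv
    rw [this]
    simp
  have e2 : fderiv ℝ (fun s => fderiv ℝ Φ (s, x) (0, bv i)) t 1 =
      fderiv ℝ (fderiv ℝ Φ) (t, x) (1, 0) (0, bv i) := by
    have := (h2.clm_apply (hasFDerivAt_const ((0:ℝ), (bv i : Eu n)) t)).fderiv
    rw [this]
    simp
  rw [e1, e2]
  have hsym : IsSymmSndFDerivAt ℝ Φ (t, x) :=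
    (hΦ.contDiffAt).isSymmSndFDerivAt (by
      simp only [minSmoothness_of_isRCLikeNormedField]
      exact ENat.LEInfty.out)
  exact hsym.eq _ _

/-- velocity test submodule -/
def PV (Ω : Set (Eu n)) : Submodule ℝ (Eu n → Eu n) where
  carrier := {φ | IsVT Ω φ}
  add_mem' := fun h h' => h.add h'
  zero_mem' := IsVT.zero
  smul_mem' := fun c _ h => h.smul c

/-- matrix test submodule -/
def PM (Ω : Set (Eu n)) : Submodule ℝ (Eu n → Mt n) where
  carrier := {φ | ContDiff ℝ ∞ φ ∧ HasCompactSupport φ ∧ tsupport φ ⊆ Ω}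
  add_mem' := fun h h' => ⟨h.1.add h'.1, h.2.1.add h'.2.1,
    (tsupport_add _ _).trans (union_subset h.2.2 h'.2.2)⟩
  zero_mem' := ⟨contDiff_const, HasCompactSupport.zero, by
    have : tsupport (0 : Eu n → Mt n) = ∅ := by simp [tsupport]
    rw [this]; exact empty_subset _⟩
  smul_mem' := fun c φ h => ⟨contDiff_const.smul h.1, h.2.1.smul_left,
    (closure_mono (Function.support_const_smul_subset c φ)).trans h.2.2⟩

theorem vtest_slice {T : ℝ} {Φ : ST n → Eu n} (h : IsVTest Ω T Φ) (t : ℝ) :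
    IsVT Ω (fun x => Φ (t, x)) where
  smooth := slice_smooth h.smooth t
  cpt := slice_cpt h.cpt t
  supp := fun x hx => (h.supp (slice_tsupport t hx)).2
  div0 := h.div0 t

theorem vtest_dt_slice {T : ℝ} {Φ : ST n → Eu n} (h : IsVTest Ω T Φ) (t : ℝ) :
    IsVT Ω (fun x => fderiv ℝ Φ (t, x) (1, 0)) where
  smooth := slice_smooth (dt_smooth h.smooth) t
  cpt := slice_cpt (dt_cpt h.cpt) t
  supp := fun x hx => (h.supp (dt_tsupport (slice_tsupport
    (Φ := fun z : ST n => fderiv ℝ Φ z (1, 0)) t hx))).2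
  div0 := by
    intro x
    simp only [dvg]
    have h1 : ∀ i : Fin n, (fderiv ℝ (fun y => fderiv ℝ Φ (t, y) (1, 0)) x (bv i)) i =
        fderiv ℝ (fun s => (fderiv ℝ Φ (s, x) (0, bv i)) i) t 1 := by
      intro i
      rw [dt_dx_comm h.smooth]
      have hd : ContDiff ℝ ∞ (fun s : ℝ => fderiv ℝ Φ (s, x) (0, bv i)) :=
        ((h.smooth.fderiv_right (m := ∞) (by simp)).comp
          (contDiff_id.prodMk contDiff_const)).clm_apply contDiff_const
      have h2 := ((EuclideanSpace.proj (𝕜 := ℝ) i : Eu n →L[ℝ] ℝ).hasFDerivAt.comp t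
        (hd.differentiable (by simp) t).hasFDerivAt).fderiv
      have h3 : (fun s => (fderiv ℝ Φ (s, x) (0, bv i)) i) =
        (EuclideanSpace.proj (𝕜 := ℝ) i : Eu n →L[ℝ] ℝ) ∘
          (fun s : ℝ => fderiv ℝ Φ (s, x) (0, bv i)) := rfl
      rw [h3, h2]
      rfl
    simp only [h1]
    have h4 : ∀ i : Fin n, DifferentiableAt ℝ (fun s => (fderiv ℝ Φ (s, x) (0, bv i)) i) t := by
      intro i
      have hd : ContDiff ℝ ∞ (fun s : ℝ => fderiv ℝ Φ (s, x) (0, bv i)) :=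
        ((h.smooth.fderiv_right (m := ∞) (by simp)).comp
          (contDiff_id.prodMk contDiff_const)).clm_apply contDiff_const
      exact (EuclideanSpace.proj (𝕜 := ℝ) i : Eu n →L[ℝ] ℝ).differentiableAt.comp t
        (hd.differentiable (by simp) t)
    have h5 : ∑ i, fderiv ℝ (fun s => (fderiv ℝ Φ (s, x) (0, bv i)) i) t 1 =
        fderiv ℝ (fun s => ∑ i, (fderiv ℝ Φ (s, x) (0, bv i)) i) t 1 := by
      rw [fderiv_fun_sum fun i _ => h4 i]
      simp
    rw [h5]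
    have h6 : (fun s => ∑ i, (fderiv ℝ Φ (s, x) (0, bv i)) i) = fun _ => (0:ℝ) := by
      funext s
      have := h.div0 s x
      simp only [dvg, slice_fderiv h.smooth] at this
      exact this
    rw [h6]
    simp

theorem mtest_slice {T : ℝ} {Ψ : ST n → Mt n} (h : IsMTest Ω T Ψ) (t : ℝ) :
    (fun x => Ψ (t, x)) ∈ PM Ω :=
  ⟨slice_smooth h.smooth t, slice_cpt h.cpt t, fun x hx => (h.supp (slice_tsupport t hx)).2⟩

theorem mtest_dt_slice {T : ℝ} {Ψ : ST n → Mt n} (h : IsMTest Ω T Ψ) (t : ℝ) :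
    (fun x => fderiv ℝ Ψ (t, x) (1, 0)) ∈ PM Ω :=
  ⟨slice_smooth (dt_smooth h.smooth) t, slice_cpt (dt_cpt h.cpt) t, fun x hx =>
    (h.supp (dt_tsupport (slice_tsupport (Φ := fun z : ST n => fderiv ℝ Ψ z (1, 0)) t hx))).2⟩

end Pool.Agent.Helper42.Jef
end

section
/-! # From product test functions to general test functions -/

open MeasureTheory Set Filter Topology
open scoped ENNReal NNReal ContDiff

namespace Pool.Agent.Helper42.Jef

set_option maxHeartbeats 1000000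

variable {n : ℕ} {Ω : Set (Eu n)}

theorem sy_br (A W : Mt n) (hW : tr W = -W) : sy (br A W) = br (sy A) W := by
  simp only [sy]
  rw [tr_br A W hW, ← br_add_left, br_smul_left]

/-- symmetrisation of the stress -/
theorem IsSol.symm {T μ a c : ℝ} {f : ℝ → (Eu n → Eu n) → ℝ} {v0 : Eu n → Eu n}
    {τ0 : Eu n → Mt n} {S : ST n → Mt n} {v : ST n → Eu n} {G τ : ST n → Mt n}
    (h : IsSol Ω T μ a c f v0 τ0 S v G τ) (hS : ∀ z, tr (S z) = - S z)
    (hτ0 : MemLp τ0 2 volume) (hs : ∀ᵐ x, tr (τ0 x) = τ0 x) :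
    IsSol Ω T μ a c f v0 τ0 S v G (fun z => sy (τ z)) where
  vel := h.vel
  memτ := (syL n).comp_memLp' h.memτ
  supτ := fun z hz => by
    rw [h.supτ z hz]; exact (syL n).map_zero
  memS := h.memS
  mom := by
    intro η φ hη hφ
    have h1 := h.mom η φ hη hφ
    have e1 : ∀ z : ST n, inner ℝ (sy (τ z)) (sy (grad φ z.2)) =
        inner ℝ (τ z) (sy (grad φ z.2)) := by
      intro z
      rw [inner_sy_left, sy_sy]
    simp only [e1]
    exact h1
  str := by
    intro η ψ hη hψ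
    have h1 := h.str η ψ hη hψ
    have hint := stI_int (a := a) (c := c) h.vel.memv h.vel.memG h.memτ h.memS hη hψ
    have hi2 : Integrable (fun x => ψ x • τ0 x) :=
      smul_int2 (memLp_cc hψ.smooth.continuous hψ.cpt 2) hτ0
    have h1' : (∫ z, stI a c v G τ S η ψ z) + η 0 • ∫ x, ψ x • τ0 x = 0 := h1
    have h2 := congrArg (syL n) h1'
    rw [map_add, map_smul, map_zero, ← (syL n).integral_comp_comm hint,
      ← (syL n).integral_comp_comm hi2] at h2
    refine Eq.trans ?_ h2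
    congr 1
    · refine integral_congr_ae (Eventually.of_forall fun z => ?_)
      simp only [stI, map_add, map_smul, map_sub, syL_apply]
      rw [sy_sy, sy_br _ _ (hS z)]
    · congr 1
      refine integral_congr_ae ?_
      filter_upwards [hs] with x hx
      have e2 : sy (τ0 x) = τ0 x := by
        simp only [sy]
        rw [hx, ← two_smul ℝ (τ0 x), smul_smul]
        norm_num
      simp only [map_smul, syL_apply, e2]

/-- column `j` of a matrix -/
noncomputable def clv (j : Fin n) : Mt n →L[ℝ] Eu n :=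
  LinearMap.toContinuousLinearMap
    { toFun := fun A => WithLp.toLp 2 fun i => A (i, j)
      map_add' := fun _ _ => rfl
      map_smul' := fun _ _ => rfl }

theorem clv_apply (j : Fin n) (A : Mt n) (i : Fin n) : clv j A i = A (i, j) := rfl

theorem inner_grad (A : Mt n) (φ : Eu n → Eu n) (x : Eu n) :
    inner ℝ A (grad φ x) = ∑ j, inner ℝ (clv j A) (fderiv ℝ φ x (bv j)) := by
  simp only [PiLp.inner_apply, RCLike.inner_apply, conj_trivial, clv_apply]
  rw [Fintype.sum_prod_type, Finset.sum_comm]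
  rfl

theorem vec_sum (w : Eu n) : w = ∑ j, w j • (bv j : Eu n) := by
  have := (EuclideanSpace.basisFun (Fin n) ℝ).sum_repr w
  simp only [EuclideanSpace.basisFun_repr, EuclideanSpace.basisFun_apply] at this
  exact this.symm

theorem inner_conv {E : Type*} [NormedAddCommGroup E] [InnerProductSpace ℝ E] (u : E) (w : Eu n)
    (D : Eu n →L[ℝ] E) : inner ℝ u (D w) = ∑ j, inner ℝ (w j • u) (D (bv j)) := by
  conv_lhs => rw [vec_sum w]
  rw [map_sum, inner_sum]
  refine Finset.sum_congr rfl fun j _ => ?_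
  rw [map_smul, inner_smul_right, inner_smul_left, conj_trivial]

theorem slab_finite (hΩb : Bornology.IsBounded Ω) (T : ℝ) :
    volume (Ioo (0:ℝ) T ×ˢ Ω : Set (ST n)) < ⊤ := by
  have hvol : (volume : Measure (ST n)) = (volume : Measure ℝ).prod (volume : Measure (Eu n)) := rfl
  rw [hvol, Measure.prod_prod]
  refine ENNReal.mul_lt_top ?_ hΩb.measure_lt_top
  rw [Real.volume_Ioo]; exact ENNReal.ofReal_lt_top

theorem slab_int {E : Type*} [NormedAddCommGroup E] (hΩb : Bornology.IsBounded Ω) (T : ℝ)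
    {u : ST n → E} (hu : MemLp u 2 volume) : IntegrableOn u (Ioo 0 T ×ˢ Ω) volume := by
  haveI : IsFiniteMeasure ((volume : Measure (ST n)).restrict (Ioo (0:ℝ) T ×ˢ Ω)) :=
    ⟨by rw [Measure.restrict_apply_univ]; exact slab_finite hΩb T⟩
  exact memLp_one_iff_integrable.1 ((hu.restrict _).mono_exponent (by norm_num))

theorem coord_smul_int {E : Type*} [NormedAddCommGroup E] [NormedSpace ℝ E]
    {v : ST n → Eu n} {u : ST n → E} (hv : MemLp v 2 volume) (hu : MemLp u 2 volume) (j : Fin n) :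
    Integrable (fun z => v z j • u z) := by
  have h1 : MemLp (fun z => v z j) 2 volume :=
    (EuclideanSpace.proj (𝕜 := ℝ) j : Eu n →L[ℝ] ℝ).comp_memLp' hv
  exact smul_int2 h1 hu

/-- the full integral reduces to the slab -/
theorem int_slab_eq {T : ℝ} {F F' : ST n → ℝ} (hΩ : MeasurableSet Ω)
    (h : ∀ᵐ z : ST n, z ∉ Ioo 0 T ×ˢ Ω → F z = 0) (h' : ∀ z : ST n, z ∈ Ioo 0 T ×ˢ Ω → F' z = F z) :
    ∫ z in Ioo 0 T ×ˢ Ω, F' z = ∫ z, F z := by
  rw [← integral_indicator (measurableSet_Ioo.prod hΩ)]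
  refine integral_congr_ae ?_
  filter_upwards [h] with z hz
  by_cases hz' : z ∈ Ioo 0 T ×ˢ Ω
  · rw [indicator_of_mem hz', h' z hz']
  · rw [indicator_of_notMem hz', hz hz']

theorem vt_zero_out {φ : Eu n → Eu n} (h : IsVT Ω φ) {x : Eu n} (hx : x ∉ Ω) :
    φ x = 0 ∧ fderiv ℝ φ x = 0 ∧ grad φ x = 0 := by
  have h1 : x ∉ tsupport φ := fun hc => hx (h.supp hc)
  have h2 : fderiv ℝ φ x = 0 := by
    have : x ∉ tsupport (fderiv ℝ φ) := fun hc => h1 (tsupport_fderiv_subset ℝ hc)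
    exact image_eq_zero_of_notMem_tsupport this
  refine ⟨image_eq_zero_of_notMem_tsupport h1, h2, ?_⟩
  rw [grad_eq, h2, map_zero]

/-- `H¹` norm of test fields with `C¹` bound -/
theorem h1_bound (hΩm : MeasurableSet Ω) (hΩb : Bornology.IsBounded Ω) {φ : Eu n → Eu n}
    (hφ : IsVT Ω φ) {c : ℝ}
    (hc : ∀ x, ‖φ x‖ ≤ c ∧ ‖fderiv ℝ φ x‖ ≤ c) :
    Real.sqrt ((∫ x, ‖φ x‖ ^ 2) + ∫ x, ‖grad φ x‖ ^ 2) ≤
      c * Real.sqrt ((1 + cg n ^ 2) * (volume Ω).toReal) := by
  have hc0 : 0 ≤ c := (norm_nonneg _).trans (hc 0).1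
  have hgen : ∀ {E : Type} [NormedAddCommGroup E] (u : Eu n → E) (C : ℝ), 0 ≤ C → (∀ x, ‖u x‖ ≤ C) →
      (∀ x, x ∉ Ω → u x = 0) → ∫ x, ‖u x‖ ^ 2 ≤ C ^ 2 * (volume Ω).toReal := by
    intro E _ u C hC hu h0
    have e1 : ∫ x, ‖u x‖ ^ 2 = ∫ x in Ω, ‖u x‖ ^ 2 := by
      rw [← integral_indicator hΩm]
      refine integral_congr_ae (Eventually.of_forall fun x => ?_)
      by_cases hx : x ∈ Ω
      · exact (indicator_of_mem hx (fun x => ‖u x‖ ^ 2)).symm
      · refine Eq.trans ?_ (indicator_of_notMem hx (fun x => ‖u x‖ ^ 2)).symm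
        simp only [h0 x hx, norm_zero]; norm_num
    rw [e1]
    have e2 := norm_setIntegral_le_of_norm_le_const (μ := volume) (s := Ω)
      (f := fun x => ‖u x‖ ^ 2) (C := C ^ 2) hΩb.measure_lt_top (fun x _ => by
        rw [Real.norm_eq_abs, abs_of_nonneg (by positivity)]
        exact pow_le_pow_left₀ (norm_nonneg _) (hu x) 2)
    refine (le_abs_self _).trans ?_
    rw [← Real.norm_eq_abs]
    exact e2
  have i1 := hgen φ c hc0 (fun x => (hc x).1) (fun x hx => (vt_zero_out hφ hx).1)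
  have i2 := hgen (grad φ) (cg n * c) (mul_nonneg (cg_nonneg n) hc0)
    (fun x => (norm_grad_le _ _).trans (mul_le_mul_of_nonneg_left (hc x).2 (cg_nonneg n)))
    (fun x hx => (vt_zero_out hφ hx).2.2)
  calc Real.sqrt ((∫ x, ‖φ x‖ ^ 2) + ∫ x, ‖grad φ x‖ ^ 2)
      ≤ Real.sqrt (c ^ 2 * ((1 + cg n ^ 2) * (volume Ω).toReal)) := by
        refine Real.sqrt_le_sqrt ?_
        calc _ ≤ _ := add_le_add i1 i2
          _ = _ := by ring
    _ = c * Real.sqrt ((1 + cg n ^ 2) * (volume Ω).toReal) := by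
        rw [Real.sqrt_mul (by positivity), Real.sqrt_sq hc0]

theorem mom_final (hΩ : IsOpen Ω) (hΩb : Bornology.IsBounded Ω) {T μ a c : ℝ} (hT : 0 < T)
    {f : ℝ → (Eu n → Eu n) → ℝ} {g : ℝ → ℝ} (hf : IsForce Ω f g) {v0 : Eu n → Eu n}
    (hv0 : MemLp v0 2 volume)
    {τ0 : Eu n → Mt n} {S : ST n → Mt n} {v : ST n → Eu n} {G τ : ST n → Mt n}
    (h : IsSol Ω T μ a c f v0 τ0 S v G τ) {Φ : ST n → Eu n} (hΦ : IsVTest Ω T Φ) :
    (∫ t in Ioo 0 T, ((∫ x in Ω, (inner ℝ (v (t, x)) (fderiv ℝ Φ (t, x) (1, 0)) +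
      inner ℝ (v (t, x)) (fderiv ℝ Φ (t, x) (0, v (t, x))) -
      μ * inner ℝ (G (t, x)) (grad (fun y => Φ (t, y)) x) -
      c * inner ℝ (τ (t, x)) (sy (grad (fun y => Φ (t, y)) x)))) +
      f t (fun x => Φ (t, x)))) + ∫ x in Ω, inner ℝ (v0 x) (Φ (0, x)) = 0 := by
  have hΩm := hΩ.measurableSet
  let q : Fin n → ST n → Eu n := fun j z => v z j • v z - μ • clv j (G z) - c • clv j (sy (τ z))
  have hq : ∀ (z : ST n) (φ : Eu n → Eu n) (x : Eu n), ∑ j, inner ℝ (q j z) (fderiv ℝ φ x (bv j)) =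
      inner ℝ (v z) (fderiv ℝ φ x (v z)) - μ * inner ℝ (G z) (grad φ x) -
        c * inner ℝ (τ z) (sy (grad φ x)) := by
    intro z φ x
    simp only [q, inner_sub_left, Finset.sum_sub_distrib]
    rw [← inner_conv, ← inner_sy_left, inner_grad, inner_grad, Finset.mul_sum, Finset.mul_sum]
    simp only [inner_smul_left, conj_trivial]
  have hsτ : MemLp (fun z => sy (τ z)) 2 volume := (syL n).comp_memLp' h.memτ
  have hqi : ∀ j, IntegrableOn (q j) (Ioo 0 T ×ˢ Ω) volume := by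
    intro j
    have h1 := (coord_smul_int h.vel.memv h.vel.memv j).integrableOn (s := Ioo 0 T ×ˢ Ω)
    have h2 : IntegrableOn (fun z => clv j (G z)) (Ioo 0 T ×ˢ Ω) volume :=
      slab_int hΩb T ((clv j).comp_memLp' h.vel.memG)
    have h3 : IntegrableOn (fun z => clv j (sy (τ z))) (Ioo 0 T ×ˢ Ω) volume :=
      slab_int hΩb T ((clv j).comp_memLp' hsτ)
    exact (h1.sub (h2.smul μ)).sub (h3.smul c)
  have hgi : IntegrableOn g (Ioo 0 T) := by
    have hgm : MemLp g 2 (volume.restrict (Ioo 0 T)) := by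
      rw [memLp_two_iff_integrable_sq hf.gmeas.restrict]
      exact hf.gint T
    haveI : IsFiniteMeasure ((volume : Measure ℝ).restrict (Ioo 0 T)) :=
      ⟨by rw [Measure.restrict_apply_univ, Real.volume_Ioo]; exact ENNReal.ofReal_lt_top⟩
    exact memLp_one_iff_integrable.1 (hgm.mono_exponent (by norm_num))
  haveI : IsFiniteMeasure ((volume : Measure (Eu n)).restrict Ω) :=
    ⟨by rw [Measure.restrict_apply_univ]; exact hΩb.measure_lt_top⟩
  have hu0 : IntegrableOn v0 Ω volume :=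
    memLp_one_iff_integrable.1 ((hv0.restrict Ω).mono_exponent (by norm_num))
  set B := Real.sqrt ((1 + cg n ^ 2) * (volume Ω).toReal) with hB
  have main := gt_gen (Ω := Ω) hT (PV Ω) (fun φ hφ => ⟨hφ.smooth, hφ.cpt⟩)
    (p := v) (q0 := fun _ => 0) (q := q)
    (slab_int hΩb T h.vel.memv) integrableOn_zero hqi
    (ℓ := f) (fun t φ hφ ψ hψ => hf.add t φ ψ hφ hψ) (fun t r φ hφ => hf.smul t r φ hφ)
    (k0 := fun t => g t * B) (fun t => mul_nonneg (hf.gnn t) (Real.sqrt_nonneg _))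
    (hgi.mul_const B)
    (fun φ hφ c' hc' t _ => by
      refine (hf.bound t φ hφ).trans ?_
      have h1 := mul_le_mul_of_nonneg_left (h1_bound hΩm hΩb hφ hc') (hf.gnn t)
      calc _ ≤ _ := h1
        _ = g t * B * c' := by rw [hB]; ring)
    (fun φ hφ => (hf.meas φ hφ).restrict)
    (u0 := v0) hu0 ?_ Φ hΦ.smooth hΦ.cpt (fun z hz => (hΦ.supp hz).1)
    (fun t => vtest_slice hΦ t) (fun t => vtest_dt_slice hΦ t)
  · refine Eq.trans ?_ main
    congr 1
    refine integral_congr_ae (Eventually.of_forall fun t => ?_)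
    simp only
    congr 1
    refine integral_congr_ae (Eventually.of_forall fun x => ?_)
    simp only [prg, inner_zero_left, zero_add, hq]
    rw [slice_fderiv hΦ.smooth]
    ring
  · intro η hη φ hφ
    have h1 := h.mom η φ hη hφ
    have e1 : ∫ z in Ioo 0 T ×ˢ Ω, (deriv η z.1 * inner ℝ (v z) (φ z.2) +
        η z.1 * prg (fun _ => 0) q φ z.1 z.2) =
        ∫ z : ST n, (deriv η z.1 * inner ℝ (v z) (φ z.2) +
      η z.1 * (inner ℝ (v z) (fderiv ℝ φ z.2 (v z)) - μ * inner ℝ (G z) (grad φ z.2) -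
        c * inner ℝ (τ z) (sy (grad φ z.2)))) := by
      refine int_slab_eq hΩm ?_ ?_
      · filter_upwards [(h.vel.zero_out hΩm).1, (h.vel.zero_out hΩm).2] with z hz1 hz2 hz
        have hs0 : sy (0 : Mt n) = 0 := (syL n).map_zero
        by_cases hx : z.2 ∈ Ω
        · have ht : z.1 ∉ Ioo 0 T := fun hc => hz ⟨hc, hx⟩
          simp only [hz1 (Or.inl ht), hz2 (Or.inl ht), h.supτ z ht, inner_zero_left, mul_zero,
            sub_zero, add_zero]
        · obtain ⟨k1, k2, k3⟩ := vt_zero_out hφ hx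
          simp only [k1, k2, k3, hs0, inner_zero_right, mul_zero, _root_.zero_apply, sub_zero,
            add_zero]
      · intro z _
        simp only [prg, inner_zero_left, zero_add, Prod.mk.eta, hq]
    have e2 : ∫ x in Ω, inner ℝ (v0 x) (φ x) = ∫ x, inner ℝ (v0 x) (φ x) := by
      rw [← integral_indicator hΩm]
      refine integral_congr_ae (Eventually.of_forall fun x => ?_)
      by_cases hx : x ∈ Ω
      · rw [indicator_of_mem hx]
      · rw [indicator_of_notMem hx]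
        simp only [(vt_zero_out hφ hx).1, inner_zero_right]
    rw [e1, e2]
    exact h1

end Pool.Agent.Helper42.Jef
end

section
/-! # The constitutive law with general test functions -/

open MeasureTheory Set Filter Topology
open scoped ENNReal NNReal ContDiff

namespace Pool.Agent.Helper42.Jef

set_option maxHeartbeats 1000000

variable {n : ℕ} {Ω : Set (Eu n)}

theorem pm_zero_out {φ : Eu n → Mt n} (h : φ ∈ PM Ω) {x : Eu n} (hx : x ∉ Ω) :
    φ x = 0 ∧ fderiv ℝ φ x = 0 := by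
  have h1 : x ∉ tsupport φ := fun hc => hx (h.2.2 hc)
  refine ⟨image_eq_zero_of_notMem_tsupport h1, ?_⟩
  have : x ∉ tsupport (fderiv ℝ φ) := fun hc => h1 (tsupport_fderiv_subset ℝ hc)
  exact image_eq_zero_of_notMem_tsupport this

/-- stress equation with product test functions with matrix values -/
theorem str_matrix {T μ a c : ℝ} {f : ℝ → (Eu n → Eu n) → ℝ} {v0 : Eu n → Eu n}
    {τ0 : Eu n → Mt n} {S : ST n → Mt n} {v : ST n → Eu n} {G τ : ST n → Mt n}
    (h : IsSol Ω T μ a c f v0 τ0 S v G τ) (hτ0 : MemLp τ0 2 volume) {η : ℝ → ℝ}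
    (hη : IsTime (-1) T η) {ψ : Eu n → Mt n} (hψ : ContDiff ℝ ∞ ψ) (hψc : HasCompactSupport ψ) :
    (∫ z : ST n, (deriv η z.1 * inner ℝ (τ z) (ψ z.2) + η z.1 *
      (inner ℝ (c • sy (G z) - a • τ z - br (τ z) (S z)) (ψ z.2) +
        inner ℝ (τ z) (fderiv ℝ ψ z.2 (v z))))) + η 0 * ∫ x, inner ℝ (τ0 x) (ψ x) = 0 := by
  let ψp : Fin n × Fin n → Eu n → ℝ := fun p x => ψ x p
  have hψp : ∀ p, IsTest (ψp p) := fun p =>
    ⟨(EuclideanSpace.proj (𝕜 := ℝ) p : Mt n →L[ℝ] ℝ).contDiff.comp hψ,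
      hψc.comp_left (g := fun A : Mt n => A p) rfl⟩
  have hfd : ∀ p x w, fderiv ℝ (ψp p) x w = (fderiv ℝ ψ x w) p := by
    intro p x w
    have h1 := ((EuclideanSpace.proj (𝕜 := ℝ) p : Mt n →L[ℝ] ℝ).hasFDerivAt.comp x
      (hψ.differentiable (by simp) x).hasFDerivAt).fderiv
    have h2 : ψp p = (EuclideanSpace.proj (𝕜 := ℝ) p : Mt n →L[ℝ] ℝ) ∘ ψ := rfl
    rw [h2, h1]; rfl
  have hint : ∀ p, Integrable (stI a c v G τ S η (ψp p)) := fun p =>
    stI_int h.vel.memv h.vel.memG h.memτ h.memS hη (hψp p)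
  have hi2 : ∀ p, Integrable (fun x => ψp p x • τ0 x) := fun p =>
    smul_int2 (memLp_cc (hψp p).smooth.continuous (hψp p).cpt 2) hτ0
  have hp : ∀ p, (∫ z, (stI a c v G τ S η (ψp p) z) p) + η 0 * ∫ x, ψp p x * τ0 x p = 0 := by
    intro p
    have h1 : (∫ z, stI a c v G τ S η (ψp p) z) + η 0 • ∫ x, ψp p x • τ0 x = 0 :=
      h.str η (ψp p) hη (hψp p)
    have h2 := congrArg (EuclideanSpace.proj (𝕜 := ℝ) p : Mt n →L[ℝ] ℝ) h1
    rw [map_add, map_smul, map_zero,
      ← (EuclideanSpace.proj (𝕜 := ℝ) p : Mt n →L[ℝ] ℝ).integral_comp_comm (hint p),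
      ← (EuclideanSpace.proj (𝕜 := ℝ) p : Mt n →L[ℝ] ℝ).integral_comp_comm (hi2 p)] at h2
    exact h2
  have hsum : ∑ p, ((∫ z, (stI a c v G τ S η (ψp p) z) p) + η 0 * ∫ x, ψp p x * τ0 x p) = 0 :=
    Finset.sum_eq_zero fun p _ => hp p
  rw [Finset.sum_add_distrib, ← Finset.mul_sum, ← integral_finsetSum, ← integral_finsetSum] at hsum
  · refine Eq.trans ?_ hsum
    congr 1
    · refine integral_congr_ae (Eventually.of_forall fun z => ?_)
      have e1 : ∀ p, (stI a c v G τ S η (ψp p) z) p =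
          (deriv η z.1 * ψ z.2 p + η z.1 * (fderiv ℝ ψ z.2 (v z)) p) * τ z p +
          (η z.1 * ψ z.2 p) * (c • sy (G z) - a • τ z - br (τ z) (S z)) p := by
        intro p
        have r1 : (stI a c v G τ S η (ψp p) z) p =
          (deriv η z.1 * ψp p z.2 + η z.1 * fderiv ℝ (ψp p) z.2 (v z)) * τ z p +
          (η z.1 * ψp p z.2) * (c • sy (G z) - a • τ z - br (τ z) (S z)) p := rfl
        rw [r1, hfd]
      simp only [e1, PiLp.inner_apply, RCLike.inner_apply, conj_trivial]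
      rw [← Finset.sum_add_distrib, Finset.mul_sum, Finset.mul_sum, ← Finset.sum_add_distrib]
      refine Finset.sum_congr rfl fun p _ => ?_
      ring
  · intro p _
    exact (EuclideanSpace.proj (𝕜 := ℝ) p : Mt n →L[ℝ] ℝ).integrable_comp (hi2 p)
  · intro p _
    exact (EuclideanSpace.proj (𝕜 := ℝ) p : Mt n →L[ℝ] ℝ).integrable_comp (hint p)

theorem law_final (hΩ : IsOpen Ω) (hΩb : Bornology.IsBounded Ω) {T μ a c : ℝ} (hT : 0 < T)
    {f : ℝ → (Eu n → Eu n) → ℝ} {v0 : Eu n → Eu n}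
    {τ0 : Eu n → Mt n} (hτ0 : MemLp τ0 2 volume) {S : ST n → Mt n} {v : ST n → Eu n}
    {G τ : ST n → Mt n} (h : IsSol Ω T μ a c f v0 τ0 S v G τ) {Ψ : ST n → Mt n}
    (hΨ : IsMTest Ω T Ψ) :
    (∫ t in Ioo 0 T, ∫ x in Ω, (inner ℝ (τ (t, x)) (fderiv ℝ Ψ (t, x) (1, 0)) +
      inner ℝ (τ (t, x)) (fderiv ℝ Ψ (t, x) (0, v (t, x))) +
      inner ℝ (c • sy (G (t, x)) - a • τ (t, x) - br (τ (t, x)) (S (t, x))) (Ψ (t, x)))) +
      ∫ x in Ω, inner ℝ (τ0 x) (Ψ (0, x)) = 0 := by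
  have hΩm := hΩ.measurableSet
  let q : Fin n → ST n → Mt n := fun j z => v z j • τ z
  let q0 : ST n → Mt n := fun z => c • sy (G z) - a • τ z - br (τ z) (S z)
  have hq : ∀ (z : ST n) (φ : Eu n → Mt n) (x : Eu n), ∑ j, inner ℝ (q j z) (fderiv ℝ φ x (bv j)) =
      inner ℝ (τ z) (fderiv ℝ φ x (v z)) := by
    intro z φ x
    rw [inner_conv]
  have hsG : MemLp (fun z => sy (G z)) 2 volume := (syL n).comp_memLp' h.vel.memG
  have hbr : Integrable (fun z => br (τ z) (S z)) volume := by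
    have h2 : Integrable (fun x => ‖τ x‖ * ‖S x‖) volume := h.memτ.norm.integrable_mul h.memS.norm
    refine (h2.const_mul 2).mono' ((brL n).aestronglyMeasurable_comp₂ h.memτ.1 h.memS.1)
      (Eventually.of_forall fun x => norm_br_le _ _)
  have hq0i : IntegrableOn q0 (Ioo 0 T ×ˢ Ω) volume :=
    (((slab_int hΩb T hsG).smul c).sub ((slab_int hΩb T h.memτ).smul a)).sub hbr.integrableOn
  have hqi : ∀ j, IntegrableOn (q j) (Ioo 0 T ×ˢ Ω) volume := fun j =>
    (coord_smul_int h.vel.memv h.memτ j).integrableOn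
  haveI : IsFiniteMeasure ((volume : Measure (Eu n)).restrict Ω) :=
    ⟨by rw [Measure.restrict_apply_univ]; exact hΩb.measure_lt_top⟩
  have hu0 : IntegrableOn τ0 Ω volume :=
    memLp_one_iff_integrable.1 ((hτ0.restrict Ω).mono_exponent (by norm_num))
  have main := gt_gen (Ω := Ω) hT (PM Ω) (fun φ hφ => ⟨hφ.1, hφ.2.1⟩)
    (p := τ) (q0 := q0) (q := q) (slab_int hΩb T h.memτ) hq0i hqi
    (ℓ := fun _ _ => 0) (fun t φ _ ψ _ => by simp) (fun t r φ _ => by simp)
    (k0 := fun _ => 0) (fun t => le_rfl) integrableOn_zero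
    (fun φ _ c' _ t _ => by simp) (fun φ _ => aestronglyMeasurable_const)
    (u0 := τ0) hu0 ?_ Ψ hΨ.smooth hΨ.cpt (fun z hz => (hΨ.supp hz).1)
    (fun t => mtest_slice hΨ t) (fun t => mtest_dt_slice hΨ t)
  · refine Eq.trans ?_ main
    congr 1
    refine integral_congr_ae (Eventually.of_forall fun t => ?_)
    simp only [add_zero]
    refine integral_congr_ae (Eventually.of_forall fun x => ?_)
    simp only [prg, hq, q0]
    rw [slice_fderiv hΨ.smooth]
    ring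
  · intro η hη φ hφ
    have h1 := str_matrix h hτ0 hη hφ.1 hφ.2.1
    have e1 : ∫ z in Ioo 0 T ×ˢ Ω, (deriv η z.1 * inner ℝ (τ z) (φ z.2) +
        η z.1 * prg q0 q φ z.1 z.2) =
        ∫ z : ST n, (deriv η z.1 * inner ℝ (τ z) (φ z.2) + η z.1 *
      (inner ℝ (c • sy (G z) - a • τ z - br (τ z) (S z)) (φ z.2) +
        inner ℝ (τ z) (fderiv ℝ φ z.2 (v z)))) := by
      refine int_slab_eq hΩm ?_ ?_
      · filter_upwards [(h.vel.zero_out hΩm).2] with z hz2 hz
        have hs0 : sy (0 : Mt n) = 0 := (syL n).map_zero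
        by_cases hx : z.2 ∈ Ω
        · have ht : z.1 ∉ Ioo 0 T := fun hc => hz ⟨hc, hx⟩
          simp only [hz2 (Or.inl ht), h.supτ z ht, hs0, smul_zero, br_zero_left, sub_zero,
            inner_zero_left, mul_zero, add_zero]
        · obtain ⟨k1, k2⟩ := pm_zero_out hφ hx
          simp only [k1, k2, inner_zero_right, mul_zero, _root_.zero_apply, add_zero]
      · intro z _
        simp only [prg, Prod.mk.eta, hq, q0]
    have e2 : ∫ x in Ω, inner ℝ (τ0 x) (φ x) = ∫ x, inner ℝ (τ0 x) (φ x) := by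
      rw [← integral_indicator hΩm]
      refine integral_congr_ae (Eventually.of_forall fun x => ?_)
      by_cases hx : x ∈ Ω
      · rw [indicator_of_mem hx]
      · rw [indicator_of_notMem hx]
        simp only [(pm_zero_out hφ hx).1, inner_zero_right]
    rw [e1, e2]
    simp only [mul_zero, integral_zero, add_zero]
    exact h1

end Pool.Agent.Helper42.Jef
end
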