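import Pool.Agent.Helper42.JefB.H2
import Pool.Agent.Helper42.JefB.H1
import Pool.Agent.Helper42.JefStmt.Defs

section
/-! # Forces and slices -/

open MeasureTheory Set Filter Topology
open scoped ENNReal NNReal ContDiff

namespace Pool.Agent.Helper42.Jef

open Pool.Agent.Helper44.Diag

set_option maxHeartbeats 1000000

variable {n : ℕ} {Ω : Set (Eu n)}

theorem dual_norm_cont {H : Type*} [NormedAddCommGroup H] [InnerProductSpace ℝ H]
    (V : Submodule ℝ H) : Continuous (fun f : StrongDual ℝ V => ‖f‖) := by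
  have := @continuous_norm (StrongDual ℝ V)
    (inferInstance : SeminormedAddCommGroup (StrongDual ℝ V)).toSeminormedAddGroup
  exact this

theorem toVV_add {φ ψ : Eu n → Eu n} (h : IsVT Ω φ) (h' : IsVT Ω ψ) :
    toVV (h.add h') = toVV h + toVV h' := by
  apply Subtype.ext
  show toPair (h.add h') = toPair h + toPair h'
  have e1 : (vt_memLp (h.add h')).toLp (φ + ψ) = (vt_memLp h).toLp φ + (vt_memLp h').toLp ψ :=
    MemLp.toLp_add (vt_memLp h) (vt_memLp h')
  have e2 : (vt_grad_memLp (h.add h')).toLp (grad (φ + ψ)) =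
      (vt_grad_memLp h).toLp (grad φ) + (vt_grad_memLp h').toLp (grad ψ) := by
    rw [← MemLp.toLp_add]
    refine MemLp.toLp_congr _ _ (Eventually.of_forall fun x => ?_)
    exact grad_add h.diff h'.diff x
  simp only [toPair]
  rw [e1, e2]
  rfl

theorem toVV_smul {φ : Eu n → Eu n} (h : IsVT Ω φ) (r : ℝ) :
    toVV (h.smul r) = r • toVV h := by
  apply Subtype.ext
  show toPair (h.smul r) = r • toPair h
  have e1 : (vt_memLp (h.smul r)).toLp (r • φ) = r • (vt_memLp h).toLp φ :=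
    MemLp.toLp_const_smul r (vt_memLp h)
  have e2 : (vt_grad_memLp (h.smul r)).toLp (grad (r • φ)) =
      r • (vt_grad_memLp h).toLp (grad φ) := by
    rw [← MemLp.toLp_const_smul]
    refine MemLp.toLp_congr _ _ (Eventually.of_forall fun x => ?_)
    exact grad_smul h.diff r x
  simp only [toPair]
  rw [e1, e2]
  rfl

theorem norm_toVV_le {φ : Eu n → Eu n} (h : IsVT Ω φ) :
    ‖toVV h‖ ≤ Real.sqrt ((∫ x, ‖φ x‖ ^ 2) + ∫ x, ‖grad φ x‖ ^ 2) := by
  have h0 : ‖toVV h‖ = ‖toPair h‖ := rfl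
  rw [h0, WithLp.prod_norm_eq_of_L2]
  refine Real.sqrt_le_sqrt ?_
  have e1 : ‖(toPair h).fst‖ ^ 2 = ∫ x in Ω, ‖φ x‖ ^ 2 := by
    have : (toPair h).fst = (vt_memLp h).toLp φ := rfl
    rw [this, Lp.norm_toLp, toReal_eLpNorm_sq (vt_memLp h)]
  have e2 : ‖(toPair h).snd‖ ^ 2 = ∫ x in Ω, ‖grad φ x‖ ^ 2 := by
    have : (toPair h).snd = (vt_grad_memLp h).toLp (grad φ) := rfl
    rw [this, Lp.norm_toLp, toReal_eLpNorm_sq (vt_grad_memLp h)]
  rw [e1, e2]
  have i1 : Integrable (fun x => ‖φ x‖ ^ 2) := by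
    have := (memLp_cc h.smooth.continuous h.cpt 2).norm.integrable_sq
    exact this
  have i2 : Integrable (fun x => ‖grad φ x‖ ^ 2) := by
    have := (memLp_cc h.grad_cont h.grad_cpt 2).norm.integrable_sq
    exact this
  exact add_le_add (setIntegral_le_integral i1 (Eventually.of_forall fun x => by positivity))
    (setIntegral_le_integral i2 (Eventually.of_forall fun x => by positivity))

/-- the force functional associated with `f : ℝ → V*` -/
theorem force_of_dual {f : ℝ → VDual Ω} (hf : AEStronglyMeasurable f (volume.restrict (Ioi 0)))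
    (hfi : ∀ T : ℝ, 0 < T → IntegrableOn (fun t => ‖f t‖ ^ 2) (Ioo 0 T)) :
    IsForce Ω (fun t φ => pairV Ω ((Ioi (0:ℝ)).indicator f t) φ)
      (fun t => ‖(Ioi (0:ℝ)).indicator f t‖) where
  add := by
    intro t φ ψ hφ hψ
    simp only [pairV, dif_pos hφ, dif_pos hψ, dif_pos (hφ.add hψ)]
    rw [← map_add, ← toVV_add]
  smul := by
    intro t c φ hφ
    simp only [pairV, dif_pos hφ, dif_pos (hφ.smul c)]
    rw [toVV_smul, map_smul, smul_eq_mul]
  bound := by
    intro t φ hφ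
    simp only [pairV, dif_pos hφ]
    rw [← Real.norm_eq_abs]
    exact (ContinuousLinearMap.le_opNorm _ _).trans
      (mul_le_mul_of_nonneg_left (norm_toVV_le hφ) (ContinuousLinearMap.opNorm_nonneg _))
  meas := by
    intro φ hφ
    simp only [pairV, dif_pos hφ]
    have h1 : AEStronglyMeasurable ((Ioi (0:ℝ)).indicator f) volume :=
      (aestronglyMeasurable_indicator_iff measurableSet_Ioi).2 hf
    exact (ContinuousLinearMap.apply ℝ ℝ (toVV hφ)).continuous.comp_aestronglyMeasurable h1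
  gmeas := (dual_norm_cont (VV Ω)).comp_aestronglyMeasurable
    ((aestronglyMeasurable_indicator_iff measurableSet_Ioi).2 hf)
  gnn := fun t => ContinuousLinearMap.opNorm_nonneg _
  gint := by
    intro T
    rcases le_or_gt T 0 with hT | hT
    · rw [Ioo_eq_empty (not_lt.2 hT)]
      exact integrableOn_empty
    · refine (hfi T hT).congr_fun (fun t ht => ?_) measurableSet_Ioo
      simp only [indicator_of_mem (show t ∈ Ioi (0:ℝ) from ht.1)]

/-- membership in `V` from approximation by test fields -/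
theorem inV_of_approx {u : Eu n → Eu n} {U : Eu n → Mt n} (hu : MemLp u 2 volume)
    (hU : MemLp U 2 volume)
    (h : ∀ ε : ℝ, 0 < ε → ∃ φ, IsVT Ω φ ∧
      eLpNorm (fun x => u x - φ x) 2 volume ≤ ENNReal.ofReal ε ∧
      eLpNorm (fun x => U x - grad φ x) 2 volume ≤ ENNReal.ofReal ε) : InV Ω u U := by
  have hu' : MemLp u 2 (volume.restrict Ω) := hu.restrict Ω
  have hU' : MemLp U 2 (volume.restrict Ω) := hU.restrict Ω
  set p : PairSp Ω := WithLp.toLp 2 (hu'.toLp u, hU'.toLp U) with hp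
  have hpV : p ∈ VV Ω := by
    show p ∈ closure ((Submodule.span ℝ {p : PairSp Ω | ∃ (φ : Eu n → Eu n) (h : IsVT Ω φ),
      p = toPair h} : Submodule ℝ (PairSp Ω)) : Set (PairSp Ω))
    rw [Metric.mem_closure_iff]
    intro ε hε
    obtain ⟨φ, hφ, h1, h2⟩ := h (ε / 4) (by positivity)
    refine ⟨toPair hφ, Submodule.subset_span ⟨φ, hφ, rfl⟩, ?_⟩
    rw [dist_eq_norm, WithLp.prod_norm_eq_of_L2]
    have e1 : ‖(p - toPair hφ).fst‖ ≤ ε / 4 := by
      have : (p - toPair hφ).fst = hu'.toLp u - (vt_memLp hφ).toLp φ := rfl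
      rw [this, ← MemLp.toLp_sub, Lp.norm_toLp]
      refine ENNReal.toReal_le_of_le_ofReal (by positivity) ?_
      exact (eLpNorm_mono_measure _ Measure.restrict_le_self).trans h1
    have e2 : ‖(p - toPair hφ).snd‖ ≤ ε / 4 := by
      have : (p - toPair hφ).snd = hU'.toLp U - (vt_grad_memLp hφ).toLp (grad φ) := rfl
      rw [this, ← MemLp.toLp_sub, Lp.norm_toLp]
      refine ENNReal.toReal_le_of_le_ofReal (by positivity) ?_
      exact (eLpNorm_mono_measure _ Measure.restrict_le_self).trans h2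
    have e3 : ‖(p - toPair hφ).fst‖ ^ 2 + ‖(p - toPair hφ).snd‖ ^ 2 ≤ (ε / 2) ^ 2 := by
      nlinarith [norm_nonneg (p - toPair hφ).fst, norm_nonneg (p - toPair hφ).snd]
    calc Real.sqrt (‖(p - toPair hφ).fst‖ ^ 2 + ‖(p - toPair hφ).snd‖ ^ 2)
        ≤ Real.sqrt ((ε / 2) ^ 2) := Real.sqrt_le_sqrt e3
      _ = ε / 2 := Real.sqrt_sq (by positivity)
      _ < ε := by linarith
  exact ⟨⟨p, hpV⟩, hu'.coeFn_toLp, hU'.coeFn_toLp⟩

theorem rs_slice {E : Type*} [Zero E] {T : ℝ} {t : ℝ} (ht : t ∈ Ioo 0 T) (u : ST n → E)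
    (x : Eu n) : rs T u (t, x) = u (t, x) := rs_mem (z := (t, x)) ht u

theorem meas_of_rs {E : Type*} [NormedAddCommGroup E] {T : ℝ} {u : ST n → E}
    (hΩ : MeasurableSet Ω) (h : AEStronglyMeasurable (rs T u) volume) :
    AEStronglyMeasurable u (volume.restrict (Ioo 0 T ×ˢ Ω)) := by
  refine (h.restrict (s := Ioo 0 T ×ˢ Ω)).congr ?_
  rw [EventuallyEq, ae_restrict_iff' (measurableSet_Ioo.prod hΩ)]
  exact Eventually.of_forall fun z hz => rs_mem hz.1 u

end Pool.Agent.Helper42.Jef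
end

section
/-! # Global weak solutions, function level -/

open MeasureTheory Set Filter Topology
open scoped ENNReal NNReal ContDiff

namespace Pool.Agent.Helper42.Jef

open Pool.Agent.Helper44.Diag

set_option maxHeartbeats 2000000

variable {n : ℕ} {Ω : Set (Eu n)}

/-- vector level weak solutions, with force functional `F` -/
structure WS (Ω : Set (Eu n)) (η lam1 lam2 : ℝ) (F : ℝ → (Eu n → Eu n) → ℝ)
    (v0 : Eu n → Eu n) (τ0 : Eu n → Mt n) (T : ℝ)
    (v : ST n → Eu n) (G τ : ST n → Mt n) : Prop where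
  mem_v : MemLp v 2 (volume.restrict (Ioo 0 T ×ˢ Ω))
  mem_G : MemLp G 2 (volume.restrict (Ioo 0 T ×ˢ Ω))
  mem_τ : MemLp τ 2 (volume.restrict (Ioo 0 T ×ˢ Ω))
  slices : ∀ᵐ t : ℝ, t ∈ Ioo 0 T → MemLp (fun x => v (t, x)) 2 volume ∧
    MemLp (fun x => G (t, x)) 2 volume ∧
    ∀ ε : ℝ, 0 < ε → ∃ φ, IsVT Ω φ ∧
      eLpNorm (fun x => v (t, x) - φ x) 2 volume ≤ ENNReal.ofReal ε ∧
      eLpNorm (fun x => G (t, x) - grad φ x) 2 volume ≤ ENNReal.ofReal ε
  bd_v : ∃ C : ℝ, ∀ᵐ t : ℝ, t ∈ Ioo 0 T → ∫⁻ x in Ω, ‖v (t, x)‖ₑ ^ 2 ≤ ENNReal.ofReal C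
  bd_τ : ∃ C : ℝ, ∀ᵐ t : ℝ, t ∈ Ioo 0 T → ∫⁻ x in Ω, ‖τ (t, x)‖ₑ ^ 2 ≤ ENNReal.ofReal C
  symm : ∀ z : ST n, tr (τ z) = τ z
  mom : ∀ Φ : ST n → Eu n, IsVTest Ω T Φ →
    (∫ t in Ioo 0 T, ((∫ x in Ω, (inner ℝ (v (t, x)) (fderiv ℝ Φ (t, x) (1, 0)) +
      inner ℝ (v (t, x)) (fderiv ℝ Φ (t, x) (0, v (t, x))) -
      η * lam2 / lam1 * inner ℝ (G (t, x)) (grad (fun y => Φ (t, y)) x) -
      inner ℝ (τ (t, x)) (grad (fun y => Φ (t, y)) x))) +
      F t (fun x => Φ (t, x)))) +
    ∫ x in Ω, inner ℝ (v0 x) (Φ (0, x)) = 0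
  law : ∀ Ψ : ST n → Mt n, IsMTest Ω T Ψ →
    (∫ t in Ioo 0 T, ∫ x in Ω, (inner ℝ (τ (t, x)) (Ψ (t, x)) -
      lam1 * inner ℝ (τ (t, x)) (fderiv ℝ Ψ (t, x) (1, 0)) -
      lam1 * inner ℝ (τ (t, x)) (fderiv ℝ Ψ (t, x) (0, v (t, x))) +
      lam1 * inner ℝ (br (τ (t, x)) (sp (G (t, x)))) (Ψ (t, x)) -
      2 * η * (1 - lam2 / lam1) * inner ℝ (sy (G (t, x))) (Ψ (t, x)))) -
    lam1 * ∫ x in Ω, inner ℝ (τ0 x) (Ψ (0, x)) = 0

theorem memLp_of_rs {E : Type*} [NormedAddCommGroup E] {T : ℝ} {u : ST n → E}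
    (hΩ : MeasurableSet Ω) (h : MemLp (rs T u) 2 volume) :
    MemLp u 2 (volume.restrict (Ioo 0 T ×ˢ Ω)) := by
  refine (h.restrict (Ioo 0 T ×ˢ Ω)).ae_eq ?_
  rw [EventuallyEq, ae_restrict_iff' (measurableSet_Ioo.prod hΩ)]
  exact Eventually.of_forall fun z hz => rs_mem hz.1 u

theorem core (hΩ : IsOpen Ω) (hΩb : Bornology.IsBounded Ω) {η lam1 lam2 : ℝ} (hη : 0 < η)
    (hlam2 : 0 < lam2) (hlam : lam2 < lam1) {v0 : Eu n → Eu n}
    (hv0 : MemLp v0 2 (volume.restrict Ω)) {τ0 : Eu n → Mt n}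
    (hτ0 : MemLp τ0 2 (volume.restrict Ω))
    (hsym : ∀ᵐ x ∂(volume.restrict Ω), tr (τ0 x) = τ0 x)
    {F : ℝ → (Eu n → Eu n) → ℝ} {g : ℝ → ℝ} (hF : IsForce Ω F g) :
    ∃ (v : ST n → Eu n) (G τ : ST n → Mt n), ∀ T : ℝ, 0 < T →
      WS Ω η lam1 lam2 F v0 τ0 T v G τ := by
  have hlam1 : 0 < lam1 := hlam2.trans hlam
  have hΩm := hΩ.measurableSet
  set μ := η * lam2 / lam1 with hμdef
  set a := 1 / lam1 with hadef
  set b := 2 * η * (1 - lam2 / lam1) / lam1 with hbdef
  have hμ : 0 < μ := by positivity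
  have ha : 0 ≤ a := by positivity
  have hb : 0 < b := by
    have h1 : 0 < 1 - lam2 / lam1 := by
      rw [sub_pos, div_lt_one hlam1]; exact hlam
    positivity
  set c := Real.sqrt b with hcdef
  have hc : 0 < c := Real.sqrt_pos.2 hb
  have hcc : c * c = b := Real.mul_self_sqrt hb.le
  set v0' : Eu n → Eu n := Ω.indicator v0 with hv0'
  set τ0' : Eu n → Mt n := fun x => c⁻¹ • Ω.indicator τ0 x with hτ0'
  have mv0 : MemLp v0' 2 volume := (memLp_indicator_iff_restrict hΩm).2 hv0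
  have mτ0 : MemLp τ0' 2 volume :=
    ((memLp_indicator_iff_restrict hΩm).2 hτ0).const_smul c⁻¹
  have hsym' : ∀ᵐ x, tr (τ0' x) = τ0' x := by
    rw [ae_restrict_iff' hΩm] at hsym
    filter_upwards [hsym] with x hx
    simp only [hτ0', tr_smul]
    congr 1
    by_cases hxΩ : x ∈ Ω
    · rw [indicator_of_mem hxΩ]; exact hx hxΩ
    · rw [indicator_of_notMem hxΩ]; exact (trL n).map_zero
  obtain ⟨v, G, τ, hglob⟩ := glob_rescaled (strongConv n) hΩ hΩb hμ ha
    (Pool.Agent.Helper41.Jef.reprStar n hμ c) hF mv0 mτ0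
  refine ⟨v, G, fun z => c • sy (τ z), fun T hT => ?_⟩
  obtain ⟨hsol, ⟨M1, hLB1⟩, ⟨M2, hLB2⟩⟩ := hglob T hT
  have hspa : ∀ z : ST n, tr (sp (rs T G z)) = - sp (rs T G z) := fun z => tr_sp _
  have hs := hsol.symm hspa mτ0 hsym'
  refine
    { mem_v := memLp_of_rs hΩm hsol.vel.memv
      mem_G := memLp_of_rs hΩm hsol.vel.memG
      mem_τ := ((syL n).comp_memLp' (memLp_of_rs hΩm hsol.memτ)).const_smul c
      slices := ?_
      bd_v := ?_
      bd_τ := ?_
      symm := ?_
      mom := ?_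
      law := ?_ }
  · -- slices
    filter_upwards [Pool.Agent.Helper50.JS.vel_slices hsol.vel] with t ht htT
    have h1 := And.intro ht.1 (And.intro ht.2.1 ht.2.2)
    simpa only [rs_slice htT] using h1
  · -- bound of v
    refine ⟨M1, ?_⟩
    filter_upwards [Pool.Agent.Helper50.JS.slices_bound hsol.vel.memv.1 hLB1] with t ht htT
    refine (setLIntegral_le_lintegral _ _).trans ?_
    simpa only [rs_slice htT] using ht htT
  · -- bound of τ
    refine ⟨c ^ 2 * M2, ?_⟩
    filter_upwards [Pool.Agent.Helper50.JS.slices_bound hsol.memτ.1 hLB2] with t ht htT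
    refine (setLIntegral_le_lintegral _ _).trans ?_
    have h1 : ∫⁻ x, ‖c • sy (τ (t, x))‖ₑ ^ 2 ≤ ∫⁻ x, ENNReal.ofReal (c ^ 2) * ‖τ (t, x)‖ₑ ^ 2 := by
      refine lintegral_mono fun x => ?_
      rw [← ofReal_norm, ← ofReal_norm, ← ENNReal.ofReal_pow (norm_nonneg _),
        ← ENNReal.ofReal_pow (norm_nonneg _), ← ENNReal.ofReal_mul (by positivity)]
      refine ENNReal.ofReal_le_ofReal ?_
      rw [norm_smul, mul_pow, Real.norm_eq_abs, sq_abs]
      exact mul_le_mul_of_nonneg_left (pow_le_pow_left₀ (norm_nonneg _) (norm_sy_le _) 2)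
        (by positivity)
    refine h1.trans ?_
    rw [lintegral_const_mul' _ _ ENNReal.ofReal_ne_top, ENNReal.ofReal_mul (by positivity)]
    refine mul_le_mul_right ?_ _
    simpa only [rs_slice htT] using ht htT
  · -- symmetry
    intro z
    rw [tr_smul, tr_sy]
  · -- momentum
    intro Φ hΦ
    have h1 := mom_final hΩ hΩb hT hF mv0 hs hΦ
    refine Eq.trans ?_ h1
    congr 1
    · refine setIntegral_congr_fun measurableSet_Ioo fun t ht => ?_
      simp only [rs_slice ht]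
      congr 1
      refine integral_congr_ae (Eventually.of_forall fun x => ?_)
      have e2 : inner ℝ (c • sy (τ (t, x))) (grad (fun y => Φ (t, y)) x) =
          c * inner ℝ (sy (τ (t, x))) (sy (grad (fun y => Φ (t, y)) x)) := by
        rw [inner_smul_left, conj_trivial, ← inner_sy_left, sy_sy]
      simp only [e2, hμdef]
    · refine setIntegral_congr_fun hΩm fun x hx => ?_
      simp only [hv0', indicator_of_mem hx]
  · -- constitutive law
    intro Ψ hΨ
    have h1 := law_final hΩ hΩb hT mτ0 hs hΨ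
    have h2 := congrArg (fun r => (-(lam1 * c)) * r) h1
    simp only [mul_zero, mul_add] at h2
    rw [← integral_const_mul, ← integral_const_mul] at h2
    rw [sub_eq_add_neg]
    refine Eq.trans ?_ h2
    have hla : lam1 * a = 1 := by rw [hadef]; field_simp
    have hlc : lam1 * (c * c) = 2 * η * (1 - lam2 / lam1) := by
      rw [hcc, hbdef]; field_simp
    congr 1
    · refine setIntegral_congr_fun measurableSet_Ioo fun t ht => ?_
      rw [← integral_const_mul]
      refine integral_congr_ae (Eventually.of_forall fun x => ?_)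
      simp only [rs_slice ht]
      set A := sy (τ (t, x))
      set W := sp (G (t, x))
      set E := sy (G (t, x))
      rw [br_smul_left]
      simp only [inner_smul_left, inner_sub_left, conj_trivial]
      linear_combination (c * inner ℝ A (Ψ (t, x))) * hla.symm - (inner ℝ E (Ψ (t, x))) * hlc.symm
    · rw [← integral_const_mul, ← integral_neg]
      refine setIntegral_congr_fun hΩm fun x hx => ?_
      simp only [hτ0', indicator_of_mem hx, inner_smul_left, conj_trivial]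
      field_simp

end Pool.Agent.Helper42.Jef
end

section
/-! # From components to vectors, space level -/

open MeasureTheory Set Filter Topology
open scoped ENNReal NNReal ContDiff

namespace Pool.Agent.Helper42.JefStmt

open Pool.Agent.Helper42.Jef (Eu Mt ST IsVT bv tr sy sp br IsVTest IsMTest)

set_option maxHeartbeats 1000000

variable {n : ℕ} {Ω : Set (Vec n)}

/-- components of a vector valued map -/
def cmp (φ : Eu n → Eu n) : VField n := fun i x => φ x i

/-- entries of a matrix valued map -/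
def cmpM (A : Eu n → Mt n) : MField n := fun i j x => A x (i, j)

theorem pd_cmp {φ : Eu n → Eu n} (h : Differentiable ℝ φ) (i j : Fin n) (x : Eu n) :
    pd j (cmp φ i) x = Pool.Agent.Helper42.Jef.grad φ x (i, j) := by
  have h1 : HasFDerivAt (cmp φ i)
      ((EuclideanSpace.proj (𝕜 := ℝ) i : Eu n →L[ℝ] ℝ).comp (fderiv ℝ φ x)) x :=
    (EuclideanSpace.proj (𝕜 := ℝ) i : Eu n →L[ℝ] ℝ).hasFDerivAt.comp x (h x).hasFDerivAt
  unfold pd
  rw [h1.fderiv]
  rfl

theorem grad_cmp {φ : Eu n → Eu n} (h : Differentiable ℝ φ) :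
    grad (cmp φ) = cmpM (Pool.Agent.Helper42.Jef.grad φ) := by
  funext i j x
  exact pd_cmp h i j x

theorem vt_diff {φ : Eu n → Eu n} (h : IsVT Ω φ) : Differentiable ℝ φ :=
  h.smooth.differentiable (by simp)

theorem test_cmp {φ : Eu n → Eu n} (h : IsVT Ω φ) : IsTestField Ω (cmp φ) where
  smooth := fun i => contDiff_euclidean.1 h.smooth i
  compact := fun i => h.cpt.comp_left (g := fun u : Eu n => u i) rfl
  support := fun i => by
    refine (closure_mono fun x hx => ?_).trans h.supp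
    intro h0
    apply hx
    show φ x i = 0
    rw [h0]
    rfl
  div_free := fun x => by
    have h1 := h.div0 x
    rw [← h1]
    refine Finset.sum_congr rfl fun i _ => ?_
    rw [pd_cmp (vt_diff h)]
    rfl

theorem vec_sq (u : Eu n) : ∑ i, u i ^ 2 = ‖u‖ ^ 2 := by
  rw [EuclideanSpace.norm_sq_eq]
  simp only [Real.norm_eq_abs, sq_abs]

theorem mat_sq (A : Mt n) : ∑ i, ∑ j, A (i, j) ^ 2 = ‖A‖ ^ 2 := by
  rw [EuclideanSpace.norm_sq_eq, Fintype.sum_prod_type]
  simp only [Real.norm_eq_abs, sq_abs]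

theorem sqNorm_cmp (u : Eu n → Eu n) (U : Eu n → Mt n) :
    sqNorm Ω (cmp u) (cmpM U) = ∫ x in Ω, (‖u x‖ ^ 2 + ‖U x‖ ^ 2) := by
  unfold sqNorm cmp cmpM
  simp only [vec_sq, mat_sq]

theorem sqNorm_cmp_zero (u : Eu n → Eu n) :
    sqNorm Ω (cmp u) 0 = ∫ x in Ω, ‖u x‖ ^ 2 := by
  unfold sqNorm cmp
  simp [vec_sq]

theorem sqNorm_zero_cmp (U : Eu n → Mt n) :
    sqNorm Ω 0 (cmpM U) = ∫ x in Ω, ‖U x‖ ^ 2 := by
  unfold sqNorm cmpM
  simp [mat_sq]

theorem memLp_cmp {α : Type*} [MeasurableSpace α] {ν : Measure α} {u : α → Eu n}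
    (h : MemLp u 2 ν) (i : Fin n) : MemLp (fun x => u x i) 2 ν :=
  (EuclideanSpace.proj (𝕜 := ℝ) i : Eu n →L[ℝ] ℝ).comp_memLp' h

theorem memLp_cmpM {α : Type*} [MeasurableSpace α] {ν : Measure α} {U : α → Mt n}
    (h : MemLp U 2 ν) (i j : Fin n) : MemLp (fun x => U x (i, j)) 2 ν :=
  (EuclideanSpace.proj (𝕜 := ℝ) (i, j) : Mt n →L[ℝ] ℝ).comp_memLp' h

theorem memLp_vec {α : Type*} [MeasurableSpace α] {ν : Measure α} {u : Fin n → α → ℝ}
    (h : ∀ i, MemLp (u i) 2 ν) : MemLp (fun x => (WithLp.toLp 2 (fun i => u i x) : Eu n)) 2 ν :=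
  MemLp.of_eval_piLp h

theorem memLp_mat {α : Type*} [MeasurableSpace α] {ν : Measure α} {U : Fin n → Fin n → α → ℝ}
    (h : ∀ i j, MemLp (U i j) 2 ν) :
    MemLp (fun x => (WithLp.toLp 2 (fun p : Fin n × Fin n => U p.1 p.2 x) : Mt n)) 2 ν :=
  MemLp.of_eval_piLp fun p => h p.1 p.2

/-- membership in `V` from approximation by test fields -/
theorem inV_cmp {u : Eu n → Eu n} {U : Eu n → Mt n} (hu : MemLp u 2 volume)
    (hU : MemLp U 2 volume)
    (h : ∀ ε : ℝ, 0 < ε → ∃ φ, IsVT Ω φ ∧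
      eLpNorm (fun x => u x - φ x) 2 volume ≤ ENNReal.ofReal ε ∧
      eLpNorm (fun x => U x - Pool.Agent.Helper42.Jef.grad φ x) 2 volume ≤ ENNReal.ofReal ε) :
    InV Ω (cmp u) (cmpM U) := by
  refine ⟨fun i => memLp_cmp (hu.restrict Ω) i, fun i j => memLp_cmpM (hU.restrict Ω) i j,
    fun ε hε => ?_⟩
  set δ := min 1 (ε / 4) with hδ
  have hδ0 : 0 < δ := lt_min one_pos (by positivity)
  have hδ1 : δ ≤ 1 := min_le_left _ _
  have hδ2 : δ ≤ ε / 4 := min_le_right _ _
  obtain ⟨φ, hφ, h1, h2⟩ := h δ hδ0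
  refine ⟨cmp φ, test_cmp hφ, ?_⟩
  rw [grad_cmp (vt_diff hφ)]
  have e0 : sqNorm Ω (cmp u - cmp φ) (cmpM U - cmpM (Pool.Agent.Helper42.Jef.grad φ)) =
      sqNorm Ω (cmp fun x => u x - φ x)
        (cmpM fun x => U x - Pool.Agent.Helper42.Jef.grad φ x) := rfl
  have m1 : MemLp (fun x => u x - φ x) 2 (volume.restrict Ω) :=
    (hu.restrict Ω).sub (Pool.Agent.Helper42.Jef.vt_memLp hφ)
  have m2 : MemLp (fun x => U x - Pool.Agent.Helper42.Jef.grad φ x) 2 (volume.restrict Ω) :=
    (hU.restrict Ω).sub (Pool.Agent.Helper42.Jef.vt_grad_memLp hφ)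
  rw [e0, sqNorm_cmp, integral_add m1.norm.integrable_sq m2.norm.integrable_sq,
    ← Pool.Agent.Helper42.Jef.toReal_eLpNorm_sq m1, ← Pool.Agent.Helper42.Jef.toReal_eLpNorm_sq m2]
  have k1 : (eLpNorm (fun x => u x - φ x) 2 (volume.restrict Ω)).toReal ≤ δ :=
    ENNReal.toReal_le_of_le_ofReal hδ0.le
      ((eLpNorm_mono_measure _ Measure.restrict_le_self).trans h1)
  have k2 : (eLpNorm (fun x => U x - Pool.Agent.Helper42.Jef.grad φ x) 2
      (volume.restrict Ω)).toReal ≤ δ :=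
    ENNReal.toReal_le_of_le_ofReal hδ0.le
      ((eLpNorm_mono_measure _ Measure.restrict_le_self).trans h2)
  have p1 := pow_le_pow_left₀ ENNReal.toReal_nonneg k1 2
  have p2 := pow_le_pow_left₀ ENNReal.toReal_nonneg k2 2
  have p3 : δ ^ 2 ≤ δ := by nlinarith
  linarith

/-- the vector level force functional -/
theorem force_cmp (hΩm : MeasurableSet Ω) {f : ℝ → VField n → ℝ} (hf : IsForce Ω f) :
    ∃ (F : ℝ → (Eu n → Eu n) → ℝ) (g : ℝ → ℝ), Pool.Agent.Helper42.Jef.IsForce Ω F g ∧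
      ∀ᵐ t ∂(volume.restrict (Ioi (0:ℝ))), ∀ φ : Eu n → Eu n, F t φ = f t (cmp φ) := by
  classical
  obtain ⟨hm, g, hg, hae⟩ := hf
  set S : Set ℝ := {t | 0 < t ∧ InVDual Ω (f t) (g t)} with hS
  have hae' : ∀ᵐ t : ℝ, 0 < t → t ∈ S := by
    rw [ae_restrict_iff' measurableSet_Ioi] at hae
    filter_upwards [hae] with t ht h0
    exact ⟨h0, ht h0⟩
  have hg2 : AEStronglyMeasurable (fun t => g t ^ 2) (volume.restrict (Ioi 0)) := by
    have e : Ioi (0:ℝ) = ⋃ k : ℕ, Ioo (0:ℝ) ((k:ℝ) + 1) := by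
      ext t
      simp only [mem_Ioi, mem_iUnion, mem_Ioo]
      constructor
      · intro ht
        obtain ⟨k, hk⟩ := exists_nat_gt t
        exact ⟨k, ht, by linarith⟩
      · rintro ⟨k, hk, _⟩
        exact hk
    rw [e]
    exact AEStronglyMeasurable.iUnion fun k => (hg ((k:ℝ) + 1) (by positivity)).1
  have hgabs : AEStronglyMeasurable (fun t => |g t|) (volume.restrict (Ioi 0)) := by
    have h1 := Real.continuous_sqrt.comp_aestronglyMeasurable hg2
    refine h1.congr (Eventually.of_forall fun t => ?_)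
    exact Real.sqrt_sq_eq_abs _
  refine ⟨fun t φ => if t ∈ S then f t (cmp φ) else 0,
    (Ioi (0:ℝ)).indicator (fun t => |g t|), ?_, ?_⟩
  · refine
      { add := ?_
        smul := ?_
        bound := ?_
        meas := ?_
        gmeas := ?_
        gnn := ?_
        gint := ?_ }
    · intro t φ ψ hφ hψ
      by_cases ht : t ∈ S
      · simp only [if_pos ht]
        exact ht.2.add _ _ (test_cmp hφ) (test_cmp hψ)
      · simp only [if_neg ht, add_zero]
    · intro t c φ hφ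
      by_cases ht : t ∈ S
      · simp only [if_pos ht]
        exact ht.2.smul c _ (test_cmp hφ)
      · simp only [if_neg ht, mul_zero]
    · intro t φ hφ
      by_cases ht : t ∈ S
      · have ht0 : t ∈ Ioi (0:ℝ) := ht.1
        simp only [if_pos ht, indicator_of_mem ht0]
        refine (ht.2.bound _ (test_cmp hφ)).trans ?_
        refine mul_le_mul (le_abs_self _) (Real.sqrt_le_sqrt ?_) (Real.sqrt_nonneg _)
          (abs_nonneg _)
        rw [grad_cmp (vt_diff hφ), sqNorm_cmp]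
        have i1 : Integrable (fun x => ‖φ x‖ ^ 2) :=
          (Pool.Agent.Helper42.Jef.memLp_cc hφ.smooth.continuous hφ.cpt 2).norm.integrable_sq
        have i2 : Integrable (fun x => ‖Pool.Agent.Helper42.Jef.grad φ x‖ ^ 2) :=
          (Pool.Agent.Helper42.Jef.memLp_cc hφ.grad_cont hφ.grad_cpt 2).norm.integrable_sq
        rw [integral_add i1.integrableOn i2.integrableOn]
        exact add_le_add (setIntegral_le_integral i1 (Eventually.of_forall fun x => by positivity))
          (setIntegral_le_integral i2 (Eventually.of_forall fun x => by positivity))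
      · simp only [if_neg ht, abs_zero]
        exact mul_nonneg (indicator_nonneg (fun _ _ => abs_nonneg _) _) (Real.sqrt_nonneg _)
    · intro φ hφ
      have h1 : AEStronglyMeasurable ((Ioi (0:ℝ)).indicator fun t => f t (cmp φ)) volume :=
        (aestronglyMeasurable_indicator_iff measurableSet_Ioi).2 (hm _ (test_cmp hφ))
      refine h1.congr ?_
      filter_upwards [hae'] with t ht
      by_cases h0 : 0 < t
      · have h0' : t ∈ Ioi (0:ℝ) := h0
        rw [indicator_of_mem h0', if_pos (ht h0)]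
      · have h0' : t ∉ Ioi (0:ℝ) := h0
        have h0'' : t ∉ S := fun hc => h0 hc.1
        rw [indicator_of_notMem h0', if_neg h0'']
    · exact (aestronglyMeasurable_indicator_iff measurableSet_Ioi).2 hgabs
    · exact fun t => indicator_nonneg (fun _ _ => abs_nonneg _) _
    · intro T
      rcases le_or_gt T 0 with hT | hT
      · rw [Ioo_eq_empty (not_lt.2 hT)]
        exact integrableOn_empty
      · refine (hg T hT).congr_fun (fun t ht => ?_) measurableSet_Ioo
        simp only [indicator_of_mem (show t ∈ Ioi (0:ℝ) from ht.1), sq_abs]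
  · rw [ae_restrict_iff' measurableSet_Ioi]
    filter_upwards [hae'] with t ht h0 φ
    exact if_pos (ht h0)

end Pool.Agent.Helper42.JefStmt
end

section
/-! # Global weak solutions of the corotational Jeffreys system -/

open MeasureTheory Set Filter Topology
open scoped ENNReal NNReal ContDiff

namespace Pool.Agent.Helper42.JefStmt

open Pool.Agent.Helper42.Jef (Eu Mt ST IsVT bv tr sy sp br IsVTest IsMTest)

set_option maxHeartbeats 1000000

variable {n : ℕ} {Ω : Set (Vec n)}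

section slices

variable {E : Type*} [NormedAddCommGroup E] [NormedSpace ℝ E]

theorem time_deriv {Φ : ST n → E} (hΦ : ContDiff ℝ ∞ Φ) (t : ℝ) (x : Eu n) :
    HasDerivAt (fun s => Φ (s, x)) (fderiv ℝ Φ (t, x) (1, 0)) t := by
  have h1 : HasFDerivAt Φ (fderiv ℝ Φ (t, x)) (t, x) :=
    (hΦ.differentiable (by simp) (t, x)).hasFDerivAt
  have h2 : HasDerivAt (fun s : ℝ => (s, x)) ((1 : ℝ), (0 : Eu n)) t :=
    (hasDerivAt_id t).prodMk (hasDerivAt_const t x)
  exact h1.comp_hasDerivAt t h2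

end slices

/-- space-time vector field from components -/
noncomputable def vecST (Φ : ℝ → VField n) : ST n → Eu n :=
  fun z => WithLp.toLp 2 (fun i => Φ z.1 i z.2)

theorem vtest_vecST {T : ℝ} {Φ : ℝ → VField n} (h : IsTestV Ω T Φ) :
    IsVTest Ω T (vecST Φ) := by
  have hs : ContDiff ℝ ∞ (vecST Φ) := contDiff_euclidean.2 fun i => (h.1 i).smooth
  have hsub : Function.support (vecST Φ) ⊆
      ⋃ i, tsupport (fun z : ℝ × Vec n => Φ z.1 i z.2) := by
    intro z hz
    by_contra hc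
    apply hz
    simp only [mem_iUnion, not_exists] at hc
    show vecST Φ z = 0
    ext i
    show Φ z.1 i z.2 = 0
    exact image_eq_zero_of_notMem_tsupport (f := fun z : ℝ × Vec n => Φ z.1 i z.2) (hc i)
  have hcl : IsClosed (⋃ i, tsupport (fun z : ℝ × Vec n => Φ z.1 i z.2)) :=
    isClosed_iUnion_of_finite fun i => isClosed_tsupport _
  refine ⟨hs, ?_, ?_, ?_⟩
  · exact HasCompactSupport.of_support_subset_isCompact
      (isCompact_iUnion fun i => (h.1 i).compact) hsub
  · exact (closure_minimal hsub hcl).trans (iUnion_subset fun i => (h.1 i).support)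
  · intro t x
    rw [← h.2 t x]
    refine Finset.sum_congr rfl fun i _ => ?_
    have h1 := pd_cmp ((Pool.Agent.Helper42.Jef.slice_smooth hs t).differentiable (by simp)) i i x
    have h2 : cmp (fun y => vecST Φ (t, y)) i = Φ t i := rfl
    rw [h2] at h1
    rw [h1]
    rfl

/-- space-time matrix field with a single entry -/
noncomputable def matST (ψ : ℝ → Vec n → ℝ) (i j : Fin n) : ST n → Mt n :=
  fun z => ψ z.1 z.2 • EuclideanSpace.single (i, j) (1 : ℝ)

theorem mtest_matST {T : ℝ} {ψ : ℝ → Vec n → ℝ} (h : IsTest Ω T ψ) (i j : Fin n) :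
    IsMTest Ω T (matST ψ i j) := by
  have hsub : Function.support (matST ψ i j) ⊆
      Function.support (fun z : ℝ × Vec n => ψ z.1 z.2) := by
    intro z hz hc
    apply hz
    have hc' : ψ z.1 z.2 = 0 := hc
    show ψ z.1 z.2 • EuclideanSpace.single (i, j) (1 : ℝ) = 0
    rw [hc', zero_smul]
  refine ⟨h.smooth.smul contDiff_const, ?_, ?_⟩
  · exact h.compact.mono hsub
  · exact (closure_mono hsub).trans h.support

theorem inner_vec (u w : Eu n) : inner ℝ u w = ∑ i, u i * w i := by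
  rw [PiLp.inner_apply]
  refine Finset.sum_congr rfl fun i _ => ?_
  simp only [RCLike.inner_apply, conj_trivial]
  ring

theorem inner_mat (A B : Mt n) : inner ℝ A B = ∑ i, ∑ j, A (i, j) * B (i, j) := by
  rw [PiLp.inner_apply, Fintype.sum_prod_type]
  refine Finset.sum_congr rfl fun i _ => Finset.sum_congr rfl fun j _ => ?_
  simp only [RCLike.inner_apply, conj_trivial]
  ring

theorem inner_entry (A : Mt n) (r : ℝ) (i j : Fin n) :
    inner ℝ A (r • EuclideanSpace.single (i, j) (1 : ℝ)) = A (i, j) * r := by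
  rw [inner_smul_right, EuclideanSpace.inner_single_right]
  simp only [conj_trivial]
  ring

theorem pd_slice {ψ : ℝ → Vec n → ℝ} (h : ContDiff ℝ ∞ (fun z : ℝ × Vec n => ψ z.1 z.2)) (t : ℝ)
    (x w : Vec n) : fderiv ℝ (fun z : ℝ × Vec n => ψ z.1 z.2) (t, x) (0, w) =
      ∑ k, w k * pd k (ψ t) x := by
  rw [← Pool.Agent.Helper42.Jef.slice_fderiv h t x w]
  conv_lhs => rw [Pool.Agent.Helper42.Jef.vec_sum w]
  rw [map_sum]
  refine Finset.sum_congr rfl fun k _ => ?_
  rw [map_smul, smul_eq_mul]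
  rfl

/-- the momentum integrand -/
theorem mom_integrand {T μ : ℝ} {Φ : ℝ → VField n} (h : IsTestV Ω T Φ) (v : Eu n) (G τ : Mt n)
    (t : ℝ) (x : Eu n) :
    inner ℝ v (fderiv ℝ (vecST Φ) (t, x) (1, 0)) + inner ℝ v (fderiv ℝ (vecST Φ) (t, x) (0, v)) -
      μ * inner ℝ G (Pool.Agent.Helper42.Jef.grad (fun y => vecST Φ (t, y)) x) -
      inner ℝ τ (Pool.Agent.Helper42.Jef.grad (fun y => vecST Φ (t, y)) x) =
    ∑ i, v i * deriv (fun s => Φ s i x) t +
      ∑ i, ∑ j, (v i * v j - μ * G (i, j) - τ (i, j)) * pd j (Φ t i) x := by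
  have hs : ContDiff ℝ ∞ (vecST Φ) := (vtest_vecST h).smooth
  have e1 : ∀ i, (fderiv ℝ (vecST Φ) (t, x) (1, 0)) i = deriv (fun s => Φ s i x) t := by
    intro i
    have h1 := time_deriv hs t x
    have h2 : HasDerivAt (fun s => Φ s i x) ((fderiv ℝ (vecST Φ) (t, x) (1, 0)) i) t :=
      (EuclideanSpace.proj (𝕜 := ℝ) i : Eu n →L[ℝ] ℝ).hasFDerivAt.comp_hasDerivAt t h1
    exact h2.deriv.symm
  have e2 : ∀ i j, Pool.Agent.Helper42.Jef.grad (fun y => vecST Φ (t, y)) x (i, j) =
      pd j (Φ t i) x := by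
    intro i j
    have h1 := pd_cmp ((Pool.Agent.Helper42.Jef.slice_smooth hs t).differentiable (by simp)) i j x
    exact h1.symm
  have e3 : ∀ i, (fderiv ℝ (vecST Φ) (t, x) (0, v)) i = ∑ j, v j * pd j (Φ t i) x := by
    intro i
    have h0 := pd_slice (ψ := fun t => Φ t i) (h.1 i).smooth t x v
    rw [← h0]
    have h1 : HasFDerivAt (fun z : ℝ × Vec n => Φ z.1 i z.2)
        ((EuclideanSpace.proj (𝕜 := ℝ) i : Eu n →L[ℝ] ℝ).comp (fderiv ℝ (vecST Φ) (t, x)))
        (t, x) :=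
      (EuclideanSpace.proj (𝕜 := ℝ) i : Eu n →L[ℝ] ℝ).hasFDerivAt.comp (t, x)
        (hs.differentiable (by simp) (t, x)).hasFDerivAt
    rw [h1.fderiv]
    rfl
  rw [inner_vec, inner_vec, inner_mat, inner_mat]
  simp only [e1, e2, e3]
  simp only [Finset.mul_sum, sub_mul, Finset.sum_sub_distrib]
  have a1 : ∀ i, ∑ j, v i * (v j * pd j (Φ t i) x) = ∑ j, v i * v j * pd j (Φ t i) x :=
    fun i => Finset.sum_congr rfl fun j _ => by ring
  have a2 : ∀ i, ∑ j, μ * (G (i, j) * pd j (Φ t i) x) = ∑ j, μ * G (i, j) * pd j (Φ t i) x :=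
    fun i => Finset.sum_congr rfl fun j _ => by ring
  simp only [a1, a2]
  ring

/-- the integrand of the constitutive law -/
theorem law_integrand {T η lam1 lam2 : ℝ} {ψ : ℝ → Vec n → ℝ} (h : IsTest Ω T ψ) (i j : Fin n)
    (v : ℝ → VField n) (G τ : ST n → Mt n) (v' : ST n → Eu n)
    (hv : ∀ t i x, v t i x = v' (t, x) i) (t : ℝ) (x : Eu n) :
    inner ℝ (τ (t, x)) (matST ψ i j (t, x)) -
      lam1 * inner ℝ (τ (t, x)) (fderiv ℝ (matST ψ i j) (t, x) (1, 0)) -
      lam1 * inner ℝ (τ (t, x)) (fderiv ℝ (matST ψ i j) (t, x) (0, v' (t, x))) +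
      lam1 * inner ℝ (br (τ (t, x)) (sp (G (t, x)))) (matST ψ i j (t, x)) -
      2 * η * (1 - lam2 / lam1) * inner ℝ (sy (G (t, x))) (matST ψ i j (t, x)) =
    τ (t, x) (i, j) * ψ t x -
      lam1 * τ (t, x) (i, j) * (deriv (fun s => ψ s x) t + ∑ k, v t k x * pd k (ψ t) x) +
      lam1 * (mul (cmpM fun x => τ (t, x)) (spin (cmpM fun x => G (t, x))) i j x -
        mul (spin (cmpM fun x => G (t, x))) (cmpM fun x => τ (t, x)) i j x) * ψ t x -
      2 * η * (1 - lam2 / lam1) * strain (cmpM fun x => G (t, x)) i j x * ψ t x := by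
  have hd : ∀ w : ST n, fderiv ℝ (matST ψ i j) (t, x) w =
      fderiv ℝ (fun z : ℝ × Vec n => ψ z.1 z.2) (t, x) w •
        EuclideanSpace.single (i, j) (1 : ℝ) := by
    intro w
    have h1 : HasFDerivAt (fun z : ℝ × Vec n => ψ z.1 z.2)
        (fderiv ℝ (fun z : ℝ × Vec n => ψ z.1 z.2) (t, x)) (t, x) :=
      (h.smooth.differentiable (by simp) (t, x)).hasFDerivAt
    have h2 := h1.smul_const (EuclideanSpace.single (i, j) (1 : ℝ) : Mt n)
    have h3 : fderiv ℝ (matST ψ i j) (t, x) = _ := h2.fderiv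
    rw [h3]
    rfl
  have ht : fderiv ℝ (fun z : ℝ × Vec n => ψ z.1 z.2) (t, x) (1, 0) = deriv (fun s => ψ s x) t :=
    (time_deriv h.smooth t x).deriv.symm
  rw [hd, hd, ht, pd_slice h.smooth]
  have hm : matST ψ i j (t, x) = ψ t x • EuclideanSpace.single (i, j) (1 : ℝ) := rfl
  rw [hm]
  simp only [inner_entry]
  have e1 : br (τ (t, x)) (sp (G (t, x))) (i, j) =
      mul (cmpM fun x => τ (t, x)) (spin (cmpM fun x => G (t, x))) i j x -
        mul (spin (cmpM fun x => G (t, x))) (cmpM fun x => τ (t, x)) i j x := by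
    rw [Pool.Agent.Helper42.Jef.br_apply, Finset.sum_sub_distrib]
    unfold mul
    congr 1
    · refine Finset.sum_congr rfl fun k _ => ?_
      rw [Pool.Agent.Helper42.Jef.sp_apply]
      unfold cmpM spin
      simp only [Prod.swap_prod_mk]
      ring
    · refine Finset.sum_congr rfl fun k _ => ?_
      rw [Pool.Agent.Helper42.Jef.sp_apply]
      unfold cmpM spin
      simp only [Prod.swap_prod_mk]
      ring
  have e2 : sy (G (t, x)) (i, j) = strain (cmpM fun x => G (t, x)) i j x := by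
    rw [Pool.Agent.Helper42.Jef.sy_apply]
    unfold cmpM strain
    simp only [Prod.swap_prod_mk]
    ring
  rw [e1, e2]
  simp only [hv]
  ring

theorem main (hΩ : IsOpen Ω) (hΩb : Bornology.IsBounded Ω) {η lam1 lam2 : ℝ} (hη : 0 < η)
    (hlam2 : 0 < lam2) (hlam : lam2 < lam1) {v0 : VField n} (hv0 : InL2 Ω v0) {τ0 : MField n}
    (hτ0 : InL2M Ω τ0) (hsym : ∀ i j, ∀ᵐ x ∂(volume.restrict Ω), τ0 i j x = τ0 j i x)
    {f : ℝ → VField n → ℝ} (hf : IsForce Ω f) :
    HasGlobalWeakSolution Ω η lam1 lam2 f v0 τ0 := by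
  have hΩm := hΩ.measurableSet
  obtain ⟨F, g, hF, hFf⟩ := force_cmp hΩm hf
  set v0' : Eu n → Eu n := fun x => WithLp.toLp 2 (fun i => v0 i x) with hv0'
  set τ0' : Eu n → Mt n := fun x => WithLp.toLp 2 (fun p : Fin n × Fin n => τ0 p.1 p.2 x) with hτ0'
  have hs' : ∀ᵐ x ∂(volume.restrict Ω), tr (τ0' x) = τ0' x := by
    have h1 : ∀ᵐ x ∂(volume.restrict Ω), ∀ i j, τ0 i j x = τ0 j i x :=
      ae_all_iff.2 fun i => ae_all_iff.2 fun j => hsym i j
    filter_upwards [h1] with x hx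
    ext p
    exact (hx p.1 p.2).symm
  obtain ⟨v, G, τ, hglob⟩ := Pool.Agent.Helper42.Jef.core hΩ hΩb hη hlam2 hlam
    (v0 := v0') (memLp_vec hv0) (τ0 := τ0') (memLp_mat hτ0) hs' hF
  refine ⟨fun t => cmp fun x => v (t, x), fun t => cmpM fun x => G (t, x),
    fun t => cmpM fun x => τ (t, x), fun T hT => ?_⟩
  have H := hglob T hT
  have hFf' : ∀ᵐ t ∂(volume.restrict (Ioo 0 T)), ∀ φ : Eu n → Eu n, F t φ = f t (cmp φ) :=
    ae_mono (Measure.restrict_mono (fun t ht => ht.1) le_rfl) hFf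
  have hprod : (volume : Measure (ST n)).restrict (Ioo 0 T ×ˢ Ω) =
      ((volume : Measure ℝ).restrict (Ioo 0 T)).prod ((volume : Measure (Eu n)).restrict Ω) := by
    rw [Measure.prod_restrict]; rfl
  refine
    { meas_v := fun i => (memLp_cmp H.mem_v i).1
      meas_G := fun i j => (memLp_cmpM H.mem_G i j).1
      meas_τ := fun i j => (memLp_cmpM H.mem_τ i j).1
      in_V := ?_
      sq_V := ?_
      bd_v := ?_
      bd_τ := ?_
      symm := ?_
      momentum := ?_
      stress := ?_ }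
  · rw [ae_restrict_iff' measurableSet_Ioo]
    filter_upwards [H.slices] with t ht htT
    exact inV_cmp (ht htT).1 (ht htT).2.1 (ht htT).2.2
  · have h1 : Integrable (fun z : ST n => ‖v z‖ ^ 2 + ‖G z‖ ^ 2)
        (volume.restrict (Ioo 0 T ×ˢ Ω)) :=
      H.mem_v.norm.integrable_sq.add H.mem_G.norm.integrable_sq
    rw [hprod] at h1
    have h2 := h1.integral_prod_left
    refine h2.congr (Eventually.of_forall fun t => ?_)
    exact (sqNorm_cmp _ _).symm
  · obtain ⟨C, hC⟩ := H.bd_v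
    refine ⟨max C 0, ?_⟩
    rw [ae_restrict_iff' measurableSet_Ioo]
    filter_upwards [hC, H.slices] with t ht ht2 htT
    rw [sqNorm_cmp_zero]
    have hm : MemLp (fun x => v (t, x)) 2 (volume.restrict Ω) := (ht2 htT).1.restrict Ω
    rw [← Pool.Agent.Helper42.Jef.toReal_eLpNorm_sq hm, ← ENNReal.toReal_pow]
    refine ENNReal.toReal_le_of_le_ofReal (le_max_right _ _) ?_
    rw [← Pool.Agent.Helper42.Jef.lint_sq_eq]
    exact (ht htT).trans (ENNReal.ofReal_le_ofReal (le_max_left _ _))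
  · obtain ⟨C, hC⟩ := H.bd_τ
    refine ⟨max C 0, ?_⟩
    have h1 : Integrable (fun z : ST n => ‖τ z‖ ^ 2) (volume.restrict (Ioo 0 T ×ˢ Ω)) :=
      H.mem_τ.norm.integrable_sq
    have hmτ := H.mem_τ.1
    rw [hprod] at hmτ
    have hsl := hmτ.prodMk_left
    rw [ae_restrict_iff' measurableSet_Ioo] at hsl ⊢
    filter_upwards [hC, hsl] with t ht ht2 htT
    have hb : eLpNorm (fun x => τ (t, x)) 2 (volume.restrict Ω) ^ 2 ≤ ENNReal.ofReal (max C 0) := by
      rw [← Pool.Agent.Helper42.Jef.lint_sq_eq]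
      exact (ht htT).trans (ENNReal.ofReal_le_ofReal (le_max_left _ _))
    have hm : MemLp (fun x => τ (t, x)) 2 (volume.restrict Ω) := by
      refine ⟨ht2 htT, ?_⟩
      by_contra hc
      rw [not_lt, top_le_iff] at hc
      rw [hc] at hb
      simp at hb
    refine ⟨fun i j => memLp_cmpM hm i j, ?_⟩
    rw [sqNorm_zero_cmp, ← Pool.Agent.Helper42.Jef.toReal_eLpNorm_sq hm, ← ENNReal.toReal_pow]
    exact ENNReal.toReal_le_of_le_ofReal (le_max_right _ _) hb
  · intro t i j x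
    have h1 := congrArg (fun A : Mt n => A (j, i)) (H.symm (t, x))
    exact h1
  · intro Φ hΦ
    have h1 := H.mom (vecST Φ) (vtest_vecST hΦ)
    unfold MomentumEq
    refine Eq.trans ?_ h1
    congr 1
    · refine integral_congr_ae ?_
      filter_upwards [hFf'] with t ht
      congr 1
      · refine integral_congr_ae (Eventually.of_forall fun x => ?_)
        exact (mom_integrand hΦ (v (t, x)) (G (t, x)) (τ (t, x)) t x).symm
      · exact (ht (fun x => vecST Φ (t, x))).symm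
    · refine integral_congr_ae (Eventually.of_forall fun x => ?_)
      simp only [inner_vec]
      rfl
  · intro i j ψ hψ
    have h1 := H.law (matST ψ i j) (mtest_matST hψ i j)
    unfold StressEq
    refine Eq.trans ?_ h1
    congr 1
    · refine integral_congr_ae (Eventually.of_forall fun t => ?_)
      refine integral_congr_ae (Eventually.of_forall fun x => ?_)
      exact (law_integrand hψ i j (fun t => cmp fun x => v (t, x)) G τ v
        (fun _ _ _ => rfl) t x).symm
    · congr 1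
      refine integral_congr_ae (Eventually.of_forall fun x => ?_)
      have hm : matST ψ i j (0, x) = ψ 0 x • EuclideanSpace.single (i, j) (1 : ℝ) := rfl
      simp only [hm, inner_entry]
      rfl

end Pool.Agent.Helper42.JefStmt
end
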